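import Pool.Agent.Lib.MP_fa0334_an.Spec

section
/-!
Mollifiers on `ℂ` (used by MOLL and WEYL).
-/
set_option autoImplicit false

open MeasureTheory Set Filter Topology Metric Complex
open scoped ContDiff ENNReal ComplexConjugate Convolution

namespace MPfa.Mol

/-- the width of the `n`-th mollifier -/
noncomputable def wd (n : ℕ) : ℝ := 1 / ((n : ℝ) + 1)

theorem wd_pos (n : ℕ) : 0 < wd n := by unfold wd; positivity

theorem wd_le_one (n : ℕ) : wd n ≤ 1 := by
  unfold wd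
  rw [div_le_one (by positivity)]
  have : (0 : ℝ) ≤ n := Nat.cast_nonneg n
  linarith

theorem wd_tendsto : Tendsto wd atTop (𝓝 0) := tendsto_one_div_add_atTop_nhds_zero_nat

theorem wd_anti {m n : ℕ} (h : m ≤ n) : wd n ≤ wd m := by
  unfold wd
  apply one_div_le_one_div_of_le (by positivity)
  have : (m : ℝ) ≤ n := by exact_mod_cast h
  linarith

/-- the bump -/
noncomputable def bp (n : ℕ) : ContDiffBump (0 : ℂ) :=
  ⟨wd n / 2, wd n, half_pos (wd_pos n), half_lt_self (wd_pos n)⟩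

/-- the mollifier -/
noncomputable def rho (n : ℕ) : ℂ → ℝ := (bp n).normed volume

theorem rho_sm (n : ℕ) : ContDiff ℝ ∞ (rho n) := (bp n).contDiff_normed

theorem rho_nonneg (n : ℕ) (z : ℂ) : 0 ≤ rho n z := (bp n).nonneg_normed z

theorem rho_integral (n : ℕ) : ∫ z, rho n z = 1 := (bp n).integral_normed

theorem rho_hcs (n : ℕ) : HasCompactSupport (rho n) := (bp n).hasCompactSupport_normed

theorem rho_neg (n : ℕ) (z : ℂ) : rho n (-z) = rho n z := (bp n).normed_neg z

theorem rho_zero {n : ℕ} {z : ℂ} (hz : wd n ≤ ‖z‖) : rho n z = 0 := by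
  have h1 : z ∉ Function.support ((bp n).normed volume) := by
    rw [(bp n).support_normed_eq, mem_ball_zero_iff, not_lt]
    exact hz
  exact Function.notMem_support.1 h1

theorem rho_tsupport (n : ℕ) : tsupport (rho n) = closedBall 0 (wd n) :=
  (bp n).tsupport_normed_eq

theorem rho_integrable (n : ℕ) : Integrable (rho n) :=
  (rho_sm n).continuous.integrable_of_hasCompactSupport (rho_hcs n)

theorem rho_meas (n : ℕ) : Measurable (rho n) := (rho_sm n).continuous.measurable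

theorem lint_left (n : ℕ) (x : ℂ) : ∫⁻ y, ENNReal.ofReal (rho n (x - y)) = 1 := by
  rw [← ofReal_integral_eq_lintegral_ofReal]
  · rw [integral_sub_left_eq_self (fun y => rho n y) volume x, rho_integral]
    simp
  · exact (rho_integrable n).comp_sub_left x
  · exact Eventually.of_forall fun y => rho_nonneg n _

theorem lint_right (n : ℕ) (y : ℂ) : ∫⁻ x, ENNReal.ofReal (rho n (x - y)) = 1 := by
  rw [← lint_left n y]
  congr 1
  funext x
  rw [← rho_neg, neg_sub]

/-- mollification -/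
noncomputable def mol (n : ℕ) (F : ℂ → ℂ) (x : ℂ) : ℂ := ∫ y, rho n (x - y) • F y

theorem mol_eq (n : ℕ) (F : ℂ → ℂ) :
    mol n F = F ⋆[(ContinuousLinearMap.lsmul ℝ ℝ : ℝ →L[ℝ] ℂ →L[ℝ] ℂ).flip, volume] rho n := by
  funext x
  simp only [mol, convolution_def, ContinuousLinearMap.flip_apply, ContinuousLinearMap.lsmul_apply]

theorem mol_sm (n : ℕ) {F : ℂ → ℂ} (hF : LocallyIntegrable F) : ContDiff ℝ ∞ (mol n F) := by
  rw [mol_eq]
  exact (rho_hcs n).contDiff_convolution_right _ hF (rho_sm n)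

theorem mol_int (n : ℕ) {F : ℂ → ℂ} (hF : LocallyIntegrable F) (x : ℂ) :
    Integrable fun y => rho n (x - y) • F y :=
  (rho_hcs n).convolutionExists_right
    ((ContinuousLinearMap.lsmul ℝ ℝ : ℝ →L[ℝ] ℂ →L[ℝ] ℂ).flip) hF (rho_sm n).continuous x

theorem mol_fderiv (n : ℕ) {F : ℂ → ℂ} (hF : LocallyIntegrable F) (x v : ℂ) :
    fderiv ℝ (mol n F) x v = ∫ y, (fderiv ℝ (rho n) (x - y) v) • F y := by
  have h := (rho_hcs n).hasFDerivAt_convolution_right
    ((ContinuousLinearMap.lsmul ℝ ℝ : ℝ →L[ℝ] ℂ →L[ℝ] ℂ).flip) hF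
    ((rho_sm n).of_le (by simp)) x
  rw [mol_eq, h.fderiv, convolution_precompR_apply _ hF ((rho_hcs n).fderiv ℝ)
    ((rho_sm n).continuous_fderiv (by simp))]
  rfl

theorem mol_fderiv_int (n : ℕ) {F : ℂ → ℂ} (hF : LocallyIntegrable F) (x v : ℂ) :
    Integrable fun y => (fderiv ℝ (rho n) (x - y) v) • F y :=
  ((rho_hcs n).fderiv_apply (𝕜 := ℝ) v).convolutionExists_right
    ((ContinuousLinearMap.lsmul ℝ ℝ : ℝ →L[ℝ] ℂ →L[ℝ] ℂ).flip) hF
    (((rho_sm n).continuous_fderiv (by simp)).clm_apply continuous_const) x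

/-- the test function `y ↦ ρ_n (x - y)` -/
theorem test_rho {G : Set ℂ} (n : ℕ) (x : ℂ) (h : closedBall x (wd n) ⊆ G) :
    Test G (fun y => rho n (x - y)) := by
  have hs : tsupport (fun y => rho n (x - y)) ⊆ closedBall x (wd n) := by
    refine closure_minimal ?_ isClosed_closedBall
    intro t ht
    by_contra hc
    rw [mem_closedBall, dist_comm, dist_eq, not_le] at hc
    exact ht (rho_zero hc.le)
  exact ⟨(rho_sm n).comp (contDiff_const.sub contDiff_id),
    (isCompact_closedBall _ _).of_isClosed_subset (isClosed_tsupport _) hs, hs.trans h⟩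

theorem fderiv_rho_sub (n : ℕ) (x t e : ℂ) :
    fderiv ℝ (fun y => rho n (x - y)) t e = -fderiv ℝ (rho n) (x - t) e := by
  have h1 : HasFDerivAt (fun t : ℂ => x - t) (-ContinuousLinearMap.id ℝ ℂ) t := by
    simpa using (hasFDerivAt_id (𝕜 := ℝ) t).const_sub x
  have h2 := (((rho_sm n).differentiable (by simp)) (x - t)).hasFDerivAt.comp t h1
  have h3 : fderiv ℝ (fun y => rho n (x - y)) t =
      (fderiv ℝ (rho n) (x - t)).comp (-ContinuousLinearMap.id ℝ ℂ) := h2.fderiv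
  rw [h3]
  simp

theorem fderiv_rho_zero {n : ℕ} {z : ℂ} (hz : wd n < ‖z‖) : fderiv ℝ (rho n) z = 0 := by
  have : z ∉ tsupport (rho n) := by
    rw [rho_tsupport, mem_closedBall_zero_iff, not_le]
    exact hz
  exact image_eq_zero_of_notMem_tsupport fun h => this (tsupport_fderiv_subset ℝ h)

/-- the derivative of the mollification is the mollification of the weak derivative -/
theorem mol_fderiv_eq {G K : Set ℂ} {F F' : ℂ → ℂ} {v : ℂ}
    (hi : ∀ φ : ℂ → ℝ, Test G φ → ∫ z, (fderiv ℝ φ z v) • F z = - ∫ z, φ z • F' z)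
    (hKG : K ⊆ G) (hK : MeasurableSet K) (hF : IntegrableOn F K) (n : ℕ) (x : ℂ)
    (hx : closedBall x (wd n) ⊆ K) :
    fderiv ℝ (mol n (K.indicator F)) x v = mol n (K.indicator F') x := by
  have hFi : LocallyIntegrable (K.indicator F) :=
    ((integrable_indicator_iff hK).2 hF).locallyIntegrable
  have h1 := hi _ (test_rho n x (hx.trans hKG))
  rw [mol_fderiv n hFi]
  have e1 : ∫ y, (fderiv ℝ (rho n) (x - y) v) • K.indicator F y =
      -∫ y, (fderiv ℝ (fun y => rho n (x - y)) y v) • F y := by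
    rw [← integral_neg]
    congr 1
    funext y
    rw [fderiv_rho_sub, neg_smul, neg_neg]
    by_cases hy : y ∈ K
    · rw [indicator_of_mem hy]
    · have : wd n < ‖x - y‖ := by
        by_contra hc
        exact hy (hx (by rw [mem_closedBall, dist_comm, dist_eq]; linarith))
      rw [fderiv_rho_zero this]
      simp
  rw [e1, h1, neg_neg]
  unfold mol
  congr 1
  funext y
  by_cases hy : y ∈ K
  · rw [indicator_of_mem hy]
  · have : wd n < ‖x - y‖ := by
      by_contra hc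
      exact hy (hx (by rw [mem_closedBall, dist_comm, dist_eq]; linarith))
    rw [rho_zero this.le]
    simp

/-! ### convergence -/

theorem enorm_mol_le (n : ℕ) (F : ℂ → ℂ) (x : ℂ) : ‖mol n F x‖ₑ ≤
    ∫⁻ y, ‖F y‖ₑ * ENNReal.ofReal (rho n (x - y)) := by
  refine (enorm_integral_le_lintegral_enorm _).trans (lintegral_mono fun y => ?_)
  rw [enorm_smul, mul_comm]
  gcongr
  rw [Real.enorm_of_nonneg (rho_nonneg n _)]

theorem sq_lintegral_mul_le {α : Type*} [MeasurableSpace α] (μ : Measure α) {f k : α → ℝ≥0∞}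
    (hf : AEMeasurable f μ) (hk : AEMeasurable k μ) (h1 : ∫⁻ a, k a ∂μ ≤ 1) :
    (∫⁻ a, f a * k a ∂μ) ^ 2 ≤ ∫⁻ a, f a ^ 2 * k a ∂μ := by
  have hsq : ∀ a : ℝ≥0∞, (a ^ (1 / 2 : ℝ)) * (a ^ (1 / 2 : ℝ)) = a := by
    intro a
    rw [← ENNReal.rpow_add_of_nonneg _ _ (by norm_num) (by norm_num)]
    norm_num
  have h := ENNReal.lintegral_mul_le_Lp_mul_Lq μ Real.HolderConjugate.two_two
    (f := fun a => f a * k a ^ (1 / 2 : ℝ)) (g := fun a => k a ^ (1 / 2 : ℝ))
    (hf.mul (hk.pow_const _)) (hk.pow_const _)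
  have e1 : ∀ a, ((fun a => f a * k a ^ (1 / 2 : ℝ)) * fun a => k a ^ (1 / 2 : ℝ)) a =
      f a * k a := by
    intro a
    simp only [Pi.mul_apply]
    rw [mul_assoc, hsq]
  have e2 : ∀ a, (f a * k a ^ (1 / 2 : ℝ)) ^ (2 : ℝ) = f a ^ 2 * k a := by
    intro a
    rw [ENNReal.rpow_two, mul_pow, pow_two (k a ^ (1 / 2 : ℝ)), hsq]
  have e3 : ∀ a, (k a ^ (1 / 2 : ℝ)) ^ (2 : ℝ) = k a := by
    intro a
    rw [ENNReal.rpow_two, pow_two, hsq]
  simp only [e1, e2, e3] at h
  calc (∫⁻ a, f a * k a ∂μ) ^ 2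
      ≤ ((∫⁻ a, f a ^ 2 * k a ∂μ) ^ (1 / 2 : ℝ) * (∫⁻ a, k a ∂μ) ^ (1 / 2 : ℝ)) ^ 2 := by gcongr
    _ = (∫⁻ a, f a ^ 2 * k a ∂μ) * (∫⁻ a, k a ∂μ) := by
        rw [mul_pow, pow_two, pow_two, hsq, hsq]
    _ ≤ (∫⁻ a, f a ^ 2 * k a ∂μ) * 1 := by gcongr
    _ = _ := mul_one _

/-- the exponents `1` and `2` -/
def E12 (p : ℕ) : Prop := p = 1 ∨ p = 2

theorem pow_lint {p : ℕ} (hp : E12 p) {f k : ℂ → ℝ≥0∞} (hf : AEMeasurable f volume)
    (hk : AEMeasurable k volume) (h1 : ∫⁻ a, k a ≤ 1) :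
    (∫⁻ a, f a * k a) ^ p ≤ ∫⁻ a, f a ^ p * k a := by
  rcases hp with rfl | rfl
  · simp
  · exact sq_lintegral_mul_le volume hf hk h1

theorem lintegral_mol_le {p : ℕ} (hp : E12 p) (n : ℕ) {F : ℂ → ℂ}
    (hF : AEStronglyMeasurable F volume) :
    ∫⁻ x, ‖mol n F x‖ₑ ^ p ≤ ∫⁻ x, ‖F x‖ₑ ^ p := by
  have hmeas : Measurable fun p : ℂ × ℂ => ENNReal.ofReal (rho n (p.1 - p.2)) :=
    ENNReal.measurable_ofReal.comp ((rho_meas n).comp (measurable_fst.sub measurable_snd))
  calc ∫⁻ x, ‖mol n F x‖ₑ ^ p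
      ≤ ∫⁻ x, ∫⁻ y, ‖F y‖ₑ ^ p * ENNReal.ofReal (rho n (x - y)) := by
        refine lintegral_mono fun x => ?_
        refine (pow_le_pow_left' (enorm_mol_le n F x) p).trans ?_
        exact pow_lint hp hF.enorm
          (hmeas.comp (measurable_const.prodMk measurable_id)).aemeasurable
          (lint_left n x).le
    _ = ∫⁻ y, ∫⁻ x, ‖F y‖ₑ ^ p * ENNReal.ofReal (rho n (x - y)) := by
        apply lintegral_lintegral_swap
        have h1 : AEMeasurable (fun q : ℂ × ℂ => ‖F q.2‖ₑ ^ p) (volume.prod volume) :=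
          (hF.enorm.comp_quasiMeasurePreserving (Measure.quasiMeasurePreserving_snd)).pow_const p
        exact h1.mul hmeas.aemeasurable
    _ = ∫⁻ y, ‖F y‖ₑ ^ p := by
        congr 1
        funext y
        have h1 : Measurable fun x : ℂ => ENNReal.ofReal (rho n (x - y)) :=
          ENNReal.measurable_ofReal.comp ((rho_meas n).comp (measurable_id.sub_const y))
        rw [lintegral_const_mul _ h1, lint_right, mul_one]

theorem mol_sub (n : ℕ) {F G : ℂ → ℂ} (hF : LocallyIntegrable F) (hG : LocallyIntegrable G) :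
    mol n (F - G) = mol n F - mol n G := by
  funext x
  simp only [mol, Pi.sub_apply]
  rw [← integral_sub (mol_int n hF x) (mol_int n hG x)]
  congr 1
  funext y
  rw [smul_sub]

theorem norm_mol_sub_le (n : ℕ) {g : ℂ → ℂ} (hg : LocallyIntegrable g) {δ : ℝ} (x : ℂ) (c : ℂ)
    (h : ∀ y : ℂ, dist y x < wd n → ‖g y - c‖ ≤ δ) : ‖mol n g x - c‖ ≤ δ := by
  have h1 : c = ∫ y, rho n (x - y) • c := by
    rw [integral_smul_const, integral_sub_left_eq_self (fun y => rho n y) volume x, rho_integral,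
      one_smul]
  have hr : Integrable fun y : ℂ => rho n (x - y) := (rho_integrable n).comp_sub_left x
  have h2 : mol n g x - c = ∫ y, rho n (x - y) • (g y - c) := by
    conv_lhs => rw [h1]
    rw [mol, ← integral_sub (mol_int n hg x) (hr.smul_const c)]
    congr 1
    funext y
    rw [smul_sub]
  rw [h2]
  calc ‖∫ y, rho n (x - y) • (g y - c)‖
      ≤ ∫ y, δ * rho n (x - y) := by
        apply norm_integral_le_of_norm_le (hr.const_mul δ)
        refine Eventually.of_forall fun y => ?_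
        rw [norm_smul, Real.norm_of_nonneg (rho_nonneg n _), mul_comm]
        by_cases hxy : wd n ≤ ‖x - y‖
        · rw [rho_zero hxy]
          simp
        · push Not at hxy
          exact mul_le_mul_of_nonneg_right (h y (by rwa [dist_comm, dist_eq])) (rho_nonneg n _)
    _ = δ := by
        rw [integral_const_mul, integral_sub_left_eq_self (fun y => rho n y) volume x,
          rho_integral, mul_one]

theorem E12.ne_zero {p : ℕ} (hp : E12 p) : p ≠ 0 := by
  rcases hp with rfl | rfl <;> norm_num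

theorem E12.one_le {p : ℕ} (hp : E12 p) : (1 : ℝ≥0∞) ≤ p := by
  rcases hp with rfl | rfl <;> norm_num

theorem eLpNorm_pow {p : ℕ} (hp : E12 p) (F : ℂ → ℂ) :
    eLpNorm F p volume ^ p = ∫⁻ x, ‖F x‖ₑ ^ p := by
  have h0 : (p : ℝ≥0∞) ≠ 0 := by exact_mod_cast hp.ne_zero
  rw [eLpNorm_eq_lintegral_rpow_enorm_toReal h0 (ENNReal.natCast_ne_top p), ENNReal.toReal_natCast,
    ← ENNReal.rpow_natCast, ← ENNReal.rpow_mul]
  have h1 : (1 / (p : ℝ)) * p = 1 := by
    have : (p : ℝ) ≠ 0 := by exact_mod_cast hp.ne_zero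
    field_simp
  rw [h1, ENNReal.rpow_one]
  simp only [ENNReal.rpow_natCast]

theorem eLpNorm_mol_le {p : ℕ} (hp : E12 p) (n : ℕ) {F : ℂ → ℂ}
    (hF : AEStronglyMeasurable F volume) :
    eLpNorm (mol n F) p volume ≤ eLpNorm F p volume := by
  have h := lintegral_mol_le hp n hF
  rw [← eLpNorm_pow hp, ← eLpNorm_pow hp] at h
  exact (ENNReal.pow_le_pow_left_iff hp.ne_zero).1 h

/-- Mollifications converge in `L^p`. -/
theorem tendsto_mol' {p : ℕ} (hp : E12 p) {F : ℂ → ℂ} (hF : MemLp F p volume) :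
    Tendsto (fun n => eLpNorm (mol n F - F) p volume) atTop (𝓝 0) := by
  have hp1 := hp.one_le
  have hpt : (p : ℝ≥0∞) ≠ ⊤ := ENNReal.natCast_ne_top p
  rw [ENNReal.tendsto_nhds_zero]
  intro ε hε
  have hε3 : ε / 3 ≠ 0 := by
    rw [Ne, ENNReal.div_eq_zero_iff]
    push Not
    exact ⟨hε.ne', by norm_num⟩
  obtain ⟨g, hgc, hg1, hg2, hg3⟩ := hF.exists_hasCompactSupport_eLpNorm_sub_le hpt hε3
  have hFl : LocallyIntegrable F := hF.locallyIntegrable hp1
  have hgl : LocallyIntegrable g := hg2.locallyIntegrable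
  obtain ⟨R, hR⟩ := hgc.isCompact.isBounded.subset_closedBall (0 : ℂ)
  have hg0 : ∀ y, R < ‖y‖ → g y = 0 := by
    intro y hy
    apply image_eq_zero_of_notMem_tsupport
    intro hy'
    have := hR hy'
    simp only [mem_closedBall, dist_zero_right] at this
    linarith
  set B : Set ℂ := closedBall 0 (R + 1)
  set χ : ℂ → ℂ := B.indicator (fun _ => 1)
  have hBf : volume B ≠ ⊤ := (isCompact_closedBall (0 : ℂ) (R + 1)).measure_lt_top.ne
  have hχ : eLpNorm χ p volume ≠ ⊤ := by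
    have : MemLp χ p volume := memLp_indicator_const _ isClosed_closedBall.measurableSet 1
      (Or.inr hBf)
    exact this.eLpNorm_ne_top
  obtain ⟨δ, hδ0, hδ⟩ : ∃ δ : ℝ, 0 < δ ∧ ENNReal.ofReal δ * eLpNorm χ p volume ≤ ε / 3 := by
    have hlim : Tendsto (fun δ : ℝ => ENNReal.ofReal δ * eLpNorm χ p volume) (𝓝[>] 0) (𝓝 0) := by
      have h1 : Tendsto (fun δ : ℝ => ENNReal.ofReal δ) (𝓝[>] 0) (𝓝 0) := by
        have := (ENNReal.continuous_ofReal.tendsto 0)
        rw [ENNReal.ofReal_zero] at this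
        exact this.mono_left nhdsWithin_le_nhds
      have := ENNReal.Tendsto.mul_const (b := eLpNorm χ p volume) h1 (Or.inr hχ)
      rwa [zero_mul] at this
    have h2 := (ENNReal.tendsto_nhds_zero.1 hlim) (ε / 3) (pos_iff_ne_zero.2 hε3)
    obtain ⟨δ, h3, h4⟩ := (h2.and self_mem_nhdsWithin).exists
    exact ⟨δ, h4, h3⟩
  have huc : UniformContinuous g := hgc.uniformContinuous_of_continuous hg2
  obtain ⟨η, hη, hη'⟩ := Metric.uniformContinuous_iff.1 huc δ hδ0
  filter_upwards [wd_tendsto.eventually (gt_mem_nhds hη)] with n hn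
  have h3 : eLpNorm (mol n g - g) p volume ≤ ε / 3 := by
    refine le_trans ?_ hδ
    apply eLpNorm_le_mul_eLpNorm_of_ae_le_mul
    refine Eventually.of_forall fun x => ?_
    by_cases hx : x ∈ B
    · simp only [χ, indicator_of_mem hx, norm_one, mul_one, Pi.sub_apply]
      apply norm_mol_sub_le n hgl
      intro y hy
      rw [← dist_eq]
      exact (hη' (hy.trans hn)).le
    · have hx' : R + 1 < ‖x‖ := by
        simpa [B] using hx
      have e1 : mol n g x = 0 := by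
        unfold mol
        have : (fun y => rho n (x - y) • g y) = fun _ => 0 := by
          funext y
          by_cases h : R < ‖y‖
          · rw [hg0 y h, smul_zero]
          · push Not at h
            rw [rho_zero, zero_smul]
            have := norm_sub_norm_le x y
            have := wd_le_one n
            linarith
        rw [this, integral_zero]
      rw [Pi.sub_apply, e1, hg0 x (by linarith)]
      simp [χ, indicator_of_notMem hx]
  have h4 : mol n F - F = mol n (F - g) + (mol n g - g) - (F - g) := by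
    rw [mol_sub n hFl hgl]
    abel
  have hmeas1 : AEStronglyMeasurable (F - g) volume := hF.1.sub hg3.1
  have hmF : ∀ {H : ℂ → ℂ}, LocallyIntegrable H → AEStronglyMeasurable (mol n H) volume :=
    fun hH => (mol_sm n hH).continuous.aestronglyMeasurable
  have h5 : eLpNorm (mol n (F - g)) p volume ≤ ε / 3 := (eLpNorm_mol_le hp n hmeas1).trans hg1
  calc eLpNorm (mol n F - F) p volume
      = eLpNorm (mol n (F - g) + (mol n g - g) - (F - g)) p volume := by rw [h4]
    _ ≤ eLpNorm (mol n (F - g) + (mol n g - g)) p volume + eLpNorm (F - g) p volume :=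
        eLpNorm_sub_le ((hmF (hFl.sub hgl)).add ((hmF hgl).sub hg3.1)) hmeas1 hp1
    _ ≤ (eLpNorm (mol n (F - g)) p volume + eLpNorm (mol n g - g) p volume) +
        eLpNorm (F - g) p volume := by
        gcongr
        exact eLpNorm_add_le (hmF (hFl.sub hgl)) ((hmF hgl).sub hg3.1) hp1
    _ ≤ (ε / 3 + ε / 3) + ε / 3 := by gcongr
    _ = ε := ENNReal.add_thirds ε

theorem tendsto_mol {p : ℕ} (hp : E12 p) {F : ℂ → ℂ} (hF : MemLp F p volume) :
    Tendsto (fun n => ∫⁻ x, ‖mol n F x - F x‖ₑ ^ p) atTop (𝓝 0) := by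
  have h := ENNReal.Tendsto.pow (n := p) (tendsto_mol' hp hF)
  rw [zero_pow hp.ne_zero] at h
  refine h.congr fun n => ?_
  rw [eLpNorm_pow hp]
  rfl

/-- local convergence, with the indicator of a set `K` -/
theorem tendsto_mol_on {p : ℕ} (hp : E12 p) {F : ℂ → ℂ} {K L : Set ℂ} (hL : MeasurableSet L)
    (hLK : L ⊆ K) (hK : MeasurableSet K) (hF : AEStronglyMeasurable F (volume.restrict K))
    (hFp : ∫⁻ x in K, ‖F x‖ₑ ^ p < ⊤) :
    Tendsto (fun n => ∫⁻ x in L, ‖mol n (K.indicator F) x - F x‖ₑ ^ p) atTop (𝓝 0) := by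
  have hm : MemLp (K.indicator F) p volume := by
    have h1 : AEStronglyMeasurable (K.indicator F) volume :=
      (aestronglyMeasurable_indicator_iff hK).2 hF
    refine ⟨h1, ?_⟩
    have h2 : ∫⁻ x, ‖K.indicator F x‖ₑ ^ p = ∫⁻ x in K, ‖F x‖ₑ ^ p := by
      rw [← lintegral_indicator hK]
      congr 1
      funext x
      by_cases hx : x ∈ K
      · simp [hx]
      · simp [hx, hp.ne_zero]
    rw [lt_top_iff_ne_top]
    intro h3
    have h4 := eLpNorm_pow hp (K.indicator F)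
    rw [h3, ENNReal.top_pow hp.ne_zero, h2] at h4
    exact hFp.ne h4.symm
  have h := tendsto_mol hp hm
  refine tendsto_of_tendsto_of_tendsto_of_le_of_le tendsto_const_nhds h (fun _ => zero_le)
    fun n => ?_
  calc ∫⁻ x in L, ‖mol n (K.indicator F) x - F x‖ₑ ^ p
      = ∫⁻ x in L, ‖mol n (K.indicator F) x - K.indicator F x‖ₑ ^ p := by
        apply setLIntegral_congr_fun hL
        intro x hx
        simp only
        rw [indicator_of_mem (hLK hx)]
    _ ≤ _ := setLIntegral_le_lintegral _ _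

end MPfa.Mol
end

section
/-!
Fubini in the plane with `⟨u, v⟩`, and lengths along lines (used by VL and ATL).
-/
set_option autoImplicit false

open MeasureTheory Set Filter Topology Metric Complex
open scoped ContDiff ENNReal ComplexConjugate

namespace MPfa
namespace Lines

lemma measurable_mk : Measurable fun q : ℝ × ℝ => (⟨q.1, q.2⟩ : ℂ) :=
  Complex.measurableEquivRealProd.symm.measurable

lemma continuous_mk : Continuous fun q : ℝ × ℝ => (⟨q.1, q.2⟩ : ℂ) :=
  Complex.equivRealProdCLM.symm.continuous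

lemma lint_prod (f : ℂ → ℝ≥0∞) : ∫⁻ z, f z = ∫⁻ q : ℝ × ℝ, f ⟨q.1, q.2⟩ := by
  have := (Complex.volume_preserving_equiv_real_prod.symm _).lintegral_comp_emb
    (Complex.measurableEquivRealProd.symm.measurableEmbedding) f
  rw [← this]
  rfl

lemma lint_v (f : ℂ → ℝ≥0∞) (hf : Measurable f) :
    ∫⁻ z, f z = ∫⁻ u : ℝ, ∫⁻ v : ℝ, f ⟨u, v⟩ := by
  rw [lint_prod, Measure.volume_eq_prod]
  exact lintegral_prod _ (hf.comp measurable_mk).aemeasurable

lemma lint_h (f : ℂ → ℝ≥0∞) (hf : Measurable f) :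
    ∫⁻ z, f z = ∫⁻ v : ℝ, ∫⁻ u : ℝ, f ⟨u, v⟩ := by
  rw [lint_prod, Measure.volume_eq_prod]
  exact lintegral_prod_symm' _ (hf.comp measurable_mk)

lemma measurableSet_v {E : Set ℂ} (hE : MeasurableSet E) (u : ℝ) :
    MeasurableSet {v : ℝ | (⟨u, v⟩ : ℂ) ∈ E} :=
  (measurable_mk.comp measurable_prodMk_left) hE

lemma measurableSet_h {E : Set ℂ} (hE : MeasurableSet E) (v : ℝ) :
    MeasurableSet {u : ℝ | (⟨u, v⟩ : ℂ) ∈ E} :=
  (measurable_mk.comp measurable_prodMk_right) hE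

lemma lint_v_set {E : Set ℂ} (hE : MeasurableSet E) {f : ℂ → ℝ≥0∞} (hf : Measurable f) :
    ∫⁻ z in E, f z = ∫⁻ u : ℝ, ∫⁻ v in {v : ℝ | (⟨u, v⟩ : ℂ) ∈ E}, f ⟨u, v⟩ := by
  rw [← lintegral_indicator hE, lint_v _ (hf.indicator hE)]
  refine lintegral_congr fun u => ?_
  rw [← lintegral_indicator (measurableSet_v hE u)]
  rfl

lemma lint_h_set {E : Set ℂ} (hE : MeasurableSet E) {f : ℂ → ℝ≥0∞} (hf : Measurable f) :
    ∫⁻ z in E, f z = ∫⁻ v : ℝ, ∫⁻ u in {u : ℝ | (⟨u, v⟩ : ℂ) ∈ E}, f ⟨u, v⟩ := by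
  rw [← lintegral_indicator hE, lint_h _ (hf.indicator hE)]
  refine lintegral_congr fun v => ?_
  rw [← lintegral_indicator (measurableSet_h hE v)]
  rfl

lemma vol_v {E : Set ℂ} (hE : MeasurableSet E) :
    volume E = ∫⁻ u : ℝ, volume {v : ℝ | (⟨u, v⟩ : ℂ) ∈ E} := by
  have := lint_v_set hE (f := fun _ => 1) measurable_const
  simpa using this

lemma vol_h {E : Set ℂ} (hE : MeasurableSet E) :
    volume E = ∫⁻ v : ℝ, volume {u : ℝ | (⟨u, v⟩ : ℂ) ∈ E} := by
  have := lint_h_set hE (f := fun _ => 1) measurable_const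
  simpa using this

lemma meas_lint_v {E : Set ℂ} (hE : MeasurableSet E) {f : ℂ → ℝ≥0∞} (hf : Measurable f) :
    Measurable fun u : ℝ => ∫⁻ v in {v : ℝ | (⟨u, v⟩ : ℂ) ∈ E}, f ⟨u, v⟩ := by
  have h1 : (fun u : ℝ => ∫⁻ v in {v : ℝ | (⟨u, v⟩ : ℂ) ∈ E}, f ⟨u, v⟩) =
      fun u : ℝ => ∫⁻ v, (E.indicator f) ⟨u, v⟩ := by
    funext u
    rw [← lintegral_indicator (measurableSet_v hE u)]
    rfl
  rw [h1]
  exact ((hf.indicator hE).comp measurable_mk).lintegral_prod_right'

lemma meas_lint_h {E : Set ℂ} (hE : MeasurableSet E) {f : ℂ → ℝ≥0∞} (hf : Measurable f) :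
    Measurable fun v : ℝ => ∫⁻ u in {u : ℝ | (⟨u, v⟩ : ℂ) ∈ E}, f ⟨u, v⟩ := by
  have h1 : (fun v : ℝ => ∫⁻ u in {u : ℝ | (⟨u, v⟩ : ℂ) ∈ E}, f ⟨u, v⟩) =
      fun v : ℝ => ∫⁻ u, (E.indicator f) ⟨u, v⟩ := by
    funext v
    rw [← lintegral_indicator (measurableSet_h hE v)]
    rfl
  rw [h1]
  exact ((hf.indicator hE).comp measurable_mk).lintegral_prod_left'

/-- length along a line, closed interval -/
lemma line_len {φ ψ : ℝ → ℂ} {a b : ℝ} (hc : ContinuousOn φ (Icc a b))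
    (hac : ∀ x y, a < x → x ≤ y → y < b → IntervalIntegrable ψ volume x y ∧
      φ y - φ x = ∫ t in x..y, ψ t) {x y : ℝ} (hx : a ≤ x) (hxy : x ≤ y) (hy : y ≤ b) :
    ‖φ y - φ x‖ₑ ≤ ∫⁻ t in Ioo x y, ‖ψ t‖ₑ := by
  rcases hxy.eq_or_lt with rfl | hlt
  · simp
  have h1 : Tendsto (fun δ : ℝ => φ (x + δ)) (𝓝[>] 0) (𝓝 (φ x)) := by
    have h2 : Tendsto (fun δ : ℝ => x + δ) (𝓝[>] 0) (𝓝[Icc a b] x) := by
      refine tendsto_nhdsWithin_iff.2 ⟨?_, ?_⟩
      · have : Tendsto (fun δ : ℝ => x + δ) (𝓝 0) (𝓝 (x + 0)) :=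
          (continuous_const.add continuous_id).tendsto 0
        rw [add_zero] at this
        exact this.mono_left nhdsWithin_le_nhds
      · have h3 : Ioo (0 : ℝ) (y - x) ∈ 𝓝[>] (0 : ℝ) := Ioo_mem_nhdsGT (by linarith)
        filter_upwards [h3] with δ hδ
        exact ⟨by linarith [hδ.1], by linarith [hδ.2]⟩
    exact (hc x ⟨hx, hxy.trans hy⟩).tendsto.comp h2
  have h1' : Tendsto (fun δ : ℝ => φ (y - δ)) (𝓝[>] 0) (𝓝 (φ y)) := by
    have h2 : Tendsto (fun δ : ℝ => y - δ) (𝓝[>] 0) (𝓝[Icc a b] y) := by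
      refine tendsto_nhdsWithin_iff.2 ⟨?_, ?_⟩
      · have : Tendsto (fun δ : ℝ => y - δ) (𝓝 0) (𝓝 (y - 0)) :=
          (continuous_const.sub continuous_id).tendsto 0
        rw [sub_zero] at this
        exact this.mono_left nhdsWithin_le_nhds
      · have h3 : Ioo (0 : ℝ) (y - x) ∈ 𝓝[>] (0 : ℝ) := Ioo_mem_nhdsGT (by linarith)
        filter_upwards [h3] with δ hδ
        exact ⟨by linarith [hδ.2], by linarith [hδ.1]⟩
    exact (hc y ⟨hx.trans hxy, hy⟩).tendsto.comp h2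
  have h4 := (h1'.sub h1).enorm
  refine le_of_tendsto h4 ?_
  have h3 : Ioo (0 : ℝ) ((y - x) / 2) ∈ 𝓝[>] (0 : ℝ) := Ioo_mem_nhdsGT (by linarith)
  filter_upwards [h3] with δ hδ
  have h5 : x + δ ≤ y - δ := by linarith [hδ.2]
  obtain ⟨h6, h7⟩ := hac (x + δ) (y - δ) (by linarith [hδ.1]) h5 (by linarith [hδ.1])
  rw [h7, intervalIntegral.integral_of_le h5]
  refine (enorm_integral_le_lintegral_enorm _).trans ?_
  refine lintegral_mono_set ?_
  intro t ht
  exact ⟨by linarith [ht.1, hδ.1], by linarith [ht.2, hδ.1]⟩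

lemma dist_le_enorm {z w c : ℂ} {α β : ℝ} (h1 : ‖z - c‖ ≤ α) (h2 : β ≤ ‖w - c‖) :
    ENNReal.ofReal (β - α) ≤ ‖w - z‖ₑ := by
  rw [← ofReal_norm]
  apply ENNReal.ofReal_le_ofReal
  have := norm_sub_le (w - z) (-(z - c))
  have h3 : w - z - -(z - c) = w - c := by ring
  rw [h3, norm_neg] at this
  linarith

/-- crossing an annulus upwards -/
lemma cross_up {φ ψ : ℝ → ℂ} {a b : ℝ} (hc : ContinuousOn φ (Icc a b))
    (hac : ∀ x y, a < x → x ≤ y → y < b → IntervalIntegrable ψ volume x y ∧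
      φ y - φ x = ∫ t in x..y, ψ t) {x y : ℝ} (hx : a ≤ x) (hxy : x ≤ y) (hy : y ≤ b)
    {c : ℂ} {α β : ℝ} (h1 : ‖φ x - c‖ ≤ α) (h2 : β ≤ ‖φ y - c‖) :
    ENNReal.ofReal (β - α) ≤ ∫⁻ t in Ioo x y ∩ {t | ‖φ t - c‖ < β}, ‖ψ t‖ₑ := by
  set T : Set ℝ := {t | t ∈ Icc x y ∧ β ≤ ‖φ t - c‖} with hT
  have hc' : ContinuousOn (fun t => ‖φ t - c‖) (Icc x y) :=
    ((hc.mono (Icc_subset_Icc hx hy)).sub continuousOn_const).norm
  have hTc : IsClosed T := by
    have := hc'.preimage_isClosed_of_isClosed isClosed_Icc (isClosed_Ici (a := β))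
    exact this
  have hTn : T.Nonempty := ⟨y, ⟨hxy, le_rfl⟩, h2⟩
  have hTb : BddBelow T := ⟨x, fun t ht => ht.1.1⟩
  have h0 : sInf T ∈ T := hTc.csInf_mem hTn hTb
  have h3 : Ioo x (sInf T) ⊆ Ioo x y ∩ {t | ‖φ t - c‖ < β} := by
    intro t ht
    refine ⟨⟨ht.1, ht.2.trans_le h0.1.2⟩, ?_⟩
    by_contra hcon
    have hcon' : β ≤ ‖φ t - c‖ := not_lt.1 hcon
    have : sInf T ≤ t := csInf_le hTb ⟨⟨ht.1.le, ht.2.le.trans h0.1.2⟩, hcon'⟩
    exact absurd ht.2 (not_lt.2 this)
  have h4 := line_len hc hac hx h0.1.1 (h0.1.2.trans hy)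
  exact (dist_le_enorm h1 h0.2).trans (h4.trans (lintegral_mono_set h3))

/-- crossing an annulus downwards -/
lemma cross_down {φ ψ : ℝ → ℂ} {a b : ℝ} (hc : ContinuousOn φ (Icc a b))
    (hac : ∀ x y, a < x → x ≤ y → y < b → IntervalIntegrable ψ volume x y ∧
      φ y - φ x = ∫ t in x..y, ψ t) {x y : ℝ} (hx : a ≤ x) (hxy : x ≤ y) (hy : y ≤ b)
    {c : ℂ} {α β : ℝ} (h1 : ‖φ y - c‖ ≤ α) (h2 : β ≤ ‖φ x - c‖) :
    ENNReal.ofReal (β - α) ≤ ∫⁻ t in Ioo x y ∩ {t | ‖φ t - c‖ < β}, ‖ψ t‖ₑ := by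
  set T : Set ℝ := {t | t ∈ Icc x y ∧ β ≤ ‖φ t - c‖} with hT
  have hc' : ContinuousOn (fun t => ‖φ t - c‖) (Icc x y) :=
    ((hc.mono (Icc_subset_Icc hx hy)).sub continuousOn_const).norm
  have hTc : IsClosed T := by
    have := hc'.preimage_isClosed_of_isClosed isClosed_Icc (isClosed_Ici (a := β))
    exact this
  have hTn : T.Nonempty := ⟨x, ⟨le_rfl, hxy⟩, h2⟩
  have hTb : BddAbove T := ⟨y, fun t ht => ht.1.2⟩
  have h0 : sSup T ∈ T := hTc.csSup_mem hTn hTb
  have h3 : Ioo (sSup T) y ⊆ Ioo x y ∩ {t | ‖φ t - c‖ < β} := by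
    intro t ht
    refine ⟨⟨h0.1.1.trans_lt ht.1, ht.2⟩, ?_⟩
    by_contra hcon
    have hcon' : β ≤ ‖φ t - c‖ := not_lt.1 hcon
    have : t ≤ sSup T := le_csSup hTb ⟨⟨h0.1.1.trans ht.1.le, ht.2.le⟩, hcon'⟩
    exact absurd ht.1 (not_lt.2 this)
  have h4 := line_len hc hac (hx.trans h0.1.1) h0.1.2 hy
  rw [← enorm_neg, neg_sub] at h4
  exact (dist_le_enorm h1 h0.2).trans (h4.trans (lintegral_mono_set h3))

/-- crossing in either direction -/
lemma cross {φ ψ : ℝ → ℂ} {a b : ℝ} (hc : ContinuousOn φ (Icc a b))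
    (hac : ∀ x y, a < x → x ≤ y → y < b → IntervalIntegrable ψ volume x y ∧
      φ y - φ x = ∫ t in x..y, ψ t) {x y : ℝ} (hx : x ∈ Icc a b) (hy : y ∈ Icc a b)
    {c : ℂ} {α β : ℝ} (h1 : ‖φ x - c‖ ≤ α) (h2 : β ≤ ‖φ y - c‖) :
    ENNReal.ofReal (β - α) ≤ ∫⁻ t in Ioo a b ∩ {t | ‖φ t - c‖ < β}, ‖ψ t‖ₑ := by
  rcases le_total x y with h | h
  · refine (cross_up hc hac hx.1 h hy.2 h1 h2).trans (lintegral_mono_set ?_)
    exact inter_subset_inter_left _ (Ioo_subset_Ioo hx.1 hy.2)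
  · refine (cross_down hc hac hy.1 h hx.2 h1 h2).trans (lintegral_mono_set ?_)
    exact inter_subset_inter_left _ (Ioo_subset_Ioo hy.1 hx.2)

end Lines
end MPfa
end

section
/-!
Module VL: the fibres of a solution of `AH = 1` project to null sets of the real axis.
-/
set_option autoImplicit false

open MeasureTheory Set Filter Topology Metric Complex
open scoped ContDiff ENNReal ComplexConjugate

namespace MPfa
namespace VLM

lemma qq {p : ℝ} (hp : 1 < p) : (2 * p / (p + 1)).HolderConjugate (2 * p / (p - 1)) := by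
  rw [Real.holderConjugate_iff]
  have h1 : 0 < p - 1 := by linarith
  have h2 : 0 < p + 1 := by linarith
  refine ⟨by rw [lt_div_iff₀ h2]; linarith, ?_⟩
  field_simp
  ring

lemma meas_jac' {a b : ℂ → ℂ} (ha : Measurable a) (hb : Measurable b) :
    Measurable fun z => jac (a z) (b z) := by
  unfold jac
  exact ((Complex.measurable_re.comp ha).mul (Complex.measurable_im.comp hb)).sub
    ((Complex.measurable_im.comp ha).mul (Complex.measurable_re.comp hb))

variable {p : ℝ} {S : Set ℂ} {Ψ H Hx Hy : ℂ → ℂ}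

lemma open_rho (h : NM p S Ψ H Hx Hy) (c : ℂ) (r : ℝ) : IsOpen (S ∩ {z | ‖H z - c‖ < r}) := by
  have h1 := h.co.isOpen_inter_preimage h.op (isOpen_ball (x := c) (ε := r))
  convert h1 using 2
  ext z
  simp [dist_eq_norm]

lemma int_jac (h : NM p S Ψ H Hx Hy) (c : ℂ) (r : ℝ) {E : Set ℂ} (hEm : MeasurableSet E)
    (hE : E ⊆ S ∩ {z | ‖H z - c‖ < r}) :
    ∫⁻ z in E, ENNReal.ofReal (jac (Hx z) (Hy z)) ≤ ENNReal.ofReal r ^ 2 * NNReal.pi := by
  have h1 := h.mu ((ball c r).indicator 1) (measurable_one.indicator isOpen_ball.measurableSet)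
  rw [lintegral_indicator_one isOpen_ball.measurableSet, Complex.volume_ball] at h1
  refine le_trans ?_ h1
  have h2 : ∫⁻ z in E, ENNReal.ofReal (jac (Hx z) (Hy z)) =
      ∫⁻ z in E, (ball c r).indicator 1 (H z) * ENNReal.ofReal (jac (Hx z) (Hy z)) := by
    refine setLIntegral_congr_fun hEm fun z hz => ?_
    have h3 : H z ∈ ball c r := by
      rw [mem_ball, dist_eq_norm]
      exact (hE hz).2
    simp only [indicator_of_mem h3, Pi.one_apply, one_mul]
  rw [h2]
  exact lintegral_mono_set fun z hz => (hE hz).1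

lemma null_fibre (h : NM p S Ψ H Hx Hy) (c : ℂ) : volume (S ∩ {z | H z = c}) = 0 := by
  have h1 := h.mu (({c} : Set ℂ).indicator 1) (measurable_one.indicator (measurableSet_singleton c))
  rw [lintegral_indicator_one (measurableSet_singleton c), measure_singleton] at h1
  have h2 : ∫⁻ z in S, ({c} : Set ℂ).indicator 1 (H z) * ENNReal.ofReal (jac (Hx z) (Hy z)) = 0 :=
    le_antisymm h1 bot_le
  have hm : AEMeasurable (fun z => ({c} : Set ℂ).indicator (1 : ℂ → ℝ≥0∞) (H z) *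
      ENNReal.ofReal (jac (Hx z) (Hy z))) (volume.restrict S) := by
    refine AEMeasurable.mul ?_ ?_
    · exact (measurable_one.indicator (measurableSet_singleton c)).comp_aemeasurable
        (h.co.aemeasurable h.op.measurableSet)
    · exact (meas_jac' h.wd.mx h.wd.my).ennreal_ofReal.aemeasurable
  rw [lintegral_eq_zero_iff' hm] at h2
  have h3 : ∀ᵐ z ∂(volume.restrict S), ¬ (H z = c) := by
    filter_upwards [h2, h.eq] with z hz1 hz2 hz3
    simp only [hz3, mem_singleton_iff, indicator_of_mem, Pi.one_apply, one_mul,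
      Pi.zero_apply, ENNReal.ofReal_eq_zero] at hz1
    linarith [hz2.1]
  rw [ae_restrict_iff' h.op.measurableSet] at h3
  have h4 : (S ∩ {z | H z = c}) ⊆ {z | ¬ (z ∈ S → ¬ H z = c)} := by
    intro z hz
    simp only [mem_ofPred_eq, Classical.not_imp, not_not]
    exact hz
  exact measure_mono_null h4 h3

/-- the two inequalities of ALG2, for a fixed exponent -/
def AlgC (p C : ℝ) : Prop := ∀ a b : ℂ, 0 < jac a b → AH p a b = 1 →
  (a * conj b).re = 0 ∧ jac a b = ‖a‖ * ‖b‖ ∧ ‖b‖ < ‖a‖ ∧ 0 < ‖b‖ ∧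
  ‖b‖ ^ (2 * p / (p + 1)) ≤ C * jac a b ∧
  ‖a‖ * ‖b‖ ^ (1 - 2 * p / (p + 1)) ≤ C * (1 + jac a b)

/-- Hölder for the vertical derivative -/
lemma int_Hy {C : ℝ} (hp : 1 < p) (hC : 0 < C) (hA : AlgC p C)
    (h : NM p S (fun _ => 1) H Hx Hy) (c : ℂ) {r : ℝ} (hr : 0 ≤ r) {E : Set ℂ}
    (hEm : MeasurableSet E) (hE : E ⊆ S ∩ {z | ‖H z - c‖ < r}) (hEf : volume E ≠ ⊤) :
    ∫⁻ z in E, ‖Hy z‖ₑ ≤ ENNReal.ofReal ((C * (r ^ 2 * Real.pi)) ^ (1 / (2 * p / (p + 1))) *
      (volume.real E) ^ (1 / (2 * p / (p - 1)))) := by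
  have hq := qq hp
  have h1 := ENNReal.lintegral_mul_le_Lp_mul_Lq (volume.restrict E) hq
    (f := fun z => ‖Hy z‖ₑ) (g := fun _ => 1) h.wd.my.enorm.aemeasurable aemeasurable_const
  have h2 : ∫⁻ z in E, ‖Hy z‖ₑ ^ (2 * p / (p + 1)) ≤
      ENNReal.ofReal (C * (r ^ 2 * Real.pi)) := by
    have h3 : ∀ᵐ z ∂(volume.restrict E), ‖Hy z‖ₑ ^ (2 * p / (p + 1)) ≤
        ENNReal.ofReal C * ENNReal.ofReal (jac (Hx z) (Hy z)) := by
      have h4 : ∀ᵐ z ∂(volume.restrict E), 0 < jac (Hx z) (Hy z) ∧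
          AH p (Hx z) (Hy z) = 1 :=
        ae_restrict_of_ae_restrict_of_subset (fun z hz => (hE hz).1) h.eq
      filter_upwards [h4] with z hz
      have h5 := (hA _ _ hz.1 hz.2).2.2.2.2.1
      rw [← ofReal_norm, ENNReal.ofReal_rpow_of_nonneg (norm_nonneg _) hq.nonneg,
        ← ENNReal.ofReal_mul hC.le]
      exact ENNReal.ofReal_le_ofReal h5
    calc ∫⁻ z in E, ‖Hy z‖ₑ ^ (2 * p / (p + 1))
        ≤ ∫⁻ z in E, ENNReal.ofReal C * ENNReal.ofReal (jac (Hx z) (Hy z)) :=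
          lintegral_mono_ae h3
      _ = ENNReal.ofReal C * ∫⁻ z in E, ENNReal.ofReal (jac (Hx z) (Hy z)) :=
          lintegral_const_mul _ (meas_jac' h.wd.mx h.wd.my).ennreal_ofReal
      _ ≤ ENNReal.ofReal C * (ENNReal.ofReal r ^ 2 * NNReal.pi) := by
          gcongr
          exact int_jac h c r hEm hE
      _ = ENNReal.ofReal (C * (r ^ 2 * Real.pi)) := by
          rw [ENNReal.ofReal_mul hC.le, ENNReal.ofReal_mul (by positivity),
            ENNReal.ofReal_pow hr]
          congr 2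
          rw [← NNReal.coe_real_pi, ENNReal.ofReal_coe_nnreal]
  simp only [Pi.mul_apply, mul_one] at h1
  refine h1.trans ?_
  rw [ENNReal.ofReal_mul (by positivity)]
  refine mul_le_mul' ?_ ?_
  · rw [← ENNReal.ofReal_rpow_of_nonneg (by positivity) (by have := hq.pos; positivity)]
    exact ENNReal.rpow_le_rpow h2 (by have := hq.pos; positivity)
  · simp only [ENNReal.one_rpow, lintegral_const, one_mul, Measure.restrict_apply,
      MeasurableSet.univ, univ_inter]
    rw [← ENNReal.ofReal_rpow_of_nonneg measureReal_nonneg (by have := hq.symm.pos; positivity),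
      ofReal_measureReal hEf]

lemma measurable_fibre (h : NM p S Ψ H Hx Hy) (c : ℂ) : MeasurableSet (S ∩ {z | H z = c}) := by
  have h1 := h.co.isOpen_inter_preimage h.op (isOpen_compl_singleton (x := c))
  have h2 : S ∩ {z | H z = c} = S \ (S ∩ H ⁻¹' {c}ᶜ) := by
    ext z
    simp only [mem_inter_iff, mem_ofPred_eq, Set.mem_sdiff, mem_preimage, mem_compl_iff,
      mem_singleton_iff]
    tauto
  rw [h2]
  exact h.op.measurableSet.diff h1.measurableSet

/-- the rectangle version -/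
lemma rect {C : ℝ} (hp : 1 < p) (hC : 0 < C) (hA : AlgC p C)
    (h : NM p S (fun _ => 1) H Hx Hy) (hV : VAC S H Hy) (c : ℂ) (u₁ u₂ v₁ v₂ : ℝ)
    (hv : v₁ < v₂)
    (hR : ∀ u ∈ Icc u₁ u₂, ∀ v ∈ Icc v₁ v₂, (⟨u, v⟩ : ℂ) ∈ S) :
    volume {u : ℝ | u ∈ Icc u₁ u₂ ∧ ∃ v ∈ Icc v₁ v₂, H ⟨u, v⟩ = c} = 0 := by
  have hq := qq hp
  set Z : Set ℝ := {u : ℝ | u ∈ Icc u₁ u₂ ∧ ∃ v ∈ Icc v₁ v₂, H ⟨u, v⟩ = c} with hZ
  let Zm : ℕ → Set ℝ := fun m => {u | u ∈ Z ∧ ∃ v ∈ Icc v₁ v₂, 1 / ((m : ℝ) + 1) ≤ ‖H ⟨u, v⟩ - c‖}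
  -- the fibre is null on almost every line
  have hnull : ∀ᵐ u : ℝ, volume {v : ℝ | (⟨u, v⟩ : ℂ) ∈ S ∩ {z | H z = c}} = 0 := by
    have h1 := Lines.vol_v (measurable_fibre h c)
    rw [null_fibre h c] at h1
    have h2 : Measurable fun u : ℝ => volume {v : ℝ | (⟨u, v⟩ : ℂ) ∈ S ∩ {z | H z = c}} := by
      have := Lines.meas_lint_v (measurable_fibre h c) (f := fun _ => 1) measurable_const
      simpa using this
    rw [eq_comm, lintegral_eq_zero_iff h2] at h1
    exact h1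
  have hsub : ∀ᵐ u : ℝ, u ∈ Z → u ∈ ⋃ m, Zm m := by
    filter_upwards [hnull] with u hu huZ
    by_contra hcon
    have h3 : Icc v₁ v₂ ⊆ {v : ℝ | (⟨u, v⟩ : ℂ) ∈ S ∩ {z | H z = c}} := by
      intro v hvv
      refine ⟨hR u huZ.1 v hvv, ?_⟩
      by_contra h4
      have h5 : 0 < ‖H ⟨u, v⟩ - c‖ := norm_pos_iff.2 (sub_ne_zero.2 h4)
      obtain ⟨m, hm⟩ := exists_nat_one_div_lt h5
      exact hcon (mem_iUnion.2 ⟨m, huZ, v, hvv, hm.le⟩)
    have h6 := measure_mono_null h3 hu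
    rw [Real.volume_Icc, ENNReal.ofReal_eq_zero] at h6
    linarith
  have hZm : ∀ m, volume (Zm m) = 0 := by
    intro m
    set K : ℝ := (C * Real.pi) ^ (1 / (2 * p / (p + 1))) *
      (volume.real {z : ℂ | z.re ∈ Icc u₁ u₂ ∧ z.im ∈ Icc v₁ v₂}) ^ (1 / (2 * p / (p - 1))) with hK
    have hRm : MeasurableSet {z : ℂ | z.re ∈ Icc u₁ u₂ ∧ z.im ∈ Icc v₁ v₂} :=
      (Complex.measurable_re measurableSet_Icc).inter (Complex.measurable_im measurableSet_Icc)
    have hRf : volume {z : ℂ | z.re ∈ Icc u₁ u₂ ∧ z.im ∈ Icc v₁ v₂} ≠ ⊤ := by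
      have hb : Bornology.IsBounded {z : ℂ | z.re ∈ Icc u₁ u₂ ∧ z.im ∈ Icc v₁ v₂} := by
        have : {z : ℂ | z.re ∈ Icc u₁ u₂ ∧ z.im ∈ Icc v₁ v₂} = Icc u₁ u₂ ×ℂ Icc v₁ v₂ := rfl
        rw [this]
        exact (Metric.isBounded_Icc _ _).reProdIm (Metric.isBounded_Icc _ _)
      exact hb.measure_lt_top.ne
    have key : ∀ ε : ℝ, 0 < ε → ε ≤ 1 / ((m : ℝ) + 1) →
        volume (Zm m) ≤ ENNReal.ofReal (K * ε ^ (2 / (2 * p / (p + 1)) - 1)) := by
      intro ε hε hεm
      set E : Set ℂ := {z : ℂ | z.re ∈ Icc u₁ u₂ ∧ z.im ∈ Icc v₁ v₂} ∩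
        (S ∩ {z | ‖H z - c‖ < ε}) with hE
      have hEm : MeasurableSet E := hRm.inter (open_rho h c ε).measurableSet
      have h1 : ∀ᵐ u : ℝ, u ∈ Zm m → ENNReal.ofReal ε ≤
          ∫⁻ v in {v : ℝ | (⟨u, v⟩ : ℂ) ∈ E}, ‖Hy ⟨u, v⟩‖ₑ := by
        filter_upwards [hV] with u hu huZ
        obtain ⟨⟨hu1, v, hv1, hv2⟩, v', hv1', hv2'⟩ := huZ
        have hco : ContinuousOn (fun t : ℝ => H ⟨u, t⟩) (Icc v₁ v₂) := by
          refine h.co.comp ?_ fun t ht => hR u hu1 t ht
          exact (Lines.continuous_mk.comp (continuous_const.prodMk continuous_id)).continuousOn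
        have h2 := Lines.cross (φ := fun t : ℝ => H ⟨u, t⟩) (ψ := fun t : ℝ => Hy ⟨u, t⟩) hco
          (fun x y hx hxy hy => hu x y hxy fun t ht =>
            hR u hu1 t ⟨hx.le.trans ht.1, ht.2.trans hy.le⟩) (x := v) (y := v') hv1 hv1'
          (c := c) (α := 0) (β := ε) (by simp [hv2]) (hεm.trans hv2')
        rw [sub_zero] at h2
        refine h2.trans (lintegral_mono_set ?_)
        intro t ht
        refine ⟨⟨hu1, ⟨ht.1.1.le, ht.1.2.le⟩⟩, hR u hu1 t ⟨ht.1.1.le, ht.1.2.le⟩, ht.2⟩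
      have h3 : ENNReal.ofReal ε * volume (Zm m) ≤ ∫⁻ z in E, ‖Hy z‖ₑ := by
        rw [Lines.lint_v_set hEm h.wd.my.enorm]
        refine le_trans ?_ (mul_meas_ge_le_lintegral (Lines.meas_lint_v hEm h.wd.my.enorm)
          (ENNReal.ofReal ε))
        gcongr ENNReal.ofReal ε * ?_
        exact measure_mono_ae h1
      have h4 := h3.trans (int_Hy hp hC hA h c hε.le hEm (inter_subset_right)
        (measure_ne_top_of_subset inter_subset_left hRf))
      have h5 : (C * (ε ^ 2 * Real.pi)) ^ (1 / (2 * p / (p + 1))) *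
          (volume.real E) ^ (1 / (2 * p / (p - 1))) ≤
          ε * (K * ε ^ (2 / (2 * p / (p + 1)) - 1)) := by
        have h6 : volume.real E ≤ volume.real {z : ℂ | z.re ∈ Icc u₁ u₂ ∧ z.im ∈ Icc v₁ v₂} :=
          measureReal_mono inter_subset_left hRf
        have h7 : (C * (ε ^ 2 * Real.pi)) ^ (1 / (2 * p / (p + 1))) =
            (C * Real.pi) ^ (1 / (2 * p / (p + 1))) * (ε * ε ^ (2 / (2 * p / (p + 1)) - 1)) := by
          have h8 : C * (ε ^ 2 * Real.pi) = (C * Real.pi) * ε ^ (2 : ℝ) := by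
            rw [Real.rpow_two]; ring
          rw [h8, Real.mul_rpow (by positivity) (by positivity), ← Real.rpow_mul hε.le]
          congr 1
          nth_rewrite 2 [← Real.rpow_one ε]
          rw [← Real.rpow_add hε]
          congr 1
          ring
        rw [h7, hK]
        have h9 : (volume.real E) ^ (1 / (2 * p / (p - 1))) ≤
            (volume.real {z : ℂ | z.re ∈ Icc u₁ u₂ ∧ z.im ∈ Icc v₁ v₂}) ^
              (1 / (2 * p / (p - 1))) := by
          apply Real.rpow_le_rpow measureReal_nonneg h6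
          have := hq.symm.pos
          positivity
        calc (C * Real.pi) ^ (1 / (2 * p / (p + 1))) * (ε * ε ^ (2 / (2 * p / (p + 1)) - 1)) *
            (volume.real E) ^ (1 / (2 * p / (p - 1)))
            ≤ (C * Real.pi) ^ (1 / (2 * p / (p + 1))) * (ε * ε ^ (2 / (2 * p / (p + 1)) - 1)) *
            (volume.real {z : ℂ | z.re ∈ Icc u₁ u₂ ∧ z.im ∈ Icc v₁ v₂}) ^
              (1 / (2 * p / (p - 1))) := by gcongr
          _ = _ := by ring
      have h10 := h4.trans (ENNReal.ofReal_le_ofReal h5)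
      rw [ENNReal.ofReal_mul hε.le] at h10
      exact (ENNReal.mul_le_mul_iff_right (by simpa using hε) ENNReal.ofReal_ne_top).1 h10
    have hpos : 0 < 2 / (2 * p / (p + 1)) - 1 := by
      have h2 : 0 < p + 1 := by linarith
      have : 2 / (2 * p / (p + 1)) - 1 = 1 / p := by
        field_simp
        ring
      rw [this]
      positivity
    have hlim : Tendsto (fun ε : ℝ => ENNReal.ofReal (K * ε ^ (2 / (2 * p / (p + 1)) - 1)))
        (𝓝[>] 0) (𝓝 0) := by
      have h1 : Tendsto (fun ε : ℝ => K * ε ^ (2 / (2 * p / (p + 1)) - 1)) (𝓝 0) (𝓝 0) := by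
        have h2 : ContinuousAt (fun ε : ℝ => K * ε ^ (2 / (2 * p / (p + 1)) - 1)) 0 :=
          continuousAt_const.mul (Real.continuousAt_rpow_const 0 _ (Or.inr hpos.le))
        have h3 := h2.tendsto
        rw [Real.zero_rpow hpos.ne', mul_zero] at h3
        exact h3
      have h4 := ENNReal.tendsto_ofReal (h1.mono_left (nhdsWithin_le_nhds (s := Ioi (0 : ℝ))))
      rwa [ENNReal.ofReal_zero] at h4
    refine le_antisymm (ge_of_tendsto hlim ?_) bot_le
    have h5 : Ioc (0 : ℝ) (1 / ((m : ℝ) + 1)) ∈ 𝓝[>] (0 : ℝ) := Ioc_mem_nhdsGT (by positivity)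
    filter_upwards [h5] with ε hε
    exact key ε hε.1 hε.2
  have h7 : volume (⋃ m, Zm m) = 0 := measure_iUnion_null hZm
  exact le_antisymm ((measure_mono_ae hsub).trans h7.le) bot_le

end VLM

open VLM in
theorem specVL (hA2 : SpecAlg2) (hACL : SpecACL) : SpecVL := by
  intro p hp S H Hx Hy h c
  obtain ⟨C, hC, hA⟩ := hA2 p hp
  have hV : VAC S H Hy := (hACL S H Hx Hy h.op h.co h.wd).2
  let T : (ℚ × ℚ) × (ℚ × ℚ) → Set ℝ := fun q =>
    {u : ℝ | (q.2.1 : ℝ) < q.2.2 ∧ (∀ u ∈ Icc (q.1.1 : ℝ) q.1.2, ∀ v ∈ Icc (q.2.1 : ℝ) q.2.2,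
      (⟨u, v⟩ : ℂ) ∈ S) ∧ u ∈ Icc (q.1.1 : ℝ) q.1.2 ∧ ∃ v ∈ Icc (q.2.1 : ℝ) q.2.2, H ⟨u, v⟩ = c}
  have hT : ∀ q, volume (T q) = 0 := by
    intro q
    by_cases h1 : (q.2.1 : ℝ) < q.2.2 ∧ (∀ u ∈ Icc (q.1.1 : ℝ) q.1.2,
        ∀ v ∈ Icc (q.2.1 : ℝ) q.2.2, (⟨u, v⟩ : ℂ) ∈ S)
    · refine measure_mono_null ?_ (rect hp hC hA h hV c q.1.1 q.1.2 q.2.1 q.2.2 h1.1 h1.2)
      exact fun u hu => hu.2.2
    · have : T q = ∅ := by
        ext u
        simp only [mem_empty_iff_false, iff_false]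
        exact fun hu => h1 ⟨hu.1, hu.2.1⟩
      rw [this, measure_empty]
  refine measure_mono_null ?_ (measure_iUnion_null hT)
  rintro u ⟨v, hv, hvc⟩
  obtain ⟨δ, hδ, hb⟩ := Metric.isOpen_iff.1 h.op _ hv
  obtain ⟨a, ha1, ha2⟩ := exists_rat_btwn (show u - δ / 2 < u by linarith)
  obtain ⟨b, hb1, hb2⟩ := exists_rat_btwn (show u < u + δ / 2 by linarith)
  obtain ⟨a', ha1', ha2'⟩ := exists_rat_btwn (show v - δ / 2 < v by linarith)
  obtain ⟨b', hb1', hb2'⟩ := exists_rat_btwn (show v < v + δ / 2 by linarith)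
  refine mem_iUnion.2 ⟨((a, b), (a', b')), ?_⟩
  refine ⟨ha2'.trans hb1', ?_, ⟨ha2.le, hb1.le⟩, v, ⟨ha2'.le, hb1'.le⟩, hvc⟩
  intro x hx y hy
  apply hb
  rw [mem_ball, dist_eq_norm]
  refine lt_of_le_of_lt (Complex.norm_le_abs_re_add_abs_im _) ?_
  have h1 : |x - u| < δ / 2 := abs_lt.2 ⟨by linarith [hx.1], by linarith [hx.2]⟩
  have h2 : |y - v| < δ / 2 := abs_lt.2 ⟨by linarith [hy.1], by linarith [hy.2]⟩
  simpa using by linarith

end MPfa
end

section
/-!
Module MOLL: approximation by smooth maps.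
-/
set_option autoImplicit false

open MeasureTheory Set Filter Topology Metric Complex
open scoped ContDiff ENNReal ComplexConjugate

namespace MPfa

theorem specMoll : SpecMoll := by
  intro G F Fx Fy K hG hF hW hK hKG
  obtain ⟨δ, hδ, hδG⟩ := hK.exists_cthickening_subset_open hG hKG
  set K' := cthickening δ K with hK'
  have hK'c : IsCompact K' := hK.cthickening
  have hK'm : MeasurableSet K' := hK'c.measurableSet
  have hKm : MeasurableSet K := hK.measurableSet
  have hKK' : K ⊆ K' := self_subset_cthickening K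
  obtain ⟨N, hN⟩ := (Mol.wd_tendsto.eventually (gt_mem_nhds hδ)).exists
  have hball : ∀ n, ∀ x ∈ K, closedBall x (Mol.wd (n + N)) ⊆ K' := by
    intro n x hx
    have h1 : Mol.wd (n + N) ≤ δ := (Mol.wd_anti (Nat.le_add_left N n)).trans hN.le
    exact (closedBall_subset_closedBall h1).trans (closedBall_subset_cthickening hx δ)
  have hshift : Tendsto (fun n => n + N) atTop atTop := tendsto_add_atTop_nat N
  have hFi : IntegrableOn F K' := (hF.mono hδG).integrableOn_compact hK'c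
  have hFl : LocallyIntegrable (K'.indicator F) :=
    ((integrable_indicator_iff hK'm).2 hFi).locallyIntegrable
  have key : ∀ {p : ℕ} (_ : Mol.E12 p) {F' : ℂ → ℂ} {v : ℂ},
      (∀ φ : ℂ → ℝ, Test G φ → ∫ z, (fderiv ℝ φ z v) • F z = - ∫ z, φ z • F' z) →
      Measurable F' → ∫⁻ z in K', ‖F' z‖ₑ ^ p < ⊤ →
      Tendsto (fun n => ∫⁻ z in K, ‖fderiv ℝ (Mol.mol (n + N) (K'.indicator F)) z v - F' z‖ₑ ^ p)
        atTop (𝓝 0) := by
    intro p hp F' v hi hm hlt
    have h1 := (Mol.tendsto_mol_on hp hKm hKK' hK'm hm.aestronglyMeasurable hlt).comp hshift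
    refine h1.congr fun n => ?_
    apply setLIntegral_congr_fun hKm
    intro x hx
    simp only
    rw [Mol.mol_fderiv_eq hi hδG hK'm hFi _ x (hball n x hx)]
  have fin1 : ∀ {F' : ℂ → ℂ}, LI G F' → ∫⁻ z in K', ‖F' z‖ₑ ^ 1 < ⊤ := by
    intro F' h
    have := (h K' hδG hK'c).2
    simpa [HasFiniteIntegral] using this
  refine ⟨fun n => Mol.mol (n + N) (K'.indicator F), fun n => Mol.mol_sm _ hFl, ?_, ?_, ?_, ?_, ?_⟩
  · rw [Metric.tendstoUniformlyOn_iff]
    intro ε hε
    have huc := hK'c.uniformContinuousOn_of_continuous (hF.mono hδG)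
    rw [Metric.uniformContinuousOn_iff] at huc
    obtain ⟨η, hη, h⟩ := huc (ε / 2) (half_pos hε)
    have h2 := (Mol.wd_tendsto.comp hshift).eventually (gt_mem_nhds hη)
    filter_upwards [h2] with n hn x hx
    have h3 : ‖Mol.mol (n + N) (K'.indicator F) x - F x‖ ≤ ε / 2 := by
      apply Mol.norm_mol_sub_le _ hFl
      intro y hy
      have hy' : y ∈ K' := hball n x hx (by
        rw [mem_closedBall]
        exact hy.le)
      rw [indicator_of_mem hy', ← dist_eq]
      exact (h y hy' x (hKK' hx) (hy.trans hn)).le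
    rw [dist_comm, dist_eq]
    linarith
  · simpa using key (p := 1) (Or.inl rfl) hW.ix hW.mx (fin1 hW.lx)
  · simpa using key (p := 1) (Or.inl rfl) hW.iy hW.my (fin1 hW.ly)
  · intro h
    exact key (p := 2) (Or.inr rfl) hW.ix hW.mx (h K' hδG hK'c)
  · intro h
    exact key (p := 2) (Or.inr rfl) hW.iy hW.my (h K' hδG hK'c)

end MPfa
end

section
/-!
Absolute continuity on almost every curve of a family (used by ACL and CIRC).
-/
set_option autoImplicit false

open MeasureTheory Set Filter Topology Metric Complex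
open scoped ContDiff ENNReal ComplexConjugate

namespace MPfa.Mol

theorem lmap_apply (a b m : ℂ) : lmap a b m = (m.re : ℂ) * a + (m.im : ℂ) * b := by
  simp [lmap]

theorem fderiv_lmap (L : ℂ →L[ℝ] ℂ) (m : ℂ) : lmap (L 1) (L I) m = L m := by
  rw [lmap_apply]
  conv_rhs => rw [← Complex.re_add_im m]
  have h1 : ((m.re : ℂ) + (m.im : ℂ) * I) = m.re • (1 : ℂ) + m.im • I := by
    simp
  rw [h1, map_add, map_smul, map_smul]
  simp

theorem lmap_sub (a b a' b' m : ℂ) : lmap (a - a') (b - b') m = lmap a b m - lmap a' b' m := by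
  simp only [lmap_apply]
  ring

theorem enorm_lmap_le (a b m : ℂ) : ‖lmap a b m‖ₑ ≤ ‖m‖ₑ * (‖a‖ₑ + ‖b‖ₑ) := by
  rw [lmap_apply]
  refine (enorm_add_le _ _).trans ?_
  rw [enorm_mul, enorm_mul, mul_add]
  have h1 : ‖((m.re : ℝ) : ℂ)‖ₑ ≤ ‖m‖ₑ := by
    rw [← ofReal_norm, ← ofReal_norm]
    apply ENNReal.ofReal_le_ofReal
    rw [Complex.norm_real]
    exact abs_re_le_norm m
  have h2 : ‖((m.im : ℝ) : ℂ)‖ₑ ≤ ‖m‖ₑ := by
    rw [← ofReal_norm, ← ofReal_norm]
    apply ENNReal.ofReal_le_ofReal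
    rw [Complex.norm_real]
    exact abs_im_le_norm m
  gcongr

/-- a family of curves -/
structure Fam (S : Set ℝ) (e v : ℝ → ℝ → ℂ) : Prop where
  oS : IsOpen S
  ce : Continuous fun p : ℝ × ℝ => e p.1 p.2
  cv : Continuous fun p : ℝ × ℝ => v p.1 p.2
  d : ∀ s t, HasDerivAt (e s) (v s t) t
  m : ∀ s1 s2 t1 t2 : ℝ, Icc s1 s2 ⊆ S → ∃ C : ℝ≥0∞, C < ⊤ ∧ ∀ g : ℂ → ℝ≥0∞, Measurable g →
    ∫⁻ s in Icc s1 s2, ∫⁻ t in Icc t1 t2, g (e s t) ≤ C * ∫⁻ z, g z

theorem box {G : Set ℂ} {F Fx Fy : ℂ → ℂ} {S : Set ℝ} {e v : ℝ → ℝ → ℂ} (hG : IsOpen G)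
    (hF : ContinuousOn F G) (hW : WD G F Fx Fy) (hS : Fam S e v) (s1 s2 t1 t2 : ℝ)
    (h1 : Icc s1 s2 ⊆ S) (h2 : ∀ s ∈ Icc s1 s2, ∀ t ∈ Icc t1 t2, e s t ∈ G) :
    ∀ᵐ s : ℝ, s ∈ Icc s1 s2 → ∀ a b, a ≤ b → a ∈ Icc t1 t2 → b ∈ Icc t1 t2 →
      IntervalIntegrable (fun t => lmap (Fx (e s t)) (Fy (e s t)) (v s t)) volume a b ∧
      F (e s b) - F (e s a) = ∫ t in a..b, lmap (Fx (e s t)) (Fy (e s t)) (v s t) := by
  have hQc : IsCompact (Icc s1 s2 ×ˢ Icc t1 t2) := isCompact_Icc.prod isCompact_Icc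
  set K : Set ℂ := (fun p : ℝ × ℝ => e p.1 p.2) '' (Icc s1 s2 ×ˢ Icc t1 t2) with hKdef
  have hK : IsCompact K := hQc.image hS.ce
  have hKG : K ⊆ G := by
    rintro _ ⟨⟨s, t⟩, ⟨hs, ht⟩, rfl⟩
    exact h2 s hs t ht
  have hKe : ∀ s ∈ Icc s1 s2, ∀ t ∈ Icc t1 t2, e s t ∈ K := fun s hs t ht =>
    ⟨(s, t), ⟨hs, ht⟩, rfl⟩
  obtain ⟨B, hB⟩ := hQc.exists_bound_of_continuousOn hS.cv.continuousOn
  have hB' : ∀ s ∈ Icc s1 s2, ∀ t ∈ Icc t1 t2, ‖v s t‖ₑ ≤ ENNReal.ofReal B := by
    intro s hs t ht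
    rw [← ofReal_norm]
    exact ENNReal.ofReal_le_ofReal (hB (s, t) ⟨hs, ht⟩)
  obtain ⟨C, hC, hm⟩ := hS.m s1 s2 t1 t2 h1
  have hmK : ∀ g : ℂ → ℝ≥0∞, Measurable g →
      ∫⁻ s in Icc s1 s2, ∫⁻ t in Icc t1 t2, g (e s t) ≤ C * ∫⁻ z in K, g z := by
    intro g hg
    have := hm (K.indicator g) (hg.indicator hK.measurableSet)
    rw [lintegral_indicator hK.measurableSet] at this
    refine le_trans (le_of_eq ?_) this
    apply setLIntegral_congr_fun measurableSet_Icc
    intro s hs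
    apply setLIntegral_congr_fun measurableSet_Icc
    intro t ht
    simp only
    rw [indicator_of_mem (hKe s hs t ht)]
  have hes : ∀ s, Continuous fun t => e s t := fun s =>
    hS.ce.comp (continuous_const.prodMk continuous_id)
  have hvs : ∀ s, Continuous fun t => v s t := fun s =>
    hS.cv.comp (continuous_const.prodMk continuous_id)
  obtain ⟨f, hf1, hf2, hf3, hf4, -, -⟩ := specMoll G F Fx Fy K hG hF hW hK hKG
  -- integrability
  set h : ℂ → ℝ≥0∞ := fun z => ‖Fx z‖ₑ + ‖Fy z‖ₑ with hh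
  have hhm : Measurable h := hW.mx.enorm.add hW.my.enorm
  have hfin : ∫⁻ s in Icc s1 s2, ∫⁻ t in Icc t1 t2, h (e s t) < ⊤ := by
    refine (hmK h hhm).trans_lt (ENNReal.mul_lt_top hC ?_)
    rw [hh, lintegral_add_left hW.mx.enorm]
    exact ENNReal.add_lt_top.2 ⟨(hW.lx K hKG hK).2, (hW.ly K hKG hK).2⟩
  have hmeas : ∀ {g : ℂ → ℝ≥0∞}, Measurable g →
      Measurable fun s => ∫⁻ t in Icc t1 t2, g (e s t) := by
    intro g hg
    exact (hg.comp hS.ce.measurable).lintegral_prod_right'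
  have ae1 : ∀ᵐ s ∂(volume.restrict (Icc s1 s2)), ∫⁻ t in Icc t1 t2, h (e s t) < ⊤ :=
    ae_lt_top (hmeas hhm) hfin.ne
  -- the errors
  set D : ℕ → ℂ → ℝ≥0∞ := fun n z => ‖fderiv ℝ (f n) z 1 - Fx z‖ₑ + ‖fderiv ℝ (f n) z I - Fy z‖ₑ
    with hD
  have hfc : ∀ n w, Continuous fun z => fderiv ℝ (f n) z w := fun n w =>
    ((hf1 n).continuous_fderiv (by simp)).clm_apply continuous_const
  have hDm1 : ∀ n, Measurable fun z => ‖fderiv ℝ (f n) z 1 - Fx z‖ₑ := fun n =>
    ((hfc n 1).measurable.sub hW.mx).enorm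
  have hDm : ∀ n, Measurable (D n) := fun n =>
    (hDm1 n).add ((hfc n I).measurable.sub hW.my).enorm
  have hDlim : Tendsto (fun n => ∫⁻ z in K, D n z) atTop (𝓝 0) := by
    have := hf3.add hf4
    rw [add_zero] at this
    refine this.congr fun n => ?_
    rw [← lintegral_add_left (hDm1 n)]
  have hgl : Tendsto (fun n => ∫⁻ s in Icc s1 s2, ∫⁻ t in Icc t1 t2, D n (e s t)) atTop
      (𝓝 0) := by
    have := ENNReal.Tendsto.const_mul (a := C) hDlim (Or.inr hC.ne)
    rw [mul_zero] at this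
    exact tendsto_of_tendsto_of_tendsto_of_le_of_le tendsto_const_nhds this (fun _ => zero_le)
      fun n => hmK _ (hDm n)
  have ae2 : ∀ᵐ s ∂(volume.restrict (Icc s1 s2)),
      liminf (fun n => ∫⁻ t in Icc t1 t2, D n (e s t)) atTop = 0 := by
    have h3 : ∫⁻ s in Icc s1 s2, liminf (fun n => ∫⁻ t in Icc t1 t2, D n (e s t)) atTop ≤
        liminf (fun n => ∫⁻ s in Icc s1 s2, ∫⁻ t in Icc t1 t2, D n (e s t)) atTop :=
      lintegral_liminf_le (fun n => hmeas (hDm n))
    rw [hgl.liminf_eq] at h3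
    have h4 := le_antisymm h3 zero_le
    rw [lintegral_eq_zero_iff (Measurable.liminf fun n => hmeas (hDm n))] at h4
    exact h4
  have ae3 := ae1.and ae2
  rw [ae_restrict_iff' measurableSet_Icc] at ae3
  filter_upwards [ae3] with s hs hsI a b hab ha hb
  obtain ⟨hs1, hs2⟩ := hs hsI
  have hsub : Ioc a b ⊆ Icc t1 t2 := fun t ht => ⟨ha.1.trans ht.1.le, ht.2.trans hb.2⟩
  have hmF : Measurable fun t => lmap (Fx (e s t)) (Fy (e s t)) (v s t) := by
    have : (fun t => lmap (Fx (e s t)) (Fy (e s t)) (v s t)) = fun t =>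
        ((v s t).re : ℂ) * Fx (e s t) + ((v s t).im : ℂ) * Fy (e s t) := by
      funext t
      rw [lmap_apply]
    rw [this]
    have e1 := (hes s).measurable
    have e2 := (hvs s).measurable
    exact ((Complex.measurable_ofReal.comp (Complex.measurable_re.comp e2)).mul
      (hW.mx.comp e1)).add ((Complex.measurable_ofReal.comp (Complex.measurable_im.comp e2)).mul
      (hW.my.comp e1))
  have hint : IntegrableOn (fun t => lmap (Fx (e s t)) (Fy (e s t)) (v s t)) (Ioc a b) := by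
    refine ⟨hmF.aestronglyMeasurable, ?_⟩
    calc ∫⁻ t in Ioc a b, ‖lmap (Fx (e s t)) (Fy (e s t)) (v s t)‖ₑ
        ≤ ∫⁻ t in Ioc a b, ENNReal.ofReal B * h (e s t) := by
          apply setLIntegral_mono' measurableSet_Ioc
          intro t ht
          refine (enorm_lmap_le _ _ _).trans ?_
          gcongr
          exact hB' s hsI t (hsub ht)
      _ ≤ ∫⁻ t in Icc t1 t2, ENNReal.ofReal B * h (e s t) := lintegral_mono_set hsub
      _ = ENNReal.ofReal B * ∫⁻ t in Icc t1 t2, h (e s t) :=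
          lintegral_const_mul' _ _ ENNReal.ofReal_ne_top
      _ < ⊤ := ENNReal.mul_lt_top ENNReal.ofReal_lt_top hs1
  have hii : IntervalIntegrable (fun t => lmap (Fx (e s t)) (Fy (e s t)) (v s t)) volume a b :=
    (intervalIntegrable_iff_integrableOn_Ioc_of_le hab).2 hint
  refine ⟨hii, ?_⟩
  set J : ℂ := ∫ t in a..b, lmap (Fx (e s t)) (Fy (e s t)) (v s t) with hJ
  -- fundamental theorem for the approximations
  have hft : ∀ n, ‖(f n (e s b) - f n (e s a)) - J‖ₑ ≤
      ENNReal.ofReal B * ∫⁻ t in Icc t1 t2, D n (e s t) := by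
    intro n
    have hder : ∀ t, HasDerivAt (fun t => f n (e s t)) (fderiv ℝ (f n) (e s t) (v s t)) t := by
      intro t
      exact (((hf1 n).differentiable (by simp)) (e s t)).hasFDerivAt.comp_hasDerivAt t (hS.d s t)
    have hcont : Continuous fun t => fderiv ℝ (f n) (e s t) (v s t) :=
      (((hf1 n).continuous_fderiv (by simp)).comp (hes s)).clm_apply (hvs s)
    have e1 := intervalIntegral.integral_eq_sub_of_hasDerivAt (fun t _ => hder t)
      (hcont.intervalIntegrable a b)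
    rw [← e1, hJ, ← intervalIntegral.integral_sub (hcont.intervalIntegrable a b) hii,
      intervalIntegral.integral_of_le hab]
    refine (enorm_integral_le_lintegral_enorm _).trans ?_
    rw [← lintegral_const_mul' _ _ ENNReal.ofReal_ne_top]
    refine le_trans ?_ (lintegral_mono_set hsub)
    apply setLIntegral_mono' measurableSet_Ioc
    intro t ht
    rw [← fderiv_lmap (fderiv ℝ (f n) (e s t)) (v s t), ← lmap_sub]
    refine (enorm_lmap_le _ _ _).trans ?_
    gcongr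
    exact hB' s hsI t (hsub ht)
  -- limit
  have hz : ‖(F (e s b) - F (e s a)) - J‖ₑ = 0 := by
    by_contra hne
    set η := ‖(F (e s b) - F (e s a)) - J‖ₑ with hη
    have hηpos : 0 < η := pos_iff_ne_zero.2 hne
    have hu : ∀ t ∈ Icc t1 t2, Tendsto (fun n => f n (e s t)) atTop (𝓝 (F (e s t))) :=
      fun t ht => hf2.tendsto_at (hKe s hsI t ht)
    have hl : Tendsto (fun n => ‖(F (e s b) - F (e s a)) - (f n (e s b) - f n (e s a))‖ₑ) atTop
        (𝓝 0) := by
      have h5 : Tendsto (fun n => (F (e s b) - F (e s a)) - (f n (e s b) - f n (e s a))) atTop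
          (𝓝 0) := by
        have := (tendsto_const_nhds (x := F (e s b) - F (e s a))).sub ((hu b hb).sub (hu a ha))
        rwa [sub_self] at this
      have h6 := (continuous_enorm.tendsto (0 : ℂ)).comp h5
      rwa [enorm_zero] at h6
    have hη4 : 0 < η / 4 := ENNReal.div_pos hne (by norm_num)
    have hηt : η ≠ ⊤ := enorm_ne_top
    have ev1 : ∀ᶠ n in atTop,
        ‖(F (e s b) - F (e s a)) - (f n (e s b) - f n (e s a))‖ₑ < η / 4 :=
      hl.eventually (gt_mem_nhds hη4)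
    have hc : ∃ c : ℝ≥0∞, 0 < c ∧ ENNReal.ofReal B * c ≤ η / 4 := by
      refine ⟨(η / 4) / (ENNReal.ofReal B + 1), ?_, ?_⟩
      · exact ENNReal.div_pos hη4.ne' (by finiteness)
      · rw [← mul_div_assoc, mul_comm, mul_div_assoc]
        conv_rhs => rw [← mul_one (η / 4)]
        gcongr
        refine ENNReal.div_le_of_le_mul ?_
        rw [one_mul]
        exact le_self_add
    obtain ⟨c, hc0, hc1⟩ := hc
    have ev2 : ∃ᶠ n in atTop, ∫⁻ t in Icc t1 t2, D n (e s t) < c := by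
      apply frequently_lt_of_liminf_lt
      · isBoundedDefault
      · rw [hs2]
        exact hc0
    obtain ⟨n, hn2, hn1⟩ := (ev2.and_eventually ev1).exists
    have h7 : η ≤ η / 4 + η / 4 := by
      calc η = ‖((F (e s b) - F (e s a)) - (f n (e s b) - f n (e s a))) +
            ((f n (e s b) - f n (e s a)) - J)‖ₑ := by
            rw [hη]
            congr 1
            ring
        _ ≤ _ := enorm_add_le _ _
        _ ≤ η / 4 + η / 4 := by
            gcongr
            refine (hft n).trans (le_trans ?_ hc1)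
            gcongr
    have h8 : η / 4 + η / 4 < η := by
      have h9 : η / 4 + η / 4 = η / 2 := by
        rw [← two_mul, show (4 : ℝ≥0∞) = 2 * 2 by norm_num, ENNReal.div_eq_inv_mul,
          ENNReal.mul_inv (by norm_num) (by norm_num), ← mul_assoc, ← mul_assoc,
          ENNReal.mul_inv_cancel (by norm_num) (by norm_num), one_mul, ENNReal.div_eq_inv_mul]
      rw [h9]
      exact ENNReal.half_lt_self hne hηt
    exact absurd h7 (not_le.2 h8)
  rw [enorm_eq_zero, sub_eq_zero] at hz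
  exact hz

/-- absolute continuity on almost all curves -/
theorem lines {G : Set ℂ} {F Fx Fy : ℂ → ℂ} {S : Set ℝ} {e v : ℝ → ℝ → ℂ} (hG : IsOpen G)
    (hF : ContinuousOn F G) (hW : WD G F Fx Fy) (hS : Fam S e v) :
    ∀ᵐ s : ℝ, s ∈ S → ∀ a b, a ≤ b → (∀ t ∈ Icc a b, e s t ∈ G) →
      IntervalIntegrable (fun t => lmap (Fx (e s t)) (Fy (e s t)) (v s t)) volume a b ∧
      F (e s b) - F (e s a) = ∫ t in a..b, lmap (Fx (e s t)) (Fy (e s t)) (v s t) := by
  have hall : ∀ q : ℚ × ℚ × ℚ × ℚ, ∀ᵐ s : ℝ, Icc (q.1 : ℝ) q.2.1 ⊆ S →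
      (∀ s ∈ Icc (q.1 : ℝ) q.2.1, ∀ t ∈ Icc (q.2.2.1 : ℝ) q.2.2.2, e s t ∈ G) →
      s ∈ Icc (q.1 : ℝ) q.2.1 → ∀ a b, a ≤ b → a ∈ Icc (q.2.2.1 : ℝ) q.2.2.2 →
      b ∈ Icc (q.2.2.1 : ℝ) q.2.2.2 →
      IntervalIntegrable (fun t => lmap (Fx (e s t)) (Fy (e s t)) (v s t)) volume a b ∧
      F (e s b) - F (e s a) = ∫ t in a..b, lmap (Fx (e s t)) (Fy (e s t)) (v s t) := by
    intro q
    by_cases h1 : Icc (q.1 : ℝ) q.2.1 ⊆ S
    · by_cases h2 : ∀ s ∈ Icc (q.1 : ℝ) q.2.1, ∀ t ∈ Icc (q.2.2.1 : ℝ) q.2.2.2, e s t ∈ G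
      · filter_upwards [box hG hF hW hS q.1 q.2.1 q.2.2.1 q.2.2.2 h1 h2] with s hs _ _
        exact hs
      · exact Eventually.of_forall fun s _ h => absurd h h2
    · exact Eventually.of_forall fun s h => absurd h h1
  filter_upwards [ae_all_iff.2 hall] with s hs hsS a b hab hseg
  -- the tube
  set U : Set (ℝ × ℝ) := (fun p : ℝ × ℝ => e p.1 p.2) ⁻¹' G ∩ Prod.fst ⁻¹' S with hU
  have hUo : IsOpen U := (hG.preimage hS.ce).inter (hS.oS.preimage continuous_fst)
  have hUs : ({s} : Set ℝ) ×ˢ Icc a b ⊆ U := by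
    rintro ⟨s', t⟩ ⟨hs', ht⟩
    rw [mem_singleton_iff] at hs'
    simp only at hs'
    subst hs'
    exact ⟨hseg t ht, hsS⟩
  obtain ⟨V, W, hV, hWo, hsV, hIW, hVW⟩ := generalized_tube_lemma isCompact_singleton
    isCompact_Icc hUo hUs
  have hsV' : s ∈ V := hsV rfl
  obtain ⟨ε, hε, hεV⟩ := Metric.isOpen_iff.1 hV s hsV'
  obtain ⟨δ, hδ, hδW⟩ := isCompact_Icc.exists_thickening_subset_open hWo hIW
  obtain ⟨q1, h11, h12⟩ := exists_rat_btwn (show s - ε < s by linarith)
  obtain ⟨q2, h21, h22⟩ := exists_rat_btwn (show s < s + ε by linarith)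
  obtain ⟨q3, h31, h32⟩ := exists_rat_btwn (show a - δ < a by linarith)
  obtain ⟨q4, h41, h42⟩ := exists_rat_btwn (show b < b + δ by linarith)
  have hV1 : ∀ s' ∈ Icc (q1 : ℝ) q2, s' ∈ V := by
    intro s' hs'
    apply hεV
    rw [mem_ball, Real.dist_eq, abs_lt]
    constructor <;> linarith [hs'.1, hs'.2]
  have hW1 : ∀ t' ∈ Icc (q3 : ℝ) q4, t' ∈ W := by
    intro t' ht'
    apply hδW
    rw [mem_thickening_iff]
    by_cases h1 : t' < a
    · exact ⟨a, ⟨le_rfl, hab⟩, by rw [Real.dist_eq, abs_lt]; constructor <;> linarith [ht'.1]⟩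
    · by_cases h2 : b < t'
      · exact ⟨b, ⟨hab, le_rfl⟩, by rw [Real.dist_eq, abs_lt]; constructor <;> linarith [ht'.2]⟩
      · exact ⟨t', ⟨not_lt.1 h1, not_lt.1 h2⟩, by rw [dist_self]; exact hδ⟩
  refine hs (q1, q2, q3, q4) ?_ ?_ ⟨h12.le, h21.le⟩ a b hab ⟨h32.le, hab.trans h41.le⟩
    ⟨h32.le.trans hab, h41.le⟩
  · intro s' hs'
    exact (hVW (show (s', a) ∈ V ×ˢ W from ⟨hV1 s' hs', hIW ⟨le_rfl, hab⟩⟩)).2
  · intro s' hs' t' ht'
    exact (hVW (show (s', t') ∈ V ×ˢ W from ⟨hV1 s' hs', hW1 t' ht'⟩)).1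

end MPfa.Mol
end

section
/-!
Module ACL: absolute continuity on almost all horizontal and vertical segments.
-/
set_option autoImplicit false

open MeasureTheory Set Filter Topology Metric Complex
open scoped ContDiff ENNReal ComplexConjugate

namespace MPfa.Mol

theorem lintegral_xy (g : ℂ → ℝ≥0∞) (hg : Measurable g) :
    ∫⁻ z, g z = ∫⁻ x : ℝ, ∫⁻ y : ℝ, g ⟨x, y⟩ := by
  rw [← (volume_preserving_equiv_real_prod.symm).lintegral_comp_emb
    measurableEquivRealProd.symm.measurableEmbedding, Measure.volume_eq_prod, lintegral_prod]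
  · rfl
  · exact (hg.comp measurableEquivRealProd.symm.measurable).aemeasurable

theorem lintegral_yx (g : ℂ → ℝ≥0∞) (hg : Measurable g) :
    ∫⁻ z, g z = ∫⁻ y : ℝ, ∫⁻ x : ℝ, g ⟨x, y⟩ := by
  rw [← (volume_preserving_equiv_real_prod.symm).lintegral_comp_emb
    measurableEquivRealProd.symm.measurableEmbedding, Measure.volume_eq_prod, lintegral_prod_symm]
  · rfl
  · exact (hg.comp measurableEquivRealProd.symm.measurable).aemeasurable

theorem famH : Fam univ (fun y x => (⟨x, y⟩ : ℂ)) (fun _ _ => 1) := by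
  refine ⟨isOpen_univ, ?_, continuous_const, ?_, ?_⟩
  · have : (fun p : ℝ × ℝ => (⟨p.2, p.1⟩ : ℂ)) = fun p : ℝ × ℝ => (p.2 : ℂ) + (p.1 : ℂ) * I := by
      funext p
      apply Complex.ext <;> simp
    rw [this]
    fun_prop
  · intro y x
    have h : (fun x : ℝ => (⟨x, y⟩ : ℂ)) = fun x : ℝ => (x : ℂ) + (y : ℂ) * I := by
      funext x
      apply Complex.ext <;> simp
    rw [h]
    exact (Complex.ofRealCLM.hasDerivAt (x := x)).add_const _
  · intro s1 s2 t1 t2 _
    refine ⟨1, ENNReal.one_lt_top, fun g hg => ?_⟩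
    rw [one_mul, lintegral_yx g hg]
    refine (setLIntegral_le_lintegral _ _).trans (lintegral_mono fun y => ?_)
    exact setLIntegral_le_lintegral _ _

theorem famV : Fam univ (fun x y => (⟨x, y⟩ : ℂ)) (fun _ _ => I) := by
  refine ⟨isOpen_univ, ?_, continuous_const, ?_, ?_⟩
  · have : (fun p : ℝ × ℝ => (⟨p.1, p.2⟩ : ℂ)) = fun p : ℝ × ℝ => (p.1 : ℂ) + (p.2 : ℂ) * I := by
      funext p
      apply Complex.ext <;> simp
    rw [this]
    fun_prop
  · intro x y
    have h : (fun y : ℝ => (⟨x, y⟩ : ℂ)) = fun y : ℝ => (x : ℂ) + (y : ℂ) * I := by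
      funext y
      apply Complex.ext <;> simp
    rw [h]
    have := ((Complex.ofRealCLM.hasDerivAt (x := y)).mul_const I).const_add (x : ℂ)
    simpa using this
  · intro s1 s2 t1 t2 _
    refine ⟨1, ENNReal.one_lt_top, fun g hg => ?_⟩
    rw [one_mul, lintegral_xy g hg]
    refine (setLIntegral_le_lintegral _ _).trans (lintegral_mono fun y => ?_)
    exact setLIntegral_le_lintegral _ _

theorem lintegral_period (h : ℝ → ℝ≥0∞) (hp : ∀ θ, h (θ + 2 * Real.pi) = h θ) (t : ℝ) (M : ℕ) :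
    ∫⁻ θ in Ioc t (t + M * (2 * Real.pi)), h θ = M * ∫⁻ θ in Ioo (0 : ℝ) (2 * Real.pi), h θ := by
  have hT : (0 : ℝ) < 2 * Real.pi := by positivity
  have hper : Function.Periodic h (2 * Real.pi) := hp
  have h1 : ∀ s : ℝ, ∫⁻ θ in Ioc s (s + 2 * Real.pi), h θ =
      ∫⁻ θ in Ioo (0 : ℝ) (2 * Real.pi), h θ := by
    intro s
    have h1 := (isAddFundamentalDomain_Ioc hT s volume).setLIntegral_eq
      (isAddFundamentalDomain_Ioc hT (0 : ℝ) volume) h (by
        rintro ⟨g, hg⟩ x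
        obtain ⟨n, rfl⟩ := AddSubgroup.mem_zmultiples_iff.1 hg
        show h (n • (2 * Real.pi) + x) = h x
        rw [add_comm]
        have := hper.zsmul n x
        simpa using this)
    rw [zero_add] at h1
    rw [h1, setLIntegral_congr Ioo_ae_eq_Ioc]
  induction M with
  | zero => simp
  | succ M ih =>
    have e : Ioc t (t + ((M + 1 : ℕ) : ℝ) * (2 * Real.pi)) =
        Ioc t (t + M * (2 * Real.pi)) ∪
          Ioc (t + M * (2 * Real.pi)) (t + M * (2 * Real.pi) + 2 * Real.pi) := by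
      rw [Ioc_union_Ioc_eq_Ioc]
      · congr 1
        push_cast
        ring
      · have : 0 ≤ (M : ℝ) * (2 * Real.pi) := by positivity
        linarith
      · linarith
    rw [e, lintegral_union measurableSet_Ioc, ih, h1]
    · push_cast
      ring
    · rw [Set.disjoint_left]
      intro x hx hx'
      exact absurd hx.2 (not_le.2 hx'.1)

theorem famC (hPol : SpecPol) (c : ℂ) :
    Fam (Ioi 0) (fun r θ => circleMap c r θ) (fun r θ => circleMap 0 r θ * I) := by
  refine ⟨isOpen_Ioi, ?_, ?_, fun r θ => hasDerivAt_circleMap c r θ, ?_⟩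
  · unfold circleMap
    fun_prop
  · unfold circleMap
    fun_prop
  · intro s1 s2 t1 t2 hs
    by_cases h12 : s1 ≤ s2
    · have hs1 : 0 < s1 := hs ⟨le_rfl, h12⟩
      obtain ⟨M, hM⟩ := exists_nat_gt ((t2 - (t1 - 1)) / (2 * Real.pi))
      have hM' : t2 ≤ t1 - 1 + M * (2 * Real.pi) := by
        rw [div_lt_iff₀ (by positivity)] at hM
        linarith
      refine ⟨M * (ENNReal.ofReal s1)⁻¹, ?_, fun g hg => ?_⟩
      · apply ENNReal.mul_lt_top (ENNReal.natCast_lt_top M)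
        rw [ENNReal.inv_lt_top]
        exact ENNReal.ofReal_pos.2 hs1
      · have hc0 : ENNReal.ofReal s1 ≠ 0 := (ENNReal.ofReal_pos.2 hs1).ne'
        have h1 : ∀ s ∈ Icc s1 s2, ∫⁻ t in Icc t1 t2, g (circleMap c s t) ≤
            M * (ENNReal.ofReal s1)⁻¹ * ∫⁻ θ in Ioo (0 : ℝ) (2 * Real.pi),
              ENNReal.ofReal s * g (circleMap c s θ) := by
          intro s hs
          calc ∫⁻ t in Icc t1 t2, g (circleMap c s t)
              ≤ ∫⁻ t in Ioc (t1 - 1) (t1 - 1 + M * (2 * Real.pi)), g (circleMap c s t) := by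
                apply lintegral_mono_set
                intro t ht
                exact ⟨by linarith [ht.1], ht.2.trans hM'⟩
            _ = M * ∫⁻ θ in Ioo (0 : ℝ) (2 * Real.pi), g (circleMap c s θ) :=
                lintegral_period (fun t => g (circleMap c s t))
                  (fun θ => by rw [periodic_circleMap c s θ]) _ _
            _ ≤ M * ((ENNReal.ofReal s1)⁻¹ * (ENNReal.ofReal s *
                  ∫⁻ θ in Ioo (0 : ℝ) (2 * Real.pi), g (circleMap c s θ))) := by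
                gcongr
                rw [← mul_assoc]
                conv_lhs => rw [← one_mul (∫⁻ θ in Ioo (0 : ℝ) (2 * Real.pi), g (circleMap c s θ))]
                gcongr
                rw [← ENNReal.inv_mul_cancel hc0 ENNReal.ofReal_ne_top]
                gcongr
                exact hs.1
            _ = _ := by
                rw [lintegral_const_mul' _ _ ENNReal.ofReal_ne_top, mul_assoc]
        calc ∫⁻ s in Icc s1 s2, ∫⁻ t in Icc t1 t2, g (circleMap c s t)
            ≤ ∫⁻ s in Icc s1 s2, M * (ENNReal.ofReal s1)⁻¹ *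
                ∫⁻ θ in Ioo (0 : ℝ) (2 * Real.pi), ENNReal.ofReal s * g (circleMap c s θ) :=
              setLIntegral_mono' measurableSet_Icc h1
          _ = M * (ENNReal.ofReal s1)⁻¹ * ∫⁻ s in Icc s1 s2,
                ∫⁻ θ in Ioo (0 : ℝ) (2 * Real.pi), ENNReal.ofReal s * g (circleMap c s θ) := by
              apply lintegral_const_mul'
              apply ENNReal.mul_ne_top (ENNReal.natCast_ne_top M)
              exact ENNReal.inv_ne_top.2 hc0
          _ ≤ M * (ENNReal.ofReal s1)⁻¹ * ∫⁻ s in Ioi (0 : ℝ),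
                ∫⁻ θ in Ioo (0 : ℝ) (2 * Real.pi), ENNReal.ofReal s * g (circleMap c s θ) := by
              gcongr
          _ = _ := by rw [← hPol c g hg]
    · refine ⟨0, by simp, fun g hg => ?_⟩
      rw [Icc_eq_empty h12]
      simp

end MPfa.Mol

namespace MPfa

theorem specACL : SpecACL := by
  intro G F Fx Fy hG hF hW
  constructor
  · filter_upwards [Mol.lines hG hF hW Mol.famH] with y hy a b hab hseg
    obtain ⟨h1, h2⟩ := hy (mem_univ _) a b hab hseg
    have e : ∀ z : ℂ, lmap (Fx z) (Fy z) 1 = Fx z := fun z => by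
      rw [Mol.lmap_apply]
      simp
    simp only [e] at h1 h2
    exact ⟨h1, h2⟩
  · filter_upwards [Mol.lines hG hF hW Mol.famV] with y hy a b hab hseg
    obtain ⟨h1, h2⟩ := hy (mem_univ _) a b hab hseg
    have e : ∀ z : ℂ, lmap (Fx z) (Fy z) I = Fy z := fun z => by
      rw [Mol.lmap_apply]
      simp
    simp only [e] at h1 h2
    exact ⟨h1, h2⟩

theorem specCirc' (hPol : SpecPol) : SpecCirc := by
  intro G F Fx Fy c hG hF hW
  filter_upwards [Mol.lines hG hF hW (Mol.famC hPol c)] with r hr h0 a b hab hseg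
  exact hr h0 a b hab hseg

end MPfa
end

section
/-!
Module ACLC: absolute continuity on lines gives weak derivatives.
-/
set_option autoImplicit false

open MeasureTheory Set Filter Topology Metric Complex
open scoped ContDiff ENNReal ComplexConjugate

namespace MPfa.Mol

theorem smul_int {ψ : ℂ → ℝ} {g : ℂ → ℂ} (hψ : Continuous ψ) {C : ℝ} (hC : ∀ z, ‖ψ z‖ ≤ C)
    (hg : Integrable g) : Integrable fun z => ψ z • g z :=
  hg.bdd_smul C hψ.aestronglyMeasurable (Eventually.of_forall hC)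

/-- difference quotients give weak derivatives -/
theorem weak_of_diff {G : Set ℂ} {F F' : ℂ → ℂ} {v : ℂ} (hv : ‖v‖ ≤ 1) (hG : IsOpen G)
    (hF : ContinuousOn F G) (hm : Measurable F') (hl : LI G F')
    (H : ∀ K ⊆ G, IsCompact K → ∃ δ > 0, ∀ h ∈ Ioo (0 : ℝ) δ, ∀ᵐ z : ℂ, z ∈ K →
      F z - F (z - h • v) = ∫ s in (0 : ℝ)..h, F' (z - s • v)) (φ : ℂ → ℝ) (hφ : Test G φ) :
    ∫ z, (fderiv ℝ φ z v) • F z = - ∫ z, φ z • F' z := by
  set K := tsupport φ with hK
  have hKc : IsCompact K := hφ.cs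
  obtain ⟨δ₁, hδ₁, hδG⟩ := hKc.exists_cthickening_subset_open hG hφ.su
  set K' := cthickening δ₁ K with hK'
  have hK'c : IsCompact K' := hKc.cthickening
  have hK'm : MeasurableSet K' := hK'c.measurableSet
  have hKK' : K ⊆ K' := self_subset_cthickening K
  obtain ⟨δ₂, hδ₂, hH⟩ := H K hφ.su hKc
  set Ff := K'.indicator F with hFf
  set Gf := K'.indicator F' with hGf
  have hFfi : Integrable Ff :=
    (integrable_indicator_iff hK'm).2 ((hF.mono hδG).integrableOn_compact hK'c)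
  have hGfi : Integrable Gf := (integrable_indicator_iff hK'm).2 (hl K' hδG hK'c)
  have hGfm : Measurable Gf := hm.indicator hK'm
  have hφc : Continuous φ := hφ.sm.continuous
  obtain ⟨C, hC⟩ := hφ.cs.exists_bound_of_continuous hφc
  have hC0 : 0 ≤ C := (norm_nonneg _).trans (hC 0)
  have hφ0 : ∀ z, z ∉ K → φ z = 0 := fun z hz => image_eq_zero_of_notMem_tsupport hz
  have hdφ0 : ∀ z, z ∉ K → fderiv ℝ φ z = 0 := fun z hz =>
    image_eq_zero_of_notMem_tsupport fun h => hz (tsupport_fderiv_subset ℝ h)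
  have hin : ∀ z ∈ K, ∀ s : ℝ, 0 ≤ s → s ≤ δ₁ → z - s • v ∈ K' := by
    intro z hz s hs0 hs
    apply closedBall_subset_cthickening hz δ₁
    rw [mem_closedBall, dist_eq, sub_sub_cancel_left, norm_neg, norm_smul,
      Real.norm_of_nonneg hs0]
    calc s * ‖v‖ ≤ s * 1 := by gcongr
      _ ≤ δ₁ := by linarith
  -- the two functions of `h`
  set p : ℝ → ℂ := fun h => ∫ z, φ (z + h • v) • Ff z with hp
  set q : ℝ → ℂ := fun s => ∫ z, φ (z + s • v) • Gf z with hq
  have hshift : ∀ s : ℝ, Continuous fun z : ℂ => φ (z + s • v) := fun s =>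
    hφc.comp (continuous_id.add continuous_const)
  have hqc : Continuous q := by
    refine continuous_of_dominated (bound := fun z => C * ‖Gf z‖)
      (fun s => (smul_int (hshift s) (fun z => hC _) hGfi).aestronglyMeasurable)
      (fun s => Eventually.of_forall fun z => ?_) (hGfi.norm.const_mul C)
      (Eventually.of_forall fun z => ?_)
    · rw [norm_smul]
      gcongr
      exact hC _
    · exact (hφc.comp (continuous_const.add (continuous_id.smul continuous_const))).smul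
        continuous_const
  -- derivative of `p` at `0`
  obtain ⟨C', hC'⟩ := (hφ.cs.fderiv (𝕜 := ℝ)).exists_bound_of_continuous
    (hφ.sm.continuous_fderiv (by simp))
  have hpd : HasDerivAt p (∫ z, (fderiv ℝ φ z v) • Ff z) 0 := by
    have := (hasDerivAt_integral_of_dominated_loc_of_deriv_le (μ := (volume : Measure ℂ))
      (F := fun (h : ℝ) z => φ (z + h • v) • Ff z)
      (F' := fun (h : ℝ) z => (fderiv ℝ φ (z + h • v) v) • Ff z) (x₀ := (0 : ℝ)) (s := univ)
      (bound := fun z => C' * ‖v‖ * ‖Ff z‖) univ_mem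
      (Eventually.of_forall fun h =>
        (smul_int (hshift h) (fun z => hC _) hFfi).aestronglyMeasurable)
      (smul_int (hshift 0) (fun z => hC _) hFfi) ?_ (Eventually.of_forall fun z h _ => ?_)
      (hFfi.norm.const_mul _) (Eventually.of_forall fun z h _ => ?_)).2
    · have e0 : (fun z => (fderiv ℝ φ (z + (0 : ℝ) • v) v) • Ff z) =
          fun z => (fderiv ℝ φ z v) • Ff z := by
        funext z
        rw [zero_smul, add_zero]
      rw [e0] at this
      exact this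
    · refine (smul_int (C := C' * ‖v‖) ?_ (fun z => ?_) hFfi).aestronglyMeasurable
      · exact ((hφ.sm.continuous_fderiv (by simp)).comp
          (continuous_id.add continuous_const)).clm_apply continuous_const
      · exact (fderiv ℝ φ _).le_of_opNorm_le (hC' _) v
    · rw [norm_smul]
      gcongr
      exact (fderiv ℝ φ _).le_of_opNorm_le (hC' _) v
    · have h1 : HasDerivAt (fun h : ℝ => z + h • v) v h := by
        simpa using ((hasDerivAt_id h).smul_const v).const_add z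
      have h2 : HasDerivAt (fun h : ℝ => φ (z + h • v)) (fderiv ℝ φ (z + h • v) v) h :=
        ((hφ.sm.differentiable (by simp)) (z + h • v)).hasFDerivAt.comp_hasDerivAt h h1
      exact h2.smul_const (Ff z)
  -- the identity
  have key : ∀ h ∈ Ico (0 : ℝ) (min δ₁ δ₂), p h = p 0 - ∫ s in (0 : ℝ)..h, q s := by
    intro h hh
    rcases eq_or_lt_of_le hh.1 with rfl | h0
    · simp
    have hh1 : h ≤ δ₁ := hh.2.le.trans (min_le_left _ _)
    have hh2 : h < δ₂ := hh.2.trans_le (min_le_right _ _)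
    have e1 : p h = ∫ z, φ z • Ff (z - h • v) := by
      rw [hp]
      simp only
      rw [← integral_sub_right_eq_self (fun z => φ (z + h • v) • Ff z) (h • v)]
      congr 1
      funext z
      rw [sub_add_cancel]
    have e2 : p 0 = ∫ z, φ z • Ff z := by simp [hp]
    have i1 : Integrable fun z => φ z • Ff (z - h • v) :=
      smul_int hφc hC (hFfi.comp_sub_right (h • v))
    have i2 : Integrable fun z => φ z • Ff z := smul_int hφc hC hFfi
    have e3 : p 0 - p h = ∫ z, ∫ s in (0 : ℝ)..h, φ z • Gf (z - s • v) := by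
      rw [e1, e2, ← integral_sub i2 i1]
      apply integral_congr_ae
      filter_upwards [hH h ⟨h0, hh2⟩] with z hz
      by_cases hzK : z ∈ K
      · rw [← smul_sub, hFf, indicator_of_mem (hKK' hzK),
          indicator_of_mem (hin z hzK h h0.le hh1), hz hzK, intervalIntegral.integral_smul]
        congr 1
        apply intervalIntegral.integral_congr
        intro s hs
        rw [uIcc_of_le h0.le] at hs
        simp only
        rw [hGf, indicator_of_mem (hin z hzK s hs.1 (hs.2.trans hh1))]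
      · simp [hφ0 z hzK]
    have e4 : ∫ z, ∫ s in (0 : ℝ)..h, φ z • Gf (z - s • v) =
        ∫ s in (0 : ℝ)..h, ∫ z, φ z • Gf (z - s • v) := by
      simp only [intervalIntegral.integral_of_le h0.le]
      apply integral_integral_swap
      have hcm : Measurable fun p : ℂ × ℝ => φ p.1 • Gf (p.1 - p.2 • v) :=
        (hφc.measurable.comp measurable_fst).smul (hGfm.comp
          (measurable_fst.sub (measurable_snd.smul_const v)))
      have hunc : (Function.uncurry fun (x : ℂ) (y : ℝ) => φ x • Gf (x - y • v)) =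
          fun p : ℂ × ℝ => φ p.1 • Gf (p.1 - p.2 • v) := rfl
      rw [hunc, integrable_prod_iff' hcm.aestronglyMeasurable]
      constructor
      · refine Eventually.of_forall fun s => ?_
        exact smul_int hφc hC (hGfi.comp_sub_right (s • v))
      · have h5 : ∀ s : ℝ, ‖∫ z, ‖φ z • Gf (z - s • v)‖‖ ≤ C * ∫ z, ‖Gf z‖ := by
          intro s
          rw [Real.norm_of_nonneg (integral_nonneg fun z => norm_nonneg _)]
          calc ∫ z, ‖φ z • Gf (z - s • v)‖ ≤ ∫ z, C * ‖Gf (z - s • v)‖ := by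
                apply integral_mono (smul_int hφc hC (hGfi.comp_sub_right (s • v))).norm
                  ((hGfi.comp_sub_right (s • v)).norm.const_mul C)
                intro z
                simp only
                rw [norm_smul]
                gcongr
                exact hC z
            _ = C * ∫ z, ‖Gf z‖ := by
                rw [integral_const_mul, integral_sub_right_eq_self (fun z => ‖Gf z‖) (s • v)]
        refine Measure.integrableOn_of_bounded (M := C * ∫ z, ‖Gf z‖) (by simp) ?_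
          (Eventually.of_forall h5)
        have h6 : StronglyMeasurable (Function.uncurry fun (s : ℝ) (z : ℂ) =>
            ‖φ z • Gf (z - s • v)‖) :=
          (hcm.norm.comp measurable_swap).stronglyMeasurable
        exact (h6.integral_prod_right (ν := (volume : Measure ℂ))).aestronglyMeasurable
    have e5 : ∀ s : ℝ, ∫ z, φ z • Gf (z - s • v) = q s := by
      intro s
      rw [hq]
      simp only
      rw [← integral_sub_right_eq_self (fun z => φ (z + s • v) • Gf z) (s • v)]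
      congr 1
      funext z
      rw [sub_add_cancel]
    simp only [e5] at e4
    rw [e4] at e3
    rw [← e3]
    ring
  have hd2 : HasDerivWithinAt p (-q 0) (Ici 0) 0 := by
    have h1 : HasDerivAt (fun h => p 0 - ∫ s in (0 : ℝ)..h, q s) (-q 0) 0 := by
      have := (intervalIntegral.integral_hasDerivAt_right (hqc.intervalIntegrable 0 0)
        (hqc.stronglyMeasurableAtFilter _ _) hqc.continuousAt).const_sub (p 0)
      simpa using this
    refine h1.hasDerivWithinAt.congr_of_eventuallyEq ?_ (by simp)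
    have h2 : Ico (0 : ℝ) (min δ₁ δ₂) ∈ 𝓝[≥] (0 : ℝ) := Ico_mem_nhdsGE (lt_min hδ₁ hδ₂)
    filter_upwards [h2] with h hh
    exact key h hh
  have h3 := (uniqueDiffWithinAt_Ici (0 : ℝ)).eq_deriv _ hpd.hasDerivWithinAt hd2
  have e6 : ∫ z, (fderiv ℝ φ z v) • F z = ∫ z, (fderiv ℝ φ z v) • Ff z := by
    congr 1
    funext z
    by_cases hz : z ∈ K
    · rw [hFf, indicator_of_mem (hKK' hz)]
    · rw [hdφ0 z hz]
      simp
  have e7 : q 0 = ∫ z, φ z • F' z := by
    rw [hq]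
    simp only
    congr 1
    funext z
    rw [zero_smul, add_zero]
    by_cases hz : z ∈ K
    · rw [hGf, indicator_of_mem (hKK' hz)]
    · rw [hφ0 z hz]
      simp
  rw [e6, h3, e7]

theorem ae_im {P : ℝ → Prop} (h : ∀ᵐ y : ℝ, P y) : ∀ᵐ z : ℂ, P z.im := by
  have h1 : Measure.QuasiMeasurePreserving (fun z : ℂ => (Complex.measurableEquivRealProd z).2)
      volume volume :=
    (Measure.quasiMeasurePreserving_snd (μ := (volume : Measure ℝ)) (ν := (volume : Measure ℝ))).comp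
      volume_preserving_equiv_real_prod.quasiMeasurePreserving
  exact h1.ae h

theorem ae_re {P : ℝ → Prop} (h : ∀ᵐ x : ℝ, P x) : ∀ᵐ z : ℂ, P z.re := by
  have h1 : Measure.QuasiMeasurePreserving (fun z : ℂ => (Complex.measurableEquivRealProd z).1)
      volume volume :=
    (Measure.quasiMeasurePreserving_fst (μ := (volume : Measure ℝ)) (ν := (volume : Measure ℝ))).comp
      volume_preserving_equiv_real_prod.quasiMeasurePreserving
  exact h1.ae h

end MPfa.Mol

namespace MPfa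

theorem specACLC : SpecACLC := by
  intro G F Fx Fy hG hF hmx hmy hlx hly hH hV
  refine ⟨hmx, hmy, fun K hK hKc => (hF.mono hK).integrableOn_compact hKc, hlx, hly, ?_, ?_⟩
  · refine Mol.weak_of_diff (by simp) hG hF hmx hlx fun K hK hKc => ?_
    obtain ⟨δ, hδ, hδG⟩ := hKc.exists_cthickening_subset_open hG hK
    refine ⟨δ, hδ, fun h hh => ?_⟩
    filter_upwards [Mol.ae_im hH] with z hz hzK
    have hseg : ∀ x ∈ Icc (z.re - h) z.re, (⟨x, z.im⟩ : ℂ) ∈ G := by
      intro x hx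
      apply hδG
      apply closedBall_subset_cthickening hzK δ
      rw [mem_closedBall, dist_eq]
      have : (⟨x, z.im⟩ : ℂ) - z = ((x - z.re : ℝ) : ℂ) := by
        apply Complex.ext <;> simp
      rw [this, Complex.norm_real, Real.norm_eq_abs, abs_le]
      constructor <;> linarith [hx.1, hx.2, hh.2]
    have h1 := (hz (z.re - h) z.re (by linarith [hh.1]) hseg).2
    have e1 : z - h • (1 : ℂ) = ⟨z.re - h, z.im⟩ := by
      apply Complex.ext <;> simp
    have e2 : ∀ s : ℝ, z - s • (1 : ℂ) = ⟨z.re - s, z.im⟩ := by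
      intro s
      apply Complex.ext <;> simp
    have e3 : ∫ s in (0 : ℝ)..h, Fx (z - s • (1 : ℂ)) =
        ∫ x in (z.re - h)..z.re, Fx ⟨x, z.im⟩ := by
      simp only [e2]
      rw [intervalIntegral.integral_comp_sub_left (fun x => Fx ⟨x, z.im⟩) z.re, sub_zero]
    rw [e3, ← h1, e1]
  · refine Mol.weak_of_diff (by simp) hG hF hmy hly fun K hK hKc => ?_
    obtain ⟨δ, hδ, hδG⟩ := hKc.exists_cthickening_subset_open hG hK
    refine ⟨δ, hδ, fun h hh => ?_⟩
    filter_upwards [Mol.ae_re hV] with z hz hzK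
    have hseg : ∀ y ∈ Icc (z.im - h) z.im, (⟨z.re, y⟩ : ℂ) ∈ G := by
      intro y hy
      apply hδG
      apply closedBall_subset_cthickening hzK δ
      rw [mem_closedBall, dist_eq]
      have : (⟨z.re, y⟩ : ℂ) - z = ((y - z.im : ℝ) : ℂ) * I := by
        apply Complex.ext <;> simp
      rw [this, norm_mul, Complex.norm_real, norm_I, mul_one, Real.norm_eq_abs, abs_le]
      constructor <;> linarith [hy.1, hy.2, hh.2]
    have h1 := (hz (z.im - h) z.im (by linarith [hh.1]) hseg).2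
    have e1 : z - h • I = ⟨z.re, z.im - h⟩ := by
      apply Complex.ext <;> simp
    have e2 : ∀ s : ℝ, z - s • I = ⟨z.re, z.im - s⟩ := by
      intro s
      apply Complex.ext <;> simp
    have e3 : ∫ s in (0 : ℝ)..h, Fy (z - s • I) =
        ∫ y in (z.im - h)..z.im, Fy ⟨z.re, y⟩ := by
      simp only [e2]
      rw [intervalIntegral.integral_comp_sub_left (fun y => Fy ⟨z.re, y⟩) z.im, sub_zero]
    rw [e3, ← h1, e1]

end MPfa
end

section
/-!
Problem MP_fa0334_an, module ALG: algebra of the columns.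
-/
set_option autoImplicit false

open MeasureTheory Set Filter Topology Metric Complex
open scoped ContDiff ENNReal ComplexConjugate

namespace MPfa

namespace Alg

lemma sqn (z : ℂ) : ‖z‖ ^ 2 = z.re * z.re + z.im * z.im := by
  rw [Complex.sq_norm, Complex.normSq_apply]

lemma jac_le (a b : ℂ) : |jac a b| ≤ n2 a b := by
  simp only [jac, n2, sqn]
  rw [abs_le]
  constructor <;>
  nlinarith [sq_nonneg (a.re - b.im), sq_nonneg (a.im + b.re), sq_nonneg (a.re + b.im),
    sq_nonneg (a.im - b.re)]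

lemma n2_nonneg (a b : ℂ) : 0 ≤ n2 a b := by unfold n2; positivity

lemma jac_le' (a b : ℂ) : jac a b ≤ n2 a b := (le_abs_self _).trans (jac_le a b)

lemma n2_pos_of_jac {a b : ℂ} (h : 0 < jac a b) : 0 < n2 a b := h.trans_le (jac_le' a b)

lemma KK_ge (a b : ℂ) : 1 ≤ KK a b := by
  unfold KK
  split_ifs with h
  · rw [le_div_iff₀ h, one_mul]; exact jac_le' a b
  · exact le_rfl

lemma jac_wirt (a b : ℂ) : 4 * jac a b = ‖a - I * b‖ ^ 2 - ‖a + I * b‖ ^ 2 := by
  simp only [jac, sqn]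
  simp
  ring

lemma n2_wirt (a b : ℂ) : 4 * n2 a b = ‖a - I * b‖ ^ 2 + ‖a + I * b‖ ^ 2 := by
  simp only [n2, sqn]
  simp
  ring

lemma hopf_eq (a b : ℂ) :
    hopf a b = ((‖a‖ ^ 2 - ‖b‖ ^ 2 : ℝ) : ℂ) - 2 * (((a * conj b).re : ℝ) : ℂ) * I := by
  simp only [hopf, sqn]
  apply Complex.ext <;> simp <;> ring

lemma n2_eq_zero {a b : ℂ} : n2 a b = 0 ↔ a = 0 ∧ b = 0 := by
  unfold n2
  constructor
  · intro h
    have h1 : ‖a‖ ^ 2 = 0 := by nlinarith [sq_nonneg ‖a‖, sq_nonneg ‖b‖]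
    have h2 : ‖b‖ ^ 2 = 0 := by nlinarith [sq_nonneg ‖a‖, sq_nonneg ‖b‖]
    exact ⟨by simpa using h1, by simpa using h2⟩
  · rintro ⟨rfl, rfl⟩; simp

lemma jac_zero : jac 0 0 = 0 := by simp [jac]

lemma PP_zero (p : ℝ) : PP p 0 0 = 0 := by simp [PP]

lemma PP_pos (p : ℝ) {a b : ℂ} (h : 0 < jac a b) :
    PP p a b = ENNReal.ofReal (n2 a b ^ p / jac a b ^ (p - 1)) := by
  unfold PP
  rw [if_neg, if_pos h]
  rintro ⟨rfl, rfl⟩
  simp [jac_zero] at h

lemma PP_top (p : ℝ) {a b : ℂ} (h : ¬ (a = 0 ∧ b = 0)) (h' : ¬ 0 < jac a b) : PP p a b = ⊤ := by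
  unfold PP
  rw [if_neg h, if_neg h']

/-- case analysis -/
lemma cases3 (a b : ℂ) : (a = 0 ∧ b = 0) ∨ 0 < jac a b ∨ (¬ (a = 0 ∧ b = 0) ∧ ¬ 0 < jac a b) := by
  tauto

lemma PP_eq_KK (p : ℝ) {a b : ℂ} (h : 0 < jac a b) :
    n2 a b ^ p / jac a b ^ (p - 1) = n2 a b * KK a b ^ (p - 1) := by
  have hn := n2_pos_of_jac h
  unfold KK
  rw [if_pos h, Real.div_rpow hn.le h.le, mul_div_assoc', Real.rpow_sub_one hn.ne',
    mul_div_cancel₀ _ hn.ne']

lemma n2_le_PP (p : ℝ) (hp : 1 < p) (a b : ℂ) : ENNReal.ofReal (n2 a b) ≤ PP p a b := by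
  rcases cases3 a b with ⟨rfl, rfl⟩ | h | ⟨h, h'⟩
  · simp [n2]
  · rw [PP_pos p h, PP_eq_KK p h]
    apply ENNReal.ofReal_le_ofReal
    have h1 : 1 ≤ KK a b ^ (p - 1) := Real.one_le_rpow (KK_ge a b) (by linarith)
    nlinarith [n2_nonneg a b]
  · rw [PP_top p h h']; exact le_top

lemma PP_lt (p : ℝ) (a b : ℂ) : PP p a b < ⊤ ↔ ((a = 0 ∧ b = 0) ∨ 0 < jac a b) := by
  rcases cases3 a b with ⟨rfl, rfl⟩ | h | ⟨h, h'⟩
  · simp [PP_zero]
  · simp only [h, or_true, iff_true, PP_pos p h]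
    exact ENNReal.ofReal_lt_top
  · rw [PP_top p h h']
    simp only [lt_self_iff_false, false_iff]
    tauto

lemma jac_nonneg (p : ℝ) (a b : ℂ) (h : PP p a b < ⊤) : 0 ≤ jac a b := by
  rcases (PP_lt p a b).1 h with ⟨rfl, rfl⟩ | h
  · simp [jac_zero]
  · exact h.le

lemma norm_hopf_le (a b : ℂ) : ‖hopf a b‖ ≤ 2 * n2 a b := by
  have h := n2_wirt a b
  unfold hopf
  rw [norm_mul, Complex.norm_conj]
  nlinarith [sq_nonneg (‖a - I * b‖ - ‖a + I * b‖)]

lemma norm_AH (p : ℝ) (a b : ℂ) : ‖AH p a b‖ = KK a b ^ (p - 1) * ‖hopf a b‖ := by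
  unfold AH
  rw [norm_mul, Complex.norm_real, Real.norm_of_nonneg]
  exact Real.rpow_nonneg (zero_le_one.trans (KK_ge a b)) _

lemma AH_le (p : ℝ) (_hp : 1 < p) (a b : ℂ) : ENNReal.ofReal ‖AH p a b‖ ≤ 2 * PP p a b := by
  rcases cases3 a b with ⟨rfl, rfl⟩ | h | ⟨h, h'⟩
  · simp [AH, hopf]
  · rw [PP_pos p h, PP_eq_KK p h, norm_AH]
    have h2 : (2 : ℝ≥0∞) = ENNReal.ofReal 2 := by simp
    rw [h2, ← ENNReal.ofReal_mul (by norm_num)]
    apply ENNReal.ofReal_le_ofReal
    have h0 : 0 ≤ KK a b ^ (p - 1) := Real.rpow_nonneg (zero_le_one.trans (KK_ge a b)) _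
    nlinarith [norm_hopf_le a b]
  · rw [PP_top p h h']
    simp

lemma cont_n2 : Continuous fun z : ℂ × ℂ => n2 z.1 z.2 := by
  unfold n2; fun_prop

lemma cont_jac : Continuous fun z : ℂ × ℂ => jac z.1 z.2 := by
  unfold jac; fun_prop

lemma meas_pos : MeasurableSet {z : ℂ × ℂ | 0 < jac z.1 z.2} :=
  measurableSet_lt measurable_const cont_jac.measurable

lemma meas_KK : Measurable fun z : ℂ × ℂ => KK z.1 z.2 := by
  unfold KK
  exact Measurable.ite meas_pos (cont_n2.measurable.div cont_jac.measurable) measurable_const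

lemma meas_PP (p : ℝ) : Measurable fun z : ℂ × ℂ => PP p z.1 z.2 := by
  unfold PP
  apply Measurable.ite
  · have : {z : ℂ × ℂ | z.1 = 0 ∧ z.2 = 0} = {(0, 0)} := by
      ext z; simp [Prod.ext_iff]
    rw [this]
    exact measurableSet_singleton _
  · exact measurable_const
  · apply Measurable.ite meas_pos _ measurable_const
    apply Measurable.ennreal_ofReal
    exact (cont_n2.measurable.pow_const p).div (cont_jac.measurable.pow_const (p - 1))

lemma meas_AH (p : ℝ) : Measurable fun z : ℂ × ℂ => AH p z.1 z.2 := by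
  unfold AH
  apply Measurable.mul
  · exact Complex.measurable_ofReal.comp (meas_KK.pow_const (p - 1))
  · apply Continuous.measurable
    unfold hopf
    fun_prop

lemma lmap_apply (a b m : ℂ) : lmap a b m = (m.re : ℂ) * a + (m.im : ℂ) * b := by
  simp [lmap]

lemma lmap_apply_I (a b m : ℂ) : lmap a b (m * I) = -(m.im : ℂ) * a + (m.re : ℂ) * b := by
  rw [lmap_apply]
  simp

lemma jac_cx (a b m : ℂ) : jac (lmap a b m) (lmap a b (m * I)) = jac a b * ‖m‖ ^ 2 := by
  rw [lmap_apply, lmap_apply_I, sqn]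
  simp [jac]
  ring

lemma n2_cx (a b m : ℂ) : n2 (lmap a b m) (lmap a b (m * I)) = n2 a b * ‖m‖ ^ 2 := by
  rw [lmap_apply, lmap_apply_I]
  simp only [n2, sqn]
  simp
  ring

lemma hopf_cx (a b m : ℂ) : hopf (lmap a b m) (lmap a b (m * I)) = hopf a b * m ^ 2 := by
  rw [lmap_apply, lmap_apply_I]
  simp only [hopf]
  apply Complex.ext <;> simp [pow_two] <;> ring

lemma sq_pos {m : ℂ} (hm : m ≠ 0) : 0 < ‖m‖ ^ 2 := by positivity

lemma KK_cx (a b m : ℂ) (hm : m ≠ 0) : KK (lmap a b m) (lmap a b (m * I)) = KK a b := by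
  have h := sq_pos hm
  unfold KK
  rw [jac_cx, n2_cx]
  have : (0 < jac a b * ‖m‖ ^ 2) ↔ 0 < jac a b := by
    constructor
    · intro h'; exact (pos_iff_pos_of_mul_pos h').2 h
    · intro h'; positivity
  simp only [this]
  split_ifs with h'
  · field_simp
  · rfl

lemma AH_cx (p : ℝ) (a b m : ℂ) (hm : m ≠ 0) :
    AH p (lmap a b m) (lmap a b (m * I)) = AH p a b * m ^ 2 := by
  unfold AH
  rw [KK_cx a b m hm, hopf_cx]
  ring

lemma PP_cx (p : ℝ) (a b m : ℂ) (hm : m ≠ 0) :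
    PP p (lmap a b m) (lmap a b (m * I)) = PP p a b * ENNReal.ofReal (‖m‖ ^ 2) := by
  have hq := sq_pos hm
  rcases cases3 a b with ⟨rfl, rfl⟩ | h | ⟨h, h'⟩
  · have : lmap 0 0 m = 0 ∧ lmap 0 0 (m * I) = 0 := by simp [lmap_apply]
    rw [this.1, this.2, PP_zero, zero_mul]
  · have hj : 0 < jac (lmap a b m) (lmap a b (m * I)) := by
      rw [jac_cx]; positivity
    rw [PP_pos p h, PP_pos p hj, PP_eq_KK p h, PP_eq_KK p hj, KK_cx a b m hm, n2_cx,
      ← ENNReal.ofReal_mul]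
    · congr 1; ring
    · exact mul_nonneg (n2_nonneg _ _) (Real.rpow_nonneg (zero_le_one.trans (KK_ge a b)) _)
  · rw [PP_top p h h', PP_top p, ENNReal.top_mul]
    · simpa using hm
    · rw [← n2_eq_zero, n2_cx]
      intro h0
      rcases mul_eq_zero.1 h0 with h0 | h0
      · exact h (n2_eq_zero.1 h0)
      · exact hq.ne' h0
    · rw [jac_cx]
      intro h0
      exact h' ((pos_iff_pos_of_mul_pos h0).2 hq)

lemma young_real {p : ℝ} (hp : 1 < p) {l n J : ℝ} (hl : 0 ≤ l) (hn : 0 < n) (hJ : 0 < J) :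
    p * l ^ (p - 1) * n - (p - 1) * l ^ p * J ≤ n ^ p / J ^ (p - 1) := by
  have hp0 : 0 < p := by linarith
  have hpq : p.HolderConjugate (p / (p - 1)) := Real.HolderConjugate.conjExponent hp
  have h := Real.young_inequality_of_nonneg (div_nonneg hn.le hJ.le) (Real.rpow_nonneg hl (p - 1))
    hpq
  have h1 : (l ^ (p - 1)) ^ (p / (p - 1)) = l ^ p := by
    rw [← Real.rpow_mul hl]
    congr 1
    have : p - 1 ≠ 0 := by linarith
    field_simp
  rw [h1] at h
  have h2 : n ^ p / J ^ (p - 1) = J * (n / J) ^ p := by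
    rw [Real.div_rpow hn.le hJ.le, Real.rpow_sub_one hJ.ne']
    field_simp
  rw [h2]
  have h3 : p * l ^ (p - 1) * n = p * J * (n / J * l ^ (p - 1)) := by
    field_simp
  rw [h3]
  have h4 : p * J * (n / J * l ^ (p - 1)) ≤ p * J * ((n / J) ^ p / p + l ^ p / (p / (p - 1))) :=
    mul_le_mul_of_nonneg_left h (by positivity)
  have h5 : p * J * ((n / J) ^ p / p + l ^ p / (p / (p - 1))) =
      J * (n / J) ^ p + (p - 1) * l ^ p * J := by
    have : p - 1 ≠ 0 := by linarith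
    field_simp
  linarith

lemma young (p : ℝ) (hp : 1 < p) (l : ℝ) (hl : 0 ≤ l) (a b : ℂ) :
    ENNReal.ofReal (p * l ^ (p - 1) * n2 a b - (p - 1) * l ^ p * jac a b) ≤ PP p a b := by
  rcases cases3 a b with ⟨rfl, rfl⟩ | h | ⟨h, h'⟩
  · simp [n2, jac]
  · rw [PP_pos p h]
    exact ENNReal.ofReal_le_ofReal (young_real hp hl (n2_pos_of_jac h) h)
  · rw [PP_top p h h']; exact le_top

lemma youngsup (p : ℝ) (hp : 1 < p) (a b : ℂ) :
    PP p a b ≤ ⨆ l : ℚ, ENNReal.ofReal
      (p * |(l : ℝ)| ^ (p - 1) * n2 a b - (p - 1) * |(l : ℝ)| ^ p * jac a b) := by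
  set S := ⨆ l : ℚ, ENNReal.ofReal
      (p * |(l : ℝ)| ^ (p - 1) * n2 a b - (p - 1) * |(l : ℝ)| ^ p * jac a b) with hS
  have hall : ∀ x : ℝ, ENNReal.ofReal
      (p * |x| ^ (p - 1) * n2 a b - (p - 1) * |x| ^ p * jac a b) ≤ S := by
    have hc : Continuous fun x : ℝ => ENNReal.ofReal
        (p * |x| ^ (p - 1) * n2 a b - (p - 1) * |x| ^ p * jac a b) := by
      apply ENNReal.continuous_ofReal.comp
      have h1 : Continuous fun x : ℝ => |x| ^ (p - 1) :=
        continuous_abs.rpow_const fun _ => Or.inr (by linarith)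
      have h2 : Continuous fun x : ℝ => |x| ^ p :=
        continuous_abs.rpow_const fun _ => Or.inr (by linarith)
      fun_prop
    intro x
    refine Rat.denseRange_cast.induction_on (p := fun x : ℝ => ENNReal.ofReal
      (p * |x| ^ (p - 1) * n2 a b - (p - 1) * |x| ^ p * jac a b) ≤ S) x
      (isClosed_le hc continuous_const) ?_
    intro q
    exact le_iSup (fun l : ℚ => ENNReal.ofReal
      (p * |(l : ℝ)| ^ (p - 1) * n2 a b - (p - 1) * |(l : ℝ)| ^ p * jac a b)) q
  rcases cases3 a b with ⟨rfl, rfl⟩ | h | ⟨h, h'⟩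
  · rw [PP_zero]; exact zero_le
  · have hn := n2_pos_of_jac h
    have h1 := hall (n2 a b / jac a b)
    rw [PP_pos p h]
    refine le_trans (le_of_eq ?_) h1
    congr 1
    rw [abs_of_pos (by positivity), Real.div_rpow hn.le h.le, Real.div_rpow hn.le h.le]
    have e1 : n2 a b ^ (p - 1) = n2 a b ^ p / n2 a b := Real.rpow_sub_one hn.ne' p
    have e2 : jac a b ^ (p - 1) = jac a b ^ p / jac a b := Real.rpow_sub_one h.ne' p
    have e3 : 0 < jac a b ^ p := Real.rpow_pos_of_pos h p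
    rw [e1, e2]
    field_simp
    ring
  · have hn : 0 < n2 a b := lt_of_le_of_ne (n2_nonneg a b) fun h0 => h (n2_eq_zero.1 h0.symm)
    have hJ : jac a b ≤ 0 := not_lt.1 h'
    have htop : S = ⊤ := by
      apply ENNReal.eq_top_of_forall_nnreal_le
      intro r
      have hx : 0 < (r : ℝ) / (p * n2 a b) + 1 := by positivity
      set y : ℝ := (r : ℝ) / (p * n2 a b) + 1 with hy
      set x : ℝ := y ^ (1 / (p - 1)) with hx'
      have hx0 : 0 < x := Real.rpow_pos_of_pos hx _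
      refine le_trans ?_ (hall x)
      have hxp : |x| ^ (p - 1) = y := by
        rw [abs_of_pos hx0, hx', ← Real.rpow_mul hx.le]
        have : p - 1 ≠ 0 := by linarith
        rw [one_div, inv_mul_cancel₀ this, Real.rpow_one]
      rw [hxp]
      have h1 : (r : ℝ) ≤ p * y * n2 a b - (p - 1) * |x| ^ p * jac a b := by
        have h2 : 0 ≤ -((p - 1) * |x| ^ p * jac a b) := by
          have : 0 ≤ (p - 1) * |x| ^ p := mul_nonneg (by linarith) (by positivity)
          nlinarith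
        have h3 : p * y * n2 a b = r + p * n2 a b := by
          rw [hy]
          have : p ≠ 0 := by linarith
          field_simp
        have h4 : 0 < p * n2 a b := by positivity
        linarith
      rw [← ENNReal.ofReal_coe_nnreal]
      exact ENNReal.ofReal_le_ofReal h1
    rw [htop]
    exact le_top

end Alg

/-- module ALG -/
theorem specAlg : SpecAlg where
  jac_le := Alg.jac_le
  n2_nonneg := Alg.n2_nonneg
  KK_ge := Alg.KK_ge
  jac_wirt := Alg.jac_wirt
  n2_wirt := Alg.n2_wirt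
  hopf_eq := Alg.hopf_eq
  n2_le_PP := Alg.n2_le_PP
  PP_lt := Alg.PP_lt
  jac_nonneg := Alg.jac_nonneg
  AH_le := Alg.AH_le
  meas_n2 := Alg.cont_n2.measurable
  meas_jac := Alg.cont_jac.measurable
  meas_KK := Alg.meas_KK
  meas_PP := Alg.meas_PP
  meas_AH := Alg.meas_AH
  jac_cx := Alg.jac_cx
  n2_cx := Alg.n2_cx
  KK_cx := Alg.KK_cx
  AH_cx := Alg.AH_cx
  PP_cx := Alg.PP_cx
  young := Alg.young
  youngsup := Alg.youngsup

end MPfa
end

section
/-!
Problem MP_fa0334_an, module ALG2: consequences of the equation in a natural chart.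
-/
set_option autoImplicit false

open MeasureTheory Set Filter Topology Metric Complex
open scoped ContDiff ENNReal ComplexConjugate

namespace MPfa

namespace Alg2

lemma lagrange (a b : ℂ) : jac a b ^ 2 + (a * conj b).re ^ 2 = ‖a‖ ^ 2 * ‖b‖ ^ 2 := by
  simp only [jac, Alg.sqn]
  simp
  ring

lemma main {p : ℝ} {a b : ℂ} (hJ : 0 < jac a b) (hA : AH p a b = 1) :
    (a * conj b).re = 0 ∧ 0 < KK a b ^ (p - 1) ∧
      KK a b ^ (p - 1) * (‖a‖ ^ 2 - ‖b‖ ^ 2) = 1 ∧ jac a b = ‖a‖ * ‖b‖ ∧ ‖b‖ < ‖a‖ ∧ 0 < ‖b‖ := by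
  have hk : 0 < KK a b ^ (p - 1) := Real.rpow_pos_of_pos (zero_lt_one.trans_le (Alg.KK_ge a b)) _
  unfold AH at hA
  rw [Alg.hopf_eq] at hA
  have him := congrArg Complex.im hA
  have hre := congrArg Complex.re hA
  simp only [Complex.mul_im, Complex.mul_re, Complex.ofReal_re, Complex.ofReal_im, Complex.sub_re,
    Complex.sub_im, Complex.one_re, Complex.one_im, Complex.I_re, Complex.I_im, Complex.re_ofNat,
    Complex.im_ofNat, zero_mul, mul_zero, mul_one, sub_zero, add_zero, zero_sub] at him hre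
  have h0 : (a * conj b).re = 0 := by
    rw [Complex.mul_re]
    rcases mul_eq_zero.1 him with h | h
    · exact absurd h hk.ne'
    · linarith
  have hl := lagrange a b
  rw [h0] at hl
  have h1 : jac a b = ‖a‖ * ‖b‖ := by
    have h2 : jac a b ^ 2 = (‖a‖ * ‖b‖) ^ 2 := by rw [mul_pow]; linarith
    exact (pow_left_inj₀ hJ.le (by positivity) two_ne_zero).1 h2
  have h3 : 0 < ‖b‖ := by
    rcases (norm_nonneg b).lt_or_eq with h | h
    · exact h
    · rw [← h, mul_zero] at h1; linarith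
  have h4 : 0 < ‖a‖ ^ 2 - ‖b‖ ^ 2 := by
    by_contra hcon
    have : KK a b ^ (p - 1) * (‖a‖ ^ 2 - ‖b‖ ^ 2) ≤ 0 :=
      mul_nonpos_of_nonneg_of_nonpos hk.le (not_lt.1 hcon)
    linarith
  refine ⟨h0, hk, hre, h1, ?_, h3⟩
  exact lt_of_pow_lt_pow_left₀ 2 (norm_nonneg a) (by linarith)

/-- real part (i) -/
lemma real1 {p A B κ K : ℝ} (hp : 1 < p) (hB : 0 < B) (hBA : B < A)
    (hK : K = (A ^ 2 + B ^ 2) / 2 / (A * B)) (hκ : κ = K ^ (p - 1)) (h : κ * (A ^ 2 - B ^ 2) = 1) :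
    B ^ (2 * p / (p + 1)) ≤ A * B := by
  have hA : 0 < A := hB.trans hBA
  have hK1 : K ≤ A / B := by
    rw [hK, div_div, div_le_div_iff₀ (by positivity) hB]
    nlinarith [mul_pos hA hB, mul_pos (mul_pos hA hB) hB]
  have hK0 : 0 < K := by rw [hK]; positivity
  have h1 : κ ≤ (A / B) ^ (p - 1) := by
    rw [hκ]; exact Real.rpow_le_rpow hK0.le hK1 (by linarith)
  have h2 : 1 ≤ (A / B) ^ (p - 1) * A ^ 2 := by
    calc (1 : ℝ) = κ * (A ^ 2 - B ^ 2) := h.symm
      _ ≤ (A / B) ^ (p - 1) * A ^ 2 :=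
        mul_le_mul h1 (by nlinarith) (by nlinarith) (by positivity)
  have h3 : B ^ (p - 1) ≤ A ^ (p + 1) := by
    rw [Real.div_rpow hA.le hB.le] at h2
    have hb : 0 < B ^ (p - 1) := Real.rpow_pos_of_pos hB _
    rw [div_mul_eq_mul_div, le_div_iff₀ hb, one_mul] at h2
    have : A ^ (p + 1) = A ^ (p - 1) * A ^ 2 := by
      rw [← Real.rpow_natCast, ← Real.rpow_add hA]
      congr 1; push_cast; ring
    rw [this]; exact h2
  have h4 : B ^ ((p - 1) / (p + 1)) ≤ A := by
    have h5 := Real.rpow_le_rpow (Real.rpow_nonneg hB.le _) h3 (z := 1 / (p + 1)) (by positivity)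
    rw [← Real.rpow_mul hB.le, ← Real.rpow_mul hA.le] at h5
    have e1 : (p - 1) * (1 / (p + 1)) = (p - 1) / (p + 1) := by ring
    have e2 : (p + 1) * (1 / (p + 1)) = 1 := by
      have : p + 1 ≠ 0 := by linarith
      field_simp
    rw [e1, e2, Real.rpow_one] at h5
    exact h5
  have e3 : 2 * p / (p + 1) = 1 + (p - 1) / (p + 1) := by
    have : p + 1 ≠ 0 := by linarith
    field_simp; ring
  rw [e3, Real.rpow_add hB, Real.rpow_one, mul_comm A B]
  exact mul_le_mul_of_nonneg_left h4 hB.le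

/-- real part (ii) -/
lemma real2 {p A B κ K : ℝ} (hp : 1 < p) (hB : 0 < B) (hBA : B < A)
    (hK : K = (A ^ 2 + B ^ 2) / 2 / (A * B)) (hκ : κ = K ^ (p - 1)) (h : κ * (A ^ 2 - B ^ 2) = 1) :
    A * B ^ (1 - 2 * p / (p + 1)) ≤ 4 * (1 + A * B) := by
  have hA : 0 < A := hB.trans hBA
  have hp1 : 0 < p + 1 := by linarith
  set s : ℝ := (p - 1) / (p + 1) with hs
  have hs0 : 0 < s := div_pos (by linarith) hp1
  have hs1 : s < 1 := by rw [hs, div_lt_one hp1]; linarith
  have e0 : 1 - 2 * p / (p + 1) = -s := by rw [hs]; field_simp; ring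
  rw [e0]
  rcases le_or_gt B (A / 2) with hc | hc
  · have hK1 : A / (2 * B) ≤ K := by
      rw [hK, div_div, div_le_div_iff₀ (by positivity) (by positivity)]
      nlinarith [mul_pos hA hB, mul_pos (mul_pos hA hB) hB, mul_pos (mul_pos hB hB) hB]
    have h1 : (A / (2 * B)) ^ (p - 1) ≤ κ := by
      rw [hκ]; exact Real.rpow_le_rpow (by positivity) hK1 (by linarith)
    have h2 : (A / (2 * B)) ^ (p - 1) * (3 / 4 * A ^ 2) ≤ 1 := by
      calc (A / (2 * B)) ^ (p - 1) * (3 / 4 * A ^ 2) ≤ κ * (A ^ 2 - B ^ 2) :=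
            mul_le_mul h1 (by nlinarith) (by positivity)
              ((Real.rpow_nonneg (by positivity) _).trans h1)
        _ = 1 := h
    have h3 : A ^ (p + 1) ≤ 4 / 3 * (2 * B) ^ (p - 1) := by
      rw [Real.div_rpow hA.le (by positivity)] at h2
      have hb : 0 < (2 * B) ^ (p - 1) := Real.rpow_pos_of_pos (by positivity) _
      rw [div_mul_eq_mul_div, div_le_iff₀ hb, one_mul] at h2
      have : A ^ (p + 1) = A ^ (p - 1) * A ^ 2 := by
        rw [← Real.rpow_natCast, ← Real.rpow_add hA]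
        congr 1; push_cast; ring
      rw [this]; linarith
    have h4 : A ≤ 2 * (2 * B) ^ s := by
      have h5 := Real.rpow_le_rpow (Real.rpow_nonneg hA.le _) h3 (z := 1 / (p + 1)) (by positivity)
      rw [← Real.rpow_mul hA.le, Real.mul_rpow (by norm_num) (by positivity),
        ← Real.rpow_mul (by positivity)] at h5
      have e1 : (p - 1) * (1 / (p + 1)) = s := by rw [hs]; ring
      have e2 : (p + 1) * (1 / (p + 1)) = 1 := by field_simp
      rw [e1, e2, Real.rpow_one] at h5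
      have h6 : ((4 : ℝ) / 3) ^ (1 / (p + 1)) ≤ 2 := by
        calc ((4 : ℝ) / 3) ^ (1 / (p + 1)) ≤ (4 / 3 : ℝ) ^ (1 : ℝ) := by
              apply Real.rpow_le_rpow_of_exponent_le (by norm_num)
              rw [div_le_one hp1]; linarith
          _ ≤ 2 := by norm_num
      exact h5.trans (mul_le_mul_of_nonneg_right h6 (by positivity))
    have h7 : (2 * B) ^ s ≤ 2 * B ^ s := by
      rw [Real.mul_rpow (by norm_num) hB.le]
      apply mul_le_mul_of_nonneg_right _ (by positivity)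
      calc (2 : ℝ) ^ s ≤ 2 ^ (1 : ℝ) := Real.rpow_le_rpow_of_exponent_le (by norm_num) hs1.le
        _ = 2 := by norm_num
    have h8 : A * B ^ (-s) ≤ 4 := by
      rw [Real.rpow_neg hB.le]
      have hb : 0 < B ^ s := Real.rpow_pos_of_pos hB _
      rw [← div_eq_mul_inv, div_le_iff₀ hb]
      linarith
    have : 0 < A * B := mul_pos hA hB
    linarith
  · have h1 : B ^ (-s) ≤ (A / 2) ^ (-s) :=
      Real.rpow_le_rpow_of_nonpos (by positivity) hc.le (by linarith)
    have h2 : A * (A / 2) ^ (-s) ≤ 2 * A ^ (1 - s) := by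
      rw [Real.div_rpow hA.le (by norm_num), Real.rpow_sub hA, Real.rpow_one, Real.rpow_neg hA.le,
        Real.rpow_neg (by norm_num : (0 : ℝ) ≤ 2)]
      have h3 : (2 : ℝ) ^ s ≤ 2 := by
        calc (2 : ℝ) ^ s ≤ 2 ^ (1 : ℝ) := Real.rpow_le_rpow_of_exponent_le (by norm_num) hs1.le
          _ = 2 := by norm_num
      have h4 : 0 < A ^ s := Real.rpow_pos_of_pos hA _
      have h5 : 0 < (2 : ℝ) ^ s := by positivity
      have h6 : A * ((A ^ s)⁻¹ / ((2 : ℝ) ^ s)⁻¹) = 2 ^ s * (A / A ^ s) := by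
        field_simp
      rw [h6]
      exact mul_le_mul_of_nonneg_right h3 (by positivity)
    have h3 : A ^ (1 - s) ≤ 1 + A ^ 2 := by
      rcases le_or_gt A 1 with h1 | h1
      · have := Real.rpow_le_one hA.le h1 (by linarith : 0 ≤ 1 - s)
        nlinarith [sq_nonneg A]
      · have : A ^ (1 - s) ≤ A ^ (2 : ℝ) :=
          Real.rpow_le_rpow_of_exponent_le h1.le (by linarith)
        rw [Real.rpow_two] at this
        linarith
    have h4 : A * B ^ (-s) ≤ A * (A / 2) ^ (-s) := mul_le_mul_of_nonneg_left h1 hA.le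
    nlinarith

end Alg2

/-- module ALG2 -/
theorem specAlg2 : SpecAlg2 := by
  intro p hp
  refine ⟨4, by norm_num, ?_⟩
  intro a b hJ hA
  obtain ⟨h0, hk, h1, h2, h3, h4⟩ := Alg2.main hJ hA
  have hKK : KK a b = (‖a‖ ^ 2 + ‖b‖ ^ 2) / 2 / (‖a‖ * ‖b‖) := by
    unfold KK
    rw [if_pos hJ, h2]
    rfl
  refine ⟨h0, h2, h3, h4, ?_, ?_⟩
  · have := Alg2.real1 hp h4 h3 hKK rfl h1
    rw [h2]
    have h5 : 0 < ‖a‖ * ‖b‖ := mul_pos (h4.trans h3) h4
    linarith
  · rw [h2]
    exact Alg2.real2 hp h4 h3 hKK rfl h1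

end MPfa
end

section
/-!
ARC: the logarithm along an analytic arc and its jump.
-/
set_option autoImplicit false

open MeasureTheory Set Filter Topology Metric Complex
open scoped ContDiff ENNReal ComplexConjugate Interval

namespace MPfa

namespace ArcM

variable {r : ℝ} {g : ℂ → ℂ}

theorem lower (hg : DifferentiableOn ℂ g (ball 0 r)) (hi : InjOn g (ball 0 r))
    (hd : ∀ z ∈ ball (0 : ℂ) r, deriv g z ≠ 0) {r' : ℝ} (hr' : r' < r) :
    ∃ c > 0, ∀ a ∈ closedBall (0 : ℂ) r', ∀ b ∈ closedBall (0 : ℂ) r',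
      c * ‖a - b‖ ≤ ‖g a - g b‖ := by
  have hsub : closedBall (0 : ℂ) r' ⊆ ball 0 r := closedBall_subset_ball hr'
  have hK : IsCompact (closedBall (0 : ℂ) r' ×ˢ closedBall (0 : ℂ) r') :=
    (isCompact_closedBall _ _).prod (isCompact_closedBall _ _)
  suffices h : ∃ c > 0, ∀ q ∈ closedBall (0 : ℂ) r' ×ˢ closedBall (0 : ℂ) r',
      c * ‖q.1 - q.2‖ ≤ ‖g q.1 - g q.2‖ by
    obtain ⟨c, hc, h⟩ := h
    exact ⟨c, hc, fun a ha b hb => h (a, b) ⟨ha, hb⟩⟩
  refine hK.induction_on (p := fun S => ∃ c > 0, ∀ q ∈ S, c * ‖q.1 - q.2‖ ≤ ‖g q.1 - g q.2‖)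
    ⟨1, one_pos, by simp⟩ ?_ ?_ ?_
  · rintro s t hst ⟨c, hc, h⟩
    exact ⟨c, hc, fun q hq => h q (hst hq)⟩
  · rintro s t ⟨c, hc, h⟩ ⟨c', hc', h'⟩
    refine ⟨min c c', lt_min hc hc', ?_⟩
    rintro q (hq | hq)
    · exact (mul_le_mul_of_nonneg_right (min_le_left _ _) (norm_nonneg _)).trans (h q hq)
    · exact (mul_le_mul_of_nonneg_right (min_le_right _ _) (norm_nonneg _)).trans (h' q hq)
  · rintro ⟨x, y⟩ ⟨hx, hy⟩
    simp only at hx hy
    by_cases hxy : x = y
    · subst hxy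
      have hs : HasStrictDerivAt g (deriv g x) x :=
        (hg.analyticAt (isOpen_ball.mem_nhds (hsub hx))).hasStrictDerivAt
      have hpos : 0 < ‖deriv g x‖ / 2 := half_pos (norm_pos_iff.2 (hd x (hsub hx)))
      have h1 := hs.hasStrictFDerivAt.isLittleO.def hpos
      refine ⟨_, mem_nhdsWithin_of_mem_nhds h1, ‖deriv g x‖ / 2, hpos, ?_⟩
      rintro ⟨a, b⟩ hq
      simp only [mem_ofPred_eq, ContinuousLinearMap.toSpanSingleton_apply, smul_eq_mul] at hq
      simp only
      have h2 : ‖(a - b) * deriv g x‖ ≤ ‖g a - g b‖ + ‖g a - g b - (a - b) * deriv g x‖ := by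
        calc ‖(a - b) * deriv g x‖
            = ‖(g a - g b) - (g a - g b - (a - b) * deriv g x)‖ := by
              congr 1
              ring
          _ ≤ _ := norm_sub_le _ _
      rw [norm_mul] at h2
      nlinarith [norm_nonneg (a - b)]
    · have hne : 0 < ‖g x - g y‖ :=
        norm_pos_iff.2 (sub_ne_zero.2 fun h => hxy (hi (hsub hx) (hsub hy) h))
      have hgx : ContinuousAt g x :=
        (hg.differentiableAt (isOpen_ball.mem_nhds (hsub hx))).continuousAt
      have hgy : ContinuousAt g y :=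
        (hg.differentiableAt (isOpen_ball.mem_nhds (hsub hy))).continuousAt
      have h1 : Tendsto (fun q : ℂ × ℂ => ‖g q.1 - g q.2‖) (𝓝 (x, y)) (𝓝 ‖g x - g y‖) := by
        have h2 : Tendsto (fun q : ℂ × ℂ => g q.1) (𝓝 (x, y)) (𝓝 (g x)) :=
          hgx.tendsto.comp (continuous_fst.tendsto (x, y))
        have h3 : Tendsto (fun q : ℂ × ℂ => g q.2) (𝓝 (x, y)) (𝓝 (g y)) :=
          hgy.tendsto.comp (continuous_snd.tendsto (x, y))
        exact (h2.sub h3).norm
      have h2 : Tendsto (fun q : ℂ × ℂ => ‖q.1 - q.2‖) (𝓝 (x, y)) (𝓝 ‖x - y‖) :=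
        (continuous_fst.sub continuous_snd).norm.tendsto (x, y)
      have h3 : ∀ᶠ q : ℂ × ℂ in 𝓝 (x, y), ‖g x - g y‖ / 2 < ‖g q.1 - g q.2‖ :=
        h1.eventually (lt_mem_nhds (half_lt_self hne))
      have h4 : ∀ᶠ q : ℂ × ℂ in 𝓝 (x, y), ‖q.1 - q.2‖ < ‖x - y‖ + 1 :=
        h2.eventually (gt_mem_nhds (lt_add_one _))
      refine ⟨_, mem_nhdsWithin_of_mem_nhds (h3.and h4), ‖g x - g y‖ / 2 / (‖x - y‖ + 1),
        by positivity, ?_⟩
      rintro q ⟨hq1, hq2⟩
      have h5 : 0 < ‖x - y‖ + 1 := by positivity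
      rw [div_mul_eq_mul_div, div_le_iff₀ h5]
      have := norm_nonneg (q.1 - q.2)
      nlinarith

theorem upper (hg : DifferentiableOn ℂ g (ball 0 r)) {r' : ℝ} (hr' : r' < r) :
    ∃ C, 0 ≤ C ∧ ∀ a ∈ closedBall (0 : ℂ) r', ∀ b ∈ closedBall (0 : ℂ) r',
      ‖deriv g a * (a - b) - (g a - g b)‖ ≤ C * ‖a - b‖ ^ 2 := by
  have hsub : closedBall (0 : ℂ) r' ⊆ ball 0 r := closedBall_subset_ball hr'
  have ha : AnalyticOnNhd ℂ g (ball 0 r) := hg.analyticOnNhd isOpen_ball
  have h2 : ContinuousOn (deriv (deriv g)) (closedBall (0 : ℂ) r') := fun z hz =>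
    (ha z (hsub hz)).deriv.deriv.continuousAt.continuousWithinAt
  obtain ⟨C, hC⟩ := (isCompact_closedBall (0:ℂ) r').exists_bound_of_continuousOn h2
  have hlip : ∀ a ∈ closedBall (0 : ℂ) r', ∀ b ∈ closedBall (0 : ℂ) r',
      ‖deriv g b - deriv g a‖ ≤ C * ‖b - a‖ := by
    intro a ha' b hb
    exact (convex_closedBall (0:ℂ) r').norm_image_sub_le_of_norm_deriv_le
      (fun z hz => (ha z (hsub hz)).deriv.differentiableAt) hC ha' hb
  refine ⟨max C 0, le_max_right _ _, fun a ha' b hb => ?_⟩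
  have hC0 : 0 ≤ max C 0 := le_max_right _ _
  have h3 := ((convex_closedBall (0:ℂ) r').inter
    (convex_closedBall a ‖a - b‖)).norm_image_sub_le_of_norm_hasDerivWithin_le
    (f := fun u => g u - deriv g a * u) (f' := fun u => deriv g u - deriv g a * 1)
    (C := max C 0 * ‖a - b‖) (x := a) (y := b) ?_ ?_ ⟨ha', by simp⟩ ⟨hb, by
      rw [mem_closedBall, dist_eq_norm, norm_sub_rev]⟩
  · calc ‖deriv g a * (a - b) - (g a - g b)‖
        = ‖g b - deriv g a * b - (g a - deriv g a * a)‖ := by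
          congr 1
          ring
      _ ≤ max C 0 * ‖a - b‖ * ‖b - a‖ := h3
      _ = _ := by
          rw [norm_sub_rev b a]
          ring
  · intro u hu
    exact (((ha u (hsub hu.1)).differentiableAt.hasDerivAt).sub
      ((hasDerivAt_id u).const_mul (deriv g a))).hasDerivWithinAt
  · intro u hu
    rw [mul_one]
    refine (hlip a ha' u hu.1).trans ?_
    have h4 : ‖u - a‖ ≤ ‖a - b‖ := by
      have := hu.2
      rwa [mem_closedBall, dist_eq_norm] at this
    exact mul_le_mul (le_max_left _ _) h4 (norm_nonneg _) hC0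

/-- the regular part of the kernel -/
noncomputable def ker (g : ℂ → ℂ) (x : ℝ) (ζ : ℂ) : ℂ :=
  deriv g x / (g x - g ζ) - 1 / (x - ζ)

theorem ker_bound (hg : DifferentiableOn ℂ g (ball 0 r)) (hi : InjOn g (ball 0 r))
    (hd : ∀ z ∈ ball (0 : ℂ) r, deriv g z ≠ 0) {r' : ℝ} (hr' : r' < r) :
    ∃ C, 0 ≤ C ∧ ∀ x : ℝ, (x : ℂ) ∈ closedBall (0 : ℂ) r' → ∀ ζ ∈ closedBall (0 : ℂ) r',
      (x : ℂ) ≠ ζ → ‖ker g x ζ‖ ≤ C := by
  obtain ⟨c, hc, hl⟩ := lower hg hi hd hr'
  obtain ⟨M, hM, hu⟩ := upper hg hr'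
  refine ⟨M / c, by positivity, fun x hx ζ hζ hne => ?_⟩
  have hsub : closedBall (0 : ℂ) r' ⊆ ball 0 r := closedBall_subset_ball hr'
  have h1 : (x : ℂ) - ζ ≠ 0 := sub_ne_zero.2 hne
  have h2 : g x - g ζ ≠ 0 := sub_ne_zero.2 fun h => hne (hi (hsub hx) (hsub hζ) h)
  have h3 : ker g x ζ = (deriv g x * (x - ζ) - (g x - g ζ)) / ((g x - g ζ) * (x - ζ)) := by
    unfold ker
    field_simp
  have hp1 : 0 < ‖(x : ℂ) - ζ‖ := norm_pos_iff.2 h1
  rw [h3, norm_div, norm_mul, div_le_div_iff₀ (by positivity) hc]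
  have h4 := hl x hx ζ hζ
  have h5 := hu x hx ζ hζ
  calc ‖deriv g x * (x - ζ) - (g x - g ζ)‖ * c ≤ M * ‖(x : ℂ) - ζ‖ ^ 2 * c := by gcongr
    _ = M * ((c * ‖(x : ℂ) - ζ‖) * ‖(x : ℂ) - ζ‖) := by ring
    _ ≤ M * (‖g x - g ζ‖ * ‖(x : ℂ) - ζ‖) := by gcongr

section

variable {l l' : ℝ}

theorem mem_cb {x : ℝ} (hx : x ∈ Icc (-l) l') : (x : ℂ) ∈ closedBall (0 : ℂ) (max l l') := by
  rw [mem_closedBall_zero_iff, Complex.norm_real, Real.norm_eq_abs, abs_le]
  constructor
  · have := le_max_left l l'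
    linarith [hx.1]
  · exact hx.2.trans (le_max_right _ _)

theorem hasD (hl : 0 < l) (hl' : 0 < l') (hlr : l < r) (hl'r : l' < r)
    (hg : DifferentiableOn ℂ g (ball 0 r)) {z : ℂ}
    (hz : z ∉ (fun x : ℝ => g x) '' Icc (-l) l') :
    HasDerivAt (fun z => ∫ x in (-l)..l', deriv g x / (g x - z))
      (1 / (z - g l') - 1 / (z - g (-l : ℝ))) z := by
  have hle : -l ≤ l' := by linarith
  have hmax : max l l' < r := max_lt hlr hl'r
  have hx : ∀ x ∈ Icc (-l) l', (x : ℂ) ∈ ball (0:ℂ) r := fun x hx =>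
    closedBall_subset_ball hmax (mem_cb hx)
  have ha : AnalyticOnNhd ℂ g (ball 0 r) := hg.analyticOnNhd isOpen_ball
  have hgc : ContinuousOn (fun x : ℝ => g x) (Icc (-l) l') := fun x hx' =>
    (ContinuousAt.comp (f := fun x : ℝ => (x : ℂ)) (g := g) (ha x (hx x hx')).continuousAt
      Complex.continuous_ofReal.continuousAt).continuousWithinAt
  have hdc : ContinuousOn (fun x : ℝ => deriv g x) (Icc (-l) l') := fun x hx' =>
    (ContinuousAt.comp (f := fun x : ℝ => (x : ℂ)) (g := deriv g)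
      (ha x (hx x hx')).deriv.continuousAt
      Complex.continuous_ofReal.continuousAt).continuousWithinAt
  obtain ⟨M, hM⟩ := isCompact_Icc.exists_bound_of_continuousOn hdc
  have hK : IsCompact ((fun x : ℝ => g x) '' Icc (-l) l') := isCompact_Icc.image_of_continuousOn hgc
  obtain ⟨δ, hδ, hsub⟩ := Metric.isOpen_iff.1 hK.isClosed.isOpen_compl z hz
  have hfar : ∀ w ∈ ball z (δ / 2), ∀ x ∈ Icc (-l) l', δ / 2 ≤ ‖g x - w‖ := by
    intro w hw x hx'
    by_contra hlt
    push Not at hlt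
    have h1 : g x ∈ ball z δ := by
      rw [mem_ball, dist_eq_norm] at hw ⊢
      calc ‖g x - z‖ = ‖(g x - w) + (w - z)‖ := by congr 1; ring
        _ ≤ ‖g x - w‖ + ‖w - z‖ := norm_add_le _ _
        _ < δ := by linarith
    exact hsub h1 ⟨x, hx', rfl⟩
  have hne : ∀ w ∈ ball z (δ / 2), ∀ x ∈ Icc (-l) l', g x - w ≠ 0 := by
    intro w hw x hx' h0
    have := hfar w hw x hx'
    rw [h0, norm_zero] at this
    linarith
  have hFc : ∀ w ∈ ball z (δ / 2), ContinuousOn (fun x : ℝ => deriv g x / (g x - w))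
      (Icc (-l) l') := fun w hw => hdc.div (hgc.sub continuousOn_const) (hne w hw)
  have hF'c : ContinuousOn (fun x : ℝ => deriv g x / (g x - z) ^ 2) (Icc (-l) l') :=
    hdc.div ((hgc.sub continuousOn_const).pow 2) fun x hx' =>
      pow_ne_zero 2 (hne z (mem_ball_self (by positivity)) x hx')
  have hIoc : Ι (-l) l' ⊆ Icc (-l) l' := by
    rw [uIoc_of_le hle]
    exact Ioc_subset_Icc_self
  have hzb : z ∈ ball z (δ / 2) := mem_ball_self (by positivity)
  have hM0 : 0 ≤ M := (norm_nonneg _).trans (hM (-l) ⟨le_rfl, hle⟩)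
  have key := intervalIntegral.hasDerivAt_integral_of_dominated_loc_of_deriv_le (μ := volume)
    (a := -l) (b := l') (F := fun w x => deriv g x / (g x - w))
    (F' := fun w x => deriv g x / (g x - w) ^ 2) (x₀ := z) (s := ball z (δ / 2))
    (bound := fun _ => M / (δ / 2) ^ 2) (ball_mem_nhds z (by positivity)) ?_ ?_ ?_ ?_ ?_ ?_
  · refine key.2.congr_deriv ?_
    rw [intervalIntegral.integral_eq_sub_of_hasDerivAt (f := fun x : ℝ => (z - g x)⁻¹) ?_ key.1]
    · simp only [one_div]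
    · intro x hx'
      rw [uIcc_of_le hle] at hx'
      have h1 : HasDerivAt (fun x : ℝ => g x) (deriv g x) x :=
        ((ha x (hx x hx')).differentiableAt.hasDerivAt).comp_ofReal
      have h2 : z - g x ≠ 0 := by
        intro h0
        exact hne z hzb x hx' (by linear_combination -h0)
      have h3 := (h1.const_sub z).inv h2
      refine h3.congr_deriv ?_
      rw [neg_neg]
      congr 1
      ring
  · filter_upwards [ball_mem_nhds z (show (0:ℝ) < δ / 2 by positivity)] with w hw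
    exact ((hFc w hw).mono hIoc).aestronglyMeasurable measurableSet_uIoc
  · exact ContinuousOn.intervalIntegrable (by rw [uIcc_of_le hle]; exact hFc z hzb)
  · exact (hF'c.mono hIoc).aestronglyMeasurable measurableSet_uIoc
  · refine Eventually.of_forall fun x hx' w hw => ?_
    have hxI := hIoc hx'
    rw [norm_div, norm_pow]
    have h1 := hfar w hw x hxI
    exact div_le_div₀ hM0 (hM x hxI) (by positivity) (by gcongr)
  · exact intervalIntegrable_const
  · refine Eventually.of_forall fun x hx' w hw => ?_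
    have hxI := hIoc hx'
    have h1 : HasDerivAt (fun w : ℂ => g x - w) (-1) w := by
      simpa using (hasDerivAt_id w).const_sub (g x)
    have h2 := (h1.inv (hne w hw x hxI)).const_mul (deriv g x)
    simp only [div_eq_mul_inv]
    refine h2.congr_deriv ?_
    rw [neg_neg, div_eq_mul_inv, one_mul]

theorem tend (hl : 0 < l) (hl' : 0 < l') (hlr : l < r) (hl'r : l' < r)
    (hg : DifferentiableOn ℂ g (ball 0 r)) :
    Tendsto (fun z => ∫ x in (-l)..l', deriv g x / (g x - z)) (cocompact ℂ) (𝓝 0) := by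
  have hle : -l ≤ l' := by linarith
  have hmax : max l l' < r := max_lt hlr hl'r
  have hx : ∀ x ∈ Icc (-l) l', (x : ℂ) ∈ ball (0:ℂ) r := fun x hx =>
    closedBall_subset_ball hmax (mem_cb hx)
  have ha : AnalyticOnNhd ℂ g (ball 0 r) := hg.analyticOnNhd isOpen_ball
  have hgc : ContinuousOn (fun x : ℝ => g x) (Icc (-l) l') := fun x hx' =>
    (ContinuousAt.comp (f := fun x : ℝ => (x : ℂ)) (g := g) (ha x (hx x hx')).continuousAt
      Complex.continuous_ofReal.continuousAt).continuousWithinAt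
  have hdc : ContinuousOn (fun x : ℝ => deriv g x) (Icc (-l) l') := fun x hx' =>
    (ContinuousAt.comp (f := fun x : ℝ => (x : ℂ)) (g := deriv g)
      (ha x (hx x hx')).deriv.continuousAt
      Complex.continuous_ofReal.continuousAt).continuousWithinAt
  obtain ⟨M, hM⟩ := isCompact_Icc.exists_bound_of_continuousOn hdc
  obtain ⟨R, hR⟩ := isCompact_Icc.exists_bound_of_continuousOn hgc
  have hIoc : Ι (-l) l' ⊆ Icc (-l) l' := by
    rw [uIoc_of_le hle]
    exact Ioc_subset_Icc_self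
  have hM0 : 0 ≤ M := (norm_nonneg _).trans (hM (-l) ⟨le_rfl, hle⟩)
  have h1 : Tendsto (fun z : ℂ => M / (‖z‖ - R) * |l' - -l|) (cocompact ℂ) (𝓝 0) := by
    have h2 : Tendsto (fun z : ℂ => ‖z‖ - R) (cocompact ℂ) atTop :=
      tendsto_atTop_add_const_right _ (-R) (tendsto_norm_cocompact_atTop (E := ℂ))
    have h3 := (h2.const_div_atTop M).mul_const |l' - -l|
    simpa using h3
  refine squeeze_zero_norm' ?_ h1
  filter_upwards [(tendsto_norm_cocompact_atTop (E := ℂ)).eventually_gt_atTop R] with z hz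
  refine intervalIntegral.norm_integral_le_of_norm_le_const fun x hx' => ?_
  have hxI := hIoc hx'
  rw [norm_div]
  have h4 : ‖z‖ - R ≤ ‖g x - z‖ := by
    have := norm_sub_norm_le z (g x)
    rw [norm_sub_rev] at this
    linarith [hR x hxI]
  exact div_le_div₀ hM0 (hM x hxI) (by linarith) h4

/-- the model integral -/
theorem model {x ε : ℝ} (hε : 0 < ε) :
    ∫ t in (-l)..l', (1 / ((t : ℂ) - (x + ε * I)) - 1 / ((t : ℂ) - (x - ε * I))) =
      2 * I * (Real.arctan ((l' - x) / ε) : ℂ) - 2 * I * (Real.arctan ((-l - x) / ε) : ℂ) := by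
  have hne : ∀ (s : ℂ) (t : ℝ), s = ε * I ∨ s = -(ε * I) → (t : ℂ) - (x + s) ≠ 0 := by
    intro s t hs h0
    have h1 := congrArg Complex.im h0
    rcases hs with rfl | rfl <;> simp at h1 <;> exact hε.ne' h1
  have hne1 : ∀ t : ℝ, (t : ℂ) - (x + ε * I) ≠ 0 := fun t => hne _ t (Or.inl rfl)
  have hne2 : ∀ t : ℝ, (t : ℂ) - (x - ε * I) ≠ 0 := fun t => by
    have := hne _ t (Or.inr rfl)
    rwa [← sub_eq_add_neg] at this
  refine intervalIntegral.integral_eq_sub_of_hasDerivAt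
    (f := fun t : ℝ => 2 * I * (Real.arctan ((t - x) / ε) : ℂ)) (fun t _ => ?_) ?_
  · have h1 : HasDerivAt (fun t : ℝ => (t - x) / ε) (1 / ε) t :=
      ((hasDerivAt_id t).sub_const x).div_const ε
    have h2 := (h1.arctan.ofReal_comp).const_mul (2 * I)
    refine h2.congr_deriv ?_
    have h3 : (1 + ((t - x) / ε) ^ 2 : ℝ) ≠ 0 := by positivity
    have h4 : ((ε : ℂ) ^ 2 + (t - x) ^ 2) ≠ 0 := by
      have : (ε ^ 2 + (t - x) ^ 2 : ℝ) ≠ 0 := by positivity
      exact_mod_cast this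
    have hεc : (ε : ℂ) ≠ 0 := Complex.ofReal_ne_zero.2 hε.ne'
    have h5 : (1 / (1 + ((t - x) / ε) ^ 2) * (1 / ε) : ℝ) = ε / (ε ^ 2 + (t - x) ^ 2) := by
      have : (ε ^ 2 + (t - x) ^ 2 : ℝ) ≠ 0 := by positivity
      field_simp
    rw [h5]
    push_cast
    rw [div_sub_div _ _ (hne1 t) (hne2 t)]
    have h6 : ((t : ℂ) - (x + ε * I)) * ((t : ℂ) - (x - ε * I)) = (ε : ℂ) ^ 2 + (t - x) ^ 2 := by
      linear_combination (-(ε : ℂ) ^ 2) * Complex.I_sq
    rw [h6]
    ring
  · refine Continuous.intervalIntegrable ?_ _ _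
    refine (continuous_const.div ?_ hne1).sub (continuous_const.div ?_ hne2) <;> fun_prop

theorem model_lim {x : ℝ} (hx : x ∈ Ioo (-l) l') :
    Tendsto (fun ε : ℝ => ∫ t in (-l)..l',
      (1 / ((t : ℂ) - (x + ε * I)) - 1 / ((t : ℂ) - (x - ε * I)))) (𝓝[>] 0)
      (𝓝 (2 * Real.pi * I)) := by
  have h1 : Tendsto (fun ε : ℝ => Real.arctan ((l' - x) / ε)) (𝓝[>] 0) (𝓝 (Real.pi / 2)) := by
    have h2 : Tendsto (fun ε : ℝ => (l' - x) / ε) (𝓝[>] 0) atTop :=
      tendsto_inv_nhdsGT_zero.const_mul_atTop (sub_pos.2 hx.2)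
    exact (tendsto_nhds_of_tendsto_nhdsWithin Real.tendsto_arctan_atTop).comp h2
  have h2 : Tendsto (fun ε : ℝ => Real.arctan ((-l - x) / ε)) (𝓝[>] 0) (𝓝 (-(Real.pi / 2))) := by
    have h2 : Tendsto (fun ε : ℝ => (-l - x) / ε) (𝓝[>] 0) atBot :=
      tendsto_inv_nhdsGT_zero.const_mul_atTop_of_neg (by linarith [hx.1])
    exact (tendsto_nhds_of_tendsto_nhdsWithin Real.tendsto_arctan_atBot).comp h2
  have h3 : Tendsto (fun ε : ℝ => 2 * I * (Real.arctan ((l' - x) / ε) : ℂ) -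
      2 * I * (Real.arctan ((-l - x) / ε) : ℂ)) (𝓝[>] 0) (𝓝 (2 * Real.pi * I)) := by
    have h4 := ((Complex.continuous_ofReal.tendsto _).comp h1).const_mul (2 * I)
    have h5 := ((Complex.continuous_ofReal.tendsto _).comp h2).const_mul (2 * I)
    have h6 := h4.sub h5
    have h7 : 2 * I * ((Real.pi / 2 : ℝ) : ℂ) - 2 * I * ((-(Real.pi / 2) : ℝ) : ℂ)
        = 2 * Real.pi * I := by
      push_cast
      ring
    rw [h7] at h6
    exact h6
  refine h3.congr' ?_
  filter_upwards [self_mem_nhdsWithin] with ε hε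
  exact (model hε).symm

theorem jump (hl : 0 < l) (hl' : 0 < l') (hlr : l < r) (hl'r : l' < r)
    (hg : DifferentiableOn ℂ g (ball 0 r)) (hi : InjOn g (ball 0 r))
    (hd : ∀ z ∈ ball (0 : ℂ) r, deriv g z ≠ 0) {x : ℝ} (hx : x ∈ Ioo (-l) l') :
    Tendsto (fun ε : ℝ => (∫ t in (-l)..l', deriv g t / (g t - g (x + ε * I))) -
      (∫ t in (-l)..l', deriv g t / (g t - g (x - ε * I)))) (𝓝[>] 0) (𝓝 (2 * Real.pi * I)) := by
  have hle : -l ≤ l' := by linarith
  have hmax : max l l' < r := max_lt hlr hl'r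
  have hxb : ∀ x ∈ Icc (-l) l', (x : ℂ) ∈ ball (0:ℂ) r := fun x hx =>
    closedBall_subset_ball hmax (mem_cb hx)
  have ha : AnalyticOnNhd ℂ g (ball 0 r) := hg.analyticOnNhd isOpen_ball
  have hgc : ContinuousOn (fun x : ℝ => g x) (Icc (-l) l') := fun x hx' =>
    (ContinuousAt.comp (f := fun x : ℝ => (x : ℂ)) (g := g) (ha x (hxb x hx')).continuousAt
      Complex.continuous_ofReal.continuousAt).continuousWithinAt
  have hdc : ContinuousOn (fun x : ℝ => deriv g x) (Icc (-l) l') := fun x hx' =>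
    (ContinuousAt.comp (f := fun x : ℝ => (x : ℂ)) (g := deriv g)
      (ha x (hxb x hx')).deriv.continuousAt
      Complex.continuous_ofReal.continuousAt).continuousWithinAt
  set r'' := (max l l' + r) / 2 with hr''
  have h1 : max l l' < r'' := by linarith
  have h2 : r'' < r := by linarith
  obtain ⟨C, hC0, hC⟩ := ker_bound hg hi hd h2
  have hcb : ∀ t ∈ Icc (-l) l', (t : ℂ) ∈ closedBall (0:ℂ) r'' := fun t ht =>
    closedBall_subset_closedBall h1.le (mem_cb ht)
  have hIoc : Ι (-l) l' ⊆ Icc (-l) l' := by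
    rw [uIoc_of_le hle]
    exact Ioc_subset_Icc_self
  -- points off the real axis
  have hne : ∀ (t : ℝ) (ζ : ℂ), ζ.im ≠ 0 → (t : ℂ) ≠ ζ := by
    rintro t ζ hζ rfl
    simp at hζ
  have hkc : ∀ ζ ∈ closedBall (0:ℂ) r'', ζ.im ≠ 0 →
      ContinuousOn (fun t : ℝ => ker g t ζ) (Icc (-l) l') := by
    intro ζ hζ him
    refine (hdc.div (hgc.sub continuousOn_const) fun t ht h0 => ?_).sub
      (continuousOn_const.div ((Complex.continuous_ofReal.sub continuous_const).continuousOn)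
        fun t _ => sub_ne_zero.2 (hne t ζ him))
    exact hne t ζ him (hi (hxb t ht) (closedBall_subset_ball h2 hζ) (sub_eq_zero.1 h0))
  have hinv : ∀ ζ : ℂ, ζ.im ≠ 0 → ContinuousOn (fun t : ℝ => 1 / ((t : ℂ) - ζ)) (Icc (-l) l') :=
    fun ζ him => continuousOn_const.div
      ((Complex.continuous_ofReal.sub continuous_const).continuousOn)
        fun t _ => sub_ne_zero.2 (hne t ζ him)
  have hlog : ∀ ζ ∈ closedBall (0:ℂ) r'', ζ.im ≠ 0 →
      ∫ t in (-l)..l', deriv g t / (g t - g ζ)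
        = (∫ t in (-l)..l', ker g t ζ) + ∫ t in (-l)..l', 1 / ((t : ℂ) - ζ) := by
    intro ζ hζ him
    rw [← intervalIntegral.integral_add]
    · refine intervalIntegral.integral_congr fun t _ => ?_
      simp only [ker]
      ring
    · exact ContinuousOn.intervalIntegrable (by rw [uIcc_of_le hle]; exact hkc ζ hζ him)
    · exact ContinuousOn.intervalIntegrable (by rw [uIcc_of_le hle]; exact hinv ζ him)
  -- the two points
  have hcont : ∀ s : ℂ, Tendsto (fun ε : ℝ => (x : ℂ) + s * ε * I) (𝓝[>] 0) (𝓝 (x : ℂ)) := by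
    intro s
    have : Continuous fun ε : ℝ => (x : ℂ) + s * ε * I := by fun_prop
    have h3 := this.tendsto 0
    simp only [Complex.ofReal_zero, mul_zero, zero_mul, add_zero] at h3
    exact h3.mono_left nhdsWithin_le_nhds
  have hxI : x ∈ Icc (-l) l' := ⟨hx.1.le, hx.2.le⟩
  have hxball : (x : ℂ) ∈ ball (0:ℂ) r'' := closedBall_subset_ball h1 (mem_cb hxI)
  have hp : Tendsto (fun ε : ℝ => (x : ℂ) + ε * I) (𝓝[>] 0) (𝓝 (x : ℂ)) := by
    simpa using hcont 1
  have hm : Tendsto (fun ε : ℝ => (x : ℂ) - ε * I) (𝓝[>] 0) (𝓝 (x : ℂ)) := by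
    have := hcont (-1)
    refine this.congr fun ε => ?_
    ring
  have hpb : ∀ᶠ ε : ℝ in 𝓝[>] 0, (x : ℂ) + ε * I ∈ closedBall (0:ℂ) r'' :=
    (hp.eventually (isOpen_ball.mem_nhds hxball)).mono fun _ h => ball_subset_closedBall h
  have hmb : ∀ᶠ ε : ℝ in 𝓝[>] 0, (x : ℂ) - ε * I ∈ closedBall (0:ℂ) r'' :=
    (hm.eventually (isOpen_ball.mem_nhds hxball)).mono fun _ h => ball_subset_closedBall h
  have himp : ∀ ε : ℝ, 0 < ε → ((x : ℂ) + ε * I).im ≠ 0 := by
    intro ε hε
    simpa using hε.ne'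
  have himm : ∀ ε : ℝ, 0 < ε → ((x : ℂ) - ε * I).im ≠ 0 := by
    intro ε hε
    simpa using hε.ne'
  -- the regular part
  have hA : Tendsto (fun ε : ℝ => ∫ t in (-l)..l',
      (ker g t (x + ε * I) - ker g t (x - ε * I))) (𝓝[>] 0)
      (𝓝 (∫ t in (-l)..l', (0 : ℂ))) := by
    refine intervalIntegral.tendsto_integral_filter_of_dominated_convergence (fun _ => C + C)
      ?_ ?_ intervalIntegrable_const ?_
    · filter_upwards [hpb, hmb, self_mem_nhdsWithin] with ε h3 h4 h5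
      exact (((hkc _ h3 (himp ε h5)).sub (hkc _ h4 (himm ε h5))).mono hIoc).aestronglyMeasurable
        measurableSet_uIoc
    · filter_upwards [hpb, hmb, self_mem_nhdsWithin] with ε h3 h4 h5
      refine Eventually.of_forall fun t ht => ?_
      refine (norm_sub_le _ _).trans (add_le_add ?_ ?_)
      · exact hC t (hcb t (hIoc ht)) _ h3 (hne t _ (himp ε h5))
      · exact hC t (hcb t (hIoc ht)) _ h4 (hne t _ (himm ε h5))
    · have h3 : ∀ᵐ t : ℝ, t ≠ x := by
        have := (measure_singleton (μ := (volume : Measure ℝ)) x)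
        exact compl_mem_ae_iff.2 this
      filter_upwards [h3] with t htx ht
      have htb : (t : ℂ) ∈ ball (0:ℂ) r := hxb t (hIoc ht)
      have hxr : (x : ℂ) ∈ ball (0:ℂ) r := hxb x hxI
      have htx' : (t : ℂ) - x ≠ 0 := by
        rw [sub_ne_zero]
        exact_mod_cast htx
      have hkt : ContinuousAt (fun ζ => ker g t ζ) (x : ℂ) := by
        unfold ker
        refine (continuousAt_const.div (continuousAt_const.sub (ha x hxr).continuousAt) ?_).sub
          (continuousAt_const.div (continuousAt_const.sub continuousAt_id) htx')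
        intro h0
        exact htx' (sub_eq_zero.2 (hi htb hxr (sub_eq_zero.1 h0)))
      have h4 := (hkt.tendsto.comp hp).sub (hkt.tendsto.comp hm)
      rw [sub_self] at h4
      exact h4
  rw [intervalIntegral.integral_zero] at hA
  have h3 := hA.add (model_lim hx)
  rw [zero_add] at h3
  refine h3.congr' ?_
  filter_upwards [hpb, hmb, self_mem_nhdsWithin] with ε h3 h4 h5
  have e1 := himp ε h5
  have e2 := himm ε h5
  rw [hlog _ h3 e1, hlog _ h4 e2, intervalIntegral.integral_sub, intervalIntegral.integral_sub]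
  · ring
  · exact ContinuousOn.intervalIntegrable (by rw [uIcc_of_le hle]; exact hinv _ e1)
  · exact ContinuousOn.intervalIntegrable (by rw [uIcc_of_le hle]; exact hinv _ e2)
  · exact ContinuousOn.intervalIntegrable (by rw [uIcc_of_le hle]; exact hkc _ h3 e1)
  · exact ContinuousOn.intervalIntegrable (by rw [uIcc_of_le hle]; exact hkc _ h4 e2)

end

end ArcM

theorem specArc : SpecArc := by
  intro r l l' g hl hl' hlr hl'r hg hi hd
  refine ⟨fun z => ∫ x in (-l)..l', deriv g x / (g x - z), fun z hz => ?_, ?_, fun x hx => ?_⟩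
  · exact ArcM.hasD hl hl' hlr hl'r hg hz
  · exact ArcM.tend hl hl' hlr hl'r hg
  · exact ArcM.jump hl hl' hlr hl'r hg hi hd hx

end MPfa
end

section
/-!
Problem MP_fa0334_an, modules AREA and AREA': the area inequality for continuous `W^{1,2}` maps of
the plane whose finite fibres are points, and the area formula for injective maps.
-/
set_option autoImplicit false

open MeasureTheory Set Filter Topology Metric
open scoped ENNReal NNReal Function

namespace MPfa

lemma ar_lmap_apply (a b m : ℂ) : lmap a b m = (m.re : ℂ) * a + (m.im : ℂ) * b := by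
  simp [lmap, Complex.real_smul]

lemma ar_det_lmap (a b : ℂ) : (lmap a b).det = jac a b := by
  have h1 : (lmap a b).det = LinearMap.det (lmap a b : ℂ →ₗ[ℝ] ℂ) := rfl
  rw [h1, ← LinearMap.det_toMatrix Complex.basisOneI, Matrix.det_fin_two]
  simp only [LinearMap.toMatrix_apply, Complex.coe_basisOneI_repr, Complex.coe_basisOneI,
    ContinuousLinearMap.coe_coe, ar_lmap_apply, jac]
  simp
  ring

lemma ar_abs_jac_le (a b : ℂ) : |jac a b| ≤ ‖a‖ ^ 2 + ‖b‖ ^ 2 := by
  rw [← Complex.normSq_eq_norm_sq, ← Complex.normSq_eq_norm_sq, Complex.normSq_apply,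
    Complex.normSq_apply, jac, abs_le]
  constructor
  · nlinarith [sq_nonneg (a.re + b.im), sq_nonneg (a.im - b.re), sq_nonneg a.re,
      sq_nonneg a.im, sq_nonneg b.re, sq_nonneg b.im]
  · nlinarith [sq_nonneg (a.re - b.im), sq_nonneg (a.im + b.re), sq_nonneg a.re,
      sq_nonneg a.im, sq_nonneg b.re, sq_nonneg b.im]

lemma ar_ofReal_abs_jac_le (a b : ℂ) : ENNReal.ofReal |jac a b| ≤ ‖a‖ₑ ^ 2 + ‖b‖ₑ ^ 2 := by
  have h1 : ‖a‖ₑ ^ 2 + ‖b‖ₑ ^ 2 = ENNReal.ofReal (‖a‖ ^ 2 + ‖b‖ ^ 2) := by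
    rw [ENNReal.ofReal_add (by positivity) (by positivity), ENNReal.ofReal_pow (norm_nonneg _),
      ENNReal.ofReal_pow (norm_nonneg _), ofReal_norm, ofReal_norm]
  rw [h1]
  exact ENNReal.ofReal_le_ofReal (ar_abs_jac_le a b)

/-! ### points of differentiability -/

/-- the points of differentiability with the right derivative -/
def Good (G : Set ℂ) (F Fx Fy : ℂ → ℂ) : Set ℂ :=
  {z | z ∈ G ∧ DifferentiableAt ℝ F z ∧ fderiv ℝ F z 1 = Fx z ∧ fderiv ℝ F z Complex.I = Fy z}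

lemma good_meas (G : Set ℂ) (F Fx Fy : ℂ → ℂ) (hG : IsOpen G) (hx : Measurable Fx)
    (hy : Measurable Fy) : MeasurableSet (Good G F Fx Fy) := by
  refine hG.measurableSet.inter ((measurableSet_of_differentiableAt ℝ F).inter ?_)
  exact (measurableSet_eq_fun (measurable_fderiv_apply_const ℝ F 1) hx).inter
    (measurableSet_eq_fun (measurable_fderiv_apply_const ℝ F Complex.I) hy)

lemma good_sub (G : Set ℂ) (F Fx Fy : ℂ → ℂ) : Good G F Fx Fy ⊆ G := fun _ hz => hz.1

lemma ar_eq_lmap (L : ℂ →L[ℝ] ℂ) : L = lmap (L 1) (L Complex.I) := by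
  ext m
  have h1 : (m : ℂ) = m.re • (1 : ℂ) + m.im • Complex.I := by
    rw [Complex.real_smul, Complex.real_smul, mul_one, Complex.re_add_im]
  conv_lhs => rw [h1, map_add, map_smul, map_smul]
  simp [lmap]

lemma ar_lmap_one (a b : ℂ) : lmap a b 1 = a := by simp [ar_lmap_apply]

lemma ar_lmap_I (a b : ℂ) : lmap a b Complex.I = b := by simp [ar_lmap_apply]

lemma good_deriv (G : Set ℂ) (F Fx Fy : ℂ → ℂ) (z : ℂ) (hz : z ∈ Good G F Fx Fy) :
    HasFDerivAt F (lmap (Fx z) (Fy z)) z := by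
  have h1 := hz.2.1.hasFDerivAt
  rwa [ar_eq_lmap (fderiv ℝ F z), hz.2.2.1, hz.2.2.2] at h1

lemma good_compl (hDiff : SpecDiff) (G : Set ℂ) (F Fx Fy : ℂ → ℂ) (hM : Mon G F Fx Fy) :
    volume (G \ Good G F Fx Fy) = 0 := by
  have h1 := hDiff G F Fx Fy hM
  rw [ae_restrict_iff' hM.op.measurableSet] at h1
  refine measure_mono_null (fun z hz => ?_) h1
  intro h2
  have h3 := h2 hz.1
  apply hz.2
  refine ⟨hz.1, h3.differentiableAt, ?_, ?_⟩
  · rw [h3.fderiv, ar_lmap_one]
  · rw [h3.fderiv, ar_lmap_I]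

/-! ### partition into pieces of injectivity -/

lemma inj_partition (f : ℂ → ℂ) (s : Set ℂ) (f' : ℂ → ℂ →L[ℝ] ℂ)
    (hf' : ∀ x ∈ s, HasFDerivWithinAt f (f' x) s x) (hdet : ∀ x ∈ s, (f' x).det ≠ 0) :
    ∃ t : ℕ → Set ℂ, Pairwise (Disjoint on t) ∧ (∀ n, MeasurableSet (t n)) ∧ s ⊆ ⋃ n, t n ∧
      ∀ n, InjOn f (s ∩ t n) := by
  classical
  set r : (ℂ →L[ℝ] ℂ) → ℝ≥0 := fun A => if h : A.det ≠ 0 then
    ‖((A.toContinuousLinearEquivOfDetNeZero h).symm : ℂ →L[ℝ] ℂ)‖₊⁻¹ / 2 else 1 with hr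
  have rpos : ∀ A, r A ≠ 0 := by
    intro A
    by_cases h : A.det ≠ 0
    · have h1 := (A.toContinuousLinearEquivOfDetNeZero h).nnnorm_symm_pos
      simp only [hr, dif_pos h]
      positivity
    · simp only [hr, dif_neg h]
      exact one_ne_zero
  obtain ⟨t, A, ht1, ht2, ht3, ht4, ht5⟩ :=
    exists_partition_approximatesLinearOn_of_hasFDerivWithinAt f s f' hf' r rpos
  refine ⟨t, ht1, ht2, ht3, fun n => ?_⟩
  rcases s.eq_empty_or_nonempty with hs | hs
  · rw [hs, empty_inter]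
    exact injOn_empty _
  obtain ⟨y, hy, hAy⟩ := ht5 hs n
  have hd : (A n).det ≠ 0 := by rw [hAy]; exact hdet y hy
  have h1 : ApproximatesLinearOn f (((A n).toContinuousLinearEquivOfDetNeZero hd :
      ℂ ≃L[ℝ] ℂ) : ℂ →L[ℝ] ℂ) (s ∩ t n) (r (A n)) := by
    rw [ContinuousLinearMap.coe_toContinuousLinearEquivOfDetNeZero]
    exact ht4 n
  have h2 : r (A n) = ‖(((A n).toContinuousLinearEquivOfDetNeZero hd).symm :
      ℂ →L[ℝ] ℂ)‖₊⁻¹ / 2 := by
    simp only [hr, dif_pos hd]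
  rw [h2] at h1
  refine h1.injOn (Or.inr ?_)
  have h3 := ((A n).toContinuousLinearEquivOfDetNeZero hd).nnnorm_symm_pos
  exact half_lt_self (inv_pos.2 h3)

/-! ### the area inequality -/

theorem specArea (hDiff : SpecDiff) (hLusin : SpecLusin) : SpecArea := by
  intro G F Fx Fy hM hE hFS η hη
  have hEx : L2loc G Fx := by
    intro K hK _
    refine lt_of_le_of_lt ?_ hE
    refine (lintegral_mono_set hK).trans (lintegral_mono fun z => le_self_add)
  have hEy : L2loc G Fy := by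
    intro K hK _
    refine lt_of_le_of_lt ?_ hE
    refine (lintegral_mono_set hK).trans (lintegral_mono fun z => le_add_self)
  set S := Good G F Fx Fy with hS
  have hSm : MeasurableSet S := good_meas G F Fx Fy hM.op hM.wd.mx hM.wd.my
  have hjm : Measurable fun z => jac (Fx z) (Fy z) := by
    have h1 := Complex.measurable_re.comp hM.wd.mx
    have h2 := Complex.measurable_im.comp hM.wd.mx
    have h3 := Complex.measurable_re.comp hM.wd.my
    have h4 := Complex.measurable_im.comp hM.wd.my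
    exact (h1.mul h4).sub (h2.mul h3)
  set S1 : Set ℂ := S ∩ {z | jac (Fx z) (Fy z) ≠ 0} with hS1
  set S0 : Set ℂ := S ∩ {z | jac (Fx z) (Fy z) = 0} with hS0
  have hS1m : MeasurableSet S1 :=
    hSm.inter (measurableSet_eq_fun hjm measurable_const).compl
  have hS0m : MeasurableSet S0 := hSm.inter (measurableSet_eq_fun hjm measurable_const)
  have hGS : volume (G \ S) = 0 := good_compl hDiff G F Fx Fy hM
  obtain ⟨t, ht1, ht2, ht3, ht4⟩ := inj_partition F S1 (fun z => lmap (Fx z) (Fy z))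
    (fun z hz => (good_deriv G F Fx Fy z hz.1).hasFDerivWithinAt)
    (fun z hz => by rw [ar_det_lmap]; exact hz.2)
  set A : ℕ → Set ℂ := fun n => S1 ∩ t n with hA
  have hAm : ∀ n, MeasurableSet (A n) := fun n => hS1m.inter (ht2 n)
  have hAd : Pairwise (Disjoint on A) := fun i j hij =>
    (ht1 hij).mono inter_subset_right inter_subset_right
  have hAU : S1 = ⋃ n, A n := by
    rw [hA, ← inter_iUnion]
    exact (inter_eq_left.2 ht3).symm
  have hder : ∀ n, ∀ z ∈ A n, HasFDerivWithinAt F (lmap (Fx z) (Fy z)) (A n) z := fun n z hz =>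
    (good_deriv G F Fx Fy z hz.1.1).hasFDerivWithinAt
  -- change of variables on a piece
  have hcv : ∀ (n : ℕ) (ζ : ℂ → ℝ≥0∞), ∫⁻ c in F '' A n, ζ c =
      ∫⁻ z in A n, ζ (F z) * ENNReal.ofReal |jac (Fx z) (Fy z)| := by
    intro n ζ
    rw [lintegral_image_eq_lintegral_abs_det_fderiv_mul volume (hAm n) (hder n) (ht4 n)]
    refine lintegral_congr fun z => ?_
    rw [ar_det_lmap, mul_comm]
  have hFAm : ∀ n, MeasurableSet (F '' A n) := fun n =>
    measurable_image_of_fderivWithin (hAm n) (hder n) (ht4 n)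
  -- total area is finite
  have hsum : ∑' n, volume (F '' A n) ≠ ⊤ := by
    have h1 : ∀ n, volume (F '' A n) = ∫⁻ z in A n, ENNReal.ofReal |jac (Fx z) (Fy z)| := by
      intro n
      have h2 := hcv n (fun _ => 1)
      simpa using h2
    simp_rw [h1]
    rw [← lintegral_iUnion hAm hAd, ← hAU]
    refine (lt_of_le_of_lt ?_ hE).ne
    calc ∫⁻ z in S1, ENNReal.ofReal |jac (Fx z) (Fy z)|
        ≤ ∫⁻ z in G, ENNReal.ofReal |jac (Fx z) (Fy z)| :=
          lintegral_mono_set fun z hz => hz.1.1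
      _ ≤ ∫⁻ z in G, (‖Fx z‖ₑ ^ 2 + ‖Fy z‖ₑ ^ 2) :=
          lintegral_mono fun z => ar_ofReal_abs_jac_le _ _
  have hBC := ae_eventually_notMem hsum
  have hN1 : volume (F '' (G \ S)) = 0 :=
    hLusin G F Fx Fy hM hEx hEy _ sdiff_subset hGS
  have hN0 : volume (F '' S0) = 0 := by
    refine addHaar_image_eq_zero_of_det_fderivWithin_eq_zero volume (f' := fun z =>
      lmap (Fx z) (Fy z)) (fun z hz => (good_deriv G F Fx Fy z hz.1).hasFDerivWithinAt) ?_
    intro z hz
    rw [ar_det_lmap]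
    exact hz.2
  -- almost every point lies in at most one image
  have hone : ∀ᵐ c : ℂ, ∀ m n, c ∈ F '' A m → c ∈ F '' A n → m = n := by
    filter_upwards [hBC, measure_eq_zero_iff_ae_notMem.1 hN1,
      measure_eq_zero_iff_ae_notMem.1 hN0] with c hc hc1 hc0
    obtain ⟨N, hN⟩ := eventually_atTop.1 hc
    have hfib : {z ∈ G | F z = c} ⊆ ⋃ n ∈ Finset.range N, {z | z ∈ A n ∧ F z = c} := by
      rintro z ⟨hzG, hzc⟩
      have hzS : z ∈ S := by
        by_contra hne
        exact hc1 ⟨z, ⟨hzG, hne⟩, hzc⟩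
      have hzS1 : z ∈ S1 := by
        refine ⟨hzS, fun h0 => ?_⟩
        exact hc0 ⟨z, ⟨hzS, h0⟩, hzc⟩
      rw [hAU, mem_iUnion] at hzS1
      obtain ⟨n, hn⟩ := hzS1
      rw [mem_iUnion₂]
      refine ⟨n, ?_, hn, hzc⟩
      rw [Finset.mem_range]
      by_contra hle
      exact hN n (not_lt.1 hle) ⟨z, hn, hzc⟩
    have hfin : {z ∈ G | F z = c}.Finite := by
      refine Set.Finite.subset ?_ hfib
      refine Set.Finite.biUnion (Finset.finite_toSet _) fun n _ => ?_
      refine Set.Subsingleton.finite ?_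
      intro z hz w hw
      exact ht4 n hz.1 hw.1 (hz.2.trans hw.2.symm)
    have hss := hFS c hfin
    rintro m n ⟨z, hz, hzc⟩ ⟨w, hw, hwc⟩
    have hzw : z = w := hss ⟨hz.1.1.1, hzc⟩ ⟨hw.1.1.1, hwc⟩
    by_contra hmn
    have := disjoint_left.1 (hAd hmn) hz
    rw [hzw] at this
    exact this hw
  have hAE : Pairwise (AEDisjoint volume on fun n => F '' A n) := by
    intro m n hmn
    change volume (F '' A m ∩ F '' A n) = 0
    refine measure_mono_null (fun c hc => ?_) hone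
    intro h
    exact hmn (h m n hc.1 hc.2)
  -- conclusion
  have hGsplit : ∫⁻ z in G, η (F z) * ENNReal.ofReal |jac (Fx z) (Fy z)| ≤
      ∫⁻ z in S1, η (F z) * ENNReal.ofReal |jac (Fx z) (Fy z)| := by
    have h1 : G ⊆ S1 ∪ (S0 ∪ (G \ S)) := by
      intro z hz
      by_cases hzS : z ∈ S
      · by_cases h0 : jac (Fx z) (Fy z) = 0
        · exact Or.inr (Or.inl ⟨hzS, h0⟩)
        · exact Or.inl ⟨hzS, h0⟩
      · exact Or.inr (Or.inr ⟨hz, hzS⟩)
    refine (lintegral_mono_set h1).trans ?_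
    refine (lintegral_union_le _ _ _).trans ?_
    have h2 : ∫⁻ z in S0 ∪ (G \ S), η (F z) * ENNReal.ofReal |jac (Fx z) (Fy z)| = 0 := by
      refine le_antisymm ((lintegral_union_le _ _ _).trans ?_) bot_le
      have h3 : ∫⁻ z in S0, η (F z) * ENNReal.ofReal |jac (Fx z) (Fy z)| = 0 := by
        have h5 : ∫⁻ z in S0, η (F z) * ENNReal.ofReal |jac (Fx z) (Fy z)| =
            ∫⁻ z in S0, 0 := by
          refine setLIntegral_congr_fun hS0m fun z hz => ?_
          have : jac (Fx z) (Fy z) = 0 := hz.2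
          simp [this]
        rw [h5]
        simp
      rw [h3, setLIntegral_measure_zero _ _ hGS, add_zero]
    rw [h2, add_zero]
  refine hGsplit.trans ?_
  rw [hAU, lintegral_iUnion hAm hAd]
  simp_rw [← hcv _ η]
  rw [← lintegral_iUnion₀ (fun n => (hFAm n).nullMeasurableSet) hAE]
  exact setLIntegral_le_lintegral _ _

theorem specAreaInj (hDiff : SpecDiff) (hLusin : SpecLusin) : SpecAreaInj := by
  intro G F Fx Fy hM hEx hEy hinj A hAG hAm η hη
  set S := Good G F Fx Fy with hS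
  have hSm : MeasurableSet S := good_meas G F Fx Fy hM.op hM.wd.mx hM.wd.my
  have hGS : volume (G \ S) = 0 := good_compl hDiff G F Fx Fy hM
  have hAS : volume (A \ S) = 0 := measure_mono_null (sdiff_subset_sdiff_left hAG) hGS
  have hFAS : volume (F '' (A \ S)) = 0 :=
    hLusin G F Fx Fy hM hEx hEy _ (sdiff_subset.trans hAG) hAS
  have h1 : ∫⁻ z in A, η (F z) * ENNReal.ofReal |jac (Fx z) (Fy z)| =
      ∫⁻ z in A ∩ S, η (F z) * ENNReal.ofReal |jac (Fx z) (Fy z)| := by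
    refine setLIntegral_congr ?_
    refine ae_eq_set.2 ⟨?_, ?_⟩
    · rw [sdiff_self_inter]
      exact hAS
    · rw [sdiff_eq_empty.2 inter_subset_left]
      exact measure_empty
  have h2 : ∫⁻ c in F '' A, η c = ∫⁻ c in F '' (A ∩ S), η c := by
    refine setLIntegral_congr ?_
    refine ae_eq_set.2 ⟨?_, ?_⟩
    · refine measure_mono_null ?_ hFAS
      rintro _ ⟨⟨z, hz, rfl⟩, hne⟩
      refine ⟨z, ⟨hz, fun hzS => hne ⟨z, ⟨hz, hzS⟩, rfl⟩⟩, rfl⟩
    · rw [sdiff_eq_empty.2 (image_mono inter_subset_left)]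
      exact measure_empty
  rw [h1, h2]
  rw [lintegral_image_eq_lintegral_abs_det_fderiv_mul volume (hAm.inter hSm)
    (fun z hz => (good_deriv G F Fx Fy z hz.2).hasFDerivWithinAt)
    (hinj.mono (inter_subset_left.trans hAG))]
  refine lintegral_congr fun z => ?_
  rw [ar_det_lmap, mul_comm]

end MPfa
end

section
/-!
Problem MP_fa0334_an: module LR (points of `H⁻¹(Y)` on both sides of a vertical trajectory), and
some elementary facts on charts.
-/
set_option autoImplicit false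

open MeasureTheory Set Filter Topology Metric Complex
open scoped ContDiff ENNReal ComplexConjugate

namespace MPfa

/-- shifted chart of order `0` -/
theorem Chart.shift {D : Set ℂ} {Ψ : ℂ → ℂ} {o : ℂ} {r : ℝ} {g : ℂ → ℂ}
    (h : Chart D Ψ 0 o r g) {x : ℂ} (hx : ‖x‖ < r) :
    Chart D Ψ 0 (g x) (r - ‖x‖) (fun ζ => g (x + ζ)) := by
  have hb : ∀ ζ ∈ ball (0 : ℂ) (r - ‖x‖), x + ζ ∈ ball (0 : ℂ) r := by
    intro ζ hζ
    rw [mem_ball_zero_iff] at hζ ⊢
    calc ‖x + ζ‖ ≤ ‖x‖ + ‖ζ‖ := norm_add_le _ _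
      _ < r := by linarith
  refine ⟨by linarith, ?_, ?_, ?_, by simp, ?_, ?_⟩
  · refine h.d.comp (differentiableOn_id.const_add x) hb
  · intro a ha b hb' hab
    have := h.inj (hb a ha) (hb b hb') hab
    exact add_left_cancel this
  · intro ζ hζ
    exact h.maps (hb ζ hζ)
  · intro w hw
    rw [deriv_comp_const_add]
    exact h.nd _ (hb w hw)
  · intro w hw
    rw [deriv_comp_const_add]
    have := h.eq (x + w) (hb w hw)
    simpa using this

/-- charts are open maps -/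
theorem Chart.image_open {D : Set ℂ} {Ψ : ℂ → ℂ} {k : ℕ} {o : ℂ} {r : ℝ} {g : ℂ → ℂ}
    (h : Chart D Ψ k o r g) {Q : Set ℂ} (hQ : IsOpen Q) (hQr : Q ⊆ ball 0 r) :
    IsOpen (g '' Q) := by
  rw [isOpen_iff_mem_nhds]
  rintro _ ⟨q, hq, rfl⟩
  have hd : DifferentiableOn ℂ g (ball 0 r) := h.d
  have ha : AnalyticAt ℂ g q := hd.analyticAt (isOpen_ball.mem_nhds (hQr hq))
  have hs : HasStrictDerivAt g (deriv g q) q := ha.hasStrictDerivAt
  rw [← hs.map_nhds_eq (h.nd q (hQr hq))]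
  exact image_mem_map (hQ.mem_nhds hq)

theorem norm_mk_le (x v : ℝ) : ‖(⟨x, v⟩ : ℂ)‖ ≤ |x| + |v| :=
  Complex.norm_le_abs_re_add_abs_im _

/-- on a vertical segment of a chart through a point of a saturated fibre `H` is constant -/
theorem Sat.vert {D : Set ℂ} {Ψ H : ℂ → ℂ} {c o : ℂ} {r : ℝ} {g : ℂ → ℂ} (hH : ContinuousOn H D)
    (hs : Sat D Ψ H c) (hg : Chart D Ψ 0 o r g) {x a b v₀ : ℝ} (hab : ∀ v ∈ Ioo a b,
      ‖(⟨x, v⟩ : ℂ)‖ < r) (hv₀ : v₀ ∈ Ioo a b) (h0 : H (g ⟨x, v₀⟩) = c) :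
    ∀ v ∈ Ioo a b, H (g ⟨x, v⟩) = c := by
  set u : Set ℝ := {v | v ∈ Ioo a b ∧ H (g ⟨x, v⟩) = c} with hu
  have hcont : ContinuousOn (fun v : ℝ => H (g ⟨x, v⟩)) (Ioo a b) := by
    have h1 : ContinuousOn (fun v : ℝ => g ⟨x, v⟩) (Ioo a b) := by
      refine hg.d.continuousOn.comp (f := fun v : ℝ => (⟨x, v⟩ : ℂ)) ?_ ?_
      · have : Continuous fun v : ℝ => (⟨x, v⟩ : ℂ) := by
          have h2 : (fun v : ℝ => (⟨x, v⟩ : ℂ)) = fun v : ℝ => (x : ℂ) + (v : ℂ) * I := by
            funext v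
            apply Complex.ext <;> simp
          rw [h2]
          fun_prop
        exact this.continuousOn
      · intro v hv
        rw [mem_ball_zero_iff]
        exact hab v hv
    refine hH.comp h1 ?_
    intro v hv
    exact hg.maps (by rw [mem_ball_zero_iff]; exact hab v hv)
  have huo : IsOpen u := by
    rw [isOpen_iff_mem_nhds]
    rintro v ⟨hv, hvc⟩
    have hx := hab v hv
    have hch := hg.shift hx
    obtain ⟨r₁, hr₁, -, hS⟩ := hs (g ⟨x, v⟩) (hg.maps (by rwa [mem_ball_zero_iff])) hvc 0 _ _ hch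
    have h1 : Ioo (v - r₁) (v + r₁) ∈ 𝓝 v := Ioo_mem_nhds (by linarith) (by linarith)
    filter_upwards [h1, Ioo_mem_nhds hv.1 hv.2] with v' hv' hv'2
    refine ⟨hv'2, ?_⟩
    have h2 := hS (((v' - v : ℝ) : ℂ) * I) (by
      rw [mem_ball_zero_iff, norm_mul, Complex.norm_I, mul_one, Complex.norm_real,
        Real.norm_eq_abs, abs_lt]
      constructor <;> linarith [hv'.1, hv'.2]) (by
        simp [pow_two]) (by
        simp [pow_two]
        nlinarith [sq_nonneg (v' - v)])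
    have h3 : (⟨x, v⟩ : ℂ) + ((v' - v : ℝ) : ℂ) * I = ⟨x, v'⟩ := by
      apply Complex.ext <;> simp
    rw [h3] at h2
    exact h2
  have hsub : Ioo a b ⊆ u := by
    refine isPreconnected_Ioo.subset_of_closure_inter_subset huo ⟨v₀, hv₀, hv₀, h0⟩ ?_
    rintro v ⟨hv, hvI⟩
    refine ⟨hvI, ?_⟩
    obtain ⟨w, hw, hwt⟩ := mem_closure_iff_seq_limit.1 hv
    have h1 : Tendsto (fun n => H (g ⟨x, w n⟩)) atTop (𝓝 (H (g ⟨x, v⟩))) := by
      have h2 := (hcont v hvI).tendsto
      refine h2.comp (tendsto_nhdsWithin_iff.2 ⟨hwt, ?_⟩)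
      exact Eventually.of_forall fun n => (hw n).1
    have h2 : Tendsto (fun n => H (g ⟨x, w n⟩)) atTop (𝓝 c) := by
      refine tendsto_const_nhds.congr fun n => ?_
      exact ((hw n).2).symm
    exact tendsto_nhds_unique h1 h2
  intro v hv
  exact (hsub hv).2

theorem specLR : SpecLR := by
  intro p hp D Y Ψ H Hx Hy o r g hN hHY hYo hYf hS hg δ hδ hδr
  by_contra hcon
  push Not at hcon
  have hF : ∀ x ∈ Ioo 0 δ, H (g (x : ℝ)) ∈ frontier Y := by
    intro x hx
    rw [hYo.frontier_eq]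
    refine ⟨hHY (hg.maps ?_), hcon x hx⟩
    rw [mem_ball_zero_iff, Complex.norm_real, Real.norm_eq_abs, abs_of_pos hx.1]
    linarith [hx.2]
  set d : ℝ := r - δ with hd
  have hd0 : 0 < d := by linarith
  set Q : Set ℂ := {z | 0 < z.re ∧ z.re < δ ∧ -d < z.im ∧ z.im < d} with hQ
  have hQo : IsOpen Q := by
    have h1 : IsOpen {z : ℂ | 0 < z.re} := isOpen_lt continuous_const Complex.continuous_re
    have h2 : IsOpen {z : ℂ | z.re < δ} := isOpen_lt Complex.continuous_re continuous_const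
    have h3 : IsOpen {z : ℂ | -d < z.im} := isOpen_lt continuous_const Complex.continuous_im
    have h4 : IsOpen {z : ℂ | z.im < d} := isOpen_lt Complex.continuous_im continuous_const
    exact h1.inter (h2.inter (h3.inter h4))
  have hQn : ∀ z ∈ Q, ‖z‖ < r := by
    intro z hz
    obtain ⟨h1, h2, h3, h4⟩ := hz
    have h5 := norm_mk_le z.re z.im
    have h6 : |z.im| < d := abs_lt.2 ⟨h3, h4⟩
    have h7 : |z.re| < δ := by rw [abs_of_pos h1]; exact h2
    have h8 : (⟨z.re, z.im⟩ : ℂ) = z := by apply Complex.ext <;> rfl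
    rw [h8] at h5
    linarith
  have hQr : Q ⊆ ball 0 r := fun z hz => by rw [mem_ball_zero_iff]; exact hQn z hz
  have hRF : ∀ z ∈ g '' Q, H z ∈ frontier Y := by
    rintro _ ⟨z, hz, rfl⟩
    have hx : z.re ∈ Ioo 0 δ := ⟨hz.1, hz.2.1⟩
    have h1 := hF z.re hx
    have h0 : ((z.re : ℝ) : ℂ) = ⟨z.re, 0⟩ := by apply Complex.ext <;> simp
    rw [h0] at h1
    have h2 := (hS _ h1).vert hN.co hg (x := z.re) (a := -d) (b := d) (v₀ := 0)
      (fun v hv => hQn _ ⟨hx.1, hx.2, hv.1, hv.2⟩) ⟨by linarith, hd0⟩ rfl z.im ⟨hz.2.2.1, hz.2.2.2⟩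
    have h8 : (⟨z.re, z.im⟩ : ℂ) = z := by apply Complex.ext <;> rfl
    rw [h8] at h2
    rw [h2]
    exact h1
  have hRo : IsOpen (g '' Q) := hg.image_open hQo hQr
  have hRD : g '' Q ⊆ D := by
    rintro _ ⟨z, hz, rfl⟩
    exact hg.maps (hQr hz)
  have hmu := hN.mu ((frontier Y).indicator 1) (measurable_one.indicator isClosed_frontier.measurableSet)
  have h1 : ∫⁻ z, (frontier Y).indicator (1 : ℂ → ℝ≥0∞) z = 0 := by
    rw [lintegral_indicator_one isClosed_frontier.measurableSet, hYf]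
  rw [h1] at hmu
  have h2 : ∫⁻ z in g '' Q, ENNReal.ofReal (jac (Hx z) (Hy z)) ≤ 0 := by
    refine le_trans ?_ hmu
    refine le_trans ?_ (lintegral_mono_set hRD)
    refine setLIntegral_mono' hRo.measurableSet fun z hz => ?_
    have := hRF z hz
    rw [indicator_of_mem this]
    simp
  have hmj : Measurable fun z => ENNReal.ofReal (jac (Hx z) (Hy z)) := by
    have h3 : Measurable fun z => jac (Hx z) (Hy z) := by
      unfold jac
      have ha := hN.wd.mx
      have hb := hN.wd.my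
      exact ((Complex.measurable_re.comp ha).mul (Complex.measurable_im.comp hb)).sub
        ((Complex.measurable_im.comp ha).mul (Complex.measurable_re.comp hb))
    exact h3.ennreal_ofReal
  have h3 : ∫⁻ z in g '' Q, ENNReal.ofReal (jac (Hx z) (Hy z)) = 0 := le_antisymm h2 bot_le
  rw [lintegral_eq_zero_iff hmj] at h3
  have h4 : ∀ᵐ z ∂(volume.restrict (g '' Q)), 0 < jac (Hx z) (Hy z) ∧ AH p (Hx z) (Hy z) = Ψ z :=
    ae_restrict_of_ae_restrict_of_subset hRD hN.eq
  have h5 : ∀ᵐ z ∂(volume.restrict (g '' Q)), False := by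
    filter_upwards [h3, h4] with z hz hz'
    have : ENNReal.ofReal (jac (Hx z) (Hy z)) = 0 := hz
    rw [ENNReal.ofReal_eq_zero] at this
    linarith [hz'.1]
  rw [ae_iff] at h5
  simp only [not_false_eq_true, Set.ofPred_true, Measure.restrict_apply_univ] at h5
  have h6 : (g '' Q).Nonempty := by
    refine ⟨_, ⟨(δ / 2 : ℝ), ?_, rfl⟩⟩
    refine ⟨?_, ?_, ?_, ?_⟩ <;> simp <;> linarith
  exact (hRo.measure_pos volume h6).ne' h5

end MPfa
end

section
/-!
Problem MP_fa0334_an, module BPH: homeomorphisms satisfy the boundary principle.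
-/
set_option autoImplicit false

open MeasureTheory Set Filter Topology Metric Complex
open scoped ContDiff ENNReal ComplexConjugate

namespace MPfa

/-- the maximum argument -/
theorem Bph.max_arg {D : Set ℂ} {F : ℂ → ℂ} (hD : IsOpen D) (hc : IsCompact (closure D))
    (hF : ContinuousOn F (closure D)) (ho : IsOpen (F '' D)) (c : ℂ) (r : ℝ)
    (hb : ∀ z ∈ frontier D, ‖F z - c‖ ≤ r) : ∀ z ∈ D, ‖F z - c‖ ≤ r := by
  intro z₁ hz₁
  by_contra hlt
  rw [not_le] at hlt
  obtain ⟨z₂, hz₂, hmax⟩ := hc.exists_isMaxOn ⟨z₁, subset_closure hz₁⟩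
    ((hF.sub continuousOn_const).norm : ContinuousOn (fun z => ‖F z - c‖) (closure D))
  have h1 : r < ‖F z₂ - c‖ := lt_of_lt_of_le hlt (hmax (subset_closure hz₁))
  have h2 : z₂ ∈ D := by
    by_contra hn
    have : z₂ ∈ frontier D := by
      rw [hD.frontier_eq]
      exact ⟨hz₂, hn⟩
    exact absurd (hb z₂ this) (not_le.2 h1)
  have h3 : F '' D ⊆ closedBall c ‖F z₂ - c‖ := by
    rintro _ ⟨z, hz, rfl⟩
    rw [mem_closedBall, dist_eq_norm]
    exact hmax (subset_closure hz)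
  have h4 : F '' D ⊆ ball c ‖F z₂ - c‖ := by
    rw [← interior_closedBall']
    exact interior_maximal h3 ho
  have h5 := h4 ⟨z₂, h2, rfl⟩
  rw [mem_ball, dist_eq_norm] at h5
  exact lt_irrefl _ h5

theorem specBPH : SpecBPH := by
  intro G F _ hF ho D hD hc hDG c r hb
  exact Bph.max_arg hD hc (hF.mono hDG) (ho D (subset_closure.trans hDG) hD) c r hb

end MPfa
end

section
/-!
Problem MP_fa0334_an, module BUMP: boundary bumping.
-/
set_option autoImplicit false

open MeasureTheory Set Filter Topology Metric Complex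
open scoped ContDiff ENNReal ComplexConjugate

namespace MPfa

theorem specBump : SpecBump := by
  intro K U hK hKc hU hKU s hs
  set K' : Set ℂ := K ∩ closure U with hK'
  have hK'c : IsCompact K' := hK.inter_right isClosed_closure
  have hsK' : s ∈ K' := ⟨hs.1, subset_closure hs.2⟩
  refine ⟨connectedComponentIn K' s, connectedComponentIn_subset _ _,
    isPreconnected_connectedComponentIn, mem_connectedComponentIn hsK', ?_⟩
  by_contra hemp
  have : CompactSpace K' := isCompact_iff_compactSpace.1 hK'c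
  have h1 : connectedComponentIn K' s =
      (Subtype.val : K' → ℂ) '' connectedComponent (⟨s, hsK'⟩ : K') :=
    connectedComponentIn_eq_image hsK'
  let x : K' := ⟨s, hsK'⟩
  have h2 : ∃ Q : { q : Set K' // IsClopen q ∧ x ∈ q },
      (Q : Set K') ⊆ (Subtype.val ⁻¹' (frontier U))ᶜ := by
    have : Nonempty { q : Set K' // IsClopen q ∧ x ∈ q } := ⟨⟨univ, isClopen_univ, mem_univ _⟩⟩
    refine exists_subset_nhds_of_isCompact' ?_ ?_ ?_ ?_
    · intro a b
      exact ⟨⟨a.1 ∩ b.1, a.2.1.inter b.2.1, a.2.2, b.2.2⟩, inter_subset_left, inter_subset_right⟩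
    · intro a
      exact a.2.1.isClosed.isCompact
    · intro a
      exact a.2.1.isClosed
    · intro y hy
      rw [← connectedComponent_eq_iInter_isClopen] at hy
      refine IsOpen.mem_nhds ?_ ?_
      · exact (isClosed_frontier.preimage continuous_subtype_val).isOpen_compl
      · intro hy2
        exact hemp ⟨y.1, by rw [h1]; exact ⟨y, hy, rfl⟩, hy2⟩
  obtain ⟨⟨Q, hQ, hxQ⟩, hQf⟩ := h2
  dsimp only at hQf
  -- the set in the plane
  set Q' : Set ℂ := Subtype.val '' Q with hQ'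
  have hQ'c : IsClosed Q' := (hQ.isClosed.isCompact.image continuous_subtype_val).isClosed
  have hQ'U : Q' ⊆ U := by
    rintro _ ⟨y, hy, rfl⟩
    have h3 : y.1 ∉ frontier U := hQf hy
    have h4 : y.1 ∈ closure U := y.2.2
    by_contra hn
    exact h3 (by rw [hU.frontier_eq]; exact ⟨h4, hn⟩)
  obtain ⟨O, hO, hOQ⟩ := isOpen_induced_iff.1 hQ.isOpen
  have hsub : K ∩ (O ∩ U) ⊆ Q' := by
    rintro y ⟨hyK, hyO, hyU⟩
    refine ⟨⟨y, hyK, subset_closure hyU⟩, ?_, rfl⟩
    rw [← hOQ]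
    exact hyO
  have hsO : s ∈ O := by
    have : x ∈ Subtype.val ⁻¹' O := by rw [hOQ]; exact hxQ
    exact this
  obtain ⟨k, hkK, hkU⟩ := not_subset.1 hKU
  obtain ⟨y, hyK, hyOU, hyQ⟩ := hKc (O ∩ U) Q'ᶜ (hO.inter hU) hQ'c.isOpen_compl (by
    intro y hy
    by_cases hyQ : y ∈ Q'
    · left
      refine ⟨?_, hQ'U hyQ⟩
      obtain ⟨y', hy', rfl⟩ := hyQ
      have : y' ∈ Subtype.val ⁻¹' O := by rw [hOQ]; exact hy'
      exact this
    · right
      exact hyQ) ⟨s, hs.1, hsO, hs.2⟩ ⟨k, hkK, fun hkQ => hkU (hQ'U hkQ)⟩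
  exact hyQ (hsub ⟨hyK, hyOU⟩)

end MPfa
end
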