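import Pool.Agent.Lib.MP_fa0334_an.Bump

/-!
Module ATL: the tip lemma.
-/

set_option autoImplicit false

open MeasureTheory Set Filter Topology Metric Complex
open scoped ContDiff ENNReal ComplexConjugate

namespace MPfa
namespace ATLM

open VLM

variable {p : ℝ} {S : Set ℂ} {H Hx Hy : ℂ → ℂ}

/-- Hölder for the horizontal derivative -/
lemma int_Hx {C : ℝ} (hp : 1 < p) (hC : 0 < C) (hA : AlgC p C)
    (h : NM p S (fun _ => 1) H Hx Hy) (c : ℂ) {r : ℝ} (hr : 0 ≤ r) {E : Set ℂ}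
    (hEm : MeasurableSet E) (hE : E ⊆ S ∩ {z | ‖H z - c‖ < r}) (hEf : volume E ≠ ⊤) :
    ∫⁻ z in E, ‖Hx z‖ₑ ≤ ENNReal.ofReal ((C * (volume.real E + r ^ 2 * Real.pi)) ^
      (1 / (2 * p / (p + 1)))) *
      (∫⁻ z in E, ENNReal.ofReal (jac (Hx z) (Hy z))) ^ (1 / (2 * p / (p - 1))) := by
  have hq := qq hp
  set P' : ℝ := 2 * p / (p + 1) with hP'
  set P : ℝ := 2 * p / (p - 1) with hP
  have hP'0 : 0 < P' := hq.pos
  have hP0 : 0 < P := hq.symm.pos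
  have hmf : Measurable fun z => ENNReal.ofReal (‖Hx z‖ * ‖Hy z‖ ^ (1 - P')) := by
    have h1 : Measurable fun z => ‖Hy z‖ ^ (1 - P') := h.wd.my.norm.pow_const _
    exact (h.wd.mx.norm.mul h1).ennreal_ofReal
  have hmj : Measurable fun z => ENNReal.ofReal (jac (Hx z) (Hy z)) :=
    (meas_jac' h.wd.mx h.wd.my).ennreal_ofReal
  have hae : ∀ᵐ z ∂(volume.restrict E), 0 < jac (Hx z) (Hy z) ∧ AH p (Hx z) (Hy z) = 1 :=
    ae_restrict_of_ae_restrict_of_subset (fun z hz => (hE hz).1) h.eq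
  have h1 := ENNReal.lintegral_mul_le_Lp_mul_Lq (volume.restrict E) hq
    (f := fun z => ENNReal.ofReal (‖Hx z‖ * ‖Hy z‖ ^ (1 - P')) ^ (1 / P'))
    (g := fun z => ENNReal.ofReal (jac (Hx z) (Hy z)) ^ (1 / P))
    (hmf.pow_const _).aemeasurable (hmj.pow_const _).aemeasurable
  have hsum : 1 / P' + 1 / P = 1 := by
    have := hq.inv_add_inv_eq_one
    rw [one_div, one_div]; exact this
  have h2 : ∫⁻ z in E, ‖Hx z‖ₑ = ∫⁻ z in E, ((fun z => ENNReal.ofReal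
      (‖Hx z‖ * ‖Hy z‖ ^ (1 - P')) ^ (1 / P')) * fun z =>
      ENNReal.ofReal (jac (Hx z) (Hy z)) ^ (1 / P)) z := by
    refine lintegral_congr_ae ?_
    filter_upwards [hae] with z hz
    obtain ⟨-, h3, h4, h5, -, -⟩ := hA _ _ hz.1 hz.2
    have h6 : 0 < ‖Hx z‖ := h5.trans h4
    simp only [Pi.mul_apply]
    rw [← ofReal_norm, ENNReal.ofReal_rpow_of_nonneg (by positivity) (by positivity),
      ENNReal.ofReal_rpow_of_nonneg hz.1.le (by positivity),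
      ← ENNReal.ofReal_mul (by positivity), h3]
    congr 1
    rw [Real.mul_rpow h6.le (by positivity), Real.mul_rpow h6.le h5.le,
      ← Real.rpow_mul h5.le]
    have h7 : ‖Hx z‖ ^ (1 / P') * ‖Hy z‖ ^ ((1 - P') * (1 / P')) *
        (‖Hx z‖ ^ (1 / P) * ‖Hy z‖ ^ (1 / P)) =
        (‖Hx z‖ ^ (1 / P') * ‖Hx z‖ ^ (1 / P)) *
          (‖Hy z‖ ^ ((1 - P') * (1 / P')) * ‖Hy z‖ ^ (1 / P)) := by ring
    rw [h7, ← Real.rpow_add h6, ← Real.rpow_add h5, hsum, Real.rpow_one]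
    have h8 : (1 - P') * (1 / P') + 1 / P = 0 := by
      have : (1 - P') * (1 / P') = 1 / P' - 1 := by field_simp
      rw [this]; linarith
    rw [h8, Real.rpow_zero, mul_one]
  rw [h2]
  refine h1.trans ?_
  have h3 : ∫⁻ z in E, (ENNReal.ofReal (jac (Hx z) (Hy z)) ^ (1 / P)) ^ P =
      ∫⁻ z in E, ENNReal.ofReal (jac (Hx z) (Hy z)) := by
    refine lintegral_congr fun z => ?_
    rw [← ENNReal.rpow_mul, one_div, inv_mul_cancel₀ hP0.ne', ENNReal.rpow_one]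
  have h4 : ∫⁻ z in E, (ENNReal.ofReal (‖Hx z‖ * ‖Hy z‖ ^ (1 - P')) ^ (1 / P')) ^ P' ≤
      ENNReal.ofReal (C * (volume.real E + r ^ 2 * Real.pi)) := by
    calc ∫⁻ z in E, (ENNReal.ofReal (‖Hx z‖ * ‖Hy z‖ ^ (1 - P')) ^ (1 / P')) ^ P'
        ≤ ∫⁻ z in E, (ENNReal.ofReal C * (1 + ENNReal.ofReal (jac (Hx z) (Hy z)))) := by
          refine lintegral_mono_ae ?_
          filter_upwards [hae] with z hz
          rw [← ENNReal.rpow_mul, one_div, inv_mul_cancel₀ hP'0.ne', ENNReal.rpow_one]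
          obtain ⟨-, -, -, -, -, h5⟩ := hA _ _ hz.1 hz.2
          refine (ENNReal.ofReal_le_ofReal h5).trans ?_
          rw [ENNReal.ofReal_mul hC.le, ENNReal.ofReal_add zero_le_one hz.1.le,
            ENNReal.ofReal_one]
      _ = ENNReal.ofReal C * (volume E + ∫⁻ z in E, ENNReal.ofReal (jac (Hx z) (Hy z))) := by
          rw [lintegral_const_mul _ (hmj.const_add 1), lintegral_add_left measurable_const]
          simp
      _ ≤ ENNReal.ofReal C * (volume E + ENNReal.ofReal r ^ 2 * NNReal.pi) := by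
          gcongr
          exact int_jac h c r hEm hE
      _ = ENNReal.ofReal (C * (volume.real E + r ^ 2 * Real.pi)) := by
          rw [ENNReal.ofReal_mul hC.le, ENNReal.ofReal_add measureReal_nonneg (by positivity),
            ofReal_measureReal hEf, ENNReal.ofReal_mul (by positivity), ENNReal.ofReal_pow hr]
          congr 3
          rw [← NNReal.coe_real_pi, ENNReal.ofReal_coe_nnreal]
  rw [h3]
  refine mul_le_mul' ?_ le_rfl
  rw [← ENNReal.ofReal_rpow_of_nonneg (by positivity) (by positivity)]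
  exact ENNReal.rpow_le_rpow h4 (by positivity)

/-- a sequence with `b_{n+1} ≤ b_n^θ`, `θ ≤ 1/2`, is eventually at most 2 -/
lemma seq_two {θ : ℝ} (h0 : 0 ≤ θ) (h1 : θ ≤ 1 / 2) {b : ℕ → ℝ} (hb : ∀ n, 0 ≤ b n) {N : ℕ}
    (h : ∀ n ≥ N, b (n + 1) ≤ b n ^ θ) : ∀ᶠ n in atTop, b n ≤ 2 := by
  have key : ∀ j, max 1 (b (N + j)) - 1 ≤ (max 1 (b N) - 1) * (1 / 2) ^ j := by
    intro j
    induction j with
    | zero => simp
    | succ j ih =>
      have h2 : b (N + j + 1) ≤ b (N + j) ^ θ := h _ (by omega)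
      have h3 : b (N + j) ^ θ ≤ (1 + max 1 (b (N + j))) / 2 := by
        have h4 : b (N + j) ^ θ ≤ (max 1 (b (N + j))) ^ θ :=
          Real.rpow_le_rpow (hb _) (le_max_right _ _) h0
        have h5 : (max 1 (b (N + j))) ^ θ ≤ (max 1 (b (N + j))) ^ (1 / 2 : ℝ) :=
          Real.rpow_le_rpow_of_exponent_le (le_max_left _ _) h1
        have h6 : (max 1 (b (N + j))) ^ (1 / 2 : ℝ) ≤ (1 + max 1 (b (N + j))) / 2 := by
          rw [← Real.sqrt_eq_rpow]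
          have h7 : 0 ≤ max 1 (b (N + j)) := le_trans zero_le_one (le_max_left _ _)
          nlinarith [Real.sq_sqrt h7, sq_nonneg (Real.sqrt (max 1 (b (N + j))) - 1)]
        exact h4.trans (h5.trans h6)
      have h8 : max 1 (b (N + (j + 1))) ≤ (1 + max 1 (b (N + j))) / 2 := by
        apply max_le
        · have := le_max_left 1 (b (N + j)); linarith
        · exact h2.trans h3
      rw [pow_succ]
      linarith
  have hlim : Tendsto (fun j : ℕ => (max 1 (b N) - 1) * (1 / 2 : ℝ) ^ j) atTop (𝓝 0) := by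
    have := (tendsto_pow_atTop_nhds_zero_of_lt_one (r := (1 / 2 : ℝ)) (by norm_num)
      (by norm_num)).const_mul (max 1 (b N) - 1)
    rwa [mul_zero] at this
  have h9 : ∀ᶠ j : ℕ in atTop, (max 1 (b N) - 1) * (1 / 2 : ℝ) ^ j ≤ 1 :=
    hlim.eventually_le_const zero_lt_one
  obtain ⟨J, hJ⟩ := eventually_atTop.1 h9
  filter_upwards [eventually_ge_atTop (N + J)] with n hn
  obtain ⟨i, rfl⟩ := Nat.exists_eq_add_of_le (show N ≤ n by omega)
  have := (key i).trans (hJ i (by omega))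
  have := le_max_right 1 (b (N + i))
  linarith

/-- the open rectangle -/
def Q (s d₁ d₂ : ℝ) : Set ℂ := {z : ℂ | 0 < z.re ∧ z.re < s ∧ d₁ < z.im ∧ z.im < d₂}

/-- the part of the rectangle above the level `k` where `|H - c| < r` -/
def E (s d₁ d₂ : ℝ) (H : ℂ → ℂ) (c : ℂ) (k r : ℝ) : Set ℂ :=
  {z : ℂ | k < z.im} ∩ (Q s d₁ d₂ ∩ {z | ‖H z - c‖ < r})

variable {s d₁ d₂ : ℝ}

lemma Q_fin (s d₁ d₂ : ℝ) : volume (Q s d₁ d₂) ≠ ⊤ := by
  have hb : Bornology.IsBounded (Q s d₁ d₂) := by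
    have h1 : Q s d₁ d₂ ⊆ Icc 0 s ×ℂ Icc d₁ d₂ := fun z hz =>
      ⟨⟨hz.1.le, hz.2.1.le⟩, ⟨hz.2.2.1.le, hz.2.2.2.le⟩⟩
    exact ((Metric.isBounded_Icc _ _).reProdIm (Metric.isBounded_Icc _ _)).subset h1
  exact hb.measure_lt_top.ne

lemma E_sub (H : ℂ → ℂ) (c : ℂ) (k r : ℝ) : E s d₁ d₂ H c k r ⊆ Q s d₁ d₂ := fun _ hz => hz.2.1

lemma E_fin (H : ℂ → ℂ) (c : ℂ) (k r : ℝ) : volume (E s d₁ d₂ H c k r) ≠ ⊤ :=
  measure_ne_top_of_subset (E_sub H c k r) (Q_fin s d₁ d₂)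

lemma E_meas {Ψ : ℂ → ℂ} (h : NM p (Q s d₁ d₂) Ψ H Hx Hy) (c : ℂ) (k r : ℝ) :
    MeasurableSet (E s d₁ d₂ H c k r) :=
  (Complex.measurable_im measurableSet_Ioi).inter (open_rho h c r).measurableSet

/-- the closed rectangle -/
def Qc (s d₁ d₂ : ℝ) : Set ℂ := {z : ℂ | 0 ≤ z.re ∧ z.re ≤ s ∧ d₁ ≤ z.im ∧ z.im ≤ d₂}

lemma step_A (h : NM p (Q s d₁ d₂) (fun _ => 1) H Hx Hy) (hV : VAC (Q s d₁ d₂) H Hy)
    (hco : ContinuousOn H (Qc s d₁ d₂)) {c : ℂ} {k k' r : ℝ}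
    (htop : ∀ u ∈ Icc 0 s, 2 * r ≤ ‖H ⟨u, d₂⟩ - c‖)
    (hhigh : ∀ z ∈ Q s d₁ d₂, k' ≤ z.im → r ≤ ‖H z - c‖) :
    ENNReal.ofReal r * volume (E s d₁ d₂ H c k r) ≤
      ENNReal.ofReal (k' - k) * ∫⁻ z in E s d₁ d₂ H c k (2 * r), ‖Hy z‖ₑ := by
  have hE := E_meas h c k r
  have hE2 := E_meas h c k (2 * r)
  rw [Lines.vol_v hE, Lines.lint_v_set hE2 h.wd.my.enorm,
    ← lintegral_const_mul _ (by simpa using Lines.meas_lint_v hE (f := fun _ => 1) measurable_const),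
    ← lintegral_const_mul _ (Lines.meas_lint_v hE2 h.wd.my.enorm)]
  refine lintegral_mono_ae ?_
  filter_upwards [hV] with u hu
  rcases Set.eq_empty_or_nonempty {v : ℝ | (⟨u, v⟩ : ℂ) ∈ E s d₁ d₂ H c k r} with he | ⟨v, hv⟩
  · simp [he]
  · have hsub : {v : ℝ | (⟨u, v⟩ : ℂ) ∈ E s d₁ d₂ H c k r} ⊆ Ioo k k' := by
      intro w hw
      refine ⟨hw.1, ?_⟩
      by_contra hcon
      exact absurd hw.2.2 (not_lt.2 (hhigh _ hw.2.1 (not_lt.1 hcon)))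
    have h1 : volume {v : ℝ | (⟨u, v⟩ : ℂ) ∈ E s d₁ d₂ H c k r} ≤ ENNReal.ofReal (k' - k) := by
      have := measure_mono (μ := volume) hsub
      rwa [Real.volume_Ioo] at this
    obtain ⟨hv1, ⟨hv2, hv3, hv4, hv5⟩, hv6⟩ := hv
    have hv1 : k < v := hv1
    have hv2 : 0 < u := hv2
    have hv3 : u < s := hv3
    have hv4 : d₁ < v := hv4
    have hv5 : v < d₂ := hv5
    have hv6 : ‖H ⟨u, v⟩ - c‖ < r := hv6
    have hcu : ContinuousOn (fun t : ℝ => H ⟨u, t⟩) (Icc d₁ d₂) := by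
      refine hco.comp ?_ fun t ht => ⟨hv2.le, hv3.le, ht.1, ht.2⟩
      exact (Lines.continuous_mk.comp (continuous_const.prodMk continuous_id)).continuousOn
    have h2 := Lines.cross_up (φ := fun t : ℝ => H ⟨u, t⟩) (ψ := fun t : ℝ => Hy ⟨u, t⟩) hcu
      (fun x y hx hxy hy => hu x y hxy fun t ht =>
        ⟨hv2, hv3, hx.trans_le ht.1, ht.2.trans_lt hy⟩) hv4.le hv5.le le_rfl (c := c)
      (α := r) (β := 2 * r) hv6.le (htop u ⟨hv2.le, hv3.le⟩)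
    have h3 : (2 * r - r) = r := by ring
    rw [h3] at h2
    rw [mul_comm]
    refine mul_le_mul' h1 (h2.trans (lintegral_mono_set ?_))
    intro t ht
    exact ⟨hv1.trans ht.1.1, ⟨hv2, hv3, hv4.trans ht.1.1, ht.1.2⟩, ht.2⟩

lemma step_A' {C : ℝ} (hp : 1 < p) (hC : 0 < C) (hA : AlgC p C)
    (h : NM p (Q s d₁ d₂) (fun _ => 1) H Hx Hy) (hV : VAC (Q s d₁ d₂) H Hy)
    (hco : ContinuousOn H (Qc s d₁ d₂)) {c : ℂ} {k k' r : ℝ} (hr : 0 < r)
    (hkk' : k ≤ k')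
    (htop : ∀ u ∈ Icc 0 s, 2 * r ≤ ‖H ⟨u, d₂⟩ - c‖)
    (hhigh : ∀ z ∈ Q s d₁ d₂, k' ≤ z.im → r ≤ ‖H z - c‖) :
    r * volume.real (E s d₁ d₂ H c k r) ≤ (k' - k) *
      ((C * ((2 * r) ^ 2 * Real.pi)) ^ (1 / (2 * p / (p + 1))) *
      (volume.real (E s d₁ d₂ H c k (2 * r))) ^ (1 / (2 * p / (p - 1)))) := by
  have h1 := step_A h hV hco (k := k) htop hhigh
  have h2 := int_Hy hp hC hA h c (by positivity : (0 : ℝ) ≤ 2 * r) (E_meas h c k (2 * r))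
    (inter_subset_right) (E_fin H c k (2 * r))
  have h3 := h1.trans (mul_le_mul' le_rfl h2)
  have h4 : (0 : ℝ) ≤ (C * ((2 * r) ^ 2 * Real.pi)) ^ (1 / (2 * p / (p + 1))) *
      (volume.real (E s d₁ d₂ H c k (2 * r))) ^ (1 / (2 * p / (p - 1))) := by positivity
  rw [← ofReal_measureReal (E_fin H c k r), ← ENNReal.ofReal_mul hr.le,
    ← ENNReal.ofReal_mul (by linarith)] at h3
  exact (ENNReal.ofReal_le_ofReal_iff (mul_nonneg (by linarith) h4)).1 h3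

lemma compact_pos {K : Set ℂ} (hK : IsCompact K) (hco : ContinuousOn H K) {c : ℂ}
    (hne : ∀ z ∈ K, H z ≠ c) : ∃ r > 0, ∀ z ∈ K, r ≤ ‖H z - c‖ := by
  rcases K.eq_empty_or_nonempty with rfl | hn
  · exact ⟨1, one_pos, by simp⟩
  · obtain ⟨z, hz, hmin⟩ := hK.exists_isMinOn hn (hco.sub continuousOn_const).norm
    exact ⟨‖H z - c‖, norm_pos_iff.2 (sub_ne_zero.2 (hne z hz)), fun w hw => hmin hw⟩

lemma Qc_compact (s d₁ d₂ : ℝ) : IsCompact (Qc s d₁ d₂) := by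
  have h1 : Qc s d₁ d₂ = Icc 0 s ×ℂ Icc d₁ d₂ := by
    ext z
    simp only [Qc, mem_ofPred_eq, mem_reProdIm, mem_Icc, and_assoc]
  rw [h1]
  exact isCompact_Icc.reProdIm isCompact_Icc

lemma half_eventually {r : ℝ} (hr : 0 < r) : ∀ᶠ n : ℕ in atTop, (1 / 2 : ℝ) ^ n ≤ r :=
  (tendsto_pow_atTop_nhds_zero_of_lt_one (r := (1 / 2 : ℝ)) (by norm_num)
    (by norm_num)).eventually_le_const hr

lemma id_beta {p : ℝ} (hp : 1 < p) : 2 * (1 / (2 * p / (p + 1))) - 1 +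
    (2 - 2 * p / (p + 1)) * (1 / (2 * p / (p - 1))) = 2 - 2 * p / (p + 1) := by
  have h1 : p - 1 ≠ 0 := by linarith
  have h2 : p + 1 ≠ 0 := by linarith
  have h3 : p ≠ 0 := by linarith
  field_simp
  ring

lemma id_two {p : ℝ} (hp : 1 < p) : (1 - (2 - 2 * p / (p + 1)) * (1 / (2 * p / (p + 1)))) *
    (2 * p / (p - 1)) = 2 := by
  have h1 : p - 1 ≠ 0 := by linarith
  have h2 : p + 1 ≠ 0 := by linarith
  have h3 : p ≠ 0 := by linarith
  field_simp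
  ring

lemma t_le {p : ℝ} (hp : 1 < p) : 1 / (2 * p / (p - 1)) ≤ 1 / 2 := by
  have h1 : 0 < p - 1 := by linarith
  rw [one_div_div, div_le_div_iff₀ (by positivity) (by positivity)]
  linarith

/-- the constant of the asymptotic estimate -/
noncomputable def K2 (p C : ℝ) : ℝ :=
  4 * (2 : ℝ) ^ (2 - 2 * p / (p + 1)) * (C * Real.pi) ^ (1 / (2 * p / (p + 1)))

lemma K2_pos {p C : ℝ} (hC : 0 < C) : 0 < K2 p C := by unfold K2; positivity

/-- areas above the level `k` -/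
lemma asym {C : ℝ} (hp : 1 < p) (hC : 0 < C) (hA : AlgC p C)
    (h : NM p (Q s d₁ d₂) (fun _ => 1) H Hx Hy) (hV : VAC (Q s d₁ d₂) H Hy)
    (hco : ContinuousOn H (Qc s d₁ d₂)) {c : ℂ} {m : ℝ} (hd : d₁ ≤ d₂)
    (htop : ∀ u ∈ Icc 0 s, H ⟨u, d₂⟩ ≠ c)
    (hm : ∀ z : ℂ, 0 ≤ z.re → z.re ≤ s → d₁ ≤ z.im → z.im ≤ d₂ → H z = c → z.im ≤ m)
    {k : ℝ} (hk : k < m) :
    ∀ᶠ n : ℕ in atTop, volume.real (E s d₁ d₂ H c k ((1 / 2) ^ n)) ≤
      2 * (K2 p C * (m - k)) ^ (2 * p / (p + 1)) * ((1 / 2 : ℝ) ^ n) ^ (2 - 2 * p / (p + 1)) := by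
  have hq := qq hp
  set P' : ℝ := 2 * p / (p + 1) with hP'
  set P : ℝ := 2 * p / (p - 1) with hP
  have hP'0 : 0 < P' := hq.pos
  have hP0 : 0 < P := hq.symm.pos
  have hmk : 0 < m - k := by linarith
  -- lower bounds of `|H - c|`
  have hKt : IsCompact {z : ℂ | z ∈ Qc s d₁ d₂ ∧ z.im = d₂} :=
    (Qc_compact s d₁ d₂).inter_right (isClosed_eq Complex.continuous_im continuous_const)
  obtain ⟨ρ₀, hρ₀, htop'⟩ := compact_pos hKt (hco.mono fun z hz => hz.1) (c := c) (by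
    rintro z ⟨hz, hz2⟩
    have : z = ⟨z.re, d₂⟩ := by rw [← hz2]
    rw [this]
    exact htop _ ⟨hz.1, hz.2.1⟩)
  have hKh : IsCompact {z : ℂ | z ∈ Qc s d₁ d₂ ∧ 2 * m - k ≤ z.im} :=
    (Qc_compact s d₁ d₂).inter_right (isClosed_le continuous_const Complex.continuous_im)
  obtain ⟨ρ₁, hρ₁, hhigh'⟩ := compact_pos hKh (hco.mono fun z hz => hz.1) (c := c) (by
    rintro z ⟨hz, hz2⟩ hzc
    have := hm z hz.1 hz.2.1 hz.2.2.1 hz.2.2.2 hzc
    linarith)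
  obtain ⟨N, hN⟩ := eventually_atTop.1 ((half_eventually hρ₀).and (half_eventually hρ₁))
  set X : ℝ := (K2 p C * (m - k)) ^ P' with hX
  have hK2 : 0 < K2 p C := K2_pos hC
  have hXpos : 0 < X := by positivity
  set β : ℝ := 2 - P' with hβ
  let b : ℕ → ℝ := fun n => volume.real (E s d₁ d₂ H c k ((1 / 2) ^ n)) /
    (X * ((1 / 2 : ℝ) ^ n) ^ β)
  have hb0 : ∀ n, 0 ≤ b n := fun n => by positivity
  have hrec : ∀ n ≥ N, b (n + 1) ≤ b n ^ (1 / P) := by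
    intro n hn
    set ρ : ℝ := (1 / 2 : ℝ) ^ n with hρ
    have hρpos : 0 < ρ := by positivity
    have h2 : (1 / 2 : ℝ) ^ (n + 1) = ρ / 2 := by rw [pow_succ]; ring
    have h3 : 2 * (ρ / 2) = ρ := by ring
    have h4 := step_A' hp hC hA h hV hco (c := c) (k := k) (k' := 2 * m - k) (r := ρ / 2)
      (by positivity) (by linarith) (by
        intro u hu
        rw [h3]
        exact ((hN n hn).1).trans (htop' ⟨u, d₂⟩ ⟨⟨hu.1, hu.2, hd, le_rfl⟩, rfl⟩)) (by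
        intro z hz hz2
        have h5 : ρ / 2 ≤ ρ := by linarith
        exact (h5.trans (hN n hn).2).trans
          (hhigh' z ⟨⟨hz.1.le, hz.2.1.le, hz.2.2.1.le, hz.2.2.2.le⟩, hz2⟩))
    rw [h3] at h4
    have h6 : (2 * m - k) - k = 2 * (m - k) := by ring
    rw [h6] at h4
    set A0 : ℝ := volume.real (E s d₁ d₂ H c k ρ) with hA0
    set A1 : ℝ := volume.real (E s d₁ d₂ H c k (ρ / 2)) with hA1
    have hA0' : 0 ≤ A0 := measureReal_nonneg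
    have hA1' : 0 ≤ A1 := measureReal_nonneg
    have hb1 : b (n + 1) = A1 / (X * (ρ / 2) ^ β) := by
      simp only [b, h2, hA1]
    have hb2 : b n = A0 / (X * ρ ^ β) := rfl
    rw [hb1, hb2, div_le_iff₀ (by positivity)]
    have h7 : (C * (ρ ^ 2 * Real.pi)) ^ (1 / P') = (C * Real.pi) ^ (1 / P') * ρ ^ (2 * (1 / P')) := by
      have h8 : C * (ρ ^ 2 * Real.pi) = (C * Real.pi) * ρ ^ (2 : ℝ) := by
        rw [Real.rpow_two]; ring
      rw [h8, Real.mul_rpow (by positivity) (by positivity), ← Real.rpow_mul hρpos.le]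
    rw [h7] at h4
    have h9 : (A0 / (X * ρ ^ β)) ^ (1 / P) = A0 ^ (1 / P) / (X ^ (1 / P) * ρ ^ (β * (1 / P))) := by
      rw [Real.div_rpow hA0' (by positivity), Real.mul_rpow hXpos.le (by positivity),
        ← Real.rpow_mul hρpos.le]
    rw [h9]
    have h10 : X ^ (1 / P') = K2 p C * (m - k) := by
      rw [hX, ← Real.rpow_mul (by positivity), mul_one_div, div_self hP'0.ne', Real.rpow_one]
    have hsum : 1 / P' + 1 / P = 1 := by
      have := hq.inv_add_inv_eq_one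
      rw [one_div, one_div]; exact this
    have h11 : X = X ^ (1 / P) * (K2 p C * (m - k)) := by
      rw [← h10, ← Real.rpow_add hXpos, add_comm, hsum, Real.rpow_one]
    have h12 : (ρ / 2) ^ β = ρ ^ β / 2 ^ β := by
      rw [Real.div_rpow hρpos.le (by norm_num)]
    have h13 : ρ ^ β = ρ ^ (2 * (1 / P')) / ρ * ρ ^ (β * (1 / P)) := by
      have := id_beta hp
      rw [← hP', ← hP, ← hβ] at this
      nth_rewrite 1 [← this]
      rw [Real.rpow_add hρpos, Real.rpow_sub hρpos, Real.rpow_one]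
    have h14 : A0 ^ (1 / P) / (X ^ (1 / P) * ρ ^ (β * (1 / P))) * (X * (ρ / 2) ^ β) =
        (2 / ρ) * (2 * (m - k) * ((C * Real.pi) ^ (1 / P') * ρ ^ (2 * (1 / P')) *
          A0 ^ (1 / P))) := by
      rw [h12, h13]
      nth_rewrite 2 [h11]
      have hX' : X ^ (1 / P) ≠ 0 := by positivity
      have hρ' : ρ ^ (β * (1 / P)) ≠ 0 := by positivity
      have h2' : (2 : ℝ) ^ β ≠ 0 := by positivity
      unfold K2
      rw [← hP', ← hβ]
      field_simp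
      ring
    rw [h14]
    have h15 : A1 = (2 / ρ) * (ρ / 2 * A1) := by field_simp
    rw [h15]
    exact mul_le_mul_of_nonneg_left h4 (by positivity)
  have h5 := seq_two (θ := 1 / P) (by positivity) (t_le hp) hb0 hrec
  filter_upwards [h5] with n hn
  have h6 : volume.real (E s d₁ d₂ H c k ((1 / 2) ^ n)) / (X * ((1 / 2 : ℝ) ^ n) ^ β) ≤ 2 := hn
  rw [div_le_iff₀ (by positivity)] at h6
  linarith

/-- the levels -/
noncomputable def kk (m d₁ : ℝ) (j : ℕ) : ℝ := m - (m - d₁) * (1 / 2) ^ j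

lemma kk_lt {m d₁ : ℝ} (h : d₁ < m) (j : ℕ) : kk m d₁ j < m := by
  have : 0 < (m - d₁) * (1 / 2 : ℝ) ^ j := by
    have : 0 < m - d₁ := by linarith
    positivity
  unfold kk; linarith

lemma le_kk {m d₁ : ℝ} (h : d₁ < m) (j : ℕ) : d₁ ≤ kk m d₁ j := by
  have h1 : (1 / 2 : ℝ) ^ j ≤ 1 := pow_le_one₀ (by norm_num) (by norm_num)
  have : (m - d₁) * (1 / 2 : ℝ) ^ j ≤ (m - d₁) * 1 :=
    mul_le_mul_of_nonneg_left h1 (by linarith)
  unfold kk; linarith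

lemma kk_step (m d₁ : ℝ) (j : ℕ) : m - kk m d₁ j = 2 * (kk m d₁ (j + 1) - kk m d₁ j) := by
  unfold kk; rw [pow_succ]; ring

lemma kk_mono {m d₁ : ℝ} (h : d₁ < m) {i j : ℕ} (hij : i ≤ j) : kk m d₁ i ≤ kk m d₁ j := by
  have h1 : (1 / 2 : ℝ) ^ j ≤ (1 / 2 : ℝ) ^ i :=
    pow_le_pow_of_le_one (by norm_num) (by norm_num) hij
  have : (m - d₁) * (1 / 2 : ℝ) ^ j ≤ (m - d₁) * (1 / 2 : ℝ) ^ i :=
    mul_le_mul_of_nonneg_left h1 (by linarith)
  unfold kk; linarith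

/-- the layers -/
def F (s d₁ d₂ : ℝ) (H : ℂ → ℂ) (c : ℂ) (m : ℝ) (j : ℕ) (r : ℝ) : Set ℂ :=
  {z : ℂ | z.im < kk m d₁ (j + 1)} ∩ E s d₁ d₂ H c (kk m d₁ j) r

lemma F_meas {Ψ : ℂ → ℂ} (h : NM p (Q s d₁ d₂) Ψ H Hx Hy) (c : ℂ) (m : ℝ) (j : ℕ) (r : ℝ) :
    MeasurableSet (F s d₁ d₂ H c m j r) :=
  (Complex.measurable_im measurableSet_Iio).inter (E_meas h c _ r)

lemma F_disj (H : ℂ → ℂ) (c : ℂ) {m : ℝ} (h : d₁ < m) (r : ℝ) {i j : ℕ} (hij : i < j) :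
    Disjoint (F s d₁ d₂ H c m i r) (F s d₁ d₂ H c m j r) := by
  rw [Set.disjoint_left]
  intro z hz hz'
  have h1 : z.im < kk m d₁ (i + 1) := hz.1
  have h2 : kk m d₁ j < z.im := hz'.2.1
  have h3 := kk_mono h (show i + 1 ≤ j by omega)
  linarith

lemma layer (h : NM p (Q s d₁ d₂) (fun _ => 1) H Hx Hy) (hV : HAC (Q s d₁ d₂) H Hx)
    (hco : ContinuousOn H (Qc s d₁ d₂)) {c : ℂ} {m r : ℝ} (hd : d₁ < m)
    (hmd : m < d₂) (hright : ∀ v ∈ Icc d₁ d₂, r ≤ ‖H ⟨s, v⟩ - c‖)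
    (hl : ∀ v ∈ Ioo d₁ m, ∃ u ∈ Icc 0 s, H ⟨u, v⟩ = c) (j : ℕ) :
    ENNReal.ofReal r * ENNReal.ofReal (kk m d₁ (j + 1) - kk m d₁ j) ≤
      ∫⁻ z in F s d₁ d₂ H c m j r, ‖Hx z‖ₑ := by
  have hFm := F_meas h c m j r
  rw [Lines.lint_h_set hFm h.wd.mx.enorm]
  refine le_trans ?_ (mul_meas_ge_le_lintegral (Lines.meas_lint_h hFm h.wd.mx.enorm)
    (ENNReal.ofReal r))
  rw [← Real.volume_Ioo]
  gcongr ENNReal.ofReal r * ?_
  refine measure_mono_ae ?_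
  filter_upwards [hV] with v hv hvk
  have hv1 : kk m d₁ j < v := hvk.1
  have hv2 : v < kk m d₁ (j + 1) := hvk.2
  have hv3 : d₁ < v := (le_kk hd j).trans_lt hv1
  have hv4 : v < m := hv2.trans (kk_lt hd (j + 1))
  have hv5 : v < d₂ := hv4.trans hmd
  obtain ⟨u, hu, huc⟩ := hl v ⟨hv3, hv4⟩
  have hcu : ContinuousOn (fun t : ℝ => H ⟨t, v⟩) (Icc 0 s) := by
    refine hco.comp ?_ fun t ht => ⟨ht.1, ht.2, hv3.le, hv5.le⟩
    exact (Lines.continuous_mk.comp (continuous_id.prodMk continuous_const)).continuousOn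
  have h2 := Lines.cross_up (φ := fun t : ℝ => H ⟨t, v⟩) (ψ := fun t : ℝ => Hx ⟨t, v⟩) hcu
    (fun x y hx hxy hy => hv x y hxy fun t ht =>
      ⟨hx.trans_le ht.1, ht.2.trans_lt hy, hv3, hv5⟩) hu.1 hu.2 le_rfl (c := c)
    (α := 0) (β := r) (by simp [huc]) (hright v ⟨hv3.le, hv5.le⟩)
  rw [sub_zero] at h2
  refine h2.trans (lintegral_mono_set ?_)
  intro t ht
  exact ⟨hv2, hv1, ⟨hu.1.trans_lt ht.1.1, ht.1.2, hv3, hv5⟩, ht.2⟩

/-- the Jacobian mass of a layer -/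
lemma mass {C : ℝ} (hp : 1 < p) (hC : 0 < C) (hA : AlgC p C)
    (h : NM p (Q s d₁ d₂) (fun _ => 1) H Hx Hy) (hV : VAC (Q s d₁ d₂) H Hy)
    (hV' : HAC (Q s d₁ d₂) H Hx)
    (hco : ContinuousOn H (Qc s d₁ d₂)) {c : ℂ} {m : ℝ} (hs : 0 < s) (hd : d₁ < m)
    (hmd : m < d₂)
    (hright : ∀ v ∈ Icc d₁ d₂, H ⟨s, v⟩ ≠ c)
    (htop : ∀ u ∈ Icc 0 s, H ⟨u, d₂⟩ ≠ c)
    (hm : ∀ z : ℂ, 0 ≤ z.re → z.re ≤ s → d₁ ≤ z.im → z.im ≤ d₂ → H z = c → z.im ≤ m)
    (hl : ∀ v ∈ Ioo d₁ m, ∃ u ∈ Icc 0 s, H ⟨u, v⟩ = c) (j : ℕ) :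
    ∀ᶠ n : ℕ in atTop, ENNReal.ofReal (((1 / 2 : ℝ) ^ n) ^ 2) ≤
      ENNReal.ofReal ((2 * ((3 * C) ^ (1 / (2 * p / (p + 1))) * K2 p C)) ^ (2 * p / (p - 1))) *
      ∫⁻ z in F s d₁ d₂ H c m j ((1 / 2) ^ n), ENNReal.ofReal (jac (Hx z) (Hy z)) := by
  have hq := qq hp
  have hKr : IsCompact {z : ℂ | z ∈ Qc s d₁ d₂ ∧ z.re = s} :=
    (Qc_compact s d₁ d₂).inter_right (isClosed_eq Complex.continuous_re continuous_const)
  obtain ⟨ρ₀, hρ₀, hright'⟩ := compact_pos hKr (hco.mono fun z hz => hz.1) (c := c) (by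
    rintro z ⟨hz, hz2⟩
    have : z = ⟨s, z.im⟩ := by rw [← hz2]
    rw [this]
    exact hright _ ⟨hz.2.2.1, hz.2.2.2⟩)
  have hasym := asym hp hC hA h hV hco (c := c) (hd.trans hmd).le htop hm (kk_lt hd j)
  set P' : ℝ := 2 * p / (p + 1) with hP'
  set P : ℝ := 2 * p / (p - 1) with hP
  have hP'0 : 0 < P' := hq.pos
  have hP0 : 0 < P := hq.symm.pos
  set β : ℝ := 2 - P' with hβ
  have hK2 : 0 < K2 p C := K2_pos hC
  set μ : ℝ := m - kk m d₁ j with hμ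
  have hμ0 : 0 < μ := by have := kk_lt hd j; linarith
  set X : ℝ := (K2 p C * μ) ^ P' with hX
  have hXpos : 0 < X := by positivity
  -- `π r^2` is small against `X r^β`
  have hsmall : ∀ᶠ n : ℕ in atTop, ((1 / 2 : ℝ) ^ n) ^ 2 * Real.pi ≤ X * ((1 / 2 : ℝ) ^ n) ^ β := by
    have hlim : Tendsto (fun r : ℝ => Real.pi * r ^ P') (𝓝 0) (𝓝 0) := by
      have h2 : ContinuousAt (fun r : ℝ => Real.pi * r ^ P') 0 :=
        continuousAt_const.mul (Real.continuousAt_rpow_const 0 _ (Or.inr hP'0.le))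
      have h3 := h2.tendsto
      rw [Real.zero_rpow hP'0.ne', mul_zero] at h3
      exact h3
    have hlim2 := hlim.comp (tendsto_pow_atTop_nhds_zero_of_lt_one (r := (1 / 2 : ℝ))
      (by norm_num) (by norm_num))
    filter_upwards [hlim2.eventually_le_const hXpos] with n hn
    have hn' : Real.pi * ((1 / 2 : ℝ) ^ n) ^ P' ≤ X := hn
    have hρ : (0 : ℝ) < (1 / 2 : ℝ) ^ n := by positivity
    have h4 : ((1 / 2 : ℝ) ^ n) ^ 2 = ((1 / 2 : ℝ) ^ n) ^ P' * ((1 / 2 : ℝ) ^ n) ^ β := by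
      rw [← Real.rpow_add hρ, hβ, add_sub_cancel, Real.rpow_two]
    rw [h4]
    calc ((1 / 2 : ℝ) ^ n) ^ P' * ((1 / 2 : ℝ) ^ n) ^ β * Real.pi
        = (Real.pi * ((1 / 2 : ℝ) ^ n) ^ P') * ((1 / 2 : ℝ) ^ n) ^ β := by ring
      _ ≤ X * ((1 / 2 : ℝ) ^ n) ^ β := by gcongr
  filter_upwards [hasym, hsmall, half_eventually hρ₀] with n h1 h2 h3
  set ρ : ℝ := (1 / 2 : ℝ) ^ n with hρ
  have hρpos : 0 < ρ := by positivity
  have h4 := layer h hV' hco (c := c) (r := ρ) hd hmd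
    (fun v hv => h3.trans (hright' ⟨s, v⟩ ⟨⟨hs.le, le_rfl, hv.1, hv.2⟩, rfl⟩)) hl j
  have hFm := F_meas h c m j ρ
  have hFE : F s d₁ d₂ H c m j ρ ⊆ E s d₁ d₂ H c (kk m d₁ j) ρ := inter_subset_right
  have hFf : volume (F s d₁ d₂ H c m j ρ) ≠ ⊤ :=
    measure_ne_top_of_subset hFE (E_fin H c _ ρ)
  have h5 := int_Hx hp hC hA h c hρpos.le hFm (hFE.trans inter_subset_right) hFf
  rw [← hP', ← hP] at h5
  have h6 : volume.real (F s d₁ d₂ H c m j ρ) ≤ 2 * X * ρ ^ β :=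
    (measureReal_mono hFE (E_fin H c _ ρ)).trans h1
  have h7 : (C * (volume.real (F s d₁ d₂ H c m j ρ) + ρ ^ 2 * Real.pi)) ^ (1 / P') ≤
      (3 * C) ^ (1 / P') * (K2 p C * μ) * ρ ^ (β * (1 / P')) := by
    have h8 : C * (volume.real (F s d₁ d₂ H c m j ρ) + ρ ^ 2 * Real.pi) ≤
        (3 * C) * (X * ρ ^ β) := by
      have : volume.real (F s d₁ d₂ H c m j ρ) + ρ ^ 2 * Real.pi ≤ 3 * (X * ρ ^ β) := by
        linarith
      calc C * (volume.real (F s d₁ d₂ H c m j ρ) + ρ ^ 2 * Real.pi)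
          ≤ C * (3 * (X * ρ ^ β)) := mul_le_mul_of_nonneg_left this hC.le
        _ = (3 * C) * (X * ρ ^ β) := by ring
    refine (Real.rpow_le_rpow (by positivity) h8 (by positivity)).trans (le_of_eq ?_)
    rw [Real.mul_rpow (by positivity) (by positivity), Real.mul_rpow hXpos.le (by positivity),
      hX, ← Real.rpow_mul (by positivity), mul_one_div, div_self hP'0.ne', Real.rpow_one,
      ← Real.rpow_mul hρpos.le]
    ring
  set Z : ℝ≥0∞ := ∫⁻ z in F s d₁ d₂ H c m j ρ, ENNReal.ofReal (jac (Hx z) (Hy z)) with hZ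
  have h9 : ENNReal.ofReal (ρ * (μ / 2)) ≤
      ENNReal.ofReal ((3 * C) ^ (1 / P') * (K2 p C * μ) * ρ ^ (β * (1 / P'))) * Z ^ (1 / P) := by
    have h10 : kk m d₁ (j + 1) - kk m d₁ j = μ / 2 := by
      have := kk_step m d₁ j
      rw [← hμ] at this
      linarith
    rw [h10, ← ENNReal.ofReal_mul hρpos.le] at h4
    exact (h4.trans h5).trans (mul_le_mul' (ENNReal.ofReal_le_ofReal h7) le_rfl)
  -- divide
  have h10 : ENNReal.ofReal (ρ ^ (1 - β * (1 / P'))) ≤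
      ENNReal.ofReal (2 * ((3 * C) ^ (1 / P') * K2 p C)) * Z ^ (1 / P) := by
    set w : ℝ := (μ / 2) * ρ ^ (β * (1 / P')) with hw
    have hwpos : 0 < w := by positivity
    have h11 : ρ * (μ / 2) = w * ρ ^ (1 - β * (1 / P')) := by
      rw [hw, Real.rpow_sub hρpos, Real.rpow_one]
      field_simp
    have h12 : (3 * C) ^ (1 / P') * (K2 p C * μ) * ρ ^ (β * (1 / P')) =
        w * (2 * ((3 * C) ^ (1 / P') * K2 p C)) := by
      rw [hw]; ring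
    rw [h11, h12, ENNReal.ofReal_mul hwpos.le, ENNReal.ofReal_mul hwpos.le, mul_assoc] at h9
    exact (ENNReal.mul_le_mul_iff_right (by simpa using hwpos) ENNReal.ofReal_ne_top).1 h9
  have h13 := ENNReal.rpow_le_rpow h10 hP0.le
  rw [ENNReal.ofReal_rpow_of_nonneg (by positivity) hP0.le, ENNReal.mul_rpow_of_nonneg _ _ hP0.le,
    ENNReal.ofReal_rpow_of_nonneg (by positivity) hP0.le, ← ENNReal.rpow_mul,
    one_div_mul_cancel hP0.ne', ENNReal.rpow_one, ← Real.rpow_mul hρpos.le, id_two hp,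
    Real.rpow_two] at h13
  exact h13

end ATLM

open ATLM VLM in
theorem specATL (hA2 : SpecAlg2) (hACL : SpecACL) : SpecATL := by
  intro p hp s d₁ d₂ m H Hx Hy c hs hd hmd h hco hright htop hm hl
  obtain ⟨C, hC, hA⟩ := hA2 p hp
  have h : NM p (Q s d₁ d₂) (fun _ => 1) H Hx Hy := h
  obtain ⟨hV', hV⟩ := hACL _ H Hx Hy h.op h.co h.wd
  set W : ℝ := (2 * ((3 * C) ^ (1 / (2 * p / (p + 1))) * K2 p C)) ^ (2 * p / (p - 1)) with hW
  have hK2 : 0 < K2 p C := K2_pos hC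
  have hWpos : 0 < W := by positivity
  obtain ⟨N, hN⟩ := exists_nat_gt (W * Real.pi)
  have h1 : ∀ᶠ n : ℕ in atTop, ∀ j ∈ Finset.range N, ENNReal.ofReal (((1 / 2 : ℝ) ^ n) ^ 2) ≤
      ENNReal.ofReal W *
      ∫⁻ z in F s d₁ d₂ H c m j ((1 / 2) ^ n), ENNReal.ofReal (jac (Hx z) (Hy z)) :=
    (Filter.eventually_all_finset _).2 fun j _ =>
      mass hp hC hA h hV hV' hco hs hd hmd hright htop hm hl j
  obtain ⟨n, hn⟩ := h1.exists
  set ρ : ℝ := (1 / 2 : ℝ) ^ n with hρ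
  have hρpos : 0 < ρ := by positivity
  have h2 := Finset.sum_le_sum hn
  rw [Finset.sum_const, Finset.card_range, ← Finset.mul_sum, nsmul_eq_mul] at h2
  have h3 : ∑ j ∈ Finset.range N, ∫⁻ z in F s d₁ d₂ H c m j ρ,
      ENNReal.ofReal (jac (Hx z) (Hy z)) ≤ ENNReal.ofReal ρ ^ 2 * NNReal.pi := by
    rw [← lintegral_biUnion_finset]
    · refine int_jac h c ρ ?_ ?_
      · exact Finset.measurableSet_biUnion _ fun j _ => F_meas h c m j ρ
      · refine iUnion₂_subset fun j _ => ?_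
        exact inter_subset_right.trans inter_subset_right
    · intro i _ j _ hij
      rcases lt_or_gt_of_ne hij with hlt | hlt
      · exact F_disj H c hd ρ hlt
      · exact (F_disj H c hd ρ hlt).symm
    · exact fun j _ => F_meas h c m j ρ
  have h4 : (N : ℝ≥0∞) * ENNReal.ofReal (ρ ^ 2) ≤ ENNReal.ofReal W *
      (ENNReal.ofReal ρ ^ 2 * NNReal.pi) := h2.trans (mul_le_mul' le_rfl h3)
  have h5 : (N : ℝ≥0∞) * ENNReal.ofReal (ρ ^ 2) = ENNReal.ofReal ((N : ℝ) * ρ ^ 2) := by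
    rw [ENNReal.ofReal_mul (by positivity), ENNReal.ofReal_natCast]
  have h6 : ENNReal.ofReal W * (ENNReal.ofReal ρ ^ 2 * NNReal.pi) =
      ENNReal.ofReal (W * (ρ ^ 2 * Real.pi)) := by
    rw [ENNReal.ofReal_mul hWpos.le, ENNReal.ofReal_mul (by positivity),
      ENNReal.ofReal_pow hρpos.le]
    congr 2
    rw [← NNReal.coe_real_pi, ENNReal.ofReal_coe_nnreal]
  rw [h5, h6, ENNReal.ofReal_le_ofReal_iff (by positivity)] at h4
  have h7 : ρ ^ 2 * (N : ℝ) ≤ ρ ^ 2 * (W * Real.pi) := by linarith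
  have h8 := le_of_mul_le_mul_left h7 (by positivity)
  linarith

end MPfa
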