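import Pool.Agent.Lib.MP_fa0334_an.Bump

/-!
Problem MP_fa0334_an: module BF (no point of the disc is mapped to the boundary of `Y`).
-/

set_option autoImplicit false

open MeasureTheory Set Filter Topology Metric Complex
open scoped ContDiff ENNReal ComplexConjugate

namespace MPfa

/-- the chart rotated by `-1` -/
theorem Chart.neg0 {D : Set ℂ} {Ψ : ℂ → ℂ} {o : ℂ} {r : ℝ} {g : ℂ → ℂ}
    (h : Chart D Ψ 0 o r g) : Chart D Ψ 0 o r (fun ζ => g (-ζ)) := by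
  have hb : ∀ ζ ∈ ball (0 : ℂ) r, -ζ ∈ ball (0 : ℂ) r := by
    intro ζ hζ
    rw [mem_ball_zero_iff] at hζ ⊢
    rwa [norm_neg]
  refine ⟨h.r0, ?_, ?_, ?_, by simpa using h.z, ?_, ?_⟩
  · exact h.d.comp differentiableOn_id.neg hb
  · intro a ha b hb' hab
    have := h.inj (hb a ha) (hb b hb') hab
    exact neg_injective this
  · intro ζ hζ
    exact h.maps (hb ζ hζ)
  · intro w hw
    rw [deriv_comp_neg]
    exact neg_ne_zero.2 (h.nd _ (hb w hw))
  · intro w hw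
    rw [deriv_comp_neg]
    have := h.eq (-w) (hb w hw)
    simpa using this

/-- the core of the argument, when the value above the arc is at least `1/2` -/
theorem bf_core (hOde : SpecOde) (hYmax : SpecYmax)
    {Ψ H : ℂ → ℂ} {c o : ℂ} {r l l' l₀ R₀ : ℝ} {g : ℂ → ℂ} {Γ : Set ℂ} {W : ℂ → ℝ}
    (hH : ContinuousOn H (ball 0 1)) (hΨ : DifferentiableOn ℂ Ψ (ball 0 1))
    (hΨ0 : ∃ z ∈ ball (0 : ℂ) 1, Ψ z ≠ 0) (hSc : Sat (ball 0 1) Ψ H c)
    (hg : Chart (ball 0 1) Ψ 0 o r g) (hl : 0 < l) (hl' : 0 < l') (hll : l < l₀) (hll' : l' < l₀)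
    (hl₀r : l₀ ≤ r)
    (hHor : ∀ l > 0, ∀ y : ℂ → ℂ,
      Sol (ball 0 1) Ψ l y → (l : ℂ) * y o = I * (deriv y o * deriv g 0) →
      ∀ x : ℝ, |x| < l₀ → ∀ᶠ v : ℝ in 𝓝[>] 0, ‖y (g x)‖ < ‖y (g (x + v * I))‖)
    (hoc : H o = c) (hc1 : H (g l') ≠ c) (hc2 : H (g (-l : ℝ)) ≠ c)
    (hΓH : ∀ z ∈ Γ, H z ≠ c) (hR₀ : R₀ < 1)
    (hW1 : ∀ z, z ∉ (fun x : ℝ => g x) '' Icc (-l) l' ∪ Γ → ∀ᶠ z' in 𝓝 z, W z' = W z)
    (hW2 : ∀ z, R₀ < ‖z‖ → W z = 0)
    (hW3 : ∀ x ∈ Ioo (-l) l', g x ∉ Γ → ∃ ε > 0, ∃ m : ℝ,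
      (∀ ζ ∈ ball (x : ℂ) ε, 0 < ζ.im → W (g ζ) = m) ∧
      (∀ ζ ∈ ball (x : ℂ) ε, ζ.im < 0 → W (g ζ) = m - 1))
    (hm : ∃ ε > 0, ∀ ζ ∈ ball (0 : ℂ) ε, 0 < ζ.im → 1 / 2 ≤ W (g ζ)) : False := by
  have hlr : l < r := lt_of_lt_of_le hll hl₀r
  have hl'r : l' < r := lt_of_lt_of_le hll' hl₀r
  set σ : Set ℂ := (fun x : ℝ => g x) '' Icc (-l) l' with hσ
  have hreal : ∀ x ∈ Icc (-l) l', ((x : ℝ) : ℂ) ∈ ball (0 : ℂ) r := by
    intro x hx
    rw [mem_ball_zero_iff, Complex.norm_real, Real.norm_eq_abs, abs_lt]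
    constructor <;> linarith [hx.1, hx.2]
  have hσc : IsCompact σ := by
    refine isCompact_Icc.image_of_continuousOn ?_
    refine hg.d.continuousOn.comp Complex.continuous_ofReal.continuousOn ?_
    intro x hx
    exact hreal x hx
  set C : Set ℂ := {z | z ∈ ball (0 : ℂ) 1 ∧ H z = c} with hC
  set C' : Set ℂ := {z | z ∈ C ∧ z ∉ σ ∧ 1 / 2 ≤ W z} ∪
    {z | z ∈ C ∧ ∃ x ∈ Ioo (-l) l', z = g (x : ℝ) ∧ ∃ ε > 0, ∀ ζ ∈ ball (x : ℂ) ε, 0 < ζ.im →
      1 / 2 ≤ W (g ζ)} with hC'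
  have hC'C : C' ⊆ C := by
    rintro z (hz | hz)
    · exact hz.1
    · exact hz.1
  have hgc : ∀ x ∈ Icc (-l) l', ContinuousAt g ((x : ℝ) : ℂ) := fun x hx =>
    (hg.d.differentiableAt (isOpen_ball.mem_nhds (hreal x hx))).continuousAt
  -- approach a point of the arc from above
  have habove : ∀ (x : ℝ) (ε : ℝ), 0 < ε → ∃ ζ : ℂ, ζ ∈ ball (x : ℂ) ε ∧ 0 < ζ.im := by
    intro x ε hε
    refine ⟨(x : ℂ) + ((ε / 2 : ℝ) : ℂ) * I, ?_, by simp; linarith⟩
    rw [mem_ball, dist_eq_norm, add_sub_cancel_left, norm_mul, Complex.norm_I, mul_one,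
      Complex.norm_real, Real.norm_eq_abs, abs_of_pos (by linarith)]
    linarith
  have hbd : ∀ z ∈ C', ‖z‖ ≤ R₀ := by
    rintro z (hz | hz)
    · by_contra hcon
      push Not at hcon
      have := hW2 z hcon
      linarith [hz.2.2]
    · obtain ⟨hzC, x, hx, rfl, ε, hε, hb⟩ := hz
      by_contra hcon
      push Not at hcon
      have h1 : ∀ᶠ ζ in 𝓝 ((x : ℝ) : ℂ), R₀ < ‖g ζ‖ := by
        have h2 : ContinuousAt (fun ζ => ‖g ζ‖) ((x : ℝ) : ℂ) :=
          (hgc x ⟨hx.1.le, hx.2.le⟩).norm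
        exact h2.eventually (lt_mem_nhds hcon)
      obtain ⟨ε', hε', hb'⟩ := Metric.eventually_nhds_iff_ball.1 h1
      obtain ⟨ζ, hζ, hζi⟩ := habove x (min ε ε') (lt_min hε hε')
      have h3 := hb ζ (ball_subset_ball (min_le_left _ _) hζ) hζi
      have h4 := hW2 _ (hb' ζ (ball_subset_ball (min_le_right _ _) hζ))
      linarith
  have hclosed : IsClosed C' := by
    refine isClosed_of_closure_subset fun z hz => ?_
    have hzR : ‖z‖ ≤ R₀ := by
      have : closure C' ⊆ closedBall (0 : ℂ) R₀ := by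
        refine closure_minimal ?_ isClosed_closedBall
        intro w hw
        rw [mem_closedBall_zero_iff]
        exact hbd w hw
      have := this hz
      rwa [mem_closedBall_zero_iff] at this
    have hz1 : z ∈ ball (0 : ℂ) 1 := by
      rw [mem_ball_zero_iff]
      linarith
    have hfr : ∃ᶠ w in 𝓝 z, w ∈ C' := mem_closure_iff_frequently.1 hz
    have hHz : H z = c := by
      by_contra hne
      have h1 : ∀ᶠ w in 𝓝 z, H w ≠ c :=
        (hH.continuousAt (isOpen_ball.mem_nhds hz1)).eventually (isOpen_ne.mem_nhds hne)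
      obtain ⟨w, hw, hw'⟩ := (hfr.and_eventually h1).exists
      exact hw' (hC'C hw).2
    have hzC : z ∈ C := ⟨hz1, hHz⟩
    have hzΓ : z ∉ Γ := fun h => hΓH z h hHz
    by_cases hzσ : z ∈ σ
    · obtain ⟨x, hx, hxz⟩ := hzσ
      have hx' : x ∈ Ioo (-l) l' := by
        refine ⟨lt_of_le_of_ne hx.1 ?_, lt_of_le_of_ne hx.2 ?_⟩
        · rintro rfl
          apply hc2
          simp only at hxz
          rw [hxz]
          exact hHz
        · rintro rfl
          apply hc1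
          simp only at hxz
          rw [hxz]
          exact hHz
      simp only at hxz
      have hxΓ : g x ∉ Γ := by rwa [hxz]
      obtain ⟨ε, hε, m, hup, hlo⟩ := hW3 x hx' hxΓ
      by_cases hm2 : 1 / 2 ≤ m
      · right
        refine ⟨hzC, x, hx', hxz.symm, ε, hε, fun ζ hζ hζi => ?_⟩
        rw [hup ζ hζ hζi]
        exact hm2
      · exfalso
        push Not at hm2
        obtain ⟨ε₁, hε₁, hb₁⟩ := Metric.isOpen_iff.1 isOpen_ball _ (hreal x hx)
        set ε₂ := min ε ε₁ with hε₂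
        have hε₂0 : 0 < ε₂ := lt_min hε hε₁
        have hopen : IsOpen (g '' ball ((x : ℝ) : ℂ) ε₂) :=
          hg.image_open isOpen_ball
            ((ball_subset_ball (min_le_right _ _)).trans hb₁)
        have hmem : g '' ball ((x : ℝ) : ℂ) ε₂ ∈ 𝓝 z :=
          hopen.mem_nhds ⟨x, mem_ball_self hε₂0, hxz⟩
        obtain ⟨w, hw, ζ, hζ, rfl⟩ := (hfr.and_eventually hmem).exists
        have hζε : ζ ∈ ball ((x : ℝ) : ℂ) ε := ball_subset_ball (min_le_left _ _) hζ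
        have hζr : ζ ∈ ball (0 : ℂ) r := hb₁ (ball_subset_ball (min_le_right _ _) hζ)
        rcases lt_trichotomy ζ.im 0 with hi | hi | hi
        · rcases hw with hw | hw
          · have := hlo ζ hζε hi
            linarith [hw.2.2]
          · obtain ⟨-, x', hx', hxe, -⟩ := hw
            have := hg.inj hζr (hreal x' ⟨hx'.1.le, hx'.2.le⟩) hxe
            rw [this] at hi
            simp at hi
        · -- real point
          have hζx : ζ = ((ζ.re : ℝ) : ℂ) := by apply Complex.ext <;> simp [hi]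
          rcases hw with hw | hw
          · -- then `g ζ ∈ σ` or not: use the nearby points
            have h5 : g ζ ∉ σ ∪ Γ := by
              rintro (h | h)
              · exact hw.2.1 h
              · exact hΓH _ h hw.1.2
            have h6 := hW1 _ h5
            have hcζ : ContinuousAt g ζ :=
              (hg.d.differentiableAt (isOpen_ball.mem_nhds hζr)).continuousAt
            have h7 := hcζ.eventually h6
            obtain ⟨ε₃, hε₃, hb₃⟩ := Metric.eventually_nhds_iff_ball.1 h7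
            obtain ⟨ε₄, hε₄, hb₄⟩ := Metric.isOpen_iff.1 isOpen_ball _ hζε
            obtain ⟨ζ', hζ', hζ'i⟩ := habove ζ.re (min ε₃ ε₄) (lt_min hε₃ hε₄)
            rw [← hζx] at hζ'
            have h8 := hb₃ ζ' (ball_subset_ball (min_le_left _ _) hζ')
            have h9 := hup ζ' (hb₄ (ball_subset_ball (min_le_right _ _) hζ')) hζ'i
            have h10 := hw.2.2
            rw [h8] at h9
            linarith
          · obtain ⟨-, x', hx', hxe, ε₃, hε₃, hb₃⟩ := hw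
            have h5 := hg.inj hζr (hreal x' ⟨hx'.1.le, hx'.2.le⟩) hxe
            obtain ⟨ε₄, hε₄, hb₄⟩ := Metric.isOpen_iff.1 isOpen_ball _ hζε
            obtain ⟨ζ', hζ', hζ'i⟩ := habove x' (min ε₃ ε₄) (lt_min hε₃ hε₄)
            have h8 := hb₃ ζ' (ball_subset_ball (min_le_left _ _) hζ') hζ'i
            rw [← h5] at hζ'
            have h9 := hup ζ' (hb₄ (ball_subset_ball (min_le_right _ _) hζ')) hζ'i
            linarith
        · rcases hw with hw | hw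
          · have := hup ζ hζε hi
            linarith [hw.2.2]
          · obtain ⟨-, x', hx', hxe, -⟩ := hw
            have := hg.inj hζr (hreal x' ⟨hx'.1.le, hx'.2.le⟩) hxe
            rw [this] at hi
            simp at hi
    · left
      refine ⟨hzC, hzσ, ?_⟩
      have h1 := hW1 z (by rintro (h | h); exacts [hzσ h, hzΓ h])
      have h2 : ∀ᶠ w in 𝓝 z, w ∉ σ := hσc.isClosed.isOpen_compl.mem_nhds hzσ
      obtain ⟨w, hw, hw1, hw2⟩ := (hfr.and_eventually (h1.and h2)).exists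
      rcases hw with hw | hw
      · rw [← hw1]
        exact hw.2.2
      · exfalso
        obtain ⟨-, x', hx', hxe, -⟩ := hw
        exact hw2 ⟨x', ⟨hx'.1.le, hx'.2.le⟩, hxe.symm⟩
  have hcomp : IsCompact C' := by
    refine Metric.isCompact_of_isClosed_isBounded hclosed ?_
    refine (Metric.isBounded_closedBall (x := (0 : ℂ)) (r := R₀)).subset ?_
    intro z hz
    rw [mem_closedBall_zero_iff]
    exact hbd z hz
  have hsatC : ∀ t ∈ C, ∀ (k : ℕ) (r : ℝ) (g : ℂ → ℂ), Chart (ball 0 1) Ψ k t r g →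
      ∃ r₁ > 0, r₁ ≤ r ∧ ∀ w ∈ ball (0 : ℂ) r₁, (w ^ (k + 2)).im = 0 → (w ^ (k + 2)).re ≤ 0 →
        g w ∈ C := by
    intro t ht k r g hg
    obtain ⟨r₁, hr₁, hr₁r, hh⟩ := hSc t ht.1 ht.2 k r g hg
    refine ⟨r₁, hr₁, hr₁r, fun w hw h1 h2 => ⟨hg.maps (ball_subset_ball hr₁r hw), hh w hw h1 h2⟩⟩
  have hΨσ : ∀ t ∈ σ, Ψ t ≠ 0 := by
    rintro _ ⟨x, hx, rfl⟩ h0
    have := hg.eq x (hreal x hx)
    simp only at h0
    rw [h0] at this
    simp at this
  obtain ⟨l₁, hl₁, hY⟩ := hYmax (ball 0 1) Ψ C C' σ isOpen_ball (convex_ball _ _).isPreconnected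
    hΨ hΨ0 (fun z hz => hz.1) hsatC hC'C hcomp (by
      rintro t ⟨ht, htσ⟩
      have htC := hC'C ht
      have htΓ : t ∉ Γ := fun h => hΓH t h htC.2
      have h1 := hW1 t (by rintro (h | h); exacts [htσ h, htΓ h])
      have h2 : ∀ᶠ w in 𝓝 t, w ∉ σ := hσc.isClosed.isOpen_compl.mem_nhds htσ
      have h3 : 1 / 2 ≤ W t := by
        rcases ht with ht | ht
        · exact ht.2.2
        · exfalso
          obtain ⟨-, x', hx', hxe, -⟩ := ht
          exact htσ ⟨x', ⟨hx'.1.le, hx'.2.le⟩, hxe.symm⟩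
      refine ⟨_, h1.and h2, ?_⟩
      rintro w ⟨hw, hw1, hw2⟩
      left
      refine ⟨hw, hw2, ?_⟩
      rw [hw1]
      exact h3) hΨσ
  set L : ℝ := max l₁ 1 with hL
  have hL1 : 1 ≤ L := le_max_right _ _
  have hL0 : 0 < L := by linarith
  have hg0 : deriv g 0 ≠ 0 := hg.nd 0 (mem_ball_self hg.r0)
  have ho1 : o ∈ ball (0 : ℂ) 1 := by
    have := hg.maps (mem_ball_self hg.r0)
    rwa [hg.z] at this
  obtain ⟨y, hy, hyo, hyo'⟩ := hOde Ψ L o 1 ((L : ℂ) / (I * deriv g 0)) hΨ ho1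
    (Or.inl one_ne_zero)
  have hYy := hY L (le_max_left _ _) y hy
  have hHy := hHor L hL0 y hy (by
    rw [hyo, hyo']
    field_simp)
  have hoC : o ∈ C' := by
    right
    refine ⟨⟨ho1, hoc⟩, 0, ⟨by linarith, hl'⟩, by simpa using hg.z.symm, ?_⟩
    obtain ⟨ε, hε, hh⟩ := hm
    refine ⟨ε, hε, fun ζ hζ hi => hh ζ (by simpa using hζ) hi⟩
  obtain ⟨t, ht, htmax⟩ := hcomp.exists_isMaxOn ⟨o, hoC⟩ (f := fun z => ‖y z‖) (by
    refine (hy.d.continuousOn.mono ?_).norm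
    intro z hz
    exact (hC'C hz).1)
  have htσ : t ∈ σ := by
    by_contra hcon
    obtain ⟨s, hs, hlt⟩ := hYy t ⟨ht, hcon⟩
    have : ‖y s‖ ≤ ‖y t‖ := htmax hs
    linarith
  rcases ht with ht' | ht'
  · exact ht'.2.1 htσ
  obtain ⟨htC, x, hx, rfl, ε, hε, hb⟩ := ht'
  have hxr := hreal x ⟨hx.1.le, hx.2.le⟩
  have hxn : ‖((x : ℝ) : ℂ)‖ < r := by rwa [mem_ball_zero_iff] at hxr
  have hch := hg.shift hxn
  obtain ⟨r₁, hr₁, hr₁r, hh⟩ := hSc _ htC.1 htC.2 0 _ _ hch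
  have habs : |x| < l₀ := abs_lt.2 ⟨by linarith [hx.1], by linarith [hx.2]⟩
  have h1 := hHy x habs
  have h2 : ∀ᶠ v : ℝ in 𝓝[>] 0, v ∈ Ioo 0 (min ε r₁) := Ioo_mem_nhdsGT (lt_min hε hr₁)
  obtain ⟨v, hv1, hv2⟩ := (h1.and h2).exists
  have hv0 : 0 < v := hv2.1
  have hvε : v < ε := lt_of_lt_of_le hv2.2 (min_le_left _ _)
  have hvr : v < r₁ := lt_of_lt_of_le hv2.2 (min_le_right _ _)
  have hnorm : ‖((v : ℝ) : ℂ) * I‖ = v := by
    rw [norm_mul, Complex.norm_I, mul_one, Complex.norm_real, Real.norm_eq_abs, abs_of_pos hv0]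
  have h3 : H (g (x + v * I)) = c := hh (v * I) (by rw [mem_ball_zero_iff, hnorm]; exact hvr)
    (by simp [pow_two]) (by simp [pow_two]; nlinarith)
  have hmemr : (x : ℂ) + v * I ∈ ball (0 : ℂ) r := by
    rw [mem_ball_zero_iff]
    calc ‖(x : ℂ) + v * I‖ ≤ ‖(x : ℂ)‖ + ‖(v : ℂ) * I‖ := norm_add_le _ _
      _ < r := by rw [hnorm]; linarith
  have h4 : g (x + v * I) ∈ C' := by
    left
    refine ⟨⟨hg.maps hmemr, h3⟩, ?_, ?_⟩
    · rintro ⟨x', hx', hxe⟩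
      have := hg.inj (hreal x' hx') hmemr hxe
      have h5 := congrArg Complex.im this
      simp at h5
      linarith
    · refine hb _ ?_ (by simpa using hv0)
      rw [mem_ball, dist_eq_norm, add_sub_cancel_left, hnorm]
      exact hvε
  have h5 : ‖y (g (x + v * I))‖ ≤ ‖y (g x)‖ := htmax h4
  linarith

theorem specBF (hSat : SpecSat) (hChart : SpecChart) (hOde : SpecOde) (hYmax : SpecYmax)
    (hHor : SpecHor) (hSep : SpecSep) : SpecBF := by
  intro p hp Y Ψ H Hx Hy hN hΨ hΨ0 hYo hHY hYf hpre hFat o₀ ho₀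
  by_contra hcon
  set c := H o₀ with hc
  have hcF : c ∈ frontier Y := by
    rw [hYo.frontier_eq]
    exact ⟨hHY ho₀, hcon⟩
  have hcY : c ∉ Y := hcon
  have hS : ∀ c ∈ frontier Y, Sat (ball 0 1) Ψ H c := fun c hc =>
    hSat p hp _ _ _ _ _ c hN (hFat c hc)
  have hpc : IsPreconnected (ball (0 : ℂ) 1) := (convex_ball _ _).isPreconnected
  obtain ⟨k, r, g, hg, -⟩ := hChart (ball 0 1) Ψ o₀ isOpen_ball hpc hΨ hΨ0 ho₀
  obtain ⟨r₁, hr₁, hr₁r, hSg⟩ := hS c hcF o₀ ho₀ rfl k r g hg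
  -- a point of the fibre at which `Ψ ≠ 0`
  obtain ⟨o, ho1, hoc, hΨo⟩ : ∃ o ∈ ball (0 : ℂ) 1, H o = c ∧ Ψ o ≠ 0 := by
    set w : ℂ := ((r₁ / 2 : ℝ) : ℂ) * Complex.exp (Real.pi * I / (k + 2)) with hw
    have hk : ((k : ℂ) + 2) ≠ 0 := by
      have : ((k : ℂ) + 2) = ((k + 2 : ℕ) : ℂ) := by push_cast; ring
      rw [this, Nat.cast_ne_zero]
      omega
    have hexp : Complex.exp (Real.pi * I / (k + 2)) ^ (k + 2) = -1 := by
      rw [← Complex.exp_nat_mul]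
      have : ((k + 2 : ℕ) : ℂ) * (Real.pi * I / (k + 2)) = Real.pi * I := by
        push_cast
        field_simp
      rw [this, Complex.exp_pi_mul_I]
    have hwp : w ^ (k + 2) = ((-(r₁ / 2) ^ (k + 2) : ℝ) : ℂ) := by
      rw [hw, mul_pow, hexp]
      push_cast
      ring
    have hnorm : ‖w‖ = r₁ / 2 := by
      rw [hw, norm_mul, Complex.norm_real, Real.norm_eq_abs, abs_of_pos (by linarith)]
      have : (Real.pi * I / (k + 2) : ℂ) = ((Real.pi / (k + 2) : ℝ) : ℂ) * I := by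
        push_cast
        ring
      rw [this, Complex.norm_exp_ofReal_mul_I, mul_one]
    have hwm : w ∈ ball (0 : ℂ) r₁ := by
      rw [mem_ball_zero_iff, hnorm]
      linarith
    have hw0 : w ≠ 0 := by
      intro h
      rw [h, norm_zero] at hnorm
      linarith
    refine ⟨g w, hg.maps (ball_subset_ball hr₁r hwm), hSg w hwm ?_ ?_, ?_⟩
    · rw [hwp, Complex.ofReal_im]
    · rw [hwp, Complex.ofReal_re]
      have : 0 < (r₁ / 2) ^ (k + 2) := by positivity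
      linarith
    · intro h0
      have h1 := hg.eq w (ball_subset_ball hr₁r hwm)
      rw [h0, zero_mul] at h1
      have h2 : (((k : ℂ) + 2) / 2) ^ 2 * w ^ k ≠ 0 := by
        refine mul_ne_zero (pow_ne_zero _ (div_ne_zero hk two_ne_zero)) (pow_ne_zero _ hw0)
      exact h2 h1.symm
  clear hSg hg g hr₁r hr₁ r₁ r k
  obtain ⟨k, r, g, hg, hk0⟩ := hChart (ball 0 1) Ψ o isOpen_ball hpc hΨ hΨ0 ho1
  have hk := hk0 hΨo
  subst hk
  obtain ⟨l₀, hl₀, hl₀r, hHorg⟩ := hHor (ball 0 1) Ψ o r g isOpen_ball hΨ hg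
  obtain ⟨l₀', hl₀', hl₀'r, hHorg'⟩ := hHor (ball 0 1) Ψ o r (fun ζ => g (-ζ)) isOpen_ball hΨ
    hg.neg0
  set δ : ℝ := min l₀ l₀' / 2 with hδ
  have hmin : 0 < min l₀ l₀' := lt_min hl₀ hl₀'
  have hδ0 : 0 < δ := by positivity
  have hδ1 : δ < l₀ := by
    have := min_le_left l₀ l₀'
    linarith
  have hδ2 : δ < l₀' := by
    have := min_le_right l₀ l₀'
    linarith
  obtain ⟨l', hl', hHl'⟩ := specLR p hp (ball 0 1) Y Ψ H Hx Hy o r g hN hHY hYo hYf hS hg δ hδ0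
    (lt_of_lt_of_le hδ1 hl₀r)
  obtain ⟨l, hl, hHl⟩ := specLR p hp (ball 0 1) Y Ψ H Hx Hy o r (fun ζ => g (-ζ)) hN hHY hYo hYf
    hS hg.neg0 δ hδ0 (lt_of_lt_of_le hδ1 hl₀r)
  replace hHl : H (g ((-l : ℝ) : ℂ)) ∈ Y := by
    rw [Complex.ofReal_neg]
    exact hHl
  set U : Set ℂ := {z : ℂ | z ∈ ball (0 : ℂ) 1 ∧ H z ∈ Y} with hU
  have hUo : IsOpen U := by
    have := hN.co.isOpen_inter_preimage isOpen_ball hYo
    exact this
  have hlr : l < r := by linarith [hl.2]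
  have hl'r : l' < r := by linarith [hl'.2]
  have hmem : ∀ x : ℝ, |x| < r → ((x : ℝ) : ℂ) ∈ ball (0 : ℂ) r := by
    intro x hx
    rwa [mem_ball_zero_iff, Complex.norm_real, Real.norm_eq_abs]
  have hgl' : g (l' : ℝ) ∈ U :=
    ⟨hg.maps (hmem l' (by rw [abs_of_pos hl'.1]; exact hl'r)), hHl'⟩
  have hgl : g ((-l : ℝ) : ℂ) ∈ U :=
    ⟨hg.maps (hmem (-l) (by rw [abs_neg, abs_of_pos hl.1]; exact hlr)), hHl⟩
  obtain ⟨Γ, hΓU, hΓc, W, R₀, hR₀, hW1, hW2, hW3⟩ := hSep r l l' g U hl.1 hl'.1 hlr hl'r hg.d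
    hg.inj hg.nd hg.maps hUo hpre (fun z hz => hz.1) hgl' hgl
  have hΓH : ∀ z ∈ Γ, H z ≠ c := fun z hz h => hcY (h ▸ (hΓU hz).2)
  have h0Γ : g ((0 : ℝ) : ℂ) ∉ Γ := by
    intro h
    have := hΓH _ h
    rw [Complex.ofReal_zero, hg.z] at this
    exact this hoc
  have hc1 : H (g l') ≠ c := fun h => hcY (h ▸ hHl')
  have hc2 : H (g (-l : ℝ)) ≠ c := fun h => hcY (h ▸ hHl)
  obtain ⟨ε, hε, m, hup, hlo⟩ := hW3 0 ⟨by linarith [hl.1], hl'.1⟩ h0Γ
  by_cases hm : 1 / 2 ≤ m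
  · refine bf_core hOde hYmax hN.co hΨ hΨ0 (hS c hcF) hg hl.1 hl'.1 (by linarith [hl.2])
      (by linarith [hl'.2]) hl₀r hHorg hoc hc1 hc2 hΓH hR₀ hW1 hW2 hW3 ⟨ε, hε, fun ζ hζ hi => ?_⟩
    rw [hup ζ (by simpa using hζ) hi]
    exact hm
  · push Not at hm
    have himg : (fun x : ℝ => (fun ζ => g (-ζ)) (x : ℂ)) '' Icc (-l') l =
        (fun x : ℝ => g x) '' Icc (-l) l' := by
      ext z
      constructor
      · rintro ⟨x, hx, rfl⟩
        exact ⟨-x, ⟨by linarith [hx.2], by linarith [hx.1]⟩, by simp⟩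
      · rintro ⟨x, hx, rfl⟩
        exact ⟨-x, ⟨by linarith [hx.2], by linarith [hx.1]⟩, by simp⟩
    refine bf_core (W := fun z => - W z) (Γ := Γ) (R₀ := R₀) hOde hYmax hN.co hΨ hΨ0 (hS c hcF)
      hg.neg0 hl'.1 hl.1 (by linarith [hl'.2]) (by linarith [hl.2]) hl₀'r hHorg' hoc ?_ ?_ hΓH hR₀
      ?_ ?_ ?_ ⟨ε, hε, fun ζ hζ hi => ?_⟩
    · rw [← Complex.ofReal_neg]
      exact hc2
    · rw [Complex.ofReal_neg, neg_neg]
      exact hc1
    · intro z hz
      rw [himg] at hz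
      filter_upwards [hW1 z hz] with z' hz'
      rw [hz']
    · intro z hz
      simp [hW2 z hz]
    · intro x hx hxΓ
      rw [← Complex.ofReal_neg] at hxΓ
      obtain ⟨ε', hε', m', hup', hlo'⟩ := hW3 (-x) ⟨by linarith [hx.2], by linarith [hx.1]⟩ hxΓ
      have hball : ∀ ζ ∈ ball (x : ℂ) ε', -ζ ∈ ball (((-x : ℝ)) : ℂ) ε' := by
        intro ζ hζ
        rw [mem_ball, dist_eq_norm] at hζ ⊢
        rw [Complex.ofReal_neg, ← norm_neg]
        have h5 : -(-ζ - -(x : ℂ)) = ζ - (x : ℂ) := by ring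
        rw [h5]
        exact hζ
      refine ⟨ε', hε', 1 - m', fun ζ hζ hi => ?_, fun ζ hζ hi => ?_⟩
      · have := hlo' (-ζ) (hball ζ hζ) (by simpa using hi)
        simp only [this]
        ring
      · have := hup' (-ζ) (hball ζ hζ) (by simpa using hi)
        simp only [this]
        ring
    · have h1 := hlo (-ζ) (by simpa using hζ) (by simpa using hi)
      simp only [h1]
      linarith

end MPfa
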