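import Pool.Agent.Lib.MP_fa0334_an.Spec

/-!
Problem MP_fa0334_an: the equation `y'' = -l² Ψ y` in a natural chart (used in CVX, HOR, ZG).
-/

set_option autoImplicit false

open MeasureTheory Set Filter Topology Metric Complex
open scoped ContDiff ENNReal ComplexConjugate

namespace MPfa

namespace CO

/-- `g''/g'` -/
noncomputable def qh (g : ℂ → ℂ) (w : ℂ) : ℂ := deriv (deriv g) w / deriv g w

/-- derivative of `y ∘ g` -/
noncomputable def A (g y : ℂ → ℂ) (w : ℂ) : ℂ := deriv y (g w) * deriv g w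

variable {D : Set ℂ} {Ψ : ℂ → ℂ} {k : ℕ} {t : ℂ} {r l : ℝ} {g y : ℂ → ℂ} {w : ℂ}

lemma hg (hc : Chart D Ψ k t r g) (hw : w ∈ ball (0 : ℂ) r) : HasDerivAt g (deriv g w) w :=
  (hc.d.differentiableAt (isOpen_ball.mem_nhds hw)).hasDerivAt

lemma hdg (hc : Chart D Ψ k t r g) (hw : w ∈ ball (0 : ℂ) r) :
    HasDerivAt (deriv g) (deriv (deriv g) w) w :=
  ((hc.d.deriv isOpen_ball).differentiableAt (isOpen_ball.mem_nhds hw)).hasDerivAt

lemma hu (hD : IsOpen D) (hc : Chart D Ψ k t r g) (hy : Sol D Ψ l y) (hw : w ∈ ball (0 : ℂ) r) :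
    HasDerivAt (fun w => y (g w)) (A g y w) w := by
  have h1 : HasDerivAt y (deriv y (g w)) (g w) :=
    (hy.d.differentiableAt (hD.mem_nhds (hc.maps hw))).hasDerivAt
  exact h1.comp w (hg hc hw)

lemma hA (hD : IsOpen D) (hc : Chart D Ψ k t r g) (hy : Sol D Ψ l y) (hw : w ∈ ball (0 : ℂ) r) :
    HasDerivAt (A g y) (-(l : ℂ) ^ 2 * ((((k : ℂ) + 2) / 2) ^ 2 * w ^ k) * y (g w)
      + qh g w * A g y w) w := by
  have h1 : HasDerivAt (deriv y) (deriv (deriv y) (g w)) (g w) :=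
    ((hy.d.deriv hD).differentiableAt (hD.mem_nhds (hc.maps hw))).hasDerivAt
  have h2 := (h1.comp w (hg hc hw)).mul (hdg hc hw)
  refine h2.congr_deriv ?_
  have hne := hc.nd w hw
  simp only [qh, A, Function.comp]
  rw [hy.eq _ (hc.maps hw), ← hc.eq w hw]
  field_simp

lemma nz (hc : Chart D Ψ k t r g) (hy : Sol D Ψ l y) (hw : w ∈ ball (0 : ℂ) r) :
    y (g w) ≠ 0 ∨ A g y w ≠ 0 := by
  rcases hy.nz _ (hc.maps hw) with h | h
  · exact Or.inl h
  · exact Or.inr (mul_ne_zero h (hc.nd w hw))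

/-- the derivative of `Ψ` in the chart -/
lemma dPsi (hD : IsOpen D) (hΨ : DifferentiableOn ℂ Ψ D) (hc : Chart D Ψ k t r g)
    (hw : w ∈ ball (0 : ℂ) r) :
    deriv Ψ (g w) * deriv g w ^ 3 =
      (((k : ℂ) + 2) / 2) ^ 2 * (k * w ^ (k - 1)) - 2 * ((((k : ℂ) + 2) / 2) ^ 2 * w ^ k) * qh g w := by
  have h1 : HasDerivAt Ψ (deriv Ψ (g w)) (g w) :=
    (hΨ.differentiableAt (hD.mem_nhds (hc.maps hw))).hasDerivAt
  have h2 := (h1.comp w (hg hc hw)).mul ((hdg hc hw).pow 2)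
  have h3 : HasDerivAt (fun w : ℂ => (((k : ℂ) + 2) / 2) ^ 2 * w ^ k)
      ((((k : ℂ) + 2) / 2) ^ 2 * (k * w ^ (k - 1))) w := by
    simpa using (hasDerivAt_pow k w).const_mul ((((k : ℂ) + 2) / 2) ^ 2)
  have h4 : (Ψ ∘ g * deriv g ^ 2) =ᶠ[𝓝 w] (fun w : ℂ => (((k : ℂ) + 2) / 2) ^ 2 * w ^ k) := by
    filter_upwards [isOpen_ball.mem_nhds hw] with z hz
    simpa using hc.eq z hz
  have h5 := (h2.congr_of_eventuallyEq h4.symm).unique h3
  have hne := hc.nd w hw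
  have h6 := hc.eq w hw
  simp only [Function.comp, Pi.pow_apply] at h5
  rw [← h5, ← h6]
  simp only [qh]
  push_cast
  field_simp
  ring

end CO

end MPfa
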