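import Pool.Agent.Lib.MP_fa0334_an.Spec
import Pool.Agent.Lib.MP_fa0334_an.ChartOde

section
/-!
Problem MP_fa0334_an: module PSI (small perturbations of the identity).
-/
set_option autoImplicit false

open MeasureTheory Set Filter Topology Metric Complex
open scoped ContDiff ENNReal ComplexConjugate

namespace MPfa

namespace PsiM

/-- the determinant of a real linear map of the plane -/
theorem det_eq (L : ℂ →L[ℝ] ℂ) : L.det = jac (L 1) (L I) := by
  rw [ContinuousLinearMap.det, ← LinearMap.det_toMatrix Complex.basisOneI, Matrix.det_fin_two]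
  simp only [LinearMap.toMatrix_apply, Complex.coe_basisOneI_repr, Complex.coe_basisOneI]
  simp [jac]
  ring

theorem jac_pos {e₁ e₂ : ℂ} {t : ℝ} (h1 : |t| * ‖e₁‖ < 1 / 4) (h2 : |t| * ‖e₂‖ < 1 / 4) :
    0 < jac (1 + t * e₁) (I + t * e₂) := by
  have a1 : |t * e₁.re| < 1 / 4 := by
    rw [abs_mul]
    exact (mul_le_mul_of_nonneg_left (Complex.abs_re_le_norm _) (abs_nonneg _)).trans_lt h1
  have a2 : |t * e₁.im| < 1 / 4 := by
    rw [abs_mul]
    exact (mul_le_mul_of_nonneg_left (Complex.abs_im_le_norm _) (abs_nonneg _)).trans_lt h1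
  have a3 : |t * e₂.re| < 1 / 4 := by
    rw [abs_mul]
    exact (mul_le_mul_of_nonneg_left (Complex.abs_re_le_norm _) (abs_nonneg _)).trans_lt h2
  have a4 : |t * e₂.im| < 1 / 4 := by
    rw [abs_mul]
    exact (mul_le_mul_of_nonneg_left (Complex.abs_im_le_norm _) (abs_nonneg _)).trans_lt h2
  rw [abs_lt] at a1 a2 a3 a4
  have e : jac (1 + t * e₁) (I + t * e₂) =
      (1 + t * e₁.re) * (1 + t * e₂.im) - (t * e₁.im) * (t * e₂.re) := by
    simp [jac]
  rw [e]
  nlinarith [mul_pos (show 0 < 1 + t * e₁.re - 3 / 4 by linarith)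
    (show 0 < 1 + t * e₂.im - 3 / 4 by linarith),
    abs_le.1 (show |(t * e₁.im) * (t * e₂.re)| ≤ 1 / 4 * (1 / 4) by
      rw [abs_mul]
      exact mul_le_mul (abs_le.2 ⟨a2.1.le, a2.2.le⟩) (abs_le.2 ⟨a3.1.le, a3.2.le⟩)
        (abs_nonneg _) (by norm_num))]

end PsiM

/-- D1. PSI -/
theorem specPsi : SpecPsi := by
  intro X η hX hη hc hs
  obtain ⟨B, hB⟩ := (hc.fderiv (𝕜 := ℝ)).exists_bound_of_continuous
    (hη.continuous_fderiv (by simp))
  have hB0 : 0 ≤ B := (norm_nonneg _).trans (hB 0)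
  refine ⟨1 / (4 * (B + 1)), by positivity, fun t ht => ?_⟩
  have htB : |t| * B < 1 / 4 := by
    have h1 : |t| * (4 * (B + 1)) < 1 := (lt_div_iff₀ (by positivity)).1 ht
    nlinarith [abs_nonneg t]
  have hder : ∀ z, HasFDerivAt (fun z => z + (t : ℂ) * η z)
      (ContinuousLinearMap.id ℝ ℂ + (t : ℂ) • fderiv ℝ η z) z := by
    intro z
    exact (hasFDerivAt_id z).add
      (((hη.differentiable (by simp)) z).hasFDerivAt.const_mul (t : ℂ))
  have hsm : ContDiff ℝ ∞ (fun z => z + (t : ℂ) * η z) :=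
    contDiff_id.add (contDiff_const.mul hη)
  have happ : ApproximatesLinearOn (fun z => z + (t : ℂ) * η z)
      ((ContinuousLinearEquiv.refl ℝ ℂ : ℂ ≃L[ℝ] ℂ) : ℂ →L[ℝ] ℂ) univ ⟨|t| * B, by positivity⟩ := by
    intro x _ y _
    have h1 := Convex.norm_image_sub_le_of_norm_fderiv_le (𝕜 := ℝ) (f := η) (C := B)
      (s := univ) (x := y) (y := x) (fun z _ => (hη.differentiable (by simp)) z)
      (fun z _ => hB z) convex_univ (mem_univ _) (mem_univ _)
    have h2 : x + (t : ℂ) * η x - (y + (t : ℂ) * η y) -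
        ((ContinuousLinearEquiv.refl ℝ ℂ : ℂ ≃L[ℝ] ℂ) : ℂ →L[ℝ] ℂ) (x - y) =
        (t : ℂ) * (η x - η y) := by
      simp
      ring
    rw [h2, norm_mul, Complex.norm_real, Real.norm_eq_abs]
    calc |t| * ‖η x - η y‖ ≤ |t| * (B * ‖x - y‖) := by gcongr
      _ = |t| * B * ‖x - y‖ := by ring
      _ = _ := rfl
  have hc1 : (⟨|t| * B, by positivity⟩ : NNReal) <
      ‖((ContinuousLinearEquiv.refl ℝ ℂ : ℂ ≃L[ℝ] ℂ).symm : ℂ →L[ℝ] ℂ)‖₊⁻¹ := by
    have h3 : ‖((ContinuousLinearEquiv.refl ℝ ℂ : ℂ ≃L[ℝ] ℂ).symm : ℂ →L[ℝ] ℂ)‖₊ = 1 := by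
      apply NNReal.eq
      rw [coe_nnnorm]
      exact ContinuousLinearMap.norm_id
    rw [h3, inv_one]
    have : |t| * B < 1 := by linarith
    exact_mod_cast this
  let e : ℂ ≃ₜ ℂ := ApproximatesLinearOn.toHomeomorph (fun z => z + (t : ℂ) * η z) happ (Or.inr hc1)
  have he : ∀ z, e z = z + t * η z := fun z => rfl
  have hjac : ∀ z, 0 < jac (1 + t * fderiv ℝ η z 1) (I + t * fderiv ℝ η z I) := by
    intro z
    refine PsiM.jac_pos (lt_of_le_of_lt ?_ htB) (lt_of_le_of_lt ?_ htB)
    · gcongr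
      exact ((fderiv ℝ η z).le_opNorm 1).trans (by simpa using hB z)
    · gcongr
      exact ((fderiv ℝ η z).le_opNorm I).trans (by simpa using hB z)
  have hdet : ∀ z, (ContinuousLinearMap.id ℝ ℂ + (t : ℂ) • fderiv ℝ η z).det ≠ 0 := by
    intro z
    rw [PsiM.det_eq]
    have := hjac z
    simpa using this.ne'
  have hχ : ContDiff ℝ ∞ e.symm :=
    e.contDiff_symm (f₀' := fun z => ContinuousLinearMap.toContinuousLinearEquivOfDetNeZero
      (ContinuousLinearMap.id ℝ ℂ + (t : ℂ) • fderiv ℝ η z) (hdet z)) (fun z => by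
        simpa using! hder z) hsm
  have hoff : ∀ z, z ∉ X → η z = 0 := fun z hz =>
    image_eq_zero_of_notMem_tsupport fun hh => hz (hs hh)
  have h1 : ∀ z, e.symm (z + t * η z) = z := fun z => by rw [← he, e.symm_apply_apply]
  have h2 : ∀ z, e.symm z + t * η (e.symm z) = z := fun z => by rw [← he, e.apply_symm_apply]
  have h3 : ∀ z, z ∉ X → e.symm z = z := by
    intro z hz
    have := h1 z
    rwa [hoff z hz, mul_zero, add_zero] at this
  refine ⟨e.symm, hχ, h1, h2, h3, ?_, ?_, hjac⟩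
  · intro z hz
    by_contra hcon
    have := h2 z
    rw [hoff _ hcon, mul_zero, add_zero] at this
    rw [this] at hcon
    exact hcon hz
  · intro z hz
    by_contra hcon
    have := h3 _ hcon
    rw [h1] at this
    rw [← this] at hcon
    exact hcon hz

end MPfa
end

section
/-!
Problem MP_fa0334_an: module COMP (the energy of the composition with a diffeomorphism of `X`).
-/
set_option autoImplicit false

open MeasureTheory Set Filter Topology Metric Complex
open scoped ContDiff ENNReal ComplexConjugate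

namespace MPfa

namespace CompM

theorem lmap_apply (a b m : ℂ) : lmap a b m = m.re • a + m.im • b := by
  simp [lmap]

/-- the inverse of a matrix with positive determinant -/
theorem eq_iv {m₁ m₂ x : ℂ} (hj : jac m₁ m₂ ≠ 0) {v : ℂ} (h : x.re • m₁ + x.im • m₂ = v) :
    x = v.re • iv1 m₁ m₂ + v.im • iv2 m₁ m₂ := by
  have e1 : x.re * m₁.re + x.im * m₂.re = v.re := by
    have := congrArg Complex.re h
    simpa using this
  have e2 : x.re * m₁.im + x.im * m₂.im = v.im := by
    have := congrArg Complex.im h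
    simpa using this
  have f1 : x.re = (v.re * m₂.im - v.im * m₂.re) / jac m₁ m₂ := by
    rw [eq_div_iff hj, ← e1, ← e2, jac]
    ring
  have f2 : x.im = (v.im * m₁.re - v.re * m₁.im) / jac m₁ m₂ := by
    rw [eq_div_iff hj, ← e1, ← e2, jac]
    ring
  apply Complex.ext
  · rw [f1]
    simp only [iv1, iv2, Complex.add_re, Complex.real_smul, Complex.mul_re, Complex.ofReal_re,
      Complex.ofReal_im, zero_mul, sub_zero]
    ring
  · rw [f2]
    simp only [iv1, iv2, Complex.add_im, Complex.real_smul, Complex.mul_im, Complex.ofReal_re,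
      Complex.ofReal_im, zero_mul, add_zero]
    ring

theorem jac_iv {m₁ m₂ : ℂ} (hj : jac m₁ m₂ ≠ 0) : jac (iv1 m₁ m₂) (iv2 m₁ m₂) ≠ 0 := by
  have hj' : m₁.re * m₂.im - m₁.im * m₂.re ≠ 0 := hj
  have : jac (iv1 m₁ m₂) (iv2 m₁ m₂) = 1 / jac m₁ m₂ := by
    simp only [iv1, iv2, jac]
    field_simp
  rw [this]
  exact one_div_ne_zero hj

/-- composition with a homeomorphism of `X` fixing the complement -/
theorem hom_comp {X Y : Set ℂ} {b k χ ψ : ℂ → ℂ} (hX : IsOpen X) (hk : Hom X Y b k)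
    (hχ : Continuous χ) (h1 : ∀ z, χ (ψ z) = z) (h2 : ∀ z, ψ (χ z) = z)
    (h3 : ∀ z, z ∉ X → χ z = z) (h4 : MapsTo χ X X) (h5 : MapsTo ψ X X) :
    Hom X Y b (fun z => k (χ z)) := by
  have h6 : ∀ z, z ∉ X → ψ z = z := fun z hz => by
    have := h2 z
    rwa [h3 z hz] at this
  have m1 : MapsTo χ (closure X) (closure X) := fun z hz => by
    by_cases hzX : z ∈ X
    · exact subset_closure (h4 hzX)
    · rwa [h3 z hzX]
  have m2 : MapsTo ψ (closure X) (closure X) := fun z hz => by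
    by_cases hzX : z ∈ X
    · exact subset_closure (h5 hzX)
    · rwa [h6 z hzX]
  have b1 : BijOn χ (closure X) (closure X) :=
    ⟨m1, fun z _ z' _ he => by rw [← h2 z, ← h2 z', he], fun z hz => ⟨ψ z, m2 hz, h1 z⟩⟩
  have b2 : BijOn χ X X :=
    ⟨h4, fun z _ z' _ he => by rw [← h2 z, ← h2 z', he], fun z hz => ⟨ψ z, h5 hz, h1 z⟩⟩
  refine ⟨hk.co.comp hχ.continuousOn m1, hk.bi.comp b1, hk.bX.comp b2, fun z hz => ?_⟩
  have hzX : z ∉ X := fun hh => by
    rw [hX.frontier_eq] at hz
    exact hz.2 hh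
  show k (χ z) = b z
  rw [h3 z hzX]
  exact hk.eq hz

theorem lim_comp {X Y : Set ℂ} {b h χ ψ : ℂ → ℂ} (hX : IsOpen X) (hl : Lim X Y b h)
    (hχ : Continuous χ) (h1 : ∀ z, χ (ψ z) = z) (h2 : ∀ z, ψ (χ z) = z)
    (h3 : ∀ z, z ∉ X → χ z = z) (h4 : MapsTo χ X X) (h5 : MapsTo ψ X X) :
    Lim X Y b (fun z => h (χ z)) := by
  intro ε hε
  obtain ⟨k, hk, hkh⟩ := hl ε hε
  refine ⟨fun z => k (χ z), hom_comp hX hk hχ h1 h2 h3 h4 h5, fun z hz => hkh _ ?_⟩
  by_cases hzX : z ∈ X
  · exact subset_closure (h4 hzX)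
  · rwa [h3 z hzX]

end CompM

/-- D2. COMP -/
theorem specComp (hCh : SpecChain) (hL : SpecLim) : SpecComp := by
  intro p _ X Y b h hx hy η χ t hD h1 hη _ hs hχ e1 e2 e3 e4 e5 e6
  have hlim : Lim X Y b (fun z => h (χ z)) :=
    CompM.lim_comp (ψ := fun z => z + t * η z) hD.oX h1.li hχ.continuous e1 e2 e3 e4 e5
  have hder : ∀ z, HasFDerivAt (fun z => z + (t : ℂ) * η z)
      (ContinuousLinearMap.id ℝ ℂ + (t : ℂ) • fderiv ℝ η z) z := by
    intro z
    exact (hasFDerivAt_id z).add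
      (((hη.differentiable (by simp)) z).hasFDerivAt.const_mul (t : ℂ))
  have hdχ : ∀ z v : ℂ, (fderiv ℝ χ z v).re • (1 + t * fderiv ℝ η (χ z) 1) +
      (fderiv ℝ χ z v).im • (I + t * fderiv ℝ η (χ z) I) = v := by
    intro z v
    have g1 : HasFDerivAt χ (fderiv ℝ χ z) z := ((hχ.differentiable (by simp)) z).hasFDerivAt
    have g2 := (hder (χ z)).comp z g1
    have g3 : (fun z => z + (t : ℂ) * η z) ∘ χ = id := funext fun z => e2 z
    rw [g3] at g2
    have g4 := g2.unique (hasFDerivAt_id z)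
    have g5 := congrArg (fun L : ℂ →L[ℝ] ℂ => L v) g4
    simp only [ContinuousLinearMap.comp_apply, _root_.add_apply,
      ContinuousLinearMap.id_apply, _root_.smul_apply, smul_eq_mul] at g5
    set w := fderiv ℝ χ z v with hw
    have g6 : fderiv ℝ η (χ z) w = (w.re : ℂ) * fderiv ℝ η (χ z) 1 +
        (w.im : ℂ) * fderiv ℝ η (χ z) I := by
      have : w = w.re • (1 : ℂ) + w.im • I := by
        simp [Complex.re_add_im]
      conv_lhs => rw [this]
      rw [map_add, map_smul, map_smul]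
      simp
    rw [g6] at g5
    calc w.re • (1 + t * fderiv ℝ η (χ z) 1) + w.im • (I + t * fderiv ℝ η (χ z) I)
        = ((w.re : ℂ) + w.im * I) + t * ((w.re : ℂ) * fderiv ℝ η (χ z) 1 +
          (w.im : ℂ) * fderiv ℝ η (χ z) I) := by
          simp only [Complex.real_smul]
          ring
      _ = v := by rw [Complex.re_add_im]; exact g5
  have hjne : ∀ z, jac (1 + t * fderiv ℝ η z 1) (I + t * fderiv ℝ η z I) ≠ 0 :=
    fun z => (e6 z).ne'
  have hd1 : ∀ z, fderiv ℝ χ z 1 = iv1 (1 + t * fderiv ℝ η (χ z) 1)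
      (I + t * fderiv ℝ η (χ z) I) := by
    intro z
    have := CompM.eq_iv (hjne (χ z)) (hdχ z 1)
    simpa using this
  have hd2 : ∀ z, fderiv ℝ χ z I = iv2 (1 + t * fderiv ℝ η (χ z) 1)
      (I + t * fderiv ℝ η (χ z) I) := by
    intro z
    have := CompM.eq_iv (hjne (χ z)) (hdχ z I)
    simpa using this
  have hcX : ContinuousOn h X := (hL X Y b h hD h1.li).1.mono subset_closure
  obtain ⟨Gx, Gy, hG, hGe, -⟩ := hCh X X h hx hy χ hD.oX hD.oX hcX h1.wd hχ.contDiffOn
    (fun z _ z' _ he => by rw [← e2 z, ← e2 z', he]) e4 (fun z _ => by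
      rw [hd1, hd2]
      exact CompM.jac_iv (hjne _))
  refine ⟨Gx, Gy, hlim, hG, ?_⟩
  have himg : (fun z => z + (t : ℂ) * η z) '' X = X :=
    Subset.antisymm (image_subset_iff.2 e5) fun z hz => ⟨χ z, e4 hz, e2 z⟩
  calc ∫⁻ z in X, PP p (Gx z) (Gy z)
      = ∫⁻ z in X, PP p (lmap (hx (χ z)) (hy (χ z)) (fderiv ℝ χ z 1))
          (lmap (hx (χ z)) (hy (χ z)) (fderiv ℝ χ z I)) := by
        refine setLIntegral_congr_fun hD.oX.measurableSet fun z hz => ?_
        show PP p (Gx z) (Gy z) = _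
        rw [(hGe z hz).1, (hGe z hz).2]
    _ = ∫⁻ z in (fun z => z + (t : ℂ) * η z) '' X,
          PP p (lmap (hx (χ z)) (hy (χ z)) (fderiv ℝ χ z 1))
          (lmap (hx (χ z)) (hy (χ z)) (fderiv ℝ χ z I)) := by rw [himg]
    _ = ∫⁻ z in X, ENNReal.ofReal |(ContinuousLinearMap.id ℝ ℂ + (t : ℂ) • fderiv ℝ η z).det| *
          PP p (lmap (hx (χ (z + t * η z))) (hy (χ (z + t * η z))) (fderiv ℝ χ (z + t * η z) 1))
          (lmap (hx (χ (z + t * η z))) (hy (χ (z + t * η z))) (fderiv ℝ χ (z + t * η z) I)) := by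
        exact lintegral_image_eq_lintegral_abs_det_fderiv_mul volume hD.oX.measurableSet
          (fun z _ => (hder z).hasFDerivWithinAt)
          (fun z _ z' _ he => by rw [← e1 z, ← e1 z']; exact congrArg χ he) _
    _ = ∫⁻ z in X, PT p (hx z) (hy z) (1 + t * fderiv ℝ η z 1) (I + t * fderiv ℝ η z I) := by
        refine lintegral_congr fun z => ?_
        rw [hd1, hd2, e1, PsiM.det_eq, PT]
        congr 2
        have : jac ((ContinuousLinearMap.id ℝ ℂ + (t : ℂ) • fderiv ℝ η z) 1)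
            ((ContinuousLinearMap.id ℝ ℂ + (t : ℂ) • fderiv ℝ η z) I) =
            jac (1 + t * fderiv ℝ η z 1) (I + t * fderiv ℝ η z I) := by simp
        rw [this, abs_of_pos (e6 z)]

end MPfa
end

section
/-!
Problem MP_fa0334_an, module DIFF: continuous Sobolev maps of the plane with the boundary
principle are differentiable almost everywhere.
-/
set_option autoImplicit false

open MeasureTheory Set Filter Topology Metric
open scoped ENNReal

namespace MPfa

/-! ### Fubini for null sets of the plane -/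

lemma df_symm_mk (x y : ℝ) : Complex.measurableEquivRealProd.symm (x, y) = (⟨x, y⟩ : ℂ) := rfl

lemma volume_eq_prod (B : Set ℂ) : volume B =
    (volume : Measure ℝ).prod (volume : Measure ℝ)
      (Complex.measurableEquivRealProd.symm ⁻¹' B) := by
  rw [← Measure.volume_eq_prod]
  exact ((Complex.volume_preserving_equiv_real_prod.symm
    Complex.measurableEquivRealProd).measure_preimage_equiv B).symm

lemma null_of_vslices (B : Set ℂ) (hB : MeasurableSet B)
    (h : ∀ᵐ x : ℝ, volume {y : ℝ | (⟨x, y⟩ : ℂ) ∈ B} = 0) : volume B = 0 := by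
  rw [volume_eq_prod]
  exact Measure.measure_prod_null_of_ae_null
    (Complex.measurableEquivRealProd.symm.measurable hB) h

lemma null_of_hslices (B : Set ℂ) (hB : MeasurableSet B)
    (h : ∀ᵐ y : ℝ, volume {x : ℝ | (⟨x, y⟩ : ℂ) ∈ B} = 0) : volume B = 0 := by
  rw [volume_eq_prod]
  have hm : MeasurableSet (Complex.measurableEquivRealProd.symm ⁻¹' B) :=
    Complex.measurableEquivRealProd.symm.measurable hB
  rw [← Measure.prod_swap, Measure.map_apply measurable_swap hm]
  exact Measure.measure_prod_null_of_ae_null (measurable_swap hm) h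

lemma vslices_of_null (B : Set ℂ) (h : volume B = 0) :
    ∀ᵐ x : ℝ, volume {y : ℝ | (⟨x, y⟩ : ℂ) ∈ B} = 0 := by
  rw [volume_eq_prod] at h
  exact Measure.measure_ae_null_of_prod_null h

lemma hslices_of_null (B : Set ℂ) (h : volume B = 0) :
    ∀ᵐ y : ℝ, volume {x : ℝ | (⟨x, y⟩ : ℂ) ∈ B} = 0 := by
  obtain ⟨B', hBB', hB'm, hB'0⟩ := exists_measurable_superset_of_null h
  rw [volume_eq_prod] at hB'0
  have hm : MeasurableSet (Complex.measurableEquivRealProd.symm ⁻¹' B') :=
    Complex.measurableEquivRealProd.symm.measurable hB'm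
  rw [← Measure.prod_swap, Measure.map_apply measurable_swap hm] at hB'0
  filter_upwards [Measure.measure_ae_null_of_prod_null hB'0] with y hy
  exact measure_mono_null (fun x hx => hBB' hx) hy

/-! ### localisation -/

lemma ae_of_local {X : Type*} [PseudoMetricSpace X] [SecondCountableTopology X]
    [MeasurableSpace X] (μ : Measure X) (G : Set X) (P : X → Prop)
    (h : ∀ z₀ ∈ G, ∃ r > 0, ∀ᵐ z ∂μ, z ∈ ball z₀ r → P z) : ∀ᵐ z ∂μ, z ∈ G → P z := by
  have h1 : μ {z | z ∈ G ∧ ¬ P z} = 0 := by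
    refine measure_null_of_locally_null _ fun z₀ hz₀ => ?_
    obtain ⟨r, hr, h2⟩ := h z₀ hz₀.1
    refine ⟨ball z₀ r ∩ {z | z ∈ G ∧ ¬ P z}, ?_, ?_⟩
    · rw [inter_comm]
      exact inter_mem_nhdsWithin _ (ball_mem_nhds _ hr)
    · refine measure_mono_null (fun z hz => ?_) h2
      intro h3
      exact hz.2.2 (h3 hz.1)
  refine measure_mono_null (fun z hz => ?_) h1
  simp only [mem_compl_iff, mem_ofPred_eq, Classical.not_imp] at hz
  exact hz

/-! ### one dimensional differentiation -/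

lemma ae_line (f g : ℝ → ℂ) (U : Set ℝ) (hU : IsOpen U)
    (h : ∀ a b : ℝ, a ≤ b → (∀ x ∈ Icc a b, x ∈ U) →
      IntervalIntegrable g volume a b ∧ f b - f a = ∫ x in a..b, g x) :
    ∀ᵐ x : ℝ, x ∈ U → HasDerivAt f (g x) x := by
  refine ae_of_local volume U _ fun x₀ hx₀ => ?_
  obtain ⟨r, hr, hrU⟩ := Metric.isOpen_iff.1 hU x₀ hx₀
  refine ⟨r / 2, by linarith, ?_⟩
  set a := x₀ - r / 2 with ha
  set b := x₀ + r / 2 with hb
  have hab : a ≤ b := by rw [ha, hb]; linarith
  have hsub : ∀ x ∈ Icc a b, x ∈ U := by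
    intro x hx
    apply hrU
    rw [mem_ball, Real.dist_eq, abs_lt]
    constructor <;> [have := hx.1; have := hx.2] <;> linarith
  have h1 := (h a b hab hsub).1.ae_hasDerivAt_integral
  filter_upwards [h1] with x hx hxb
  rw [mem_ball, Real.dist_eq, abs_lt] at hxb
  have hxa : a < x := by linarith [hxb.1]
  have hxb' : x < b := by linarith [hxb.2]
  have h2 := hx (by rw [uIcc_of_le hab]; exact ⟨hxa.le, hxb'.le⟩) a
    (by rw [uIcc_of_le hab]; exact ⟨le_refl _, hab⟩)
  have h3 : (fun t => f a + ∫ s in a..t, g s) =ᶠ[𝓝 x] f := by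
    filter_upwards [Ioo_mem_nhds hxa hxb'] with t ht
    have h4 := (h a t ht.1.le fun s hs => hsub s ⟨hs.1, hs.2.trans ht.2.le⟩).2
    rw [← h4]
    ring
  exact (h2.const_add (f a)).congr_of_eventuallyEq h3.symm

/-! ### the partial derivatives -/

lemma ae_fderiv_one (G : Set ℂ) (F Fx : ℂ → ℂ) (hG : IsOpen G) (hm : Measurable Fx)
    (h : HAC G F Fx) : ∀ᵐ z : ℂ, z ∈ G → DifferentiableAt ℝ F z → fderiv ℝ F z 1 = Fx z := by
  have hB : MeasurableSet {z : ℂ | z ∈ G ∧ DifferentiableAt ℝ F z ∧ ¬ fderiv ℝ F z 1 = Fx z} := by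
    refine hG.measurableSet.inter ((measurableSet_of_differentiableAt ℝ F).inter ?_)
    exact (measurableSet_eq_fun (measurable_fderiv_apply_const ℝ F 1) hm).compl
  have h1 : volume {z : ℂ | z ∈ G ∧ DifferentiableAt ℝ F z ∧ ¬ fderiv ℝ F z 1 = Fx z} = 0 := by
    refine null_of_hslices _ hB ?_
    filter_upwards [h] with y hy
    have hU : IsOpen {x : ℝ | (⟨x, y⟩ : ℂ) ∈ G} := by
      have hc : Continuous fun x : ℝ => (⟨x, y⟩ : ℂ) := by
        have : (fun x : ℝ => (⟨x, y⟩ : ℂ)) = fun x : ℝ => (x : ℂ) + (y : ℂ) * Complex.I := by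
          funext x
          apply Complex.ext <;> simp
        rw [this]
        fun_prop
      exact hG.preimage hc
    have h2 := ae_line (fun x => F ⟨x, y⟩) (fun x => Fx ⟨x, y⟩) _ hU hy
    refine measure_mono_null (fun x hx => ?_) h2
    intro h3
    obtain ⟨hx1, hx2, hx3⟩ := hx
    apply hx3
    have h4 := h3 hx1
    have h5 : HasDerivAt (fun x : ℝ => (⟨x, y⟩ : ℂ)) 1 x := by
      have : (fun x : ℝ => (⟨x, y⟩ : ℂ)) = fun x : ℝ => (x : ℂ) + (y : ℂ) * Complex.I := by
        funext x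
        apply Complex.ext <;> simp
      rw [this]
      exact (Complex.ofRealCLM.hasDerivAt).add_const _
    have h6 := (hx2.hasFDerivAt).comp_hasDerivAt x h5
    exact h6.unique h4
  filter_upwards [(measure_eq_zero_iff_ae_notMem.1 h1)] with z hz hzG hzd
  by_contra hne
  exact hz ⟨hzG, hzd, hne⟩

lemma ae_fderiv_I (G : Set ℂ) (F Fy : ℂ → ℂ) (hG : IsOpen G) (hm : Measurable Fy)
    (h : VAC G F Fy) :
    ∀ᵐ z : ℂ, z ∈ G → DifferentiableAt ℝ F z → fderiv ℝ F z Complex.I = Fy z := by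
  have hB : MeasurableSet
      {z : ℂ | z ∈ G ∧ DifferentiableAt ℝ F z ∧ ¬ fderiv ℝ F z Complex.I = Fy z} := by
    refine hG.measurableSet.inter ((measurableSet_of_differentiableAt ℝ F).inter ?_)
    exact (measurableSet_eq_fun (measurable_fderiv_apply_const ℝ F Complex.I) hm).compl
  have h1 : volume
      {z : ℂ | z ∈ G ∧ DifferentiableAt ℝ F z ∧ ¬ fderiv ℝ F z Complex.I = Fy z} = 0 := by
    refine null_of_vslices _ hB ?_
    filter_upwards [h] with x hx
    have hU : IsOpen {y : ℝ | (⟨x, y⟩ : ℂ) ∈ G} := by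
      have hc : Continuous fun y : ℝ => (⟨x, y⟩ : ℂ) := by
        have : (fun y : ℝ => (⟨x, y⟩ : ℂ)) = fun y : ℝ => (x : ℂ) + (y : ℂ) * Complex.I := by
          funext y
          apply Complex.ext <;> simp
        rw [this]
        fun_prop
      exact hG.preimage hc
    have h2 := ae_line (fun y => F ⟨x, y⟩) (fun y => Fy ⟨x, y⟩) _ hU hx
    refine measure_mono_null (fun y hy => ?_) h2
    intro h3
    obtain ⟨hx1, hx2, hx3⟩ := hy
    apply hx3
    have h4 := h3 hx1
    have h5 : HasDerivAt (fun y : ℝ => (⟨x, y⟩ : ℂ)) Complex.I y := by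
      have : (fun y : ℝ => (⟨x, y⟩ : ℂ)) = fun y : ℝ => (x : ℂ) + (y : ℂ) * Complex.I := by
        funext y
        apply Complex.ext <;> simp
      rw [this]
      have h7 := ((Complex.ofRealCLM.hasDerivAt (x := y)).mul_const Complex.I).const_add (x : ℂ)
      simpa using h7
    have h6 := (hx2.hasFDerivAt).comp_hasDerivAt y h5
    exact h6.unique h4
  filter_upwards [(measure_eq_zero_iff_ae_notMem.1 h1)] with z hz hzG hzd
  by_contra hne
  exact hz ⟨hzG, hzd, hne⟩

lemma df_eq_lmap (L : ℂ →L[ℝ] ℂ) : L = lmap (L 1) (L Complex.I) := by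
  ext m
  have h1 : (m : ℂ) = m.re • (1 : ℂ) + m.im • Complex.I := by
    rw [Complex.real_smul, Complex.real_smul, mul_one, Complex.re_add_im]
  conv_lhs => rw [h1, map_add, map_smul, map_smul]
  simp [lmap]

/-! ### pointwise Lipschitz estimate -/

lemma ae_pointwise_lip (hOsc : SpecOsc) (G : Set ℂ) (F Fx Fy : ℂ → ℂ) (hM : Mon G F Fx Fy) :
    ∀ᵐ z : ℂ, z ∈ G → ∃ C r : ℝ, 0 < r ∧ ∀ w ∈ ball z r, ‖F w - F z‖ ≤ C * ‖w - z‖ := by
  refine ae_of_local volume G _ fun z₀ hz₀ => ?_
  obtain ⟨r₀, hr₀, hr₀G⟩ := Metric.isOpen_iff.1 hM.op z₀ hz₀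
  set K : Set ℂ := closedBall z₀ (r₀ / 2) with hK
  have hKG : K ⊆ G := (closedBall_subset_ball (by linarith)).trans hr₀G
  have hKc : IsCompact K := isCompact_closedBall _ _
  refine ⟨r₀ / 2, by linarith, ?_⟩
  set f : ℂ → ℝ≥0∞ := K.indicator (fun w => ‖Fx w‖ₑ + ‖Fy w‖ₑ) with hf
  have hfm : Measurable f :=
    (hM.wd.mx.enorm.add hM.wd.my.enorm).indicator hKc.measurableSet
  have hfi : ∫⁻ w, f w ≠ ⊤ := by
    rw [hf, lintegral_indicator hKc.measurableSet, lintegral_add_left hM.wd.mx.enorm]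
    exact ENNReal.add_ne_top.2 ⟨(hM.wd.lx K hKG hKc).2.ne, (hM.wd.ly K hKG hKc).2.ne⟩
  have hfin : ∀ w, f w ≠ ⊤ := by
    intro w
    rw [hf]
    by_cases hw : w ∈ K
    · rw [indicator_of_mem hw]
      exact ENNReal.add_ne_top.2 ⟨enorm_ne_top, enorm_ne_top⟩
    · rw [indicator_of_notMem hw]
      exact ENNReal.zero_ne_top
  filter_upwards [(Besicovitch.vitaliFamily (volume : Measure ℂ)).ae_tendsto_lintegral_div
    hfm.aemeasurable hfi] with z hz hzb
  have h1 := hz.comp (Besicovitch.tendsto_filterAt (volume : Measure ℂ) z)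
  -- bound of the averages
  obtain ⟨M, hM0, hMb⟩ : ∃ M : ℝ, 0 ≤ M ∧ f z < ENNReal.ofReal M := by
    refine ⟨(f z).toReal + 1, by positivity, ?_⟩
    rw [ENNReal.lt_ofReal_iff_toReal_lt (hfin z)]
    linarith
  have h2 : ∀ᶠ δ in 𝓝[>] (0 : ℝ), (∫⁻ y in closedBall z δ, f y) / volume (closedBall z δ) <
      ENNReal.ofReal M := h1.eventually (gt_mem_nhds hMb)
  rw [eventually_nhdsWithin_iff, Metric.eventually_nhds_iff] at h2
  obtain ⟨δ₀, hδ₀, h2⟩ := h2
  have hzb' := mem_ball.1 hzb
  set δ₁ : ℝ := min δ₀ (r₀ / 2 - dist z z₀) with hδ₁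
  have hδ₁0 : 0 < δ₁ := lt_min hδ₀ (by linarith)
  refine ⟨8 * M * Real.pi, δ₁ / 4, by linarith, ?_⟩
  intro w hw
  by_cases hwz : w = z
  · subst hwz
    simp
  rw [mem_ball, dist_eq_norm] at hw
  have hd0 : 0 < ‖w - z‖ := norm_pos_iff.2 (sub_ne_zero.2 hwz)
  set d := ‖w - z‖ with hd
  have hR1 : 4 * d < δ₀ := by
    have := min_le_left δ₀ (r₀ / 2 - dist z z₀)
    linarith
  have hR2 : 4 * d < r₀ / 2 - dist z z₀ := by
    have := min_le_right δ₀ (r₀ / 2 - dist z z₀)
    linarith
  have hBK : closedBall z (4 * d) ⊆ K := by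
    intro u hu
    rw [mem_closedBall] at hu
    rw [hK, mem_closedBall]
    calc dist u z₀ ≤ dist u z + dist z z₀ := dist_triangle _ _ _
      _ ≤ r₀ / 2 := by linarith
  have h3 := (hOsc G F Fx Fy hM z (2 * d) (4 * d) (by linarith) (by linarith)
    (hBK.trans hKG) w (by rw [mem_ball, dist_eq_norm]; linarith) z
    (by rw [mem_ball, dist_self]; linarith)).1
  have h4 : (∫⁻ y in closedBall z (4 * d), f y) / volume (closedBall z (4 * d)) <
      ENNReal.ofReal M := by
    apply h2 _ (show (0 : ℝ) < 4 * d by linarith)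
    rw [Real.dist_eq, sub_zero, abs_of_pos (by linarith)]
    exact hR1
  have hv : volume (closedBall z (4 * d)) = ENNReal.ofReal ((4 * d) ^ 2 * Real.pi) := by
    have hpi : ENNReal.ofReal Real.pi = (NNReal.pi : ℝ≥0∞) := by
      rw [ENNReal.ofReal_eq_coe_nnreal Real.pi_pos.le]
      rfl
    rw [Complex.volume_closedBall, ← hpi, ← ENNReal.ofReal_pow (by linarith),
      ← ENNReal.ofReal_mul (by positivity)]
  have hv0 : volume (closedBall z (4 * d)) ≠ 0 := by
    rw [hv]
    have : 0 < (4 * d) ^ 2 * Real.pi := by positivity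
    simpa using this
  have hvt : volume (closedBall z (4 * d)) ≠ ⊤ := by
    rw [hv]
    exact ENNReal.ofReal_ne_top
  have h5 : ∫⁻ y in closedBall z (4 * d), f y ≤
      ENNReal.ofReal (M * ((4 * d) ^ 2 * Real.pi)) := by
    have h6 := (ENNReal.div_le_iff_le_mul (Or.inl hv0) (Or.inl hvt)).1 h4.le
    rwa [hv, ← ENNReal.ofReal_mul hM0] at h6
  have h6 : ∫⁻ w in ball z (4 * d), (‖Fx w‖ₑ + ‖Fy w‖ₑ) ≤
      ∫⁻ y in closedBall z (4 * d), f y := by
    calc ∫⁻ w in ball z (4 * d), (‖Fx w‖ₑ + ‖Fy w‖ₑ)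
        ≤ ∫⁻ w in closedBall z (4 * d), (‖Fx w‖ₑ + ‖Fy w‖ₑ) :=
          lintegral_mono_set ball_subset_closedBall
      _ = ∫⁻ y in closedBall z (4 * d), f y := by
          refine setLIntegral_congr_fun isClosed_closedBall.measurableSet fun y hy => ?_
          exact (indicator_of_mem (hBK hy) (fun w => ‖Fx w‖ₑ + ‖Fy w‖ₑ)).symm
  have h7 := (h3.trans h6).trans h5
  rw [ENNReal.ofReal_le_ofReal_iff (by positivity)] at h7
  have h8 : 2 * d * ‖F w - F z‖ ≤ 2 * d * (8 * M * Real.pi * d) := by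
    calc 2 * d * ‖F w - F z‖ = (4 * d - 2 * d) * ‖F w - F z‖ := by ring
      _ ≤ M * ((4 * d) ^ 2 * Real.pi) := h7
      _ = 2 * d * (8 * M * Real.pi * d) := by ring
  exact le_of_mul_le_mul_left h8 (by linarith)

theorem specDiff (hOsc : SpecOsc) (hACL : SpecACL) (hStep : SpecStep) : SpecDiff := by
  intro G F Fx Fy hM
  obtain ⟨hH, hV⟩ := hACL G F Fx Fy hM.op hM.co hM.wd
  have h1 := ae_pointwise_lip hOsc G F Fx Fy hM
  set A : Set ℂ := {z | z ∈ G ∧ ∃ C r : ℝ, 0 < r ∧ ∀ w ∈ ball z r, ‖F w - F z‖ ≤ C * ‖w - z‖}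
    with hA
  have h2 := hStep G A F hM.op hM.co (fun z hz => hz.1) (fun z hz => hz.2)
  rw [ae_restrict_iff' hM.op.measurableSet]
  filter_upwards [h1, h2, ae_fderiv_one G F Fx hM.op hM.wd.mx hH,
    ae_fderiv_I G F Fy hM.op hM.wd.my hV] with z hz1 hz2 hz3 hz4 hzG
  have hd := hz2 ⟨hzG, hz1 hzG⟩
  have h5 := hd.hasFDerivAt
  rwa [df_eq_lmap (fderiv ℝ F z), hz3 hzG hd, hz4 hzG hd] at h5

end MPfa
end

section
/-!
Problem MP_fa0334_an: module HOPF (from EULER and WEYL) and common integrability facts.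
-/
set_option autoImplicit false

open MeasureTheory Set Filter Topology Metric Complex
open scoped ContDiff ENNReal ComplexConjugate

namespace MPfa

namespace VarM

variable {p : ℝ} {X Y : Set ℂ} {b h hx hy : ℂ → ℂ}

theorem meas_AH_comp (hA : SpecAlg) (mx : Measurable hx) (my : Measurable hy) :
    Measurable fun z => AH p (hx z) (hy z) := by
  have h1 := (hA.meas_AH p).comp (mx.prodMk my)
  rw [Function.comp_def] at h1
  exact h1

theorem meas_PP_comp (hA : SpecAlg) (mx : Measurable hx) (my : Measurable hy) :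
    Measurable fun z => PP p (hx z) (hy z) := by
  have h1 := (hA.meas_PP p).comp (mx.prodMk my)
  rw [Function.comp_def] at h1
  exact h1

theorem meas_jac_comp (hA : SpecAlg) (mx : Measurable hx) (my : Measurable hy) :
    Measurable fun z => jac (hx z) (hy z) := by
  have h1 := hA.meas_jac.comp (mx.prodMk my)
  rw [Function.comp_def] at h1
  exact h1

theorem AH_integrable (hA : SpecAlg) (hp : 1 < p) (h1 : Adm p X Y b h hx hy) :
    IntegrableOn (fun z => AH p (hx z) (hy z)) X := by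
  refine ⟨(meas_AH_comp hA h1.wd.mx h1.wd.my).aestronglyMeasurable, ?_⟩
  rw [hasFiniteIntegral_iff_norm]
  calc ∫⁻ z in X, ENNReal.ofReal ‖AH p (hx z) (hy z)‖
      ≤ ∫⁻ z in X, 2 * PP p (hx z) (hy z) := lintegral_mono fun z => hA.AH_le p hp _ _
    _ = 2 * ∫⁻ z in X, PP p (hx z) (hy z) :=
        lintegral_const_mul _ (meas_PP_comp hA h1.wd.mx h1.wd.my)
    _ < ⊤ := ENNReal.mul_lt_top (by simp) h1.en

theorem PP_ae_lt (hA : SpecAlg) (h1 : Adm p X Y b h hx hy) :
    ∀ᵐ z ∂(volume.restrict X), PP p (hx z) (hy z) < ⊤ :=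
  ae_lt_top (meas_PP_comp hA h1.wd.mx h1.wd.my) h1.en.ne

theorem fderiv_off {η : ℂ → ℂ} (hη : tsupport η ⊆ X) {z : ℂ} (hz : z ∉ X) :
    fderiv ℝ η z = 0 := by
  have : z ∉ tsupport (fderiv ℝ η) := fun hh => hz (hη (tsupport_fderiv_subset ℝ hh))
  exact image_eq_zero_of_notMem_tsupport this

end VarM

/-- D5. HOPF -/
theorem specHopf (hA : SpecAlg) (hE : SpecEuler) (hW : SpecWeyl) : SpecHopf := by
  intro p hp X Y b h hx hy hD hM
  have hint := VarM.AH_integrable hA hp hM.ad
  refine hW X (fun z => AH p (hx z) (hy z)) hD.oX (fun K hK _ => hint.mono_set hK) ?_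
  intro η h1 h2 h3
  have h4 := hE p hp X Y b h hx hy hD hM η h1 h2 h3
  rwa [setIntegral_eq_integral_of_forall_compl_eq_zero] at h4
  intro z hz
  rw [VarM.fderiv_off h3 hz]
  simp

end MPfa
end

section
/-!
Problem MP_fa0334_an: module EULER (the inner variation).
-/
set_option autoImplicit false

open MeasureTheory Set Filter Topology Metric Complex
open scoped ContDiff ENNReal ComplexConjugate

namespace MPfa

namespace EulerM

theorem eq_zero_of_quad {a c s : ℝ} (hs : 0 < s) (h : ∀ t : ℝ, |t| < s → t * a ≤ c * t ^ 2) :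
    a = 0 := by
  by_contra ha
  have ha' : 0 < |a| := abs_pos.2 ha
  set t := min (s / 2) (|a| / (2 * (|c| + 1))) with ht
  have ht0 : 0 < t := lt_min (by positivity) (by positivity)
  have hts : t < s := (min_le_left _ _).trans_lt (by linarith)
  have hta : t * (2 * (|c| + 1)) ≤ |a| := by
    have : t ≤ |a| / (2 * (|c| + 1)) := min_le_right _ _
    exact (le_div_iff₀ (by positivity)).1 this
  have h1 : |a| ≤ |c| * t := by
    rcases le_total 0 a with h0 | h0
    · have h2 := h t (by rwa [abs_of_pos ht0])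
      rw [abs_of_nonneg h0]
      have h3 : t * a ≤ t * (|c| * t) := by
        calc t * a ≤ c * t ^ 2 := h2
          _ ≤ |c| * t ^ 2 := by gcongr; exact le_abs_self c
          _ = t * (|c| * t) := by ring
      exact le_of_mul_le_mul_left h3 ht0
    · have h2 := h (-t) (by rwa [abs_neg, abs_of_pos ht0])
      rw [abs_of_nonpos h0]
      have h3 : t * (-a) ≤ t * (|c| * t) := by
        calc t * (-a) = -t * a := by ring
          _ ≤ c * (-t) ^ 2 := h2
          _ ≤ |c| * (-t) ^ 2 := by gcongr; exact le_abs_self c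
          _ = t * (|c| * t) := by ring
      exact le_of_mul_le_mul_left h3 ht0
  nlinarith [abs_nonneg c]

variable {p : ℝ} {X Y : Set ℂ} {b h hx hy : ℂ → ℂ}

theorem norm_AH_le (hA : SpecAlg) (hp : 1 < p) {a c : ℂ} (h1 : PP p a c < ⊤) :
    ‖AH p a c‖ ≤ 2 * (PP p a c).toReal := by
  have h2 := hA.AH_le p hp a c
  have h3 := ENNReal.toReal_mono (ENNReal.mul_lt_top (by simp) h1).ne h2
  rwa [ENNReal.toReal_ofReal (norm_nonneg _), ENNReal.toReal_mul, ENNReal.toReal_ofNat] at h3

theorem real_part (hA : SpecAlg) (hPsi : SpecPsi) (hComp : SpecComp) (hTh : SpecTheta)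
    (hp : 1 < p) (hD : Dom X Y b) (hM : Mini p X Y b h hx hy) (η : ℂ → ℂ)
    (h1 : ContDiff ℝ ∞ η) (h2 : HasCompactSupport η) (h3 : tsupport η ⊆ X) :
    IntegrableOn (fun z => (AH p (hx z) (hy z) * (fderiv ℝ η z 1 + I * fderiv ℝ η z I)).re) X ∧
    ∫ z in X, (AH p (hx z) (hy z) * (fderiv ℝ η z 1 + I * fderiv ℝ η z I)).re = 0 := by
  obtain ⟨B, hB⟩ := (h2.fderiv (𝕜 := ℝ)).exists_bound_of_continuous
    (h1.continuous_fderiv (by simp))
  have hB0 : 0 ≤ B := (norm_nonneg _).trans (hB 0)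
  have hB1 : ∀ z, ‖fderiv ℝ η z 1‖ ≤ B := fun z =>
    ((fderiv ℝ η z).le_opNorm 1).trans (by simpa using hB z)
  have hB2 : ∀ z, ‖fderiv ℝ η z I‖ ≤ B := fun z =>
    ((fderiv ℝ η z).le_opNorm I).trans (by simpa using hB z)
  set A : ℂ → ℝ := fun z => (AH p (hx z) (hy z) * (fderiv ℝ η z 1 + I * fderiv ℝ η z I)).re
    with hAdef
  set P : ℂ → ℝ := fun z => (PP p (hx z) (hy z)).toReal with hPdef
  have hPlt := VarM.PP_ae_lt hA hM.ad
  have hPm : Measurable P := (VarM.meas_PP_comp hA hM.ad.wd.mx hM.ad.wd.my).ennreal_toReal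
  have hPint : IntegrableOn P X :=
    integrable_toReal_of_lintegral_ne_top
      (VarM.meas_PP_comp hA hM.ad.wd.mx hM.ad.wd.my).aemeasurable hM.ad.en.ne
  have hP0 : ∀ z, 0 ≤ P z := fun z => ENNReal.toReal_nonneg
  have hPE : ∫⁻ z in X, PP p (hx z) (hy z) = ENNReal.ofReal (∫ z in X, P z) := by
    rw [hPdef, integral_toReal (VarM.meas_PP_comp hA hM.ad.wd.mx hM.ad.wd.my).aemeasurable hPlt,
      ENNReal.ofReal_toReal hM.ad.en.ne]
  have hAle : ∀ᵐ z ∂(volume.restrict X), |A z| ≤ 4 * B * P z := by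
    filter_upwards [hPlt] with z hz
    calc |A z| ≤ ‖AH p (hx z) (hy z) * (fderiv ℝ η z 1 + I * fderiv ℝ η z I)‖ :=
          Complex.abs_re_le_norm _
      _ = ‖AH p (hx z) (hy z)‖ * ‖fderiv ℝ η z 1 + I * fderiv ℝ η z I‖ := norm_mul _ _
      _ ≤ (2 * P z) * (B + B) := by
          refine mul_le_mul (norm_AH_le hA hp hz) ?_ (norm_nonneg _) (by have := hP0 z; positivity)
          refine (norm_add_le _ _).trans (add_le_add (hB1 z) ?_)
          rw [norm_mul, Complex.norm_I, one_mul]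
          exact hB2 z
      _ = 4 * B * P z := by ring
  have hAm : Measurable A := by
    have g1 : Continuous fun z => fderiv ℝ η z 1 + I * fderiv ℝ η z I :=
      ((h1.continuous_fderiv (by simp)).clm_apply continuous_const).add
        (continuous_const.mul ((h1.continuous_fderiv (by simp)).clm_apply continuous_const))
    exact Complex.measurable_re.comp
      ((VarM.meas_AH_comp hA hM.ad.wd.mx hM.ad.wd.my).mul g1.measurable)
  have hAint : IntegrableOn A X := by
    refine Integrable.mono' (hPint.const_mul (4 * B)) hAm.aestronglyMeasurable ?_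
    filter_upwards [hAle] with z hz
    exact hz
  refine ⟨hAint, ?_⟩
  obtain ⟨t₀, ht₀, hpsi⟩ := hPsi X η hD.oX h1 h2 h3
  obtain ⟨t₁, ht₁, C, hC, hth⟩ := hTh p hp B
  have hp0 : 0 < p := by linarith
  have key : ∀ t : ℝ, |t| < min (min t₀ t₁) (1 / (2 * B * p + 1)) →
      t * ((p / 2) * ∫ z in X, A z) ≤ (C * ∫ z in X, P z) * t ^ 2 := by
    intro t ht
    have g0 : |t| < t₀ := ht.trans_le ((min_le_left _ _).trans (min_le_left _ _))
    have g1 : |t| < t₁ := ht.trans_le ((min_le_left _ _).trans (min_le_right _ _))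
    have g2 : |t| < 1 / (2 * B * p + 1) := ht.trans_le (min_le_right _ _)
    have g3 : |t| * (2 * B * p) ≤ 1 := by
      have := (lt_div_iff₀ (by positivity)).1 g2
      nlinarith [abs_nonneg t]
    obtain ⟨χ, c1, c2, c3, c4, c5, c6, c7⟩ := hpsi t g0
    obtain ⟨kx, ky, k1, k2, k3⟩ := hComp p hp X Y b h hx hy η χ t hD hM.ad h1 h2 h3 c1 c2 c3 c4
      c5 c6 c7
    set f : ℂ → ℝ := fun z => P z - t * (p / 2) * A z + C * t ^ 2 * P z with hf
    have hf0 : ∀ᵐ z ∂(volume.restrict X), 0 ≤ f z := by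
      filter_upwards [hAle] with z hz
      have m1 : t * (p / 2) * A z ≤ P z := by
        calc t * (p / 2) * A z ≤ |t * (p / 2) * A z| := le_abs_self _
          _ = |t| * (p / 2) * |A z| := by
              rw [abs_mul, abs_mul, abs_of_pos (show 0 < p / 2 by positivity)]
          _ ≤ |t| * (p / 2) * (4 * B * P z) := by gcongr
          _ = (|t| * (2 * B * p)) * P z := by ring
          _ ≤ 1 * P z := mul_le_mul_of_nonneg_right g3 (hP0 z)
          _ = P z := one_mul _
      have m2 : 0 ≤ C * t ^ 2 * P z := by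
        have := hP0 z
        positivity
      simp only [hf]
      linarith
    have hfint : IntegrableOn f X :=
      (hPint.sub (hAint.const_mul (t * (p / 2)))).add (hPint.const_mul (C * t ^ 2))
    have hPT : ∫⁻ z in X, PP p (kx z) (ky z) ≤ ENNReal.ofReal (∫ z in X, f z) := by
      rw [k3, ofReal_integral_eq_lintegral_ofReal hfint hf0]
      refine lintegral_mono_ae ?_
      filter_upwards [hPlt] with z hz
      exact hth (hx z) (hy z) (fderiv ℝ η z 1) (fderiv ℝ η z I) hz (hB1 z) (hB2 z) t g1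
    have hadm : Adm p X Y b (fun z => h (χ z)) kx ky :=
      ⟨k1, k2, hPT.trans_lt ENNReal.ofReal_lt_top⟩
    have hle := (hM.mi _ kx ky hadm).trans hPT
    rw [hPE, ENNReal.ofReal_le_ofReal_iff (integral_nonneg_of_ae hf0)] at hle
    have hfe : ∫ z in X, f z = (∫ z in X, P z) - t * (p / 2) * (∫ z in X, A z) +
        C * t ^ 2 * ∫ z in X, P z := by
      have q1 : IntegrableOn (fun z => t * (p / 2) * A z) X := hAint.const_mul (t * (p / 2))
      have q2 : IntegrableOn (fun z => C * t ^ 2 * P z) X := hPint.const_mul (C * t ^ 2)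
      have q3 : IntegrableOn (fun z => P z - t * (p / 2) * A z) X := hPint.sub q1
      have q4 : ∫ z in X, f z = (∫ z in X, (P z - t * (p / 2) * A z)) +
          ∫ z in X, C * t ^ 2 * P z := integral_add q3 q2
      have q5 : ∫ z in X, (P z - t * (p / 2) * A z) =
          (∫ z in X, P z) - ∫ z in X, t * (p / 2) * A z := integral_sub hPint q1
      rw [q4, q5, integral_const_mul, integral_const_mul]
    rw [hfe] at hle
    nlinarith
  have := eq_zero_of_quad (lt_min (lt_min ht₀ ht₁) (by positivity)) key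
  have hp2 : p / 2 ≠ 0 := by positivity
  exact (mul_eq_zero.1 this).resolve_left hp2

end EulerM

/-- D4. EULER -/
theorem specEuler (hA : SpecAlg) (hPsi : SpecPsi) (hComp : SpecComp) (hTh : SpecTheta) :
    SpecEuler := by
  intro p hp X Y b h hx hy hD hM η h1 h2 h3
  obtain ⟨i1, r1⟩ := EulerM.real_part hA hPsi hComp hTh hp hD hM η h1 h2 h3
  have hI : ∀ z v, fderiv ℝ (fun z => I * η z) z v = I * fderiv ℝ η z v := by
    intro z v
    rw [((h1.differentiable (by simp)) z).hasFDerivAt.const_mul I |>.fderiv]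
    rfl
  have h1' : ContDiff ℝ ∞ fun z => I * η z := contDiff_const.mul h1
  have h2' : HasCompactSupport fun z => I * η z := h2.mul_left
  have h3' : tsupport (fun z => I * η z) ⊆ X := (tsupport_mul_subset_right).trans h3
  obtain ⟨i2, r2⟩ := EulerM.real_part hA hPsi hComp hTh hp hD hM _ h1' h2' h3'
  set g : ℂ → ℂ := fun z => AH p (hx z) (hy z) * (fderiv ℝ η z 1 + I * fderiv ℝ η z I) with hg
  have e2 : ∀ z, (AH p (hx z) (hy z) * (fderiv ℝ (fun z => I * η z) z 1 +
      I * fderiv ℝ (fun z => I * η z) z I)).re = -(g z).im := by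
    intro z
    rw [hI, hI]
    have : AH p (hx z) (hy z) * (I * fderiv ℝ η z 1 + I * (I * fderiv ℝ η z I)) = I * g z := by
      simp only [hg]
      ring
    rw [this, Complex.I_mul_re]
  simp only [e2] at i2 r2
  have i1' : IntegrableOn (fun z => (g z).re) X := i1
  have r1' : ∫ z in X, (g z).re = 0 := r1
  have i3 : IntegrableOn (fun z => (g z).im) X := by
    have := i2.neg
    simpa using! this
  have r3 : ∫ z in X, (g z).im = 0 := by
    rw [integral_neg] at r2
    linarith
  have i4 : IntegrableOn g X := by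
    have := i1'.ofReal (𝕜 := ℂ) |>.add ((i3.ofReal (𝕜 := ℂ)).mul_const I)
    refine this.congr (ae_of_all _ fun z => ?_)
    simp [Complex.re_add_im]
  apply Complex.ext
  · rw [← Complex.reCLM_apply, ← ContinuousLinearMap.integral_comp_comm _ i4]
    simpa using r1'
  · rw [← Complex.imCLM_apply, ← ContinuousLinearMap.integral_comp_comm _ i4]
    simpa using r3

end MPfa
end

section
/-!
Module FAT: boundary bumping for the fibres of `h ∘ ψ`.
-/
set_option autoImplicit false

open MeasureTheory Set Filter Topology Metric Complex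
open scoped ContDiff ENNReal ComplexConjugate

namespace MPfa

theorem specFat (hLim : SpecLim) (hBump : SpecBump) : SpecFat := by
  intro X Y b h ψ χ c hD hL hψ hχ hbij hinv hcase t ht htc
  obtain ⟨hc, hm, hfb, hs, hfr, hcon, -⟩ := hLim X Y b h hD hL
  have hXc : X ⊆ closure X := subset_closure
  simp only at htc
  set K : Set ℂ := {z | z ∈ closure X ∧ h z = c} with hK
  have hKc : IsCompact K := by
    have h1 : K = closure X ∩ h ⁻¹' {c} := by
      ext z; simp [hK]
    rw [h1]
    exact hD.cX.of_isClosed_subset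
      (hc.preimage_isClosed_of_isClosed isClosed_closure isClosed_singleton) inter_subset_left
  -- the radius
  obtain ⟨r, hr, hball, hnot⟩ : ∃ r > 0, closedBall t r ⊆ ball (0 : ℂ) 1 ∧
      ∀ U ⊆ ball t r, ¬ K ⊆ ψ '' U := by
    have ht1 : ‖t‖ < 1 := by simpa using ht
    rcases hcase with ⟨z, hz, z', hz', hne, h1, h2⟩ | hcY
    · obtain ⟨s', hs'D, hs'c, hs't⟩ : ∃ s' ∈ ball (0 : ℂ) 1, h (ψ s') = c ∧ s' ≠ t := by
        by_cases hzt : z = t
        · exact ⟨z', hz', h2, fun h => hne (hzt.trans h.symm)⟩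
        · exact ⟨z, hz, h1, hzt⟩
      have hd : 0 < dist s' t := dist_pos.2 hs't
      refine ⟨min (dist s' t) ((1 - ‖t‖) / 2), lt_min hd (by linarith), ?_, ?_⟩
      · intro w hw
        rw [mem_closedBall, dist_eq_norm] at hw
        rw [mem_ball_zero_iff]
        have h3 : ‖w - t‖ ≤ (1 - ‖t‖) / 2 := hw.trans (min_le_right _ _)
        have h4 : ‖w‖ ≤ ‖w - t‖ + ‖t‖ := by simpa using norm_add_le (w - t) t
        linarith
      · intro U hU hKU
        obtain ⟨w, hw, hwe⟩ := hKU (show ψ s' ∈ K from ⟨hXc (hbij.mapsTo hs'D), hs'c⟩)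
        have hw1 := hU hw
        have hwD : w ∈ ball (0 : ℂ) 1 := by
          rw [mem_ball, dist_eq_norm] at hw1
          rw [mem_ball_zero_iff]
          have h3 : ‖w - t‖ < (1 - ‖t‖) / 2 := hw1.trans_le (min_le_right _ _)
          have h4 : ‖w‖ ≤ ‖w - t‖ + ‖t‖ := by simpa using norm_add_le (w - t) t
          linarith
        have h5 : w = s' := hbij.injOn hwD hs'D hwe
        rw [h5, mem_ball] at hw1
        exact absurd (hw1.trans_le (min_le_left _ _)) (lt_irrefl _)
    · have hcY' : c ∈ closure Y \ Y := by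
        rwa [frontier, hD.oY.interior_eq] at hcY
      obtain ⟨x, hx, hxc⟩ := hD.bi.surjOn hcY'.1
      have hxX : x ∉ X := fun h1 => hcY'.2 (hxc ▸ hD.bX.mapsTo h1)
      have hxf : x ∈ frontier X := by
        rw [frontier, hD.oX.interior_eq]
        exact ⟨hx, hxX⟩
      refine ⟨(1 - ‖t‖) / 2, by linarith, ?_, ?_⟩
      · intro w hw
        rw [mem_closedBall, dist_eq_norm] at hw
        rw [mem_ball_zero_iff]
        have h4 : ‖w‖ ≤ ‖w - t‖ + ‖t‖ := by simpa using norm_add_le (w - t) t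
        linarith
      · intro U hU hKU
        obtain ⟨w, hw, hwe⟩ := hKU (show x ∈ K from ⟨hx, by rw [hfb hxf, hxc]⟩)
        have hw1 := hU hw
        have hwD : w ∈ ball (0 : ℂ) 1 := by
          rw [mem_ball, dist_eq_norm] at hw1
          rw [mem_ball_zero_iff]
          have h4 : ‖w‖ ≤ ‖w - t‖ + ‖t‖ := by simpa using norm_add_le (w - t) t
          linarith
        exact hxX (hwe ▸ hbij.mapsTo hwD)
  refine ⟨r, hr, hball, fun U hU hUt s hsU hsc => ?_⟩
  have hUD : U ⊆ ball (0 : ℂ) 1 := hUt.trans (ball_subset_closedBall.trans hball)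
  have hcl : closure U ⊆ ball (0 : ℂ) 1 :=
    ((closure_mono hUt).trans closure_ball_subset_closedBall).trans hball
  have hclc : IsCompact (closure U) :=
    (isCompact_closedBall t r).of_isClosed_subset isClosed_closure
      ((closure_mono hUt).trans closure_ball_subset_closedBall)
  -- the image of `U`
  have himg : ψ '' U = X ∩ χ ⁻¹' U := by
    ext x
    constructor
    · rintro ⟨z, hz, rfl⟩
      refine ⟨hbij.mapsTo (hUD hz), ?_⟩
      rw [mem_preimage, hinv z (hUD hz)]
      exact hz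
    · rintro ⟨hx, hxU⟩
      obtain ⟨z, hz, rfl⟩ := hbij.surjOn hx
      rw [mem_preimage, hinv z hz] at hxU
      exact ⟨z, hxU, rfl⟩
  have hUo : IsOpen (ψ '' U) := by
    rw [himg]
    exact hχ.isOpen_inter_preimage hD.oX hU
  have hclim : closure (ψ '' U) ⊆ ψ '' closure U :=
    closure_minimal (image_mono subset_closure)
      (hclc.image_of_continuousOn (hψ.mono hcl)).isClosed
  have hsK : ψ s ∈ K ∩ ψ '' U := ⟨⟨hXc (hbij.mapsTo (hUD hsU)), hsc⟩, ⟨s, hsU, rfl⟩⟩
  obtain ⟨T', hT'K, hT'c, hsT', x, hxT', hxf⟩ :=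
    hBump K (ψ '' U) hKc (hcon c) hUo (hnot U hUt) (ψ s) hsK
  have hT'cl : ∀ x ∈ T', ∃ z ∈ closure U, ψ z = x ∧ χ x = z := by
    intro x hx
    obtain ⟨z, hz, rfl⟩ := hclim (hT'K hx).2
    exact ⟨z, hz, rfl, hinv z (hcl hz)⟩
  refine ⟨χ '' T', ?_, ?_, ?_, ?_, ?_⟩
  · refine hT'c.image χ (hχ.mono ?_)
    intro x hx
    obtain ⟨z, hz, rfl, -⟩ := hT'cl x hx
    exact hbij.mapsTo (hcl hz)
  · rintro _ ⟨x, hx, rfl⟩
    obtain ⟨z, hz, -, h2⟩ := hT'cl x hx
    rw [h2]
    exact hz
  · rintro _ ⟨x, hx, rfl⟩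
    obtain ⟨z, hz, h1, h2⟩ := hT'cl x hx
    simp only
    rw [h2, h1]
    exact (hT'K hx).1.2
  · exact ⟨ψ s, hsT', hinv s (hUD hsU)⟩
  · obtain ⟨z, hz, h1, h2⟩ := hT'cl x hxT'
    refine ⟨z, ⟨x, hxT', h2⟩, ?_⟩
    rw [frontier, hU.interior_eq]
    refine ⟨hz, fun hzU => ?_⟩
    rw [frontier, hUo.interior_eq] at hxf
    exact hxf.2 ⟨z, hzU, h1⟩

end MPfa
end

section
/-!
Problem MP_fa0334_an, module GROW (E14): exponential growth for a weakly coupled hyperbolic system.
-/
set_option autoImplicit false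

open MeasureTheory Set Filter Topology Metric Complex
open scoped ContDiff ENNReal ComplexConjugate

namespace MPfa

namespace Grow

/-- derivative of `|P|²` -/
lemma normsq_deriv {P : ℝ → ℂ} {P' : ℂ} {s : Set ℝ} {v : ℝ} (h : HasDerivWithinAt P P' s v) :
    HasDerivWithinAt (fun x => ‖P x‖ ^ 2) (2 * (conj (P v) * P').re) s v := by
  have h1 : HasDerivWithinAt (fun x => (P x).re) P'.re s v :=
    Complex.reCLM.hasFDerivAt.comp_hasDerivWithinAt v h
  have h2 : HasDerivWithinAt (fun x => (P x).im) P'.im s v :=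
    Complex.imCLM.hasFDerivAt.comp_hasDerivWithinAt v h
  have h3 := (h1.mul h1).add (h2.mul h2)
  have e : (fun x => ‖P x‖ ^ 2) = fun x => (P x).re * (P x).re + (P x).im * (P x).im := by
    funext x
    rw [← Complex.normSq_eq_norm_sq, Complex.normSq_apply]
  rw [e]
  refine h3.congr_deriv ?_
  simp only [Complex.mul_re, Complex.conj_re, Complex.conj_im]
  ring

lemma re_le (z w : ℂ) : (conj z * w).re ≤ ‖z‖ * ‖w‖ := by
  calc (conj z * w).re ≤ ‖conj z * w‖ := Complex.re_le_norm _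
    _ = ‖z‖ * ‖w‖ := by rw [norm_mul, Complex.norm_conj]

lemma neg_le_re (z w : ℂ) : -(‖z‖ * ‖w‖) ≤ (conj z * w).re := by
  have h := re_le z (-w)
  rw [norm_neg, mul_neg, Complex.neg_re] at h
  linarith

/-- monotonicity from a derivative within a closed interval -/
lemma mono {f f' : ℝ → ℝ} {a b : ℝ}
    (h : ∀ v ∈ Icc a b, HasDerivWithinAt f (f' v) (Icc a b) v)
    (h0 : ∀ v ∈ Icc a b, 0 ≤ f' v) : MonotoneOn f (Icc a b) := by
  refine monotoneOn_of_deriv_nonneg (convex_Icc a b) (fun v hv => (h v hv).continuousWithinAt) ?_ ?_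
  · intro v hv
    rw [interior_Icc] at hv
    exact ((h v (Ioo_subset_Icc_self hv)).hasDerivAt (Icc_mem_nhds hv.1 hv.2)).differentiableAt.differentiableWithinAt
  · intro v hv
    rw [interior_Icc] at hv
    rw [((h v (Ioo_subset_Icc_self hv)).hasDerivAt (Icc_mem_nhds hv.1 hv.2)).deriv]
    exact h0 v (Ioo_subset_Icc_self hv)

/-- one phase with an affine lower bound `D ≥ (α + β v) S` -/
lemma phase {l a b α β : ℝ} {D S D' S' : ℝ → ℝ} (hl : 0 < l)
    (hD : ∀ v ∈ Icc a b, HasDerivWithinAt D (D' v) (Icc a b) v)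
    (hS : ∀ v ∈ Icc a b, HasDerivWithinAt S (S' v) (Icc a b) v)
    (hD' : ∀ v ∈ Icc a b, 3 / 2 * l * S v ≤ D' v)
    (hS' : ∀ v ∈ Icc a b, |S' v - 2 * l * D v| ≤ l / 2 * S v)
    (h0 : ∀ v ∈ Icc a b, 0 ≤ S v)
    (hβ0 : 0 ≤ β) (hβ : β ≤ l / 2) (hφ : ∀ v ∈ Icc a b, 0 ≤ α + β * v ∧ α + β * v ≤ 1 / 2)
    (hab : a ≤ b) (hi : (α + β * a) * S a ≤ D a) :
    (∀ v ∈ Icc a b, (α + β * v) * S v ≤ D v) ∧
      S a * Real.exp (l * ((2 * α * b + β * b ^ 2 - b / 2) - (2 * α * a + β * a ^ 2 - a / 2))) ≤ S b := by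
  have haI : a ∈ Icc a b := ⟨le_refl _, hab⟩
  have hbI : b ∈ Icc a b := ⟨hab, le_refl _⟩
  have key : ∀ v ∈ Icc a b, (α + β * v) * S v ≤ D v := by
    intro v hv
    have hm : MonotoneOn (fun v => (D v - (α + β * v) * S v) * Real.exp (2 * l * (α * v + β * v ^ 2 / 2)))
        (Icc a b) := by
      refine mono (f' := fun v => (D' v - (β * S v + (α + β * v) * S' v)) *
          Real.exp (2 * l * (α * v + β * v ^ 2 / 2)) + (D v - (α + β * v) * S v) *
          (Real.exp (2 * l * (α * v + β * v ^ 2 / 2)) * (2 * l * (α + β * v)))) ?_ ?_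
      · intro v hv
        have e1 : HasDerivAt (fun v : ℝ => α + β * v) β v := by
          simpa using ((hasDerivAt_id v).const_mul β).const_add α
        have e2 : HasDerivAt (fun v : ℝ => 2 * l * (α * v + β * v ^ 2 / 2)) (2 * l * (α + β * v)) v := by
          have := (((hasDerivAt_id v).const_mul α).add ((((hasDerivAt_id v).pow 2).const_mul β).div_const 2)).const_mul (2 * l)
          refine this.congr_deriv ?_
          simp only [id]
          push_cast
          ring
        exact ((hD v hv).sub (e1.hasDerivWithinAt.mul (hS v hv))).mul e2.exp.hasDerivWithinAt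
      · intro v hv
        have hE := Real.exp_pos (2 * l * (α * v + β * v ^ 2 / 2))
        have hSv := h0 v hv
        have hφv := hφ v hv
        have h1 := hD' v hv
        have h2 := abs_le.mp (hS' v hv)
        have : 0 ≤ (D' v - (β * S v + (α + β * v) * S' v)) + (D v - (α + β * v) * S v) * (2 * l * (α + β * v)) := by
          set φ := α + β * v with hφdef
          have h3 : φ * S' v ≤ φ * (2 * l * D v + l / 2 * S v) := mul_le_mul_of_nonneg_left (by linarith [h2.2]) hφv.1
          have h4 : β * S v ≤ l / 2 * S v := mul_le_mul_of_nonneg_right hβ hSv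
          have h5 : 0 ≤ l * S v := by positivity
          have h6 : φ * φ ≤ 1 / 4 := by nlinarith [hφv.1, hφv.2]
          have h7 : φ * φ * (l * S v) ≤ 1 / 4 * (l * S v) := mul_le_mul_of_nonneg_right h6 h5
          have h8 : φ * (l * S v) ≤ 1 / 2 * (l * S v) := mul_le_mul_of_nonneg_right hφv.2 h5
          nlinarith
        nlinarith
    have := hm haI hv hv.1
    have hEa := Real.exp_pos (2 * l * (α * a + β * a ^ 2 / 2))
    have hEv := Real.exp_pos (2 * l * (α * v + β * v ^ 2 / 2))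
    have h1 : 0 ≤ (D a - (α + β * a) * S a) * Real.exp (2 * l * (α * a + β * a ^ 2 / 2)) :=
      mul_nonneg (by linarith) hEa.le
    have h2 : 0 ≤ (D v - (α + β * v) * S v) * Real.exp (2 * l * (α * v + β * v ^ 2 / 2)) := h1.trans this
    have h3 : 0 ≤ D v - (α + β * v) * S v := by
      by_contra hneg
      push Not at hneg
      exact absurd h2 (not_le.mpr (mul_neg_of_neg_of_pos hneg hEv))
    linarith
  refine ⟨key, ?_⟩
  have hm : MonotoneOn (fun v => S v * Real.exp (-(l * (2 * α * v + β * v ^ 2 - v / 2)))) (Icc a b) := by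
    refine mono (f' := fun v => S' v * Real.exp (-(l * (2 * α * v + β * v ^ 2 - v / 2))) + S v *
          (Real.exp (-(l * (2 * α * v + β * v ^ 2 - v / 2))) * (-(l * (2 * α + 2 * β * v - 1 / 2))))) ?_ ?_
    · intro v hv
      have e2 : HasDerivAt (fun v : ℝ => -(l * (2 * α * v + β * v ^ 2 - v / 2)))
          (-(l * (2 * α + 2 * β * v - 1 / 2))) v := by
        have := (((((hasDerivAt_id v).const_mul (2 * α)).add (((hasDerivAt_id v).pow 2).const_mul β)).sub
          ((hasDerivAt_id v).div_const 2)).const_mul l).neg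
        refine this.congr_deriv ?_
        simp only [id]
        push_cast
        ring
      exact (hS v hv).mul e2.exp.hasDerivWithinAt
    · intro v hv
      have hE := Real.exp_pos (-(l * (2 * α * v + β * v ^ 2 - v / 2)))
      have h2 := abs_le.mp (hS' v hv)
      have h3 := key v hv
      have : 0 ≤ S' v + S v * (-(l * (2 * α + 2 * β * v - 1 / 2))) := by
        have h4 : l * ((α + β * v) * S v) ≤ l * D v := mul_le_mul_of_nonneg_left h3 hl.le
        nlinarith [h2.1]
      nlinarith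
  have h1 := hm haI hbI hab
  have h2 : S a * Real.exp (-(l * (2 * α * a + β * a ^ 2 - a / 2))) *
      Real.exp (l * (2 * α * b + β * b ^ 2 - b / 2)) ≤
      S b * Real.exp (-(l * (2 * α * b + β * b ^ 2 - b / 2))) * Real.exp (l * (2 * α * b + β * b ^ 2 - b / 2)) :=
    mul_le_mul_of_nonneg_right h1 (Real.exp_pos _).le
  rw [mul_assoc (S a), mul_assoc (S b), ← Real.exp_add, ← Real.exp_add, neg_add_cancel, Real.exp_zero, mul_one] at h2
  refine le_trans (le_of_eq ?_) h2
  congr 2
  ring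

end Grow

open Grow in
theorem specGrow : SpecGrow := by
  intro l T P N e₁ e₂ hl hlT hP hN he h0
  have hT : 0 < T := by
    by_contra hT
    push Not at hT
    nlinarith
  set D : ℝ → ℝ := fun v => ‖P v‖ ^ 2 - ‖N v‖ ^ 2 with hDdef
  set S : ℝ → ℝ := fun v => ‖P v‖ ^ 2 + ‖N v‖ ^ 2 with hSdef
  set D' : ℝ → ℝ := fun v => 2 * (conj (P v) * (l * P v + e₁ v)).re - 2 * (conj (N v) * (-(l * N v) + e₂ v)).re with hD'
  set S' : ℝ → ℝ := fun v => 2 * (conj (P v) * (l * P v + e₁ v)).re + 2 * (conj (N v) * (-(l * N v) + e₂ v)).re with hS'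
  have hPP : ∀ z : ℂ, (conj z * (l * z)).re = l * ‖z‖ ^ 2 := by
    intro z
    rw [← Complex.normSq_eq_norm_sq, Complex.normSq_apply]
    simp
    ring
  have hS0 : ∀ v, 0 ≤ S v := fun v => by positivity
  have hdD : ∀ v ∈ Icc 0 T, HasDerivWithinAt D (D' v) (Icc 0 T) v := fun v hv =>
    (normsq_deriv (hP v hv)).sub (normsq_deriv (hN v hv))
  have hdS : ∀ v ∈ Icc 0 T, HasDerivWithinAt S (S' v) (Icc 0 T) v := fun v hv =>
    (normsq_deriv (hP v hv)).add (normsq_deriv (hN v hv))
  have hb : ∀ v ∈ Icc 0 T, 3 / 2 * l * S v ≤ D' v ∧ |S' v - 2 * l * D v| ≤ l / 2 * S v := by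
    intro v hv
    obtain ⟨h1, h2⟩ := he v hv
    have r1 := re_le (P v) (e₁ v)
    have r2 := neg_le_re (P v) (e₁ v)
    have r3 := re_le (N v) (e₂ v)
    have r4 := neg_le_re (N v) (e₂ v)
    have q1 : (conj (P v) * (l * P v + e₁ v)).re = l * ‖P v‖ ^ 2 + (conj (P v) * e₁ v).re := by
      rw [mul_add, Complex.add_re, hPP]
    have q2 : (conj (N v) * (-(l * N v) + e₂ v)).re = -(l * ‖N v‖ ^ 2) + (conj (N v) * e₂ v).re := by
      rw [mul_add, Complex.add_re, mul_neg, Complex.neg_re, hPP]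
    have p0 : 0 ≤ ‖P v‖ := norm_nonneg _
    have n0 : 0 ≤ ‖N v‖ := norm_nonneg _
    have s1 : ‖P v‖ * ‖e₁ v‖ ≤ ‖P v‖ * (l / 8 * (‖P v‖ + ‖N v‖)) := mul_le_mul_of_nonneg_left h1 p0
    have s2 : ‖N v‖ * ‖e₂ v‖ ≤ ‖N v‖ * (l / 8 * (‖P v‖ + ‖N v‖)) := mul_le_mul_of_nonneg_left h2 n0
    have s3 : l * (‖P v‖ + ‖N v‖) ^ 2 ≤ l * (2 * (‖P v‖ ^ 2 + ‖N v‖ ^ 2)) := by
      refine mul_le_mul_of_nonneg_left ?_ hl.le
      nlinarith [sq_nonneg (‖P v‖ - ‖N v‖)]
    constructor
    · simp only [hD', hSdef, q1, q2]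
      nlinarith
    · simp only [hS', hSdef, hDdef, q1, q2]
      rw [abs_le]
      constructor
      · nlinarith
      · nlinarith
  have h1T : 1 / l ≤ T := by
    rw [div_le_iff₀ hl]
    linarith
  have hl1 : (0 : ℝ) ≤ 1 / l := by positivity
  -- phase one
  have sub1 : Icc (0 : ℝ) (1 / l) ⊆ Icc 0 T := Icc_subset_Icc le_rfl h1T
  have sub2 : Icc (1 / l) T ⊆ Icc (0 : ℝ) T := Icc_subset_Icc hl1 le_rfl
  have ph1 := phase (a := 0) (b := 1 / l) (α := 0) (β := l / 2) (D := D) (S := S) (D' := D') (S' := S') hl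
    (fun v hv => (hdD v (sub1 hv)).mono sub1) (fun v hv => (hdS v (sub1 hv)).mono sub1)
    (fun v hv => (hb v (sub1 hv)).1) (fun v hv => (hb v (sub1 hv)).2) (fun v _ => hS0 v)
    (by positivity) le_rfl (by
      intro v hv
      constructor
      · have := hv.1
        positivity
      · have h3 : l * v ≤ 1 := by
          have := hv.2
          rw [le_div_iff₀ hl] at this
          linarith
        linarith) hl1 (by
      simp only [hDdef, mul_zero, add_zero, zero_mul]
      have := pow_le_pow_left₀ (norm_nonneg (N 0)) h0 2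
      linarith)
  have ph2 := phase (a := 1 / l) (b := T) (α := 1 / 2) (β := 0) (D := D) (S := S) (D' := D') (S' := S') hl
    (fun v hv => (hdD v (sub2 hv)).mono sub2) (fun v hv => (hdS v (sub2 hv)).mono sub2)
    (fun v hv => (hb v (sub2 hv)).1) (fun v hv => (hb v (sub2 hv)).2) (fun v _ => hS0 v)
    le_rfl (by positivity) (by
      intro v hv
      constructor <;> norm_num) h1T (by
      have := ph1.1 (1 / l) ⟨hl1, le_rfl⟩
      have e : (0 : ℝ) + l / 2 * (1 / l) = 1 / 2 + 0 * (1 / l) := by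
        field_simp
        norm_num
      rw [e] at this
      exact this)
  constructor
  · have := ph2.1 T ⟨h1T, le_rfl⟩
    simp only [hDdef, hSdef] at this
    linarith
  · have h1 := ph1.2
    have h2 := ph2.2
    have e1 : l * ((2 * 0 * (1 / l) + l / 2 * (1 / l) ^ 2 - 1 / l / 2) - (2 * 0 * 0 + l / 2 * 0 ^ 2 - 0 / 2)) = 0 := by
      field_simp
      ring
    rw [e1, Real.exp_zero, mul_one] at h1
    have e2 : l * ((2 * (1 / 2) * T + 0 * T ^ 2 - T / 2) - (2 * (1 / 2) * (1 / l) + 0 * (1 / l) ^ 2 - 1 / l / 2)) = l * T / 2 - 1 / 2 := by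
      field_simp
      ring
    rw [e2] at h2
    have h3 : Real.exp (l * T / 2 - 1) ≤ Real.exp (l * T / 2 - 1 / 2) := Real.exp_le_exp.mpr (by linarith)
    have h4 : Real.exp (l * T / 2 - 1) * S 0 ≤ S T := by
      calc Real.exp (l * T / 2 - 1) * S 0 ≤ Real.exp (l * T / 2 - 1 / 2) * S 0 :=
            mul_le_mul_of_nonneg_right h3 (hS0 0)
        _ ≤ Real.exp (l * T / 2 - 1 / 2) * S (1 / l) := mul_le_mul_of_nonneg_left h1 (Real.exp_pos _).le
        _ = S (1 / l) * Real.exp (l * T / 2 - 1 / 2) := mul_comm _ _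
        _ ≤ S T := h2
    exact h4

end MPfa
end

section
/-!
Problem MP_fa0334_an, module HOR (E23).
-/
set_option autoImplicit false

open MeasureTheory Set Filter Topology Metric Complex
open scoped ContDiff ENNReal ComplexConjugate

namespace MPfa

namespace HorM

/-- Gronwall for the pair `(D, S)` -/
lemma keep {L c : ℝ} {D S D' S' : ℝ → ℝ} (hL : 0 ≤ L)
    (hD : ∀ v ∈ Icc 0 L, HasDerivWithinAt D (D' v) (Icc 0 L) v)
    (hS : ∀ v ∈ Icc 0 L, HasDerivWithinAt S (S' v) (Icc 0 L) v)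
    (hD' : ∀ v ∈ Icc 0 L, -(c * S v) ≤ D' v)
    (hS' : ∀ v ∈ Icc 0 L, S' v ≤ c * S v) (hc : 0 ≤ c) :
    D 0 + S 0 - S 0 * Real.exp (c * L) ≤ D L := by
  have h0 : (0 : ℝ) ∈ Icc 0 L := ⟨le_rfl, hL⟩
  have hLL : L ∈ Icc 0 L := ⟨hL, le_rfl⟩
  have hexp : ∀ v : ℝ, HasDerivAt (fun v : ℝ => Real.exp (c * v)) (Real.exp (c * v) * c) v := by
    intro v
    have := ((hasDerivAt_id v).const_mul c).exp
    simpa using this
  have hSle : ∀ v ∈ Icc 0 L, S v ≤ S 0 * Real.exp (c * v) := by
    intro v hv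
    have hm : MonotoneOn (fun v => -(S v * Real.exp (-(c * v)))) (Icc 0 L) := by
      refine Grow.mono (f' := fun v => -(S' v * Real.exp (-(c * v)) + S v * (Real.exp (-(c * v)) * (-c)))) ?_ ?_
      · intro v hv
        have e2 : HasDerivAt (fun v : ℝ => Real.exp (-(c * v))) (Real.exp (-(c * v)) * (-c)) v := by
          have := ((hasDerivAt_id v).const_mul c).neg.exp
          simpa using this
        exact ((hS v hv).mul e2.hasDerivWithinAt).neg
      · intro v hv
        have hE := Real.exp_pos (-(c * v))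
        have h1 := hS' v hv
        nlinarith
    have h1 := hm h0 hv hv.1
    simp only [mul_zero, neg_zero, Real.exp_zero, mul_one, neg_le_neg_iff] at h1
    have h2 := mul_le_mul_of_nonneg_right h1 (Real.exp_pos (c * v)).le
    rw [mul_assoc, ← Real.exp_add, neg_add_cancel, Real.exp_zero, mul_one] at h2
    exact h2
  have hm : MonotoneOn (fun v => D v + S 0 * Real.exp (c * v)) (Icc 0 L) := by
    refine Grow.mono (f' := fun v => D' v + S 0 * (Real.exp (c * v) * c)) ?_ ?_
    · intro v hv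
      exact (hD v hv).add ((hexp v).const_mul (S 0)).hasDerivWithinAt
    · intro v hv
      have h1 := hD' v hv
      have h2 := mul_le_mul_of_nonneg_left (hSle v hv) hc
      linarith
  have := hm h0 hLL hL
  simp only [mul_zero, Real.exp_zero, mul_one] at this
  linarith

end HorM

open HorM CO in
theorem specHor : SpecHor := by
  intro D Ψ o r g hD hΨ hc
  have h0 : (0 : ℂ) ∈ ball (0 : ℂ) r := mem_ball_self hc.r0
  -- a bound for `g''/g'`
  have hqc : ContinuousAt (qh g) 0 := by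
    have h1 : ContinuousAt (deriv (deriv g)) 0 :=
      (((hc.d.deriv isOpen_ball).deriv isOpen_ball).differentiableAt (isOpen_ball.mem_nhds h0)).continuousAt
    have h2 : ContinuousAt (deriv g) 0 := (hdg hc h0).continuousAt
    exact h1.div h2 (hc.nd 0 h0)
  set G : ℝ := ‖qh g 0‖ + 1 with hG
  have hG0 : 0 < G := by positivity
  have hev : ∀ᶠ w in 𝓝 (0 : ℂ), ‖qh g w‖ < G := hqc.norm.eventually_lt_const (by rw [hG]; linarith)
  obtain ⟨δ, hδ, hδG⟩ := Metric.eventually_nhds_iff.mp hev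
  set l₀ : ℝ := min (min r δ) (1 / (4 * G)) with hl₀
  have hl₀0 : 0 < l₀ := by
    rw [hl₀]
    exact lt_min (lt_min hc.r0 hδ) (by positivity)
  refine ⟨l₀, hl₀0, (min_le_left _ _).trans (min_le_left _ _), ?_⟩
  intro l hl y hy hyo x hx
  have hxr : |x| < r := hx.trans_le ((min_le_left _ _).trans (min_le_left _ _))
  have hxδ : |x| < δ := hx.trans_le ((min_le_left _ _).trans (min_le_right _ _))
  have hxG : |x| < 1 / (4 * G) := hx.trans_le (min_le_right _ _)
  have hlne : (l : ℂ) ≠ 0 := by exact_mod_cast hl.ne'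
  -- the functions along the real axis, in the direction `σ = ± 1`
  obtain ⟨σ, hσ, L, hL0, hxL⟩ : ∃ σ : ℝ, |σ| = 1 ∧ ∃ L : ℝ, 0 ≤ L ∧ x = σ * L := by
    rcases le_total 0 x with h | h
    · exact ⟨1, by simp, x, h, by simp⟩
    · exact ⟨-1, by simp, -x, by linarith, by ring⟩
  have hLabs : |x| = L := by rw [hxL, abs_mul, hσ, one_mul, abs_of_nonneg hL0]
  have hσn : ‖(σ : ℂ)‖ = 1 := by rw [Complex.norm_real, Real.norm_eq_abs, hσ]
  have hγ : ∀ v : ℝ, HasDerivAt (fun v : ℝ => ((σ * v : ℝ) : ℂ)) (σ : ℂ) v := by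
    intro v
    have := (Complex.ofRealCLM.hasDerivAt (x := v)).const_mul (σ : ℂ)
    simpa using this
  have hnorm : ∀ v ∈ Icc 0 L, ‖((σ * v : ℝ) : ℂ)‖ = v := by
    intro v hv
    rw [Complex.norm_real, Real.norm_eq_abs, abs_mul, hσ, one_mul, abs_of_nonneg hv.1]
  have hmem : ∀ v ∈ Icc 0 L, ((σ * v : ℝ) : ℂ) ∈ ball (0 : ℂ) r := by
    intro v hv
    rw [mem_ball_zero_iff, hnorm v hv]
    exact (hv.2.trans_eq hLabs.symm).trans_lt hxr
  have hq : ∀ v ∈ Icc 0 L, ‖qh g ((σ * v : ℝ) : ℂ)‖ ≤ G := by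
    intro v hv
    refine (hδG ?_).le
    rw [dist_zero_right, hnorm v hv]
    exact (hv.2.trans_eq hLabs.symm).trans_lt hxδ
  set u : ℝ → ℂ := fun v => y (g ((σ * v : ℝ) : ℂ)) with hu_def
  set a : ℝ → ℂ := fun v => A g y ((σ * v : ℝ) : ℂ) with ha_def
  set q : ℝ → ℂ := fun v => qh g ((σ * v : ℝ) : ℂ) with hq_def
  have du : ∀ v ∈ Icc 0 L, HasDerivWithinAt u (σ * a v) (Icc 0 L) v := by
    intro v hv
    have := (hu hD hc hy (hmem v hv)).scomp v (hγ v)
    exact (by simpa [hu_def, ha_def, Function.comp_def] using this : HasDerivAt u (σ * a v) v).hasDerivWithinAt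
  have da : ∀ v ∈ Icc 0 L, HasDerivWithinAt a (σ * (-(l : ℂ) ^ 2 * u v + q v * a v)) (Icc 0 L) v := by
    intro v hv
    have := (hA hD hc hy (hmem v hv)).scomp v (hγ v)
    refine (HasDerivAt.congr_deriv (f := a) this ?_).hasDerivWithinAt
    simp [hu_def, ha_def, hq_def]
  set P : ℝ → ℂ := fun v => u v + I * a v / l with hP
  set N : ℝ → ℂ := fun v => u v - I * a v / l with hN
  have dP : ∀ v ∈ Icc 0 L, HasDerivWithinAt P (σ * (-(l : ℂ) * I * P v + q v / 2 * (P v - N v))) (Icc 0 L) v := by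
    intro v hv
    refine ((du v hv).add (((da v hv).const_mul I).div_const (l : ℂ))).congr_deriv ?_
    simp only [hP, hN]
    field_simp
    linear_combination ((σ : ℂ) * l * a v * 2) * Complex.I_sq
  have dN : ∀ v ∈ Icc 0 L, HasDerivWithinAt N (σ * ((l : ℂ) * I * N v + q v / 2 * (N v - P v))) (Icc 0 L) v := by
    intro v hv
    refine ((du v hv).sub (((da v hv).const_mul I).div_const (l : ℂ))).congr_deriv ?_
    simp only [hP, hN]
    field_simp
    linear_combination ((σ : ℂ) * l * a v * 2) * Complex.I_sq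
  have hre0 : ∀ (z : ℂ) (m : ℂ), (conj z * (σ * (m * I * z))).re = σ * (m * I).re * ‖z‖ ^ 2 := by
    intro z m
    have : conj z * (σ * (m * I * z)) = ((σ * ‖z‖ ^ 2 : ℝ) : ℂ) * (m * I) := by
      have h1 : conj z * z = ((‖z‖ ^ 2 : ℝ) : ℂ) := by
        rw [mul_comm, Complex.mul_conj, Complex.normSq_eq_norm_sq]
      have h2 : conj z * (σ * (m * I * z)) = σ * (m * I) * (conj z * z) := by ring
      rw [h2, h1]
      push_cast
      ring
    rw [this, Complex.re_ofReal_mul]
    ring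
  have hbd : ∀ v ∈ Icc 0 L, ∀ z z' : ℂ, |(conj z * (σ * (q v / 2 * (z - z')))).re| ≤
      ‖z‖ * (G / 2 * (‖z‖ + ‖z'‖)) := by
    intro v hv z z'
    calc |(conj z * (σ * (q v / 2 * (z - z')))).re| ≤ ‖conj z * (σ * (q v / 2 * (z - z')))‖ := Complex.abs_re_le_norm _
      _ = ‖z‖ * (‖q v‖ / 2 * ‖z - z'‖) := by
          rw [norm_mul, norm_mul, norm_mul, norm_div, Complex.norm_conj, hσn, one_mul]
          norm_num
      _ ≤ ‖z‖ * (G / 2 * (‖z‖ + ‖z'‖)) := by
          refine mul_le_mul_of_nonneg_left ?_ (norm_nonneg _)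
          have h1 := hq v hv
          have h2 : ‖z - z'‖ ≤ ‖z‖ + ‖z'‖ := norm_sub_le _ _
          have h3 := norm_nonneg (z - z')
          calc ‖q v‖ / 2 * ‖z - z'‖ ≤ G / 2 * ‖z - z'‖ := mul_le_mul_of_nonneg_right (by
                simp only [hq_def]
                linarith) h3
            _ ≤ G / 2 * (‖z‖ + ‖z'‖) := mul_le_mul_of_nonneg_left h2 (by positivity)
  have hkeep := keep (L := L) (c := 2 * G) (D := fun v => ‖P v‖ ^ 2 - ‖N v‖ ^ 2)
    (S := fun v => ‖P v‖ ^ 2 + ‖N v‖ ^ 2)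
    (D' := fun v => 2 * (conj (P v) * (σ * (-(l : ℂ) * I * P v + q v / 2 * (P v - N v)))).re
      - 2 * (conj (N v) * (σ * ((l : ℂ) * I * N v + q v / 2 * (N v - P v)))).re)
    (S' := fun v => 2 * (conj (P v) * (σ * (-(l : ℂ) * I * P v + q v / 2 * (P v - N v)))).re
      + 2 * (conj (N v) * (σ * ((l : ℂ) * I * N v + q v / 2 * (N v - P v)))).re) hL0
    (fun v hv => (Grow.normsq_deriv (dP v hv)).sub (Grow.normsq_deriv (dN v hv)))
    (fun v hv => (Grow.normsq_deriv (dP v hv)).add (Grow.normsq_deriv (dN v hv)))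
    (by
      intro v hv
      have e1 : (conj (P v) * (σ * (-(l : ℂ) * I * P v + q v / 2 * (P v - N v)))).re =
          (conj (P v) * (σ * (q v / 2 * (P v - N v)))).re := by
        rw [mul_add (σ : ℂ), mul_add, Complex.add_re, hre0]
        simp
      have e2 : (conj (N v) * (σ * ((l : ℂ) * I * N v + q v / 2 * (N v - P v)))).re =
          (conj (N v) * (σ * (q v / 2 * (N v - P v)))).re := by
        rw [mul_add (σ : ℂ), mul_add, Complex.add_re, hre0]
        simp
      simp only [e1, e2]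
      have b1 := abs_le.mp (hbd v hv (P v) (N v))
      have b2 := abs_le.mp (hbd v hv (N v) (P v))
      have b3 : G * (‖P v‖ + ‖N v‖) ^ 2 ≤ G * (2 * (‖P v‖ ^ 2 + ‖N v‖ ^ 2)) := by
        refine mul_le_mul_of_nonneg_left ?_ hG0.le
        nlinarith [sq_nonneg (‖P v‖ - ‖N v‖)]
      nlinarith [b1.1, b1.2, b2.1, b2.2])
    (by
      intro v hv
      have e1 : (conj (P v) * (σ * (-(l : ℂ) * I * P v + q v / 2 * (P v - N v)))).re =
          (conj (P v) * (σ * (q v / 2 * (P v - N v)))).re := by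
        rw [mul_add (σ : ℂ), mul_add, Complex.add_re, hre0]
        simp
      have e2 : (conj (N v) * (σ * ((l : ℂ) * I * N v + q v / 2 * (N v - P v)))).re =
          (conj (N v) * (σ * (q v / 2 * (N v - P v)))).re := by
        rw [mul_add (σ : ℂ), mul_add, Complex.add_re, hre0]
        simp
      simp only [e1, e2]
      have b1 := abs_le.mp (hbd v hv (P v) (N v))
      have b2 := abs_le.mp (hbd v hv (N v) (P v))
      have b3 : G * (‖P v‖ + ‖N v‖) ^ 2 ≤ G * (2 * (‖P v‖ ^ 2 + ‖N v‖ ^ 2)) := by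
        refine mul_le_mul_of_nonneg_left ?_ hG0.le
        nlinarith [sq_nonneg (‖P v‖ - ‖N v‖)]
      nlinarith [b1.1, b1.2, b2.1, b2.2])
    (by positivity)
  -- the initial values
  have hu0 : u 0 = y o := by simp [hu_def, hc.z]
  have ha0 : a 0 = deriv y o * deriv g 0 := by simp [ha_def, A, hc.z]
  have hN0 : N 0 = 0 := by
    simp only [hN, hu0, ha0]
    rw [← hyo]
    field_simp
    ring
  have hP0 : P 0 = 2 * y o := by
    have : P 0 = 2 * u 0 - N 0 := by simp only [hP, hN]; ring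
    rw [this, hN0, hu0, sub_zero]
  have hyo0 : y o ≠ 0 := by
    intro h
    have h1 := nz hc hy h0
    rw [hc.z] at h1
    rcases h1 with h1 | h1
    · exact h1 h
    · apply h1
      rw [h, mul_zero] at hyo
      have : deriv y o * deriv g 0 = 0 := by
        have h2 := hyo.symm
        rcases mul_eq_zero.mp h2 with h3 | h3
        · exact absurd h3 Complex.I_ne_zero
        · exact h3
      simpa [A, hc.z] using this
  have hP0p : 0 < ‖P 0‖ ^ 2 := by
    have : 0 < ‖P 0‖ := by rw [hP0]; exact norm_pos_iff.mpr (mul_ne_zero two_ne_zero hyo0)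
    positivity
  have hDpos : 0 < ‖P L‖ ^ 2 - ‖N L‖ ^ 2 := by
    simp only [hN0, norm_zero] at hkeep
    have h1 : 2 * G * L ≤ 1 / 2 := by
      rw [hLabs] at hxG
      rw [lt_div_iff₀ (by positivity)] at hxG
      linarith
    have h2 : Real.exp (2 * G * L) ≤ Real.exp (1 / 2) := Real.exp_le_exp.mpr h1
    have h3 : Real.exp (1 / 2) < 2 := by
      have h4 : Real.exp (1 / 2) ^ 2 = Real.exp 1 := by
        rw [← Real.exp_nat_mul]
        norm_num
      have h5 : Real.exp 1 < 2.7182818286 := Real.exp_one_lt_d9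
      by_contra hcon
      push Not at hcon
      nlinarith
    nlinarith
  -- conclusion
  have hxmem : ((x : ℝ) : ℂ) ∈ ball (0 : ℂ) r := by
    rw [mem_ball_zero_iff, Complex.norm_real, Real.norm_eq_abs]
    exact hxr
  have huL : u L = y (g x) := by simp only [hu_def]; rw [← hxL]
  have haL : a L = A g y x := by simp only [ha_def]; rw [← hxL]
  set F : ℝ → ℝ := fun v => ‖y (g (x + v * I))‖ ^ 2 with hF
  have dF : HasDerivAt F (2 * (conj (y (g x)) * (I * A g y x)).re) 0 := by
    have hγ2 : HasDerivAt (fun v : ℝ => ((x : ℂ) + v * I)) I 0 := by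
      simpa using ((Complex.ofRealCLM.hasDerivAt (x := (0 : ℝ))).mul_const I).const_add (x : ℂ)
    have hx0 : ((x : ℂ) + ((0 : ℝ) : ℂ) * I) = x := by simp
    have h1 : HasDerivAt (fun v : ℝ => y (g (x + v * I))) (I * A g y x) 0 := by
      have := HasDerivAt.scomp (x := (0 : ℝ)) (h := fun v : ℝ => ((x : ℂ) + v * I))
        (g₁ := fun w => y (g w)) (g₁' := A g y x) (by rw [hx0]; exact hu hD hc hy hxmem) hγ2
      simpa [Function.comp_def] using this
    have h2 := Grow.normsq_deriv (h1.hasDerivWithinAt (s := univ))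
    rw [hasDerivWithinAt_univ] at h2
    simpa [hx0] using h2
  have hval : 2 * (conj (y (g x)) * (I * A g y x)).re = l / 2 * (‖P L‖ ^ 2 - ‖N L‖ ^ 2) := by
    simp only [hP, hN, huL, haL]
    rw [← Complex.normSq_eq_norm_sq, ← Complex.normSq_eq_norm_sq, Complex.normSq_apply, Complex.normSq_apply]
    have : I * A g y ↑x / (l : ℂ) = ((l⁻¹ : ℝ) : ℂ) * (I * A g y ↑x) := by push_cast; field_simp
    rw [this]
    generalize I * A g y (x : ℂ) = V
    generalize y (g (x : ℂ)) = U
    have hl' : l ≠ 0 := hl.ne'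
    have hmul : (conj U * V).re = U.re * V.re + U.im * V.im := by
      simp [Complex.mul_re]
    rw [hmul, Complex.add_re, Complex.sub_re, Complex.add_im, Complex.sub_im, Complex.re_ofReal_mul,
      Complex.im_ofReal_mul]
    field_simp
    ring
  have hpos : 0 < 2 * (conj (y (g x)) * (I * A g y x)).re := by
    rw [hval]
    positivity
  have hslope := (hasDerivAt_iff_tendsto_slope.mp dF).eventually_const_lt hpos
  have hslope' : ∀ᶠ v in 𝓝[>] (0 : ℝ), 0 < slope F 0 v :=
    hslope.filter_mono (nhdsWithin_mono _ (by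
      intro v hv
      exact ne_of_gt hv))
  filter_upwards [hslope', self_mem_nhdsWithin] with v hv hv0
  have hv0' : (0 : ℝ) < v := hv0
  rw [slope_def_field, sub_zero] at hv
  have h1 : 0 < F v - F 0 := by
    by_contra hcon
    push Not at hcon
    exact absurd hv (not_lt.mpr (div_nonpos_of_nonpos_of_nonneg hcon hv0'.le))
  have h2 : F 0 = ‖y (g x)‖ ^ 2 := by simp [hF]
  rw [h2] at h1
  simp only [hF] at h1
  exact lt_of_pow_lt_pow_left₀ 2 (norm_nonneg _) (by linarith)

end MPfa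
end

section
/-!
Problem MP_fa0334_an: module NMX.
-/
set_option autoImplicit false

open MeasureTheory Set Filter Topology Metric Complex
open scoped ContDiff ENNReal ComplexConjugate

namespace MPfa

namespace NmxM

/-- a holomorphic function which is not identically zero is nonzero almost everywhere -/
theorem ae_ne_zero {X : Set ℂ} {Φ : ℂ → ℂ} (hX : IsOpen X) (hc : IsConnected X)
    (hΦ : DifferentiableOn ℂ Φ X) (hne : ∃ z ∈ X, Φ z ≠ 0) :
    ∀ᵐ z ∂(volume.restrict X), Φ z ≠ 0 := by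
  obtain ⟨z, hz, hne⟩ := hne
  have h1 := (hΦ.analyticOnNhd hX).preimage_zero_mem_codiscreteWithin hne hz hc
  exact ae_restrict_le_codiscreteWithin hX.measurableSet h1

/-- relaxed competitors have finite Dirichlet energy -/
theorem dir_lt {p : ℝ} {X Y : Set ℂ} {b h hx hy : ℂ → ℂ} (hA : SpecAlg) (hp : 1 < p)
    (h1 : Adm p X Y b h hx hy) :
    ∫⁻ z in X, (‖hx z‖ₑ ^ 2 + ‖hy z‖ₑ ^ 2) < ⊤ := by
  have h2 : ∫⁻ z in X, (‖hx z‖ₑ ^ 2 + ‖hy z‖ₑ ^ 2) ≤ ∫⁻ z in X, 2 * PP p (hx z) (hy z) := by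
    refine lintegral_mono fun z => ?_
    have h3 := hA.n2_le_PP p hp (hx z) (hy z)
    have h4 : ‖hx z‖ₑ ^ 2 + ‖hy z‖ₑ ^ 2 = 2 * ENNReal.ofReal (n2 (hx z) (hy z)) := by
      rw [n2, ← ofReal_norm_eq_enorm, ← ofReal_norm_eq_enorm, ← ENNReal.ofReal_pow (norm_nonneg _),
        ← ENNReal.ofReal_pow (norm_nonneg _), ← ENNReal.ofReal_add (by positivity) (by positivity),
        show (2 : ℝ≥0∞) = ENNReal.ofReal 2 by simp, ← ENNReal.ofReal_mul (by norm_num)]
      congr 1
      ring
    rw [h4]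
    gcongr
  have h5 : ∫⁻ z in X, 2 * PP p (hx z) (hy z) = 2 * ∫⁻ z in X, PP p (hx z) (hy z) :=
    lintegral_const_mul _ (VarM.meas_PP_comp hA h1.wd.mx h1.wd.my)
  rw [h5] at h2
  exact h2.trans_lt (ENNReal.mul_lt_top (by simp) h1.en)

/-- the limits of homeomorphisms satisfy the boundary principle inside -/
theorem bp_of_lim {X Y : Set ℂ} {b h : ℂ → ℂ} (hB : SpecBPL) (hD : Dom X Y b)
    (hl : Lim X Y b h) : BP X h := fun D hDo _ hDX c r hr =>
  hB X Y b h hD hl D hDo (subset_closure.trans hDX) c r hr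

end NmxM

/-- D7. NMX -/
theorem specNMX (hA : SpecAlg) (hL : SpecLim) (hB : SpecBPL) (hF : SpecFrc) (hAr : SpecArea) :
    SpecNMX := by
  intro p hp X Y b h hx hy Φ hD h1 hΦ hne hAH
  obtain ⟨hco, -, -, -, -, -, hfs⟩ := hL X Y b h hD h1.li
  have hcX : ContinuousOn h X := hco.mono subset_closure
  have hj : ∀ᵐ z ∂(volume.restrict X), 0 ≤ jac (hx z) (hy z) := by
    filter_upwards [VarM.PP_ae_lt hA h1] with z hz
    exact hA.jac_nonneg p _ _ hz
  refine ⟨hD.oX, hcX, h1.wd, ?_, ?_⟩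
  · filter_upwards [VarM.PP_ae_lt hA h1, hAH,
      NmxM.ae_ne_zero hD.oX (hF X Y b hD).2.2.1 hΦ hne] with z hz1 hz2 hz3
    refine ⟨?_, hz2⟩
    rcases (hA.PP_lt p _ _).1 hz1 with ⟨ha, hb⟩ | h3
    · exfalso
      apply hz3
      rw [← hz2, ha, hb]
      simp [AH, hopf]
    · exact h3
  · intro η hη
    have h2 := hAr X h hx hy ⟨hD.oX, hcX, h1.wd, NmxM.bp_of_lim hB hD h1.li⟩
      (NmxM.dir_lt hA hp h1) hfs η hη
    refine le_trans (le_of_eq ?_) h2
    refine lintegral_congr_ae ?_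
    filter_upwards [hj] with z hz
    rw [abs_of_nonneg hz]

end MPfa
end

section
/-!
Problem MP_fa0334_an: module CONF (the conformal case).
-/
set_option autoImplicit false

open MeasureTheory Set Filter Topology Metric Complex
open scoped ContDiff ENNReal ComplexConjugate

namespace MPfa

namespace ConfM

/-! ### injective holomorphic functions -/

section inj

variable {D : Set ℂ} {F : ℂ → ℂ}

theorem open_image (hD : IsOpen D) (hc : IsPreconnected D) (hF : DifferentiableOn ℂ F D)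
    (hinj : InjOn F D) {s : Set ℂ} (hs : s ⊆ D) (hso : IsOpen s) : IsOpen (F '' s) := by
  rcases (hF.analyticOnNhd hD).is_constant_or_isOpen hc with ⟨w, hw⟩ | h
  · by_cases hne : s.Nonempty
    · exfalso
      obtain ⟨a, ha⟩ := hne
      obtain ⟨r, hr, hsub⟩ := Metric.isOpen_iff.1 hso a ha
      have hb : a + ((r / 2 : ℝ) : ℂ) ∈ s := by
        apply hsub
        rw [mem_ball, dist_eq_norm, add_sub_cancel_left, Complex.norm_real, Real.norm_of_nonneg
          (by positivity)]
        linarith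
      have := hinj (hs ha) (hs hb) ((hw _ (hs ha)).trans (hw _ (hs hb)).symm)
      have h2 : ((r / 2 : ℝ) : ℂ) = 0 := by
        linear_combination -this
      rw [Complex.ofReal_eq_zero] at h2
      linarith
    · rw [not_nonempty_iff_eq_empty] at hne
      rw [hne, image_empty]
      exact isOpen_empty
  · exact h s hs hso

theorem inv_cont (hD : IsOpen D) (hc : IsPreconnected D) (hF : DifferentiableOn ℂ F D)
    (hinj : InjOn F D) {a : ℂ} (ha : a ∈ D) : ContinuousAt (Function.invFunOn F D) (F a) := by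
  have hl : LeftInvOn (Function.invFunOn F D) F D := hinj.leftInvOn_invFunOn
  rw [ContinuousAt, hl ha]
  intro V hV
  obtain ⟨V', hV', hV'o, haV'⟩ := _root_.mem_nhds_iff.1 hV
  have ho : IsOpen (F '' (V' ∩ D)) :=
    open_image hD hc hF hinj inter_subset_right (hV'o.inter hD)
  refine Filter.mem_map.2 (mem_of_superset (ho.mem_nhds ⟨a, ⟨haV', ha⟩, rfl⟩) ?_)
  rintro _ ⟨z, ⟨hzV, hzD⟩, rfl⟩
  rw [mem_preimage, hl hzD]
  exact hV' hzV

/-- an injective holomorphic function has a nonvanishing derivative -/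
theorem deriv_ne_of_inj (hD : IsOpen D) (hc : IsPreconnected D) (hF : DifferentiableOn ℂ F D)
    (hinj : InjOn F D) {a : ℂ} (ha : a ∈ D) : deriv F a ≠ 0 := by
  intro h0
  have hl : LeftInvOn (Function.invFunOn F D) F D := hinj.leftInvOn_invFunOn
  have hFa : AnalyticOnNhd ℂ F D := hF.analyticOnNhd hD
  have hda : AnalyticAt ℂ (deriv F) a := (hFa a ha).deriv
  have hev : ∀ᶠ z in 𝓝[≠] a, deriv F z ≠ 0 := by
    rcases hda.eventually_eq_zero_or_eventually_ne_zero with h | h
    · exfalso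
      obtain ⟨r, hr, hsub⟩ := Metric.eventually_nhds_iff_ball.1 (h.and (hD.mem_nhds ha))
      have hconst : ∀ z ∈ ball a r, F z = F a := by
        intro z hz
        have := (convex_ball a r).norm_image_sub_le_of_norm_deriv_le (f := F) (C := 0)
          (fun w hw => hF.differentiableAt (hD.mem_nhds (hsub w hw).2))
          (fun w hw => by rw [(hsub w hw).1, norm_zero]) (mem_ball_self hr) hz
        rw [zero_mul] at this
        exact sub_eq_zero.1 (norm_le_zero_iff.1 this)
      have hb : a + ((r / 2 : ℝ) : ℂ) ∈ ball a r := by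
        rw [mem_ball, dist_eq_norm, add_sub_cancel_left, Complex.norm_real, Real.norm_of_nonneg
          (by positivity)]
        linarith
      have := hinj (hsub _ hb).2 ha (hconst _ hb)
      have h2 : ((r / 2 : ℝ) : ℂ) = 0 := by
        linear_combination this
      rw [Complex.ofReal_eq_zero] at h2
      linarith
    · exact h
  rw [eventually_nhdsWithin_iff] at hev
  obtain ⟨r, hr, hsub⟩ := Metric.eventually_nhds_iff_ball.1 (hev.and (hD.mem_nhds ha))
  set G := Function.invFunOn F D with hG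
  have hballD : ball a r ⊆ D := fun z hz => (hsub z hz).2
  have hVo : IsOpen (F '' ball a r) := open_image hD hc hF hinj hballD isOpen_ball
  have hVn : F '' ball a r ∈ 𝓝 (F a) := hVo.mem_nhds ⟨a, mem_ball_self hr, rfl⟩
  have hGd : DifferentiableOn ℂ G ((F '' ball a r) \ {F a}) := by
    rintro _ ⟨⟨z, hz, rfl⟩, hne⟩
    have hza : z ≠ a := by
      rintro rfl
      exact hne rfl
    have hd := (hF.differentiableAt (hD.mem_nhds (hballD hz))).hasDerivAt
    have hne' : deriv F z ≠ 0 := (hsub z hz).1 hza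
    have hGz : G (F z) = z := hl (hballD hz)
    have hcz := inv_cont hD hc hF hinj (hballD hz)
    have h1 : ∀ᶠ y in 𝓝 (F z), F (G y) = y := by
      filter_upwards [hVo.mem_nhds ⟨z, hz, rfl⟩] with y hy
      obtain ⟨x, hx, rfl⟩ := hy
      rw [hl (hballD hx)]
    have := HasDerivAt.of_local_left_inverse (f := F) (g := G) (a := F z) (f' := deriv F z) hcz
      (by rw [hGz]; exact hd) hne' h1
    exact this.differentiableAt.differentiableWithinAt
  have hGd' : DifferentiableOn ℂ G (F '' ball a r) :=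
    (Complex.differentiableOn_compl_singleton_and_continuousAt_iff hVn).1
      ⟨hGd, inv_cont hD hc hF hinj ha⟩
  have hGa : DifferentiableAt ℂ G (F a) := hGd'.differentiableAt hVn
  have hFd := (hF.differentiableAt (hD.mem_nhds ha)).hasDerivAt
  have hcomp := hGa.hasDerivAt.comp a hFd
  rw [h0, mul_zero] at hcomp
  have hid : (G ∘ F) =ᶠ[𝓝 a] id := by
    filter_upwards [hD.mem_nhds ha] with z hz
    exact hl hz
  have h1 := (hcomp.congr_of_eventuallyEq hid.symm).unique (hasDerivAt_id a)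
  exact zero_ne_one h1

end inj

/-! ### complex test functions -/

/-- products of locally integrable functions with compactly supported continuous functions -/
theorem int_mul {G : Set ℂ} {u η : ℂ → ℂ} (hu : LI G u) (hη : Continuous η)
    (hc : HasCompactSupport η) (hs : tsupport η ⊆ G) : Integrable fun z => u z * η z := by
  have h1 : IntegrableOn (fun z => u z * η z) (tsupport η) :=
    (hu _ hs hc).mul_continuousOn hη.continuousOn hc
  refine (integrableOn_iff_integrable_of_support_subset ?_).1 h1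
  intro z hz
  rw [Function.mem_support] at hz
  exact subset_tsupport η (right_ne_zero_of_mul hz)

theorem int_smul {G : Set ℂ} {u : ℂ → ℂ} {φ : ℂ → ℝ} (hu : LI G u) (hη : Continuous φ)
    (hc : HasCompactSupport φ) (hs : tsupport φ ⊆ G) : Integrable fun z => φ z • u z := by
  have h1 := int_mul (η := fun z => (φ z : ℂ)) hu (Complex.continuous_ofReal.comp hη)
    (hc.comp_left (g := fun x : ℝ => (x : ℂ)) (by simp)) ?_
  · refine h1.congr (ae_of_all _ fun z => ?_)
    simp [mul_comm]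
  · refine (closure_mono ?_).trans hs
    intro z hz
    rw [Function.mem_support] at hz ⊢
    intro h0
    apply hz
    rw [h0, Complex.ofReal_zero]

/-- integration by parts against complex test functions -/
theorem cx_parts {G : Set ℂ} {F Fx : ℂ → ℂ} {v : ℂ} (hF : LI G F) (hFx : LI G Fx)
    (hi : ∀ φ : ℂ → ℝ, Test G φ → ∫ z, (fderiv ℝ φ z v) • F z = - ∫ z, φ z • Fx z)
    {η : ℂ → ℂ} (h1 : ContDiff ℝ ∞ η) (h2 : HasCompactSupport η) (h3 : tsupport η ⊆ G) :
    ∫ z, F z * fderiv ℝ η z v = - ∫ z, η z * Fx z := by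
  have hre : ContDiff ℝ ∞ fun z => (η z).re := Complex.reCLM.contDiff.comp h1
  have him : ContDiff ℝ ∞ fun z => (η z).im := Complex.imCLM.contDiff.comp h1
  have cre : HasCompactSupport fun z => (η z).re := h2.comp_left (g := Complex.re) rfl
  have cim : HasCompactSupport fun z => (η z).im := h2.comp_left (g := Complex.im) rfl
  have sre : tsupport (fun z => (η z).re) ⊆ G :=
    (closure_mono fun z hz => by
      rw [Function.mem_support] at hz ⊢
      intro h0
      exact hz (by rw [h0, Complex.zero_re])).trans h3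
  have sim : tsupport (fun z => (η z).im) ⊆ G :=
    (closure_mono fun z hz => by
      rw [Function.mem_support] at hz ⊢
      intro h0
      exact hz (by rw [h0, Complex.zero_im])).trans h3
  have t1 := hi _ ⟨hre, cre, sre⟩
  have t2 := hi _ ⟨him, cim, sim⟩
  have dre : ∀ z, fderiv ℝ (fun z => (η z).re) z v = (fderiv ℝ η z v).re := by
    intro z
    have := Complex.reCLM.hasFDerivAt.comp z ((h1.differentiable (by simp)) z).hasFDerivAt
    have h4 : fderiv ℝ (fun z => (η z).re) z = Complex.reCLM.comp (fderiv ℝ η z) := this.fderiv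
    rw [h4]
    rfl
  have dim : ∀ z, fderiv ℝ (fun z => (η z).im) z v = (fderiv ℝ η z v).im := by
    intro z
    have := Complex.imCLM.hasFDerivAt.comp z ((h1.differentiable (by simp)) z).hasFDerivAt
    have h4 : fderiv ℝ (fun z => (η z).im) z = Complex.imCLM.comp (fderiv ℝ η z) := this.fderiv
    rw [h4]
    rfl
  have ctre : Continuous fun z => fderiv ℝ (fun z => (η z).re) z v :=
    (hre.continuous_fderiv (by simp)).clm_apply continuous_const
  have ctim : Continuous fun z => fderiv ℝ (fun z => (η z).im) z v :=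
    (him.continuous_fderiv (by simp)).clm_apply continuous_const
  have ccre : HasCompactSupport fun z => fderiv ℝ (fun z => (η z).re) z v :=
    cre.fderiv_apply (𝕜 := ℝ) v
  have ccim : HasCompactSupport fun z => fderiv ℝ (fun z => (η z).im) z v :=
    cim.fderiv_apply (𝕜 := ℝ) v
  have csre : tsupport (fun z => fderiv ℝ (fun z => (η z).re) z v) ⊆ G :=
    (tsupport_fderiv_apply_subset ℝ v).trans sre
  have csim : tsupport (fun z => fderiv ℝ (fun z => (η z).im) z v) ⊆ G :=
    (tsupport_fderiv_apply_subset ℝ v).trans sim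
  have i1 := int_smul hF ctre ccre csre
  have i2 := int_smul hF ctim ccim csim
  have i3 := int_smul hFx hre.continuous cre sre
  have i4 := int_smul hFx him.continuous cim sim
  have e1 : ∀ z, F z * fderiv ℝ η z v = fderiv ℝ (fun z => (η z).re) z v • F z +
      I * (fderiv ℝ (fun z => (η z).im) z v • F z) := by
    intro z
    rw [dre, dim]
    conv_lhs => rw [← Complex.re_add_im (fderiv ℝ η z v)]
    simp only [Complex.real_smul]
    ring
  have e2 : ∀ z, η z * Fx z = (η z).re • Fx z + I * ((η z).im • Fx z) := by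
    intro z
    conv_lhs => rw [← Complex.re_add_im (η z)]
    simp only [Complex.real_smul]
    ring
  simp only [e1, e2]
  rw [integral_add i1 (i2.const_mul I), integral_add i3 (i4.const_mul I), integral_const_mul,
    integral_const_mul, t1, t2]
  ring

/-- the Cauchy-Riemann equations from the vanishing of the Hopf differential -/
theorem cr_of_AH {p : ℝ} {a b : ℂ} (hA : SpecAlg) (h1 : PP p a b < ⊤) (h2 : AH p a b = 0) :
    a + I * b = 0 := by
  have h3 : 0 < KK a b ^ (p - 1) := Real.rpow_pos_of_pos (by linarith [hA.KK_ge a b]) _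
  have h4 : hopf a b = 0 := by
    rw [AH] at h2
    exact (mul_eq_zero.1 h2).resolve_left (by exact_mod_cast h3.ne')
  have h5 := hA.jac_wirt a b
  have h6 := hA.jac_nonneg p a b h1
  rw [hopf] at h4
  rcases mul_eq_zero.1 h4 with h7 | h7
  · rw [h7, norm_zero] at h5
    have h8 : ‖a + I * b‖ ^ 2 ≤ 0 := by linarith
    have h9 : ‖a + I * b‖ = 0 := by
      have := sq_nonneg ‖a + I * b‖
      exact pow_eq_zero_iff (two_ne_zero) |>.1 (le_antisymm h8 this)
    exact norm_eq_zero.1 h9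
  · rw [← Complex.conj_conj (a + I * b), h7, map_zero]

theorem holo {p : ℝ} {X Y : Set ℂ} {b h hx hy : ℂ → ℂ} (hA : SpecAlg) (hW : SpecWeyl)
    (hL : SpecLim) (hD : Dom X Y b) (h1 : Adm p X Y b h hx hy)
    (h2 : ∀ᵐ z ∂(volume.restrict X), AH p (hx z) (hy z) = 0) : DifferentiableOn ℂ h X := by
  have hcX : ContinuousOn h X := (hL X Y b h hD h1.li).1.mono subset_closure
  have hcr : ∀ᵐ z ∂(volume.restrict X), hx z + I * hy z = 0 := by
    filter_upwards [VarM.PP_ae_lt hA h1, h2] with z hz1 hz2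
    exact cr_of_AH hA hz1 hz2
  obtain ⟨Φ, hΦ, hae⟩ := hW X h hD.oX h1.wd.lF (by
    intro η e1 e2 e3
    have p1 := cx_parts h1.wd.lF h1.wd.lx h1.wd.ix e1 e2 e3
    have p2 := cx_parts h1.wd.lF h1.wd.ly h1.wd.iy e1 e2 e3
    have c1 : Continuous fun z => fderiv ℝ η z 1 :=
      (e1.continuous_fderiv (by simp)).clm_apply continuous_const
    have c2 : Continuous fun z => fderiv ℝ η z I :=
      (e1.continuous_fderiv (by simp)).clm_apply continuous_const
    have i1 := int_mul h1.wd.lF c1 (e2.fderiv_apply (𝕜 := ℝ) 1)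
      ((tsupport_fderiv_apply_subset ℝ 1).trans e3)
    have i2 := int_mul h1.wd.lF c2 (e2.fderiv_apply (𝕜 := ℝ) I)
      ((tsupport_fderiv_apply_subset ℝ I).trans e3)
    have i3 := int_mul h1.wd.lx e1.continuous e2 e3
    have i4 := int_mul h1.wd.ly e1.continuous e2 e3
    have q1 : ∀ z, h z * (fderiv ℝ η z 1 + I * fderiv ℝ η z I) =
        h z * fderiv ℝ η z 1 + I * (h z * fderiv ℝ η z I) := fun z => by ring
    simp only [q1]
    rw [integral_add i1 (i2.const_mul I), integral_const_mul, p1, p2]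
    have i3' : Integrable fun z => η z * hx z := by simpa only [mul_comm] using i3
    have i4' : Integrable fun z => η z * hy z := by simpa only [mul_comm] using i4
    have q2 : -(∫ z, η z * hx z) + I * -(∫ z, η z * hy z) =
        -∫ z, (η z * hx z + I * (η z * hy z)) := by
      rw [integral_add i3' (i4'.const_mul I), integral_const_mul]
      ring
    rw [q2, neg_eq_zero]
    refine integral_eq_zero_of_ae ?_
    have q3 : ∀ᵐ z ∂volume, z ∈ X → hx z + I * hy z = 0 := ae_imp_of_ae_restrict hcr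
    filter_upwards [q3] with z hz
    show η z * hx z + I * (η z * hy z) = 0
    by_cases hzX : z ∈ X
    · have := hz hzX
      linear_combination η z * this
    · rw [image_eq_zero_of_notMem_tsupport fun hh => hzX (e3 hh)]
      ring)
  have heq := Measure.eqOn_open_of_ae_eq hae hD.oX hcX hΦ.continuousOn
  exact hΦ.congr heq

end ConfM

/-- D6. CONF: the conformal case -/
theorem specConf (hA : SpecAlg) (hL : SpecLim) (hF : SpecFrc) (hW : SpecWeyl) : SpecConf := by
  intro p _ X Y b h hx hy hD h1 h2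
  have hol := ConfM.holo hA hW hL hD h1 h2
  obtain ⟨hco, hmap, heq, hsur, hfr, hpre, -⟩ := hL X Y b h hD h1.li
  have hXc : IsConnected X := (hF X Y b hD).2.2.1
  have han : AnalyticOnNhd ℂ h X := hol.analyticOnNhd hD.oX
  -- not constant
  have hnc : ¬ ∃ w, ∀ z ∈ X, h z = w := by
    rintro ⟨w, hw⟩
    have hcl : ∀ z ∈ closure X, h z = w := by
      intro z hz
      have m1 := hco.image_closure (s := X)
      have m2 : h z ∈ closure (h '' X) := m1 ⟨z, hz, rfl⟩
      have m3 : h '' X ⊆ {w} := by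
        rintro _ ⟨x, hx, rfl⟩
        exact hw x hx
      have m4 := closure_mono m3 m2
      rwa [closure_singleton] at m4
    have hY : closure Y ⊆ {w} := by
      intro y hy
      obtain ⟨z, hz, rfl⟩ := hsur hy
      exact hcl z hz
    obtain ⟨y, hy⟩ := hD.nY
    obtain ⟨r, hr, hsub⟩ := Metric.isOpen_iff.1 hD.oY y hy
    have hb : y + ((r / 2 : ℝ) : ℂ) ∈ Y := by
      apply hsub
      rw [mem_ball, dist_eq_norm, add_sub_cancel_left, Complex.norm_real, Real.norm_of_nonneg
        (by positivity)]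
      linarith
    have e1 : y = w := hY (subset_closure hy)
    have e2 : y + ((r / 2 : ℝ) : ℂ) = w := hY (subset_closure hb)
    have e3 : ((r / 2 : ℝ) : ℂ) = 0 := by linear_combination e2 - e1
    rw [Complex.ofReal_eq_zero] at e3
    linarith
  have hopen : ∀ s ⊆ X, IsOpen s → IsOpen (h '' s) :=
    (han.is_constant_or_isOpen hXc.isPreconnected).resolve_left hnc
  have hYi : interior (closure Y) = Y := by
    rw [hD.vY.interior_closure_eq_interior_of_nonempty_interior, hD.oY.interior_eq]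
    rw [hD.oY.interior_eq]
    exact hD.nY
  have hXY : MapsTo h X Y := by
    intro z hz
    rw [← hYi]
    have m1 : h '' X ⊆ closure Y := by
      rintro _ ⟨x, hx, rfl⟩
      exact hmap (subset_closure hx)
    exact interior_maximal m1 (hopen X Subset.rfl hD.oX) ⟨z, hz, rfl⟩
  have hdisj : ∀ z ∈ frontier X, h z ∉ Y := by
    intro z hz hzY
    have := hfr hz
    rw [hD.oY.frontier_eq] at this
    exact this.2 hzY
  have hinX : ∀ z ∈ closure X, h z ∈ Y → z ∈ X := by
    intro z hz hzY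
    by_contra hcon
    exact hdisj z (by rw [hD.oX.frontier_eq]; exact ⟨hz, hcon⟩) hzY
  have hinj : InjOn h X := by
    intro z hz z' hz' hzz
    by_contra hne
    set c := h z with hc
    have hcY : c ∈ Y := hXY hz
    have hS := hpre c
    have hSX : {z | z ∈ closure X ∧ h z = c} ⊆ X := fun w hw =>
      hinX w hw.1 (by rw [hw.2]; exact hcY)
    have hnt : ({z | z ∈ closure X ∧ h z = c} : Set ℂ).Nontrivial :=
      ⟨z, ⟨subset_closure hz, rfl⟩, z', ⟨subset_closure hz', hzz.symm⟩, hne⟩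
    have hacc := hS.preperfect_of_nontrivial hnt z ⟨subset_closure hz, rfl⟩
    have hfreq : ∃ᶠ w in 𝓝[≠] z, h w = c := by
      rw [accPt_iff_frequently_nhdsNE] at hacc
      exact hacc.mono fun w hw => hw.2
    have hev : EqOn h (fun _ => c) X :=
      han.eqOn_of_preconnected_of_frequently_eq analyticOnNhd_const hXc.isPreconnected hz hfreq
    exact hnc ⟨c, hev⟩
  have hbij : BijOn h X Y :=
    ⟨hXY, hinj, fun c hc => by
      obtain ⟨z, hz, rfl⟩ := hsur (subset_closure hc)
      exact ⟨z, hinX z hz hc, rfl⟩⟩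
  refine ⟨hol, hbij, fun z hz => ConfM.deriv_ne_of_inj hD.oX hXc.isPreconnected hol hinj hz,
    hco, ⟨hmap, ?_, hsur⟩, hbij, heq⟩
  intro z hz z' hz' hzz
  by_cases hc : h z ∈ Y
  · exact hinj (hinX z hz hc) (hinX z' hz' (by rw [← hzz]; exact hc)) hzz
  · have n1 : z ∈ frontier X := by
      rw [hD.oX.frontier_eq]
      exact ⟨hz, fun hh => hc (hXY hh)⟩
    have n2 : z' ∈ frontier X := by
      rw [hD.oX.frontier_eq]
      exact ⟨hz', fun hh => hc (by rw [hzz]; exact hXY hh)⟩
    apply hD.bi.injOn hz hz'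
    rw [← heq n1, ← heq n2, hzz]

end MPfa
end
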