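import Pool.Agent.Lib.MP_fa0334_an.ChartOde

/-!
Problem MP_fa0334_an, module CVX (E16).
-/

set_option autoImplicit false

open MeasureTheory Set Filter Topology Metric Complex
open scoped ContDiff ENNReal ComplexConjugate

namespace MPfa

namespace CvxM

/-- a function with positive second derivative has no local maximum -/
lemma no_max {f f' : ℝ → ℝ} {c : ℝ} (h1 : ∀ᶠ v in 𝓝 (0 : ℝ), HasDerivAt f (f' v) v)
    (h2 : HasDerivAt f' c 0) (hc : 0 < c) : ¬ (∀ᶠ v in 𝓝 (0 : ℝ), f v ≤ f 0) := by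
  intro hmax
  have e1 : deriv f =ᶠ[𝓝 0] f' := h1.mono fun v hv => hv.deriv
  have e0 : deriv f 0 = 0 := IsLocalMax.deriv_eq_zero (f := f) (a := 0) hmax
  have e2 : deriv (deriv f) 0 = c := by
    rw [e1.deriv_eq, h2.deriv]
  have hmin : IsLocalMin f 0 :=
    isLocalMin_of_deriv_deriv_pos (by rw [e2]; exact hc) e0 (h1.self_of_nhds.continuousAt)
  have hconst : f =ᶠ[𝓝 0] fun _ => f 0 := by
    filter_upwards [hmax, hmin] with v a b
    exact le_antisymm a b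
  have e3 : deriv f =ᶠ[𝓝 0] fun _ => 0 := by
    have := hconst.deriv
    simpa using this
  have e4 : deriv (deriv f) 0 = 0 := by
    rw [e3.deriv_eq]
    simp
  linarith

end CvxM

open CvxM CO in
theorem specCvx : SpecCvx := by
  intro D Ψ t r l g y hD hΨ hc hl hy hlt
  have h0 : (0 : ℂ) ∈ ball (0 : ℂ) r := mem_ball_self hc.r0
  have hmem : ∀ᶠ v : ℝ in 𝓝 0, (v * I : ℂ) ∈ ball (0 : ℂ) r := by
    have : ContinuousAt (fun v : ℝ => (v * I : ℂ)) 0 := by fun_prop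
    exact this.eventually_mem (isOpen_ball.mem_nhds (by simpa using hc.r0))
  have hγ : ∀ v : ℝ, HasDerivAt (fun v : ℝ => (v * I : ℂ)) I v := by
    intro v
    simpa using (Complex.ofRealCLM.hasDerivAt (x := v)).mul_const I
  -- the functions along the vertical line
  set Y : ℝ → ℂ := fun v => y (g (v * I)) with hY
  set V : ℝ → ℂ := fun v => I * A g y (v * I) with hV
  have dY : ∀ v : ℝ, (v * I : ℂ) ∈ ball (0 : ℂ) r → HasDerivAt Y (V v) v := by
    intro v hv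
    have := (hu hD hc hy hv).scomp v (hγ v)
    simpa [hV, hY, Function.comp_def] using this
  have dV : ∀ v : ℝ, (v * I : ℂ) ∈ ball (0 : ℂ) r →
      HasDerivAt V ((l : ℂ) ^ 2 * Y v - qh g (v * I) * A g y (v * I)) v := by
    intro v hv
    have := ((hA hD hc hy hv).scomp v (hγ v)).const_mul I
    refine this.congr_deriv ?_
    simp only [hY, smul_eq_mul, Nat.cast_zero, pow_zero]
    linear_combination (-(l : ℂ) ^ 2 * y (g (v * I)) + qh g (v * I) * A g y (v * I)) * Complex.I_mul_I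
  have hre : ∀ {P : ℝ → ℂ} {P' : ℂ} {v : ℝ}, HasDerivAt P P' v → HasDerivAt (fun x => (P x).re) P'.re v := by
    intro P P' v h
    exact Complex.reCLM.hasFDerivAt.comp_hasDerivAt v h
  have him : ∀ {P : ℝ → ℂ} {P' : ℂ} {v : ℝ}, HasDerivAt P P' v → HasDerivAt (fun x => (P x).im) P'.im v := by
    intro P P' v h
    exact Complex.imCLM.hasFDerivAt.comp_hasDerivAt v h
  -- the square of the modulus
  have dF : ∀ v : ℝ, (v * I : ℂ) ∈ ball (0 : ℂ) r →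
      HasDerivAt (fun v => ‖Y v‖ ^ 2) (2 * ((Y v).re * (V v).re + (Y v).im * (V v).im)) v := by
    intro v hv
    have h1 := hre (dY v hv)
    have h2 := him (dY v hv)
    have h3 := (h1.mul h1).add (h2.mul h2)
    have e : (fun x => ‖Y x‖ ^ 2) = fun x => (Y x).re * (Y x).re + (Y x).im * (Y x).im := by
      funext x
      rw [← Complex.normSq_eq_norm_sq, Complex.normSq_apply]
    rw [e]
    exact h3.congr_deriv (by ring)
  have h0' : (((0 : ℝ) : ℂ) * I) ∈ ball (0 : ℂ) r := by simpa using hc.r0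
  set Q : ℂ := (l : ℂ) ^ 2 * Y 0 - qh g (((0 : ℝ) : ℂ) * I) * A g y (((0 : ℝ) : ℂ) * I) with hQ
  have dF2 : HasDerivAt (fun v : ℝ => 2 * ((Y v).re * (V v).re + (Y v).im * (V v).im))
      (2 * (((V 0).re * (V 0).re + (Y 0).re * Q.re) + ((V 0).im * (V 0).im + (Y 0).im * Q.im))) 0 :=
    (((hre (dY 0 h0')).mul (hre (dV 0 h0'))).add ((him (dY 0 h0')).mul (him (dV 0 h0')))).const_mul 2
  -- positivity of the second derivative
  have hψ := hc.eq 0 h0
  have hdψ := dPsi hD hΨ hc h0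
  have hne := hc.nd 0 h0
  simp only [hc.z, Nat.cast_zero, pow_zero, zero_add, zero_mul, mul_zero, zero_sub, mul_one] at hψ hdψ
  have hψ' : Ψ t * deriv g 0 ^ 2 = 1 := by rw [hψ]; norm_num
  have hdψ' : deriv Ψ t * deriv g 0 ^ 3 = -(2 * qh g 0) := by rw [hdψ]; norm_num
  have n1 : ‖Ψ t‖ * ‖deriv g 0‖ ^ 2 = 1 := by
    have := congrArg norm hψ'
    simpa [norm_mul, norm_pow] using this
  have n2 : ‖deriv Ψ t‖ * ‖deriv g 0‖ ^ 3 = 2 * ‖qh g 0‖ := by
    have := congrArg norm hdψ'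
    simpa [norm_mul, norm_pow] using this
  have hgp : 0 < ‖deriv g 0‖ := norm_pos_iff.mpr hne
  have hq : ‖qh g 0‖ < 2 * l := by
    have h3 : ‖deriv Ψ t‖ ^ 2 * (‖deriv g 0‖ ^ 2) ^ 3 < 16 * l ^ 2 * ‖Ψ t‖ ^ 3 * (‖deriv g 0‖ ^ 2) ^ 3 :=
      mul_lt_mul_of_pos_right hlt (by positivity)
    have h4 : ‖deriv Ψ t‖ ^ 2 * (‖deriv g 0‖ ^ 2) ^ 3 = (2 * ‖qh g 0‖) ^ 2 := by rw [← n2]; ring
    have h5 : 16 * l ^ 2 * ‖Ψ t‖ ^ 3 * (‖deriv g 0‖ ^ 2) ^ 3 = (4 * l) ^ 2 := by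
      have : ‖Ψ t‖ ^ 3 * (‖deriv g 0‖ ^ 2) ^ 3 = 1 := by rw [← mul_pow, n1, one_pow]
      linear_combination 16 * l ^ 2 * this
    rw [h4, h5] at h3
    have h6 := lt_of_pow_lt_pow_left₀ 2 (by positivity) h3
    linarith
  have e0 : (((0 : ℝ) : ℂ) * I) = 0 := by simp
  have hY0 : Y 0 = y (g 0) := by simp [hY]
  have hV0 : V 0 = I * A g y 0 := by simp [hV]
  have hQ0 : Q = (l : ℂ) ^ 2 * Y 0 - qh g 0 * A g y 0 := by rw [hQ, e0]
  have hsum : ((V 0).re * (V 0).re + (Y 0).re * Q.re) + ((V 0).im * (V 0).im + (Y 0).im * Q.im)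
      = ‖A g y 0‖ ^ 2 + l ^ 2 * ‖Y 0‖ ^ 2 - (conj (Y 0) * (qh g 0 * A g y 0)).re := by
    rw [hQ0, hV0, ← Complex.normSq_eq_norm_sq, ← Complex.normSq_eq_norm_sq, Complex.normSq_apply, Complex.normSq_apply]
    have : ((l : ℂ) ^ 2 * Y 0) = ((l ^ 2 : ℝ) : ℂ) * Y 0 := by push_cast; ring
    rw [this]
    simp only [Complex.mul_re, Complex.mul_im, Complex.sub_re, Complex.sub_im, Complex.I_re, Complex.I_im,
      Complex.conj_re, Complex.conj_im, Complex.ofReal_re, Complex.ofReal_im]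
    ring
  have hre_le : (conj (Y 0) * (qh g 0 * A g y 0)).re ≤ ‖Y 0‖ * (‖qh g 0‖ * ‖A g y 0‖) := by
    calc (conj (Y 0) * (qh g 0 * A g y 0)).re ≤ ‖conj (Y 0) * (qh g 0 * A g y 0)‖ := Complex.re_le_norm _
      _ = ‖Y 0‖ * (‖qh g 0‖ * ‖A g y 0‖) := by rw [norm_mul, norm_mul, Complex.norm_conj]
  have hpos : 0 < 2 * (((V 0).re * (V 0).re + (Y 0).re * Q.re) + ((V 0).im * (V 0).im + (Y 0).im * Q.im)) := by
    rw [hsum]
    have hz := nz hc hy h0
    have a0 := norm_nonneg (A g y 0)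
    have b0 := norm_nonneg (Y 0)
    have q0 := norm_nonneg (qh g 0)
    rcases eq_or_lt_of_le (mul_nonneg a0 b0) with hzero | hp
    · have h7 : 0 < ‖A g y 0‖ ^ 2 + l ^ 2 * ‖Y 0‖ ^ 2 := by
        rcases hz with h | h
        · have : 0 < ‖Y 0‖ := by rw [hY0]; exact norm_pos_iff.mpr h
          positivity
        · have : 0 < ‖A g y 0‖ := norm_pos_iff.mpr h
          positivity
      have h8 : ‖Y 0‖ * (‖qh g 0‖ * ‖A g y 0‖) = 0 := by
        have : ‖Y 0‖ * (‖qh g 0‖ * ‖A g y 0‖) = ‖qh g 0‖ * (‖A g y 0‖ * ‖Y 0‖) := by ring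
        rw [this, ← hzero, mul_zero]
      rw [h8] at hre_le
      linarith
    · have h9 : ‖qh g 0‖ * (‖A g y 0‖ * ‖Y 0‖) < 2 * l * (‖A g y 0‖ * ‖Y 0‖) :=
        mul_lt_mul_of_pos_right hq hp
      have h10 : 2 * l * (‖A g y 0‖ * ‖Y 0‖) ≤ ‖A g y 0‖ ^ 2 + l ^ 2 * ‖Y 0‖ ^ 2 := by
        nlinarith [sq_nonneg (‖A g y 0‖ - l * ‖Y 0‖)]
      nlinarith
  have hfin := no_max (f := fun v => ‖Y v‖ ^ 2) (hmem.mono fun v hv => dF v hv) dF2 hpos
  intro hcon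
  apply hfin
  filter_upwards [hcon] with v hv
  have e5 : ‖Y 0‖ = ‖y t‖ := by rw [hY0, hc.z]
  rw [e5]
  exact pow_le_pow_left₀ (norm_nonneg _) hv 2

end MPfa
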