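import Pool.Agent.Lib.MP_fa0334_an.Spec
import Pool.Agent.Lib.MP_fa0334_an.Bump

section
/-!
Problem MP_fa0334_an, module LIM: basic properties of the relaxed class.
-/
set_option autoImplicit false

open MeasureTheory Set Filter Topology Metric Complex
open scoped ContDiff ENNReal ComplexConjugate

namespace MPfa

namespace Lim

/-- the inverse of a continuous bijection of a compact set is continuous -/
theorem cont_inv {A B : Set ℂ} {k : ℂ → ℂ} (hA : IsCompact A) (hk : ContinuousOn k A)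
    (hb : BijOn k A B) : ContinuousOn (Function.invFunOn k A) B := by
  rw [continuousOn_iff_isClosed]
  intro t ht
  refine ⟨k '' (A ∩ t), ((hA.inter_right ht).image_of_continuousOn
    (hk.mono inter_subset_left)).isClosed, ?_⟩
  ext y
  constructor
  · rintro ⟨hyt, hyB⟩
    refine ⟨⟨Function.invFunOn k A y, ⟨?_, hyt⟩, ?_⟩, hyB⟩
    · exact Function.invFunOn_mem (hb.surjOn hyB)
    · exact Function.invFunOn_eq (hb.surjOn hyB)
  · rintro ⟨⟨z, ⟨hzA, hzt⟩, rfl⟩, hyB⟩
    refine ⟨?_, hyB⟩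
    rw [mem_preimage, hb.injOn.leftInvOn_invFunOn hzA]
    exact hzt

/-- the preimage of a preconnected set under a continuous bijection of a compact set -/
theorem preconn_preimage {A B Q : Set ℂ} {k : ℂ → ℂ} (hA : IsCompact A) (hk : ContinuousOn k A)
    (hb : BijOn k A B) (hQ : IsPreconnected Q) (hQB : Q ⊆ B) :
    IsPreconnected {z | z ∈ A ∧ k z ∈ Q} := by
  have h1 := hQ.image (Function.invFunOn k A) ((cont_inv hA hk hb).mono hQB)
  suffices he : {z | z ∈ A ∧ k z ∈ Q} = Function.invFunOn k A '' Q by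
    rw [he]
    exact h1
  ext z
  constructor
  · rintro ⟨hzA, hzQ⟩
    exact ⟨k z, hzQ, hb.injOn.leftInvOn_invFunOn hzA⟩
  · rintro ⟨y, hyQ, rfl⟩
    refine ⟨Function.invFunOn_mem (hb.surjOn (hQB hyQ)), ?_⟩
    rw [Function.invFunOn_eq (hb.surjOn (hQB hyQ))]
    exact hyQ

section
variable {X Y : Set ℂ} {b h : ℂ → ℂ}

theorem frontier_X (hd : Dom X Y b) : frontier X = closure X \ X := hd.oX.frontier_eq

theorem b_frontier (hd : Dom X Y b) : MapsTo b (frontier X) (frontier Y) := by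
  intro z hz
  rw [hd.oX.frontier_eq] at hz
  rw [hd.oY.frontier_eq]
  refine ⟨hd.bi.mapsTo hz.1, fun hy => ?_⟩
  obtain ⟨z', hz', he⟩ := hd.bX.surjOn hy
  have := hd.bi.injOn (subset_closure hz') hz.1 he
  exact hz.2 (this ▸ hz')

theorem cont (hl : MPfa.Lim X Y b h) : ContinuousOn h (closure X) := by
  refine continuousOn_of_uniform_approx_of_continuousOn fun u hu => ?_
  obtain ⟨ε, hε, hu⟩ := Metric.mem_uniformity_dist.1 hu
  obtain ⟨k, hk, hkh⟩ := hl (ε / 2) (by positivity)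
  refine ⟨k, hk.co, fun y hy => hu ?_⟩
  rw [dist_comm, dist_eq_norm]
  exact lt_of_le_of_lt (hkh y hy) (by linarith)

theorem mapsTo (hl : MPfa.Lim X Y b h) : MapsTo h (closure X) (closure Y) := by
  intro z hz
  rw [← closure_closure, Metric.mem_closure_iff]
  intro ε hε
  obtain ⟨k, hk, hkh⟩ := hl (ε / 2) (by positivity)
  refine ⟨k z, hk.bi.mapsTo hz, ?_⟩
  rw [dist_comm, dist_eq_norm]
  exact lt_of_le_of_lt (hkh z hz) (by linarith)

theorem eqOn (hl : MPfa.Lim X Y b h) : EqOn h b (frontier X) := by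
  intro z hz
  by_contra hne
  have hpos : 0 < ‖b z - h z‖ := norm_pos_iff.2 (sub_ne_zero.2 (Ne.symm hne))
  obtain ⟨k, hk, hkh⟩ := hl (‖b z - h z‖ / 2) (by positivity)
  have h1 := hkh z (frontier_subset_closure hz)
  rw [hk.eq hz] at h1
  linarith

theorem surjOn (hd : Dom X Y b) (hl : MPfa.Lim X Y b h) : SurjOn h (closure X) (closure Y) := by
  intro y hy
  have h1 : IsClosed (h '' closure X) := (hd.cX.image_of_continuousOn (cont hl)).isClosed
  rw [← h1.closure_eq, Metric.mem_closure_iff]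
  intro ε hε
  obtain ⟨k, hk, hkh⟩ := hl (ε / 2) (by positivity)
  obtain ⟨z, hz, rfl⟩ := hk.bi.surjOn hy
  refine ⟨h z, ⟨z, hz, rfl⟩, ?_⟩
  rw [dist_eq_norm]
  exact lt_of_le_of_lt (hkh z hz) (by linarith)

theorem mapsTo_frontier (hd : Dom X Y b) (hl : MPfa.Lim X Y b h) :
    MapsTo h (frontier X) (frontier Y) := by
  intro z hz
  rw [eqOn hl hz]
  exact b_frontier hd hz

theorem fibre (hd : Dom X Y b) (hl : MPfa.Lim X Y b h) (c : ℂ) :
    IsPreconnected {z | z ∈ closure X ∧ h z = c} := by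
  set Z : Set ℂ := {z | z ∈ closure X ∧ h z = c} with hZ
  have hZc : IsCompact Z := by
    have : Z = closure X ∩ h ⁻¹' {c} := rfl
    rw [this]
    exact hd.cX.of_isClosed_subset ((cont hl).preimage_isClosed_of_isClosed isClosed_closure
      isClosed_singleton) inter_subset_left
  rw [isPreconnected_closed_iff]
  intro t t' ht ht' hsub hne hne'
  by_contra hemp
  have hdisj : Disjoint (Z ∩ t) (Z ∩ t') := by
    rw [Set.disjoint_iff]
    rintro z ⟨⟨hz, hzt⟩, _, hzt'⟩
    exact hemp ⟨z, hz, hzt, hzt'⟩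
  obtain ⟨U₁, U₂, hU₁, hU₂, hs1, hs2, hU⟩ := SeparatedNhds.of_isCompact_isCompact
    (hZc.inter_right ht) (hZc.inter_right ht') hdisj
  have hZU : Z ⊆ U₁ ∪ U₂ := by
    intro z hz
    rcases hsub hz with h1 | h1
    · exact Or.inl (hs1 ⟨hz, h1⟩)
    · exact Or.inr (hs2 ⟨hz, h1⟩)
  have hKc : IsCompact (closure X \ (U₁ ∪ U₂)) := hd.cX.diff (hU₁.union hU₂)
  obtain ⟨d, hd0, hdK⟩ : ∃ d > 0, ∀ z ∈ closure X \ (U₁ ∪ U₂), 3 * d ≤ ‖h z - c‖ := by
    rcases (closure X \ (U₁ ∪ U₂)).eq_empty_or_nonempty with he | he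
    · exact ⟨1, one_pos, fun z hz => by rw [he] at hz; exact absurd hz (notMem_empty _)⟩
    · obtain ⟨z₀, hz₀, hmin⟩ := hKc.exists_isMinOn he
        ((((cont hl).mono sdiff_subset).sub continuousOn_const).norm :
          ContinuousOn (fun z => ‖h z - c‖) (closure X \ (U₁ ∪ U₂)))
      have hpos : 0 < ‖h z₀ - c‖ := by
        rw [norm_pos_iff, sub_ne_zero]
        intro he0
        exact hz₀.2 (hZU ⟨hz₀.1, he0⟩)
      refine ⟨‖h z₀ - c‖ / 3, by positivity, fun z hz => ?_⟩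
      have : ‖h z₀ - c‖ ≤ ‖h z - c‖ := hmin hz
      linarith
  obtain ⟨k, hk, hkh⟩ := hl d hd0
  have hP := preconn_preimage hd.cX hk.co hk.bi
    (Q := closure Y ∩ closedBall c d) ((hd.vY.closure.inter (convex_closedBall c d)).isPreconnected)
    inter_subset_left
  have hmem : ∀ z ∈ closure X, ‖k z - c‖ ≤ d →
      z ∈ {z | z ∈ closure X ∧ k z ∈ closure Y ∩ closedBall c d} := by
    intro z hz hk1
    refine ⟨hz, hk.bi.mapsTo hz, ?_⟩
    rw [mem_closedBall, dist_eq_norm]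
    exact hk1
  have hZP : ∀ z ∈ Z, z ∈ {z | z ∈ closure X ∧ k z ∈ closure Y ∩ closedBall c d} := by
    rintro z ⟨hz, rfl⟩
    exact hmem z hz (hkh z hz)
  obtain ⟨z, hz⟩ := hP U₁ U₂ hU₁ hU₂ (by
    rintro z ⟨hzX, hzY, hzc⟩
    by_contra hn
    have h1 := hdK z ⟨hzX, hn⟩
    have h2 := hkh z hzX
    rw [mem_closedBall, dist_eq_norm] at hzc
    have h3 : ‖h z - c‖ ≤ ‖k z - h z‖ + ‖k z - c‖ := by
      have : h z - c = (k z - c) - (k z - h z) := by ring
      rw [this]
      exact (norm_sub_le _ _).trans (by linarith)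
    linarith)
    (by
      obtain ⟨z, hz, hzt⟩ := hne
      exact ⟨z, hZP z hz, hs1 ⟨hz, hzt⟩⟩)
    (by
      obtain ⟨z, hz, hzt⟩ := hne'
      exact ⟨z, hZP z hz, hs2 ⟨hz, hzt⟩⟩)
  exact Set.disjoint_iff.1 hU hz.2

theorem fs (hd : Dom X Y b) (hl : MPfa.Lim X Y b h) : FS X h := by
  intro c hfin z₁ hz₁ z₂ hz₂
  by_contra hne
  have hW : IsClosed ({z ∈ X | h z = c} \ {z₁}) := (hfin.subset sdiff_subset).isClosed
  obtain ⟨z, hz, hzu, hzv⟩ := fibre hd hl c (X \ ({z ∈ X | h z = c} \ {z₁})) {z₁}ᶜ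
    (hd.oX.sdiff hW) isOpen_compl_singleton
    (by
      intro z _
      by_cases he : z = z₁
      · left
        subst he
        exact ⟨hz₁.1, fun h1 => h1.2 rfl⟩
      · right
        exact he)
    ⟨z₁, ⟨subset_closure hz₁.1, hz₁.2⟩, hz₁.1, fun h1 => h1.2 rfl⟩
    ⟨z₂, ⟨subset_closure hz₂.1, hz₂.2⟩, fun h1 => hne h1.symm⟩
  exact hzu.2 ⟨⟨hzu.1, hz.2⟩, hzv⟩

end

end Lim

theorem specLim : SpecLim := by
  intro X Y b h hd hl
  exact ⟨Lim.cont hl, Lim.mapsTo hl, Lim.eqOn hl, Lim.surjOn hd hl, Lim.mapsTo_frontier hd hl,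
    Lim.fibre hd hl, Lim.fs hd hl⟩

end MPfa
end

section
/-!
Problem MP_fa0334_an, module BPL: boundary principle up to the boundary.
-/
set_option autoImplicit false

open MeasureTheory Set Filter Topology Metric Complex
open scoped ContDiff ENNReal ComplexConjugate

namespace MPfa

/-- homeomorphisms are open on `X` -/
theorem Bpl.isOpen_image {X Y : Set ℂ} {b k : ℂ → ℂ} (hd : Dom X Y b) (hk : Hom X Y b k)
    {D : Set ℂ} (hD : IsOpen D) (hDX : D ⊆ X) : IsOpen (k '' D) := by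
  have h1 : IsClosed (k '' (closure X \ D)) :=
    ((hd.cX.diff hD).image_of_continuousOn (hk.co.mono sdiff_subset)).isClosed
  have h2 : k '' D = Y \ k '' (closure X \ D) := by
    ext y
    constructor
    · rintro ⟨z, hz, rfl⟩
      refine ⟨hk.bX.mapsTo (hDX hz), ?_⟩
      rintro ⟨z', hz', he⟩
      have := hk.bi.injOn hz'.1 (subset_closure (hDX hz)) he
      exact hz'.2 (this ▸ hz)
    · rintro ⟨hy, hn⟩
      obtain ⟨z, hz, rfl⟩ := hk.bi.surjOn (subset_closure hy)
      refine ⟨z, ?_, rfl⟩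
      by_contra hzD
      exact hn ⟨z, ⟨hz, hzD⟩, rfl⟩
  rw [h2]
  exact hd.oY.sdiff h1

theorem specBPL : SpecBPL := by
  intro X Y b h hd hl D hD hDX c r hb z hz
  have hcl : closure D ⊆ closure X := closure_mono hDX
  have hc : IsCompact (closure D) := hd.cX.of_isClosed_subset isClosed_closure hcl
  refine le_of_forall_pos_le_add fun ε hε => ?_
  obtain ⟨k, hk, hkh⟩ := hl (ε / 2) (by positivity)
  have h1 := Bph.max_arg hD hc (hk.co.mono hcl) (Bpl.isOpen_image hd hk hD hDX) c (r + ε / 2) (by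
    intro w hw
    have h2 := hb w hw
    have h3 := hkh w (hcl (frontier_subset_closure hw))
    have : k w - c = (k w - h w) + (h w - c) := by ring
    rw [this]
    exact (norm_add_le _ _).trans (by linarith)) z hz
  have h4 := hkh z (subset_closure (hDX hz))
  have : h z - c = (k z - c) - (k z - h z) := by ring
  rw [this]
  exact (norm_sub_le _ _).trans (by linarith)

end MPfa
end

section
/-!
Problem MP_fa0334_an, module FRC: the boundary of `X` is connected and has two points.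
-/
set_option autoImplicit false

open MeasureTheory Set Filter Topology Metric Complex
open scoped ContDiff ENNReal ComplexConjugate

namespace MPfa

theorem specFrc : SpecFrc := by
  intro X Y b hd
  have hint : interior Y = Y := hd.oY.interior_eq
  obtain ⟨e, he1, he2, he3⟩ := exists_homeomorph_image_interior_closure_frontier_eq_unitBall
    hd.vY (by rw [hint]; exact hd.nY) hd.bY
  have hrank : 1 < Module.rank ℝ ℂ := by
    rw [Complex.rank_real_complex]
    exact Cardinal.one_lt_two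
  -- the frontier of `Y`
  have hY : frontier Y = e.symm '' sphere 0 1 := by
    rw [← he3, ← image_comp]
    simp
  have hYc : IsPreconnected (frontier Y) := by
    rw [hY]
    exact (isPreconnected_sphere hrank 0 1).image _ e.symm.continuous.continuousOn
  have hYn : (frontier Y).Nontrivial := by
    rw [hY]
    refine Set.Nontrivial.image ?_ e.symm.injective
    refine ⟨1, by simp, -1, by simp, ?_⟩
    intro h
    have := congrArg Complex.re h
    simp at this
    linarith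
  -- the homeomorphism `closure X → closure Y`
  have hfr : {z | z ∈ closure X ∧ b z ∈ frontier Y} = frontier X := by
    ext z
    constructor
    · rintro ⟨hz, hb⟩
      rw [hd.oX.frontier_eq]
      refine ⟨hz, fun hzX => ?_⟩
      rw [hd.oY.frontier_eq] at hb
      exact hb.2 (hd.bX.mapsTo hzX)
    · intro hz
      exact ⟨frontier_subset_closure hz, Lim.b_frontier hd hz⟩
  have hXX : {z | z ∈ closure X ∧ b z ∈ Y} = X := by
    ext z
    constructor
    · rintro ⟨hz, hb⟩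
      obtain ⟨z', hz', he⟩ := hd.bX.surjOn hb
      have := hd.bi.injOn (subset_closure hz') hz he
      exact this ▸ hz'
    · intro hz
      exact ⟨subset_closure hz, hd.bX.mapsTo hz⟩
  refine ⟨?_, ?_, ⟨?_, ?_⟩, hd.vY.addHaar_frontier volume⟩
  · rw [← hfr]
    exact Lim.preconn_preimage hd.cX hd.bc hd.bi hYc frontier_subset_closure
  · obtain ⟨y₁, hy₁, y₂, hy₂, hne⟩ := hYn
    obtain ⟨z₁, hz₁, rfl⟩ := hd.bi.surjOn (frontier_subset_closure hy₁)
    obtain ⟨z₂, hz₂, rfl⟩ := hd.bi.surjOn (frontier_subset_closure hy₂)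
    refine ⟨z₁, ?_, z₂, ?_, fun h => hne (by rw [h])⟩
    · rw [← hfr]
      exact ⟨hz₁, hy₁⟩
    · rw [← hfr]
      exact ⟨hz₂, hy₂⟩
  · obtain ⟨y, hy⟩ := hd.nY
    obtain ⟨z, hz, _⟩ := hd.bX.surjOn hy
    exact ⟨z, hz⟩
  · have := Lim.preconn_preimage hd.cX hd.bc hd.bi hd.vY.isPreconnected subset_closure
    rwa [hXX] at this

end MPfa
end

section
/-!
Problem MP_fa0334_an, module EQUI: equicontinuity of the relaxed class.
-/
set_option autoImplicit false

open MeasureTheory Set Filter Topology Metric Complex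
open scoped ContDiff ENNReal ComplexConjugate

namespace MPfa

namespace Equi

theorem lmap_sq (a b m : ℂ) : ‖lmap a b m‖ ^ 2 ≤ ‖m‖ ^ 2 * (‖a‖ ^ 2 + ‖b‖ ^ 2) := by
  have h1 : lmap a b m = m.re • a + m.im • b := by simp [lmap]
  have h2 : ‖lmap a b m‖ ≤ |m.re| * ‖a‖ + |m.im| * ‖b‖ := by
    rw [h1]
    refine (norm_add_le _ _).trans ?_
    rw [norm_smul, norm_smul, Real.norm_eq_abs, Real.norm_eq_abs]
  have h3 : ‖m‖ ^ 2 = |m.re| ^ 2 + |m.im| ^ 2 := by
    rw [Complex.sq_norm, Complex.normSq_apply, sq_abs, sq_abs]; ring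
  rw [h3]
  have h4 : ‖lmap a b m‖ ^ 2 ≤ (|m.re| * ‖a‖ + |m.im| * ‖b‖) ^ 2 :=
    pow_le_pow_left₀ (norm_nonneg _) h2 2
  refine h4.trans ?_
  nlinarith [sq_nonneg (|m.re| * ‖b‖ - |m.im| * ‖a‖)]

theorem lmap_sq_enorm (a b m : ℂ) : ‖lmap a b m‖ₑ ^ 2 ≤ ‖m‖ₑ ^ 2 * (‖a‖ₑ ^ 2 + ‖b‖ₑ ^ 2) := by
  have h := lmap_sq a b m
  have e : ∀ w : ℂ, ‖w‖ₑ ^ 2 = ENNReal.ofReal (‖w‖ ^ 2) := fun w => by
    rw [ENNReal.ofReal_pow (norm_nonneg _), ofReal_norm]
  rw [e, e, e, e, ← ENNReal.ofReal_add (by positivity) (by positivity),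
    ← ENNReal.ofReal_mul (by positivity)]
  exact ENNReal.ofReal_le_ofReal h

/-- first exit from an open set along a circle -/
theorem exit {X : Set ℂ} (hX : IsOpen X) {z : ℂ} {r θ₀ : ℝ} (h0 : circleMap z r θ₀ ∈ X)
    (h1 : ∃ θ₁, circleMap z r θ₁ ∉ X) : ∃ θ', θ₀ < θ' ∧ θ' ≤ θ₀ + 2 * Real.pi ∧
      (∀ θ ∈ Ico θ₀ θ', circleMap z r θ ∈ X) ∧ circleMap z r θ' ∉ X := by
  set S : Set ℝ := Icc θ₀ (θ₀ + 2 * Real.pi) ∩ (circleMap z r) ⁻¹' Xᶜ with hS
  have hSc : IsCompact S :=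
    isCompact_Icc.inter_right (hX.isClosed_compl.preimage (continuous_circleMap z r))
  obtain ⟨θ₁, h1⟩ := h1
  obtain ⟨θ₂, h2, he⟩ := (periodic_circleMap z r).exists_mem_Ico Real.two_pi_pos θ₁ θ₀
  have hne : S.Nonempty := ⟨θ₂, ⟨h2.1, h2.2.le⟩, by rw [mem_preimage, ← he]; exact h1⟩
  obtain ⟨θ', hθ', hmin⟩ := hSc.exists_isLeast hne
  refine ⟨θ', lt_of_le_of_ne hθ'.1.1 ?_, hθ'.1.2, ?_, hθ'.2⟩
  · rintro rfl
    exact hθ'.2 h0
  · intro θ hθ
    by_contra hn
    have : θ' ≤ θ := hmin ⟨⟨hθ.1, hθ.2.le.trans hθ'.1.2⟩, hn⟩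
    exact absurd hθ.2 (not_lt.2 this)

/-- two periods -/
theorem two_periods (G : ℝ → ℝ≥0∞) (hp : ∀ θ, G (θ + 2 * Real.pi) = G θ) :
    ∫⁻ θ in Ioo 0 (4 * Real.pi), G θ ≤ 2 * ∫⁻ θ in Ioo 0 (2 * Real.pi), G θ := by
  have hpi := Real.pi_pos
  have h1 : ∫⁻ θ in Ioo 0 (4 * Real.pi), G θ ≤ (∫⁻ θ in Ioo 0 (2 * Real.pi), G θ) +
      ∫⁻ θ in Ico (2 * Real.pi) (4 * Real.pi), G θ := by
    refine le_trans (lintegral_mono_set ?_) (lintegral_union_le _ _ _)
    intro θ hθ
    rcases lt_or_ge θ (2 * Real.pi) with h | h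
    · exact Or.inl ⟨hθ.1, h⟩
    · exact Or.inr ⟨h, hθ.2⟩
  have h2 : ∫⁻ θ in Ico (2 * Real.pi) (4 * Real.pi), G θ = ∫⁻ θ in Ioo 0 (2 * Real.pi), G θ := by
    rw [setLIntegral_congr (Ioo_ae_eq_Ico (a := (0 : ℝ)) (b := 2 * Real.pi)),
      ← lintegral_indicator measurableSet_Ico, ← lintegral_indicator measurableSet_Ico,
      ← lintegral_add_right_eq_self _ (2 * Real.pi)]
    refine lintegral_congr fun θ => ?_
    by_cases h : θ ∈ Ico 0 (2 * Real.pi)
    · rw [indicator_of_mem h, indicator_of_mem (by constructor <;> linarith [h.1, h.2]), hp]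
    · rw [indicator_of_notMem h, indicator_of_notMem]
      intro h'
      exact h ⟨by linarith [h'.1], by linarith [h'.2]⟩
  calc _ ≤ _ := h1
    _ = _ := by rw [h2]; exact (two_mul _).symm

/-- Cauchy-Schwarz -/
theorem cs {S : Set ℝ} {f : ℝ → ℝ≥0∞} (hf : AEMeasurable f (volume.restrict S)) :
    (∫⁻ θ in S, f θ) ^ 2 ≤ volume S * ∫⁻ θ in S, f θ ^ 2 := by
  have h := ENNReal.lintegral_mul_le_Lp_mul_Lq (volume.restrict S)
    (Real.HolderConjugate.two_two) hf (aemeasurable_const (b := (1 : ℝ≥0∞)))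
  simp only [Pi.mul_apply, mul_one, ENNReal.one_rpow, lintegral_const, one_mul,
    Measure.restrict_apply MeasurableSet.univ, univ_inter] at h
  have h2 : ∀ x : ℝ≥0∞, (x ^ (1 / (2 : ℝ))) ^ 2 = x := by
    intro x
    rw [← ENNReal.rpow_natCast, ← ENNReal.rpow_mul]
    norm_num
  calc (∫⁻ θ in S, f θ) ^ 2 ≤ ((∫⁻ θ in S, f θ ^ (2 : ℝ)) ^ (1 / (2 : ℝ)) *
        (volume S) ^ (1 / (2 : ℝ))) ^ 2 := by gcongr
    _ = (∫⁻ θ in S, f θ ^ (2 : ℝ)) * volume S := by rw [mul_pow, h2, h2]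
    _ = volume S * ∫⁻ θ in S, f θ ^ 2 := by
        rw [mul_comm]
        congr 1
        refine lintegral_congr fun θ => ?_
        rw [← ENNReal.rpow_natCast]
        norm_num

/-- energy density, zero outside `X` -/
noncomputable def dens (X : Set ℂ) (hx hy : ℂ → ℂ) : ℂ → ℝ≥0∞ :=
  X.indicator fun w => ‖hx w‖ₑ ^ 2 + ‖hy w‖ₑ ^ 2

theorem dens_meas {X : Set ℂ} (hX : IsOpen X) {hx hy : ℂ → ℂ} (mx : Measurable hx)
    (my : Measurable hy) : Measurable (dens X hx hy) :=
  ((mx.enorm.pow_const 2).add (my.enorm.pow_const 2)).indicator hX.measurableSet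

/-- from a point of a circle to the boundary -/
theorem arc {X : Set ℂ} {h hx hy : ℂ → ℂ} {z : ℂ} {r : ℝ} (hr : 0 < r) (hX : IsOpen X)
    (hco : ContinuousOn h (closure X)) (hC : ∀ a b : ℝ, a ≤ b →
      (∀ θ ∈ Icc a b, circleMap z r θ ∈ X) →
      IntervalIntegrable (fun θ : ℝ => lmap (hx (circleMap z r θ)) (hy (circleMap z r θ))
        (circleMap 0 r θ * I)) volume a b ∧
      h (circleMap z r b) - h (circleMap z r a) =
        ∫ θ in a..b, lmap (hx (circleMap z r θ)) (hy (circleMap z r θ)) (circleMap 0 r θ * I))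
    {y : ℂ} (hyX : y ∈ X) (hyr : y ∈ sphere z r) (hn : ∃ θ, circleMap z r θ ∉ X) :
    ∃ y' ∈ frontier X, y' ∈ sphere z r ∧ ‖h y' - h y‖ₑ ^ 2 ≤
      ENNReal.ofReal (4 * Real.pi) * (ENNReal.ofReal (r ^ 2) *
        ∫⁻ θ in Ioo 0 (2 * Real.pi), dens X hx hy (circleMap z r θ)) := by
  have hpi := Real.pi_pos
  obtain ⟨θ₁, hθ₁⟩ : y ∈ range (circleMap z r) := by
    rw [range_circleMap, abs_of_pos hr]
    exact hyr
  obtain ⟨θ₀, h0, he⟩ := (periodic_circleMap z r).exists_mem_Ico Real.two_pi_pos θ₁ 0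
  have hθ₀ : circleMap z r θ₀ = y := by rw [← he, hθ₁]
  obtain ⟨θ', h1, h2, h3, h4⟩ := exit hX (by rw [hθ₀]; exact hyX) hn
  have h5 : Tendsto (circleMap z r) (𝓝[<] θ') (𝓝 (circleMap z r θ')) :=
    (continuous_circleMap z r).continuousAt.tendsto.mono_left nhdsWithin_le_nhds
  have h6 : ∀ᶠ θ in 𝓝[<] θ', θ ∈ Ico θ₀ θ' := Ico_mem_nhdsLT h1
  have h7 : circleMap z r θ' ∈ closure X :=
    mem_closure_of_tendsto h5 (h6.mono fun θ hθ => h3 θ hθ)
  have h8 : Tendsto (fun θ => h (circleMap z r θ)) (𝓝[<] θ') (𝓝 (h (circleMap z r θ'))) :=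
    (hco _ h7).tendsto.comp (tendsto_nhdsWithin_iff.2 ⟨h5, h6.mono fun θ hθ =>
      subset_closure (h3 θ hθ)⟩)
  refine ⟨circleMap z r θ', ?_, circleMap_mem_sphere z hr.le θ', ?_⟩
  · rw [hX.frontier_eq]
    exact ⟨h7, h4⟩
  have h9 : Tendsto (fun θ => ‖h (circleMap z r θ) - h y‖ₑ ^ 2) (𝓝[<] θ')
      (𝓝 (‖h (circleMap z r θ') - h y‖ₑ ^ 2)) :=
    ((ENNReal.continuous_pow 2).tendsto _).comp ((h8.sub_const _).enorm)
  refine le_of_tendsto h9 (h6.mono fun θ hθ => ?_)
  have hIX : ∀ s ∈ Icc θ₀ θ, circleMap z r s ∈ X := fun s hs =>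
    h3 s ⟨hs.1, hs.2.trans_lt hθ.2⟩
  obtain ⟨hint, heq⟩ := hC θ₀ θ hθ.1 hIX
  rw [hθ₀] at heq
  rw [heq, intervalIntegral.integral_of_le hθ.1]
  have hint' := (intervalIntegrable_iff_integrableOn_Ioc_of_le hθ.1).1 hint
  calc _ ≤ (∫⁻ s in Ioc θ₀ θ, ‖lmap (hx (circleMap z r s)) (hy (circleMap z r s))
        (circleMap 0 r s * I)‖ₑ) ^ 2 := by
        gcongr
        exact enorm_integral_le_lintegral_enorm _
    _ ≤ volume (Ioc θ₀ θ) * ∫⁻ s in Ioc θ₀ θ, ‖lmap (hx (circleMap z r s)) (hy (circleMap z r s))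
        (circleMap 0 r s * I)‖ₑ ^ 2 := cs hint'.aestronglyMeasurable.enorm
    _ ≤ ENNReal.ofReal (2 * Real.pi) * (ENNReal.ofReal (r ^ 2) *
        (2 * ∫⁻ s in Ioo 0 (2 * Real.pi), dens X hx hy (circleMap z r s))) := by
        gcongr
        · rw [Real.volume_Ioc]
          exact ENNReal.ofReal_le_ofReal (by linarith [hθ.2])
        · refine le_trans ?_ (mul_le_mul_right (two_periods (fun s => dens X hx hy
            (circleMap z r s)) (fun s => by simp only [(periodic_circleMap z r) s])) _)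
          rw [← lintegral_const_mul' _ _ ENNReal.ofReal_ne_top]
          refine le_trans ?_ (lintegral_mono_set (s := Ioc θ₀ θ) ?_)
          · refine setLIntegral_mono' measurableSet_Ioc fun s hs => ?_
            refine (lmap_sq_enorm _ _ _).trans (le_of_eq ?_)
            have e1 : ‖circleMap 0 r s * I‖ₑ ^ 2 = ENNReal.ofReal (r ^ 2) := by
              rw [← ofReal_norm, ← ENNReal.ofReal_pow (norm_nonneg _), norm_mul, norm_I,
                mul_one, norm_circleMap_zero, sq_abs]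
            rw [e1, dens, indicator_of_mem (hIX s ⟨hs.1.le, hs.2⟩)]
          · intro s hs
            exact ⟨h0.1.trans_lt hs.1, by linarith [hs.2, hθ.2, h0.2]⟩
    _ = _ := by
        have e : ENNReal.ofReal (4 * Real.pi) = ENNReal.ofReal (2 * Real.pi) * 2 := by
          rw [show (4 : ℝ) * Real.pi = 2 * Real.pi * 2 by ring,
            ENNReal.ofReal_mul (p := 2 * Real.pi) (by positivity)]
          simp
        rw [e]
        ring

/-- a good radius -/
theorem choice (hP : SpecPol) {g : ℂ → ℝ≥0∞} (hg : Measurable g) {z : ℂ} {ρ R : ℝ} (hρ : 0 < ρ)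
    (hR : ρ < R) {P : ℝ → Prop} (hPae : ∀ᵐ r : ℝ, 0 < r → P r) {κ : ℝ} (hκ : 0 < κ)
    (hM : ∫⁻ w, g w < ENNReal.ofReal (κ * Real.log (R / ρ))) :
    ∃ r ∈ Ioo ρ R, P r ∧ ENNReal.ofReal (r ^ 2) *
      ∫⁻ θ in Ioo 0 (2 * Real.pi), g (circleMap z r θ) ≤ ENNReal.ofReal κ := by
  by_contra hcon
  push Not at hcon
  have h1 : ∫⁻ r in Ioo ρ R, ENNReal.ofReal (κ * r⁻¹) ≤
      ∫⁻ r in Ioo ρ R, ∫⁻ θ in Ioo 0 (2 * Real.pi), ENNReal.ofReal r * g (circleMap z r θ) := by
    refine lintegral_mono_ae ((ae_restrict_iff' measurableSet_Ioo).2 ?_)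
    filter_upwards [hPae] with r hr hrI
    have hr0 : 0 < r := hρ.trans hrI.1
    have h2 := (hcon r hrI (hr hr0)).le
    rw [lintegral_const_mul' _ _ ENNReal.ofReal_ne_top, ENNReal.ofReal_mul hκ.le]
    calc _ ≤ (ENNReal.ofReal (r ^ 2) * ∫⁻ θ in Ioo 0 (2 * Real.pi), g (circleMap z r θ)) *
          ENNReal.ofReal r⁻¹ := by gcongr
      _ = (ENNReal.ofReal (r ^ 2) * ENNReal.ofReal r⁻¹) *
          ∫⁻ θ in Ioo 0 (2 * Real.pi), g (circleMap z r θ) := by ring
      _ = _ := by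
          rw [← ENNReal.ofReal_mul (by positivity)]
          congr 2
          field_simp
  have h3 : ∫⁻ r in Ioo ρ R, ENNReal.ofReal (κ * r⁻¹) = ENNReal.ofReal (κ * Real.log (R / ρ)) := by
    have hint : IntervalIntegrable (fun r : ℝ => κ * r⁻¹) volume ρ R := by
      refine ContinuousOn.intervalIntegrable_of_Icc hR.le ?_
      refine continuousOn_const.mul (continuousOn_id.inv₀ fun r hr => ?_)
      exact (hρ.trans_le hr.1).ne'
    have e := integral_inv_of_pos hρ (hρ.trans hR)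
    rw [← e, ← intervalIntegral.integral_const_mul, intervalIntegral.integral_of_le hR.le,
      integral_Ioc_eq_integral_Ioo, ofReal_integral_eq_lintegral_ofReal]
    · exact ((intervalIntegrable_iff_integrableOn_Ioo_of_le hR.le).1 hint)
    · refine (ae_restrict_iff' measurableSet_Ioo).2 ?_
      filter_upwards with r hr
      have : 0 < r := hρ.trans hr.1
      simp only [Pi.zero_apply]
      positivity
  have h4 : ∫⁻ r in Ioo ρ R, ∫⁻ θ in Ioo 0 (2 * Real.pi), ENNReal.ofReal r * g (circleMap z r θ) ≤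
      ∫⁻ w, g w := by
    rw [hP z g hg]
    exact lintegral_mono_set fun r hr => hρ.trans hr.1
  exact absurd hM (not_lt.2 (h3 ▸ (h1.trans h4)))

/-- frontier of the part of `X` in a ball -/
theorem frontier_part {X : Set ℂ} (hX : IsOpen X) {z : ℂ} {r : ℝ} {w : ℂ}
    (hw : w ∈ frontier (X ∩ ball z r)) :
    (w ∈ X ∧ w ∈ sphere z r) ∨ (w ∈ frontier X ∧ w ∈ closedBall z r) := by
  rw [(hX.inter isOpen_ball).frontier_eq] at hw
  have h1 : w ∈ closure X := closure_mono inter_subset_left hw.1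
  have h2 : w ∈ closedBall z r :=
    closure_ball_subset_closedBall (closure_mono inter_subset_right hw.1)
  by_cases h3 : w ∈ X
  · left
    refine ⟨h3, ?_⟩
    rw [mem_sphere]
    refine le_antisymm h2 (not_lt.1 fun h4 => hw.2 ⟨h3, h4⟩)
  · right
    rw [hX.frontier_eq]
    exact ⟨⟨h1, h3⟩, h2⟩

/-- case 2: estimate near the boundary -/
theorem near {X Y : Set ℂ} {b h hx hy : ℂ → ℂ} (hd : Dom X Y b) (hl : Lim X Y b h) {z : ℂ}
    {r ε : ℝ} (hε : 0 < ε) (hr : 0 < r) (hC : ∀ a b : ℝ, a ≤ b →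
      (∀ θ ∈ Icc a b, circleMap z r θ ∈ X) →
      IntervalIntegrable (fun θ : ℝ => lmap (hx (circleMap z r θ)) (hy (circleMap z r θ))
        (circleMap 0 r θ * I)) volume a b ∧
      h (circleMap z r b) - h (circleMap z r a) =
        ∫ θ in a..b, lmap (hx (circleMap z r θ)) (hy (circleMap z r θ)) (circleMap 0 r θ * I))
    {y₀ : ℂ} (hy₀ : y₀ ∈ frontier X) (hy₀r : y₀ ∈ sphere z r)
    (hb : ∀ w ∈ frontier X, w ∈ closedBall z r → ‖b w - b y₀‖ ≤ ε / 8)
    (hJ : ENNReal.ofReal (r ^ 2) * ∫⁻ θ in Ioo 0 (2 * Real.pi), dens X hx hy (circleMap z r θ) ≤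
      ENNReal.ofReal (ε ^ 2 / (256 * Real.pi))) :
    ∀ w ∈ closure X, w ∈ ball z r → ‖h w - b y₀‖ ≤ ε / 4 := by
  have hpi := Real.pi_pos
  have hcont := Lim.cont hl
  have hEq := Lim.eqOn hl
  have hF : ∀ w ∈ frontier X, w ∈ closedBall z r → ‖h w - b y₀‖ ≤ ε / 4 := by
    intro w hw hwr
    rw [hEq hw]
    exact (hb w hw hwr).trans (by linarith)
  have hn : ∃ θ, circleMap z r θ ∉ X := by
    obtain ⟨θ, hθ⟩ : y₀ ∈ range (circleMap z r) := by
      rw [range_circleMap, abs_of_pos hr]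
      exact hy₀r
    refine ⟨θ, ?_⟩
    rw [hθ]
    rw [hd.oX.frontier_eq] at hy₀
    exact hy₀.2
  have hS : ∀ w ∈ X, w ∈ sphere z r → ‖h w - b y₀‖ ≤ ε / 4 := by
    intro w hw hwr
    obtain ⟨y', h1, h2, h3⟩ := arc hr hd.oX hcont hC hw hwr hn
    have h4 : ‖h y' - h w‖ ≤ ε / 8 := by
      have h5 : ‖h y' - h w‖ₑ ^ 2 ≤ ENNReal.ofReal ((ε / 8) ^ 2) := by
        refine h3.trans ?_
        calc _ ≤ ENNReal.ofReal (4 * Real.pi) * ENNReal.ofReal (ε ^ 2 / (256 * Real.pi)) := by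
              gcongr
          _ = _ := by
              rw [← ENNReal.ofReal_mul (by positivity)]
              congr 1
              field_simp
              norm_num
      rw [← ofReal_norm, ← ENNReal.ofReal_pow (norm_nonneg _),
        ENNReal.ofReal_le_ofReal_iff (by positivity)] at h5
      exact (pow_le_pow_iff_left₀ (norm_nonneg _) (by positivity) two_ne_zero).1 h5
    have h6 := hb y' h1 (sphere_subset_closedBall h2)
    rw [← hEq h1] at h6
    have : h w - b y₀ = (h y' - b y₀) - (h y' - h w) := by ring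
    rw [this]
    exact (norm_sub_le _ _).trans (by linarith)
  have hD := specBPL X Y b h hd hl (X ∩ ball z r) (hd.oX.inter isOpen_ball) inter_subset_left
    (b y₀) (ε / 4) (by
      intro w hw
      rcases frontier_part hd.oX hw with ⟨h1, h2⟩ | ⟨h1, h2⟩
      · exact hS w h1 h2
      · exact hF w h1 h2)
  intro w hw hwr
  by_cases hwX : w ∈ X
  · exact hD w ⟨hwX, hwr⟩
  · refine hF w ?_ (ball_subset_closedBall hwr)
    rw [hd.oX.frontier_eq]
    exact ⟨hw, hwX⟩

end Equi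

theorem specEqui (hO : SpecOsc) (hC : SpecCirc) (hP : SpecPol) : SpecEqui := by
  intro X Y b hd M hM ε hε
  have hpi := Real.pi_pos
  obtain ⟨hfc, ⟨y₁, hy₁, y₂, hy₂, hne⟩, -, -⟩ := specFrc X Y b hd
  -- uniform continuity of `b`
  have huc : UniformContinuousOn b (closure X) := hd.cX.uniformContinuousOn_of_continuous hd.bc
  obtain ⟨η, hη, hb⟩ := Metric.uniformContinuousOn_iff_le.1 huc (ε / 8) (by positivity)
  set d := dist y₁ y₂ with hdd
  have hd0 : 0 < d := dist_pos.2 hne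
  set R := min (d / 4) (η / 2) with hR
  have hR0 : 0 < R := lt_min (by positivity) (by positivity)
  set K := 256 * Real.pi * M.toReal / ε ^ 2 + 1 with hK
  have hM0 : 0 ≤ M.toReal := ENNReal.toReal_nonneg
  have hK1 : 1 ≤ K := by
    rw [hK]
    have : 0 ≤ 256 * Real.pi * M.toReal / ε ^ 2 := by positivity
    linarith
  set ρ := R * Real.exp (-K) with hρ
  set δ := ρ * Real.exp (-K) with hδ
  have hρ0 : 0 < ρ := by positivity
  have hδ0 : 0 < δ := by positivity
  have hexp : Real.exp (-K) < 1 := by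
    rw [Real.exp_lt_one_iff]
    linarith
  have hρR : ρ < R := by
    rw [hρ]
    nlinarith
  have hδρ : δ < ρ := by
    rw [hδ]
    nlinarith
  have hl1 : Real.log (R / ρ) = K := by
    rw [hρ, Real.log_div hR0.ne' (by positivity), Real.log_mul hR0.ne' (by positivity),
      Real.log_exp]
    ring
  have hl2 : Real.log (ρ / δ) = K := by
    rw [hδ, Real.log_div hρ0.ne' (by positivity), Real.log_mul hρ0.ne' (by positivity),
      Real.log_exp]
    ring
  refine ⟨δ, hδ0, fun h hx hy hl hw hE z hz z' hz' hzz => ?_⟩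
  have hcont := Lim.cont hl
  have hz'b : z' ∈ ball z δ := by
    rw [mem_ball, dist_comm, dist_eq_norm]
    exact hzz
  by_cases hcase : ∃ f ∈ frontier X, dist f z ≤ ρ
  · -- near the boundary
    obtain ⟨f, hf, hfz⟩ := hcase
    have hfar : ∃ f' ∈ frontier X, R ≤ dist f' z := by
      by_contra hcon
      push Not at hcon
      have h1 := hcon y₁ hy₁
      have h2 := hcon y₂ hy₂
      have h3 : d ≤ dist y₁ z + dist y₂ z := dist_triangle_right _ _ _
      have h4 : R ≤ d / 4 := min_le_left _ _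
      linarith
    obtain ⟨f', hf', hf'z⟩ := hfar
    have hmeet : ∀ r ∈ Ioo ρ R, ∃ y₀ ∈ frontier X, y₀ ∈ sphere z r := by
      intro r hr
      obtain ⟨y₀, h1, h2⟩ := hfc.intermediate_value hf hf' (f := fun w => dist w z)
        (Continuous.continuousOn (by fun_prop)) ⟨hfz.trans hr.1.le, hr.2.le.trans hf'z⟩
      exact ⟨y₀, h1, h2⟩
    have hdm := Equi.dens_meas hd.oX hw.mx hw.my
    have hint : ∫⁻ w, Equi.dens X hx hy w ≤ M := by
      rw [Equi.dens, lintegral_indicator hd.oX.measurableSet]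
      exact hE
    obtain ⟨r, hr, hCr, hJ⟩ := Equi.choice hP hdm hρ0 hρR
      (hC X h hx hy z hd.oX (hcont.mono subset_closure) hw)
      (κ := ε ^ 2 / (256 * Real.pi)) (by positivity) (by
        rw [hl1]
        refine hint.trans_lt ?_
        rw [← ENNReal.ofReal_toReal hM.ne]
        refine (ENNReal.ofReal_lt_ofReal_iff (by positivity)).2 ?_
        rw [hK]
        have : ε ^ 2 / (256 * Real.pi) * (256 * Real.pi * M.toReal / ε ^ 2 + 1) =
          M.toReal + ε ^ 2 / (256 * Real.pi) := by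
          field_simp
        rw [this]
        have : 0 < ε ^ 2 / (256 * Real.pi) := by positivity
        linarith)
    have hr0 : 0 < r := hρ0.trans hr.1
    obtain ⟨y₀, hy₀, hy₀r⟩ := hmeet r hr
    have hnear := Equi.near hd hl hε hr0 hCr hy₀ hy₀r (by
      intro w hw hwr
      rw [← dist_eq_norm]
      refine hb w (frontier_subset_closure hw) y₀ (frontier_subset_closure hy₀) ?_
      have h1 : dist w y₀ ≤ dist w z + dist y₀ z := dist_triangle_right _ _ _
      have h2 : dist w z ≤ r := hwr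
      have h3 : dist y₀ z = r := hy₀r
      have h4 : R ≤ η / 2 := min_le_right _ _
      linarith [hr.2]) hJ
    have h1 := hnear z hz (mem_ball_self hr0)
    have h2 := hnear z' hz' (ball_subset_ball ((hδρ.trans hr.1).le) hz'b)
    have : h z - h z' = (h z - b y₀) - (h z' - b y₀) := by ring
    rw [this]
    exact (norm_sub_le _ _).trans (by linarith)
  · -- interior
    push Not at hcase
    have hzX : z ∈ X := by
      by_contra hn
      have := hcase z (by rw [hd.oX.frontier_eq]; exact ⟨hz, hn⟩)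
      rw [dist_self] at this
      linarith
    have hsub : closedBall z ρ ⊆ X := by
      refine (convex_closedBall z ρ).isPreconnected.subset_of_closure_inter_subset hd.oX
        ⟨z, mem_closedBall_self hρ0.le, hzX⟩ ?_
      rintro w ⟨hw1, hw2⟩
      by_contra hn
      have := hcase w (by rw [hd.oX.frontier_eq]; exact ⟨hw1, hn⟩)
      exact absurd hw2 (not_le.2 this)
    have hmon : Mon X h hx hy := ⟨hd.oX, hcont.mono subset_closure, hw, by
      intro D hD _ hDX c r hfr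
      exact specBPL X Y b h hd hl D hD (subset_closure.trans hDX) c r hfr⟩
    have hosc := (hO X h hx hy hmon z δ ρ hδ0 hδρ hsub z (mem_ball_self hδ0) z' hz'b).2
    rw [hl2] at hosc
    have h1 : ∫⁻ w in ball z ρ, (‖hx w‖ₑ ^ 2 + ‖hy w‖ₑ ^ 2) ≤ ENNReal.ofReal M.toReal := by
      rw [ENNReal.ofReal_toReal hM.ne]
      exact (lintegral_mono_set (ball_subset_closedBall.trans hsub)).trans hE
    have h2 : ENNReal.ofReal (K * ‖h z - h z'‖ ^ 2) ≤
        ENNReal.ofReal (2 * Real.pi * M.toReal) := by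
      rw [ENNReal.ofReal_mul (p := 2 * Real.pi) (by positivity)]
      refine hosc.trans ?_
      gcongr
    rw [ENNReal.ofReal_le_ofReal_iff (by positivity)] at h2
    have h3 : 256 * Real.pi * M.toReal ≤ K * ε ^ 2 := by
      rw [hK]
      have : (256 * Real.pi * M.toReal / ε ^ 2 + 1) * ε ^ 2 =
        256 * Real.pi * M.toReal + ε ^ 2 := by
        field_simp
      rw [this]
      nlinarith
    have h4 : K * ‖h z - h z'‖ ^ 2 ≤ K * ε ^ 2 := by
      have : 0 ≤ Real.pi * M.toReal := by positivity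
      linarith
    have h5 : ‖h z - h z'‖ ^ 2 ≤ ε ^ 2 := le_of_mul_le_mul_left h4 (by linarith)
    exact (pow_le_pow_iff_left₀ (norm_nonneg _) hε.le two_ne_zero).1 h5

end MPfa
end

section
/-!
Problem MP_fa0334_an, module EXIST: existence of a relaxed minimizer.
-/
set_option autoImplicit false

open MeasureTheory Set Filter Topology Metric Complex
open scoped ContDiff ENNReal ComplexConjugate

namespace MPfa

namespace Exist

/-- the Dirichlet energy is at most twice the energy -/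
theorem l2_le (hA : SpecAlg) {p : ℝ} (hp : 1 < p) (X : Set ℂ) (hx hy : ℂ → ℂ) :
    ∫⁻ z in X, (‖hx z‖ₑ ^ 2 + ‖hy z‖ₑ ^ 2) ≤ 2 * ∫⁻ z in X, PP p (hx z) (hy z) := by
  rw [← lintegral_const_mul' _ _ (by norm_num)]
  refine lintegral_mono fun z => ?_
  have h1 := hA.n2_le_PP p hp (hx z) (hy z)
  have h2 : ‖hx z‖ₑ ^ 2 + ‖hy z‖ₑ ^ 2 = 2 * ENNReal.ofReal (n2 (hx z) (hy z)) := by
    have h3 : ‖hx z‖ ^ 2 + ‖hy z‖ ^ 2 = 2 * n2 (hx z) (hy z) := by
      unfold n2
      ring
    have h4 : (2 : ℝ≥0∞) = ENNReal.ofReal 2 := by norm_num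
    rw [h4, ← ENNReal.ofReal_mul (by norm_num), ← h3,
      ENNReal.ofReal_add (by positivity) (by positivity), ENNReal.ofReal_pow (norm_nonneg _),
      ENNReal.ofReal_pow (norm_nonneg _), ofReal_norm, ofReal_norm]
  rw [h2]
  gcongr

/-- Arzelà-Ascoli on a compact set -/
theorem ascoli {K S : Set ℂ} (hK : IsCompact K) (hS : IsCompact S) (f : ℕ → ℂ → ℂ)
    (hf : ∀ n, ContinuousOn (f n) K) (hfS : ∀ n, MapsTo (f n) K S)
    (he : ∀ ε > 0, ∃ δ > 0, ∀ n, ∀ z ∈ K, ∀ z' ∈ K, ‖z - z'‖ < δ → ‖f n z - f n z'‖ ≤ ε) :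
    ∃ (h : ℂ → ℂ) (φ : ℕ → ℕ), StrictMono φ ∧ TendstoUniformlyOn (fun n => f (φ n)) h atTop K := by
  have : CompactSpace K := isCompact_iff_compactSpace.1 hK
  let F : ℕ → BoundedContinuousFunction K ℂ := fun n =>
    BoundedContinuousFunction.mkOfCompact ⟨fun z => f n z, (hf n).domRestrict⟩
  have hF : ∀ n z, F n z = f n z := fun n z => rfl
  have hcomp : IsCompact (closure (Set.range F)) := by
    refine BoundedContinuousFunction.arzela_ascoli S hS _ ?_ ?_
    · rintro _ x ⟨n, rfl⟩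
      exact hfS n x.2
    · refine UniformEquicontinuous.equicontinuous ?_
      rw [Metric.uniformEquicontinuous_iff]
      intro ε hε
      obtain ⟨δ, hδ, h⟩ := he (ε / 2) (by positivity)
      refine ⟨δ, hδ, ?_⟩
      rintro x y hxy ⟨_, n, rfl⟩
      rw [Subtype.dist_eq, dist_eq_norm] at hxy
      show dist (f n x) (f n y) < ε
      rw [dist_eq_norm]
      exact lt_of_le_of_lt (h n x x.2 y y.2 hxy) (by linarith)
  obtain ⟨G, _, φ, hφ, hG⟩ := hcomp.tendsto_subseq (x := F)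
    (fun n => subset_closure ⟨n, rfl⟩)
  classical
  refine ⟨fun z => if hz : z ∈ K then G ⟨z, hz⟩ else 0, φ, hφ, ?_⟩
  rw [Metric.tendstoUniformlyOn_iff]
  intro ε hε
  rw [Metric.tendsto_atTop] at hG
  obtain ⟨N, hN⟩ := hG ε hε
  filter_upwards [eventually_ge_atTop N] with n hn z hz
  rw [dif_pos hz]
  have h1 := BoundedContinuousFunction.dist_coe_le_dist (f := F (φ n)) (g := G) ⟨z, hz⟩
  have h2 := hN n hn
  rw [dist_comm]
  exact lt_of_le_of_lt h1 h2

end Exist

theorem specExist (hA : SpecAlg) (hE : SpecEqui) (hL : SpecLsc) : SpecExist := by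
  intro p hp X Y b hd hne
  set S : Set ℝ≥0∞ := {E | ∃ h hx hy, Adm p X Y b h hx hy ∧
    E = ∫⁻ z in X, PP p (hx z) (hy z)} with hS
  have hSne : S.Nonempty := by
    obtain ⟨h, hx, hy, had⟩ := hne
    exact ⟨_, h, hx, hy, had, rfl⟩
  obtain ⟨u, hanti, hlim, hu⟩ := exists_seq_tendsto_sInf hSne (OrderBot.bddBelow S)
  choose h hx hy had hE' using hu
  have hu0 : u 0 < ⊤ := by
    rw [hE' 0]
    exact (had 0).en
  have hun : ∀ n, ∫⁻ z in X, PP p (hx n z) (hy n z) ≤ u 0 := by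
    intro n
    rw [← hE' n]
    exact hanti (Nat.zero_le n)
  have hM : 2 * u 0 < ⊤ := ENNReal.mul_lt_top (by norm_num) hu0
  have hYc : IsCompact (closure Y) := hd.bY.isCompact_closure
  obtain ⟨g, φ, hφ, hg⟩ := Exist.ascoli hd.cX hYc h (fun n => Lim.cont (had n).li)
    (fun n => Lim.mapsTo (had n).li) (by
      intro ε hε
      obtain ⟨δ, hδ, hδ'⟩ := hE X Y b hd (2 * u 0) hM ε hε
      refine ⟨δ, hδ, fun n z hz z' hz' hzz => ?_⟩
      refine hδ' (h n) (hx n) (hy n) (had n).li (had n).wd ?_ z hz z' hz' hzz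
      exact (Exist.l2_le hA hp X (hx n) (hy n)).trans (by gcongr; exact hun n))
  -- the limit is in the relaxed class
  have hli : MPfa.Lim X Y b g := by
    intro ε hε
    rw [Metric.tendstoUniformlyOn_iff] at hg
    obtain ⟨n, hn⟩ := (hg (ε / 2) (by positivity)).exists
    obtain ⟨k, hk, hkh⟩ := (had (φ n)).li (ε / 2) (by positivity)
    refine ⟨k, hk, fun z hz => ?_⟩
    have h1 := hkh z hz
    have h2 := hn z hz
    rw [dist_eq_norm, norm_sub_rev] at h2
    have : k z - g z = (k z - h (φ n) z) + (h (φ n) z - g z) := by ring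
    rw [this]
    exact (norm_add_le _ _).trans (by linarith)
  obtain ⟨gx, gy, hwd, hlsc⟩ := hL p hp X g (fun n => h (φ n)) (fun n => hx (φ n))
    (fun n => hy (φ n)) (u 0) hd.oX hu0
    (fun n => (Lim.cont (had (φ n)).li).mono subset_closure) (fun n => (had (φ n)).wd)
    (fun n => hun (φ n)) (hg.mono subset_closure)
  have hle : ∫⁻ z in X, PP p (gx z) (gy z) ≤ sInf S := by
    refine le_of_forall_gt_imp_ge_of_dense fun E hlt => hlsc E ?_
    have h1 : ∀ᶠ n in atTop, u n < E := hlim.eventually_lt_const hlt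
    filter_upwards [hφ.tendsto_atTop.eventually h1] with n hn
    rw [← hE' (φ n)]
    exact hn.le
  have hS0 : sInf S ≤ u 0 := sInf_le ⟨h 0, hx 0, hy 0, had 0, hE' 0⟩
  refine ⟨g, gx, gy, ⟨hli, hwd, lt_of_le_of_lt (hle.trans hS0) hu0⟩, ?_⟩
  intro k kx ky hk
  exact hle.trans (sInf_le ⟨k, kx, ky, hk, rfl⟩)

end MPfa
end
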