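import Pool.Agent.Lib.MP_fa0334_an.Spec2

/-!
Module INVWD (helper70): the inverse of a homeomorphism in `W^{1,2}` with positive Jacobian is
weakly differentiable (Piola identity).
-/

set_option autoImplicit false

open MeasureTheory Set Filter Topology Metric Complex
open scoped ContDiff ENNReal ComplexConjugate Manifold

namespace MPfa
namespace InvWDM

/-- directional derivatives of smooth functions are smooth -/
theorem cd_dir {E : Type*} [NormedAddCommGroup E] [NormedSpace ℝ E] {f : ℂ → E}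
    (hf : ContDiff ℝ ∞ f) (v : ℂ) : ContDiff ℝ ∞ (fun z => fderiv ℝ f z v) :=
  (hf.fderiv_right (m := ∞) (by simp)).clm_apply contDiff_const

theorem snd_symm {f : ℂ → ℝ} (hf : ContDiff ℝ ∞ f) (z u v : ℂ) :
    fderiv ℝ (fun z => fderiv ℝ f z u) z v = fderiv ℝ (fun z => fderiv ℝ f z v) z u := by
  have hd : DifferentiableAt ℝ (fderiv ℝ f) z :=
    ((hf.fderiv_right (m := ∞) (by simp)).differentiable (by simp)) z
  rw [fderiv_clm_apply hd (differentiableAt_const _),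
    fderiv_clm_apply hd (differentiableAt_const _)]
  have h := (hf.contDiffAt (x := z)).isSymmSndFDerivAt (by
    rw [minSmoothness_of_isRCLikeNormedField]
    exact WithTop.coe_le_coe.2 (show (2 : ℕ∞) ≤ ⊤ from le_top))
  simpa using h v u

theorem piola {a : ℂ → ℂ} {Φ v : ℂ → ℝ} (ha : ContDiff ℝ ∞ a) (hac : HasCompactSupport a)
    (hΦ : ContDiff ℝ ∞ Φ) (hv : ContDiff ℝ ∞ v) :
    ∫ z, (fderiv ℝ Φ z 1 * fderiv ℝ v z I - fderiv ℝ Φ z I * fderiv ℝ v z 1) • a z =
    - ∫ z, Φ z • (fderiv ℝ v z I • fderiv ℝ a z 1 - fderiv ℝ v z 1 • fderiv ℝ a z I) := by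
  have hI : ∀ (f : ℂ → ℝ) (g : ℂ → ℂ), Continuous f → Continuous g → HasCompactSupport g →
      Integrable fun z => f z • g z := by
    intro f g hf hg hgc
    exact (hf.smul hg).integrable_of_hasCompactSupport hgc.smul_left
  have hac' : ∀ w : ℂ, HasCompactSupport fun z => fderiv ℝ a z w := fun w =>
    hac.fderiv_apply (𝕜 := ℝ) w
  have h1 : ∀ u w : ℂ, ∫ z, (Φ z * fderiv ℝ v z u) • fderiv ℝ a z w =
      - ∫ z, (fderiv ℝ Φ z w * fderiv ℝ v z u + Φ z * fderiv ℝ (fun z => fderiv ℝ v z u) z w)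
        • a z := by
    intro u w
    have hf : ContDiff ℝ ∞ fun z => Φ z * fderiv ℝ v z u := hΦ.mul (cd_dir hv u)
    have h2 := integral_smul_fderiv_eq_neg_fderiv_smul_of_integrable (μ := volume)
      (f := fun z => Φ z * fderiv ℝ v z u) (g := a) (v := w)
      (hI _ _ (cd_dir hf w).continuous ha.continuous hac)
      (hI _ _ hf.continuous (cd_dir ha w).continuous (hac' w))
      (hI _ _ hf.continuous ha.continuous hac)
      (fun x _ => hf.differentiable (by simp) x) (fun x _ => ha.differentiable (by simp) x)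
    rw [h2]
    congr 2
    ext z
    congr 1
    have h3 : fderiv ℝ (fun z => Φ z * fderiv ℝ v z u) z =
        Φ z • fderiv ℝ (fun z => fderiv ℝ v z u) z + (fderiv ℝ v z u) • fderiv ℝ Φ z :=
      fderiv_mul (hΦ.differentiable (by simp) z) ((cd_dir hv u).differentiable (by simp) z)
    rw [h3]
    simp
    ring
  have e1 := h1 I 1
  have e2 := h1 1 I
  have hcv : ∀ u, Continuous fun z => fderiv ℝ v z u := fun u => (cd_dir hv u).continuous
  have hcΦ : ∀ u, Continuous fun z => fderiv ℝ Φ z u := fun u => (cd_dir hΦ u).continuous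
  have hcvv : ∀ u w, Continuous fun z => fderiv ℝ (fun z => fderiv ℝ v z u) z w :=
    fun u w => (cd_dir (cd_dir hv u) w).continuous
  have hca : ∀ u, Continuous fun z => fderiv ℝ a z u := fun u => (cd_dir ha u).continuous
  have i1 : Integrable (fun z => (Φ z * fderiv ℝ v z I) • fderiv ℝ a z 1) :=
    hI _ _ (hΦ.continuous.mul (hcv I)) (hca 1) (hac' 1)
  have i2 : Integrable (fun z => (Φ z * fderiv ℝ v z 1) • fderiv ℝ a z I) :=
    hI _ _ (hΦ.continuous.mul (hcv 1)) (hca I) (hac' I)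
  have i3 : Integrable (fun z => (fderiv ℝ Φ z I * fderiv ℝ v z 1 +
      Φ z * fderiv ℝ (fun z => fderiv ℝ v z 1) z I) • a z) :=
    hI _ _ (((hcΦ I).mul (hcv 1)).add (hΦ.continuous.mul (hcvv 1 I))) ha.continuous hac
  have i4 : Integrable (fun z => (fderiv ℝ Φ z 1 * fderiv ℝ v z I +
      Φ z * fderiv ℝ (fun z => fderiv ℝ v z I) z 1) • a z) :=
    hI _ _ (((hcΦ 1).mul (hcv I)).add (hΦ.continuous.mul (hcvv I 1))) ha.continuous hac
  have e3 : ∫ z, Φ z • (fderiv ℝ v z I • fderiv ℝ a z 1 - fderiv ℝ v z 1 • fderiv ℝ a z I) =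
      (∫ z, (Φ z * fderiv ℝ v z I) • fderiv ℝ a z 1) -
      ∫ z, (Φ z * fderiv ℝ v z 1) • fderiv ℝ a z I := by
    rw [← integral_sub i1 i2]
    congr 1
    ext z
    simp only [smul_sub, mul_smul]
  rw [e3, e1, e2, neg_sub_neg, ← integral_sub i3 i4, ← integral_neg]
  congr 1
  ext z
  rw [snd_symm hv z 1 I, ← sub_smul, ← neg_smul]
  congr 1
  ring

/-! ### limits -/

theorem jac_sub_le (a b a' b' : ℂ) : ‖jac a b - jac a' b'‖ₑ ≤
    ‖a - a'‖ₑ * ‖b - b'‖ₑ + (‖a - a'‖ₑ * ‖b'‖ₑ + ‖a'‖ₑ * ‖b - b'‖ₑ) := by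
  have hj : ∀ u v : ℂ, ‖jac u v‖ ≤ ‖u‖ * ‖v‖ := by
    intro u v
    have h1 : jac u v = (conj u * v).im := by
      simp [jac, Complex.mul_im]
      ring
    rw [h1, Real.norm_eq_abs]
    refine (Complex.abs_im_le_norm _).trans ?_
    rw [norm_mul, Complex.norm_conj]
  have h2 : jac a b - jac a' b' = jac (a - a') (b - b') + (jac (a - a') b' + jac a' (b - b')) := by
    simp only [jac, Complex.sub_re, Complex.sub_im]
    ring
  have h3 : ‖jac a b - jac a' b'‖ ≤
      ‖a - a'‖ * ‖b - b'‖ + (‖a - a'‖ * ‖b'‖ + ‖a'‖ * ‖b - b'‖) := by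
    rw [h2]
    refine (norm_add_le _ _).trans (add_le_add (hj _ _) ((norm_add_le _ _).trans
      (add_le_add (hj _ _) (hj _ _))))
  simp only [← ofReal_norm]
  rw [← ENNReal.ofReal_mul (norm_nonneg _), ← ENNReal.ofReal_mul (norm_nonneg _),
    ← ENNReal.ofReal_mul (norm_nonneg _), ← ENNReal.ofReal_add (by positivity) (by positivity),
    ← ENNReal.ofReal_add (by positivity) (by positivity)]
  exact ENNReal.ofReal_le_ofReal h3

/-- Cauchy-Schwarz -/
theorem cs {μ : Measure ℂ} {u v : ℂ → ℝ≥0∞} (hu : AEMeasurable u μ) (hv : AEMeasurable v μ) :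
    ∫⁻ z, u z * v z ∂μ ≤ (∫⁻ z, u z ^ 2 ∂μ) ^ (1 / 2 : ℝ) * (∫⁻ z, v z ^ 2 ∂μ) ^ (1 / 2 : ℝ) := by
  have h := ENNReal.lintegral_mul_le_Lp_mul_Lq μ (p := 2) (q := 2)
    (by constructor <;> norm_num) hu hv
  simpa using h

theorem cs_lim {μ : Measure ℂ} {u v : ℕ → ℂ → ℝ≥0∞} (hu : ∀ n, AEMeasurable (u n) μ)
    (hv : ∀ n, AEMeasurable (v n) μ) {C : ℝ≥0∞} (hC : C ≠ ⊤)
    (h1 : Tendsto (fun n => ∫⁻ z, u n z ^ 2 ∂μ) atTop (𝓝 0))
    (h2 : ∀ᶠ n in atTop, ∫⁻ z, v n z ^ 2 ∂μ ≤ C) :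
    Tendsto (fun n => ∫⁻ z, u n z * v n z ∂μ) atTop (𝓝 0) := by
  have h3 : Tendsto (fun n => (∫⁻ z, u n z ^ 2 ∂μ) ^ (1 / 2 : ℝ) * C ^ (1 / 2 : ℝ)) atTop
      (𝓝 0) := by
    have h4 : Tendsto (fun n => (∫⁻ z, u n z ^ 2 ∂μ) ^ (1 / 2 : ℝ)) atTop
        (𝓝 ((0 : ℝ≥0∞) ^ (1 / 2 : ℝ))) :=
      (ENNReal.continuous_rpow_const.tendsto _).comp h1
    have h5 := ENNReal.Tendsto.mul_const (b := C ^ (1 / 2 : ℝ)) h4
      (Or.inr (ENNReal.rpow_ne_top_of_nonneg (by norm_num) hC))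
    rwa [ENNReal.zero_rpow_of_pos (by norm_num), zero_mul] at h5
  refine tendsto_of_tendsto_of_tendsto_of_le_of_le' tendsto_const_nhds h3
    (Eventually.of_forall fun _ => zero_le) ?_
  filter_upwards [h2] with n hn
  exact (cs (hu n) (hv n)).trans (by gcongr)

theorem jac_lim {μ : Measure ℂ} {p q : ℕ → ℂ → ℂ} {P Q : ℂ → ℂ}
    (hp : ∀ n, Measurable (p n)) (hq : ∀ n, Measurable (q n)) (hP : Measurable P)
    (hQ : Measurable Q) (h1 : Tendsto (fun n => ∫⁻ z, ‖p n z - P z‖ₑ ^ 2 ∂μ) atTop (𝓝 0))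
    (h2 : Tendsto (fun n => ∫⁻ z, ‖q n z - Q z‖ₑ ^ 2 ∂μ) atTop (𝓝 0))
    (hPi : ∫⁻ z, ‖P z‖ₑ ^ 2 ∂μ < ⊤) (hQi : ∫⁻ z, ‖Q z‖ₑ ^ 2 ∂μ < ⊤) :
    Tendsto (fun n => ∫⁻ z, ‖jac (p n z) (q n z) - jac (P z) (Q z)‖ₑ ∂μ) atTop (𝓝 0) := by
  have mp : ∀ n, Measurable fun z => ‖p n z - P z‖ₑ := fun n => ((hp n).sub hP).enorm
  have mq : ∀ n, Measurable fun z => ‖q n z - Q z‖ₑ := fun n => ((hq n).sub hQ).enorm
  have t1 : Tendsto (fun n => ∫⁻ z, ‖p n z - P z‖ₑ * ‖q n z - Q z‖ₑ ∂μ) atTop (𝓝 0) :=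
    cs_lim (fun n => (mp n).aemeasurable) (fun n => (mq n).aemeasurable) (C := 1) (by simp) h1
      (h2.eventually (eventually_le_nhds (by simp)))
  have t2 : Tendsto (fun n => ∫⁻ z, ‖p n z - P z‖ₑ * ‖Q z‖ₑ ∂μ) atTop (𝓝 0) :=
    cs_lim (v := fun _ z => ‖Q z‖ₑ) (fun n => (mp n).aemeasurable)
      (fun n => hQ.enorm.aemeasurable) hQi.ne h1 (Eventually.of_forall fun _ => le_rfl)
  have t3 : Tendsto (fun n => ∫⁻ z, ‖P z‖ₑ * ‖q n z - Q z‖ₑ ∂μ) atTop (𝓝 0) := by
    have := cs_lim (v := fun _ z => ‖P z‖ₑ) (fun n => (mq n).aemeasurable)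
      (fun n => hP.enorm.aemeasurable) hPi.ne h2 (Eventually.of_forall fun _ => le_rfl)
    simpa only [mul_comm] using this
  have t4 := t1.add (t2.add t3)
  simp only [add_zero] at t4
  refine tendsto_of_tendsto_of_tendsto_of_le_of_le tendsto_const_nhds t4
    (fun _ => zero_le) fun n => ?_
  have m1 : Measurable fun z => ‖p n z - P z‖ₑ * ‖Q z‖ₑ := (mp n).mul hQ.enorm
  have m2 : Measurable fun z => ‖p n z - P z‖ₑ * ‖q n z - Q z‖ₑ := (mp n).mul (mq n)
  simp only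
  rw [← lintegral_add_left m1, ← lintegral_add_left m2]
  exact lintegral_mono fun z => jac_sub_le _ _ _ _

/-- uniformly convergent bounded factor times an `L¹` convergent factor -/
theorem lim_smul {K : Set ℂ} (hK : MeasurableSet K) {u : ℕ → ℂ → ℝ} {U : ℂ → ℝ}
    {m : ℕ → ℂ → ℂ} {M : ℂ → ℂ} {C : ℝ}
    (hu : ∀ n, AEStronglyMeasurable (u n) (volume.restrict K)) (huC : ∀ n z, |u n z| ≤ C)
    (hU : ∀ z ∈ K, Tendsto (fun n => u n z) atTop (𝓝 (U z)))
    (hm : ∀ n, IntegrableOn (m n) K) (hM : IntegrableOn M K)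
    (hmM : Tendsto (fun n => ∫⁻ z in K, ‖m n z - M z‖ₑ) atTop (𝓝 0)) :
    Tendsto (fun n => ∫ z in K, u n z • m n z) atTop (𝓝 (∫ z in K, U z • M z)) := by
  have h1 : Tendsto (fun n => ∫ z in K, u n z • M z) atTop (𝓝 (∫ z in K, U z • M z)) := by
    refine tendsto_integral_of_dominated_convergence (fun z => C * ‖M z‖)
      (fun n => (hu n).smul hM.aestronglyMeasurable) (hM.norm.const_mul C) ?_ ?_
    · intro n
      refine Eventually.of_forall fun z => ?_
      rw [norm_smul, Real.norm_eq_abs]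
      exact mul_le_mul_of_nonneg_right (huC n z) (norm_nonneg _)
    · filter_upwards [ae_restrict_mem hK] with z hz
      exact (hU z hz).smul_const _
  have hi : ∀ n, IntegrableOn (fun z => u n z • M z) K := fun n =>
    hM.bdd_smul C (hu n) (Eventually.of_forall fun z => by simpa using huC n z)
  have hi' : ∀ n, IntegrableOn (fun z => u n z • m n z) K := fun n =>
    (hm n).bdd_smul C (hu n) (Eventually.of_forall fun z => by simpa using huC n z)
  have h2 : Tendsto (fun n => ∫ z in K, (u n z • m n z - u n z • M z)) atTop (𝓝 0) := by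
    have h3 : Tendsto (fun n => ENNReal.ofReal C * ∫⁻ z in K, ‖m n z - M z‖ₑ) atTop (𝓝 0) := by
      have := ENNReal.Tendsto.const_mul (a := ENNReal.ofReal C) hmM (Or.inr (by simp))
      simpa using this
    have h4 : Tendsto (fun n => ∫⁻ z in K, ‖(u n z • m n z - u n z • M z) - 0‖ₑ) atTop
        (𝓝 0) := by
      refine tendsto_of_tendsto_of_tendsto_of_le_of_le tendsto_const_nhds h3
        (fun _ => zero_le) fun n => ?_
      simp only
      rw [← lintegral_const_mul' _ _ (by simp)]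
      refine lintegral_mono fun z => ?_
      rw [sub_zero, ← smul_sub, enorm_smul]
      gcongr
      rw [← ofReal_norm, Real.norm_eq_abs]
      exact ENNReal.ofReal_le_ofReal (huC n z)
    have h5 := tendsto_integral_of_L1 (μ := volume.restrict K) (fun _ : ℂ => (0 : ℂ))
      aestronglyMeasurable_const
      (Eventually.of_forall fun n => (hi' n).sub (hi n)) h4
    simpa using h5
  have h6 := h2.add h1
  rw [zero_add] at h6
  refine h6.congr fun n => ?_
  rw [integral_sub (hi' n) (hi n)]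
  ring

theorem lmul {K : Set ℂ} {m : ℕ → ℂ → ℝ} {M : ℂ → ℝ} {a : ℂ → ℂ} {A : ℝ}
    (ha : ∀ z, ‖a z‖ ≤ A) (h : Tendsto (fun n => ∫⁻ z in K, ‖m n z - M z‖ₑ) atTop (𝓝 0)) :
    Tendsto (fun n => ∫⁻ z in K, ‖m n z • a z - M z • a z‖ₑ) atTop (𝓝 0) := by
  have h3 : Tendsto (fun n => (∫⁻ z in K, ‖m n z - M z‖ₑ) * ENNReal.ofReal A) atTop (𝓝 0) := by
    have := ENNReal.Tendsto.mul_const (b := ENNReal.ofReal A) h (Or.inr (by simp))
    simpa using this
  refine tendsto_of_tendsto_of_tendsto_of_le_of_le tendsto_const_nhds h3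
    (fun _ => zero_le) fun n => ?_
  simp only
  rw [← lintegral_mul_const' _ _ (by simp)]
  refine lintegral_mono fun z => ?_
  rw [← sub_smul, enorm_smul]
  gcongr
  rw [← ofReal_norm]
  exact ENNReal.ofReal_le_ofReal (ha z)

theorem llin {K : Set ℂ} {m : ℕ → ℂ → ℂ} {M : ℂ → ℂ} (L : ℂ →L[ℝ] ℝ)
    (h : Tendsto (fun n => ∫⁻ z in K, ‖m n z - M z‖ₑ) atTop (𝓝 0)) :
    Tendsto (fun n => ∫⁻ z in K, ‖L (m n z) - L (M z)‖ₑ) atTop (𝓝 0) := by
  have h3 : Tendsto (fun n => ENNReal.ofReal ‖L‖ * ∫⁻ z in K, ‖m n z - M z‖ₑ) atTop (𝓝 0) := by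
    have := ENNReal.Tendsto.const_mul (a := ENNReal.ofReal ‖L‖) h (Or.inr (by simp))
    simpa using this
  refine tendsto_of_tendsto_of_tendsto_of_le_of_le tendsto_const_nhds h3
    (fun _ => zero_le) fun n => ?_
  simp only
  rw [← lintegral_const_mul' _ _ (by simp)]
  refine lintegral_mono fun z => ?_
  rw [← map_sub, ← ofReal_norm, ← ofReal_norm, ← ENNReal.ofReal_mul (norm_nonneg _)]
  exact ENNReal.ofReal_le_ofReal (L.le_opNorm _)

/-- the algebra behind the Piola identity -/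
theorem alg (L D : ℂ →L[ℝ] ℝ) (p q : ℂ) :
    D p * L q - D q * L p = D (((L I : ℝ) : ℂ) - ((L 1 : ℝ) : ℂ) * I) * jac p q := by
  have hL : ∀ (M : ℂ →L[ℝ] ℝ) (z : ℂ), M z = z.re * M 1 + z.im * M I := by
    intro M z
    have h1 : z = z.re • (1 : ℂ) + z.im • I := by
      apply Complex.ext <;> simp
    conv_lhs => rw [h1]
    rw [map_add, map_smul, map_smul]
    simp
  rw [hL D p, hL D q, hL L p, hL L q, hL D (((L I : ℝ) : ℂ) - ((L 1 : ℝ) : ℂ) * I)]
  simp [jac]
  ring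

theorem key (hMoll : SpecMoll) {X : Set ℂ} {h hx hy : ℂ → ℂ} (hXo : IsOpen X)
    (hc : ContinuousOn h X) (hwd : WD X h hx hy) (hLx : L2loc X hx) (hLy : L2loc X hy)
    {φ : ℂ → ℝ} (hφ : ContDiff ℝ ∞ φ) (hφc : HasCompactSupport φ) {K : Set ℂ}
    (hK : IsCompact K) (hKX : K ⊆ X) (hsupp : ∀ w ∈ X, h w ∈ tsupport φ → w ∈ K)
    (L : ℂ →L[ℝ] ℝ) :
    ∫ w in X, (fderiv ℝ φ (h w) (((L I : ℝ) : ℂ) - ((L 1 : ℝ) : ℂ) * I) *
        jac (hx w) (hy w)) • w =
      - ∫ w in X, φ (h w) • (((L (hy w) : ℝ) : ℂ) - ((L (hx w) : ℝ) : ℂ) * I) := by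
  set ξ : ℂ := ((L I : ℝ) : ℂ) - ((L 1 : ℝ) : ℂ) * I with hξ
  -- the cutoff function
  obtain ⟨K₁, hK₁, hKK₁, hK₁X⟩ := exists_compact_between hK hXo hKX
  obtain ⟨χ, hχ1, hχ0, -⟩ := exists_contMDiffMap_one_nhds_of_subset_interior (n := (⊤ : ℕ∞))
    𝓘(ℝ, ℂ) hK.isClosed hKK₁
  have hχ : ContDiff ℝ ∞ (χ : ℂ → ℝ) := contMDiff_iff_contDiff.1 χ.contMDiff
  have hχs : tsupport (χ : ℂ → ℝ) ⊆ K₁ :=
    closure_minimal (fun z hz => by_contra fun h1 => hz (hχ0 z h1)) hK₁.isClosed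
  set a : ℂ → ℂ := fun w => (χ w) • w with ha
  have hac : ContDiff ℝ ∞ a := hχ.smul contDiff_id
  have has : tsupport a ⊆ K₁ := (tsupport_smul_subset_left _ _).trans hχs
  have haK : HasCompactSupport a := HasCompactSupport.of_support_subset_isCompact hK₁
    ((subset_tsupport _).trans has)
  have ha0 : ∀ z ∉ K₁, a z = 0 := fun z hz => by
    simp [ha, hχ0 z hz]
  have hda0 : ∀ z ∉ K₁, fderiv ℝ a z = 0 := fun z hz => by
    have : z ∉ tsupport a := fun h1 => hz (has h1)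
    exact fderiv_of_notMem_tsupport ℝ this
  have ha1 : ∀ z ∈ K, a z = z := fun z hz => by
    have : χ z = 1 := hχ1.self_of_nhdsSet z hz
    simp [ha, this]
  have hda1 : ∀ z ∈ K, fderiv ℝ a z = ContinuousLinearMap.id ℝ ℂ := fun z hz => by
    have h1 : ∀ᶠ w in 𝓝 z, χ w = 1 := (eventually_nhdsSet_iff_forall.1 hχ1) z hz
    have h2 : a =ᶠ[𝓝 z] id := by
      filter_upwards [h1] with w hw
      simp [ha, hw]
    rw [h2.fderiv_eq, fderiv_id]
  -- bounds
  obtain ⟨A, hA⟩ := haK.exists_bound_of_continuous hac.continuous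
  have hda : ∀ v : ℂ, ∃ B, ∀ z, ‖fderiv ℝ a z v‖ ≤ B := fun v =>
    (haK.fderiv_apply (𝕜 := ℝ) v).exists_bound_of_continuous (cd_dir hac v).continuous
  obtain ⟨B1, hB1⟩ := hda 1
  obtain ⟨B2, hB2⟩ := hda I
  obtain ⟨C0, hC0⟩ := hφc.exists_bound_of_continuous hφ.continuous
  obtain ⟨C1, hC1⟩ := (hφc.fderiv_apply (𝕜 := ℝ) ξ).exists_bound_of_continuous
    (cd_dir hφ ξ).continuous
  obtain ⟨g, hg, hgu, hgx1, hgy1, hgx2, hgy2⟩ := hMoll X h hx hy K₁ hXo hc hwd hK₁ hK₁X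
  replace hgx2 := hgx2 hLx
  replace hgy2 := hgy2 hLy
  have hKm : MeasurableSet K₁ := hK₁.measurableSet
  have hgd : ∀ n z, DifferentiableAt ℝ (g n) z := fun n z => (hg n).differentiable (by simp) z
  have hgc : ∀ n u, Continuous fun z => fderiv ℝ (g n) z u := fun n u =>
    (cd_dir (hg n) u).continuous
  have hax : ∀ u, Continuous fun z => fderiv ℝ a z u := fun u => (cd_dir hac u).continuous
  have hjc : ∀ n, Continuous fun z => jac (fderiv ℝ (g n) z 1) (fderiv ℝ (g n) z I) := fun n => by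
    unfold jac
    have h1 := hgc n 1
    have h2 := hgc n I
    fun_prop
  have hgpt : ∀ z ∈ K₁, Tendsto (fun n => g n z) atTop (𝓝 (h z)) := fun z hz =>
    hgu.tendsto_at hz
  -- the identity for the smooth maps
  have hn : ∀ n, ∫ z in K₁, (fderiv ℝ φ (g n z) ξ) •
        (jac (fderiv ℝ (g n) z 1) (fderiv ℝ (g n) z I) • a z) =
      - ∫ z in K₁, φ (g n z) • (L (fderiv ℝ (g n) z I) • fderiv ℝ a z 1 -
        L (fderiv ℝ (g n) z 1) • fderiv ℝ a z I) := by
    intro n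
    have h1 := piola (Φ := fun z => φ (g n z)) (v := fun z => L (g n z)) hac haK
      (hφ.comp (hg n)) (L.contDiff.comp (hg n))
    have h2 : ∀ z u, fderiv ℝ (fun z => φ (g n z)) z u =
        fderiv ℝ φ (g n z) (fderiv ℝ (g n) z u) := by
      intro z u
      have : fderiv ℝ (fun z => φ (g n z)) z =
          (fderiv ℝ φ (g n z)).comp (fderiv ℝ (g n) z) :=
        fderiv_comp z (hφ.differentiable (by simp) _) (hgd n z)
      rw [this]; rfl
    have h3 : ∀ z u, fderiv ℝ (fun z => L (g n z)) z u = L (fderiv ℝ (g n) z u) := by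
      intro z u
      have : fderiv ℝ (fun z => L (g n z)) z =
          L.comp (fderiv ℝ (g n) z) := (L.hasFDerivAt.comp z (hgd n z).hasFDerivAt).fderiv
      rw [this]; rfl
    simp only [h2, h3, alg] at h1
    rw [setIntegral_eq_integral_of_forall_compl_eq_zero (fun z hz => by rw [ha0 z hz]; simp),
      setIntegral_eq_integral_of_forall_compl_eq_zero (fun z hz => by rw [hda0 z hz]; simp),
      ← h1]
    congr 1
    ext z
    rw [smul_smul]
  -- passage to the limit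
  have hP2 : ∫⁻ z in K₁, ‖hx z‖ₑ ^ 2 < ⊤ := hLx K₁ hK₁X hK₁
  have hQ2 : ∫⁻ z in K₁, ‖hy z‖ₑ ^ 2 < ⊤ := hLy K₁ hK₁X hK₁
  have hJ := jac_lim (μ := volume.restrict K₁) (fun n => (hgc n 1).measurable)
    (fun n => (hgc n I).measurable) hwd.mx hwd.my hgx2 hgy2 hP2 hQ2
  have hjm : Measurable fun z => jac (hx z) (hy z) := by
    unfold jac
    have h1 := hwd.mx
    have h2 := hwd.my
    fun_prop
  have hJi : IntegrableOn (fun z => jac (hx z) (hy z)) K₁ := by
    refine ⟨hjm.aestronglyMeasurable, ?_⟩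
    have h1 : ∀ z, ‖jac (hx z) (hy z)‖ₑ ≤ ‖hx z‖ₑ * ‖hy z‖ₑ := fun z => by
      have := jac_sub_le (hx z) (hy z) 0 0
      simpa [jac] using this
    refine lt_of_le_of_lt (lintegral_mono h1) (lt_of_le_of_lt
      (cs hwd.mx.enorm.aemeasurable hwd.my.enorm.aemeasurable) ?_)
    exact ENNReal.mul_lt_top (ENNReal.rpow_lt_top_of_nonneg (by norm_num) hP2.ne)
      (ENNReal.rpow_lt_top_of_nonneg (by norm_num) hQ2.ne)
  have hxi : IntegrableOn hx K₁ := hwd.lx K₁ hK₁X hK₁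
  have hyi : IntegrableOn hy K₁ := hwd.ly K₁ hK₁X hK₁
  have ilim1 := lim_smul (u := fun n z => fderiv ℝ φ (g n z) ξ) (U := fun z => fderiv ℝ φ (h z) ξ)
    hKm (fun n => ((cd_dir hφ ξ).continuous.comp (hg n).continuous).aestronglyMeasurable)
    (fun n z => hC1 _) (fun z hz => ((cd_dir hφ ξ).continuous.tendsto _).comp (hgpt z hz))
    (m := fun n z => jac (fderiv ℝ (g n) z 1) (fderiv ℝ (g n) z I) • a z)
    (M := fun z => jac (hx z) (hy z) • a z)
    (fun n => (((hjc n).smul hac.continuous).continuousOn.integrableOn_compact hK₁))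
    (hJi.smul_bdd A hac.continuous.aestronglyMeasurable (Eventually.of_forall hA))
    (lmul hA hJ)
  have hL1 : ∀ {q : ℂ → ℂ}, IntegrableOn q K₁ → IntegrableOn (fun z => L (q z)) K₁ :=
    fun hq => L.integrable_comp hq
  have t1 := lmul hB1 (llin L hgy1)
  have t2 := lmul hB2 (llin L hgx1)
  have mLy : Measurable fun z => L (hy z) := L.continuous.measurable.comp hwd.my
  have mLx : Measurable fun z => L (hx z) := L.continuous.measurable.comp hwd.mx
  have t3 : Tendsto (fun n => ∫⁻ z in K₁, ‖(L (fderiv ℝ (g n) z I) • fderiv ℝ a z 1 -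
      L (fderiv ℝ (g n) z 1) • fderiv ℝ a z I) - (L (hy z) • fderiv ℝ a z 1 -
      L (hx z) • fderiv ℝ a z I)‖ₑ) atTop (𝓝 0) := by
    have t4 := t1.add t2
    rw [add_zero] at t4
    refine tendsto_of_tendsto_of_tendsto_of_le_of_le tendsto_const_nhds t4
      (fun _ => zero_le) fun n => ?_
    have m1 : Measurable fun z => ‖L (fderiv ℝ (g n) z I) • fderiv ℝ a z 1 -
        L (hy z) • fderiv ℝ a z 1‖ₑ :=
      (((L.continuous.comp (hgc n I)).smul (hax 1)).measurable.sub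
        (mLy.smul (hax 1).measurable)).enorm
    simp only
    rw [← lintegral_add_left m1]
    refine lintegral_mono fun z => ?_
    have h1 : (L (fderiv ℝ (g n) z I) • fderiv ℝ a z 1 -
      L (fderiv ℝ (g n) z 1) • fderiv ℝ a z I) - (L (hy z) • fderiv ℝ a z 1 -
      L (hx z) • fderiv ℝ a z I) = (L (fderiv ℝ (g n) z I) • fderiv ℝ a z 1 -
        L (hy z) • fderiv ℝ a z 1) - (L (fderiv ℝ (g n) z 1) • fderiv ℝ a z I -
        L (hx z) • fderiv ℝ a z I) := by abel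
    simp only
    rw [h1]
    exact enorm_sub_le
  have ilim2 := lim_smul (u := fun n z => φ (g n z)) (U := fun z => φ (h z))
    hKm (fun n => (hφ.continuous.comp (hg n).continuous).aestronglyMeasurable)
    (fun n z => hC0 _) (fun z hz => (hφ.continuous.tendsto _).comp (hgpt z hz))
    (m := fun n z => L (fderiv ℝ (g n) z I) • fderiv ℝ a z 1 -
      L (fderiv ℝ (g n) z 1) • fderiv ℝ a z I)
    (M := fun z => L (hy z) • fderiv ℝ a z 1 - L (hx z) • fderiv ℝ a z I)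
    (fun n => ((((L.continuous.comp (hgc n I)).smul (hax 1)).sub
      ((L.continuous.comp (hgc n 1)).smul (hax I))).continuousOn.integrableOn_compact hK₁))
    (((hL1 hyi).smul_bdd B1 (hax 1).aestronglyMeasurable (Eventually.of_forall hB1)).sub
      ((hL1 hxi).smul_bdd B2 (hax I).aestronglyMeasurable (Eventually.of_forall hB2))) t3
  have hfin : ∫ z in K₁, fderiv ℝ φ (h z) ξ • (jac (hx z) (hy z) • a z) =
      - ∫ z in K₁, φ (h z) • (L (hy z) • fderiv ℝ a z 1 - L (hx z) • fderiv ℝ a z I) := by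
    refine tendsto_nhds_unique ilim1 ?_
    simp only [hn]
    exact ilim2.neg
  -- both sides live on `K`
  have hφ0 : ∀ w ∈ X, w ∉ K → φ (h w) = 0 := fun w hw hwK =>
    image_eq_zero_of_notMem_tsupport fun h1 => hwK (hsupp w hw h1)
  have hdφ0 : ∀ w ∈ X, w ∉ K → fderiv ℝ φ (h w) = 0 := fun w hw hwK =>
    fderiv_of_notMem_tsupport ℝ fun h1 => hwK (hsupp w hw h1)
  have hKK : K ⊆ K₁ := hKK₁.trans interior_subset
  have l1 : ∫ w in X, (fderiv ℝ φ (h w) ξ * jac (hx w) (hy w)) • w =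
      ∫ z in K₁, fderiv ℝ φ (h z) ξ • (jac (hx z) (hy z) • a z) := by
    rw [setIntegral_eq_of_subset_of_forall_sdiff_eq_zero hXo.measurableSet hK₁X]
    · refine setIntegral_congr_fun hKm fun z hz => ?_
      by_cases hzK : z ∈ K
      · simp only [ha1 z hzK, mul_smul]
      · simp [hdφ0 z (hK₁X hz) hzK]
    · intro z hz
      simp [hdφ0 z hz.1 fun h1 => hz.2 (hKK h1)]
  have l2 : ∫ w in X, φ (h w) • (((L (hy w) : ℝ) : ℂ) - ((L (hx w) : ℝ) : ℂ) * I) =
      ∫ z in K₁, φ (h z) • (L (hy z) • fderiv ℝ a z 1 - L (hx z) • fderiv ℝ a z I) := by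
    rw [setIntegral_eq_of_subset_of_forall_sdiff_eq_zero hXo.measurableSet hK₁X]
    · refine setIntegral_congr_fun hKm fun z hz => ?_
      by_cases hzK : z ∈ K
      · simp [hda1 z hzK]
      · simp [hφ0 z (hK₁X hz) hzK]
    · intro z hz
      simp [hφ0 z hz.1 fun h1 => hz.2 (hKK h1)]
  rw [l1, l2, hfin]

/-! ### change of variables -/

section cov

variable {X Y : Set ℂ} {h hx hy : ℂ → ℂ}

theorem meas_ind (hXo : IsOpen X) (hc : ContinuousOn h X) : Measurable (X.indicator h) := by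
  classical
  rw [← Set.piecewise_eq_indicator]
  exact hc.measurable_piecewise continuousOn_const hXo.measurableSet

theorem map_eq (hArea : SpecAreaInj) (hM : Mon X h hx hy) (hLx : L2loc X hx) (hLy : L2loc X hy)
    (hinj : InjOn h X) (himg : h '' X = Y) :
    Measure.map (X.indicator h) ((volume.restrict X).withDensity
      fun w => ENNReal.ofReal |jac (hx w) (hy w)|) = volume.restrict Y := by
  have hXm := hM.op.measurableSet
  have hm := meas_ind hM.op hM.co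
  ext B hB
  rw [Measure.map_apply hm hB, withDensity_apply _ (hm hB), Measure.restrict_apply hB,
    ← lintegral_indicator (hm hB)]
  have h1 := hArea X h hx hy hM hLx hLy hinj X subset_rfl hXm (B.indicator 1)
    (measurable_one.indicator hB)
  rw [himg] at h1
  calc _ = ∫⁻ z in X, B.indicator 1 (h z) * ENNReal.ofReal |jac (hx z) (hy z)| := by
        refine setLIntegral_congr_fun hXm fun z hz => ?_
        have h2 : z ∈ X.indicator h ⁻¹' B ↔ h z ∈ B := by
          rw [mem_preimage, indicator_of_mem hz]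
        by_cases h3 : h z ∈ B
        · rw [indicator_of_mem (h2.2 h3), indicator_of_mem h3]; simp
        · rw [indicator_of_notMem (fun h4 => h3 (h2.1 h4)), indicator_of_notMem h3]; simp
    _ = _ := by
        rw [h1, lintegral_indicator hB, Measure.restrict_restrict hB]
        simp

theorem int_eq (hArea : SpecAreaInj) (hM : Mon X h hx hy) (hLx : L2loc X hx) (hLy : L2loc X hy)
    (hinj : InjOn h X) (himg : h '' X = Y) {g : ℂ → ℂ}
    (hg : AEStronglyMeasurable g (volume.restrict Y)) :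
    ∫ z in Y, g z = ∫ w in X, |jac (hx w) (hy w)| • g (h w) := by
  have hXm := hM.op.measurableSet
  have hm := meas_ind hM.op hM.co
  have hjm : Measurable fun z => jac (hx z) (hy z) := by
    unfold jac
    have h1 := hM.wd.mx
    have h2 := hM.wd.my
    fun_prop
  have hd : Measurable fun w => ENNReal.ofReal |jac (hx w) (hy w)| :=
    (measurable_norm.comp hjm).ennreal_ofReal
  have h1 := map_eq hArea hM hLx hLy hinj himg
  rw [← h1] at hg ⊢
  rw [integral_map hm.aemeasurable hg, integral_withDensity_eq_integral_toReal_smul hd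
    (Eventually.of_forall fun _ => ENNReal.ofReal_lt_top)]
  refine setIntegral_congr_fun hXm fun z hz => ?_
  simp only [indicator_of_mem hz, ENNReal.toReal_ofReal (abs_nonneg _)]

end cov

theorem smul_iv1 {m₁ m₂ : ℂ} (hj : 0 < jac m₁ m₂) :
    (jac m₁ m₂ : ℝ) • iv1 m₁ m₂ = ((m₂.im : ℝ) : ℂ) - ((m₁.im : ℝ) : ℂ) * I := by
  apply Complex.ext
  · simp [iv1, mul_div_cancel₀ _ hj.ne']
  · simp [iv1]
    field_simp

theorem smul_iv2 {m₁ m₂ : ℂ} (hj : 0 < jac m₁ m₂) :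
    (jac m₁ m₂ : ℝ) • iv2 m₁ m₂ = ((-m₂.re : ℝ) : ℂ) - ((-m₁.re : ℝ) : ℂ) * I := by
  apply Complex.ext
  · simp [iv2]
    field_simp
  · simp [iv2, mul_div_cancel₀ _ hj.ne']

theorem enorm_le {m₁ m₂ : ℂ} {x y : ℝ} (h1 : |x| ≤ ‖m₂‖) (h2 : |y| ≤ ‖m₁‖) :
    ‖((x : ℝ) : ℂ) - ((y : ℝ) : ℂ) * I‖ₑ ≤ 2 + (‖m₁‖ₑ ^ 2 + ‖m₂‖ₑ ^ 2) := by
  have h3 : ‖((x : ℝ) : ℂ) - ((y : ℝ) : ℂ) * I‖ ≤ 2 + (‖m₁‖ ^ 2 + ‖m₂‖ ^ 2) := by
    refine (norm_sub_le _ _).trans ?_
    rw [norm_mul, Complex.norm_I, mul_one, Complex.norm_real, Complex.norm_real,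
      Real.norm_eq_abs, Real.norm_eq_abs]
    nlinarith [norm_nonneg m₁, norm_nonneg m₂, sq_nonneg (‖m₁‖ - 1), sq_nonneg (‖m₂‖ - 1)]
  simp only [← ofReal_norm]
  rw [← ENNReal.ofReal_pow (norm_nonneg _), ← ENNReal.ofReal_pow (norm_nonneg _),
    ← ENNReal.ofReal_add (by positivity) (by positivity),
    show (2 : ℝ≥0∞) = ENNReal.ofReal 2 by simp,
    ← ENNReal.ofReal_add (by positivity) (by positivity)]
  exact ENNReal.ofReal_le_ofReal h3

end InvWDM

open InvWDM in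
theorem specInvWD (hMoll : SpecMoll) (hArea : SpecAreaInj) : SpecInvWD := by
  intro X Y f h hx hy hXo hYo hXb hfc hfm hhm hhf hfh hM hE hJ
  have hc := hM.co
  have hwd := hM.wd
  have hXm := hXo.measurableSet
  have hYm := hYo.measurableSet
  have hLx : L2loc X hx := fun K hK _ => lt_of_le_of_lt (lintegral_mono_set hK)
    (lt_of_le_of_lt (lintegral_mono fun z => le_self_add) hE)
  have hLy : L2loc X hy := fun K hK _ => lt_of_le_of_lt (lintegral_mono_set hK)
    (lt_of_le_of_lt (lintegral_mono fun z => le_add_self) hE)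
  have hinj : InjOn h X := fun w hw w' hw' he => by
    rw [← hfh w hw, ← hfh w' hw', he]
  have himg : h '' X = Y := by
    refine Subset.antisymm (image_subset_iff.2 hhm) fun z hz => ⟨f z, hfm hz, hhf z hz⟩
  have hjm : Measurable fun z => jac (hx z) (hy z) := by
    unfold jac
    have h1 := hwd.mx
    have h2 := hwd.my
    fun_prop
  -- the weak derivatives
  set f' : ℂ → ℂ := Y.indicator f with hf'
  have hf'm : Measurable f' := meas_ind hYo hfc
  have hf'Y : ∀ z ∈ Y, f' z = f z := fun z hz => indicator_of_mem hz _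
  have mi1 : Measurable fun z => iv1 (hx z) (hy z) := by
    unfold iv1
    have h1 := hwd.mx
    have h2 := hwd.my
    have h3 : Measurable fun z => (hy z).im / jac (hx z) (hy z) := by fun_prop
    have h4 : Measurable fun z => -(hx z).im / jac (hx z) (hy z) := by fun_prop
    exact Complex.measurableEquivRealProd.symm.measurable.comp (h3.prodMk h4)
  have mi2 : Measurable fun z => iv2 (hx z) (hy z) := by
    unfold iv2
    have h1 := hwd.mx
    have h2 := hwd.my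
    have h3 : Measurable fun z => -(hy z).re / jac (hx z) (hy z) := by fun_prop
    have h4 : Measurable fun z => (hx z).re / jac (hx z) (hy z) := by fun_prop
    exact Complex.measurableEquivRealProd.symm.measurable.comp (h3.prodMk h4)
  set F1 : ℂ → ℂ := fun z => iv1 (hx (f' z)) (hy (f' z)) with hF1
  set F2 : ℂ → ℂ := fun z => iv2 (hx (f' z)) (hy (f' z)) with hF2
  have mF1 : Measurable F1 := mi1.comp hf'm
  have mF2 : Measurable F2 := mi2.comp hf'm
  have hf'h : ∀ w ∈ X, f' (h w) = w := fun w hw => by rw [hf'Y _ (hhm hw), hfh w hw]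
  -- integrability
  have hfinX : ∫⁻ z in X, (2 + (‖hx z‖ₑ ^ 2 + ‖hy z‖ₑ ^ 2)) < ⊤ := by
    rw [lintegral_add_left measurable_const]
    refine ENNReal.add_lt_top.2 ⟨?_, hE⟩
    rw [setLIntegral_const]
    exact ENNReal.mul_lt_top (by simp) hXb.measure_lt_top
  have hmul : ∀ {j : ℝ} {u : ℂ}, 0 < j → ‖u‖ₑ * ENNReal.ofReal |j| = ‖j • u‖ₑ := by
    intro j u hj
    rw [enorm_smul, mul_comm, ← ofReal_norm (x := j), Real.norm_eq_abs]
  have hF1i : ∫⁻ z in Y, ‖F1 z‖ₑ < ⊤ := by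
    have h1 := hArea X h hx hy hM hLx hLy hinj X subset_rfl hXm (fun z => ‖F1 z‖ₑ) mF1.enorm
    rw [himg] at h1
    rw [← h1]
    refine lt_of_le_of_lt (lintegral_mono_ae ?_) hfinX
    filter_upwards [hJ, ae_restrict_mem hXm] with w hw hwX
    simp only [hF1, hf'h w hwX]
    rw [hmul hw, smul_iv1 hw]
    exact enorm_le (Complex.abs_im_le_norm _) (Complex.abs_im_le_norm _)
  have hF2i : ∫⁻ z in Y, ‖F2 z‖ₑ < ⊤ := by
    have h1 := hArea X h hx hy hM hLx hLy hinj X subset_rfl hXm (fun z => ‖F2 z‖ₑ) mF2.enorm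
    rw [himg] at h1
    rw [← h1]
    refine lt_of_le_of_lt (lintegral_mono_ae ?_) hfinX
    filter_upwards [hJ, ae_restrict_mem hXm] with w hw hwX
    simp only [hF2, hf'h w hwX]
    rw [hmul hw, smul_iv2 hw]
    exact enorm_le (by rw [abs_neg]; exact Complex.abs_re_le_norm _)
      (by rw [abs_neg]; exact Complex.abs_re_le_norm _)
  -- the main identities
  have main : ∀ φ : ℂ → ℝ, Test Y φ → ∀ (L : ℂ →L[ℝ] ℝ) (F : ℂ → ℂ), Measurable F →
      (∀ w ∈ X, 0 < jac (hx w) (hy w) → jac (hx w) (hy w) • F (h w) =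
        ((L (hy w) : ℝ) : ℂ) - ((L (hx w) : ℝ) : ℂ) * I) →
      ∫ z, (fderiv ℝ φ z (((L I : ℝ) : ℂ) - ((L 1 : ℝ) : ℂ) * I)) • f z =
        - ∫ z, φ z • F z := by
    intro φ hφ L F hF hFh
    have hS : IsCompact (tsupport φ) := hφ.cs
    have hK : IsCompact (f '' tsupport φ) := hS.image_of_continuousOn (hfc.mono hφ.su)
    have hKX : f '' tsupport φ ⊆ X := image_subset_iff.2 fun z hz => hfm (hφ.su hz)
    have k1 := key hMoll hXo hc hwd hLx hLy hφ.sm hφ.cs hK hKX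
      (fun w hw h1 => ⟨h w, h1, hfh w hw⟩) L
    have s1 : ∀ z ∉ Y, fderiv ℝ φ z = 0 := fun z hz =>
      fderiv_of_notMem_tsupport ℝ fun h1 => hz (hφ.su h1)
    have s2 : ∀ z ∉ Y, φ z = 0 := fun z hz =>
      image_eq_zero_of_notMem_tsupport fun h1 => hz (hφ.su h1)
    rw [← setIntegral_eq_integral_of_forall_compl_eq_zero (s := Y)
      (fun z hz => by rw [s1 z hz]; simp),
      ← setIntegral_eq_integral_of_forall_compl_eq_zero (s := Y)
      (f := fun z => φ z • F z) (fun z hz => by rw [s2 z hz]; simp)]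
    have m1 : AEStronglyMeasurable
        (fun z => (fderiv ℝ φ z (((L I : ℝ) : ℂ) - ((L 1 : ℝ) : ℂ) * I)) • f z)
        (volume.restrict Y) :=
      ((cd_dir hφ.sm _).continuous.continuousOn.smul hfc).aestronglyMeasurable hYm
    have m2 : AEStronglyMeasurable (fun z => φ z • F z) (volume.restrict Y) :=
      (hφ.sm.continuous.measurable.smul hF).aestronglyMeasurable
    rw [int_eq hArea hM hLx hLy hinj himg m1, int_eq hArea hM hLx hLy hinj himg m2]
    have e1 : ∫ w in X, |jac (hx w) (hy w)| •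
        (fderiv ℝ φ (h w) (((L I : ℝ) : ℂ) - ((L 1 : ℝ) : ℂ) * I) • f (h w)) =
        ∫ w in X, (fderiv ℝ φ (h w) (((L I : ℝ) : ℂ) - ((L 1 : ℝ) : ℂ) * I) *
          jac (hx w) (hy w)) • w := by
      refine integral_congr_ae ?_
      filter_upwards [hJ, ae_restrict_mem hXm] with w hw hwX
      rw [hfh w hwX, abs_of_pos hw, smul_smul, mul_comm]
    have e2 : ∫ w in X, |jac (hx w) (hy w)| • (φ (h w) • F (h w)) =
        ∫ w in X, φ (h w) • (((L (hy w) : ℝ) : ℂ) - ((L (hx w) : ℝ) : ℂ) * I) := by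
      refine integral_congr_ae ?_
      filter_upwards [hJ, ae_restrict_mem hXm] with w hw hwX
      rw [← hFh w hwX hw, abs_of_pos hw, smul_comm]
    rw [e1, e2, k1]
  refine ⟨F1, F2, ⟨mF1, mF2, ?_, ?_, ?_, ?_, ?_⟩, ?_⟩
  · intro K hK hKc
    exact (hfc.mono hK).integrableOn_compact hKc
  · intro K hK hKc
    exact ⟨mF1.aestronglyMeasurable, lt_of_le_of_lt (lintegral_mono_set hK) hF1i⟩
  · intro K hK hKc
    exact ⟨mF2.aestronglyMeasurable, lt_of_le_of_lt (lintegral_mono_set hK) hF2i⟩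
  · intro φ hφ
    have h1 := main φ hφ Complex.imCLM F1 mF1 (fun w hw hj => by
      simp only [hF1, hf'h w hw]
      rw [smul_iv1 hj]; rfl)
    simpa using h1
  · intro φ hφ
    have h1 := main φ hφ (-Complex.reCLM) F2 mF2 (fun w hw hj => by
      simp only [hF2, hf'h w hw]
      rw [smul_iv2 hj]; rfl)
    simpa using h1
  · -- the null set
    have hN : MeasurableSet (X ∩ {w | ¬ 0 < jac (hx w) (hy w)}) :=
      hXm.inter (measurableSet_lt measurable_const hjm).compl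
    have hN0 : volume (X ∩ {w | ¬ 0 < jac (hx w) (hy w)}) = 0 := by
      have h1 := (ae_restrict_iff' hXm).1 hJ
      rw [ae_iff] at h1
      refine measure_mono_null ?_ h1
      rintro w ⟨hw, hw2⟩ h3
      exact hw2 (h3 hw)
    have h2 := hArea X h hx hy hM hLx hLy hinj _ inter_subset_left hN 1 measurable_one
    rw [Measure.restrict_eq_zero.2 hN0, lintegral_zero_measure] at h2
    have h3 : volume (h '' (X ∩ {w | ¬ 0 < jac (hx w) (hy w)})) = 0 := by
      have h4 : ∫⁻ z in h '' (X ∩ {w | ¬ 0 < jac (hx w) (hy w)}), (1 : ℂ → ℝ≥0∞) z =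
          volume (h '' (X ∩ {w | ¬ 0 < jac (hx w) (hy w)})) := by
        simp
      rw [← h4, ← h2]
    have h5 : ∀ᵐ z ∂(volume.restrict Y), z ∉ h '' (X ∩ {w | ¬ 0 < jac (hx w) (hy w)}) :=
      ae_restrict_of_ae (measure_eq_zero_iff_ae_notMem.1 h3)
    filter_upwards [h5, ae_restrict_mem hYm] with z hz hzY
    refine ⟨by_contra fun h6 => hz ⟨f z, ⟨hfm hzY, h6⟩, hhf z hzY⟩, ?_, ?_⟩
    · simp only [hF1, hf'Y z hzY]
    · simp only [hF2, hf'Y z hzY]

end MPfa
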