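import Pool.Agent.Lib.MP_fa0334_an.Spec

section
/-!
Problem MP_fa0334_an, module INV1: the length estimate for the inverse of a Sobolev homeomorphism.
-/
set_option autoImplicit false

open MeasureTheory Set Filter Topology Metric Complex
open scoped ContDiff ENNReal ComplexConjugate

namespace MPfa

namespace InvAux

lemma lint_yx (g : ℂ → ℝ≥0∞) (hg : Measurable g) :
    ∫⁻ z, g z = ∫⁻ y : ℝ, ∫⁻ x : ℝ, g ⟨x, y⟩ := by
  have h1 := (Complex.volume_preserving_equiv_real_prod.symm _).lintegral_comp hg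
  rw [← h1, Measure.volume_eq_prod, lintegral_prod_symm]
  · rfl
  · exact (hg.comp Complex.measurableEquivRealProd.symm.measurable).aemeasurable

lemma lint_xy (g : ℂ → ℝ≥0∞) (hg : Measurable g) :
    ∫⁻ z, g z = ∫⁻ x : ℝ, ∫⁻ y : ℝ, g ⟨x, y⟩ := by
  have h1 := (Complex.volume_preserving_equiv_real_prod.symm _).lintegral_comp hg
  rw [← h1, Measure.volume_eq_prod, lintegral_prod]
  · rfl
  · exact (hg.comp Complex.measurableEquivRealProd.symm.measurable).aemeasurable

lemma cont_mkl (y : ℝ) : Continuous (fun a : ℝ => (⟨a, y⟩ : ℂ)) := by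
  have : (fun a : ℝ => (⟨a, y⟩ : ℂ)) = fun a : ℝ => (a : ℂ) + (y : ℂ) * I := by
    funext a
    apply Complex.ext <;> simp
  rw [this]
  fun_prop

lemma cont_mkr (x : ℝ) : Continuous (fun a : ℝ => (⟨x, a⟩ : ℂ)) := by
  have : (fun a : ℝ => (⟨x, a⟩ : ℂ)) = fun a : ℝ => (x : ℂ) + (a : ℂ) * I := by
    funext a
    apply Complex.ext <;> simp
  rw [this]
  fun_prop

/-- one dimensional estimate on both sides of a point -/
lemma line_est (u g : ℝ → ℂ) (W : Set ℝ) (x0 t1 t2 s : ℝ) (hs : 0 ≤ s) (ht1 : 0 < t1)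
    (ht2 : 0 < t2) (sub1 : Ioo x0 (x0 + t1) ⊆ W)
    (sub2 : Ioo (x0 - t2) x0 ⊆ W)
    (e1 : u (x0 + t1) - u x0 = ∫ x in x0..(x0 + t1), g x)
    (e2 : u x0 - u (x0 - t2) = ∫ x in (x0 - t2)..x0, g x)
    (n1 : s ≤ ‖u (x0 + t1) - u x0‖) (n2 : s ≤ ‖u x0 - u (x0 - t2)‖) :
    ENNReal.ofReal (2 * s) ≤ ∫⁻ x in W, ‖g x‖ₑ := by
  have key : ∀ a b : ℝ, a ≤ b → s ≤ ‖∫ x in a..b, g x‖ →
      ENNReal.ofReal s ≤ ∫⁻ x in Ioo a b, ‖g x‖ₑ := by
    intro a b hab h
    rw [intervalIntegral.integral_of_le hab] at h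
    calc ENNReal.ofReal s ≤ ENNReal.ofReal ‖∫ x in Ioc a b, g x‖ := ENNReal.ofReal_le_ofReal h
      _ = ‖∫ x in Ioc a b, g x‖ₑ := ofReal_norm _
      _ ≤ ∫⁻ x in Ioc a b, ‖g x‖ₑ := enorm_integral_le_lintegral_enorm _
      _ = ∫⁻ x in Ioo a b, ‖g x‖ₑ := by rw [Measure.restrict_congr_set Ioo_ae_eq_Ioc]
  have k1 := key x0 (x0 + t1) (by linarith) (by rw [← e1]; exact n1)
  have k2 := key (x0 - t2) x0 (by linarith) (by rw [← e2]; exact n2)
  have hd : Disjoint (Ioo x0 (x0 + t1)) (Ioo (x0 - t2) x0) := by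
    rw [Set.disjoint_left]
    intro a ha hb
    exact absurd ha.1 (not_lt.mpr hb.2.le)
  calc ENNReal.ofReal (2 * s) = ENNReal.ofReal s + ENNReal.ofReal s := by
        rw [two_mul, ENNReal.ofReal_add hs hs]
    _ ≤ (∫⁻ x in Ioo x0 (x0 + t1), ‖g x‖ₑ) + ∫⁻ x in Ioo (x0 - t2) x0, ‖g x‖ₑ :=
        add_le_add k1 k2
    _ = ∫⁻ x in Ioo x0 (x0 + t1) ∪ Ioo (x0 - t2) x0, ‖g x‖ₑ :=
        (lintegral_union measurableSet_Ioo hd).symm
    _ ≤ ∫⁻ x in W, ‖g x‖ₑ := lintegral_mono_set (union_subset sub1 sub2)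

variable {Y X : Set ℂ} {f h : ℂ → ℂ}

lemma Inv.symmInv (hI : Inv Y X f h) (bX : Bornology.IsBounded X) : Inv X Y h f :=
  ⟨hI.oX, hI.oY, bX, hI.ch, hI.cf, hI.mh, hI.mf, hI.fh, hI.hf⟩

/-- images under `h` are relative preimages under `f` -/
lemma image_h (hI : Inv Y X f h) {D : Set ℂ} (hD : D ⊆ X) : h '' D = Y ∩ f ⁻¹' D := by
  ext z
  constructor
  · rintro ⟨w, hw, rfl⟩
    exact ⟨hI.mh (hD hw), by simpa [hI.fh w (hD hw)] using hw⟩
  · rintro ⟨hz, hf⟩
    exact ⟨f z, hf, hI.hf z hz⟩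

lemma image_f (hI : Inv Y X f h) {D : Set ℂ} (hD : D ⊆ Y) : f '' D = X ∩ h ⁻¹' D := by
  ext z
  constructor
  · rintro ⟨w, hw, rfl⟩
    exact ⟨hI.mf (hD hw), by simpa [hI.hf w (hD hw)] using hw⟩
  · rintro ⟨hz, hf⟩
    exact ⟨h z, hf, hI.fh z hz⟩

lemma open_h (hI : Inv Y X f h) {D : Set ℂ} (hD : D ⊆ X) (hO : IsOpen D) : IsOpen (h '' D) := by
  rw [image_h hI hD]
  exact hI.cf.isOpen_inter_preimage hI.oY hO

lemma open_f (hI : Inv Y X f h) {D : Set ℂ} (hD : D ⊆ Y) (hO : IsOpen D) : IsOpen (f '' D) := by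
  rw [image_f hI hD]
  exact hI.ch.isOpen_inter_preimage hI.oX hO

/-- going in the direction `e` until the exit from `h (ball x (2 s))` -/
lemma exit_pt (hI : Inv Y X f h) {x : ℂ} {s : ℝ} (hs : 0 < s)
    (hb : closedBall x (2 * s) ⊆ X) {z0 : ℂ} (hz0 : z0 ∈ h '' ball x s) {e : ℂ} (he : ‖e‖ = 1) :
    ∃ t : ℝ, 0 < t ∧ (∀ τ ∈ Ico 0 t, z0 + τ * e ∈ h '' ball x (2 * s)) ∧ z0 + t * e ∈ Y ∧
      s ≤ ‖f (z0 + t * e) - f z0‖ := by
  have hbs : ball x (2 * s) ⊆ X := ball_subset_closedBall.trans hb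
  set V : Set ℂ := h '' ball x (2 * s) with hV
  have hVo : IsOpen V := open_h hI hbs isOpen_ball
  have hVY : V ⊆ Y := by
    rw [hV, image_h hI hbs]
    exact inter_subset_left
  have hc : Continuous fun t : ℝ => z0 + (t : ℂ) * e := by fun_prop
  let S : Set ℝ := {t : ℝ | 0 ≤ t ∧ z0 + (t : ℂ) * e ∉ V}
  have hSc : IsClosed S := (isClosed_Ici (a := (0 : ℝ))).inter (hVo.isClosed_compl.preimage hc)
  have hSb : BddBelow S := ⟨0, fun t ht => ht.1⟩
  have hSn : S.Nonempty := by
    obtain ⟨R, hR⟩ := hI.bY.exists_norm_le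
    have hR0 : 0 ≤ |R| := abs_nonneg R
    refine ⟨|R| + ‖z0‖ + 1, by positivity, fun hmem => ?_⟩
    have h1 := hR _ (hVY hmem)
    have h2 : ‖((|R| + ‖z0‖ + 1 : ℝ) : ℂ) * e‖ = |R| + ‖z0‖ + 1 := by
      rw [norm_mul, he, mul_one, Complex.norm_real, Real.norm_of_nonneg (by positivity)]
    have h3 : ‖((|R| + ‖z0‖ + 1 : ℝ) : ℂ) * e‖ ≤ ‖z0 + ((|R| + ‖z0‖ + 1 : ℝ) : ℂ) * e‖ + ‖z0‖ := by
      have := norm_sub_le (z0 + ((|R| + ‖z0‖ + 1 : ℝ) : ℂ) * e) z0
      simpa using this
    have h4 := le_abs_self R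
    linarith
  set t0 := sInf S with ht0
  have ht0S : t0 ∈ S := hSc.csInf_mem hSn hSb
  have hz0V : z0 ∈ V := by
    obtain ⟨w, hw, rfl⟩ := hz0
    exact ⟨w, ball_subset_ball (by linarith) hw, rfl⟩
  have ht0p : 0 < t0 := by
    rcases ht0S.1.lt_or_eq with h0 | h0
    · exact h0
    · exfalso
      apply ht0S.2
      rw [← h0]
      simpa using hz0V
  have hin : ∀ τ ∈ Ico 0 t0, z0 + (τ : ℂ) * e ∈ V := by
    intro τ hτ
    by_contra hcon
    exact absurd (csInf_le hSb (show τ ∈ S from ⟨hτ.1, hcon⟩)) (not_le.mpr hτ.2)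
  have hcl : z0 + (t0 : ℂ) * e ∈ closure V := by
    have h1 : t0 ∈ closure (Ico 0 t0) := by
      rw [closure_Ico ht0p.ne]
      exact right_mem_Icc.mpr ht0p.le
    have h2 := hc.continuousWithinAt (s := Ico 0 t0) (x := t0) |>.mem_closure_image h1
    exact closure_mono (by rintro _ ⟨τ, hτ, rfl⟩; exact hin τ hτ) h2
  have hcomp : IsCompact (h '' closedBall x (2 * s)) :=
    (isCompact_closedBall x (2 * s)).image_of_continuousOn (hI.ch.mono hb)
  have hmem : z0 + (t0 : ℂ) * e ∈ h '' closedBall x (2 * s) :=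
    closure_minimal (image_mono ball_subset_closedBall) hcomp.isClosed hcl
  obtain ⟨w1, hw1, hw1e⟩ := hmem
  obtain ⟨w0, hw0, hw0e⟩ := hz0
  have hw1X := hb hw1
  have hw0X : w0 ∈ X := hbs (ball_subset_ball (by linarith) hw0)
  refine ⟨t0, ht0p, hin, ?_, ?_⟩
  · rw [← hw1e]
    exact hI.mh hw1X
  · have hn : w1 ∉ ball x (2 * s) := by
      intro hcon
      exact ht0S.2 (hw1e ▸ ⟨w1, hcon, rfl⟩)
    rw [← hw1e, ← hw0e, hI.fh _ hw1X, hI.fh _ hw0X]
    rw [mem_ball, not_lt, dist_eq_norm] at hn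
    rw [mem_ball, dist_eq_norm] at hw0
    have := norm_sub_le (w1 - w0) (x - w0)
    have h5 : w1 - w0 - (x - w0) = w1 - x := by ring
    rw [h5, norm_sub_rev x w0] at this
    linarith

lemma horiz (hI : Inv Y X f h) {fx : ℂ → ℂ} (hA : HAC Y f fx) (hm : Measurable fx) {x : ℂ} {s : ℝ}
    (hs : 0 < s) (hb : closedBall x (2 * s) ⊆ X) {w w' : ℂ} (hw : w ∈ ball x s)
    (hw' : w' ∈ ball x s) :
    ENNReal.ofReal (2 * s * |(h w).im - (h w').im|) ≤ ∫⁻ z in h '' ball x (2 * s), ‖fx z‖ₑ := by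
  have hbs : ball x (2 * s) ⊆ X := ball_subset_closedBall.trans hb
  have hVo : IsOpen (h '' ball x (2 * s)) := open_h hI hbs isOpen_ball
  have hVY : h '' ball x (2 * s) ⊆ Y := by
    rw [image_h hI hbs]
    exact inter_subset_left
  rw [← lintegral_indicator hVo.measurableSet, lint_yx _ (hm.enorm.indicator hVo.measurableSet)]
  have hpre : IsPreconnected ((fun v => (h v).im) '' ball x s) :=
    ((convex_ball x s).isPreconnected).image _
      (Complex.continuous_im.comp_continuousOn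
        (hI.ch.mono ((ball_subset_ball (by linarith)).trans hbs)))
  have hsub := hpre.ordConnected.uIcc_subset (mem_image_of_mem (fun v => (h v).im) hw)
    (mem_image_of_mem (fun v => (h v).im) hw')
  have hvol : volume (uIcc (h w).im (h w').im) = ENNReal.ofReal |(h w).im - (h w').im| := by
    rw [Real.volume_interval, abs_sub_comm]
  calc ENNReal.ofReal (2 * s * |(h w).im - (h w').im|)
      = ∫⁻ _ in uIcc (h w).im (h w').im, ENNReal.ofReal (2 * s) := by
        rw [setLIntegral_const, hvol, ENNReal.ofReal_mul (by linarith)]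
    _ ≤ ∫⁻ y in uIcc (h w).im (h w').im, ∫⁻ x' : ℝ,
          (h '' ball x (2 * s)).indicator (fun z => ‖fx z‖ₑ) ⟨x', y⟩ := by
        apply lintegral_mono_ae
        rw [ae_restrict_iff' measurableSet_uIcc]
        filter_upwards [hA] with y hy hyI
        obtain ⟨v, hv, hvy⟩ := hsub hyI
        have hz0 : h v ∈ h '' ball x s := mem_image_of_mem _ hv
        obtain ⟨t1, ht1, hin1, hY1, hn1⟩ := exit_pt hI hs hb hz0 (e := 1) (by simp)
        obtain ⟨t2, ht2, hin2, hY2, hn2⟩ := exit_pt hI hs hb hz0 (e := -1) (by simp)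
        have hp1 : ∀ τ : ℝ, h v + (τ : ℂ) * 1 = ⟨(h v).re + τ, y⟩ := by
          intro τ
          apply Complex.ext <;> simp [← hvy]
        have hp2 : ∀ τ : ℝ, h v + (τ : ℂ) * (-1) = ⟨(h v).re - τ, y⟩ := by
          intro τ
          apply Complex.ext <;> simp [← hvy, sub_eq_add_neg]
        have hp0 : h v = ⟨(h v).re, y⟩ := by
          apply Complex.ext <;> simp [← hvy]
        have c1 : ∀ a ∈ Icc (h v).re ((h v).re + t1), (⟨a, y⟩ : ℂ) ∈ Y := by
          intro a ha
          rcases ha.2.lt_or_eq with hlt | heq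
          · have := hVY (hin1 (a - (h v).re) ⟨by linarith [ha.1], by linarith⟩)
            rwa [hp1, add_sub_cancel] at this
          · rw [hp1] at hY1
            rwa [heq]
        have c2 : ∀ a ∈ Icc ((h v).re - t2) (h v).re, (⟨a, y⟩ : ℂ) ∈ Y := by
          intro a ha
          rcases ha.1.lt_or_eq with hlt | heq
          · have := hVY (hin2 ((h v).re - a) ⟨by linarith [ha.2], by linarith⟩)
            rwa [hp2, sub_sub_cancel] at this
          · rw [hp2] at hY2
            rwa [← heq]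
        have i1 := (hy _ _ (by linarith) c1).2
        have i2 := (hy _ _ (by linarith) c2).2
        have hW : MeasurableSet {a : ℝ | (⟨a, y⟩ : ℂ) ∈ h '' ball x (2 * s)} := by
          exact (hVo.preimage (cont_mkl y)).measurableSet
        have hle := line_est (fun a => f ⟨a, y⟩) (fun a => fx ⟨a, y⟩)
          {a : ℝ | (⟨a, y⟩ : ℂ) ∈ h '' ball x (2 * s)} (h v).re t1 t2 s hs.le ht1 ht2
          (by
            intro a ha
            have := hin1 (a - (h v).re) ⟨by linarith [ha.1], by linarith [ha.2]⟩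
            rwa [hp1, add_sub_cancel] at this)
          (by
            intro a ha
            have := hin2 ((h v).re - a) ⟨by linarith [ha.2], by linarith [ha.1]⟩
            rwa [hp2, sub_sub_cancel] at this)
          i1 i2
          (by rw [hp1] at hn1; rw [hp0] at hn1; simpa using hn1)
          (by rw [hp2] at hn2; rw [hp0] at hn2; rw [norm_sub_rev]; simpa using hn2)
        refine hle.trans (le_of_eq ?_)
        rw [← lintegral_indicator hW]
        rfl
    _ ≤ ∫⁻ y : ℝ, ∫⁻ x' : ℝ,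
          (h '' ball x (2 * s)).indicator (fun z => ‖fx z‖ₑ) ⟨x', y⟩ :=
        setLIntegral_le_lintegral _ _

lemma vert (hI : Inv Y X f h) {fy : ℂ → ℂ} (hA : VAC Y f fy) (hm : Measurable fy) {x : ℂ} {s : ℝ}
    (hs : 0 < s) (hb : closedBall x (2 * s) ⊆ X) {w w' : ℂ} (hw : w ∈ ball x s)
    (hw' : w' ∈ ball x s) :
    ENNReal.ofReal (2 * s * |(h w).re - (h w').re|) ≤ ∫⁻ z in h '' ball x (2 * s), ‖fy z‖ₑ := by
  have hbs : ball x (2 * s) ⊆ X := ball_subset_closedBall.trans hb
  have hVo : IsOpen (h '' ball x (2 * s)) := open_h hI hbs isOpen_ball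
  have hVY : h '' ball x (2 * s) ⊆ Y := by
    rw [image_h hI hbs]
    exact inter_subset_left
  rw [← lintegral_indicator hVo.measurableSet, lint_xy _ (hm.enorm.indicator hVo.measurableSet)]
  have hpre : IsPreconnected ((fun v => (h v).re) '' ball x s) :=
    ((convex_ball x s).isPreconnected).image _
      (Complex.continuous_re.comp_continuousOn
        (hI.ch.mono ((ball_subset_ball (by linarith)).trans hbs)))
  have hsub := hpre.ordConnected.uIcc_subset (mem_image_of_mem (fun v => (h v).re) hw)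
    (mem_image_of_mem (fun v => (h v).re) hw')
  have hvol : volume (uIcc (h w).re (h w').re) = ENNReal.ofReal |(h w).re - (h w').re| := by
    rw [Real.volume_interval, abs_sub_comm]
  calc ENNReal.ofReal (2 * s * |(h w).re - (h w').re|)
      = ∫⁻ _ in uIcc (h w).re (h w').re, ENNReal.ofReal (2 * s) := by
        rw [setLIntegral_const, hvol, ENNReal.ofReal_mul (by linarith)]
    _ ≤ ∫⁻ x' in uIcc (h w).re (h w').re, ∫⁻ y : ℝ,
          (h '' ball x (2 * s)).indicator (fun z => ‖fy z‖ₑ) ⟨x', y⟩ := by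
        apply lintegral_mono_ae
        rw [ae_restrict_iff' measurableSet_uIcc]
        filter_upwards [hA] with x' hy hyI
        obtain ⟨v, hv, hvy⟩ := hsub hyI
        have hz0 : h v ∈ h '' ball x s := mem_image_of_mem _ hv
        obtain ⟨t1, ht1, hin1, hY1, hn1⟩ := exit_pt hI hs hb hz0 (e := I) (by simp)
        obtain ⟨t2, ht2, hin2, hY2, hn2⟩ := exit_pt hI hs hb hz0 (e := -I) (by simp)
        have hp1 : ∀ τ : ℝ, h v + (τ : ℂ) * I = ⟨x', (h v).im + τ⟩ := by
          intro τ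
          apply Complex.ext <;> simp [← hvy]
        have hp2 : ∀ τ : ℝ, h v + (τ : ℂ) * (-I) = ⟨x', (h v).im - τ⟩ := by
          intro τ
          apply Complex.ext <;> simp [← hvy, sub_eq_add_neg]
        have hp0 : h v = ⟨x', (h v).im⟩ := by
          apply Complex.ext <;> simp [← hvy]
        have c1 : ∀ a ∈ Icc (h v).im ((h v).im + t1), (⟨x', a⟩ : ℂ) ∈ Y := by
          intro a ha
          rcases ha.2.lt_or_eq with hlt | heq
          · have := hVY (hin1 (a - (h v).im) ⟨by linarith [ha.1], by linarith⟩)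
            rwa [hp1, add_sub_cancel] at this
          · rw [hp1] at hY1
            rwa [heq]
        have c2 : ∀ a ∈ Icc ((h v).im - t2) (h v).im, (⟨x', a⟩ : ℂ) ∈ Y := by
          intro a ha
          rcases ha.1.lt_or_eq with hlt | heq
          · have := hVY (hin2 ((h v).im - a) ⟨by linarith [ha.2], by linarith⟩)
            rwa [hp2, sub_sub_cancel] at this
          · rw [hp2] at hY2
            rwa [← heq]
        have i1 := (hy _ _ (by linarith) c1).2
        have i2 := (hy _ _ (by linarith) c2).2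
        have hW : MeasurableSet {a : ℝ | (⟨x', a⟩ : ℂ) ∈ h '' ball x (2 * s)} := by
          exact (hVo.preimage (cont_mkr x')).measurableSet
        have hle := line_est (fun a => f ⟨x', a⟩) (fun a => fy ⟨x', a⟩)
          {a : ℝ | (⟨x', a⟩ : ℂ) ∈ h '' ball x (2 * s)} (h v).im t1 t2 s hs.le ht1 ht2
          (by
            intro a ha
            have := hin1 (a - (h v).im) ⟨by linarith [ha.1], by linarith [ha.2]⟩
            rwa [hp1, add_sub_cancel] at this)
          (by
            intro a ha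
            have := hin2 ((h v).im - a) ⟨by linarith [ha.2], by linarith [ha.1]⟩
            rwa [hp2, sub_sub_cancel] at this)
          i1 i2
          (by rw [hp1] at hn1; rw [hp0] at hn1; simpa using hn1)
          (by rw [hp2] at hn2; rw [hp0] at hn2; rw [norm_sub_rev]; simpa using hn2)
        refine hle.trans (le_of_eq ?_)
        rw [← lintegral_indicator hW]
        rfl
    _ ≤ ∫⁻ x' : ℝ, ∫⁻ y : ℝ,
          (h '' ball x (2 * s)).indicator (fun z => ‖fy z‖ₑ) ⟨x', y⟩ :=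
        setLIntegral_le_lintegral _ _

end InvAux

open InvAux in
theorem specInv1 (hACL : SpecACL) : SpecInv1 := by
  intro Y X f h fx fy hI hwd x s hs hb w hw w' hw'
  obtain ⟨hH, hV⟩ := hACL Y f fx fy hI.oY hI.cf hwd
  have a1 := horiz hI hH hwd.mx hs hb hw hw'
  have a2 := vert hI hV hwd.my hs hb hw hw'
  rw [lintegral_add_left hwd.mx.enorm]
  have hn : ‖h w - h w'‖ ≤ |(h w).im - (h w').im| + |(h w).re - (h w').re| := by
    have := Complex.norm_le_abs_re_add_abs_im (h w - h w')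
    rw [Complex.sub_re, Complex.sub_im] at this
    linarith
  calc ENNReal.ofReal (2 * s * ‖h w - h w'‖)
      ≤ ENNReal.ofReal (2 * s * |(h w).im - (h w').im| + 2 * s * |(h w).re - (h w').re|) := by
        apply ENNReal.ofReal_le_ofReal
        rw [← mul_add]
        exact mul_le_mul_of_nonneg_left hn (by linarith)
    _ = ENNReal.ofReal (2 * s * |(h w).im - (h w').im|) +
        ENNReal.ofReal (2 * s * |(h w).re - (h w').re|) :=
        ENNReal.ofReal_add (by positivity) (by positivity)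
    _ ≤ _ := add_le_add a1 a2

end MPfa
end

section
/-!
Problem MP_fa0334_an, module INV2: the oscillation of the inverse of a homeomorphism of finite
distortion is controlled by the integral of the distortion.
-/
set_option autoImplicit false

open MeasureTheory Set Filter Topology Metric Complex
open scoped ContDiff ENNReal ComplexConjugate

namespace MPfa

namespace InvAux

lemma lmap_apply (a b m : ℂ) : lmap a b m = (m.re : ℂ) * a + (m.im : ℂ) * b := by
  simp [lmap]

lemma det_lmap (a b : ℂ) : (lmap a b).det = jac a b := by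
  have h : LinearMap.det ((lmap a b : ℂ →L[ℝ] ℂ) : ℂ →ₗ[ℝ] ℂ) =
      (LinearMap.toMatrix Complex.basisOneI Complex.basisOneI
        ((lmap a b : ℂ →L[ℝ] ℂ) : ℂ →ₗ[ℝ] ℂ)).det :=
    (LinearMap.det_toMatrix Complex.basisOneI _).symm
  show LinearMap.det ((lmap a b : ℂ →L[ℝ] ℂ) : ℂ →ₗ[ℝ] ℂ) = jac a b
  rw [h, Matrix.det_fin_two]
  simp [LinearMap.toMatrix_apply, lmap_apply, jac]
  ring

/-- homeomorphisms with weak derivatives satisfy the boundary principle -/
lemma mon_f (hBPH : SpecBPH) {Y X : Set ℂ} {f h fx fy : ℂ → ℂ} (hI : Inv Y X f h)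
    (hwd : WD Y f fx fy) : Mon Y f fx fy :=
  ⟨hI.oY, hI.cf, hwd, hBPH Y f hI.oY hI.cf fun _ hD hO => open_f hI hD hO⟩

lemma mon_h (hBPH : SpecBPH) {Y X : Set ℂ} {f h hx hy : ℂ → ℂ} (hI : Inv Y X f h)
    (hwd : WD X h hx hy) : Mon X h hx hy :=
  ⟨hI.oX, hI.ch, hwd, hBPH X h hI.oX hI.ch fun _ hD hO => open_h hI hD hO⟩

/-- measurable subset of full measure -/
lemma full_sub {S : Set ℂ} (hS : MeasurableSet S) {P : ℂ → Prop}
    (hP : ∀ᵐ z ∂(volume.restrict S), P z) :
    ∃ T ⊆ S, MeasurableSet T ∧ (∀ z ∈ T, P z) ∧ volume (S \ T) = 0 := by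
  rw [ae_restrict_iff' hS] at hP
  have h0 : volume {z | ¬ (z ∈ S → P z)} = 0 := hP
  set B := toMeasurable volume {z | ¬ (z ∈ S → P z)} with hB
  have hB0 : volume B = 0 := by rw [hB, measure_toMeasurable, h0]
  refine ⟨S \ B, sdiff_subset, hS.diff (measurableSet_toMeasurable _ _), ?_, ?_⟩
  · intro z hz
    by_contra hc
    exact hz.2 (subset_toMeasurable _ _ (fun h => hc (h hz.1)))
  · refine measure_mono_null ?_ hB0
    intro z hz
    by_contra hc
    exact hz.2 ⟨hz.1, hc⟩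

/-- the area inequality for homeomorphisms -/
lemma area_le (hDiff : SpecDiff) (hBPH : SpecBPH) {Y X : Set ℂ} {f h fx fy : ℂ → ℂ}
    (hI : Inv Y X f h) (hwd : WD Y f fx fy) {V : Set ℂ} (hV : V ⊆ Y) (hVm : MeasurableSet V) :
    ∫⁻ z in V, ENNReal.ofReal |jac (fx z) (fy z)| ≤ volume (f '' V) := by
  have hd := hDiff Y f fx fy (mon_f hBPH hI hwd)
  have hd' : ∀ᵐ z ∂(volume.restrict V), HasFDerivAt f (lmap (fx z) (fy z)) z :=
    ae_restrict_of_ae_restrict_of_subset hV hd
  obtain ⟨T, hTV, hTm, hT, hT0⟩ := full_sub hVm hd'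
  have hinj : InjOn f T := by
    intro a ha b hb hab
    rw [← hI.hf a (hV (hTV ha)), ← hI.hf b (hV (hTV hb)), hab]
  have harea := lintegral_abs_det_fderiv_eq_addHaar_image volume hTm
    (fun z hz => (hT z hz).hasFDerivWithinAt (s := T)) hinj
  have hVT : V =ᵐ[volume] T := by
    rw [ae_eq_set]
    exact ⟨hT0, by rw [sdiff_eq_empty.mpr hTV]; simp⟩
  rw [setLIntegral_congr hVT]
  simp only [det_lmap] at harea
  rw [harea]
  exact measure_mono (image_mono hTV)

/-- Cauchy-Schwarz -/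
lemma cs_two {α : Type*} [MeasurableSpace α] (μ : Measure α) (f g : α → ℝ≥0∞)
    (hf : AEMeasurable f μ) (hg : AEMeasurable g μ) :
    (∫⁻ a, f a * g a ∂μ) ^ 2 ≤ (∫⁻ a, f a ^ 2 ∂μ) * ∫⁻ a, g a ^ 2 ∂μ := by
  have h := ENNReal.lintegral_mul_le_Lp_mul_Lq μ Real.HolderConjugate.two_two hf hg
  have h2 := ENNReal.pow_le_pow_left h (n := 2)
  simp only [Pi.mul_apply] at h2
  refine h2.trans (le_of_eq ?_)
  rw [mul_pow]
  have e : ∀ x : ℝ≥0∞, (x ^ (1 / 2 : ℝ)) ^ 2 = x := by
    intro x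
    rw [← ENNReal.rpow_natCast, ← ENNReal.rpow_mul]
    norm_num
  have e2 : ∀ x : ℝ≥0∞, x ^ (2 : ℝ) = x ^ 2 := by
    intro x
    rw [← ENNReal.rpow_natCast]
    norm_num
  rw [e, e]
  simp only [e2]

lemma KK_jac {a b : ℂ} (h : 0 < jac a b) : KK a b * jac a b = n2 a b := by
  rw [KK, if_pos h, div_mul_cancel₀ _ h.ne']

lemma n2_nonneg (a b : ℂ) : 0 ≤ n2 a b := by
  unfold n2
  positivity

lemma KK_nonneg (a b : ℂ) : 0 ≤ KK a b := by
  unfold KK
  split_ifs with h
  · exact div_nonneg (n2_nonneg a b) h.le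
  · exact zero_le_one

/-- `|a| + |b| ≤ 2 √K √J` -/
lemma norm_le_KJ {a b : ℂ} (h : 0 < jac a b ∨ (a = 0 ∧ b = 0)) :
    ‖a‖ + ‖b‖ ≤ 2 * (Real.sqrt (KK a b) * Real.sqrt |jac a b|) := by
  rcases h with h | ⟨rfl, rfl⟩
  · rw [← Real.sqrt_mul (KK_nonneg a b), abs_of_pos h, KK_jac h]
    have h1 : (‖a‖ + ‖b‖) ^ 2 ≤ 4 * n2 a b := by
      unfold n2
      nlinarith [sq_nonneg (‖a‖ - ‖b‖)]
    have h2 : ‖a‖ + ‖b‖ ≤ Real.sqrt (4 * n2 a b) := Real.le_sqrt_of_sq_le h1
    rw [Real.sqrt_mul (by norm_num)] at h2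
    have h3 : Real.sqrt 4 = 2 := by
      rw [show (4 : ℝ) = 2 ^ 2 by norm_num]
      exact Real.sqrt_sq (by norm_num)
    rwa [h3] at h2
  · simp
    positivity

end InvAux

open InvAux in
theorem specInv2 (hAlg : SpecAlg) (hInv1 : SpecInv1) (hDiff : SpecDiff) (hBPH : SpecBPH) :
    SpecInv2 := by
  intro Y X f h fx fy hI hFD x s hs hb w hw w' hw'
  have hbs : ball x (2 * s) ⊆ X := ball_subset_closedBall.trans hb
  have hVo : IsOpen (h '' ball x (2 * s)) := open_h hI hbs isOpen_ball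
  have hVY : h '' ball x (2 * s) ⊆ Y := by
    rw [image_h hI hbs]
    exact inter_subset_left
  set V := h '' ball x (2 * s) with hV
  have h1 := hInv1 Y X f h fx fy hI hFD.wd x s hs hb w hw w' hw'
  have harea := area_le hDiff hBPH hI hFD.wd hVY hVo.measurableSet
  have hfV : f '' V = ball x (2 * s) := by
    rw [hV, image_image]
    have : EqOn (fun a => f (h a)) id (ball x (2 * s)) := fun a ha => hI.fh a (hbs ha)
    rw [this.image_eq, image_id]
  rw [hfV, Complex.volume_ball] at harea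
  have hmK : Measurable fun z => KK (fx z) (fy z) :=
    hAlg.meas_KK.comp (hFD.wd.mx.prodMk hFD.wd.my)
  have hmJ : Measurable fun z => jac (fx z) (fy z) :=
    hAlg.meas_jac.comp (hFD.wd.mx.prodMk hFD.wd.my)
  have h2 : ∫⁻ z in V, (‖fx z‖ₑ + ‖fy z‖ₑ) ≤ ∫⁻ z in V, 2 *
      (ENNReal.ofReal (Real.sqrt (KK (fx z) (fy z))) *
        ENNReal.ofReal (Real.sqrt |jac (fx z) (fy z)|)) := by
    apply lintegral_mono_ae
    have := ae_restrict_of_ae_restrict_of_subset hVY hFD.fd
    filter_upwards [this] with z hz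
    have h3 := norm_le_KJ hz
    rw [← ofReal_norm, ← ofReal_norm, ← ENNReal.ofReal_add (norm_nonneg _) (norm_nonneg _)]
    refine (ENNReal.ofReal_le_ofReal h3).trans (le_of_eq ?_)
    rw [ENNReal.ofReal_mul (by norm_num), ENNReal.ofReal_mul (Real.sqrt_nonneg _)]
    norm_num
  have h4 : (∫⁻ z in V, (‖fx z‖ₑ + ‖fy z‖ₑ)) ^ 2 ≤ 4 *
      ((∫⁻ z in V, ENNReal.ofReal (KK (fx z) (fy z))) *
        ∫⁻ z in V, ENNReal.ofReal |jac (fx z) (fy z)|) := by
    rw [lintegral_const_mul' _ _ (by norm_num)] at h2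
    have h5 := cs_two (volume.restrict V)
      (fun z => ENNReal.ofReal (Real.sqrt (KK (fx z) (fy z))))
      (fun z => ENNReal.ofReal (Real.sqrt |jac (fx z) (fy z)|))
      hmK.sqrt.ennreal_ofReal.aemeasurable
      (Measurable.abs hmJ).sqrt.ennreal_ofReal.aemeasurable
    have h6 : ∀ z, ENNReal.ofReal (Real.sqrt (KK (fx z) (fy z))) ^ 2 =
        ENNReal.ofReal (KK (fx z) (fy z)) := by
      intro z
      rw [← ENNReal.ofReal_pow (Real.sqrt_nonneg _), Real.sq_sqrt (KK_nonneg _ _)]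
    have h7 : ∀ z, ENNReal.ofReal (Real.sqrt |jac (fx z) (fy z)|) ^ 2 =
        ENNReal.ofReal |jac (fx z) (fy z)| := by
      intro z
      rw [← ENNReal.ofReal_pow (Real.sqrt_nonneg _), Real.sq_sqrt (abs_nonneg _)]
    simp only [h6, h7] at h5
    refine (ENNReal.pow_le_pow_left h2 (n := 2)).trans ?_
    rw [mul_pow]
    have : (2 : ℝ≥0∞) ^ 2 = 4 := by norm_num
    rw [this]
    gcongr
  -- combine
  have hs2 : ENNReal.ofReal (2 * s * ‖h w - h w'‖) ^ 2 ≤ 4 *
      ((∫⁻ z in V, ENNReal.ofReal (KK (fx z) (fy z))) *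
        (ENNReal.ofReal (2 * s) ^ 2 * ENNReal.ofReal Real.pi)) := by
    refine (ENNReal.pow_le_pow_left h1 (n := 2)).trans (h4.trans ?_)
    gcongr
    refine harea.trans (le_of_eq ?_)
    congr 1
    simp [ENNReal.ofReal, Real.toNNReal_of_nonneg Real.pi_pos.le]
    rfl
  have hpos : ENNReal.ofReal (2 * s) ^ 2 ≠ 0 := by
    have : ENNReal.ofReal (2 * s) ≠ 0 := by
      rw [Ne, ENNReal.ofReal_eq_zero, not_le]
      linarith
    exact pow_ne_zero 2 this
  have htop : ENNReal.ofReal (2 * s) ^ 2 ≠ ⊤ := ENNReal.pow_ne_top ENNReal.ofReal_ne_top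
  have hfin : ENNReal.ofReal (2 * s) ^ 2 * ENNReal.ofReal (‖h w - h w'‖ ^ 2) ≤
      ENNReal.ofReal (2 * s) ^ 2 * (ENNReal.ofReal (4 * Real.pi) *
        ∫⁻ z in V, ENNReal.ofReal (KK (fx z) (fy z))) := by
    have e1 : ENNReal.ofReal (2 * s * ‖h w - h w'‖) ^ 2 =
        ENNReal.ofReal (2 * s) ^ 2 * ENNReal.ofReal (‖h w - h w'‖ ^ 2) := by
      rw [ENNReal.ofReal_mul (by linarith), mul_pow, ← ENNReal.ofReal_pow (norm_nonneg _)]
    rw [e1] at hs2
    refine hs2.trans (le_of_eq ?_)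
    have h44 : ENNReal.ofReal (4 * Real.pi) = 4 * ENNReal.ofReal Real.pi := by
      rw [ENNReal.ofReal_mul (by norm_num)]
      norm_num
    rw [h44]
    ring
  exact (ENNReal.mul_le_mul_iff_right hpos htop).mp hfin

end MPfa
end

section
/-!
Problem MP_fa0334_an, module INV3: maps whose squared oscillation is controlled by a finite measure
have square integrable weak derivatives.
-/
set_option autoImplicit false

open MeasureTheory Set Filter Topology Metric Complex
open scoped ContDiff ENNReal ComplexConjugate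

namespace MPfa

namespace InvAux

lemma prodc {X : Set ℂ} {h : ℂ → ℂ} (hX : IsOpen X) (hh : ContinuousOn h X) {ψ : ℂ → ℝ}
    (hψ : Continuous ψ) (hs : tsupport ψ ⊆ X) : Continuous fun z => ψ z • h z := by
  rw [continuous_iff_continuousAt]
  intro z
  by_cases hz : z ∈ X
  · exact hψ.continuousAt.smul (hh.continuousAt (hX.mem_nhds hz))
  · have hz' : z ∉ tsupport ψ := fun hc => hz (hs hc)
    have h0 : (fun z => ψ z • h z) =ᶠ[𝓝 z] fun _ => 0 := by
      have := (isClosed_tsupport ψ).isOpen_compl.mem_nhds hz'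
      filter_upwards [this] with w hw
      have : ψ w = 0 := image_eq_zero_of_notMem_tsupport hw
      simp [this]
    exact continuousAt_const.congr h0.symm

lemma prodc_cs {ψ : ℂ → ℝ} {h : ℂ → ℂ} (hc : HasCompactSupport ψ) :
    HasCompactSupport fun z => ψ z • h z := hc.smul_right

/-- Tonelli for the measure of balls -/
lemma tonelli (ν : Measure ℂ) [IsFiniteMeasure ν] (K : Set ℂ) (r : ℝ) (hr : 0 ≤ r) :
    ∫⁻ z in K, ν (ball z r) ≤ ENNReal.ofReal (Real.pi * r ^ 2) * ν univ := by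
  have hm : Measurable fun p : ℂ × ℂ => (ball p.1 r).indicator (fun _ => (1 : ℝ≥0∞)) p.2 := by
    have hs : MeasurableSet {p : ℂ × ℂ | dist p.2 p.1 < r} :=
      (isOpen_lt (continuous_snd.dist continuous_fst) continuous_const).measurableSet
    have he : (fun p : ℂ × ℂ => (ball p.1 r).indicator (fun _ => (1 : ℝ≥0∞)) p.2) =
        {p : ℂ × ℂ | dist p.2 p.1 < r}.indicator fun _ => 1 := by
      funext p
      by_cases hp : dist p.2 p.1 < r
      · have h1 : p.2 ∈ ball p.1 r := hp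
        have h2 : p ∈ {p : ℂ × ℂ | dist p.2 p.1 < r} := hp
        rw [indicator_of_mem h1, indicator_of_mem h2]
      · have h1 : p.2 ∉ ball p.1 r := hp
        have h2 : p ∉ {p : ℂ × ℂ | dist p.2 p.1 < r} := hp
        rw [indicator_of_notMem h1, indicator_of_notMem h2]
    rw [he]
    exact measurable_const.indicator hs
  calc ∫⁻ z in K, ν (ball z r) ≤ ∫⁻ z, ν (ball z r) := setLIntegral_le_lintegral _ _
    _ = ∫⁻ z, ∫⁻ x, (ball z r).indicator (fun _ => (1 : ℝ≥0∞)) x ∂ν := by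
        apply lintegral_congr
        intro z
        rw [lintegral_indicator measurableSet_ball]
        simp
    _ = ∫⁻ x, (∫⁻ z : ℂ, (ball z r).indicator (fun _ => (1 : ℝ≥0∞)) x) ∂ν :=
        lintegral_lintegral_swap hm.aemeasurable
    _ = ∫⁻ _, ENNReal.ofReal (Real.pi * r ^ 2) ∂ν := by
        apply lintegral_congr
        intro x
        have he : (fun z : ℂ => (ball z r).indicator (fun _ => (1 : ℝ≥0∞)) x) =
            (ball x r).indicator fun _ => 1 := by
          funext z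
          by_cases hp : dist x z < r
          · have h1 : x ∈ ball z r := hp
            have h2 : z ∈ ball x r := by rwa [mem_ball, dist_comm]
            rw [indicator_of_mem h1, indicator_of_mem h2]
          · have h1 : x ∉ ball z r := hp
            have h2 : z ∉ ball x r := by rwa [mem_ball, dist_comm]
            rw [indicator_of_notMem h1, indicator_of_notMem h2]
        rw [he, lintegral_indicator measurableSet_ball]
        simp only [lintegral_const, MeasurableSet.univ, Measure.restrict_apply, univ_inter, one_mul]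
        rw [Complex.volume_ball, mul_comm, ENNReal.ofReal_mul Real.pi_pos.le,
          ENNReal.ofReal_pow hr]
        congr 1
        simp [ENNReal.ofReal, Real.toNNReal_of_nonneg Real.pi_pos.le]
        rfl
    _ = _ := by rw [lintegral_const]

lemma lint_sq {X : Set ℂ} {φ : ℂ → ℝ} (hφ : Test X φ) :
    ∫⁻ z in tsupport φ, ‖φ z‖ₑ ^ 2 = ENNReal.ofReal (∫ z, φ z ^ 2) := by
  have hφc : Continuous φ := hφ.sm.continuous
  have hi : Integrable (fun z => φ z ^ 2) := by
    apply Continuous.integrable_of_hasCompactSupport (by fun_prop)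
    exact hφ.cs.comp_left (g := fun x : ℝ => x ^ 2) (by simp)
  rw [ofReal_integral_eq_lintegral_ofReal hi (Eventually.of_forall fun z => sq_nonneg _)]
  rw [← lintegral_indicator (isClosed_tsupport φ).measurableSet]
  apply lintegral_congr
  intro z
  by_cases hz : z ∈ tsupport φ
  · rw [indicator_of_mem hz, ← ofReal_norm, ← ENNReal.ofReal_pow (norm_nonneg _),
      Real.norm_eq_abs, sq_abs]
  · rw [indicator_of_notMem hz, image_eq_zero_of_notMem_tsupport hz]
    simp

/-- the difference quotient estimate -/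
lemma diffquot {X : Set ℂ} {h : ℂ → ℂ} {ν : Measure ℂ} [IsFiniteMeasure ν] (hX : IsOpen X)
    (hh : ContinuousOn h X) (hosc : ∀ (x : ℂ) (s : ℝ), 0 < s → closedBall x (2 * s) ⊆ X →
      ∀ w ∈ ball x s, ∀ w' ∈ ball x s, ENNReal.ofReal (‖h w - h w'‖ ^ 2) ≤ ν (ball x (2 * s)))
    {e : ℂ} (he : ‖e‖ = 1) {φ : ℂ → ℝ} (hφ : Test X φ) {δ : ℝ}
    (hδ : ∀ z ∈ tsupport φ, closedBall z δ ⊆ X) {t : ℝ} (ht : 0 < t) (htδ : 4 * t ≤ δ) :
    ‖∫ z, ((φ (z + t * e) - φ z) / t) • h z‖ ^ 2 ≤
      16 * Real.pi * (ν univ).toReal * ∫ z, φ z ^ 2 := by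
  set K := tsupport φ with hK
  have hKc : IsCompact K := hφ.cs
  have hφc : Continuous φ := hφ.sm.continuous
  have hte : ‖(t : ℂ) * e‖ = t := by
    rw [norm_mul, he, mul_one, Complex.norm_real, Real.norm_of_nonneg ht.le]
  -- the shifted product
  have hshift : Continuous fun z => φ (z + t * e) • h z := by
    apply prodc hX hh (hφc.comp (continuous_id.add continuous_const))
    intro z hz
    have h1 : z + t * e ∈ K := by
      have hsub : tsupport (fun z => φ (z + t * e)) ⊆ (fun z => z + t * e) ⁻¹' K := by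
        apply closure_minimal
        · intro w hw
          exact subset_tsupport φ hw
        · exact (isClosed_tsupport φ).preimage (continuous_id.add continuous_const)
      exact hsub hz
    apply hδ _ h1
    rw [mem_closedBall, dist_eq_norm]
    have : z - (z + t * e) = -((t : ℂ) * e) := by ring
    rw [this, norm_neg, hte]
    linarith
  have hshift_cs : HasCompactSupport fun z => φ (z + t * e) • h z := by
    apply prodc_cs
    exact hφ.cs.comp_homeomorph (Homeomorph.addRight ((t : ℂ) * e))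
  have hI1 : Integrable fun z => φ (z + t * e) • h z := hshift.integrable_of_hasCompactSupport
    hshift_cs
  have hI0 : Integrable fun z => φ z • h z :=
    (prodc hX hh hφc hφ.su).integrable_of_hasCompactSupport (prodc_cs hφ.cs)
  have hI2 : Integrable fun z => φ z • h (z - t * e) := by
    have := hI1.comp_sub_right ((t : ℂ) * e)
    simpa using this
  have hE : ∫ z, φ (z + t * e) • h z = ∫ z, φ z • h (z - t * e) := by
    have := integral_add_right_eq_self (μ := (volume : Measure ℂ))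
      (fun z => φ z • h (z - t * e)) ((t : ℂ) * e)
    simpa using this
  have hint : ∫ z, ((φ (z + t * e) - φ z) / t) • h z =
      (1 / t) • ∫ z, φ z • (h (z - t * e) - h z) := by
    have h1 : ∀ z, ((φ (z + t * e) - φ z) / t) • h z =
        (1 / t) • (φ (z + t * e) • h z - φ z • h z) := by
      intro z
      rw [← sub_smul, smul_smul]
      congr 1
      ring
    simp only [h1]
    rw [integral_smul, integral_sub hI1 hI0, hE, ← integral_sub hI2 hI0]
    simp only [smul_sub]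
  -- the estimate
  have hzero : ∀ z, z ∉ K → φ z = 0 := fun z hz => image_eq_zero_of_notMem_tsupport hz
  have b1 : ‖∫ z, φ z • (h (z - t * e) - h z)‖ₑ ≤
      ∫⁻ z in K, ‖φ z‖ₑ * ‖h (z - t * e) - h z‖ₑ := by
    calc ‖∫ z, φ z • (h (z - t * e) - h z)‖ₑ
        = ‖∫ z in K, φ z • (h (z - t * e) - h z)‖ₑ := by
          rw [setIntegral_eq_integral_of_forall_compl_eq_zero]
          intro z hz
          rw [hzero z hz, zero_smul]
      _ ≤ ∫⁻ z in K, ‖φ z • (h (z - t * e) - h z)‖ₑ := enorm_integral_le_lintegral_enorm _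
      _ = _ := by simp only [enorm_smul]
  have hKX : K ⊆ X := hφ.su
  have hcont2 : ContinuousOn (fun z => h (z - t * e) - h z) K := by
    apply ContinuousOn.sub _ (hh.mono hKX)
    apply hh.comp (by fun_prop)
    intro z hz
    apply hδ z hz
    rw [mem_closedBall, dist_eq_norm]
    have : z - t * e - z = -((t : ℂ) * e) := by ring
    rw [this, norm_neg, hte]
    linarith
  have b2 := cs_two (volume.restrict K) (fun z => ‖φ z‖ₑ) (fun z => ‖h (z - t * e) - h z‖ₑ)
    hφc.measurable.enorm.aemeasurable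
    ((hcont2.aemeasurable hKc.measurableSet).enorm)
  have b3 : ∫⁻ z in K, ‖h (z - t * e) - h z‖ₑ ^ 2 ≤
      ENNReal.ofReal (Real.pi * (4 * t) ^ 2) * ν univ := by
    refine le_trans ?_ (tonelli ν K (4 * t) (by linarith))
    apply setLIntegral_mono' hKc.measurableSet
    intro z hz
    have h1 := hosc z (2 * t) (by linarith) (by
      refine (closedBall_subset_closedBall ?_).trans (hδ z hz)
      linarith) (z - t * e) (by
      rw [mem_ball, dist_eq_norm]
      have : z - t * e - z = -((t : ℂ) * e) := by ring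
      rw [this, norm_neg, hte]
      linarith) z (mem_ball_self (by linarith))
    rw [← ofReal_norm, ← ENNReal.ofReal_pow (norm_nonneg _)]
    have h4 : 2 * (2 * t) = 4 * t := by ring
    rwa [h4] at h1
  have b4 := lint_sq hφ
  have hφ2 : 0 ≤ ∫ z, φ z ^ 2 := integral_nonneg fun z => sq_nonneg _
  have b5 : ENNReal.ofReal (‖∫ z, φ z • (h (z - t * e) - h z)‖ ^ 2) ≤
      ENNReal.ofReal ((∫ z, φ z ^ 2) * (Real.pi * (4 * t) ^ 2 * (ν univ).toReal)) := by
    calc ENNReal.ofReal (‖∫ z, φ z • (h (z - t * e) - h z)‖ ^ 2)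
        = ‖∫ z, φ z • (h (z - t * e) - h z)‖ₑ ^ 2 := by
          rw [ENNReal.ofReal_pow (norm_nonneg _), ofReal_norm]
      _ ≤ (∫⁻ z in K, ‖φ z‖ₑ * ‖h (z - t * e) - h z‖ₑ) ^ 2 := ENNReal.pow_le_pow_left b1
      _ ≤ _ := b2
      _ ≤ ENNReal.ofReal (∫ z, φ z ^ 2) * (ENNReal.ofReal (Real.pi * (4 * t) ^ 2) * ν univ) := by
          rw [b4]
          gcongr
      _ = _ := by
          have hq : 0 ≤ Real.pi * (4 * t) ^ 2 := by positivity
          rw [ENNReal.ofReal_mul hφ2, ENNReal.ofReal_mul (p := Real.pi * (4 * t) ^ 2) hq,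
            ENNReal.ofReal_toReal (measure_ne_top _ _)]
  rw [ENNReal.ofReal_le_ofReal_iff (by positivity)] at b5
  rw [hint, norm_smul, mul_pow]
  calc ‖(1 / t : ℝ)‖ ^ 2 * ‖∫ z, φ z • (h (z - t * e) - h z)‖ ^ 2
      ≤ ‖(1 / t : ℝ)‖ ^ 2 * ((∫ z, φ z ^ 2) * (Real.pi * (4 * t) ^ 2 * (ν univ).toReal)) := by
        gcongr
    _ = _ := by
        rw [Real.norm_eq_abs, sq_abs]
        field_simp
        ring

/-- the bound for the weak derivative -/
lemma weakbound {X : Set ℂ} {h : ℂ → ℂ} {ν : Measure ℂ} [IsFiniteMeasure ν] (hX : IsOpen X)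
    (hh : ContinuousOn h X) (hosc : ∀ (x : ℂ) (s : ℝ), 0 < s → closedBall x (2 * s) ⊆ X →
      ∀ w ∈ ball x s, ∀ w' ∈ ball x s, ENNReal.ofReal (‖h w - h w'‖ ^ 2) ≤ ν (ball x (2 * s)))
    {e : ℂ} (he : ‖e‖ = 1) {φ : ℂ → ℝ} (hφ : Test X φ) :
    ‖∫ z, (fderiv ℝ φ z e) • h z‖ ^ 2 ≤ 16 * Real.pi * (ν univ).toReal * ∫ z, φ z ^ 2 := by
  set K := tsupport φ with hK
  have hKc : IsCompact K := hφ.cs
  have hφc : Continuous φ := hφ.sm.continuous
  obtain ⟨δ, hδ0, hδ⟩ := hKc.exists_cthickening_subset_open hX hφ.su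
  have hball : ∀ z ∈ K, closedBall z δ ⊆ X := fun z hz =>
    (closedBall_subset_cthickening hz δ).trans hδ
  set K' := cthickening δ K with hK'
  have hK'c : IsCompact K' := hKc.cthickening
  obtain ⟨M, hM⟩ := hK'c.exists_bound_of_continuousOn (hh.mono hδ)
  have hdiff : Differentiable ℝ φ := hφ.sm.differentiable (by simp)
  -- Lipschitz bound
  obtain ⟨L, hL⟩ : ∃ L, ∀ z, ‖fderiv ℝ φ z‖ ≤ L := by
    have hcd : Continuous (fderiv ℝ φ) := hφ.sm.continuous_fderiv (by simp)
    exact hcd.bounded_above_of_compact_support (hφ.cs.fderiv (𝕜 := ℝ))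
  have hlip : ∀ z w, |φ z - φ w| ≤ L * ‖z - w‖ := by
    intro z w
    have := Convex.norm_image_sub_le_of_norm_fderiv_le (𝕜 := ℝ) (f := φ) (C := L) (s := univ)
      (fun x _ => hdiff x) (fun x _ => hL x) convex_univ (mem_univ w) (mem_univ z)
    simpa using this
  have hL0 : 0 ≤ L := (norm_nonneg _).trans (hL 0)
  have hte : ∀ t : ℝ, 0 < t → ‖(t : ℂ) * e‖ = t := fun t ht => by
    rw [norm_mul, he, mul_one, Complex.norm_real, Real.norm_of_nonneg ht.le]
  -- convergence of the difference quotients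
  have hev : ∀ᶠ t : ℝ in 𝓝[>] 0, 0 < t ∧ 4 * t ≤ δ := by
    have h1 : ∀ᶠ t : ℝ in 𝓝[>] 0, t ∈ Ioo 0 (δ / 4) :=
      Ioo_mem_nhdsGT (by linarith)
    filter_upwards [h1] with t ht
    exact ⟨ht.1, by linarith [ht.2]⟩
  have hlim : Tendsto (fun t : ℝ => ∫ z, ((φ (z + t * e) - φ z) / t) • h z) (𝓝[>] 0)
      (𝓝 (∫ z, (fderiv ℝ φ z e) • h z)) := by
    apply tendsto_integral_filter_of_dominated_convergence
      (K'.indicator fun _ => L * M)
    · filter_upwards [hev] with t ht
      apply Continuous.aestronglyMeasurable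
      apply prodc hX hh (by fun_prop)
      intro z hz
      have hsub : tsupport (fun z => (φ (z + t * e) - φ z) / t) ⊆ K' := by
        apply closure_minimal _ isClosed_cthickening
        intro w hw
        rw [Function.mem_support] at hw
        by_cases hwK : w ∈ K
        · exact self_subset_cthickening K hwK
        · have h1 : φ w = 0 := image_eq_zero_of_notMem_tsupport hwK
          have h2 : w + t * e ∈ K := by
            by_contra hc
            apply hw
            rw [h1, image_eq_zero_of_notMem_tsupport hc]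
            simp
          apply closedBall_subset_cthickening h2 δ
          rw [mem_closedBall, dist_eq_norm]
          have : w - (w + t * e) = -((t : ℂ) * e) := by ring
          rw [this, norm_neg, hte t ht.1]
          linarith [ht.1, ht.2]
      exact hδ (hsub hz)
    · filter_upwards [hev] with t ht
      refine Eventually.of_forall fun z => ?_
      by_cases hz : z ∈ K'
      · rw [indicator_of_mem hz, norm_smul, Real.norm_eq_abs, abs_div, abs_of_pos ht.1]
        have h1 := hlip (z + t * e) z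
        rw [add_sub_cancel_left, hte t ht.1] at h1
        have h2 := hM z hz
        have h3 : |φ (z + t * e) - φ z| / t ≤ L := by
          rw [div_le_iff₀ ht.1]
          exact h1
        exact mul_le_mul h3 h2 (norm_nonneg _) hL0
      · rw [indicator_of_notMem hz]
        have h1 : z ∉ K := fun hc => hz (self_subset_cthickening K hc)
        have h2 : z + t * e ∉ K := by
          intro hc
          apply hz
          apply closedBall_subset_cthickening hc δ
          rw [mem_closedBall, dist_eq_norm]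
          have : z - (z + t * e) = -((t : ℂ) * e) := by ring
          rw [this, norm_neg, hte t ht.1]
          linarith [ht.1, ht.2]
        rw [image_eq_zero_of_notMem_tsupport h1, image_eq_zero_of_notMem_tsupport h2]
        simp
    · exact (integrable_indicator_iff hK'c.measurableSet).mpr
        (integrableOn_const hK'c.measure_lt_top.ne)
    · refine Eventually.of_forall fun z => ?_
      apply Tendsto.smul_const
      have h1 : HasDerivAt (fun t : ℝ => φ (z + t * e)) (fderiv ℝ φ z e) 0 := by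
        have hf : HasFDerivAt φ (fderiv ℝ φ z) (z + ((0 : ℝ) : ℂ) * e) := by
          simpa using (hdiff z).hasFDerivAt
        have hg : HasDerivAt (fun t : ℝ => z + (t : ℂ) * e) e 0 := by
          have := (((hasDerivAt_id (0 : ℝ)).ofReal_comp).mul_const e).const_add z
          simpa using this
        exact hf.comp_hasDerivAt (0 : ℝ) hg
      have h2 := h1.tendsto_slope_zero_right
      refine h2.congr fun t => ?_
      simp [div_eq_inv_mul]
  have hlim2 := (hlim.norm).pow 2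
  apply le_of_tendsto hlim2
  filter_upwards [hev] with t ht
  exact diffquot hX hh hosc he hφ hball ht.1 ht.2

lemma li_of_sq {X : Set ℂ} {k : ℂ → ℂ} (hk : Measurable k) (h2 : ∫⁻ z in X, ‖k z‖ₑ ^ 2 < ⊤) :
    LI X k := by
  intro K hK hKc
  refine ⟨hk.aestronglyMeasurable, ?_⟩
  rw [HasFiniteIntegral]
  calc ∫⁻ z in K, ‖k z‖ₑ ≤ ∫⁻ z in K, (1 + ‖k z‖ₑ ^ 2) := by
        apply lintegral_mono
        intro z
        rcases le_total (‖k z‖ₑ) 1 with h | h
        · exact h.trans le_self_add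
        · calc ‖k z‖ₑ = ‖k z‖ₑ * 1 := (mul_one _).symm
            _ ≤ ‖k z‖ₑ * ‖k z‖ₑ := by gcongr
            _ = ‖k z‖ₑ ^ 2 := (sq _).symm
            _ ≤ _ := le_add_self
    _ = volume K + ∫⁻ z in K, ‖k z‖ₑ ^ 2 := by
        rw [lintegral_add_left measurable_const]
        simp
    _ < ⊤ := ENNReal.add_lt_top.mpr ⟨hKc.measure_lt_top,
        lt_of_le_of_lt (lintegral_mono_set hK) h2⟩

end InvAux

open InvAux in
theorem specInv3 (hRz : SpecRz) : SpecInv3 := by
  intro X h ν hX hh hν hosc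
  have : IsFiniteMeasure ν := ⟨hν⟩
  have hLI : LI X h := fun K hK hKc => (hh.mono hK).integrableOn_compact hKc
  have hC : 0 ≤ 16 * Real.pi * (ν univ).toReal := by positivity
  obtain ⟨kx, mx, sx, ix⟩ := hRz X h 1 _ hX hLI hC
    (fun φ hφ => weakbound hX hh hosc (e := 1) (by simp) hφ)
  obtain ⟨ky, my, sy, iy⟩ := hRz X h I _ hX hLI hC
    (fun φ hφ => weakbound hX hh hosc (e := I) (by simp) hφ)
  refine ⟨kx, ky, ⟨mx, my, hLI, li_of_sq mx (sx.trans_lt ENNReal.ofReal_lt_top),
    li_of_sq my (sy.trans_lt ENNReal.ofReal_lt_top), ix, iy⟩, ?_⟩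
  rw [lintegral_add_left (mx.enorm.pow_const 2)]
  exact ENNReal.add_lt_top.mpr ⟨sx.trans_lt ENNReal.ofReal_lt_top,
    sy.trans_lt ENNReal.ofReal_lt_top⟩

end MPfa
end

section
/-!
Problem MP_fa0334_an, modules INV4 and INV: the energy of the inverse map.
-/
set_option autoImplicit false

open MeasureTheory Set Filter Topology Metric Complex
open scoped ContDiff ENNReal ComplexConjugate

namespace MPfa

namespace InvAux

/-- measurable modification of a map which is continuous on an open set -/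
lemma meas_mod {Y : Set ℂ} {f : ℂ → ℂ} (hY : IsOpen Y) (hf : ContinuousOn f Y) :
    Measurable (Y.indicator f) := by
  classical
  have : Y.indicator f = Y.piecewise f (fun _ => 0) := by
    funext z
    by_cases hz : z ∈ Y
    · simp [hz]
    · simp [hz]
  rw [this]
  exact hf.measurable_piecewise continuousOn_const hY.measurableSet

lemma meas_img {Y X : Set ℂ} {f h : ℂ → ℂ} (hI : Inv Y X f h) {D : Set ℂ} (hD : D ⊆ Y)
    (hm : MeasurableSet D) : MeasurableSet (f '' D) := by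
  have : f '' D = X ∩ (X.indicator h) ⁻¹' D := by
    rw [image_f hI hD]
    ext z
    constructor
    · rintro ⟨hz, hz'⟩
      exact ⟨hz, by simpa [hz] using hz'⟩
    · rintro ⟨hz, hz'⟩
      exact ⟨hz, by simpa [hz] using hz'⟩
  rw [this]
  exact hI.oX.measurableSet.inter (meas_mod hI.oX hI.ch hm)

/-- the distortion measure, transported to `X` -/
noncomputable def nu (Y : Set ℂ) (f fx fy : ℂ → ℂ) : Measure ℂ :=
  (ENNReal.ofReal (4 * Real.pi)) •
    ((volume.restrict Y).withDensity fun z => ENNReal.ofReal (KK (fx z) (fy z))).map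
      (Y.indicator f)

lemma nu_apply {Y : Set ℂ} {f : ℂ → ℂ} (hY : IsOpen Y) (hf : ContinuousOn f Y) (fx fy : ℂ → ℂ)
    {E : Set ℂ} (hE : MeasurableSet E) : nu Y f fx fy E = ENNReal.ofReal (4 * Real.pi) *
      ∫⁻ z in Y ∩ f ⁻¹' E, ENNReal.ofReal (KK (fx z) (fy z)) := by
  have hm := meas_mod hY hf
  rw [nu, Measure.smul_apply, smul_eq_mul, Measure.map_apply hm hE,
    withDensity_apply _ (hm hE), Measure.restrict_restrict (hm hE)]
  congr 3
  ext z
  constructor
  · rintro ⟨h1, h2⟩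
    exact ⟨h2, by simpa [h2] using h1⟩
  · rintro ⟨h1, h2⟩
    exact ⟨by simpa [h1] using h2, h1⟩

lemma nu_apply' {Y X : Set ℂ} {f h : ℂ → ℂ} (hI : Inv Y X f h) (fx fy : ℂ → ℂ)
    {E : Set ℂ} (hE : MeasurableSet E) (hEX : E ⊆ X) :
    nu Y f fx fy E = ENNReal.ofReal (4 * Real.pi) *
      ∫⁻ z in h '' E, ENNReal.ofReal (KK (fx z) (fy z)) := by
  rw [nu_apply hI.oY hI.cf fx fy hE, image_h hI hEX]

lemma nu_univ {Y X : Set ℂ} {f h : ℂ → ℂ} (hI : Inv Y X f h) (fx fy : ℂ → ℂ)
    (hK : ∫⁻ z in Y, ENNReal.ofReal (KK (fx z) (fy z)) < ⊤) : nu Y f fx fy univ < ⊤ := by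
  rw [nu_apply hI.oY hI.cf fx fy MeasurableSet.univ, preimage_univ, inter_univ]
  exact ENNReal.mul_lt_top ENNReal.ofReal_lt_top hK

lemma nu_osc (hInv2 : SpecInv2) {Y X : Set ℂ} {f h fx fy : ℂ → ℂ} (hI : Inv Y X f h)
    (hFD : FD Y f fx fy) (x : ℂ) (s : ℝ) (hs : 0 < s) (hb : closedBall x (2 * s) ⊆ X) :
    ∀ w ∈ ball x s, ∀ w' ∈ ball x s,
      ENNReal.ofReal (‖h w - h w'‖ ^ 2) ≤ nu Y f fx fy (ball x (2 * s)) := by
  intro w hw w' hw'
  rw [nu_apply' hI fx fy measurableSet_ball (ball_subset_closedBall.trans hb)]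
  exact hInv2 Y X f h fx fy hI hFD x s hs hb w hw w' hw'

/-- at points of density zero of `ν` the derivative vanishes -/
lemma deriv_zero {X : Set ℂ} {h : ℂ → ℂ} {ν : Measure ℂ} (hX : IsOpen X)
    (hosc : ∀ (x : ℂ) (s : ℝ), 0 < s → closedBall x (2 * s) ⊆ X → ∀ w ∈ ball x s,
      ∀ w' ∈ ball x s, ENNReal.ofReal (‖h w - h w'‖ ^ 2) ≤ ν (ball x (2 * s)))
    {w : ℂ} (hw : w ∈ X) {L : ℂ →L[ℝ] ℂ} (hL : HasFDerivAt h L w)
    (hd : Tendsto (fun r => ν (closedBall w r) / volume (closedBall w r)) (𝓝[>] 0) (𝓝 0))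
    {e : ℂ} (he : ‖e‖ = 1) : L e = 0 := by
  obtain ⟨ρ, hρ0, hρ⟩ := Metric.isOpen_iff.mp hX w hw
  have hlim : Tendsto (fun t : ℝ => ENNReal.ofReal (‖t⁻¹ • (h (w + t * e) - h w)‖ ^ 2)) (𝓝[>] 0)
      (𝓝 (ENNReal.ofReal (‖L e‖ ^ 2))) := by
    have h1 : HasDerivAt (fun t : ℝ => h (w + t * e)) (L e) 0 := by
      have hf : HasFDerivAt h L (w + ((0 : ℝ) : ℂ) * e) := by simpa using hL
      have hg : HasDerivAt (fun t : ℝ => w + (t : ℂ) * e) e 0 := by
        have := (((hasDerivAt_id (0 : ℝ)).ofReal_comp).mul_const e).const_add w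
        simpa using this
      exact hf.comp_hasDerivAt (0 : ℝ) hg
    have h2 := h1.tendsto_slope_zero_right
    have h3 : Tendsto (fun t : ℝ => t⁻¹ • (h (w + t * e) - h w)) (𝓝[>] 0) (𝓝 (L e)) := by
      refine h2.congr fun t => ?_
      simp
    exact ENNReal.tendsto_ofReal ((h3.norm).pow 2)
  have hlim2 : Tendsto (fun t : ℝ => ENNReal.ofReal (16 * Real.pi) *
      (ν (closedBall w (4 * t)) / volume (closedBall w (4 * t)))) (𝓝[>] 0) (𝓝 0) := by
    have h4 : Tendsto (fun t : ℝ => 4 * t) (𝓝[>] 0) (𝓝[>] 0) := by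
      apply tendsto_nhdsWithin_of_tendsto_nhds_of_eventually_within
      · have : Tendsto (fun t : ℝ => 4 * t) (𝓝 0) (𝓝 (4 * 0)) :=
          (continuous_const.mul continuous_id).tendsto 0
        rw [mul_zero] at this
        exact this.mono_left nhdsWithin_le_nhds
      · filter_upwards [self_mem_nhdsWithin] with t ht
        have h0 : 0 < t := ht
        exact mem_Ioi.mpr (by linarith)
    have h5 := ENNReal.Tendsto.const_mul (a := ENNReal.ofReal (16 * Real.pi)) (hd.comp h4)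
      (Or.inr ENNReal.ofReal_ne_top)
    simpa using h5
  have hle : ENNReal.ofReal (‖L e‖ ^ 2) ≤ 0 := by
    apply le_of_tendsto_of_tendsto hlim hlim2
    have hev : ∀ᶠ t : ℝ in 𝓝[>] 0, t ∈ Ioo 0 (ρ / 5) := Ioo_mem_nhdsGT (by linarith)
    filter_upwards [hev] with t ht
    have ht0 := ht.1
    have hte : ‖(t : ℂ) * e‖ = t := by
      rw [norm_mul, he, mul_one, Complex.norm_real, Real.norm_of_nonneg ht0.le]
    have h1 := hosc w (2 * t) (by linarith) (by
      refine (closedBall_subset_ball ?_).trans hρ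
      linarith [ht.2]) (w + t * e) (by
      rw [mem_ball, dist_eq_norm, add_sub_cancel_left, hte]
      linarith) w (mem_ball_self (by linarith))
    have h2 : 2 * (2 * t) = 4 * t := by ring
    rw [h2] at h1
    have h3 := h1.trans (measure_mono (μ := ν) ball_subset_closedBall)
    have hvol : volume (closedBall w (4 * t)) = ENNReal.ofReal (16 * Real.pi * t ^ 2) := by
      rw [Complex.volume_closedBall]
      have : 16 * Real.pi * t ^ 2 = (4 * t) ^ 2 * Real.pi := by ring
      have h44 : (0 : ℝ) ≤ 4 * t := by linarith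
      rw [this, ENNReal.ofReal_mul (p := (4 * t) ^ 2) (by positivity),
        ENNReal.ofReal_pow (p := 4 * t) h44]
      have h45 : ENNReal.ofReal Real.pi = (NNReal.pi : ℝ≥0∞) := by
        simp [ENNReal.ofReal, Real.toNNReal_of_nonneg Real.pi_pos.le]
        rfl
      rw [h45]
    have e1 : ENNReal.ofReal (‖t⁻¹ • (h (w + t * e) - h w)‖ ^ 2) =
        ENNReal.ofReal (‖h (w + t * e) - h w‖ ^ 2) / ENNReal.ofReal (t ^ 2) := by
      rw [← ENNReal.ofReal_div_of_pos (by positivity), norm_smul, mul_pow]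
      congr 1
      rw [Real.norm_eq_abs, sq_abs]
      field_simp
    rw [e1, hvol]
    have e2 : ENNReal.ofReal (16 * Real.pi) *
        (ν (closedBall w (4 * t)) / ENNReal.ofReal (16 * Real.pi * t ^ 2)) =
        ν (closedBall w (4 * t)) / ENNReal.ofReal (t ^ 2) := by
      have hp : ENNReal.ofReal (16 * Real.pi) ≠ 0 := by
        rw [Ne, ENNReal.ofReal_eq_zero, not_le]
        positivity
      rw [ENNReal.ofReal_mul (p := 16 * Real.pi) (by positivity), ← mul_div_assoc]
      exact ENNReal.mul_div_mul_left _ _ hp ENNReal.ofReal_ne_top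
    rw [e2]
    gcongr
  have h0 : ‖L e‖ ^ 2 ≤ 0 := by
    have := le_antisymm hle zero_le
    exact ENNReal.ofReal_eq_zero.mp this
  have h1 : ‖L e‖ = 0 := by nlinarith [norm_nonneg (L e)]
  exact norm_eq_zero.mp h1

lemma lmap_one (a b : ℂ) : lmap a b 1 = a := by simp [lmap_apply]
lemma lmap_I (a b : ℂ) : lmap a b I = b := by simp [lmap_apply]

lemma lmap_iv1 {a b : ℂ} (h : jac a b ≠ 0) : lmap a b (iv1 a b) = 1 := by
  rw [lmap_apply]
  apply Complex.ext
  · simp only [iv1, add_re, mul_re, ofReal_re, ofReal_im, one_re]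
    field_simp
    simp only [jac]
    ring
  · simp only [iv1, add_im, mul_im, ofReal_re, ofReal_im, one_im]
    field_simp
    ring

lemma lmap_iv2 {a b : ℂ} (h : jac a b ≠ 0) : lmap a b (iv2 a b) = I := by
  rw [lmap_apply]
  apply Complex.ext
  · simp only [iv2, add_re, mul_re, ofReal_re, ofReal_im, I_re]
    field_simp
    ring
  · simp only [iv2, add_im, mul_im, ofReal_re, ofReal_im, I_im]
    field_simp
    simp only [jac]
    ring

lemma jac_iv {a b : ℂ} (_ : jac a b ≠ 0) : jac (iv1 a b) (iv2 a b) = 1 / jac a b := by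
  simp only [iv1, iv2, jac] at *
  field_simp

lemma n2_iv {a b : ℂ} (_ : jac a b ≠ 0) : n2 (iv1 a b) (iv2 a b) = n2 a b / jac a b ^ 2 := by
  have e : ∀ z : ℂ, ‖z‖ ^ 2 = z.re ^ 2 + z.im ^ 2 := by
    intro z
    rw [← Complex.normSq_eq_norm_sq, Complex.normSq_apply]
    ring
  simp only [n2, e, iv1, iv2]
  field_simp
  ring

/-- the transformation of the energy density -/
lemma PP_iv {p : ℝ} {a b : ℂ} (h : 0 < jac a b) :
    ENNReal.ofReal |jac a b| * PP p (iv1 a b) (iv2 a b) = ENNReal.ofReal (KK a b ^ p) := by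
  have hj := jac_iv h.ne'
  have hn := n2_iv h.ne'
  have hpos : 0 < jac (iv1 a b) (iv2 a b) := by
    rw [hj]
    positivity
  have hne : ¬ (iv1 a b = 0 ∧ iv2 a b = 0) := by
    rintro ⟨h1, h2⟩
    rw [h1, h2] at hpos
    simp [jac] at hpos
  rw [PP, if_neg hne, if_pos hpos, abs_of_pos h, ← ENNReal.ofReal_mul h.le]
  congr 1
  rw [hj, hn, KK, if_pos h]
  have hJ := h
  have hN := n2_nonneg a b
  set J := jac a b with hJdef
  set N := n2 a b with hNdef
  rw [Real.div_rpow hN (by positivity), Real.div_rpow zero_le_one hJ.le, Real.one_rpow,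
    Real.div_rpow hN hJ.le, ← Real.rpow_natCast, ← Real.rpow_mul hJ.le]
  have h1 : J ^ ((2 : ℕ) * p : ℝ) = J ^ p * J ^ (p - 1) * J := by
    have h2 : ((2 : ℕ) : ℝ) * p = p + (p - 1) + 1 := by
      push_cast
      ring
    rw [h2, Real.rpow_add hJ, Real.rpow_add hJ, Real.rpow_one]
  rw [h1]
  have hJp : J ^ p ≠ 0 := (Real.rpow_pos_of_pos hJ p).ne'
  have hJp1 : J ^ (p - 1) ≠ 0 := (Real.rpow_pos_of_pos hJ (p - 1)).ne'
  field_simp

lemma PP_zero (p : ℝ) : PP p 0 0 = 0 := by simp [PP]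

/-- uniqueness of the inverse derivative -/
lemma inv_deriv {Y X : Set ℂ} {f h : ℂ → ℂ} (hI : Inv Y X f h) {z a b a' b' : ℂ} (hz : z ∈ Y)
    (hf : HasFDerivAt f (lmap a b) z) (hh : HasFDerivAt h (lmap a' b') (f z))
    (hj : jac a b ≠ 0) : a' = iv1 a b ∧ b' = iv2 a b := by
  have hcomp : HasFDerivAt (fun w => h (f w)) ((lmap a' b').comp (lmap a b)) z :=
    hh.comp z hf
  have hid : HasFDerivAt (fun w => h (f w)) (ContinuousLinearMap.id ℝ ℂ) z := by
    apply (hasFDerivAt_id z).congr_of_eventuallyEq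
    filter_upwards [hI.oY.mem_nhds hz] with w hw
    simp [hI.hf w hw]
  have he := hcomp.unique hid
  have h1 := congrArg (fun L : ℂ →L[ℝ] ℂ => L (iv1 a b)) he
  have h2 := congrArg (fun L : ℂ →L[ℝ] ℂ => L (iv2 a b)) he
  simp only [ContinuousLinearMap.comp_apply, lmap_iv1 hj, lmap_iv2 hj, lmap_one, lmap_I,
    ContinuousLinearMap.id_apply] at h1 h2
  exact ⟨h1, h2⟩

end InvAux

open InvAux in
theorem specInv4 (hInv2 : SpecInv2) (hDiff : SpecDiff) (hBPH : SpecBPH) :
    SpecInv4 := by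
  intro p hp Y X f h fx fy hx hy hI hFD hwd _ hK
  -- differentiability of `f`
  have hdf := hDiff Y f fx fy (mon_f hBPH hI hFD.wd)
  have hdh := hDiff X h hx hy (mon_h hBPH hI hwd)
  obtain ⟨T, hTY, hTm, hT, hT0⟩ := full_sub hI.oY.measurableSet (hdf.and hFD.fd)
  set A : Set ℂ := T ∩ {z | 0 < jac (fx z) (fy z)} with hA
  set B : Set ℂ := T \ {z | 0 < jac (fx z) (fy z)} with hB
  set N : Set ℂ := Y \ T with hN
  have hJm : MeasurableSet {z | 0 < jac (fx z) (fy z)} := by
    have hc : Continuous fun q : ℂ × ℂ => jac q.1 q.2 := by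
      unfold jac
      fun_prop
    exact measurableSet_lt measurable_const (hc.measurable.comp (hFD.wd.mx.prodMk hFD.wd.my))
  have hAm : MeasurableSet A := hTm.inter hJm
  have hBm : MeasurableSet B := MeasurableSet.diff hTm hJm
  have hNm : MeasurableSet N := MeasurableSet.diff hI.oY.measurableSet hTm
  have hAY : A ⊆ Y := inter_subset_left.trans hTY
  have hBY : B ⊆ Y := sdiff_subset.trans hTY
  have hNY : N ⊆ Y := sdiff_subset
  have hX : X ⊆ (f '' A ∪ f '' B) ∪ f '' N := by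
    intro w hw
    have hz : h w ∈ Y := hI.mh hw
    have hfw := hI.fh w hw
    by_cases h1 : h w ∈ T
    · left
      by_cases h2 : 0 < jac (fx (h w)) (fy (h w))
      · left
        exact ⟨h w, ⟨h1, h2⟩, hfw⟩
      · right
        exact ⟨h w, ⟨h1, h2⟩, hfw⟩
    · right
      exact ⟨h w, ⟨hz, h1⟩, hfw⟩
  have hsub : ∀ D ⊆ Y, f '' D ⊆ X := by
    rintro D hD _ ⟨z, hz, rfl⟩
    exact hI.mf (hD hz)
  -- the part `B`
  have hvB : volume (f '' B) = 0 := by
    apply addHaar_image_eq_zero_of_det_fderivWithin_eq_zero volume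
      (f' := fun z => lmap (fx z) (fy z))
    · intro z hz
      exact (hT z hz.1).1.hasFDerivWithinAt
    · intro z hz
      rw [det_lmap]
      rcases (hT z hz.1).2 with h1 | ⟨h1, h2⟩
      · exact absurd h1 hz.2
      · rw [h1, h2]
        simp [jac]
  -- the part `N`
  have hNz : ∫⁻ w in f '' N, PP p (hx w) (hy w) = 0 := by
    have hfNm := meas_img hI hNY hNm
    have hν0 : nu Y f fx fy (f '' N) = 0 := by
      rw [nu_apply' hI fx fy hfNm (hsub N hNY)]
      have : h '' (f '' N) = N := by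
        rw [image_image]
        have : EqOn (fun a => h (f a)) id N := fun a ha => hI.hf a (hNY ha)
        rw [this.image_eq, image_id]
      rw [this, setLIntegral_measure_zero _ _ hT0, mul_zero]
    have hfinν : IsFiniteMeasure (nu Y f fx fy) := ⟨nu_univ hI fx fy hK⟩
    have hrn : ∀ᵐ w ∂(volume.restrict (f '' N)), (nu Y f fx fy).rnDeriv volume w = 0 := by
      have h1 := Measure.setLIntegral_rnDeriv_le (μ := nu Y f fx fy) (ν := volume) (f '' N)
      rw [hν0] at h1
      have h2 := le_antisymm h1 zero_le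
      rw [lintegral_eq_zero_iff (Measure.measurable_rnDeriv _ _)] at h2
      exact h2
    have hbes := ae_restrict_of_ae (s := f '' N)
      (Besicovitch.ae_tendsto_rnDeriv (nu Y f fx fy) (volume : Measure ℂ))
    have hdh' := ae_restrict_of_ae_restrict_of_subset (hsub N hNY) hdh
    rw [lintegral_congr_ae (g := fun _ => 0), lintegral_zero]
    have hmem : ∀ᵐ w ∂(volume.restrict (f '' N)), w ∈ f '' N := ae_restrict_mem hfNm
    filter_upwards [hrn, hbes, hdh', hmem] with w h1 h2 h3 h4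
    rw [h1] at h2
    have hwX := hsub N hNY h4
    have hosc := nu_osc hInv2 hI hFD
    have e1 := deriv_zero hI.oX hosc hwX h3 h2 (e := 1) (by simp)
    have e2 := deriv_zero hI.oX hosc hwX h3 h2 (e := I) (by simp)
    rw [lmap_one] at e1
    rw [lmap_I] at e2
    rw [e1, e2, PP_zero]
  -- the part `A`
  have hAle : ∫⁻ w in f '' A, PP p (hx w) (hy w) ≤
      ∫⁻ z in Y, ENNReal.ofReal (KK (fx z) (fy z) ^ p) := by
    have hfAm := meas_img hI hAY hAm
    have hdh' := ae_restrict_of_ae_restrict_of_subset (hsub A hAY) hdh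
    have hmem : ∀ᵐ w ∂(volume.restrict (f '' A)), w ∈ f '' A := ae_restrict_mem hfAm
    have hcongr : ∫⁻ w in f '' A, PP p (hx w) (hy w) =
        ∫⁻ w in f '' A, PP p (iv1 (fx (h w)) (fy (h w))) (iv2 (fx (h w)) (fy (h w))) := by
      apply lintegral_congr_ae
      filter_upwards [hdh', hmem] with w h1 h2
      obtain ⟨z, hz, rfl⟩ := h2
      have hzY := hAY hz
      have hj : jac (fx z) (fy z) ≠ 0 := (show 0 < jac (fx z) (fy z) from hz.2).ne'
      obtain ⟨e1, e2⟩ := inv_deriv hI hzY (hT z hz.1).1 h1 hj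
      rw [hI.hf z hzY, e1, e2]
    have hinj : InjOn f A := by
      intro a ha b hb hab
      rw [← hI.hf a (hAY ha), ← hI.hf b (hAY hb), hab]
    rw [hcongr, lintegral_image_eq_lintegral_abs_det_fderiv_mul volume hAm
      (f' := fun z => lmap (fx z) (fy z)) (fun z hz => (hT z hz.1).1.hasFDerivWithinAt) hinj]
    calc ∫⁻ z in A, ENNReal.ofReal |(lmap (fx z) (fy z)).det| *
          PP p (iv1 (fx (h (f z))) (fy (h (f z)))) (iv2 (fx (h (f z))) (fy (h (f z))))
        = ∫⁻ z in A, ENNReal.ofReal (KK (fx z) (fy z) ^ p) := by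
          apply setLIntegral_congr_fun hAm
          intro z hz
          simp only [det_lmap, hI.hf z (hAY hz)]
          exact PP_iv hz.2
      _ ≤ _ := lintegral_mono_set hAY
  calc ∫⁻ w in X, PP p (hx w) (hy w)
      ≤ ∫⁻ w in (f '' A ∪ f '' B) ∪ f '' N, PP p (hx w) (hy w) := lintegral_mono_set hX
    _ ≤ (∫⁻ w in f '' A ∪ f '' B, PP p (hx w) (hy w)) + ∫⁻ w in f '' N, PP p (hx w) (hy w) :=
        lintegral_union_le _ _ _
    _ ≤ ((∫⁻ w in f '' A, PP p (hx w) (hy w)) + ∫⁻ w in f '' B, PP p (hx w) (hy w)) +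
        ∫⁻ w in f '' N, PP p (hx w) (hy w) := by
        gcongr
        exact lintegral_union_le _ _ _
    _ = ∫⁻ w in f '' A, PP p (hx w) (hy w) := by
        rw [hNz, setLIntegral_measure_zero _ _ hvB, add_zero, add_zero]
    _ ≤ _ := hAle

open InvAux in
theorem specInv (hAlg : SpecAlg) (hInv2 : SpecInv2) (hInv3 : SpecInv3) (hInv4 : SpecInv4) :
    SpecInv := by
  intro p hp Y X f h fx fy hI hFD hE
  have hK : ∫⁻ z in Y, ENNReal.ofReal (KK (fx z) (fy z)) < ⊤ := by
    refine lt_of_le_of_lt (lintegral_mono fun z => ENNReal.ofReal_le_ofReal ?_) hE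
    have h1 := hAlg.KK_ge (fx z) (fy z)
    calc KK (fx z) (fy z) = KK (fx z) (fy z) ^ (1 : ℝ) := (Real.rpow_one _).symm
      _ ≤ _ := Real.rpow_le_rpow_of_exponent_le h1 hp.le
  obtain ⟨hx, hy, hwd, hfin⟩ := hInv3 X h (nu Y f fx fy) hI.oX hI.ch (nu_univ hI fx fy hK)
    (nu_osc hInv2 hI hFD)
  exact ⟨hx, hy, hwd, hInv4 p hp Y X f h fx fy hx hy hI hFD hwd hfin hK⟩

end MPfa
end

section
/-!
Problem MP_fa0334_an: auxiliary lemmas on test functions and weak derivatives
(used by the modules RZ, WDU, WEAK, JACW, JUSC).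
-/
set_option autoImplicit false

open MeasureTheory Set Filter Topology Metric Complex
open scoped ContDiff ENNReal ComplexConjugate

namespace MPfa

namespace Wk

variable {G : Set ℂ}

theorem tcont {φ : ℂ → ℝ} (h : Test G φ) : Continuous φ := h.sm.continuous

theorem tdcont {φ : ℂ → ℝ} (h : Test G φ) (v : ℂ) : Continuous fun z => fderiv ℝ φ z v :=
  (h.sm.continuous_fderiv (by simp)).clm_apply continuous_const

theorem tdcs {φ : ℂ → ℝ} (h : Test G φ) (v : ℂ) :
    HasCompactSupport fun z => fderiv ℝ φ z v := h.cs.fderiv_apply ℝ v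

theorem tdsu {φ : ℂ → ℝ} (h : Test G φ) (v : ℂ) :
    tsupport (fun z => fderiv ℝ φ z v) ⊆ G :=
  (tsupport_fderiv_apply_subset ℝ v).trans h.su

theorem tdif {φ : ℂ → ℝ} (h : Test G φ) : Differentiable ℝ φ :=
  h.sm.differentiable (by simp)

theorem tzero : Test G (fun _ => (0 : ℝ)) :=
  ⟨contDiff_const, HasCompactSupport.zero, by
    have : tsupport (fun _ : ℂ => (0 : ℝ)) = ∅ := tsupport_eq_empty_iff.mpr rfl
    rw [this]; exact empty_subset _⟩

theorem tadd {φ ψ : ℂ → ℝ} (h : Test G φ) (h' : Test G ψ) : Test G (fun z => φ z + ψ z) :=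
  ⟨h.sm.add h'.sm, h.cs.add h'.cs, (tsupport_add φ ψ).trans (union_subset h.su h'.su)⟩

theorem tsmul {φ : ℂ → ℝ} (c : ℝ) (h : Test G φ) : Test G (fun z => c * φ z) :=
  ⟨contDiff_const.mul h.sm, h.cs.mul_left, (tsupport_mul_subset_right).trans h.su⟩

theorem tmul {φ ψ : ℂ → ℝ} (h : Test G φ) (h' : ContDiff ℝ ∞ ψ) :
    Test G (fun z => φ z * ψ z) :=
  ⟨h.sm.mul h', h.cs.mul_right, (tsupport_mul_subset_left).trans h.su⟩

/-- integrability of a product of a locally integrable function with a continuous function of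
compact support -/
theorem int_smul {u : ℂ → ℂ} (hu : LI G u) {g : ℂ → ℝ} (hg : Continuous g)
    (hc : HasCompactSupport g) (hs : tsupport g ⊆ G) : Integrable fun z => g z • u z := by
  have h1 : IntegrableOn (fun z => g z • u z) (tsupport g) :=
    (hu _ hs hc).continuousOn_smul hg.continuousOn hc
  refine (integrableOn_iff_integrable_of_support_subset ?_).mp h1
  intro z hz
  have : g z ≠ 0 := by
    intro h0
    apply hz
    simp [h0]
  exact subset_tsupport g this

theorem tint {φ : ℂ → ℝ} (h : Test G φ) {u : ℂ → ℂ} (hu : LI G u) :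
    Integrable fun z => φ z • u z := int_smul hu (tcont h) h.cs h.su

theorem tintd {φ : ℂ → ℝ} (h : Test G φ) {u : ℂ → ℂ} (hu : LI G u) (v : ℂ) :
    Integrable fun z => fderiv ℝ φ z v • u z := int_smul hu (tdcont h v) (tdcs h v) (tdsu h v)

/-- integrals against functions with support in `G` -/
theorem int_restrict {g : ℂ → ℝ} (hs : tsupport g ⊆ G) (u : ℂ → ℂ) :
    ∫ z in G, g z • u z = ∫ z, g z • u z := by
  apply setIntegral_eq_integral_of_forall_compl_eq_zero
  intro z hz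
  have : g z = 0 := by
    by_contra h0
    exact hz (hs (subset_tsupport g h0))
  simp [this]

theorem LI.loc {u : ℂ → ℂ} (hG : IsOpen G) (hu : LI G u) : LocallyIntegrableOn u G volume := by
  rw [locallyIntegrableOn_iff hG.isLocallyClosed]
  intro K hK hK'
  exact hu K hK hK'

/-! ### cut-offs -/

theorem cutoff {X K : Set ℂ} (hX : IsOpen X) (hK : IsCompact K) (hKX : K ⊆ X) :
    ∃ χ : ℂ → ℝ, Test X χ ∧ (∀ z, 0 ≤ χ z) ∧ (∀ z, χ z ≤ 1) ∧ ∀ z ∈ K, χ z = 1 := by
  obtain ⟨L, hL, hKL, hLX⟩ := exists_compact_between hK hX hKX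
  obtain ⟨f, f1, f2, f3, f4⟩ := exists_contMDiff_support_eq_eq_one_iff (n := (⊤ : ℕ∞))
    (modelWithCornersSelf ℝ ℂ) (isOpen_interior (s := L)) hK.isClosed hKL
  have hs : tsupport f ⊆ L := by
    rw [tsupport, f3]
    exact closure_minimal interior_subset hL.isClosed
  refine ⟨f, ⟨f1.contDiff, hL.of_isClosed_subset (isClosed_tsupport f) hs, hs.trans hLX⟩,
    fun z => (f2 (mem_range_self z)).1, fun z => (f2 (mem_range_self z)).2,
    fun z hz => (f4 z).1 hz⟩

/-! ### square integrable functions -/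

variable {μ : Measure ℂ}

theorem eLp_sq {E : Type*} [NormedAddCommGroup E] (f : ℂ → E) :
    eLpNorm f 2 μ ^ 2 = ∫⁻ z, ‖f z‖ₑ ^ 2 ∂μ := by
  rw [eLpNorm_eq_lintegral_rpow_enorm_toReal (by norm_num) (by norm_num)]
  simp only [ENNReal.toReal_ofNat, ENNReal.rpow_ofNat, one_div]
  rw [← ENNReal.rpow_natCast, ← ENNReal.rpow_mul]
  simp

theorem memLp_two {E : Type*} [NormedAddCommGroup E] {f : ℂ → E} (hf : AEStronglyMeasurable f μ)
    (h : ∫⁻ z, ‖f z‖ₑ ^ 2 ∂μ < ⊤) : MemLp f 2 μ := by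
  refine ⟨hf, ?_⟩
  rw [← eLp_sq] at h
  by_contra h0
  rw [not_lt, top_le_iff] at h0
  rw [h0] at h
  simp at h

theorem memLp_two_lt {E : Type*} [NormedAddCommGroup E] {f : ℂ → E} (hf : MemLp f 2 μ) :
    ∫⁻ z, ‖f z‖ₑ ^ 2 ∂μ < ⊤ := by
  rw [← eLp_sq]
  exact ENNReal.pow_lt_top hf.2

/-- Cauchy-Schwarz -/
theorem cs {𝕜 : Type*} [NormedField 𝕜] [NormedSpace ℝ 𝕜] {f g : ℂ → 𝕜} (hf : MemLp f 2 μ)
    (hg : MemLp g 2 μ) :
    ‖∫ z, f z * g z ∂μ‖ ≤ (eLpNorm f 2 μ).toReal * (eLpNorm g 2 μ).toReal := by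
  have h1 : ‖∫ z, f z * g z ∂μ‖ₑ ≤ eLpNorm f 2 μ * eLpNorm g 2 μ := by
    refine (enorm_integral_le_lintegral_enorm _).trans ?_
    have := eLpNorm_smul_le_mul_eLpNorm (p := 2) (q := 2) (r := 1) hg.1 hf.1
    rw [eLpNorm_one_eq_lintegral_enorm] at this
    simpa using this
  have h2 : eLpNorm f 2 μ * eLpNorm g 2 μ ≠ ⊤ := ENNReal.mul_ne_top hf.2.ne hg.2.ne
  have h3 := ENNReal.toReal_mono h2 h1
  rwa [ENNReal.toReal_mul, toReal_enorm] at h3

theorem cs_int {f g : ℂ → ℂ} (hf : MemLp f 2 μ) (hg : MemLp g 2 μ) :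
    Integrable (fun z => f z * g z) μ := hf.integrable_mul hg

/-- density of the test functions in `L²` -/
theorem dense_test {X : Set ℂ} (hX : IsOpen X) {u : ℂ → ℂ} (hu : MemLp u 2 (volume.restrict X))
    {ε : ℝ} (hε : 0 < ε) :
    ∃ g : ℂ → ℂ, ContDiff ℝ ∞ g ∧ HasCompactSupport g ∧ tsupport g ⊆ X ∧
      eLpNorm (u - g) 2 (volume.restrict X) ≤ ENNReal.ofReal ε := by
  have hε2 : 0 < ε / 2 := by positivity
  -- a compact set carrying most of the mass
  obtain ⟨K, hKX, hK, hK2⟩ : ∃ K ⊆ X, IsCompact K ∧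
      eLpNorm u 2 (volume.restrict (X \ K)) ≤ ENNReal.ofReal (ε / 2) := by
    let ν : Measure ℂ := (volume.restrict X).withDensity fun z => ‖u z‖ₑ ^ 2
    have hν : IsFiniteMeasure ν := by
      apply isFiniteMeasure_withDensity
      exact (memLp_two_lt hu).ne
    have hne : ENNReal.ofReal (ε / 2) ^ 2 ≠ 0 := by
      simp only [ne_eq, pow_eq_zero_iff, OfNat.ofNat_ne_zero, not_false_eq_true,
        ENNReal.ofReal_eq_zero, not_le]
      exact hε2
    obtain ⟨K, hKX, hK, hlt⟩ := MeasurableSet.exists_isCompact_sdiff_lt (μ := ν)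
      hX.measurableSet (measure_ne_top ν X) hne
    refine ⟨K, hKX, hK, ?_⟩
    have h1 : eLpNorm u 2 (volume.restrict (X \ K)) ^ 2 < ENNReal.ofReal (ε / 2) ^ 2 := by
      rw [eLp_sq]
      have hm : MeasurableSet (X \ K) := hX.measurableSet.diff hK.measurableSet
      rw [withDensity_apply _ hm, Measure.restrict_restrict hm,
        inter_eq_self_of_subset_left sdiff_subset] at hlt
      exact hlt
    exact (ENNReal.pow_le_pow_left_iff (by norm_num)).mp h1.le
  -- approximate on `K`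
  have hu1 : MemLp (K.indicator u) 2 volume := by
    rw [memLp_indicator_iff_restrict hK.measurableSet]
    exact hu.mono_measure (Measure.restrict_mono hKX le_rfl)
  obtain ⟨g, g1, g2, g3⟩ := hu1.exist_eLpNorm_sub_le (by norm_num) (by norm_num) hε2
  obtain ⟨χ, c1, c2, c3, c4⟩ := cutoff hX hK hKX
  refine ⟨fun z => (χ z) • g z, c1.sm.smul g2, ?_, ?_, ?_⟩
  · exact c1.cs.smul_right
  · exact (tsupport_smul_subset_left χ g).trans c1.su
  · have e1 : (u - fun z => (χ z) • g z) =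
        (fun z => Kᶜ.indicator u z) + fun z => (χ z) • (K.indicator u - g) z := by
      ext z
      by_cases hz : z ∈ K
      · have : z ∉ Kᶜ := fun h => h hz
        simp [hz, c4 z hz, indicator]
      · have : z ∈ Kᶜ := hz
        simp [hz, indicator]
        ring
    rw [e1]
    have hgm : AEStronglyMeasurable (K.indicator u - g) volume :=
      hu1.1.sub g2.continuous.aestronglyMeasurable
    have m1 : AEStronglyMeasurable (fun z => Kᶜ.indicator u z) (volume.restrict X) :=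
      hu.1.indicator hK.measurableSet.compl
    have m2 : AEStronglyMeasurable (fun z => (χ z) • (K.indicator u - g) z)
        (volume.restrict X) :=
      (c1.sm.continuous.aestronglyMeasurable.smul hgm).restrict
    refine (eLpNorm_add_le m1 m2 (by norm_num)).trans ?_
    have e2 : ENNReal.ofReal ε = ENNReal.ofReal (ε / 2) + ENNReal.ofReal (ε / 2) := by
      rw [← ENNReal.ofReal_add hε2.le hε2.le]
      congr 1
      ring
    rw [e2]
    refine add_le_add ?_ ?_
    · have : (fun z => Kᶜ.indicator u z) = Kᶜ.indicator u := rfl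
      rw [this, eLpNorm_indicator_eq_eLpNorm_restrict hK.measurableSet.compl,
        Measure.restrict_restrict hK.measurableSet.compl, inter_comm, ← sdiff_eq]
      exact hK2
    · refine le_trans ?_ g3
      refine (eLpNorm_mono_measure _ Measure.restrict_le_self).trans ?_
      apply eLpNorm_mono
      intro z
      rw [norm_smul, Real.norm_eq_abs, abs_of_nonneg (c2 z)]
      exact mul_le_of_le_one_left (norm_nonneg _) (c3 z)

/-- weak convergence in `L²` from convergence against test functions -/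
theorem weak_of_test {X : Set ℂ} (hX : IsOpen X) {f : ℕ → ℂ → ℂ} {g : ℂ → ℂ} {B : ℝ}
    (hf : ∀ n, MemLp (f n) 2 (volume.restrict X)) (hg : MemLp g 2 (volume.restrict X))
    (hB : ∀ n, (eLpNorm (f n) 2 (volume.restrict X)).toReal ≤ B)
    (ht : ∀ φ : ℂ → ℝ, Test X φ → Tendsto (fun n => ∫ z, φ z • f n z) atTop
      (𝓝 (∫ z, φ z • g z)))
    {u : ℂ → ℂ} (hu : MemLp u 2 (volume.restrict X)) :
    Tendsto (fun n => ∫ z in X, u z * f n z) atTop (𝓝 (∫ z in X, u z * g z)) := by
  rw [Metric.tendsto_atTop]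
  intro ε hε
  set B' : ℝ := |B| + (eLpNorm g 2 (volume.restrict X)).toReal + 1 with hB'
  have hB'0 : 0 < B' := by positivity
  obtain ⟨η, n1, n2, n3, n4⟩ := dense_test hX hu (ε := ε / (4 * B')) (by positivity)
  have hη : MemLp η 2 (volume.restrict X) :=
    (n1.continuous.memLp_of_hasCompactSupport n2).restrict X
  -- the parts of `η`
  have t1 : Test X fun z => (η z).re :=
    ⟨Complex.reCLM.contDiff.comp n1, n2.comp_left (g := Complex.re) rfl,
      (tsupport_comp_subset (g := Complex.re) rfl η).trans n3⟩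
  have t2 : Test X fun z => (η z).im :=
    ⟨Complex.imCLM.contDiff.comp n1, n2.comp_left (g := Complex.im) rfl,
      (tsupport_comp_subset (g := Complex.im) rfl η).trans n3⟩
  have LI2 : ∀ w : ℂ → ℂ, MemLp w 2 (volume.restrict X) → LI X w := by
    intro w hw K hK hK'
    have h1 : MemLp w 2 (volume.restrict K) := hw.mono_measure (Measure.restrict_mono hK le_rfl)
    have : IsFiniteMeasure (volume.restrict K) := ⟨by
      rw [Measure.restrict_apply_univ]; exact hK'.measure_lt_top⟩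
    exact h1.integrable (by norm_num)
  have split : ∀ w : ℂ → ℂ, MemLp w 2 (volume.restrict X) →
      ∫ z in X, η z * w z = (∫ z, (η z).re • w z) + I * ∫ z, (η z).im • w z := by
    intro w hw
    have h1 := tint t1 (LI2 w hw)
    have h2 := tint t2 (LI2 w hw)
    rw [← int_restrict (g := fun z => (η z).re) t1.su w,
      ← int_restrict (g := fun z => (η z).im) t2.su w, ← integral_const_mul,
      ← integral_add h1.restrict (h2.const_mul I).restrict]
    congr 1
    ext z
    simp only [Complex.real_smul]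
    rw [← mul_assoc, mul_comm I, ← add_mul, Complex.re_add_im]
  -- convergence for `η`
  have c1 : Tendsto (fun n => ∫ z in X, η z * f n z) atTop (𝓝 (∫ z in X, η z * g z)) := by
    have h1 := ht _ t1
    have h2 := ht _ t2
    have h3 := h1.add (h2.const_mul I)
    rw [split g hg]
    simp_rw [fun n => split (f n) (hf n)]
    exact h3
  rw [Metric.tendsto_atTop] at c1
  obtain ⟨N, hN⟩ := c1 (ε / 4) (by positivity)
  refine ⟨N, fun n hn => ?_⟩
  have hd := hN n hn
  -- the remaining parts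
  have huη : MemLp (u - η) 2 (volume.restrict X) := hu.sub hη
  have hsmall : (eLpNorm (u - η) 2 (volume.restrict X)).toReal ≤ ε / (4 * B') := by
    have := ENNReal.toReal_mono ENNReal.ofReal_ne_top n4
    rwa [ENNReal.toReal_ofReal (by positivity)] at this
  have r1 : ∀ w : ℂ → ℂ, MemLp w 2 (volume.restrict X) →
      (eLpNorm w 2 (volume.restrict X)).toReal ≤ B' →
      ‖(∫ z in X, u z * w z) - ∫ z in X, η z * w z‖ ≤ ε / 4 := by
    intro w hw hwB
    rw [← integral_sub (cs_int hu hw) (cs_int hη hw)]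
    have : (fun z => u z * w z - η z * w z) = fun z => (u - η) z * w z := by
      ext z
      simp [sub_mul]
    rw [this]
    refine (cs huη hw).trans ?_
    calc (eLpNorm (u - η) 2 (volume.restrict X)).toReal *
          (eLpNorm w 2 (volume.restrict X)).toReal
        ≤ (ε / (4 * B')) * B' := by gcongr
      _ = ε / 4 := by field_simp
  have hBB : B ≤ B' := by
    have := le_abs_self B
    have h0 : 0 ≤ (eLpNorm g 2 (volume.restrict X)).toReal := ENNReal.toReal_nonneg
    rw [hB']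
    linarith
  have hgB : (eLpNorm g 2 (volume.restrict X)).toReal ≤ B' := by
    have := abs_nonneg B
    rw [hB']
    linarith
  have a1 := r1 (f n) (hf n) ((hB n).trans hBB)
  have a2 := r1 g hg hgB
  rw [dist_eq_norm] at hd ⊢
  calc ‖(∫ z in X, u z * f n z) - ∫ z in X, u z * g z‖
      = ‖((∫ z in X, u z * f n z) - ∫ z in X, η z * f n z)
        + ((∫ z in X, η z * f n z) - ∫ z in X, η z * g z)
        - ((∫ z in X, u z * g z) - ∫ z in X, η z * g z)‖ := by
          congr 1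
          ring
    _ ≤ ‖((∫ z in X, u z * f n z) - ∫ z in X, η z * f n z)
        + ((∫ z in X, η z * f n z) - ∫ z in X, η z * g z)‖
        + ‖(∫ z in X, u z * g z) - ∫ z in X, η z * g z‖ := norm_sub_le _ _
    _ ≤ ‖(∫ z in X, u z * f n z) - ∫ z in X, η z * f n z‖
        + ‖(∫ z in X, η z * f n z) - ∫ z in X, η z * g z‖
        + ‖(∫ z in X, u z * g z) - ∫ z in X, η z * g z‖ := by gcongr; exact norm_add_le _ _
    _ < ε := by linarith

theorem LI_of_L2 {X : Set ℂ} {w : ℂ → ℂ} (hw : MemLp w 2 (volume.restrict X)) : LI X w := by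
  intro K hK hK'
  have h1 : MemLp w 2 (volume.restrict K) := hw.mono_measure (Measure.restrict_mono hK le_rfl)
  have : IsFiniteMeasure (volume.restrict K) := ⟨by
    rw [Measure.restrict_apply_univ]; exact hK'.measure_lt_top⟩
  exact h1.integrable (by norm_num)

/-- a locally square integrable function is square integrable on compact sets -/
theorem memLp_of_L2loc {X K : Set ℂ} {w : ℂ → ℂ} (hm : Measurable w) (h : L2loc X w)
    (hK : K ⊆ X) (hK' : IsCompact K) : MemLp w 2 (volume.restrict K) :=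
  memLp_two hm.aestronglyMeasurable (h K hK hK')

/-- the `L²` norms under a bound for the energy -/
theorem energy_fst {X : Set ℂ} {a b : ℂ → ℂ} (ha : Measurable a) {M : ℝ≥0∞} (hM : M < ⊤)
    (h : ∫⁻ z in X, (‖a z‖ₑ ^ 2 + ‖b z‖ₑ ^ 2) ≤ M) :
    MemLp a 2 (volume.restrict X) ∧
      (eLpNorm a 2 (volume.restrict X)).toReal ^ 2 ≤ M.toReal := by
  have h1 : ∫⁻ z in X, ‖a z‖ₑ ^ 2 ≤ M :=
    (lintegral_mono fun z => le_self_add).trans h
  refine ⟨memLp_two ha.aestronglyMeasurable (h1.trans_lt hM), ?_⟩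
  rw [← ENNReal.toReal_pow, eLp_sq]
  exact ENNReal.toReal_mono hM.ne h1

theorem energy_snd {X : Set ℂ} {a b : ℂ → ℂ} (hb : Measurable b) {M : ℝ≥0∞} (hM : M < ⊤)
    (h : ∫⁻ z in X, (‖a z‖ₑ ^ 2 + ‖b z‖ₑ ^ 2) ≤ M) :
    MemLp b 2 (volume.restrict X) ∧
      (eLpNorm b 2 (volume.restrict X)).toReal ^ 2 ≤ M.toReal := by
  have h1 : ∫⁻ z in X, ‖b z‖ₑ ^ 2 ≤ M :=
    (lintegral_mono fun z => le_add_self).trans h
  refine ⟨memLp_two hb.aestronglyMeasurable (h1.trans_lt hM), ?_⟩
  rw [← ENNReal.toReal_pow, eLp_sq]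
  exact ENNReal.toReal_mono hM.ne h1

/-- convergence of the integrals of a uniformly convergent sequence against a continuous function
with compact support -/
theorem unif_int {X : Set ℂ} {k : ℕ → ℂ → ℂ} {h : ℂ → ℂ} (hk : ∀ n, LI X (k n)) (hh : LI X h)
    (hu : TendstoUniformlyOn k h atTop X) {g : ℂ → ℝ} (hg : Continuous g)
    (hc : HasCompactSupport g) (hs : tsupport g ⊆ X) :
    Tendsto (fun n => ∫ z, g z • k n z) atTop (𝓝 (∫ z, g z • h z)) := by
  rw [Metric.tendsto_atTop]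
  intro ε hε
  have hgi : Integrable g := hg.integrable_of_hasCompactSupport hc
  set A : ℝ := ∫ z, |g z| with hA
  have hA0 : 0 ≤ A := integral_nonneg fun z => abs_nonneg _
  have := (Metric.tendstoUniformlyOn_iff.mp hu) (ε / (2 * (A + 1))) (by positivity)
  obtain ⟨N, hN⟩ := eventually_atTop.mp this
  refine ⟨N, fun n hn => ?_⟩
  rw [dist_eq_norm, ← integral_sub (int_smul (hk n) hg hc hs) (int_smul hh hg hc hs)]
  have h1 : ‖∫ z, (g z • k n z - g z • h z)‖ ≤ ∫ z, |g z| * (ε / (2 * (A + 1))) := by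
    apply norm_integral_le_of_norm_le (hgi.abs.mul_const _)
    filter_upwards with z
    rw [← smul_sub, norm_smul, Real.norm_eq_abs]
    by_cases hz : g z = 0
    · simp [hz]
    · have hzX : z ∈ X := hs (subset_tsupport g hz)
      have := hN n hn z hzX
      rw [dist_comm, dist_eq_norm] at this
      gcongr
  refine h1.trans_lt ?_
  rw [integral_mul_const, ← hA]
  calc A * (ε / (2 * (A + 1))) = (A / (A + 1)) * (ε / 2) := by field_simp
    _ ≤ 1 * (ε / 2) := by
        gcongr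
        rw [div_le_one (by positivity)]
        linarith
    _ < ε := by linarith

/-- products of strongly convergent sequences in `L²` -/
theorem tendsto_int_mul {f g : ℕ → ℂ → ℝ} {f' g' : ℂ → ℝ} (hf : ∀ n, MemLp (f n) 2 μ)
    (hg : ∀ n, MemLp (g n) 2 μ) (hf' : MemLp f' 2 μ) (hg' : MemLp g' 2 μ)
    (h1 : Tendsto (fun n => eLpNorm (f n - f') 2 μ) atTop (𝓝 0))
    (h2 : Tendsto (fun n => eLpNorm (g n - g') 2 μ) atTop (𝓝 0)) :
    Tendsto (fun n => ∫ z, f n z * g n z ∂μ) atTop (𝓝 (∫ z, f' z * g' z ∂μ)) := by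
  have t1 := (Lp.tendsto_Lp_iff_tendsto_eLpNorm'' f hf f' hf').mpr h1
  have t2 := (Lp.tendsto_Lp_iff_tendsto_eLpNorm'' g hg g' hg').mpr h2
  have t3 := t1.inner (𝕜 := ℝ) t2
  have key : ∀ (a b : ℂ → ℝ) (ha : MemLp a 2 μ) (hb : MemLp b 2 μ),
      inner ℝ (ha.toLp a) (hb.toLp b) = ∫ z, a z * b z ∂μ := by
    intro a b ha hb
    rw [L2.inner_def]
    apply integral_congr_ae
    filter_upwards [ha.coeFn_toLp, hb.coeFn_toLp] with z hz1 hz2
    rw [hz1, hz2]
    simp [mul_comm]
  rw [key] at t3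
  simp_rw [key] at t3
  exact t3

end Wk

/-- A15 -/
theorem specWDU : SpecWDU := by
  intro G F Fx Fy Gx Gy hG h1 h2
  have key : ∀ A B : ℂ → ℂ, LI G A → LI G B →
      (∀ φ : ℂ → ℝ, Test G φ → ∫ z, φ z • A z = ∫ z, φ z • B z) →
      ∀ᵐ z ∂volume, z ∈ G → A z = B z := by
    intro A B hA hB hAB
    have hAB' : LI G (fun z => A z - B z) := fun K hK hK' => (hA K hK hK').sub (hB K hK hK')
    have := hG.ae_eq_zero_of_integral_contDiff_smul_eq_zero (Wk.LI.loc hG hAB') (by
      intro g g1 g2 g3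
      have ht : Test G g := ⟨g1, g2, g3⟩
      have : ∫ z, g z • (A z - B z) = ∫ z, (g z • A z - g z • B z) := by
        congr 1
        ext z
        rw [smul_sub]
      rw [this, integral_sub (Wk.tint ht hA) (Wk.tint ht hB), hAB g ht, sub_self])
    filter_upwards [this] with z hz hzG
    exact sub_eq_zero.mp (hz hzG)
  have e1 := key Fx Gx h1.lx h2.lx (by
    intro φ hφ
    have := (h1.ix φ hφ).symm.trans (h2.ix φ hφ)
    exact neg_injective this)
  have e2 := key Fy Gy h1.ly h2.ly (by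
    intro φ hφ
    have := (h1.iy φ hφ).symm.trans (h2.iy φ hφ)
    exact neg_injective this)
  rw [ae_restrict_iff' hG.measurableSet]
  filter_upwards [e1, e2] with z h1 h2 hz
  exact ⟨h1 hz, h2 hz⟩

end MPfa
end

section
/-!
Problem MP_fa0334_an, module JACW: the weak form of the Jacobian.
-/
set_option autoImplicit false

open MeasureTheory Set Filter Topology Metric Complex
open scoped ContDiff ENNReal ComplexConjugate

namespace MPfa

namespace JacWM

/-- integration by parts for smooth functions -/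
theorem ibp {g u : ℂ → ℝ} (v : ℂ) (hg : ContDiff ℝ 1 g) (hc : HasCompactSupport g)
    (hu : ContDiff ℝ 1 u) : ∫ z, g z * fderiv ℝ u z v = - ∫ z, fderiv ℝ g z v * u z := by
  have cg : Continuous fun z => fderiv ℝ g z v :=
    (hg.continuous_fderiv (by simp)).clm_apply continuous_const
  have cu : Continuous fun z => fderiv ℝ u z v :=
    (hu.continuous_fderiv (by simp)).clm_apply continuous_const
  refine integral_mul_fderiv_eq_neg_fderiv_mul_of_integrable ?_ ?_ ?_ ?_ ?_
  · exact (cg.mul hu.continuous).integrable_of_hasCompactSupport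
      ((hc.fderiv_apply ℝ v).mul_right)
  · exact (hg.continuous.mul cu).integrable_of_hasCompactSupport hc.mul_right
  · exact (hg.continuous.mul hu.continuous).integrable_of_hasCompactSupport hc.mul_right
  · intro z _
    exact hg.differentiable (by simp) z
  · intro z _
    exact hu.differentiable (by simp) z

theorem fderiv_swap {w : ℂ → ℝ} (hw : ContDiff ℝ ∞ w) (a b z : ℂ) :
    fderiv ℝ (fun z => fderiv ℝ w z a) z b = fderiv ℝ (fun z => fderiv ℝ w z b) z a := by
  have hd : DifferentiableAt ℝ (fderiv ℝ w) z :=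
    ((hw.fderiv_right (m := 1) (by norm_cast)).differentiable (by simp)) z
  have h1 : ∀ c : ℂ, fderiv ℝ (fun z => fderiv ℝ w z c) z =
      (ContinuousLinearMap.apply ℝ ℝ c).comp (fderiv ℝ (fderiv ℝ w) z) := by
    intro c
    exact ((ContinuousLinearMap.apply ℝ ℝ c).hasFDerivAt.comp z hd.hasFDerivAt).fderiv
  have h2 : IsSymmSndFDerivAt ℝ w z := by
    apply ContDiffAt.isSymmSndFDerivAt (n := ∞) hw.contDiffAt
    simp only [minSmoothness_of_isRCLikeNormedField]
    norm_cast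
  rw [h1, h1]
  simpa using h2 b a

/-- the smooth identity -/
theorem smooth {f : ℂ → ℂ} (hf : ContDiff ℝ ∞ f) {φ : ℂ → ℝ} (hφ : ContDiff ℝ ∞ φ)
    (hc : HasCompactSupport φ) :
    ∫ z, φ z * jac (fderiv ℝ f z 1) (fderiv ℝ f z I) =
      - ∫ z, (f z).re * (fderiv ℝ φ z 1 * (fderiv ℝ f z I).im
        - fderiv ℝ φ z I * (fderiv ℝ f z 1).im) := by
  set u : ℂ → ℝ := fun z => (f z).re with hu
  set w : ℂ → ℝ := fun z => (f z).im with hw
  have su : ContDiff ℝ ∞ u := Complex.reCLM.contDiff.comp hf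
  have sw : ContDiff ℝ ∞ w := Complex.imCLM.contDiff.comp hf
  have du : ∀ z v, (fderiv ℝ f z v).re = fderiv ℝ u z v := by
    intro z v
    have := (Complex.reCLM.hasFDerivAt.comp z
      (hf.differentiable (by simp) z).hasFDerivAt).fderiv
    have h2 : fderiv ℝ u z = Complex.reCLM.comp (fderiv ℝ f z) := this
    rw [h2]
    simp
  have dw : ∀ z v, (fderiv ℝ f z v).im = fderiv ℝ w z v := by
    intro z v
    have := (Complex.imCLM.hasFDerivAt.comp z
      (hf.differentiable (by simp) z).hasFDerivAt).fderiv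
    have h2 : fderiv ℝ w z = Complex.imCLM.comp (fderiv ℝ f z) := this
    rw [h2]
    simp
  have sd : ∀ v : ℂ, ContDiff ℝ ∞ fun z => fderiv ℝ w z v := fun v =>
    (sw.fderiv_right (m := ∞) (by norm_cast)).clm_apply contDiff_const
  have s1 : ∀ v : ℂ, ContDiff ℝ 1 fun z => φ z * fderiv ℝ w z v := fun v =>
    (hφ.mul (sd v)).of_le (by exact_mod_cast le_top)
  have c1 : ∀ v : ℂ, HasCompactSupport fun z => φ z * fderiv ℝ w z v := fun v => hc.mul_right
  have su1 : ContDiff ℝ 1 u := su.of_le (by exact_mod_cast le_top)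
  have i1 := ibp 1 (s1 I) (c1 I) su1
  have i2 := ibp I (s1 1) (c1 1) su1
  have cont_d : ∀ (g : ℂ → ℝ), ContDiff ℝ 1 g → ∀ v : ℂ, Continuous fun z => fderiv ℝ g z v :=
    fun g hg v => (hg.continuous_fderiv (by simp)).clm_apply continuous_const
  have int1 : ∀ a b : ℂ, Integrable fun z => φ z * fderiv ℝ w z a * fderiv ℝ u z b := by
    intro a b
    exact ((s1 a).continuous.mul (cont_d u su1 b)).integrable_of_hasCompactSupport
      (c1 a).mul_right
  have int2 : ∀ a b : ℂ, Integrable fun z => fderiv ℝ (fun z => φ z * fderiv ℝ w z a) z b * u z := by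
    intro a b
    exact ((cont_d _ (s1 a) b).mul su.continuous).integrable_of_hasCompactSupport
      (((c1 a).fderiv_apply ℝ b).mul_right)
  have e1 : ∫ z, φ z * jac (fderiv ℝ f z 1) (fderiv ℝ f z I) =
      (∫ z, φ z * fderiv ℝ w z I * fderiv ℝ u z 1) - ∫ z, φ z * fderiv ℝ w z 1 * fderiv ℝ u z I := by
    rw [← integral_sub (int1 I 1) (int1 1 I)]
    congr 1
    ext z
    simp only [jac, du, dw]
    ring
  rw [e1, i1, i2, neg_sub_neg, ← integral_sub (int2 1 I) (int2 I 1), ← integral_neg]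
  congr 1
  ext z
  have hφd : DifferentiableAt ℝ φ z := hφ.differentiable (by simp) z
  have hwd : ∀ a : ℂ, DifferentiableAt ℝ (fun z => fderiv ℝ w z a) z := fun a =>
    (sd a).differentiable (by simp) z
  have pr : ∀ a b : ℂ, fderiv ℝ (fun z => φ z * fderiv ℝ w z a) z b =
      fderiv ℝ φ z b * fderiv ℝ w z a + φ z * fderiv ℝ (fun z => fderiv ℝ w z a) z b := by
    intro a b
    have := (hφd.hasFDerivAt.mul (hwd a).hasFDerivAt).fderiv
    have h2 : fderiv ℝ (fun z => φ z * fderiv ℝ w z a) z =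
      φ z • fderiv ℝ (fun z => fderiv ℝ w z a) z + fderiv ℝ w z a • fderiv ℝ φ z := this
    rw [h2]
    simp
    ring
  rw [pr, pr, fderiv_swap sw 1 I z]
  simp only [dw]
  ring

end JacWM

/-- A13 -/
theorem specJacW (hMoll : SpecMoll) : SpecJacW := by
  intro G F Fx Fy hG hF hd h2x h2y φ hφ
  obtain ⟨f, f1, f2, -, -, f3, f4⟩ := hMoll G F Fx Fy (tsupport φ) hG hF hd hφ.cs hφ.su
  replace f3 := f3 h2x
  replace f4 := f4 h2y
  set K := tsupport φ with hK
  set μ : Measure ℂ := volume.restrict K with hμ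
  have hKc : IsCompact K := hφ.cs
  have hfin : IsFiniteMeasure μ := ⟨by
    rw [hμ, Measure.restrict_apply_univ]; exact hKc.measure_lt_top⟩
  -- `L²` properties
  have mFx : MemLp Fx 2 μ := Wk.memLp_of_L2loc hd.mx h2x hφ.su hKc
  have mFy : MemLp Fy 2 μ := Wk.memLp_of_L2loc hd.my h2y hφ.su hKc
  have cfv : ∀ n (v : ℂ), Continuous fun z => fderiv ℝ (f n) z v := fun n v =>
    ((f1 n).continuous_fderiv (by simp)).clm_apply continuous_const
  have memc : ∀ (g : ℂ → ℂ), Continuous g → MemLp g 2 μ := by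
    intro g hg
    obtain ⟨C, hC⟩ := hKc.exists_bound_of_continuousOn hg.continuousOn
    refine MemLp.of_bound hg.aestronglyMeasurable C ?_
    rw [hμ, ae_restrict_iff' hKc.measurableSet]
    exact Eventually.of_forall hC
  have memF : MemLp F 2 μ := by
    have hFK : ContinuousOn F K := hF.mono hφ.su
    obtain ⟨C, hC⟩ := hKc.exists_bound_of_continuousOn hFK
    refine MemLp.of_bound (hFK.aestronglyMeasurable hKc.measurableSet) C ?_
    rw [hμ, ae_restrict_iff' hKc.measurableSet]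
    exact Eventually.of_forall hC
  -- convergence of the derivatives
  have conv : ∀ (g : ℕ → ℂ → ℂ) (g' : ℂ → ℂ),
      Tendsto (fun n => ∫⁻ z in K, ‖g n z - g' z‖ₑ ^ 2) atTop (𝓝 0) →
      Tendsto (fun n => eLpNorm (g n - g') 2 μ) atTop (𝓝 0) := by
    intro g g' h
    have h1 : ∀ n, eLpNorm (g n - g') 2 μ = (∫⁻ z in K, ‖g n z - g' z‖ₑ ^ 2) ^ (1 / 2 : ℝ) := by
      intro n
      rw [eLpNorm_eq_lintegral_rpow_enorm_toReal (by norm_num) (by norm_num)]
      simp [hμ]
    simp_rw [h1]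
    have h2 := (ENNReal.continuous_rpow_const (y := (1 / 2 : ℝ))).tendsto 0
    have h3 := h2.comp h
    have h4 : (0 : ℝ≥0∞) ^ (1 / 2 : ℝ) = 0 := ENNReal.zero_rpow_of_pos (by norm_num)
    rw [h4] at h3
    exact h3
  have cx := conv _ _ f3
  have cy := conv _ _ f4
  -- uniform convergence
  have cu : Tendsto (fun n => eLpNorm (f n - F) 2 μ) atTop (𝓝 0) := by
    rw [ENNReal.tendsto_atTop_zero]
    intro ε hε
    by_cases hεt : ε = ⊤
    · exact ⟨0, fun n _ => by rw [hεt]; exact le_top⟩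
    have hA : (μ univ) ^ (1 / 2 : ℝ) ≠ ⊤ :=
      (ENNReal.rpow_lt_top_of_nonneg (by norm_num) (measure_ne_top μ univ)).ne
    set A : ℝ := ((μ univ) ^ (1 / 2 : ℝ)).toReal with hAdef
    have hA0 : 0 ≤ A := ENNReal.toReal_nonneg
    have hε' : 0 < ε.toReal := ENNReal.toReal_pos hε.ne' hεt
    have := (Metric.tendstoUniformlyOn_iff.mp f2) (ε.toReal / (A + 1)) (by positivity)
    obtain ⟨N, hN⟩ := eventually_atTop.mp this
    refine ⟨N, fun n hn => ?_⟩
    have hb : ∀ᵐ z ∂μ, ‖(f n - F) z‖ ≤ ε.toReal / (A + 1) := by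
      rw [hμ, ae_restrict_iff' hKc.measurableSet]
      refine Eventually.of_forall fun z hz => ?_
      have := hN n hn z hz
      rw [dist_comm, dist_eq_norm] at this
      exact this.le
    refine (eLpNorm_le_of_ae_bound hb).trans ?_
    have h2 : ((2 : ℝ≥0∞).toReal)⁻¹ = (1 / 2 : ℝ) := by norm_num
    rw [h2, ← ENNReal.ofReal_toReal hA, ← hAdef, ← ENNReal.ofReal_mul hA0]
    refine (ENNReal.ofReal_le_ofReal ?_).trans (ENNReal.ofReal_toReal hεt).le
    calc A * (ε.toReal / (A + 1)) = (A / (A + 1)) * ε.toReal := by field_simp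
      _ ≤ 1 * ε.toReal := by
        gcongr
        rw [div_le_one (by positivity)]
        linarith
      _ = ε.toReal := one_mul _
  -- real and imaginary parts, multiplied by a bounded function
  have part : ∀ (L : ℂ →L[ℝ] ℝ) (ψ : ℂ → ℝ), Continuous ψ → (∀ z, |L z| ≤ ‖z‖) →
      ∀ (g : ℕ → ℂ → ℂ) (g' : ℂ → ℂ), (∀ n, MemLp (g n) 2 μ) → MemLp g' 2 μ →
      Tendsto (fun n => eLpNorm (g n - g') 2 μ) atTop (𝓝 0) →
      (∀ n, MemLp (fun z => ψ z * L (g n z)) 2 μ) ∧ MemLp (fun z => ψ z * L (g' z)) 2 μ ∧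
      Tendsto (fun n => eLpNorm ((fun z => ψ z * L (g n z)) - fun z => ψ z * L (g' z)) 2 μ)
        atTop (𝓝 0) := by
    intro L ψ hψ hL g g' hg hg' hc
    obtain ⟨C, hC⟩ := hKc.exists_bound_of_continuousOn hψ.continuousOn
    have hb : ∀ᵐ z ∂μ, ‖ψ z‖ ≤ |C| := by
      rw [hμ, ae_restrict_iff' hKc.measurableSet]
      exact Eventually.of_forall fun z hz => (hC z hz).trans (le_abs_self C)
    have mem : ∀ a : ℂ → ℂ, MemLp a 2 μ → MemLp (fun z => ψ z * L (a z)) 2 μ := by
      intro a ha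
      have h1 : MemLp (fun z => L (a z)) 2 μ := by
        refine MemLp.of_le ha (L.continuous.comp_aestronglyMeasurable ha.1) ?_
        exact Eventually.of_forall fun z => by
          rw [Real.norm_eq_abs]; exact hL _
      refine MemLp.of_le_mul (c := |C|) h1 (hψ.aestronglyMeasurable.mul h1.1) ?_
      filter_upwards [hb] with z hz
      rw [norm_mul]
      gcongr
    refine ⟨fun n => mem _ (hg n), mem _ hg', ?_⟩
    have h1 : ∀ n, eLpNorm ((fun z => ψ z * L (g n z)) - fun z => ψ z * L (g' z)) 2 μ ≤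
        ENNReal.ofReal |C| * eLpNorm (g n - g') 2 μ := by
      intro n
      apply eLpNorm_le_mul_eLpNorm_of_ae_le_mul
      filter_upwards [hb] with z hz
      have e : ((fun z => ψ z * L (g n z)) - fun z => ψ z * L (g' z)) z =
          ψ z * L ((g n - g') z) := by
        simp only [Pi.sub_apply, map_sub]
        ring
      rw [e, norm_mul]
      have := hL ((g n - g') z)
      rw [← Real.norm_eq_abs] at this
      gcongr
    have h2 : Tendsto (fun n => ENNReal.ofReal |C| * eLpNorm (g n - g') 2 μ) atTop (𝓝 0) := by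
      have := ENNReal.Tendsto.const_mul (a := ENNReal.ofReal |C|) hc
        (Or.inr ENNReal.ofReal_ne_top)
      simpa using this
    exact tendsto_of_tendsto_of_tendsto_of_le_of_le tendsto_const_nhds h2
      (fun n => zero_le) h1
  have one : Continuous fun _ : ℂ => (1 : ℝ) := continuous_const
  have re_le : ∀ z, |Complex.reCLM z| ≤ ‖z‖ := fun z => Complex.abs_re_le_norm z
  have im_le : ∀ z, |Complex.imCLM z| ≤ ‖z‖ := fun z => Complex.abs_im_le_norm z
  have mfx : ∀ n, MemLp (fun z => fderiv ℝ (f n) z 1) 2 μ := fun n => memc _ (cfv n 1)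
  have mfy : ∀ n, MemLp (fun z => fderiv ℝ (f n) z I) 2 μ := fun n => memc _ (cfv n I)
  have mf : ∀ n, MemLp (f n) 2 μ := fun n => memc _ (f1 n).continuous
  have pφ := Wk.tcont hφ
  obtain ⟨a1, a2, a3⟩ := part Complex.reCLM φ pφ re_le _ _ mfx mFx cx
  obtain ⟨b1, b2, b3⟩ := part Complex.imCLM _ one im_le _ _ mfy mFy cy
  obtain ⟨c1, c2, c3⟩ := part Complex.imCLM φ pφ im_le _ _ mfx mFx cx
  obtain ⟨d1, d2, d3⟩ := part Complex.reCLM _ one re_le _ _ mfy mFy cy
  obtain ⟨p1, p2, p3⟩ := part Complex.reCLM _ (Wk.tdcont hφ 1) re_le _ _ mf memF cu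
  obtain ⟨q1, q2, q3⟩ := part Complex.reCLM _ (Wk.tdcont hφ I) re_le _ _ mf memF cu
  obtain ⟨r1, r2, r3⟩ := part Complex.imCLM _ one im_le _ _ mfx mFx cx
  have L1 := Wk.tendsto_int_mul a1 b1 a2 b2 a3 b3
  have L2 := Wk.tendsto_int_mul c1 d1 c2 d2 c3 d3
  have L3 := Wk.tendsto_int_mul p1 b1 p2 b2 p3 b3
  have L4 := Wk.tendsto_int_mul q1 r1 q2 r2 q3 r3
  -- the two sides as integrals over `K`
  have z0 : ∀ z, z ∉ K → φ z = 0 := fun z hz => image_eq_zero_of_notMem_tsupport hz
  have z1 : ∀ z, z ∉ K → ∀ v, fderiv ℝ φ z v = 0 := fun z hz v => by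
    have : z ∉ tsupport (fun z => fderiv ℝ φ z v) := fun h =>
      hz (tsupport_fderiv_apply_subset ℝ v h)
    exact image_eq_zero_of_notMem_tsupport (f := fun z => fderiv ℝ φ z v) this
  have lhs : ∀ (a b : ℂ → ℂ), MemLp (fun z => φ z * Complex.reCLM (a z)) 2 μ →
      MemLp (fun z => φ z * Complex.imCLM (a z)) 2 μ →
      MemLp (fun z => (1 : ℝ) * Complex.imCLM (b z)) 2 μ →
      MemLp (fun z => (1 : ℝ) * Complex.reCLM (b z)) 2 μ →
      ∫ z, φ z * jac (a z) (b z) =
      (∫ z, φ z * Complex.reCLM (a z) * (1 * Complex.imCLM (b z)) ∂μ) -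
        ∫ z, φ z * Complex.imCLM (a z) * (1 * Complex.reCLM (b z)) ∂μ := by
    intro a b m1 m2 m3 m4
    have j1 : Integrable (fun z => φ z * Complex.reCLM (a z) * (1 * Complex.imCLM (b z))) μ :=
      m1.integrable_mul m3
    have j2 : Integrable (fun z => φ z * Complex.imCLM (a z) * (1 * Complex.reCLM (b z))) μ :=
      m2.integrable_mul m4
    rw [← integral_sub j1 j2]
    rw [← setIntegral_eq_integral_of_forall_compl_eq_zero (s := K) (fun z hz => by
      rw [z0 z hz, zero_mul])]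
    rw [hμ]
    congr 1
    ext z
    simp only [jac, Complex.reCLM_apply, Complex.imCLM_apply]
    ring
  have rhs : ∀ (g a b : ℂ → ℂ), MemLp (fun z => fderiv ℝ φ z 1 * Complex.reCLM (g z)) 2 μ →
      MemLp (fun z => fderiv ℝ φ z I * Complex.reCLM (g z)) 2 μ →
      MemLp (fun z => (1 : ℝ) * Complex.imCLM (a z)) 2 μ →
      MemLp (fun z => (1 : ℝ) * Complex.imCLM (b z)) 2 μ →
      ∫ z, (g z).re * (fderiv ℝ φ z 1 * (b z).im - fderiv ℝ φ z I * (a z).im) =
      (∫ z, fderiv ℝ φ z 1 * Complex.reCLM (g z) * (1 * Complex.imCLM (b z)) ∂μ) -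
        ∫ z, fderiv ℝ φ z I * Complex.reCLM (g z) * (1 * Complex.imCLM (a z)) ∂μ := by
    intro g a b m1 m2 m3 m4
    have j1 : Integrable (fun z => fderiv ℝ φ z 1 * Complex.reCLM (g z) *
        (1 * Complex.imCLM (b z))) μ := m1.integrable_mul m4
    have j2 : Integrable (fun z => fderiv ℝ φ z I * Complex.reCLM (g z) *
        (1 * Complex.imCLM (a z))) μ := m2.integrable_mul m3
    rw [← integral_sub j1 j2]
    rw [← setIntegral_eq_integral_of_forall_compl_eq_zero (s := K) (fun z hz => by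
      rw [z1 z hz, z1 z hz]; ring)]
    rw [hμ]
    congr 1
    ext z
    simp only [Complex.reCLM_apply, Complex.imCLM_apply]
    ring
  have eq : ∀ n, (∫ z, φ z * Complex.reCLM (fderiv ℝ (f n) z 1) *
      (1 * Complex.imCLM (fderiv ℝ (f n) z I)) ∂μ) -
        ∫ z, φ z * Complex.imCLM (fderiv ℝ (f n) z 1) *
          (1 * Complex.reCLM (fderiv ℝ (f n) z I)) ∂μ =
      -((∫ z, fderiv ℝ φ z 1 * Complex.reCLM (f n z) *
        (1 * Complex.imCLM (fderiv ℝ (f n) z I)) ∂μ) -
        ∫ z, fderiv ℝ φ z I * Complex.reCLM (f n z) *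
          (1 * Complex.imCLM (fderiv ℝ (f n) z 1)) ∂μ) := by
    intro n
    rw [← lhs _ _ (a1 n) (c1 n) (b1 n) (d1 n), ← rhs _ _ _ (p1 n) (q1 n) (r1 n) (b1 n)]
    exact JacWM.smooth (f1 n) hφ.sm hφ.cs
  rw [lhs _ _ a2 c2 b2 d2, rhs _ _ _ p2 q2 r2 b2]
  have t1 := L1.sub L2
  have t2 := (L3.sub L4).neg
  refine tendsto_nhds_unique t1 (t2.congr fun n => ?_)
  exact (eq n).symm

end MPfa
end

section
/-!
Problem MP_fa0334_an, module WEAK: weak compactness.
-/
set_option autoImplicit false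

open MeasureTheory Set Filter Topology Metric Complex
open scoped ContDiff ENNReal ComplexConjugate

namespace MPfa

namespace WeakM

/-- one direction -/
theorem one (hRz : SpecRz) {X : Set ℂ} {h : ℂ → ℂ} {k kx : ℕ → ℂ → ℂ} {M : ℝ} (v : ℂ)
    (hX : IsOpen X) (hM : 0 ≤ M) (hk : ∀ n, LI X (k n)) (hh : LI X h)
    (hkx : ∀ n, MemLp (kx n) 2 (volume.restrict X))
    (hB : ∀ n, (eLpNorm (kx n) 2 (volume.restrict X)).toReal ^ 2 ≤ M)
    (hd : ∀ n, ∀ φ : ℂ → ℝ, Test X φ → ∫ z, (fderiv ℝ φ z v) • k n z = - ∫ z, φ z • kx n z)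
    (hu : TendstoUniformlyOn k h atTop X) :
    ∃ hx : ℂ → ℂ, Measurable hx ∧ MemLp hx 2 (volume.restrict X) ∧
      (∀ φ : ℂ → ℝ, Test X φ → ∫ z, (fderiv ℝ φ z v) • h z = - ∫ z, φ z • hx z) ∧
      ∀ u : ℂ → ℂ, MemLp u 2 (volume.restrict X) →
        Tendsto (fun n => ∫ z in X, u z * kx n z) atTop (𝓝 (∫ z in X, u z * hx z)) := by
  have lim : ∀ φ : ℂ → ℝ, Test X φ →
      Tendsto (fun n => ∫ z, (fderiv ℝ φ z v) • k n z) atTop
        (𝓝 (∫ z, (fderiv ℝ φ z v) • h z)) := fun φ hφ =>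
    Wk.unif_int hk hh hu (Wk.tdcont hφ v) (Wk.tdcs hφ v) (Wk.tdsu hφ v)
  have bd : ∀ φ : ℂ → ℝ, Test X φ →
      ‖∫ z, (fderiv ℝ φ z v) • h z‖ ^ 2 ≤ M * ∫ z, φ z ^ 2 := by
    intro φ hφ
    refine le_of_tendsto ((lim φ hφ).norm.pow 2) (Eventually.of_forall fun n => ?_)
    rw [hd n φ hφ, norm_neg, ← Wk.int_restrict hφ.su]
    have hφc : MemLp (fun z => ((φ z : ℝ) : ℂ)) 2 (volume.restrict X) := by
      have h1 : Continuous fun z => ((φ z : ℝ) : ℂ) :=
        Complex.continuous_ofReal.comp (Wk.tcont hφ)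
      have h2 : HasCompactSupport fun z => ((φ z : ℝ) : ℂ) :=
        hφ.cs.comp_left (g := fun x : ℝ => (x : ℂ)) Complex.ofReal_zero
      exact (h1.memLp_of_hasCompactSupport h2).restrict X
    have h1 := Wk.cs hφc (hkx n)
    have h2 : (eLpNorm (fun z => ((φ z : ℝ) : ℂ)) 2 (volume.restrict X)).toReal ^ 2
        ≤ ∫ z, φ z ^ 2 := by
      rw [← ENNReal.toReal_pow, Wk.eLp_sq]
      have h3 : ∫ z, φ z ^ 2 = (∫⁻ z, ENNReal.ofReal (φ z ^ 2)).toReal := by
        rw [integral_eq_lintegral_of_nonneg_ae (Eventually.of_forall fun z => sq_nonneg _)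
          ((Wk.tcont hφ).pow 2).aestronglyMeasurable]
      rw [h3]
      have h4 : ∫⁻ z, ENNReal.ofReal (φ z ^ 2) ≠ ⊤ := by
        have : Integrable fun z => φ z ^ 2 := by
          apply ((Wk.tcont hφ).pow 2).integrable_of_hasCompactSupport
          have := hφ.cs.mul_right (f' := φ)
          rwa [← sq] at this
        exact this.lintegral_lt_top.ne
      refine ENNReal.toReal_mono h4 ?_
      refine (lintegral_mono fun z => ?_).trans (lintegral_mono' Measure.restrict_le_self le_rfl)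
      have : ‖((φ z : ℝ) : ℂ)‖ₑ ^ 2 = ENNReal.ofReal (φ z ^ 2) := by
        rw [← ofReal_norm, ← ENNReal.ofReal_pow (norm_nonneg _), Complex.norm_real,
          Real.norm_eq_abs, sq_abs]
      rw [this]
    have h3 : ∫ z in X, φ z • kx n z = ∫ z in X, ((φ z : ℝ) : ℂ) * kx n z := by
      congr 1
    rw [h3]
    calc ‖∫ z in X, ((φ z : ℝ) : ℂ) * kx n z‖ ^ 2
        ≤ ((eLpNorm (fun z => ((φ z : ℝ) : ℂ)) 2 (volume.restrict X)).toReal *
          (eLpNorm (kx n) 2 (volume.restrict X)).toReal) ^ 2 := by gcongr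
      _ = (eLpNorm (fun z => ((φ z : ℝ) : ℂ)) 2 (volume.restrict X)).toReal ^ 2 *
          (eLpNorm (kx n) 2 (volume.restrict X)).toReal ^ 2 := by ring
      _ ≤ (∫ z, φ z ^ 2) * M := by
          gcongr
          exact hB n
      _ = M * ∫ z, φ z ^ 2 := by ring
  obtain ⟨hx, m1, m2, m3⟩ := hRz X h v M hX hh hM bd
  have hxL : MemLp hx 2 (volume.restrict X) :=
    Wk.memLp_two m1.aestronglyMeasurable (m2.trans_lt ENNReal.ofReal_lt_top)
  refine ⟨hx, m1, hxL, m3, fun u hu' => ?_⟩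
  refine Wk.weak_of_test hX hkx hxL (B := Real.sqrt M) (fun n => Real.le_sqrt_of_sq_le (hB n))
    (fun φ hφ => ?_) hu'
  have h1 := (lim φ hφ).neg
  rw [m3 φ hφ, neg_neg] at h1
  refine h1.congr fun n => ?_
  rw [hd n φ hφ, neg_neg]

/-- WEAK for arbitrary square integrable `u` -/
theorem weak (hRz : SpecRz) (X : Set ℂ) (h : ℂ → ℂ) (k kx ky : ℕ → ℂ → ℂ) (M : ℝ≥0∞)
    (hX : IsOpen X) (hM : M < ⊤) (hk : ∀ n, ContinuousOn (k n) X)
    (hd : ∀ n, WD X (k n) (kx n) (ky n))
    (hB : ∀ n, ∫⁻ z in X, (‖kx n z‖ₑ ^ 2 + ‖ky n z‖ₑ ^ 2) ≤ M)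
    (hu : TendstoUniformlyOn k h atTop X) :
    ∃ hx hy : ℂ → ℂ, WD X h hx hy ∧ ∫⁻ z in X, (‖hx z‖ₑ ^ 2 + ‖hy z‖ₑ ^ 2) < ⊤ ∧
      ∀ u : ℂ → ℂ, MemLp u 2 (volume.restrict X) →
        Tendsto (fun n => ∫ z in X, u z * kx n z) atTop (𝓝 (∫ z in X, u z * hx z)) ∧
        Tendsto (fun n => ∫ z in X, u z * ky n z) atTop (𝓝 (∫ z in X, u z * hy z)) := by
  have hhc : ContinuousOn h X := hu.continuousOn (Frequently.of_forall fun n => hk n)
  have hh : LI X h := fun K hK hK' => (hhc.mono hK).integrableOn_compact hK'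
  have hk' : ∀ n, LI X (k n) := fun n => (hd n).lF
  obtain ⟨hx, x1, x2, x3, x4⟩ := one hRz (1 : ℂ) hX ENNReal.toReal_nonneg hk' hh
    (fun n => (Wk.energy_fst (hd n).mx hM (hB n)).1)
    (fun n => (Wk.energy_fst (hd n).mx hM (hB n)).2) (fun n => (hd n).ix) hu
  obtain ⟨hy, y1, y2, y3, y4⟩ := one hRz I hX ENNReal.toReal_nonneg hk' hh
    (fun n => (Wk.energy_snd (hd n).my hM (hB n)).1)
    (fun n => (Wk.energy_snd (hd n).my hM (hB n)).2) (fun n => (hd n).iy) hu
  refine ⟨hx, hy, ⟨x1, y1, hh, Wk.LI_of_L2 x2, Wk.LI_of_L2 y2, x3, y3⟩, ?_, fun u hu' =>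
    ⟨x4 u hu', y4 u hu'⟩⟩
  rw [lintegral_add_left (by fun_prop)]
  exact ENNReal.add_lt_top.mpr ⟨Wk.memLp_two_lt x2, Wk.memLp_two_lt y2⟩

end WeakM

/-- C5 -/
theorem specWeak (hRz : SpecRz) : SpecWeak := by
  intro X h k kx ky M hX hM hk hd hB hu
  obtain ⟨hx, hy, w1, w2, w3⟩ := WeakM.weak hRz X h k kx ky M hX hM hk hd hB hu
  exact ⟨hx, hy, w1, w2, fun u hu' hu2 => w3 u (Wk.memLp_two hu'.aestronglyMeasurable hu2)⟩

end MPfa
end

section
/-!
Problem MP_fa0334_an, module JUSC: convergence of the Jacobians as distributions and upper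
semicontinuity on compact sets.
-/
set_option autoImplicit false

open MeasureTheory Set Filter Topology Metric Complex
open scoped ContDiff ENNReal ComplexConjugate

namespace MPfa

namespace JuscM

variable {X : Set ℂ}

theorem mem_u {h : ℂ → ℂ} (hh : ContinuousOn h X) {ψ : ℂ → ℝ} (hψ : Continuous ψ)
    (hc : HasCompactSupport ψ) (hs : tsupport ψ ⊆ X) :
    MemLp (fun z => ((ψ z * (h z).re : ℝ) : ℂ)) 2 (volume.restrict X) := by
  set K := tsupport ψ with hK
  have hKc : IsCompact K := hc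
  have e : (fun z => ((ψ z * (h z).re : ℝ) : ℂ)) =
      K.indicator fun z => ((ψ z * (h z).re : ℝ) : ℂ) := by
    ext z
    by_cases hz : z ∈ K
    · simp [hz]
    · simp [hz, image_eq_zero_of_notMem_tsupport (f := ψ) hz]
  rw [e, memLp_indicator_iff_restrict hKc.measurableSet,
    Measure.restrict_restrict hKc.measurableSet, inter_eq_self_of_subset_left hs]
  have hfin : IsFiniteMeasure (volume.restrict K) := ⟨by
    rw [Measure.restrict_apply_univ]; exact hKc.measure_lt_top⟩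
  have hcont : ContinuousOn (fun z => ((ψ z * (h z).re : ℝ) : ℂ)) K := by
    have h1 : ContinuousOn h K := hh.mono hs
    have h2 : ContinuousOn (fun z => (h z).re) K := Complex.continuous_re.comp_continuousOn h1
    exact Complex.continuous_ofReal.comp_continuousOn (hψ.continuousOn.mul h2)
  obtain ⟨C, hC⟩ := hKc.exists_bound_of_continuousOn hcont
  refine MemLp.of_bound (hcont.aestronglyMeasurable hKc.measurableSet) C ?_
  rw [ae_restrict_iff' hKc.measurableSet]
  exact Eventually.of_forall hC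

theorem im_eq {u : ℂ → ℝ} {w : ℂ → ℂ} (h : Integrable (fun z => ((u z : ℝ) : ℂ) * w z)
    (volume.restrict X)) (hu : ∀ z, z ∉ X → u z = 0) :
    (∫ z in X, ((u z : ℝ) : ℂ) * w z).im = ∫ z, u z * (w z).im := by
  have h1 := integral_im h
  simp only [RCLike.im_to_complex] at h1
  have h2 : ∫ z in X, u z * (w z).im = ∫ z, u z * (w z).im :=
    setIntegral_eq_integral_of_forall_compl_eq_zero fun z hz => by rw [hu z hz, zero_mul]
  rw [← h1, ← h2]
  congr 1
  ext z
  exact Complex.im_ofReal_mul _ _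

/-- convergence of products -/
theorem prod_conv {k kx : ℕ → ℂ → ℂ} {h hx : ℂ → ℂ} {B : ℝ}
    (hk : ∀ n, ContinuousOn (k n) X) (hh : ContinuousOn h X)
    (hu : TendstoUniformlyOn k h atTop X) (hkx : ∀ n, MemLp (kx n) 2 (volume.restrict X))
    (hB : ∀ n, (eLpNorm (kx n) 2 (volume.restrict X)).toReal ≤ B)
    (hxm : MemLp hx 2 (volume.restrict X))
    (hw : ∀ u : ℂ → ℂ, MemLp u 2 (volume.restrict X) →
      Tendsto (fun n => ∫ z in X, u z * kx n z) atTop (𝓝 (∫ z in X, u z * hx z)))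
    {ψ : ℂ → ℝ} (hψ : Continuous ψ) (hc : HasCompactSupport ψ) (hs : tsupport ψ ⊆ X) :
    Tendsto (fun n => ∫ z, ψ z * (k n z).re * (kx n z).im) atTop
      (𝓝 (∫ z, ψ z * (h z).re * (hx z).im)) := by
  have hz0 : ∀ (g : ℂ → ℂ) (z : ℂ), z ∉ X → ψ z * (g z).re = 0 := by
    intro g z hz
    have : ψ z = 0 := image_eq_zero_of_notMem_tsupport (f := ψ) fun h => hz (hs h)
    rw [this, zero_mul]
  have mu := mem_u hh hψ hc hs
  have mun := fun n => mem_u (hk n) hψ hc hs
  have ψm : MemLp ψ 2 (volume.restrict X) := (hψ.memLp_of_hasCompactSupport hc).restrict X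
  set P : ℝ := (eLpNorm ψ 2 (volume.restrict X)).toReal with hP
  have hP0 : 0 ≤ P := ENNReal.toReal_nonneg
  have hB0 : 0 ≤ B := ENNReal.toReal_nonneg.trans (hB 0)
  have c1 : Tendsto (fun n => (∫ z in X, ((ψ z * (k n z).re : ℝ) : ℂ) * kx n z)
      - ∫ z in X, ((ψ z * (h z).re : ℝ) : ℂ) * kx n z) atTop (𝓝 0) := by
    rw [Metric.tendsto_atTop]
    intro ε hε
    have := (Metric.tendstoUniformlyOn_iff.mp hu) (ε / (2 * (P * B + 1))) (by positivity)
    obtain ⟨N, hN⟩ := eventually_atTop.mp this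
    refine ⟨N, fun n hn => ?_⟩
    rw [dist_zero_right, ← integral_sub (Wk.cs_int (mun n) (hkx n)) (Wk.cs_int mu (hkx n))]
    have e1 : (fun z => ((ψ z * (k n z).re : ℝ) : ℂ) * kx n z -
        ((ψ z * (h z).re : ℝ) : ℂ) * kx n z) = fun z =>
        ((fun z => ((ψ z * (k n z).re : ℝ) : ℂ)) - fun z => ((ψ z * (h z).re : ℝ) : ℂ)) z
          * kx n z := by
      ext z
      simp only [Pi.sub_apply]
      ring
    rw [e1]
    refine (Wk.cs ((mun n).sub mu) (hkx n)).trans_lt ?_
    have e2 : (eLpNorm ((fun z => ((ψ z * (k n z).re : ℝ) : ℂ)) -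
        fun z => ((ψ z * (h z).re : ℝ) : ℂ)) 2 (volume.restrict X)).toReal
        ≤ ε / (2 * (P * B + 1)) * P := by
      have h1 : eLpNorm ((fun z => ((ψ z * (k n z).re : ℝ) : ℂ)) -
        fun z => ((ψ z * (h z).re : ℝ) : ℂ)) 2 (volume.restrict X) ≤
          ENNReal.ofReal (ε / (2 * (P * B + 1))) * eLpNorm ψ 2 (volume.restrict X) := by
        apply eLpNorm_le_mul_eLpNorm_of_ae_le_mul
        have hmem : ∀ᵐ z ∂(volume.restrict X), z ∈ tsupport ψ → z ∈ X :=
          Eventually.of_forall fun z hz => hs hz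
        filter_upwards [hmem] with z hz
        by_cases hzs : z ∈ tsupport ψ
        · have h2 := hN n hn z (hz hzs)
          rw [dist_comm, dist_eq_norm] at h2
          have h3 : ((fun z => ((ψ z * (k n z).re : ℝ) : ℂ)) -
              fun z => ((ψ z * (h z).re : ℝ) : ℂ)) z = ((ψ z * (k n z - h z).re : ℝ) : ℂ) := by
            simp only [Pi.sub_apply, Complex.sub_re]
            push_cast
            ring
          rw [h3, Complex.norm_real, norm_mul, mul_comm]
          have h4 := Complex.abs_re_le_norm (k n z - h z)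
          rw [← Real.norm_eq_abs] at h4
          gcongr
          exact h4.trans h2.le
        · have h5 : ψ z = 0 := image_eq_zero_of_notMem_tsupport (f := ψ) hzs
          simp [h5]
      have h6 : ENNReal.ofReal (ε / (2 * (P * B + 1))) * eLpNorm ψ 2 (volume.restrict X) ≠ ⊤ :=
        ENNReal.mul_ne_top ENNReal.ofReal_ne_top ψm.2.ne
      have h7 := ENNReal.toReal_mono h6 h1
      rwa [ENNReal.toReal_mul, ENNReal.toReal_ofReal (by positivity)] at h7
    calc (eLpNorm ((fun z => ((ψ z * (k n z).re : ℝ) : ℂ)) -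
        fun z => ((ψ z * (h z).re : ℝ) : ℂ)) 2 (volume.restrict X)).toReal *
          (eLpNorm (kx n) 2 (volume.restrict X)).toReal
        ≤ (ε / (2 * (P * B + 1)) * P) * B := by
          gcongr
          exact hB n
      _ = (P * B / (P * B + 1)) * (ε / 2) := by field_simp
      _ ≤ 1 * (ε / 2) := by
          gcongr
          rw [div_le_one (by positivity)]
          linarith
      _ < ε := by linarith
  have c2 := hw _ mu
  have c3 := c1.add c2
  rw [zero_add] at c3
  have c4 := (Complex.continuous_im.tendsto _).comp c3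
  rw [im_eq (u := fun z => ψ z * (h z).re) (Wk.cs_int mu hxm) (hz0 h)] at c4
  refine c4.congr fun n => ?_
  simp only [Function.comp_apply, sub_add_cancel]
  exact im_eq (u := fun z => ψ z * (k n z).re) (Wk.cs_int (mun n) (hkx n)) (hz0 (k n))

theorem int3 {h hx : ℂ → ℂ} (hh : ContinuousOn h X) {ψ : ℂ → ℝ} (hψ : Continuous ψ)
    (hc : HasCompactSupport ψ) (hs : tsupport ψ ⊆ X) (hxm : MemLp hx 2 (volume.restrict X)) :
    Integrable fun z => ψ z * (h z).re * (hx z).im := by
  have h1 := Wk.cs_int (mem_u hh hψ hc hs) hxm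
  have h2 : IntegrableOn (fun z => ψ z * (h z).re * (hx z).im) X := by
    have := h1.im
    refine this.congr (Eventually.of_forall fun z => ?_)
    simp
  refine (integrableOn_iff_integrable_of_support_subset ?_).mp h2
  intro z hz
  have : ψ z ≠ 0 := by
    intro h0
    apply hz
    simp [h0]
  exact hs (subset_tsupport ψ this)

/-- the Jacobian of a map of finite energy is integrable -/
theorem jac_int {a b : ℂ → ℂ} {μ : Measure ℂ} (ha : MemLp a 2 μ) (hb : MemLp b 2 μ) :
    Integrable (fun z => jac (a z) (b z)) μ := by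
  have h1 : MemLp (fun z => (a z).re) 2 μ := ha.re
  have h2 : MemLp (fun z => (a z).im) 2 μ := ha.im
  have h3 : MemLp (fun z => (b z).re) 2 μ := hb.re
  have h4 : MemLp (fun z => (b z).im) 2 μ := hb.im
  exact (h1.integrable_mul h4).sub (h2.integrable_mul h3)

/-- convergence of the Jacobians as distributions -/
theorem jac_conv (hRz : SpecRz) (hJW : SpecJacW) (hU : SpecWDU) (X : Set ℂ)
    (h hx hy : ℂ → ℂ) (k kx ky : ℕ → ℂ → ℂ) (M : ℝ≥0∞) (hX : IsOpen X) (hM : M < ⊤)
    (hk : ∀ n, ContinuousOn (k n) X) (hd : ∀ n, WD X (k n) (kx n) (ky n))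
    (hB : ∀ n, ∫⁻ z in X, (‖kx n z‖ₑ ^ 2 + ‖ky n z‖ₑ ^ 2) ≤ M)
    (hu : TendstoUniformlyOn k h atTop X) (hh : WD X h hx hy)
    (hfin : ∫⁻ z in X, (‖hx z‖ₑ ^ 2 + ‖hy z‖ₑ ^ 2) < ⊤) (φ : ℂ → ℝ) (hφ : Test X φ) :
    Tendsto (fun n => ∫ z, φ z * jac (kx n z) (ky n z)) atTop
      (𝓝 (∫ z, φ z * jac (hx z) (hy z))) := by
  obtain ⟨gx, gy, w1, w2, w3⟩ := WeakM.weak hRz X h k kx ky M hX hM hk hd hB hu
  have hhc : ContinuousOn h X := hu.continuousOn (Frequently.of_forall fun n => hk n)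
  have hae := hU X h hx hy gx gy hX hh w1
  have ekx := fun n => Wk.energy_fst (hd n).mx hM (hB n)
  have eky := fun n => Wk.energy_snd (hd n).my hM (hB n)
  have ex := Wk.energy_fst hh.mx hfin le_rfl
  have ey := Wk.energy_snd hh.my hfin le_rfl
  have wx : ∀ u : ℂ → ℂ, MemLp u 2 (volume.restrict X) →
      Tendsto (fun n => ∫ z in X, u z * kx n z) atTop (𝓝 (∫ z in X, u z * hx z)) := by
    intro u hu'
    have e : ∫ z in X, u z * hx z = ∫ z in X, u z * gx z := by
      apply integral_congr_ae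
      filter_upwards [hae] with z hz
      rw [hz.1]
    rw [e]
    exact (w3 u hu').1
  have wy : ∀ u : ℂ → ℂ, MemLp u 2 (volume.restrict X) →
      Tendsto (fun n => ∫ z in X, u z * ky n z) atTop (𝓝 (∫ z in X, u z * hy z)) := by
    intro u hu'
    have e : ∫ z in X, u z * hy z = ∫ z in X, u z * gy z := by
      apply integral_congr_ae
      filter_upwards [hae] with z hz
      rw [hz.2]
    rw [e]
    exact (w3 u hu').2
  have L2X : ∀ a : ℂ → ℂ, MemLp a 2 (volume.restrict X) → L2loc X a := by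
    intro a ha K hK hK'
    exact (lintegral_mono' (Measure.restrict_mono hK le_rfl) le_rfl).trans_lt (Wk.memLp_two_lt ha)
  have key : ∀ (F Fx Fy : ℂ → ℂ), ContinuousOn F X → WD X F Fx Fy →
      MemLp Fx 2 (volume.restrict X) → MemLp Fy 2 (volume.restrict X) →
      ∫ z, φ z * jac (Fx z) (Fy z) = -((∫ z, fderiv ℝ φ z 1 * (F z).re * (Fy z).im) -
        ∫ z, fderiv ℝ φ z I * (F z).re * (Fx z).im) := by
    intro F Fx Fy hF hFd mx my
    rw [hJW X F Fx Fy hX hF hFd (L2X _ mx) (L2X _ my) φ hφ,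
      ← integral_sub (int3 hF (Wk.tdcont hφ 1) (Wk.tdcs hφ 1) (Wk.tdsu hφ 1) my)
        (int3 hF (Wk.tdcont hφ I) (Wk.tdcs hφ I) (Wk.tdsu hφ I) mx)]
    congr 2
    ext z
    ring
  have c1 := prod_conv hk hhc hu (fun n => (eky n).1)
    (B := Real.sqrt M.toReal) (fun n => Real.le_sqrt_of_sq_le (eky n).2) ey.1 wy
    (Wk.tdcont hφ 1) (Wk.tdcs hφ 1) (Wk.tdsu hφ 1)
  have c2 := prod_conv hk hhc hu (fun n => (ekx n).1)
    (B := Real.sqrt M.toReal) (fun n => Real.le_sqrt_of_sq_le (ekx n).2) ex.1 wx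
    (Wk.tdcont hφ I) (Wk.tdcs hφ I) (Wk.tdsu hφ I)
  rw [key h hx hy hhc hh ex.1 ey.1]
  refine (c1.sub c2).neg.congr fun n => ?_
  exact (key (k n) (kx n) (ky n) (hk n) (hd n) (ekx n).1 (eky n).1).symm

/-- open neighbourhoods of a compact set on which an integrable function is small outside the
compact set -/
theorem small_nhd {S : Set ℂ} (hX : IsOpen X) (hSX : S ⊆ X) (hS : IsCompact S) {g : ℂ → ℝ}
    (hg : IntegrableOn g X) {ε : ℝ} (hε : 0 < ε) :
    ∃ O : Set ℂ, IsOpen O ∧ S ⊆ O ∧ O ⊆ X ∧ ∫ z in O \ S, |g z| < ε := by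
  -- the finite measure with density `|g|`
  let ν : Measure ℂ := (volume.restrict X).withDensity fun z => ‖g z‖ₑ
  have hν : IsFiniteMeasure ν := by
    apply isFiniteMeasure_withDensity
    exact hg.2.ne
  obtain ⟨U, hU1, hU2, hU3⟩ := S.exists_isOpen_lt_add (μ := ν) (measure_ne_top ν S)
    (ε := ENNReal.ofReal ε) (by simpa using hε)
  refine ⟨U ∩ X, hU2.inter hX, subset_inter hU1 hSX, inter_subset_right, ?_⟩
  have hmU : MeasurableSet (U ∩ X) := hU2.measurableSet.inter hX.measurableSet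
  have hmD : MeasurableSet ((U ∩ X) \ S) := hmU.diff hS.measurableSet
  have hsub : (U ∩ X) \ S ⊆ X := fun z hz => hz.1.2
  have h1 : ν ((U ∩ X) \ S) < ENNReal.ofReal ε := by
    have h2 : ν ((U ∩ X) \ S) ≤ ν (U \ S) := measure_mono fun z hz => ⟨hz.1.1, hz.2⟩
    refine h2.trans_lt ?_
    rw [measure_sdiff hU1 hS.measurableSet.nullMeasurableSet (measure_ne_top ν S)]
    apply ENNReal.sub_lt_of_lt_add (measure_mono hU1)
    rw [add_comm]
    exact hU3
  rw [withDensity_apply _ hmD, Measure.restrict_restrict hmD,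
    inter_eq_self_of_subset_left hsub] at h1
  have h3 : ∫ z in (U ∩ X) \ S, |g z| = (∫⁻ z in (U ∩ X) \ S, ‖g z‖ₑ).toReal := by
    have := integral_norm_eq_lintegral_enorm (hg.mono_set hsub).1
    simpa [Real.norm_eq_abs] using this
  rw [h3]
  exact (ENNReal.toReal_lt_of_lt_ofReal h1)

end JuscM

/-- C6 -/
theorem specJusc (hRz : SpecRz) (hJW : SpecJacW) (hU : SpecWDU) : SpecJusc := by
  intro X h hx hy k kx ky M hX hM hk hd hB hu hh hfin hpos S hSX hS ε hε
  have ekx := fun n => Wk.energy_fst (hd n).mx hM (hB n)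
  have eky := fun n => Wk.energy_snd (hd n).my hM (hB n)
  have ex := Wk.energy_fst hh.mx hfin le_rfl
  have ey := Wk.energy_snd hh.my hfin le_rfl
  have jh : IntegrableOn (fun z => jac (hx z) (hy z)) X := JuscM.jac_int ex.1 ey.1
  have jn : ∀ n, IntegrableOn (fun z => jac (kx n z) (ky n z)) X := fun n =>
    JuscM.jac_int (ekx n).1 (eky n).1
  obtain ⟨O, O1, O2, O3, O4⟩ := JuscM.small_nhd hX hSX hS jh (half_pos hε)
  obtain ⟨φ, t1, t2, t3, t4⟩ := Wk.cutoff O1 hS O2
  have tX : Test X φ := ⟨t1.sm, t1.cs, t1.su.trans O3⟩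
  have conv := JuscM.jac_conv hRz hJW hU X h hx hy k kx ky M hX hM hk hd hB hu hh hfin φ tX
  -- integrability
  have φint : ∀ g : ℂ → ℝ, IntegrableOn g X → IntegrableOn (fun z => φ z * g z) X := by
    intro g hg
    refine Integrable.bdd_mul (c := 1) hg (Wk.tcont tX).aestronglyMeasurable ?_
    exact Eventually.of_forall fun z => by
      rw [Real.norm_eq_abs, abs_of_nonneg (t2 z)]; exact t3 z
  have φ0 : ∀ z, z ∉ O → φ z = 0 := fun z hz =>
    image_eq_zero_of_notMem_tsupport (f := φ) fun h => hz (t1.su h)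
  have φX : ∀ g : ℂ → ℝ, ∫ z, φ z * g z = ∫ z in X, φ z * g z := by
    intro g
    symm
    apply setIntegral_eq_integral_of_forall_compl_eq_zero
    intro z hz
    rw [φ0 z fun h => hz (O3 h), zero_mul]
  have φO : ∀ g : ℂ → ℝ, ∫ z, φ z * g z = ∫ z in O, φ z * g z := by
    intro g
    symm
    apply setIntegral_eq_integral_of_forall_compl_eq_zero
    intro z hz
    rw [φ0 z hz, zero_mul]
  -- lower bound for the approximations
  have low : ∀ n, ∫ z in S, jac (kx n z) (ky n z) ≤ ∫ z, φ z * jac (kx n z) (ky n z) := by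
    intro n
    have e1 : ∫ z in S, jac (kx n z) (ky n z) = ∫ z in S, φ z * jac (kx n z) (ky n z) := by
      apply setIntegral_congr_fun hS.measurableSet
      intro z hz
      simp only [t4 z hz, one_mul]
    rw [e1, φX]
    apply setIntegral_mono_set (φint _ (jn n)) _ (Eventually.of_forall hSX)
    filter_upwards [hpos n] with z hz
    exact mul_nonneg (t2 z) hz
  -- upper bound for the limit
  have up : ∫ z, φ z * jac (hx z) (hy z) ≤ (∫ z in S, jac (hx z) (hy z)) + ε / 2 := by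
    rw [φO]
    have e1 : ∫ z in O, φ z * jac (hx z) (hy z) = (∫ z in S, φ z * jac (hx z) (hy z)) +
        ∫ z in O \ S, φ z * jac (hx z) (hy z) := by
      have h1 := setIntegral_union (f := fun z => φ z * jac (hx z) (hy z)) (μ := volume)
        (disjoint_sdiff_right (s := S) (t := O)) (O1.measurableSet.diff hS.measurableSet)
        ((φint _ jh).mono_set hSX) ((φint _ jh).mono_set fun z hz => O3 hz.1)
      rw [union_sdiff_cancel O2] at h1
      exact h1
    have e2 : ∫ z in S, φ z * jac (hx z) (hy z) = ∫ z in S, jac (hx z) (hy z) := by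
      apply setIntegral_congr_fun hS.measurableSet
      intro z hz
      simp only [t4 z hz, one_mul]
    rw [e1, e2]
    have e3 : ∫ z in O \ S, φ z * jac (hx z) (hy z) ≤ ∫ z in O \ S, |jac (hx z) (hy z)| := by
      apply setIntegral_mono ((φint _ jh).mono_set fun z hz => O3 hz.1)
        ((jh.mono_set fun z hz => O3 hz.1).abs)
      intro z
      calc φ z * jac (hx z) (hy z) ≤ |φ z * jac (hx z) (hy z)| := le_abs_self _
        _ = φ z * |jac (hx z) (hy z)| := by rw [abs_mul, abs_of_nonneg (t2 z)]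
        _ ≤ 1 * |jac (hx z) (hy z)| := by gcongr; exact t3 z
        _ = _ := one_mul _
    linarith
  have ev := (tendsto_order.1 conv).2 ((∫ z, φ z * jac (hx z) (hy z)) + ε / 2) (by linarith)
  filter_upwards [ev] with n hn
  have := low n
  linarith

end MPfa
end

section
/-!
LOOP: logarithms along chains of segments.
-/
set_option autoImplicit false

open MeasureTheory Set Filter Topology Metric Complex
open scoped ContDiff ENNReal ComplexConjugate

namespace MPfa

namespace LoopM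

/-- the relation: joined by a compact set with a logarithm -/
def P (U : Set ℂ) (e₁ e₂ : ℂ) : Prop :=
  ∃ Γ ⊆ U, IsCompact Γ ∧ e₁ ∈ Γ ∧ e₂ ∈ Γ ∧ ∃ ℓ : ℂ → ℂ,
    (∀ z, z ∉ Γ → HasDerivAt ℓ (1 / (z - e₂) - 1 / (z - e₁)) z) ∧
    Tendsto ℓ (cocompact ℂ) (𝓝 0)

theorem P_symm {U : Set ℂ} {e₁ e₂ : ℂ} (h : P U e₁ e₂) : P U e₂ e₁ := by
  obtain ⟨Γ, hΓ, hc, h1, h2, ℓ, hd, ht⟩ := h
  refine ⟨Γ, hΓ, hc, h2, h1, fun z => -ℓ z, fun z hz => ?_, ?_⟩
  · have := (hd z hz).neg
    rwa [neg_sub] at this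
  · simpa using ht.neg

theorem P_trans {U : Set ℂ} {e₁ e₂ e₃ : ℂ} (h : P U e₁ e₂) (h' : P U e₂ e₃) : P U e₁ e₃ := by
  obtain ⟨Γ, hΓ, hc, h1, h2, ℓ, hd, ht⟩ := h
  obtain ⟨Γ', hΓ', hc', h1', h2', ℓ', hd', ht'⟩ := h'
  refine ⟨Γ ∪ Γ', union_subset hΓ hΓ', hc.union hc', Or.inl h1, Or.inr h2',
    fun z => ℓ z + ℓ' z, fun z hz => ?_, ?_⟩
  · have h3 := (hd z fun h => hz (Or.inl h)).add (hd' z fun h => hz (Or.inr h))
    refine h3.congr_deriv ?_
    ring
  · simpa using ht.add ht'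

theorem slit {x y z : ℂ} (hz : z ∉ segment ℝ x y) : (z - y) / (z - x) ∈ Complex.slitPlane := by
  have hzx : z - x ≠ 0 := by
    intro h
    exact hz (by rw [sub_eq_zero.1 h]; exact left_mem_segment ℝ x y)
  by_contra h
  rw [Complex.mem_slitPlane_iff] at h
  push Not at h
  set t : ℝ := -((z - y) / (z - x)).re with ht
  have ht0 : 0 ≤ t := by linarith [h.1]
  have h1 : (z - y) / (z - x) = ((-t : ℝ) : ℂ) := by
    apply Complex.ext
    · simp [ht]
    · rw [h.2, Complex.ofReal_im]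
  rw [div_eq_iff hzx] at h1
  apply hz
  rw [segment_eq_image]
  refine ⟨1 / (1 + t), ⟨by positivity, ?_⟩, ?_⟩
  · rw [div_le_one (by positivity)]
    linarith
  · have h2 : (1 + (t : ℂ)) ≠ 0 := by
      have : (1 + t : ℝ) ≠ 0 := by positivity
      exact_mod_cast this
    simp only [Complex.real_smul]
    push_cast at h1 ⊢
    field_simp
    linear_combination -h1

theorem P_local {U : Set ℂ} {x y : ℂ} (h : segment ℝ x y ⊆ U) : P U x y := by
  refine ⟨segment ℝ x y, h, ?_, left_mem_segment ℝ x y, right_mem_segment ℝ x y,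
    fun z => Complex.log ((z - y) / (z - x)), ?_, ?_⟩
  · rw [segment_eq_image]
    exact isCompact_Icc.image (by fun_prop)
  · intro z hz
    have hs := slit hz
    have hzx : z - x ≠ 0 := by
      intro h
      exact hz (by rw [sub_eq_zero.1 h]; exact left_mem_segment ℝ x y)
    have hzy : z - y ≠ 0 := by
      intro h
      exact hz (by rw [sub_eq_zero.1 h]; exact right_mem_segment ℝ x y)
    have h1 : HasDerivAt (fun z => (z - y) / (z - x))
        ((1 * (z - x) - (z - y) * 1) / (z - x) ^ 2) z :=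
      ((hasDerivAt_id z).sub_const y).div ((hasDerivAt_id z).sub_const x) hzx
    have h2 := h1.clog hs
    refine h2.congr_deriv ?_
    field_simp
  · have h1 : Tendsto (fun z : ℂ => (z - x)⁻¹) (cocompact ℂ) (𝓝 0) := by
      rw [← Metric.cobounded_eq_cocompact]
      exact tendsto_inv₀_cobounded.comp (tendsto_sub_const_cobounded x)
    have h2 : Tendsto (fun z : ℂ => 1 + (x - y) * (z - x)⁻¹) (cocompact ℂ) (𝓝 1) := by
      have := (h1.const_mul (x - y)).const_add 1
      simpa using this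
    have h3 : Tendsto (fun z : ℂ => Complex.log (1 + (x - y) * (z - x)⁻¹)) (cocompact ℂ)
        (𝓝 0) := by
      have := h2.clog (by simp)
      rwa [Complex.log_one] at this
    refine h3.congr' ?_
    have h4 : ∀ᶠ z : ℂ in cocompact ℂ, z ≠ x := by
      have := (isCompact_singleton (x := x)).compl_mem_cocompact
      filter_upwards [this] with z hz using hz
    filter_upwards [h4] with z hz
    have : z - x ≠ 0 := sub_ne_zero.2 hz
    congr 1
    field_simp
    ring

end LoopM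

theorem specLoop : SpecLoop := by
  intro U hU hc e₁ h₁ e₂ h₂
  refine hc.induction₂' (LoopM.P U) ?_ ?_ h₁ h₂
  · intro x hx
    obtain ⟨ε, hε, hsub⟩ := Metric.isOpen_iff.1 hU x hx
    filter_upwards [mem_nhdsWithin_of_mem_nhds (ball_mem_nhds x hε)] with y hy
    have h1 : LoopM.P U x y := LoopM.P_local
      (((convex_ball x ε).segment_subset (mem_ball_self hε) hy).trans hsub)
    exact ⟨h1, LoopM.P_symm h1⟩
  · intro x y z _ _ _ h h'
    exact LoopM.P_trans h h'

end MPfa
end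

section
/-!
Problem MP_fa0334_an, module C7 (LSC): lower semicontinuity of the energy.
-/
set_option autoImplicit false

open MeasureTheory Set Filter Topology Metric Complex
open scoped ContDiff ENNReal ComplexConjugate

namespace MPfa

namespace Lsc

variable {X : Set ℂ}

theorem enorm_sq (w : ℂ) : ‖(‖w‖ ^ 2 : ℝ)‖ₑ = ‖w‖ₑ ^ 2 := by
  rw [enorm_pow, enorm_norm]

theorem enorm_sq_eq (w : ℂ) : ‖w‖ₑ ^ 2 = ENNReal.ofReal (‖w‖ ^ 2) := by
  rw [← ofReal_norm, ENNReal.ofReal_pow (norm_nonneg _)]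

theorem two_n2 (a b : ℂ) : ‖a‖ₑ ^ 2 + ‖b‖ₑ ^ 2 = 2 * ENNReal.ofReal (n2 a b) := by
  rw [enorm_sq_eq, enorm_sq_eq, ← ENNReal.ofReal_add (by positivity) (by positivity), n2,
    show (2 : ℝ≥0∞) = ENNReal.ofReal 2 by simp, ← ENNReal.ofReal_mul (by norm_num)]
  congr 1
  ring

theorem intSq {f : ℂ → ℂ} (hf : Measurable f) (h : ∫⁻ z in X, ‖f z‖ₑ ^ 2 < ⊤) :
    IntegrableOn (fun z => ‖f z‖ ^ 2) X := by
  refine ⟨(hf.norm.pow_const 2).aestronglyMeasurable, ?_⟩
  rw [HasFiniteIntegral]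
  simpa only [enorm_sq] using h

theorem left_lt {f g : ℂ → ℂ} (h : ∫⁻ z in X, (‖f z‖ₑ ^ 2 + ‖g z‖ₑ ^ 2) < ⊤) :
    ∫⁻ z in X, ‖f z‖ₑ ^ 2 < ⊤ :=
  lt_of_le_of_lt (lintegral_mono fun _ => le_self_add) h

theorem right_lt {f g : ℂ → ℂ} (h : ∫⁻ z in X, (‖f z‖ₑ ^ 2 + ‖g z‖ₑ ^ 2) < ⊤) :
    ∫⁻ z in X, ‖g z‖ₑ ^ 2 < ⊤ :=
  lt_of_le_of_lt (lintegral_mono fun _ => le_add_self) h

theorem int_n2 {f g : ℂ → ℂ} (hf : Measurable f) (hg : Measurable g)
    (h : ∫⁻ z in X, (‖f z‖ₑ ^ 2 + ‖g z‖ₑ ^ 2) < ⊤) :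
    IntegrableOn (fun z => n2 (f z) (g z)) X := by
  have h1 := intSq hf (left_lt h)
  have h2 := intSq hg (right_lt h)
  have h3 : IntegrableOn (fun z => (‖f z‖ ^ 2 + ‖g z‖ ^ 2) / 2) X := (h1.add h2).div_const 2
  exact h3

theorem int_jac (hA : SpecAlg) {f g : ℂ → ℂ} (hf : Measurable f) (hg : Measurable g)
    (h : ∫⁻ z in X, (‖f z‖ₑ ^ 2 + ‖g z‖ₑ ^ 2) < ⊤) :
    IntegrableOn (fun z => jac (f z) (g z)) X := by
  refine Integrable.mono' (int_n2 hf hg h)
    (hA.meas_jac.comp (hf.prodMk hg)).aestronglyMeasurable ?_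
  exact ae_of_all _ fun z => by
    rw [Real.norm_eq_abs]
    exact hA.jac_le _ _

theorem int_mul {f g : ℂ → ℂ} (hf : Measurable f) (hg : Measurable g)
    (h1 : ∫⁻ z in X, ‖f z‖ₑ ^ 2 < ⊤) (h2 : ∫⁻ z in X, ‖g z‖ₑ ^ 2 < ⊤) :
    IntegrableOn (fun z => conj (f z) * g z) X := by
  have hm : Measurable fun z => conj (f z) * g z :=
    (Complex.continuous_conj.measurable.comp hf).mul hg
  refine Integrable.mono' ((intSq hf h1).add (intSq hg h2)) hm.aestronglyMeasurable ?_
  refine ae_of_all _ fun z => ?_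
  simp only [Pi.add_apply]
  rw [norm_mul, RCLike.norm_conj]
  nlinarith [sq_nonneg (‖f z‖ - ‖g z‖), norm_nonneg (f z), norm_nonneg (g z)]

/-- weak lower semicontinuity of the square integral on a set `S` -/
theorem lsc_sq {S : Set ℂ} (hSX : S ⊆ X) (hS : MeasurableSet S) {h : ℂ → ℂ} {k : ℕ → ℂ → ℂ}
    (hm : Measurable h) (km : ∀ n, Measurable (k n)) (hh : ∫⁻ z in X, ‖h z‖ₑ ^ 2 < ⊤)
    (hk : ∀ n, ∫⁻ z in X, ‖k n z‖ₑ ^ 2 < ⊤)
    (hw : ∀ u : ℂ → ℂ, Measurable u → ∫⁻ z in X, ‖u z‖ₑ ^ 2 < ⊤ →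
      Tendsto (fun n => ∫ z in X, u z * k n z) atTop (𝓝 (∫ z in X, u z * h z)))
    (η : ℝ) (hη : 0 < η) :
    ∀ᶠ n in atTop, ∫ z in S, ‖h z‖ ^ 2 ≤ (∫ z in S, ‖k n z‖ ^ 2) + η := by
  set u : ℂ → ℂ := S.indicator fun z => conj (h z) with hu
  have um : Measurable u := (Complex.continuous_conj.measurable.comp hm).indicator hS
  have u2 : ∫⁻ z in X, ‖u z‖ₑ ^ 2 < ⊤ := by
    refine lt_of_le_of_lt (lintegral_mono fun z => ?_) hh
    by_cases hz : z ∈ S
    · simp only [hu, indicator_of_mem hz]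
      rw [enorm_sq_eq, enorm_sq_eq, RCLike.norm_conj]
    · simp [hu, indicator_of_notMem hz]
  have key : ∀ g : ℂ → ℂ, ∫ z in X, u z * g z = ∫ z in S, conj (h z) * g z := by
    intro g
    have e : (fun z => u z * g z) = S.indicator fun z => conj (h z) * g z := by
      funext z
      by_cases hz : z ∈ S
      · simp [hu, indicator_of_mem hz]
      · simp [hu, indicator_of_notMem hz]
    rw [e, setIntegral_indicator hS, inter_eq_self_of_subset_right hSX]
  have h1 := hw u um u2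
  simp only [key] at h1
  have h2 : Tendsto (fun n => (∫ z in S, conj (h z) * k n z).re) atTop
      (𝓝 (∫ z in S, conj (h z) * h z).re) := (Complex.continuous_re.tendsto _).comp h1
  have iS : ∀ {g : ℂ → ℝ}, IntegrableOn g X → IntegrableOn g S := fun hg => hg.mono_set hSX
  have e1 : (∫ z in S, conj (h z) * h z).re = ∫ z in S, ‖h z‖ ^ 2 := by
    have hi : IntegrableOn (fun z => conj (h z) * h z) S := (int_mul hm hm hh hh).mono_set hSX
    rw [← Complex.reCLM_apply, ← Complex.reCLM.integral_comp_comm hi]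
    refine integral_congr_ae (ae_of_all _ fun z => ?_)
    simp only [Complex.reCLM_apply]
    rw [← Complex.normSq_eq_conj_mul_self, Complex.ofReal_re, Complex.normSq_eq_norm_sq]
  rw [e1] at h2
  have h3 : ∀ᶠ n in atTop, (∫ z in S, ‖h z‖ ^ 2) - η / 2 < (∫ z in S, conj (h z) * k n z).re :=
    h2.eventually (lt_mem_nhds (by linarith))
  filter_upwards [h3] with n hn
  have hi : IntegrableOn (fun z => conj (h z) * k n z) S :=
    (int_mul hm (km n) hh (hk n)).mono_set hSX
  have e2 : (∫ z in S, conj (h z) * k n z).re = ∫ z in S, (conj (h z) * k n z).re := by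
    rw [← Complex.reCLM_apply, ← Complex.reCLM.integral_comp_comm hi]
    rfl
  have hre : IntegrableOn (fun z => (conj (h z) * k n z).re) S := hi.re
  have h4 : ∫ z in S, (2 * (conj (h z) * k n z).re - ‖h z‖ ^ 2) ≤ ∫ z in S, ‖k n z‖ ^ 2 := by
    refine integral_mono_ae ((hre.const_mul 2).sub (iS (intSq hm hh)))
      (iS (intSq (km n) (hk n))) (ae_of_all _ fun z => ?_)
    simp only
    have e : ‖k n z - h z‖ ^ 2 = ‖k n z‖ ^ 2 - 2 * (conj (h z) * k n z).re + ‖h z‖ ^ 2 := by
      rw [← Complex.normSq_eq_norm_sq, ← Complex.normSq_eq_norm_sq, ← Complex.normSq_eq_norm_sq,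
        Complex.normSq_apply, Complex.normSq_apply, Complex.normSq_apply]
      simp
      ring
    have := sq_nonneg ‖k n z - h z‖
    linarith
  rw [integral_sub (hre.const_mul 2) (iS (intSq hm hh)), integral_const_mul, ← e2] at h4
  linarith

end Lsc

open Lsc in
theorem specLsc (hA : SpecAlg) (hW : SpecWeak) (hJ : SpecJusc) : SpecLsc := by
  intro p hp X h k kx ky M oX hM hk hwd hE hu
  have hb : ∀ n, ∫⁻ z in X, (‖kx n z‖ₑ ^ 2 + ‖ky n z‖ₑ ^ 2) ≤ 2 * M := by
    intro n
    calc ∫⁻ z in X, (‖kx n z‖ₑ ^ 2 + ‖ky n z‖ₑ ^ 2)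
        ≤ ∫⁻ z in X, 2 * PP p (kx n z) (ky n z) := by
          refine lintegral_mono fun z => ?_
          rw [two_n2]
          gcongr
          exact hA.n2_le_PP p hp _ _
      _ = 2 * ∫⁻ z in X, PP p (kx n z) (ky n z) := lintegral_const_mul' _ _ (by simp)
      _ ≤ 2 * M := by gcongr; exact hE n
  have hM2 : 2 * M < ⊤ := ENNReal.mul_lt_top (by simp) hM
  obtain ⟨hx, hy, hwdh, hfin, hweak⟩ := hW X h k kx ky (2 * M) oX hM2 hk hwd hb hu
  refine ⟨hx, hy, hwdh, fun E hEE => ?_⟩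
  have mPP : ∀ n, Measurable fun z => PP p (kx n z) (ky n z) := fun n =>
    (hA.meas_PP p).comp ((hwd n).mx.prodMk (hwd n).my)
  have hjac : ∀ n, ∀ᵐ z ∂(volume.restrict X), 0 ≤ jac (kx n z) (ky n z) := by
    intro n
    have := ae_lt_top (mPP n) (lt_of_le_of_lt (hE n) hM).ne
    filter_upwards [this] with z hz
    exact hA.jac_nonneg p _ _ hz
  have hJ' := hJ X h hx hy k kx ky (2 * M) oX hM2 hk hwd hb hu hwdh hfin hjac
  have bn : ∀ n, ∫⁻ z in X, (‖kx n z‖ₑ ^ 2 + ‖ky n z‖ₑ ^ 2) < ⊤ := fun n =>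
    lt_of_le_of_lt (hb n) hM2
  -- the property of functions
  set Good : (ℂ → ℝ≥0∞) → Prop := fun g => ∀ A ⊆ X, MeasurableSet A → ∀ ε : ℝ≥0∞, ε ≠ 0 →
    ∀ᶠ n in atTop, ∫⁻ z in A, g z ≤ (∫⁻ z in A, PP p (kx n z) (ky n z)) + ε with hGood
  have good_max : ∀ g₁ g₂ : ℂ → ℝ≥0∞, Measurable g₁ → Measurable g₂ → Good g₁ → Good g₂ →
      Good (g₁ ⊔ g₂) := by
    intro g₁ g₂ m₁ m₂ h₁ h₂ A hAX hAm ε hε
    have hB : MeasurableSet {z | g₂ z ≤ g₁ z} := measurableSet_le m₂ m₁
    have hε' : ε / 2 ≠ 0 := by simpa using hε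
    have e₁ := h₁ (A ∩ {z | g₂ z ≤ g₁ z}) (inter_subset_left.trans hAX) (hAm.inter hB) _ hε'
    have e₂ := h₂ (A \ {z | g₂ z ≤ g₁ z}) (sdiff_subset.trans hAX) (hAm.diff hB) _ hε'
    filter_upwards [e₁, e₂] with n q₁ q₂
    rw [← lintegral_inter_add_sdiff _ A hB, ← lintegral_inter_add_sdiff
      (fun z => PP p (kx n z) (ky n z)) A hB]
    have c₁ : ∫⁻ z in A ∩ {z | g₂ z ≤ g₁ z}, (g₁ ⊔ g₂) z =
        ∫⁻ z in A ∩ {z | g₂ z ≤ g₁ z}, g₁ z :=
      setLIntegral_congr_fun (hAm.inter hB) fun z hz => sup_eq_left.2 hz.2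
    have c₂ : ∫⁻ z in A \ {z | g₂ z ≤ g₁ z}, (g₁ ⊔ g₂) z =
        ∫⁻ z in A \ {z | g₂ z ≤ g₁ z}, g₂ z :=
      setLIntegral_congr_fun (hAm.diff hB) fun z hz =>
        sup_eq_right.2 (le_of_lt (not_le.1 hz.2))
    rw [c₁, c₂]
    calc _ ≤ _ := add_le_add q₁ q₂
      _ = _ := by
        rw [add_add_add_comm, ENNReal.add_halves]
  -- the functions of the duality
  set L : ℝ → (ℂ → ℂ) → (ℂ → ℂ) → ℂ → ℝ := fun l a b z =>
    p * l ^ (p - 1) * n2 (a z) (b z) - (p - 1) * l ^ p * jac (a z) (b z) with hL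
  have Lm : ∀ l a b, Measurable a → Measurable b → Measurable (L l a b) := by
    intro l a b ma mb
    exact ((hA.meas_n2.comp (ma.prodMk mb)).const_mul _).sub
      ((hA.meas_jac.comp (ma.prodMk mb)).const_mul _)
  have good_l : ∀ l : ℝ, 0 ≤ l → Good fun z => ENNReal.ofReal (L l hx hy z) := by
    intro l hl A hAX hAm ε hε
    have fm := Lm l hx hy hwdh.mx hwdh.my
    have fi : IntegrableOn (L l hx hy) X :=
      ((int_n2 hwdh.mx hwdh.my hfin).const_mul _).sub
        ((int_jac hA hwdh.mx hwdh.my hfin).const_mul _)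
    have hC : MeasurableSet {z | 0 < L l hx hy z} := measurableSet_lt measurable_const fm
    set B := A ∩ {z | 0 < L l hx hy z} with hB
    have Bm : MeasurableSet B := hAm.inter hC
    have BX : B ⊆ X := inter_subset_left.trans hAX
    have hε' : ε / 2 ≠ 0 := by simpa using hε
    have eAB : ∫⁻ z in A, ENNReal.ofReal (L l hx hy z) =
        ∫⁻ z in B, ENNReal.ofReal (L l hx hy z) := by
      rw [← lintegral_inter_add_sdiff (fun z => ENNReal.ofReal (L l hx hy z)) A hC]
      have : ∫⁻ z in A \ {z | 0 < L l hx hy z}, ENNReal.ofReal (L l hx hy z) = 0 := by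
        rw [setLIntegral_congr_fun (g := fun _ => 0) (hAm.diff hC) fun z hz => ?_]
        · simp
        · exact ENNReal.ofReal_of_nonpos (not_lt.1 hz.2)
      rw [this, add_zero]
    -- a compact subset
    set ν : Measure ℂ := (volume.restrict X).withDensity fun z => ENNReal.ofReal (L l hx hy z)
      with hν
    have : IsFiniteMeasure ν := isFiniteMeasure_withDensity_ofReal fi.2
    have νe : ∀ S : Set ℂ, MeasurableSet S → S ⊆ X →
        ν S = ∫⁻ z in S, ENNReal.ofReal (L l hx hy z) := by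
      intro S hS hSX
      rw [hν, withDensity_apply _ hS, Measure.restrict_restrict hS,
        inter_eq_self_of_subset_left hSX]
    obtain ⟨S, hSB, hSc, hlt⟩ := Bm.exists_isCompact_lt_add (μ := ν) (measure_ne_top ν B) hε'
    have Sm : MeasurableSet S := hSc.measurableSet
    have SX : S ⊆ X := hSB.trans BX
    rw [νe B Bm BX, νe S Sm SX] at hlt
    obtain ⟨δ, hδ0, hδ⟩ : ∃ δ : ℝ, 0 < δ ∧ ENNReal.ofReal δ ≤ ε / 2 := by
      obtain ⟨r, hr, hr'⟩ := ENNReal.lt_iff_exists_nnreal_btwn.1 (pos_iff_ne_zero.2 hε')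
      refine ⟨r, by exact_mod_cast hr, ?_⟩
      rw [ENNReal.ofReal_coe_nnreal]
      exact hr'.le
    have c1 : 0 ≤ p * l ^ (p - 1) := by positivity
    have c2 : 0 ≤ (p - 1) * l ^ p := mul_nonneg (by linarith) (by positivity)
    set c := p * l ^ (p - 1) + (p - 1) * l ^ p + 1 with hc
    have cpos : 0 < c := by positivity
    have ηpos : 0 < δ / c := div_pos hδ0 cpos
    have ev1 := lsc_sq SX Sm hwdh.mx (fun n => (hwd n).mx) (left_lt hfin)
      (fun n => left_lt (bn n)) (fun u mu u2 => (hweak u mu u2).1) (δ / c) ηpos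
    have ev2 := lsc_sq SX Sm hwdh.my (fun n => (hwd n).my) (right_lt hfin)
      (fun n => right_lt (bn n)) (fun u mu u2 => (hweak u mu u2).2) (δ / c) ηpos
    have ev3 := hJ' S SX hSc (δ / c) ηpos
    filter_upwards [ev1, ev2, ev3] with n q1 q2 q3
    have in2 : ∀ {a b : ℂ → ℂ}, Measurable a → Measurable b →
        ∫⁻ z in X, (‖a z‖ₑ ^ 2 + ‖b z‖ₑ ^ 2) < ⊤ →
        ∫ z in S, n2 (a z) (b z) = ((∫ z in S, ‖a z‖ ^ 2) + ∫ z in S, ‖b z‖ ^ 2) / 2 := by
      intro a b ma mb hab
      rw [← integral_add ((intSq ma (left_lt hab)).mono_set SX)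
        ((intSq mb (right_lt hab)).mono_set SX), ← integral_div]
      rfl
    have iL : ∀ {a b : ℂ → ℂ}, Measurable a → Measurable b →
        ∫⁻ z in X, (‖a z‖ₑ ^ 2 + ‖b z‖ₑ ^ 2) < ⊤ →
        ∫ z in S, L l a b z = p * l ^ (p - 1) * (∫ z in S, n2 (a z) (b z)) -
          (p - 1) * l ^ p * ∫ z in S, jac (a z) (b z) := by
      intro a b ma mb hab
      rw [hL]
      simp only
      rw [integral_sub (((int_n2 ma mb hab).mono_set SX).const_mul _)
        (((int_jac hA ma mb hab).mono_set SX).const_mul _), integral_const_mul,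
        integral_const_mul]
    have q4 : ∫ z in S, L l hx hy z ≤ (∫ z in S, L l (kx n) (ky n) z) + δ := by
      rw [iL hwdh.mx hwdh.my hfin, iL (hwd n).mx (hwd n).my (bn n), in2 hwdh.mx hwdh.my hfin,
        in2 (hwd n).mx (hwd n).my (bn n)]
      have hcd : c * (δ / c) = δ := by field_simp
      have r1 : p * l ^ (p - 1) * (((∫ z in S, ‖hx z‖ ^ 2) + ∫ z in S, ‖hy z‖ ^ 2) / 2) ≤
          p * l ^ (p - 1) * (((∫ z in S, ‖kx n z‖ ^ 2) + ∫ z in S, ‖ky n z‖ ^ 2) / 2 + δ / c) :=
        mul_le_mul_of_nonneg_left (by linarith) c1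
      have r2 := mul_le_mul_of_nonneg_left q3 c2
      have r3 : p * l ^ (p - 1) * (δ / c) + (p - 1) * l ^ p * (δ / c) ≤ δ := by
        have h5 : p * l ^ (p - 1) * (δ / c) + (p - 1) * l ^ p * (δ / c) = c * (δ / c) - δ / c := by
          rw [hc]
          ring
        rw [h5, hcd]
        linarith
      rw [mul_add] at r1 r2
      linarith
    have iLn : IntegrableOn (L l (kx n) (ky n)) S :=
      (((int_n2 (hwd n).mx (hwd n).my (bn n)).mono_set SX).const_mul _).sub
        (((int_jac hA (hwd n).mx (hwd n).my (bn n)).mono_set SX).const_mul _)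
    have q5 : ENNReal.ofReal (∫ z in S, L l (kx n) (ky n) z) ≤
        ∫⁻ z in S, PP p (kx n z) (ky n z) := by
      calc ENNReal.ofReal (∫ z in S, L l (kx n) (ky n) z)
          ≤ ENNReal.ofReal (∫ z in S, max (L l (kx n) (ky n) z) 0) := by
            refine ENNReal.ofReal_le_ofReal (integral_mono_ae iLn (iLn.pos_part)
              (ae_of_all _ fun z => le_max_left _ _))
        _ = ∫⁻ z in S, ENNReal.ofReal (max (L l (kx n) (ky n) z) 0) :=
            ofReal_integral_eq_lintegral_ofReal iLn.pos_part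
              (ae_of_all _ fun z => le_max_right _ _)
        _ ≤ ∫⁻ z in S, PP p (kx n z) (ky n z) := by
            refine lintegral_mono fun z => ?_
            rw [ENNReal.ofReal_max, ENNReal.ofReal_zero, max_le_iff]
            exact ⟨hA.young p hp l hl _ _, zero_le⟩
    have q6 : ∫⁻ z in S, ENNReal.ofReal (L l hx hy z) =
        ENNReal.ofReal (∫ z in S, L l hx hy z) := by
      rw [ofReal_integral_eq_lintegral_ofReal (fi.mono_set SX)]
      exact (ae_restrict_iff' Sm).2 (ae_of_all _ fun z hz => (hSB hz).2.le)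
    calc ∫⁻ z in A, ENNReal.ofReal (L l hx hy z)
        = ∫⁻ z in B, ENNReal.ofReal (L l hx hy z) := eAB
      _ ≤ (∫⁻ z in S, ENNReal.ofReal (L l hx hy z)) + ε / 2 := hlt.le
      _ ≤ ENNReal.ofReal ((∫ z in S, L l (kx n) (ky n) z) + δ) + ε / 2 := by
          rw [q6]
          gcongr
      _ ≤ (ENNReal.ofReal (∫ z in S, L l (kx n) (ky n) z) + ENNReal.ofReal δ) + ε / 2 := by
          gcongr
          exact ENNReal.ofReal_add_le
      _ ≤ ((∫⁻ z in S, PP p (kx n z) (ky n z)) + ε / 2) + ε / 2 := by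
          gcongr
      _ = (∫⁻ z in S, PP p (kx n z) (ky n z)) + ε := by
          rw [add_assoc, ENNReal.add_halves]
      _ ≤ (∫⁻ z in A, PP p (kx n z) (ky n z)) + ε := by
          gcongr
          exact hSB.trans inter_subset_left
  -- finite suprema
  obtain ⟨q, hq⟩ := exists_surjective_nat ℚ
  set g : ℕ → ℂ → ℝ≥0∞ := fun j z => ENNReal.ofReal (L |((q j : ℚ) : ℝ)| hx hy z) with hg
  have gm : ∀ j, Measurable (g j) := fun j =>
    (Lm _ hx hy hwdh.mx hwdh.my).ennreal_ofReal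
  have Gm : ∀ N, Measurable (partialSups g N) := by
    intro N
    induction N with
    | zero => simpa using gm 0
    | succ N ih =>
      rw [partialSups_add_one]
      exact ih.sup (gm _)
  have good_N : ∀ N, Good (partialSups g N) := by
    intro N
    induction N with
    | zero => simpa using good_l _ (abs_nonneg _)
    | succ N ih =>
      rw [partialSups_add_one]
      exact good_max _ _ (Gm N) (gm _) ih (good_l _ (abs_nonneg _))
  have bound : ∀ N, ∫⁻ z in X, partialSups g N z ≤ E := by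
    intro N
    refine ENNReal.le_of_forall_pos_le_add fun ε hε _ => ?_
    have h1 := good_N N X subset_rfl oX.measurableSet ε (by exact_mod_cast hε.ne')
    obtain ⟨n, h2, h3⟩ := (h1.and hEE).exists
    exact h2.trans (by gcongr)
  calc ∫⁻ z in X, PP p (hx z) (hy z)
      ≤ ∫⁻ z in X, ⨆ N, partialSups g N z := by
        refine lintegral_mono fun z => ?_
        refine (hA.youngsup p hp _ _).trans (iSup_le fun l => ?_)
        obtain ⟨j, rfl⟩ := hq l
        have : g j ≤ partialSups g j := le_partialSups g j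
        exact (this z).trans (le_iSup (fun N => partialSups g N z) j)
    _ = ⨆ N, ∫⁻ z in X, partialSups g N z :=
        lintegral_iSup Gm (fun a b hab z => (partialSups g).monotone hab z)
    _ ≤ E := iSup_le bound

end MPfa
end

section
/-!
Problem MP_fa0334_an, module LUSIN: continuous `W^{1,2}` maps of the plane with the boundary
principle map null sets to null sets.
-/
set_option autoImplicit false

open MeasureTheory Set Filter Topology Metric
open scoped ENNReal

namespace MPfa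

lemma lu_vol_closedBall (z : ℂ) (r : ℝ) (hr : 0 ≤ r) :
    volume (closedBall z r) = ENNReal.ofReal (r ^ 2 * Real.pi) := by
  have hpi : ENNReal.ofReal Real.pi = (NNReal.pi : ℝ≥0∞) := by
    rw [ENNReal.ofReal_eq_coe_nnreal Real.pi_pos.le]
    rfl
  rw [Complex.volume_closedBall, ← hpi, ← ENNReal.ofReal_pow hr,
    ← ENNReal.ofReal_mul (by positivity)]

/-- measures above Lebesgue measure satisfy a doubling inequality at small scales -/
lemma exists_doubling (μ : Measure ℂ) (z : ℂ) (ρ : ℝ) (hρ : 0 < ρ)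
    (hfin : μ (closedBall z ρ) ≠ ⊤)
    (hge : ∀ r, 0 < r → r ≤ ρ → volume (closedBall z r) ≤ μ (closedBall z r)) :
    ∃ r, 0 < r ∧ 10 * r ≤ ρ ∧ μ (closedBall z (10 * r)) ≤ 200 * μ (closedBall z r) := by
  by_contra hcon
  push Not at hcon
  have h1 : ∀ j : ℕ, 200 ^ j * μ (closedBall z (ρ / 10 ^ j)) ≤ μ (closedBall z ρ) := by
    intro j
    induction j with
    | zero => simp
    | succ j ih =>
      refine le_trans ?_ ih
      have hp : (0 : ℝ) < 10 ^ (j + 1) := by positivity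
      have h2 := hcon (ρ / 10 ^ (j + 1)) (by positivity) (by
        rw [pow_succ, ← mul_div_assoc, div_le_iff₀ (by positivity)]
        have h3 : (1 : ℝ) ≤ 10 ^ j := one_le_pow₀ (by norm_num)
        nlinarith)
      have h4 : 10 * (ρ / 10 ^ (j + 1)) = ρ / 10 ^ j := by
        rw [pow_succ]
        field_simp
      rw [h4] at h2
      calc 200 ^ (j + 1) * μ (closedBall z (ρ / 10 ^ (j + 1)))
          = 200 ^ j * (200 * μ (closedBall z (ρ / 10 ^ (j + 1)))) := by rw [pow_succ, mul_assoc]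
        _ ≤ 200 ^ j * μ (closedBall z (ρ / 10 ^ j)) := by gcongr
  obtain ⟨j, hj⟩ := pow_unbounded_of_one_lt ((μ (closedBall z ρ)).toReal / (ρ ^ 2 * Real.pi))
    (show (1 : ℝ) < 2 by norm_num)
  have hpos : 0 < ρ ^ 2 * Real.pi := by positivity
  rw [div_lt_iff₀ hpos] at hj
  have h2 : ENNReal.ofReal (2 ^ j * (ρ ^ 2 * Real.pi)) ≤ μ (closedBall z ρ) := by
    refine le_trans ?_ (h1 j)
    have hp : (0 : ℝ) < 10 ^ j := by positivity
    have h3 := hge (ρ / 10 ^ j) (by positivity) (by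
      rw [div_le_iff₀ hp]
      have h3 : (1 : ℝ) ≤ 10 ^ j := one_le_pow₀ (by norm_num)
      nlinarith)
    rw [lu_vol_closedBall _ _ (by positivity)] at h3
    calc ENNReal.ofReal (2 ^ j * (ρ ^ 2 * Real.pi))
        = ENNReal.ofReal (200 ^ j * ((ρ / 10 ^ j) ^ 2 * Real.pi)) := by
          congr 1
          have : (200 : ℝ) ^ j = 2 ^ j * (10 ^ j) ^ 2 := by
            rw [← pow_mul, mul_comm j 2, pow_mul, ← mul_pow]
            norm_num
          rw [this]
          field_simp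
      _ = 200 ^ j * ENNReal.ofReal ((ρ / 10 ^ j) ^ 2 * Real.pi) := by
          rw [ENNReal.ofReal_mul (by positivity), ENNReal.ofReal_pow (by norm_num)]
          norm_num
      _ ≤ 200 ^ j * μ (closedBall z (ρ / 10 ^ j)) := by gcongr
  rw [ENNReal.ofReal_le_iff_le_toReal hfin] at h2
  linarith

/-- area of the image of a ball -/
lemma lu_vol_image_ball (hOsc : SpecOsc) (G : Set ℂ) (F Fx Fy : ℂ → ℂ) (hM : Mon G F Fx Fy)
    (c : ℂ) (s : ℝ) (hs : 0 < s) (hc : closedBall c (2 * s) ⊆ G)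
    (hfin : ∫⁻ w in ball c (2 * s), (‖Fx w‖ₑ ^ 2 + ‖Fy w‖ₑ ^ 2) ≠ ⊤) :
    volume (F '' ball c s) ≤ ENNReal.ofReal (2 * Real.pi ^ 2 / Real.log 2) *
      ∫⁻ w in ball c (2 * s), (‖Fx w‖ₑ ^ 2 + ‖Fy w‖ₑ ^ 2) := by
  set I : ℝ≥0∞ := ∫⁻ w in ball c (2 * s), (‖Fx w‖ₑ ^ 2 + ‖Fy w‖ₑ ^ 2) with hI
  have hlog : 0 < Real.log 2 := Real.log_pos (by norm_num)
  set D : ℝ := Real.sqrt (2 * Real.pi * I.toReal / Real.log 2) with hD
  have hD0 : 0 ≤ D := Real.sqrt_nonneg _
  have hD2 : D ^ 2 = 2 * Real.pi * I.toReal / Real.log 2 := by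
    rw [hD]
    exact Real.sq_sqrt (by positivity)
  have h1 : F '' ball c s ⊆ closedBall (F c) D := by
    rintro _ ⟨z, hz, rfl⟩
    have h2 := (hOsc G F Fx Fy hM c s (2 * s) hs (by linarith) hc z hz c
      (mem_ball_self hs)).2
    rw [← hI, mul_div_cancel_right₀ _ hs.ne'] at h2
    have h3 : I = ENNReal.ofReal I.toReal := (ENNReal.ofReal_toReal hfin).symm
    rw [h3, ← ENNReal.ofReal_mul (by positivity),
      ENNReal.ofReal_le_ofReal_iff (by positivity)] at h2
    rw [mem_closedBall, dist_eq_norm]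
    rw [hD]
    apply Real.le_sqrt_of_sq_le
    rw [le_div_iff₀ hlog]
    linarith
  refine (measure_mono h1).trans ?_
  rw [lu_vol_closedBall _ _ hD0, hD2]
  conv_rhs => rw [← ENNReal.ofReal_toReal hfin, ← ENNReal.ofReal_mul (by positivity)]
  apply ENNReal.ofReal_le_ofReal
  apply le_of_eq
  field_simp

lemma lusin_local (hOsc : SpecOsc) (G : Set ℂ) (F Fx Fy : ℂ → ℂ) (hM : Mon G F Fx Fy)
    (z₀ : ℂ) (r₀ : ℝ) (hr₀ : 0 < r₀) (hK : closedBall z₀ (2 * r₀) ⊆ G)
    (hfin : ∫⁻ w in closedBall z₀ (2 * r₀), (‖Fx w‖ₑ ^ 2 + ‖Fy w‖ₑ ^ 2) ≠ ⊤)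
    (N : Set ℂ) (hN : N ⊆ ball z₀ r₀) (hN0 : volume N = 0) : volume (F '' N) = 0 := by
  set K : Set ℂ := closedBall z₀ (2 * r₀) with hKdef
  have hKm : MeasurableSet K := isClosed_closedBall.measurableSet
  set g : ℂ → ℝ≥0∞ := fun w => ‖Fx w‖ₑ ^ 2 + ‖Fy w‖ₑ ^ 2 with hg
  have hgm : Measurable g := (hM.wd.mx.enorm.pow_const 2).add (hM.wd.my.enorm.pow_const 2)
  have hgm1 : Measurable fun w => 1 + g w := measurable_const.add hgm
  set μ : Measure ℂ := (volume.restrict K).withDensity (fun w => 1 + g w) with hμ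
  have hKv : volume K ≠ ⊤ := by
    rw [hKdef, lu_vol_closedBall _ _ (by positivity)]
    exact ENNReal.ofReal_ne_top
  have hfin1 : ∫⁻ w in K, (1 + g w) ≠ ⊤ := by
    rw [lintegral_add_left measurable_const]
    simp only [lintegral_const, one_mul, Measure.restrict_apply_univ]
    exact ENNReal.add_ne_top.2 ⟨hKv, hfin⟩
  have : IsFiniteMeasure μ := isFiniteMeasure_withDensity hfin1
  have hμS : ∀ S : Set ℂ, MeasurableSet S → S ⊆ K → μ S = ∫⁻ w in S, (1 + g w) := by
    intro S hS hSK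
    rw [hμ, withDensity_apply _ hS, Measure.restrict_restrict hS, inter_eq_left.2 hSK]
  have hμN : μ N = 0 := by
    have h1 : (volume.restrict K) N = 0 :=
      Measure.absolutelyContinuous_of_le Measure.restrict_le_self hN0
    exact withDensity_absolutelyContinuous _ _ h1
  set C : ℝ := 2 * Real.pi ^ 2 / Real.log 2 with hC
  have hlog : 0 < Real.log 2 := Real.log_pos (by norm_num)
  have hC0 : 0 ≤ C := by positivity
  have key : ∀ δ : ℝ, 0 < δ → volume (F '' N) ≤ ENNReal.ofReal (C * 200 * δ) := by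
    intro δ hδ
    obtain ⟨O, hNO, hO, hμO⟩ := N.exists_isOpen_lt_of_lt (μ := μ) (ENNReal.ofReal δ)
      (by rw [hμN]; exact ENNReal.ofReal_pos.2 hδ)
    have hO'o : IsOpen (O ∩ ball z₀ (2 * r₀)) := hO.inter isOpen_ball
    have hex : ∀ z : N, ∃ r : ℝ, 0 < r ∧ r ≤ 1 ∧ closedBall (z : ℂ) (10 * r) ⊆ O ∧
        closedBall (z : ℂ) (10 * r) ⊆ K ∧
        μ (closedBall (z : ℂ) (10 * r)) ≤ 200 * μ (closedBall (z : ℂ) r) := by
      rintro ⟨z, hz⟩
      have hzO : z ∈ O ∩ ball z₀ (2 * r₀) := by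
        refine ⟨hNO hz, ?_⟩
        have := mem_ball.1 (hN hz)
        rw [mem_ball]
        linarith
      obtain ⟨ρ, hρ, hρO⟩ := Metric.isOpen_iff.1 hO'o z hzO
      have hρ2 : 0 < min (ρ / 2) 1 := lt_min (by linarith) one_pos
      have hsub : closedBall z (min (ρ / 2) 1) ⊆ O ∩ ball z₀ (2 * r₀) :=
        (closedBall_subset_ball (by
          have := min_le_left (ρ / 2) 1
          linarith)).trans hρO
      have hsubK : closedBall z (min (ρ / 2) 1) ⊆ K :=
        fun w hw => ball_subset_closedBall (hsub hw).2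
      obtain ⟨r, hr, hr10, hdb⟩ := exists_doubling μ z (min (ρ / 2) 1) hρ2
        (measure_ne_top μ _) (by
          intro r hr hrρ
          rw [hμS _ isClosed_closedBall.measurableSet
            ((closedBall_subset_closedBall hrρ).trans hsubK)]
          calc volume (closedBall z r) = ∫⁻ w in closedBall z r, 1 := by simp
            _ ≤ ∫⁻ w in closedBall z r, (1 + g w) := lintegral_mono fun w => le_self_add)
      refine ⟨r, hr, ?_, ?_, ?_, hdb⟩
      · have := min_le_right (ρ / 2) 1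
        linarith
      · exact (closedBall_subset_closedBall hr10).trans fun w hw => (hsub hw).1
      · exact (closedBall_subset_closedBall hr10).trans hsubK
    choose r hr hr1 hrO hrK hrd using hex
    obtain ⟨u, -, hdisj, hcov⟩ := Vitali.exists_disjoint_subfamily_covering_enlargement_closedBall
      (univ : Set N) (fun z => (z : ℂ)) r 1 (fun z _ => hr1 z) 4 (by norm_num)
    have hucount : u.Countable := by
      apply hdisj.countable_of_nonempty_interior
      intro z _
      refine ⟨(z : ℂ), ?_⟩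
      rw [mem_interior_iff_mem_nhds]
      exact closedBall_mem_nhds _ (hr z)
    have hsub : F '' N ⊆ ⋃ b ∈ u, F '' ball (b : ℂ) (5 * r b) := by
      rintro _ ⟨z, hz, rfl⟩
      obtain ⟨b, hb, hsb⟩ := hcov ⟨z, hz⟩ (mem_univ _)
      rw [mem_iUnion₂]
      refine ⟨b, hb, z, ?_, rfl⟩
      have h1 := hsb (mem_closedBall_self (hr ⟨z, hz⟩).le)
      rw [mem_closedBall] at h1
      rw [mem_ball]
      have := hr b
      linarith
    calc volume (F '' N) ≤ volume (⋃ b ∈ u, F '' ball (b : ℂ) (5 * r b)) := measure_mono hsub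
      _ ≤ ∑' b : u, volume (F '' ball ((b : N) : ℂ) (5 * r b)) := measure_biUnion_le _ hucount _
      _ ≤ ∑' b : u, ENNReal.ofReal C * 200 * μ (closedBall ((b : N) : ℂ) (r b)) := by
          apply ENNReal.tsum_le_tsum
          intro b
          have e1 : 2 * (5 * r b) = 10 * r b := by ring
          have hb := hr b
          have h2 : ∫⁻ w in ball ((b : N) : ℂ) (2 * (5 * r b)), g w ≤
              μ (closedBall ((b : N) : ℂ) (10 * r b)) := by
            rw [e1, hμS _ isClosed_closedBall.measurableSet (hrK b)]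
            calc ∫⁻ w in ball ((b : N) : ℂ) (10 * r b), g w
                ≤ ∫⁻ w in closedBall ((b : N) : ℂ) (10 * r b), g w :=
                  lintegral_mono_set ball_subset_closedBall
              _ ≤ ∫⁻ w in closedBall ((b : N) : ℂ) (10 * r b), (1 + g w) :=
                  lintegral_mono fun w => le_add_self
          have h3 := lu_vol_image_ball hOsc G F Fx Fy hM (b : N) (5 * r b) (by linarith)
            (by rw [e1]; exact (hrK b).trans hK)
            ((h2.trans_lt (measure_lt_top μ _)).ne)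
          calc volume (F '' ball ((b : N) : ℂ) (5 * r b))
              ≤ ENNReal.ofReal C * ∫⁻ w in ball ((b : N) : ℂ) (2 * (5 * r b)), g w := h3
            _ ≤ ENNReal.ofReal C * (200 * μ (closedBall ((b : N) : ℂ) (r b))) := by
                gcongr
                exact h2.trans (hrd b)
            _ = _ := by rw [mul_assoc]
      _ = ENNReal.ofReal C * 200 * ∑' b : u, μ (closedBall ((b : N) : ℂ) (r b)) := by
          rw [ENNReal.tsum_mul_left]
      _ = ENNReal.ofReal C * 200 * μ (⋃ b ∈ u, closedBall ((b : N) : ℂ) (r b)) := by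
          rw [measure_biUnion hucount hdisj fun b _ => isClosed_closedBall.measurableSet]
      _ ≤ ENNReal.ofReal C * 200 * ENNReal.ofReal δ := by
          gcongr
          refine (measure_mono ?_).trans hμO.le
          rw [iUnion₂_subset_iff]
          intro b _
          refine (closedBall_subset_closedBall ?_).trans (hrO b)
          have := hr b
          linarith
      _ = ENNReal.ofReal (C * 200 * δ) := by
          rw [ENNReal.ofReal_mul (by positivity), ENNReal.ofReal_mul hC0]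
          norm_num
  have ht : Tendsto (fun δ : ℝ => ENNReal.ofReal (C * 200 * δ)) (𝓝[>] 0) (𝓝 0) := by
    have h1 : Tendsto (fun δ : ℝ => ENNReal.ofReal (C * 200 * δ)) (𝓝 0)
        (𝓝 (ENNReal.ofReal (C * 200 * 0))) :=
      (ENNReal.continuous_ofReal.comp (by fun_prop)).tendsto 0
    simpa using h1.mono_left nhdsWithin_le_nhds
  exact le_antisymm (ge_of_tendsto ht (eventually_nhdsWithin_of_forall fun δ hδ => key δ hδ))
    bot_le

theorem specLusin (hOsc : SpecOsc) : SpecLusin := by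
  intro G F Fx Fy hM hx hy N hNG hN
  -- countable cover by small balls
  have h1 : ∀ z ∈ G, ∃ r : ℝ, 0 < r ∧ closedBall z (2 * r) ⊆ G := by
    intro z hz
    obtain ⟨ρ, hρ, hρG⟩ := Metric.isOpen_iff.1 hM.op z hz
    exact ⟨ρ / 4, by linarith, (closedBall_subset_ball (by linarith)).trans hρG⟩
  choose! r hr hrG using h1
  obtain ⟨T, hTG, hTc, hT⟩ := TopologicalSpace.countable_cover_nhdsWithin
    (s := G) (f := fun z => ball z (r z)) fun z hz =>
      mem_nhdsWithin_of_mem_nhds (ball_mem_nhds z (hr z hz))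
  have h2 : F '' N ⊆ ⋃ z ∈ T, F '' (N ∩ ball z (r z)) := by
    rintro _ ⟨w, hw, rfl⟩
    have h3 := hT (hNG hw)
    rw [mem_iUnion₂] at h3 ⊢
    obtain ⟨z, hz, hwz⟩ := h3
    exact ⟨z, hz, w, ⟨hw, hwz⟩, rfl⟩
  refine measure_mono_null h2 ((measure_biUnion_null_iff hTc).2 fun z hz => ?_)
  have hzG := hTG hz
  refine lusin_local hOsc G F Fx Fy hM z (r z) (hr z hzG) (hrG z hzG) ?_ _ inter_subset_right
    (measure_mono_null inter_subset_left hN)
  rw [lintegral_add_left (hM.wd.mx.enorm.pow_const 2)]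
  exact ENNReal.add_ne_top.2 ⟨(hx _ (hrG z hzG) (isCompact_closedBall _ _)).ne,
    (hy _ (hrG z hzG) (isCompact_closedBall _ _)).ne⟩

end MPfa
end

section
/-!
Problem MP_fa0334_an, module MU: `|Re ζ|` is constant on connected parts of a fibre.
-/
set_option autoImplicit false

open MeasureTheory Set Filter Topology Metric Complex
open scoped ContDiff ENNReal ComplexConjugate

namespace MPfa

namespace MuM

theorem exp_pow (k : ℕ) (j : ℤ) :
    Complex.exp (2 * Real.pi * I * j / (k + 2)) ^ (k + 2) = 1 := by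
  rw [← Complex.exp_nat_mul]
  have hk : ((k : ℂ) + 2) ≠ 0 := by
    have : ((k + 2 : ℕ) : ℂ) ≠ 0 := Nat.cast_ne_zero.2 (by omega)
    push_cast at this
    exact this
  have h : ((k + 2 : ℕ) : ℂ) * (2 * Real.pi * I * j / (k + 2)) = j * (2 * Real.pi * I) := by
    push_cast
    field_simp
  rw [h, Complex.exp_int_mul_two_pi_mul_I]

theorem exp_norm (k : ℕ) (j : ℤ) :
    ‖Complex.exp (2 * Real.pi * I * j / (k + 2))‖ = 1 := by
  have h := congrArg norm (exp_pow k j)
  rw [norm_pow, norm_one] at h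
  exact (pow_eq_one_iff_of_nonneg (norm_nonneg _) (by omega)).1 h

/-- the function `m` -/
noncomputable def mm (k : ℕ) (w : ℂ) : ℝ := ‖w‖ ^ (k + 2) + (w ^ (k + 2)).re

theorem mm_nonneg (k : ℕ) (w : ℂ) : 0 ≤ mm k w := by
  have h := Complex.abs_re_le_norm (w ^ (k + 2))
  rw [norm_pow] at h
  have := neg_abs_le (w ^ (k + 2)).re
  unfold mm
  linarith

theorem mm_cont (k : ℕ) : Continuous (mm k) := by
  unfold mm
  exact (continuous_norm.pow _).add (Complex.continuous_re.comp (continuous_id.pow _))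

theorem mm_half (hH : SpecHalf) (k : ℕ) (j : ℤ) (ζ : ℂ) :
    mm k (Complex.exp (2 * Real.pi * I * j / (k + 2)) * hc k ζ) = 2 * ζ.re ^ 2 := by
  unfold mm
  rw [mul_pow, exp_pow, one_mul, norm_mul, exp_norm, one_mul, hH.pow, hH.nrm]
  rw [← Complex.normSq_eq_norm_sq, Complex.normSq_apply]
  simp only [pow_two, Complex.mul_re]
  ring

theorem null (hV : SpecVL) (hH : SpecHalf) (p : ℝ) (hp : 1 < p) (D : Set ℂ)
    (Ψ H Hx Hy : ℂ → ℂ) (k : ℕ) (t : ℂ) (r : ℝ) (g : ℂ → ℂ) (c : ℂ)
    (hN : NM p D Ψ H Hx Hy) (hC : Chart D Ψ k t r g) :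
    volume (mm k '' {w | w ∈ ball (0 : ℂ) r ∧ H (g w) = c}) = 0 := by
  -- the null sets in the half charts
  set Z : ℕ → Set ℝ := fun j => {u : ℝ | ∃ v : ℝ, (⟨u, v⟩ : ℂ) ∈ HD k r ∧
    H (g (Complex.exp (2 * Real.pi * I * ((j : ℤ) : ℂ) / (k + 2)) * hc k ⟨u, v⟩)) = c} with hZ
  have hZ0 : ∀ j, volume (Z j) = 0 := by
    intro j
    obtain ⟨Gx, Gy, hG⟩ := hH.nm p hp D Ψ H Hx Hy k t r _ hN (hH.rot D Ψ k t r g (j : ℤ) hC)
    exact hV p hp (HD k r) _ Gx Gy hG c
  have hsub : mm k '' {w | w ∈ ball (0 : ℂ) r ∧ H (g w) = c} ⊆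
      {0} ∪ ⋃ j : ℕ, (fun u : ℝ => 2 * u ^ 2) '' Z j := by
    rintro _ ⟨w, ⟨hw, hcw⟩, rfl⟩
    rcases (mm_nonneg k w).eq_or_lt with h0 | h0
    · left
      exact h0.symm
    · right
      obtain ⟨j, ζ, hζ, hwζ⟩ := hH.cover k w h0
      have hj : ((j : ℤ) : ℂ) = (j : ℂ) := by push_cast; rfl
      rw [← hj] at hwζ
      refine mem_iUnion.2 ⟨j, ζ.re, ⟨ζ.im, ⟨hζ, ?_⟩, ?_⟩, ?_⟩
      · have h1 : ‖w‖ = ‖hc k ζ‖ := by rw [hwζ, norm_mul, exp_norm, one_mul]
        have h2 : ‖hc k ζ‖ ^ (k + 2) < r ^ (k + 2) := by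
          rw [← h1]
          exact pow_lt_pow_left₀ (by simpa using hw) (norm_nonneg _) (by omega)
        rw [hH.nrm] at h2
        exact h2
      · rw [← hcw, hwζ]
      · rw [hwζ, mm_half hH]
  refine measure_mono_null hsub ?_
  rw [measure_union_null_iff]
  refine ⟨by simp, measure_iUnion_null fun j => ?_⟩
  refine addHaar_image_eq_zero_of_differentiableOn_of_addHaar_eq_zero volume ?_ (hZ0 j)
  exact (by fun_prop : Differentiable ℝ fun u : ℝ => 2 * u ^ 2).differentiableOn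

end MuM

open MuM in
/-- E9. MU -/
theorem specMu (hV : SpecVL) (hH : SpecHalf) : SpecMu := by
  intro p hp D Ψ H Hx Hy k t r g c T hN hC hT hTr hTc
  have hnull := null hV hH p hp D Ψ H Hx Hy k t r g c hN hC
  have hconn : (mm k '' T).OrdConnected := (hT.image _ (mm_cont k).continuousOn).ordConnected
  have key : ∀ w ∈ T, ∀ w' ∈ T, ¬ mm k w < mm k w' := by
    intro w hw w' hw' hlt
    have h1 : Icc (mm k w) (mm k w') ⊆ mm k '' {w | w ∈ ball (0 : ℂ) r ∧ H (g w) = c} :=
      (hconn.out ⟨w, hw, rfl⟩ ⟨w', hw', rfl⟩).trans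
        (image_mono fun z hz => ⟨hTr hz, hTc z hz⟩)
    have h2 := measure_mono_null h1 hnull
    rw [Real.volume_Icc, ENNReal.ofReal_eq_zero] at h2
    linarith
  intro w hw w' hw'
  have a := key w hw w' hw'
  have b := key w' hw' w hw
  exact le_antisymm (not_lt.1 b) (not_lt.1 a)

end MPfa
end
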