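import Pool.Agent.Lib.MP_fa0334_an.Spec

/-!
Module ODE: linear second order equations with holomorphic coefficient on the unit disc.
-/

set_option autoImplicit false

open MeasureTheory Set Filter Topology Metric Complex
open scoped ContDiff ENNReal ComplexConjugate Nat

namespace MPfa
namespace OdeM

/-- right-hand side of the first order system -/
def L (Q : ℂ → ℂ) (z : ℂ) (v : ℂ × ℂ) : ℂ × ℂ := (v.2, Q z * v.1)

lemma L_norm {Q : ℂ → ℂ} {z : ℂ} {B : ℝ} (hB : 1 ≤ B) (hQ : ‖Q z‖ ≤ B) (v : ℂ × ℂ) :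
    ‖L Q z v‖ ≤ B * ‖v‖ := by
  have h1 : ‖v.1‖ ≤ ‖v‖ := norm_fst_le v
  have h2 : ‖v.2‖ ≤ ‖v‖ := norm_snd_le v
  have h0 : 0 ≤ ‖v‖ := norm_nonneg v
  rw [Prod.norm_def]
  apply max_le
  · simp only [L]
    nlinarith
  · simp only [L, norm_mul]
    exact mul_le_mul hQ h1 (norm_nonneg _) (by linarith)

lemma L_sub (Q : ℂ → ℂ) (z : ℂ) (v w : ℂ × ℂ) : L Q z v - L Q z w = L Q z (v - w) := by
  ext <;> simp [L, mul_sub]

lemma seg_mem {o z : ℂ} {t : ℝ} (ht : t ∈ Icc (0 : ℝ) 1) : o + (t : ℂ) * (z - o) ∈ segment ℝ o z := by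
  rw [segment_eq_image']
  exact ⟨t, ht, by simp⟩

/-- integration of a bound along a segment -/
lemma seg_bound {o z : ℂ} {f f' : ℂ → ℂ × ℂ} (hf : ∀ w ∈ segment ℝ o z, HasDerivAt f (f' w) w)
    (h0 : f o = 0) {C : ℝ} {n : ℕ} (hb : ∀ w ∈ segment ℝ o z, ‖f' w‖ ≤ C * ‖w - o‖ ^ n / n !) :
    ‖f z‖ ≤ C * ‖z - o‖ ^ (n + 1) / (n + 1)! := by
  have hφ : ∀ t ∈ Icc (0 : ℝ) 1, HasDerivAt (fun t : ℝ => f (o + (t : ℂ) * (z - o)))
      ((z - o) • f' (o + (t : ℂ) * (z - o))) t := by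
    intro t ht
    have h1 : HasDerivAt (fun t : ℝ => o + (t : ℂ) * (z - o)) (z - o) t := by
      have h2 : HasDerivAt (fun t : ℝ => (t : ℂ)) 1 t := Complex.ofRealCLM.hasDerivAt
      simpa using (h2.mul_const (z - o)).const_add o
    exact (hf _ (seg_mem ht)).scomp t h1
  have hB : ∀ t : ℝ, HasDerivAt (fun t : ℝ => C * ‖z - o‖ ^ (n + 1) * t ^ (n + 1) / (n + 1)!)
      (C * ‖z - o‖ ^ (n + 1) * t ^ n / n !) t := by
    intro t
    have h1 := ((hasDerivAt_pow (n + 1) t).const_mul (C * ‖z - o‖ ^ (n + 1))).div_const ((n + 1)! : ℝ)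
    refine h1.congr_deriv ?_
    rw [Nat.factorial_succ]
    push_cast
    have h2 : (n ! : ℝ) ≠ 0 := by positivity
    have h3 : (n : ℝ) + 1 ≠ 0 := by positivity
    field_simp
  have := image_norm_le_of_norm_deriv_right_le_deriv_boundary (a := 0) (b := 1)
    (f := fun t : ℝ => f (o + (t : ℂ) * (z - o)))
    (f' := fun t : ℝ => (z - o) • f' (o + (t : ℂ) * (z - o)))
    (fun t ht => (hφ t ht).continuousAt.continuousWithinAt)
    (fun t ht => (hφ t ⟨ht.1, ht.2.le⟩).hasDerivWithinAt)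
    (B := fun t : ℝ => C * ‖z - o‖ ^ (n + 1) * t ^ (n + 1) / (n + 1)!)
    (B' := fun t : ℝ => C * ‖z - o‖ ^ (n + 1) * t ^ n / n !)
    (by simp [h0]) hB
    (by
      intro t ht
      have ht' : t ∈ Icc (0 : ℝ) 1 := ⟨ht.1, ht.2.le⟩
      have h1 := hb _ (seg_mem (o := o) (z := z) ht')
      have h2 : ‖o + (t : ℂ) * (z - o) - o‖ = t * ‖z - o‖ := by
        rw [add_sub_cancel_left, norm_mul, Complex.norm_real, Real.norm_of_nonneg ht.1]
      rw [h2] at h1
      rw [norm_smul]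
      calc ‖z - o‖ * ‖f' (o + (t : ℂ) * (z - o))‖
          ≤ ‖z - o‖ * (C * (t * ‖z - o‖) ^ n / n !) :=
            mul_le_mul_of_nonneg_left h1 (norm_nonneg _)
        _ = C * ‖z - o‖ ^ (n + 1) * t ^ n / n ! := by
            rw [mul_pow]; ring)
    (show (1 : ℝ) ∈ Icc (0 : ℝ) 1 by simp)
  simpa using this

lemma seg_sub {o z : ℂ} {R : ℝ} (ho : ‖o‖ ≤ R) (hz : ‖z‖ ≤ R) {w : ℂ} (hw : w ∈ segment ℝ o z) :
    ‖w‖ ≤ R := by
  have h1 : w ∈ closedBall (0 : ℂ) R := (convex_closedBall (0 : ℂ) R).segment_subset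
    (by simpa using ho) (by simpa using hz) hw
  simpa using h1

lemma seg_dist {o z w : ℂ} (hw : w ∈ segment ℝ o z) : segment ℝ o w ⊆ segment ℝ o z :=
  (convex_segment o z).segment_subset (left_mem_segment ℝ o z) hw

/-- existence for the first order system on the disc -/
lemma exists_sol (Q : ℂ → ℂ) (hQ : DifferentiableOn ℂ Q (ball 0 1)) (o : ℂ)
    (ho : o ∈ ball (0 : ℂ) 1) (v : ℂ × ℂ) :
    ∃ Y : ℂ → ℂ × ℂ, Y o = v ∧ ∀ z ∈ ball (0 : ℂ) 1, HasDerivAt Y (L Q z (Y z)) z := by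
  have step : ∀ f : ℂ → ℂ × ℂ, ∃ g : ℂ → ℂ × ℂ, DifferentiableOn ℂ f (ball 0 1) →
      (g o = v ∧ ∀ z ∈ ball (0 : ℂ) 1, HasDerivAt g (L Q z (f z)) z) := by
    intro f
    by_cases hf : DifferentiableOn ℂ f (ball 0 1)
    · have h1 : DifferentiableOn ℂ (fun z => L Q z (f z)) (ball 0 1) := by
        have ha : DifferentiableOn ℂ (fun z => (f z).1) (ball 0 1) :=
          differentiable_fst.comp_differentiableOn hf
        have hb : DifferentiableOn ℂ (fun z => (f z).2) (ball 0 1) :=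
          differentiable_snd.comp_differentiableOn hf
        exact hb.prodMk (hQ.mul ha)
      obtain ⟨g, hg, hg'⟩ := h1.isExactOn_ball.with_val_at o v
      exact ⟨g, fun _ => ⟨hg, hg'⟩⟩
    · exact ⟨0, fun h => absurd h hf⟩
  choose S hS using step
  let F : ℕ → ℂ → ℂ × ℂ := fun n => S^[n] (fun _ => v)
  have F0 : F 0 = fun _ => v := rfl
  have Fs : ∀ n, F (n + 1) = S (F n) := fun n => Function.iterate_succ_apply' S n _
  have Fd : ∀ n, DifferentiableOn ℂ (F n) (ball 0 1) := by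
    intro n
    induction n with
    | zero => rw [F0]; exact differentiableOn_const _
    | succ n ih =>
      rw [Fs]
      exact fun z hz => ((hS _ ih).2 z hz).differentiableAt.differentiableWithinAt
  have Fo : ∀ n, F n o = v := by
    intro n
    cases n with
    | zero => rfl
    | succ n => rw [Fs]; exact (hS _ (Fd n)).1
  have Fder : ∀ n, ∀ z ∈ ball (0 : ℂ) 1, HasDerivAt (F (n + 1)) (L Q z (F n z)) z := by
    intro n z hz
    rw [Fs]
    exact (hS _ (Fd n)).2 z hz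
  -- the uniform estimates on smaller discs
  have key : ∀ R : ℝ, R < 1 → ‖o‖ ≤ R → ∃ A B : ℝ, 0 ≤ A ∧ 1 ≤ B ∧ ∀ n, ∀ z : ℂ, ‖z‖ ≤ R →
      ‖F (n + 1) z - F n z‖ ≤ A * B ^ n * ‖z - o‖ ^ n / n ! ∧ ‖L Q z (F (n + 1) z - F n z)‖ ≤
        B * ‖F (n + 1) z - F n z‖ := by
    intro R hR hoR
    have hsub : closedBall (0 : ℂ) R ⊆ ball 0 1 := closedBall_subset_ball hR
    obtain ⟨B, hB⟩ := (isCompact_closedBall (0 : ℂ) R).exists_bound_of_continuousOn
      (hQ.continuousOn.mono hsub)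
    obtain ⟨A, hA⟩ := (isCompact_closedBall (0 : ℂ) R).exists_bound_of_continuousOn
      (((Fd 1).continuousOn.sub (Fd 0).continuousOn).mono hsub)
    refine ⟨max A 0, max B 1, le_max_right _ _, le_max_right _ _, ?_⟩
    have hLn : ∀ z : ℂ, ‖z‖ ≤ R → ∀ w, ‖L Q z w‖ ≤ max B 1 * ‖w‖ := fun z hz w =>
      L_norm (le_max_right _ _) ((hB z (by simpa using hz)).trans (le_max_left _ _)) w
    intro n
    induction n with
    | zero =>
      intro z hz
      refine ⟨?_, hLn z hz _⟩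
      simpa using (hA z (by simpa using hz)).trans (le_max_left A 0)
    | succ n ih =>
      intro z hz
      refine ⟨?_, hLn z hz _⟩
      have h1 : ∀ w ∈ segment ℝ o z, HasDerivAt (fun w => F (n + 2) w - F (n + 1) w)
          (L Q w (F (n + 1) w - F n w)) w := by
        intro w hw
        have hw1 : ‖w‖ ≤ R := seg_sub hoR hz hw
        have hw2 : w ∈ ball (0 : ℂ) 1 := by
          simpa using lt_of_le_of_lt hw1 hR
        have := (Fder (n + 1) w hw2).sub (Fder n w hw2)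
        rw [L_sub] at this
        exact this
      have h2 := seg_bound (C := max A 0 * max B 1 ^ (n + 1)) (n := n) h1 (by simp [Fo]) (by
        intro w hw
        have hw1 : ‖w‖ ≤ R := seg_sub hoR hz hw
        obtain ⟨h3, h4⟩ := ih w hw1
        refine h4.trans ?_
        calc max B 1 * ‖F (n + 1) w - F n w‖
            ≤ max B 1 * (max A 0 * max B 1 ^ n * ‖w - o‖ ^ n / n !) :=
              mul_le_mul_of_nonneg_left h3 (by positivity)
          _ = max A 0 * max B 1 ^ (n + 1) * ‖w - o‖ ^ n / n ! := by ring)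
      exact h2
  -- convergence
  let G : ℂ → ℂ × ℂ := fun z => v + ∑' n, (F (n + 1) z - F n z)
  have hsum : ∀ N z, F N z = v + ∑ n ∈ Finset.range N, (F (n + 1) z - F n z) := by
    intro N z
    rw [Finset.sum_range_sub (fun n => F n z)]
    simp [F0]
  have hunif : ∀ R : ℝ, R < 1 → ‖o‖ ≤ R → TendstoUniformlyOn F G atTop (closedBall 0 R) := by
    intro R hR hoR
    obtain ⟨A, B, hA, hB, h⟩ := key R hR hoR
    have hs : Summable fun n : ℕ => A * ((B * 2) ^ n / n !) :=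
      (Real.summable_pow_div_factorial (B * 2)).mul_left A
    have h1 := tendstoUniformlyOn_tsum_nat hs (f := fun n z => F (n + 1) z - F n z)
      (s := closedBall (0 : ℂ) R) (by
        intro n z hz
        have hz' : ‖z‖ ≤ R := by simpa using hz
        refine (h n z hz').1.trans ?_
        have h2 : ‖z - o‖ ≤ 2 := by
          have := norm_sub_le z o
          linarith
        calc A * B ^ n * ‖z - o‖ ^ n / n ! ≤ A * B ^ n * 2 ^ n / n ! := by gcongr
          _ = A * ((B * 2) ^ n / n !) := by rw [mul_pow]; ring)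
    rw [Metric.tendstoUniformlyOn_iff] at h1 ⊢
    intro ε hε
    filter_upwards [h1 ε hε] with N hN z hz
    have := hN z hz
    rw [hsum N z]
    simpa [G, dist_add_left] using this
  have hloc : TendstoLocallyUniformlyOn F G atTop (ball 0 1) := by
    rw [tendstoLocallyUniformlyOn_iff_forall_isCompact isOpen_ball]
    intro K hK hKc
    have ho' : ‖o‖ < 1 := by simpa using ho
    obtain ⟨R, hR, hKR⟩ : ∃ R : ℝ, R < 1 ∧ K ⊆ closedBall 0 R := by
      rcases K.eq_empty_or_nonempty with rfl | hne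
      · exact ⟨0, by norm_num, empty_subset _⟩
      · obtain ⟨w, hw, hw'⟩ := hKc.exists_isMaxOn hne continuous_norm.continuousOn
        refine ⟨‖w‖, by simpa using hK hw, fun z hz => ?_⟩
        simpa using hw' hz
    refine (hunif (max R ‖o‖) (max_lt hR ho') (le_max_right _ _)).mono ?_
    exact hKR.trans (closedBall_subset_closedBall (le_max_left _ _))
  have hGd : DifferentiableOn ℂ G (ball 0 1) :=
    hloc.differentiableOn (Eventually.of_forall Fd) isOpen_ball
  refine ⟨G, ?_, ?_⟩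
  · simp [G, Fo]
  · intro z hz
    have hd := (hloc.deriv (Eventually.of_forall Fd) isOpen_ball).tendsto_at hz
    have hd1 : Tendsto (fun n => deriv (F (n + 1)) z) atTop (𝓝 (deriv G z)) :=
      hd.comp (tendsto_add_atTop_nat 1)
    have hd2 : Tendsto (fun n => L Q z (F n z)) atTop (𝓝 (L Q z (G z))) := by
      have hF := hloc.tendsto_at hz
      have h1 : Tendsto (fun n => (F n z).1) atTop (𝓝 (G z).1) :=
        (continuous_fst.tendsto _).comp hF
      have h2 : Tendsto (fun n => (F n z).2) atTop (𝓝 (G z).2) :=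
        (continuous_snd.tendsto _).comp hF
      exact h2.prodMk_nhds (h1.const_mul (Q z))
    have h3 : (fun n => deriv (F (n + 1)) z) = fun n => L Q z (F n z) :=
      funext fun n => (Fder n z hz).deriv
    rw [h3] at hd1
    have h4 : deriv G z = L Q z (G z) := tendsto_nhds_unique hd1 hd2
    rw [← h4]
    exact (hGd.differentiableAt (isOpen_ball.mem_nhds hz)).hasDerivAt

/-- uniqueness along segments -/
lemma zero_of_zero (Q : ℂ → ℂ) (hQ : DifferentiableOn ℂ Q (ball 0 1)) {Y : ℂ → ℂ × ℂ}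
    (hY : ∀ z ∈ ball (0 : ℂ) 1, HasDerivAt Y (L Q z (Y z)) z) {z w : ℂ} (hz : z ∈ ball (0 : ℂ) 1)
    (hw : w ∈ ball (0 : ℂ) 1) (h0 : Y z = 0) : Y w = 0 := by
  have hseg : segment ℝ z w ⊆ ball (0 : ℂ) 1 := (convex_ball (0 : ℂ) 1).segment_subset hz hw
  have hcs : IsCompact (segment ℝ z w) := by
    rw [segment_eq_image']
    exact isCompact_Icc.image (by fun_prop)
  obtain ⟨B, hB⟩ := hcs.exists_bound_of_continuousOn (hQ.continuousOn.mono hseg)
  have hφ : ∀ t ∈ Icc (0 : ℝ) 1, HasDerivAt (fun t : ℝ => Y (z + (t : ℂ) * (w - z)))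
      ((w - z) • L Q (z + (t : ℂ) * (w - z)) (Y (z + (t : ℂ) * (w - z)))) t := by
    intro t ht
    have h1 : HasDerivAt (fun t : ℝ => z + (t : ℂ) * (w - z)) (w - z) t := by
      have h2 : HasDerivAt (fun t : ℝ => (t : ℂ)) 1 t := Complex.ofRealCLM.hasDerivAt
      simpa using (h2.mul_const (w - z)).const_add z
    exact (hY _ (hseg (seg_mem ht))).scomp t h1
  have := eq_zero_of_abs_deriv_le_mul_abs_self_of_eq_zero_right (a := 0) (b := 1)
    (f := fun t : ℝ => Y (z + (t : ℂ) * (w - z)))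
    (f' := fun t : ℝ => (w - z) • L Q (z + (t : ℂ) * (w - z)) (Y (z + (t : ℂ) * (w - z))))
    (K := ‖w - z‖ * max B 1)
    (fun t ht => (hφ t ht).continuousAt.continuousWithinAt)
    (fun t ht => (hφ t ⟨ht.1, ht.2.le⟩).hasDerivWithinAt)
    (by simp [h0])
    (by
      intro t ht
      have ht' : t ∈ Icc (0 : ℝ) 1 := ⟨ht.1, ht.2.le⟩
      rw [norm_smul, mul_assoc]
      refine mul_le_mul_of_nonneg_left ?_ (norm_nonneg _)
      exact L_norm (le_max_right _ _) ((hB _ (seg_mem ht')).trans (le_max_left _ _)) _)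
    1 (by simp)
  simpa using this

end OdeM

open OdeM in
theorem specOde : SpecOde := by
  intro Ψ l o y₀ y₁ hΨ ho hne
  have hQ : DifferentiableOn ℂ (fun z => -(l : ℂ) ^ 2 * Ψ z) (ball 0 1) :=
    hΨ.const_mul _
  obtain ⟨Y, hYo, hY⟩ := exists_sol _ hQ o ho (y₀, y₁)
  have h1 : ∀ z ∈ ball (0 : ℂ) 1, HasDerivAt (fun z => (Y z).1) (Y z).2 z := by
    intro z hz
    exact ((ContinuousLinearMap.fst ℂ ℂ ℂ).hasFDerivAt.comp_hasDerivAt z (hY z hz))
  have h2 : ∀ z ∈ ball (0 : ℂ) 1, HasDerivAt (fun z => (Y z).2)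
      (-(l : ℂ) ^ 2 * Ψ z * (Y z).1) z := by
    intro z hz
    exact ((ContinuousLinearMap.snd ℂ ℂ ℂ).hasFDerivAt.comp_hasDerivAt z (hY z hz))
  have h3 : ∀ z ∈ ball (0 : ℂ) 1, deriv (fun z => (Y z).1) z = (Y z).2 := fun z hz =>
    (h1 z hz).deriv
  refine ⟨fun z => (Y z).1, ⟨?_, ?_, ?_⟩, by simp [hYo], by rw [h3 o ho, hYo]⟩
  · exact fun z hz => (h1 z hz).differentiableAt.differentiableWithinAt
  · intro z hz
    have h4 : deriv (fun z => (Y z).1) =ᶠ[𝓝 z] fun z => (Y z).2 := by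
      filter_upwards [isOpen_ball.mem_nhds hz] with w hw using h3 w hw
    rw [h4.deriv_eq]
    exact (h2 z hz).deriv
  · intro z hz
    rw [h3 z hz]
    by_contra hcon
    push Not at hcon
    have hz0 : Y z = 0 := Prod.ext hcon.1 hcon.2
    have ho0 := zero_of_zero _ hQ hY hz ho hz0
    rw [hYo] at ho0
    have h5 : y₀ = 0 := congrArg Prod.fst ho0
    have h6 : y₁ = 0 := congrArg Prod.snd ho0
    rcases hne with h | h
    · exact h h5
    · exact h h6

end MPfa
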