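import Mathlib

/-!
Problem MP_fa0334_an: statement of the final theorem (no dependence on the definitions used in the
proof).  The plane is `ℂ`; a real linear map `A : ℂ →L[ℝ] ℂ` has columns `A 1` and `A I`.
-/

set_option autoImplicit false

open MeasureTheory Set Filter Topology Metric Complex
open scoped ContDiff ENNReal

namespace MPfaS

/-- the square of the normalised Hilbert-Schmidt norm, `(1/2) Trace (Aᵀ A)` -/
noncomputable def hsSq (A : ℂ →L[ℝ] ℂ) : ℝ := (‖A 1‖ ^ 2 + ‖A I‖ ^ 2) / 2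

/-- the determinant of `A` -/
noncomputable def det2 (A : ℂ →L[ℝ] ℂ) : ℝ := (A 1).re * (A I).im - (A 1).im * (A I).re

/-- the Hilbert-Schmidt distortion: `‖A‖² / det A` if `det A > 0`, and `1` otherwise -/
noncomputable def distortion (A : ℂ →L[ℝ] ℂ) : ℝ := if 0 < det2 A then hsSq A / det2 A else 1

/-- `D` is the weak (distributional) derivative of `f` on the open set `Ω`; both are locally
integrable on `Ω`, so `f` is in `W^{1,1}_loc(Ω)` -/
structure IsWeakDeriv (Ω : Set ℂ) (f : ℂ → ℂ) (D : ℂ → ℂ →L[ℝ] ℂ) : Prop where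
  locInt : LocallyIntegrableOn f Ω
  locIntDeriv : LocallyIntegrableOn D Ω
  byParts : ∀ φ : ℂ → ℝ, ContDiff ℝ ∞ φ → HasCompactSupport φ → tsupport φ ⊆ Ω → ∀ v : ℂ,
    ∫ z, (fderiv ℝ φ z v) • f z = - ∫ z, φ z • D z v

/-- `f`, with weak derivative `D`, has finite distortion on `Ω`: `J_f` is locally integrable and
`|Df|² ≤ K J_f` a.e. for a finite function `K ≥ 1` (operator norm on the left) -/
structure FiniteDistortion (Ω : Set ℂ) (f : ℂ → ℂ) (D : ℂ → ℂ →L[ℝ] ℂ) : Prop where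
  weak : IsWeakDeriv Ω f D
  jacInt : LocallyIntegrableOn (fun z => det2 (D z)) Ω
  bound : ∃ K : ℂ → ℝ, (∀ z, 1 ≤ K z) ∧
    ∀ᵐ z ∂(volume.restrict Ω), ‖D z‖ ^ 2 ≤ K z * det2 (D z)

/-- the integral of the `p`-th power of the distortion -/
noncomputable def energy (p : ℝ) (Ω : Set ℂ) (D : ℂ → ℂ →L[ℝ] ℂ) : ℝ≥0∞ :=
  ∫⁻ z in Ω, ENNReal.ofReal (distortion (D z) ^ p)

/-- `f` restricts to a homeomorphism of `U` onto `V` with inverse `h` -/
structure HomeoOn (U V : Set ℂ) (f h : ℂ → ℂ) : Prop where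
  cont : ContinuousOn f U
  contInv : ContinuousOn h V
  maps : MapsTo f U V
  mapsInv : MapsTo h V U
  left : ∀ z ∈ U, h (f z) = z
  right : ∀ w ∈ V, f (h w) = w

/-- the admissible class: `f : Ω → Ω'` is a homeomorphism of finite distortion (with weak
derivative `D`) that extends continuously to the closure, with `f = g` on the boundary -/
structure Admissible (Ω Ω' : Set ℂ) (g f : ℂ → ℂ) (D : ℂ → ℂ →L[ℝ] ℂ) : Prop where
  homeo : ∃ h, HomeoOn Ω Ω' f h
  fd : FiniteDistortion Ω f D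
  cont : ContinuousOn f (closure Ω)
  bdry : EqOn f g (frontier Ω)

/-- the data of the problem: `Ω` is a convex domain, `Ω'` a domain, `g` a homeomorphism of the
closures that maps `Ω` onto `Ω'`, of finite distortion in `Ω` with `∫ K_g^p < ∞` -/
structure Data (p : ℝ) (Ω Ω' : Set ℂ) (g : ℂ → ℂ) : Prop where
  open_ : IsOpen Ω
  nonempty : Ω.Nonempty
  convex : Convex ℝ Ω
  open' : IsOpen Ω'
  connected' : IsConnected Ω'
  homeo : ∃ b, HomeoOn (closure Ω) (closure Ω') g b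
  image : g '' Ω = Ω'
  finite : ∃ D, FiniteDistortion Ω g D ∧ energy p Ω D < ⊤

/-- **Statement.** For every `p > 1` and all data as above there is an admissible `f` that is a
`C¹` diffeomorphism of `Ω` onto `Ω'` (with `C¹` inverse `h`) and minimizes `∫ K_f^p` over the
admissible class. -/
def Statement : Prop :=
  ∀ (p : ℝ), 1 < p → ∀ (Ω Ω' : Set ℂ) (g : ℂ → ℂ), Data p Ω Ω' g →
    ∃ f h : ℂ → ℂ, HomeoOn Ω Ω' f h ∧ ContDiffOn ℝ 1 f Ω ∧ ContDiffOn ℝ 1 h Ω' ∧
      Admissible Ω Ω' g f (fderiv ℝ f) ∧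
      ∀ (F : ℂ → ℂ) (D : ℂ → ℂ →L[ℝ] ℂ), Admissible Ω Ω' g F D →
        energy p Ω (fderiv ℝ f) ≤ energy p Ω D

end MPfaS
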