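import Pool.Agent.Lib.MP_fa0334_an.Spec
import Pool.Agent.Lib.MP_fa0334_an.Statement

/-!
Facts for the final assembly: `C¹` maps, their weak derivatives and inverses.
-/

set_option autoImplicit false

open MeasureTheory Set Filter Topology Metric Complex
open scoped ContDiff ENNReal ComplexConjugate

namespace MPfa

/-- columns determine the map -/
lemma lmap_columns (A : ℂ →L[ℝ] ℂ) : lmap (A 1) (A I) = A := by
  ext z
  have h1 : z = z.re • (1 : ℂ) + z.im • I := by
    apply Complex.ext <;> simp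
  conv_rhs => rw [h1, map_add, map_smul, map_smul]
  simp [lmap]

@[simp] lemma lmap_one (a b : ℂ) : lmap a b 1 = a := by simp [lmap]
@[simp] lemma lmap_I (a b : ℂ) : lmap a b I = b := by simp [lmap]

lemma lmap_apply (a b m : ℂ) : lmap a b m = (m.re : ℂ) * a + (m.im : ℂ) * b := by
  simp [lmap]

/-- the determinant of a real linear map of the plane -/
lemma det_eq_jac (A : ℂ →L[ℝ] ℂ) : A.det = jac (A 1) (A I) := by
  rw [ContinuousLinearMap.det, ← LinearMap.det_toMatrix Complex.basisOneI, Matrix.det_fin_two]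
  simp [LinearMap.toMatrix_apply, jac]
  ring

/-- integration by parts for `C¹` functions on an open set -/
lemma byParts_of_contDiffOn {G : Set ℂ} (hG : IsOpen G) {F : ℂ → ℂ} (hF : ContDiffOn ℝ 1 F G)
    {φ : ℂ → ℝ} (hφ : ContDiff ℝ ∞ φ) (hc : HasCompactSupport φ) (hs : tsupport φ ⊆ G) (v : ℂ) :
    ∫ z, (fderiv ℝ φ z v) • F z = - ∫ z, φ z • fderiv ℝ F z v := by
  have hd : ∀ x ∈ tsupport φ, DifferentiableAt ℝ F x := fun x hx =>
    (hF.differentiableOn one_ne_zero).differentiableAt (hG.mem_nhds (hs hx))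
  have hFc : ContinuousOn F G := hF.continuousOn
  have hFd : ContinuousOn (fun z => fderiv ℝ F z v) G :=
    (hF.continuousOn_fderiv_of_isOpen hG le_rfl).clm_apply continuousOn_const
  have hc' : ∀ (u : ℂ → ℝ) (w : ℂ → ℂ), Continuous u → tsupport u ⊆ tsupport φ →
      ContinuousOn w G → Integrable (fun z => u z • w z) := by
    intro u w hu hsu hw
    have h1 : Continuous (fun z => u z • w z) := by
      refine continuous_iff_continuousAt.2 fun z => ?_
      by_cases hz : z ∈ tsupport u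
      · exact hu.continuousAt.smul (hw.continuousAt (hG.mem_nhds (hs (hsu hz))))
      · have h2 : (fun z => u z • w z) =ᶠ[𝓝 z] fun _ => 0 := by
          filter_upwards [notMem_tsupport_iff_eventuallyEq.1 hz] with y hy
          rw [hy]; simp
        exact continuousAt_const.congr h2.symm
    refine h1.integrable_of_hasCompactSupport ?_
    have h3 : HasCompactSupport u := HasCompactSupport.of_support_subset_isCompact hc
      (subset_closure.trans hsu)
    exact h3.smul_right
  have h1 := integral_smul_fderiv_eq_neg_fderiv_smul_of_integrable (𝕜 := ℝ) (f := φ) (g := F)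
    (v := v) (μ := volume)
    (hc' _ _ ((hφ.continuous_fderiv (by simp)).clm_apply continuous_const)
      ((tsupport_fderiv_apply_subset ℝ v)) hFc)
    (hc' _ _ hφ.continuous le_rfl hFd) (hc' _ _ hφ.continuous le_rfl hFc)
    (fun x _ => (hφ.differentiable (by simp)).differentiableAt) hd
  rw [h1, neg_neg]

lemma LI_of_continuousOn {G : Set ℂ} {u : ℂ → ℂ} (hu : ContinuousOn u G) : LI G u :=
  fun _ hK hKc => (hu.mono hK).integrableOn_compact hKc

/-- the weak derivative of a `C¹` map -/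
lemma wd_of_contDiffOn {G : Set ℂ} (hG : IsOpen G) {F : ℂ → ℂ} (hF : ContDiffOn ℝ 1 F G) :
    WD G F (G.indicator fun z => fderiv ℝ F z 1) (G.indicator fun z => fderiv ℝ F z I) := by
  have hm : ∀ v : ℂ, ContinuousOn (fun z => fderiv ℝ F z v) G := fun v =>
    (hF.continuousOn_fderiv_of_isOpen hG le_rfl).clm_apply continuousOn_const
  have hmeas : ∀ v : ℂ, Measurable (G.indicator fun z => fderiv ℝ F z v) := by
    intro v
    classical
    have := ((hm v).measurable_piecewise (continuousOn_const (c := (0 : ℂ)) (s := Gᶜ))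
      hG.measurableSet)
    convert this using 1
    exact (Set.piecewise_eq_indicator).symm
  have hint : ∀ (φ : ℂ → ℝ), Test G φ → ∀ v : ℂ,
      ∫ z, φ z • G.indicator (fun z => fderiv ℝ F z v) z = ∫ z, φ z • fderiv ℝ F z v := by
    intro φ hφ v
    congr 1
    funext z
    by_cases hz : z ∈ G
    · rw [indicator_of_mem hz]
    · have : φ z = 0 := image_eq_zero_of_notMem_tsupport fun h => hz (hφ.su h)
      simp [this]
  have hLI : ∀ v : ℂ, LI G (G.indicator fun z => fderiv ℝ F z v) := by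
    intro v K hK hKc
    refine (LI_of_continuousOn (hm v) K hK hKc).congr_fun ?_ hKc.measurableSet
    intro z hz
    simp only
    rw [indicator_of_mem (hK hz)]
  refine ⟨hmeas 1, hmeas I, LI_of_continuousOn hF.continuousOn, hLI 1, hLI I, ?_, ?_⟩
  · intro φ hφ
    rw [hint φ hφ]
    exact byParts_of_contDiffOn hG hF hφ.sm hφ.cs hφ.su 1
  · intro φ hφ
    rw [hint φ hφ]
    exact byParts_of_contDiffOn hG hF hφ.sm hφ.cs hφ.su I

/-- the inverse of a `C¹` homeomorphism with positive Jacobian is `C¹` -/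
lemma contDiffOn_inverse {X Y : Set ℂ} (hX : IsOpen X) (hY : IsOpen Y) {h f : ℂ → ℂ}
    (hh : ContDiffOn ℝ 1 h X) (hj : ∀ z ∈ X, 0 < jac (fderiv ℝ h z 1) (fderiv ℝ h z I))
    (hf : ContinuousOn f Y) (hfm : MapsTo f Y X) (hhf : ∀ z ∈ Y, h (f z) = z) :
    ContDiffOn ℝ 1 f Y ∧ ∀ z ∈ Y, ∃ A : ℂ ≃L[ℝ] ℂ, (A : ℂ →L[ℝ] ℂ) = fderiv ℝ h (f z) ∧
      HasFDerivAt f (A.symm : ℂ →L[ℝ] ℂ) z := by
  have hdet : ∀ z ∈ X, (fderiv ℝ h z).det ≠ 0 := fun z hz => by
    rw [det_eq_jac]; exact (hj z hz).ne'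
  have hA : ∀ z ∈ Y, ∃ A : ℂ ≃L[ℝ] ℂ, (A : ℂ →L[ℝ] ℂ) = fderiv ℝ h (f z) ∧
      HasFDerivAt f (A.symm : ℂ →L[ℝ] ℂ) z := by
    intro z hz
    refine ⟨ContinuousLinearMap.toContinuousLinearEquivOfDetNeZero _ (hdet _ (hfm hz)), rfl, ?_⟩
    apply HasFDerivAt.of_local_left_inverse
    · exact hf.continuousAt (hY.mem_nhds hz)
    · exact ((hh.differentiableOn one_ne_zero).differentiableAt
        (hX.mem_nhds (hfm hz))).hasFDerivAt
    · filter_upwards [hY.mem_nhds hz] with y hy
      exact hhf y hy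
  refine ⟨?_, hA⟩
  have h1 : (1 : WithTop ℕ∞) = 0 + 1 := by simp
  rw [h1, contDiffOn_succ_iff_fderiv_of_isOpen hY]
  refine ⟨?_, by simp, ?_⟩
  · intro z hz
    obtain ⟨A, -, hA2⟩ := hA z hz
    exact hA2.differentiableAt.differentiableWithinAt
  · rw [contDiffOn_zero]
    intro z hz
    obtain ⟨A, hA1, hA2⟩ := hA z hz
    have hc : ContinuousAt (fun y => fderiv ℝ h (f y)) z := by
      have h2 : ContinuousAt (fderiv ℝ h) (f z) :=
        (hh.continuousOn_fderiv_of_isOpen hX le_rfl).continuousAt (hX.mem_nhds (hfm hz))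
      exact ContinuousAt.comp (f := f) h2 (hf.continuousAt (hY.mem_nhds hz))
    have hinv : ContinuousAt (fun y => ContinuousLinearMap.inverse (fderiv ℝ h (f y))) z := by
      have h3 : ContinuousAt (ContinuousLinearMap.inverse : (ℂ →L[ℝ] ℂ) → ℂ →L[ℝ] ℂ)
          (fderiv ℝ h (f z)) := by
        rw [← hA1]
        exact (contDiffAt_map_inverse (𝕜 := ℝ) (n := 0) A).continuousAt
      exact ContinuousAt.comp (f := fun y => fderiv ℝ h (f y)) h3 hc
    have heq : fderiv ℝ f =ᶠ[𝓝 z] fun y => ContinuousLinearMap.inverse (fderiv ℝ h (f y)) := by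
      filter_upwards [hY.mem_nhds hz] with y hy
      obtain ⟨B, hB1, hB2⟩ := hA y hy
      rw [hB2.fderiv, ← hB1, ContinuousLinearMap.inverse_equiv]
    exact (hinv.congr heq.symm).continuousWithinAt

end MPfa
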