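import Pool.Agent.Lib.MP_fa0334_an.Defs

/-!
Problem MP_fa0334_an: exact statements of the modules of the existence / no-collapse part.
Paper proofs: /team-store/MP_fa0334_an_PROOF.md (same names).
Every module may assume the other Specs as hypotheses.
-/

set_option autoImplicit false

open MeasureTheory Set Filter Topology Metric Complex
open scoped ContDiff ENNReal ComplexConjugate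

namespace MPfa

/-! ## A. Toolkit -/

/-- A0. ALG: algebra of the columns -/
structure SpecAlg : Prop where
  jac_le : ∀ a b : ℂ, |jac a b| ≤ n2 a b
  n2_nonneg : ∀ a b : ℂ, 0 ≤ n2 a b
  KK_ge : ∀ a b : ℂ, 1 ≤ KK a b
  jac_wirt : ∀ a b : ℂ, 4 * jac a b = ‖a - I * b‖ ^ 2 - ‖a + I * b‖ ^ 2
  n2_wirt : ∀ a b : ℂ, 4 * n2 a b = ‖a - I * b‖ ^ 2 + ‖a + I * b‖ ^ 2
  hopf_eq : ∀ a b : ℂ, hopf a b = ((‖a‖ ^ 2 - ‖b‖ ^ 2 : ℝ) : ℂ) - 2 * (((a * conj b).re : ℝ) : ℂ) * I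
  n2_le_PP : ∀ p : ℝ, 1 < p → ∀ a b : ℂ, ENNReal.ofReal (n2 a b) ≤ PP p a b
  PP_lt : ∀ p : ℝ, ∀ a b : ℂ, PP p a b < ⊤ ↔ ((a = 0 ∧ b = 0) ∨ 0 < jac a b)
  jac_nonneg : ∀ p : ℝ, ∀ a b : ℂ, PP p a b < ⊤ → 0 ≤ jac a b
  /-- `|AH| ≤ 2 PP` -/
  AH_le : ∀ p : ℝ, 1 < p → ∀ a b : ℂ, ENNReal.ofReal ‖AH p a b‖ ≤ 2 * PP p a b
  meas_n2 : Measurable fun z : ℂ × ℂ => n2 z.1 z.2
  meas_jac : Measurable fun z : ℂ × ℂ => jac z.1 z.2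
  meas_KK : Measurable fun z : ℂ × ℂ => KK z.1 z.2
  meas_PP : ∀ p : ℝ, Measurable fun z : ℂ × ℂ => PP p z.1 z.2
  meas_AH : ∀ p : ℝ, Measurable fun z : ℂ × ℂ => AH p z.1 z.2
  /-- composition with a complex linear map on the right -/
  jac_cx : ∀ a b m : ℂ, jac (lmap a b m) (lmap a b (m * I)) = jac a b * ‖m‖ ^ 2
  n2_cx : ∀ a b m : ℂ, n2 (lmap a b m) (lmap a b (m * I)) = n2 a b * ‖m‖ ^ 2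
  KK_cx : ∀ a b m : ℂ, m ≠ 0 → KK (lmap a b m) (lmap a b (m * I)) = KK a b
  AH_cx : ∀ (p : ℝ) (a b m : ℂ), m ≠ 0 → AH p (lmap a b m) (lmap a b (m * I)) = AH p a b * m ^ 2
  PP_cx : ∀ (p : ℝ) (a b m : ℂ), m ≠ 0 →
    PP p (lmap a b m) (lmap a b (m * I)) = PP p a b * ENNReal.ofReal (‖m‖ ^ 2)
  /-- duality -/
  young : ∀ p : ℝ, 1 < p → ∀ (l : ℝ), 0 ≤ l → ∀ a b : ℂ,
    ENNReal.ofReal (p * l ^ (p - 1) * n2 a b - (p - 1) * l ^ p * jac a b) ≤ PP p a b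
  youngsup : ∀ p : ℝ, 1 < p → ∀ a b : ℂ,
    PP p a b ≤ ⨆ l : ℚ, ENNReal.ofReal
      (p * |(l : ℝ)| ^ (p - 1) * n2 a b - (p - 1) * |(l : ℝ)| ^ p * jac a b)

/-- A0'. ALG2: consequences of the equation in a natural chart -/
def SpecAlg2 : Prop := ∀ p : ℝ, 1 < p → ∃ C : ℝ, 0 < C ∧ ∀ a b : ℂ, 0 < jac a b → AH p a b = 1 →
  (a * conj b).re = 0 ∧ jac a b = ‖a‖ * ‖b‖ ∧ ‖b‖ < ‖a‖ ∧ 0 < ‖b‖ ∧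
  ‖b‖ ^ (2 * p / (p + 1)) ≤ C * jac a b ∧
  ‖a‖ * ‖b‖ ^ (1 - 2 * p / (p + 1)) ≤ C * (1 + jac a b)

/-- A1. MOLL -/
def SpecMoll : Prop := ∀ (G : Set ℂ) (F Fx Fy : ℂ → ℂ) (K : Set ℂ), IsOpen G → ContinuousOn F G →
  WD G F Fx Fy → IsCompact K → K ⊆ G →
  ∃ f : ℕ → ℂ → ℂ, (∀ n, ContDiff ℝ ∞ (f n)) ∧ TendstoUniformlyOn f F atTop K ∧
    Tendsto (fun n => ∫⁻ z in K, ‖fderiv ℝ (f n) z 1 - Fx z‖ₑ) atTop (𝓝 0) ∧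
    Tendsto (fun n => ∫⁻ z in K, ‖fderiv ℝ (f n) z I - Fy z‖ₑ) atTop (𝓝 0) ∧
    (L2loc G Fx → Tendsto (fun n => ∫⁻ z in K, ‖fderiv ℝ (f n) z 1 - Fx z‖ₑ ^ 2) atTop (𝓝 0)) ∧
    (L2loc G Fy → Tendsto (fun n => ∫⁻ z in K, ‖fderiv ℝ (f n) z I - Fy z‖ₑ ^ 2) atTop (𝓝 0))

/-- A2. ACL -/
def SpecACL : Prop := ∀ (G : Set ℂ) (F Fx Fy : ℂ → ℂ), IsOpen G → ContinuousOn F G →
  WD G F Fx Fy → HAC G F Fx ∧ VAC G F Fy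

/-- A3. ACLC -/
def SpecACLC : Prop := ∀ (G : Set ℂ) (F Fx Fy : ℂ → ℂ), IsOpen G → ContinuousOn F G →
  Measurable Fx → Measurable Fy → LI G Fx → LI G Fy → HAC G F Fx → VAC G F Fy → WD G F Fx Fy

/-- A4. CHAIN: smooth injective change of variables -/
def SpecChain : Prop := ∀ (G G' : Set ℂ) (F Fx Fy ψ : ℂ → ℂ), IsOpen G → IsOpen G' →
  ContinuousOn F G → WD G F Fx Fy → ContDiffOn ℝ ∞ ψ G' → InjOn ψ G' → MapsTo ψ G' G →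
  (∀ z ∈ G', jac (fderiv ℝ ψ z 1) (fderiv ℝ ψ z I) ≠ 0) →
  ∃ Gx Gy : ℂ → ℂ, WD G' (fun z => F (ψ z)) Gx Gy ∧
    (∀ z ∈ G', Gx z = lmap (Fx (ψ z)) (Fy (ψ z)) (fderiv ℝ ψ z 1) ∧
      Gy z = lmap (Fx (ψ z)) (Fy (ψ z)) (fderiv ℝ ψ z I)) ∧
    (L2loc G Fx → L2loc G Fy → L2loc G' Gx ∧ L2loc G' Gy)

/-- A5. POL: polar coordinates around `c` -/
def SpecPol : Prop := ∀ (c : ℂ) (g : ℂ → ℝ≥0∞), Measurable g →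
  ∫⁻ z, g z = ∫⁻ r in Ioi (0 : ℝ), ∫⁻ θ in Ioo (0 : ℝ) (2 * Real.pi),
    ENNReal.ofReal r * g (circleMap c r θ)

/-- A6. CIRC: absolute continuity on almost every circle around `c` -/
def SpecCirc : Prop := ∀ (G : Set ℂ) (F Fx Fy : ℂ → ℂ) (c : ℂ), IsOpen G → ContinuousOn F G →
  WD G F Fx Fy → ∀ᵐ r : ℝ, 0 < r → ∀ a b : ℝ, a ≤ b → (∀ θ ∈ Icc a b, circleMap c r θ ∈ G) →
    IntervalIntegrable (fun θ : ℝ => lmap (Fx (circleMap c r θ)) (Fy (circleMap c r θ))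
      (circleMap 0 r θ * I)) volume a b ∧
    F (circleMap c r b) - F (circleMap c r a) =
      ∫ θ in a..b, lmap (Fx (circleMap c r θ)) (Fy (circleMap c r θ)) (circleMap 0 r θ * I)

/-- A7. BPH: homeomorphisms satisfy the boundary principle -/
def SpecBPH : Prop := ∀ (G : Set ℂ) (F : ℂ → ℂ), IsOpen G → ContinuousOn F G →
  (∀ D ⊆ G, IsOpen D → IsOpen (F '' D)) → BP G F

/-- A8. OSC: oscillation estimates (`L¹` and Courant-Lebesgue) -/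
def SpecOsc : Prop := ∀ (G : Set ℂ) (F Fx Fy : ℂ → ℂ), Mon G F Fx Fy →
  ∀ (c : ℂ) (s R : ℝ), 0 < s → s < R → closedBall c R ⊆ G → ∀ z ∈ ball c s, ∀ z' ∈ ball c s,
    ENNReal.ofReal ((R - s) * ‖F z - F z'‖) ≤ ∫⁻ w in ball c R, (‖Fx w‖ₑ + ‖Fy w‖ₑ) ∧
    ENNReal.ofReal (Real.log (R / s) * ‖F z - F z'‖ ^ 2) ≤
      ENNReal.ofReal (2 * Real.pi) * ∫⁻ w in ball c R, (‖Fx w‖ₑ ^ 2 + ‖Fy w‖ₑ ^ 2)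

/-- A9. STEPANOV -/
def SpecStep : Prop := ∀ (G A : Set ℂ) (F : ℂ → ℂ), IsOpen G → ContinuousOn F G → A ⊆ G →
  (∀ z ∈ A, ∃ C r : ℝ, 0 < r ∧ ∀ w ∈ ball z r, ‖F w - F z‖ ≤ C * ‖w - z‖) →
  ∀ᵐ z : ℂ, z ∈ A → DifferentiableAt ℝ F z

/-- A10. DIFF: monotone Sobolev maps are differentiable a.e. -/
def SpecDiff : Prop := ∀ (G : Set ℂ) (F Fx Fy : ℂ → ℂ), Mon G F Fx Fy →
  ∀ᵐ z ∂(volume.restrict G), HasFDerivAt F (lmap (Fx z) (Fy z)) z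

/-- A11. LUSIN -/
def SpecLusin : Prop := ∀ (G : Set ℂ) (F Fx Fy : ℂ → ℂ), Mon G F Fx Fy → L2loc G Fx → L2loc G Fy →
  ∀ N ⊆ G, volume N = 0 → volume (F '' N) = 0

/-- A12. AREA inequality for maps with connected fibres -/
def SpecArea : Prop := ∀ (G : Set ℂ) (F Fx Fy : ℂ → ℂ), Mon G F Fx Fy →
  ∫⁻ z in G, (‖Fx z‖ₑ ^ 2 + ‖Fy z‖ₑ ^ 2) < ⊤ → FS G F →
  ∀ η : ℂ → ℝ≥0∞, Measurable η →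
    ∫⁻ z in G, η (F z) * ENNReal.ofReal |jac (Fx z) (Fy z)| ≤ ∫⁻ z, η z

/-- A12'. AREA equality for injective maps -/
def SpecAreaInj : Prop := ∀ (G : Set ℂ) (F Fx Fy : ℂ → ℂ), Mon G F Fx Fy → L2loc G Fx →
  L2loc G Fy → InjOn F G → ∀ A ⊆ G, MeasurableSet A → ∀ η : ℂ → ℝ≥0∞, Measurable η →
    ∫⁻ z in A, η (F z) * ENNReal.ofReal |jac (Fx z) (Fy z)| = ∫⁻ z in F '' A, η z

/-- A13. JACW: the weak form of the Jacobian -/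
def SpecJacW : Prop := ∀ (G : Set ℂ) (F Fx Fy : ℂ → ℂ), IsOpen G → ContinuousOn F G →
  WD G F Fx Fy → L2loc G Fx → L2loc G Fy → ∀ φ : ℂ → ℝ, Test G φ →
    ∫ z, φ z * jac (Fx z) (Fy z) =
      - ∫ z, (F z).re * (fderiv ℝ φ z 1 * (Fy z).im - fderiv ℝ φ z I * (Fx z).im)

/-- A14. RZ: Riesz representation of bounded weak derivatives -/
def SpecRz : Prop := ∀ (X : Set ℂ) (h : ℂ → ℂ) (v : ℂ) (C : ℝ), IsOpen X → LI X h → 0 ≤ C →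
  (∀ φ : ℂ → ℝ, Test X φ →
    ‖∫ z, (fderiv ℝ φ z v) • h z‖ ^ 2 ≤ C * ∫ z, φ z ^ 2) →
  ∃ k : ℂ → ℂ, Measurable k ∧ ∫⁻ z in X, ‖k z‖ₑ ^ 2 ≤ ENNReal.ofReal (2 * C) ∧
    ∀ φ : ℂ → ℝ, Test X φ → ∫ z, (fderiv ℝ φ z v) • h z = - ∫ z, φ z • k z

/-- A15. uniqueness of weak derivatives -/
def SpecWDU : Prop := ∀ (G : Set ℂ) (F Fx Fy Gx Gy : ℂ → ℂ), IsOpen G → WD G F Fx Fy →
  WD G F Gx Gy → ∀ᵐ z ∂(volume.restrict G), Fx z = Gx z ∧ Fy z = Gy z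

/-- A16. WEYL: `L¹` weak solutions of `∂̄ u = 0` are holomorphic -/
def SpecWeyl : Prop := ∀ (X : Set ℂ) (u : ℂ → ℂ), IsOpen X → LI X u →
  (∀ η : ℂ → ℂ, ContDiff ℝ ∞ η → HasCompactSupport η → tsupport η ⊆ X →
    ∫ z, u z * (fderiv ℝ η z 1 + I * fderiv ℝ η z I) = 0) →
  ∃ Φ : ℂ → ℂ, DifferentiableOn ℂ Φ X ∧ ∀ᵐ z ∂(volume.restrict X), u z = Φ z

/-! ## B. Inverse maps -/

/-- mutually inverse homeomorphisms of open sets -/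
structure Inv (Y X : Set ℂ) (f h : ℂ → ℂ) : Prop where
  oY : IsOpen Y
  oX : IsOpen X
  bY : Bornology.IsBounded Y
  cf : ContinuousOn f Y
  ch : ContinuousOn h X
  mf : MapsTo f Y X
  mh : MapsTo h X Y
  hf : ∀ z ∈ Y, h (f z) = z
  fh : ∀ w ∈ X, f (h w) = w

/-- weakly differentiable with finite distortion -/
structure FD (Y : Set ℂ) (f fx fy : ℂ → ℂ) : Prop where
  wd : WD Y f fx fy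
  fd : ∀ᵐ z ∂(volume.restrict Y), 0 < jac (fx z) (fy z) ∨ (fx z = 0 ∧ fy z = 0)

/-- B1. INV1: length estimate -/
def SpecInv1 : Prop := ∀ (Y X : Set ℂ) (f h fx fy : ℂ → ℂ), Inv Y X f h → WD Y f fx fy →
  ∀ (x : ℂ) (s : ℝ), 0 < s → closedBall x (2 * s) ⊆ X → ∀ w ∈ ball x s, ∀ w' ∈ ball x s,
    ENNReal.ofReal (2 * s * ‖h w - h w'‖) ≤ ∫⁻ z in h '' ball x (2 * s), (‖fx z‖ₑ + ‖fy z‖ₑ)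

/-- B2. INV2: oscillation of the inverse map by the distortion -/
def SpecInv2 : Prop := ∀ (Y X : Set ℂ) (f h fx fy : ℂ → ℂ), Inv Y X f h → FD Y f fx fy →
  ∀ (x : ℂ) (s : ℝ), 0 < s → closedBall x (2 * s) ⊆ X → ∀ w ∈ ball x s, ∀ w' ∈ ball x s,
    ENNReal.ofReal (‖h w - h w'‖ ^ 2) ≤ ENNReal.ofReal (4 * Real.pi) *
      ∫⁻ z in h '' ball x (2 * s), ENNReal.ofReal (KK (fx z) (fy z))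

/-- B3. INV3: maps whose squared oscillation is controlled by a finite measure are in `W^{1,2}` -/
def SpecInv3 : Prop := ∀ (X : Set ℂ) (h : ℂ → ℂ) (ν : Measure ℂ), IsOpen X → ContinuousOn h X →
  ν univ < ⊤ → (∀ (x : ℂ) (s : ℝ), 0 < s → closedBall x (2 * s) ⊆ X → ∀ w ∈ ball x s,
    ∀ w' ∈ ball x s, ENNReal.ofReal (‖h w - h w'‖ ^ 2) ≤ ν (ball x (2 * s))) →
  ∃ hx hy : ℂ → ℂ, WD X h hx hy ∧ ∫⁻ z in X, (‖hx z‖ₑ ^ 2 + ‖hy z‖ₑ ^ 2) < ⊤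

/-- B4. INV4: the energy of the inverse map -/
def SpecInv4 : Prop := ∀ (p : ℝ), 1 < p → ∀ (Y X : Set ℂ) (f h fx fy hx hy : ℂ → ℂ),
  Inv Y X f h → FD Y f fx fy → WD X h hx hy →
  ∫⁻ z in X, (‖hx z‖ₑ ^ 2 + ‖hy z‖ₑ ^ 2) < ⊤ →
  ∫⁻ z in Y, ENNReal.ofReal (KK (fx z) (fy z)) < ⊤ →
  ∫⁻ z in X, PP p (hx z) (hy z) ≤ ∫⁻ z in Y, ENNReal.ofReal (KK (fx z) (fy z) ^ p)

/-- B. the result on inverse maps -/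
def SpecInv : Prop := ∀ (p : ℝ), 1 < p → ∀ (Y X : Set ℂ) (f h fx fy : ℂ → ℂ),
  Inv Y X f h → FD Y f fx fy → ∫⁻ z in Y, ENNReal.ofReal (KK (fx z) (fy z) ^ p) < ⊤ →
  ∃ hx hy : ℂ → ℂ, WD X h hx hy ∧
    ∫⁻ z in X, PP p (hx z) (hy z) ≤ ∫⁻ z in Y, ENNReal.ofReal (KK (fx z) (fy z) ^ p)

/-! ## C. Existence of a relaxed minimizer -/

/-- C1. LIM: basic properties of the relaxed class -/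
def SpecLim : Prop := ∀ (X Y : Set ℂ) (b h : ℂ → ℂ), Dom X Y b → Lim X Y b h →
  ContinuousOn h (closure X) ∧ MapsTo h (closure X) (closure Y) ∧ EqOn h b (frontier X) ∧
  SurjOn h (closure X) (closure Y) ∧ MapsTo h (frontier X) (frontier Y) ∧
  (∀ c : ℂ, IsPreconnected {z | z ∈ closure X ∧ h z = c}) ∧ FS X h

/-- C2. BPL: boundary principle up to the boundary -/
def SpecBPL : Prop := ∀ (X Y : Set ℂ) (b h : ℂ → ℂ), Dom X Y b → Lim X Y b h →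
  ∀ D : Set ℂ, IsOpen D → D ⊆ X → ∀ (c : ℂ) (r : ℝ),
    (∀ z ∈ frontier D, ‖h z - c‖ ≤ r) → ∀ z ∈ D, ‖h z - c‖ ≤ r

/-- C3. FRC: the boundary of `X` is connected and has two points -/
def SpecFrc : Prop := ∀ (X Y : Set ℂ) (b : ℂ → ℂ), Dom X Y b →
  IsPreconnected (frontier X) ∧ (frontier X).Nontrivial ∧ IsConnected X ∧
  volume (frontier Y) = 0

/-- C4. EQUI: equicontinuity of the relaxed class -/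
def SpecEqui : Prop := ∀ (X Y : Set ℂ) (b : ℂ → ℂ), Dom X Y b → ∀ M : ℝ≥0∞, M < ⊤ → ∀ ε > 0,
  ∃ δ > 0, ∀ h hx hy : ℂ → ℂ, Lim X Y b h → WD X h hx hy →
    ∫⁻ z in X, (‖hx z‖ₑ ^ 2 + ‖hy z‖ₑ ^ 2) ≤ M →
    ∀ z ∈ closure X, ∀ z' ∈ closure X, ‖z - z'‖ < δ → ‖h z - h z'‖ ≤ ε

/-- C5. WEAK: weak compactness -/
def SpecWeak : Prop := ∀ (X : Set ℂ) (h : ℂ → ℂ) (k kx ky : ℕ → ℂ → ℂ) (M : ℝ≥0∞), IsOpen X →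
  M < ⊤ → (∀ n, ContinuousOn (k n) X) → (∀ n, WD X (k n) (kx n) (ky n)) →
  (∀ n, ∫⁻ z in X, (‖kx n z‖ₑ ^ 2 + ‖ky n z‖ₑ ^ 2) ≤ M) → TendstoUniformlyOn k h atTop X →
  ∃ hx hy : ℂ → ℂ, WD X h hx hy ∧ ∫⁻ z in X, (‖hx z‖ₑ ^ 2 + ‖hy z‖ₑ ^ 2) < ⊤ ∧
    ∀ u : ℂ → ℂ, Measurable u → ∫⁻ z in X, ‖u z‖ₑ ^ 2 < ⊤ →
      Tendsto (fun n => ∫ z in X, u z * kx n z) atTop (𝓝 (∫ z in X, u z * hx z)) ∧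
      Tendsto (fun n => ∫ z in X, u z * ky n z) atTop (𝓝 (∫ z in X, u z * hy z))

/-- C6. JUSC: upper semicontinuity of the Jacobians on compact sets -/
def SpecJusc : Prop := ∀ (X : Set ℂ) (h hx hy : ℂ → ℂ) (k kx ky : ℕ → ℂ → ℂ) (M : ℝ≥0∞),
  IsOpen X → M < ⊤ → (∀ n, ContinuousOn (k n) X) → (∀ n, WD X (k n) (kx n) (ky n)) →
  (∀ n, ∫⁻ z in X, (‖kx n z‖ₑ ^ 2 + ‖ky n z‖ₑ ^ 2) ≤ M) → TendstoUniformlyOn k h atTop X →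
  WD X h hx hy → ∫⁻ z in X, (‖hx z‖ₑ ^ 2 + ‖hy z‖ₑ ^ 2) < ⊤ →
  (∀ n, ∀ᵐ z ∂(volume.restrict X), 0 ≤ jac (kx n z) (ky n z)) →
  ∀ S ⊆ X, IsCompact S → ∀ ε > 0, ∀ᶠ n in atTop,
    ∫ z in S, jac (kx n z) (ky n z) ≤ (∫ z in S, jac (hx z) (hy z)) + ε

/-- C7. LSC: lower semicontinuity of the energy -/
def SpecLsc : Prop := ∀ (p : ℝ), 1 < p → ∀ (X : Set ℂ) (h : ℂ → ℂ) (k kx ky : ℕ → ℂ → ℂ)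
  (M : ℝ≥0∞), IsOpen X → M < ⊤ → (∀ n, ContinuousOn (k n) X) →
  (∀ n, WD X (k n) (kx n) (ky n)) → (∀ n, ∫⁻ z in X, PP p (kx n z) (ky n z) ≤ M) →
  TendstoUniformlyOn k h atTop X →
  ∃ hx hy : ℂ → ℂ, WD X h hx hy ∧ ∀ E : ℝ≥0∞,
    (∀ᶠ n in atTop, ∫⁻ z in X, PP p (kx n z) (ky n z) ≤ E) →
      ∫⁻ z in X, PP p (hx z) (hy z) ≤ E

/-- C8. EXIST -/
def SpecExist : Prop := ∀ (p : ℝ), 1 < p → ∀ (X Y : Set ℂ) (b : ℂ → ℂ), Dom X Y b →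
  (∃ h hx hy, Adm p X Y b h hx hy) → ∃ h hx hy, Mini p X Y b h hx hy

/-! ## D. Inner variation -/

/-- D1. PSI: small perturbations of the identity -/
def SpecPsi : Prop := ∀ (X : Set ℂ) (η : ℂ → ℂ), IsOpen X → ContDiff ℝ ∞ η →
  HasCompactSupport η → tsupport η ⊆ X → ∃ t₀ > 0, ∀ t : ℝ, |t| < t₀ →
  ∃ χ : ℂ → ℂ, ContDiff ℝ ∞ χ ∧ (∀ z, χ (z + t * η z) = z) ∧ (∀ z, χ z + t * η (χ z) = z) ∧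
    (∀ z, z ∉ X → χ z = z) ∧ MapsTo χ X X ∧ MapsTo (fun z => z + t * η z) X X ∧
    ∀ z, 0 < jac (1 + t * fderiv ℝ η z 1) (I + t * fderiv ℝ η z I)

/-- first column of the inverse of the matrix with columns `m₁`, `m₂` -/
noncomputable def iv1 (m₁ m₂ : ℂ) : ℂ := ⟨m₂.im / jac m₁ m₂, -m₁.im / jac m₁ m₂⟩
/-- second column of the inverse of the matrix with columns `m₁`, `m₂` -/
noncomputable def iv2 (m₁ m₂ : ℂ) : ℂ := ⟨-m₂.re / jac m₁ m₂, m₁.re / jac m₁ m₂⟩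

/-- the transported energy density -/
noncomputable def PT (p : ℝ) (a b m₁ m₂ : ℂ) : ℝ≥0∞ :=
  ENNReal.ofReal (jac m₁ m₂) * PP p (lmap a b (iv1 m₁ m₂)) (lmap a b (iv2 m₁ m₂))

/-- D2. COMP: the energy of `h ∘ χ` -/
def SpecComp : Prop := ∀ (p : ℝ), 1 < p → ∀ (X Y : Set ℂ) (b h hx hy η χ : ℂ → ℂ) (t : ℝ),
  Dom X Y b → Adm p X Y b h hx hy → ContDiff ℝ ∞ η → HasCompactSupport η → tsupport η ⊆ X →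
  ContDiff ℝ ∞ χ → (∀ z, χ (z + t * η z) = z) → (∀ z, χ z + t * η (χ z) = z) →
  (∀ z, z ∉ X → χ z = z) → MapsTo χ X X → MapsTo (fun z => z + t * η z) X X →
  (∀ z, 0 < jac (1 + t * fderiv ℝ η z 1) (I + t * fderiv ℝ η z I)) →
  ∃ kx ky : ℂ → ℂ, Lim X Y b (fun z => h (χ z)) ∧ WD X (fun z => h (χ z)) kx ky ∧
    ∫⁻ z in X, PP p (kx z) (ky z) =
      ∫⁻ z in X, PT p (hx z) (hy z) (1 + t * fderiv ℝ η z 1) (I + t * fderiv ℝ η z I)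

/-- D3. THETA: expansion of the transported energy density -/
def SpecTheta : Prop := ∀ (p : ℝ), 1 < p → ∀ B : ℝ, ∃ t₁ > 0, ∃ C > 0, ∀ a b e₁ e₂ : ℂ,
  PP p a b < ⊤ → ‖e₁‖ ≤ B → ‖e₂‖ ≤ B → ∀ t : ℝ, |t| < t₁ →
    PT p a b (1 + t * e₁) (I + t * e₂) ≤ ENNReal.ofReal ((PP p a b).toReal
      - t * (p / 2) * (AH p a b * (e₁ + I * e₂)).re + C * t ^ 2 * (PP p a b).toReal)

/-- D4. EULER -/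
def SpecEuler : Prop := ∀ (p : ℝ), 1 < p → ∀ (X Y : Set ℂ) (b h hx hy : ℂ → ℂ), Dom X Y b →
  Mini p X Y b h hx hy → ∀ η : ℂ → ℂ, ContDiff ℝ ∞ η → HasCompactSupport η → tsupport η ⊆ X →
    ∫ z in X, AH p (hx z) (hy z) * (fderiv ℝ η z 1 + I * fderiv ℝ η z I) = 0

/-- D5. HOPF -/
def SpecHopf : Prop := ∀ (p : ℝ), 1 < p → ∀ (X Y : Set ℂ) (b h hx hy : ℂ → ℂ), Dom X Y b →
  Mini p X Y b h hx hy → ∃ Φ : ℂ → ℂ, DifferentiableOn ℂ Φ X ∧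
    ∀ᵐ z ∂(volume.restrict X), AH p (hx z) (hy z) = Φ z

/-- D6. CONF: the conformal case -/
def SpecConf : Prop := ∀ (p : ℝ), 1 < p → ∀ (X Y : Set ℂ) (b h hx hy : ℂ → ℂ), Dom X Y b →
  Adm p X Y b h hx hy → (∀ᵐ z ∂(volume.restrict X), AH p (hx z) (hy z) = 0) →
  DifferentiableOn ℂ h X ∧ BijOn h X Y ∧ (∀ z ∈ X, deriv h z ≠ 0) ∧ Hom X Y b h

/-- D7. NMX: otherwise `h` is a solution with the area inequality -/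
def SpecNMX : Prop := ∀ (p : ℝ), 1 < p → ∀ (X Y : Set ℂ) (b h hx hy Φ : ℂ → ℂ), Dom X Y b →
  Adm p X Y b h hx hy → DifferentiableOn ℂ Φ X → (∃ z ∈ X, Φ z ≠ 0) →
  (∀ᵐ z ∂(volume.restrict X), AH p (hx z) (hy z) = Φ z) → NM p X Φ h hx hy

/-! ## E. No collapse -/

/-- E1. RM: Riemann map -/
def SpecRM : Prop := ∀ (X Y : Set ℂ) (b : ℂ → ℂ), Dom X Y b → ∃ ψ χ : ℂ → ℂ,
  DifferentiableOn ℂ ψ (ball 0 1) ∧ DifferentiableOn ℂ χ X ∧ BijOn ψ (ball 0 1) X ∧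
  (∀ z ∈ ball (0 : ℂ) 1, χ (ψ z) = z) ∧ (∀ z ∈ ball (0 : ℂ) 1, deriv ψ z ≠ 0)

/-- E2. PULL: pull back by conformal maps -/
def SpecPull : Prop := ∀ (p : ℝ), 1 < p → ∀ (D D' : Set ℂ) (Ψ H Hx Hy g : ℂ → ℂ),
  NM p D Ψ H Hx Hy → IsOpen D' → DifferentiableOn ℂ g D' → InjOn g D' → MapsTo g D' D →
  (∀ z ∈ D', deriv g z ≠ 0) →
  ∃ Gx Gy : ℂ → ℂ, NM p D' (fun z => Ψ (g z) * deriv g z ^ 2) (fun z => H (g z)) Gx Gy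

/-- E3. VL: fibres are vertical -/
def SpecVL : Prop := ∀ (p : ℝ), 1 < p → ∀ (S : Set ℂ) (H Hx Hy : ℂ → ℂ),
  NM p S (fun _ => 1) H Hx Hy → ∀ c : ℂ,
    volume {u : ℝ | ∃ v : ℝ, (⟨u, v⟩ : ℂ) ∈ S ∧ H ⟨u, v⟩ = c} = 0

/-- E4. CHART: existence of natural charts -/
def SpecChart : Prop := ∀ (D : Set ℂ) (Ψ : ℂ → ℂ) (t : ℂ), IsOpen D → IsPreconnected D →
  DifferentiableOn ℂ Ψ D → (∃ z ∈ D, Ψ z ≠ 0) → t ∈ D →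
  ∃ (k : ℕ) (r : ℝ) (g : ℂ → ℂ), Chart D Ψ k t r g ∧ (Ψ t ≠ 0 → k = 0)

/-- E5. BUMP: boundary bumping -/
def SpecBump : Prop := ∀ K U : Set ℂ, IsCompact K → IsPreconnected K → IsOpen U → ¬ K ⊆ U →
  ∀ s ∈ K ∩ U, ∃ T : Set ℂ, T ⊆ K ∩ closure U ∧ IsPreconnected T ∧ s ∈ T ∧
    (T ∩ frontier U).Nonempty

/-- E6. FAT -/
def SpecFat : Prop := ∀ (X Y : Set ℂ) (b h ψ χ : ℂ → ℂ) (c : ℂ), Dom X Y b → Lim X Y b h →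
  ContinuousOn ψ (ball 0 1) → ContinuousOn χ X → BijOn ψ (ball 0 1) X →
  (∀ z ∈ ball (0 : ℂ) 1, χ (ψ z) = z) →
  ((∃ z ∈ ball (0 : ℂ) 1, ∃ z' ∈ ball (0 : ℂ) 1, z ≠ z' ∧ h (ψ z) = c ∧ h (ψ z') = c) ∨
    c ∈ frontier Y) → Fat (ball 0 1) (fun z => h (ψ z)) c

/-- E7. ATL: the tip lemma on a rectangle `[0,s] × [d₁,d₂]` -/
def SpecATL : Prop := ∀ (p : ℝ), 1 < p → ∀ (s d₁ d₂ m : ℝ) (H Hx Hy : ℂ → ℂ) (c : ℂ), 0 < s →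
  d₁ < m → m < d₂ →
  NM p {z : ℂ | 0 < z.re ∧ z.re < s ∧ d₁ < z.im ∧ z.im < d₂} (fun _ => 1) H Hx Hy →
  ContinuousOn H {z : ℂ | 0 ≤ z.re ∧ z.re ≤ s ∧ d₁ ≤ z.im ∧ z.im ≤ d₂} →
  (∀ v ∈ Icc d₁ d₂, H ⟨s, v⟩ ≠ c) → (∀ u ∈ Icc 0 s, H ⟨u, d₂⟩ ≠ c) →
  (∀ z : ℂ, 0 ≤ z.re → z.re ≤ s → d₁ ≤ z.im → z.im ≤ d₂ → H z = c → z.im ≤ m) →
  (∀ v ∈ Ioo d₁ m, ∃ u ∈ Icc 0 s, H ⟨u, v⟩ = c) → False

/-- the branch `ζ ↦ ζ^(2/(k+2))` -/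
noncomputable def hc (k : ℕ) (ζ : ℂ) : ℂ := ζ ^ ((2 / ((k : ℂ) + 2)) : ℂ)

/-- the half disc `Re ζ > 0`, `|ζ|² < r^(k+2)` -/
def HD (k : ℕ) (r : ℝ) : Set ℂ := {ζ : ℂ | 0 < ζ.re ∧ ‖ζ‖ ^ 2 < r ^ (k + 2)}
/-- the half disc with its diameter -/
def HDc (k : ℕ) (r : ℝ) : Set ℂ := {ζ : ℂ | 0 ≤ ζ.re ∧ ‖ζ‖ ^ 2 < r ^ (k + 2)}

/-- E8. HALF: half charts -/
structure SpecHalf : Prop where
  pow : ∀ (k : ℕ) (ζ : ℂ), hc k ζ ^ (k + 2) = ζ ^ 2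
  co : ∀ k : ℕ, ContinuousOn (hc k) {ζ : ℂ | 0 ≤ ζ.re}
  inj : ∀ k : ℕ, InjOn (hc k) {ζ : ℂ | 0 ≤ ζ.re}
  nrm : ∀ (k : ℕ) (ζ : ℂ), ‖hc k ζ‖ ^ (k + 2) = ‖ζ‖ ^ 2
  maps : ∀ (k : ℕ) (r : ℝ), 0 < r → MapsTo (hc k) (HDc k r) (ball 0 r)
  /-- every point off the rays is in the image of a rotated half chart -/
  cover : ∀ (k : ℕ) (w : ℂ), 0 < ‖w‖ ^ (k + 2) + (w ^ (k + 2)).re →
    ∃ (j : ℕ) (ζ : ℂ), 0 < ζ.re ∧ w = Complex.exp (2 * Real.pi * I * j / (k + 2)) * hc k ζ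
  nm : ∀ (p : ℝ), 1 < p → ∀ (D : Set ℂ) (Ψ H Hx Hy : ℂ → ℂ) (k : ℕ) (t : ℂ) (r : ℝ) (g : ℂ → ℂ),
    NM p D Ψ H Hx Hy → Chart D Ψ k t r g →
    ∃ Gx Gy : ℂ → ℂ, NM p (HD k r) (fun _ => 1) (fun ζ => H (g (hc k ζ))) Gx Gy
  /-- rotated charts -/
  rot : ∀ (D : Set ℂ) (Ψ : ℂ → ℂ) (k : ℕ) (t : ℂ) (r : ℝ) (g : ℂ → ℂ) (j : ℤ),
    Chart D Ψ k t r g →
    Chart D Ψ k t r (fun w => g (Complex.exp (2 * Real.pi * I * j / (k + 2)) * w))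

/-- E9. MU: `|Re ζ|` is constant on connected parts of a fibre -/
def SpecMu : Prop := ∀ (p : ℝ), 1 < p → ∀ (D : Set ℂ) (Ψ H Hx Hy : ℂ → ℂ) (k : ℕ) (t : ℂ)
  (r : ℝ) (g : ℂ → ℂ) (c : ℂ) (T : Set ℂ), NM p D Ψ H Hx Hy → Chart D Ψ k t r g →
  IsPreconnected T → T ⊆ ball 0 r → (∀ w ∈ T, H (g w) = c) → ∀ w ∈ T, ∀ w' ∈ T,
    ‖w‖ ^ (k + 2) + (w ^ (k + 2)).re = ‖w'‖ ^ (k + 2) + (w' ^ (k + 2)).re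

/-- direction of the `j`-th vertical ray -/
noncomputable def rdir (k : ℕ) (j : ℤ) : ℂ := Complex.exp (Real.pi * I * (2 * j + 1) / (k + 2))

/-- E10. STAR -/
def SpecStar : Prop := ∀ (p : ℝ), 1 < p → ∀ (D : Set ℂ) (Ψ H Hx Hy : ℂ → ℂ) (k : ℕ) (t : ℂ)
  (r : ℝ) (g : ℂ → ℂ) (c : ℂ), NM p D Ψ H Hx Hy → Chart D Ψ k t r g → Fat D H c → H t = c →
  ∃ r₁ > 0, r₁ < r ∧ (∃ j : ℤ, ∀ τ : ℝ, 0 ≤ τ → τ ≤ r₁ → H (g (τ * rdir k j)) = c) ∧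
    ∀ j : ℤ, (∀ τ : ℝ, 0 ≤ τ → τ ≤ r₁ → H (g (τ * rdir k j)) = c) ∨
      (∀ τ : ℝ, 0 < τ → τ ≤ r₁ → H (g (τ * rdir k j)) ≠ c)

/-- E11. TIP: no missing ray next to a present ray -/
def SpecTip : Prop := ∀ (p : ℝ), 1 < p → ∀ (D : Set ℂ) (Ψ H Hx Hy : ℂ → ℂ) (k : ℕ) (t : ℂ)
  (r r₁ : ℝ) (g : ℂ → ℂ) (c : ℂ), NM p D Ψ H Hx Hy → Chart D Ψ k t r g → Fat D H c → H t = c →
  0 < r₁ → r₁ < r → (∀ τ : ℝ, 0 ≤ τ → τ ≤ r₁ → H (g (τ * rdir k (-1))) = c) →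
  (∀ τ : ℝ, 0 < τ → τ ≤ r₁ → H (g (τ * rdir k 0)) ≠ c) → False

/-- E12. SAT -/
def SpecSat : Prop := ∀ (p : ℝ), 1 < p → ∀ (D : Set ℂ) (Ψ H Hx Hy : ℂ → ℂ) (c : ℂ),
  NM p D Ψ H Hx Hy → Fat D H c → Sat D Ψ H c

/-- solutions of `y'' = -λ² Ψ y` on `D` without common zero with `y'` -/
structure Sol (D : Set ℂ) (Ψ : ℂ → ℂ) (l : ℝ) (y : ℂ → ℂ) : Prop where
  d : DifferentiableOn ℂ y D
  eq : ∀ z ∈ D, deriv (deriv y) z = -(l : ℂ) ^ 2 * Ψ z * y z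
  nz : ∀ z ∈ D, y z ≠ 0 ∨ deriv y z ≠ 0

/-- E13. ODE -/
def SpecOde : Prop := ∀ (Ψ : ℂ → ℂ) (l : ℝ) (o y₀ y₁ : ℂ), DifferentiableOn ℂ Ψ (ball 0 1) →
  o ∈ ball (0 : ℂ) 1 → (y₀ ≠ 0 ∨ y₁ ≠ 0) →
  ∃ y : ℂ → ℂ, Sol (ball 0 1) Ψ l y ∧ y o = y₀ ∧ deriv y o = y₁

/-- E14. GROW -/
def SpecGrow : Prop := ∀ (l T : ℝ) (P N e₁ e₂ : ℝ → ℂ), 0 < l → 1 ≤ l * T →
  (∀ v ∈ Icc 0 T, HasDerivWithinAt P (l * P v + e₁ v) (Icc 0 T) v) →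
  (∀ v ∈ Icc 0 T, HasDerivWithinAt N (-(l * N v) + e₂ v) (Icc 0 T) v) →
  (∀ v ∈ Icc 0 T, ‖e₁ v‖ ≤ l / 8 * (‖P v‖ + ‖N v‖) ∧ ‖e₂ v‖ ≤ l / 8 * (‖P v‖ + ‖N v‖)) →
  ‖N 0‖ ≤ ‖P 0‖ →
  (‖P T‖ ^ 2 + ‖N T‖ ^ 2) / 2 ≤ ‖P T‖ ^ 2 - ‖N T‖ ^ 2 ∧
    Real.exp (l * T / 2 - 1) * (‖P 0‖ ^ 2 + ‖N 0‖ ^ 2) ≤ ‖P T‖ ^ 2 + ‖N T‖ ^ 2

/-- E15. ZG: growth along one of two vertical rays at a zero of `Ψ` -/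
def SpecZG : Prop := ∀ (D : Set ℂ) (Ψ : ℂ → ℂ) (k : ℕ) (t : ℂ) (r : ℝ) (g : ℂ → ℂ), IsOpen D →
  DifferentiableOn ℂ Ψ D → 1 ≤ k → Chart D Ψ k t r g →
  ∃ r₂ > 0, r₂ ≤ r ∧ ∀ r₃ > 0, r₃ < r₂ → ∃ l₀ > 0, ∀ l ≥ l₀, ∀ y : ℂ → ℂ, Sol D Ψ l y →
    ∃ w : ℂ, ‖w‖ = r₃ ∧ w ^ (k + 2) = -(r₃ : ℂ) ^ (k + 2) ∧
      ∀ w' : ℂ, ‖w'‖ < r₃ →
        (‖w'‖ ^ (k + 2) ≤ 16 / l ^ 2 → ‖y (g w')‖ < ‖y (g w)‖) ∧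
        (16 / l ^ 2 < ‖w'‖ ^ (k + 2) →
          ‖deriv Ψ (g w')‖ ^ 2 < 16 * l ^ 2 * ‖Ψ (g w')‖ ^ 3)

/-- E16. CVX: no local maximum along a vertical trajectory -/
def SpecCvx : Prop := ∀ (D : Set ℂ) (Ψ : ℂ → ℂ) (t : ℂ) (r l : ℝ) (g y : ℂ → ℂ), IsOpen D →
  DifferentiableOn ℂ Ψ D → Chart D Ψ 0 t r g → 0 < l → Sol D Ψ l y →
  ‖deriv Ψ t‖ ^ 2 < 16 * l ^ 2 * ‖Ψ t‖ ^ 3 →
  ¬ (∀ᶠ v : ℝ in 𝓝 0, ‖y (g (v * I))‖ ≤ ‖y t‖)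

/-- E17. YMAX -/
def SpecYmax : Prop := ∀ (D : Set ℂ) (Ψ : ℂ → ℂ) (C C' A : Set ℂ), IsOpen D → IsPreconnected D →
  DifferentiableOn ℂ Ψ D → (∃ z ∈ D, Ψ z ≠ 0) → C ⊆ D →
  (∀ t ∈ C, ∀ (k : ℕ) (r : ℝ) (g : ℂ → ℂ), Chart D Ψ k t r g →
    ∃ r₁ > 0, r₁ ≤ r ∧ ∀ w ∈ ball (0 : ℂ) r₁, (w ^ (k + 2)).im = 0 → (w ^ (k + 2)).re ≤ 0 →
      g w ∈ C) →
  C' ⊆ C → IsCompact C' → (∀ t ∈ C' \ A, ∃ U ∈ 𝓝 t, C ∩ U ⊆ C') → (∀ t ∈ A, Ψ t ≠ 0) →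
  ∃ l₀ > 0, ∀ l ≥ l₀, ∀ y : ℂ → ℂ, Sol D Ψ l y → ∀ t ∈ C' \ A, ∃ s ∈ C', ‖y t‖ < ‖y s‖

/-- E18. INTF: compact fibres are not fat -/
def SpecIntF : Prop := ∀ (p : ℝ), 1 < p → ∀ (Ψ H Hx Hy : ℂ → ℂ) (c : ℂ),
  NM p (ball 0 1) Ψ H Hx Hy → DifferentiableOn ℂ Ψ (ball 0 1) →
  (∃ z ∈ ball (0 : ℂ) 1, Ψ z ≠ 0) → IsCompact {z : ℂ | z ∈ ball (0 : ℂ) 1 ∧ H z = c} →
  Fat (ball 0 1) H c → ∀ z ∈ ball (0 : ℂ) 1, H z ≠ c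

/-- E19. LOOP: logarithms along chains of segments -/
def SpecLoop : Prop := ∀ U : Set ℂ, IsOpen U → IsPreconnected U → ∀ e₁ ∈ U, ∀ e₂ ∈ U,
  ∃ Γ ⊆ U, IsCompact Γ ∧ e₁ ∈ Γ ∧ e₂ ∈ Γ ∧ ∃ ℓ : ℂ → ℂ,
    (∀ z, z ∉ Γ → HasDerivAt ℓ (1 / (z - e₂) - 1 / (z - e₁)) z) ∧
    Tendsto ℓ (cocompact ℂ) (𝓝 0)

/-- E20. ARC: the logarithm along an analytic arc and its jump -/
def SpecArc : Prop := ∀ (r l l' : ℝ) (g : ℂ → ℂ), 0 < l → 0 < l' → l < r → l' < r →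
  DifferentiableOn ℂ g (ball 0 r) → InjOn g (ball 0 r) →
  (∀ z ∈ ball (0 : ℂ) r, deriv g z ≠ 0) →
  ∃ ℓ : ℂ → ℂ,
    (∀ z, z ∉ (fun x : ℝ => g x) '' Icc (-l) l' →
      HasDerivAt ℓ (1 / (z - g l') - 1 / (z - g (-l : ℝ))) z) ∧
    Tendsto ℓ (cocompact ℂ) (𝓝 0) ∧
    ∀ x ∈ Ioo (-l) l', Tendsto (fun ε : ℝ => ℓ (g (x + ε * I)) - ℓ (g (x - ε * I))) (𝓝[>] 0)
      (𝓝 (2 * Real.pi * I))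

/-- E21. SEP: a locally constant function with a unit jump on an arc -/
def SpecSep : Prop := ∀ (r l l' : ℝ) (g : ℂ → ℂ) (U : Set ℂ), 0 < l → 0 < l' → l < r → l' < r →
  DifferentiableOn ℂ g (ball 0 r) → InjOn g (ball 0 r) →
  (∀ z ∈ ball (0 : ℂ) r, deriv g z ≠ 0) → MapsTo g (ball 0 r) (ball 0 1) →
  IsOpen U → IsPreconnected U → U ⊆ ball 0 1 → g l' ∈ U → g (-l : ℝ) ∈ U →
  ∃ Γ ⊆ U, IsCompact Γ ∧ ∃ (W : ℂ → ℝ) (R₀ : ℝ), R₀ < 1 ∧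
    (∀ z, z ∉ (fun x : ℝ => g x) '' Icc (-l) l' ∪ Γ → ∀ᶠ z' in 𝓝 z, W z' = W z) ∧
    (∀ z, R₀ < ‖z‖ → W z = 0) ∧
    ∀ x ∈ Ioo (-l) l', g x ∉ Γ → ∃ ε > 0, ∃ m : ℝ,
      (∀ ζ ∈ ball (x : ℂ) ε, 0 < ζ.im → W (g ζ) = m) ∧
      (∀ ζ ∈ ball (x : ℂ) ε, ζ.im < 0 → W (g ζ) = m - 1)

/-- E22. LR: points of `H⁻¹(Y)` on both sides of a vertical trajectory -/
def SpecLR : Prop := ∀ (p : ℝ), 1 < p → ∀ (D Y : Set ℂ) (Ψ H Hx Hy : ℂ → ℂ) (o : ℂ) (r : ℝ)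
  (g : ℂ → ℂ), NM p D Ψ H Hx Hy → MapsTo H D (closure Y) → IsOpen Y → volume (frontier Y) = 0 →
  (∀ c ∈ frontier Y, Sat D Ψ H c) → Chart D Ψ 0 o r g →
  ∀ δ > 0, δ < r → ∃ l' ∈ Ioo 0 δ, H (g (l' : ℝ)) ∈ Y

/-- E23. HOR: growth in the upward direction along a horizontal trajectory -/
def SpecHor : Prop := ∀ (D : Set ℂ) (Ψ : ℂ → ℂ) (o : ℂ) (r : ℝ) (g : ℂ → ℂ), IsOpen D →
  DifferentiableOn ℂ Ψ D → Chart D Ψ 0 o r g → ∃ l₀ > 0, l₀ ≤ r ∧ ∀ l > 0, ∀ y : ℂ → ℂ,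
    Sol D Ψ l y → (l : ℂ) * y o = I * (deriv y o * deriv g 0) →
    ∀ x : ℝ, |x| < l₀ → ∀ᶠ v : ℝ in 𝓝[>] 0, ‖y (g x)‖ < ‖y (g (x + v * I))‖

/-- E24. BF: no point of the disc is mapped to the boundary -/
def SpecBF : Prop := ∀ (p : ℝ), 1 < p → ∀ (Y : Set ℂ) (Ψ H Hx Hy : ℂ → ℂ),
  NM p (ball 0 1) Ψ H Hx Hy → DifferentiableOn ℂ Ψ (ball 0 1) →
  (∃ z ∈ ball (0 : ℂ) 1, Ψ z ≠ 0) → IsOpen Y → MapsTo H (ball 0 1) (closure Y) →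
  volume (frontier Y) = 0 → IsPreconnected {z : ℂ | z ∈ ball (0 : ℂ) 1 ∧ H z ∈ Y} →
  (∀ c ∈ frontier Y, Fat (ball 0 1) H c) → MapsTo H (ball 0 1) Y

/-- E25. UC: connectedness of the preimage of `Y` -/
def SpecUC : Prop := ∀ (X Y : Set ℂ) (b h : ℂ → ℂ), Dom X Y b → Lim X Y b h →
  InjOn h {z | z ∈ X ∧ h z ∈ Y} → IsPreconnected {z | z ∈ X ∧ h z ∈ Y}

/-- E26. NOCOLL: the relaxed minimizer is a homeomorphism -/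
def SpecNoColl : Prop := ∀ (p : ℝ), 1 < p → ∀ (X Y : Set ℂ) (b h hx hy Φ : ℂ → ℂ), Dom X Y b →
  Lim X Y b h → NM p X Φ h hx hy → DifferentiableOn ℂ Φ X → (∃ z ∈ X, Φ z ≠ 0) → Hom X Y b h

/-! ## F. Regularity (interface) -/

/-- REG -/
def SpecREG : Prop := ∀ (p : ℝ), 1 < p → ∀ (X : Set ℂ) (h hx hy Φ : ℂ → ℂ), IsPreconnected X →
  InjOn h X → (∀ D ⊆ X, IsOpen D → IsOpen (h '' D)) → NM p X Φ h hx hy →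
  DifferentiableOn ℂ Φ X → (∃ z ∈ X, Φ z ≠ 0) → ∫⁻ z in X, PP p (hx z) (hy z) < ⊤ →
  ContDiffOn ℝ 1 h X ∧ ∀ z ∈ X, 0 < jac (fderiv ℝ h z 1) (fderiv ℝ h z I)

end MPfa
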