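import Pool.Agent.Lib.MP_fa0334_an.RegDefs
import Pool.Agent.Lib.MP_fa0334_an.Spec

/-!
Problem MP_fa0334_an, part REG: exact statements of the modules.
Paper proofs: /team-store/MP_fa0334_an_REG.md.  Every module may assume any of the other Specs
listed after `uses` as hypotheses; all modules are independent.
-/

set_option autoImplicit false

open MeasureTheory Set Filter Topology Metric Complex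
open scoped ContDiff ENNReal ComplexConjugate

namespace MPfa.Reg

/-! ### Toolkit -/

/-- MOL : mollification -/
def SpecMol : Prop := ∀ (G : Set ℂ) (F Fx Fy : ℂ → ℂ), IsOpen G → ContinuousOn F G →
  WD G F Fx Fy → ∀ K ⊆ G, IsCompact K → ∃ Fn : ℕ → ℂ → ℂ, (∀ n, ContDiff ℝ ∞ (Fn n)) ∧
    TendstoUniformlyOn Fn F atTop K ∧ ∀ (r : ℝ), 1 ≤ r → ∀ L : ℂ →L[ℝ] ℝ,
      (Lrl G r (fun z => L (Fx z)) → Tendsto (fun n => ∫⁻ z in K,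
        ENNReal.ofReal |L (fderiv ℝ (Fn n) z 1) - L (Fx z)| ^ r) atTop (𝓝 0)) ∧
      (Lrl G r (fun z => L (Fy z)) → Tendsto (fun n => ∫⁻ z in K,
        ENNReal.ofReal |L (fderiv ℝ (Fn n) z I) - L (Fy z)| ^ r) atTop (𝓝 0))

/-- CUT : cut-off functions with the right gradient bound -/
def SpecCut : Prop := ∃ C : ℝ, 0 < C ∧ ∀ (c : ℂ) (ρ R : ℝ), 0 < ρ → ρ < R →
  ∃ ζ : ℂ → ℝ, Test (ball c R) ζ ∧ (∀ z, 0 ≤ ζ z ∧ ζ z ≤ 1) ∧ (∀ z ∈ closedBall c ρ, ζ z = 1) ∧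
    ∀ z, gz ζ z ≤ (C / (R - ρ)) ^ 2

/-- C1WD : classical derivatives are weak derivatives (use `G.indicator`) -/
def SpecC1WD : Prop := ∀ (G : Set ℂ) (F : ℂ → ℂ), IsOpen G → ContDiffOn ℝ 1 F G →
  WD G F (G.indicator fun z => fderiv ℝ F z 1) (G.indicator fun z => fderiv ℝ F z I)

/-- WDC1 (uses MOL) : continuous weak derivatives are classical -/
def SpecWDC1 : Prop := ∀ (G : Set ℂ) (F Fx Fy gx gy : ℂ → ℂ), IsOpen G → ContinuousOn F G →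
  WD G F Fx Fy → ContinuousOn gx G → ContinuousOn gy G →
  (∀ᵐ z ∂(volume.restrict G), Fx z = gx z ∧ Fy z = gy z) →
  ContDiffOn ℝ 1 F G ∧ ∀ z ∈ G, fderiv ℝ F z 1 = gx z ∧ fderiv ℝ F z I = gy z

/-- LOC : weak differentiability is a local property -/
def SpecLoc : Prop := ∀ (G : Set ℂ) (F Fx Fy : ℂ → ℂ), IsOpen G → Measurable Fx →
  Measurable Fy → (∀ z ∈ G, ∃ r > 0, ball z r ⊆ G ∧ WD (ball z r) F Fx Fy) → WD G F Fx Fy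

/-- GLUE (uses LOC, `MPfa.SpecWDU`) : local weak derivatives can be glued -/
def SpecGlue : Prop := ∀ (G : Set ℂ) (F : ℂ → ℂ), IsOpen G →
  (∀ z ∈ G, ∃ r > 0, ball z r ⊆ G ∧ ∃ Fx Fy, WD (ball z r) F Fx Fy) →
  ∃ Fx Fy : ℂ → ℂ, WD G F Fx Fy

/-- LRL : `L^r` on compact sets is a local property -/
def SpecLrlLoc : Prop := ∀ (G : Set ℂ) (r : ℝ) (u : ℂ → ℝ), IsOpen G →
  (∀ z ∈ G, ∃ ρ > 0, Lrl (ball z ρ) r u) → Lrl G r u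

/-- COMP (uses MOL) : chain rule for continuous Sobolev maps -/
def SpecComp : Prop := ∀ (G U : Set ℂ) (F Fx Fy g : ℂ → ℂ), IsOpen G → ContinuousOn F G →
  WD G F Fx Fy → IsOpen U → ContDiffOn ℝ 1 g U → MapsTo F G U →
  WD G (fun z => g (F z)) (G.indicator fun z => fderiv ℝ g (F z) (Fx z))
    (G.indicator fun z => fderiv ℝ g (F z) (Fy z))

/-- MUL (uses MOL) : product rule for continuous Sobolev maps -/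
def SpecMul : Prop := ∀ (G : Set ℂ) (F Fx Fy H Hx Hy : ℂ → ℂ), IsOpen G → ContinuousOn F G →
  ContinuousOn H G → WD G F Fx Fy → WD G H Hx Hy →
  WD G (fun z => F z * H z) (G.indicator fun z => Fx z * H z + F z * Hx z)
    (G.indicator fun z => Fy z * H z + F z * Hy z)

/-- IBP (uses MOL) : `∫ ζ Θ'(u) J(u,v) = - ∫ Θ(u) dζ∧dv` -/
def SpecIBP : Prop := ∀ (G : Set ℂ) (r s : ℝ) (F Fx Fy : ℂ → ℂ), 1 < r → 1 < s →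
  r⁻¹ + s⁻¹ = 1 → WP G r s F Fx Fy → ∀ (U : Set ℝ) (Θ Θ' : ℝ → ℝ), IsOpen U →
  (∀ t ∈ U, HasDerivAt Θ (Θ' t) t) → ContinuousOn Θ' U → (∀ z ∈ G, (F z).re ∈ U) →
  ∀ ζ : ℂ → ℝ, Test G ζ →
    Integrable (fun z => ζ z * Θ' (F z).re * jac (Fx z) (Fy z)) ∧
    Integrable (fun z => Θ (F z).re *
      (fderiv ℝ ζ z 1 * (Fy z).im - fderiv ℝ ζ z I * (Fx z).im)) ∧
    ∫ z, ζ z * Θ' (F z).re * jac (Fx z) (Fy z) =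
      - ∫ z, Θ (F z).re * (fderiv ℝ ζ z 1 * (Fy z).im - fderiv ℝ ζ z I * (Fx z).im)

/-- IBPL (uses MOL) : the same for `log F`, `F` nonvanishing (no logarithm is chosen) -/
def SpecIBPL : Prop := ∀ (G : Set ℂ) (F Fx Fy : ℂ → ℂ), WP G 2 2 F Fx Fy →
  (∀ z ∈ G, F z ≠ 0) → ∀ (U : Set ℝ) (Θ Θ' : ℝ → ℝ), IsOpen U →
  (∀ t ∈ U, HasDerivAt Θ (Θ' t) t) → ContinuousOn Θ' U → (∀ z ∈ G, Real.log ‖F z‖ ∈ U) →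
  ∀ ζ : ℂ → ℝ, Test G ζ →
    Integrable (fun z => ζ z * Θ' (Real.log ‖F z‖) * (jac (Fx z) (Fy z) / ‖F z‖ ^ 2)) ∧
    Integrable (fun z => Θ (Real.log ‖F z‖) *
      (fderiv ℝ ζ z 1 * (Fy z / F z).im - fderiv ℝ ζ z I * (Fx z / F z).im)) ∧
    ∫ z, ζ z * Θ' (Real.log ‖F z‖) * (jac (Fx z) (Fy z) / ‖F z‖ ^ 2) =
      - ∫ z, Θ (Real.log ‖F z‖) *
        (fderiv ℝ ζ z 1 * (Fy z / F z).im - fderiv ℝ ζ z I * (Fx z / F z).im)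

/-- CL (uses MOL) : Courant-Lebesgue inequality -/
def SpecCL : Prop := ∀ (G : Set ℂ) (F Fx Fy : ℂ → ℂ) (c : ℂ) (ρ R o : ℝ), IsOpen G →
  ContinuousOn F G → WD G F Fx Fy → Lrl G 2 (fun z => (Fx z).re) →
  Lrl G 2 (fun z => (Fy z).re) → 0 < ρ → ρ < R → closedBall c R ⊆ G → 0 ≤ o →
  (∀ t ∈ Icc ρ R, ∃ z ∈ sphere c t, ∃ z' ∈ sphere c t, o ≤ |(F z).re - (F z').re|) →
  o ^ 2 * Real.log (R / ρ) ≤ 2 * Real.pi * ∫ z in ball c R, ‖gr (Fx z) (Fy z)‖ ^ 2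

/-! ### Sense preserving pairs and quasiregular maps -/

/-- MAX (uses IBP, CUT) : maximum principle -/
def SpecMax : Prop := ∀ (G : Set ℂ) (r s Q : ℝ) (F Fx Fy : ℂ → ℂ), 0 < Q →
  SP G r s Q F Fx Fy → ∀ (O : Set ℂ) (M : ℝ), IsOpen O → IsCompact (closure O) →
  closure O ⊆ G → (∀ z ∈ frontier O, (F z).re ≤ M) → ∀ z ∈ O, (F z).re ≤ M

/-- OSC (uses MAX, CL) : logarithmic modulus of continuity of the real part -/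
def SpecOsc : Prop := ∀ (G : Set ℂ) (r s Q : ℝ) (F Fx Fy : ℂ → ℂ), 0 < Q →
  SP G r s Q F Fx Fy → Lrl G 2 (fun z => (Fx z).re) → Lrl G 2 (fun z => (Fy z).re) →
  ∀ (c : ℂ) (ρ R : ℝ), 0 < ρ → ρ < R → closedBall c R ⊆ G →
  ∀ z ∈ closedBall c ρ, ∀ z' ∈ closedBall c ρ,
    ((F z).re - (F z').re) ^ 2 * Real.log (R / ρ) ≤
      2 * Real.pi * ∫ z in ball c R, ‖gr (Fx z) (Fy z)‖ ^ 2

/-- OSCQ (uses OSC) -/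
def SpecOscQ : Prop := ∀ (G : Set ℂ) (Q : ℝ) (F Fx Fy : ℂ → ℂ), 0 < Q → QR G Q F Fx Fy →
  ∀ (c : ℂ) (ρ R : ℝ), 0 < ρ → ρ < R → closedBall c R ⊆ G →
  ∀ z ∈ closedBall c ρ, ∀ z' ∈ closedBall c ρ,
    ‖F z - F z'‖ ^ 2 * Real.log (R / ρ) ≤ 2 * Real.pi * ∫ z in ball c R, en (Fx z) (Fy z)

/-- MODQ (uses MAX) : maximum modulus principle -/
def SpecModQ : Prop := ∀ (G : Set ℂ) (Q : ℝ) (F Fx Fy : ℂ → ℂ), 0 < Q → QR G Q F Fx Fy →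
  ∀ (O : Set ℂ) (M : ℝ), IsOpen O → IsCompact (closure O) → closure O ⊆ G →
  (∀ z ∈ frontier O, ‖F z‖ ≤ M) → ∀ z ∈ O, ‖F z‖ ≤ M

/-- CACC (uses IBP) : Caccioppoli inequality -/
def SpecCacc : Prop := ∀ (G : Set ℂ) (Q : ℝ) (F Fx Fy : ℂ → ℂ), 0 < Q → QR G Q F Fx Fy →
  ∀ (ζ : ℂ → ℝ) (m : ℝ), Test G ζ →
    ∫ z, ζ z ^ 2 * en (Fx z) (Fy z) ≤ 4 * Q ^ 2 * ∫ z, gz ζ z * ((F z).re - m) ^ 2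

/-- CACCL (uses IBPL) : the same for `log F` -/
def SpecCaccL : Prop := ∀ (G : Set ℂ) (Q : ℝ) (F Fx Fy : ℂ → ℂ), 0 < Q → QR G Q F Fx Fy →
  (∀ z ∈ G, F z ≠ 0) → ∀ (ζ : ℂ → ℝ) (m : ℝ), Test G ζ →
    ∫ z, ζ z ^ 2 * (en (Fx z) (Fy z) / ‖F z‖ ^ 2) ≤
      4 * Q ^ 2 * ∫ z, gz ζ z * (Real.log ‖F z‖ - m) ^ 2

/-- QINV (uses COMP, LOC) : `1/F` and continuous logarithms of `F` are quasiregular -/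
def SpecQInv : Prop := ∀ (G : Set ℂ) (Q : ℝ) (F Fx Fy : ℂ → ℂ), 0 < Q → QR G Q F Fx Fy →
  (∀ z ∈ G, F z ≠ 0) →
  QR G Q (fun z => (F z)⁻¹) (G.indicator fun z => -Fx z / F z ^ 2)
    (G.indicator fun z => -Fy z / F z ^ 2) ∧
  ∀ L : ℂ → ℂ, ContinuousOn L G → (∀ z ∈ G, F z = Complex.exp (L z)) →
    QR G Q L (G.indicator fun z => Fx z / F z) (G.indicator fun z => Fy z / F z)

/-- SUP (uses CACC, OSC, CUT) : sup bound by the `L²` norm -/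
def SpecSup : Prop := ∀ Q : ℝ, 0 < Q → ∃ C : ℝ, 0 ≤ C ∧ ∀ (c : ℂ) (R : ℝ) (F Fx Fy : ℂ → ℂ)
  (B : ℝ), 0 < R → QR (ball c R) Q F Fx Fy → 0 ≤ B →
  ∫⁻ z in ball c R, ‖F z‖ₑ ^ 2 ≤ ENNReal.ofReal B →
  ∀ z ∈ closedBall c (R / 4), ‖F z‖ ^ 2 ≤ C / R ^ 2 * B

/-- HARN (uses IBP, COMP, CL, MAX, CUT) : Harnack inequality -/
def SpecHarn : Prop := ∀ Q : ℝ, 0 < Q → ∃ C : ℝ, 1 ≤ C ∧ ∀ (c : ℂ) (R : ℝ)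
  (L Lx Ly : ℂ → ℂ) (M : ℝ), 0 < R → QR (ball c R) Q L Lx Ly →
  (∀ z ∈ ball c R, (L z).re < M) → ∀ z ∈ closedBall c (R / 4), ∀ z' ∈ closedBall c (R / 4),
    M - (L z).re ≤ C * (M - (L z').re)

/-- BEL : Beltrami coefficient and quasiregularity (algebra) -/
def SpecBel : Prop := ∀ (a b : ℂ) (κ : ℝ), 0 ≤ κ → κ < 1 → ‖a + I * b‖ ≤ κ * ‖a - I * b‖ →
  en a b ≤ 2 * (1 + κ ^ 2) / (1 - κ ^ 2) * jac a b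

/-! ### The elliptic equation -/

/-- KFUN : the function `kf` exists -/
def SpecKF : Prop := ∀ p : ℝ, 1 < p → ∃ kf : ℝ → ℝ, KF p kf

/-- AFUN : monotonicity and growth of the vector field -/
def SpecAf : Prop := ∀ (p : ℝ) (kf : ℝ → ℝ), 1 < p → KF p kf → ∃ Λ : ℝ, 1 ≤ Λ ∧ ∀ X Y : ℂ,
  (kf ‖X‖ + kf ‖Y‖) / 2 * ‖X - Y‖ ^ 2 ≤ (conj (X - Y) * (Af kf X - Af kf Y)).re ∧
  ‖Af kf X - Af kf Y‖ ≤ Λ * (kf ‖X‖ + kf ‖Y‖) * ‖X - Y‖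

/-- CALG : the pointwise relation, both directions -/
def SpecCAlg : Prop := ∀ (p : ℝ) (kf : ℝ → ℝ), 1 < p → KF p kf → ∀ a b : ℂ,
  ((0 < jac a b ∧ ((KK a b ^ (p - 1) : ℝ) : ℂ) * (a ^ 2 + b ^ 2) = -(jac a b : ℂ) ^ 2) ↔
    (gr a b ≠ 0 ∧ gi a b = I * Af kf (gr a b))) ∧
  (gr a b ≠ 0 → gi a b = I * Af kf (gr a b) →
    KK a b = (1 + kf ‖gr a b‖ ^ 2) / (2 * kf ‖gr a b‖) ∧ kf ‖gr a b‖ ≤ 2 * KK a b ∧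
    jac a b = kf ‖gr a b‖ * ‖gr a b‖ ^ 2 ∧
    ‖a + I * b‖ ≤ (kf ‖gr a b‖ ^ 2 - 1) * ‖a - I * b‖)

/-- DSP (uses AFUN) : differences of a solution and its translate are sense preserving -/
def SpecDSP : Prop := ∀ (p : ℝ) (kf : ℝ → ℝ), 1 < p → KF p kf → ∀ (G : Set ℂ)
  (F Fx Fy : ℂ → ℂ), Sol p kf G F Fx Fy → ∀ (c τ : ℂ) (R : ℝ), 0 < R →
  closedBall c (R + ‖τ‖) ⊆ G →
  SP (ball c R) (2 * p / (p - 1)) (2 * p / (p + 1)) 1 (fun z => F (z + τ) - F z)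
    (fun z => Fx (z + τ) - Fx z) (fun z => Fy (z + τ) - Fy z)

/-- DQ (uses DSP, AFUN, IBP, MOL, CUT) : energy of the difference quotients -/
def SpecDQ : Prop := ∀ (p : ℝ) (kf : ℝ → ℝ), 1 < p → KF p kf → ∀ (G : Set ℂ)
  (F Fx Fy : ℂ → ℂ), Sol p kf G F Fx Fy → ∀ (c : ℂ) (R : ℝ), 0 < R → closedBall c R ⊆ G →
  ∃ C t₀ : ℝ, 0 ≤ C ∧ 0 < t₀ ∧ ∀ τ : ℂ, ‖τ‖ < t₀ →
    ∫⁻ z in ball c (R / 2), ENNReal.ofReal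
      (‖gr (Fx (z + τ)) (Fy (z + τ)) - gr (Fx z) (Fy z)‖ ^ 2) ≤ ENNReal.ofReal (C * ‖τ‖ ^ 2)

/-- C1 (uses DSP, DQ, OSC, WDC1) : solutions are `C¹` -/
def SpecC1 : Prop := ∀ (p : ℝ) (kf : ℝ → ℝ), 1 < p → KF p kf → ∀ (G : Set ℂ)
  (F Fx Fy : ℂ → ℂ), Sol p kf G F Fx Fy → ContDiffOn ℝ 1 F G ∧
  ∀ z ∈ G, gi (fderiv ℝ F z 1) (fderiv ℝ F z I) =
    I * Af kf (gr (fderiv ℝ F z 1) (fderiv ℝ F z I))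

/-- NZ (uses AFUN, C1WD, QINV, DLOG, HARN) : the derivative does not vanish -/
def SpecNZ : Prop := ∀ (p : ℝ) (kf : ℝ → ℝ), 1 < p → KF p kf → ∀ (G : Set ℂ) (F : ℂ → ℂ),
  IsOpen G → ContDiffOn ℝ 1 F G → InjOn F G →
  (∀ z ∈ G, gi (fderiv ℝ F z 1) (fderiv ℝ F z I) =
    I * Af kf (gr (fderiv ℝ F z 1) (fderiv ℝ F z I))) →
  ∀ z ∈ G, gr (fderiv ℝ F z 1) (fderiv ℝ F z I) ≠ 0

/-- W22 (uses DQ, C1WD, `MPfa.SpecRz`, `MPfa.SpecWDU`, COMP, GLUE, LRL) : the gradient `P = U_x - i U_y` is quasiregular -/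
def SpecW22 : Prop := ∀ (p : ℝ) (kf : ℝ → ℝ), 1 < p → KF p kf → ∃ κ : ℝ, 0 ≤ κ ∧ κ < 1 ∧
  ∀ (G : Set ℂ) (F : ℂ → ℂ), Sol1 kf G F → ∃ Px Py : ℂ → ℂ,
    WP G 2 2 (fun z => conj (gr (fderiv ℝ F z 1) (fderiv ℝ F z I))) Px Py ∧
    ∀ᵐ z ∂(volume.restrict G), ‖Px z + I * Py z‖ ≤
      min κ (kf ‖gr (fderiv ℝ F z 1) (fderiv ℝ F z I)‖ ^ 2 - 1) * ‖Px z - I * Py z‖

/-! ### Topology: logarithms -/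

/-- HLIFT : homotopy lifting for `exp` -/
def SpecHLift : Prop := ∀ (A : Set ℂ) (H : ℝ × ℂ → ℂ),
  ContinuousOn H (Icc (0 : ℝ) 1 ×ˢ A) → (∀ q ∈ Icc (0 : ℝ) 1 ×ˢ A, H q ≠ 0) →
  (∃ ℓ : ℂ → ℂ, ContinuousOn ℓ A ∧ ∀ z ∈ A, H (0, z) = Complex.exp (ℓ z)) →
  ∃ ℓ : ℂ → ℂ, ContinuousOn ℓ A ∧ ∀ z ∈ A, H (1, z) = Complex.exp (ℓ z)

/-- DLOG (uses HLIFT) : logarithms on discs -/
def SpecDLog : Prop := ∀ (c : ℂ) (r : ℝ) (F : ℂ → ℂ), ContinuousOn F (ball c r) →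
  (∀ z ∈ ball c r, F z ≠ 0) →
  ∃ ℓ : ℂ → ℂ, ContinuousOn ℓ (ball c r) ∧ ∀ z ∈ ball c r, F z = Complex.exp (ℓ z)

/-- ZLOGF (uses HLIFT, ZLOGX) : `f = z e^ℓ` -/
def SpecZLogF : Prop := ∀ (p : ℝ) (n : ℕ) (r : ℝ) (f : ℂ → ℂ), 1 < p → Zer p n r f →
  ∃ (r₁ : ℝ) (ℓ : ℂ → ℂ), 0 < r₁ ∧ r₁ ≤ r ∧ ContinuousOn ℓ (pun r₁) ∧
    ∀ z ∈ pun r₁, f z = z * Complex.exp (ℓ z)

/-- ZLOGX (uses HLIFT, DLOG) : `f_x = e^ℓ` -/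
def SpecZLogX : Prop := ∀ (p : ℝ) (n : ℕ) (r : ℝ) (f : ℂ → ℂ), 1 < p → Zer p n r f →
  ∃ (r₁ : ℝ) (ℓ : ℂ → ℂ), 0 < r₁ ∧ r₁ ≤ r ∧ ContinuousOn ℓ (pun r₁) ∧
    ∀ z ∈ pun r₁, fderiv ℝ f z 1 = Complex.exp (ℓ z)

/-- ZLOGS (uses HLIFT, ZLOGF, ZLOGX, CALG) : `S = z^n e^ℓ` -/
def SpecZLogS : Prop := ∀ (p : ℝ) (kf : ℝ → ℝ), 1 < p → KF p kf → ∀ (n : ℕ) (r : ℝ)
  (f : ℂ → ℂ), Zer p n r f →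
  ∃ (r₁ : ℝ) (ℓ : ℂ → ℂ), 0 < r₁ ∧ r₁ ≤ r ∧ ContinuousOn ℓ (pun r₁) ∧
    ∀ z ∈ pun r₁, Sz n f z = z ^ n * Complex.exp (ℓ z)

/-! ### Charts -/

/-- LOCAL (uses `MPfa.SpecChart`, COMP, KF, CALG, C1, NZ) : regularity where `Ψ ≠ 0` -/
def SpecLocal : Prop := ∀ (p : ℝ) (Y X : Set ℂ) (Ψ f fx fy : ℂ → ℂ), 1 < p →
  InvSol p Y X Ψ f fx fy → ∀ z ∈ Y, Ψ (f z) ≠ 0 → ∃ ε > 0, ball z ε ⊆ Y ∧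
    ContDiffOn ℝ 1 f (ball z ε) ∧ ∀ z' ∈ ball z ε,
      0 < jac (fderiv ℝ f z' 1) (fderiv ℝ f z' I) ∧
      ((KK (fderiv ℝ f z' 1) (fderiv ℝ f z' I) ^ (p - 1) : ℝ) : ℂ) *
        ((fderiv ℝ f z' 1) ^ 2 + (fderiv ℝ f z' I) ^ 2) =
        -(jac (fderiv ℝ f z' 1) (fderiv ℝ f z' I) : ℂ) ^ 2 * conj (Ψ (f z'))

/-- ZNORM (uses `MPfa.SpecChart`, LOCAL) : normal form at a zero -/
def SpecZNorm : Prop := ∀ (p : ℝ) (Y X : Set ℂ) (Ψ f fx fy : ℂ → ℂ), 1 < p →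
  InvSol p Y X Ψ f fx fy → ∀ z ∈ Y, Ψ (f z) = 0 → ∃ (n : ℕ) (r ρ : ℝ) (g φ : ℂ → ℂ),
    Chart X Ψ n (f z) ρ g ∧ Zer p n r φ ∧
    ∀ w ∈ ball (0 : ℂ) r, z + w ∈ Y ∧ φ w ∈ ball (0 : ℂ) ρ ∧ g (φ w) = f (z + w)

/-! ### The punctured disc -/

/-- FLUX (uses LWD) : the flux of `d arg F` -/
def SpecFlux : Prop := ∀ (r Q : ℝ) (m : ℕ) (F Fx Fy ℓ : ℂ → ℂ), 0 < Q → PF r Q m F Fx Fy ℓ →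
  ∀ (ζ : ℂ → ℝ) (c ε : ℝ), Test (ball 0 r) ζ → 0 < ε → (∀ z ∈ ball (0 : ℂ) ε, ζ z = c) →
    ∫ z, (fderiv ℝ ζ z 1 * (Fy z / F z).im - fderiv ℝ ζ z I * (Fx z / F z).im) =
      -(2 * Real.pi * m * c)

/-- RING (uses FLUX, CUT) : lower bound for the energy of a ring -/
def SpecRing : Prop := ∃ C : ℝ, 0 ≤ C ∧ ∀ (r Q : ℝ) (m : ℕ) (F Fx Fy ℓ : ℂ → ℂ), 0 < Q →
  PF r Q m F Fx Fy ℓ → ∀ t : ℝ, 0 < t → 2 * t < r →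
    (m : ℝ) ^ 2 ≤ C * ∫ z in ball (0 : ℂ) (2 * t) \ closedBall 0 t, en (Fx z) (Fy z) / ‖F z‖ ^ 2

/-- CIRC (uses HARN, QINV, DLOG) : Harnack inequality on circles -/
def SpecCirc : Prop := ∀ Q : ℝ, 0 < Q → ∃ C : ℝ, 1 ≤ C ∧ ∀ (r : ℝ) (F Fx Fy : ℂ → ℂ),
  QR (pun r) Q F Fx Fy → (∀ z ∈ pun r, F z ≠ 0) → ∀ t M : ℝ, 0 < t → 2 * t ≤ r →
  (∀ z : ℂ, t / 2 < ‖z‖ → ‖z‖ < 2 * t → Real.log ‖F z‖ < M) →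
  ∀ z z' : ℂ, 7 / 8 * t ≤ ‖z‖ → ‖z‖ ≤ 9 / 8 * t → 7 / 8 * t ≤ ‖z'‖ → ‖z'‖ ≤ 9 / 8 * t →
    M - Real.log ‖F z‖ ≤ C * (M - Real.log ‖F z'‖)

/-- ROSC (uses OSCQ, QINV, DLOG) : oscillation on rings by energy -/
def SpecROsc : Prop := ∀ Q : ℝ, 0 < Q → ∃ C : ℝ, 0 ≤ C ∧ ∀ (r : ℝ) (F Fx Fy : ℂ → ℂ),
  QR (pun r) Q F Fx Fy → (∀ z ∈ pun r, F z ≠ 0) → ∀ t : ℝ, 0 < t → 2 * t < r →
  ∀ z z' : ℂ, t / 2 ≤ ‖z‖ → ‖z‖ ≤ t → t / 2 ≤ ‖z'‖ → ‖z'‖ ≤ t →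
    (Real.log ‖F z‖ - Real.log ‖F z'‖) ^ 2 ≤
      C * ∫ w in ball (0 : ℂ) (2 * t) \ closedBall 0 (t / 4), en (Fx w) (Fy w) / ‖F w‖ ^ 2

/-- GOODE (uses IBPL, FLUX, CACCL, CUT) : energy outside a circle of small oscillation -/
def SpecGoodE : Prop := ∀ (r Q : ℝ) (m : ℕ) (F Fx Fy ℓ : ℂ → ℂ), 0 < Q →
  PF r Q m F Fx Fy ℓ → ∃ C : ℝ, 0 ≤ C ∧ ∀ t D : ℝ, 0 < t → t < r / 8 → 0 ≤ D →
  (∀ z z' : ℂ, 7 / 8 * t ≤ ‖z‖ → ‖z‖ ≤ 9 / 8 * t → 7 / 8 * t ≤ ‖z'‖ → ‖z'‖ ≤ 9 / 8 * t →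
    |Real.log ‖F z‖ - Real.log ‖F z'‖| ≤ D) → ∀ z : ℂ, ‖z‖ = t →
  ∫ w in ball (0 : ℂ) (r / 2) \ closedBall 0 (9 / 8 * t), en (Fx w) (Fy w) / ‖F w‖ ^ 2 ≤
    C * (1 + D ^ 2) - 2 * Real.pi * m * Q * Real.log ‖F z‖

/-- PUNCA (uses CIRC, GOODE, RING, MODQ) : `F → 0` -/
def SpecPuncA : Prop := ∀ (r Q : ℝ) (m : ℕ) (F Fx Fy ℓ : ℂ → ℂ), 0 < Q → 1 ≤ m →
  PF r Q m F Fx Fy ℓ → (∃ C : ℝ, ∀ z ∈ pun r, ‖F z‖ * ‖z‖ ^ 2 ≤ C) →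
  Tendsto F (𝓝[≠] 0) (𝓝 0)

/-- PUNCB (uses IBPL, CUT) : energy above a level -/
def SpecPuncB : Prop := ∀ (r Q : ℝ) (m : ℕ) (F Fx Fy ℓ : ℂ → ℂ), 0 < Q →
  PF r Q m F Fx Fy ℓ → Tendsto F (𝓝[≠] 0) (𝓝 0) → ∃ C : ℝ, 0 ≤ C ∧ ∀ t : ℝ,
    ∫⁻ z in {z | z ∈ pun (r / 2) ∧ t < Real.log ‖F z‖},
      ENNReal.ofReal (en (Fx z) (Fy z) / ‖F z‖ ^ 2) ≤ ENNReal.ofReal (C * (1 + |t|))

/-- PUNCC (uses PUNCB, RING, CIRC, ROSC, MODQ) : power decay and logarithmic energy -/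
def SpecPuncC : Prop := ∀ (r Q : ℝ) (m : ℕ) (F Fx Fy ℓ : ℂ → ℂ), 0 < Q → 1 ≤ m →
  PF r Q m F Fx Fy ℓ → Tendsto F (𝓝[≠] 0) (𝓝 0) → ∃ C α : ℝ, 0 ≤ C ∧ 0 < α ∧
    (∀ z ∈ pun (r / 4), ‖F z‖ ≤ C * ‖z‖ ^ α) ∧
    ∀ ρ : ℝ, 0 < ρ → ρ < r / 4 →
      ∫⁻ z in ball (0 : ℂ) (r / 4) \ ball 0 ρ, ENNReal.ofReal (en (Fx z) (Fy z) / ‖F z‖ ^ 2) ≤
        ENNReal.ofReal (C * (1 + Real.log (r / ρ)))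

/-- hypotheses of the theorem on asymptotically conformal maps -/
structure TW (r Q C α : ℝ) (m : ℕ) (F Fx Fy ℓ : ℂ → ℂ) : Prop where
  pf : PF r Q m F Fx Fy ℓ
  Q0 : 0 < Q
  a0 : 0 < α
  C0 : 0 ≤ C
  bel : ∀ᵐ z ∂(volume.restrict (pun r)),
    ‖Fx z + I * Fy z‖ ≤ C * ‖z‖ ^ α * ‖Fx z - I * Fy z‖
  enr : ∀ ρ : ℝ, 0 < ρ → ρ < r →
    ∫⁻ z in ball (0 : ℂ) r \ ball 0 ρ, ENNReal.ofReal (en (Fx z) (Fy z) / ‖F z‖ ^ 2) ≤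
      ENNReal.ofReal (C * (1 + Real.log (r / ρ)))

/-- derivatives of `ℓ = log (F / z^m)` -/
noncomputable def lx (m : ℕ) (F Fx : ℂ → ℂ) (z : ℂ) : ℂ := Fx z / F z - m / z
/-- derivatives of `ℓ = log (F / z^m)` -/
noncomputable def ly (m : ℕ) (F Fy : ℂ → ℂ) (z : ℂ) : ℂ := Fy z / F z - I * (m / z)

/-- LWD (uses COMP, LOC) : `ℓ` is a Sobolev map -/
def SpecLWD : Prop := ∀ (r Q : ℝ) (m : ℕ) (F Fx Fy ℓ : ℂ → ℂ), 0 < Q →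
  PF r Q m F Fx Fy ℓ →
  WP (pun r) 2 2 ℓ ((pun r).indicator (lx m F Fx)) ((pun r).indicator (ly m F Fy))

/-- TWCA (uses LWD, ROSC, IBP, CUT) : finite energy of `ℓ` -/
def SpecTwcA : Prop := ∀ (r Q C α : ℝ) (m : ℕ) (F Fx Fy ℓ : ℂ → ℂ), TW r Q C α m F Fx Fy ℓ →
  ∃ r₁ : ℝ, 0 < r₁ ∧ r₁ < r ∧
    ∫⁻ z in pun r₁, ENNReal.ofReal (en (lx m F Fx z) (ly m F Fy z)) < ⊤

/-- TWCB (uses LWD, OSCQ, QINV, DLOG, MOL) : the oscillation of `ℓ` on rings tends to `0` -/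
def SpecTwcB : Prop := ∀ (r Q C α : ℝ) (m : ℕ) (F Fx Fy ℓ : ℂ → ℂ), TW r Q C α m F Fx Fy ℓ →
  (∃ r₁ : ℝ, 0 < r₁ ∧ r₁ < r ∧
    ∫⁻ z in pun r₁, ENNReal.ofReal (en (lx m F Fx z) (ly m F Fy z)) < ⊤) →
  ∀ ε > 0, ∃ r₂ > 0, ∀ t : ℝ, 0 < t → t < r₂ → ∀ z z' : ℂ, t / 2 ≤ ‖z‖ → ‖z‖ ≤ t →
    t / 2 ≤ ‖z'‖ → ‖z'‖ ≤ t → ‖ℓ z - ℓ z'‖ ≤ ε

/-- TWCC (uses LWD) : the means of `ℓ` over dyadic rings converge -/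
def SpecTwcC : Prop := ∀ (r Q C α : ℝ) (m : ℕ) (F Fx Fy ℓ : ℂ → ℂ), TW r Q C α m F Fx Fy ℓ →
  ∃ (ψ : ℂ → ℝ) (a : ℂ), Continuous ψ ∧ (∀ z, 0 ≤ ψ z) ∧ ∫ z, ψ z = 1 ∧
    (∀ z, ψ z ≠ 0 → 1 / 2 < ‖z‖ ∧ ‖z‖ < 1) ∧
    Tendsto (fun j : ℕ => ∫ z, ((4 : ℝ) ^ j * ψ (2 ^ j * z)) • ℓ z) atTop (𝓝 a)

/-- TWC (uses TWCA, TWCB, TWCC) -/
def SpecTwc : Prop := ∀ (r Q C α : ℝ) (m : ℕ) (F Fx Fy ℓ : ℂ → ℂ), TW r Q C α m F Fx Fy ℓ →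
  ∃ a : ℂ, Tendsto ℓ (𝓝[≠] 0) (𝓝 a)

/-! ### Zeros -/

/-- ZQR (uses CALG, W22, COMP, GLUE, LRL, `MPfa.SpecWDU`) : `S` is quasiregular off the zero -/
def SpecZQR : Prop := ∀ (p : ℝ) (kf : ℝ → ℝ), 1 < p → KF p kf → ∃ κ : ℝ, 0 ≤ κ ∧ κ < 1 ∧
  ∀ (n : ℕ) (r : ℝ) (f : ℂ → ℂ), Zer p n r f → ∃ Sx Sy : ℂ → ℂ,
    WP (pun r) 2 2 (Sz n f) Sx Sy ∧ (∀ z ∈ pun r, Sz n f z ≠ 0) ∧
    ∀ᵐ z ∂(volume.restrict (pun r)), ‖Sx z + I * Sy z‖ ≤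
      min κ (kf (Real.sqrt ‖Sz n f z‖) ^ 2 - 1) * ‖Sx z - I * Sy z‖

/-- ZALG (uses CALG) : pointwise facts at a zero -/
def SpecZAlg : Prop := ∀ (p : ℝ) (kf : ℝ → ℝ), 1 < p → KF p kf → ∀ (n : ℕ) (r : ℝ)
  (f : ℂ → ℂ), Zer p n r f → ∀ z ∈ pun r,
    ‖Sz n f z‖ ≤ ‖Psn n (f z)‖ * jac (fderiv ℝ f z 1) (fderiv ℝ f z I) ∧
    ‖fderiv ℝ f z 1 + I * fderiv ℝ f z I‖ ≤ (kf (Real.sqrt ‖Sz n f z‖) ^ 2 - 1) *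
      ‖fderiv ℝ f z 1 - I * fderiv ℝ f z I‖ ∧
    ‖fderiv ℝ f z 1 + I * fderiv ℝ f z I‖ ≤
      (kf (Real.sqrt ‖Sz n f z‖) - 1) / (kf (Real.sqrt ‖Sz n f z‖) + 1) *
      ‖fderiv ℝ f z 1 - I * fderiv ℝ f z I‖ ∧
    ∃ ν : ℂ, ‖ν‖ < 1 ∧ ‖ν‖ ≤ kf (Real.sqrt ‖Sz n f z‖) ^ 2 - 1 ∧
      Sz n f z = Psn n (f z) * ((fderiv ℝ f z 1 - I * fderiv ℝ f z I) / 2) ^ 2 * (1 + ν) ^ 2

/-- ZGROW (uses ZALG, ZQR, BEL, QINV, DLOG, COMP, SUP) : a growth bound for `S` -/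
def SpecZGrow : Prop := ∀ (p : ℝ) (kf : ℝ → ℝ), 1 < p → KF p kf → ∀ (n : ℕ) (r : ℝ)
  (f : ℂ → ℂ), Zer p n r f → ∃ C r₁ : ℝ, 0 < r₁ ∧ r₁ ≤ r ∧ ∀ z ∈ pun r₁,
    ‖Sz n f z‖ * ‖z‖ ^ 2 ≤ C

/-- ZERO (uses KF, ZQR, ZALG, ZGROW, ZLOGF, ZLOGS, PUNCA, PUNCC, TWC, BEL, C1WD) -/
def SpecZero : Prop := ∀ (p : ℝ) (n : ℕ) (r : ℝ) (f : ℂ → ℂ), 1 < p → Zer p n r f →
  ContDiffOn ℝ 1 f (ball 0 r) ∧ 0 < jac (fderiv ℝ f 0 1) (fderiv ℝ f 0 I)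

/-- REG (uses LOCAL, ZNORM, ZERO) : OUTPUT -/
def SpecREG : Prop := ∀ (p : ℝ) (Y X : Set ℂ) (Ψ f fx fy : ℂ → ℂ), 1 < p →
  InvSol p Y X Ψ f fx fy → ContDiffOn ℝ 1 f Y ∧
    ∀ z ∈ Y, 0 < jac (fderiv ℝ f z 1) (fderiv ℝ f z I)

end MPfa.Reg
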