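import Pool.Agent.Lib.MP_fa0334_an.Spec

/-!
Problem MP_fa0334_an: statements of the bridge between the no-collapse part and the regularity
part.
-/

set_option autoImplicit false

open MeasureTheory Set Filter Topology Metric Complex
open scoped ContDiff ENNReal ComplexConjugate

namespace MPfa

/-- G1. INVWD: the inverse of a homeomorphism in `W^{1,2}` with positive Jacobian is weakly
differentiable (Piola identity) -/
def SpecInvWD : Prop := ∀ (X Y : Set ℂ) (f h hx hy : ℂ → ℂ), IsOpen X → IsOpen Y →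
  Bornology.IsBounded X →
  ContinuousOn f Y → MapsTo f Y X → MapsTo h X Y → (∀ z ∈ Y, h (f z) = z) →
  (∀ w ∈ X, f (h w) = w) → Mon X h hx hy → ∫⁻ z in X, (‖hx z‖ₑ ^ 2 + ‖hy z‖ₑ ^ 2) < ⊤ →
  (∀ᵐ z ∂(volume.restrict X), 0 < jac (hx z) (hy z)) →
  ∃ fx fy : ℂ → ℂ, WD Y f fx fy ∧
    ∀ᵐ z ∂(volume.restrict Y), 0 < jac (hx (f z)) (hy (f z)) ∧
      fx z = iv1 (hx (f z)) (hy (f z)) ∧ fy z = iv2 (hx (f z)) (hy (f z))

end MPfa
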