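import Mathlib
import Pool.Agent.Lib.MP_fa0334_an.C1
import Pool.Agent.Lib.MP_fa0334_an.RegSpec
import Pool.Agent.Lib.MP_fa0334_an.Spec2

section
/-!
A convex open set of the plane with finite area is bounded.
-/
set_option autoImplicit false

open MeasureTheory Set Filter Topology Metric Complex
open scoped ENNReal

namespace MPfa

lemma isBounded_of_convex_of_volume {Y : Set ℂ} (hY : IsOpen Y) (hc : Convex ℝ Y)
    (hv : volume Y < ⊤) : Bornology.IsBounded Y := by
  rcases Y.eq_empty_or_nonempty with rfl | ⟨z₀, hz₀⟩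
  · exact Bornology.isBounded_empty
  obtain ⟨r, hr, hball⟩ := Metric.isOpen_iff.1 hY z₀ hz₀
  by_contra hb
  -- far away points
  have hfar : ∀ R : ℝ, ∃ w ∈ Y, R < ‖w - z₀‖ := by
    intro R
    by_contra hcon
    push Not at hcon
    apply hb
    rw [isBounded_iff_subset_closedBall z₀]
    exact ⟨R, fun w hw => by rw [mem_closedBall, dist_eq_norm]; exact hcon w hw⟩
  set V : ℝ≥0∞ := volume (ball (0 : ℂ) (r / 2)) with hV
  have hV0 : V ≠ 0 := (measure_ball_pos volume 0 (half_pos hr)).ne'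
  have key : ∀ N : ℕ, (N : ℝ≥0∞) * V ≤ volume Y := by
    intro N
    obtain ⟨w, hw, hwL⟩ := hfar (2 * N * r)
    set L := ‖w - z₀‖ with hL
    have hL0 : 0 < L := lt_of_le_of_lt (by positivity) hwL
    set e : ℂ := (r / L : ℝ) • (w - z₀) with he
    have hen : ‖e‖ = r := by
      rw [he, norm_smul, Real.norm_of_nonneg (by positivity), ← hL, div_mul_cancel₀ _ hL0.ne']
    set c : ℕ → ℂ := fun i => z₀ + (i : ℝ) • e with hcdef
    have hsub : ∀ i ∈ Finset.range N, ball (c i) (r / 2) ⊆ Y := by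
      intro i hi u hu
      set t : ℝ := i * r / L with ht
      have hiN : (i : ℝ) ≤ N := by exact_mod_cast (Finset.mem_range.1 hi).le
      have ht0 : 0 ≤ t := by positivity
      have ht1 : t ≤ 1 / 2 := by
        rw [ht, div_le_iff₀ hL0]
        nlinarith
      have hc1 : c i = (1 - t) • z₀ + t • w := by
        simp only [hcdef, he, ht]
        simp only [Complex.real_smul]
        push_cast
        have : (L : ℂ) ≠ 0 := by exact_mod_cast hL0.ne'
        field_simp
        ring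
      have h1t : (0 : ℝ) < 1 - t := by linarith
      set z : ℂ := (1 - t)⁻¹ • (u - t • w) with hz
      have hu2 : u = (1 - t) • z + t • w := by
        rw [hz, smul_smul, mul_inv_cancel₀ h1t.ne', one_smul, sub_add_cancel]
      have hzb : z ∈ ball z₀ r := by
        have h2 : z - z₀ = (1 - t)⁻¹ • (u - c i) := by
          have h3 : z₀ = (1 - t)⁻¹ • ((1 - t) • z₀) := by
            rw [smul_smul, inv_mul_cancel₀ h1t.ne', one_smul]
          rw [hz, hc1]
          conv_lhs => rw [h3]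
          rw [← smul_sub]
          congr 1
          abel
        rw [mem_ball, dist_eq_norm, h2, norm_smul, Real.norm_of_nonneg (by positivity)]
        rw [mem_ball, dist_eq_norm] at hu
        have h3 : (1 - t)⁻¹ ≤ 2 := by
          rw [inv_le_comm₀ h1t (by norm_num)]
          linarith
        calc (1 - t)⁻¹ * ‖u - c i‖ ≤ 2 * ‖u - c i‖ := by gcongr
          _ < r := by linarith
      rw [hu2]
      exact hc (hball hzb) hw h1t.le ht0 (by ring)
    have hdisj : (Finset.range N : Set ℕ).PairwiseDisjoint fun i => ball (c i) (r / 2) := by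
      intro i _ j _ hij
      apply ball_disjoint_ball
      rw [dist_eq_norm]
      have h1 : c i - c j = ((i : ℝ) - j) • e := by
        simp only [hcdef]
        rw [sub_smul]
        abel
      rw [h1, norm_smul, hen, Real.norm_eq_abs]
      have h2 : (1 : ℝ) ≤ |(i : ℝ) - j| := by
        have h3 : ((i : ℤ) - j) ≠ 0 := by
          intro h
          apply hij
          omega
        have h4 : (1 : ℤ) ≤ |(i : ℤ) - j| := Int.one_le_abs h3
        have h5 : ((1 : ℤ) : ℝ) ≤ ((|(i : ℤ) - j| : ℤ) : ℝ) := by exact_mod_cast h4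
        simpa using h5
      nlinarith
    calc (N : ℝ≥0∞) * V = ∑ i ∈ Finset.range N, volume (ball (c i) (r / 2)) := by
          have : ∀ i ∈ Finset.range N, volume (ball (c i) (r / 2)) = V := by
            intro i _
            rw [hV, Measure.addHaar_ball_center]
          rw [Finset.sum_congr rfl this]
          simp
      _ = volume (⋃ i ∈ Finset.range N, ball (c i) (r / 2)) :=
          (measure_biUnion_finset hdisj fun i _ => measurableSet_ball).symm
      _ ≤ volume Y := measure_mono (iUnion₂_subset hsub)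
  obtain ⟨N, hN⟩ := ENNReal.exists_nat_mul_gt hV0 hv.ne
  exact absurd (key N) (not_le.2 hN)

end MPfa
end

section
/-!
Conversion between the notions of `Statement.lean` and of `Defs.lean`.
-/
set_option autoImplicit false

open MeasureTheory Set Filter Topology Metric Complex
open scoped ContDiff ENNReal ComplexConjugate

namespace MPfa

lemma distortion_eq (A : ℂ →L[ℝ] ℂ) : MPfaS.distortion A = KK (A 1) (A I) := rfl

lemma one_le_KK (a b : ℂ) : 1 ≤ KK a b := by
  unfold KK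
  split_ifs with h
  · rw [one_le_div h]
    unfold jac n2
    have h1 := Complex.sq_norm a
    have h2 := Complex.sq_norm b
    rw [Complex.normSq_apply] at h1 h2
    nlinarith [sq_nonneg (a.re - b.im), sq_nonneg (a.im + b.re)]
  · exact le_rfl

/-- a map of finite distortion, in terms of measurable columns -/
lemma FD_of {Ω : Set ℂ} (hΩ : IsOpen Ω) {f : ℂ → ℂ} {D : ℂ → ℂ →L[ℝ] ℂ}
    (h : MPfaS.FiniteDistortion Ω f D) :
    ∃ fx fy : ℂ → ℂ, FD Ω f fx fy ∧
      ∀ᵐ z ∂(volume.restrict Ω), fx z = D z 1 ∧ fy z = D z I := by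
  have hm : AEStronglyMeasurable D (volume.restrict Ω) := h.weak.locIntDeriv.aestronglyMeasurable
  have hmv : ∀ v : ℂ, AEMeasurable (fun z => D z v) (volume.restrict Ω) := fun v =>
    (hm.apply_continuousLinearMap v).aemeasurable
  have hLIf : LI Ω f := fun K hK hKc => h.weak.locInt.integrableOn_compact_subset hK hKc
  have hLI : ∀ v : ℂ, LI Ω ((hmv v).mk _) := by
    intro v K hK hKc
    have h1 : IntegrableOn D K := h.weak.locIntDeriv.integrableOn_compact_subset hK hKc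
    have h2 : IntegrableOn (fun z => D z v) K := h1.apply_continuousLinearMap v
    refine h2.congr_fun_ae ?_
    exact ae_restrict_of_ae_restrict_of_subset hK (hmv v).ae_eq_mk
  have hint : ∀ (φ : ℂ → ℝ), Test Ω φ → ∀ v : ℂ,
      ∫ z, φ z • ((hmv v).mk _) z = ∫ z, φ z • D z v := by
    intro φ hφ v
    apply integral_congr_ae
    have h1 : ∀ᵐ z, z ∈ Ω → D z v = ((hmv v).mk _) z := by
      rw [← ae_restrict_iff' hΩ.measurableSet]
      exact (hmv v).ae_eq_mk
    filter_upwards [h1] with z hz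
    by_cases hzΩ : z ∈ Ω
    · simp only [hz hzΩ]
    · have : φ z = 0 := image_eq_zero_of_notMem_tsupport fun h => hzΩ (hφ.su h)
      simp [this]
  refine ⟨(hmv 1).mk _, (hmv I).mk _, ⟨⟨(hmv 1).measurable_mk, (hmv I).measurable_mk, hLIf,
    hLI 1, hLI I, ?_, ?_⟩, ?_⟩, ?_⟩
  · intro φ hφ
    rw [hint φ hφ]
    exact h.weak.byParts φ hφ.sm hφ.cs hφ.su 1
  · intro φ hφ
    rw [hint φ hφ]
    exact h.weak.byParts φ hφ.sm hφ.cs hφ.su I
  · obtain ⟨K, hK1, hK⟩ := h.bound
    filter_upwards [hK, (hmv 1).ae_eq_mk, (hmv I).ae_eq_mk] with z hz h1 hI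
    rw [← h1, ← hI]
    have hdet : MPfaS.det2 (D z) = jac (D z 1) (D z I) := rfl
    by_cases hj : 0 < jac (D z 1) (D z I)
    · exact Or.inl hj
    · right
      have hD : ‖D z‖ ^ 2 ≤ 0 := by
        refine hz.trans ?_
        rw [hdet]
        have := hK1 z
        nlinarith [not_lt.1 hj]
      have hD0 : D z = 0 := by
        have : ‖D z‖ = 0 := by nlinarith [norm_nonneg (D z), sq_nonneg ‖D z‖]
        exact norm_eq_zero.1 this
      rw [hD0]
      simp
  · filter_upwards [(hmv 1).ae_eq_mk, (hmv I).ae_eq_mk] with z h1 hI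
    exact ⟨h1.symm, hI.symm⟩

lemma energy_eq {p : ℝ} {Ω : Set ℂ} {D : ℂ → ℂ →L[ℝ] ℂ} {fx fy : ℂ → ℂ}
    (h : ∀ᵐ z ∂(volume.restrict Ω), fx z = D z 1 ∧ fy z = D z I) :
    MPfaS.energy p Ω D = ∫⁻ z in Ω, ENNReal.ofReal (KK (fx z) (fy z) ^ p) := by
  unfold MPfaS.energy
  apply lintegral_congr_ae
  filter_upwards [h] with z hz
  rw [distortion_eq, hz.1, hz.2]

/-- weak derivatives only see the values on `G` -/
lemma WD.congr {G : Set ℂ} {F F' Fx Fy : ℂ → ℂ} (h : WD G F Fx Fy) (he : EqOn F F' G) :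
    WD G F' Fx Fy := by
  have hint : ∀ (φ : ℂ → ℝ), Test G φ → ∀ v : ℂ,
      ∫ z, (fderiv ℝ φ z v) • F' z = ∫ z, (fderiv ℝ φ z v) • F z := by
    intro φ hφ v
    congr 1
    funext z
    by_cases hz : z ∈ G
    · rw [he hz]
    · have h1 : fderiv ℝ φ z = 0 := by
        apply image_eq_zero_of_notMem_tsupport
        exact fun h => hz (hφ.su (tsupport_fderiv_subset ℝ h))
      simp [h1]
  refine ⟨h.mx, h.my, ?_, h.lx, h.ly, ?_, ?_⟩
  · intro K hK hKc
    exact (h.lF K hK hKc).congr_fun (fun z hz => he (hK hz)) hKc.measurableSet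
  · intro φ hφ
    rw [hint φ hφ]
    exact h.ix φ hφ
  · intro φ hφ
    rw [hint φ hφ]
    exact h.iy φ hφ

lemma volume_le_energy {p : ℝ} (hp : 1 < p) {Ω : Set ℂ} {D : ℂ → ℂ →L[ℝ] ℂ} :
    volume Ω ≤ MPfaS.energy p Ω D := by
  unfold MPfaS.energy
  calc volume Ω = ∫⁻ _ in Ω, 1 := by simp
    _ ≤ _ := by
      apply lintegral_mono
      intro z
      simp only
      rw [← ENNReal.ofReal_one]
      apply ENNReal.ofReal_le_ofReal
      exact Real.one_le_rpow (one_le_KK _ _) (by linarith)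

/-- the geometric data -/
lemma Dom_of {p : ℝ} (hp : 1 < p) {Ω Ω' : Set ℂ} {g b : ℂ → ℂ} (h : MPfaS.Data p Ω Ω' g)
    (hb : MPfaS.HomeoOn (closure Ω) (closure Ω') g b) : Dom Ω' Ω b := by
  have hbdd : Bornology.IsBounded Ω := by
    obtain ⟨D, -, hD⟩ := h.finite
    exact isBounded_of_convex_of_volume h.open_ h.convex ((volume_le_energy hp).trans_lt hD)
  have hΩ' : closure Ω' = g '' closure Ω := by
    ext w
    constructor
    · intro hw
      exact ⟨b w, hb.mapsInv hw, hb.right w hw⟩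
    · rintro ⟨z, hz, rfl⟩
      exact hb.maps hz
  have hcΩ : IsCompact (closure Ω) := hbdd.isCompact_closure
  refine ⟨h.open', ?_, h.open_, h.convex, hbdd, h.nonempty, hb.contInv, ?_, ?_⟩
  · rw [hΩ']
    exact hcΩ.image_of_continuousOn hb.cont
  · refine ⟨hb.mapsInv, ?_, ?_⟩
    · intro w hw w' hw' he
      rw [← hb.right w hw, ← hb.right w' hw', he]
    · intro z hz
      exact ⟨g z, hb.maps hz, hb.left z hz⟩
  · refine ⟨?_, ?_, ?_⟩
    · intro w hw
      rw [← h.image] at hw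
      obtain ⟨z, hz, rfl⟩ := hw
      rw [hb.left z (subset_closure hz)]
      exact hz
    · intro w hw w' hw' he
      rw [← hb.right w (subset_closure hw), ← hb.right w' (subset_closure hw'), he]
    · intro z hz
      refine ⟨g z, ?_, hb.left z (subset_closure hz)⟩
      rw [← h.image]
      exact ⟨z, hz, rfl⟩

/-- the inverse of an admissible map is a homeomorphism of the closures with boundary values `b` -/
lemma Hom_of {Ω Ω' : Set ℂ} {g b F h : ℂ → ℂ} (hD : Dom Ω' Ω b)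
    (hb : MPfaS.HomeoOn (closure Ω) (closure Ω') g b) (hF : MPfaS.HomeoOn Ω Ω' F h)
    (hFc : ContinuousOn F (closure Ω)) (hFg : EqOn F g (frontier Ω)) :
    ∃ k : ℂ → ℂ, Hom Ω' Ω b k ∧ EqOn k h Ω' ∧ (∀ z ∈ closure Ω, k (F z) = z) ∧
      ∀ w ∈ closure Ω', F (k w) = w := by
  have hfr : ∀ {U : Set ℂ}, IsOpen U → ∀ z ∈ closure U, z ∉ U → z ∈ frontier U := by
    intro U hU z hz hzU
    rw [frontier, hU.interior_eq]
    exact ⟨hz, hzU⟩
  have hfr' : ∀ {U : Set ℂ}, IsOpen U → ∀ z ∈ frontier U, z ∈ closure U ∧ z ∉ U := by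
    intro U hU z hz
    rw [frontier, hU.interior_eq] at hz
    exact hz
  have hcl : IsCompact (closure Ω) := hD.bY.isCompact_closure
  -- `g` maps the frontier to the frontier
  have hgfr : ∀ z ∈ frontier Ω, g z ∈ closure Ω' ∧ g z ∉ Ω' := by
    intro z hz
    obtain ⟨h1, h2⟩ := hfr' hD.oY z hz
    refine ⟨hb.maps h1, fun h3 => h2 ?_⟩
    have := hD.bX.mapsTo h3
    rwa [hb.left z h1] at this
  -- `F` on the closure
  have hFm : MapsTo F (closure Ω) (closure Ω') := by
    intro z hz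
    by_cases h1 : z ∈ Ω
    · exact subset_closure (hF.maps h1)
    · rw [hFg (hfr hD.oY z hz h1)]
      exact hb.maps hz
  have hFi : InjOn F (closure Ω) := by
    intro z hz z' hz' he
    by_cases h1 : z ∈ Ω
    · by_cases h2 : z' ∈ Ω
      · rw [← hF.left z h1, ← hF.left z' h2, he]
      · have h3 := hfr hD.oY z' hz' h2
        exfalso
        apply (hgfr z' h3).2
        rw [← hFg h3, ← he]
        exact hF.maps h1
    · have h3 := hfr hD.oY z hz h1
      by_cases h2 : z' ∈ Ω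
      · exfalso
        apply (hgfr z h3).2
        rw [← hFg h3, he]
        exact hF.maps h2
      · have h4 := hfr hD.oY z' hz' h2
        rw [hFg h3, hFg h4] at he
        rw [← hb.left z hz, ← hb.left z' hz', he]
  have hbfr : ∀ w ∈ frontier Ω', b w ∈ frontier Ω := by
    intro w hw
    obtain ⟨h1, h2⟩ := hfr' hD.oX w hw
    refine hfr hD.oY _ (hb.mapsInv h1) fun h3 => h2 ?_
    obtain ⟨w', hw', he⟩ := hD.bX.surjOn h3
    have := hD.bi.injOn (subset_closure hw') h1 he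
    rwa [← this]
  have hFs : SurjOn F (closure Ω) (closure Ω') := by
    intro w hw
    by_cases h1 : w ∈ Ω'
    · exact ⟨h w, subset_closure (hF.mapsInv h1), hF.right w h1⟩
    · have h2 := hfr hD.oX w hw h1
      refine ⟨b w, hb.mapsInv hw, ?_⟩
      rw [hFg (hbfr w h2), hb.right w hw]
  have hex : ∀ w ∈ closure Ω', ∃ z, z ∈ closure Ω ∧ F z = w := fun w hw => hFs hw
  choose! k hk1 hk2 using hex
  have hkF : ∀ z ∈ closure Ω, k (F z) = z := fun z hz =>
    hFi (hk1 _ (hFm hz)) hz (hk2 _ (hFm hz))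
  have hkh : EqOn k h Ω' := by
    intro w hw
    apply hFi (hk1 w (subset_closure hw)) (subset_closure (hF.mapsInv hw))
    rw [hk2 w (subset_closure hw), hF.right w hw]
  have hkc : ContinuousOn k (closure Ω') := by
    rw [continuousOn_iff_isClosed]
    intro C hC
    have hK : IsCompact (closure Ω ∩ C) := hcl.inter_right hC
    refine ⟨F '' (closure Ω ∩ C), (hK.image_of_continuousOn (hFc.mono inter_subset_left)).isClosed,
      ?_⟩
    ext w
    constructor
    · rintro ⟨h1, h2⟩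
      exact ⟨⟨k w, ⟨hk1 w h2, h1⟩, hk2 w h2⟩, h2⟩
    · rintro ⟨⟨z, ⟨hz1, hz2⟩, rfl⟩, h2⟩
      refine ⟨?_, h2⟩
      rw [mem_preimage, hkF z hz1]
      exact hz2
  refine ⟨k, ⟨hkc, ⟨hk1, ?_, ?_⟩, ⟨?_, ?_, ?_⟩, ?_⟩, hkh, hkF, hk2⟩
  · intro w hw w' hw' he
    rw [← hk2 w hw, ← hk2 w' hw', he]
  · intro z hz
    exact ⟨F z, hFm hz, hkF z hz⟩
  · intro w hw
    rw [hkh hw]
    exact hF.mapsInv hw
  · intro w hw w' hw' he
    rw [← hk2 w (subset_closure hw), ← hk2 w' (subset_closure hw'), he]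
  · intro z hz
    exact ⟨F z, hF.maps hz, hkF z (subset_closure hz)⟩
  · intro w hw
    have h1 := (hfr' hD.oX w hw).1
    apply hFi (hk1 w h1) (hb.mapsInv h1)
    rw [hk2 w h1, hFg (hbfr w hw), hb.right w h1]

lemma Inv_of {Ω Ω' : Set ℂ} {b F h : ℂ → ℂ} (hD : Dom Ω' Ω b) (hF : MPfaS.HomeoOn Ω Ω' F h) :
    Inv Ω Ω' F h :=
  ⟨hD.oY, hD.oX, hD.bY, hF.cont, hF.contInv, hF.maps, hF.mapsInv, hF.left, hF.right⟩

lemma Lim_of_Hom {X Y : Set ℂ} {b k : ℂ → ℂ} (h : Hom X Y b k) : Lim X Y b k :=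
  fun ε hε => ⟨k, h, fun z _ => by simpa using hε.le⟩

/-- inverses of admissible maps with finite energy are relaxed competitors -/
lemma Adm_of (hInv : SpecInv) {p : ℝ} (hp : 1 < p) {Ω Ω' : Set ℂ} {g b F : ℂ → ℂ}
    {D : ℂ → ℂ →L[ℝ] ℂ} (hD : Dom Ω' Ω b)
    (hb : MPfaS.HomeoOn (closure Ω) (closure Ω') g b) (hF : MPfaS.Admissible Ω Ω' g F D)
    (hE : MPfaS.energy p Ω D < ⊤) :
    ∃ k kx ky : ℂ → ℂ, Adm p Ω' Ω b k kx ky ∧
      ∫⁻ z in Ω', PP p (kx z) (ky z) ≤ MPfaS.energy p Ω D := by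
  obtain ⟨h, hh⟩ := hF.homeo
  obtain ⟨k, hk, hkh, -, -⟩ := Hom_of hD hb hh hF.cont hF.bdry
  obtain ⟨fx, fy, hfd, hfe⟩ := FD_of hD.oY hF.fd
  rw [energy_eq hfe] at hE ⊢
  obtain ⟨kx, ky, hwd, hle⟩ := hInv p hp Ω Ω' F h fx fy (Inv_of hD hh) hfd hE
  exact ⟨k, kx, ky, ⟨Lim_of_Hom hk, hwd.congr hkh.symm, hle.trans_lt hE⟩, hle⟩

end MPfa
end

section
/-!
Final assembly: the statement from the Specs.
-/
set_option autoImplicit false

open MeasureTheory Set Filter Topology Metric Complex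
open scoped ContDiff ENNReal ComplexConjugate

namespace MPfa

lemma inverse_columns (A : ℂ ≃L[ℝ] ℂ) (hj : 0 < jac (A 1) (A I)) :
    A.symm 1 = ⟨(A I).im / jac (A 1) (A I), -(A 1).im / jac (A 1) (A I)⟩ ∧
    A.symm I = ⟨-(A I).re / jac (A 1) (A I), (A 1).re / jac (A 1) (A I)⟩ := by
  set a := A 1 with ha
  set b := A I with hb
  set J := jac a b with hJ
  have hJ' : J = a.re * b.im - a.im * b.re := rfl
  have hap : ∀ m : ℂ, A m = (m.re : ℂ) * a + (m.im : ℂ) * b := by
    intro m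
    have h1 := lmap_columns (A : ℂ →L[ℝ] ℂ)
    have h2 : (A : ℂ →L[ℝ] ℂ) m = A m := rfl
    rw [← h2, ← h1, lmap_apply]
    simp [ha, hb]
  constructor
  · rw [ContinuousLinearEquiv.symm_apply_eq, hap]
    apply Complex.ext
    · simp
      field_simp
      rw [hJ']
      ring
    · simp
      field_simp
      ring
  · rw [ContinuousLinearEquiv.symm_apply_eq, hap]
    apply Complex.ext
    · simp
      field_simp
      ring
    · simp
      field_simp
      rw [hJ']
      ring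

lemma jac_inverse (A : ℂ ≃L[ℝ] ℂ) (hj : 0 < jac (A 1) (A I)) :
    jac (A.symm 1) (A.symm I) = (jac (A 1) (A I))⁻¹ := by
  obtain ⟨h1, h2⟩ := inverse_columns A hj
  rw [h1, h2]
  set a := A 1
  set b := A I
  set J := jac a b with hJ
  have hJ' : J = a.re * b.im - a.im * b.re := rfl
  simp only [jac]
  field_simp
  rw [hJ']
  ring

lemma n2_inverse (A : ℂ ≃L[ℝ] ℂ) (hj : 0 < jac (A 1) (A I)) :
    n2 (A.symm 1) (A.symm I) = n2 (A 1) (A I) / jac (A 1) (A I) ^ 2 := by
  obtain ⟨h1, h2⟩ := inverse_columns A hj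
  rw [h1, h2]
  set a := A 1
  set b := A I
  set J := jac a b with hJ
  simp only [n2, Complex.sq_norm, Complex.normSq_apply]
  field_simp
  ring

lemma KK_inverse (A : ℂ ≃L[ℝ] ℂ) (hj : 0 < jac (A 1) (A I)) :
    KK (A.symm 1) (A.symm I) = KK (A 1) (A I) := by
  unfold KK
  rw [jac_inverse A hj, n2_inverse A hj, if_pos hj, if_pos (inv_pos.2 hj)]
  field_simp

/-- the energy density in terms of `KK` -/
lemma PP_eq {p : ℝ} {a b : ℂ} (hj : 0 < jac a b) :
    ENNReal.ofReal |jac a b| * ENNReal.ofReal (KK a b ^ p) = PP p a b := by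
  have hab : ¬ (a = 0 ∧ b = 0) := by
    rintro ⟨rfl, rfl⟩
    simp [jac] at hj
  unfold PP KK
  rw [if_neg hab, if_pos hj, if_pos hj, abs_of_pos hj, ← ENNReal.ofReal_mul hj.le]
  congr 1
  have hn : 0 ≤ n2 a b := by unfold n2; positivity
  rw [Real.div_rpow hn hj.le, Real.rpow_sub hj, Real.rpow_one]
  field_simp

/-- inverse of a homeomorphism of the closures -/
lemma Hom_inverse {X Y : Set ℂ} {b h : ℂ → ℂ} (hD : Dom X Y b) (hH : Hom X Y b h) :
    ∃ f : ℂ → ℂ, ContinuousOn f (closure Y) ∧ MapsTo f (closure Y) (closure X) ∧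
      (∀ z ∈ closure Y, h (f z) = z) ∧ (∀ w ∈ closure X, f (h w) = w) ∧ MapsTo f Y X := by
  have hex : ∀ z ∈ closure Y, ∃ w, w ∈ closure X ∧ h w = z := fun z hz => hH.bi.surjOn hz
  choose! f hf1 hf2 using hex
  have hfh : ∀ w ∈ closure X, f (h w) = w := fun w hw =>
    hH.bi.injOn (hf1 _ (hH.bi.mapsTo hw)) hw (hf2 _ (hH.bi.mapsTo hw))
  refine ⟨f, ?_, hf1, hf2, hfh, ?_⟩
  · rw [continuousOn_iff_isClosed]
    intro C hC
    have hK : IsCompact (closure X ∩ C) := hD.cX.inter_right hC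
    refine ⟨h '' (closure X ∩ C), (hK.image_of_continuousOn (hH.co.mono inter_subset_left)).isClosed,
      ?_⟩
    ext w
    constructor
    · rintro ⟨h1, h2⟩
      exact ⟨⟨f w, ⟨hf1 w h2, h1⟩, hf2 w h2⟩, h2⟩
    · rintro ⟨⟨z, ⟨hz1, hz2⟩, rfl⟩, h2⟩
      refine ⟨?_, h2⟩
      rw [mem_preimage, hfh z hz1]
      exact hz2
  · intro z hz
    obtain ⟨w, hw, rfl⟩ := hH.bX.surjOn hz
    rw [hfh w (subset_closure hw)]
    exact hw

theorem statement_of (hInv : SpecInv) (hExist : SpecExist) (hHopf : SpecHopf) (hConf : SpecConf)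
    (hNMX : SpecNMX) (hNoColl : SpecNoColl) (hREG : SpecREG) (hWDU : SpecWDU) (hFrc : SpecFrc) :
    MPfaS.Statement := by
  intro p hp Ω Ω' g hdata
  obtain ⟨b, hb⟩ := hdata.homeo
  have hD : Dom Ω' Ω b := Dom_of hp hdata hb
  obtain ⟨Dg, hgfd, hgE⟩ := hdata.finite
  have hgadm : MPfaS.Admissible Ω Ω' g g Dg := by
    refine ⟨⟨b, hb.cont.mono subset_closure, hb.contInv.mono subset_closure, ?_, hD.bX.mapsTo,
      fun z hz => hb.left z (subset_closure hz), fun w hw => hb.right w (subset_closure hw)⟩,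
      hgfd, hb.cont, fun _ _ => rfl⟩
    intro z hz
    rw [← hdata.image]
    exact ⟨z, hz, rfl⟩
  obtain ⟨k, kx, ky, hk, -⟩ := Adm_of hInv hp hD hb hgadm hgE
  obtain ⟨h, hx, hy, hmini⟩ := hExist p hp Ω' Ω b hD ⟨k, kx, ky, hk⟩
  obtain ⟨-, -, hXconn, -⟩ := hFrc Ω' Ω b hD
  -- the relaxed minimizer is a `C¹` homeomorphism
  obtain ⟨hH, hC1, hjac⟩ : Hom Ω' Ω b h ∧ ContDiffOn ℝ 1 h Ω' ∧
      ∀ z ∈ Ω', 0 < jac (fderiv ℝ h z 1) (fderiv ℝ h z I) := by
    obtain ⟨Φ, hΦ, hΦe⟩ := hHopf p hp Ω' Ω b h hx hy hD hmini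
    by_cases hne : ∃ z ∈ Ω', Φ z ≠ 0
    · have hNM := hNMX p hp Ω' Ω b h hx hy Φ hD hmini.ad hΦ hne hΦe
      have hH := hNoColl p hp Ω' Ω b h hx hy Φ hD hmini.ad.li hNM hΦ hne
      obtain ⟨f, hfc, -, hhf, hfh, hfm⟩ := Hom_inverse hD hH
      have hop : ∀ D ⊆ Ω', IsOpen D → IsOpen (h '' D) := by
        intro D hDs hDo
        have h1 : h '' D = Ω ∩ f ⁻¹' D := by
          ext z
          constructor
          · rintro ⟨w, hw, rfl⟩
            refine ⟨hH.bX.mapsTo (hDs hw), ?_⟩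
            rw [mem_preimage, hfh w (subset_closure (hDs hw))]
            exact hw
          · rintro ⟨h1, h2⟩
            exact ⟨f z, h2, hhf z (subset_closure h1)⟩
        rw [h1]
        exact (hfc.mono subset_closure).isOpen_inter_preimage hD.oY hDo
      obtain ⟨h1, h2⟩ := hREG p hp Ω' h hx hy Φ hXconn.isPreconnected hH.bX.injOn hop hNM hΦ hne
        hmini.ad.en
      exact ⟨hH, h1, h2⟩
    · push Not at hne
      have hz : ∀ᵐ z ∂(volume.restrict Ω'), AH p (hx z) (hy z) = 0 := by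
        filter_upwards [hΦe, ae_restrict_mem hD.oX.measurableSet] with z h1 h2
        rw [h1, hne z h2]
      obtain ⟨h1, -, h3, h4⟩ := hConf p hp Ω' Ω b h hx hy hD hmini.ad hz
      refine ⟨h4, ?_, ?_⟩
      · exact ((h1.contDiffOn hD.oX (n := 1)).restrict_scalars ℝ)
      · intro z hz
        have h5 : HasFDerivAt h ((fderiv ℂ h z).restrictScalars ℝ) z :=
          ((h1.differentiableAt (hD.oX.mem_nhds hz)).hasFDerivAt).restrictScalars ℝ
        rw [h5.fderiv]
        have h6 : (fderiv ℂ h z).restrictScalars ℝ 1 = deriv h z := by simp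
        have h7 : (fderiv ℂ h z).restrictScalars ℝ I = deriv h z * I := by
          have : (fderiv ℂ h z) I = I • (fderiv ℂ h z) 1 := by
            rw [← map_smul]; simp
          simp [this, mul_comm]
        rw [h6, h7]
        unfold jac
        have h8 := h3 z hz
        have h9 : 0 < Complex.normSq (deriv h z) := Complex.normSq_pos.2 h8
        rw [Complex.normSq_apply] at h9
        simp
        nlinarith
  -- the inverse
  obtain ⟨f, hfc, hfcl, hhf, hfh, hfm⟩ := Hom_inverse hD hH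
  have hfcΩ : ContinuousOn f Ω := hfc.mono subset_closure
  have hhfΩ : ∀ z ∈ Ω, h (f z) = z := fun z hz => hhf z (subset_closure hz)
  have hfhΩ : ∀ w ∈ Ω', f (h w) = w := fun w hw => hfh w (subset_closure hw)
  obtain ⟨hfC1, hfder⟩ := contDiffOn_inverse hD.oX hD.oY hC1 hjac hfcΩ hfm hhfΩ
  have hHom : MPfaS.HomeoOn Ω Ω' f h :=
    ⟨hfcΩ, hH.co.mono subset_closure, hfm, hH.bX.mapsTo, hhfΩ, hfhΩ⟩
  have hdetf : ∀ z ∈ Ω, 0 < MPfaS.det2 (fderiv ℝ f z) := by
    intro z hz
    obtain ⟨A, hA1, hA2⟩ := hfder z hz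
    rw [hA2.fderiv]
    have hj := hjac (f z) (hfm hz)
    rw [← hA1] at hj
    have h1 := jac_inverse A hj
    have h2 : 0 < jac (A.symm 1) (A.symm I) := by
      rw [h1]; exact inv_pos.2 hj
    exact h2
  have hfdc : ContinuousOn (fderiv ℝ f) Ω := hfC1.continuousOn_fderiv_of_isOpen hD.oY le_rfl
  have hfadm : MPfaS.Admissible Ω Ω' g f (fderiv ℝ f) := by
    refine ⟨⟨h, hHom⟩, ⟨⟨?_, ?_, ?_⟩, ?_, ?_⟩, hfc, ?_⟩
    · exact hfcΩ.locallyIntegrableOn hD.oY.measurableSet
    · exact hfdc.locallyIntegrableOn hD.oY.measurableSet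
    · intro φ hφ hc hs v
      exact byParts_of_contDiffOn hD.oY hfC1 hφ hc hs v
    · apply ContinuousOn.locallyIntegrableOn _ hD.oY.measurableSet
      unfold MPfaS.det2
      have h1 : ∀ v : ℂ, ContinuousOn (fun z => fderiv ℝ f z v) Ω := fun v =>
        hfdc.clm_apply continuousOn_const
      exact ((Complex.continuous_re.comp_continuousOn (h1 1)).mul
        (Complex.continuous_im.comp_continuousOn (h1 I))).sub
        ((Complex.continuous_im.comp_continuousOn (h1 1)).mul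
        (Complex.continuous_re.comp_continuousOn (h1 I)))
    · refine ⟨fun z => max 1 (‖fderiv ℝ f z‖ ^ 2 / MPfaS.det2 (fderiv ℝ f z)),
        fun z => le_max_left _ _, ?_⟩
      filter_upwards [ae_restrict_mem hD.oY.measurableSet] with z hz
      have h1 := hdetf z hz
      calc ‖fderiv ℝ f z‖ ^ 2 = ‖fderiv ℝ f z‖ ^ 2 / MPfaS.det2 (fderiv ℝ f z) *
            MPfaS.det2 (fderiv ℝ f z) := by field_simp
        _ ≤ _ := by
            gcongr
            exact le_max_right _ _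
    · intro z hz
      have hzc : z ∈ closure Ω := frontier_subset_closure hz
      have hgz : g z ∈ closure Ω' := hb.maps hzc
      have hgf : g z ∈ frontier Ω' := by
        rw [frontier, hD.oX.interior_eq]
        refine ⟨hgz, fun h3 => ?_⟩
        rw [frontier, hD.oY.interior_eq] at hz
        apply hz.2
        have := hD.bX.mapsTo h3
        rwa [hb.left z hzc] at this
      have h1 : h (g z) = z := by rw [hH.eq hgf, hb.left z hzc]
      calc f z = f (h (g z)) := by rw [h1]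
        _ = g z := hfh _ hgz
  -- the energy
  have hen : MPfaS.energy p Ω (fderiv ℝ f) = ∫⁻ z in Ω', PP p (hx z) (hy z) := by
    have himg : Ω = h '' Ω' := hH.bX.image_eq.symm
    have h1 : ∀ w ∈ Ω', HasFDerivWithinAt h (fderiv ℝ h w) Ω' w := fun w hw =>
      (((hC1.differentiableOn one_ne_zero).differentiableAt
        (hD.oX.mem_nhds hw)).hasFDerivAt).hasFDerivWithinAt
    unfold MPfaS.energy
    conv_lhs => rw [himg]
    rw [lintegral_image_eq_lintegral_abs_det_fderiv_mul volume hD.oX.measurableSet h1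
      hH.bX.injOn]
    have h2 := hWDU Ω' h _ _ hx hy hD.oX (wd_of_contDiffOn hD.oX hC1) hmini.ad.wd
    apply lintegral_congr_ae
    filter_upwards [h2, ae_restrict_mem hD.oX.measurableSet] with w hw hwX
    rw [indicator_of_mem hwX, indicator_of_mem hwX] at hw
    obtain ⟨A, hA1, hA2⟩ := hfder (h w) (hH.bX.mapsTo hwX)
    rw [hfhΩ w hwX] at hA1
    have hj := hjac w hwX
    rw [← hw.1, ← hw.2, det_eq_jac, hA2.fderiv, distortion_eq, ← hA1]
    rw [← hA1] at hj
    have h3 : KK ((A.symm : ℂ →L[ℝ] ℂ) 1) ((A.symm : ℂ →L[ℝ] ℂ) I) =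
        KK ((A : ℂ →L[ℝ] ℂ) 1) ((A : ℂ →L[ℝ] ℂ) I) := KK_inverse A hj
    rw [h3]
    exact PP_eq hj
  refine ⟨f, h, hHom, hfC1, hC1, hfadm, ?_⟩
  intro F D hF
  rw [hen]
  by_cases htop : MPfaS.energy p Ω D < ⊤
  · obtain ⟨k, kx, ky, hk, hle⟩ := Adm_of hInv hp hD hb hF htop
    exact (hmini.mi k kx ky hk).trans hle
  · rw [not_lt_top_iff.1 htop]
    exact le_top

end MPfa
end

section
/-!
Bridge: `MPfa.SpecREG` from `MPfa.Reg.SpecREG`.
-/
set_option autoImplicit false

open MeasureTheory Set Filter Topology Metric Complex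
open scoped ContDiff ENNReal ComplexConjugate

namespace MPfa

namespace RegB

lemma iv_jac {a b : ℂ} (hj : 0 < jac a b) : jac (iv1 a b) (iv2 a b) = (jac a b)⁻¹ := by
  have hJ' : jac a b = a.re * b.im - a.im * b.re := rfl
  set J := jac a b with hJ
  have h1 : jac (iv1 a b) (iv2 a b) =
      (b.im / J) * (a.re / J) - (-a.im / J) * (-b.re / J) := rfl
  rw [h1]
  field_simp
  rw [hJ']
  ring

lemma iv_n2 {a b : ℂ} (hj : 0 < jac a b) :
    n2 (iv1 a b) (iv2 a b) = n2 a b / jac a b ^ 2 := by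
  set J := jac a b with hJ
  have h1 : iv1 a b = ⟨b.im / J, -a.im / J⟩ := rfl
  have h2 : iv2 a b = ⟨-b.re / J, a.re / J⟩ := rfl
  rw [h1, h2]
  simp only [n2, Complex.sq_norm, Complex.normSq_apply]
  field_simp
  ring

lemma iv_KK {a b : ℂ} (hj : 0 < jac a b) : KK (iv1 a b) (iv2 a b) = KK a b := by
  unfold KK
  rw [iv_jac hj, iv_n2 hj, if_pos hj, if_pos (inv_pos.2 hj)]
  field_simp

lemma iv_sq {a b : ℂ} (hj : 0 < jac a b) :
    iv1 a b ^ 2 + iv2 a b ^ 2 = -((jac a b : ℝ) : ℂ)⁻¹ ^ 2 * conj (hopf a b) := by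
  set J := jac a b with hJ
  have h1 : iv1 a b = ⟨b.im / J, -a.im / J⟩ := rfl
  have h2 : iv2 a b = ⟨-b.re / J, a.re / J⟩ := rfl
  have h3 : -((J : ℝ) : ℂ)⁻¹ ^ 2 * conj (hopf a b) =
      ((J⁻¹ ^ 2 : ℝ) : ℂ) * (-conj (hopf a b)) := by
    push_cast
    ring
  rw [h1, h2, h3]
  apply Complex.ext
  · rw [Complex.re_ofReal_mul]
    simp [hopf, pow_two]
    field_simp
    ring
  · rw [Complex.im_ofReal_mul]
    simp [hopf, pow_two]
    field_simp
    ring

lemma wd_mono {G G' : Set ℂ} {F Fx Fy : ℂ → ℂ} (h : WD G F Fx Fy) (hs : G' ⊆ G) :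
    WD G' F Fx Fy :=
  ⟨h.mx, h.my, fun K hK => h.lF K (hK.trans hs), fun K hK => h.lx K (hK.trans hs),
    fun K hK => h.ly K (hK.trans hs), fun φ hφ => h.ix φ ⟨hφ.sm, hφ.cs, hφ.su.trans hs⟩,
    fun φ hφ => h.iy φ ⟨hφ.sm, hφ.cs, hφ.su.trans hs⟩⟩

lemma energy_l2 (hAlg : SpecAlg) {p : ℝ} (hp : 1 < p) {G : Set ℂ} {hx hy : ℂ → ℂ}
    (hE : ∫⁻ z in G, PP p (hx z) (hy z) < ⊤) :
    ∫⁻ z in G, (‖hx z‖ₑ ^ 2 + ‖hy z‖ₑ ^ 2) < ⊤ := by
  have h1 : ∀ z, ‖hx z‖ₑ ^ 2 + ‖hy z‖ₑ ^ 2 ≤ 2 * PP p (hx z) (hy z) := by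
    intro z
    have h2 := hAlg.n2_le_PP p hp (hx z) (hy z)
    have h3 : ‖hx z‖ₑ ^ 2 + ‖hy z‖ₑ ^ 2 = 2 * ENNReal.ofReal (n2 (hx z) (hy z)) := by
      rw [← ofReal_norm, ← ofReal_norm, ← ENNReal.ofReal_pow (norm_nonneg _),
        ← ENNReal.ofReal_pow (norm_nonneg _), ← ENNReal.ofReal_add (by positivity)
        (by positivity)]
      have h4 : (2 : ℝ≥0∞) = ENNReal.ofReal 2 := by simp
      rw [h4, ← ENNReal.ofReal_mul (by norm_num)]
      congr 1
      unfold n2
      ring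
    rw [h3]
    gcongr
  have h5 : ∫⁻ z in G, (‖hx z‖ₑ ^ 2 + ‖hy z‖ₑ ^ 2) ≤ 2 * ∫⁻ z in G, PP p (hx z) (hy z) := by
    rw [← lintegral_const_mul' _ _ (by simp)]
    exact lintegral_mono fun z => h1 z
  exact h5.trans_lt (ENNReal.mul_lt_top (by simp) hE)

end RegB

open RegB

theorem specREG (hReg : Reg.SpecREG) (hInvWD : SpecInvWD) (hAreaInj : SpecAreaInj)
    (hLusin : SpecLusin) (hBPH : SpecBPH) (hAlg : SpecAlg) : SpecREG := by
  intro p hp X h hx hy Φ hXc hinj hop hN hΦ hne hE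
  have hXo : IsOpen X := hN.op
  have hmx : Measurable hx := hN.wd.mx
  have hmy : Measurable hy := hN.wd.my
  -- zeros of `Φ` are isolated
  have hiso : ∀ w ∈ X, ∀ᶠ w' in 𝓝[≠] w, Φ w' ≠ 0 := by
    intro w hw
    have han : AnalyticOnNhd ℂ Φ X := hΦ.analyticOnNhd hXo
    rcases (han w hw).eventually_eq_zero_or_eventually_ne_zero with h1 | h1
    · exfalso
      obtain ⟨z, hz, hz0⟩ := hne
      have h2 := han.eqOn_zero_of_preconnected_of_eventuallyEq_zero hXc hw h1
      exact hz0 (h2 hz)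
    · exact h1
  -- local statement
  have key : ∀ z₀ ∈ X, ∃ r > 0, ball z₀ r ⊆ X ∧ ContDiffOn ℝ 1 h (ball z₀ r) ∧
      ∀ z ∈ ball z₀ r, 0 < jac (fderiv ℝ h z 1) (fderiv ℝ h z I) := by
    intro z₀ hz₀
    obtain ⟨r, hr, hrX⟩ := Metric.isOpen_iff.1 hXo z₀ hz₀
    refine ⟨r, hr, hrX, ?_⟩
    set B := ball z₀ r with hB
    set Y := h '' B with hY
    have hYo : IsOpen Y := hop B hrX isOpen_ball
    have hinjB : InjOn h B := hinj.mono hrX
    have hex : ∀ z ∈ Y, ∃ w, w ∈ B ∧ h w = z := by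
      rintro _ ⟨w, hw, rfl⟩
      exact ⟨w, hw, rfl⟩
    choose! f hf1 hf2 using hex
    have hfh : ∀ w ∈ B, f (h w) = w := fun w hw =>
      hinjB (hf1 _ ⟨w, hw, rfl⟩) hw (hf2 _ ⟨w, hw, rfl⟩)
    have hfc : ContinuousOn f Y := by
      rw [_root_.continuousOn_iff']
      intro D hD
      refine ⟨h '' (B ∩ D), hop _ (inter_subset_left.trans hrX) (isOpen_ball.inter hD), ?_⟩
      ext z
      constructor
      · rintro ⟨h1, h2⟩
        exact ⟨⟨f z, ⟨hf1 z h2, h1⟩, hf2 z h2⟩, h2⟩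
      · rintro ⟨⟨w, ⟨hw1, hw2⟩, rfl⟩, h2⟩
        refine ⟨?_, h2⟩
        rw [mem_preimage, hfh w hw1]
        exact hw2
    have hfinj : InjOn f Y := by
      intro z hz z' hz' he
      rw [← hf2 z hz, ← hf2 z' hz', he]
    have hhc : ContinuousOn h B := hN.co.mono hrX
    have hwdB : WD B h hx hy := wd_mono hN.wd hrX
    have hMon : Mon B h hx hy :=
      ⟨isOpen_ball, hhc, hwdB, hBPH B h isOpen_ball hhc fun D hD => hop D (hD.trans hrX)⟩
    have hEB : ∫⁻ z in B, PP p (hx z) (hy z) < ⊤ :=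
      (lintegral_mono_set hrX).trans_lt hE
    have hL2 := energy_l2 hAlg hp hEB
    have hLx : L2loc B hx := by
      intro K hK _
      refine lt_of_le_of_lt ?_ hL2
      exact (lintegral_mono_set hK).trans (lintegral_mono fun z => le_self_add)
    have hLy : L2loc B hy := by
      intro K hK _
      refine lt_of_le_of_lt ?_ hL2
      exact (lintegral_mono_set hK).trans (lintegral_mono fun z => le_add_self)
    have heqB : ∀ᵐ z ∂(volume.restrict B), 0 < jac (hx z) (hy z) ∧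
        AH p (hx z) (hy z) = Φ z := ae_restrict_of_ae_restrict_of_subset hrX hN.eq
    obtain ⟨fx, fy, hwdf, hae⟩ := hInvWD B Y f h hx hy isOpen_ball hYo isBounded_ball hfc hf1
      (fun w hw => ⟨w, hw, rfl⟩) hf2 hfh hMon hL2 (heqB.mono fun z hz => hz.1)
    -- the relation holds a.e. in `Y`
    have hnull : ∀ᵐ z ∂(volume.restrict Y), AH p (hx (f z)) (hy (f z)) = Φ (f z) := by
      rw [ae_restrict_iff' hYo.measurableSet]
      have h1 : volume {w | w ∈ B ∧ ¬ (0 < jac (hx w) (hy w) ∧ AH p (hx w) (hy w) = Φ w)} = 0 := by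
        have h2 := (ae_restrict_iff' isOpen_ball.measurableSet).1 heqB
        rw [ae_iff] at h2
        convert h2 using 2
        ext w
        exact Classical.not_imp.symm
      have h3 := hLusin B h hx hy hMon hLx hLy _ (fun w hw => hw.1) h1
      rw [ae_iff]
      refine measure_mono_null ?_ h3
      intro z hz
      have hz' := Classical.not_imp.1 hz
      exact ⟨f z, ⟨hf1 z hz'.1, fun h4 => hz'.2 h4.2⟩, hf2 z hz'.1⟩
    have hrel : ∀ᵐ z ∂(volume.restrict Y), 0 < jac (fx z) (fy z) ∧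
        ((KK (fx z) (fy z) ^ (p - 1) : ℝ) : ℂ) * (fx z ^ 2 + fy z ^ 2) =
          -(jac (fx z) (fy z) : ℂ) ^ 2 * conj (Φ (f z)) := by
      filter_upwards [hae, hnull] with z ⟨h1, h2, h3⟩ h4
      rw [h2, h3, iv_jac h1, iv_KK h1, iv_sq h1, ← h4]
      refine ⟨inv_pos.2 h1, ?_⟩
      unfold AH
      rw [map_mul, Complex.conj_ofReal]
      push_cast
      ring
    -- integrability of the distortion
    have hen : Reg.Lrl Y p (fun z => KK (fx z) (fy z)) := by
      intro K hK _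
      have hmK : Measurable fun z => ENNReal.ofReal (KK (hx z) (hy z) ^ p) :=
        ((hAlg.meas_KK.comp (hmx.prodMk hmy)).pow_const p).ennreal_ofReal
      have h1 : ∫⁻ z in Y, ENNReal.ofReal (KK (hx (f z)) (hy (f z)) ^ p) < ⊤ := by
        have h2 : ∫⁻ z in Y, ENNReal.ofReal (KK (hx (f z)) (hy (f z)) ^ p) =
            ∫⁻ w in B, ENNReal.ofReal |jac (hx w) (hy w)| *
              ENNReal.ofReal (KK (hx w) (hy w) ^ p) := by
          classical
          set f' : ℂ → ℂ := Y.piecewise f (fun _ => z₀) with hf'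
          have hf'm : Measurable f' :=
            hfc.measurable_piecewise continuousOn_const hYo.measurableSet
          have h3 := hAreaInj B h hx hy hMon hLx hLy hinjB B le_rfl isOpen_ball.measurableSet
            (fun z => ENNReal.ofReal (KK (hx (f' z)) (hy (f' z)) ^ p)) (hmK.comp hf'm)
          have h4 : ∫⁻ z in Y, ENNReal.ofReal (KK (hx (f z)) (hy (f z)) ^ p) =
              ∫⁻ z in Y, ENNReal.ofReal (KK (hx (f' z)) (hy (f' z)) ^ p) := by
            apply setLIntegral_congr_fun hYo.measurableSet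
            intro z hz
            simp only [hf', Set.piecewise_eq_of_mem _ _ _ hz]
          rw [h4, ← h3]
          apply setLIntegral_congr_fun isOpen_ball.measurableSet
          intro w hw
          have h5 : f' (h w) = w := by
            have h6 : h w ∈ Y := ⟨w, hw, rfl⟩
            rw [hf', Set.piecewise_eq_of_mem _ _ _ h6, hfh w hw]
          simp only [h5]
          rw [mul_comm]
        rw [h2]
        refine lt_of_le_of_lt (le_of_eq ?_) hEB
        apply lintegral_congr_ae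
        filter_upwards [heqB] with w hw
        exact PP_eq hw.1
      calc ∫⁻ z in K, ENNReal.ofReal |KK (fx z) (fy z)| ^ p
          ≤ ∫⁻ z in Y, ENNReal.ofReal |KK (fx z) (fy z)| ^ p := lintegral_mono_set hK
        _ = ∫⁻ z in Y, ENNReal.ofReal (KK (hx (f z)) (hy (f z)) ^ p) := by
            apply lintegral_congr_ae
            filter_upwards [hae] with z ⟨h2, h3, h4⟩
            have h5 : 0 ≤ KK (hx (f z)) (hy (f z)) := zero_le_one.trans (one_le_KK _ _)
            rw [h3, h4, iv_KK h2, abs_of_nonneg h5, ENNReal.ofReal_rpow_of_nonneg h5 (by linarith)]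
        _ < ⊤ := h1
    have hInvSol : Reg.InvSol p Y X Φ f fx fy :=
      ⟨hYo, hXo, hfc, hfinj, fun z hz => hrX (hf1 z hz), hwdf, hΦ, hiso, hrel, hen⟩
    obtain ⟨hfC1, hfj⟩ := hReg p Y X Φ f fx fy hp hInvSol
    obtain ⟨hhC1, hhd⟩ := contDiffOn_inverse hYo isOpen_ball hfC1 hfj hhc
      (fun w hw => ⟨w, hw, rfl⟩) hfh
    refine ⟨hhC1, ?_⟩
    intro w hw
    obtain ⟨A, hA1, hA2⟩ := hhd w hw
    rw [hA2.fderiv]
    have hj := hfj (h w) ⟨w, hw, rfl⟩
    rw [← hA1] at hj
    have h1 := jac_inverse A hj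
    have h2 : 0 < jac (A.symm 1) (A.symm I) := by
      rw [h1]; exact inv_pos.2 hj
    exact h2
  constructor
  · intro z hz
    obtain ⟨r, hr, -, h1, -⟩ := key z hz
    exact (h1.contDiffAt (ball_mem_nhds z hr)).contDiffWithinAt
  · intro z hz
    obtain ⟨r, hr, -, -, h2⟩ := key z hz
    exact h2 z (mem_ball_self hr)

end MPfa
end
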