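import Pool.Agent.Lib.MP_fa0334_an.Spec
import Pool.Agent.Lib.MP_fa0334_an.Bump

section
/-!
CHAIN: smooth injective change of variables.
-/
set_option autoImplicit false

open MeasureTheory Set Filter Topology Metric Complex
open scoped ContDiff ENNReal ComplexConjugate

namespace MPfa

namespace Chain

theorem lmap_apply (a b m : ℂ) : lmap a b m = m.re • a + m.im • b := rfl

theorem det_eq (L : ℂ →L[ℝ] ℂ) : L.det = jac (L 1) (L I) := by
  have h : L.det = LinearMap.det (L : ℂ →ₗ[ℝ] ℂ) := rfl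
  rw [h, ← LinearMap.det_toMatrix Complex.basisOneI, Matrix.det_fin_two]
  simp only [LinearMap.toMatrix_apply, Complex.coe_basisOneI_repr, Complex.coe_basisOneI,
    Matrix.cons_val_zero, Matrix.cons_val_one, ContinuousLinearMap.coe_coe]
  unfold jac
  simp
  ring

/-- a real linear map is the `lmap` of its columns -/
theorem eq_lmap (L : ℂ →L[ℝ] ℂ) : L = lmap (L 1) (L I) := by
  ext1 m
  rw [lmap_apply]
  conv_lhs => rw [show m = m.re • (1 : ℂ) + m.im • I by
    apply Complex.ext <;> simp]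
  rw [map_add, map_smul, map_smul]

theorem lmap_norm (a b m : ℂ) : ‖lmap a b m‖ ≤ ‖m‖ * (‖a‖ + ‖b‖) := by
  rw [lmap_apply]
  refine (norm_add_le _ _).trans ?_
  rw [norm_smul, norm_smul, mul_add, Real.norm_eq_abs, Real.norm_eq_abs]
  gcongr
  · exact Complex.abs_re_le_norm m
  · exact Complex.abs_im_le_norm m

theorem lmap_sub (a b a' b' m : ℂ) : lmap a b m - lmap a' b' m = lmap (a - a') (b - b') m := by
  simp only [lmap_apply, smul_sub]
  ring

variable {G' : Set ℂ} {ψ : ℂ → ℂ}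

/-- the basic change of variables inequality -/
theorem cov {K : Set ℂ} (hG' : IsOpen G') (hψ : ContDiffOn ℝ ∞ ψ G') (hi : InjOn ψ G')
    (hj : ∀ z ∈ G', jac (fderiv ℝ ψ z 1) (fderiv ℝ ψ z I) ≠ 0) (hK : IsCompact K) (hKG : K ⊆ G') :
    ∃ C : ℝ, 0 < C ∧ ∀ u : ℂ → ℝ≥0∞,
      ∫⁻ z in K, u (ψ z) ≤ ENNReal.ofReal C * ∫⁻ w in ψ '' K, u w := by
  have hdc : ContinuousOn (fderiv ℝ ψ) G' := hψ.continuousOn_fderiv_of_isOpen hG' (by simp)
  have hjc : ContinuousOn (fun z => |jac (fderiv ℝ ψ z 1) (fderiv ℝ ψ z I)|) G' := by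
    have h1 : ContinuousOn (fun z => fderiv ℝ ψ z 1) G' := hdc.clm_apply continuousOn_const
    have h2 : ContinuousOn (fun z => fderiv ℝ ψ z I) G' := hdc.clm_apply continuousOn_const
    unfold jac
    refine ContinuousOn.abs ?_
    refine ((Complex.continuous_re.comp_continuousOn h1).mul
      (Complex.continuous_im.comp_continuousOn h2)).sub
      ((Complex.continuous_im.comp_continuousOn h1).mul
      (Complex.continuous_re.comp_continuousOn h2))
  obtain ⟨c, hc0, hc⟩ : ∃ c : ℝ, 0 < c ∧ ∀ z ∈ K,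
      c ≤ |jac (fderiv ℝ ψ z 1) (fderiv ℝ ψ z I)| := by
    rcases K.eq_empty_or_nonempty with h | h
    · exact ⟨1, one_pos, by simp [h]⟩
    · obtain ⟨z₀, hz₀, hmin⟩ := hK.exists_isMinOn h (hjc.mono hKG)
      exact ⟨_, abs_pos.2 (hj z₀ (hKG hz₀)), fun z hz => hmin hz⟩
  refine ⟨c⁻¹, inv_pos.2 hc0, fun u => ?_⟩
  have h1 : ∫⁻ w in ψ '' K, u w
      = ∫⁻ z in K, ENNReal.ofReal |(fderiv ℝ ψ z).det| * u (ψ z) := by
    refine lintegral_image_eq_lintegral_abs_det_fderiv_mul volume hK.measurableSet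
      (f' := fun z => fderiv ℝ ψ z) ?_ (hi.mono hKG) u
    intro z hz
    exact (((hψ z (hKG hz)).contDiffAt (hG'.mem_nhds (hKG hz))).differentiableAt
      (by simp)).hasFDerivAt.hasFDerivWithinAt
  rw [h1, ← lintegral_const_mul' _ _ ENNReal.ofReal_ne_top]
  refine setLIntegral_mono' hK.measurableSet fun z hz => ?_
  rw [det_eq, ← mul_assoc, ← ENNReal.ofReal_mul (inv_pos.2 hc0).le]
  have h2 : (1 : ℝ) ≤ c⁻¹ * |jac (fderiv ℝ ψ z 1) (fderiv ℝ ψ z I)| := by
    rw [inv_mul_eq_div, one_le_div hc0]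
    exact hc z hz
  calc u (ψ z) = 1 * u (ψ z) := (one_mul _).symm
    _ ≤ _ := by
      gcongr
      rw [← ENNReal.ofReal_one]
      exact ENNReal.ofReal_le_ofReal h2

/-- a cut off of a function continuous on an open set is continuous -/
theorem cont_smul {a : ℂ → ℝ} {b : ℂ → ℂ} (hG' : IsOpen G') (ha : Continuous a)
    (has : tsupport a ⊆ G') (hb : ContinuousOn b G') : Continuous fun z => a z • b z := by
  rw [continuous_iff_continuousAt]
  intro z
  by_cases hz : z ∈ G'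
  · exact ha.continuousAt.smul (hb.continuousAt (hG'.mem_nhds hz))
  · have h0 : ∀ᶠ w in 𝓝 z, a w • b w = 0 := by
      have : (tsupport a)ᶜ ∈ 𝓝 z := (isClosed_tsupport a).isOpen_compl.mem_nhds fun h => hz (has h)
      filter_upwards [this] with w hw
      rw [image_eq_zero_of_notMem_tsupport hw, zero_smul]
    refine (continuousAt_const (y := (0:ℂ))).congr ?_
    filter_upwards [h0] with w hw using hw.symm

theorem cs_smul {a : ℂ → ℝ} {b : ℂ → ℂ} (ha : HasCompactSupport a) :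
    HasCompactSupport fun z => a z • b z := ha.smul_right

theorem integrable_smul {a : ℂ → ℝ} {b : ℂ → ℂ} (hG' : IsOpen G') (ha : Continuous a)
    (hac : HasCompactSupport a) (has : tsupport a ⊆ G') (hb : ContinuousOn b G') :
    Integrable fun z => a z • b z :=
  (cont_smul hG' ha has hb).integrable_of_hasCompactSupport (cs_smul hac)

theorem bound {K : Set ℂ} (hG' : IsOpen G') (hψ : ContDiffOn ℝ ∞ ψ G') (hi : InjOn ψ G')
    (hj : ∀ z ∈ G', jac (fderiv ℝ ψ z 1) (fderiv ℝ ψ z I) ≠ 0) (hK : IsCompact K) (hKG : K ⊆ G')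
    (v : ℂ) (e : ℕ) : ∃ D : ℝ≥0∞, D ≠ ⊤ ∧ ∀ a b : ℂ → ℂ,
      ∫⁻ z in K, ‖lmap (a (ψ z)) (b (ψ z)) (fderiv ℝ ψ z v)‖ₑ ^ e ≤
        D * ∫⁻ w in ψ '' K, (‖a w‖ₑ + ‖b w‖ₑ) ^ e := by
  obtain ⟨C, hC0, hC⟩ := cov hG' hψ hi hj hK hKG
  have hdc : ContinuousOn (fderiv ℝ ψ) G' := hψ.continuousOn_fderiv_of_isOpen hG' (by simp)
  have h1 : ContinuousOn (fun z => fderiv ℝ ψ z v) G' := hdc.clm_apply continuousOn_const
  obtain ⟨M, hM⟩ := hK.exists_bound_of_continuousOn (h1.mono hKG)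
  refine ⟨ENNReal.ofReal M ^ e * ENNReal.ofReal C, ?_, fun a b => ?_⟩
  · exact ENNReal.mul_ne_top (ENNReal.pow_ne_top ENNReal.ofReal_ne_top) ENNReal.ofReal_ne_top
  · calc ∫⁻ z in K, ‖lmap (a (ψ z)) (b (ψ z)) (fderiv ℝ ψ z v)‖ₑ ^ e
        ≤ ∫⁻ z in K, ENNReal.ofReal M ^ e * (‖a (ψ z)‖ₑ + ‖b (ψ z)‖ₑ) ^ e := by
          refine setLIntegral_mono' hK.measurableSet fun z hz => ?_
          rw [← mul_pow]
          gcongr
          have h2 := lmap_norm (a (ψ z)) (b (ψ z)) (fderiv ℝ ψ z v)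
          have h3 : ‖lmap (a (ψ z)) (b (ψ z)) (fderiv ℝ ψ z v)‖
              ≤ M * (‖a (ψ z)‖ + ‖b (ψ z)‖) :=
            h2.trans (mul_le_mul_of_nonneg_right (hM z hz) (by positivity))
          have hM0 : 0 ≤ M := (norm_nonneg _).trans (hM z hz)
          rw [← ofReal_norm, ← ofReal_norm, ← ofReal_norm,
            ← ENNReal.ofReal_add (norm_nonneg _) (norm_nonneg _), ← ENNReal.ofReal_mul hM0]
          exact ENNReal.ofReal_le_ofReal h3
      _ = ENNReal.ofReal M ^ e * ∫⁻ z in K, (‖a (ψ z)‖ₑ + ‖b (ψ z)‖ₑ) ^ e :=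
          lintegral_const_mul' _ _ (ENNReal.pow_ne_top ENNReal.ofReal_ne_top)
      _ ≤ _ := by
          rw [mul_assoc]
          gcongr
          exact hC fun w => (‖a w‖ₑ + ‖b w‖ₑ) ^ e

/-- the columns of the derivative of the composition -/
noncomputable def col (G' : Set ℂ) (ψ Fx Fy : ℂ → ℂ) (v : ℂ) : ℂ → ℂ :=
  G'.indicator fun z => lmap (Fx (G'.indicator ψ z)) (Fy (G'.indicator ψ z)) (fderiv ℝ ψ z v)

theorem col_eq {Fx Fy : ℂ → ℂ} {v z : ℂ} (hz : z ∈ G') :
    col G' ψ Fx Fy v z = lmap (Fx (ψ z)) (Fy (ψ z)) (fderiv ℝ ψ z v) := by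
  unfold col
  rw [indicator_of_mem hz, indicator_of_mem hz]

theorem col_meas {Fx Fy : ℂ → ℂ} {v : ℂ} (hG' : IsOpen G') (hψ : ContinuousOn ψ G')
    (hx : Measurable Fx) (hy : Measurable Fy) : Measurable (col G' ψ Fx Fy v) := by
  have h1 : Measurable (G'.indicator ψ) := by
    classical
    rw [← piecewise_eq_indicator]
    exact hψ.measurable_piecewise continuousOn_const hG'.measurableSet
  have h2 : Measurable fun z => fderiv ℝ ψ z v := measurable_fderiv_apply_const ℝ ψ v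
  refine Measurable.indicator ?_ hG'.measurableSet
  simp only [lmap_apply]
  exact ((Complex.measurable_re.comp h2).smul (hx.comp h1)).add
    ((Complex.measurable_im.comp h2).smul (hy.comp h1))

theorem fin_add {S : Set ℂ} {a b : ℂ → ℂ} (ha : IntegrableOn a S) (hb : IntegrableOn b S) :
    ∫⁻ w in S, (‖a w‖ₑ + ‖b w‖ₑ) < ⊤ := by
  rw [lintegral_add_left' ha.aestronglyMeasurable.enorm]
  exact ENNReal.add_lt_top.2 ⟨ha.2, hb.2⟩

theorem col_int {G : Set ℂ} {F Fx Fy : ℂ → ℂ} (hwd : WD G F Fx Fy)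
    (hG' : IsOpen G') (hψ : ContDiffOn ℝ ∞ ψ G') (hi : InjOn ψ G') (hm : MapsTo ψ G' G)
    (hj : ∀ z ∈ G', jac (fderiv ℝ ψ z 1) (fderiv ℝ ψ z I) ≠ 0) (v : ℂ) :
    LI G' (col G' ψ Fx Fy v) := by
  intro K hKG hK
  obtain ⟨D, hD, hb⟩ := bound hG' hψ hi hj hK hKG v 1
  have hKc : IsCompact (ψ '' K) := hK.image_of_continuousOn (hψ.continuousOn.mono hKG)
  have hKG1 : ψ '' K ⊆ G := by
    rintro _ ⟨z, hz, rfl⟩
    exact hm (hKG hz)
  refine ⟨(col_meas hG' hψ.continuousOn hwd.mx hwd.my).aestronglyMeasurable, ?_⟩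
  have h1 := hb Fx Fy
  simp only [pow_one] at h1
  have h2 : ∫⁻ z in K, ‖col G' ψ Fx Fy v z‖ₑ
      = ∫⁻ z in K, ‖lmap (Fx (ψ z)) (Fy (ψ z)) (fderiv ℝ ψ z v)‖ₑ := by
    refine setLIntegral_congr_fun hK.measurableSet fun z hz => ?_
    rw [col_eq (hKG hz)]
  change ∫⁻ z in K, ‖col G' ψ Fx Fy v z‖ₑ < ⊤
  rw [h2]
  refine h1.trans_lt (ENNReal.mul_lt_top hD.lt_top ?_)
  exact fin_add (hwd.lx _ hKG1 hKc) (hwd.ly _ hKG1 hKc)

theorem ibp (hM : SpecMoll) {G : Set ℂ} {F Fx Fy : ℂ → ℂ} (hG : IsOpen G)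
    (hF : ContinuousOn F G) (hwd : WD G F Fx Fy)
    (hG' : IsOpen G') (hψ : ContDiffOn ℝ ∞ ψ G') (hi : InjOn ψ G') (hm : MapsTo ψ G' G)
    (hj : ∀ z ∈ G', jac (fderiv ℝ ψ z 1) (fderiv ℝ ψ z I) ≠ 0) (v : ℂ) {φ : ℂ → ℝ}
    (hφ : Test G' φ) :
    ∫ z, (fderiv ℝ φ z v) • F (ψ z) = - ∫ z, φ z • col G' ψ Fx Fy v z := by
  set K := tsupport φ with hKdef
  have hK : IsCompact K := hφ.cs
  have hKG : K ⊆ G' := hφ.su
  have hKc : IsCompact (ψ '' K) := hK.image_of_continuousOn (hψ.continuousOn.mono hKG)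
  have hKG1 : ψ '' K ⊆ G := by
    rintro _ ⟨z, hz, rfl⟩
    exact hm (hKG hz)
  obtain ⟨f, hfs, hfu, hfx, hfy, -, -⟩ := hM G F Fx Fy (ψ '' K) hG hF hwd hKc hKG1
  have hdc : ContinuousOn (fderiv ℝ ψ) G' := hψ.continuousOn_fderiv_of_isOpen hG' (by simp)
  have hdv : ContinuousOn (fun z => fderiv ℝ ψ z v) G' := hdc.clm_apply continuousOn_const
  have hφc : Continuous φ := hφ.sm.continuous
  have hφd : Continuous fun z => fderiv ℝ φ z v :=
    (hφ.sm.continuous_fderiv (by simp)).clm_apply continuous_const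
  have hφs : tsupport (fun z => fderiv ℝ φ z v) ⊆ K := tsupport_fderiv_apply_subset ℝ v
  have hφcs : HasCompactSupport fun z => fderiv ℝ φ z v := hφ.cs.fderiv_apply ℝ v
  have hfd : ∀ n, Continuous (fderiv ℝ (f n)) := fun n => (hfs n).continuous_fderiv (by simp)
  have hfc : ∀ n, ContinuousOn (fun z => f n (ψ z)) G' := fun n =>
    (hfs n).continuous.comp_continuousOn hψ.continuousOn
  have hfc' : ∀ n, ContinuousOn (fun z => fderiv ℝ (f n) (ψ z) (fderiv ℝ ψ z v)) G' := fun n =>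
    ((hfd n).comp_continuousOn hψ.continuousOn).clm_apply hdv
  have h1 : ∀ n, ∫ z, (fderiv ℝ φ z v) • f n (ψ z)
      = - ∫ z, φ z • (fderiv ℝ (f n) (ψ z) (fderiv ℝ ψ z v)) := by
    intro n
    have := integral_bilinear_hasLineDerivAt_right_eq_neg_left_of_integrable (μ := volume)
      (f := φ) (f' := fun z => fderiv ℝ φ z v) (g := fun z => f n (ψ z))
      (g' := fun z => fderiv ℝ (f n) (ψ z) (fderiv ℝ ψ z v)) (v := v)
      (B := ContinuousLinearMap.lsmul ℝ ℝ)
      (integrable_smul hG' hφd hφcs (hφs.trans hKG) (hfc n))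
      (integrable_smul hG' hφc hφ.cs hKG (hfc' n))
      (integrable_smul hG' hφc hφ.cs hKG (hfc n))
      (fun z _ => ((hφ.sm.differentiable (by simp)) z).hasFDerivAt.hasLineDerivAt v) ?_
    · simp only [ContinuousLinearMap.lsmul_apply] at this
      rw [this, neg_neg]
    · intro z hz
      have hψd : DifferentiableAt ℝ ψ z := ((hψ z (hKG hz)).contDiffAt
        (hG'.mem_nhds (hKG hz))).differentiableAt (by simp)
      have hcomp := (((hfs n).differentiable (by simp)) (ψ z)).hasFDerivAt.comp z hψd.hasFDerivAt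
      exact hcomp.hasLineDerivAt v
  have h2 : Tendsto (fun n => ∫ z, (fderiv ℝ φ z v) • f n (ψ z)) atTop
      (𝓝 (∫ z, (fderiv ℝ φ z v) • F (ψ z))) := by
    have hFc : ContinuousOn (fun z => F (ψ z)) G' := hF.comp hψ.continuousOn hm
    refine tendsto_integral_filter_of_dominated_convergence
      (fun z => ‖(fderiv ℝ φ z v) • F (ψ z)‖ + ‖fderiv ℝ φ z v‖) ?_ ?_ ?_ ?_
    · refine Eventually.of_forall fun n => ?_
      exact (cont_smul hG' hφd (hφs.trans hKG) (hfc n)).aestronglyMeasurable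
    · filter_upwards [(Metric.tendstoUniformlyOn_iff.1 hfu) 1 one_pos] with n hn
      refine Eventually.of_forall fun z => ?_
      by_cases hz : z ∈ K
      · have h3 := hn (ψ z) (mem_image_of_mem _ hz)
        rw [dist_eq_norm] at h3
        have h4 : ‖f n (ψ z)‖ ≤ ‖F (ψ z)‖ + 1 := by
          calc ‖f n (ψ z)‖ = ‖F (ψ z) - (F (ψ z) - f n (ψ z))‖ := by congr 1; ring
            _ ≤ ‖F (ψ z)‖ + ‖F (ψ z) - f n (ψ z)‖ := norm_sub_le _ _
            _ ≤ _ := by gcongr
        rw [norm_smul, norm_smul]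
        nlinarith [norm_nonneg (fderiv ℝ φ z v)]
      · have : fderiv ℝ φ z v = 0 := image_eq_zero_of_notMem_tsupport
          (f := fun z => fderiv ℝ φ z v) fun h => hz (hφs h)
        rw [this]
        simp
    · exact (integrable_smul hG' hφd hφcs (hφs.trans hKG) hFc).norm.add
        (hφd.integrable_of_hasCompactSupport hφcs).norm
    · refine Eventually.of_forall fun z => ?_
      by_cases hz : z ∈ K
      · exact (hfu.tendsto_at (mem_image_of_mem _ hz)).const_smul _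
      · have : fderiv ℝ φ z v = 0 := image_eq_zero_of_notMem_tsupport
          (f := fun z => fderiv ℝ φ z v) fun h => hz (hφs h)
        simp [this]
  have h3 : Tendsto (fun n => ∫ z, φ z • (fderiv ℝ (f n) (ψ z) (fderiv ℝ ψ z v))) atTop
      (𝓝 (∫ z, φ z • col G' ψ Fx Fy v z)) := by
    obtain ⟨M, hMb⟩ := hK.exists_bound_of_continuousOn hφc.continuousOn
    obtain ⟨D, hD, hb⟩ := bound hG' hψ hi hj hK hKG v 1
    refine tendsto_integral_of_L1 _ ?_ ?_ ?_
    · exact (hφc.measurable.smul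
        (col_meas hG' hψ.continuousOn hwd.mx hwd.my)).aestronglyMeasurable
    · exact Eventually.of_forall fun n => integrable_smul hG' hφc hφ.cs hKG (hfc' n)
    · have hlim : Tendsto (fun n => ENNReal.ofReal M * (D *
          ((∫⁻ w in ψ '' K, ‖fderiv ℝ (f n) w 1 - Fx w‖ₑ) +
            (∫⁻ w in ψ '' K, ‖fderiv ℝ (f n) w I - Fy w‖ₑ)))) atTop (𝓝 0) := by
        have := ENNReal.Tendsto.const_mul (a := ENNReal.ofReal M)
          (ENNReal.Tendsto.const_mul (a := D) (hfx.add hfy) (Or.inr hD))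
          (Or.inr ENNReal.ofReal_ne_top)
        simpa using this
      refine tendsto_of_tendsto_of_tendsto_of_le_of_le tendsto_const_nhds hlim
        (fun _ => zero_le) fun n => ?_
      calc ∫⁻ z, ‖φ z • (fderiv ℝ (f n) (ψ z) (fderiv ℝ ψ z v)) - φ z • col G' ψ Fx Fy v z‖ₑ
          ≤ ∫⁻ z, K.indicator (fun z => ENNReal.ofReal M *
              ‖lmap (fderiv ℝ (f n) (ψ z) 1 - Fx (ψ z)) (fderiv ℝ (f n) (ψ z) I - Fy (ψ z))
                (fderiv ℝ ψ z v)‖ₑ) z := by
            refine lintegral_mono fun z => ?_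
            by_cases hz : z ∈ K
            · rw [indicator_of_mem hz, col_eq (hKG hz), ← smul_sub, enorm_smul]
              conv_lhs => rw [eq_lmap (fderiv ℝ (f n) (ψ z))]
              rw [lmap_sub]
              gcongr
              rw [← ofReal_norm]
              exact ENNReal.ofReal_le_ofReal (hMb z hz)
            · rw [indicator_of_notMem hz, image_eq_zero_of_notMem_tsupport hz]
              simp
        _ = ENNReal.ofReal M * ∫⁻ z in K,
              ‖lmap (fderiv ℝ (f n) (ψ z) 1 - Fx (ψ z)) (fderiv ℝ (f n) (ψ z) I - Fy (ψ z))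
                (fderiv ℝ ψ z v)‖ₑ := by
            rw [lintegral_indicator hK.measurableSet,
              lintegral_const_mul' _ _ ENNReal.ofReal_ne_top]
        _ ≤ _ := by
            gcongr
            have h4 := hb (fun w => fderiv ℝ (f n) w 1 - Fx w) (fun w => fderiv ℝ (f n) w I - Fy w)
            simp only [pow_one] at h4
            refine h4.trans ?_
            gcongr
            rw [lintegral_add_left]
            exact ((((hfd n).clm_apply continuous_const).measurable).sub hwd.mx).enorm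
  have h4 := h3.neg
  rw [← funext h1] at h4
  exact tendsto_nhds_unique h2 h4

end Chain

theorem specChain (hM : SpecMoll) : SpecChain := by
  intro G G' F Fx Fy ψ hG hG' hF hwd hψ hi hm hj
  refine ⟨Chain.col G' ψ Fx Fy 1, Chain.col G' ψ Fx Fy I, ?_, ?_, ?_⟩
  · refine ⟨Chain.col_meas hG' hψ.continuousOn hwd.mx hwd.my,
      Chain.col_meas hG' hψ.continuousOn hwd.mx hwd.my, ?_,
      Chain.col_int hwd hG' hψ hi hm hj 1, Chain.col_int hwd hG' hψ hi hm hj I, ?_, ?_⟩
    · intro K hKG hK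
      exact ((hF.comp hψ.continuousOn hm).mono hKG).integrableOn_compact hK
    · intro φ hφ
      exact Chain.ibp hM hG hF hwd hG' hψ hi hm hj 1 hφ
    · intro φ hφ
      exact Chain.ibp hM hG hF hwd hG' hψ hi hm hj I hφ
  · intro z hz
    exact ⟨Chain.col_eq hz, Chain.col_eq hz⟩
  · intro hx hy
    have key : ∀ v : ℂ, L2loc G' (Chain.col G' ψ Fx Fy v) := by
      intro v K hKG hK
      obtain ⟨D, hD, hb⟩ := Chain.bound hG' hψ hi hj hK hKG v 2
      have hKc : IsCompact (ψ '' K) := hK.image_of_continuousOn (hψ.continuousOn.mono hKG)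
      have hKG1 : ψ '' K ⊆ G := by
        rintro _ ⟨z, hz, rfl⟩
        exact hm (hKG hz)
      have h2 : ∫⁻ z in K, ‖Chain.col G' ψ Fx Fy v z‖ₑ ^ 2
          = ∫⁻ z in K, ‖lmap (Fx (ψ z)) (Fy (ψ z)) (fderiv ℝ ψ z v)‖ₑ ^ 2 := by
        refine setLIntegral_congr_fun hK.measurableSet fun z hz => ?_
        rw [Chain.col_eq (hKG hz)]
      rw [h2]
      refine (hb Fx Fy).trans_lt (ENNReal.mul_lt_top hD.lt_top ?_)
      calc ∫⁻ w in ψ '' K, (‖Fx w‖ₑ + ‖Fy w‖ₑ) ^ 2
          ≤ ∫⁻ w in ψ '' K, (2 * (‖Fx w‖ₑ ^ 2) + 2 * (‖Fy w‖ₑ ^ 2)) := by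
            refine lintegral_mono fun w => ?_
            have := ENNReal.rpow_add_le_mul_rpow_add_rpow (‖Fx w‖ₑ) (‖Fy w‖ₑ)
              (p := 2) (by norm_num)
            norm_num at this
            rw [← mul_add]
            exact this
        _ < ⊤ := by
            rw [lintegral_add_left ((hwd.mx.enorm.pow_const 2).const_mul 2),
              lintegral_const_mul' _ _ (by norm_num), lintegral_const_mul' _ _ (by norm_num)]
            exact ENNReal.add_lt_top.2 ⟨ENNReal.mul_lt_top (by norm_num) (hx _ hKG1 hKc),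
              ENNReal.mul_lt_top (by norm_num) (hy _ hKG1 hKc)⟩
    exact ⟨key 1, key I⟩

end MPfa
end

section
/-!
Problem MP_fa0334_an, module CHART (E4): existence of natural charts.
-/
set_option autoImplicit false

open MeasureTheory Set Filter Topology Metric Complex
open scoped ContDiff ENNReal ComplexConjugate

namespace MPfa

namespace ChartM

/-- holomorphic roots near a point where the function does not vanish -/
lemma root (n : ℕ) (hn : n ≠ 0) {f : ℂ → ℂ} {R : ℝ} (hR : 0 < R)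
    (hf : DifferentiableOn ℂ f (ball 0 R)) (h0 : f 0 ≠ 0) :
    ∃ R' > 0, R' ≤ R ∧ ∃ m : ℂ → ℂ, DifferentiableOn ℂ m (ball 0 R') ∧
      (∀ z ∈ ball (0 : ℂ) R', m z ^ n = f z) ∧ ∀ z ∈ ball (0 : ℂ) R', f z ≠ 0 := by
  have hc : ContinuousAt f 0 := (hf.differentiableAt (isOpen_ball.mem_nhds (mem_ball_self hR))).continuousAt
  have hc' : ContinuousAt (fun z => f z / f 0 - 1) 0 := (hc.div_const _).sub continuousAt_const
  have hev : ∀ᶠ z in 𝓝 (0 : ℂ), ‖f z / f 0 - 1‖ < 1 := by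
    refine hc'.norm.eventually_lt_const ?_
    simp [div_self h0]
  obtain ⟨δ, hδ, hδG⟩ := Metric.eventually_nhds_iff.mp hev
  refine ⟨min R δ, lt_min hR hδ, min_le_left _ _, fun z => (f 0) ^ ((n : ℂ)⁻¹) * (f z / f 0) ^ ((n : ℂ)⁻¹), ?_, ?_, ?_⟩
  · intro z hz
    have hz1 : z ∈ ball (0 : ℂ) R := ball_subset_ball (min_le_left _ _) hz
    have hz2 : ‖f z / f 0 - 1‖ < 1 := hδG (lt_of_lt_of_le hz (min_le_right _ _))
    have hsl : f z / f 0 ∈ slitPlane := by
      have := Complex.mem_slitPlane_of_norm_lt_one hz2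
      simpa using this
    have hd : DifferentiableAt ℂ (fun z => f z / f 0) z :=
      (hf.differentiableAt (isOpen_ball.mem_nhds hz1)).div_const _
    exact ((hd.cpow (differentiableAt_const _) hsl).const_mul _).differentiableWithinAt
  · intro z hz
    rw [mul_pow, Complex.cpow_nat_inv_pow _ hn, Complex.cpow_nat_inv_pow _ hn]
    field_simp
  · intro z hz hfz
    have hz2 : ‖f z / f 0 - 1‖ < 1 := hδG (lt_of_lt_of_le hz (min_le_right _ _))
    rw [hfz] at hz2
    simp at hz2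

/-- solution of `(k+2)/2 M + z M' = s` -/
lemma ker (k : ℕ) {s : ℂ → ℂ} {R : ℝ} (hs : DifferentiableOn ℂ s (ball 0 R)) :
    ∃ M : ℂ → ℂ, DifferentiableOn ℂ M (ball 0 R) ∧
      ∀ z ∈ ball (0 : ℂ) R, ((k : ℂ) + 2) / 2 * M z + z * deriv M z = s z := by
  set F : ℂ → ℝ → ℂ := fun z σ => 2 * (σ : ℂ) ^ (k + 1) * s ((σ : ℂ) ^ 2 * z) with hF
  set F' : ℂ → ℝ → ℂ := fun z σ => 2 * (σ : ℂ) ^ (k + 3) * deriv s ((σ : ℂ) ^ 2 * z) with hF'
  have hds : ContinuousOn (deriv s) (ball 0 R) := (hs.deriv isOpen_ball).continuousOn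
  have hmem : ∀ z ∈ ball (0 : ℂ) R, ∀ σ ∈ Icc (0 : ℝ) 1, (σ : ℂ) ^ 2 * z ∈ ball (0 : ℂ) R := by
    intro z hz σ hσ
    rw [mem_ball_zero_iff] at hz ⊢
    rw [norm_mul, norm_pow, Complex.norm_real, Real.norm_of_nonneg hσ.1]
    have h1 : σ ^ 2 ≤ 1 := pow_le_one₀ hσ.1 hσ.2
    calc σ ^ 2 * ‖z‖ ≤ 1 * ‖z‖ := mul_le_mul_of_nonneg_right h1 (norm_nonneg _)
      _ < R := by rwa [one_mul]
  have hcF : ∀ z ∈ ball (0 : ℂ) R, ContinuousOn (F z) (Icc 0 1) := by
    intro z hz
    have h1 : ContinuousOn (fun σ : ℝ => s ((σ : ℂ) ^ 2 * z)) (Icc 0 1) :=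
      hs.continuousOn.comp (by fun_prop) (fun σ hσ => hmem z hz σ hσ)
    exact ContinuousOn.mul (by fun_prop) h1
  have hcF' : ∀ z ∈ ball (0 : ℂ) R, ContinuousOn (F' z) (Icc 0 1) := by
    intro z hz
    have h1 : ContinuousOn (fun σ : ℝ => deriv s ((σ : ℂ) ^ 2 * z)) (Icc 0 1) :=
      hds.comp (by fun_prop) (fun σ hσ => hmem z hz σ hσ)
    exact ContinuousOn.mul (by fun_prop) h1
  have hu : uIoc (0 : ℝ) 1 ⊆ Icc 0 1 := by
    rw [uIoc_of_le zero_le_one]
    exact Ioc_subset_Icc_self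
  have hder : ∀ z ∈ ball (0 : ℂ) R, HasDerivAt (fun z => ∫ σ in (0 : ℝ)..1, F z σ)
      (∫ σ in (0 : ℝ)..1, F' z σ) z := by
    intro z hz
    obtain ⟨R₁, hR₁, hR₁R⟩ : ∃ R₁, ‖z‖ < R₁ ∧ R₁ < R := exists_between (by simpa using hz)
    have hcomp : IsCompact (closedBall (0 : ℂ) R₁) := isCompact_closedBall _ _
    obtain ⟨C, hC⟩ := hcomp.exists_bound_of_continuousOn
      (hds.mono (closedBall_subset_ball hR₁R))
    have hsub : ball (0 : ℂ) R₁ ⊆ ball 0 R := ball_subset_ball hR₁R.le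
    have hnhds : ball (0 : ℂ) R₁ ∈ 𝓝 z := isOpen_ball.mem_nhds (by simpa using hR₁)
    refine (intervalIntegral.hasDerivAt_integral_of_dominated_loc_of_deriv_le
      (F := F) (F' := F') (s := ball 0 R₁) (bound := fun _ => 2 * C) hnhds ?_ ?_ ?_ ?_ ?_ ?_).2
    · filter_upwards [hnhds] with x hx
      exact ((hcF x (hsub hx)).mono hu).aestronglyMeasurable measurableSet_uIoc
    · exact ContinuousOn.intervalIntegrable (by rw [uIcc_of_le zero_le_one]; exact hcF z hz)
    · exact ((hcF' z hz).mono hu).aestronglyMeasurable measurableSet_uIoc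
    · refine ae_of_all _ ?_
      intro σ hσ x hx
      have hσ' := hu hσ
      have h1 : (σ : ℂ) ^ 2 * x ∈ closedBall (0 : ℂ) R₁ := by
        rw [mem_closedBall_zero_iff, norm_mul, norm_pow, Complex.norm_real, Real.norm_of_nonneg hσ'.1]
        have h1 : σ ^ 2 ≤ 1 := pow_le_one₀ hσ'.1 hσ'.2
        have h2 : ‖x‖ < R₁ := by simpa using hx
        calc σ ^ 2 * ‖x‖ ≤ 1 * ‖x‖ := mul_le_mul_of_nonneg_right h1 (norm_nonneg _)
          _ ≤ R₁ := by rw [one_mul]; exact h2.le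
      have h2 := hC _ h1
      have h3 : ‖(σ : ℂ)‖ ^ (k + 3) ≤ 1 := by
        rw [Complex.norm_real, Real.norm_of_nonneg hσ'.1]
        exact pow_le_one₀ hσ'.1 hσ'.2
      simp only [hF']
      rw [norm_mul, norm_mul, norm_pow, Complex.norm_two]
      have h4 : 0 ≤ ‖(σ : ℂ)‖ ^ (k + 3) := by positivity
      have h5 := norm_nonneg (deriv s ((σ : ℂ) ^ 2 * x))
      nlinarith
    · exact intervalIntegrable_const
    · refine ae_of_all _ ?_
      intro σ hσ x hx
      have h1 : HasDerivAt s (deriv s ((σ : ℂ) ^ 2 * x)) ((σ : ℂ) ^ 2 * x) :=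
        (hs.differentiableAt (isOpen_ball.mem_nhds (hmem x (hsub hx) σ (hu hσ)))).hasDerivAt
      have h2 : HasDerivAt (fun x : ℂ => (σ : ℂ) ^ 2 * x) ((σ : ℂ) ^ 2) x := by
        simpa using (hasDerivAt_id x).const_mul ((σ : ℂ) ^ 2)
      have h3 := (h1.comp x h2).const_mul (2 * (σ : ℂ) ^ (k + 1))
      refine h3.congr_deriv ?_
      simp only [hF']
      ring
  refine ⟨fun z => ∫ σ in (0 : ℝ)..1, F z σ, fun z hz => (hder z hz).differentiableAt.differentiableWithinAt, ?_⟩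
  intro z hz
  rw [(hder z hz).deriv]
  have hiF : IntervalIntegrable (F z) volume 0 1 :=
    ContinuousOn.intervalIntegrable (by rw [uIcc_of_le zero_le_one]; exact hcF z hz)
  have hiF' : IntervalIntegrable (F' z) volume 0 1 :=
    ContinuousOn.intervalIntegrable (by rw [uIcc_of_le zero_le_one]; exact hcF' z hz)
  have hftc : ∫ σ in (0 : ℝ)..1, (((k : ℂ) + 2) / 2 * F z σ + z * F' z σ) =
      ((1 : ℝ) : ℂ) ^ (k + 2) * s (((1 : ℝ) : ℂ) ^ 2 * z) - ((0 : ℝ) : ℂ) ^ (k + 2) * s (((0 : ℝ) : ℂ) ^ 2 * z) := by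
    refine intervalIntegral.integral_eq_sub_of_hasDerivAt
      (f := fun σ : ℝ => (σ : ℂ) ^ (k + 2) * s ((σ : ℂ) ^ 2 * z)) ?_ ?_
    · intro σ hσ
      rw [uIcc_of_le zero_le_one] at hσ
      have h0 : HasDerivAt (fun v : ℝ => (v : ℂ)) 1 σ := Complex.ofRealCLM.hasDerivAt
      have h1 : HasDerivAt s (deriv s ((σ : ℂ) ^ 2 * z)) ((σ : ℂ) ^ 2 * z) :=
        (hs.differentiableAt (isOpen_ball.mem_nhds (hmem z hz σ hσ))).hasDerivAt
      have h2 : HasDerivAt (fun σ : ℝ => (σ : ℂ) ^ 2 * z) (2 * (σ : ℂ) * z) σ := by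
        refine ((h0.pow 2).mul_const z).congr_deriv ?_
        push_cast
        ring
      have h3 : HasDerivAt (fun σ : ℝ => s ((σ : ℂ) ^ 2 * z)) ((2 * (σ : ℂ) * z) * deriv s ((σ : ℂ) ^ 2 * z)) σ :=
        h1.scomp σ h2
      have h4 : HasDerivAt (fun σ : ℝ => (σ : ℂ) ^ (k + 2)) (((k : ℂ) + 2) * (σ : ℂ) ^ (k + 1)) σ := by
        refine (h0.pow (k + 2)).congr_deriv ?_
        push_cast
        ring
      refine (h4.mul h3).congr_deriv ?_
      simp only [hF, hF']
      ring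
    · exact (hiF.const_mul _).add (hiF'.const_mul _)
  rw [intervalIntegral.integral_add (hiF.const_mul _) (hiF'.const_mul _),
    intervalIntegral.integral_const_mul, intervalIntegral.integral_const_mul] at hftc
  rw [hftc]
  simp

end ChartM

open ChartM in
theorem specChart : SpecChart := by
  intro D Ψ t hD hDc hΨ hne ht
  -- order of vanishing
  have han : AnalyticAt ℂ Ψ t := hΨ.analyticAt (hD.mem_nhds ht)
  have hnz : ¬ ∀ᶠ z in 𝓝 t, Ψ z = 0 := by
    intro h
    obtain ⟨z, hz, hz0⟩ := hne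
    exact hz0 ((hΨ.analyticOnNhd hD).eqOn_zero_of_preconnected_of_eventuallyEq_zero hDc ht h hz)
  obtain ⟨k, G, hG, hG0, hGeq⟩ := han.exists_eventuallyEq_pow_smul_nonzero_iff.mpr hnz
  -- a ball
  have hev : ∀ᶠ z in 𝓝 t, AnalyticAt ℂ G z ∧ Ψ z = (z - t) ^ k • G z ∧ z ∈ D := by
    filter_upwards [hG.eventually_analyticAt, hGeq, hD.mem_nhds ht] with z a b c
    exact ⟨a, b, c⟩
  obtain ⟨R, hR, hRG⟩ := Metric.eventually_nhds_iff.mp hev
  have hshift : ∀ z ∈ ball (0 : ℂ) R, dist (t + z) t < R := by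
    intro z hz
    simpa [dist_eq_norm] using hz
  have hGd : DifferentiableOn ℂ (fun z => G (t + z)) (ball 0 R) := by
    intro z hz
    have h1 : DifferentiableAt ℂ G (t + z) := (hRG (hshift z hz)).1.differentiableAt
    exact (h1.comp z ((differentiableAt_const t).add differentiableAt_id)).differentiableWithinAt
  -- square root
  obtain ⟨R₁, hR₁, hR₁R, s, hs, hs2, hGne⟩ := root 2 two_ne_zero hR hGd (by simpa using hG0)
  obtain ⟨M, hM, hMs⟩ := ker k hs
  have h0R₁ : (0 : ℂ) ∈ ball (0 : ℂ) R₁ := mem_ball_self hR₁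
  have hk2 : ((k : ℂ) + 2) ≠ 0 := by
    have : ((k + 2 : ℕ) : ℂ) ≠ 0 := by exact_mod_cast (Nat.succ_ne_zero (k + 1))
    push_cast at this
    exact this
  have hsne : ∀ z ∈ ball (0 : ℂ) R₁, s z ≠ 0 := by
    intro z hz h
    have := hs2 z hz
    rw [h] at this
    exact hGne z hz (by simpa using this.symm)
  have hM0 : M 0 ≠ 0 := by
    intro h
    have := hMs 0 h0R₁
    rw [h, mul_zero, zero_mul, add_zero] at this
    exact hsne 0 h0R₁ this.symm
  obtain ⟨R₂, hR₂, hR₂R₁, m, hm, hmM, hM2ne⟩ := root (k + 2) (by omega) hR₁ (f := fun z => M z ^ 2)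
    (hM.pow 2) (pow_ne_zero 2 hM0)
  have hMne : ∀ z ∈ ball (0 : ℂ) R₂, M z ≠ 0 := by
    intro z hz h
    exact hM2ne z hz (by rw [h]; simp)
  have hmne : ∀ z ∈ ball (0 : ℂ) R₂, m z ≠ 0 := by
    intro z hz h
    have := hmM z hz
    rw [h, zero_pow (by omega)] at this
    exact hM2ne z hz this.symm
  have h0R₂ : (0 : ℂ) ∈ ball (0 : ℂ) R₂ := mem_ball_self hR₂
  -- the coordinate
  set W : ℂ → ℂ := fun z => z * m z with hW
  set W' : ℂ → ℂ := fun z => m z + z * deriv m z with hW'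
  have hdm : ∀ z ∈ ball (0 : ℂ) R₂, HasDerivAt m (deriv m z) z := fun z hz =>
    (hm.differentiableAt (isOpen_ball.mem_nhds hz)).hasDerivAt
  have hdM : ∀ z ∈ ball (0 : ℂ) R₂, HasDerivAt M (deriv M z) z := fun z hz =>
    (hM.differentiableAt (isOpen_ball.mem_nhds (ball_subset_ball hR₂R₁ hz))).hasDerivAt
  have hdW : ∀ z ∈ ball (0 : ℂ) R₂, HasDerivAt W (W' z) z := by
    intro z hz
    refine ((hasDerivAt_id z).mul (hdm z hz)).congr_deriv ?_
    simp only [hW', id]
    ring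
  have hrel : ∀ z ∈ ball (0 : ℂ) R₂, ((k : ℂ) + 2) * m z ^ (k + 1) * W' z = 2 * M z * s z := by
    intro z hz
    have h1 := (hdm z hz).pow (k + 2)
    have h2 := (hdM z hz).pow 2
    have h3 : (m ^ (k + 2)) =ᶠ[𝓝 z] (M ^ 2) := by
      filter_upwards [isOpen_ball.mem_nhds hz] with x hx
      simpa using hmM x hx
    have h4 := (h1.congr_of_eventuallyEq h3.symm).unique h2
    push_cast at h4
    have h5 := hMs z (ball_subset_ball hR₂R₁ hz)
    have h6 := hmM z hz
    have h7 : m z ^ (k + 1) * m z = M z ^ 2 := by rw [← pow_succ]; exact h6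
    simp only [hW'] at h4 ⊢
    have h8 : ((k : ℂ) + 2) * m z ^ (k + 1) * deriv m z = 2 * M z * deriv M z := by
      simpa using h4
    linear_combination ((k : ℂ) + 2) * h7 + z * h8 + 2 * M z * h5
  have hW'ne : ∀ z ∈ ball (0 : ℂ) R₂, W' z ≠ 0 := by
    intro z hz h
    have h1 := hrel z hz
    rw [h, mul_zero] at h1
    exact (mul_ne_zero (mul_ne_zero two_ne_zero (hMne z hz)) (hsne z (ball_subset_ball hR₂R₁ hz))) h1.symm
  have hmain : ∀ z ∈ ball (0 : ℂ) R₂, (((k : ℂ) + 2) / 2) ^ 2 * W z ^ k * W' z ^ 2 = Ψ (t + z) := by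
    intro z hz
    have hz1 := ball_subset_ball hR₂R₁ hz
    have hzR := ball_subset_ball hR₁R hz1
    have h1 := hrel z hz
    have h2 := hs2 z hz1
    have h3 := (hRG (hshift z hzR)).2.1
    have h4 : Ψ (t + z) = z ^ k * G (t + z) := by simpa using h3
    rw [h4, ← h2]
    have h5 : (((k : ℂ) + 2) / 2) ^ 2 * m z ^ k * W' z ^ 2 = s z ^ 2 := by
      have h6 : m z ^ (k + 2) * ((((k : ℂ) + 2) / 2) ^ 2 * m z ^ k * W' z ^ 2) = m z ^ (k + 2) * s z ^ 2 := by
        have h7 : (((k : ℂ) + 2) * m z ^ (k + 1) * W' z) ^ 2 = (2 * M z * s z) ^ 2 := by rw [h1]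
        have h8 := hmM z hz
        have h9 : m z ^ (k + 2) * ((((k : ℂ) + 2) / 2) ^ 2 * m z ^ k * W' z ^ 2) =
            (((k : ℂ) + 2) * m z ^ (k + 1) * W' z) ^ 2 / 4 := by ring
        rw [h9, h7, h8]
        ring
      exact mul_left_cancel₀ (pow_ne_zero _ (hmne z hz)) h6
    simp only [hW, mul_pow]
    linear_combination z ^ k * h5
  -- local inverse
  have hWan : AnalyticAt ℂ W 0 := by
    have : DifferentiableOn ℂ W (ball 0 R₂) := fun z hz => (hdW z hz).differentiableAt.differentiableWithinAt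
    exact this.analyticAt (isOpen_ball.mem_nhds h0R₂)
  have hst : HasStrictDerivAt W (W' 0) 0 := by
    have := hWan.hasStrictDerivAt
    rwa [(hdW 0 h0R₂).deriv] at this
  have hsf := hst.hasStrictFDerivAt_equiv (hW'ne 0 h0R₂)
  set e := hsf.toOpenPartialHomeomorph W with he
  have hecoe : ∀ x, e x = W x := fun x => rfl
  have h0s : (0 : ℂ) ∈ e.source := hsf.mem_toOpenPartialHomeomorph_source
  have hU : IsOpen (e.source ∩ ball 0 R₂) := e.open_source.inter isOpen_ball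
  have himg : IsOpen (e '' (e.source ∩ ball 0 R₂)) :=
    e.isOpen_image_of_subset_source hU inter_subset_left
  have hW0 : W 0 = 0 := by simp [hW]
  have h0img : (0 : ℂ) ∈ e '' (e.source ∩ ball 0 R₂) := ⟨0, ⟨h0s, h0R₂⟩, by rw [hecoe, hW0]⟩
  obtain ⟨r, hr, hrsub⟩ := Metric.isOpen_iff.mp himg 0 h0img
  have hinv : ∀ w ∈ ball (0 : ℂ) r, e.symm w ∈ e.source ∩ ball 0 R₂ ∧ W (e.symm w) = w := by
    intro w hw
    obtain ⟨x, hx, hxw⟩ := hrsub hw
    have : e.symm w = x := by rw [← hxw, e.left_inv hx.1]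
    rw [this]
    exact ⟨hx, by rw [← hecoe]; exact hxw⟩
  have hsd : ∀ w ∈ ball (0 : ℂ) r, HasDerivAt e.symm (W' (e.symm w))⁻¹ w := by
    intro w hw
    have hwt : w ∈ e.target := by
      obtain ⟨x, hx, hxw⟩ := hrsub hw
      rw [← hxw]
      exact e.map_source hx.1
    refine HasDerivAt.of_local_left_inverse (e.continuousAt_symm hwt) (hdW _ (hinv w hw).1.2)
      (hW'ne _ (hinv w hw).1.2) ?_
    filter_upwards [isOpen_ball.mem_nhds hw] with x hx
    exact (hinv x hx).2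
  have hgd : ∀ w ∈ ball (0 : ℂ) r, HasDerivAt (fun w => t + e.symm w) (W' (e.symm w))⁻¹ w := by
    intro w hw
    exact (hsd w hw).const_add t
  refine ⟨k, r, fun w => t + e.symm w, ?_, ?_⟩
  · refine ⟨hr, fun w hw => (hgd w hw).differentiableAt.differentiableWithinAt, ?_, ?_, ?_, ?_, ?_⟩
    · intro w hw w' hw' h
      have h1 : e.symm w = e.symm w' := by simpa using h
      rw [← (hinv w hw).2, ← (hinv w' hw').2, h1]
    · intro w hw
      exact (hRG (hshift _ (ball_subset_ball (hR₂R₁.trans hR₁R) (hinv w hw).1.2))).2.2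
    · have h1 : e.symm 0 = 0 := by
        have := e.left_inv h0s
        rwa [hecoe, hW0] at this
      simp [h1]
    · intro w hw
      rw [(hgd w hw).deriv]
      exact inv_ne_zero (hW'ne _ (hinv w hw).1.2)
    · intro w hw
      rw [(hgd w hw).deriv]
      have h1 := hmain _ (hinv w hw).1.2
      rw [← h1, (hinv w hw).2]
      have h2 := hW'ne _ (hinv w hw).1.2
      field_simp
  · intro hΨt
    by_contra hk
    have h1 := hGeq.self_of_nhds
    rw [sub_self, zero_pow hk, zero_smul] at h1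
    exact hΨt h1

end MPfa
end

section
/-!
Module POL: polar coordinates around a point.
-/
set_option autoImplicit false

open MeasureTheory Set Filter Topology Metric Complex
open scoped ContDiff ENNReal ComplexConjugate

namespace MPfa.Mol

theorem lintegral_shift (h : ℝ → ℝ≥0∞) (hp : ∀ θ, h (θ + 2 * Real.pi) = h θ) :
    ∫⁻ θ in Ioo (-Real.pi) Real.pi, h θ = ∫⁻ θ in Ioo (0 : ℝ) (2 * Real.pi), h θ := by
  have hT : (0 : ℝ) < 2 * Real.pi := by positivity
  have hper : Function.Periodic h (2 * Real.pi) := hp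
  have h1 := (isAddFundamentalDomain_Ioc hT (-Real.pi) volume).setLIntegral_eq
    (isAddFundamentalDomain_Ioc hT (0 : ℝ) volume) h (by
      rintro ⟨g, hg⟩ x
      obtain ⟨n, rfl⟩ := AddSubgroup.mem_zmultiples_iff.1 hg
      show h (n • (2 * Real.pi) + x) = h x
      rw [add_comm]
      have := hper.zsmul n x
      simpa using this)
  rw [show -Real.pi + 2 * Real.pi = Real.pi by ring, zero_add] at h1
  rw [setLIntegral_congr Ioo_ae_eq_Ioc, setLIntegral_congr Ioo_ae_eq_Ioc, h1]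

end MPfa.Mol

namespace MPfa

theorem specPol : SpecPol := by
  intro c g hg
  have h0 : ∫⁻ z, g z = ∫⁻ z, g (z + c) := (lintegral_add_right_eq_self g c).symm
  rw [h0, ← Complex.lintegral_comp_polarCoord_symm, polarCoord_target,
    Measure.volume_eq_prod, setLIntegral_prod]
  · refine setLIntegral_congr_fun measurableSet_Ioi fun r hr => ?_
    have e : ∀ θ : ℝ, Complex.polarCoord.symm (r, θ) + c = circleMap c r θ := by
      intro θ
      rw [Complex.polarCoord_symm_apply, circleMap, Complex.exp_mul_I, Complex.ofReal_cos,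
        Complex.ofReal_sin]
      ring
    simp only [smul_eq_mul, e]
    refine Mol.lintegral_shift (fun θ => ENNReal.ofReal r * g (circleMap c r θ)) fun θ => ?_
    rw [periodic_circleMap c r θ]
  · have h1 : Measurable fun p : ℝ × ℝ => Complex.polarCoord.symm p := by
      have h2 : (fun p : ℝ × ℝ => Complex.polarCoord.symm p) = fun p : ℝ × ℝ =>
          (p.1 : ℂ) * (Real.cos p.2 + Real.sin p.2 * I) := by
        funext p
        exact Complex.polarCoord_symm_apply p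
      rw [h2]
      fun_prop
    exact ((ENNReal.measurable_ofReal.comp measurable_fst).smul
      (hg.comp (h1.add_const c))).aemeasurable

end MPfa
end

section
/-!
Module CIRC: absolute continuity on almost every circle.
-/
set_option autoImplicit false

namespace MPfa

theorem specCirc : SpecCirc := specCirc' specPol

end MPfa
end

section
/-!
PULL: pull back of solutions by conformal maps.
-/
set_option autoImplicit false

open MeasureTheory Set Filter Topology Metric Complex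
open scoped ContDiff ENNReal ComplexConjugate

namespace MPfa

namespace Pull

/-- null sets pull back to null sets under injective maps with nonvanishing Jacobian -/
theorem ae_comp {G G' : Set ℂ} {ψ : ℂ → ℂ} {P : ℂ → Prop} (hG' : IsOpen G')
    (hψ : ∀ z ∈ G', DifferentiableAt ℝ ψ z) (hi : InjOn ψ G') (hm : MapsTo ψ G' G)
    (hj : ∀ z ∈ G', jac (fderiv ℝ ψ z 1) (fderiv ℝ ψ z I) ≠ 0)
    (hP : ∀ᵐ w ∂(volume.restrict G), P w) : ∀ᵐ z ∂(volume.restrict G'), P (ψ z) := by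
  obtain ⟨N, hN1, hN2, hN3⟩ := exists_measurable_superset_of_null (show
    (volume.restrict G) {w | ¬ P w} = 0 from hP)
  have hψc : ContinuousOn ψ G' := fun z hz => (hψ z hz).continuousAt.continuousWithinAt
  have hf' : ∀ z ∈ G', HasFDerivWithinAt ψ (fderiv ℝ ψ z) G' z := fun z hz =>
    (hψ z hz).hasFDerivAt.hasFDerivWithinAt
  have h1 := lintegral_image_eq_lintegral_abs_det_fderiv_mul volume hG'.measurableSet hf' hi
    (N.indicator 1)
  have h2 : ∫⁻ w in ψ '' G', N.indicator (1 : ℂ → ℝ≥0∞) w = 0 := by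
    refine le_antisymm ?_ zero_le
    calc ∫⁻ w in ψ '' G', N.indicator (1 : ℂ → ℝ≥0∞) w
        ≤ ∫⁻ w in G, N.indicator (1 : ℂ → ℝ≥0∞) w :=
          lintegral_mono_set (by rintro _ ⟨z, hz, rfl⟩; exact hm hz)
      _ = 0 := by
          rw [lintegral_indicator_one hN2]
          exact hN3
  rw [h2] at h1
  have hme : AEMeasurable (fun z => ENNReal.ofReal |(fderiv ℝ ψ z).det| *
      N.indicator (1 : ℂ → ℝ≥0∞) (ψ z)) (volume.restrict G') := by
    refine (aemeasurable_ofReal_abs_det_fderivWithin volume hG'.measurableSet hf').mul ?_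
    exact (measurable_one.indicator hN2).comp_aemeasurable (hψc.aemeasurable hG'.measurableSet)
  have h3 := (lintegral_eq_zero_iff' hme).1 h1.symm
  rw [EventuallyEq, ae_restrict_iff' hG'.measurableSet] at h3
  rw [ae_restrict_iff' hG'.measurableSet]
  filter_upwards [h3] with z hz hzG
  by_contra hne
  have h4 := hz hzG
  simp only [Pi.zero_apply, mul_eq_zero, ENNReal.ofReal_eq_zero] at h4
  rcases h4 with h4 | h4
  · have h5 := hj z hzG
    rw [Chain.det_eq] at h4
    exact h5 (abs_nonpos_iff.1 h4)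
  · rw [indicator_of_mem (hN1 hne)] at h4
    exact one_ne_zero h4

theorem jac_mul_I (m : ℂ) : jac m (m * I) = ‖m‖ ^ 2 := by
  rw [← Complex.normSq_eq_norm_sq, Complex.normSq_apply]
  unfold jac
  simp

theorem fderiv_real {g : ℂ → ℂ} {z : ℂ} (h : DifferentiableAt ℂ g z) (v : ℂ) :
    fderiv ℝ g z v = deriv g z * v := by
  have h1 : HasFDerivAt g ((ContinuousLinearMap.toSpanSingleton ℂ (deriv g z)).restrictScalars ℝ) z :=
    (h.hasDerivAt.hasFDerivAt).restrictScalars ℝ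
  rw [h1.fderiv]
  simp [mul_comm]

theorem det_real {g : ℂ → ℂ} {z : ℂ} (h : DifferentiableAt ℂ g z) :
    |(fderiv ℝ g z).det| = ‖deriv g z‖ ^ 2 := by
  rw [Chain.det_eq, fderiv_real h, fderiv_real h, mul_one, jac_mul_I, abs_of_nonneg (by positivity)]

end Pull

theorem specPull (hA : SpecAlg) (hC : SpecChain) : SpecPull := by
  intro p hp D D' Ψ H Hx Hy g hNM hD' hg hi hm hd
  have hgd : ∀ z ∈ D', DifferentiableAt ℂ g z := fun z hz =>
    hg.differentiableAt (hD'.mem_nhds hz)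
  have hgs : ContDiffOn ℝ ∞ g D' := (hg.contDiffOn hD').restrict_scalars ℝ
  have hj : ∀ z ∈ D', jac (fderiv ℝ g z 1) (fderiv ℝ g z I) ≠ 0 := by
    intro z hz
    rw [Pull.fderiv_real (hgd z hz), Pull.fderiv_real (hgd z hz), mul_one, Pull.jac_mul_I]
    exact pow_ne_zero 2 (norm_ne_zero_iff.2 (hd z hz))
  obtain ⟨Gx, Gy, hwd, hGe, -⟩ := hC D D' H Hx Hy g hNM.op hD' hNM.co hNM.wd hgs hi hm hj
  have hGx : ∀ z ∈ D', Gx z = lmap (Hx (g z)) (Hy (g z)) (deriv g z) := by
    intro z hz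
    rw [(hGe z hz).1, Pull.fderiv_real (hgd z hz), mul_one]
  have hGy : ∀ z ∈ D', Gy z = lmap (Hx (g z)) (Hy (g z)) (deriv g z * I) := by
    intro z hz
    rw [(hGe z hz).2, Pull.fderiv_real (hgd z hz)]
  have hjac : ∀ z ∈ D', jac (Gx z) (Gy z) = jac (Hx (g z)) (Hy (g z)) * ‖deriv g z‖ ^ 2 := by
    intro z hz
    rw [hGx z hz, hGy z hz, hA.jac_cx]
  refine ⟨Gx, Gy, hD', hNM.co.comp hg.continuousOn hm, hwd, ?_, ?_⟩
  · have h1 := Pull.ae_comp hD' (fun z hz => (hgd z hz).restrictScalars ℝ) hi hm hj hNM.eq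
    rw [ae_restrict_iff' hD'.measurableSet] at h1 ⊢
    filter_upwards [h1] with z hz hzD
    obtain ⟨h2, h3⟩ := hz hzD
    refine ⟨?_, ?_⟩
    · rw [hjac z hzD]
      exact mul_pos h2 (pow_pos (norm_pos_iff.2 (hd z hzD)) 2)
    · rw [hGx z hzD, hGy z hzD, hA.AH_cx _ _ _ _ (hd z hzD), h3]
  · intro η hη
    have h1 := lintegral_image_eq_lintegral_abs_det_fderiv_mul volume hD'.measurableSet
      (f' := fun z => fderiv ℝ g z)
      (fun z hz => ((hgd z hz).restrictScalars ℝ).hasFDerivAt.hasFDerivWithinAt) hi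
      (fun w => η (H w) * ENNReal.ofReal (jac (Hx w) (Hy w)))
    calc ∫⁻ z in D', η (H (g z)) * ENNReal.ofReal (jac (Gx z) (Gy z))
        = ∫⁻ z in D', ENNReal.ofReal |(fderiv ℝ g z).det| *
            (η (H (g z)) * ENNReal.ofReal (jac (Hx (g z)) (Hy (g z)))) := by
          refine setLIntegral_congr_fun hD'.measurableSet fun z hz => ?_
          rw [hjac z hz, Pull.det_real (hgd z hz), ENNReal.ofReal_mul' (by positivity)]
          ring
      _ = ∫⁻ w in g '' D', η (H w) * ENNReal.ofReal (jac (Hx w) (Hy w)) := h1.symm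
      _ ≤ ∫⁻ w in D, η (H w) * ENNReal.ofReal (jac (Hx w) (Hy w)) :=
          lintegral_mono_set (by rintro _ ⟨z, hz, rfl⟩; exact hm hz)
      _ ≤ ∫⁻ w, η w := hNM.mu η hη

end MPfa
end

section
/-!
HALF: half charts.
-/
set_option autoImplicit false

open MeasureTheory Set Filter Topology Metric Complex
open scoped ContDiff ENNReal ComplexConjugate

namespace MPfa

namespace Half

theorem k2_ne (k : ℕ) : (k : ℂ) + 2 ≠ 0 := by
  have : ((k + 2 : ℕ) : ℂ) ≠ 0 := Nat.cast_ne_zero.2 (by omega)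
  push_cast at this
  exact this

theorem a_re (k : ℕ) : ((2 / ((k : ℂ) + 2)) : ℂ) = ((2 / ((k : ℝ) + 2) : ℝ) : ℂ) := by
  push_cast
  ring

theorem hc_pow (k : ℕ) (ζ : ℂ) : hc k ζ ^ (k + 2) = ζ ^ 2 := by
  unfold hc
  rw [← Complex.cpow_mul_nat]
  have : (2 / ((k : ℂ) + 2)) * ((k + 2 : ℕ) : ℂ) = 2 := by
    push_cast
    field_simp [k2_ne k]
  rw [this]
  norm_cast

theorem hc_nrm (k : ℕ) (ζ : ℂ) : ‖hc k ζ‖ ^ (k + 2) = ‖ζ‖ ^ 2 := by
  rw [← norm_pow, hc_pow, norm_pow]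

theorem hc_co (k : ℕ) : ContinuousOn (hc k) {ζ : ℂ | 0 ≤ ζ.re} := by
  intro ζ hζ
  refine (Complex.continuousAt_cpow_const_of_re_pos (Or.inl hζ) ?_).continuousWithinAt
  rw [a_re, Complex.ofReal_re]
  positivity

theorem hc_zero (k : ℕ) : hc k 0 = 0 := by
  unfold hc
  refine Complex.zero_cpow ?_
  exact div_ne_zero two_ne_zero (k2_ne k)

theorem hc_eq_zero {k : ℕ} {ζ : ℂ} (h : hc k ζ = 0) : ζ = 0 := by
  have := hc_pow k ζ
  rw [h, zero_pow (by omega)] at this
  exact (pow_eq_zero_iff two_ne_zero).1 this.symm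

theorem hc_inj (k : ℕ) : InjOn (hc k) {ζ : ℂ | 0 ≤ ζ.re} := by
  intro z hz w hw h
  by_cases hz0 : z = 0
  · rw [hz0, hc_zero] at h
    rw [hz0, hc_eq_zero h.symm]
  by_cases hw0 : w = 0
  · rw [hw0, hc_zero] at h
    rw [hw0, hc_eq_zero h]
  unfold hc at h
  rw [Complex.cpow_def_of_ne_zero hz0, Complex.cpow_def_of_ne_zero hw0, a_re] at h
  have hb : ∀ x : ℂ, 0 ≤ x.re → |(Complex.log x * ((2 / ((k : ℝ) + 2) : ℝ) : ℂ)).im|
      ≤ Real.pi / 2 := by
    intro x hx
    rw [Complex.im_mul_ofReal, Complex.log_im, abs_mul]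
    have h1 : |x.arg| ≤ Real.pi / 2 := Complex.abs_arg_le_pi_div_two_iff.2 hx
    have h2 : |2 / ((k : ℝ) + 2)| ≤ 1 := by
      rw [abs_of_nonneg (by positivity), div_le_one (by positivity)]
      have : (0 : ℝ) ≤ k := Nat.cast_nonneg k
      linarith
    have := mul_le_mul h1 h2 (abs_nonneg _) (by positivity)
    rwa [mul_one] at this
  have hpi := Real.pi_pos
  have hz1 := abs_le.1 (hb z hz)
  have hw1 := abs_le.1 (hb w hw)
  have h2 := Complex.exp_inj_of_neg_pi_lt_of_le_pi (by linarith [hz1.1]) (by linarith [hz1.2])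
    (by linarith [hw1.1]) (by linarith [hw1.2]) h
  have h3 : ((2 / ((k : ℝ) + 2) : ℝ) : ℂ) ≠ 0 := by
    rw [← a_re]
    exact div_ne_zero two_ne_zero (k2_ne k)
  have h4 := mul_right_cancel₀ h3 h2
  rw [← Complex.exp_log hz0, ← Complex.exp_log hw0, h4]

theorem hc_maps (k : ℕ) (r : ℝ) (hr : 0 < r) : MapsTo (hc k) (HDc k r) (ball 0 r) := by
  intro ζ hζ
  rw [mem_ball_zero_iff]
  have h1 : ‖hc k ζ‖ ^ (k + 2) < r ^ (k + 2) := by
    rw [hc_nrm]
    exact hζ.2
  exact lt_of_pow_lt_pow_left₀ _ hr.le h1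

theorem exists_sqrt (W : ℂ) (h : 0 < ‖W‖ + W.re) : ∃ ζ : ℂ, 0 < ζ.re ∧ ζ ^ 2 = W := by
  set s := Real.sqrt (2 * (‖W‖ + W.re)) with hs
  have hs0 : 0 < s := Real.sqrt_pos.2 (by positivity)
  have hs2 : s ^ 2 = 2 * (‖W‖ + W.re) := Real.sq_sqrt (by positivity)
  refine ⟨(W + (‖W‖ : ℂ)) / (s : ℂ), ?_, ?_⟩
  · rw [Complex.div_ofReal_re, Complex.add_re, Complex.ofReal_re]
    exact div_pos (by linarith) hs0
  · rw [div_pow]
    have h1 : (s : ℂ) ^ 2 = 2 * ((‖W‖ : ℂ) + (W.re : ℂ)) := by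
      exact_mod_cast hs2
    have h2 : (s : ℂ) ≠ 0 := Complex.ofReal_ne_zero.2 hs0.ne'
    rw [div_eq_iff (pow_ne_zero 2 h2), h1]
    have h3 : (W.re : ℂ) * 2 = W + conj W := by
      rw [Complex.add_conj]
      push_cast
      ring
    have h4 : W * conj W = (‖W‖ : ℂ) ^ 2 := Complex.mul_conj' W
    linear_combination (-1 : ℂ) * h4 - W * h3

theorem hc_cover (k : ℕ) (w : ℂ) (h : 0 < ‖w‖ ^ (k + 2) + (w ^ (k + 2)).re) :
    ∃ (j : ℕ) (ζ : ℂ), 0 < ζ.re ∧
      w = Complex.exp (2 * Real.pi * I * j / (k + 2)) * hc k ζ := by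
  rw [← norm_pow] at h
  obtain ⟨ζ, hζ, hζ2⟩ := exists_sqrt _ h
  have hζ0 : hc k ζ ≠ 0 := by
    intro h0
    rw [hc_eq_zero h0] at hζ
    simp at hζ
  have h1 : (w / hc k ζ) ^ (k + 2) = 1 := by
    rw [div_pow, hc_pow, hζ2, div_self]
    rw [← hζ2, ← hc_pow k]
    exact pow_ne_zero _ hζ0
  obtain ⟨j, -, hj⟩ := (Complex.isPrimitiveRoot_exp (k + 2) (by omega)).eq_pow_of_pow_eq_one h1
  refine ⟨j, ζ, hζ, ?_⟩
  rw [← Complex.exp_nat_mul] at hj
  rw [eq_div_iff hζ0] at hj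
  rw [← hj]
  congr 2
  push_cast
  ring

theorem HD_open (k : ℕ) (r : ℝ) : IsOpen (HD k r) :=
  (isOpen_lt continuous_const Complex.continuous_re).inter
    (isOpen_lt (continuous_norm.pow 2) continuous_const)

theorem HD_sub (k : ℕ) (r : ℝ) : HD k r ⊆ HDc k r := fun _ h => ⟨h.1.le, h.2⟩

theorem hc_deriv {k : ℕ} {ζ : ℂ} (h : 0 < ζ.re) :
    HasDerivAt (hc k) (2 / ((k : ℂ) + 2) * (hc k ζ / ζ)) ζ := by
  have hs : ζ ∈ Complex.slitPlane := Or.inl h
  have h0 : ζ ≠ 0 := by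
    rintro rfl
    simp at h
  have := (hasStrictDerivAt_id ζ).cpow_const (c := 2 / ((k : ℂ) + 2)) hs
  have h2 := this.hasDerivAt
  simp only [id, mul_one] at h2
  rw [Complex.cpow_sub _ _ h0, Complex.cpow_one] at h2
  exact h2

/-- the composition with the half chart -/
theorem comp_deriv {D : Set ℂ} {Ψ : ℂ → ℂ} {k : ℕ} {t : ℂ} {r : ℝ} {g : ℂ → ℂ}
    (hch : Chart D Ψ k t r g) {ζ : ℂ} (hζ : ζ ∈ HD k r) :
    HasDerivAt (fun ζ => g (hc k ζ))
      (deriv g (hc k ζ) * (2 / ((k : ℂ) + 2) * (hc k ζ / ζ))) ζ := by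
  have h1 : hc k ζ ∈ ball (0:ℂ) r := hc_maps k r hch.r0 (HD_sub k r hζ)
  exact (hch.d.differentiableAt (isOpen_ball.mem_nhds h1)).hasDerivAt.comp ζ (hc_deriv hζ.1)

theorem comp_eq {D : Set ℂ} {Ψ : ℂ → ℂ} {k : ℕ} {t : ℂ} {r : ℝ} {g : ℂ → ℂ}
    (hch : Chart D Ψ k t r g) {ζ : ℂ} (hζ : ζ ∈ HD k r) :
    Ψ (g (hc k ζ)) * deriv (fun ζ => g (hc k ζ)) ζ ^ 2 = 1 := by
  have h1 : hc k ζ ∈ ball (0:ℂ) r := hc_maps k r hch.r0 (HD_sub k r hζ)
  have h0 : ζ ≠ 0 := by
    rintro rfl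
    exact lt_irrefl _ hζ.1
  rw [(comp_deriv hch hζ).deriv]
  have h2 := hch.eq _ h1
  have h3 := hc_pow k ζ
  have h4 := k2_ne k
  calc Ψ (g (hc k ζ)) * (deriv g (hc k ζ) * (2 / ((k : ℂ) + 2) * (hc k ζ / ζ))) ^ 2
      = (Ψ (g (hc k ζ)) * deriv g (hc k ζ) ^ 2) * (2 / ((k : ℂ) + 2)) ^ 2 *
          (hc k ζ ^ 2 / ζ ^ 2) := by ring
    _ = ((((k : ℂ) + 2) / 2) ^ 2 * hc k ζ ^ k) * (2 / ((k : ℂ) + 2)) ^ 2 *
          (hc k ζ ^ 2 / ζ ^ 2) := by rw [h2]
    _ = hc k ζ ^ (k + 2) / ζ ^ 2 := by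
        rw [pow_add]
        field_simp
    _ = 1 := by
        rw [h3, div_self (pow_ne_zero 2 h0)]

theorem e_norm (k : ℕ) (j : ℤ) : ‖Complex.exp (2 * Real.pi * I * j / (k + 2))‖ = 1 := by
  have : (2 * Real.pi * I * j / (k + 2) : ℂ) = ((2 * Real.pi * j / (k + 2) : ℝ) : ℂ) * I := by
    push_cast
    ring
  rw [this, Complex.norm_exp_ofReal_mul_I]

theorem e_pow (k : ℕ) (j : ℤ) : Complex.exp (2 * Real.pi * I * j / (k + 2)) ^ (k + 2) = 1 := by
  rw [← Complex.exp_nat_mul]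
  have : ((k + 2 : ℕ) : ℂ) * (2 * Real.pi * I * j / (k + 2)) = j * (2 * Real.pi * I) := by
    push_cast
    have := k2_ne k
    field_simp
  rw [this, Complex.exp_int_mul_two_pi_mul_I]

theorem rot {D : Set ℂ} {Ψ : ℂ → ℂ} {k : ℕ} {t : ℂ} {r : ℝ} {g : ℂ → ℂ} {j : ℤ}
    (h : Chart D Ψ k t r g) :
    Chart D Ψ k t r (fun w => g (Complex.exp (2 * Real.pi * I * j / (k + 2)) * w)) := by
  set e := Complex.exp (2 * Real.pi * I * j / (k + 2)) with he
  have hn : ‖e‖ = 1 := e_norm k j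
  have hp : e ^ (k + 2) = 1 := e_pow k j
  have he0 : e ≠ 0 := by
    intro h0
    rw [h0, norm_zero] at hn
    exact zero_ne_one hn
  have hm : ∀ w ∈ ball (0:ℂ) r, e * w ∈ ball (0:ℂ) r := by
    intro w hw
    rw [mem_ball_zero_iff] at hw ⊢
    rw [norm_mul, hn, one_mul]
    exact hw
  have hd : ∀ w ∈ ball (0:ℂ) r, HasDerivAt (fun w => g (e * w)) (deriv g (e * w) * e) w := by
    intro w hw
    have h1 := (h.d.differentiableAt (isOpen_ball.mem_nhds (hm w hw))).hasDerivAt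
    have h2 : HasDerivAt (fun w => e * w) e w := by
      simpa using (hasDerivAt_id w).const_mul e
    exact h1.comp w h2
  refine ⟨h.r0, fun w hw => (hd w hw).differentiableAt.differentiableWithinAt, ?_, ?_, ?_, ?_, ?_⟩
  · intro w hw w' hw' heq
    exact mul_left_cancel₀ he0 (h.inj (hm w hw) (hm w' hw') heq)
  · intro w hw
    exact h.maps (hm w hw)
  · simp only [mul_zero]
    exact h.z
  · intro w hw
    rw [(hd w hw).deriv]
    exact mul_ne_zero (h.nd _ (hm w hw)) he0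
  · intro w hw
    rw [(hd w hw).deriv]
    have h1 := h.eq _ (hm w hw)
    calc Ψ (g (e * w)) * (deriv g (e * w) * e) ^ 2
        = (Ψ (g (e * w)) * deriv g (e * w) ^ 2) * e ^ 2 := by ring
      _ = ((((k : ℂ) + 2) / 2) ^ 2 * (e * w) ^ k) * e ^ 2 := by rw [h1]
      _ = (((k : ℂ) + 2) / 2) ^ 2 * w ^ k * e ^ (k + 2) := by ring
      _ = _ := by rw [hp, mul_one]

end Half

theorem specHalf (hP : SpecPull) : SpecHalf := by
  refine ⟨Half.hc_pow, Half.hc_co, Half.hc_inj, Half.hc_nrm, Half.hc_maps, Half.hc_cover, ?_,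
    fun D Ψ k t r g j h => Half.rot h⟩
  intro p hp D Ψ H Hx Hy k t r g hNM hch
  have hm : MapsTo (fun ζ => hc k ζ) (HD k r) (ball 0 r) := fun ζ hζ =>
    Half.hc_maps k r hch.r0 (Half.HD_sub k r hζ)
  obtain ⟨Gx, Gy, h⟩ := hP p hp D (HD k r) Ψ H Hx Hy (fun ζ => g (hc k ζ)) hNM
    (Half.HD_open k r)
    (fun ζ hζ => (Half.comp_deriv hch hζ).differentiableAt.differentiableWithinAt)
    (fun ζ hζ ζ' hζ' heq => Half.hc_inj k hζ.1.le hζ'.1.le (hch.inj (hm hζ) (hm hζ') heq))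
    (fun ζ hζ => hch.maps (hm hζ)) (by
      intro ζ hζ
      rw [(Half.comp_deriv hch hζ).deriv]
      have h0 : ζ ≠ 0 := by
        rintro rfl
        exact lt_irrefl _ hζ.1
      refine mul_ne_zero (hch.nd _ (hm hζ)) (mul_ne_zero
        (div_ne_zero two_ne_zero (Half.k2_ne k)) (div_ne_zero ?_ h0))
      intro h1
      exact h0 (Half.hc_eq_zero h1))
  refine ⟨Gx, Gy, h.op, h.co, h.wd, ?_, h.mu⟩
  have h1 := h.eq
  rw [ae_restrict_iff' (Half.HD_open k r).measurableSet] at h1 ⊢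
  filter_upwards [h1] with ζ hζ hζD
  refine ⟨(hζ hζD).1, ?_⟩
  rw [(hζ hζD).2]
  exact Half.comp_eq hch hζD

end MPfa
end

section
/-!
Module WEYL: `L¹` weak solutions of `∂̄ u = 0` are holomorphic.
-/
set_option autoImplicit false

open MeasureTheory Set Filter Topology Metric Complex
open scoped ContDiff ENNReal ComplexConjugate

namespace MPfa.Mol

/-- the constant of the mean value inequality -/
noncomputable def mc (δ : ℝ) : ℝ≥0∞ :=
  ENNReal.ofReal (δ / 2) * (ENNReal.ofReal (δ / 2) * ENNReal.ofReal (2 * Real.pi))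

theorem mc_pos {δ : ℝ} (hδ : 0 < δ) : mc δ ≠ 0 := by
  unfold mc
  have h1 : ENNReal.ofReal (δ / 2) ≠ 0 := (ENNReal.ofReal_pos.2 (by positivity)).ne'
  have h2 : ENNReal.ofReal (2 * Real.pi) ≠ 0 := (ENNReal.ofReal_pos.2 (by positivity)).ne'
  exact mul_ne_zero h1 (mul_ne_zero h1 h2)

theorem mc_top (δ : ℝ) : mc δ ≠ ⊤ := by
  unfold mc
  finiteness

theorem circle_le {f : ℂ → ℂ} {z : ℂ} {δ s : ℝ} (hs : 0 < s) (hsδ : s < δ)
    (hf : DifferentiableOn ℂ f (ball z δ)) :
    ENNReal.ofReal (2 * Real.pi) * ‖f z‖ₑ ≤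
      ∫⁻ θ in Ioo (0 : ℝ) (2 * Real.pi), ‖f (circleMap z s θ)‖ₑ := by
  have hcl : closedBall z s ⊆ ball z δ := closedBall_subset_ball hsδ
  have h1 : DiffContOnCl ℂ f (ball z |s|) := by
    rw [abs_of_pos hs]
    refine DifferentiableOn.diffContOnCl ?_
    rw [closure_ball z hs.ne']
    exact hf.mono hcl
  have h2 := h1.circleAverage
  rw [Real.circleAverage_def] at h2
  have h3 : (2 * Real.pi : ℝ) • f z = ∫ θ in (0 : ℝ)..2 * Real.pi, f (circleMap z s θ) := by
    rw [← h2, smul_smul, mul_inv_cancel₀ (by positivity), one_smul]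
  calc ENNReal.ofReal (2 * Real.pi) * ‖f z‖ₑ = ‖(2 * Real.pi : ℝ) • f z‖ₑ := by
        rw [enorm_smul, Real.enorm_of_nonneg (by positivity)]
    _ = ‖∫ θ in (0 : ℝ)..2 * Real.pi, f (circleMap z s θ)‖ₑ := by rw [h3]
    _ ≤ ∫⁻ θ in Ioc (0 : ℝ) (2 * Real.pi), ‖f (circleMap z s θ)‖ₑ := by
        rw [intervalIntegral.integral_of_le (by positivity)]
        exact enorm_integral_le_lintegral_enorm _
    _ = _ := setLIntegral_congr Ioo_ae_eq_Ioc.symm

/-- the mean value inequality for holomorphic functions -/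
theorem mean_le {f : ℂ → ℂ} {z : ℂ} {δ : ℝ} (hδ : 0 < δ)
    (hf : DifferentiableOn ℂ f (ball z δ)) :
    mc δ * ‖f z‖ₑ ≤ ∫⁻ w in ball z δ, ‖f w‖ₑ := by
  have hm : Measurable ((ball z δ).indicator fun w => ‖f w‖ₑ) := by
    refine measurable_of_isOpen fun U hU => ?_
    have hc : ContinuousOn (fun w => ‖f w‖ₑ) (ball z δ) := hf.continuousOn.enorm
    by_cases h0 : (0 : ℝ≥0∞) ∈ U
    · have e : (ball z δ).indicator (fun w => ‖f w‖ₑ) ⁻¹' U =
          (ball z δ ∩ (fun w => ‖f w‖ₑ) ⁻¹' U) ∪ (ball z δ)ᶜ := by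
        ext w
        by_cases hw : w ∈ ball z δ
        · simp [hw]
        · simp [hw, h0]
      rw [e]
      exact (hc.isOpen_inter_preimage isOpen_ball hU).measurableSet.union
        isOpen_ball.measurableSet.compl
    · have e : (ball z δ).indicator (fun w => ‖f w‖ₑ) ⁻¹' U =
          (ball z δ ∩ (fun w => ‖f w‖ₑ) ⁻¹' U) := by
        ext w
        by_cases hw : w ∈ ball z δ
        · simp [hw]
        · simp [hw, h0]
      rw [e]
      exact (hc.isOpen_inter_preimage isOpen_ball hU).measurableSet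
  rw [← lintegral_indicator isOpen_ball.measurableSet, specPol z _ hm]
  have h1 : ∀ r ∈ Ioo (δ / 2) δ, ENNReal.ofReal (δ / 2) * (ENNReal.ofReal (2 * Real.pi) * ‖f z‖ₑ) ≤
      ∫⁻ θ in Ioo (0 : ℝ) (2 * Real.pi), ENNReal.ofReal r *
        (ball z δ).indicator (fun w => ‖f w‖ₑ) (circleMap z r θ) := by
    intro r hr
    rw [lintegral_const_mul' _ _ ENNReal.ofReal_ne_top]
    have hr0 : 0 < r := by linarith [hr.1]
    gcongr
    · exact hr.1.le
    · refine (circle_le hr0 hr.2 hf).trans (le_of_eq ?_)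
      apply setLIntegral_congr_fun measurableSet_Ioo
      intro θ _
      simp only
      rw [indicator_of_mem]
      rw [mem_ball, dist_eq]
      simp only [circleMap_sub_center]
      rw [norm_circleMap_zero, abs_of_pos hr0]
      exact hr.2
  calc mc δ * ‖f z‖ₑ
      = ENNReal.ofReal (δ / 2) * (ENNReal.ofReal (2 * Real.pi) * ‖f z‖ₑ) *
          volume (Ioo (δ / 2) δ) := by
        rw [Real.volume_Ioo, show δ - δ / 2 = δ / 2 by ring]
        unfold mc
        ring
    _ = ∫⁻ r in Ioo (δ / 2) δ, ENNReal.ofReal (δ / 2) *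
          (ENNReal.ofReal (2 * Real.pi) * ‖f z‖ₑ) := by rw [setLIntegral_const]
    _ ≤ ∫⁻ r in Ioo (δ / 2) δ, ∫⁻ θ in Ioo (0 : ℝ) (2 * Real.pi), ENNReal.ofReal r *
        (ball z δ).indicator (fun w => ‖f w‖ₑ) (circleMap z r θ) :=
        setLIntegral_mono' measurableSet_Ioo h1
    _ ≤ _ := lintegral_mono_set fun r hr => by
        show 0 < r
        linarith [hr.1]

theorem weyl_local {X : Set ℂ} {u : ℂ → ℂ} (hu : LI X u)
    (hw : ∀ η : ℂ → ℂ, ContDiff ℝ ∞ η → HasCompactSupport η → tsupport η ⊆ X →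
      ∫ z, u z * (fderiv ℝ η z 1 + I * fderiv ℝ η z I) = 0) (z₀ : ℂ) (r : ℝ) (hr : 0 < r)
    (hX : closedBall z₀ (3 * r) ⊆ X) :
    ∃ Φ : ℂ → ℂ, DifferentiableOn ℂ Φ (ball z₀ r) ∧
      ∀ᵐ z ∂(volume.restrict (ball z₀ r)), u z = Φ z := by
  set K := closedBall z₀ (3 * r) with hK
  have hKc : IsCompact K := isCompact_closedBall _ _
  have hKm : MeasurableSet K := hKc.measurableSet
  have huK : IntegrableOn u K := hu K hX hKc
  set v := K.indicator u with hv
  have hvi : Integrable v := (integrable_indicator_iff hKm).2 huK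
  have hvl : LocallyIntegrable v := hvi.locallyIntegrable
  obtain ⟨N, hN⟩ := (wd_tendsto.eventually (gt_mem_nhds hr)).exists
  have hball : ∀ n, ∀ x ∈ ball z₀ (2 * r), closedBall x (wd (n + N)) ⊆ K := by
    intro n x hx y hy
    rw [mem_ball] at hx
    rw [mem_closedBall] at hy
    rw [hK, mem_closedBall]
    have h1 : wd (n + N) ≤ r := (wd_anti (Nat.le_add_left N n)).trans hN.le
    have := dist_triangle y x z₀
    linarith
  set w : ℕ → ℂ → ℂ := fun n => mol (n + N) v with hwdef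
  have hws : ∀ n, ContDiff ℝ ∞ (w n) := fun n => mol_sm _ hvl
  -- holomorphy
  have hol : ∀ n, DifferentiableOn ℂ (w n) (ball z₀ (2 * r)) := by
    intro n x hx
    refine DifferentiableAt.differentiableWithinAt ?_
    rw [differentiableAt_complex_iff_differentiableAt_real]
    refine ⟨(hws n).differentiable (by simp) x, ?_⟩
    have hb := hball n x hx
    -- the test function
    set η : ℂ → ℂ := fun y => ((rho (n + N) (x - y) : ℝ) : ℂ) with hη
    have hT := test_rho (n + N) x (hb.trans hX)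
    have hηd : ∀ y e, fderiv ℝ η y e = -((fderiv ℝ (rho (n + N)) (x - y) e : ℝ) : ℂ) := by
      intro y e
      have h1 : HasFDerivAt (fun y => rho (n + N) (x - y))
          (fderiv ℝ (fun y => rho (n + N) (x - y)) y) y :=
        (hT.sm.differentiable (by simp) y).hasFDerivAt
      have h2 := Complex.ofRealCLM.hasFDerivAt.comp y h1
      have h3 : fderiv ℝ η y = Complex.ofRealCLM.comp
          (fderiv ℝ (fun y => rho (n + N) (x - y)) y) := h2.fderiv
      rw [h3, ContinuousLinearMap.comp_apply, fderiv_rho_sub]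
      simp
    have hηs : tsupport η ⊆ tsupport fun y => rho (n + N) (x - y) := by
      refine closure_mono ?_
      intro y hy h0
      apply hy
      simp only at h0
      simp only [hη]
      rw [h0, ofReal_zero]
    have h0 := hw η (Complex.ofRealCLM.contDiff.comp hT.sm) (hT.cs.comp_left ofReal_zero)
      (hηs.trans hT.su)
    have e1 := mol_fderiv (n + N) hvl x 1
    have eI := mol_fderiv (n + N) hvl x I
    have i1 := mol_fderiv_int (n + N) hvl x 1
    have iI := mol_fderiv_int (n + N) hvl x I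
    have h2 : fderiv ℝ (w n) x 1 + I * fderiv ℝ (w n) x I = 0 := by
      simp only [hwdef]
      rw [e1, eI, ← integral_const_mul, ← integral_add i1 (iI.const_mul I), ← neg_eq_zero,
        ← integral_neg, ← h0]
      congr 1
      funext y
      rw [hηd, hηd]
      by_cases hy : y ∈ K
      · rw [hv, indicator_of_mem hy]
        simp only [real_smul]
        ring
      · have h3 : wd (n + N) < ‖x - y‖ := by
          by_contra hc
          exact hy (hb (by rw [mem_closedBall, dist_comm, dist_eq]; linarith))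
        rw [fderiv_rho_zero h3]
        simp
    rw [smul_eq_mul]
    linear_combination (-I) * h2 + (fderiv ℝ (w n) x I) * I_mul_I
  -- convergence in L¹
  have hlim : Tendsto (fun n => ∫⁻ x, ‖w n x - v x‖ₑ) atTop (𝓝 0) := by
    have h1 : MemLp v ((1 : ℕ) : ℝ≥0∞) volume := by
      simpa using memLp_one_iff_integrable.2 hvi
    have := (tendsto_mol (p := 1) (Or.inl rfl) h1).comp (tendsto_add_atTop_nat N)
    refine this.congr fun n => ?_
    simp [hwdef, Function.comp]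
  have hsub : ∀ x ∈ ball z₀ r, ball x r ⊆ ball z₀ (2 * r) := by
    intro x hx y hy
    rw [mem_ball] at *
    have := dist_triangle y x z₀
    linarith
  have hunif : UniformCauchySeqOn w atTop (ball z₀ r) := by
    rw [Metric.uniformCauchySeqOn_iff]
    intro ε hε
    have hc : 0 < mc r * ENNReal.ofReal ε / 2 := by
      apply ENNReal.div_pos _ (by norm_num)
      exact mul_ne_zero (mc_pos hr) (ENNReal.ofReal_pos.2 hε).ne'
    obtain ⟨M, hM⟩ := eventually_atTop.1 (hlim.eventually (gt_mem_nhds hc))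
    refine ⟨M, fun m hm n hn x hx => ?_⟩
    have h1 : mc r * ‖w m x - w n x‖ₑ ≤ ∫⁻ y in ball x r, ‖w m y - w n y‖ₑ :=
      mean_le (f := fun y => w m y - w n y) hr
        (((hol m).mono (hsub x hx)).sub ((hol n).mono (hsub x hx)))
    have h2 : ∫⁻ y in ball x r, ‖w m y - w n y‖ₑ < mc r * ENNReal.ofReal ε := by
      calc ∫⁻ y in ball x r, ‖w m y - w n y‖ₑ
          ≤ ∫⁻ y, ‖w m y - w n y‖ₑ := setLIntegral_le_lintegral _ _
        _ ≤ ∫⁻ y, (‖w m y - v y‖ₑ + ‖w n y - v y‖ₑ) := by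
            refine lintegral_mono fun y => ?_
            have : w m y - w n y = (w m y - v y) - (w n y - v y) := by ring
            rw [this]
            exact enorm_sub_le
        _ = (∫⁻ y, ‖w m y - v y‖ₑ) + ∫⁻ y, ‖w n y - v y‖ₑ := by
            apply lintegral_add_left'
            exact ((hws m).continuous.aestronglyMeasurable.sub
              hvi.aestronglyMeasurable).enorm
        _ < mc r * ENNReal.ofReal ε / 2 + mc r * ENNReal.ofReal ε / 2 :=
            ENNReal.add_lt_add (hM m hm) (hM n hn)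
        _ = _ := ENNReal.add_halves _
    have h3 : mc r * ‖w m x - w n x‖ₑ < mc r * ENNReal.ofReal ε := h1.trans_lt h2
    have h4 : ‖w m x - w n x‖ₑ < ENNReal.ofReal ε := lt_of_mul_lt_mul_left' h3
    rw [← ofReal_norm, ENNReal.ofReal_lt_ofReal_iff hε] at h4
    rwa [dist_eq]
  -- the limit
  have hex : ∀ x, ∃ l, x ∈ ball z₀ r → Tendsto (fun n => w n x) atTop (𝓝 l) := by
    intro x
    by_cases hx : x ∈ ball z₀ r
    · obtain ⟨l, hl⟩ := cauchySeq_tendsto_of_complete (hunif.cauchySeq hx)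
      exact ⟨l, fun _ => hl⟩
    · exact ⟨0, fun h => absurd h hx⟩
  choose Φ hΦ using hex
  have hun : TendstoUniformlyOn w Φ atTop (ball z₀ r) :=
    hunif.tendstoUniformlyOn_of_tendsto hΦ
  have hsub2 : ball z₀ r ⊆ ball z₀ (2 * r) := ball_subset_ball (by linarith)
  refine ⟨Φ, hun.tendstoLocallyUniformlyOn.differentiableOn
    (Eventually.of_forall fun n => (hol n).mono hsub2) isOpen_ball, ?_⟩
  have hBK : ball z₀ r ⊆ K := ball_subset_closedBall.trans (closedBall_subset_closedBall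
    (by linarith))
  have hF : ∫⁻ z in ball z₀ r, liminf (fun n => ‖w n z - v z‖ₑ) atTop ≤
      liminf (fun n => ∫⁻ z in ball z₀ r, ‖w n z - v z‖ₑ) atTop :=
    lintegral_liminf_le' fun n => ((hws n).continuous.aestronglyMeasurable.sub
      hvi.aestronglyMeasurable).enorm.restrict
  have hl0 : Tendsto (fun n => ∫⁻ z in ball z₀ r, ‖w n z - v z‖ₑ) atTop (𝓝 0) :=
    tendsto_of_tendsto_of_tendsto_of_le_of_le tendsto_const_nhds hlim (fun _ => zero_le)
      fun n => setLIntegral_le_lintegral _ _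
  rw [hl0.liminf_eq] at hF
  have hF0 := le_antisymm hF zero_le
  have e2 : ∫⁻ z in ball z₀ r, ‖Φ z - v z‖ₑ = 0 := by
    rw [← hF0]
    apply setLIntegral_congr_fun measurableSet_ball
    intro z hz
    have : Tendsto (fun n => ‖w n z - v z‖ₑ) atTop (𝓝 ‖Φ z - v z‖ₑ) :=
      (continuous_enorm.tendsto _).comp ((hΦ z hz).sub_const (v z))
    exact this.liminf_eq.symm
  have hΦm : AEStronglyMeasurable Φ (volume.restrict (ball z₀ r)) :=
    (hun.continuousOn (Frequently.of_forall fun n =>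
      (hws n).continuous.continuousOn)).aestronglyMeasurable measurableSet_ball
  have hΦm2 : AEMeasurable (fun z => ‖Φ z - v z‖ₑ) (volume.restrict (ball z₀ r)) :=
    (hΦm.sub hvi.aestronglyMeasurable.restrict).enorm
  rw [lintegral_eq_zero_iff' hΦm2] at e2
  filter_upwards [e2, ae_restrict_mem measurableSet_ball] with z hz hzb
  simp only [Pi.zero_apply, enorm_eq_zero, sub_eq_zero] at hz
  rw [hz, hv, indicator_of_mem (hBK hzb)]

end MPfa.Mol

namespace MPfa

theorem specWeyl : SpecWeyl := by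
  intro X u hX hu hw
  have hloc : ∀ z : ℂ, ∃ (r : ℝ) (Φ : ℂ → ℂ), z ∈ X → 0 < r ∧ ball z r ⊆ X ∧
      DifferentiableOn ℂ Φ (ball z r) ∧ ∀ᵐ x ∂(volume.restrict (ball z r)), u x = Φ x := by
    intro z
    by_cases hz : z ∈ X
    · obtain ⟨ρ, hρ, hρX⟩ := Metric.isOpen_iff.1 hX z hz
      have h1 : closedBall z (3 * (ρ / 4)) ⊆ X :=
        (closedBall_subset_ball (by linarith)).trans hρX
      obtain ⟨Φ, h2, h3⟩ := Mol.weyl_local hu hw z (ρ / 4) (by positivity) h1
      exact ⟨ρ / 4, Φ, fun _ => ⟨by positivity, (ball_subset_ball (by linarith)).trans hρX, h2,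
        h3⟩⟩
    · exact ⟨0, fun _ => 0, fun h => absurd h hz⟩
  choose r Φ h using hloc
  -- local functions agree
  have hagree : ∀ a ∈ X, ∀ b ∈ X, EqOn (Φ a) (Φ b) (ball a (r a) ∩ ball b (r b)) := by
    intro a ha b hb
    obtain ⟨-, -, da, ea⟩ := h a ha
    obtain ⟨-, -, db, eb⟩ := h b hb
    have hO : IsOpen (ball a (r a) ∩ ball b (r b)) := isOpen_ball.inter isOpen_ball
    refine Measure.eqOn_open_of_ae_eq (μ := volume) ?_ hO
      (da.continuousOn.mono inter_subset_left) (db.continuousOn.mono inter_subset_right)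
    have e1 := ae_restrict_of_ae_restrict_of_subset (inter_subset_left
      (s := ball a (r a)) (t := ball b (r b))) ea
    have e2 := ae_restrict_of_ae_restrict_of_subset (inter_subset_right
      (s := ball a (r a)) (t := ball b (r b))) eb
    filter_upwards [e1, e2] with x h1 h2
    rw [← h1, ← h2]
  set Ψ : ℂ → ℂ := fun z => Φ z z with hΨ
  have hΨe : ∀ a ∈ X, EqOn Ψ (Φ a) (ball a (r a)) := by
    intro a ha x hx
    have hxX : x ∈ X := (h a ha).2.1 hx
    exact hagree x hxX a ha ⟨mem_ball_self (h x hxX).1, hx⟩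
  refine ⟨Ψ, ?_, ?_⟩
  · intro a ha
    refine DifferentiableAt.differentiableWithinAt ?_
    have hr := (h a ha).1
    have h1 : DifferentiableAt ℂ (Φ a) a :=
      (h a ha).2.2.1.differentiableAt (ball_mem_nhds a hr)
    refine h1.congr_of_eventuallyEq ?_
    filter_upwards [ball_mem_nhds a hr] with x hx
    exact hΨe a ha hx
  · rw [ae_restrict_iff' hX.measurableSet, ae_iff]
    apply measure_null_of_locally_null
    intro a ha
    simp only [mem_ofPred_eq, Classical.not_imp] at ha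
    obtain ⟨haX, -⟩ := ha
    obtain ⟨hr, -, -, he⟩ := h a haX
    rw [ae_restrict_iff' measurableSet_ball, ae_iff] at he
    refine ⟨{z | ¬(z ∈ X → u z = Ψ z)} ∩ ball a (r a), inter_mem_nhdsWithin _
      (ball_mem_nhds a hr), ?_⟩
    refine measure_mono_null ?_ he
    rintro x ⟨hx1, hx2⟩
    simp only [mem_ofPred_eq, Classical.not_imp] at hx1 ⊢
    refine ⟨hx2, ?_⟩
    rw [← hΨe a haX hx2]
    exact hx1.2

end MPfa
end
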