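import Pool.Agent.Lib.MP_fa0334_an.Spec

section
/-!
Module NOCOLL: assembly of the no-collapse part.
-/
set_option autoImplicit false

open MeasureTheory Set Filter Topology Metric Complex
open scoped ContDiff ENNReal ComplexConjugate

namespace MPfa

theorem specNoColl (hRM : SpecRM) (hPull : SpecPull) (hFat : SpecFat) (hInt : SpecIntF)
    (hUC : SpecUC) (hBF : SpecBF) (hLim : SpecLim) (hFrc : SpecFrc) : SpecNoColl := by
  intro p hp X Y b h hx hy Φ hD hL hN hΦ hne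
  obtain ⟨ψ, χ, hψ, hχ, hbij, hinv, hder⟩ := hRM X Y b hD
  obtain ⟨Gx, Gy, hG⟩ := hPull p hp X (ball 0 1) Φ h hx hy ψ hN isOpen_ball hψ hbij.injOn
    hbij.mapsTo hder
  obtain ⟨hc, hm, hfb, hs, hfr, -, -⟩ := hLim X Y b h hD hL
  obtain ⟨-, -, -, hvol⟩ := hFrc X Y b hD
  have hXc : X ⊆ closure X := subset_closure
  have hfX : ∀ z ∈ closure X, z ∉ X → z ∈ frontier X := by
    intro z hz hzX
    rw [frontier, hD.oX.interior_eq]
    exact ⟨hz, hzX⟩
  have hfY : ∀ z ∈ frontier Y, z ∉ Y := by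
    intro z hz
    rw [frontier, hD.oY.interior_eq] at hz
    exact hz.2
  have hU : ∀ z ∈ closure X, h z ∈ Y → z ∈ X := by
    intro z hz hzY
    by_contra hzX
    exact hfY _ (hfr (hfX z hz hzX)) hzY
  have hψc : ContinuousOn ψ (ball 0 1) := hψ.continuousOn
  have hχc : ContinuousOn χ X := hχ.continuousOn
  have hΨd : DifferentiableOn ℂ (fun z => Φ (ψ z) * deriv ψ z ^ 2) (ball 0 1) :=
    (hΦ.comp hψ hbij.mapsTo).mul ((hψ.deriv isOpen_ball).pow 2)
  have hΨn : ∃ z ∈ ball (0 : ℂ) 1, Φ (ψ z) * deriv ψ z ^ 2 ≠ 0 := by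
    obtain ⟨x, hx, hxn⟩ := hne
    obtain ⟨z, hz, rfl⟩ := hbij.surjOn hx
    exact ⟨z, hz, mul_ne_zero hxn (pow_ne_zero _ (hder z hz))⟩
  have hfat1 : ∀ c : ℂ, (∃ z ∈ ball (0 : ℂ) 1, ∃ z' ∈ ball (0 : ℂ) 1, z ≠ z' ∧ h (ψ z) = c ∧
      h (ψ z') = c) ∨ c ∈ frontier Y → Fat (ball 0 1) (fun z => h (ψ z)) c :=
    fun c hcc => hFat X Y b h ψ χ c hD hL hψc hχc hbij hinv hcc
  -- fibres over `Y` are points
  have hinj : InjOn h {z | z ∈ X ∧ h z ∈ Y} := by
    rintro x ⟨hxX, hxY⟩ x' ⟨hx'X, hx'Y⟩ hxx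
    by_contra hne'
    obtain ⟨z, hz, rfl⟩ := hbij.surjOn hxX
    obtain ⟨z', hz', rfl⟩ := hbij.surjOn hx'X
    have hzz : z ≠ z' := fun h1 => hne' (by rw [h1])
    set c := h (ψ z) with hcdef
    have hK : IsCompact {x | x ∈ closure X ∧ h x = c} := by
      have h1 : {x | x ∈ closure X ∧ h x = c} = closure X ∩ h ⁻¹' {c} := by
        ext x; simp
      rw [h1]
      exact hD.cX.of_isClosed_subset
        (hc.preimage_isClosed_of_isClosed isClosed_closure isClosed_singleton) inter_subset_left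
    have hKX : {x | x ∈ closure X ∧ h x = c} ⊆ X := by
      rintro x ⟨hx1, hx2⟩
      exact hU x hx1 (by rw [hx2]; exact hxY)
    have hK2 : {z : ℂ | z ∈ ball (0 : ℂ) 1 ∧ h (ψ z) = c} = χ '' {x | x ∈ closure X ∧ h x = c} := by
      ext z
      constructor
      · rintro ⟨hz1, hz2⟩
        exact ⟨ψ z, ⟨hXc (hbij.mapsTo hz1), hz2⟩, hinv z hz1⟩
      · rintro ⟨x, hx1, rfl⟩
        obtain ⟨w, hw, rfl⟩ := hbij.surjOn (hKX hx1)
        rw [hinv w hw]
        exact ⟨hw, hx1.2⟩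
    have hKc : IsCompact {z : ℂ | z ∈ ball (0 : ℂ) 1 ∧ h (ψ z) = c} := by
      rw [hK2]
      exact hK.image_of_continuousOn (hχc.mono hKX)
    exact hInt p hp _ _ Gx Gy c hG hΨd hΨn hKc
      (hfat1 c (Or.inl ⟨z, hz, z', hz', hzz, rfl, hxx.symm⟩)) z hz rfl
  -- the set over `Y`
  have hconn : IsPreconnected {z : ℂ | z ∈ ball (0 : ℂ) 1 ∧ h (ψ z) ∈ Y} := by
    have h1 : {z : ℂ | z ∈ ball (0 : ℂ) 1 ∧ h (ψ z) ∈ Y} = χ '' {x | x ∈ X ∧ h x ∈ Y} := by
      ext z
      constructor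
      · rintro ⟨hz1, hz2⟩
        exact ⟨ψ z, ⟨hbij.mapsTo hz1, hz2⟩, hinv z hz1⟩
      · rintro ⟨x, hx1, rfl⟩
        obtain ⟨w, hw, rfl⟩ := hbij.surjOn hx1.1
        rw [hinv w hw]
        exact ⟨hw, hx1.2⟩
    rw [h1]
    exact (hUC X Y b h hD hL hinj).image χ (hχc.mono fun x hx => hx.1)
  have hmaps : MapsTo (fun z => h (ψ z)) (ball 0 1) Y :=
    hBF p hp Y _ _ Gx Gy hG hΨd hΨn hD.oY (fun z hz => hm (hXc (hbij.mapsTo hz))) hvol hconn
      (fun c hcY => hfat1 c (Or.inr hcY))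
  have hXY : MapsTo h X Y := by
    intro x hx
    obtain ⟨z, hz, rfl⟩ := hbij.surjOn hx
    exact hmaps hz
  have hinjX : InjOn h X := fun x hx x' hx' he => hinj ⟨hx, hXY hx⟩ ⟨hx', hXY hx'⟩ he
  refine ⟨hc, ⟨hm, ?_, hs⟩, ⟨hXY, hinjX, ?_⟩, hfb⟩
  · intro x hx x' hx' he
    by_cases h1 : x ∈ X
    · by_cases h2 : x' ∈ X
      · exact hinjX h1 h2 he
      · exact absurd (he ▸ hXY h1) (hfY _ (hfr (hfX x' hx' h2)))
    · by_cases h2 : x' ∈ X
      · exact absurd (he.symm ▸ hXY h2) (hfY _ (hfr (hfX x hx h1)))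
      · have h3 := hfX x hx h1
        have h4 := hfX x' hx' h2
        rw [hfb h3, hfb h4] at he
        exact hD.bi.injOn hx hx' he
  · intro c hcY
    obtain ⟨x, hx, hxc⟩ := hs (subset_closure hcY)
    exact ⟨x, hU x hx (hxc ▸ hcY), hxc⟩

end MPfa
end

section
/-!
Problem MP_fa0334_an, module OSC: oscillation estimates on discs for maps with the boundary
principle.
-/
set_option autoImplicit false

open MeasureTheory Set Filter Topology Metric Complex
open scoped ContDiff ENNReal ComplexConjugate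

namespace MPfa

namespace OscAux

lemma lmap_apply (a b m : ℂ) : lmap a b m = (m.re : ℂ) * a + (m.im : ℂ) * b := by
  simp [lmap]

lemma norm_lmap_le (a b m : ℂ) : ‖lmap a b m‖ ≤ ‖m‖ * (‖a‖ + ‖b‖) := by
  rw [lmap_apply]
  calc ‖(m.re : ℂ) * a + (m.im : ℂ) * b‖ ≤ ‖(m.re : ℂ) * a‖ + ‖(m.im : ℂ) * b‖ := norm_add_le _ _
    _ = |m.re| * ‖a‖ + |m.im| * ‖b‖ := by
        rw [norm_mul, norm_mul, Complex.norm_real, Complex.norm_real, Real.norm_eq_abs,
          Real.norm_eq_abs]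
    _ ≤ ‖m‖ * ‖a‖ + ‖m‖ * ‖b‖ :=
        add_le_add (mul_le_mul_of_nonneg_right (Complex.abs_re_le_norm m) (norm_nonneg a))
          (mul_le_mul_of_nonneg_right (Complex.abs_im_le_norm m) (norm_nonneg b))
    _ = _ := by ring

lemma norm_lmap_sq_le (a b m : ℂ) : ‖lmap a b m‖ ^ 2 ≤ ‖m‖ ^ 2 * (‖a‖ ^ 2 + ‖b‖ ^ 2) := by
  have h1 : ‖lmap a b m‖ ≤ |m.re| * ‖a‖ + |m.im| * ‖b‖ := by
    rw [lmap_apply]
    calc ‖(m.re : ℂ) * a + (m.im : ℂ) * b‖ ≤ ‖(m.re : ℂ) * a‖ + ‖(m.im : ℂ) * b‖ :=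
          norm_add_le _ _
      _ = |m.re| * ‖a‖ + |m.im| * ‖b‖ := by
          rw [norm_mul, norm_mul, Complex.norm_real, Complex.norm_real, Real.norm_eq_abs,
            Real.norm_eq_abs]
  have h2 : ‖m‖ ^ 2 = |m.re| ^ 2 + |m.im| ^ 2 := by
    rw [← Complex.normSq_eq_norm_sq, Complex.normSq_apply, sq_abs, sq_abs]
    ring
  have h3 := pow_le_pow_left₀ (norm_nonneg _) h1 2
  rw [h2]
  nlinarith [sq_nonneg (|m.re| * ‖b‖ - |m.im| * ‖a‖)]

/-- Cauchy-Schwarz for a finite measure -/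
lemma cs_const {α : Type*} [MeasurableSpace α] (μ : Measure α) (f : α → ℝ≥0∞)
    (hf : AEMeasurable f μ) : (∫⁻ a, f a ∂μ) ^ 2 ≤ μ univ * ∫⁻ a, f a ^ 2 ∂μ := by
  have h := ENNReal.lintegral_mul_le_Lp_mul_Lq μ Real.HolderConjugate.two_two
    (f := fun _ => 1) (g := f) aemeasurable_const hf
  simp only [Pi.mul_apply, one_mul, ENNReal.one_rpow, lintegral_one] at h
  have h2 := ENNReal.pow_le_pow_left h (n := 2)
  refine h2.trans (le_of_eq ?_)
  rw [mul_pow]
  have e : ∀ x : ℝ≥0∞, (x ^ (1 / 2 : ℝ)) ^ 2 = x := by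
    intro x
    rw [← ENNReal.rpow_natCast, ← ENNReal.rpow_mul]
    norm_num
  rw [e, e]
  congr 1
  apply lintegral_congr
  intro a
  rw [← ENNReal.rpow_natCast]
  norm_num

/-- the length of the image of a circle -/
noncomputable def Len (Fx Fy : ℂ → ℂ) (c : ℂ) (r : ℝ) : ℝ≥0∞ :=
  ∫⁻ θ in Ioo 0 (2 * Real.pi), ‖lmap (Fx (circleMap c r θ)) (Fy (circleMap c r θ))
    (circleMap 0 r θ * I)‖ₑ

/-- the image of a disc is controlled by the length of the image of its boundary circle -/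
lemma osc_le_len (hCirc : SpecCirc) {G : Set ℂ} {F Fx Fy : ℂ → ℂ} (hM : Mon G F Fx Fy) {c : ℂ}
    {R : ℝ} (hR : closedBall c R ⊆ G) :
    ∀ᵐ r : ℝ, 0 < r → r < R → ∀ z ∈ ball c r, ∀ z' ∈ ball c r,
      ENNReal.ofReal ‖F z - F z'‖ ≤ Len Fx Fy c r := by
  filter_upwards [hCirc G F Fx Fy c hM.op hM.co hM.wd] with r hr hr0 hrR z hz z' hz'
  have hmem : ∀ θ : ℝ, circleMap c r θ ∈ G := fun θ =>
    hR (closedBall_subset_closedBall hrR.le (circleMap_mem_closedBall c hr0.le θ))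
  set g : ℝ → ℂ := fun θ => lmap (Fx (circleMap c r θ)) (Fy (circleMap c r θ))
    (circleMap 0 r θ * I) with hg
  have hlen : Len Fx Fy c r = ∫⁻ θ in Ioc 0 (2 * Real.pi), ‖g θ‖ₑ := by
    rw [Len, Measure.restrict_congr_set Ioo_ae_eq_Ioc]
  by_cases hfin : Len Fx Fy c r = ⊤
  · rw [hfin]
    exact le_top
  have hhalf : ∀ θ ∈ Icc 0 (2 * Real.pi),
      ‖F (circleMap c r θ) - F (circleMap c r 0)‖ ≤ (Len Fx Fy c r).toReal / 2 := by
    intro θ hθ
    have e1 := (hr hr0 0 θ hθ.1 (fun _ _ => hmem _)).2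
    have e2 := (hr hr0 θ (2 * Real.pi) hθ.2 (fun _ _ => hmem _)).2
    have hper : circleMap c r (2 * Real.pi) = circleMap c r 0 := by
      have := periodic_circleMap c r 0
      simpa using this
    rw [hper] at e2
    have b1 : ENNReal.ofReal ‖F (circleMap c r θ) - F (circleMap c r 0)‖ ≤
        ∫⁻ θ in Ioc 0 θ, ‖g θ‖ₑ := by
      rw [e1, intervalIntegral.integral_of_le hθ.1, ofReal_norm]
      exact enorm_integral_le_lintegral_enorm _
    have b2 : ENNReal.ofReal ‖F (circleMap c r θ) - F (circleMap c r 0)‖ ≤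
        ∫⁻ θ in Ioc θ (2 * Real.pi), ‖g θ‖ₑ := by
      rw [norm_sub_rev, e2, intervalIntegral.integral_of_le hθ.2, ofReal_norm]
      exact enorm_integral_le_lintegral_enorm _
    have b3 : ENNReal.ofReal ‖F (circleMap c r θ) - F (circleMap c r 0)‖ +
        ENNReal.ofReal ‖F (circleMap c r θ) - F (circleMap c r 0)‖ ≤ Len Fx Fy c r := by
      refine (add_le_add b1 b2).trans (le_of_eq ?_)
      rw [hlen, ← lintegral_union measurableSet_Ioc, Ioc_union_Ioc_eq_Ioc hθ.1 hθ.2]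
      rw [Set.disjoint_left]
      intro a ha hb
      exact absurd ha.2 (not_le.mpr hb.1)
    rw [← ENNReal.ofReal_add (norm_nonneg _) (norm_nonneg _)] at b3
    have b4 := (ENNReal.ofReal_le_iff_le_toReal hfin).mp b3
    linarith
  have hbp := hM.bp (ball c r) isOpen_ball (by
      rw [closure_ball c hr0.ne']
      exact isCompact_closedBall c r) (by
      rw [closure_ball c hr0.ne']
      exact (closedBall_subset_closedBall hrR.le).trans hR) (F (circleMap c r 0))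
      ((Len Fx Fy c r).toReal / 2) (by
      rw [frontier_ball c hr0.ne']
      intro w hw
      have h1 := image_circleMap_Ioc c r
      rw [abs_of_pos hr0] at h1
      rw [← h1] at hw
      obtain ⟨θ, hθ, rfl⟩ := hw
      exact hhalf θ ⟨hθ.1.le, hθ.2⟩)
  have c1 := hbp z hz
  have c2 := hbp z' hz'
  rw [ENNReal.ofReal_le_iff_le_toReal hfin]
  have := norm_sub_le (F z - F (circleMap c r 0)) (F z' - F (circleMap c r 0))
  have h5 : F z - F (circleMap c r 0) - (F z' - F (circleMap c r 0)) = F z - F z' := by ring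
  rw [h5] at this
  linarith

lemma enorm_m (r θ : ℝ) (hr : 0 ≤ r) : ‖circleMap 0 r θ * I‖ₑ = ENNReal.ofReal r := by
  rw [← ofReal_norm, norm_mul, Complex.norm_I, mul_one, norm_circleMap_zero, abs_of_nonneg hr]

lemma norm_m (r θ : ℝ) (hr : 0 ≤ r) : ‖circleMap 0 r θ * I‖ = r := by
  rw [norm_mul, Complex.norm_I, mul_one, norm_circleMap_zero, abs_of_nonneg hr]

lemma len_le (Fx Fy : ℂ → ℂ) (c : ℂ) (r : ℝ) (hr : 0 ≤ r) :
    Len Fx Fy c r ≤ ∫⁻ θ in Ioo 0 (2 * Real.pi),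
      ENNReal.ofReal r * (‖Fx (circleMap c r θ)‖ₑ + ‖Fy (circleMap c r θ)‖ₑ) := by
  apply lintegral_mono
  intro θ
  have h := norm_lmap_le (Fx (circleMap c r θ)) (Fy (circleMap c r θ)) (circleMap 0 r θ * I)
  rw [norm_m r θ hr] at h
  calc ‖lmap (Fx (circleMap c r θ)) (Fy (circleMap c r θ)) (circleMap 0 r θ * I)‖ₑ
      = ENNReal.ofReal ‖lmap (Fx (circleMap c r θ)) (Fy (circleMap c r θ))
        (circleMap 0 r θ * I)‖ := (ofReal_norm _).symm
    _ ≤ ENNReal.ofReal (r * (‖Fx (circleMap c r θ)‖ + ‖Fy (circleMap c r θ)‖)) :=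
        ENNReal.ofReal_le_ofReal h
    _ = _ := by
        rw [ENNReal.ofReal_mul hr, ENNReal.ofReal_add (norm_nonneg _) (norm_nonneg _), ofReal_norm,
          ofReal_norm]

lemma len_sq_le (Fx Fy : ℂ → ℂ) (hx : Measurable Fx) (hy : Measurable Fy) (c : ℂ) (r : ℝ)
    (hr : 0 ≤ r) :
    Len Fx Fy c r ^ 2 ≤ ENNReal.ofReal (2 * Real.pi) * ∫⁻ θ in Ioo 0 (2 * Real.pi),
      ENNReal.ofReal r * (ENNReal.ofReal r *
        (‖Fx (circleMap c r θ)‖ₑ ^ 2 + ‖Fy (circleMap c r θ)‖ₑ ^ 2)) := by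
  have hmeas : AEMeasurable (fun θ : ℝ => ‖lmap (Fx (circleMap c r θ)) (Fy (circleMap c r θ))
      (circleMap 0 r θ * I)‖ₑ) (volume.restrict (Ioo 0 (2 * Real.pi))) := by
    have hc : Measurable (circleMap c r) := (continuous_circleMap c r).measurable
    have hc0 : Measurable (circleMap 0 r) := (continuous_circleMap 0 r).measurable
    simp only [lmap_apply]
    apply Measurable.aemeasurable
    apply Measurable.enorm
    exact ((Complex.measurable_ofReal.comp (Complex.measurable_re.comp (hc0.mul_const I))).mul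
      (hx.comp hc)).add ((Complex.measurable_ofReal.comp
        (Complex.measurable_im.comp (hc0.mul_const I))).mul (hy.comp hc))
  refine (cs_const _ _ hmeas).trans ?_
  have hv : (volume.restrict (Ioo 0 (2 * Real.pi))) (univ : Set ℝ) = ENNReal.ofReal (2 * Real.pi) := by
    rw [Measure.restrict_apply_univ, Real.volume_Ioo, sub_zero]
  rw [hv]
  gcongr with θ
  have h := norm_lmap_sq_le (Fx (circleMap c r θ)) (Fy (circleMap c r θ)) (circleMap 0 r θ * I)
  rw [norm_m r θ hr] at h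
  calc ‖lmap (Fx (circleMap c r θ)) (Fy (circleMap c r θ)) (circleMap 0 r θ * I)‖ₑ ^ 2
      = ENNReal.ofReal (‖lmap (Fx (circleMap c r θ)) (Fy (circleMap c r θ))
        (circleMap 0 r θ * I)‖ ^ 2) := by rw [← ofReal_norm, ENNReal.ofReal_pow (norm_nonneg _)]
    _ ≤ ENNReal.ofReal (r ^ 2 * (‖Fx (circleMap c r θ)‖ ^ 2 + ‖Fy (circleMap c r θ)‖ ^ 2)) :=
        ENNReal.ofReal_le_ofReal h
    _ = _ := by
        rw [ENNReal.ofReal_mul (by positivity), ENNReal.ofReal_add (by positivity) (by positivity),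
          ENNReal.ofReal_pow hr, ENNReal.ofReal_pow (norm_nonneg _),
          ENNReal.ofReal_pow (norm_nonneg _), ofReal_norm, ofReal_norm]
        ring

/-- an annular part of the polar integral -/
lemma pol_le (hPol : SpecPol) (c : ℂ) (R : ℝ) (q : ℂ → ℝ≥0∞) (hq : Measurable q) (s : ℝ)
    (hs : 0 < s) :
    ∫⁻ r in Ioo s R, ∫⁻ θ in Ioo (0 : ℝ) (2 * Real.pi), ENNReal.ofReal r * q (circleMap c r θ) ≤
      ∫⁻ w in ball c R, q w := by
  rw [← lintegral_indicator measurableSet_ball, hPol c _ (hq.indicator measurableSet_ball)]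
  refine le_trans ?_ (lintegral_mono_set (show Ioo s R ⊆ Ioi 0 from fun r hr => hs.trans hr.1))
  apply setLIntegral_mono' measurableSet_Ioo
  intro r hr
  apply lintegral_mono
  intro θ
  have hmem : circleMap c r θ ∈ ball c R := by
    rw [mem_ball, dist_eq_norm, circleMap_sub_center, norm_circleMap_zero,
      abs_of_pos (hs.trans hr.1)]
    exact hr.2
  simp only [indicator_of_mem hmem]
  exact le_refl _

end OscAux

open OscAux in
theorem specOsc (hCirc : SpecCirc) (hPol : SpecPol) : SpecOsc := by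
  intro G F Fx Fy hM c s R hs hsR hG z hz z' hz'
  have hae := osc_le_len hCirc hM hG
  have hae' : ∀ᵐ r ∂(volume.restrict (Ioo s R)),
      ENNReal.ofReal ‖F z - F z'‖ ≤ Len Fx Fy c r := by
    rw [ae_restrict_iff' measurableSet_Ioo]
    filter_upwards [hae] with r hr hrI
    exact hr (hs.trans hrI.1) hrI.2 z (ball_subset_ball hrI.1.le hz) z'
      (ball_subset_ball hrI.1.le hz')
  constructor
  · calc ENNReal.ofReal ((R - s) * ‖F z - F z'‖)
        = ∫⁻ _ in Ioo s R, ENNReal.ofReal ‖F z - F z'‖ := by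
          rw [setLIntegral_const, Real.volume_Ioo, mul_comm,
            ENNReal.ofReal_mul (norm_nonneg _)]
      _ ≤ ∫⁻ r in Ioo s R, Len Fx Fy c r := lintegral_mono_ae hae'
      _ ≤ ∫⁻ r in Ioo s R, ∫⁻ θ in Ioo (0 : ℝ) (2 * Real.pi),
            ENNReal.ofReal r * (‖Fx (circleMap c r θ)‖ₑ + ‖Fy (circleMap c r θ)‖ₑ) := by
          apply setLIntegral_mono' measurableSet_Ioo
          intro r hr
          exact len_le Fx Fy c r (hs.trans hr.1).le
      _ ≤ _ := pol_le hPol c R (fun w => ‖Fx w‖ₑ + ‖Fy w‖ₑ)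
            (hM.wd.mx.enorm.add hM.wd.my.enorm) s hs
  · have hlog : ∫⁻ r in Ioo s R, ENNReal.ofReal (1 / r) = ENNReal.ofReal (Real.log (R / s)) := by
      rw [← integral_one_div_of_pos hs (hs.trans hsR), intervalIntegral.integral_of_le hsR.le,
        Measure.restrict_congr_set Ioo_ae_eq_Ioc, ← ofReal_integral_eq_lintegral_ofReal]
      · have h1 : IntervalIntegrable (fun r : ℝ => 1 / r) volume s R := by
          apply intervalIntegral.intervalIntegrable_one_div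
          · intro x hx
            rw [uIcc_of_le hsR.le] at hx
            exact (hs.trans_le hx.1).ne'
          · exact continuousOn_id
        exact (intervalIntegrable_iff_integrableOn_Ioc_of_le hsR.le).mp h1
      · rw [Filter.EventuallyLE, ae_restrict_iff' measurableSet_Ioc]
        exact Eventually.of_forall fun r hr => by
          have : 0 < r := hs.trans hr.1
          simp only [Pi.zero_apply]
          positivity
    have hpos : 0 ≤ Real.log (R / s) := Real.log_nonneg (by rw [le_div_iff₀ hs]; linarith)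
    calc ENNReal.ofReal (Real.log (R / s) * ‖F z - F z'‖ ^ 2)
        = ∫⁻ r in Ioo s R, ENNReal.ofReal (1 / r) * ENNReal.ofReal (‖F z - F z'‖ ^ 2) := by
          rw [ENNReal.ofReal_mul hpos, ← hlog, lintegral_mul_const' _ _ ENNReal.ofReal_ne_top]
      _ ≤ ∫⁻ r in Ioo s R, ENNReal.ofReal (2 * Real.pi) *
            ∫⁻ θ in Ioo (0 : ℝ) (2 * Real.pi), ENNReal.ofReal r *
              (‖Fx (circleMap c r θ)‖ₑ ^ 2 + ‖Fy (circleMap c r θ)‖ₑ ^ 2) := by
          apply lintegral_mono_ae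
          rw [ae_restrict_iff' measurableSet_Ioo] at hae' ⊢
          filter_upwards [hae'] with r hr hrI
          have hr0 : 0 < r := hs.trans hrI.1
          have h1 := hr hrI
          have h2 : ENNReal.ofReal (‖F z - F z'‖ ^ 2) ≤ Len Fx Fy c r ^ 2 := by
            rw [ENNReal.ofReal_pow (norm_nonneg _)]
            exact ENNReal.pow_le_pow_left h1
          have h3 := h2.trans (len_sq_le Fx Fy hM.wd.mx hM.wd.my c r hr0.le)
          rw [lintegral_const_mul' _ _ ENNReal.ofReal_ne_top] at h3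
          calc ENNReal.ofReal (1 / r) * ENNReal.ofReal (‖F z - F z'‖ ^ 2)
              ≤ ENNReal.ofReal (1 / r) * (ENNReal.ofReal (2 * Real.pi) * (ENNReal.ofReal r *
                ∫⁻ θ in Ioo (0 : ℝ) (2 * Real.pi), ENNReal.ofReal r *
              (‖Fx (circleMap c r θ)‖ₑ ^ 2 + ‖Fy (circleMap c r θ)‖ₑ ^ 2))) := by
                gcongr
            _ = (ENNReal.ofReal (1 / r) * ENNReal.ofReal r) * (ENNReal.ofReal (2 * Real.pi) *
                ∫⁻ θ in Ioo (0 : ℝ) (2 * Real.pi), ENNReal.ofReal r *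
              (‖Fx (circleMap c r θ)‖ₑ ^ 2 + ‖Fy (circleMap c r θ)‖ₑ ^ 2)) := by ring
            _ = _ := by
                rw [← ENNReal.ofReal_mul (by positivity), one_div_mul_cancel hr0.ne',
                  ENNReal.ofReal_one, one_mul]
      _ = ENNReal.ofReal (2 * Real.pi) * ∫⁻ r in Ioo s R,
            ∫⁻ θ in Ioo (0 : ℝ) (2 * Real.pi), ENNReal.ofReal r *
              (‖Fx (circleMap c r θ)‖ₑ ^ 2 + ‖Fy (circleMap c r θ)‖ₑ ^ 2) :=
          lintegral_const_mul' _ _ ENNReal.ofReal_ne_top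
      _ ≤ _ := by
          gcongr
          exact pol_le hPol c R (fun w => ‖Fx w‖ₑ ^ 2 + ‖Fy w‖ₑ ^ 2)
            ((hM.wd.mx.enorm.pow_const 2).add (hM.wd.my.enorm.pow_const 2)) s hs

end MPfa
end

section
/-!
Problem MP_fa0334_an: module SEP (a locally constant function with a unit jump on an arc).
-/
set_option autoImplicit false

open MeasureTheory Set Filter Topology Metric Complex
open scoped ContDiff ENNReal ComplexConjugate

namespace MPfa

theorem specSep (hLoop : SpecLoop) (hArc : SpecArc) : SpecSep := by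
  intro r l l' g U hl hl' hlr hl'r hgd hgi hgn hgm hUo hUp hU1 he1 he2
  obtain ⟨Γ, hΓU, hΓc, hΓ1, hΓ2, ℓ₁, hd1, ht1⟩ := hLoop U hUo hUp (g l') he1 (g (-l : ℝ)) he2
  obtain ⟨ℓ₂, hd2, ht2, hj⟩ := hArc r l l' g hl hl' hlr hl'r hgd hgi hgn
  set σ : Set ℂ := (fun x : ℝ => g x) '' Icc (-l) l' with hσ
  set ℓ : ℂ → ℂ := fun z => ℓ₂ z + ℓ₁ z with hℓ
  have hreal : ∀ x ∈ Icc (-l) l', ((x : ℝ) : ℂ) ∈ ball (0 : ℂ) r := by
    intro x hx
    rw [mem_ball_zero_iff, Complex.norm_real, Real.norm_eq_abs, abs_lt]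
    constructor <;> linarith [hx.1, hx.2]
  have hσc : IsCompact σ := by
    refine isCompact_Icc.image_of_continuousOn ?_
    refine hgd.continuousOn.comp Complex.continuous_ofReal.continuousOn ?_
    intro x hx
    exact hreal x hx
  have hσΓ : IsCompact (σ ∪ Γ) := hσc.union hΓc
  have hcl : IsClosed (σ ∪ Γ) := hσΓ.isClosed
  have hder : ∀ z, z ∉ σ ∪ Γ → HasDerivAt ℓ 0 z := by
    intro z hz
    have h1 := hd1 z (fun h => hz (Or.inr h))
    have h2 := hd2 z (fun h => hz (Or.inl h))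
    have h3 := h2.fun_add h1
    have h4 : (1 / (z - g l') - 1 / (z - g (-l : ℝ))) +
        (1 / (z - g (-l : ℝ)) - 1 / (z - g l')) = 0 := by
      rw [sub_add_sub_cancel, sub_self]
    rwa [h4] at h3
  have hconst : ∀ V : Set ℂ, IsOpen V → IsPreconnected V → Disjoint V (σ ∪ Γ) →
      ∀ z ∈ V, ∀ w ∈ V, ℓ z = ℓ w := by
    intro V hVo hVp hVd z hz w hw
    have hV : ∀ z ∈ V, HasDerivAt ℓ 0 z := fun z hz =>
      hder z (fun h => Set.disjoint_left.1 hVd hz h)
    exact hVo.is_const_of_deriv_eq_zero hVp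
      (fun z hz => (hV z hz).differentiableAt.differentiableWithinAt)
      (fun z hz => (hV z hz).deriv) hz hw
  have hsub : σ ∪ Γ ⊆ ball 0 1 := by
    rintro z (⟨x, hx, rfl⟩ | hz)
    · exact hgm (hreal x hx)
    · exact hU1 (hΓU hz)
  have hne : (σ ∪ Γ).Nonempty := ⟨g l', Or.inl ⟨l', ⟨by linarith, le_rfl⟩, rfl⟩⟩
  obtain ⟨z₀, hz₀, hmax⟩ := hσΓ.exists_isMaxOn hne continuous_norm.continuousOn
  have hR0 : ‖z₀‖ < 1 := by
    have := hsub hz₀
    rwa [mem_ball_zero_iff] at this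
  have hle : ∀ z ∈ σ ∪ Γ, ‖z‖ ≤ ‖z₀‖ := fun z hz => hmax hz
  -- `ℓ = 0` outside
  have hout : ∀ z, ‖z₀‖ < ‖z‖ → ℓ z = 0 := by
    intro z hz
    set V : Set ℂ := {w | ‖z₀‖ * ‖z‖ < (w * conj z).re} with hV
    have hVo : IsOpen V := by
      refine isOpen_lt continuous_const ?_
      fun_prop
    have hVc : Convex ℝ V := by
      intro a ha b hb s t hs ht hst
      simp only [hV, mem_ofPred_eq] at ha hb ⊢
      have : ((s • a + t • b) * conj z).re = s * (a * conj z).re + t * (b * conj z).re := by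
        simp [add_mul, mul_assoc]
      rw [this]
      have hM : ‖z₀‖ * ‖z‖ = s * (‖z₀‖ * ‖z‖) + t * (‖z₀‖ * ‖z‖) := by
        rw [← add_mul, hst, one_mul]
      have hpos : 0 < s ∨ 0 < t := by
        rcases hs.lt_or_eq with h | h
        · exact Or.inl h
        · right
          linarith
      rw [hM]
      rcases hpos with h | h
      · exact add_lt_add_of_lt_of_le (mul_lt_mul_of_pos_left ha h)
          (mul_le_mul_of_nonneg_left hb.le ht)
      · exact add_lt_add_of_le_of_lt (mul_le_mul_of_nonneg_left ha.le hs)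
          (mul_lt_mul_of_pos_left hb h)
    have hVd : Disjoint V (σ ∪ Γ) := by
      rw [Set.disjoint_left]
      intro w hw hw'
      have h1 := hle w hw'
      have h2 : (w * conj z).re ≤ ‖w‖ * ‖z‖ := by
        calc (w * conj z).re ≤ ‖w * conj z‖ := Complex.re_le_norm _
          _ = ‖w‖ * ‖z‖ := by rw [norm_mul, Complex.norm_conj]
      have h3 : ‖z₀‖ * ‖z‖ < ‖w‖ * ‖z‖ := lt_of_lt_of_le hw h2
      have h4 : 0 < ‖z‖ := lt_of_le_of_lt (norm_nonneg _) hz
      have := lt_of_mul_lt_mul_right h3 h4.le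
      linarith
    have hzz : (z * conj z).re = ‖z‖ ^ 2 := by
      rw [Complex.mul_conj, Complex.normSq_eq_norm_sq, Complex.ofReal_re]
    have h4 : 0 < ‖z‖ := lt_of_le_of_lt (norm_nonneg _) hz
    have hmem : ∀ t : ℝ, 1 ≤ t → (t : ℂ) * z ∈ V := by
      intro t ht
      simp only [hV, mem_ofPred_eq]
      have : ((t : ℂ) * z * conj z).re = t * ‖z‖ ^ 2 := by
        rw [mul_assoc, Complex.re_ofReal_mul, hzz]
      rw [this]
      nlinarith
    have hz1 : z ∈ V := by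
      have := hmem 1 le_rfl
      simpa using this
    have hcc := hconst V hVo hVc.isPreconnected hVd
    have htz : Tendsto (fun n : ℕ => (((n : ℝ) + 1 : ℝ) : ℂ) * z) atTop (cocompact ℂ) := by
      rw [← Metric.cobounded_eq_cocompact, ← tendsto_norm_atTop_iff_cobounded]
      have h5 : (fun n : ℕ => ‖(((n : ℝ) + 1 : ℝ) : ℂ) * z‖) = fun n : ℕ => ((n : ℝ) + 1) * ‖z‖ := by
        funext n
        rw [norm_mul, Complex.norm_real, Real.norm_eq_abs, abs_of_nonneg (by positivity)]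
      rw [h5]
      refine Tendsto.atTop_mul_const h4 ?_
      exact tendsto_atTop_add_const_right _ _ tendsto_natCast_atTop_atTop
    have hℓ0 : Tendsto ℓ (cocompact ℂ) (𝓝 0) := by
      have := ht2.add ht1
      simpa using this
    have h6 := hℓ0.comp htz
    have h7 : (ℓ ∘ fun n : ℕ => (((n : ℝ) + 1 : ℝ) : ℂ) * z) = fun _ => ℓ z := by
      funext n
      exact hcc _ (hmem _ (by linarith [Nat.cast_nonneg (α := ℝ) n])) _ hz1
    rw [h7] at h6
    exact tendsto_nhds_unique tendsto_const_nhds h6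
  have hpi : (2 * Real.pi) ≠ 0 := by positivity
  refine ⟨Γ, hΓU, hΓc, fun z => (ℓ z).im / (2 * Real.pi), ‖z₀‖, hR0, ?_, ?_, ?_⟩
  · intro z hz
    obtain ⟨ε, hε, hb⟩ := Metric.isOpen_iff.1 hcl.isOpen_compl z hz
    have hcc := hconst (ball z ε) isOpen_ball (convex_ball z ε).isPreconnected
      (Set.disjoint_left.2 fun w hw hw' => hb hw hw')
    filter_upwards [ball_mem_nhds z hε] with z' hz'
    rw [hcc z' hz' z (mem_ball_self hε)]
  · intro z hz
    show (ℓ z).im / (2 * Real.pi) = 0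
    simp [hout z hz]
  · intro x hx hxΓ
    have hxr : ((x : ℝ) : ℂ) ∈ ball (0 : ℂ) r := hreal x ⟨hx.1.le, hx.2.le⟩
    have hcx : ContinuousAt g x := (hgd.differentiableAt (isOpen_ball.mem_nhds hxr)).continuousAt
    have h1 : ∀ᶠ ζ in 𝓝 ((x : ℝ) : ℂ), ζ ∈ ball (0 : ℂ) r ∧ g ζ ∉ Γ := by
      filter_upwards [isOpen_ball.mem_nhds hxr,
        hcx.eventually (hΓc.isClosed.isOpen_compl.mem_nhds hxΓ)] with ζ h1 h2
      exact ⟨h1, h2⟩
    obtain ⟨ε, hε, hb⟩ := Metric.eventually_nhds_iff_ball.1 h1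
    have hnσ : ∀ ζ ∈ ball ((x : ℝ) : ℂ) ε, ζ.im ≠ 0 → g ζ ∉ σ := by
      rintro ζ hζ hζi ⟨y, hy, hyζ⟩
      have h2 := hgi (hreal y hy) (hb ζ hζ).1 hyζ
      rw [← h2] at hζi
      simp at hζi
    have hcomp : ∀ V : Set ℂ, IsOpen V → IsPreconnected V → V ⊆ ball ((x : ℝ) : ℂ) ε →
        (∀ ζ ∈ V, ζ.im ≠ 0) → ∀ ζ ∈ V, ∀ ζ' ∈ V, ℓ (g ζ) = ℓ (g ζ') := by
      intro V hVo hVp hVb hVi ζ hζ ζ' hζ'
      have hV : ∀ ζ ∈ V, HasDerivAt (fun ζ => ℓ (g ζ)) 0 ζ := by
        intro ζ hζ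
        have h2 : g ζ ∉ σ ∪ Γ := by
          rintro (h | h)
          · exact hnσ ζ (hVb hζ) (hVi ζ hζ) h
          · exact (hb ζ (hVb hζ)).2 h
        have h3 := hder _ h2
        have h4 : HasDerivAt g (deriv g ζ) ζ :=
          (hgd.differentiableAt (isOpen_ball.mem_nhds (hb ζ (hVb hζ)).1)).hasDerivAt
        have h5 := h3.comp ζ h4
        simpa [Function.comp_def] using h5
      exact hVo.is_const_of_deriv_eq_zero hVp
        (fun z hz => (hV z hz).differentiableAt.differentiableWithinAt)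
        (fun z hz => (hV z hz).deriv) hζ hζ'
    have hop1 : IsOpen {z : ℂ | 0 < z.im} := isOpen_lt continuous_const Complex.continuous_im
    have hop2 : IsOpen {z : ℂ | z.im < 0} := isOpen_lt Complex.continuous_im continuous_const
    have hup := hcomp (ball ((x : ℝ) : ℂ) ε ∩ {z | 0 < z.im}) (isOpen_ball.inter hop1)
      ((convex_ball _ _).inter (convex_halfSpace_im_gt 0)).isPreconnected inter_subset_left
      (fun ζ hζ => (ne_of_gt hζ.2))
    have hlo := hcomp (ball ((x : ℝ) : ℂ) ε ∩ {z | z.im < 0}) (isOpen_ball.inter hop2)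
      ((convex_ball _ _).inter (convex_halfSpace_im_lt 0)).isPreconnected inter_subset_left
      (fun ζ hζ => (ne_of_lt hζ.2))
    have hup0 : (x : ℂ) + ((ε / 2 : ℝ) : ℂ) * I ∈ ball ((x : ℝ) : ℂ) ε ∩ {z : ℂ | 0 < z.im} := by
      constructor
      · rw [mem_ball, dist_eq_norm, add_sub_cancel_left, norm_mul, Complex.norm_I, mul_one,
          Complex.norm_real, Real.norm_eq_abs, abs_of_pos (by linarith)]
        linarith
      · simp
        linarith
    have hlo0 : (x : ℂ) - ((ε / 2 : ℝ) : ℂ) * I ∈ ball ((x : ℝ) : ℂ) ε ∩ {z : ℂ | z.im < 0} := by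
      constructor
      · rw [mem_ball, dist_eq_norm, sub_sub_cancel_left, norm_neg, norm_mul, Complex.norm_I,
          mul_one, Complex.norm_real, Real.norm_eq_abs, abs_of_pos (by linarith)]
        linarith
      · simp
        linarith
    set cu := ℓ (g ((x : ℂ) + ((ε / 2 : ℝ) : ℂ) * I)) with hcu
    set cl := ℓ (g ((x : ℂ) - ((ε / 2 : ℝ) : ℂ) * I)) with hcl'
    -- the jump
    have hjx := hj x hx
    have hℓ1c : ContinuousAt ℓ₁ (g x) := (hd1 (g x) hxΓ).continuousAt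
    have hlim : Tendsto (fun e : ℝ => (x : ℂ) + (e : ℂ) * I) (𝓝[>] 0) (𝓝 (x : ℂ)) := by
      have : Tendsto (fun e : ℝ => (x : ℂ) + (e : ℂ) * I) (𝓝 0) (𝓝 ((x : ℂ) + ((0 : ℝ) : ℂ) * I)) := by
        have hc : Continuous (fun e : ℝ => (x : ℂ) + (e : ℂ) * I) := by fun_prop
        exact hc.tendsto 0
      simp only [Complex.ofReal_zero, zero_mul, add_zero] at this
      exact this.mono_left nhdsWithin_le_nhds
    have hlim' : Tendsto (fun e : ℝ => (x : ℂ) - (e : ℂ) * I) (𝓝[>] 0) (𝓝 (x : ℂ)) := by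
      have : Tendsto (fun e : ℝ => (x : ℂ) - (e : ℂ) * I) (𝓝 0) (𝓝 ((x : ℂ) - ((0 : ℝ) : ℂ) * I)) := by
        have hc : Continuous (fun e : ℝ => (x : ℂ) - (e : ℂ) * I) := by fun_prop
        exact hc.tendsto 0
      simp only [Complex.ofReal_zero, zero_mul, sub_zero] at this
      exact this.mono_left nhdsWithin_le_nhds
    have hA : Tendsto (fun e : ℝ => ℓ₁ (g (x + e * I)) - ℓ₁ (g (x - e * I))) (𝓝[>] 0) (𝓝 0) := by
      have h2 := (hℓ1c.tendsto.comp (hcx.tendsto.comp hlim)).sub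
        (hℓ1c.tendsto.comp (hcx.tendsto.comp hlim'))
      simpa using h2
    have hB : Tendsto (fun e : ℝ => ℓ (g (x + e * I)) - ℓ (g (x - e * I))) (𝓝[>] 0)
        (𝓝 (2 * Real.pi * I)) := by
      have h2 := hjx.add hA
      rw [add_zero] at h2
      refine h2.congr fun e => ?_
      simp only [hℓ]
      ring
    have hC : ∀ᶠ e : ℝ in 𝓝[>] 0, ℓ (g (x + e * I)) - ℓ (g (x - e * I)) = cu - cl := by
      filter_upwards [Ioo_mem_nhdsGT hε] with e he
      have h2 : (x : ℂ) + (e : ℂ) * I ∈ ball ((x : ℝ) : ℂ) ε ∩ {z : ℂ | 0 < z.im} := by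
        constructor
        · rw [mem_ball, dist_eq_norm, add_sub_cancel_left, norm_mul, Complex.norm_I, mul_one,
            Complex.norm_real, Real.norm_eq_abs, abs_of_pos he.1]
          exact he.2
        · simpa using he.1
      have h3 : (x : ℂ) - (e : ℂ) * I ∈ ball ((x : ℝ) : ℂ) ε ∩ {z : ℂ | z.im < 0} := by
        constructor
        · rw [mem_ball, dist_eq_norm, sub_sub_cancel_left, norm_neg, norm_mul, Complex.norm_I,
            mul_one, Complex.norm_real, Real.norm_eq_abs, abs_of_pos he.1]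
          exact he.2
        · simpa using he.1
      rw [hup _ h2 _ hup0, hlo _ h3 _ hlo0]
    have hD : cu - cl = 2 * Real.pi * I :=
      tendsto_nhds_unique (tendsto_const_nhds.congr' (hC.mono fun e he => he.symm)) hB
    have hD' : cl.im = cu.im - 2 * Real.pi := by
      have h2 := congrArg Complex.im hD
      simp at h2
      linarith
    refine ⟨ε, hε, cu.im / (2 * Real.pi), ?_, ?_⟩
    · intro ζ hζ hζi
      simp only
      rw [hup ζ ⟨hζ, hζi⟩ _ hup0]
    · intro ζ hζ hζi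
      simp only
      rw [hlo ζ ⟨hζ, hζi⟩ _ hlo0, ← hcl', hD']
      field_simp

end MPfa
end

section
/-!
Problem MP_fa0334_an, module STEP: the theorem of Rademacher and Stepanov, for arbitrary maps
between finite dimensional spaces and arbitrary sets.
-/
set_option autoImplicit false

open MeasureTheory Set Filter Topology Metric

namespace MPfa

section Stepanov

variable {E F : Type*} [NormedAddCommGroup E] [NormedSpace ℝ E] [FiniteDimensional ℝ E]
  [MeasurableSpace E] [BorelSpace E] [NormedAddCommGroup F] [NormedSpace ℝ F]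

/-- at almost every point of an arbitrary set, the set is dense at a linear scale -/
lemma ae_dense_scale (μ : Measure E) [μ.IsAddHaarMeasure] (S : Set E) (m : ℕ) :
    ∀ᵐ x ∂μ, x ∈ S → ∀ᶠ w in 𝓝[≠] x, (S ∩ closedBall w (‖w - x‖ / (m + 1))).Nonempty := by
  have h1 := ae_imp_of_ae_restrict
    (IsUnifLocDoublingMeasure.ae_tendsto_measure_inter_div μ S ((m : ℝ) + 1))
  filter_upwards [h1] with x hx hxS
  have hm : (0 : ℝ) < (m : ℝ) + 1 := by positivity
  have h2 : Tendsto (fun w : E => ‖w - x‖ / ((m : ℝ) + 1)) (𝓝[≠] x) (𝓝[>] 0) := by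
    rw [tendsto_nhdsWithin_iff]
    constructor
    · have h3 : Tendsto (fun w : E => ‖w - x‖ / ((m : ℝ) + 1)) (𝓝 x)
          (𝓝 (‖x - x‖ / ((m : ℝ) + 1))) := by
        apply Continuous.tendsto
        fun_prop
      rw [sub_self, norm_zero, zero_div] at h3
      exact h3.mono_left nhdsWithin_le_nhds
    · filter_upwards [self_mem_nhdsWithin] with w hw
      have : 0 < ‖w - x‖ := norm_pos_iff.2 (sub_ne_zero.2 hw)
      exact div_pos this hm
  have h3 := hx hxS (fun w : E => w) (fun w : E => ‖w - x‖ / ((m : ℝ) + 1)) h2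
    (Eventually.of_forall fun w => by
      rw [mem_closedBall, dist_comm, dist_eq_norm, mul_div_cancel₀ _ hm.ne'])
  have h4 : ∀ᶠ w in 𝓝[≠] x, (0 : ENNReal) < μ (S ∩ closedBall w (‖w - x‖ / ((m : ℝ) + 1))) /
      μ (closedBall w (‖w - x‖ / ((m : ℝ) + 1))) := by
    exact (h3.eventually (lt_mem_nhds (zero_lt_one)))
  filter_upwards [h4] with w hw
  by_contra hne
  rw [Set.not_nonempty_iff_eq_empty] at hne
  rw [hne] at hw
  simp at hw

/-- within derivatives of a map on a set, at points of linear density where the map is Lipschitz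
near the set, are derivatives -/
lemma hasFDerivAt_of_dense (f : E → F) (S : Set E) (x : E) (L : E →L[ℝ] F) (C ρ : ℝ)
    (hC : 0 ≤ C) (hρ : 0 < ρ)
    (hS : ∀ z ∈ S, ∀ w ∈ ball z ρ, ‖f w - f z‖ ≤ C * ‖w - z‖)
    (hd : ∀ m : ℕ, ∀ᶠ w in 𝓝[≠] x, (S ∩ closedBall w (‖w - x‖ / (m + 1))).Nonempty)
    (hL : HasFDerivWithinAt f L S x) : HasFDerivAt f L x := by
  rw [hasFDerivAt_iff_isLittleO, Asymptotics.isLittleO_iff]
  intro c hc
  -- choose `m`
  set M : ℝ := C + ‖L‖ + 3 with hM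
  have hM0 : 0 < M := by positivity
  obtain ⟨m, hm⟩ := exists_nat_gt (M / c)
  set ε : ℝ := 1 / ((m : ℝ) + 1) with hε
  have hm1 : (0 : ℝ) < (m : ℝ) + 1 := by positivity
  have hε0 : 0 < ε := by positivity
  have hε1 : ε ≤ 1 := by
    rw [hε, div_le_one hm1]
    have : (0 : ℝ) ≤ (m : ℝ) := Nat.cast_nonneg m
    linarith
  have hεM : ε * M ≤ c := by
    rw [hε, one_div, inv_mul_le_iff₀ hm1]
    rw [div_lt_iff₀ hc] at hm
    nlinarith
  rw [hasFDerivWithinAt_iff_isLittleO, Asymptotics.isLittleO_iff] at hL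
  have h1 := hL hε0
  rw [eventually_nhdsWithin_iff, Metric.eventually_nhds_iff] at h1
  obtain ⟨δ, hδ, h1⟩ := h1
  have h2 := hd m
  rw [eventually_nhdsWithin_iff] at h2
  have h3 : ∀ᶠ w in 𝓝 x, w ∈ ball x (min (δ / 2) ρ) :=
    ball_mem_nhds _ (lt_min (by linarith) hρ)
  filter_upwards [h2, h3] with w h2w h3w
  by_cases hwx : w = x
  · subst hwx
    simp
  obtain ⟨w', hw'S, hw'⟩ := h2w hwx
  rw [mem_ball, dist_eq_norm] at h3w
  have hd1 : ‖w - x‖ < δ / 2 := lt_of_lt_of_le h3w (min_le_left _ _)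
  have hd2 : ‖w - x‖ < ρ := lt_of_lt_of_le h3w (min_le_right _ _)
  have hd0 : 0 < ‖w - x‖ := norm_pos_iff.2 (sub_ne_zero.2 hwx)
  rw [mem_closedBall, dist_eq_norm] at hw'
  have hw'2 : ‖w - w'‖ ≤ ε * ‖w - x‖ := by
    rw [norm_sub_rev, hε]
    calc ‖w' - w‖ ≤ ‖w - x‖ / ((m : ℝ) + 1) := hw'
      _ = 1 / ((m : ℝ) + 1) * ‖w - x‖ := by ring
  have hw'3 : ‖w' - x‖ ≤ 2 * ‖w - x‖ := by
    have h4 : ‖w' - x‖ ≤ ‖w' - w‖ + ‖w - x‖ := by
      have : w' - x = (w' - w) + (w - x) := by abel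
      rw [this]
      exact norm_add_le _ _
    rw [norm_sub_rev w' w] at h4
    nlinarith
  have e1 : ‖f w - f w'‖ ≤ C * (ε * ‖w - x‖) := by
    refine le_trans (hS w' hw'S w ?_) (mul_le_mul_of_nonneg_left hw'2 hC)
    rw [mem_ball, dist_eq_norm]
    nlinarith
  have e2 : ‖f w' - f x - L (w' - x)‖ ≤ ε * ‖w' - x‖ := by
    apply h1 _ hw'S
    rw [dist_eq_norm]
    linarith
  have e3 : ‖L (w - w')‖ ≤ ‖L‖ * (ε * ‖w - x‖) :=
    le_trans (L.le_opNorm _) (mul_le_mul_of_nonneg_left hw'2 (norm_nonneg _))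
  have e4 : f w - f x - L (w - x) = (f w - f w') + (f w' - f x - L (w' - x)) - L (w - w') := by
    have : L (w - x) = L (w' - x) + L (w - w') := by
      rw [← map_add]
      congr 1
      abel
    rw [this]
    abel
  rw [e4]
  have e5 : ‖(f w - f w') + (f w' - f x - L (w' - x)) - L (w - w')‖ ≤
      ‖f w - f w'‖ + ‖f w' - f x - L (w' - x)‖ + ‖L (w - w')‖ := by
    refine le_trans (norm_sub_le _ _) ?_
    gcongr
    exact norm_add_le _ _
  have e6 : ε * ‖w' - x‖ ≤ ε * (2 * ‖w - x‖) := mul_le_mul_of_nonneg_left hw'3 hε0.le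
  calc _ ≤ C * (ε * ‖w - x‖) + ε * (2 * ‖w - x‖) + ‖L‖ * (ε * ‖w - x‖) := by linarith
    _ = ε * (C + ‖L‖ + 2) * ‖w - x‖ := by ring
    _ ≤ c * ‖w - x‖ := by
        apply mul_le_mul_of_nonneg_right _ (norm_nonneg _)
        nlinarith

/-- **Stepanov's theorem**: a map is differentiable at almost every point at which it is
pointwise Lipschitz -/
theorem stepanov [FiniteDimensional ℝ F] (μ : Measure E) [μ.IsAddHaarMeasure] (f : E → F)
    (A : Set E)
    (h : ∀ z ∈ A, ∃ C r : ℝ, 0 < r ∧ ∀ w ∈ ball z r, ‖f w - f z‖ ≤ C * ‖w - z‖) :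
    ∀ᵐ z ∂μ, z ∈ A → DifferentiableAt ℝ f z := by
  set En : ℕ → Set E := fun n => {z | ∀ w ∈ ball z (1 / ((n : ℝ) + 1)),
    ‖f w - f z‖ ≤ (n : ℝ) * ‖w - z‖} with hEn
  obtain ⟨D, hDc, hDd⟩ := TopologicalSpace.exists_countable_dense E
  -- each piece
  have key : ∀ (n : ℕ) (c : E), ∀ᵐ z ∂μ, z ∈ En n ∩ ball c (1 / (2 * ((n : ℝ) + 1))) →
      DifferentiableAt ℝ f z := by
    intro n c
    have hn : (0 : ℝ) < (n : ℝ) + 1 := by positivity
    set S : Set E := En n ∩ ball c (1 / (2 * ((n : ℝ) + 1))) with hS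
    have hlip : LipschitzOnWith (n : NNReal) f S := by
      rw [lipschitzOnWith_iff_norm_sub_le]
      intro z hz w hw
      have h1 := hw.1 z
      have h2 : z ∈ ball w (1 / ((n : ℝ) + 1)) := by
        have h3 := mem_ball.1 hz.2
        have h4 := mem_ball.1 hw.2
        rw [mem_ball]
        calc dist z w ≤ dist z c + dist w c := dist_triangle_right _ _ _
          _ < 1 / (2 * ((n : ℝ) + 1)) + 1 / (2 * ((n : ℝ) + 1)) := by linarith
          _ = 1 / ((n : ℝ) + 1) := by field_simp; norm_num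
      simpa using h1 h2
    have h1 := hlip.ae_differentiableWithinAt_of_mem (μ := μ)
    have h2 : ∀ᵐ x ∂μ, ∀ m : ℕ, x ∈ S →
        ∀ᶠ w in 𝓝[≠] x, (S ∩ closedBall w (‖w - x‖ / (m + 1))).Nonempty :=
      ae_all_iff.2 fun m => ae_dense_scale μ S m
    filter_upwards [h1, h2] with z hz1 hz2 hzS
    have h3 := (hz1 hzS).hasFDerivWithinAt
    refine (hasFDerivAt_of_dense f S z _ n (1 / ((n : ℝ) + 1)) (Nat.cast_nonneg n)
      (by positivity) (fun z' hz' => hz'.1) (fun m => hz2 m hzS) h3).differentiableAt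
  have key2 : ∀ᵐ z ∂μ, ∀ n : ℕ, ∀ c ∈ D, z ∈ En n ∩ ball c (1 / (2 * ((n : ℝ) + 1))) →
      DifferentiableAt ℝ f z := by
    rw [ae_all_iff]
    intro n
    rw [ae_ball_iff hDc]
    intro c _
    exact key n c
  filter_upwards [key2] with z hz hzA
  obtain ⟨C, r, hr, hCr⟩ := h z hzA
  obtain ⟨n, hn⟩ := exists_nat_gt (max C (1 / r))
  have hn1 : (0 : ℝ) < (n : ℝ) + 1 := by positivity
  have hn2 : C < n := lt_of_le_of_lt (le_max_left _ _) hn
  have hn3 : 1 / r < n := lt_of_le_of_lt (le_max_right _ _) hn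
  have hzE : z ∈ En n := by
    intro w hw
    have h1 : w ∈ ball z r := by
      rw [mem_ball] at hw ⊢
      refine lt_of_lt_of_le hw ?_
      rw [div_le_iff₀ hn1]
      rw [div_lt_iff₀ hr] at hn3
      nlinarith
    exact le_trans (hCr w h1) (mul_le_mul_of_nonneg_right hn2.le (norm_nonneg _))
  obtain ⟨c, hcD, hc⟩ := hDd.exists_dist_lt z
    (show (0 : ℝ) < 1 / (2 * ((n : ℝ) + 1)) by positivity)
  exact hz n c hcD ⟨hzE, mem_ball.2 hc⟩

end Stepanov

theorem specStep : SpecStep := by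
  intro G A F _ _ _ h
  exact stepanov volume F A h

end MPfa
end

section
/-!
Module UC: the preimage of `Y` is connected if `h` is injective over `Y`.
-/
set_option autoImplicit false

open MeasureTheory Set Filter Topology Metric Complex
open scoped ContDiff ENNReal ComplexConjugate

namespace MPfa

theorem specUC (hLim : SpecLim) : SpecUC := by
  intro X Y b h hD hL hinj
  obtain ⟨hc, hm, -, hs, hfr, -, -⟩ := hLim X Y b h hD hL
  have hXc : X ⊆ closure X := subset_closure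
  have hU : ∀ z ∈ closure X, h z ∈ Y → z ∈ X := by
    intro z hz hzY
    by_contra hzX
    have h1 : z ∈ frontier X := by
      rw [frontier, hD.oX.interior_eq]
      exact ⟨hz, hzX⟩
    have h2 := hfr h1
    rw [frontier, hD.oY.interior_eq] at h2
    exact h2.2 hzY
  -- the inverse
  have hex : ∀ c ∈ Y, ∃ z, z ∈ X ∧ h z = c := by
    intro c hcY
    obtain ⟨z, hz, hzc⟩ := hs (subset_closure hcY)
    exact ⟨z, hU z hz (hzc ▸ hcY), hzc⟩
  choose! k hkX hkc using hex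
  have hkU : ∀ z ∈ X, h z ∈ Y → k (h z) = z := by
    intro z hz hzY
    exact hinj ⟨hkX _ hzY, by rw [hkc _ hzY]; exact hzY⟩ ⟨hz, hzY⟩ (hkc _ hzY)
  have hkcont : ContinuousOn k Y := by
    rw [continuousOn_iff_isClosed]
    intro C hC
    have hK : IsCompact (C ∩ closure X) := by
      rw [inter_comm]
      exact hD.cX.inter_right hC
    have hK2 : IsCompact (h '' (C ∩ closure X)) :=
      hK.image_of_continuousOn (hc.mono inter_subset_right)
    refine ⟨h '' (C ∩ closure X), hK2.isClosed, ?_⟩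
    ext c
    constructor
    · rintro ⟨h1, h2⟩
      exact ⟨⟨k c, ⟨h1, hXc (hkX c h2)⟩, hkc c h2⟩, h2⟩
    · rintro ⟨⟨z, ⟨hzC, hzX⟩, rfl⟩, h2⟩
      refine ⟨?_, h2⟩
      have : k (h z) = z := hkU z (hU z hzX h2) h2
      rw [mem_preimage, this]
      exact hzC
  have himg : {z | z ∈ X ∧ h z ∈ Y} = k '' Y := by
    ext z
    constructor
    · rintro ⟨hz, hzY⟩
      exact ⟨h z, hzY, hkU z hz hzY⟩
    · rintro ⟨c, hcY, rfl⟩
      exact ⟨hkX c hcY, by rw [hkc c hcY]; exact hcY⟩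
  rw [himg]
  exact hD.vY.isPreconnected.image k hkcont

end MPfa
end

section
/-!
Modules YMAX and INTF.
-/
set_option autoImplicit false

open MeasureTheory Set Filter Topology Metric Complex
open scoped ContDiff ENNReal ComplexConjugate

namespace MPfa
namespace YmaxM

lemma chart_diff {D : Set ℂ} {Ψ : ℂ → ℂ} {k : ℕ} {t : ℂ} {r : ℝ} {g : ℂ → ℂ}
    (hc : Chart D Ψ k t r g) : DifferentiableAt ℂ g 0 :=
  hc.d.differentiableAt (isOpen_ball.mem_nhds (mem_ball_self hc.r0))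

lemma chart_map {D : Set ℂ} {Ψ : ℂ → ℂ} {k : ℕ} {t : ℂ} {r : ℝ} {g : ℂ → ℂ}
    (hc : Chart D Ψ k t r g) : map g (𝓝 0) = 𝓝 t := by
  have h1 : AnalyticAt ℂ g 0 := hc.d.analyticAt (isOpen_ball.mem_nhds (mem_ball_self hc.r0))
  have h2 := (h1.hasStrictDerivAt).map_nhds_eq (hc.nd 0 (mem_ball_self hc.r0))
  rwa [hc.z] at h2

/-- `g (v I)` lies in `C` for small `v` in a chart of order `0` -/
lemma good (hChart : SpecChart) (hCvx : SpecCvx) {D : Set ℂ} {Ψ : ℂ → ℂ} {C C' A : Set ℂ}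
    (hD : IsOpen D) (hDc : IsPreconnected D) (hΨ : DifferentiableOn ℂ Ψ D)
    (hne : ∃ z ∈ D, Ψ z ≠ 0) (hCD : C ⊆ D)
    (hsat : ∀ t ∈ C, ∀ (k : ℕ) (r : ℝ) (g : ℂ → ℂ), Chart D Ψ k t r g →
      ∃ r₁ > 0, r₁ ≤ r ∧ ∀ w ∈ ball (0 : ℂ) r₁, (w ^ (k + 2)).im = 0 → (w ^ (k + 2)).re ≤ 0 →
        g w ∈ C) (hC' : C' ⊆ C) (hU : ∀ t ∈ C' \ A, ∃ U ∈ 𝓝 t, C ∩ U ⊆ C')
    {l : ℝ} (hl : 0 < l) {y : ℂ → ℂ} (hy : Sol D Ψ l y) {t : ℂ} (ht : t ∈ C' \ A)
    (hg : ‖deriv Ψ t‖ ^ 2 < 16 * l ^ 2 * ‖Ψ t‖ ^ 3) : ∃ s ∈ C', ‖y t‖ < ‖y s‖ := by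
  have hΨt : Ψ t ≠ 0 := by
    intro h0
    rw [h0] at hg
    simp only [norm_zero, ne_eq, OfNat.ofNat_ne_zero, not_false_eq_true, zero_pow, mul_zero] at hg
    exact absurd hg (not_lt.2 (by positivity))
  have htC : t ∈ C := hC' ht.1
  obtain ⟨k, r, g, hc, hk⟩ := hChart D Ψ t hD hDc hΨ hne (hCD htC)
  have hk0 := hk hΨt
  subst hk0
  obtain ⟨r₁, hr₁, hr₁r, hs⟩ := hsat t htC 0 r g hc
  obtain ⟨U, hUt, hUC⟩ := hU t ht
  by_contra hcon
  push Not at hcon
  refine hCvx D Ψ t r l g y hD hΨ hc hl hy hg ?_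
  have h1 : Tendsto (fun v : ℝ => (v : ℂ) * I) (𝓝 0) (𝓝 0) := by
    have : Continuous fun v : ℝ => (v : ℂ) * I := by fun_prop
    have h2 := this.tendsto 0
    simpa using h2
  have h2 : Tendsto (fun v : ℝ => g ((v : ℂ) * I)) (𝓝 0) (𝓝 t) := by
    have h3 := (chart_diff hc).continuousAt.tendsto
    rw [hc.z] at h3
    exact h3.comp h1
  filter_upwards [h2 hUt, h1 (ball_mem_nhds 0 hr₁)] with v hv1 hv2
  refine hcon _ (hUC ⟨hs _ hv2 ?_ ?_, hv1⟩)
  · have : ((v : ℂ) * I) ^ (0 + 2) = ((-(v ^ 2) : ℝ) : ℂ) := by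
      rw [zero_add, mul_pow, I_sq]; push_cast; ring
    rw [this, Complex.ofReal_im]
  · have : ((v : ℂ) * I) ^ (0 + 2) = ((-(v ^ 2) : ℝ) : ℂ) := by
      rw [zero_add, mul_pow, I_sq]; push_cast; ring
    rw [this, Complex.ofReal_re]
    nlinarith [sq_nonneg v]

end YmaxM

open YmaxM in
theorem specYmax (hChart : SpecChart) (hZG : SpecZG) (hCvx : SpecCvx) : SpecYmax := by
  intro D Ψ C C' A hD hDc hΨ hne hCD hsat hC' hcomp hU hA
  have hgood := fun {l : ℝ} (hl : 0 < l) {y : ℂ → ℂ} (hy : Sol D Ψ l y) {t : ℂ}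
    (ht : t ∈ C' \ A) (hg : ‖deriv Ψ t‖ ^ 2 < 16 * l ^ 2 * ‖Ψ t‖ ^ 3) =>
    good hChart hCvx hD hDc hΨ hne hCD hsat hC' hU hl hy ht hg
  have key := hcomp.induction_on (p := fun N => ∃ l₀ > 0, ∀ l ≥ l₀, ∀ y : ℂ → ℂ, Sol D Ψ l y →
    ∀ t ∈ N ∩ (C' \ A), ∃ s ∈ C', ‖y t‖ < ‖y s‖) ?_ ?_ ?_ ?_
  · obtain ⟨l₀, hl₀, h⟩ := key
    exact ⟨l₀, hl₀, fun l hl y hy t ht => h l hl y hy t ⟨ht.1, ht⟩⟩
  · exact ⟨1, one_pos, fun l _ y _ t ht => absurd ht.1 (notMem_empty t)⟩
  · rintro N N' hN ⟨l₀, hl₀, h⟩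
    exact ⟨l₀, hl₀, fun l hl y hy t ht => h l hl y hy t ⟨hN ht.1, ht.2⟩⟩
  · rintro N N' ⟨l₀, hl₀, h⟩ ⟨l₁, hl₁, h'⟩
    refine ⟨max l₀ l₁, lt_max_of_lt_left hl₀, fun l hl y hy t ht => ?_⟩
    rcases ht.1 with h1 | h1
    · exact h l ((le_max_left _ _).trans hl) y hy t ⟨h1, ht.2⟩
    · exact h' l ((le_max_right _ _).trans hl) y hy t ⟨h1, ht.2⟩
  · intro t htC'
    have htC : t ∈ C := hC' htC'
    have htD : t ∈ D := hCD htC
    by_cases h0 : Ψ t = 0
    · -- a zero of Ψ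
      have htA : t ∉ A := fun h => hA t h h0
      obtain ⟨U, hUt, hUC⟩ := hU t ⟨htC', htA⟩
      obtain ⟨k, r, g, hc, -⟩ := hChart D Ψ t hD hDc hΨ hne htD
      have hk : 1 ≤ k := by
        by_contra hcon
        have hk0 : k = 0 := by omega
        subst hk0
        have h1 := hc.eq 0 (mem_ball_self hc.r0)
        rw [hc.z, h0, zero_mul, pow_zero, mul_one] at h1
        norm_num at h1
      obtain ⟨r₁, hr₁, hr₁r, hs⟩ := hsat t htC k r g hc
      obtain ⟨r₂, hr₂, hr₂r, hz⟩ := hZG D Ψ k t r g hD hΨ hk hc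
      have h1 : g ⁻¹' U ∈ 𝓝 (0 : ℂ) := by
        have := (chart_diff hc).continuousAt
        apply this
        rwa [hc.z]
      obtain ⟨ε, hε, hεU⟩ := Metric.mem_nhds_iff.1 h1
      set r₃ : ℝ := min (min r₁ r₂) ε / 2 with hr₃
      have hmin : 0 < min (min r₁ r₂) ε := lt_min (lt_min hr₁ hr₂) hε
      have hr₃0 : 0 < r₃ := by positivity
      have hr₃1 : r₃ < r₁ := by
        have : min (min r₁ r₂) ε ≤ r₁ := (min_le_left _ _).trans (min_le_left _ _)
        linarith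
      have hr₃2 : r₃ < r₂ := by
        have : min (min r₁ r₂) ε ≤ r₂ := (min_le_left _ _).trans (min_le_right _ _)
        linarith
      have hr₃3 : r₃ < ε := by
        have : min (min r₁ r₂) ε ≤ ε := min_le_right _ _
        linarith
      obtain ⟨l₀, hl₀, hl⟩ := hz r₃ hr₃0 hr₃2
      refine ⟨g '' ball 0 r₃, ?_, l₀, hl₀, ?_⟩
      · apply mem_nhdsWithin_of_mem_nhds
        rw [← chart_map hc]
        exact image_mem_map (ball_mem_nhds 0 hr₃0)
      · intro l hl' y hy t' ht'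
        obtain ⟨w, hw1, hw2, hw3⟩ := hl l hl' y hy
        obtain ⟨⟨w', hw', rfl⟩, ht'2⟩ := ht'
        have hw'' : ‖w'‖ < r₃ := by simpa using hw'
        obtain ⟨h2, h3⟩ := hw3 w' hw''
        rcases le_or_gt (‖w'‖ ^ (k + 2)) (16 / l ^ 2) with h4 | h4
        · refine ⟨g w, hUC ⟨?_, ?_⟩, h2 h4⟩
          · have h5 : w ^ (k + 2) = ((-(r₃ ^ (k + 2)) : ℝ) : ℂ) := by
              rw [hw2]; push_cast; ring
            refine hs w ?_ ?_ ?_
            · simpa [hw1] using hr₃1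
            · rw [h5, Complex.ofReal_im]
            · rw [h5, Complex.ofReal_re]
              have : 0 < r₃ ^ (k + 2) := by positivity
              linarith
          · apply hεU
            simpa [hw1] using hr₃3
        · exact hgood (hl₀.trans_le hl') hy ht'2 (h3 h4)
    · -- Ψ t ≠ 0
      have hc1 : ContinuousAt Ψ t := (hΨ.differentiableAt (hD.mem_nhds htD)).continuousAt
      have hc2 : ContinuousAt (deriv Ψ) t :=
        ((hΨ.deriv hD).differentiableAt (hD.mem_nhds htD)).continuousAt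
      have hpos : 0 < ‖Ψ t‖ := norm_pos_iff.2 h0
      have h1 : ∀ᶠ z in 𝓝 t, ‖deriv Ψ z‖ < ‖deriv Ψ t‖ + 1 :=
        hc2.norm.eventually_lt_const (by linarith)
      have h2 : ∀ᶠ z in 𝓝 t, ‖Ψ t‖ / 2 < ‖Ψ z‖ :=
        hc1.norm.eventually_const_lt (by linarith)
      set a : ℝ := ‖deriv Ψ t‖ + 1 with ha
      set b : ℝ := ‖Ψ t‖ / 2 with hb
      have ha0 : 0 < a := by positivity
      have hb0 : 0 < b := by positivity
      refine ⟨{z | ‖deriv Ψ z‖ < a ∧ b < ‖Ψ z‖}, mem_nhdsWithin_of_mem_nhds (h1.and h2),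
        max 1 (a ^ 2 / (16 * b ^ 3)), lt_max_of_lt_left one_pos, ?_⟩
      intro l hl y hy t' ht'
      have hl1 : 1 ≤ l := (le_max_left _ _).trans hl
      have hl2 : a ^ 2 / (16 * b ^ 3) ≤ l := (le_max_right _ _).trans hl
      refine hgood (by linarith) hy ht'.2 ?_
      obtain ⟨⟨h3, h4⟩, -⟩ := ht'
      rw [div_le_iff₀ (by positivity)] at hl2
      have h5 : ‖deriv Ψ t'‖ ^ 2 < a ^ 2 := by
        have := norm_nonneg (deriv Ψ t')
        nlinarith
      have h6 : b ^ 3 ≤ ‖Ψ t'‖ ^ 3 := by gcongr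
      calc ‖deriv Ψ t'‖ ^ 2 < a ^ 2 := h5
        _ ≤ l * (16 * b ^ 3) := hl2
        _ ≤ l ^ 2 * (16 * b ^ 3) := by
            have : 0 < 16 * b ^ 3 := by positivity
            nlinarith
        _ ≤ 16 * l ^ 2 * ‖Ψ t'‖ ^ 3 := by nlinarith [sq_nonneg l]

theorem specIntF (hSat : SpecSat) (hY : SpecYmax) (hOde : SpecOde) : SpecIntF := by
  intro p hp Ψ H Hx Hy c hNM hΨ hne hcomp hfat z hz hzc
  have hsat := hSat p hp _ Ψ H Hx Hy c hNM hfat
  obtain ⟨l₀, hl₀, h⟩ := hY (ball 0 1) Ψ {z : ℂ | z ∈ ball (0 : ℂ) 1 ∧ H z = c}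
    {z : ℂ | z ∈ ball (0 : ℂ) 1 ∧ H z = c} ∅ isOpen_ball (convex_ball _ _).isPreconnected hΨ hne
    (fun z hz => hz.1) (by
      intro t ht k r g hc
      obtain ⟨r₁, hr₁, hr₁r, hs⟩ := hsat t ht.1 ht.2 k r g hc
      exact ⟨r₁, hr₁, hr₁r, fun w hw h1 h2 =>
        ⟨hc.maps (ball_subset_ball hr₁r hw), hs w hw h1 h2⟩⟩) Subset.rfl hcomp
    (fun t _ => ⟨univ, univ_mem, inter_subset_left⟩) (by simp)
  obtain ⟨y, hy, -, -⟩ := hOde Ψ l₀ 0 1 0 hΨ (by simp) (Or.inl one_ne_zero)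
  obtain ⟨t, ht, hmax⟩ := hcomp.exists_isMaxOn ⟨z, hz, hzc⟩
    ((hy.d.continuousOn.mono fun z hz => hz.1).norm)
  obtain ⟨s, hs, hlt⟩ := h l₀ le_rfl y hy t ⟨ht, notMem_empty t⟩
  exact absurd (hmax hs) (not_le.2 hlt)

end MPfa
end
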