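import Pool.Agent.Lib.MP_fa0334_an.RegSpec
import Pool.Agent.Lib.MP_fa0334_an.Ymax
import Pool.Agent.Lib.MP_fa0334_an.Weyl

/-!
Problem MP_fa0334_an, part REG, module CL: the Courant-Lebesgue inequality.
-/

set_option autoImplicit false

open MeasureTheory Set Filter Topology Metric Complex
open scoped ContDiff ENNReal ComplexConjugate

namespace MPfa.Reg

namespace CLM

open MPfa.OscAux

lemma norm_gr_sq (a b : ℂ) : ‖gr a b‖ ^ 2 = a.re ^ 2 + b.re ^ 2 := by
  rw [← Complex.normSq_eq_norm_sq, Complex.normSq_apply]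
  simp only [gr]
  ring

lemma re_lmap_sq_le (a b m : ℂ) : (lmap a b m).re ^ 2 ≤ ‖m‖ ^ 2 * ‖gr a b‖ ^ 2 := by
  rw [lmap_apply, norm_gr_sq]
  have h2 : ‖m‖ ^ 2 = m.re ^ 2 + m.im ^ 2 := by
    rw [← Complex.normSq_eq_norm_sq, Complex.normSq_apply]
    ring
  rw [h2]
  simp only [add_re, mul_re, ofReal_re, ofReal_im, zero_mul, sub_zero]
  nlinarith [sq_nonneg (m.re * b.re - m.im * a.re)]

/-- total variation of the real part on a circle -/
noncomputable def Len (Fx Fy : ℂ → ℂ) (c : ℂ) (r : ℝ) : ℝ≥0∞ :=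
  ∫⁻ θ in Ioo 0 (2 * Real.pi), ‖(lmap (Fx (circleMap c r θ)) (Fy (circleMap c r θ))
    (circleMap 0 r θ * I)).re‖ₑ

lemma osc_le {G : Set ℂ} {F Fx Fy : ℂ → ℂ} (hG : IsOpen G) (hF : ContinuousOn F G)
    (hW : WD G F Fx Fy) {c : ℂ} {R : ℝ} (hR : closedBall c R ⊆ G) :
    ∀ᵐ r : ℝ, 0 < r → r < R → ∀ z ∈ sphere c r, ∀ z' ∈ sphere c r,
      ENNReal.ofReal |(F z).re - (F z').re| ≤ Len Fx Fy c r := by
  filter_upwards [specCirc G F Fx Fy c hG hF hW] with r hr hr0 hrR z hz z' hz'
  have hmem : ∀ θ : ℝ, circleMap c r θ ∈ G := fun θ =>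
    hR (closedBall_subset_closedBall hrR.le (circleMap_mem_closedBall c hr0.le θ))
  have h1 := image_circleMap_Ioc c r
  rw [abs_of_pos hr0] at h1
  rw [← h1] at hz hz'
  obtain ⟨α, hα, rfl⟩ := hz
  obtain ⟨β, hβ, rfl⟩ := hz'
  set g : ℝ → ℂ := fun θ => lmap (Fx (circleMap c r θ)) (Fy (circleMap c r θ))
    (circleMap 0 r θ * I) with hg
  have hlen : Len Fx Fy c r = ∫⁻ θ in Ioc 0 (2 * Real.pi), ‖(g θ).re‖ₑ := by
    rw [Len, Measure.restrict_congr_set Ioo_ae_eq_Ioc]
  have key : ∀ a ∈ Ioc 0 (2 * Real.pi), ∀ b ∈ Ioc 0 (2 * Real.pi), a ≤ b →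
      ENNReal.ofReal |(F (circleMap c r b)).re - (F (circleMap c r a)).re| ≤ Len Fx Fy c r := by
    intro a ha b hb hab
    obtain ⟨hi, he⟩ := hr hr0 a b hab (fun _ _ => hmem _)
    have he' : (F (circleMap c r b)).re - (F (circleMap c r a)).re = ∫ θ in a..b, (g θ).re := by
      rw [← Complex.sub_re, he]
      exact (Complex.reCLM.intervalIntegral_comp_comm hi).symm
    rw [he', intervalIntegral.integral_of_le hab, hlen, ← Real.norm_eq_abs, ofReal_norm]
    refine (enorm_integral_le_lintegral_enorm _).trans ?_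
    exact lintegral_mono_set (Ioc_subset_Ioc ha.1.le hb.2)
  rcases le_total α β with h | h
  · have := key α hα β hβ h
    rwa [abs_sub_comm] at this
  · exact key β hβ α hα h

lemma len_sq_le (Fx Fy : ℂ → ℂ) (hx : Measurable Fx) (hy : Measurable Fy) (c : ℂ) (r : ℝ)
    (hr : 0 ≤ r) :
    Len Fx Fy c r ^ 2 ≤ ENNReal.ofReal (2 * Real.pi) * ∫⁻ θ in Ioo 0 (2 * Real.pi),
      ENNReal.ofReal r * (ENNReal.ofReal r *
        ENNReal.ofReal (‖gr (Fx (circleMap c r θ)) (Fy (circleMap c r θ))‖ ^ 2)) := by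
  have hmeas : AEMeasurable (fun θ : ℝ => ‖(lmap (Fx (circleMap c r θ)) (Fy (circleMap c r θ))
      (circleMap 0 r θ * I)).re‖ₑ) (volume.restrict (Ioo 0 (2 * Real.pi))) := by
    have hc : Measurable (circleMap c r) := (continuous_circleMap c r).measurable
    have hc0 : Measurable (circleMap 0 r) := (continuous_circleMap 0 r).measurable
    simp only [lmap_apply]
    apply Measurable.aemeasurable
    apply Measurable.enorm
    apply Complex.measurable_re.comp
    exact ((Complex.measurable_ofReal.comp (Complex.measurable_re.comp (hc0.mul_const I))).mul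
      (hx.comp hc)).add ((Complex.measurable_ofReal.comp
        (Complex.measurable_im.comp (hc0.mul_const I))).mul (hy.comp hc))
  refine (cs_const _ _ hmeas).trans ?_
  have hv : (volume.restrict (Ioo 0 (2 * Real.pi))) (univ : Set ℝ) = ENNReal.ofReal (2 * Real.pi) := by
    rw [Measure.restrict_apply_univ, Real.volume_Ioo, sub_zero]
  rw [hv]
  gcongr with θ
  have h := re_lmap_sq_le (Fx (circleMap c r θ)) (Fy (circleMap c r θ)) (circleMap 0 r θ * I)
  rw [norm_m r θ hr] at h
  calc ‖(lmap (Fx (circleMap c r θ)) (Fy (circleMap c r θ)) (circleMap 0 r θ * I)).re‖ₑ ^ 2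
      = ENNReal.ofReal ((lmap (Fx (circleMap c r θ)) (Fy (circleMap c r θ))
        (circleMap 0 r θ * I)).re ^ 2) := by
        rw [← ofReal_norm, ← ENNReal.ofReal_pow (norm_nonneg _), Real.norm_eq_abs, sq_abs]
    _ ≤ ENNReal.ofReal (r ^ 2 * ‖gr (Fx (circleMap c r θ)) (Fy (circleMap c r θ))‖ ^ 2) :=
        ENNReal.ofReal_le_ofReal h
    _ = _ := by
        rw [ENNReal.ofReal_mul (by positivity), ENNReal.ofReal_pow hr]
        ring

end CLM

open CLM MPfa.OscAux in
theorem specCL : SpecCL := by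
  intro G F Fx Fy c s R o hG hF hW h2x h2y hs hsR hR ho hosc
  set q : ℂ → ℝ := fun z => ‖gr (Fx z) (Fy z)‖ ^ 2 with hq
  have hqm : Measurable q := by
    have : q = fun z => (Fx z).re ^ 2 + (Fy z).re ^ 2 := by
      funext z
      exact norm_gr_sq _ _
    rw [this]
    exact ((Complex.measurable_re.comp hW.mx).pow_const 2).add
      ((Complex.measurable_re.comp hW.my).pow_const 2)
  have hq0 : ∀ z, 0 ≤ q z := fun z => by positivity
  -- finiteness
  have hK : IsCompact (closedBall c R) := isCompact_closedBall c R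
  have hfin : ∫⁻ z in ball c R, ENNReal.ofReal (q z) < ⊤ := by
    have e : ∀ z, ENNReal.ofReal (q z) = ENNReal.ofReal |(Fx z).re| ^ (2 : ℝ) +
        ENNReal.ofReal |(Fy z).re| ^ (2 : ℝ) := by
      intro z
      have h1 : q z = |(Fx z).re| ^ 2 + |(Fy z).re| ^ 2 := by
        rw [sq_abs, sq_abs]
        exact norm_gr_sq _ _
      rw [h1, ENNReal.ofReal_add (by positivity) (by positivity),
        ENNReal.ofReal_pow (abs_nonneg _), ENNReal.ofReal_pow (abs_nonneg _)]
      norm_cast
    calc ∫⁻ z in ball c R, ENNReal.ofReal (q z) ≤ ∫⁻ z in closedBall c R, ENNReal.ofReal (q z) :=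
          lintegral_mono_set ball_subset_closedBall
      _ = (∫⁻ z in closedBall c R, ENNReal.ofReal |(Fx z).re| ^ (2 : ℝ)) +
          ∫⁻ z in closedBall c R, ENNReal.ofReal |(Fy z).re| ^ (2 : ℝ) := by
          rw [← lintegral_add_left']
          · exact lintegral_congr fun z => e z
          · apply Measurable.aemeasurable
            exact ((((Complex.measurable_re.comp hW.mx).abs).ennreal_ofReal).pow_const 2)
      _ < ⊤ := ENNReal.add_lt_top.2 ⟨h2x _ hR hK, h2y _ hR hK⟩
  have hae := osc_le hG hF hW hR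
  have hlog : ∫⁻ r in Ioo s R, ENNReal.ofReal (1 / r) = ENNReal.ofReal (Real.log (R / s)) := by
    rw [← integral_one_div_of_pos hs (hs.trans hsR), intervalIntegral.integral_of_le hsR.le,
      Measure.restrict_congr_set Ioo_ae_eq_Ioc, ← ofReal_integral_eq_lintegral_ofReal]
    · have h1 : IntervalIntegrable (fun r : ℝ => 1 / r) volume s R := by
        apply intervalIntegral.intervalIntegrable_one_div
        · intro x hx
          rw [uIcc_of_le hsR.le] at hx
          exact (hs.trans_le hx.1).ne'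
        · exact continuousOn_id
      exact (intervalIntegrable_iff_integrableOn_Ioc_of_le hsR.le).mp h1
    · rw [Filter.EventuallyLE, ae_restrict_iff' measurableSet_Ioc]
      exact Eventually.of_forall fun r hr => by
        have : 0 < r := hs.trans hr.1
        simp only [Pi.zero_apply]
        positivity
  have hpos : 0 ≤ Real.log (R / s) := Real.log_nonneg (by rw [le_div_iff₀ hs]; linarith)
  have main : ENNReal.ofReal (Real.log (R / s) * o ^ 2) ≤
      ENNReal.ofReal (2 * Real.pi) * ∫⁻ z in ball c R, ENNReal.ofReal (q z) := by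
    calc ENNReal.ofReal (Real.log (R / s) * o ^ 2)
        = ∫⁻ r in Ioo s R, ENNReal.ofReal (1 / r) * ENNReal.ofReal (o ^ 2) := by
          rw [ENNReal.ofReal_mul hpos, ← hlog, lintegral_mul_const' _ _ ENNReal.ofReal_ne_top]
      _ ≤ ∫⁻ r in Ioo s R, ENNReal.ofReal (2 * Real.pi) *
            ∫⁻ θ in Ioo (0 : ℝ) (2 * Real.pi), ENNReal.ofReal r *
              ENNReal.ofReal (q (circleMap c r θ)) := by
          apply lintegral_mono_ae
          rw [ae_restrict_iff' measurableSet_Ioo]
          filter_upwards [hae] with r hr hrI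
          have hr0 : 0 < r := hs.trans hrI.1
          obtain ⟨z, hz, z', hz', hoz⟩ := hosc r ⟨hrI.1.le, hrI.2.le⟩
          have h1 := (ENNReal.ofReal_le_ofReal hoz).trans (hr hr0 hrI.2 z hz z' hz')
          have h2 : ENNReal.ofReal (o ^ 2) ≤ CLM.Len Fx Fy c r ^ 2 := by
            rw [ENNReal.ofReal_pow ho]
            exact ENNReal.pow_le_pow_left h1
          have h3 := h2.trans (CLM.len_sq_le Fx Fy hW.mx hW.my c r hr0.le)
          rw [lintegral_const_mul' _ _ ENNReal.ofReal_ne_top] at h3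
          calc ENNReal.ofReal (1 / r) * ENNReal.ofReal (o ^ 2)
              ≤ ENNReal.ofReal (1 / r) * (ENNReal.ofReal (2 * Real.pi) * (ENNReal.ofReal r *
                ∫⁻ θ in Ioo (0 : ℝ) (2 * Real.pi), ENNReal.ofReal r *
              ENNReal.ofReal (q (circleMap c r θ)))) := by
                gcongr
            _ = (ENNReal.ofReal (1 / r) * ENNReal.ofReal r) * (ENNReal.ofReal (2 * Real.pi) *
                ∫⁻ θ in Ioo (0 : ℝ) (2 * Real.pi), ENNReal.ofReal r *
              ENNReal.ofReal (q (circleMap c r θ))) := by ring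
            _ = _ := by
                rw [← ENNReal.ofReal_mul (by positivity), one_div_mul_cancel hr0.ne',
                  ENNReal.ofReal_one, one_mul]
      _ = ENNReal.ofReal (2 * Real.pi) * ∫⁻ r in Ioo s R,
            ∫⁻ θ in Ioo (0 : ℝ) (2 * Real.pi), ENNReal.ofReal r *
              ENNReal.ofReal (q (circleMap c r θ)) :=
          lintegral_const_mul' _ _ ENNReal.ofReal_ne_top
      _ ≤ _ := by
          gcongr
          exact pol_le specPol c R (fun w => ENNReal.ofReal (q w)) hqm.ennreal_ofReal s hs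
  have hint : ∫⁻ z in ball c R, ENNReal.ofReal (q z) =
      ENNReal.ofReal (∫ z in ball c R, q z) := by
    rw [ofReal_integral_eq_lintegral_ofReal]
    · refine ⟨hqm.aestronglyMeasurable, ?_⟩
      rw [hasFiniteIntegral_iff_ofReal (Eventually.of_forall hq0)]
      exact hfin
    · exact Eventually.of_forall hq0
  rw [hint, ← ENNReal.ofReal_mul (by positivity)] at main
  have h0 : 0 ≤ 2 * Real.pi * ∫ z in ball c R, q z :=
    mul_nonneg (by positivity) (integral_nonneg hq0)
  have := (ENNReal.ofReal_le_ofReal_iff h0).1 main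
  linarith [mul_comm (o ^ 2) (Real.log (R / s))]

end MPfa.Reg
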