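import Pool.Agent.Lib.MP_fa0334_an.RegSpec
import Pool.Agent.Lib.MP_fa0334_an.Mu

section
/-!
Problem MP_fa0334_an, part REG: module DSP (differences of a solution and its translate are sense
preserving).
-/
set_option autoImplicit false

open MeasureTheory Set Filter Topology Metric Complex
open scoped ContDiff ENNReal ComplexConjugate

namespace MPfa.Reg

namespace DspM

/-! ### algebra -/

theorem gr_sub (a b a' b' : ℂ) : gr (a - a') (b - b') = gr a b - gr a' b' := by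
  apply Complex.ext <;> simp [gr]

theorem gi_sub (a b a' b' : ℂ) : gi (a - a') (b - b') = gi a b - gi a' b' := by
  apply Complex.ext <;> simp [gi]

theorem jac_eq {a b A : ℂ} (h : gi a b = I * A) : jac a b = (conj (gr a b) * A).re := by
  have h1 : a.im = -A.im := by
    have := congrArg Complex.re h
    simpa [gi] using this
  have h2 : b.im = A.re := by
    have := congrArg Complex.im h
    simpa [gi] using this
  simp [jac, gr, h1, h2]
  ring

theorem abs_re_le_gr (a b : ℂ) : |a.re| ≤ ‖gr a b‖ := by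
  simpa [gr] using Complex.abs_re_le_norm (gr a b)

theorem abs_re_le_gr' (a b : ℂ) : |b.re| ≤ ‖gr a b‖ := by
  simpa [gr] using Complex.abs_im_le_norm (gr a b)

theorem abs_im_le_gi (a b : ℂ) : |a.im| ≤ ‖gi a b‖ := by
  simpa [gi] using Complex.abs_re_le_norm (gi a b)

theorem abs_im_le_gi' (a b : ℂ) : |b.im| ≤ ‖gi a b‖ := by
  simpa [gi] using Complex.abs_im_le_norm (gi a b)

theorem norm_Af (kf : ℝ → ℝ) {p : ℝ} (hk : KF p kf) (X : ℂ) : ‖Af kf X‖ = kf ‖X‖ * ‖X‖ := by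
  have h1 : 1 ≤ kf ‖X‖ := hk.one _ (norm_nonneg _)
  rw [Af, norm_mul, Complex.norm_real, Real.norm_eq_abs, abs_of_nonneg (by linarith)]

/-- growth of the two gradients -/
theorem pow_gr {p : ℝ} {kf : ℝ → ℝ} (hp : 1 < p) (hk : KF p kf) {s : ℝ} (hs : 0 ≤ s) :
    s ^ (2 * p / (p - 1)) ≤ kf s ^ p := by
  have h1 : 1 ≤ kf s := hk.one s hs
  have h2 := hk.pw s hs
  have hp1 : 0 < p - 1 := by linarith
  have h3 : s ^ (2 * p / (p - 1)) = (s ^ 2) ^ (p / (p - 1)) := by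
    rw [← Real.rpow_natCast, ← Real.rpow_mul hs]
    congr 1
    push_cast
    field_simp
  rw [h3]
  calc (s ^ 2) ^ (p / (p - 1)) ≤ (kf s ^ (p - 1)) ^ (p / (p - 1)) :=
        Real.rpow_le_rpow (by positivity) h2 (by positivity)
    _ = kf s ^ p := by
        rw [← Real.rpow_mul (by linarith)]
        congr 1
        field_simp

theorem pow_gi {p : ℝ} {kf : ℝ → ℝ} (hp : 1 < p) (hk : KF p kf) {s : ℝ} (hs : 0 ≤ s) :
    (kf s * s) ^ (2 * p / (p + 1)) ≤ kf s ^ p := by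
  have h1 : 1 ≤ kf s := hk.one s hs
  have h0 : 0 < kf s := by linarith
  have h2 := hk.pw s hs
  have hp1 : 0 < p + 1 := by linarith
  have h3 : (kf s * s) ^ 2 ≤ kf s ^ (p + 1) := by
    have : kf s ^ (p + 1) = kf s ^ (2 : ℕ) * kf s ^ (p - 1) := by
      rw [← Real.rpow_natCast, ← Real.rpow_add h0]
      congr 1
      push_cast
      ring
    rw [this, mul_pow]
    exact mul_le_mul_of_nonneg_left h2 (by positivity)
  have h4 : (kf s * s) ^ (2 * p / (p + 1)) = ((kf s * s) ^ 2) ^ (p / (p + 1)) := by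
    rw [← Real.rpow_natCast, ← Real.rpow_mul (by positivity)]
    congr 1
    push_cast
    field_simp
  rw [h4]
  calc ((kf s * s) ^ 2) ^ (p / (p + 1)) ≤ (kf s ^ (p + 1)) ^ (p / (p + 1)) :=
        Real.rpow_le_rpow (by positivity) h3 (by positivity)
    _ = kf s ^ p := by
        rw [← Real.rpow_mul (by linarith)]
        congr 1
        field_simp

/-! ### local `L^r` -/

theorem Lrl.mono {G : Set ℂ} {r r' : ℝ} {u v : ℂ → ℝ} (h : Lrl G r v)
    (hle : ∀ᵐ z ∂(volume.restrict G), ENNReal.ofReal |u z| ^ r' ≤ ENNReal.ofReal |v z| ^ r) :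
    Lrl G r' u := by
  intro K hK hKc
  refine lt_of_le_of_lt ?_ (h K hK hKc)
  exact lintegral_mono_ae (ae_restrict_of_ae_restrict_of_subset hK hle)

theorem Lrl.sub {G : Set ℂ} {r : ℝ} {u v : ℂ → ℝ} (hr : 1 ≤ r) (hu : Lrl G r u)
    (hv : Lrl G r v) (hm : Measurable u) : Lrl G r (fun z => u z - v z) := by
  intro K hK hKc
  have h1 : ∀ z, ENNReal.ofReal |u z - v z| ^ r ≤
      (2 : ℝ≥0∞) ^ (r - 1) * (ENNReal.ofReal |u z| ^ r + ENNReal.ofReal |v z| ^ r) := by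
    intro z
    calc ENNReal.ofReal |u z - v z| ^ r
        ≤ (ENNReal.ofReal |u z| + ENNReal.ofReal |v z|) ^ r := by
          refine ENNReal.rpow_le_rpow ?_ (by linarith)
          rw [← ENNReal.ofReal_add (abs_nonneg _) (abs_nonneg _)]
          exact ENNReal.ofReal_le_ofReal (abs_sub _ _)
      _ ≤ _ := ENNReal.rpow_add_le_mul_rpow_add_rpow _ _ hr
  refine lt_of_le_of_lt (lintegral_mono h1) ?_
  have hmu : Measurable fun z => ENNReal.ofReal |u z| ^ r := by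
    have : Measurable fun z => |u z| := by
      have := hm.norm
      simpa [Real.norm_eq_abs] using this
    exact this.ennreal_ofReal.pow_const r
  rw [lintegral_const_mul' _ _ (by finiteness), lintegral_add_left hmu]
  exact ENNReal.mul_lt_top (by finiteness) (ENNReal.add_lt_top.2 ⟨hu K hK hKc, hv K hK hKc⟩)

theorem Lrl.subset {G G' : Set ℂ} {r : ℝ} {u : ℂ → ℝ} (h : Lrl G r u) (hs : G' ⊆ G) :
    Lrl G' r u := fun K hK hc => h K (hK.trans hs) hc

theorem lint_shift (τ : ℂ) (K : Set ℂ) (f : ℂ → ℝ≥0∞) :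
    ∫⁻ z in K, f (z + τ) = ∫⁻ z in (fun z => z + τ) '' K, f z := by
  have h := (measurePreserving_add_right (volume : Measure ℂ) τ).setLIntegral_comp_emb
    (measurableEmbedding_addRight τ) f K
  rw [← h]

theorem Lrl.shift {G G' : Set ℂ} {r : ℝ} {u : ℂ → ℝ} (h : Lrl G r u) (τ : ℂ)
    (hs : ∀ z ∈ G', z + τ ∈ G) : Lrl G' r (fun z => u (z + τ)) := by
  intro K hK hKc
  have h1 : IsCompact ((fun z => z + τ) '' K) := hKc.image (by fun_prop)
  have h2 : (fun z => z + τ) '' K ⊆ G := by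
    rintro _ ⟨z, hz, rfl⟩
    exact hs z (hK hz)
  have := h _ h2 h1
  rwa [← lint_shift τ K (fun z => ENNReal.ofReal |u z| ^ r)] at this

/-! ### weak derivatives: translates and differences -/

theorem LI.shift {G G' : Set ℂ} {u : ℂ → ℂ} (h : LI G u) (τ : ℂ)
    (hs : ∀ z ∈ G', z + τ ∈ G) : LI G' (fun z => u (z + τ)) := by
  intro K hK hKc
  have h1 : IsCompact ((fun z => z + τ) '' K) := hKc.image (by fun_prop)
  have h2 : (fun z => z + τ) '' K ⊆ G := by
    rintro _ ⟨z, hz, rfl⟩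
    exact hs z (hK hz)
  exact ((measurePreserving_add_right (volume : Measure ℂ) τ).integrableOn_image
    (measurableEmbedding_addRight τ)).1 (h _ h2 h1)

theorem test_shift {G G' : Set ℂ} {φ : ℂ → ℝ} (h : Test G' φ) (τ : ℂ)
    (hs : ∀ z ∈ G', z + τ ∈ G) : Test G (fun z => φ (z - τ)) := by
  refine ⟨h.sm.comp (contDiff_id.sub contDiff_const), ?_, ?_⟩
  · have := h.cs.comp_homeomorph (Homeomorph.subRight τ)
    exact this
  · intro z hz
    have h1 : z - τ ∈ tsupport φ := by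
      have h2 : tsupport (fun z => φ (z - τ)) ⊆ (fun z => z - τ) ⁻¹' tsupport φ := by
        refine closure_minimal ?_ ((isClosed_tsupport φ).preimage (by fun_prop))
        intro w hw
        exact subset_tsupport φ hw
      exact h2 hz
    have h3 := hs _ (h.su h1)
    simpa using h3

theorem fderiv_shift (φ : ℂ → ℝ) (τ z v : ℂ) :
    fderiv ℝ (fun z => φ (z - τ)) z v = fderiv ℝ φ (z - τ) v := by
  rw [fderiv_comp_sub]

theorem WD.shift {G G' : Set ℂ} {F Fx Fy : ℂ → ℂ} (h : WD G F Fx Fy) (τ : ℂ)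
    (hs : ∀ z ∈ G', z + τ ∈ G) :
    WD G' (fun z => F (z + τ)) (fun z => Fx (z + τ)) (fun z => Fy (z + τ)) where
  mx := h.mx.comp (measurable_id.add_const τ)
  my := h.my.comp (measurable_id.add_const τ)
  lF := LI.shift h.lF τ hs
  lx := LI.shift h.lx τ hs
  ly := LI.shift h.ly τ hs
  ix := fun φ hφ => by
    have h1 := h.ix _ (test_shift hφ τ hs)
    simp only [fderiv_shift] at h1
    have h2 := integral_add_right_eq_self (μ := (volume : Measure ℂ))
      (fun z => (fderiv ℝ φ (z - τ) 1) • F z) τ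
    have h3 := integral_add_right_eq_self (μ := (volume : Measure ℂ))
      (fun z => φ (z - τ) • Fx z) τ
    simp only [add_sub_cancel_right] at h2 h3
    rw [h2, h3]
    exact h1
  iy := fun φ hφ => by
    have h1 := h.iy _ (test_shift hφ τ hs)
    simp only [fderiv_shift] at h1
    have h2 := integral_add_right_eq_self (μ := (volume : Measure ℂ))
      (fun z => (fderiv ℝ φ (z - τ) I) • F z) τ
    have h3 := integral_add_right_eq_self (μ := (volume : Measure ℂ))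
      (fun z => φ (z - τ) • Fy z) τ
    simp only [add_sub_cancel_right] at h2 h3
    rw [h2, h3]
    exact h1

theorem WD.subset {G G' : Set ℂ} {F Fx Fy : ℂ → ℂ} (h : WD G F Fx Fy) (hs : G' ⊆ G) :
    WD G' F Fx Fy where
  mx := h.mx
  my := h.my
  lF := fun K hK hc => h.lF K (hK.trans hs) hc
  lx := fun K hK hc => h.lx K (hK.trans hs) hc
  ly := fun K hK hc => h.ly K (hK.trans hs) hc
  ix := fun φ hφ => h.ix φ ⟨hφ.sm, hφ.cs, hφ.su.trans hs⟩
  iy := fun φ hφ => h.iy φ ⟨hφ.sm, hφ.cs, hφ.su.trans hs⟩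

theorem WD.sub {G : Set ℂ} {F Fx Fy H Hx Hy : ℂ → ℂ} (h : WD G F Fx Fy) (h' : WD G H Hx Hy) :
    WD G (fun z => F z - H z) (fun z => Fx z - Hx z) (fun z => Fy z - Hy z) where
  mx := h.mx.sub h'.mx
  my := h.my.sub h'.my
  lF := fun K hK hc => (h.lF K hK hc).sub (h'.lF K hK hc)
  lx := fun K hK hc => (h.lx K hK hc).sub (h'.lx K hK hc)
  ly := fun K hK hc => (h.ly K hK hc).sub (h'.ly K hK hc)
  ix := fun φ hφ => by
    simp only [smul_sub]
    rw [integral_sub (Wk.tintd hφ h.lF 1) (Wk.tintd hφ h'.lF 1),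
      integral_sub (Wk.tint hφ h.lx) (Wk.tint hφ h'.lx), h.ix φ hφ, h'.ix φ hφ]
    ring
  iy := fun φ hφ => by
    simp only [smul_sub]
    rw [integral_sub (Wk.tintd hφ h.lF I) (Wk.tintd hφ h'.lF I),
      integral_sub (Wk.tint hφ h.ly) (Wk.tint hφ h'.ly), h.iy φ hφ, h'.iy φ hφ]
    ring

/-- almost everywhere statements for translates -/
theorem ae_shift {G G' : Set ℂ} {P : ℂ → Prop} (hG' : MeasurableSet G') (hG : MeasurableSet G)
    (h : ∀ᵐ z ∂(volume.restrict G), P z) (τ : ℂ) (hs : ∀ z ∈ G', z + τ ∈ G) :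
    ∀ᵐ z ∂(volume.restrict G'), P (z + τ) := by
  rw [ae_restrict_iff' hG] at h
  rw [ae_restrict_iff' hG']
  have h1 := (measurePreserving_add_right (volume : Measure ℂ) τ).quasiMeasurePreserving.ae h
  filter_upwards [h1] with z hz hzG
  exact hz (hs z hzG)

/-- both gradients of a solution are in the right spaces -/
theorem Sol.wp {p : ℝ} {kf : ℝ → ℝ} (hp : 1 < p) (hk : KF p kf) {G : Set ℂ} {F Fx Fy : ℂ → ℂ}
    (h : Sol p kf G F Fx Fy) : WP G (2 * p / (p - 1)) (2 * p / (p + 1)) F Fx Fy := by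
  have hp1 : 0 < p - 1 := by linarith
  have hr : (0 : ℝ) ≤ 2 * p / (p - 1) := by positivity
  have hs : (0 : ℝ) ≤ 2 * p / (p + 1) := by positivity
  have hR : ∀ (x : ℝ) (X : ℂ), |x| ≤ ‖X‖ →
      ENNReal.ofReal |x| ^ (2 * p / (p - 1)) ≤ ENNReal.ofReal |kf ‖X‖| ^ p := by
    intro x X hx
    have h1 : 1 ≤ kf ‖X‖ := hk.one _ (norm_nonneg _)
    rw [ENNReal.ofReal_rpow_of_nonneg (abs_nonneg _) hr,
      ENNReal.ofReal_rpow_of_nonneg (abs_nonneg _) (by linarith)]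
    apply ENNReal.ofReal_le_ofReal
    rw [abs_of_nonneg (show (0 : ℝ) ≤ kf ‖X‖ by linarith)]
    exact (Real.rpow_le_rpow (abs_nonneg _) hx hr).trans (pow_gr hp hk (norm_nonneg _))
  have hI : ∀ (x : ℝ) (X : ℂ), |x| ≤ kf ‖X‖ * ‖X‖ →
      ENNReal.ofReal |x| ^ (2 * p / (p + 1)) ≤ ENNReal.ofReal |kf ‖X‖| ^ p := by
    intro x X hx
    have h1 : 1 ≤ kf ‖X‖ := hk.one _ (norm_nonneg _)
    rw [ENNReal.ofReal_rpow_of_nonneg (abs_nonneg _) hs,
      ENNReal.ofReal_rpow_of_nonneg (abs_nonneg _) (by linarith)]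
    apply ENNReal.ofReal_le_ofReal
    rw [abs_of_nonneg (show (0 : ℝ) ≤ kf ‖X‖ by linarith)]
    exact (Real.rpow_le_rpow (abs_nonneg _) hx hs).trans (pow_gi hp hk (norm_nonneg _))
  have hgi : ∀ᵐ z ∂(volume.restrict G),
      ‖gi (Fx z) (Fy z)‖ = kf ‖gr (Fx z) (Fy z)‖ * ‖gr (Fx z) (Fy z)‖ := by
    filter_upwards [h.eq] with z hz
    rw [hz.2, norm_mul, Complex.norm_I, one_mul, norm_Af kf hk]
  refine ⟨h.op, h.co, h.wd, ?_, ?_, ?_, ?_⟩
  · exact Lrl.mono h.en (Eventually.of_forall fun z => hR _ _ (abs_re_le_gr _ _))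
  · exact Lrl.mono h.en (Eventually.of_forall fun z => hR _ _ (abs_re_le_gr' _ _))
  · refine Lrl.mono h.en ?_
    filter_upwards [hgi] with z hz
    exact hI _ _ (by rw [← hz]; exact abs_im_le_gi _ _)
  · refine Lrl.mono h.en ?_
    filter_upwards [hgi] with z hz
    exact hI _ _ (by rw [← hz]; exact abs_im_le_gi' _ _)

end DspM

open DspM

theorem specDSP (hA : SpecAf) : SpecDSP := by
  intro p kf hp hk G F Fx Fy hS c τ R hR hG
  obtain ⟨Λ, hΛ, hAf⟩ := hA p kf hp hk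
  have hp1 : 0 < p - 1 := by linarith
  have hwp := DspM.Sol.wp hp hk hS
  have hsub : ball c R ⊆ G := by
    refine (ball_subset_closedBall.trans (closedBall_subset_closedBall ?_)).trans hG
    linarith [norm_nonneg τ]
  have hsh : ∀ z ∈ ball c R, z + τ ∈ G := by
    intro z hz
    apply hG
    rw [mem_ball, dist_eq_norm] at hz
    rw [mem_closedBall, dist_eq_norm]
    calc ‖z + τ - c‖ = ‖(z - c) + τ‖ := by congr 1; ring
      _ ≤ ‖z - c‖ + ‖τ‖ := norm_add_le _ _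
      _ ≤ R + ‖τ‖ := by linarith
  have hr1 : 1 ≤ 2 * p / (p - 1) := by
    rw [le_div_iff₀ hp1]
    linarith
  have hs1 : 1 < 2 * p / (p + 1) := by
    rw [lt_div_iff₀ (by linarith)]
    linarith
  refine ⟨?_, hs1, ?_, ?_, ?_⟩
  · rw [lt_div_iff₀ hp1]
    linarith
  · field_simp
    ring
  · refine ⟨isOpen_ball, ?_, ?_, ?_, ?_, ?_, ?_⟩
    · refine ContinuousOn.sub ?_ (hS.co.mono hsub)
      exact hS.co.comp (by fun_prop) hsh
    · exact WD.sub (WD.shift hS.wd τ hsh) (WD.subset hS.wd hsub)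
    · have := Lrl.sub hr1 (Lrl.shift hwp.rx τ hsh) (Lrl.subset hwp.rx hsub)
        (Complex.measurable_re.comp (hS.wd.mx.comp (measurable_id.add_const τ)))
      simpa using this
    · have := Lrl.sub hr1 (Lrl.shift hwp.ry τ hsh) (Lrl.subset hwp.ry hsub)
        (Complex.measurable_re.comp (hS.wd.my.comp (measurable_id.add_const τ)))
      simpa using this
    · have := Lrl.sub hs1.le (Lrl.shift hwp.sx τ hsh) (Lrl.subset hwp.sx hsub)
        (Complex.measurable_im.comp (hS.wd.mx.comp (measurable_id.add_const τ)))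
      simpa using this
    · have := Lrl.sub hs1.le (Lrl.shift hwp.sy τ hsh) (Lrl.subset hwp.sy hsub)
        (Complex.measurable_im.comp (hS.wd.my.comp (measurable_id.add_const τ)))
      simpa using this
  · have h1 := ae_shift isOpen_ball.measurableSet hS.op.measurableSet hS.eq τ hsh
    have h2 := ae_restrict_of_ae_restrict_of_subset hsub hS.eq
    filter_upwards [h1, h2] with z hz1 hz2
    rw [gr_sub, one_mul]
    have h3 : gi (Fx (z + τ) - Fx z) (Fy (z + τ) - Fy z) =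
        I * (Af kf (gr (Fx (z + τ)) (Fy (z + τ))) - Af kf (gr (Fx z) (Fy z))) := by
      rw [gi_sub, hz1.2, hz2.2]
      ring
    rw [jac_eq h3, gr_sub]
    have h4 := (hAf (gr (Fx (z + τ)) (Fy (z + τ))) (gr (Fx z) (Fy z))).1
    refine le_trans ?_ h4
    have h5 := hk.one _ (norm_nonneg (gr (Fx (z + τ)) (Fy (z + τ))))
    have h6 := hk.one _ (norm_nonneg (gr (Fx z) (Fy z)))
    have h7 : 1 ≤ (kf ‖gr (Fx (z + τ)) (Fy (z + τ))‖ + kf ‖gr (Fx z) (Fy z)‖) / 2 := by linarith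
    nlinarith [sq_nonneg ‖gr (Fx (z + τ)) (Fy (z + τ)) - gr (Fx z) (Fy z)‖]

end MPfa.Reg
end

section
/-!
Problem MP_fa0334_an, part REG: module DQ (energy of the difference quotients of a solution).
-/
set_option autoImplicit false

open MeasureTheory Set Filter Topology Metric Complex
open scoped ContDiff ENNReal ComplexConjugate

namespace MPfa.Reg

namespace DqM

/-! ### differences of Sobolev functions in `L^r` -/

/-- Jensen on the unit interval -/
theorem jensen {r : ℝ} (hr : 1 < r) {g : ℝ → ℝ≥0∞} (hg : Measurable g) :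
    (∫⁻ s in Ioc (0 : ℝ) 1, g s) ^ r ≤ ∫⁻ s in Ioc (0 : ℝ) 1, g s ^ r := by
  have hpq : r.HolderConjugate (r / (r - 1)) := Real.HolderConjugate.conjExponent hr
  have h := ENNReal.lintegral_mul_le_Lp_mul_Lq (volume.restrict (Ioc (0 : ℝ) 1)) hpq
    (f := g) (g := fun _ => 1) hg.aemeasurable aemeasurable_const
  simp only [Pi.mul_apply, mul_one, ENNReal.one_rpow, lintegral_const, one_mul] at h
  have h1 : (volume.restrict (Ioc (0 : ℝ) 1)) univ = 1 := by simp
  rw [h1, ENNReal.one_rpow, mul_one] at h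
  have hr0 : 0 < r := by linarith
  calc (∫⁻ s in Ioc (0 : ℝ) 1, g s) ^ r
      ≤ ((∫⁻ s in Ioc (0 : ℝ) 1, g s ^ r) ^ (1 / r)) ^ r := ENNReal.rpow_le_rpow h hr0.le
    _ = ∫⁻ s in Ioc (0 : ℝ) 1, g s ^ r := by
        rw [← ENNReal.rpow_mul, one_div, inv_mul_cancel₀ hr0.ne', ENNReal.rpow_one]

theorem lin (f : ℂ →L[ℝ] ℂ) (τ : ℂ) : |(f τ).re| ≤ ‖τ‖ * (|(f 1).re| + |(f I).re|) := by
  have h1 : f τ = (τ.re : ℝ) • f 1 + (τ.im : ℝ) • f I := by
    conv_lhs => rw [show τ = (τ.re : ℝ) • (1 : ℂ) + (τ.im : ℝ) • I by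
      apply Complex.ext <;> simp]
    rw [map_add, map_smul, map_smul]
  rw [h1]
  have h2 := Complex.abs_re_le_norm τ
  have h3 := Complex.abs_im_le_norm τ
  simp only [Complex.add_re, Complex.smul_re, smul_eq_mul]
  calc |τ.re * (f 1).re + τ.im * (f I).re| ≤ |τ.re * (f 1).re| + |τ.im * (f I).re| :=
        abs_add_le _ _
    _ = |τ.re| * |(f 1).re| + |τ.im| * |(f I).re| := by rw [abs_mul, abs_mul]
    _ ≤ ‖τ‖ * |(f 1).re| + ‖τ‖ * |(f I).re| := by gcongr
    _ = _ := by ring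

theorem pt {F : ℂ → ℂ} (hF : ContDiff ℝ ∞ F) (z τ : ℂ) :
    ENNReal.ofReal |(F (z + τ) - F z).re| ≤
      ∫⁻ s in Ioc (0 : ℝ) 1, ENNReal.ofReal |(fderiv ℝ F (z + (s : ℂ) * τ) τ).re| := by
  have hd : ∀ s : ℝ, HasDerivAt (fun s : ℝ => (F (z + (s : ℂ) * τ)).re)
      ((fderiv ℝ F (z + (s : ℂ) * τ) τ).re) s := by
    intro s
    have h1 : HasDerivAt (fun s : ℝ => z + (s : ℂ) * τ) τ s := by
      have h2 : HasDerivAt (fun s : ℝ => (s : ℂ)) 1 s := Complex.ofRealCLM.hasDerivAt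
      simpa using (h2.mul_const τ).const_add z
    have h3 : HasFDerivAt F (fderiv ℝ F (z + (s : ℂ) * τ)) (z + (s : ℂ) * τ) :=
      ((hF.differentiable (by simp)) _).hasFDerivAt
    have h4 := h3.comp_hasDerivAt s h1
    exact Complex.reCLM.hasFDerivAt.comp_hasDerivAt s h4
  have hc : Continuous fun s : ℝ => (fderiv ℝ F (z + (s : ℂ) * τ) τ).re := by
    have h1 : Continuous fun w : ℂ => fderiv ℝ F w τ :=
      (hF.continuous_fderiv (by simp)).clm_apply continuous_const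
    exact Complex.continuous_re.comp (h1.comp (by fun_prop))
  have h := intervalIntegral.integral_eq_sub_of_hasDerivAt (a := 0) (b := 1)
    (fun s _ => hd s) (hc.intervalIntegrable 0 1)
  simp only [Complex.ofReal_one, one_mul, Complex.ofReal_zero, zero_mul, add_zero] at h
  rw [Complex.sub_re, ← h, intervalIntegral.integral_of_le zero_le_one]
  have h5 := enorm_integral_le_lintegral_enorm (μ := volume.restrict (Ioc (0 : ℝ) 1))
    (fun s : ℝ => (fderiv ℝ F (z + (s : ℂ) * τ) τ).re)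
  simpa only [Real.enorm_eq_ofReal_abs] using h5

/-- difference quotients of smooth functions -/
theorem dq_smooth {r : ℝ} (hr : 1 < r) {F : ℂ → ℂ} (hF : ContDiff ℝ ∞ F) (τ : ℂ)
    {K K' : Set ℂ} (hK : ∀ z ∈ K, ∀ s ∈ Ioc (0 : ℝ) 1, z + (s : ℂ) * τ ∈ K') :
    ∫⁻ z in K, ENNReal.ofReal |(F (z + τ) - F z).re| ^ r ≤
      ENNReal.ofReal ‖τ‖ ^ r * (2 ^ (r - 1) *
        ((∫⁻ z in K', ENNReal.ofReal |(fderiv ℝ F z 1).re| ^ r) +
          ∫⁻ z in K', ENNReal.ofReal |(fderiv ℝ F z I).re| ^ r)) := by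
  have hr0 : 0 ≤ r := by linarith
  have hcd : ∀ v : ℂ, Continuous fun w : ℂ => (fderiv ℝ F w v).re := fun v =>
    Complex.continuous_re.comp ((hF.continuous_fderiv (by simp)).clm_apply continuous_const)
  have hmd : ∀ v : ℂ, Measurable fun w : ℂ => ENNReal.ofReal |(fderiv ℝ F w v).re| ^ r :=
    fun v => ((hcd v).abs.measurable.ennreal_ofReal).pow_const r
  have h1 : ∀ z, ENNReal.ofReal |(F (z + τ) - F z).re| ^ r ≤
      ∫⁻ s in Ioc (0 : ℝ) 1, ENNReal.ofReal |(fderiv ℝ F (z + (s : ℂ) * τ) τ).re| ^ r := by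
    intro z
    refine (ENNReal.rpow_le_rpow (pt hF z τ) hr0).trans (jensen hr ?_)
    have : Continuous fun s : ℝ => |(fderiv ℝ F (z + (s : ℂ) * τ) τ).re| :=
      ((hcd τ).comp (by fun_prop)).abs
    exact this.measurable.ennreal_ofReal
  have h2 : ∀ w : ℂ, ENNReal.ofReal |(fderiv ℝ F w τ).re| ^ r ≤
      ENNReal.ofReal ‖τ‖ ^ r * (2 ^ (r - 1) * (ENNReal.ofReal |(fderiv ℝ F w 1).re| ^ r +
        ENNReal.ofReal |(fderiv ℝ F w I).re| ^ r)) := by
    intro w
    calc ENNReal.ofReal |(fderiv ℝ F w τ).re| ^ r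
        ≤ (ENNReal.ofReal ‖τ‖ * (ENNReal.ofReal |(fderiv ℝ F w 1).re| +
          ENNReal.ofReal |(fderiv ℝ F w I).re|)) ^ r := by
          refine ENNReal.rpow_le_rpow ?_ hr0
          rw [← ENNReal.ofReal_add (abs_nonneg _) (abs_nonneg _),
            ← ENNReal.ofReal_mul (norm_nonneg _)]
          exact ENNReal.ofReal_le_ofReal (lin _ _)
      _ = ENNReal.ofReal ‖τ‖ ^ r * (ENNReal.ofReal |(fderiv ℝ F w 1).re| +
          ENNReal.ofReal |(fderiv ℝ F w I).re|) ^ r := ENNReal.mul_rpow_of_nonneg _ _ hr0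
      _ ≤ _ := by
          gcongr
          exact ENNReal.rpow_add_le_mul_rpow_add_rpow _ _ hr.le
  calc ∫⁻ z in K, ENNReal.ofReal |(F (z + τ) - F z).re| ^ r
      ≤ ∫⁻ z in K, ∫⁻ s in Ioc (0 : ℝ) 1,
          ENNReal.ofReal |(fderiv ℝ F (z + (s : ℂ) * τ) τ).re| ^ r := lintegral_mono h1
    _ = ∫⁻ s in Ioc (0 : ℝ) 1, ∫⁻ z in K,
          ENNReal.ofReal |(fderiv ℝ F (z + (s : ℂ) * τ) τ).re| ^ r := by
        refine lintegral_lintegral_swap ?_
        have : Measurable fun q : ℂ × ℝ =>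
            ENNReal.ofReal |(fderiv ℝ F (q.1 + (q.2 : ℂ) * τ) τ).re| ^ r := by
          have h3 : Continuous fun q : ℂ × ℝ => |(fderiv ℝ F (q.1 + (q.2 : ℂ) * τ) τ).re| :=
            ((hcd τ).comp (by fun_prop)).abs
          exact h3.measurable.ennreal_ofReal.pow_const r
        exact this.aemeasurable
    _ ≤ ∫⁻ s in Ioc (0 : ℝ) 1, ∫⁻ z in K',
          ENNReal.ofReal |(fderiv ℝ F z τ).re| ^ r := by
        refine setLIntegral_mono' measurableSet_Ioc fun s hs => ?_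
        rw [DspM.lint_shift ((s : ℂ) * τ) K
          (fun z => ENNReal.ofReal |(fderiv ℝ F z τ).re| ^ r)]
        refine lintegral_mono_set ?_
        rintro _ ⟨z, hz, rfl⟩
        exact hK z hz s hs
    _ = ∫⁻ z in K', ENNReal.ofReal |(fderiv ℝ F z τ).re| ^ r := by simp
    _ ≤ ∫⁻ z in K', ENNReal.ofReal ‖τ‖ ^ r * (2 ^ (r - 1) *
          (ENNReal.ofReal |(fderiv ℝ F z 1).re| ^ r +
            ENNReal.ofReal |(fderiv ℝ F z I).re| ^ r)) := lintegral_mono h2
    _ = _ := by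
        have h5 : Measurable fun w : ℂ => ENNReal.ofReal |(fderiv ℝ F w 1).re| ^ r +
            ENNReal.ofReal |(fderiv ℝ F w I).re| ^ r := (hmd 1).add (hmd I)
        rw [lintegral_const_mul _ (h5.const_mul _), lintegral_const_mul _ h5,
          lintegral_add_left (hmd 1)]

/-- difference quotients of Sobolev functions -/
theorem dq_sob (hM : SpecMol) {r : ℝ} (hr : 1 < r) {G : Set ℂ} {F Fx Fy : ℂ → ℂ}
    (hG : IsOpen G) (hF : ContinuousOn F G) (hW : WD G F Fx Fy)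
    (hx : Lrl G r (fun z => (Fx z).re)) (hy : Lrl G r (fun z => (Fy z).re)) (τ : ℂ)
    {K K' : Set ℂ} (hK : ∀ z ∈ K, ∀ s ∈ Icc (0 : ℝ) 1, z + (s : ℂ) * τ ∈ K')
    (hKm : MeasurableSet K) (hKG : K' ⊆ G) (hKc : IsCompact K') :
    ∫⁻ z in K, ENNReal.ofReal |(F (z + τ) - F z).re| ^ r ≤
      ENNReal.ofReal ‖τ‖ ^ r * (2 ^ (r - 1) * (2 ^ (r - 1) *
        ((∫⁻ z in K', ENNReal.ofReal |(Fx z).re| ^ r) +
          ∫⁻ z in K', ENNReal.ofReal |(Fy z).re| ^ r))) := by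
  have hr0 : 0 ≤ r := by linarith
  obtain ⟨Fn, hsm, hun, hL⟩ := hM G F Fx Fy hG hF hW K' hKG hKc
  obtain ⟨hLx, hLy⟩ := hL r hr.le Complex.reCLM
  have hLx := hLx hx
  have hLy := hLy hy
  simp only [Complex.reCLM_apply] at hLx hLy
  have hfin : (2 : ℝ≥0∞) ^ (r - 1) ≠ ⊤ := by finiteness
  -- pointwise convergence
  have hp0 : ∀ z ∈ K, z ∈ K' := fun z hz => by
    simpa using hK z hz 0 ⟨le_rfl, zero_le_one⟩
  have hp1 : ∀ z ∈ K, z + τ ∈ K' := fun z hz => by
    simpa using hK z hz 1 ⟨zero_le_one, le_rfl⟩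
  have hpt : ∀ z ∈ K, Tendsto (fun n => ENNReal.ofReal |(Fn n (z + τ) - Fn n z).re| ^ r) atTop
      (𝓝 (ENNReal.ofReal |(F (z + τ) - F z).re| ^ r)) := by
    intro z hz
    have h1 := (hun.tendsto_at (hp1 z hz)).sub (hun.tendsto_at (hp0 z hz))
    have h2 := (Complex.continuous_re.tendsto _).comp h1
    have h3 := ENNReal.tendsto_ofReal h2.abs
    exact (ENNReal.continuous_rpow_const.tendsto _).comp h3
  -- the bound for every n
  have hsum : ∀ (A B : ℂ → ℝ), Measurable B → ∫⁻ z in K', ENNReal.ofReal |A z| ^ r ≤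
      2 ^ (r - 1) * ((∫⁻ z in K', ENNReal.ofReal |A z - B z| ^ r) +
        ∫⁻ z in K', ENNReal.ofReal |B z| ^ r) := by
    intro A B hB
    have hBm : Measurable fun z => ENNReal.ofReal |B z| ^ r := by
      have : Measurable fun z => |B z| := by simpa [Real.norm_eq_abs] using hB.norm
      exact this.ennreal_ofReal.pow_const r
    rw [← lintegral_add_right _ hBm, ← lintegral_const_mul' _ _ hfin]
    refine lintegral_mono fun z => ?_
    calc ENNReal.ofReal |A z| ^ r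
        ≤ (ENNReal.ofReal |A z - B z| + ENNReal.ofReal |B z|) ^ r := by
          refine ENNReal.rpow_le_rpow ?_ hr0
          rw [← ENNReal.ofReal_add (abs_nonneg _) (abs_nonneg _)]
          refine ENNReal.ofReal_le_ofReal ?_
          calc |A z| = |(A z - B z) + B z| := by ring_nf
            _ ≤ _ := abs_add_le _ _
      _ ≤ _ := ENNReal.rpow_add_le_mul_rpow_add_rpow _ _ hr.le
  have hmx : Measurable fun z => (Fx z).re := Complex.measurable_re.comp hW.mx
  have hmy : Measurable fun z => (Fy z).re := Complex.measurable_re.comp hW.my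
  have hle : ∀ n, ∫⁻ z in K, ENNReal.ofReal |(Fn n (z + τ) - Fn n z).re| ^ r ≤
      ENNReal.ofReal ‖τ‖ ^ r * (2 ^ (r - 1) * (2 ^ (r - 1) *
        (((∫⁻ z in K', ENNReal.ofReal |(fderiv ℝ (Fn n) z 1).re - (Fx z).re| ^ r) +
          ∫⁻ z in K', ENNReal.ofReal |(Fx z).re| ^ r) +
        ((∫⁻ z in K', ENNReal.ofReal |(fderiv ℝ (Fn n) z I).re - (Fy z).re| ^ r) +
          ∫⁻ z in K', ENNReal.ofReal |(Fy z).re| ^ r)))) := by
    intro n
    refine (dq_smooth hr (hsm n) τ (fun z hz s hs => hK z hz s ⟨hs.1.le, hs.2⟩)).trans ?_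
    gcongr
    rw [mul_add]
    gcongr
    · exact hsum _ _ hmx
    · exact hsum _ _ hmy
  have hlim := ((hLx.add_const (∫⁻ z in K', ENNReal.ofReal |(Fx z).re| ^ r)).add
    (hLy.add_const (∫⁻ z in K', ENNReal.ofReal |(Fy z).re| ^ r)))
  simp only [zero_add] at hlim
  have hlim2 := ENNReal.Tendsto.const_mul (a := ENNReal.ofReal ‖τ‖ ^ r)
    (ENNReal.Tendsto.const_mul (a := (2 : ℝ≥0∞) ^ (r - 1))
      (ENNReal.Tendsto.const_mul (a := (2 : ℝ≥0∞) ^ (r - 1)) hlim (Or.inr hfin)) (Or.inr hfin))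
    (Or.inr (by finiteness))
  calc ∫⁻ z in K, ENNReal.ofReal |(F (z + τ) - F z).re| ^ r
      = ∫⁻ z in K, liminf (fun n => ENNReal.ofReal |(Fn n (z + τ) - Fn n z).re| ^ r) atTop :=
        setLIntegral_congr_fun hKm fun z hz => (hpt z hz).liminf_eq.symm
    _ ≤ liminf (fun n => ∫⁻ z in K, ENNReal.ofReal |(Fn n (z + τ) - Fn n z).re| ^ r) atTop := by
        refine lintegral_liminf_le fun n => ?_
        have : Continuous fun z => |(Fn n (z + τ) - Fn n z).re| :=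
          (Complex.continuous_re.comp (((hsm n).continuous.comp (by fun_prop)).sub
            (hsm n).continuous)).abs
        exact this.measurable.ennreal_ofReal.pow_const r
    _ ≤ liminf (fun n => ENNReal.ofReal ‖τ‖ ^ r * (2 ^ (r - 1) * (2 ^ (r - 1) *
        (((∫⁻ z in K', ENNReal.ofReal |(fderiv ℝ (Fn n) z 1).re - (Fx z).re| ^ r) +
          ∫⁻ z in K', ENNReal.ofReal |(Fx z).re| ^ r) +
        ((∫⁻ z in K', ENNReal.ofReal |(fderiv ℝ (Fn n) z I).re - (Fy z).re| ^ r) +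
          ∫⁻ z in K', ENNReal.ofReal |(Fy z).re| ^ r))))) atTop :=
        liminf_le_liminf (Eventually.of_forall hle)
    _ = _ := hlim2.liminf_eq

/-! ### the pointwise inequality -/

theorem pw {z zx zy D Λ w X J : ℝ} {a b : ℂ} (hw : 0 ≤ w)
    (hJ : w / 2 * X ^ 2 ≤ J) (hg : ‖gi a b‖ ≤ Λ * w * X) :
    |D * ((2 * z * zx) * b.im - (2 * z * zy) * a.im)| ≤
      1 / 2 * (z ^ 2 * J) + 4 * Λ ^ 2 * ((zx ^ 2 + zy ^ 2) * (D ^ 2 * w)) := by
  have h1 : |zx * b.im - zy * a.im| ≤ Real.sqrt (zx ^ 2 + zy ^ 2) * ‖gi a b‖ := by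
    have h2 : ‖gi a b‖ = Real.sqrt (a.im ^ 2 + b.im ^ 2) := by
      rw [Complex.norm_def, Complex.normSq_apply]
      simp only [gi]
      congr 1
      ring
    rw [h2, ← Real.sqrt_mul (by positivity)]
    apply Real.abs_le_sqrt
    nlinarith [sq_nonneg (zx * a.im + zy * b.im)]
  have hs := Real.sqrt_nonneg (zx ^ 2 + zy ^ 2)
  have hss := Real.sq_sqrt (show 0 ≤ zx ^ 2 + zy ^ 2 by positivity)
  set g := Real.sqrt (zx ^ 2 + zy ^ 2) with hgdef
  rw [← hss]
  have h3 : |D * ((2 * z * zx) * b.im - (2 * z * zy) * a.im)| =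
      2 * |D| * |z| * |zx * b.im - zy * a.im| := by
    rw [show D * ((2 * z * zx) * b.im - (2 * z * zy) * a.im) =
      2 * (D * z * (zx * b.im - zy * a.im)) by ring, abs_mul, abs_mul, abs_mul]
    simp
    ring
  rw [h3]
  have h4 : |zx * b.im - zy * a.im| ≤ g * (Λ * w * X) :=
    h1.trans (mul_le_mul_of_nonneg_left hg hs)
  have h5 : 2 * |D| * |z| * |zx * b.im - zy * a.im| ≤ 2 * |D| * |z| * (g * (Λ * w * X)) :=
    mul_le_mul_of_nonneg_left h4 (by positivity)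
  have h6 : w * (|z| * X / 2 - 2 * (|D| * g * Λ)) ^ 2 ≥ 0 := by positivity
  have h7 : |z| ^ 2 = z ^ 2 := sq_abs z
  have h8 : |D| ^ 2 = D ^ 2 := sq_abs D
  have h9 : z ^ 2 * (w / 2 * X ^ 2) ≤ z ^ 2 * J := mul_le_mul_of_nonneg_left hJ (by positivity)
  have h10 : w * (|z| * X / 2 - 2 * (|D| * g * Λ)) ^ 2 =
      1 / 2 * (|z| ^ 2 * (w / 2 * X ^ 2)) + 4 * Λ ^ 2 * (g ^ 2 * (|D| ^ 2 * w)) -
        2 * |D| * |z| * (g * (Λ * w * X)) := by ring
  rw [h7, h8] at h10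
  linarith

/-- measurability of `kf |X|` -/
theorem meas_kf {p : ℝ} {kf : ℝ → ℝ} (hk : KF p kf) {A B : ℂ → ℂ} (hA : Measurable A)
    (hB : Measurable B) : Measurable fun z => kf ‖gr (A z) (B z)‖ := by
  have h1 : Continuous fun t : ℝ => kf (max 0 t) :=
    hk.cont.comp_continuous (by fun_prop) fun t => mem_Ici.2 (le_max_left 0 t)
  have h2 : Measurable fun z => gr (A z) (B z) := by
    have h3 : (fun z => gr (A z) (B z)) = fun z =>
        (((A z).re : ℝ) : ℂ) + (((B z).re : ℝ) : ℂ) * I := by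
      funext z
      apply Complex.ext <;> simp [gr]
    rw [h3]
    exact ((Complex.measurable_ofReal.comp (Complex.measurable_re.comp hA)).add
      ((Complex.measurable_ofReal.comp (Complex.measurable_re.comp hB)).mul_const I))
  have h4 := h1.measurable.comp h2.norm
  have h5 : (fun z => kf ‖gr (A z) (B z)‖) =
      (fun t : ℝ => kf (max 0 t)) ∘ fun z => ‖gr (A z) (B z)‖ := by
    funext z
    simp
  rw [h5]
  exact h4

/-- the energy inequality for differences -/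
theorem main {p : ℝ} {kf : ℝ → ℝ} (hp : 1 < p) (hk : KF p kf) (hI : SpecIBP) (hD : SpecDSP)
    {Λ : ℝ} (hΛ : 1 ≤ Λ) (hAf : ∀ X Y : ℂ,
      (kf ‖X‖ + kf ‖Y‖) / 2 * ‖X - Y‖ ^ 2 ≤ (conj (X - Y) * (Af kf X - Af kf Y)).re ∧
      ‖Af kf X - Af kf Y‖ ≤ Λ * (kf ‖X‖ + kf ‖Y‖) * ‖X - Y‖)
    {G : Set ℂ} {F Fx Fy : ℂ → ℂ} (hS : Sol p kf G F Fx Fy) {c τ : ℂ} {R : ℝ} (hR : 0 < R)
    (hG : closedBall c (R + ‖τ‖) ⊆ G) {ζ : ℂ → ℝ} (hζ : Test (ball c R) ζ) :
    ∫⁻ z, ENNReal.ofReal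
        (ζ z ^ 2 * ‖gr (Fx (z + τ)) (Fy (z + τ)) - gr (Fx z) (Fy z)‖ ^ 2) ≤
      2 * ∫⁻ z, ENNReal.ofReal (4 * Λ ^ 2 * (gz ζ z * (((F (z + τ) - F z).re) ^ 2 *
        (kf ‖gr (Fx (z + τ)) (Fy (z + τ))‖ + kf ‖gr (Fx z) (Fy z)‖)))) := by
  have hSP := hD p kf hp hk G F Fx Fy hS c τ R hR hG
  have hsub : ball c R ⊆ G := by
    refine (ball_subset_closedBall.trans (closedBall_subset_closedBall ?_)).trans hG
    linarith [norm_nonneg τ]
  have hsh : ∀ z ∈ ball c R, z + τ ∈ G := by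
    intro z hz
    apply hG
    rw [mem_ball, dist_eq_norm] at hz
    rw [mem_closedBall, dist_eq_norm]
    calc ‖z + τ - c‖ = ‖(z - c) + τ‖ := by congr 1; ring
      _ ≤ ‖z - c‖ + ‖τ‖ := norm_add_le _ _
      _ ≤ R + ‖τ‖ := by linarith
  -- the pointwise facts
  have hpt : ∀ᵐ z ∂(volume.restrict (ball c R)),
      (kf ‖gr (Fx (z + τ)) (Fy (z + τ))‖ + kf ‖gr (Fx z) (Fy z)‖) / 2 *
        ‖gr (Fx (z + τ)) (Fy (z + τ)) - gr (Fx z) (Fy z)‖ ^ 2 ≤
          jac (Fx (z + τ) - Fx z) (Fy (z + τ) - Fy z) ∧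
      ‖gi (Fx (z + τ) - Fx z) (Fy (z + τ) - Fy z)‖ ≤
        Λ * (kf ‖gr (Fx (z + τ)) (Fy (z + τ))‖ + kf ‖gr (Fx z) (Fy z)‖) *
          ‖gr (Fx (z + τ)) (Fy (z + τ)) - gr (Fx z) (Fy z)‖ := by
    have h1 := DspM.ae_shift isOpen_ball.measurableSet hS.op.measurableSet hS.eq τ hsh
    have h2 := ae_restrict_of_ae_restrict_of_subset hsub hS.eq
    filter_upwards [h1, h2] with z hz1 hz2
    have h3 : gi (Fx (z + τ) - Fx z) (Fy (z + τ) - Fy z) =
        I * (Af kf (gr (Fx (z + τ)) (Fy (z + τ))) - Af kf (gr (Fx z) (Fy z))) := by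
      rw [DspM.gi_sub, hz1.2, hz2.2]
      ring
    constructor
    · rw [DspM.jac_eq h3, DspM.gr_sub]
      exact (hAf _ _).1
    · rw [h3, norm_mul, Complex.norm_I, one_mul]
      exact (hAf _ _).2
  -- integration by parts
  have hT : Test (ball c R) (fun z => ζ z * ζ z) := Wk.tmul hζ hζ.sm
  obtain ⟨hi1, hi2, hi3⟩ := hI (ball c R) _ _ _ _ _ hSP.hr hSP.hs hSP.hrs hSP.wp univ id
    (fun _ => 1) isOpen_univ (fun t _ => hasDerivAt_id t) continuousOn_const
    (fun _ _ => mem_univ _) _ hT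
  simp only [mul_one, id] at hi1 hi2 hi3
  have hfd : ∀ z v, fderiv ℝ (fun z => ζ z * ζ z) z v = 2 * ζ z * fderiv ℝ ζ z v := by
    intro z v
    have h1 := (Wk.tdif hζ z)
    rw [fderiv_fun_mul h1 h1]
    simp
    ring
  simp only [hfd] at hi2 hi3
  -- abbreviations
  set w : ℂ → ℝ := fun z => kf ‖gr (Fx (z + τ)) (Fy (z + τ))‖ + kf ‖gr (Fx z) (Fy z)‖ with hwdef
  set J : ℂ → ℝ := fun z => jac (Fx (z + τ) - Fx z) (Fy (z + τ) - Fy z) with hJdef
  set X : ℂ → ℝ := fun z => ‖gr (Fx (z + τ)) (Fy (z + τ)) - gr (Fx z) (Fy z)‖ with hXdef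
  set g : ℂ → ℝ := fun z => (F (z + τ) - F z).re *
    (2 * ζ z * fderiv ℝ ζ z 1 * (Fy (z + τ) - Fy z).im -
      2 * ζ z * fderiv ℝ ζ z I * (Fx (z + τ) - Fx z).im) with hgdef
  set b : ℂ → ℝ := fun z => 4 * Λ ^ 2 * (gz ζ z * (((F (z + τ) - F z).re) ^ 2 * w z)) with hbdef
  have hw2 : ∀ z, 2 ≤ w z := by
    intro z
    have h5 := hk.one _ (norm_nonneg (gr (Fx (z + τ)) (Fy (z + τ))))
    have h6 := hk.one _ (norm_nonneg (gr (Fx z) (Fy z)))
    simp only [hwdef]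
    linarith
  have hgl : ∀ᵐ z, z ∈ ball c R → w z / 2 * X z ^ 2 ≤ J z ∧
      ‖gi (Fx (z + τ) - Fx z) (Fy (z + τ) - Fy z)‖ ≤ Λ * w z * X z :=
    (ae_restrict_iff' isOpen_ball.measurableSet).1 hpt
  have hz0 : ∀ z, z ∉ ball c R → ζ z = 0 := fun z hz => by
    by_contra h0
    exact hz (hζ.su (subset_tsupport ζ h0))
  have hXJ : ∀ᵐ z, ζ z ^ 2 * X z ^ 2 ≤ ζ z * ζ z * J z := by
    filter_upwards [hgl] with z hz
    by_cases hzb : z ∈ ball c R
    · have h1 := (hz hzb).1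
      have h2 : X z ^ 2 ≤ J z := by nlinarith [hw2 z, sq_nonneg (X z)]
      nlinarith [mul_le_mul_of_nonneg_left h2 (sq_nonneg (ζ z))]
    · simp [hz0 z hzb]
  have hJ0 : 0 ≤ᵐ[volume] fun z => ζ z * ζ z * J z := by
    filter_upwards [hXJ] with z hz
    exact le_trans (by positivity) hz
  have hgb : ∀ᵐ z, |g z| ≤ 1 / 2 * (ζ z * ζ z * J z) + b z := by
    filter_upwards [hgl] with z hz
    by_cases hzb : z ∈ ball c R
    · obtain ⟨h1, h2⟩ := hz hzb
      have h3 := pw (z := ζ z) (zx := fderiv ℝ ζ z 1) (zy := fderiv ℝ ζ z I)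
        (D := (F (z + τ) - F z).re) (by linarith [hw2 z]) h1 h2
      simp only [hgdef, hbdef, gz]
      rw [show ζ z * ζ z = ζ z ^ 2 by ring]
      exact h3
    · have h1 : ζ z = 0 := hz0 z hzb
      have h2 : 0 ≤ b z := by
        have := hw2 z
        have h5 : 0 ≤ w z := by linarith
        simp only [hbdef, gz]
        positivity
      simp only [hgdef, h1]
      simpa using h2
  have hJm : Measurable fun z => ζ z * ζ z * J z := by
    have h1 : Measurable fun z => Fx (z + τ) - Fx z :=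
      (hS.wd.mx.comp (measurable_id.add_const τ)).sub hS.wd.mx
    have h2 : Measurable fun z => Fy (z + τ) - Fy z :=
      (hS.wd.my.comp (measurable_id.add_const τ)).sub hS.wd.my
    have h3 : Measurable J := by
      simp only [hJdef, jac]
      exact ((Complex.measurable_re.comp h1).mul (Complex.measurable_im.comp h2)).sub
        ((Complex.measurable_im.comp h1).mul (Complex.measurable_re.comp h2))
    have h4 := (Wk.tcont hζ).measurable
    exact (h4.mul h4).mul h3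
  -- the final computation
  set a : ℝ := ∫ z, ζ z * ζ z * J z with hadef
  have ha0 : 0 ≤ a := integral_nonneg_of_ae hJ0
  have hA : ∫⁻ z, ENNReal.ofReal (ζ z * ζ z * J z) = ENNReal.ofReal a :=
    (ofReal_integral_eq_lintegral_ofReal hi1 hJ0).symm
  have hA2 : ∫⁻ z, ENNReal.ofReal (1 / 2 * (ζ z * ζ z * J z)) = ENNReal.ofReal (a / 2) := by
    have h1 : ∀ z, ENNReal.ofReal (1 / 2 * (ζ z * ζ z * J z)) =
        ENNReal.ofReal (1 / 2) * ENNReal.ofReal (ζ z * ζ z * J z) := fun z =>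
      ENNReal.ofReal_mul (by norm_num)
    simp only [h1]
    rw [lintegral_const_mul' _ _ ENNReal.ofReal_ne_top, hA, ← ENNReal.ofReal_mul (by norm_num)]
    congr 1
    ring
  have h1 : ENNReal.ofReal a ≤ ENNReal.ofReal (a / 2) + ∫⁻ z, ENNReal.ofReal (b z) := by
    calc ENNReal.ofReal a = ENNReal.ofReal (- ∫ z, g z) := by rw [← hi3]
      _ ≤ ‖∫ z, g z‖ₑ := by
          rw [Real.enorm_eq_ofReal_abs]
          exact ENNReal.ofReal_le_ofReal (neg_le_abs _)
      _ ≤ ∫⁻ z, ‖g z‖ₑ := enorm_integral_le_lintegral_enorm _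
      _ ≤ ∫⁻ z, (ENNReal.ofReal (1 / 2 * (ζ z * ζ z * J z)) + ENNReal.ofReal (b z)) := by
          refine lintegral_mono_ae ?_
          filter_upwards [hgb] with z hz
          rw [Real.enorm_eq_ofReal_abs]
          exact (ENNReal.ofReal_le_ofReal hz).trans ENNReal.ofReal_add_le
      _ = _ := by
          rw [lintegral_add_left, hA2]
          exact (hJm.const_mul _).ennreal_ofReal
  have h2 : ENNReal.ofReal a ≤ 2 * ∫⁻ z, ENNReal.ofReal (b z) := by
    by_cases hB : ∫⁻ z, ENNReal.ofReal (b z) = ⊤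
    · rw [hB, ENNReal.mul_top (by norm_num)]
      exact le_top
    · rw [← ENNReal.ofReal_toReal hB] at h1 ⊢
      have hb0 : 0 ≤ (∫⁻ z, ENNReal.ofReal (b z)).toReal := ENNReal.toReal_nonneg
      rw [← ENNReal.ofReal_add (by linarith) hb0,
        ENNReal.ofReal_le_ofReal_iff (by linarith)] at h1
      rw [show (2 : ℝ≥0∞) = ENNReal.ofReal 2 by simp, ← ENNReal.ofReal_mul (by norm_num)]
      exact ENNReal.ofReal_le_ofReal (by linarith)
  refine le_trans (lintegral_mono_ae ?_) (hA.le.trans h2)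
  filter_upwards [hXJ] with z hz
  exact ENNReal.ofReal_le_ofReal hz

/-- the weight in `L^p` -/
theorem weight {p : ℝ} {kf : ℝ → ℝ} (hp : 1 < p) (hk : KF p kf) {Fx Fy : ℂ → ℂ}
    (hmx : Measurable Fx) (hmy : Measurable Fy) (τ : ℂ) {K K' : Set ℂ} (h0 : K ⊆ K')
    (h1 : ∀ z ∈ K, z + τ ∈ K') :
    ∫⁻ z in K, ENNReal.ofReal (kf ‖gr (Fx (z + τ)) (Fy (z + τ))‖ + kf ‖gr (Fx z) (Fy z)‖) ^ p ≤
      2 ^ (p - 1) * ((∫⁻ z in K', ENNReal.ofReal |kf ‖gr (Fx z) (Fy z)‖| ^ p) +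
        ∫⁻ z in K', ENNReal.ofReal |kf ‖gr (Fx z) (Fy z)‖| ^ p) := by
  have hm : Measurable fun z => ENNReal.ofReal |kf ‖gr (Fx z) (Fy z)‖| ^ p := by
    have h2 := (meas_kf hk hmx hmy).norm
    simp only [Real.norm_eq_abs] at h2
    exact h2.ennreal_ofReal.pow_const p
  have hpt : ∀ z, ENNReal.ofReal
      (kf ‖gr (Fx (z + τ)) (Fy (z + τ))‖ + kf ‖gr (Fx z) (Fy z)‖) ^ p ≤
      2 ^ (p - 1) * (ENNReal.ofReal |kf ‖gr (Fx (z + τ)) (Fy (z + τ))‖| ^ p +
        ENNReal.ofReal |kf ‖gr (Fx z) (Fy z)‖| ^ p) := by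
    intro z
    refine le_trans (ENNReal.rpow_le_rpow ?_ (by linarith))
      (ENNReal.rpow_add_le_mul_rpow_add_rpow _ _ hp.le)
    rw [← ENNReal.ofReal_add (abs_nonneg _) (abs_nonneg _)]
    exact ENNReal.ofReal_le_ofReal (add_le_add (le_abs_self _) (le_abs_self _))
  refine (lintegral_mono hpt).trans ?_
  rw [lintegral_const_mul' _ _ (by finiteness), lintegral_add_right _ hm]
  refine mul_le_mul' le_rfl (add_le_add ?_ (lintegral_mono_set h0))
  rw [DspM.lint_shift τ K (fun z => ENNReal.ofReal |kf ‖gr (Fx z) (Fy z)‖| ^ p)]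
  refine lintegral_mono_set ?_
  rintro _ ⟨z, hz, rfl⟩
  exact h1 z hz

end DqM

open DqM

theorem specDQ (hD : SpecDSP) (hA : SpecAf) (hI : SpecIBP) (hM : SpecMol) (hC : SpecCut) :
    SpecDQ := by
  intro p kf hp hk G F Fx Fy hS c R hR hG
  obtain ⟨Λ, hΛ, hAf⟩ := hA p kf hp hk
  obtain ⟨C₀, hC₀, hcut⟩ := hC
  obtain ⟨ζ, hζt, hζ01, hζ1, hζg⟩ := hcut c (R / 2) (3 * R / 4) (by positivity) (by linarith)
  have hp1 : 0 < p - 1 := by linarith
  have hwp := DspM.Sol.wp hp hk hS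
  set r : ℝ := 2 * p / (p - 1) with hrdef
  have hr1 : 1 < r := by
    rw [hrdef, lt_div_iff₀ hp1]
    linarith
  set q : ℝ := p / (p - 1) with hqdef
  have hq0 : 0 < q := by positivity
  have hqp : q.HolderConjugate p := (Real.HolderConjugate.conjExponent hp).symm
  have hrq : 2 * q = r := by rw [hrdef, hqdef]; ring
  set Gm : ℝ := (C₀ / (3 * R / 4 - R / 2)) ^ 2 with hGm
  set E₁ : ℝ≥0∞ := 2 ^ (r - 1) * (2 ^ (r - 1) *
    ((∫⁻ z in closedBall c R, ENNReal.ofReal |(Fx z).re| ^ r) +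
      ∫⁻ z in closedBall c R, ENNReal.ofReal |(Fy z).re| ^ r)) with hE₁
  set W : ℝ≥0∞ := 2 ^ (p - 1) *
    ((∫⁻ z in closedBall c R, ENNReal.ofReal |kf ‖gr (Fx z) (Fy z)‖| ^ p) +
      ∫⁻ z in closedBall c R, ENNReal.ofReal |kf ‖gr (Fx z) (Fy z)‖| ^ p) with hWdef
  have hE₁f : E₁ ≠ ⊤ := by
    have h1 := hwp.rx _ hG (isCompact_closedBall c R)
    have h2 := hwp.ry _ hG (isCompact_closedBall c R)
    exact ENNReal.mul_ne_top (by finiteness) (ENNReal.mul_ne_top (by finiteness)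
      (ENNReal.add_ne_top.2 ⟨h1.ne, h2.ne⟩))
  have hWf : W ≠ ⊤ := by
    have h1 := hS.en _ hG (isCompact_closedBall c R)
    exact ENNReal.mul_ne_top (by finiteness) (ENNReal.add_ne_top.2 ⟨h1.ne, h1.ne⟩)
  set E : ℝ≥0∞ := 2 * (ENNReal.ofReal (4 * Λ ^ 2 * Gm) * (E₁ ^ (1 / q) * W ^ (1 / p))) with hE
  have hEf : E ≠ ⊤ := by
    refine ENNReal.mul_ne_top (by norm_num) (ENNReal.mul_ne_top ENNReal.ofReal_ne_top
      (ENNReal.mul_ne_top ?_ ?_))
    · exact ENNReal.rpow_ne_top_of_nonneg (by positivity) hE₁f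
    · exact ENNReal.rpow_ne_top_of_nonneg (by positivity) hWf
  refine ⟨E.toReal, R / 8, ENNReal.toReal_nonneg, by positivity, fun τ hτ => ?_⟩
  have hG' : closedBall c (7 * R / 8 + ‖τ‖) ⊆ G :=
    (closedBall_subset_closedBall (by linarith)).trans hG
  have hζt' : Test (ball c (7 * R / 8)) ζ :=
    ⟨hζt.sm, hζt.cs, hζt.su.trans (ball_subset_ball (by linarith))⟩
  have hmain := main hp hk hI hD hΛ hAf hS (by positivity) hG' hζt'
  -- geometry
  have hgeo : ∀ z ∈ closedBall c (3 * R / 4), ∀ s ∈ Icc (0 : ℝ) 1,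
      z + (s : ℂ) * τ ∈ closedBall c R := by
    intro z hz s hs
    rw [mem_closedBall, dist_eq_norm] at hz ⊢
    have h1 : ‖(s : ℂ) * τ‖ ≤ ‖τ‖ := by
      rw [norm_mul, Complex.norm_real, Real.norm_eq_abs, abs_of_nonneg hs.1]
      exact mul_le_of_le_one_left (norm_nonneg _) hs.2
    calc ‖z + (s : ℂ) * τ - c‖ = ‖(z - c) + (s : ℂ) * τ‖ := by congr 1; ring
      _ ≤ ‖z - c‖ + ‖(s : ℂ) * τ‖ := norm_add_le _ _
      _ ≤ R := by linarith
  have hgeo0 : closedBall c (3 * R / 4) ⊆ closedBall c R :=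
    closedBall_subset_closedBall (by linarith)
  have hgeo1 : ∀ z ∈ closedBall c (3 * R / 4), z + τ ∈ closedBall c R := fun z hz => by
    simpa using hgeo z hz 1 ⟨zero_le_one, le_rfl⟩
  have hdq := dq_sob hM hr1 hS.op hS.co hS.wd hwp.rx hwp.ry τ hgeo measurableSet_closedBall hG
    (isCompact_closedBall c R)
  have hw := weight hp hk hS.wd.mx hS.wd.my τ hgeo0 hgeo1
  set w : ℂ → ℝ := fun z => kf ‖gr (Fx (z + τ)) (Fy (z + τ))‖ + kf ‖gr (Fx z) (Fy z)‖ with hwdef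
  have hw0 : ∀ z, 0 ≤ w z := by
    intro z
    have h5 := hk.one _ (norm_nonneg (gr (Fx (z + τ)) (Fy (z + τ))))
    have h6 := hk.one _ (norm_nonneg (gr (Fx z) (Fy z)))
    simp only [hwdef]
    linarith
  -- the right hand side
  have hB : ∫⁻ z, ENNReal.ofReal (4 * Λ ^ 2 * (gz ζ z * (((F (z + τ) - F z).re) ^ 2 * w z))) ≤
      ENNReal.ofReal (4 * Λ ^ 2 * Gm) * ∫⁻ z in closedBall c (3 * R / 4),
        (ENNReal.ofReal |(F (z + τ) - F z).re| ^ (2 : ℝ)) * ENNReal.ofReal (w z) := by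
    rw [← lintegral_const_mul' _ _ ENNReal.ofReal_ne_top,
      ← lintegral_indicator measurableSet_closedBall]
    refine lintegral_mono fun z => ?_
    by_cases hz : z ∈ closedBall c (3 * R / 4)
    · rw [indicator_of_mem hz]
      have h1 : ENNReal.ofReal |(F (z + τ) - F z).re| ^ (2 : ℝ) =
          ENNReal.ofReal (((F (z + τ) - F z).re) ^ 2) := by
        rw [ENNReal.ofReal_rpow_of_nonneg (abs_nonneg _) (by norm_num)]
        congr 1
        rw [← sq_abs]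
        exact Real.rpow_natCast _ 2
      rw [h1, ← ENNReal.ofReal_mul (by positivity), ← ENNReal.ofReal_mul (by positivity)]
      apply ENNReal.ofReal_le_ofReal
      have h2 := hζg z
      have h3 : 0 ≤ ((F (z + τ) - F z).re) ^ 2 * w z := mul_nonneg (sq_nonneg _) (hw0 z)
      calc 4 * Λ ^ 2 * (gz ζ z * (((F (z + τ) - F z).re) ^ 2 * w z))
          ≤ 4 * Λ ^ 2 * (Gm * (((F (z + τ) - F z).re) ^ 2 * w z)) := by gcongr
        _ = _ := by ring
    · have h0 : z ∉ tsupport ζ := fun h => hz (ball_subset_closedBall (hζt.su h))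
      have h1 : fderiv ℝ ζ z = 0 := fderiv_of_notMem_tsupport (𝕜 := ℝ) h0
      rw [indicator_of_notMem hz]
      simp [gz, h1]
  have hH := ENNReal.lintegral_mul_le_Lp_mul_Lq
    (volume.restrict (closedBall c (3 * R / 4))) hqp
    (f := fun z => ENNReal.ofReal |(F (z + τ) - F z).re| ^ (2 : ℝ))
    (g := fun z => ENNReal.ofReal (w z)) ?_ ?_
  rotate_left
  · have h1 : ContinuousOn (fun z => |(F (z + τ) - F z).re|) (closedBall c (3 * R / 4)) := by
      refine (Complex.continuous_re.comp_continuousOn (ContinuousOn.sub ?_ ?_)).abs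
      · exact (hS.co.mono hG).comp (by fun_prop) hgeo1
      · exact (hS.co.mono hG).mono hgeo0
    exact (h1.aemeasurable measurableSet_closedBall).ennreal_ofReal.pow_const _
  · have h1 : Measurable w :=
      (meas_kf hk (hS.wd.mx.comp (measurable_id.add_const τ))
        (hS.wd.my.comp (measurable_id.add_const τ))).add (meas_kf hk hS.wd.mx hS.wd.my)
    exact h1.ennreal_ofReal.aemeasurable
  simp only [Pi.mul_apply, ← ENNReal.rpow_mul, hrq] at hH
  have hT : (∫⁻ z in closedBall c (3 * R / 4), ENNReal.ofReal |(F (z + τ) - F z).re| ^ r) ^ (1 / q)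
      ≤ ENNReal.ofReal ‖τ‖ ^ (2 : ℝ) * E₁ ^ (1 / q) := by
    refine (ENNReal.rpow_le_rpow hdq (by positivity)).trans ?_
    rw [ENNReal.mul_rpow_of_nonneg _ _ (by positivity), ← ENNReal.rpow_mul]
    have : r * (1 / q) = 2 := by
      rw [← hrq]
      field_simp
    rw [this]
  have hWle : (∫⁻ z in closedBall c (3 * R / 4), ENNReal.ofReal (w z) ^ p) ^ (1 / p) ≤
      W ^ (1 / p) := ENNReal.rpow_le_rpow hw (by positivity)
  have hfin : ∫⁻ z in ball c (R / 2), ENNReal.ofReal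
      (‖gr (Fx (z + τ)) (Fy (z + τ)) - gr (Fx z) (Fy z)‖ ^ 2) ≤
      E * ENNReal.ofReal ‖τ‖ ^ (2 : ℝ) := by
    calc ∫⁻ z in ball c (R / 2), ENNReal.ofReal
          (‖gr (Fx (z + τ)) (Fy (z + τ)) - gr (Fx z) (Fy z)‖ ^ 2)
        ≤ ∫⁻ z in ball c (R / 2), ENNReal.ofReal
          (ζ z ^ 2 * ‖gr (Fx (z + τ)) (Fy (z + τ)) - gr (Fx z) (Fy z)‖ ^ 2) := by
          refine setLIntegral_mono' isOpen_ball.measurableSet fun z hz => ?_
          rw [hζ1 z (ball_subset_closedBall hz)]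
          simp
      _ ≤ ∫⁻ z, ENNReal.ofReal
          (ζ z ^ 2 * ‖gr (Fx (z + τ)) (Fy (z + τ)) - gr (Fx z) (Fy z)‖ ^ 2) :=
          setLIntegral_le_lintegral _ _
      _ ≤ 2 * ∫⁻ z, ENNReal.ofReal (4 * Λ ^ 2 * (gz ζ z * (((F (z + τ) - F z).re) ^ 2 * w z))) :=
          hmain
      _ ≤ 2 * (ENNReal.ofReal (4 * Λ ^ 2 * Gm) *
          ((ENNReal.ofReal ‖τ‖ ^ (2 : ℝ) * E₁ ^ (1 / q)) * W ^ (1 / p))) := by
          gcongr
          refine hB.trans ?_
          gcongr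
          exact hH.trans (mul_le_mul' hT hWle)
      _ = E * ENNReal.ofReal ‖τ‖ ^ (2 : ℝ) := by
          rw [hE]
          ring
  refine hfin.trans ?_
  rw [ENNReal.ofReal_mul ENNReal.toReal_nonneg, ENNReal.ofReal_toReal hEf]
  gcongr
  rw [ENNReal.ofReal_rpow_of_nonneg (norm_nonneg _) (by norm_num)]
  apply ENNReal.ofReal_le_ofReal
  exact (Real.rpow_natCast _ 2).le

end MPfa.Reg
end
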