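import Pool.Agent.Lib.MP_fa0334_an.RegSpec

/-!
Module KF: the function `kf`.
-/

set_option autoImplicit false

open MeasureTheory Set Filter Topology Metric
open scoped ContDiff ENNReal ComplexConjugate

namespace MPfa.Reg
namespace KFM

/-- the distortion of the ratio `k` -/
noncomputable def g (k : ℝ) : ℝ := (1 + k ^ 2) / (2 * k)

lemma sig_eq (p k : ℝ) : sig p k = (k ^ 2 - 1) / k ^ 2 * g k ^ (p - 1) := rfl

lemma g_one {k : ℝ} (hk : 1 ≤ k) : 1 ≤ g k := by
  have : 0 < k := by linarith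
  unfold g
  rw [le_div_iff₀ (by positivity)]
  nlinarith [sq_nonneg (k - 1)]

lemma g_le {k : ℝ} (hk : 1 ≤ k) : g k ≤ k := by
  have : 0 < k := by linarith
  unfold g
  rw [div_le_iff₀ (by positivity)]
  nlinarith

lemma g_ge {k : ℝ} (hk : 1 ≤ k) : k / 2 ≤ g k := by
  have : 0 < k := by linarith
  unfold g
  rw [div_le_div_iff₀ (by positivity) (by positivity)]
  nlinarith

lemma g_mono {k l : ℝ} (hk : 1 ≤ k) (hkl : k ≤ l) : g k ≤ g l := by
  have h1 : 0 < k := by linarith
  have h2 : 0 < l := by linarith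
  unfold g
  rw [div_le_div_iff₀ (by positivity) (by positivity)]
  have h3 : 1 ≤ k * l := by nlinarith
  nlinarith [mul_nonneg (sub_nonneg.2 hkl) (sub_nonneg.2 h3)]

lemma sig_one (p : ℝ) : sig p 1 = 0 := by simp [sig]

lemma sig_nonneg {p k : ℝ} (hk : 1 ≤ k) : 0 ≤ sig p k := by
  rw [sig_eq]
  have h1 : 0 ≤ g k := zero_le_one.trans (g_one hk)
  have h2 : 0 ≤ k ^ 2 - 1 := by nlinarith
  positivity

lemma sig_strict {p : ℝ} (hp : 1 < p) : StrictMonoOn (sig p) (Ici 1) := by
  intro k hk l hl hkl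
  have hk : 1 ≤ k := hk
  have hl : 1 ≤ l := hl
  rw [sig_eq, sig_eq]
  have h1 : 0 < k := by linarith
  have h2 : 0 < l := by linarith
  have h3 : (k ^ 2 - 1) / k ^ 2 < (l ^ 2 - 1) / l ^ 2 := by
    rw [div_lt_div_iff₀ (by positivity) (by positivity)]
    nlinarith
  have h4 : g k ^ (p - 1) ≤ g l ^ (p - 1) :=
    Real.rpow_le_rpow (zero_le_one.trans (g_one hk)) (g_mono hk hkl.le) (by linarith)
  have h5 : 0 < g l ^ (p - 1) := Real.rpow_pos_of_pos (zero_lt_one.trans_le (g_one hl)) _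
  have h6 : 0 ≤ (k ^ 2 - 1) / k ^ 2 := div_nonneg (by nlinarith) (by positivity)
  calc (k ^ 2 - 1) / k ^ 2 * g k ^ (p - 1) ≤ (k ^ 2 - 1) / k ^ 2 * g l ^ (p - 1) :=
        mul_le_mul_of_nonneg_left h4 h6
    _ < (l ^ 2 - 1) / l ^ 2 * g l ^ (p - 1) := mul_lt_mul_of_pos_right h3 h5

lemma sig_cont {p : ℝ} : ContinuousOn (sig p) (Ici 1) := by
  intro k hk
  have hk : 1 ≤ k := hk
  have h1 : k ≠ 0 := by linarith
  have h2 : 0 < (1 + k ^ 2) / (2 * k) := by
    have : 0 < k := by linarith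
    positivity
  apply ContinuousAt.continuousWithinAt
  unfold sig
  refine ContinuousAt.mul ?_ ?_
  · exact ContinuousAt.div (by fun_prop) (by fun_prop) (by positivity)
  · refine ContinuousAt.rpow_const ?_ (Or.inl h2.ne')
    exact ContinuousAt.div (by fun_prop) (by fun_prop) (by positivity)

/-- the increasing bijection whose inverse is `kf` -/
noncomputable def F (p k : ℝ) : ℝ := if 1 ≤ k then Real.sqrt (sig p k) else k - 1

lemma F_cont {p : ℝ} : Continuous (F p) := by
  have h1 : Continuous (fun k => Real.sqrt (sig p (max 1 k))) := by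
    apply Real.continuous_sqrt.comp
    exact sig_cont.comp_continuous (by fun_prop) fun k => mem_Ici.2 (le_max_left _ _)
  have h2 : F p = fun k => if 1 ≤ k then Real.sqrt (sig p (max 1 k)) else k - 1 := by
    funext k
    unfold F
    split_ifs with h
    · rw [max_eq_right h]
    · rfl
  rw [h2]
  refine Continuous.if_le h1 (by fun_prop) continuous_const continuous_id ?_
  intro x hx
  have hx : (1 : ℝ) = x := hx
  subst hx
  simp [sig_one]

lemma F_strict {p : ℝ} (hp : 1 < p) : StrictMono (F p) := by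
  intro k l hkl
  unfold F
  split_ifs with h1 h2 h2
  · exact Real.sqrt_lt_sqrt (sig_nonneg h1) (sig_strict hp h1 h2 hkl)
  · exact absurd (h1.trans hkl.le) h2
  · have : 0 ≤ Real.sqrt (sig p l) := Real.sqrt_nonneg _
    push Not at h1
    linarith
  · linarith

lemma F_surj {p : ℝ} (hp : 1 < p) : Function.Surjective (F p) := by
  apply F_cont.surjective
  · -- at top
    have h1 : Tendsto (fun k : ℝ => Real.sqrt (3 / 4 * (k / 2) ^ (p - 1))) atTop atTop := by
      apply Real.tendsto_sqrt_atTop.comp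
      apply Tendsto.const_mul_atTop (by norm_num)
      exact (tendsto_rpow_atTop (by linarith)).comp (tendsto_id.atTop_div_const (by norm_num))
    refine tendsto_atTop_mono' _ ?_ h1
    filter_upwards [eventually_ge_atTop (2 : ℝ)] with k hk
    have hk1 : 1 ≤ k := by linarith
    unfold F
    rw [if_pos hk1]
    apply Real.sqrt_le_sqrt
    rw [sig_eq]
    have h2 : (3 : ℝ) / 4 ≤ (k ^ 2 - 1) / k ^ 2 := by
      rw [div_le_div_iff₀ (by norm_num) (by positivity)]
      nlinarith
    have h3 : (k / 2) ^ (p - 1) ≤ g k ^ (p - 1) :=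
      Real.rpow_le_rpow (by linarith) (g_ge hk1) (by linarith)
    have h4 : 0 ≤ (k / 2) ^ (p - 1) := by positivity
    exact mul_le_mul h2 h3 h4 (le_trans (by norm_num) h2)
  · -- at bottom
    have h1 : Tendsto (fun k : ℝ => k - 1) atBot atBot := tendsto_atBot_add_const_right _ _ tendsto_id
    refine h1.congr' ?_
    filter_upwards [eventually_lt_atBot (1 : ℝ)] with k hk
    unfold F
    rw [if_neg (not_le.2 hk)]

/-- the order isomorphism -/
noncomputable def iso {p : ℝ} (hp : 1 < p) : ℝ ≃o ℝ :=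
  (F_strict hp).orderIsoOfSurjective (F p) (F_surj hp)

lemma iso_apply {p : ℝ} (hp : 1 < p) (k : ℝ) : iso hp k = F p k := rfl

lemma F_one (p : ℝ) : F p 1 = 0 := by simp [F, sig_one]

lemma symm_zero {p : ℝ} (hp : 1 < p) : (iso hp).symm 0 = 1 := by
  rw [OrderIso.symm_apply_eq, iso_apply, F_one]

lemma one_le {p : ℝ} (hp : 1 < p) {s : ℝ} (hs : 0 ≤ s) : 1 ≤ (iso hp).symm s := by
  rw [← symm_zero hp]
  exact (iso hp).symm.monotone hs

lemma F_symm {p : ℝ} (hp : 1 < p) (s : ℝ) : F p ((iso hp).symm s) = s :=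
  (iso hp).apply_symm_apply s

lemma sig_symm {p : ℝ} (hp : 1 < p) {s : ℝ} (hs : 0 ≤ s) : sig p ((iso hp).symm s) = s ^ 2 := by
  have h1 := F_symm hp s
  unfold F at h1
  rw [if_pos (one_le hp hs)] at h1
  rw [← Real.sq_sqrt (sig_nonneg (one_le hp hs)), h1]

/-- logarithmic derivative of `sig` -/
lemma sig_der (p : ℝ) {k : ℝ} (hk : 1 < k) : HasDerivAt (sig p)
    (sig p k * (2 / (k * (k ^ 2 - 1)) + (p - 1) * (k ^ 2 - 1) / (k * (1 + k ^ 2)))) k := by
  have hk0 : 0 < k := by linarith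
  have hm : 0 < k ^ 2 - 1 := by nlinarith
  have h1 : HasDerivAt (fun k : ℝ => (k ^ 2 - 1) / k ^ 2) (2 / k ^ 3) k := by
    have h2 : HasDerivAt (fun k : ℝ => k ^ 2 - 1) (2 * k) k := by
      simpa using (hasDerivAt_pow 2 k).sub_const 1
    have h3 : HasDerivAt (fun k : ℝ => k ^ 2) (2 * k) k := by
      simpa using hasDerivAt_pow 2 k
    refine (h2.div h3 (by positivity)).congr_deriv ?_
    field_simp
    ring
  have h4 : HasDerivAt g ((k ^ 2 - 1) / (2 * k ^ 2)) k := by
    have h2 : HasDerivAt (fun k : ℝ => 1 + k ^ 2) (2 * k) k := by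
      simpa using (hasDerivAt_pow 2 k).const_add 1
    have h3 : HasDerivAt (fun k : ℝ => 2 * k) 2 k := by
      simpa using (hasDerivAt_id k).const_mul 2
    refine (h2.div h3 (by positivity)).congr_deriv ?_
    field_simp
    ring
  have hg : 0 < g k := zero_lt_one.trans_le (g_one hk.le)
  have h5 := h4.rpow_const (p := p - 1) (Or.inl hg.ne')
  have h6 := h1.mul h5
  refine h6.congr_deriv ?_
  rw [sig_eq, show p - 1 - 1 = (p - 1) - 1 from rfl, Real.rpow_sub_one hg.ne' (p - 1)]
  have h7 : g k = (1 + k ^ 2) / (2 * k) := rfl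
  have h8 : (1 + k ^ 2) ≠ 0 := by positivity
  have h9 : g k ^ (p - 1) / g k = g k ^ (p - 1) * (2 * k / (1 + k ^ 2)) := by
    rw [div_eq_mul_inv]
    nth_rewrite 2 [h7]
    rw [inv_div]
  rw [h9]
  have hm' : k ^ 2 - 1 ≠ 0 := hm.ne'
  field_simp

/-- the derivative of `kf` -/
noncomputable def kd (p : ℝ) (kf : ℝ → ℝ) (s : ℝ) : ℝ :=
  kf s / s * (2 / (2 / (kf s ^ 2 - 1) + (p - 1) * (kf s ^ 2 - 1) / (1 + kf s ^ 2)))

end KFM

open KFM in
theorem specKF : SpecKF := by
  intro p hp
  refine ⟨fun s => (iso hp).symm s, ?_⟩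
  set kf : ℝ → ℝ := fun s => (iso hp).symm s with hkf
  have hone : ∀ s, 0 ≤ s → 1 ≤ kf s := fun s hs => one_le hp hs
  have hcont : Continuous kf := (iso hp).symm.continuous
  have hmono : StrictMono kf := (iso hp).symm.strictMono
  have hgt : ∀ s, 0 < s → 1 < kf s := by
    intro s hs
    have h1 := hmono hs
    rwa [show kf 0 = 1 from symm_zero hp] at h1
  have heq : ∀ s, 0 ≤ s → sig p (kf s) = s ^ 2 := fun s hs => sig_symm hp hs
  -- derivative
  have hder : ∀ s, 0 < s → HasDerivAt kf (kd p kf s) s := by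
    intro s hs
    have hk := hgt s hs
    have hk0 : 0 < kf s := by linarith
    have hm : 0 < kf s ^ 2 - 1 := by nlinarith
    have hs2 : sig p (kf s) = s ^ 2 := heq s hs.le
    have h1 := sig_der p hk
    have h2 := h1.sqrt (by rw [hs2]; positivity)
    have h3 : HasDerivAt (F p) (sig p (kf s) * (2 / (kf s * (kf s ^ 2 - 1)) +
        (p - 1) * (kf s ^ 2 - 1) / (kf s * (1 + kf s ^ 2))) / (2 * Real.sqrt (sig p (kf s))))
        (kf s) := by
      refine h2.congr_of_eventuallyEq ?_
      filter_upwards [lt_mem_nhds hk] with x hx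
      unfold F
      rw [if_pos hx.le]
    have hp1 : 0 < p - 1 := by linarith
    rw [hs2, Real.sqrt_sq hs.le] at h3
    have h4 : s ^ 2 * (2 / (kf s * (kf s ^ 2 - 1)) +
        (p - 1) * (kf s ^ 2 - 1) / (kf s * (1 + kf s ^ 2))) / (2 * s) ≠ 0 := by positivity
    have h5 := HasDerivAt.of_local_left_inverse hcont.continuousAt h3 h4
      (Eventually.of_forall fun y => F_symm hp y)
    refine h5.congr_deriv ?_
    unfold kd
    have hm' : kf s ^ 2 - 1 ≠ 0 := hm.ne'
    have h6 : (1 + kf s ^ 2) ≠ 0 := by positivity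
    have h7 : 2 / (kf s * (kf s ^ 2 - 1)) + (p - 1) * (kf s ^ 2 - 1) / (kf s * (1 + kf s ^ 2)) =
        (2 / (kf s ^ 2 - 1) + (p - 1) * (kf s ^ 2 - 1) / (1 + kf s ^ 2)) / kf s := by
      field_simp
    rw [h7]
    have h8 : 2 / (kf s ^ 2 - 1) + (p - 1) * (kf s ^ 2 - 1) / (1 + kf s ^ 2) ≠ 0 := by positivity
    set W := 2 / (kf s ^ 2 - 1) + (p - 1) * (kf s ^ 2 - 1) / (1 + kf s ^ 2)
    field_simp
  have hkd0 : ∀ s, 0 < s → 0 ≤ kd p kf s := by
    intro s hs
    have hk := hgt s hs
    have hk0 : 0 < kf s := by linarith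
    have hm : 0 < kf s ^ 2 - 1 := by nlinarith
    have hp1 : 0 < p - 1 := by linarith
    unfold kd
    positivity
  have hkd1 : ∀ s, 0 < s → s * kd p kf s ≤ kf s * (kf s ^ 2 - 1) := by
    intro s hs
    have hk := hgt s hs
    have hk0 : 0 < kf s := by linarith
    have hm : 0 < kf s ^ 2 - 1 := by nlinarith
    have hp1 : 0 < p - 1 := by linarith
    have h1 : s * kd p kf s = kf s * (2 / (2 / (kf s ^ 2 - 1) +
        (p - 1) * (kf s ^ 2 - 1) / (1 + kf s ^ 2))) := by
      unfold kd; field_simp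
    rw [h1]
    refine mul_le_mul_of_nonneg_left ?_ hk0.le
    rw [div_le_iff₀ (by positivity)]
    have h2 : (kf s ^ 2 - 1) * (2 / (kf s ^ 2 - 1)) = 2 := by field_simp
    have h3 : 0 ≤ (kf s ^ 2 - 1) * ((p - 1) * (kf s ^ 2 - 1) / (1 + kf s ^ 2)) := by positivity
    rw [mul_add, h2]
    linarith
  have hkd2 : ∀ s, 0 < s → s * kd p kf s ≤ max 2 (4 / (p - 1)) * kf s := by
    intro s hs
    have hk := hgt s hs
    have hk0 : 0 < kf s := by linarith
    have hm : 0 < kf s ^ 2 - 1 := by nlinarith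
    have hp1 : 0 < p - 1 := by linarith
    rcases le_or_gt (kf s ^ 2 - 1) 2 with h | h
    · refine (hkd1 s hs).trans ?_
      rw [mul_comm]
      exact mul_le_mul_of_nonneg_right (h.trans (le_max_left _ _)) hk0.le
    · have h1 : s * kd p kf s = kf s * (2 / (2 / (kf s ^ 2 - 1) +
          (p - 1) * (kf s ^ 2 - 1) / (1 + kf s ^ 2))) := by
        unfold kd; field_simp
      rw [h1, mul_comm]
      refine mul_le_mul_of_nonneg_right (le_trans ?_ (le_max_right _ _)) hk0.le
      rw [div_le_div_iff₀ (by positivity) hp1]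
      have h2 : (p - 1) / 2 ≤ (p - 1) * (kf s ^ 2 - 1) / (1 + kf s ^ 2) := by
        rw [div_le_div_iff₀ (by norm_num) (by positivity)]
        nlinarith
      have h3 : 0 ≤ 2 / (kf s ^ 2 - 1) := by positivity
      linarith
  refine ⟨hone, heq, ?_, ?_, ?_, hcont.continuousOn, ?_, ?_, hgt, ?_⟩
  · intro k s hk hs h
    exact (sig_strict hp).injOn hk (hone s hs) (h.trans (heq s hs).symm)
  · exact fun s t _ hst => hmono.monotone hst
  · -- Lipschitz
    refine ⟨2 * max 2 (4 / (p - 1)) + 2, by positivity, ?_⟩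
    intro s t hs hst
    set T := max 2 (4 / (p - 1)) with hT
    have hT0 : 0 ≤ T := le_trans (by norm_num) (le_max_left _ _)
    have hk1 := hone t (hs.trans hst)
    have hk2 := hone s hs
    have hkm : kf s ≤ kf t := hmono.monotone hst
    rcases lt_or_ge s (t / 2) with h | h
    · have h1 : (kf t - kf s) * t ≤ kf t * (2 * (t - s)) := by
        apply mul_le_mul <;> linarith
      have h2 : 0 ≤ kf t * (t - s) := by
        apply mul_nonneg <;> linarith
      nlinarith [mul_nonneg hT0 h2]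
    · rcases hst.eq_or_lt with rfl | hlt
      · simp
      have ht0 : 0 < t := by linarith
      have hs0 : 0 < s := by linarith
      obtain ⟨ξ, hξ, hξ'⟩ := exists_hasDerivAt_eq_slope kf (kd p kf) hlt hcont.continuousOn
        (fun x hx => hder x (hs0.trans hx.1))
      have hξ0 : 0 < ξ := hs0.trans hξ.1
      have h1 := hkd2 ξ hξ0
      have h2 : kf t - kf s = kd p kf ξ * (t - s) := by
        rw [hξ']; field_simp [sub_ne_zero.2 hlt.ne']
      have h3 : kf ξ ≤ kf t := hmono.monotone hξ.2.le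
      have h4 : t ≤ 2 * ξ := by linarith [hξ.1]
      rw [h2]
      have h5 : kd p kf ξ * t ≤ 2 * T * kf t := by
        have h6 : kd p kf ξ * t ≤ kd p kf ξ * (2 * ξ) :=
          mul_le_mul_of_nonneg_left h4 (hkd0 ξ hξ0)
        have h7 : T * kf ξ ≤ T * kf t := mul_le_mul_of_nonneg_left h3 hT0
        nlinarith
      have h8 : 0 ≤ t - s := by linarith
      have h9 := mul_le_mul_of_nonneg_right h5 h8
      have h10 : 0 ≤ kf t * (t - s) := by
        apply mul_nonneg <;> linarith
      nlinarith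
  · intro s hs
    have hk := hone s hs
    have hk0 : 0 < kf s := by linarith
    rw [← heq s hs, sig_eq]
    have h1 : 1 ≤ g (kf s) ^ (p - 1) := Real.one_le_rpow (g_one hk) (by linarith)
    have h2 : kf s ^ 2 * ((kf s ^ 2 - 1) / kf s ^ 2 * g (kf s) ^ (p - 1)) =
        (kf s ^ 2 - 1) * g (kf s) ^ (p - 1) := by field_simp
    rw [h2]
    have h3 : 0 ≤ kf s ^ 2 - 1 := by nlinarith
    nlinarith
  · intro s hs
    have hk := hone s hs
    have hk0 : 0 < kf s := by linarith
    rw [← heq s hs, sig_eq]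
    have h1 : g (kf s) ^ (p - 1) ≤ kf s ^ (p - 1) :=
      Real.rpow_le_rpow (zero_le_one.trans (g_one hk)) (g_le hk) (by linarith)
    have h2 : (kf s ^ 2 - 1) / kf s ^ 2 ≤ 1 := by
      rw [div_le_one (by positivity)]; linarith
    have h3 : 0 ≤ g (kf s) ^ (p - 1) :=
      Real.rpow_nonneg (zero_le_one.trans (g_one hk)) _
    calc (kf s ^ 2 - 1) / kf s ^ 2 * g (kf s) ^ (p - 1) ≤ 1 * g (kf s) ^ (p - 1) :=
          mul_le_mul_of_nonneg_right h2 h3
      _ ≤ kf s ^ (p - 1) := by rw [one_mul]; exact h1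
  · refine ⟨kd p kf, ?_, fun s hs => ⟨hder s hs, hkd0 s hs, hkd1 s hs⟩,
      max 2 (4 / (p - 1)), by positivity, hkd2⟩
    intro s hs
    have hs : 0 < s := hs
    have hk := hgt s hs
    have hk0 : 0 < kf s := by linarith
    have hm : 0 < kf s ^ 2 - 1 := by nlinarith
    have hp1 : 0 < p - 1 := by linarith
    apply ContinuousAt.continuousWithinAt
    have hkc : ContinuousAt kf s := hcont.continuousAt
    unfold kd
    have h1 : ContinuousAt (fun s => kf s ^ 2 - 1) s := (hkc.pow 2).sub continuousAt_const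
    have h2 : ContinuousAt (fun s => 1 + kf s ^ 2) s := continuousAt_const.add (hkc.pow 2)
    refine ContinuousAt.mul (hkc.div continuousAt_id hs.ne') ?_
    refine continuousAt_const.div ?_ (by positivity)
    refine ContinuousAt.add (continuousAt_const.div h1 hm.ne') ?_
    exact (continuousAt_const.mul h1).div h2 (by positivity)

end MPfa.Reg
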