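import Pool.Agent.Lib.MP_fa0334_an.RegPuncB

/-!
Problem MP_fa0334_an, part REG, module MAX: the maximum principle.
-/

set_option autoImplicit false

open MeasureTheory Set Filter Topology Metric Complex
open scoped ContDiff ENNReal ComplexConjugate

namespace MPfa.Reg

namespace MaxM

open H5

/-- the truncated square -/
noncomputable def T (m t : ℝ) : ℝ := (max (t - m) 0) ^ 2
/-- its derivative -/
noncomputable def T' (m t : ℝ) : ℝ := 2 * max (t - m) 0

lemma T_deriv (m t : ℝ) : HasDerivAt (T m) (T' m t) t := by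
  rcases lt_trichotomy t m with h | h | h
  · have h1 : T m =ᶠ[𝓝 t] fun _ => 0 := by
      filter_upwards [Iio_mem_nhds h] with x hx
      have : x - m ≤ 0 := by linarith [mem_Iio.mp hx]
      simp [T, max_eq_right this]
    have h2 : T' m t = 0 := by
      have : t - m ≤ 0 := by linarith
      simp [T', max_eq_right this]
    rw [h2]
    exact (hasDerivAt_const t (0 : ℝ)).congr_of_eventuallyEq h1
  · subst h
    have h2 : T' t t = 0 := by simp [T']
    rw [h2]
    have l1 : HasDerivWithinAt (T t) 0 (Iic t) t := by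
      apply (hasDerivWithinAt_const t (Iic t) (0 : ℝ)).congr
      · intro x hx
        have : x - t ≤ 0 := by linarith [mem_Iic.mp hx]
        simp [T, max_eq_right this]
      · simp [T]
    have l2 : HasDerivWithinAt (T t) 0 (Ici t) t := by
      have h3 : HasDerivAt (fun x : ℝ => (x - t) ^ 2) 0 t := by
        have := ((hasDerivAt_id t).sub_const t).fun_pow 2
        simpa using this
      apply h3.hasDerivWithinAt.congr
      · intro x hx
        have : 0 ≤ x - t := by linarith [mem_Ici.mp hx]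
        simp [T, max_eq_left this]
      · simp [T]
    have l3 := l1.union l2
    rw [Iic_union_Ici] at l3
    exact hasDerivWithinAt_univ.mp l3
  · have h1 : T m =ᶠ[𝓝 t] fun x => (x - m) ^ 2 := by
      filter_upwards [Ioi_mem_nhds h] with x hx
      have : 0 ≤ x - m := by linarith [mem_Ioi.mp hx]
      simp [T, max_eq_left this]
    have h2 : T' m t = 2 * (t - m) := by
      have : 0 ≤ t - m := by linarith
      simp [T', max_eq_left this]
    rw [h2]
    have h3 : HasDerivAt (fun x : ℝ => (x - m) ^ 2) (2 * (t - m)) t := by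
      have := ((hasDerivAt_id t).sub_const m).fun_pow 2
      simpa using this
    exact h3.congr_of_eventuallyEq h1

lemma T'_cont (m : ℝ) : Continuous (T' m) := by
  unfold T'
  fun_prop

lemma T_cont (m : ℝ) : Continuous (T m) := by
  unfold T
  fun_prop

lemma T_nonneg (m t : ℝ) : 0 ≤ T m t := sq_nonneg _
lemma T'_nonneg (m t : ℝ) : 0 ≤ T' m t := by
  unfold T'
  positivity

lemma T_ne {m t : ℝ} (h : T m t ≠ 0) : m < t := by
  by_contra hc
  apply h
  have : t - m ≤ 0 := by linarith
  simp [T, max_eq_right this]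

lemma T_pos {m t : ℝ} (h : m < t) : 0 < T m t := by
  have : 0 < max (t - m) 0 := lt_max_of_lt_left (by linarith)
  unfold T
  positivity

/-- continuity of products with test functions -/
lemma mul_cont {G : Set ℂ} (hG : IsOpen G) {c : ℂ → ℝ} {g : ℂ → ℝ} (hc : Continuous c)
    (hs : tsupport c ⊆ G) (hg : ContinuousOn g G) : Continuous fun z => c z * g z := by
  rw [continuous_iff_continuousAt]
  intro z
  by_cases hz : z ∈ G
  · exact hc.continuousAt.mul (hg.continuousAt (hG.mem_nhds hz))
  · have hz' : z ∉ tsupport c := fun h => hz (hs h)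
    have h0 : (fun z => c z * g z) =ᶠ[𝓝 z] fun _ => 0 := by
      filter_upwards [(isClosed_tsupport c).isOpen_compl.mem_nhds hz'] with w hw
      have : c w = 0 := image_eq_zero_of_notMem_tsupport hw
      simp [this]
    exact continuousAt_const.congr h0.symm

/-- the auxiliary map `u + i x` -/
lemma aux_wp {G : Set ℂ} {r s : ℝ} {F Fx Fy : ℂ → ℂ} (hs : 0 < s) (h : WP G r s F Fx Fy) :
    WP G r s (fun z => ((F z).re : ℂ) + (z.re : ℂ) * I) (fun z => ((Fx z).re : ℂ) + I)
      (fun z => ((Fy z).re : ℂ)) := by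
  have w1 := wd_clm h.wd (Complex.ofRealCLM.comp Complex.reCLM)
  have w2 := wd_lin G (Complex.reCLM.smulRight I)
  have w3 := wd_add w1 w2
  have w4 : WD G (fun z => ((F z).re : ℂ) + (z.re : ℂ) * I) (fun z => ((Fx z).re : ℂ) + I)
      (fun z => ((Fy z).re : ℂ)) := by
    simpa using w3
  refine ⟨h.op, ?_, w4, ?_, ?_, ?_, ?_⟩
  · exact (Complex.continuous_ofReal.comp_continuousOn
      (Complex.continuous_re.comp_continuousOn h.co)).add (by fun_prop)
  · simpa using h.rx
  · simpa using h.ry
  · intro K _ hKc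
    simp only [add_im, ofReal_im, I_im, zero_add, abs_one, ENNReal.ofReal_one, ENNReal.one_rpow,
      lintegral_one, Measure.restrict_apply_univ]
    exact hKc.measure_lt_top
  · intro K _ hKc
    simp only [ofReal_im, abs_zero, ENNReal.ofReal_zero, ENNReal.zero_rpow_of_pos hs,
      lintegral_zero]
    exact ENNReal.zero_lt_top

lemma jac_nonneg_of {a b : ℂ} {q : ℝ} (hq : 0 < q) (h : ‖gr a b‖ ^ 2 ≤ q * jac a b) :
    0 ≤ jac a b := by
  by_contra hc
  push Not at hc
  have := mul_neg_of_pos_of_neg hq hc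
  nlinarith [sq_nonneg ‖gr a b‖]

lemma gr_zero {a b : ℂ} {q : ℝ} (h : ‖gr a b‖ ^ 2 ≤ q * jac a b) (h0 : jac a b = 0) :
    b.re = 0 := by
  rw [h0, mul_zero] at h
  have h1 : ‖gr a b‖ = 0 := by nlinarith [norm_nonneg (gr a b)]
  have h2 : gr a b = 0 := norm_eq_zero.mp h1
  have := congrArg Complex.im h2
  simpa [gr] using this

end MaxM

open H5 MaxM in
theorem specMax (hIBP : SpecIBP) : SpecMax := by
  intro G r s Q F Fx Fy hQ hSP O M hO hOc hOG hfr z0 hz0
  by_contra hcon
  push Not at hcon
  obtain ⟨m, hm1, hm2⟩ := exists_between hcon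
  set u : ℂ → ℝ := fun z => (F z).re with hu
  have huc : ContinuousOn u G := Complex.continuous_re.comp_continuousOn hSP.wp.co
  -- the compact set
  set K : Set ℂ := closure O ∩ u ⁻¹' (Ici m) with hK
  have hKc : IsCompact K := hOc.of_isClosed_subset
    ((huc.mono hOG).preimage_isClosed_of_isClosed isClosed_closure isClosed_Ici) inter_subset_left
  have hKO : K ⊆ O := by
    intro z hz
    by_contra hc
    have : z ∈ frontier O := by
      rw [hO.frontier_eq]
      exact ⟨hz.1, hc⟩
    have h1 := hfr z this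
    have h2 : m ≤ (F z).re := hz.2
    linarith
  obtain ⟨ζ, hζ, hζ01, hζ1⟩ := cutn hO hKc hKO
  have hζG : Test G ζ := ⟨hζ.sm, hζ.cs, hζ.su.trans (subset_closure.trans hOG)⟩
  have hd : ∀ z, T m (u z) ≠ 0 → fderiv ℝ ζ z = 0 := by
    intro z hz
    have h1 := T_ne hz
    by_cases h2 : z ∈ closure O
    · exact fderiv_zero_of_ev_one (hζ1 z ⟨h2, h1.le⟩)
    · exact fderiv_zero_off fun hc => h2 (subset_closure (hζ.su hc))
  -- first integration by parts
  obtain ⟨i1, -, e1⟩ := hIBP G r s F Fx Fy hSP.hr hSP.hs hSP.hrs hSP.wp univ (T m) (T' m)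
    isOpen_univ (fun t _ => T_deriv m t) (T'_cont m).continuousOn (fun z _ => mem_univ _) ζ hζG
  have e2 : ∫ z, T m (F z).re * (fderiv ℝ ζ z 1 * (Fy z).im - fderiv ℝ ζ z I * (Fx z).im) = 0 := by
    rw [← integral_zero ℂ ℝ]
    apply integral_congr_ae
    refine Eventually.of_forall fun z => ?_
    by_cases hz : T m (u z) = 0
    · have : T m (F z).re = 0 := hz
      simp [this]
    · simp [hd z hz]
  rw [e2, neg_zero] at e1
  have hsp : ∀ᵐ z : ℂ, z ∈ G → ‖gr (Fx z) (Fy z)‖ ^ 2 ≤ Q * jac (Fx z) (Fy z) := by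
    rw [← ae_restrict_iff' hSP.wp.op.measurableSet]
    exact hSP.sp
  have hae : ∀ᵐ z : ℂ, 0 ≤ ζ z * T' m (F z).re * jac (Fx z) (Fy z) := by
    filter_upwards [hsp] with z hz
    by_cases hzG : z ∈ G
    · exact mul_nonneg (mul_nonneg (hζ01 z).1 (T'_nonneg _ _))
        (jac_nonneg_of hQ (hz hzG))
    · have : ζ z = 0 := image_eq_zero_of_notMem_tsupport fun hc => hzG (hζG.su hc)
      simp [this]
  have hz1 := (integral_eq_zero_iff_of_nonneg_ae hae i1).mp e1
  -- second integration by parts
  have hwp2 := aux_wp (lt_trans zero_lt_one hSP.hs) hSP.wp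
  have hζ2 : Test G (fun z => ζ z * z.im) := by
    refine ⟨hζ.sm.mul Complex.imCLM.contDiff, hζ.cs.mul_right, ?_⟩
    exact tsupport_mul_subset_left.trans hζG.su
  obtain ⟨-, -, e3⟩ := hIBP G r s _ _ _ hSP.hr hSP.hs hSP.hrs hwp2 univ (T m) (T' m)
    isOpen_univ (fun t _ => T_deriv m t) (T'_cont m).continuousOn (fun z _ => mem_univ _) _ hζ2
  have hre : ∀ z : ℂ, (((F z).re : ℂ) + (z.re : ℂ) * I).re = (F z).re := by
    intro z
    simp
  have hj2 : ∀ z : ℂ, jac (((Fx z).re : ℂ) + I) ((Fy z).re : ℂ) = - (Fy z).re := by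
    intro z
    simp [jac]
  have hfd : ∀ z : ℂ, fderiv ℝ (fun z => ζ z * z.im) z I = fderiv ℝ ζ z I * z.im + ζ z := by
    intro z
    have h1 : HasFDerivAt ζ (fderiv ℝ ζ z) z := ((hζ.sm.differentiable (by simp)) z).hasFDerivAt
    have h2 : HasFDerivAt (fun z : ℂ => z.im) Complex.imCLM z := Complex.imCLM.hasFDerivAt
    rw [(h1.fun_mul h2).fderiv]
    simp
    ring
  have e4 : ∫ z, (ζ z * z.im) * T' m (((F z).re : ℂ) + (z.re : ℂ) * I).re *
      jac (((Fx z).re : ℂ) + I) ((Fy z).re : ℂ) = 0 := by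
    rw [← integral_zero ℂ ℝ]
    apply integral_congr_ae
    filter_upwards [hz1, hsp] with z h1 h2
    rw [hre, hj2]
    simp only [Pi.zero_apply] at h1
    by_cases hzG : z ∈ G
    · rcases mul_eq_zero.mp h1 with h3 | h3
      · have : ζ z * z.im * T' m (F z).re * -(Fy z).re =
            (ζ z * T' m (F z).re) * (z.im * -(Fy z).re) := by ring
        rw [this, h3, zero_mul]
      · rw [gr_zero (h2 hzG) h3]
        simp
    · have : ζ z = 0 := image_eq_zero_of_notMem_tsupport fun hc => hzG (hζG.su hc)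
      simp [this]
  rw [e4] at e3
  have e5 : ∫ z, T m (((F z).re : ℂ) + (z.re : ℂ) * I).re *
      (fderiv ℝ (fun z => ζ z * z.im) z 1 * ((Fy z).re : ℂ).im -
        fderiv ℝ (fun z => ζ z * z.im) z I * (((Fx z).re : ℂ) + I).im) =
      - ∫ z, ζ z * T m (u z) := by
    rw [← integral_neg]
    apply integral_congr_ae
    refine Eventually.of_forall fun z => ?_
    simp only [hre, hfd, ofReal_im, mul_zero, add_im, I_im, zero_add, mul_one, zero_sub]
    by_cases hz : T m (u z) = 0
    · have : T m (F z).re = 0 := hz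
      simp [this, hz]
    · rw [hd z hz]
      simp only [zero_apply, zero_mul, zero_add]
      ring
  rw [e5, neg_neg] at e3
  have hcont : Continuous fun z => ζ z * T m (u z) :=
    mul_cont hSP.wp.op hζ.sm.continuous hζG.su ((T_cont m).comp_continuousOn huc)
  have hint : Integrable fun z => ζ z * T m (u z) :=
    hcont.integrable_of_hasCompactSupport hζ.cs.mul_right
  have hz3 := (integral_eq_zero_iff_of_nonneg
    (fun z => mul_nonneg (hζ01 z).1 (T_nonneg m (u z))) hint).mp e3.symm
  have hz4 := (hcont.ae_eq_iff_eq volume continuous_const).mp hz3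
  have hz5 := congrFun hz4 z0
  have hK0 : z0 ∈ K := ⟨subset_closure hz0, hm2.le⟩
  have h1 := (hζ1 z0 hK0).self_of_nhds
  have h2 := T_pos (m := m) (t := u z0) hm2
  simp only [h1, one_mul] at hz5
  exact h2.ne' hz5

end MPfa.Reg
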