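import Pool.Agent.Lib.MP_fa0334_an.RegSpec

section
/-!
Problem MP_fa0334_an, part REG, module C1WD: classical derivatives are weak derivatives,
and a limit lemma for the modules COMP and MUL.
-/
set_option autoImplicit false

open MeasureTheory Set Filter Topology Metric Complex
open scoped ContDiff ENNReal ComplexConjugate

namespace MPfa.Reg

namespace C1

/-- a cut off of a function continuous on an open set is continuous -/
theorem cont_smul {U : Set ℂ} {a : ℂ → ℝ} {b : ℂ → ℂ} (hU : IsOpen U) (ha : Continuous a)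
    (has : tsupport a ⊆ U) (hb : ContinuousOn b U) : Continuous fun z => a z • b z := by
  rw [continuous_iff_continuousAt]
  intro z
  by_cases hz : z ∈ U
  · exact ha.continuousAt.smul (hb.continuousAt (hU.mem_nhds hz))
  · have h0 : ∀ᶠ w in 𝓝 z, a w • b w = 0 := by
      have : (tsupport a)ᶜ ∈ 𝓝 z := (isClosed_tsupport a).isOpen_compl.mem_nhds fun h => hz (has h)
      filter_upwards [this] with w hw
      rw [image_eq_zero_of_notMem_tsupport hw, zero_smul]
    refine (continuousAt_const (y := (0:ℂ))).congr ?_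
    filter_upwards [h0] with w hw using hw.symm

theorem integrable_smul {U : Set ℂ} {a : ℂ → ℝ} {b : ℂ → ℂ} (hU : IsOpen U) (ha : Continuous a)
    (hac : HasCompactSupport a) (has : tsupport a ⊆ U) (hb : ContinuousOn b U) :
    Integrable fun z => a z • b z :=
  (cont_smul hU ha has hb).integrable_of_hasCompactSupport hac.smul_right

/-- integration by parts for `C¹` functions -/
theorem ibp {U : Set ℂ} {F : ℂ → ℂ} (hU : IsOpen U) (hF : ContDiffOn ℝ 1 F U) (v : ℂ)
    {φ : ℂ → ℝ} (hφ : Test U φ) :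
    ∫ z, (fderiv ℝ φ z v) • F z = - ∫ z, φ z • fderiv ℝ F z v := by
  have hφc : Continuous φ := hφ.sm.continuous
  have hφd : Continuous fun z => fderiv ℝ φ z v :=
    (hφ.sm.continuous_fderiv (by simp)).clm_apply continuous_const
  have hφs : tsupport (fun z => fderiv ℝ φ z v) ⊆ tsupport φ := tsupport_fderiv_apply_subset ℝ v
  have hφcs : HasCompactSupport fun z => fderiv ℝ φ z v := hφ.cs.fderiv_apply ℝ v
  have hFd : ContinuousOn (fun z => fderiv ℝ F z v) U :=
    (hF.continuousOn_fderiv_of_isOpen hU le_rfl).clm_apply continuousOn_const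
  have := integral_bilinear_hasLineDerivAt_right_eq_neg_left_of_integrable (μ := volume)
    (f := φ) (f' := fun z => fderiv ℝ φ z v) (g := F)
    (g' := fun z => fderiv ℝ F z v) (v := v)
    (B := ContinuousLinearMap.lsmul ℝ ℝ)
    (integrable_smul hU hφd hφcs (hφs.trans hφ.su) hF.continuousOn)
    (integrable_smul hU hφc hφ.cs hφ.su hFd)
    (integrable_smul hU hφc hφ.cs hφ.su hF.continuousOn)
    (fun z _ => ((hφ.sm.differentiable (by simp)) z).hasFDerivAt.hasLineDerivAt v) ?_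
  · simp only [ContinuousLinearMap.lsmul_apply] at this
    rw [this, neg_neg]
  · intro z hz
    have hd : DifferentiableAt ℝ F z := ((hF z (hφ.su hz)).contDiffAt
      (hU.mem_nhds (hφ.su hz))).differentiableAt (by simp)
    exact hd.hasFDerivAt.hasLineDerivAt v

/-- integration by parts for limits -/
theorem lim {G : Set ℂ} {φ : ℂ → ℝ} (hφ : Test G φ) {v : ℂ} {H Hv : ℂ → ℂ}
    (hG : IsOpen G) (hH : ContinuousOn H G) (hHv : IntegrableOn Hv (tsupport φ))
    {Hn : ℕ → ℂ → ℂ} {Un : ℕ → Set ℂ}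
    (hn : ∀ᶠ n in atTop, IsOpen (Un n) ∧ tsupport φ ⊆ Un n ∧ ContDiffOn ℝ 1 (Hn n) (Un n))
    (hu : TendstoUniformlyOn Hn H atTop (tsupport φ))
    (hd : Tendsto (fun n => ∫⁻ z in tsupport φ, ‖fderiv ℝ (Hn n) z v - Hv z‖ₑ) atTop (𝓝 0)) :
    ∫ z, (fderiv ℝ φ z v) • H z = - ∫ z, φ z • Hv z := by
  set K := tsupport φ with hKdef
  have hK : IsCompact K := hφ.cs
  have hφc : Continuous φ := hφ.sm.continuous
  have hφd : Continuous fun z => fderiv ℝ φ z v :=
    (hφ.sm.continuous_fderiv (by simp)).clm_apply continuous_const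
  have hφs : tsupport (fun z => fderiv ℝ φ z v) ⊆ K := tsupport_fderiv_apply_subset ℝ v
  have hφcs : HasCompactSupport fun z => fderiv ℝ φ z v := hφ.cs.fderiv_apply ℝ v
  have hd0 : ∀ z, z ∉ K → fderiv ℝ φ z v = 0 := fun z hz => image_eq_zero_of_notMem_tsupport
    (f := fun z => fderiv ℝ φ z v) fun h => hz (hφs h)
  have h1 : ∀ᶠ n in atTop, ∫ z, (fderiv ℝ φ z v) • Hn n z
      = - ∫ z, φ z • (fderiv ℝ (Hn n) z v) := by
    filter_upwards [hn] with n h
    exact ibp h.1 h.2.2 v ⟨hφ.sm, hφ.cs, h.2.1⟩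
  have h2 : Tendsto (fun n => ∫ z, (fderiv ℝ φ z v) • Hn n z) atTop
      (𝓝 (∫ z, (fderiv ℝ φ z v) • H z)) := by
    refine tendsto_integral_filter_of_dominated_convergence
      (fun z => ‖(fderiv ℝ φ z v) • H z‖ + ‖fderiv ℝ φ z v‖) ?_ ?_ ?_ ?_
    · filter_upwards [hn] with n h
      exact (cont_smul h.1 hφd (hφs.trans h.2.1) h.2.2.continuousOn).aestronglyMeasurable
    · filter_upwards [(Metric.tendstoUniformlyOn_iff.1 hu) 1 one_pos] with n hn
      refine Eventually.of_forall fun z => ?_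
      by_cases hz : z ∈ K
      · have h3 := hn z hz
        rw [dist_eq_norm] at h3
        have h4 : ‖Hn n z‖ ≤ ‖H z‖ + 1 := by
          calc ‖Hn n z‖ = ‖H z - (H z - Hn n z)‖ := by congr 1; ring
            _ ≤ ‖H z‖ + ‖H z - Hn n z‖ := norm_sub_le _ _
            _ ≤ _ := by gcongr
        rw [norm_smul, norm_smul]
        nlinarith [norm_nonneg (fderiv ℝ φ z v)]
      · rw [hd0 z hz]
        simp
    · exact (integrable_smul hG hφd hφcs (hφs.trans hφ.su) hH).norm.add
        (hφd.integrable_of_hasCompactSupport hφcs).norm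
    · refine Eventually.of_forall fun z => ?_
      by_cases hz : z ∈ K
      · exact (hu.tendsto_at hz).const_smul _
      · simp [hd0 z hz]
  have h3 : Tendsto (fun n => ∫ z, φ z • (fderiv ℝ (Hn n) z v)) atTop
      (𝓝 (∫ z, φ z • Hv z)) := by
    obtain ⟨M, hMb⟩ := hK.exists_bound_of_continuousOn hφc.continuousOn
    have hint : Integrable fun z => φ z • Hv z := by
      have h4 : IntegrableOn (fun z => φ z • Hv z) K := by
        refine Integrable.bdd_smul hHv M hφc.aestronglyMeasurable ?_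
        filter_upwards [ae_restrict_mem hK.measurableSet] with z hz using hMb z hz
      refine h4.integrable_of_forall_notMem_eq_zero fun z hz => ?_
      rw [image_eq_zero_of_notMem_tsupport hz, zero_smul]
    refine tendsto_integral_of_L1 _ hint.aestronglyMeasurable ?_ ?_
    · filter_upwards [hn] with n h
      exact integrable_smul h.1 hφc hφ.cs h.2.1
        ((h.2.2.continuousOn_fderiv_of_isOpen h.1 le_rfl).clm_apply continuousOn_const)
    · have hlim : Tendsto (fun n => ENNReal.ofReal M *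
          (∫⁻ z in K, ‖fderiv ℝ (Hn n) z v - Hv z‖ₑ)) atTop (𝓝 0) := by
        have := ENNReal.Tendsto.const_mul (a := ENNReal.ofReal M) hd
          (Or.inr ENNReal.ofReal_ne_top)
        simpa using this
      refine tendsto_of_tendsto_of_tendsto_of_le_of_le tendsto_const_nhds hlim
        (fun _ => zero_le) fun n => ?_
      calc ∫⁻ z, ‖φ z • (fderiv ℝ (Hn n) z v) - φ z • Hv z‖ₑ
          ≤ ∫⁻ z, K.indicator (fun z => ENNReal.ofReal M * ‖fderiv ℝ (Hn n) z v - Hv z‖ₑ) z := by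
            refine lintegral_mono fun z => ?_
            by_cases hz : z ∈ K
            · rw [indicator_of_mem hz, ← smul_sub, enorm_smul]
              gcongr
              rw [← ofReal_norm]
              exact ENNReal.ofReal_le_ofReal (hMb z hz)
            · rw [indicator_of_notMem hz, image_eq_zero_of_notMem_tsupport hz]
              simp
        _ = ENNReal.ofReal M * ∫⁻ z in K, ‖fderiv ℝ (Hn n) z v - Hv z‖ₑ := by
            rw [lintegral_indicator hK.measurableSet,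
              lintegral_const_mul' _ _ ENNReal.ofReal_ne_top]
  have h4 := h3.neg
  exact tendsto_nhds_unique h2 (h4.congr' (h1.mono fun n h => h.symm))

/-- `L¹` convergence of `T_n a_n` -/
theorem l1_apply {K : Set ℂ} (hK : MeasurableSet K) {T : ℂ → ℂ →L[ℝ] ℂ}
    {Tn : ℕ → ℂ → ℂ →L[ℝ] ℂ} (hT : TendstoUniformlyOn Tn T atTop K) {M : ℝ}
    (hM : ∀ z ∈ K, ‖T z‖ ≤ M) {a : ℂ → ℂ} {an : ℕ → ℂ → ℂ} (ha : IntegrableOn a K)
    (h : Tendsto (fun n => ∫⁻ z in K, ‖an n z - a z‖ₑ) atTop (𝓝 0)) :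
    Tendsto (fun n => ∫⁻ z in K, ‖Tn n z (an n z) - T z (a z)‖ₑ) atTop (𝓝 0) := by
  have hJ : ∫⁻ z in K, ‖a z‖ₑ ≠ ⊤ := ha.2.ne
  rw [ENNReal.tendsto_nhds_zero]
  intro ε hε
  -- a small `η` with `η J ≤ ε / 2`
  obtain ⟨η, hη, hηJ⟩ : ∃ η : ℝ, 0 < η ∧
      ENNReal.ofReal η * (∫⁻ z in K, ‖a z‖ₑ) ≤ ε / 2 := by
    have h1 : Tendsto (fun η : ℝ => ENNReal.ofReal η * (∫⁻ z in K, ‖a z‖ₑ)) (𝓝[>] 0) (𝓝 0) := by
      have h2 : Tendsto (fun η : ℝ => ENNReal.ofReal η) (𝓝[>] 0) (𝓝 0) := by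
        have := (ENNReal.continuous_ofReal.tendsto 0).mono_left
          (nhdsWithin_le_nhds (s := Ioi (0:ℝ)))
        simpa using this
      have := ENNReal.Tendsto.mul_const h2 (Or.inr hJ)
      simpa using this
    have h3 : ∀ᶠ η : ℝ in 𝓝[>] 0, ENNReal.ofReal η * (∫⁻ z in K, ‖a z‖ₑ) ≤ ε / 2 :=
      (ENNReal.tendsto_nhds_zero.1 h1) _ (ENNReal.half_pos hε.ne')
    obtain ⟨η, hη, h4⟩ := (h3.and self_mem_nhdsWithin).exists
    exact ⟨η, h4, hη⟩
  have h5 : Tendsto (fun n => ENNReal.ofReal (M + 1) * ∫⁻ z in K, ‖an n z - a z‖ₑ)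
      atTop (𝓝 0) := by
    have := ENNReal.Tendsto.const_mul (a := ENNReal.ofReal (M + 1)) h
      (Or.inr ENNReal.ofReal_ne_top)
    simpa using this
  filter_upwards [(Metric.tendstoUniformlyOn_iff.1 hT) η hη,
    (Metric.tendstoUniformlyOn_iff.1 hT) 1 one_pos,
    (ENNReal.tendsto_nhds_zero.1 h5) _ (ENNReal.half_pos hε.ne')] with n h6 h7 h8
  calc ∫⁻ z in K, ‖Tn n z (an n z) - T z (a z)‖ₑ
      ≤ ∫⁻ z in K, (ENNReal.ofReal (M + 1) * ‖an n z - a z‖ₑ + ENNReal.ofReal η * ‖a z‖ₑ) := by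
        refine setLIntegral_mono' hK fun z hz => ?_
        have e1 : Tn n z (an n z) - T z (a z) = Tn n z (an n z - a z) + (Tn n z - T z) (a z) := by
          rw [map_sub, sub_apply]; ring
        have e2 : ‖Tn n z - T z‖ ≤ η := by
          have := h6 z hz
          rw [dist_eq_norm, norm_sub_rev] at this
          exact this.le
        have e3 : ‖Tn n z‖ ≤ M + 1 := by
          have h9 := h7 z hz
          rw [dist_eq_norm, norm_sub_rev] at h9
          calc ‖Tn n z‖ = ‖T z + (Tn n z - T z)‖ := by congr 1; abel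
            _ ≤ ‖T z‖ + ‖Tn n z - T z‖ := norm_add_le _ _
            _ ≤ M + 1 := add_le_add (hM z hz) h9.le
        have hM0 : 0 ≤ M + 1 := (norm_nonneg _).trans e3
        rw [e1]
        refine (enorm_add_le _ _).trans ?_
        rw [← ofReal_norm, ← ofReal_norm, ← ofReal_norm, ← ofReal_norm,
          ← ENNReal.ofReal_mul hM0, ← ENNReal.ofReal_mul hη.le]
        refine add_le_add (ENNReal.ofReal_le_ofReal ?_) (ENNReal.ofReal_le_ofReal ?_)
        · exact (ContinuousLinearMap.le_opNorm _ _).trans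
            (mul_le_mul_of_nonneg_right e3 (norm_nonneg _))
        · exact (ContinuousLinearMap.le_opNorm _ _).trans
            (mul_le_mul_of_nonneg_right e2 (norm_nonneg _))
    _ = ENNReal.ofReal (M + 1) * (∫⁻ z in K, ‖an n z - a z‖ₑ) +
          ENNReal.ofReal η * ∫⁻ z in K, ‖a z‖ₑ := by
        rw [lintegral_add_right' _ (ha.1.enorm.const_mul _),
          lintegral_const_mul' _ _ ENNReal.ofReal_ne_top,
          lintegral_const_mul' _ _ ENNReal.ofReal_ne_top]
    _ ≤ ε / 2 + ε / 2 := add_le_add h8 hηJ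
    _ = ε := ENNReal.add_halves ε

/-- sums -/
theorem l1_add {K : Set ℂ} {a b : ℂ → ℂ} {an bn : ℕ → ℂ → ℂ}
    (hm : ∀ n, AEStronglyMeasurable (fun z => an n z - a z) (volume.restrict K))
    (ha : Tendsto (fun n => ∫⁻ z in K, ‖an n z - a z‖ₑ) atTop (𝓝 0))
    (hb : Tendsto (fun n => ∫⁻ z in K, ‖bn n z - b z‖ₑ) atTop (𝓝 0)) :
    Tendsto (fun n => ∫⁻ z in K, ‖(an n z + bn n z) - (a z + b z)‖ₑ) atTop (𝓝 0) := by
  have h := ha.add hb
  rw [add_zero] at h
  refine tendsto_of_tendsto_of_tendsto_of_le_of_le tendsto_const_nhds h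
    (fun _ => zero_le) fun n => ?_
  calc ∫⁻ z in K, ‖(an n z + bn n z) - (a z + b z)‖ₑ
      ≤ ∫⁻ z in K, (‖an n z - a z‖ₑ + ‖bn n z - b z‖ₑ) := by
        refine lintegral_mono fun z => ?_
        have : (an n z + bn n z) - (a z + b z) = (an n z - a z) + (bn n z - b z) := by ring
        rw [this]
        exact enorm_add_le _ _
    _ = _ := lintegral_add_left' (hm n).enorm _

end C1

theorem specC1WD : SpecC1WD := by
  intro G F hG hF
  have hd : ∀ v, ContinuousOn (fun z => fderiv ℝ F z v) G := fun v =>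
    (hF.continuousOn_fderiv_of_isOpen hG le_rfl).clm_apply continuousOn_const
  have hm : ∀ v, Measurable (G.indicator fun z => fderiv ℝ F z v) := fun v =>
    (measurable_fderiv_apply_const ℝ F v).indicator hG.measurableSet
  have hl : ∀ v, LI G (G.indicator fun z => fderiv ℝ F z v) := by
    intro v K hK hKc
    refine (((hd v).mono hK).integrableOn_compact hKc).congr_fun (fun z hz => ?_)
      hKc.measurableSet
    rw [indicator_of_mem (hK hz)]
  have hi : ∀ v, ∀ φ : ℂ → ℝ, Test G φ → ∫ z, (fderiv ℝ φ z v) • F z =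
      - ∫ z, φ z • (G.indicator fun z => fderiv ℝ F z v) z := by
    intro v φ hφ
    rw [C1.ibp hG hF v hφ]
    congr 1
    apply integral_congr_ae
    refine Eventually.of_forall fun z => ?_
    by_cases hz : z ∈ G
    · simp only [indicator_of_mem hz]
    · simp only
      rw [image_eq_zero_of_notMem_tsupport fun h => hz (hφ.su h)]
      simp
  exact ⟨hm 1, hm I, fun K hK hKc => (hF.continuousOn.mono hK).integrableOn_compact hKc,
    hl 1, hl I, hi 1, hi I⟩

end MPfa.Reg
end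

section
/-!
Problem MP_fa0334_an, part REG: small tools (linear images and sums of weakly differentiable maps,
cut-offs), used by the modules of helper5.
-/
set_option autoImplicit false

open MeasureTheory Set Filter Topology Metric Complex
open scoped ContDiff ENNReal ComplexConjugate

namespace MPfa.Reg.H5

/-- cut-off functions equal to one near a compact set -/
lemma cutn {O K : Set ℂ} (hO : IsOpen O) (hK : IsCompact K) (hKO : K ⊆ O) :
    ∃ χ : ℂ → ℝ, Test O χ ∧ (∀ z, 0 ≤ χ z ∧ χ z ≤ 1) ∧ ∀ z ∈ K, ∀ᶠ w in 𝓝 z, χ w = 1 := by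
  obtain ⟨L, hL, hKL, hLO⟩ := exists_compact_between hK hO hKO
  obtain ⟨f, f1, f2, f3⟩ := exists_contMDiffMap_one_nhds_of_subset_interior (n := (⊤ : ℕ∞))
    (modelWithCornersSelf ℝ ℂ) hK.isClosed hKL
  have hs : tsupport (f : ℂ → ℝ) ⊆ L :=
    closure_minimal (fun z hz => by
      by_contra hc
      exact hz (f2 z hc)) hL.isClosed
  exact ⟨f, ⟨contMDiff_iff_contDiff.1 f.contMDiff,
    hL.of_isClosed_subset (isClosed_tsupport _) hs, hs.trans hLO⟩,
    fun z => ⟨(f3 z).1, (f3 z).2⟩, fun z hz => (eventually_nhdsSet_iff_forall.1 f1) z hz⟩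

lemma fderiv_zero_of_ev_one {χ : ℂ → ℝ} {z : ℂ} (h : ∀ᶠ w in 𝓝 z, χ w = 1) :
    fderiv ℝ χ z = 0 := by
  have h1 : χ =ᶠ[𝓝 z] fun _ => 1 := h
  rw [h1.fderiv_eq]
  simp

lemma fderiv_zero_off {χ : ℂ → ℝ} {z : ℂ} (h : z ∉ tsupport χ) : fderiv ℝ χ z = 0 :=
  fderiv_of_notMem_tsupport ℝ h

lemma fderiv_cs {χ : ℂ → ℝ} (h : HasCompactSupport χ) (v : ℂ) :
    HasCompactSupport fun z => fderiv ℝ χ z v :=
  (h.fderiv (𝕜 := ℝ)).comp_left (g := fun L : ℂ →L[ℝ] ℝ => L v) (by simp)

lemma fderiv_ts {χ : ℂ → ℝ} (v : ℂ) : tsupport (fun z => fderiv ℝ χ z v) ⊆ tsupport χ := by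
  apply closure_minimal _ (isClosed_tsupport χ)
  intro z hz
  by_contra hc
  exact hz (by simp [fderiv_zero_off hc])

/-- the product of a locally integrable map and a continuous function with compact support -/
lemma smul_int {G : Set ℂ} {c : ℂ → ℝ} {F : ℂ → ℂ} (hc : Continuous c) (hcs : HasCompactSupport c)
    (hG : tsupport c ⊆ G) (hF : LI G F) : Integrable fun z => c z • F z := by
  have h1 := hF (tsupport c) hG hcs
  obtain ⟨B, hB⟩ := hcs.exists_bound_of_continuous hc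
  have h2 : IntegrableOn (fun z => c z • F z) (tsupport c) := by
    exact h1.bdd_smul B hc.aestronglyMeasurable (Eventually.of_forall hB)
  rw [← integrableOn_iff_integrable_of_support_subset (s := tsupport c)]
  · exact h2
  · intro z hz
    by_contra hn
    apply hz
    simp [image_eq_zero_of_notMem_tsupport hn]

lemma test_int {G : Set ℂ} {φ : ℂ → ℝ} {F : ℂ → ℂ} (hφ : Test G φ) (hF : LI G F) :
    Integrable fun z => φ z • F z :=
  smul_int hφ.sm.continuous hφ.cs hφ.su hF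

lemma dtest_int {G : Set ℂ} {φ : ℂ → ℝ} {F : ℂ → ℂ} (hφ : Test G φ) (hF : LI G F) (v : ℂ) :
    Integrable fun z => (fderiv ℝ φ z v) • F z := by
  apply smul_int _ (fderiv_cs hφ.cs v) ((fderiv_ts v).trans hφ.su) hF
  exact (hφ.sm.continuous_fderiv (by simp)).clm_apply continuous_const

lemma li_clm {G : Set ℂ} {F : ℂ → ℂ} (hF : LI G F) (L : ℂ →L[ℝ] ℂ) : LI G fun z => L (F z) :=
  fun K hK hKc => L.integrable_comp (hF K hK hKc)

/-- linear images -/
lemma wd_clm {G : Set ℂ} {F Fx Fy : ℂ → ℂ} (h : WD G F Fx Fy) (L : ℂ →L[ℝ] ℂ) :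
    WD G (fun z => L (F z)) (fun z => L (Fx z)) fun z => L (Fy z) := by
  have key : ∀ (c d : ℂ → ℝ) (A B : ℂ → ℂ), Integrable (fun z => c z • A z) →
      Integrable (fun z => d z • B z) → ∫ z, c z • A z = - ∫ z, d z • B z →
      ∫ z, c z • L (A z) = - ∫ z, d z • L (B z) := by
    intro c d A B h1 h2 h3
    have e1 : ∫ z, c z • L (A z) = L (∫ z, c z • A z) := by
      rw [← L.integral_comp_comm h1]
      simp only [map_smul]
    have e2 : ∫ z, d z • L (B z) = L (∫ z, d z • B z) := by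
      rw [← L.integral_comp_comm h2]
      simp only [map_smul]
    rw [e1, e2, h3, map_neg]
  exact ⟨L.continuous.measurable.comp h.mx, L.continuous.measurable.comp h.my, li_clm h.lF L,
    li_clm h.lx L, li_clm h.ly L,
    fun φ hφ => key _ _ _ _ (dtest_int hφ h.lF 1) (test_int hφ h.lx) (h.ix φ hφ),
    fun φ hφ => key _ _ _ _ (dtest_int hφ h.lF I) (test_int hφ h.ly) (h.iy φ hφ)⟩

/-- sums -/
lemma wd_add {G : Set ℂ} {F Fx Fy H Hx Hy : ℂ → ℂ} (h : WD G F Fx Fy) (k : WD G H Hx Hy) :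
    WD G (fun z => F z + H z) (fun z => Fx z + Hx z) fun z => Fy z + Hy z := by
  refine ⟨h.mx.add k.mx, h.my.add k.my, fun K hK hKc => (h.lF K hK hKc).add (k.lF K hK hKc),
    fun K hK hKc => (h.lx K hK hKc).add (k.lx K hK hKc),
    fun K hK hKc => (h.ly K hK hKc).add (k.ly K hK hKc), fun φ hφ => ?_, fun φ hφ => ?_⟩
  · simp only [smul_add]
    rw [integral_add (dtest_int hφ h.lF 1) (dtest_int hφ k.lF 1),
      integral_add (test_int hφ h.lx) (test_int hφ k.lx), h.ix φ hφ, k.ix φ hφ, neg_add]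
  · simp only [smul_add]
    rw [integral_add (dtest_int hφ h.lF I) (dtest_int hφ k.lF I),
      integral_add (test_int hφ h.ly) (test_int hφ k.ly), h.iy φ hφ, k.iy φ hφ, neg_add]

lemma wd_mono {G G' : Set ℂ} {F Fx Fy : ℂ → ℂ} (h : WD G F Fx Fy) (hG : G' ⊆ G) :
    WD G' F Fx Fy :=
  ⟨h.mx, h.my, fun K hK => h.lF K (hK.trans hG), fun K hK => h.lx K (hK.trans hG),
    fun K hK => h.ly K (hK.trans hG), fun φ hφ => h.ix φ ⟨hφ.sm, hφ.cs, hφ.su.trans hG⟩,
    fun φ hφ => h.iy φ ⟨hφ.sm, hφ.cs, hφ.su.trans hG⟩⟩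

/-- real linear functions -/
lemma wd_lin (G : Set ℂ) (L : ℂ →L[ℝ] ℂ) : WD G (fun z => L z) (fun _ => L 1) fun _ => L I := by
  have key : ∀ (φ : ℂ → ℝ), Test G φ → ∀ v : ℂ, ∫ z, (fderiv ℝ φ z v) • z = - ∫ z, φ z • v := by
    intro φ hφ v
    have hLI : LI univ (fun z : ℂ => z) := fun K _ hKc => continuousOn_id.integrableOn_compact hKc
    have hLc : LI univ (fun _ : ℂ => v) := fun K _ hKc =>
      continuousOn_const.integrableOn_compact hKc
    have hφ' : Test univ φ := ⟨hφ.sm, hφ.cs, subset_univ _⟩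
    have h := integral_smul_fderiv_eq_neg_fderiv_smul_of_integrable (μ := (volume : Measure ℂ))
      (f := φ) (g := fun z : ℂ => z) (v := v) (dtest_int hφ' hLI v)
      (by simpa using test_int hφ' hLc) (test_int hφ' hLI)
      (fun z _ => (hφ.sm.differentiable (by simp)) z) (fun z _ => differentiableAt_id)
    have e : ∀ z : ℂ, fderiv ℝ (fun z : ℂ => z) z v = v := by
      intro z
      simp
    simp only [e] at h
    rw [h, neg_neg]
  have hid : WD G (fun z => z) (fun _ => 1) fun _ => I :=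
    ⟨measurable_const, measurable_const,
      fun K _ hKc => continuousOn_id.integrableOn_compact hKc,
      fun K _ hKc => continuousOn_const.integrableOn_compact hKc,
      fun K _ hKc => continuousOn_const.integrableOn_compact hKc,
      fun φ hφ => key φ hφ 1, fun φ hφ => key φ hφ I⟩
  exact wd_clm hid L

end MPfa.Reg.H5
end

section
/-!
Problem MP_fa0334_an, part REG, modules COMP and MUL: chain rule and product rule for continuous
Sobolev maps.
-/
set_option autoImplicit false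

open MeasureTheory Set Filter Topology Metric Complex
open scoped ContDiff ENNReal ComplexConjugate

namespace MPfa.Reg

namespace C1

theorem li_ind {G : Set ℂ} {T : ℂ → ℂ →L[ℝ] ℂ} (hT : ContinuousOn T G)
    (_hG : IsOpen G) {a : ℂ → ℂ} (ha : LI G a) (hm : Measurable (G.indicator fun z => T z (a z))) :
    LI G (G.indicator fun z => T z (a z)) := by
  intro K hK hKc
  obtain ⟨M, hM⟩ := hKc.exists_bound_of_continuousOn (hT.mono hK)
  refine Integrable.mono' ((ha K hK hKc).norm.const_mul M) hm.aestronglyMeasurable ?_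
  filter_upwards [ae_restrict_mem hKc.measurableSet] with z hz
  rw [indicator_of_mem (hK hz)]
  exact (ContinuousLinearMap.le_opNorm _ _).trans
    (mul_le_mul_of_nonneg_right (hM z hz) (norm_nonneg _))

theorem ind_meas {G : Set ℂ} {E : Type*} [NormedAddCommGroup E] [MeasurableSpace E] [BorelSpace E]
    {T : ℂ → E} (hT : ContinuousOn T G) (hG : IsOpen G) : Measurable (G.indicator T) := by
  classical
  rw [← piecewise_eq_indicator]
  exact hT.measurable_piecewise continuousOn_const hG.measurableSet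

theorem app_meas {G : Set ℂ} {T : ℂ → ℂ →L[ℝ] ℂ} (hT : ContinuousOn T G) (hG : IsOpen G)
    {a : ℂ → ℂ} (ha : Measurable a) : Measurable (G.indicator fun z => T z (a z)) := by
  have h1 : Measurable (G.indicator fun z => T z 1) :=
    ind_meas (hT.clm_apply continuousOn_const) hG
  have h2 : Measurable (G.indicator fun z => T z I) :=
    ind_meas (hT.clm_apply continuousOn_const) hG
  have : (G.indicator fun z => T z (a z)) = fun z =>
      (a z).re • (G.indicator (fun z => T z 1) z) + (a z).im • (G.indicator (fun z => T z I) z) := by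
    funext z
    by_cases hz : z ∈ G
    · rw [indicator_of_mem hz, indicator_of_mem hz, indicator_of_mem hz]
      conv_lhs => rw [← Complex.re_add_im (a z)]
      rw [map_add, ← mul_one ((a z).re : ℂ), ← Complex.real_smul, ← Complex.real_smul,
        map_smul, map_smul]
    · rw [indicator_of_notMem hz, indicator_of_notMem hz, indicator_of_notMem hz]
      simp
  rw [this]
  exact ((Complex.measurable_re.comp ha).smul h1).add ((Complex.measurable_im.comp ha).smul h2)

end C1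

theorem specComp (hM : MPfa.SpecMoll) : SpecComp := by
  intro G U F Fx Fy g hG hF hW hU hg hm
  have hdg : ContinuousOn (fderiv ℝ g) U := hg.continuousOn_fderiv_of_isOpen hU le_rfl
  have hT : ContinuousOn (fun z => fderiv ℝ g (F z)) G := hdg.comp hF hm
  have hgF : ContinuousOn (fun z => g (F z)) G := hg.continuousOn.comp hF hm
  have key : ∀ (Fv : ℂ → ℂ) (v : ℂ), LI G Fv → Measurable Fv →
      (∀ K : Set ℂ, IsCompact K → K ⊆ G → ∃ f : ℕ → ℂ → ℂ, (∀ n, ContDiff ℝ ∞ (f n)) ∧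
        TendstoUniformlyOn f F atTop K ∧
        Tendsto (fun n => ∫⁻ z in K, ‖fderiv ℝ (f n) z v - Fv z‖ₑ) atTop (𝓝 0)) →
      ∀ φ : ℂ → ℝ, Test G φ → ∫ z, (fderiv ℝ φ z v) • g (F z) =
        - ∫ z, φ z • (G.indicator fun z => fderiv ℝ g (F z) (Fv z)) z := by
    intro Fv v hLv hmv happ φ hφ
    have hK : IsCompact (tsupport φ) := hφ.cs
    have hKG := hφ.su
    obtain ⟨f, hfs, hfu, hfd⟩ := happ _ hK hKG
    have hFK : IsCompact (F '' tsupport φ) := hK.image_of_continuousOn (hF.mono hKG)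
    have hFKU : F '' tsupport φ ⊆ U := by
      rintro _ ⟨z, hz, rfl⟩
      exact hm (hKG hz)
    obtain ⟨δ, hδ, hδU⟩ := hFK.exists_cthickening_subset_open hU hFKU
    set L := cthickening δ (F '' tsupport φ) with hL
    have hLc : IsCompact L := hFK.cthickening
    have hnear : ∀ᶠ n in atTop, ∀ z ∈ tsupport φ, f n z ∈ thickening δ (F '' tsupport φ) := by
      filter_upwards [(Metric.tendstoUniformlyOn_iff.1 hfu) δ hδ] with n hn z hz
      rw [mem_thickening_iff]
      refine ⟨F z, mem_image_of_mem _ hz, ?_⟩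
      rw [dist_comm]
      exact hn z hz
    have htL : thickening δ (F '' tsupport φ) ⊆ L := thickening_subset_cthickening _ _
    -- uniform convergence of compositions
    have hcomp : ∀ {E : Type} [NormedAddCommGroup E] (k : ℂ → E), ContinuousOn k U →
        TendstoUniformlyOn (fun n z => k (f n z)) (fun z => k (F z)) atTop (tsupport φ) := by
      intro E _ k hk
      rw [Metric.tendstoUniformlyOn_iff]
      intro ε hε
      have huc := hLc.uniformContinuousOn_of_continuous (hk.mono hδU)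
      rw [Metric.uniformContinuousOn_iff] at huc
      obtain ⟨η, hη, h⟩ := huc ε hε
      filter_upwards [hnear, (Metric.tendstoUniformlyOn_iff.1 hfu) η hη] with n h1 h2 z hz
      exact h _ (htL (self_subset_thickening hδ _ (mem_image_of_mem _ hz))) _ (htL (h1 z hz))
        (h2 z hz)
    refine C1.lim hφ hG hgF (Hv := G.indicator fun z => fderiv ℝ g (F z) (Fv z))
      ((C1.li_ind hT hG hLv (C1.app_meas hT hG hmv)) _ hKG hK)
      (Hn := fun n z => g (f n z))
      (Un := fun n => f n ⁻¹' thickening δ (F '' tsupport φ)) ?_ (hcomp g hg.continuousOn) ?_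
    · filter_upwards [hnear] with n hn
      refine ⟨isOpen_thickening.preimage (hfs n).continuous, hn, ?_⟩
      exact (hg.mono (htL.trans hδU)).comp ((hfs n).of_le (by simp)).contDiffOn
        (fun z hz => hz)
    · obtain ⟨M, hMb⟩ := hK.exists_bound_of_continuousOn (hT.mono hKG)
      have h1 := C1.l1_apply hK.measurableSet (hcomp (fderiv ℝ g) hdg) hMb
        (hLv _ hKG hK) hfd
      refine h1.congr' ?_
      filter_upwards [hnear] with n hn
      refine setLIntegral_congr_fun hK.measurableSet fun z hz => ?_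
      rw [indicator_of_mem (hKG hz)]
      have hgd : DifferentiableAt ℝ g (f n z) :=
        ((hg _ (hδU (htL (hn z hz)))).contDiffAt
          (hU.mem_nhds (hδU (htL (hn z hz))))).differentiableAt (by simp)
      have := (hgd.hasFDerivAt.comp z
        (((hfs n).differentiable (by simp)) z).hasFDerivAt).fderiv
      have e : fderiv ℝ (fun z => g (f n z)) z = fderiv ℝ (g ∘ f n) z := rfl
      rw [e, this]
      rfl
  refine ⟨C1.app_meas hT hG hW.mx, C1.app_meas hT hG hW.my,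
    fun K hK hKc => (hgF.mono hK).integrableOn_compact hKc,
    C1.li_ind hT hG hW.lx (C1.app_meas hT hG hW.mx),
    C1.li_ind hT hG hW.ly (C1.app_meas hT hG hW.my), ?_, ?_⟩
  · refine key Fx 1 hW.lx hW.mx fun K hK hKG => ?_
    obtain ⟨f, h1, h2, h3, -⟩ := hM G F Fx Fy K hG hF hW hK hKG
    exact ⟨f, h1, h2, h3⟩
  · refine key Fy I hW.ly hW.my fun K hK hKG => ?_
    obtain ⟨f, h1, h2, -, h4, -⟩ := hM G F Fx Fy K hG hF hW hK hKG
    exact ⟨f, h1, h2, h4⟩

/-- multiplication by `m` as a real linear map -/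
noncomputable def mulL (m : ℂ) : ℂ →L[ℝ] ℂ := ContinuousLinearMap.mul ℝ ℂ m

theorem specMul (hM : MPfa.SpecMoll) : SpecMul := by
  intro G F Fx Fy H Hx Hy hG hF hH hWF hWH
  have cont_mulL : ∀ {k : ℂ → ℂ} {S : Set ℂ}, ContinuousOn k S →
      ContinuousOn (fun z => mulL (k z)) S := fun hk =>
    (ContinuousLinearMap.mul ℝ ℂ).continuous.comp_continuousOn hk
  have hFH : ContinuousOn (fun z => F z * H z) G := hF.mul hH
  have key : ∀ (Fv Hv : ℂ → ℂ) (v : ℂ), LI G Fv → Measurable Fv → LI G Hv → Measurable Hv →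
      (∀ K : Set ℂ, IsCompact K → K ⊆ G → ∃ f : ℕ → ℂ → ℂ, (∀ n, ContDiff ℝ ∞ (f n)) ∧
        TendstoUniformlyOn f F atTop K ∧
        Tendsto (fun n => ∫⁻ z in K, ‖fderiv ℝ (f n) z v - Fv z‖ₑ) atTop (𝓝 0)) →
      (∀ K : Set ℂ, IsCompact K → K ⊆ G → ∃ f : ℕ → ℂ → ℂ, (∀ n, ContDiff ℝ ∞ (f n)) ∧
        TendstoUniformlyOn f H atTop K ∧
        Tendsto (fun n => ∫⁻ z in K, ‖fderiv ℝ (f n) z v - Hv z‖ₑ) atTop (𝓝 0)) →
      Measurable (G.indicator fun z => Fv z * H z + F z * Hv z) ∧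
      LI G (G.indicator fun z => Fv z * H z + F z * Hv z) ∧
      ∀ φ : ℂ → ℝ, Test G φ → ∫ z, (fderiv ℝ φ z v) • (F z * H z) =
        - ∫ z, φ z • (G.indicator fun z => Fv z * H z + F z * Hv z) z := by
    intro Fv Hv v hLF hmF hLH hmH hf hh
    have hsplit : (G.indicator fun z => Fv z * H z + F z * Hv z) = fun z =>
        (G.indicator fun z => mulL (H z) (Fv z)) z + (G.indicator fun z => mulL (F z) (Hv z)) z := by
      funext z
      by_cases hz : z ∈ G
      · rw [indicator_of_mem hz, indicator_of_mem hz, indicator_of_mem hz]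
        simp only [mulL, ContinuousLinearMap.mul_apply']
        ring
      · rw [indicator_of_notMem hz, indicator_of_notMem hz, indicator_of_notMem hz]
        simp
    have hm1 := C1.app_meas (cont_mulL hH) hG hmF
    have hm2 := C1.app_meas (cont_mulL hF) hG hmH
    have hl1 := C1.li_ind (cont_mulL hH) hG hLF hm1
    have hl2 := C1.li_ind (cont_mulL hF) hG hLH hm2
    have hLI : LI G (G.indicator fun z => Fv z * H z + F z * Hv z) := by
      rw [hsplit]
      intro K hK hKc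
      exact (hl1 K hK hKc).add (hl2 K hK hKc)
    refine ⟨by rw [hsplit]; exact hm1.add hm2, hLI, fun φ hφ => ?_⟩
    have hK : IsCompact (tsupport φ) := hφ.cs
    have hKG := hφ.su
    obtain ⟨f, hfs, hfu, hfd⟩ := hf _ hK hKG
    obtain ⟨h, hhs, hhu, hhd⟩ := hh _ hK hKG
    obtain ⟨MF, hMF⟩ := hK.exists_bound_of_continuousOn (hF.mono hKG)
    obtain ⟨MH, hMH⟩ := hK.exists_bound_of_continuousOn (hH.mono hKG)
    have hmulu : ∀ {k : ℂ → ℂ} {kn : ℕ → ℂ → ℂ}, TendstoUniformlyOn kn k atTop (tsupport φ) →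
        TendstoUniformlyOn (fun n z => mulL (kn n z)) (fun z => mulL (k z)) atTop
          (tsupport φ) := by
      intro k kn hk
      rw [Metric.tendstoUniformlyOn_iff] at hk ⊢
      intro ε hε
      filter_upwards [hk ε hε] with n hn z hz
      have h1 := hn z hz
      rw [dist_eq_norm] at h1 ⊢
      have : mulL (k z) - mulL (kn n z) = mulL (k z - kn n z) := by
        unfold mulL; rw [map_sub]
      rw [this]
      exact lt_of_le_of_lt (by simpa [mulL] using
        ContinuousLinearMap.opNorm_mul_apply_le ℝ ℂ (k z - kn n z)) h1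
    have hnb : ∀ {k : ℂ → ℂ} {M : ℝ}, (∀ z ∈ tsupport φ, ‖k z‖ ≤ M) →
        ∀ z ∈ tsupport φ, ‖mulL (k z)‖ ≤ M := fun hk z hz =>
      (ContinuousLinearMap.opNorm_mul_apply_le ℝ ℂ _).trans (hk z hz)
    refine C1.lim hφ hG hFH (hLI _ hKG hK) (Hn := fun n z => f n z * h n z)
      (Un := fun _ => univ) ?_ ?_ ?_
    · refine Eventually.of_forall fun n => ⟨isOpen_univ, subset_univ _, ?_⟩
      exact (((hfs n).of_le (by simp)).mul ((hhs n).of_le (by simp))).contDiffOn
    · -- uniform convergence of the product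
      rw [Metric.tendstoUniformlyOn_iff]
      intro ε hε
      set M := |MF| + |MH| + 1 with hMdef
      have hM0 : 0 < M := by positivity
      filter_upwards [(Metric.tendstoUniformlyOn_iff.1 hfu) (ε / (2 * M)) (by positivity),
        (Metric.tendstoUniformlyOn_iff.1 hhu) (ε / (2 * M)) (by positivity),
        (Metric.tendstoUniformlyOn_iff.1 hfu) 1 one_pos] with n h1 h2 h3 z hz
      have a1 := h1 z hz
      have a2 := h2 z hz
      have a3 := h3 z hz
      rw [dist_eq_norm] at a1 a2 a3 ⊢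
      have b1 : ‖f n z‖ ≤ M := by
        calc ‖f n z‖ = ‖F z - (F z - f n z)‖ := by congr 1; ring
          _ ≤ ‖F z‖ + ‖F z - f n z‖ := norm_sub_le _ _
          _ ≤ |MF| + 1 := add_le_add ((hMF z hz).trans (le_abs_self _)) a3.le
          _ ≤ M := by have := abs_nonneg MH; linarith
      have b2 : ‖H z‖ ≤ M := ((hMH z hz).trans (le_abs_self _)).trans (by
        have := abs_nonneg MF; linarith)
      have e : F z * H z - f n z * h n z = (F z - f n z) * H z + f n z * (H z - h n z) := by ring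
      rw [e]
      calc ‖(F z - f n z) * H z + f n z * (H z - h n z)‖
          ≤ ‖F z - f n z‖ * ‖H z‖ + ‖f n z‖ * ‖H z - h n z‖ := by
            refine (norm_add_le _ _).trans ?_
            rw [norm_mul, norm_mul]
        _ < ε / (2 * M) * M + M * (ε / (2 * M)) := by
            have c1 : ‖F z - f n z‖ * ‖H z‖ ≤ ε / (2 * M) * M :=
              mul_le_mul a1.le b2 (norm_nonneg _) (by positivity)
            have c2 : ‖f n z‖ * ‖H z - h n z‖ < M * (ε / (2 * M)) := by
              by_cases hz0 : ‖f n z‖ = 0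
              · rw [hz0, zero_mul]; positivity
              · exact mul_lt_mul' b1 a2 (norm_nonneg _) hM0
            linarith
        _ = ε := by field_simp; ring
    · have h1 := C1.l1_apply hK.measurableSet (hmulu hhu) (hnb hMH) (hLF _ hKG hK) hfd
      have h2 := C1.l1_apply hK.measurableSet (hmulu hfu) (hnb hMF) (hLH _ hKG hK) hhd
      have h3 := C1.l1_add (K := tsupport φ) ?_ h1 h2
      · refine h3.congr fun n => ?_
        refine setLIntegral_congr_fun hK.measurableSet fun z hz => ?_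
        rw [indicator_of_mem (hKG hz)]
        have hd := ((((hfs n).differentiable (by simp)) z).hasFDerivAt.mul
          (((hhs n).differentiable (by simp)) z).hasFDerivAt).fderiv
        have e : fderiv ℝ (fun z => f n z * h n z) z = fderiv ℝ (f n * h n) z := rfl
        rw [e, hd]
        congr 1
        simp [mulL]
        ring
      · intro n
        have m1 : Measurable fun z => fderiv ℝ (f n) z v := measurable_fderiv_apply_const ℝ (f n) v
        have m2 : AEStronglyMeasurable (fun z => mulL (h n z) (fderiv ℝ (f n) z v))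
            (volume.restrict (tsupport φ)) := by
          have : Measurable fun z => h n z * fderiv ℝ (f n) z v :=
            (hhs n).continuous.measurable.mul m1
          exact this.aestronglyMeasurable
        have m3 : AEStronglyMeasurable (fun z => mulL (H z) (Fv z))
            (volume.restrict (tsupport φ)) := by
          have : AEStronglyMeasurable (fun z => H z * Fv z) (volume.restrict (tsupport φ)) :=
            ((hH.mono hKG).aestronglyMeasurable hK.measurableSet).mul hmF.aestronglyMeasurable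
          exact this
        exact m2.sub m3
  have kx := key Fx Hx 1 hWF.lx hWF.mx hWH.lx hWH.mx
    (fun K hK hKG => by
      obtain ⟨f, h1, h2, h3, -⟩ := hM G F Fx Fy K hG hF hWF hK hKG
      exact ⟨f, h1, h2, h3⟩)
    (fun K hK hKG => by
      obtain ⟨f, h1, h2, h3, -⟩ := hM G H Hx Hy K hG hH hWH hK hKG
      exact ⟨f, h1, h2, h3⟩)
  have ky := key Fy Hy I hWF.ly hWF.my hWH.ly hWH.my
    (fun K hK hKG => by
      obtain ⟨f, h1, h2, -, h4, -⟩ := hM G F Fx Fy K hG hF hWF hK hKG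
      exact ⟨f, h1, h2, h4⟩)
    (fun K hK hKG => by
      obtain ⟨f, h1, h2, -, h4, -⟩ := hM G H Hx Hy K hG hH hWH hK hKG
      exact ⟨f, h1, h2, h4⟩)
  exact ⟨kx.1, ky.1, fun K hK hKc => (hFH.mono hK).integrableOn_compact hKc,
    kx.2.1, ky.2.1, kx.2.2, ky.2.2⟩

end MPfa.Reg
end

section
/-!
Problem MP_fa0334_an, part REG, module CUT: cut-off functions with the right gradient bound.
-/
set_option autoImplicit false

open MeasureTheory Set Filter Topology Metric Complex
open scoped ContDiff ENNReal ComplexConjugate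

namespace MPfa.Reg

namespace Cut

/-- the profile -/
noncomputable def chi (t : ℝ) : ℝ := 1 - Real.smoothTransition (2 * t - 1 / 2)

theorem chi_sm : ContDiff ℝ ∞ chi := by
  unfold chi
  exact contDiff_const.sub (Real.smoothTransition.contDiff.comp
    ((contDiff_const.mul contDiff_id).sub contDiff_const))

theorem chi_one {t : ℝ} (h : t ≤ 1 / 4) : chi t = 1 := by
  unfold chi
  rw [Real.smoothTransition.zero_of_nonpos (by linarith)]; ring

theorem chi_zero {t : ℝ} (h : 3 / 4 ≤ t) : chi t = 0 := by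
  unfold chi
  rw [Real.smoothTransition.one_of_one_le (by linarith)]; ring

theorem chi_nonneg (t : ℝ) : 0 ≤ chi t := by
  unfold chi
  linarith [Real.smoothTransition.le_one (2 * t - 1 / 2)]

theorem chi_le (t : ℝ) : chi t ≤ 1 := by
  unfold chi
  linarith [Real.smoothTransition.nonneg (2 * t - 1 / 2)]

theorem der_bound : ∃ D : ℝ, 0 ≤ D ∧ (∀ t, |deriv chi t| ≤ D) ∧ ∀ t, 3 / 4 < t → deriv chi t = 0 := by
  have hc : Continuous (deriv chi) := chi_sm.continuous_deriv (by simp)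
  obtain ⟨D, hD⟩ := (isCompact_Icc (a := (0:ℝ)) (b := 1)).exists_bound_of_continuousOn
    hc.continuousOn
  have h1 : ∀ t, 3 / 4 < t → deriv chi t = 0 := by
    intro t ht
    have : chi =ᶠ[𝓝 t] fun _ => 0 := by
      filter_upwards [lt_mem_nhds ht] with s hs using chi_zero hs.le
    rw [this.deriv_eq, deriv_const]
  have h0 : ∀ t, t < 1 / 4 → deriv chi t = 0 := by
    intro t ht
    have : chi =ᶠ[𝓝 t] fun _ => 1 := by
      filter_upwards [gt_mem_nhds ht] with s hs using chi_one hs.le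
    rw [this.deriv_eq, deriv_const]
  have hD0 : 0 ≤ D := (norm_nonneg _).trans (hD 0 (by simp))
  refine ⟨D, hD0, fun t => ?_, h1⟩
  by_cases ht : t < 0
  · rw [h0 t (by linarith), abs_zero]; exact hD0
  by_cases ht' : 1 < t
  · rw [h1 t (by linarith), abs_zero]; exact hD0
  · exact hD t ⟨not_lt.1 ht, not_lt.1 ht'⟩

end Cut

open Cut in
theorem specCut : SpecCut := by
  obtain ⟨D, hD0, hD, hz0⟩ := der_bound
  refine ⟨2 * D + 1, by positivity, fun c ρ R hρ hR => ?_⟩
  have hR0 : 0 < R := hρ.trans hR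
  have hq : 0 < R ^ 2 - ρ ^ 2 := by nlinarith
  set s : ℂ → ℝ := fun z => (Complex.normSq (z - c) - ρ ^ 2) / (R ^ 2 - ρ ^ 2) with hs
  have hder : ∀ z v : ℂ, HasFDerivAt s ((R ^ 2 - ρ ^ 2)⁻¹ •
      ((2 * (z - c).re) • Complex.reCLM + (2 * (z - c).im) • Complex.imCLM)) z := by
    intro z _
    have h1 : HasFDerivAt (fun z : ℂ => (z - c).re) Complex.reCLM z := by
      have := (Complex.reCLM.hasFDerivAt (x := z - c)).comp z ((hasFDerivAt_id z).sub_const c)
      rw [ContinuousLinearMap.comp_id] at this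
      exact this
    have h2 : HasFDerivAt (fun z : ℂ => (z - c).im) Complex.imCLM z := by
      have := (Complex.imCLM.hasFDerivAt (x := z - c)).comp z ((hasFDerivAt_id z).sub_const c)
      rw [ContinuousLinearMap.comp_id] at this
      exact this
    have h3 := (((h1.mul h1).add (h2.mul h2)).sub_const (ρ ^ 2)).const_smul ((R ^ 2 - ρ ^ 2)⁻¹)
    refine (h3.congr_fderiv ?_).congr_of_eventuallyEq (Eventually.of_forall fun w => ?_)
    · congr 1
      ext v
      simp
      ring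
    · simp only [hs, Complex.normSq_apply, Pi.smul_apply, smul_eq_mul]
      rw [div_eq_inv_mul]
      rfl
  have hssm : ContDiff ℝ ∞ s := by
    have h1 : ContDiff ℝ ∞ fun z : ℂ => (z - c).re :=
      Complex.reCLM.contDiff.comp (contDiff_id.sub contDiff_const)
    have h2 : ContDiff ℝ ∞ fun z : ℂ => (z - c).im :=
      Complex.imCLM.contDiff.comp (contDiff_id.sub contDiff_const)
    have : s = fun z => ((z - c).re * (z - c).re + (z - c).im * (z - c).im - ρ ^ 2) /
        (R ^ 2 - ρ ^ 2) := by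
      funext z; simp only [hs, Complex.normSq_apply]
    rw [this]
    exact (((h1.mul h1).add (h2.mul h2)).sub contDiff_const).div_const _
  have hnsq : ∀ z : ℂ, Complex.normSq (z - c) = ‖z - c‖ ^ 2 := fun z =>
    Complex.normSq_eq_norm_sq _
  set R' : ℝ := Real.sqrt (ρ ^ 2 + 3 / 4 * (R ^ 2 - ρ ^ 2)) with hR'
  have hR'0 : 0 ≤ R' := Real.sqrt_nonneg _
  have hR'2 : R' ^ 2 = ρ ^ 2 + 3 / 4 * (R ^ 2 - ρ ^ 2) := Real.sq_sqrt (by positivity)
  have hR'R : R' < R := by
    apply lt_of_pow_lt_pow_left₀ 2 hR0.le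
    rw [hR'2]; linarith
  have hout : ∀ z : ℂ, R' ≤ ‖z - c‖ → 3 / 4 ≤ s z := by
    intro z hz
    simp only [hs]
    rw [hnsq, le_div_iff₀ hq]
    have := pow_le_pow_left₀ hR'0 hz 2
    rw [hR'2] at this
    linarith
  refine ⟨fun z => chi (s z), ⟨chi_sm.comp hssm, ?_, ?_⟩, fun z => ⟨chi_nonneg _, chi_le _⟩,
    fun z hz => ?_, fun z => ?_⟩
  · refine HasCompactSupport.intro (isCompact_closedBall c R') fun z hz => ?_
    rw [mem_closedBall, dist_eq_norm, not_le] at hz
    exact chi_zero (hout z hz.le)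
  · have : tsupport (fun z => chi (s z)) ⊆ closedBall c R' := by
      refine closure_minimal (fun z hz => ?_) isClosed_closedBall
      by_contra hn
      rw [mem_closedBall, dist_eq_norm, not_le] at hn
      exact hz (chi_zero (hout z hn.le))
    exact this.trans (closedBall_subset_ball hR'R)
  · apply chi_one
    rw [mem_closedBall, dist_eq_norm] at hz
    simp only [hs]
    rw [hnsq]
    have : ‖z - c‖ ^ 2 ≤ ρ ^ 2 := pow_le_pow_left₀ (norm_nonneg _) hz 2
    have h2 : (‖z - c‖ ^ 2 - ρ ^ 2) / (R ^ 2 - ρ ^ 2) ≤ 0 :=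
      div_nonpos_of_nonpos_of_nonneg (by linarith) hq.le
    linarith
  · have hch : HasFDerivAt (fun z => chi (s z)) (deriv chi (s z) • ((R ^ 2 - ρ ^ 2)⁻¹ •
        ((2 * (z - c).re) • Complex.reCLM + (2 * (z - c).im) • Complex.imCLM))) z :=
      ((chi_sm.differentiable (by simp)) (s z)).hasDerivAt.comp_hasFDerivAt z (hder z 1)
    unfold gz
    rw [hch.fderiv]
    have e1 : (deriv chi (s z) • ((R ^ 2 - ρ ^ 2)⁻¹ •
        ((2 * (z - c).re) • Complex.reCLM + (2 * (z - c).im) • Complex.imCLM)) : ℂ →L[ℝ] ℝ) 1 =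
        deriv chi (s z) * ((R ^ 2 - ρ ^ 2)⁻¹ * (2 * (z - c).re)) := by simp
    have e2 : (deriv chi (s z) • ((R ^ 2 - ρ ^ 2)⁻¹ •
        ((2 * (z - c).re) • Complex.reCLM + (2 * (z - c).im) • Complex.imCLM)) : ℂ →L[ℝ] ℝ) I =
        deriv chi (s z) * ((R ^ 2 - ρ ^ 2)⁻¹ * (2 * (z - c).im)) := by simp
    rw [e1, e2]
    have e3 : (deriv chi (s z) * ((R ^ 2 - ρ ^ 2)⁻¹ * (2 * (z - c).re))) ^ 2 +
        (deriv chi (s z) * ((R ^ 2 - ρ ^ 2)⁻¹ * (2 * (z - c).im))) ^ 2 =
        (|deriv chi (s z)| * (2 * ‖z - c‖) * (R ^ 2 - ρ ^ 2)⁻¹) ^ 2 := by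
      have h5 : ‖z - c‖ ^ 2 = (z - c).re * (z - c).re + (z - c).im * (z - c).im := by
        rw [← hnsq, Complex.normSq_apply]
      have h6 : (|deriv chi (s z)| * (2 * ‖z - c‖) * (R ^ 2 - ρ ^ 2)⁻¹) ^ 2 =
          |deriv chi (s z)| ^ 2 * (4 * ‖z - c‖ ^ 2) * ((R ^ 2 - ρ ^ 2)⁻¹) ^ 2 := by ring
      rw [h6, h5, sq_abs]
      ring
    rw [e3]
    apply pow_le_pow_left₀ (by positivity)
    by_cases hz : ‖z - c‖ ≤ R
    · have h6 : |deriv chi (s z)| * (2 * ‖z - c‖) * (R ^ 2 - ρ ^ 2)⁻¹ ≤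
          D * (2 * R) * (R ^ 2 - ρ ^ 2)⁻¹ := by
        gcongr
        exact hD _
      refine h6.trans ?_
      have h7 : R ^ 2 - ρ ^ 2 = (R - ρ) * (R + ρ) := by ring
      have h8 : 0 < R - ρ := by linarith
      rw [h7, mul_inv, div_eq_mul_inv]
      have h9 : D * (2 * R) * ((R - ρ)⁻¹ * (R + ρ)⁻¹) = 2 * D * (R * (R + ρ)⁻¹) * (R - ρ)⁻¹ := by
        ring
      rw [h9]
      have h10 : R * (R + ρ)⁻¹ ≤ 1 := by
        rw [← div_eq_mul_inv, div_le_one (by linarith)]
        linarith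
      have h11 : 2 * D * (R * (R + ρ)⁻¹) ≤ 2 * D + 1 := by nlinarith
      exact mul_le_mul_of_nonneg_right h11 (inv_nonneg.2 h8.le)
    · have h6 : 3 / 4 < s z := by
        have h12 : R ^ 2 < ‖z - c‖ ^ 2 := pow_lt_pow_left₀ (not_le.1 hz) hR0.le (by norm_num)
        simp only [hs]
        rw [hnsq, lt_div_iff₀ hq]
        linarith
      rw [hz0 _ h6, abs_zero]
      have : 0 < R - ρ := by linarith
      simp only [zero_mul]
      positivity

end MPfa.Reg
end

section
/-!
Auxiliary lemmas for the modules LWD, FLUX, RING, GOODE, PUNCA, PUNCB, PUNCC.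
-/
set_option autoImplicit false

open MeasureTheory Set Filter Topology Metric Complex
open scoped ContDiff ENNReal ComplexConjugate

namespace MPfa.Reg.PA

/-- squares of a function in `Lrl G 2` are integrable on compact sets -/
theorem sq_int {G : Set ℂ} {u : ℂ → ℝ} (hu : Lrl G 2 u) (hm : Measurable u) {K : Set ℂ}
    (hK : K ⊆ G) (hc : IsCompact K) : IntegrableOn (fun z => u z ^ 2) K := by
  refine ⟨(hm.pow_const 2).aestronglyMeasurable, ?_⟩
  rw [hasFiniteIntegral_iff_ofReal (Eventually.of_forall fun z => by positivity)]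
  refine lt_of_le_of_lt (le_of_eq ?_) (hu K hK hc)
  refine lintegral_congr fun z => ?_
  rw [ENNReal.ofReal_rpow_of_nonneg (abs_nonneg _) (by norm_num)]
  congr 1
  rw [show (2 : ℝ) = ((2 : ℕ) : ℝ) by norm_num, Real.rpow_natCast, sq_abs]

theorem normsq (a : ℂ) : ‖a‖ ^ 2 = a.re ^ 2 + a.im ^ 2 := by
  rw [← Complex.normSq_eq_norm_sq, Complex.normSq_apply]; ring

theorem en_int {G : Set ℂ} {F Fx Fy : ℂ → ℂ} (h : WP G 2 2 F Fx Fy) {K : Set ℂ}
    (hK : K ⊆ G) (hc : IsCompact K) : IntegrableOn (fun z => en (Fx z) (Fy z)) K := by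
  have h1 := sq_int h.rx (Complex.measurable_re.comp h.wd.mx) hK hc
  have h2 := sq_int h.sx (Complex.measurable_im.comp h.wd.mx) hK hc
  have h3 := sq_int h.ry (Complex.measurable_re.comp h.wd.my) hK hc
  have h4 := sq_int h.sy (Complex.measurable_im.comp h.wd.my) hK hc
  refine ((h1.add h2).add (h3.add h4)).congr_fun (fun z _ => ?_) hc.measurableSet
  simp only [en, normsq, Pi.add_apply]

theorem en_nonneg (a b : ℂ) : 0 ≤ en a b := by unfold en; positivity

/-- a function continuous and nonvanishing on a compact set is bounded below -/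
theorem low {F : ℂ → ℂ} {K : Set ℂ} (hF : ContinuousOn F K) (hc : IsCompact K)
    (h0 : ∀ z ∈ K, F z ≠ 0) : ∃ δ > 0, ∀ z ∈ K, δ ≤ ‖F z‖ := by
  rcases K.eq_empty_or_nonempty with rfl | hne
  · exact ⟨1, one_pos, by simp⟩
  · obtain ⟨z, hz, hmin⟩ := hc.exists_isMinOn hne hF.norm
    exact ⟨‖F z‖, norm_pos_iff.2 (h0 z hz), fun w hw => hmin hw⟩

theorem enF_int {G : Set ℂ} {F Fx Fy : ℂ → ℂ} (h : WP G 2 2 F Fx Fy)
    (h0 : ∀ z ∈ G, F z ≠ 0) {K : Set ℂ} (hK : K ⊆ G) (hc : IsCompact K) :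
    IntegrableOn (fun z => en (Fx z) (Fy z) / ‖F z‖ ^ 2) K := by
  have hco : ContinuousOn F K := h.co.mono hK
  have h1 : ContinuousOn (fun z => (‖F z‖ ^ 2)⁻¹) K := by
    refine ContinuousOn.inv₀ (hco.norm.pow 2) fun z hz => ?_
    have := norm_pos_iff.2 (h0 z (hK hz))
    positivity
  have h2 := (en_int h hK hc).mul_continuousOn h1 hc
  simpa [div_eq_mul_inv] using h2

theorem PF.ne {r Q : ℝ} {m : ℕ} {F Fx Fy ℓ : ℂ → ℂ} (h : PF r Q m F Fx Fy ℓ) :
    ∀ z ∈ pun r, F z ≠ 0 := by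
  intro z hz
  rw [h.eq z hz]
  exact mul_ne_zero (pow_ne_zero _ hz.2) (Complex.exp_ne_zero _)

theorem isOpen_pun (r : ℝ) : IsOpen (pun r) := isOpen_ball.sdiff isClosed_singleton

theorem ring_compact {a b : ℝ} : IsCompact (closedBall (0 : ℂ) b \ ball 0 a) :=
  (isCompact_closedBall (0 : ℂ) b).diff isOpen_ball

theorem ring_sub {a b r : ℝ} (ha : 0 < a) (hb : b < r) :
    closedBall (0 : ℂ) b \ ball 0 a ⊆ pun r := by
  intro z hz
  simp only [Set.mem_sdiff, mem_closedBall, dist_zero_right, mem_ball, not_lt] at hz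
  refine ⟨by simpa using lt_of_le_of_lt hz.1 hb, ?_⟩
  intro h
  rw [mem_singleton_iff] at h
  rw [h, norm_zero] at hz
  linarith [hz.2]

end MPfa.Reg.PA

namespace MPfa.Reg.PA

theorem Lrl_of_bound {G : Set ℂ} {u b : ℂ → ℝ} (hub : ∀ z ∈ G, u z ^ 2 ≤ b z)
    (hb : ∀ K ⊆ G, IsCompact K → IntegrableOn b K) : Lrl G 2 u := by
  intro K hK hc
  have h1 : ∫⁻ z in K, ENNReal.ofReal |u z| ^ (2 : ℝ) ≤ ∫⁻ z in K, ENNReal.ofReal (b z) := by
    refine setLIntegral_mono_ae' hc.measurableSet (Eventually.of_forall fun z hz => ?_)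
    rw [ENNReal.ofReal_rpow_of_nonneg (abs_nonneg _) (by norm_num)]
    refine ENNReal.ofReal_le_ofReal ?_
    rw [show (2 : ℝ) = ((2 : ℕ) : ℝ) by norm_num, Real.rpow_natCast, sq_abs]
    exact hub z (hK hz)
  refine lt_of_le_of_lt h1 ?_
  exact (hb K hK hc).lintegral_lt_top

theorem smul_int {G : Set ℂ} {u : ℂ → ℂ} (hu : LI G u) {φ : ℂ → ℝ} (hφ : Continuous φ)
    (hc : HasCompactSupport φ) (hs : tsupport φ ⊆ G) : Integrable (fun z => φ z • u z) := by
  have h1 : IntegrableOn (fun z => φ z • u z) (tsupport φ) :=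
    (hu _ hs hc).continuousOn_smul hφ.continuousOn hc
  rwa [integrableOn_iff_integrable_of_support_subset] at h1
  intro z hz
  refine subset_tsupport _ fun h => hz ?_
  simp [h]

theorem test_d {G : Set ℂ} {φ : ℂ → ℝ} (h : Test G φ) (e : ℂ) :
    Test G (fun z => fderiv ℝ φ z e) := by
  have hsub : tsupport (fun z => fderiv ℝ φ z e) ⊆ tsupport φ := by
    refine (closure_mono ?_).trans (tsupport_fderiv_subset ℝ (f := φ))
    intro z hz
    refine fun h0 => hz ?_
    simp only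
    rw [h0]; rfl
  refine ⟨?_, ?_, hsub.trans h.su⟩
  · exact (h.sm.fderiv_right (m := ∞) (by simp)).clm_apply contDiff_const
  · exact h.cs.of_isClosed_subset (isClosed_tsupport _) hsub

theorem WD.sub {G : Set ℂ} {F Fx Fy H Hx Hy : ℂ → ℂ} (h1 : WD G F Fx Fy)
    (h2 : WD G H Hx Hy) : WD G (fun z => F z - H z) (fun z => Fx z - Hx z)
      (fun z => Fy z - Hy z) := by
  refine ⟨h1.mx.sub h2.mx, h1.my.sub h2.my, fun K hK hc => (h1.lF K hK hc).sub (h2.lF K hK hc),
    fun K hK hc => (h1.lx K hK hc).sub (h2.lx K hK hc),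
    fun K hK hc => (h1.ly K hK hc).sub (h2.ly K hK hc), fun φ hφ => ?_, fun φ hφ => ?_⟩
  · have d := test_d hφ 1
    simp only [smul_sub]
    rw [integral_sub (smul_int h1.lF d.sm.continuous d.cs d.su)
      (smul_int h2.lF d.sm.continuous d.cs d.su), h1.ix φ hφ, h2.ix φ hφ,
      integral_sub (smul_int h1.lx hφ.sm.continuous hφ.cs hφ.su)
      (smul_int h2.lx hφ.sm.continuous hφ.cs hφ.su)]
    ring
  · have d := test_d hφ I
    simp only [smul_sub]
    rw [integral_sub (smul_int h1.lF d.sm.continuous d.cs d.su)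
      (smul_int h2.lF d.sm.continuous d.cs d.su), h1.iy φ hφ, h2.iy φ hφ,
      integral_sub (smul_int h1.ly hφ.sm.continuous hφ.cs hφ.su)
      (smul_int h2.ly hφ.sm.continuous hφ.cs hφ.su)]
    ring

/-- only the values on `G` matter -/
theorem WD.congr {G : Set ℂ} {F Fx Fy H Hx Hy : ℂ → ℂ} (h1 : WD G F Fx Fy)
    (hF : ∀ z ∈ G, H z = F z) (hx : ∀ z ∈ G, Hx z = Fx z) (hy : ∀ z ∈ G, Hy z = Fy z)
    (mx : Measurable Hx) (my : Measurable Hy) : WD G H Hx Hy := by
  have aux : ∀ {φ : ℂ → ℝ} {u v : ℂ → ℂ}, tsupport φ ⊆ G → (∀ z ∈ G, u z = v z) →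
      ∫ z, φ z • u z = ∫ z, φ z • v z := by
    intro φ u v hs huv
    refine integral_congr_ae (Eventually.of_forall fun z => ?_)
    by_cases hz : z ∈ G
    · simp only; rw [huv z hz]
    · have : φ z = 0 := by
        by_contra h
        exact hz (hs (subset_tsupport _ h))
      simp [this]
  refine ⟨mx, my, fun K hK hc => ?_, fun K hK hc => ?_, fun K hK hc => ?_, fun φ hφ => ?_,
    fun φ hφ => ?_⟩
  · exact (h1.lF K hK hc).congr_fun (fun z hz => (hF z (hK hz)).symm) hc.measurableSet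
  · exact (h1.lx K hK hc).congr_fun (fun z hz => (hx z (hK hz)).symm) hc.measurableSet
  · exact (h1.ly K hK hc).congr_fun (fun z hz => (hy z (hK hz)).symm) hc.measurableSet
  · rw [aux (test_d hφ 1).su hF, aux hφ.su hx, h1.ix φ hφ]
  · rw [aux (test_d hφ I).su hF, aux hφ.su hy, h1.iy φ hφ]

theorem WD.mono {G G' : Set ℂ} {F Fx Fy : ℂ → ℂ} (h : WD G F Fx Fy) (hG : G' ⊆ G) :
    WD G' F Fx Fy :=
  ⟨h.mx, h.my, fun K hK hc => h.lF K (hK.trans hG) hc, fun K hK hc => h.lx K (hK.trans hG) hc,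
    fun K hK hc => h.ly K (hK.trans hG) hc,
    fun φ hφ => h.ix φ ⟨hφ.sm, hφ.cs, hφ.su.trans hG⟩,
    fun φ hφ => h.iy φ ⟨hφ.sm, hφ.cs, hφ.su.trans hG⟩⟩

theorem meas_ind {G : Set ℂ} {F : ℂ → ℂ} (hG : IsOpen G) (hF : ContinuousOn F G) :
    Measurable (G.indicator F) := by
  classical
  have := hF.measurable_piecewise (g := fun _ => (0 : ℂ)) continuousOn_const hG.measurableSet
  rwa [← piecewise_eq_indicator]

end MPfa.Reg.PA
end

section
/-!
Module LWD: the logarithm of a nonvanishing quasiregular map of a punctured disc is Sobolev.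
-/
set_option autoImplicit false

open MeasureTheory Set Filter Topology Metric Complex
open scoped ContDiff ENNReal ComplexConjugate

namespace MPfa.Reg.PA

theorem hasFD_log {w0 w : ℂ} (hw : w / w0 ∈ slitPlane) (h0 : w0 ≠ 0) :
    HasFDerivAt (𝕜 := ℝ) (fun w => Complex.log (w / w0))
      ((ContinuousLinearMap.toSpanSingleton ℂ (w⁻¹)).restrictScalars ℝ) w := by
  have hne : w ≠ 0 := by
    rintro rfl
    simp at hw
  have h1 : HasDerivAt (fun w => w / w0) (1 / w0) w := (hasDerivAt_id w).div_const w0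
  have h2 := h1.clog hw
  have h3 : (1 / w0) / (w / w0) = w⁻¹ := by field_simp
  rw [h3] at h2
  exact h2.hasFDerivAt.restrictScalars ℝ

theorem fd_log {w0 w v : ℂ} (hw : w / w0 ∈ slitPlane) (h0 : w0 ≠ 0) :
    fderiv ℝ (fun w => Complex.log (w / w0)) w v = v / w := by
  rw [(hasFD_log hw h0).fderiv]
  simp [div_eq_mul_inv]

theorem cd_log {w0 : ℂ} : ContDiffOn ℝ 1 (fun w => Complex.log (w / w0))
    {w | w / w0 ∈ slitPlane} := by
  intro w hw
  have h1 : ContDiffAt ℂ 1 (fun w => Complex.log (w / w0)) w :=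
    (Complex.contDiffAt_log hw).comp w (contDiffAt_id.div_const w0)
  exact (h1.restrict_scalars ℝ).contDiffWithinAt

theorem lwd_wd (hComp : SpecComp) (hLoc : SpecLoc) (hC : SpecC1WD) {r Q : ℝ} {m : ℕ}
    {F Fx Fy ℓ : ℂ → ℂ} (h : PF r Q m F Fx Fy ℓ) :
    WD (pun r) ℓ ((pun r).indicator (lx m F Fx)) ((pun r).indicator (ly m F Fy)) := by
  have hop : IsOpen (pun r) := isOpen_pun r
  have hco : ContinuousOn F (pun r) := h.qr.wp.co
  have hne := PF.ne h
  have mF : Measurable ((pun r).indicator F) := meas_ind hop hco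
  have mx : Measurable ((pun r).indicator (lx m F Fx)) := by
    have : (pun r).indicator (lx m F Fx) =
        (pun r).indicator (fun z => Fx z / (pun r).indicator F z - m / z) := by
      refine indicator_congr fun z hz => ?_
      simp only [lx, indicator_of_mem hz]
    rw [this]
    exact ((h.qr.wp.wd.mx.div mF).sub (measurable_const.div measurable_id)).indicator
      hop.measurableSet
  have my : Measurable ((pun r).indicator (ly m F Fy)) := by
    have : (pun r).indicator (ly m F Fy) =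
        (pun r).indicator (fun z => Fy z / (pun r).indicator F z - I * (m / z)) := by
      refine indicator_congr fun z hz => ?_
      simp only [ly, indicator_of_mem hz]
    rw [this]
    exact ((h.qr.wp.wd.my.div mF).sub
      (measurable_const.mul (measurable_const.div measurable_id))).indicator hop.measurableSet
  refine hLoc _ _ _ _ hop mx my fun z0 hz0 => ?_
  have hz0' : z0 ≠ 0 := hz0.2
  have hF0 : F z0 ≠ 0 := hne z0 hz0
  set w0 := F z0 with hw0
  -- the comparison function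
  set k : ℂ → ℂ := fun z => (m : ℂ) * Complex.log (z / z0) - ℓ z0 with hk
  have cF : ContinuousAt F z0 := (hco z0 hz0).continuousAt (hop.mem_nhds hz0)
  have cl : ContinuousAt ℓ z0 := (h.lc z0 hz0).continuousAt (hop.mem_nhds hz0)
  have e1 : ∀ᶠ z in 𝓝 z0, F z / w0 ∈ slitPlane := by
    have : ContinuousAt (fun z => F z / w0) z0 := cF.div_const w0
    refine this.eventually_mem (isOpen_slitPlane.mem_nhds ?_)
    rw [← hw0, div_self hF0]; exact one_mem_slitPlane
  have e2 : ∀ᶠ z in 𝓝 z0, z / z0 ∈ slitPlane := by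
    have : ContinuousAt (fun z => z / z0) z0 := continuousAt_id.div_const z0
    refine this.eventually_mem (isOpen_slitPlane.mem_nhds ?_)
    rw [div_self hz0']; exact one_mem_slitPlane
  have e3 : ∀ᶠ z in 𝓝 z0, ‖ℓ z - (Complex.log (F z / w0) - k z)‖ < 1 := by
    have : ContinuousAt (fun z => ℓ z - (Complex.log (F z / w0) - k z)) z0 := by
      refine cl.sub (((cF.div_const w0).clog ?_).sub ?_)
      · rw [← hw0, div_self hF0]; exact one_mem_slitPlane
      · refine (continuousAt_const.mul ((continuousAt_id.div_const z0).clog ?_)).sub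
          continuousAt_const
        simp only [id]
        rw [div_self hz0']; exact one_mem_slitPlane
    have h0 : ℓ z0 - (Complex.log (F z0 / w0) - k z0) = 0 := by
      rw [← hw0, div_self hF0, hk]
      simp only
      rw [div_self hz0', Complex.log_one]
      ring
    have h1 := this.norm.eventually_lt_const (u := 1) (by
      change ‖ℓ z0 - (Complex.log (F z0 / w0) - k z0)‖ < 1
      rw [h0]; simp)
    exact h1
  have e4 : ∀ᶠ z in 𝓝 z0, z ∈ pun r := hop.mem_nhds hz0
  obtain ⟨ρ, hρ, hB⟩ := Metric.eventually_nhds_iff_ball.1 (e1.and (e2.and (e3.and e4)))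
  refine ⟨ρ, hρ, fun z hz => (hB z hz).2.2.2, ?_⟩
  have hBsub : ball z0 ρ ⊆ pun r := fun z hz => (hB z hz).2.2.2
  have hwB := WD.mono h.qr.wp.wd hBsub
  have hU : IsOpen {w : ℂ | w / w0 ∈ slitPlane} :=
    isOpen_slitPlane.preimage (continuous_id.div_const w0)
  have h1 := hComp (ball z0 ρ) {w | w / w0 ∈ slitPlane} F Fx Fy
    (fun w => Complex.log (w / w0)) isOpen_ball (hco.mono hBsub) hwB hU cd_log
    (fun z hz => (hB z hz).1)
  have hkd : ∀ z ∈ ball z0 ρ, HasFDerivAt (𝕜 := ℝ) k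
      (((m : ℂ) • (ContinuousLinearMap.toSpanSingleton ℂ (z⁻¹))).restrictScalars ℝ) z := by
    intro z hz
    have h2 := (hasFD_log (hB z hz).2.1 hz0').const_mul (m : ℂ)
    have h3 := h2.sub_const (ℓ z0)
    refine h3.congr_fderiv ?_
    ext v
    all_goals simp
  have h2 := hC (ball z0 ρ) k isOpen_ball (by
    refine (contDiffOn_const.mul (cd_log.mono fun z hz => (hB z hz).2.1)).sub
      contDiffOn_const)
  have h3 := WD.sub h1 h2
  refine WD.congr h3 (fun z hz => ?_) (fun z hz => ?_) (fun z hz => ?_) mx my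
  · -- equality of the logarithms
    have hz' := hBsub hz
    have hexp : Complex.exp (ℓ z - (Complex.log (F z / w0) - k z)) = 1 := by
      rw [Complex.exp_sub, Complex.exp_sub, hk]
      simp only
      rw [Complex.exp_sub, Complex.exp_nat_mul, Complex.exp_log, Complex.exp_log]
      · have a1 := h.eq z hz'
        have a2 := h.eq z0 hz0
        rw [a1, hw0, a2]
        have := hz'.2
        have b1 : z ≠ 0 := this
        rw [div_pow]
        field_simp
      · exact div_ne_zero hz'.2 hz0'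
      · exact div_ne_zero (hne z hz') hF0
    obtain ⟨n, hn⟩ := Complex.exp_eq_one_iff.1 hexp
    have hlt := (hB z hz).2.2.1
    rw [hn] at hlt
    have hn0 : n = 0 := by
      by_contra hne0
      have h5 : (1 : ℝ) ≤ |(n : ℝ)| := by
        have := Int.one_le_abs hne0
        exact_mod_cast this
      have h6 : ‖(n : ℂ) * (2 * Real.pi * I)‖ = |(n : ℝ)| * (2 * Real.pi) := by
        rw [norm_mul, norm_mul, norm_mul, Complex.norm_I, Complex.norm_intCast,
          Complex.norm_real, Complex.norm_ofNat, Real.norm_of_nonneg Real.pi_pos.le]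
        ring
      rw [h6] at hlt
      have := Real.pi_gt_three
      nlinarith
    rw [hn0] at hn
    simp only [Int.cast_zero, zero_mul] at hn
    exact sub_eq_zero.1 hn
  · rw [indicator_of_mem (hBsub hz), indicator_of_mem hz, indicator_of_mem hz,
      fd_log (hB z hz).1 hF0, (hkd z hz).fderiv]
    simp [lx, div_eq_mul_inv]
  · rw [indicator_of_mem (hBsub hz), indicator_of_mem hz, indicator_of_mem hz,
      fd_log (hB z hz).1 hF0, (hkd z hz).fderiv]
    simp [ly, div_eq_mul_inv]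
    ring

theorem ineq1 (a F z : ℂ) (m : ℕ) (c : ℂ) (hc : ‖c‖ ≤ 1) :
    ‖a / F - c * (m / z)‖ ^ 2 ≤ 2 * (‖a‖ ^ 2 / ‖F‖ ^ 2) + 2 * (m ^ 2 / ‖z‖ ^ 2) := by
  have h1 : ‖a / F - c * (m / z)‖ ≤ ‖a‖ / ‖F‖ + m / ‖z‖ := by
    refine (norm_sub_le _ _).trans ?_
    rw [norm_div, norm_mul, norm_div, Complex.norm_natCast]
    have : ‖c‖ * (m / ‖z‖) ≤ 1 * (m / ‖z‖) := by gcongr
    linarith
  have h2 : ‖a / F - c * (m / z)‖ ^ 2 ≤ (‖a‖ / ‖F‖ + m / ‖z‖) ^ 2 := by gcongr
  have h3 : (‖a‖ / ‖F‖) ^ 2 = ‖a‖ ^ 2 / ‖F‖ ^ 2 := by rw [div_pow]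
  have h4 : (m / ‖z‖) ^ 2 = (m : ℝ) ^ 2 / ‖z‖ ^ 2 := by rw [div_pow]
  nlinarith [sq_nonneg (‖a‖ / ‖F‖ - m / ‖z‖)]

end MPfa.Reg.PA

namespace MPfa.Reg

theorem specLWD (hComp : SpecComp) (hLoc : SpecLoc) (hC : SpecC1WD) : SpecLWD := by
  intro r Q m F Fx Fy ℓ _ h
  have hop : IsOpen (pun r) := PA.isOpen_pun r
  have hwd := PA.lwd_wd hComp hLoc hC h
  have hne := PA.PF.ne h
  set b : ℂ → ℝ := fun z => 2 * (en (Fx z) (Fy z) / ‖F z‖ ^ 2) + 2 * (m ^ 2 / ‖z‖ ^ 2) with hb
  have hbi : ∀ K ⊆ pun r, IsCompact K → IntegrableOn b K := by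
    intro K hK hc
    refine ((PA.enF_int h.qr.wp hne hK hc).const_mul 2).add ?_
    refine ContinuousOn.integrableOn_compact hc ?_
    refine continuousOn_const.mul (continuousOn_const.div (continuous_norm.pow 2).continuousOn
      fun z hz => ?_)
    have : z ≠ 0 := (hK hz).2
    positivity
  have bx : ∀ z ∈ pun r, ‖(pun r).indicator (lx m F Fx) z‖ ^ 2 ≤ b z := by
    intro z hz
    rw [indicator_of_mem hz, lx]
    have h1 := PA.ineq1 (Fx z) (F z) z m 1 (by simp)
    rw [one_mul] at h1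
    refine h1.trans ?_
    have : ‖Fx z‖ ^ 2 / ‖F z‖ ^ 2 ≤ en (Fx z) (Fy z) / ‖F z‖ ^ 2 := by
      gcongr
      unfold en
      nlinarith [sq_nonneg ‖Fy z‖]
    simp only [hb]
    linarith
  have by' : ∀ z ∈ pun r, ‖(pun r).indicator (ly m F Fy) z‖ ^ 2 ≤ b z := by
    intro z hz
    rw [indicator_of_mem hz, ly]
    have h1 := PA.ineq1 (Fy z) (F z) z m I (by simp)
    refine h1.trans ?_
    have : ‖Fy z‖ ^ 2 / ‖F z‖ ^ 2 ≤ en (Fx z) (Fy z) / ‖F z‖ ^ 2 := by
      gcongr
      unfold en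
      nlinarith [sq_nonneg ‖Fx z‖]
    simp only [hb]
    linarith
  refine ⟨hop, h.lc, hwd, ?_, ?_, ?_, ?_⟩
  · refine PA.Lrl_of_bound (b := b) (fun z hz => le_trans ?_ (bx z hz)) hbi
    rw [PA.normsq]
    nlinarith [sq_nonneg ((pun r).indicator (lx m F Fx) z).im]
  · refine PA.Lrl_of_bound (b := b) (fun z hz => le_trans ?_ (by' z hz)) hbi
    rw [PA.normsq]
    nlinarith [sq_nonneg ((pun r).indicator (ly m F Fy) z).im]
  · refine PA.Lrl_of_bound (b := b) (fun z hz => le_trans ?_ (bx z hz)) hbi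
    rw [PA.normsq]
    nlinarith [sq_nonneg ((pun r).indicator (lx m F Fx) z).re]
  · refine PA.Lrl_of_bound (b := b) (fun z hz => le_trans ?_ (by' z hz)) hbi
    rw [PA.normsq]
    nlinarith [sq_nonneg ((pun r).indicator (ly m F Fy) z).re]

end MPfa.Reg
end

section
/-!
Module FLUX: the flux of `d arg F`.
-/
set_option autoImplicit false

open MeasureTheory Set Filter Topology Metric Complex
open scoped ContDiff ENNReal ComplexConjugate

namespace MPfa.Reg.PA

/-- the ray integral -/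
theorem ray {ζ : ℂ → ℝ} (hs : ContDiff ℝ ∞ ζ) {R : ℝ} (hR : ∀ z : ℂ, R ≤ ‖z‖ → ζ z = 0)
    (u : ℂ) (hu : ‖u‖ = 1) :
    IntegrableOn (fun t : ℝ => fderiv ℝ ζ (t * u) u) (Ioi 0) ∧
      ∫ t in Ioi (0 : ℝ), fderiv ℝ ζ (t * u) u = - ζ 0 := by
  have hd : ∀ t : ℝ, HasDerivAt (fun t : ℝ => ζ (t * u)) (fderiv ℝ ζ (t * u) u) t := by
    intro t
    have h1 : HasFDerivAt ζ (fderiv ℝ ζ (t * u)) ((t : ℂ) * u) :=
      (hs.differentiable (by simp) _).hasFDerivAt
    have h2 : HasDerivAt (fun t : ℝ => (t : ℂ) * u) u t := by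
      have := (Complex.ofRealCLM.hasDerivAt (x := t)).mul_const u
      simpa using this
    exact h1.comp_hasDerivAt t h2
  have hc : Continuous (fun t : ℝ => fderiv ℝ ζ (t * u) u) := by
    have h1 : Continuous (fderiv ℝ ζ) := hs.continuous_fderiv (by simp)
    have h2 : Continuous (fun t : ℝ => (t : ℂ) * u) := by fun_prop
    exact (h1.comp h2).clm_apply continuous_const
  have hz : ∀ t : ℝ, max R 0 + 1 < t → fderiv ℝ ζ (t * u) u = 0 := by
    intro t ht
    have h0 : 0 < t := by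
      have := le_max_right R 0
      linarith
    have h3 : ∀ᶠ z in 𝓝 ((t : ℂ) * u), ζ z = 0 := by
      have hn : R < ‖(t : ℂ) * u‖ := by
        rw [norm_mul, hu, mul_one, Complex.norm_real, Real.norm_of_nonneg h0.le]
        have := le_max_left R 0
        linarith
      have := (continuous_norm (E := ℂ)).continuousAt.eventually_const_lt hn
      filter_upwards [this] with z hz using hR z hz.le
    have h4 : ζ =ᶠ[𝓝 ((t : ℂ) * u)] fun _ => 0 := h3
    rw [h4.fderiv_eq]
    simp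
  have hint : IntegrableOn (fun t : ℝ => fderiv ℝ ζ (t * u) u) (Ioi 0) := by
    have hci : Integrable (fun t : ℝ => fderiv ℝ ζ (t * u) u) := by
      refine hc.integrable_of_hasCompactSupport ?_
      refine HasCompactSupport.intro (K := Icc (-(max R 0 + 1)) (max R 0 + 1)) isCompact_Icc ?_
      intro t ht
      by_contra hne
      apply ht
      rw [mem_Icc]
      refine ⟨?_, ?_⟩
      · by_contra hlt
        apply hne
        push Not at hlt
        have h0 : t < 0 := by
          have := le_max_right R 0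
          linarith
        have h3 : ∀ᶠ z in 𝓝 ((t : ℂ) * u), ζ z = 0 := by
          have hn : R < ‖(t : ℂ) * u‖ := by
            rw [norm_mul, hu, mul_one, Complex.norm_real, Real.norm_of_nonpos h0.le]
            have := le_max_left R 0
            linarith
          have := (continuous_norm (E := ℂ)).continuousAt.eventually_const_lt hn
          filter_upwards [this] with z hz using hR z hz.le
        have h4 : ζ =ᶠ[𝓝 ((t : ℂ) * u)] fun _ => 0 := h3
        rw [h4.fderiv_eq]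
        simp
      · by_contra hlt
        exact hne (hz t (not_le.1 hlt))
    exact hci.integrableOn
  refine ⟨hint, ?_⟩
  have h5 : Tendsto (fun t : ℝ => ζ (t * u)) atTop (𝓝 0) := by
    refine tendsto_const_nhds.congr' ?_
    filter_upwards [eventually_ge_atTop (max R 0)] with t ht
    have h0 : 0 ≤ t := (le_max_right R 0).trans ht
    symm
    apply hR
    rw [norm_mul, hu, mul_one, Complex.norm_real, Real.norm_of_nonneg h0]
    exact (le_max_left R 0).trans ht
  have h6 := integral_Ioi_of_hasDerivAt_of_tendsto (a := (0 : ℝ))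
    ((hd 0).continuousAt.continuousWithinAt) (fun t _ => hd t) hint h5
  rw [h6]
  simp

/-- the radial flux integral -/
theorem radial {ζ : ℂ → ℝ} (hs : ContDiff ℝ ∞ ζ) (hc : HasCompactSupport ζ) :
    ∫ z, fderiv ℝ ζ z z / ‖z‖ ^ 2 = - (2 * Real.pi * ζ 0) := by
  obtain ⟨R, hR⟩ : ∃ R : ℝ, ∀ z : ℂ, R ≤ ‖z‖ → ζ z = 0 := by
    obtain ⟨R, hR⟩ := hc.isCompact.isBounded.subset_ball (0 : ℂ)
    refine ⟨R, fun z hz => ?_⟩
    by_contra h
    have := hR (subset_tsupport _ h)
    rw [mem_ball_zero_iff] at this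
    linarith
  rw [← Complex.integral_comp_polarCoord_symm, polarCoord_target]
  have e1 : ∀ p : ℝ × ℝ, p ∈ Ioi (0 : ℝ) ×ˢ Ioo (-Real.pi) Real.pi →
      p.1 • (fderiv ℝ ζ (Complex.polarCoord.symm p) (Complex.polarCoord.symm p) /
        ‖Complex.polarCoord.symm p‖ ^ 2) =
      fderiv ℝ ζ (p.1 * Complex.exp (p.2 * I)) (Complex.exp (p.2 * I)) := by
    rintro ⟨t, θ⟩ ⟨ht, _⟩
    have ht' : (0 : ℝ) < t := ht
    have h1 : Complex.polarCoord.symm (t, θ) = (t : ℂ) * Complex.exp (θ * I) := by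
      rw [Complex.polarCoord_symm_apply, Complex.exp_mul_I, Complex.ofReal_cos,
        Complex.ofReal_sin]
    rw [h1]
    have h2 : ‖(t : ℂ) * Complex.exp (θ * I)‖ = t := by
      rw [norm_mul, Complex.norm_exp_ofReal_mul_I, mul_one, Complex.norm_real,
        Real.norm_of_nonneg ht'.le]
    have h3 : (t : ℂ) * Complex.exp (θ * I) = t • Complex.exp (θ * I) := by
      rw [Complex.real_smul]
    rw [h2, smul_eq_mul]
    conv_lhs => rw [h3, map_smul, smul_eq_mul]
    rw [h3]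
    field_simp
  rw [setIntegral_congr_fun (measurableSet_Ioi.prod measurableSet_Ioo) e1]
  set Φ : ℝ × ℝ → ℝ := fun p => fderiv ℝ ζ (p.1 * Complex.exp (p.2 * I))
    (Complex.exp (p.2 * I)) with hΦ
  have cΦ : Continuous Φ := by
    have h1 : Continuous (fderiv ℝ ζ) := hs.continuous_fderiv (by simp)
    have h2 : Continuous (fun p : ℝ × ℝ => (p.1 : ℂ) * Complex.exp (p.2 * I)) := by fun_prop
    exact (h1.comp h2).clm_apply (by fun_prop)
  have hint : IntegrableOn Φ (Ioi (0 : ℝ) ×ˢ Ioo (-Real.pi) Real.pi) := by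
    have hK : IsCompact (Icc (0 : ℝ) (max R 0 + 1) ×ˢ Icc (-Real.pi) Real.pi) :=
      isCompact_Icc.prod isCompact_Icc
    have h1 : IntegrableOn Φ (Icc (0 : ℝ) (max R 0 + 1) ×ˢ Icc (-Real.pi) Real.pi) :=
      cΦ.continuousOn.integrableOn_compact hK
    refine IntegrableOn.of_forall_sdiff_eq_zero h1
      (measurableSet_Ioi.prod measurableSet_Ioo) ?_
    rintro ⟨t, θ⟩ ⟨⟨ht, hθ⟩, hn⟩
    have ht' : (0 : ℝ) < t := ht
    have h3 : max R 0 + 1 < t := by
      by_contra hle
      exact hn ⟨⟨ht'.le, not_lt.1 hle⟩, Ioo_subset_Icc_self hθ⟩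
    have h4 : ∀ᶠ z in 𝓝 ((t : ℂ) * Complex.exp (θ * I)), ζ z = 0 := by
      have hn : R < ‖(t : ℂ) * Complex.exp (θ * I)‖ := by
        rw [norm_mul, Complex.norm_exp_ofReal_mul_I, mul_one, Complex.norm_real,
          Real.norm_of_nonneg ht'.le]
        have := le_max_left R 0
        linarith
      have := (continuous_norm (E := ℂ)).continuousAt.eventually_const_lt hn
      filter_upwards [this] with z hz using hR z hz.le
    have h5 : ζ =ᶠ[𝓝 ((t : ℂ) * Complex.exp (θ * I))] fun _ => 0 := h4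
    simp only [hΦ]
    rw [h5.fderiv_eq]
    simp
  have h7 : ∫ p in Ioi (0 : ℝ) ×ˢ Ioo (-Real.pi) Real.pi, Φ p =
      ∫ θ in Ioo (-Real.pi) Real.pi, ∫ t in Ioi (0 : ℝ), Φ (t, θ) := by
    rw [Measure.volume_eq_prod, ← Measure.prod_restrict]
    rw [integral_prod_symm]
    rwa [Measure.prod_restrict, ← Measure.volume_eq_prod]
  rw [h7]
  have h8 : ∀ θ : ℝ, ∫ t in Ioi (0 : ℝ), Φ (t, θ) = - ζ 0 := fun θ =>
    (ray hs hR (Complex.exp (θ * I)) (Complex.norm_exp_ofReal_mul_I θ)).2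
  simp only [h8, setIntegral_const, measureReal_def, Real.volume_Ioo]
  rw [show Real.pi - -Real.pi = 2 * Real.pi by ring,
    ENNReal.toReal_ofReal (by positivity)]
  simp

theorem test_pun {ζ : ℂ → ℝ} {r ε c : ℝ} (h : Test (ball 0 r) ζ) (hε : 0 < ε)
    (hc : ∀ z ∈ ball (0 : ℂ) ε, ζ z = c) (e : ℂ) : Test (pun r) (fun z => fderiv ℝ ζ z e) := by
  have h1 := test_d h e
  refine ⟨h1.sm, h1.cs, fun z hz => ⟨h1.su hz, ?_⟩⟩
  intro h0
  rw [mem_singleton_iff] at h0
  subst h0
  rw [tsupport, mem_closure_iff_frequently] at hz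
  have h2 : ∀ᶠ z in 𝓝 (0 : ℂ), fderiv ℝ ζ z e = 0 := by
    filter_upwards [isOpen_ball.mem_nhds (mem_ball_self hε)] with z hz
    have h3 : ζ =ᶠ[𝓝 z] fun _ => c := by
      filter_upwards [isOpen_ball.mem_nhds hz] with w hw using hc w hw
    rw [h3.fderiv_eq]
    simp
  exact hz (h2.mono fun z hz => by simpa using hz)

theorem symm2 {ζ : ℂ → ℝ} (hs : ContDiff ℝ ∞ ζ) (z : ℂ) :
    fderiv ℝ (fun z => fderiv ℝ ζ z I) z 1 = fderiv ℝ (fun z => fderiv ℝ ζ z 1) z I := by
  have hd : Differentiable ℝ (fderiv ℝ ζ) := by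
    have : ContDiff ℝ ∞ (fderiv ℝ ζ) := hs.fderiv_right (m := ∞) (by simp)
    exact this.differentiable (by simp)
  have h1 : ∀ v w : ℂ, fderiv ℝ (fun z => fderiv ℝ ζ z v) z w =
      fderiv ℝ (fderiv ℝ ζ) z w v := by
    intro v w
    rw [fderiv_clm_apply (hd z) (by fun_prop)]
    simp
  rw [h1, h1]
  have h2 : IsSymmSndFDerivAt ℝ ζ z := by
    refine (hs.contDiffAt).isSymmSndFDerivAt ?_
    simp only [minSmoothness_of_isRCLikeNormedField]
    exact WithTop.coe_le_coe.2 (le_top : (2 : ℕ∞) ≤ ⊤)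
  exact (h2 1 I)

theorem im_div_I (z : ℂ) (m : ℕ) : (I * ((m : ℂ) / z)).im = m * (z.re / ‖z‖ ^ 2) := by
  rw [Complex.mul_im, Complex.I_re, Complex.I_im, Complex.div_re, Complex.natCast_re,
    Complex.natCast_im, Complex.normSq_eq_norm_sq]
  ring

theorem im_div_1 (z : ℂ) (m : ℕ) : ((m : ℂ) / z).im = - (m * (z.im / ‖z‖ ^ 2)) := by
  rw [Complex.div_im, Complex.natCast_re,
    Complex.natCast_im, Complex.normSq_eq_norm_sq]
  ring

end MPfa.Reg.PA

namespace MPfa.Reg

theorem specFlux (hL : SpecLWD) : SpecFlux := by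
  intro r Q m F Fx Fy ℓ hQ h ζ c ε hζ hε hc
  have hwp := hL r Q m F Fx Fy ℓ hQ h
  have hne := PA.PF.ne h
  set X := (pun r).indicator (lx m F Fx) with hX
  set Y := (pun r).indicator (ly m F Fy) with hY
  have t1 := PA.test_pun hζ hε hc 1
  have tI := PA.test_pun hζ hε hc I
  have i1 := hwp.wd.ix _ tI
  have i2 := hwp.wd.iy _ t1
  have e1 : ∫ z, fderiv ℝ ζ z I • X z = ∫ z, fderiv ℝ ζ z 1 • Y z := by
    have : ∫ z, (fderiv ℝ (fun z => fderiv ℝ ζ z I) z 1) • ℓ z =
        ∫ z, (fderiv ℝ (fun z => fderiv ℝ ζ z 1) z I) • ℓ z := by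
      refine integral_congr_ae (Eventually.of_forall fun z => ?_)
      simp only
      rw [PA.symm2 hζ.sm z]
    rw [i1, i2] at this
    exact neg_injective this
  have intX : Integrable (fun z => fderiv ℝ ζ z I • X z) :=
    PA.smul_int hwp.wd.lx tI.sm.continuous tI.cs tI.su
  have intY : Integrable (fun z => fderiv ℝ ζ z 1 • Y z) :=
    PA.smul_int hwp.wd.ly t1.sm.continuous t1.cs t1.su
  have e2 : ∫ z, fderiv ℝ ζ z I * (X z).im = ∫ z, fderiv ℝ ζ z 1 * (Y z).im := by
    have h1 := Complex.imCLM.integral_comp_comm intX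
    have h2 := Complex.imCLM.integral_comp_comm intY
    rw [e1, ← h2] at h1
    simpa using h1
  have intX' : Integrable (fun z => fderiv ℝ ζ z I * (X z).im) := by
    have := Complex.imCLM.integrable_comp intX
    simpa using this
  have intY' : Integrable (fun z => fderiv ℝ ζ z 1 * (Y z).im) := by
    have := Complex.imCLM.integrable_comp intY
    simpa using this
  have e3 : ∀ z, fderiv ℝ ζ z 1 * (Fy z / F z).im - fderiv ℝ ζ z I * (Fx z / F z).im =
      (fderiv ℝ ζ z 1 * (Y z).im - fderiv ℝ ζ z I * (X z).im) +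
        m * (fderiv ℝ ζ z z / ‖z‖ ^ 2) := by
    intro z
    by_cases hz : z ∈ pun r
    · have hz0 : z ≠ 0 := hz.2
      rw [hX, hY, indicator_of_mem hz, indicator_of_mem hz, lx, ly, Complex.sub_im,
        Complex.sub_im, PA.im_div_I, PA.im_div_1]
      have h1 : fderiv ℝ ζ z z = z.re * fderiv ℝ ζ z 1 + z.im * fderiv ℝ ζ z I := by
        conv_lhs => rw [← Complex.re_add_im z]
        have : ((z.re : ℂ) + z.im * I) = z.re • (1 : ℂ) + z.im • I := by
          simp
        rw [Complex.re_add_im] at this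
        conv_lhs =>
          rw [Complex.re_add_im]
          arg 2
          rw [this]
        rw [map_add, map_smul, map_smul, smul_eq_mul, smul_eq_mul]
      rw [h1]
      ring
    · have h1 : fderiv ℝ ζ z 1 = 0 := by
        by_contra h
        exact hz (t1.su (subset_tsupport _ h))
      have h2 : fderiv ℝ ζ z I = 0 := by
        by_contra h
        exact hz (tI.su (subset_tsupport _ h))
      have h3 : fderiv ℝ ζ z z = 0 := by
        have : z = z.re • (1 : ℂ) + z.im • I := by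
          simp
        conv_lhs =>
          arg 2
          rw [this]
        rw [map_add, map_smul, map_smul, h1, h2]
        simp
      rw [h1, h2, h3]
      simp
  have intZ : Integrable (fun z => fderiv ℝ ζ z z / ‖z‖ ^ 2) := by
    -- continuous with compact support in `pun r`
    have hcont : Continuous (fun z => fderiv ℝ ζ z z / ‖z‖ ^ 2) := by
      rw [continuous_iff_continuousAt]
      intro z
      by_cases hz : z = 0
      · subst hz
        have : (fun z => fderiv ℝ ζ z z / ‖z‖ ^ 2) =ᶠ[𝓝 0] fun _ => 0 := by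
          filter_upwards [isOpen_ball.mem_nhds (mem_ball_self hε)] with z hz
          have h3 : ζ =ᶠ[𝓝 z] fun _ => c := by
            filter_upwards [isOpen_ball.mem_nhds hz] with w hw using hc w hw
          rw [h3.fderiv_eq]
          simp
        exact continuousAt_const.congr this.symm
      · have h1 : Continuous (fderiv ℝ ζ) := hζ.sm.continuous_fderiv (by simp)
        refine ((h1.clm_apply continuous_id).continuousAt).div
          (continuous_norm.pow 2).continuousAt ?_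
        have := norm_pos_iff.2 hz
        simp only [ne_eq]
        positivity
    refine hcont.integrable_of_hasCompactSupport ?_
    refine hζ.cs.of_isClosed_subset (isClosed_tsupport _) ?_
    refine (closure_mono ?_).trans (tsupport_fderiv_subset ℝ (f := ζ))
    intro z hz h0
    apply hz
    simp only
    rw [h0]
    simp
  calc ∫ z, (fderiv ℝ ζ z 1 * (Fy z / F z).im - fderiv ℝ ζ z I * (Fx z / F z).im)
      = ∫ z, ((fderiv ℝ ζ z 1 * (Y z).im - fderiv ℝ ζ z I * (X z).im) +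
        m * (fderiv ℝ ζ z z / ‖z‖ ^ 2)) := integral_congr_ae (Eventually.of_forall e3)
    _ = ((∫ z, fderiv ℝ ζ z 1 * (Y z).im) - ∫ z, fderiv ℝ ζ z I * (X z).im) +
        m * ∫ z, fderiv ℝ ζ z z / ‖z‖ ^ 2 := by
      have hsub : Integrable (fun z => fderiv ℝ ζ z 1 * (Y z).im - fderiv ℝ ζ z I * (X z).im) :=
        intY'.sub intX'
      rw [integral_add hsub (intZ.const_mul _), integral_sub intY' intX',
        integral_const_mul]
    _ = -(2 * Real.pi * m * c) := by
      rw [e2, sub_self, zero_add, PA.radial hζ.sm hζ.cs, hc 0 (mem_ball_self hε)]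
      ring

end MPfa.Reg
end

section
/-!
Module RING: lower bound for the energy of a ring.
-/
set_option autoImplicit false

open MeasureTheory Set Filter Topology Metric Complex
open scoped ContDiff ENNReal ComplexConjugate

namespace MPfa.Reg.PA

theorem amgm (x y a b lam : ℝ) (hl : 0 < lam) :
    |x * a - y * b| ≤ lam / 2 * (x ^ 2 + y ^ 2) + 1 / (2 * lam) * (a ^ 2 + b ^ 2) := by
  have h1 : (x * a - y * b) ^ 2 ≤ (x ^ 2 + y ^ 2) * (a ^ 2 + b ^ 2) := by
    nlinarith [sq_nonneg (x * b + y * a)]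
  refine abs_le_of_sq_le_sq ?_ (by positivity)
  refine h1.trans ?_
  have h2 : lam / 2 * (x ^ 2 + y ^ 2) + 1 / (2 * lam) * (a ^ 2 + b ^ 2) =
      (lam ^ 2 * (x ^ 2 + y ^ 2) + (a ^ 2 + b ^ 2)) / (2 * lam) := by
    field_simp
  rw [h2, div_pow, le_div_iff₀ (by positivity)]
  nlinarith [sq_nonneg (lam ^ 2 * (x ^ 2 + y ^ 2) - (a ^ 2 + b ^ 2))]

theorem im_sq_add (a b F : ℂ) : (b / F).im ^ 2 + (a / F).im ^ 2 ≤ en a b / ‖F‖ ^ 2 := by
  have h1 : (b / F).im ^ 2 ≤ ‖b‖ ^ 2 / ‖F‖ ^ 2 := by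
    rw [← div_pow, ← norm_div, normsq]; nlinarith [sq_nonneg (b / F).re]
  have h2 : (a / F).im ^ 2 ≤ ‖a‖ ^ 2 / ‖F‖ ^ 2 := by
    rw [← div_pow, ← norm_div, normsq]; nlinarith [sq_nonneg (a / F).re]
  calc _ ≤ ‖b‖ ^ 2 / ‖F‖ ^ 2 + ‖a‖ ^ 2 / ‖F‖ ^ 2 := add_le_add h1 h2
    _ = _ := by unfold en; ring

/-- pointwise bound of the flux form -/
theorem form_le (ζ : ℂ → ℝ) (F Fx Fy : ℂ → ℂ) (z : ℂ) {lam : ℝ} (hl : 0 < lam) :
    |fderiv ℝ ζ z 1 * (Fy z / F z).im - fderiv ℝ ζ z I * (Fx z / F z).im| ≤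
      lam / 2 * gz ζ z + 1 / (2 * lam) * (en (Fx z) (Fy z) / ‖F z‖ ^ 2) := by
  refine (amgm _ _ _ _ lam hl).trans ?_
  have := im_sq_add (Fx z) (Fy z) (F z)
  have h1 : 1 / (2 * lam) * ((Fy z / F z).im ^ 2 + (Fx z / F z).im ^ 2) ≤
      1 / (2 * lam) * (en (Fx z) (Fy z) / ‖F z‖ ^ 2) := by gcongr
  unfold gz
  linarith

/-- a differentiable function constant on a closed set which is the closure of its interior:
we only need closed balls -/
theorem fd_zero_closedBall {ζ : ℂ → ℝ} (hs : ContDiff ℝ ∞ ζ) {t : ℝ} {c : ℝ} (ht : 0 < t)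
    (h : ∀ z ∈ closedBall (0 : ℂ) t, ζ z = c) : ∀ z ∈ closedBall (0 : ℂ) t, fderiv ℝ ζ z = 0 := by
  have h1 : ∀ z ∈ ball (0 : ℂ) t, fderiv ℝ ζ z = 0 := by
    intro z hz
    have h3 : ζ =ᶠ[𝓝 z] fun _ => c := by
      filter_upwards [isOpen_ball.mem_nhds hz] with w hw using h w (ball_subset_closedBall hw)
    rw [h3.fderiv_eq]
    simp
  have h2 : Continuous (fderiv ℝ ζ) := hs.continuous_fderiv (by simp)
  have h3 : closure (ball (0 : ℂ) t) = closedBall 0 t := closure_ball 0 ht.ne'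
  intro z hz
  rw [← h3] at hz
  have h4 : IsClosed {z | fderiv ℝ ζ z = 0} := isClosed_eq h2 continuous_const
  exact (h4.closure_subset_iff.2 h1) hz

theorem fd_zero_off {ζ : ℂ → ℝ} {z : ℂ} (hz : z ∉ tsupport ζ) : fderiv ℝ ζ z = 0 := by
  by_contra h
  exact hz (support_fderiv_subset ℝ h)

end MPfa.Reg.PA

namespace MPfa.Reg

theorem specRing (hFl : SpecFlux) (hCut : SpecCut) : SpecRing := by
  obtain ⟨C, hC0, hC⟩ := hCut
  refine ⟨C ^ 2 / Real.pi, by positivity, ?_⟩
  intro r Q m F Fx Fy ℓ hQ h t ht htr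
  have hne := PA.PF.ne h
  set A : Set ℂ := ball (0 : ℂ) (2 * t) \ closedBall 0 t with hA
  have hAm : MeasurableSet A := isOpen_ball.measurableSet.diff isClosed_closedBall.measurableSet
  have hAK : A ⊆ closedBall (0 : ℂ) (2 * t) \ ball 0 t := by
    rintro z ⟨h1, h2⟩
    exact ⟨ball_subset_closedBall h1, fun h3 => h2 (ball_subset_closedBall h3)⟩
  have hint : IntegrableOn (fun z => en (Fx z) (Fy z) / ‖F z‖ ^ 2) A :=
    (PA.enF_int h.qr.wp hne (PA.ring_sub ht htr) PA.ring_compact).mono_set hAK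
  have hE0 : 0 ≤ ∫ z in A, en (Fx z) (Fy z) / ‖F z‖ ^ 2 := by
    refine setIntegral_nonneg hAm fun z _ => ?_
    have := PA.en_nonneg (Fx z) (Fy z)
    positivity
  rcases Nat.eq_zero_or_pos m with hm | hm
  · subst hm
    simp only [Nat.cast_zero, ne_eq, OfNat.ofNat_ne_zero, not_false_eq_true, zero_pow]
    positivity
  have hm' : (0 : ℝ) < m := by exact_mod_cast hm
  obtain ⟨ζ, hT, h01, h1, hg⟩ := hC 0 t (2 * t) ht (by linarith)
  have hT' : Test (ball 0 r) ζ := ⟨hT.sm, hT.cs, hT.su.trans (ball_subset_ball htr.le)⟩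
  have hfl := hFl r Q m F Fx Fy ℓ hQ h ζ 1 t hT' ht fun z hz => h1 z (ball_subset_closedBall hz)
  set g : ℂ → ℝ := fun z => fderiv ℝ ζ z 1 * (Fy z / F z).im - fderiv ℝ ζ z I * (Fx z / F z).im
    with hgdef
  have hzero : ∀ z, z ∉ A → g z = 0 := by
    intro z hz
    have : fderiv ℝ ζ z = 0 := by
      by_cases hz1 : z ∈ closedBall (0 : ℂ) t
      · exact PA.fd_zero_closedBall hT.sm ht h1 z hz1
      · refine PA.fd_zero_off fun h2 => hz ⟨hT.su h2, hz1⟩
    simp only [hgdef, this]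
    simp
  have hEq : ∫ z in A, g z = -(2 * Real.pi * m * 1) := by
    rw [setIntegral_eq_integral_of_forall_compl_eq_zero hzero]
    exact hfl
  set lam : ℝ := m / (2 * C ^ 2) with hlam
  have hl : 0 < lam := by positivity
  have hvol : volume A ≤ ENNReal.ofReal (4 * Real.pi * t ^ 2) := by
    refine (measure_mono (sdiff_subset)).trans (le_of_eq ?_)
    rw [Complex.volume_ball, ← ENNReal.ofReal_pow (by positivity), ← ENNReal.ofReal_coe_nnreal,
      ← ENNReal.ofReal_mul (by positivity)]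
    congr 1
    rw [NNReal.coe_real_pi]
    ring
  have hvfin : volume A < ⊤ := lt_of_le_of_lt hvol ENNReal.ofReal_lt_top
  have hcint : IntegrableOn (fun _ : ℂ => (C / t) ^ 2) A := integrableOn_const hvfin.ne
  have hbd : |∫ z in A, g z| ≤ ∫ z in A, (lam / 2 * (C / t) ^ 2 +
      1 / (2 * lam) * (en (Fx z) (Fy z) / ‖F z‖ ^ 2)) := by
    rw [← Real.norm_eq_abs]
    refine norm_integral_le_of_norm_le ((hcint.const_mul (lam / 2)).add
      (hint.const_mul (1 / (2 * lam)))) (Eventually.of_forall fun z => ?_)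
    rw [Real.norm_eq_abs]
    refine (PA.form_le ζ F Fx Fy z hl).trans ?_
    have h3 := hg z
    rw [show 2 * t - t = t by ring] at h3
    have : lam / 2 * gz ζ z ≤ lam / 2 * (C / t) ^ 2 := by gcongr
    linarith
  rw [hEq, integral_add (hcint.const_mul (lam / 2)) (hint.const_mul (1 / (2 * lam))),
    integral_const_mul, integral_const_mul, setIntegral_const, smul_eq_mul] at hbd
  have hv2 : volume.real A ≤ 4 * Real.pi * t ^ 2 := by
    rw [measureReal_def]
    exact ENNReal.toReal_le_of_le_ofReal (by positivity) hvol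
  set E := ∫ z in A, en (Fx z) (Fy z) / ‖F z‖ ^ 2 with hE
  rw [abs_neg, abs_of_nonneg (by positivity)] at hbd
  have h5 : lam / 2 * (volume.real A * (C / t) ^ 2) ≤ lam / 2 * (4 * Real.pi * t ^ 2 * (C / t) ^ 2) := by
    gcongr
  have h6 : lam / 2 * (4 * Real.pi * t ^ 2 * (C / t) ^ 2) = Real.pi * m := by
    rw [hlam]; field_simp
    ring
  have h7 : 1 / (2 * lam) * E = C ^ 2 * E / m := by
    rw [hlam]; field_simp
  rw [h7] at hbd
  have h8 : Real.pi * m ≤ C ^ 2 * E / m := by linarith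
  rw [le_div_iff₀ hm'] at h8
  rw [div_mul_eq_mul_div, le_div_iff₀ Real.pi_pos]
  nlinarith

end MPfa.Reg
end

section
/-!
Module GOODE: energy outside a circle of small oscillation.
-/
set_option autoImplicit false

open MeasureTheory Set Filter Topology Metric Complex
open scoped ContDiff ENNReal ComplexConjugate

namespace MPfa.Reg.PA

/-- the flux form -/
noncomputable def fm (F Fx Fy : ℂ → ℂ) (ζ : ℂ → ℝ) (z : ℂ) : ℝ :=
  fderiv ℝ ζ z 1 * (Fy z / F z).im - fderiv ℝ ζ z I * (Fx z / F z).im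

theorem fm_sub (F Fx Fy : ℂ → ℂ) {ζ χ : ℂ → ℝ} (h1 : ContDiff ℝ ∞ ζ) (h2 : ContDiff ℝ ∞ χ)
    (z : ℂ) : fm F Fx Fy (fun w => ζ w - χ w) z = fm F Fx Fy ζ z - fm F Fx Fy χ z := by
  have : fderiv ℝ (fun w => ζ w - χ w) z = fderiv ℝ ζ z - fderiv ℝ χ z :=
    fderiv_fun_sub (h1.differentiable (by simp) z) (h2.differentiable (by simp) z)
  unfold fm
  rw [this]
  simp only [_root_.sub_apply]
  ring

theorem LI_div {G : Set ℂ} {F Fx Fy : ℂ → ℂ} (h : WP G 2 2 F Fx Fy) (h0 : ∀ z ∈ G, F z ≠ 0)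
    {u : ℂ → ℝ} (hu : ContinuousOn u G) :
    LI G (fun z => ((u z : ℂ) / F z) * Fx z) ∧ LI G (fun z => ((u z : ℂ) / F z) * Fy z) := by
  have hc : ∀ K ⊆ G, ContinuousOn (fun z => (u z : ℂ) / F z) K := by
    intro K hK
    exact (Complex.continuous_ofReal.comp_continuousOn (hu.mono hK)).div (h.co.mono hK)
      fun z hz => h0 z (hK hz)
  exact ⟨fun K hK hk => (h.wd.lx K hK hk).continuousOn_mul (hc K hK) hk,
    fun K hK hk => (h.wd.ly K hK hk).continuousOn_mul (hc K hK) hk⟩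

theorem fm_int {G : Set ℂ} {F Fx Fy : ℂ → ℂ} (h : WP G 2 2 F Fx Fy) (h0 : ∀ z ∈ G, F z ≠ 0)
    {u : ℂ → ℝ} (hu : ContinuousOn u G) {ζ : ℂ → ℝ} (h1 : Test G (fun z => fderiv ℝ ζ z 1))
    (h2 : Test G (fun z => fderiv ℝ ζ z I)) : Integrable (fun z => u z * fm F Fx Fy ζ z) := by
  obtain ⟨lx, ly⟩ := LI_div h h0 hu
  have i1 := Complex.imCLM.integrable_comp (smul_int ly h1.sm.continuous h1.cs h1.su)
  have i2 := Complex.imCLM.integrable_comp (smul_int lx h2.sm.continuous h2.cs h2.su)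
  refine (i1.sub i2).congr (Eventually.of_forall fun z => ?_)
  simp only [Pi.sub_apply, imCLM_apply, Complex.smul_im, fm, smul_eq_mul]
  have e1 : ((u z : ℂ) / F z * Fy z) = (u z : ℂ) * (Fy z / F z) := by ring
  have e2 : ((u z : ℂ) / F z * Fx z) = (u z : ℂ) * (Fx z / F z) := by ring
  rw [e1, e2, Complex.im_ofReal_mul, Complex.im_ofReal_mul]
  ring

end MPfa.Reg.PA

namespace MPfa.Reg.PA

theorem vol_ball {ρ : ℝ} (h : 0 ≤ ρ) : volume.real (ball (0 : ℂ) ρ) = Real.pi * ρ ^ 2 := by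
  rw [measureReal_def, Complex.volume_ball, ← ENNReal.ofReal_pow h,
    ← ENNReal.ofReal_coe_nnreal, ← ENNReal.ofReal_mul (by positivity),
    ENNReal.toReal_ofReal (by positivity), NNReal.coe_real_pi]
  ring

theorem test_sub_pun {r ε : ℝ} {ζ χ : ℂ → ℝ} (h1 : Test (ball 0 r) ζ) (h2 : Test (ball 0 r) χ)
    (hε : 0 < ε) (h : ∀ z ∈ ball (0 : ℂ) ε, ζ z = χ z) : Test (pun r) (fun z => ζ z - χ z) := by
  have hs : tsupport (fun z => ζ z - χ z) ⊆ tsupport ζ ∪ tsupport χ := tsupport_sub ζ χ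
  refine ⟨h1.sm.sub h2.sm, ?_, ?_⟩
  · exact (h1.cs.isCompact.union h2.cs.isCompact).of_isClosed_subset (isClosed_tsupport _) hs
  · intro z hz
    refine ⟨?_, ?_⟩
    · rcases hs hz with h | h
      · exact h1.su h
      · exact h2.su h
    · intro h0
      rw [mem_singleton_iff] at h0
      subst h0
      rw [tsupport, mem_closure_iff_frequently] at hz
      have h3 : ∀ᶠ z in 𝓝 (0 : ℂ), z ∉ Function.support (fun z => ζ z - χ z) := by
        filter_upwards [isOpen_ball.mem_nhds (mem_ball_self hε)] with z hz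
        simp [h z hz]
      exact hz h3

theorem gz_sub {ζ χ : ℂ → ℝ} (h1 : ContDiff ℝ ∞ ζ) (h2 : ContDiff ℝ ∞ χ) (z : ℂ) :
    gz (fun w => ζ w - χ w) z ≤ 2 * gz ζ z + 2 * gz χ z := by
  have : fderiv ℝ (fun w => ζ w - χ w) z = fderiv ℝ ζ z - fderiv ℝ χ z :=
    fderiv_fun_sub (h1.differentiable (by simp) z) (h2.differentiable (by simp) z)
  unfold gz
  rw [this]
  simp only [_root_.sub_apply]
  nlinarith [sq_nonneg (fderiv ℝ ζ z 1 + fderiv ℝ χ z 1),
    sq_nonneg (fderiv ℝ ζ z I + fderiv ℝ χ z I)]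

theorem gz_zero {ζ : ℂ → ℝ} {z : ℂ} (h : fderiv ℝ ζ z = 0) : gz ζ z = 0 := by
  simp [gz, h]

theorem tf_arith {D P X E' T : ℝ} (hD : 0 ≤ D) (hP : 0 ≤ P) (hX : 0 ≤ X)
    (hTb : |T| ≤ D * ((1 + D) * (128 * P) + 1 / (2 * (1 + D)) * E'))
    (hE : E' ≤ 16384 * X * D ^ 2) : |T| ≤ (256 * P + 8192 * X) * (1 + D ^ 2) := by
  refine hTb.trans ?_
  have h1 : 1 / (2 * (1 + D)) * E' ≤ 1 / (2 * (1 + D)) * (16384 * X * D ^ 2) := by gcongr
  have h2 : D * ((1 + D) * (128 * P) + 1 / (2 * (1 + D)) * E') ≤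
      D * ((1 + D) * (128 * P) + 1 / (2 * (1 + D)) * (16384 * X * D ^ 2)) := by gcongr
  refine h2.trans ?_
  have h3 : D / (1 + D) ≤ 1 := by
    rw [div_le_one (by positivity)]; linarith
  have h4 : D * ((1 + D) * (128 * P) + 1 / (2 * (1 + D)) * (16384 * X * D ^ 2)) =
      (D + D ^ 2) * (128 * P) + (D / (1 + D)) * (8192 * X * D ^ 2) := by
    field_simp
    ring
  rw [h4]
  have h5 : (D / (1 + D)) * (8192 * X * D ^ 2) ≤ 1 * (8192 * X * D ^ 2) := by gcongr
  have h6 : D + D ^ 2 ≤ 2 * (1 + D ^ 2) := by nlinarith [sq_nonneg (D - 1)]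
  have h7 : (D + D ^ 2) * (128 * P) ≤ 2 * (1 + D ^ 2) * (128 * P) := by gcongr
  nlinarith

theorem fin_arith {Q A T K D c p S : ℝ} {m : ℕ} (hQ : 0 < Q) (hT : |T| ≤ K * (1 + D ^ 2))
    (hS : S ≤ Q * (-(A + 2 * p * m * c - T))) :
    S ≤ (Q * |A| + Q * K) * (1 + D ^ 2) - 2 * p * m * Q * c := by
  have h1 : -A ≤ |A| := neg_le_abs A
  have h2 : T ≤ |T| := le_abs_self T
  have h3 : Q * (-(A + 2 * p * m * c - T)) ≤ Q * (|A| - 2 * p * m * c + K * (1 + D ^ 2)) := by
    refine mul_le_mul_of_nonneg_left ?_ hQ.le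
    linarith
  have h4 : 0 ≤ Q * |A| * D ^ 2 := by positivity
  linarith

end MPfa.Reg.PA

namespace MPfa.Reg

open PA in
theorem specGoodE (hIBPL : SpecIBPL) (hFl : SpecFlux) (hCa : SpecCaccL) (hCut : SpecCut) :
    SpecGoodE := by
  obtain ⟨C0, hC0, hC⟩ := hCut
  intro r Q m F Fx Fy ℓ hQ h
  have hr := h.r0
  have hne := PF.ne h
  have hop : IsOpen (pun r) := isOpen_pun r
  set u : ℂ → ℝ := fun z => Real.log ‖F z‖ with hu
  have cu : ContinuousOn u (pun r) :=
    h.qr.wp.co.norm.log fun z hz => (norm_pos_iff.2 (hne z hz)).ne'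
  obtain ⟨ζo, ho, ho01, ho1, -⟩ := hC 0 (r / 2) (3 * r / 4) (by positivity) (by linarith)
  have ho' : Test (ball 0 r) ζo := ⟨ho.sm, ho.cs, ho.su.trans (ball_subset_ball (by linarith))⟩
  have ho1' : ∀ z ∈ ball (0 : ℂ) (r / 2), ζo z = 1 := fun z hz =>
    ho1 z (ball_subset_closedBall hz)
  have to1 := test_pun ho' (by positivity : 0 < r / 2) ho1' 1
  have toI := test_pun ho' (by positivity : 0 < r / 2) ho1' I
  set A := ∫ z, u z * fm F Fx Fy ζo z with hA
  set K := 256 * Real.pi * C0 ^ 2 + 8192 * Real.pi * Q ^ 2 * C0 ^ 2 with hK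
  have hK0 : 0 ≤ K := by positivity
  refine ⟨Q * |A| + Q * K, by positivity, ?_⟩
  intro t D ht htr hD hosc z hz
  set c := u z with hc
  have hring : ∀ w : ℂ, 7 / 8 * t ≤ ‖w‖ → ‖w‖ ≤ 9 / 8 * t → |u w - c| ≤ D := fun w h1 h2 =>
    hosc w z h1 h2 (by rw [hz]; linarith) (by rw [hz]; linarith)
  have hsubR : closedBall (0 : ℂ) (9 / 8 * t) \ ball 0 (7 / 8 * t) ⊆ pun r :=
    ring_sub (by positivity) (by linarith)
  -- cut-off at the inner circle
  obtain ⟨ζi, hi, hi01, hi1, hig⟩ := hC 0 (15 / 16 * t) (17 / 16 * t) (by positivity) (by linarith)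
  rw [show 17 / 16 * t - 15 / 16 * t = t / 8 by ring] at hig
  have hi' : Test (ball 0 r) ζi := ⟨hi.sm, hi.cs, hi.su.trans (ball_subset_ball (by linarith))⟩
  have ti1 := test_pun hi' (by positivity : 0 < 15 / 16 * t)
    (fun z hz => hi1 z (ball_subset_closedBall hz)) 1
  have tiI := test_pun hi' (by positivity : 0 < 15 / 16 * t)
    (fun z hz => hi1 z (ball_subset_closedBall hz)) I
  -- the difference
  have hζ : Test (pun r) (fun z => ζo z - ζi z) := by
    refine test_sub_pun ho' hi' (by positivity : 0 < 15 / 16 * t) fun w hw => ?_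
    rw [hi1 w (ball_subset_closedBall hw), ho1' w (ball_subset_ball (by linarith) hw)]
  have hζ0 : ∀ w, 0 ≤ ζo w - ζi w := by
    intro w
    by_cases hw : w ∈ closedBall (0 : ℂ) (r / 2)
    · rw [ho1 w hw]; linarith [(hi01 w).2]
    · have : ζi w = 0 := by
        by_contra h0
        exact hw ((ball_subset_closedBall.trans (closedBall_subset_closedBall (by linarith)))
          (hi.su (subset_tsupport _ h0)))
      rw [this]; linarith [(ho01 w).1]
  have hζ1 : ∀ w ∈ ball (0 : ℂ) (r / 2) \ closedBall 0 (9 / 8 * t), ζo w - ζi w = 1 := by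
    rintro w ⟨h1, h2⟩
    have : ζi w = 0 := by
      by_contra h0
      exact h2 ((ball_subset_closedBall.trans (closedBall_subset_closedBall (by linarith)))
        (hi.su (subset_tsupport _ h0)))
    rw [this, ho1' w h1]; ring
  -- integration by parts
  obtain ⟨ib1, ib2, ib3⟩ := hIBPL (pun r) F Fx Fy h.qr.wp hne univ (fun s => s - c) (fun _ => 1)
    isOpen_univ (fun s _ => by simpa using (hasDerivAt_id s).sub_const c) continuousOn_const
    (fun _ _ => mem_univ _) _ hζ
  have e1 : ∀ w, (u w - c) * fm F Fx Fy (fun z => ζo z - ζi z) w =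
      (u w * fm F Fx Fy ζo w - c * fm F Fx Fy ζo w) - (u w - c) * fm F Fx Fy ζi w := by
    intro w
    rw [fm_sub F Fx Fy ho.sm hi.sm]
    ring
  have j1 : Integrable (fun w => u w * fm F Fx Fy ζo w) := fm_int h.qr.wp hne cu to1 toI
  have j2 : Integrable (fun w => c * fm F Fx Fy ζo w) :=
    fm_int h.qr.wp hne (u := fun _ => c) continuousOn_const to1 toI
  have j3 : Integrable (fun w => (u w - c) * fm F Fx Fy ζi w) :=
    fm_int h.qr.wp hne (cu.sub continuousOn_const) ti1 tiI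
  set T := ∫ w, (u w - c) * fm F Fx Fy ζi w with hT
  have hflux : ∫ w, fm F Fx Fy ζo w = -(2 * Real.pi * m * 1) :=
    hFl r Q m F Fx Fy ℓ hQ h ζo 1 (r / 2) ho' (by positivity) ho1'
  have e2 : ∫ w, (u w - c) * fm F Fx Fy (fun z => ζo z - ζi z) w =
      A + 2 * Real.pi * m * c - T := by
    rw [integral_congr_ae (Eventually.of_forall e1)]
    have j12 : Integrable (fun w => u w * fm F Fx Fy ζo w - c * fm F Fx Fy ζo w) := j1.sub j2
    rw [integral_sub j12 j3, integral_sub j1 j2, integral_const_mul, hflux]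
    ring
  have e3 : ∫ w, (ζo w - ζi w) * 1 * (jac (Fx w) (Fy w) / ‖F w‖ ^ 2) =
      - (A + 2 * Real.pi * m * c - T) := by
    rw [← e2]
    exact ib3
  -- energy against the test function
  have hE1 : Integrable (fun w => (ζo w - ζi w) * (en (Fx w) (Fy w) / ‖F w‖ ^ 2)) := by
    have h1 : IntegrableOn (fun w => (ζo w - ζi w) * (en (Fx w) (Fy w) / ‖F w‖ ^ 2))
        (tsupport fun z => ζo z - ζi z) :=
      (enF_int h.qr.wp hne hζ.su hζ.cs).continuousOn_mul hζ.sm.continuous.continuousOn hζ.cs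
    rwa [integrableOn_iff_integrable_of_support_subset] at h1
    intro w hw
    refine subset_tsupport _ fun h0 => hw ?_
    have h0' : ζo w - ζi w = 0 := h0
    show (ζo w - ζi w) * (en (Fx w) (Fy w) / ‖F w‖ ^ 2) = 0
    rw [h0', zero_mul]
  have hE2 : ∫ w, (ζo w - ζi w) * (en (Fx w) (Fy w) / ‖F w‖ ^ 2) ≤
      Q * ∫ w, (ζo w - ζi w) * 1 * (jac (Fx w) (Fy w) / ‖F w‖ ^ 2) := by
    rw [← integral_const_mul]
    refine integral_mono_ae hE1 (ib1.const_mul Q) ?_
    have hq := h.qr.qr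
    rw [ae_restrict_iff' hop.measurableSet] at hq
    filter_upwards [hq] with w hw
    by_cases hwp : w ∈ pun r
    · have h1 := hw hwp
      have h2 := hζ0 w
      have h3 : 0 < ‖F w‖ := norm_pos_iff.2 (hne w hwp)
      calc (ζo w - ζi w) * (en (Fx w) (Fy w) / ‖F w‖ ^ 2)
          ≤ (ζo w - ζi w) * (Q * jac (Fx w) (Fy w) / ‖F w‖ ^ 2) := by gcongr
        _ = Q * ((ζo w - ζi w) * 1 * (jac (Fx w) (Fy w) / ‖F w‖ ^ 2)) := by ring
    · have : ζo w - ζi w = 0 := by
        by_contra h0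
        exact hwp (hζ.su (subset_tsupport _ h0))
      rw [this]; simp
  have hS : ∫ w in ball (0 : ℂ) (r / 2) \ closedBall 0 (9 / 8 * t),
      en (Fx w) (Fy w) / ‖F w‖ ^ 2 ≤
      ∫ w, (ζo w - ζi w) * (en (Fx w) (Fy w) / ‖F w‖ ^ 2) := by
    have hm : MeasurableSet (ball (0 : ℂ) (r / 2) \ closedBall 0 (9 / 8 * t)) :=
      isOpen_ball.measurableSet.diff isClosed_closedBall.measurableSet
    have h1 : ∫ w in ball (0 : ℂ) (r / 2) \ closedBall 0 (9 / 8 * t),
        en (Fx w) (Fy w) / ‖F w‖ ^ 2 = ∫ w in ball (0 : ℂ) (r / 2) \ closedBall 0 (9 / 8 * t),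
        (ζo w - ζi w) * (en (Fx w) (Fy w) / ‖F w‖ ^ 2) := by
      refine setIntegral_congr_fun hm fun w hw => ?_
      rw [hζ1 w hw, one_mul]
    rw [h1]
    refine setIntegral_le_integral hE1 (Eventually.of_forall fun w => ?_)
    have h2 := hζ0 w
    have h3 := en_nonneg (Fx w) (Fy w)
    simp only [Pi.zero_apply]
    positivity
  -- bound of `T`
  set R : Set ℂ := closedBall (0 : ℂ) (17 / 16 * t) \ ball 0 (15 / 16 * t) with hR
  have hRc : IsCompact R := ring_compact
  have hRp : R ⊆ pun r := ring_sub (by positivity) (by linarith)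
  set E' := ∫ w in R, en (Fx w) (Fy w) / ‖F w‖ ^ 2 with hE'
  have hRv : volume.real R ≤ 4 * Real.pi * t ^ 2 := by
    have h1 : volume.real R ≤ volume.real (ball (0 : ℂ) (2 * t)) := by
      refine measureReal_mono ?_ measure_ball_lt_top.ne
      rintro w ⟨h1, -⟩
      exact closedBall_subset_ball (by linarith) h1
    rw [vol_ball (by positivity)] at h1
    linarith
  have hTb : |T| ≤ D * ((1 + D) * (128 * Real.pi * C0 ^ 2) + 1 / (2 * (1 + D)) * E') := by
    have hz0 : ∀ w, w ∉ R → (u w - c) * fm F Fx Fy ζi w = 0 := by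
      intro w hw
      have : fderiv ℝ ζi w = 0 := by
        by_cases h1 : w ∈ closedBall (0 : ℂ) (15 / 16 * t)
        · exact fd_zero_closedBall hi.sm (by positivity) hi1 w h1
        · refine fd_zero_off fun h2 => hw ⟨ball_subset_closedBall (hi.su h2), fun h3 =>
            h1 (ball_subset_closedBall h3)⟩
      simp [fm, this]
    rw [hT, ← setIntegral_eq_integral_of_forall_compl_eq_zero hz0, ← Real.norm_eq_abs]
    have hi1 : IntegrableOn (fun _ : ℂ => (C0 / (t / 8)) ^ 2) R :=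
      integrableOn_const hRc.measure_lt_top.ne
    have hi2 : IntegrableOn (fun w => en (Fx w) (Fy w) / ‖F w‖ ^ 2) R :=
      enF_int h.qr.wp hne hRp hRc
    have h1 : ‖∫ w in R, (u w - c) * fm F Fx Fy ζi w‖ ≤
        ∫ w in R, D * ((1 + D) / 2 * (C0 / (t / 8)) ^ 2 +
          1 / (2 * (1 + D)) * (en (Fx w) (Fy w) / ‖F w‖ ^ 2)) := by
      refine norm_integral_le_of_norm_le (((hi1.const_mul _).add (hi2.const_mul _)).const_mul D) ?_
      refine (ae_restrict_iff' hRc.measurableSet).2 (Eventually.of_forall fun w hw => ?_)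
      rw [norm_mul, Real.norm_eq_abs, Real.norm_eq_abs]
      have h2 : |u w - c| ≤ D := by
        refine hring w ?_ ?_
        · have := hw.2
          rw [mem_ball_zero_iff, not_lt] at this
          linarith
        · have := hw.1
          rw [mem_closedBall_zero_iff] at this
          linarith
      have h3 : |fm F Fx Fy ζi w| ≤ (1 + D) / 2 * (C0 / (t / 8)) ^ 2 +
          1 / (2 * (1 + D)) * (en (Fx w) (Fy w) / ‖F w‖ ^ 2) := by
        refine (form_le ζi F Fx Fy w (by positivity : 0 < 1 + D)).trans ?_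
        have := hig w
        gcongr
      exact mul_le_mul h2 h3 (abs_nonneg _) hD
    refine h1.trans ?_
    rw [integral_const_mul, integral_add (hi1.const_mul _) (hi2.const_mul _), integral_const_mul,
      integral_const_mul, setIntegral_const, smul_eq_mul]
    refine mul_le_mul_of_nonneg_left ?_ hD
    have h4 : (1 + D) / 2 * (volume.real R * (C0 / (t / 8)) ^ 2) ≤
        (1 + D) / 2 * (4 * Real.pi * t ^ 2 * (C0 / (t / 8)) ^ 2) := by gcongr
    have h5 : (1 + D) / 2 * (4 * Real.pi * t ^ 2 * (C0 / (t / 8)) ^ 2) =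
        (1 + D) * (128 * Real.pi * C0 ^ 2) := by
      field_simp
      ring
    linarith
  -- Caccioppoli
  have hE'b : E' ≤ 16384 * Real.pi * Q ^ 2 * C0 ^ 2 * D ^ 2 := by
    obtain ⟨χo, go, go01, go1, gog⟩ := hC 0 (17 / 16 * t) (9 / 8 * t) (by positivity) (by linarith)
    obtain ⟨χi, gi', gi01, gi1, gig⟩ := hC 0 (7 / 8 * t) (15 / 16 * t) (by positivity)
      (by linarith)
    rw [show 9 / 8 * t - 17 / 16 * t = t / 16 by ring] at gog
    rw [show 15 / 16 * t - 7 / 8 * t = t / 16 by ring] at gig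
    have go' : Test (ball 0 r) χo := ⟨go.sm, go.cs, go.su.trans (ball_subset_ball (by linarith))⟩
    have gi'' : Test (ball 0 r) χi :=
      ⟨gi'.sm, gi'.cs, gi'.su.trans (ball_subset_ball (by linarith))⟩
    have hχ : Test (pun r) (fun z => χo z - χi z) := by
      refine test_sub_pun go' gi'' (by positivity : 0 < 7 / 8 * t) fun w hw => ?_
      rw [gi1 w (ball_subset_closedBall hw), go1 w
        ((ball_subset_closedBall.trans (closedBall_subset_closedBall (by linarith))) hw)]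
    have hcac := hCa (pun r) Q F Fx Fy hQ h.qr hne _ c hχ
    have hl : E' ≤ ∫ w, (χo w - χi w) ^ 2 * (en (Fx w) (Fy w) / ‖F w‖ ^ 2) := by
      have hI : Integrable (fun w => (χo w - χi w) ^ 2 * (en (Fx w) (Fy w) / ‖F w‖ ^ 2)) := by
        have h1 : IntegrableOn (fun w => (χo w - χi w) ^ 2 * (en (Fx w) (Fy w) / ‖F w‖ ^ 2))
            (tsupport fun z => χo z - χi z) :=
          (enF_int h.qr.wp hne hχ.su hχ.cs).continuousOn_mul
            (hχ.sm.continuous.pow 2).continuousOn hχ.cs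
        rwa [integrableOn_iff_integrable_of_support_subset] at h1
        intro w hw
        refine subset_tsupport _ fun h0 => hw ?_
        have h0' : χo w - χi w = 0 := h0
        show (χo w - χi w) ^ 2 * (en (Fx w) (Fy w) / ‖F w‖ ^ 2) = 0
        rw [h0']
        simp
      have h1 : E' = ∫ w in R, (χo w - χi w) ^ 2 * (en (Fx w) (Fy w) / ‖F w‖ ^ 2) := by
        refine setIntegral_congr_fun hRc.measurableSet fun w hw => ?_
        have h2 : χo w = 1 := go1 w hw.1
        have h3 : χi w = 0 := by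
          by_contra h0
          exact hw.2 (gi'.su (subset_tsupport _ h0))
        rw [h2, h3]
        ring
      rw [h1]
      refine setIntegral_le_integral hI (Eventually.of_forall fun w => ?_)
      have h3 := en_nonneg (Fx w) (Fy w)
      simp only [Pi.zero_apply]
      positivity
    have hr' : ∫ w, gz (fun z => χo z - χi z) w * (Real.log ‖F w‖ - c) ^ 2 ≤
        4096 * Real.pi * C0 ^ 2 * D ^ 2 := by
      have h0 : ∀ w, w ∉ ball (0 : ℂ) (2 * t) →
          gz (fun z => χo z - χi z) w * (Real.log ‖F w‖ - c) ^ 2 = 0 := by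
        intro w hw
        have : fderiv ℝ (fun z => χo z - χi z) w = 0 := by
          refine fd_zero_off fun h2 => hw ?_
          have h3 : w ∈ tsupport χo ∪ tsupport χi := tsupport_sub χo χi h2
          rcases h3 with h3 | h3
          · exact ball_subset_ball (by linarith) (go.su h3)
          · exact ball_subset_ball (by linarith) (gi'.su h3)
        rw [gz_zero this, zero_mul]
      rw [← setIntegral_eq_integral_of_forall_compl_eq_zero h0]
      have h1 : ∫ w in ball (0 : ℂ) (2 * t),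
          gz (fun z => χo z - χi z) w * (Real.log ‖F w‖ - c) ^ 2 ≤
          ∫ _ in ball (0 : ℂ) (2 * t), 4 * (C0 / (t / 16)) ^ 2 * D ^ 2 := by
        refine integral_mono_of_nonneg (Eventually.of_forall fun w => ?_)
          (integrableOn_const measure_ball_lt_top.ne) (Eventually.of_forall fun w => ?_)
        · simp only [Pi.zero_apply]
          have : 0 ≤ gz (fun z => χo z - χi z) w := by unfold gz; positivity
          positivity
        · simp only
          by_cases hw : 7 / 8 * t ≤ ‖w‖ ∧ ‖w‖ ≤ 9 / 8 * t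
          · have h2 := hring w hw.1 hw.2
            have h3 : (Real.log ‖F w‖ - c) ^ 2 ≤ D ^ 2 := by
              rw [← sq_abs]
              have : |Real.log ‖F w‖ - c| ≤ D := h2
              gcongr
            have h4 := gz_sub go.sm gi'.sm w
            have h5 := gog w
            have h6 := gig w
            have h7 : gz (fun z => χo z - χi z) w ≤ 4 * (C0 / (t / 16)) ^ 2 := by linarith
            exact mul_le_mul h7 h3 (by positivity) (by positivity)
          · have : gz (fun z => χo z - χi z) w = 0 := by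
              refine gz_zero ?_
              rw [not_and_or, not_le, not_le] at hw
              rcases hw with hw | hw
              · have h3 : (fun z => χo z - χi z) =ᶠ[𝓝 w] fun _ => 0 := by
                  have : w ∈ ball (0 : ℂ) (7 / 8 * t) := by rwa [mem_ball_zero_iff]
                  filter_upwards [isOpen_ball.mem_nhds this] with x hx
                  rw [gi1 x (ball_subset_closedBall hx), go1 x
                    ((ball_subset_closedBall.trans
                      (closedBall_subset_closedBall (by linarith))) hx), sub_self]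
                rw [h3.fderiv_eq]
                simp
              · refine fd_zero_off fun h2 => ?_
                have h3 : w ∈ tsupport χo ∪ tsupport χi := tsupport_sub χo χi h2
                rcases h3 with h3 | h3
                · have := go.su h3
                  rw [mem_ball_zero_iff] at this
                  linarith
                · have := gi'.su h3
                  rw [mem_ball_zero_iff] at this
                  linarith
            rw [this, zero_mul]
            positivity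
      refine h1.trans (le_of_eq ?_)
      rw [setIntegral_const, smul_eq_mul, vol_ball (by positivity)]
      field_simp
      ring
    have h8 : 4 * Q ^ 2 * ∫ w, gz (fun z => χo z - χi z) w * (Real.log ‖F w‖ - c) ^ 2 ≤
        4 * Q ^ 2 * (4096 * Real.pi * C0 ^ 2 * D ^ 2) := by gcongr
    calc E' ≤ _ := hl
      _ ≤ _ := hcac
      _ ≤ _ := h8
      _ = _ := by ring
  -- final computation
  have hTf : |T| ≤ K * (1 + D ^ 2) := by
    have hE'c : E' ≤ 16384 * (Real.pi * Q ^ 2 * C0 ^ 2) * D ^ 2 := by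
      refine hE'b.trans (le_of_eq (by ring))
    have hTc : |T| ≤ D * ((1 + D) * (128 * (Real.pi * C0 ^ 2)) + 1 / (2 * (1 + D)) * E') := by
      refine hTb.trans (le_of_eq (by ring))
    refine (tf_arith hD (by positivity) (by positivity) hTc hE'c).trans (le_of_eq ?_)
    rw [hK]
    ring
  exact fin_arith hQ hTf ((hS.trans hE2).trans (le_of_eq (by rw [e3])))

end MPfa.Reg
end

section
/-!
Problem MP_fa0334_an, part REG, modules HLIFT and DLOG.
-/
set_option autoImplicit false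

open MeasureTheory Set Filter Topology Metric Complex
open scoped ContDiff ENNReal ComplexConjugate

namespace MPfa.Reg

theorem specHLift : SpecHLift := by
  intro A H hH hne ⟨ℓ, hℓ, hexp⟩
  classical
  -- continuous maps
  let X := {z : ℂ // z ≠ 0}
  have hmem : ∀ q : unitInterval × A, ((q.1 : ℝ), (q.2 : ℂ)) ∈ Icc (0 : ℝ) 1 ×ˢ A := fun q => ⟨q.1.2, q.2.2⟩
  let Hc : C(unitInterval × A, X) :=
    ⟨fun q => ⟨H ((q.1 : ℝ), (q.2 : ℂ)), hne _ (hmem q)⟩, by
      refine Continuous.subtype_mk ?_ _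
      exact hH.comp_continuous (by fun_prop) hmem⟩
  let f : C(A, ℂ) := ⟨fun a => ℓ a, continuousOn_iff_continuous_domRestrict.mp hℓ⟩
  have cov := Complex.isCoveringMap_exp
  have h0 : ∀ a : A, Hc (0, a) = (fun z : ℂ => (⟨_, z.exp_ne_zero⟩ : {z : ℂ // z ≠ 0})) (f a) := by
    intro a
    apply Subtype.ext
    exact hexp a a.2
  let L := cov.liftHomotopy Hc f h0
  have hL : ∀ q, Complex.exp (L q) = H ((q.1 : ℝ), (q.2 : ℂ)) := by
    intro q
    have := congrFun (cov.liftHomotopy_lifts Hc f h0) q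
    exact congrArg Subtype.val this
  refine ⟨fun z => if hz : z ∈ A then L (1, ⟨z, hz⟩) else 0, ?_, ?_⟩
  · rw [continuousOn_iff_continuous_domRestrict]
    have : A.domRestrict (fun z => if hz : z ∈ A then L (1, ⟨z, hz⟩) else 0) = fun a : A => L (1, a) := by
      funext a
      simp [domRestrict]
    rw [this]
    exact L.continuous.comp (by fun_prop)
  · intro z hz
    have := hL (1, ⟨z, hz⟩)
    simp only [hz, dite_true]
    rw [this]
    simp

theorem specDLog (hH : SpecHLift) : SpecDLog := by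
  intro c r F hF hne
  rcases le_or_gt r 0 with hr | hr
  · refine ⟨fun _ => 0, continuousOn_const, ?_⟩
    intro z hz
    rw [ball_eq_empty.mpr hr] at hz
    exact absurd hz (notMem_empty z)
  have hmem : ∀ q ∈ Icc (0 : ℝ) 1 ×ˢ ball c r, c + ((q.1 : ℝ) : ℂ) * (q.2 - c) ∈ ball c r := by
    intro q hq
    have h1 : ‖q.2 - c‖ < r := by simpa [dist_eq_norm] using hq.2
    rw [mem_ball, dist_eq_norm, add_sub_cancel_left, norm_mul, Complex.norm_real, Real.norm_of_nonneg hq.1.1]
    calc q.1 * ‖q.2 - c‖ ≤ 1 * ‖q.2 - c‖ := mul_le_mul_of_nonneg_right hq.1.2 (norm_nonneg _)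
      _ < r := by rwa [one_mul]
  have hcb : c ∈ ball c r := mem_ball_self hr
  obtain ⟨ℓ, h1, h2⟩ := hH (ball c r) (fun q => F (c + ((q.1 : ℝ) : ℂ) * (q.2 - c)))
    (hF.comp (by fun_prop) hmem) (fun q hq => hne _ (hmem q hq))
    ⟨fun _ => Complex.log (F c), continuousOn_const, by
      intro z hz
      simp only [Complex.ofReal_zero, zero_mul, add_zero]
      rw [Complex.exp_log (hne c hcb)]⟩
  refine ⟨ℓ, h1, ?_⟩
  intro z hz
  have := h2 z hz
  simpa using this

end MPfa.Reg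
end

section
/-!
Problem MP_fa0334_an, part REG, modules IBP and IBPL: integration by parts for
continuous Sobolev maps, `∫ ζ F^*(dη) = - ∫ dζ ∧ F^*η` for a `C¹` one form `η`.
-/
set_option autoImplicit false

open MeasureTheory Set Filter Topology Metric Complex
open scoped ContDiff ENNReal ComplexConjugate

namespace MPfa.Reg.IbpM

/-! ### convergence in `L¹` -/

/-- convergence in `L¹(μ)` -/
def Cv (μ : Measure ℂ) (f : ℕ → ℂ → ℝ) (g : ℂ → ℝ) : Prop :=
  Integrable g μ ∧ (∀ᶠ n in atTop, Integrable (f n) μ) ∧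
    Tendsto (fun n => ∫⁻ z, ‖f n z - g z‖ₑ ∂μ) atTop (𝓝 0)

theorem Cv.lim {μ : Measure ℂ} {f : ℕ → ℂ → ℝ} {g : ℂ → ℝ} (h : Cv μ f g) :
    Tendsto (fun n => ∫ z, f n z ∂μ) atTop (𝓝 (∫ z, g z ∂μ)) :=
  tendsto_integral_of_L1 g h.1.aestronglyMeasurable h.2.1 h.2.2

theorem Cv.add {μ : Measure ℂ} {f f' : ℕ → ℂ → ℝ} {g g' : ℂ → ℝ} (h : Cv μ f g)
    (h' : Cv μ f' g') : Cv μ (fun n z => f n z + f' n z) (fun z => g z + g' z) := by
  refine ⟨h.1.add h'.1, ?_, ?_⟩
  · filter_upwards [h.2.1, h'.2.1] with n h1 h2 using h1.add h2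
  · have h3 : Tendsto (fun n => ∫⁻ z, ‖f n z - g z‖ₑ ∂μ + ∫⁻ z, ‖f' n z - g' z‖ₑ ∂μ) atTop
        (𝓝 0) := by
      simpa using h.2.2.add h'.2.2
    refine tendsto_of_tendsto_of_tendsto_of_le_of_le' tendsto_const_nhds h3
      (Eventually.of_forall fun n => zero_le) ?_
    filter_upwards [h.2.1] with n h1
    have hme : AEMeasurable (fun z => ‖f n z - g z‖ₑ) μ :=
      (h1.sub h.1).aestronglyMeasurable.enorm
    rw [← lintegral_add_left' hme]
    refine lintegral_mono fun z => ?_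
    have : f n z + f' n z - (g z + g' z) = (f n z - g z) + (f' n z - g' z) := by ring
    show ‖f n z + f' n z - (g z + g' z)‖ₑ ≤ ‖f n z - g z‖ₑ + ‖f' n z - g' z‖ₑ
    rw [this]
    exact enorm_add_le _ _

theorem Cv.neg {μ : Measure ℂ} {f : ℕ → ℂ → ℝ} {g : ℂ → ℝ} (h : Cv μ f g) :
    Cv μ (fun n z => -f n z) (fun z => -g z) := by
  refine ⟨h.1.neg, ?_, ?_⟩
  · filter_upwards [h.2.1] with n h1 using h1.neg
  · refine h.2.2.congr fun n => ?_
    refine lintegral_congr fun z => ?_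
    rw [← enorm_neg]
    congr 1
    ring

theorem Cv.sub {μ : Measure ℂ} {f f' : ℕ → ℂ → ℝ} {g g' : ℂ → ℝ} (h : Cv μ f g)
    (h' : Cv μ f' g') : Cv μ (fun n z => f n z - f' n z) (fun z => g z - g' z) := by
  simpa only [sub_eq_add_neg] using h.add h'.neg

/-- multiplication by uniformly convergent coefficients -/
theorem Cv.mul {K : Set ℂ} (hK : IsCompact K) {f : ℕ → ℂ → ℝ} {g : ℂ → ℝ}
    (h : Cv (volume.restrict K) f g) {c : ℕ → ℂ → ℝ} {d : ℂ → ℝ} (hd : ContinuousOn d K)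
    (hc : ∀ᶠ n in atTop, ContinuousOn (c n) K) (hu : TendstoUniformlyOn c d atTop K) :
    Cv (volume.restrict K) (fun n z => c n z * f n z) (fun z => d z * g z) := by
  have hg : Integrable (fun z => d z * g z) (volume.restrict K) :=
    IntegrableOn.continuousOn_mul hd h.1 hK
  refine ⟨hg, ?_, ?_⟩
  · filter_upwards [h.2.1, hc] with n h1 h2
    exact IntegrableOn.continuousOn_mul h2 h1 hK
  obtain ⟨M, hM⟩ := hK.exists_bound_of_continuousOn hd
  set e : ℕ → ℝ≥0∞ := fun n => ⨆ z ∈ K, ‖c n z - d z‖ₑ with he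
  have he0 : Tendsto e atTop (𝓝 0) := by
    rw [ENNReal.tendsto_nhds_zero]
    intro ε hε
    rw [EMetric.tendstoUniformlyOn_iff] at hu
    filter_upwards [hu ε hε] with n hn
    refine iSup₂_le fun z hz => ?_
    have := (hn z hz).le
    rwa [edist_comm, edist_eq_enorm_sub] at this
  set x : ℕ → ℝ≥0∞ := fun n => ∫⁻ z, ‖f n z - g z‖ₑ ∂(volume.restrict K) with hx
  set y : ℝ≥0∞ := ∫⁻ z, ‖g z‖ₑ ∂(volume.restrict K) with hy
  have hy1 : y ≠ ⊤ := h.1.2.ne
  have hlim : Tendsto (fun n => (ENNReal.ofReal M + e n) * x n + e n * y) atTop (𝓝 0) := by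
    have h1 : Tendsto (fun n => (ENNReal.ofReal M + e n) * x n) atTop
        (𝓝 ((ENNReal.ofReal M + 0) * 0)) := by
      refine ENNReal.Tendsto.mul (tendsto_const_nhds.add he0) (Or.inr (by simp)) h.2.2
        (Or.inr (by simp))
    have h2 : Tendsto (fun n => e n * y) atTop (𝓝 (0 * y)) :=
      ENNReal.Tendsto.mul_const he0 (Or.inr hy1)
    simpa using h1.add h2
  refine tendsto_of_tendsto_of_tendsto_of_le_of_le' tendsto_const_nhds hlim
    (Eventually.of_forall fun n => zero_le) ?_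
  filter_upwards [h.2.1] with n h1
  have hm : AEMeasurable (fun z => ‖f n z - g z‖ₑ) (volume.restrict K) :=
    (h1.sub h.1).aestronglyMeasurable.enorm
  have hm2 : AEMeasurable (fun z => ‖g z‖ₑ) (volume.restrict K) :=
    h.1.aestronglyMeasurable.enorm
  rw [hx, hy, ← lintegral_const_mul'' _ hm, ← lintegral_const_mul'' _ hm2,
    ← lintegral_add_left' (hm.const_mul _)]
  refine lintegral_mono_ae ?_
  filter_upwards [ae_restrict_mem hK.measurableSet] with z hz
  have e1 : ‖c n z - d z‖ₑ ≤ e n := le_iSup₂ (f := fun z (_ : z ∈ K) => ‖c n z - d z‖ₑ) z hz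
  have e2 : ‖d z‖ₑ ≤ ENNReal.ofReal M := by
    rw [← ofReal_norm]
    exact ENNReal.ofReal_le_ofReal (hM z hz)
  have e3 : ‖c n z‖ₑ ≤ ENNReal.ofReal M + e n := by
    have : c n z = d z + (c n z - d z) := by ring
    rw [this]
    exact (enorm_add_le _ _).trans (add_le_add e2 e1)
  have e4 : c n z * f n z - d z * g z = c n z * (f n z - g z) + (c n z - d z) * g z := by ring
  rw [e4]
  refine (enorm_add_le _ _).trans ?_
  rw [enorm_mul, enorm_mul]
  gcongr

/-- Hölder -/
theorem holder {μ : Measure ℂ} {r s : ℝ} (hrs : r.HolderConjugate s) {a b : ℂ → ℝ}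
    (ha : AEStronglyMeasurable a μ) (hb : AEStronglyMeasurable b μ) :
    ∫⁻ z, ‖a z‖ₑ * ‖b z‖ₑ ∂μ ≤
      (∫⁻ z, ‖a z‖ₑ ^ r ∂μ) ^ (1 / r) * (∫⁻ z, ‖b z‖ₑ ^ s ∂μ) ^ (1 / s) :=
  ENNReal.lintegral_mul_le_Lp_mul_Lq μ hrs ha.enorm hb.enorm

theorem tendsto_rpow {x : ℕ → ℝ≥0∞} (hx : Tendsto x atTop (𝓝 0)) {t : ℝ} (ht : 0 < t) :
    Tendsto (fun n => x n ^ t) atTop (𝓝 0) := by
  have := (ENNReal.continuous_rpow_const (y := t)).tendsto 0 |>.comp hx
  rw [ENNReal.zero_rpow_of_pos ht] at this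
  exact this

/-- products of `L^r` and `L^s` convergent sequences -/
theorem Cv.prod {μ : Measure ℂ} {r s : ℝ} (hrs : r.HolderConjugate s) {a b : ℕ → ℂ → ℝ}
    {a₀ b₀ : ℂ → ℝ} (ma : ∀ n, AEStronglyMeasurable (a n) μ) (mb : ∀ n, AEStronglyMeasurable (b n) μ)
    (ma₀ : AEStronglyMeasurable a₀ μ) (mb₀ : AEStronglyMeasurable b₀ μ)
    (ha₀ : ∫⁻ z, ‖a₀ z‖ₑ ^ r ∂μ < ⊤) (hb₀ : ∫⁻ z, ‖b₀ z‖ₑ ^ s ∂μ < ⊤)
    (ha : Tendsto (fun n => ∫⁻ z, ‖a n z - a₀ z‖ₑ ^ r ∂μ) atTop (𝓝 0))
    (hb : Tendsto (fun n => ∫⁻ z, ‖b n z - b₀ z‖ₑ ^ s ∂μ) atTop (𝓝 0)) :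
    Cv μ (fun n z => a n z * b n z) (fun z => a₀ z * b₀ z) := by
  have hr : 0 < 1 / r := one_div_pos.mpr hrs.pos
  have hs : 0 < 1 / s := one_div_pos.mpr hrs.symm.pos
  have hI : Integrable (fun z => a₀ z * b₀ z) μ := by
    refine ⟨ma₀.mul mb₀, ?_⟩
    have h1 : ∫⁻ z, ‖a₀ z * b₀ z‖ₑ ∂μ = ∫⁻ z, ‖a₀ z‖ₑ * ‖b₀ z‖ₑ ∂μ :=
      lintegral_congr fun z => enorm_mul _ _
    unfold HasFiniteIntegral
    rw [h1]
    refine (holder hrs ma₀ mb₀).trans_lt (ENNReal.mul_lt_top ?_ ?_)
    · exact ENNReal.rpow_lt_top_of_nonneg hr.le ha₀.ne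
    · exact ENNReal.rpow_lt_top_of_nonneg hs.le hb₀.ne
  set X : ℕ → ℝ≥0∞ := fun n => (∫⁻ z, ‖a n z - a₀ z‖ₑ ^ r ∂μ) ^ (1 / r) with hX
  set Y : ℕ → ℝ≥0∞ := fun n => (∫⁻ z, ‖b n z - b₀ z‖ₑ ^ s ∂μ) ^ (1 / s) with hY
  set A : ℝ≥0∞ := (∫⁻ z, ‖a₀ z‖ₑ ^ r ∂μ) ^ (1 / r) with hA
  set B : ℝ≥0∞ := (∫⁻ z, ‖b₀ z‖ₑ ^ s ∂μ) ^ (1 / s) with hB
  have hXt : Tendsto X atTop (𝓝 0) := tendsto_rpow ha hr
  have hYt : Tendsto Y atTop (𝓝 0) := tendsto_rpow hb hs
  have hAt : A ≠ ⊤ := (ENNReal.rpow_lt_top_of_nonneg hr.le ha₀.ne).ne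
  have hBt : B ≠ ⊤ := (ENNReal.rpow_lt_top_of_nonneg hs.le hb₀.ne).ne
  have hlim : Tendsto (fun n => X n * Y n + A * Y n + X n * B) atTop (𝓝 0) := by
    have h1 : Tendsto (fun n => X n * Y n) atTop (𝓝 (0 * 0)) :=
      ENNReal.Tendsto.mul hXt (Or.inr (by simp)) hYt (Or.inr (by simp))
    have h2 : Tendsto (fun n => A * Y n) atTop (𝓝 (A * 0)) :=
      ENNReal.Tendsto.const_mul hYt (Or.inr hAt)
    have h3 : Tendsto (fun n => X n * B) atTop (𝓝 (0 * B)) :=
      ENNReal.Tendsto.mul_const hXt (Or.inr hBt)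
    simpa using (h1.add h2).add h3
  have hbound : ∀ n, ∫⁻ z, ‖a n z * b n z - a₀ z * b₀ z‖ₑ ∂μ ≤ X n * Y n + A * Y n + X n * B := by
    intro n
    have m1 : AEStronglyMeasurable (fun z => a n z - a₀ z) μ := (ma n).sub ma₀
    have m2 : AEStronglyMeasurable (fun z => b n z - b₀ z) μ := (mb n).sub mb₀
    have h1 := holder hrs m1 m2
    have h2 := holder hrs ma₀ m2
    have h3 := holder hrs m1 mb₀
    calc ∫⁻ z, ‖a n z * b n z - a₀ z * b₀ z‖ₑ ∂μ
        ≤ ∫⁻ z, (‖a n z - a₀ z‖ₑ * ‖b n z - b₀ z‖ₑ + ‖a₀ z‖ₑ * ‖b n z - b₀ z‖ₑ +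
            ‖a n z - a₀ z‖ₑ * ‖b₀ z‖ₑ) ∂μ := by
          refine lintegral_mono fun z => ?_
          have e : a n z * b n z - a₀ z * b₀ z = (a n z - a₀ z) * (b n z - b₀ z) +
            a₀ z * (b n z - b₀ z) + (a n z - a₀ z) * b₀ z := by ring
          show ‖a n z * b n z - a₀ z * b₀ z‖ₑ ≤ _
          rw [e]
          refine (enorm_add_le _ _).trans (add_le_add ((enorm_add_le _ _).trans
            (add_le_add ?_ ?_)) ?_) <;> rw [enorm_mul]
      _ = ∫⁻ z, ‖a n z - a₀ z‖ₑ * ‖b n z - b₀ z‖ₑ ∂μ + ∫⁻ z, ‖a₀ z‖ₑ * ‖b n z - b₀ z‖ₑ ∂μ +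
            ∫⁻ z, ‖a n z - a₀ z‖ₑ * ‖b₀ z‖ₑ ∂μ := by
          have k1 : AEMeasurable (fun z => ‖a n z - a₀ z‖ₑ * ‖b n z - b₀ z‖ₑ) μ :=
            m1.enorm.mul m2.enorm
          have k2 : AEMeasurable (fun z => ‖a₀ z‖ₑ * ‖b n z - b₀ z‖ₑ) μ :=
            ma₀.enorm.mul m2.enorm
          have k3 : AEMeasurable (fun z => ‖a n z - a₀ z‖ₑ * ‖b n z - b₀ z‖ₑ +
              ‖a₀ z‖ₑ * ‖b n z - b₀ z‖ₑ) μ := k1.add k2
          rw [lintegral_add_left' k3, lintegral_add_left' k1]
      _ ≤ X n * Y n + A * Y n + X n * B := add_le_add (add_le_add h1 h2) h3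
  have hconv : Tendsto (fun n => ∫⁻ z, ‖a n z * b n z - a₀ z * b₀ z‖ₑ ∂μ) atTop (𝓝 0) :=
    tendsto_of_tendsto_of_tendsto_of_le_of_le tendsto_const_nhds hlim (fun n => zero_le) hbound
  refine ⟨hI, ?_, hconv⟩
  have h1 : ∀ᶠ n in atTop, ∫⁻ z, ‖a n z * b n z - a₀ z * b₀ z‖ₑ ∂μ < 1 :=
    hconv.eventually_lt_const (by simp)
  filter_upwards [h1] with n hn
  have h2 : Integrable (fun z => a n z * b n z - a₀ z * b₀ z) μ :=
    ⟨((ma n).mul (mb n)).sub (ma₀.mul mb₀), hn.trans ENNReal.one_lt_top⟩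
  have h3 := h2.add hI
  refine h3.congr (Eventually.of_forall fun z => ?_)
  simp

/-! ### uniform convergence of compositions -/

theorem comp_unif {K O : Set ℂ} (hK : IsCompact K) (hO : IsOpen O) {F : ℂ → ℂ} {Fn : ℕ → ℂ → ℂ}
    (hF : ContinuousOn F K) (hm : MapsTo F K O) (hu : TendstoUniformlyOn Fn F atTop K) :
    (∀ᶠ n in atTop, MapsTo (Fn n) K O) ∧ ∀ Φ : ℂ → ℝ, ContinuousOn Φ O →
      TendstoUniformlyOn (fun n z => Φ (Fn n z)) (fun z => Φ (F z)) atTop K := by
  have hc : IsCompact (F '' K) := hK.image_of_continuousOn hF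
  have hsub : F '' K ⊆ O := hm.image_subset
  obtain ⟨δ, hδ, hδO⟩ := hc.exists_cthickening_subset_open hO hsub
  have hcc : IsCompact (cthickening δ (F '' K)) := hc.cthickening
  have hev : ∀ᶠ n in atTop, ∀ z ∈ K, Fn n z ∈ cthickening δ (F '' K) := by
    rw [Metric.tendstoUniformlyOn_iff] at hu
    filter_upwards [hu δ hδ] with n hn z hz
    refine Metric.mem_cthickening_of_dist_le _ (F z) _ _ (mem_image_of_mem F hz) ?_
    rw [dist_comm]
    exact (hn z hz).le
  refine ⟨?_, fun Φ hΦ => ?_⟩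
  · filter_upwards [hev] with n hn z hz using hδO (hn z hz)
  · have huc : UniformContinuousOn Φ (cthickening δ (F '' K)) :=
      hcc.uniformContinuousOn_of_continuous (hΦ.mono hδO)
    rw [Metric.uniformContinuousOn_iff] at huc
    rw [Metric.tendstoUniformlyOn_iff] at hu ⊢
    intro ε hε
    obtain ⟨η, hη, hη'⟩ := huc ε hε
    filter_upwards [hev, hu η hη] with n h1 h2 z hz
    refine hη' _ ?_ _ (h1 z hz) (h2 z hz)
    exact Metric.self_subset_cthickening _ (mem_image_of_mem F hz)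

/-- products of uniformly convergent bounded sequences with a fixed continuous function -/
theorem unif_mul_left {K : Set ℂ} (hK : IsCompact K) {c : ℕ → ℂ → ℝ} {d w : ℂ → ℝ}
    (hw : ContinuousOn w K) (hu : TendstoUniformlyOn c d atTop K) :
    TendstoUniformlyOn (fun n z => w z * c n z) (fun z => w z * d z) atTop K := by
  obtain ⟨M, hM⟩ := hK.exists_bound_of_continuousOn hw
  rw [Metric.tendstoUniformlyOn_iff] at hu ⊢
  intro ε hε
  have hM1 : 0 < |M| + 1 := by positivity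
  filter_upwards [hu (ε / (|M| + 1)) (by positivity)] with n hn z hz
  have h1 := hn z hz
  rw [Real.dist_eq] at h1 ⊢
  rw [← mul_sub, abs_mul]
  have h2 : |w z| ≤ |M| := (hM z hz).trans (le_abs_self M)
  calc |w z| * |d z - c n z| ≤ |M| * |d z - c n z| :=
        mul_le_mul_of_nonneg_right h2 (abs_nonneg _)
    _ ≤ (|M| + 1) * |d z - c n z| := by nlinarith [abs_nonneg (d z - c n z)]
    _ < (|M| + 1) * (ε / (|M| + 1)) := mul_lt_mul_of_pos_left h1 hM1
    _ = ε := by field_simp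

/-! ### integration by parts, smooth case -/

theorem two_le_inf : (2 : WithTop ℕ∞) ≤ ((⊤ : ℕ∞) : WithTop ℕ∞) := by
  have : ((2 : ℕ∞) : WithTop ℕ∞) ≤ ((⊤ : ℕ∞) : WithTop ℕ∞) := WithTop.coe_le_coe.2 le_top
  exact this

theorem oo_le_inf : (1 + 1 : WithTop ℕ∞) ≤ ((⊤ : ℕ∞) : WithTop ℕ∞) := by
  rw [one_add_one_eq_two]; exact two_le_inf

theorem int_of {K : Set ℂ} (hK : IsCompact K) {f : ℂ → ℝ} (hf : ContinuousOn f K)
    (h0 : ∀ z, z ∉ K → f z = 0) : Integrable f := by
  have h1 : IntegrableOn f K := hf.integrableOn_compact hK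
  refine (integrableOn_iff_integrable_of_support_subset ?_).1 h1
  intro z hz
  by_contra h
  exact hz (h0 z h)

theorem ibp1 {W : Set ℂ} (hW : IsOpen W) {ζ P : ℂ → ℝ} (hζ : Test W ζ) (hP : ContDiffOn ℝ 1 P W)
    (v : ℂ) : Integrable (fun z => ζ z * fderiv ℝ P z v) ∧
      Integrable (fun z => fderiv ℝ ζ z v * P z) ∧
      ∫ z, ζ z * fderiv ℝ P z v = - ∫ z, fderiv ℝ ζ z v * P z := by
  have hK : IsCompact (tsupport ζ) := hζ.cs
  have hz1 : ∀ z, z ∉ tsupport ζ → ζ z = 0 := fun z hz => image_eq_zero_of_notMem_tsupport hz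
  have hz2 : ∀ z, z ∉ tsupport ζ → fderiv ℝ ζ z v = 0 := by
    intro z hz
    have : z ∉ tsupport (fderiv ℝ ζ) := fun h => hz (tsupport_fderiv_subset ℝ h)
    rw [image_eq_zero_of_notMem_tsupport this]
    rfl
  have cζ : Continuous ζ := hζ.sm.continuous
  have cζ' : Continuous (fun z => fderiv ℝ ζ z v) :=
    (hζ.sm.continuous_fderiv (by simp)).clm_apply continuous_const
  have cP : ContinuousOn P (tsupport ζ) := hP.continuousOn.mono hζ.su
  have cP' : ContinuousOn (fun z => fderiv ℝ P z v) (tsupport ζ) :=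
    ((hP.continuousOn_fderiv_of_isOpen hW le_rfl).clm_apply continuousOn_const).mono hζ.su
  have i1 : Integrable (fun z => ζ z * fderiv ℝ P z v) :=
    int_of hK (cζ.continuousOn.mul cP') fun z hz => by rw [hz1 z hz, zero_mul]
  have i2 : Integrable (fun z => fderiv ℝ ζ z v * P z) :=
    int_of hK (cζ'.continuousOn.mul cP) fun z hz => by rw [hz2 z hz, zero_mul]
  have i3 : Integrable (fun z => ζ z * P z) :=
    int_of hK (cζ.continuousOn.mul cP) fun z hz => by rw [hz1 z hz, zero_mul]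
  refine ⟨i1, i2, integral_mul_fderiv_eq_neg_fderiv_mul_of_integrable i2 i1 i3 ?_ ?_⟩
  · intro z _
    exact (hζ.sm.differentiable (by simp)).differentiableAt
  · intro z hz
    exact (hP.contDiffAt (hW.mem_nhds (hζ.su hz))).differentiableAt (by simp)

/-- pull back of the one form `A dx + B dy` -/
noncomputable def pb (A B : ℂ → ℝ) (H : ℂ → ℂ) (e z : ℂ) : ℝ :=
  A (H z) * (fderiv ℝ H z e).re + B (H z) * (fderiv ℝ H z e).im

theorem cd_deriv {H : ℂ → ℂ} (hH : ContDiff ℝ ∞ H) (e : ℂ) :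
    ContDiff ℝ 1 (fun z => fderiv ℝ H z e) := by
  have h1 : ContDiff ℝ 1 (fderiv ℝ H) := hH.fderiv_right (m := 1) oo_le_inf
  exact h1.clm_apply contDiff_const

theorem pb_c1 {O : Set ℂ} {A B : ℂ → ℝ} {H : ℂ → ℂ} (hA : ContDiffOn ℝ 1 A O)
    (hB : ContDiffOn ℝ 1 B O) (hH : ContDiff ℝ ∞ H) (e : ℂ) :
    ContDiffOn ℝ 1 (pb A B H e) (H ⁻¹' O) := by
  have hH1 : ContDiffOn ℝ 1 H (H ⁻¹' O) := (hH.of_le (by exact_mod_cast le_top)).contDiffOn
  have hm : MapsTo H (H ⁻¹' O) O := fun z hz => hz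
  have h1 : ContDiffOn ℝ 1 (fun z => (fderiv ℝ H z e).re) (H ⁻¹' O) :=
    (reCLM.contDiff.comp (cd_deriv hH e)).contDiffOn
  have h2 : ContDiffOn ℝ 1 (fun z => (fderiv ℝ H z e).im) (H ⁻¹' O) :=
    (imCLM.contDiff.comp (cd_deriv hH e)).contDiffOn
  exact ((hA.comp hH1 hm).mul h1).add ((hB.comp hH1 hm).mul h2)

theorem clm_expand (L : ℂ →L[ℝ] ℝ) (c : ℂ) : L c = c.re * L 1 + c.im * L I := by
  have h : c = (c.re : ℝ) • (1 : ℂ) + (c.im : ℝ) • I := by
    apply Complex.ext <;> simp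
  calc L c = L ((c.re : ℝ) • (1 : ℂ) + (c.im : ℝ) • I) := by rw [← h]
    _ = _ := by rw [map_add, map_smul, map_smul, smul_eq_mul, smul_eq_mul]

theorem pb_deriv {O : Set ℂ} (hO : IsOpen O) {A B : ℂ → ℝ} {H : ℂ → ℂ} (hA : ContDiffOn ℝ 1 A O)
    (hB : ContDiffOn ℝ 1 B O) (hH : ContDiff ℝ ∞ H) {z : ℂ} (hz : H z ∈ O) :
    fderiv ℝ (pb A B H I) z 1 - fderiv ℝ (pb A B H 1) z I =
      (fderiv ℝ B (H z) 1 - fderiv ℝ A (H z) I) * jac (fderiv ℝ H z 1) (fderiv ℝ H z I) := by
  have dA : HasFDerivAt A (fderiv ℝ A (H z)) (H z) :=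
    ((hA.contDiffAt (hO.mem_nhds hz)).differentiableAt (by simp)).hasFDerivAt
  have dB : HasFDerivAt B (fderiv ℝ B (H z)) (H z) :=
    ((hB.contDiffAt (hO.mem_nhds hz)).differentiableAt (by simp)).hasFDerivAt
  have dH : HasFDerivAt H (fderiv ℝ H z) z :=
    (hH.differentiable (by simp)).differentiableAt.hasFDerivAt
  have d2 : HasFDerivAt (fderiv ℝ H) (fderiv ℝ (fderiv ℝ H) z) z := by
    have h1 : ContDiff ℝ 1 (fderiv ℝ H) := hH.fderiv_right (m := 1) oo_le_inf
    exact (h1.differentiable (by simp)).differentiableAt.hasFDerivAt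
  have hsym : IsSymmSndFDerivAt ℝ H z :=
    hH.contDiffAt.isSymmSndFDerivAt (by simpa using two_le_inf)
  have key : ∀ e v : ℂ, fderiv ℝ (pb A B H e) z v =
      fderiv ℝ A (H z) (fderiv ℝ H z v) * (fderiv ℝ H z e).re +
      A (H z) * (fderiv ℝ (fderiv ℝ H) z v e).re +
      (fderiv ℝ B (H z) (fderiv ℝ H z v) * (fderiv ℝ H z e).im +
      B (H z) * (fderiv ℝ (fderiv ℝ H) z v e).im) := by
    intro e v
    have de : HasFDerivAt (fun z => fderiv ℝ H z e)
        ((ContinuousLinearMap.apply ℝ ℂ e).comp (fderiv ℝ (fderiv ℝ H) z)) z :=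
      (ContinuousLinearMap.apply ℝ ℂ e).hasFDerivAt.comp z d2
    have dre := reCLM.hasFDerivAt.comp z de
    have dim := imCLM.hasFDerivAt.comp z de
    have h := ((dA.comp z dH).mul dre).add ((dB.comp z dH).mul dim)
    have h' : fderiv ℝ (pb A B H e) z = _ := h.fderiv
    rw [h']
    simp
    ring
  rw [key, key, hsym.eq I 1]
  rw [clm_expand (fderiv ℝ A (H z)) (fderiv ℝ H z 1), clm_expand (fderiv ℝ A (H z)) (fderiv ℝ H z I),
    clm_expand (fderiv ℝ B (H z)) (fderiv ℝ H z 1), clm_expand (fderiv ℝ B (H z)) (fderiv ℝ H z I)]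
  unfold jac
  ring

/-- the smooth case -/
theorem smooth {O : Set ℂ} (hO : IsOpen O) {A B : ℂ → ℝ} {H : ℂ → ℂ} (hA : ContDiffOn ℝ 1 A O)
    (hB : ContDiffOn ℝ 1 B O) (hH : ContDiff ℝ ∞ H) {G : Set ℂ} {ζ : ℂ → ℝ} (hζ : Test G ζ)
    (hm : MapsTo H (tsupport ζ) O) :
    ∫ z in tsupport ζ, ζ z * (fderiv ℝ B (H z) 1 - fderiv ℝ A (H z) I) *
        jac (fderiv ℝ H z 1) (fderiv ℝ H z I) =
      - ∫ z in tsupport ζ, (fderiv ℝ ζ z 1 * pb A B H I z - fderiv ℝ ζ z I * pb A B H 1 z) := by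
  have hz1 : ∀ z, z ∉ tsupport ζ → ζ z = 0 := fun z hz => image_eq_zero_of_notMem_tsupport hz
  have hz2 : ∀ v z, z ∉ tsupport ζ → fderiv ℝ ζ z v = 0 := by
    intro v z hz
    have : z ∉ tsupport (fderiv ℝ ζ) := fun h => hz (tsupport_fderiv_subset ℝ h)
    rw [image_eq_zero_of_notMem_tsupport this]
    rfl
  rw [setIntegral_eq_integral_of_forall_compl_eq_zero (fun z hz => by rw [hz1 z hz]; ring),
    setIntegral_eq_integral_of_forall_compl_eq_zero
      (fun z hz => by rw [hz2 1 z hz, hz2 I z hz]; ring)]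
  have hW : IsOpen (H ⁻¹' O) := hO.preimage hH.continuous
  have hζ' : Test (H ⁻¹' O) ζ := ⟨hζ.sm, hζ.cs, hm⟩
  obtain ⟨a1, a2, a3⟩ := ibp1 hW hζ' (pb_c1 hA hB hH I) 1
  obtain ⟨b1, b2, b3⟩ := ibp1 hW hζ' (pb_c1 hA hB hH 1) I
  rw [integral_sub a2 b2]
  have e1 : (fun z => ζ z * (fderiv ℝ B (H z) 1 - fderiv ℝ A (H z) I) *
        jac (fderiv ℝ H z 1) (fderiv ℝ H z I)) =
      fun z => ζ z * fderiv ℝ (pb A B H I) z 1 - ζ z * fderiv ℝ (pb A B H 1) z I := by
    funext z
    by_cases hz : z ∈ tsupport ζ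
    · rw [← mul_sub, pb_deriv hO hA hB hH (hm hz)]
      ring
    · rw [hz1 z hz]; ring
  rw [e1, integral_sub a1 b1, a3, b3]
  ring

theorem mea_re {K : Set ℂ} {u : ℂ → ℂ} (hu : Measurable u) :
    AEStronglyMeasurable (fun z => (u z).re) (volume.restrict K) :=
  (measurable_re.comp hu).aestronglyMeasurable

theorem mea_im {K : Set ℂ} {u : ℂ → ℂ} (hu : Measurable u) :
    AEStronglyMeasurable (fun z => (u z).im) (volume.restrict K) :=
  (measurable_im.comp hu).aestronglyMeasurable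

/-- convergence in `L^r` of a component implies convergence in `L¹` -/
theorem Cv.of_r {K : Set ℂ} (hK : IsCompact K) {r s : ℝ} (hrs : r.HolderConjugate s)
    {a : ℕ → ℂ → ℝ} {a₀ : ℂ → ℝ} (ma : ∀ n, AEStronglyMeasurable (a n) (volume.restrict K))
    (ma₀ : AEStronglyMeasurable a₀ (volume.restrict K))
    (ha₀ : ∫⁻ z in K, ‖a₀ z‖ₑ ^ r < ⊤)
    (ha : Tendsto (fun n => ∫⁻ z in K, ‖a n z - a₀ z‖ₑ ^ r) atTop (𝓝 0)) :
    Cv (volume.restrict K) a a₀ := by
  have h := Cv.prod hrs ma (b := fun _ _ => (1 : ℝ)) (b₀ := fun _ => (1 : ℝ))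
    (fun _ => aestronglyMeasurable_const) ma₀ aestronglyMeasurable_const ha₀
    (by simpa using hK.measure_lt_top) ha (by
      have : 0 < s := hrs.symm.pos
      simp [ENNReal.zero_rpow_of_pos this])
  simpa using h

theorem gen (hM : SpecMol) {G : Set ℂ} {r s : ℝ} {F Fx Fy : ℂ → ℂ} (hr : 1 < r) (hs : 1 < s)
    (hrs : r⁻¹ + s⁻¹ = 1) (hF : WP G r s F Fx Fy) {O : Set ℂ} (hO : IsOpen O) {A B : ℂ → ℝ}
    (hA : ContDiffOn ℝ 1 A O) (hB : ContDiffOn ℝ 1 B O) (hm : MapsTo F G O) {ζ : ℂ → ℝ}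
    (hζ : Test G ζ) :
    Integrable (fun z => ζ z * (fderiv ℝ B (F z) 1 - fderiv ℝ A (F z) I) *
        jac (Fx z) (Fy z)) ∧
      Integrable (fun z => fderiv ℝ ζ z 1 * (A (F z) * (Fy z).re + B (F z) * (Fy z).im) -
        fderiv ℝ ζ z I * (A (F z) * (Fx z).re + B (F z) * (Fx z).im)) ∧
      ∫ z, ζ z * (fderiv ℝ B (F z) 1 - fderiv ℝ A (F z) I) * jac (Fx z) (Fy z) =
        - ∫ z, (fderiv ℝ ζ z 1 * (A (F z) * (Fy z).re + B (F z) * (Fy z).im) -
          fderiv ℝ ζ z I * (A (F z) * (Fx z).re + B (F z) * (Fx z).im)) := by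
  have hconj : r.HolderConjugate s := Real.holderConjugate_iff.2 ⟨hr, hrs⟩
  have hK : IsCompact (tsupport ζ) := hζ.cs
  have hz1 : ∀ z, z ∉ tsupport ζ → ζ z = 0 := fun z hz => image_eq_zero_of_notMem_tsupport hz
  have hz2 : ∀ v z, z ∉ tsupport ζ → fderiv ℝ ζ z v = 0 := by
    intro v z hz
    have : z ∉ tsupport (fderiv ℝ ζ) := fun h => hz (tsupport_fderiv_subset ℝ h)
    rw [image_eq_zero_of_notMem_tsupport this]
    rfl
  have cζ : Continuous ζ := hζ.sm.continuous
  have cζ' : ∀ v, Continuous (fun z => fderiv ℝ ζ z v) := fun v =>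
    (hζ.sm.continuous_fderiv (by simp)).clm_apply continuous_const
  obtain ⟨Fn, hFn, hu, hL⟩ := hM G F Fx Fy hF.op hF.co hF.wd (tsupport ζ) hζ.su hK
  have cF : ContinuousOn F (tsupport ζ) := hF.co.mono hζ.su
  have mF : MapsTo F (tsupport ζ) O := fun z hz => hm (hζ.su hz)
  obtain ⟨hev, hcomp⟩ := comp_unif hK hO cF mF hu
  -- measurability of the derivatives of the approximations
  have mfd : ∀ n v, Measurable (fun z => fderiv ℝ (Fn n) z v) := fun n v =>
    (((hFn n).continuous_fderiv (by simp)).clm_apply continuous_const).measurable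
  -- conversion of the convergence statements
  have conv : ∀ (t : ℝ) (L : ℂ →L[ℝ] ℝ) (u : ℕ → ℂ → ℂ) (v : ℂ → ℂ),
      Tendsto (fun n => ∫⁻ z in tsupport ζ, ENNReal.ofReal |L (u n z) - L (v z)| ^ t) atTop (𝓝 0) →
      Tendsto (fun n => ∫⁻ z in tsupport ζ, ‖L (u n z) - L (v z)‖ₑ ^ t) atTop (𝓝 0) := by
    intro t L u v h
    refine h.congr fun n => lintegral_congr fun z => ?_
    rw [Real.enorm_eq_ofReal_abs]
  have fin : ∀ (t : ℝ) (u : ℂ → ℝ), Lrl G t u → ∫⁻ z in tsupport ζ, ‖u z‖ₑ ^ t < ⊤ := by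
    intro t u h
    have h1 := h (tsupport ζ) hζ.su hK
    refine lt_of_le_of_lt (le_of_eq ?_) h1
    refine lintegral_congr fun z => ?_
    rw [Real.enorm_eq_ofReal_abs]
  have txr := conv r reCLM (fun n z => fderiv ℝ (Fn n) z 1) Fx ((hL r hr.le reCLM).1 hF.rx)
  have tyr := conv r reCLM (fun n z => fderiv ℝ (Fn n) z I) Fy ((hL r hr.le reCLM).2 hF.ry)
  have txi := conv s imCLM (fun n z => fderiv ℝ (Fn n) z 1) Fx ((hL s hs.le imCLM).1 hF.sx)
  have tyi := conv s imCLM (fun n z => fderiv ℝ (Fn n) z I) Fy ((hL s hs.le imCLM).2 hF.sy)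
  simp only [reCLM_apply, imCLM_apply] at txr tyr txi tyi
  have fxr := fin r _ hF.rx
  have fyr := fin r _ hF.ry
  have fxi := fin s _ hF.sx
  have fyi := fin s _ hF.sy
  have vxr : Cv (volume.restrict (tsupport ζ)) (fun n z => (fderiv ℝ (Fn n) z 1).re)
      (fun z => (Fx z).re) :=
    Cv.of_r hK hconj (fun n => mea_re (mfd n 1)) (mea_re hF.wd.mx) fxr txr
  have vyr : Cv (volume.restrict (tsupport ζ)) (fun n z => (fderiv ℝ (Fn n) z I).re)
      (fun z => (Fy z).re) :=
    Cv.of_r hK hconj (fun n => mea_re (mfd n I)) (mea_re hF.wd.my) fyr tyr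
  have vxi : Cv (volume.restrict (tsupport ζ)) (fun n z => (fderiv ℝ (Fn n) z 1).im)
      (fun z => (Fx z).im) :=
    Cv.of_r hK hconj.symm (fun n => mea_im (mfd n 1)) (mea_im hF.wd.mx) fxi txi
  have vyi : Cv (volume.restrict (tsupport ζ)) (fun n z => (fderiv ℝ (Fn n) z I).im)
      (fun z => (Fy z).im) :=
    Cv.of_r hK hconj.symm (fun n => mea_im (mfd n I)) (mea_im hF.wd.my) fyi tyi
  have p1 := Cv.prod hconj (fun n => mea_re (K := tsupport ζ) (mfd n 1))
    (fun n => mea_im (mfd n I)) (mea_re hF.wd.mx) (mea_im hF.wd.my) fxr fyi txr tyi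
  have p2 := Cv.prod hconj.symm (fun n => mea_im (K := tsupport ζ) (mfd n 1))
    (fun n => mea_re (mfd n I)) (mea_im hF.wd.mx) (mea_re hF.wd.my) fxi fyr txi tyr
  have pj := p1.sub p2
  -- coefficients
  have cC : ContinuousOn (fun w => fderiv ℝ B w 1 - fderiv ℝ A w I) O :=
    ((hB.continuousOn_fderiv_of_isOpen hO le_rfl).clm_apply continuousOn_const).sub
      ((hA.continuousOn_fderiv_of_isOpen hO le_rfl).clm_apply continuousOn_const)
  have coef : ∀ (w : ℂ → ℝ) (Φ : ℂ → ℝ), Continuous w → ContinuousOn Φ O →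
      ∀ (f : ℕ → ℂ → ℝ) (g : ℂ → ℝ), Cv (volume.restrict (tsupport ζ)) f g →
      Cv (volume.restrict (tsupport ζ)) (fun n z => w z * Φ (Fn n z) * f n z)
        (fun z => w z * Φ (F z) * g z) := by
    intro w Φ hw hΦ f g hfg
    refine Cv.mul hK hfg (c := fun n z => w z * Φ (Fn n z)) (d := fun z => w z * Φ (F z)) ?_ ?_ ?_
    · exact hw.continuousOn.mul (hΦ.comp cF mF)
    · filter_upwards [hev] with n hn
      exact hw.continuousOn.mul (hΦ.comp (hFn n).continuous.continuousOn hn)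
    · exact unif_mul_left hK hw.continuousOn (hcomp Φ hΦ)
  have left := coef ζ _ cζ cC _ _ pj
  have right := ((coef _ A (cζ' 1) hA.continuousOn _ _ vyr).add
    (coef _ B (cζ' 1) hB.continuousOn _ _ vyi)).sub
    ((coef _ A (cζ' I) hA.continuousOn _ _ vxr).add (coef _ B (cζ' I) hB.continuousOn _ _ vxi))
  have e1 : (fun z => ζ z * (fderiv ℝ B (F z) 1 - fderiv ℝ A (F z) I) *
      ((Fx z).re * (Fy z).im - (Fx z).im * (Fy z).re)) =
      fun z => ζ z * (fderiv ℝ B (F z) 1 - fderiv ℝ A (F z) I) * jac (Fx z) (Fy z) := rfl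
  have e2 : (fun z => fderiv ℝ ζ z 1 * A (F z) * (Fy z).re + fderiv ℝ ζ z 1 * B (F z) * (Fy z).im -
      (fderiv ℝ ζ z I * A (F z) * (Fx z).re + fderiv ℝ ζ z I * B (F z) * (Fx z).im)) =
      fun z => fderiv ℝ ζ z 1 * (A (F z) * (Fy z).re + B (F z) * (Fy z).im) -
        fderiv ℝ ζ z I * (A (F z) * (Fx z).re + B (F z) * (Fx z).im) := by
    funext z; ring
  have lim1 := left.lim
  have lim2 := right.lim.neg
  have hLR : ∀ᶠ n in atTop, (∫ z in tsupport ζ, ζ z * (fderiv ℝ B (Fn n z) 1 -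
      fderiv ℝ A (Fn n z) I) * ((fderiv ℝ (Fn n) z 1).re * (fderiv ℝ (Fn n) z I).im -
        (fderiv ℝ (Fn n) z 1).im * (fderiv ℝ (Fn n) z I).re)) =
      - ∫ z in tsupport ζ, (fderiv ℝ ζ z 1 * A (Fn n z) * (fderiv ℝ (Fn n) z I).re +
        fderiv ℝ ζ z 1 * B (Fn n z) * (fderiv ℝ (Fn n) z I).im -
        (fderiv ℝ ζ z I * A (Fn n z) * (fderiv ℝ (Fn n) z 1).re +
          fderiv ℝ ζ z I * B (Fn n z) * (fderiv ℝ (Fn n) z 1).im)) := by
    filter_upwards [hev] with n hn
    have h := smooth hO hA hB (hFn n) hζ hn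
    have e3 : (fun z => fderiv ℝ ζ z 1 * A (Fn n z) * (fderiv ℝ (Fn n) z I).re +
        fderiv ℝ ζ z 1 * B (Fn n z) * (fderiv ℝ (Fn n) z I).im -
        (fderiv ℝ ζ z I * A (Fn n z) * (fderiv ℝ (Fn n) z 1).re +
          fderiv ℝ ζ z I * B (Fn n z) * (fderiv ℝ (Fn n) z 1).im)) =
        fun z => fderiv ℝ ζ z 1 * pb A B (Fn n) I z - fderiv ℝ ζ z I * pb A B (Fn n) 1 z := by
      funext z; unfold pb; ring
    rw [e3]
    exact h
  have huniq := tendsto_nhds_unique (lim1.congr' hLR) lim2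
  have i1 := left.1
  have i2 := right.1
  rw [e1] at i1
  rw [e2] at i2
  refine ⟨?_, ?_, ?_⟩
  · refine (integrableOn_iff_integrable_of_support_subset ?_).1 i1
    intro z hz
    by_contra h
    exact hz (by show ζ z * _ * _ = 0; rw [hz1 z h]; ring)
  · refine (integrableOn_iff_integrable_of_support_subset ?_).1 i2
    intro z hz
    by_contra h
    exact hz (by
      show fderiv ℝ ζ z 1 * _ - fderiv ℝ ζ z I * _ = 0
      rw [hz2 1 z h, hz2 I z h]; ring)
  · have q1 := setIntegral_eq_integral_of_forall_compl_eq_zero (μ := volume) (s := tsupport ζ)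
      (f := fun z => ζ z * (fderiv ℝ B (F z) 1 - fderiv ℝ A (F z) I) * jac (Fx z) (Fy z))
      (fun z hz => by show ζ z * _ * _ = 0; rw [hz1 z hz]; ring)
    have q2 := setIntegral_eq_integral_of_forall_compl_eq_zero (μ := volume) (s := tsupport ζ)
      (f := fun z => fderiv ℝ ζ z 1 * (A (F z) * (Fy z).re + B (F z) * (Fy z).im) -
        fderiv ℝ ζ z I * (A (F z) * (Fx z).re + B (F z) * (Fx z).im))
      (fun z hz => by
        show fderiv ℝ ζ z 1 * _ - fderiv ℝ ζ z I * _ = 0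
        rw [hz2 1 z hz, hz2 I z hz]; ring)
    rw [← q1, ← q2, ← e1, ← e2]
    exact huniq

theorem c1_of_der {U : Set ℝ} {Θ Θ' : ℝ → ℝ} (hU : IsOpen U)
    (h1 : ∀ t ∈ U, HasDerivAt Θ (Θ' t) t) (h2 : ContinuousOn Θ' U) : ContDiffOn ℝ 1 Θ U := by
  rw [show (1 : WithTop ℕ∞) = 0 + 1 from rfl, contDiffOn_succ_iff_deriv_of_isOpen hU]
  refine ⟨fun t ht => (h1 t ht).differentiableAt.differentiableWithinAt, by simp, ?_⟩
  rw [contDiffOn_zero]
  exact h2.congr fun t ht => (h1 t ht).deriv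

end MPfa.Reg.IbpM

namespace MPfa.Reg

open IbpM

/-- module IBP -/
theorem specIBP (hM : SpecMol) : SpecIBP := by
  intro G r s F Fx Fy hr hs hrs hF U Θ Θ' hU hΘ hΘ' hFU ζ hζ
  have hO : IsOpen {w : ℂ | w.re ∈ U} := hU.preimage continuous_re
  have c1 := c1_of_der hU hΘ hΘ'
  have hB : ContDiffOn ℝ 1 (fun w : ℂ => Θ w.re) {w : ℂ | w.re ∈ U} :=
    c1.comp reCLM.contDiff.contDiffOn fun w hw => hw
  have dB : ∀ w : ℂ, w.re ∈ U → fderiv ℝ (fun w : ℂ => Θ w.re) w 1 = Θ' w.re := by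
    intro w hw
    have h : HasFDerivAt (fun w : ℂ => Θ w.re) _ w :=
      (hΘ w.re hw).comp_hasFDerivAt w reCLM.hasFDerivAt
    rw [h.fderiv]
    simp
  obtain ⟨i1, i2, i3⟩ := gen hM hr hs hrs hF hO (A := fun _ => 0)
    (B := fun w : ℂ => Θ w.re) contDiffOn_const hB hFU hζ
  have hz1 : ∀ z, z ∉ tsupport ζ → ζ z = 0 := fun z hz => image_eq_zero_of_notMem_tsupport hz
  have e1 : (fun z => ζ z * (fderiv ℝ (fun w : ℂ => Θ w.re) (F z) 1 -
      fderiv ℝ (fun _ : ℂ => (0 : ℝ)) (F z) I) * jac (Fx z) (Fy z)) =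
      fun z => ζ z * Θ' (F z).re * jac (Fx z) (Fy z) := by
    funext z
    by_cases hz : z ∈ tsupport ζ
    · rw [dB (F z) (hFU z (hζ.su hz))]
      simp
    · rw [hz1 z hz]; ring
  have e2 : (fun z => fderiv ℝ ζ z 1 * ((fun _ : ℂ => (0 : ℝ)) (F z) * (Fy z).re +
      (fun w : ℂ => Θ w.re) (F z) * (Fy z).im) - fderiv ℝ ζ z I *
        ((fun _ : ℂ => (0 : ℝ)) (F z) * (Fx z).re + (fun w : ℂ => Θ w.re) (F z) * (Fx z).im)) =
      fun z => Θ (F z).re * (fderiv ℝ ζ z 1 * (Fy z).im - fderiv ℝ ζ z I * (Fx z).im) := by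
    funext z
    ring
  rw [e1] at i1 i3
  rw [e2] at i2 i3
  exact ⟨i1, i2, i3⟩

end MPfa.Reg
end

section
/-!
Problem MP_fa0334_an, part REG, module IBPL: integration by parts for `log F`,
with the one form `Θ(log |w|) d arg w`.
-/
set_option autoImplicit false

open MeasureTheory Set Filter Topology Metric Complex
open scoped ContDiff ENNReal ComplexConjugate

namespace MPfa.Reg

namespace IbpLM

theorem log_norm (w : ℂ) : Real.log ‖w‖ = Real.log (w.re ^ 2 + w.im ^ 2) / 2 := by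
  have h : w.re ^ 2 + w.im ^ 2 = ‖w‖ ^ 2 := by
    rw [← Complex.normSq_eq_norm_sq, Complex.normSq_apply]; ring
  rw [h, Real.log_pow]; push_cast; ring

theorem sq_pos {w : ℂ} (hw : w ≠ 0) : 0 < w.re ^ 2 + w.im ^ 2 := by
  have h : w.re ^ 2 + w.im ^ 2 = Complex.normSq w := by
    rw [Complex.normSq_apply]; ring
  rw [h]
  exact Complex.normSq_pos.2 hw

/-- first coefficient of `Θ(log |w|) d arg w` -/
noncomputable def Ac (Θ : ℝ → ℝ) (w : ℂ) : ℝ :=
  - (Θ (Real.log (w.re ^ 2 + w.im ^ 2) / 2) * w.im / (w.re ^ 2 + w.im ^ 2))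

/-- second coefficient of `Θ(log |w|) d arg w` -/
noncomputable def Bc (Θ : ℝ → ℝ) (w : ℂ) : ℝ :=
  Θ (Real.log (w.re ^ 2 + w.im ^ 2) / 2) * w.re / (w.re ^ 2 + w.im ^ 2)

theorem der {Θ Θ' : ℝ → ℝ} {w : ℂ} (hw : w ≠ 0)
    (hΘ : HasDerivAt Θ (Θ' (Real.log (w.re ^ 2 + w.im ^ 2) / 2))
      (Real.log (w.re ^ 2 + w.im ^ 2) / 2)) :
    fderiv ℝ (Bc Θ) w 1 - fderiv ℝ (Ac Θ) w I =
      Θ' (Real.log (w.re ^ 2 + w.im ^ 2) / 2) / (w.re ^ 2 + w.im ^ 2) := by
  have hp := sq_pos hw
  have dre : HasFDerivAt (fun w : ℂ => w.re) reCLM w := reCLM.hasFDerivAt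
  have dim : HasFDerivAt (fun w : ℂ => w.im) imCLM w := imCLM.hasFDerivAt
  have dn : HasFDerivAt (fun w : ℂ => w.re ^ 2 + w.im ^ 2) _ w := (dre.pow 2).add (dim.pow 2)
  have dl : HasFDerivAt (fun w : ℂ => Real.log (w.re ^ 2 + w.im ^ 2) / 2) _ w :=
    (dn.log hp.ne').mul_const (2 : ℝ)⁻¹
  have dT : HasFDerivAt (fun w : ℂ => Θ (Real.log (w.re ^ 2 + w.im ^ 2) / 2)) _ w :=
    hΘ.comp_hasFDerivAt w dl
  have dq : HasFDerivAt (fun w : ℂ => (w.re ^ 2 + w.im ^ 2)⁻¹) _ w :=
    (hasDerivAt_inv hp.ne').comp_hasFDerivAt w dn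
  have dB : HasFDerivAt (Bc Θ) _ w := (dT.mul dre).mul dq
  have dA : HasFDerivAt (Ac Θ) _ w := ((dT.mul dim).mul dq).neg
  rw [dB.fderiv, dA.fderiv]
  simp
  field_simp
  ring

theorem cd {U : Set ℝ} {Θ : ℝ → ℝ} (hΘ : ContDiffOn ℝ 1 Θ U) :
    ContDiffOn ℝ 1 (Ac Θ) {w : ℂ | w ≠ 0 ∧ Real.log ‖w‖ ∈ U} ∧
    ContDiffOn ℝ 1 (Bc Θ) {w : ℂ | w ≠ 0 ∧ Real.log ‖w‖ ∈ U} := by
  set O : Set ℂ := {w : ℂ | w ≠ 0 ∧ Real.log ‖w‖ ∈ U} with hO
  have cr : ContDiffOn ℝ 1 (fun w : ℂ => w.re) O := reCLM.contDiff.contDiffOn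
  have ci : ContDiffOn ℝ 1 (fun w : ℂ => w.im) O := imCLM.contDiff.contDiffOn
  have cn : ContDiffOn ℝ 1 (fun w : ℂ => w.re ^ 2 + w.im ^ 2) O := (cr.pow 2).add (ci.pow 2)
  have hne : ∀ w ∈ O, w.re ^ 2 + w.im ^ 2 ≠ 0 := fun w hw => (sq_pos hw.1).ne'
  have cl : ContDiffOn ℝ 1 (fun w : ℂ => Real.log (w.re ^ 2 + w.im ^ 2) / 2) O :=
    (cn.log hne).div_const 2
  have cT : ContDiffOn ℝ 1 (fun w : ℂ => Θ (Real.log (w.re ^ 2 + w.im ^ 2) / 2)) O :=
    hΘ.comp cl fun w hw => by
      show Real.log (w.re ^ 2 + w.im ^ 2) / 2 ∈ U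
      rw [← log_norm]; exact hw.2
  exact ⟨((cT.mul ci).div cn hne).neg, (cT.mul cr).div cn hne⟩

theorem op {U : Set ℝ} (hU : IsOpen U) : IsOpen {w : ℂ | w ≠ 0 ∧ Real.log ‖w‖ ∈ U} := by
  have h0 : IsOpen {w : ℂ | w ≠ 0} := isOpen_ne
  have h1 : ContinuousOn (fun w : ℂ => Real.log ‖w‖) {w : ℂ | w ≠ 0} :=
    continuous_norm.continuousOn.log fun w hw => norm_ne_zero_iff.2 hw
  exact h1.isOpen_inter_preimage h0 hU

end IbpLM

open IbpM IbpLM

/-- module IBPL -/
theorem specIBPL (hM : SpecMol) : SpecIBPL := by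
  intro G F Fx Fy hF hF0 U Θ Θ' hU hΘ hΘ' hFU ζ hζ
  have c1 := c1_of_der hU hΘ hΘ'
  obtain ⟨cA, cB⟩ := cd c1
  have hm : MapsTo F G {w : ℂ | w ≠ 0 ∧ Real.log ‖w‖ ∈ U} := fun z hz => ⟨hF0 z hz, hFU z hz⟩
  obtain ⟨i1, i2, i3⟩ := gen hM (by norm_num) (by norm_num) (by norm_num) hF (op hU) cA cB hm hζ
  have hz1 : ∀ z, z ∉ tsupport ζ → ζ z = 0 := fun z hz => image_eq_zero_of_notMem_tsupport hz
  have hz2 : ∀ v z, z ∉ tsupport ζ → fderiv ℝ ζ z v = 0 := by
    intro v z hz
    have : z ∉ tsupport (fderiv ℝ ζ) := fun h => hz (tsupport_fderiv_subset ℝ h)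
    rw [image_eq_zero_of_notMem_tsupport this]
    rfl
  have e1 : (fun z => ζ z * (fderiv ℝ (Bc Θ) (F z) 1 - fderiv ℝ (Ac Θ) (F z) I) *
      jac (Fx z) (Fy z)) =
      fun z => ζ z * Θ' (Real.log ‖F z‖) * (jac (Fx z) (Fy z) / ‖F z‖ ^ 2) := by
    funext z
    by_cases hz : z ∈ tsupport ζ
    · have hzG := hζ.su hz
      have hn : ‖F z‖ ^ 2 = (F z).re ^ 2 + (F z).im ^ 2 := by
        rw [← Complex.normSq_eq_norm_sq, Complex.normSq_apply]; ring
      have h1 := hΘ _ (hFU z hzG)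
      rw [log_norm] at h1
      rw [der (hF0 z hzG) h1, log_norm, hn]
      ring
    · rw [hz1 z hz]; ring
  have e2 : (fun z => fderiv ℝ ζ z 1 * (Ac Θ (F z) * (Fy z).re + Bc Θ (F z) * (Fy z).im) -
        fderiv ℝ ζ z I * (Ac Θ (F z) * (Fx z).re + Bc Θ (F z) * (Fx z).im)) =
      fun z => Θ (Real.log ‖F z‖) *
        (fderiv ℝ ζ z 1 * (Fy z / F z).im - fderiv ℝ ζ z I * (Fx z / F z).im) := by
    funext z
    by_cases hz : z ∈ tsupport ζ
    · have hzG := hζ.su hz
      have hp := sq_pos (hF0 z hzG)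
      have hn : Complex.normSq (F z) = (F z).re ^ 2 + (F z).im ^ 2 := by
        rw [Complex.normSq_apply]; ring
      rw [log_norm, Complex.div_im, Complex.div_im, hn]
      unfold Ac Bc
      field_simp
      ring
    · rw [hz2 1 z hz, hz2 I z hz]; ring
  rw [e1] at i1 i3
  rw [e2] at i2 i3
  exact ⟨i1, i2, i3⟩

end MPfa.Reg
end

section
/-!
Module PUNCB: energy above a level.
-/
set_option autoImplicit false

open MeasureTheory Set Filter Topology Metric Complex
open scoped ContDiff ENNReal ComplexConjugate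

namespace MPfa.Reg.PA

/-- truncated linear function, `C¹` -/
noncomputable def Th (t s : ℝ) : ℝ :=
  if s ≤ t - 1 then 0 else if s ≤ t then (s - t + 1) ^ 2 / 2 else s - t + 1 / 2

/-- its derivative -/
noncomputable def Th' (t s : ℝ) : ℝ := max 0 (min 1 (s - t + 1))

theorem Th_deriv (t s : ℝ) : HasDerivAt (Th t) (Th' t s) s := by
  have key : ∀ x : ℝ, HasDerivAt (fun s => (max 0 (s - t + 1)) ^ 2 / 2) (max 0 (x - t + 1)) x := by
    intro x
    rcases lt_trichotomy (x - t + 1) 0 with h | h | h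
    · have h1 : (fun s => (max 0 (s - t + 1)) ^ 2 / 2) =ᶠ[𝓝 x] fun _ => 0 := by
        filter_upwards [(continuous_id.sub continuous_const |>.add
          continuous_const : Continuous fun s : ℝ => s - t + 1).continuousAt.eventually_lt_const h]
          with s hs
        have hs' : s - t + 1 < 0 := hs
        rw [max_eq_left hs'.le]; simp
      rw [max_eq_left h.le]
      exact (hasDerivAt_const x (0 : ℝ)).congr_of_eventuallyEq h1
    · rw [h, max_self]
      rw [hasDerivAt_iff_isLittleO]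
      have : ∀ y : ℝ, |max 0 (y - t + 1) ^ 2 / 2 - max 0 (x - t + 1) ^ 2 / 2 - (y - x) • (0 : ℝ)| ≤
          |y - x| * |y - x| := by
        intro y
        rw [h, max_self]
        have h2 : y - t + 1 = y - x := by linarith
        rw [h2, ← abs_mul]
        simp only [smul_eq_mul, mul_zero, sub_zero, ne_eq, OfNat.ofNat_ne_zero,
          not_false_eq_true, zero_pow, zero_div]
        rcases le_total 0 (y - x) with h3 | h3
        · rw [max_eq_right h3, abs_of_nonneg (by positivity), abs_of_nonneg (by positivity)]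
          nlinarith
        · rw [max_eq_left h3]
          simp
          exact mul_self_nonneg _
      have h5 : (fun y : ℝ => |y - x| * |y - x|) =o[𝓝 x] fun y => y - x := by
        have h6 : (fun y : ℝ => |y - x|) =o[𝓝 x] fun _ => (1 : ℝ) := by
          rw [Asymptotics.isLittleO_one_iff]
          have : Tendsto (fun y : ℝ => |y - x|) (𝓝 x) (𝓝 |x - x|) :=
            ((continuous_id.sub continuous_const).abs).continuousAt
          simpa using this
        have h7 : (fun y : ℝ => |y - x|) =O[𝓝 x] fun y => y - x :=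
          (Asymptotics.isBigO_refl _ _).abs_left
        simpa using h6.mul_isBigO h7
      refine Asymptotics.IsBigO.trans_isLittleO ?_ h5
      refine Asymptotics.IsBigO.of_bound 1 (Eventually.of_forall fun y => ?_)
      rw [one_mul, Real.norm_eq_abs, Real.norm_eq_abs]
      refine (this y).trans (le_abs_self _)
    · have h1 : (fun s => (max 0 (s - t + 1)) ^ 2 / 2) =ᶠ[𝓝 x] fun s => (s - t + 1) ^ 2 / 2 := by
        filter_upwards [(continuous_id.sub continuous_const |>.add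
          continuous_const : Continuous fun s : ℝ => s - t + 1).continuousAt.eventually_const_lt h]
          with s hs
        have hs' : 0 < s - t + 1 := hs
        rw [max_eq_right hs'.le]
      rw [max_eq_right h.le]
      have h2 : HasDerivAt (fun s : ℝ => (s - t + 1) ^ 2 / 2) (x - t + 1) x := by
        have := (((hasDerivAt_id x).sub_const t).add_const 1).pow 2 |>.div_const 2
        simpa using this
      exact h2.congr_of_eventuallyEq h1
  have e1 : Th t = fun s => (max 0 (s - t + 1)) ^ 2 / 2 - (max 0 (s - (t + 1) + 1)) ^ 2 / 2 := by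
    funext s
    unfold Th
    split_ifs with h1 h2
    · rw [max_eq_left (by linarith), max_eq_left (by linarith)]; simp
    · rw [max_eq_right (by linarith), max_eq_left (by linarith)]; simp
    · rw [max_eq_right (by linarith), max_eq_right (by linarith)]
      ring
  have k2 : ∀ x : ℝ, HasDerivAt (fun s => (max 0 (s - (t + 1) + 1)) ^ 2 / 2)
      (max 0 (x - (t + 1) + 1)) x := by
    intro x
    have h1 : HasDerivAt (fun s : ℝ => s - 1) 1 x := by
      simpa using (hasDerivAt_id x).sub_const 1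
    have h2 := (key (x - 1)).comp x h1
    have e2 : (fun s => (max 0 (s - (t + 1) + 1)) ^ 2 / 2) =
        (fun s => (max 0 (s - t + 1)) ^ 2 / 2) ∘ fun s => s - 1 := by
      funext s
      simp only [Function.comp]
      congr 3
      ring
    rw [e2]
    refine h2.congr_deriv ?_
    rw [mul_one]
    congr 1
    ring
  rw [e1]
  refine ((key s).sub (k2 s)).congr_deriv ?_
  unfold Th'
  rcases le_total (s - t + 1) 0 with h | h
  · rw [max_eq_left h, max_eq_left (a := (0 : ℝ)) (b := s - (t + 1) + 1) (by linarith),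
      min_eq_right (by linarith), max_eq_left h]
    simp
  · rw [max_eq_right h]
    rcases le_total (s - t + 1) 1 with h' | h'
    · rw [min_eq_right h', max_eq_right h, max_eq_left (by linarith)]
      simp
    · rw [min_eq_left h', max_eq_right (zero_le_one' ℝ),
        max_eq_right (a := (0 : ℝ)) (b := s - (t + 1) + 1) (by linarith)]
      ring

theorem Th'_cont (t : ℝ) : Continuous (Th' t) := by
  unfold Th'
  fun_prop

theorem Th_zero {t s : ℝ} (h : s < t - 1) : Th t s = 0 := by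
  unfold Th; rw [if_pos h.le]

theorem Th'_nonneg (t s : ℝ) : 0 ≤ Th' t s := le_max_left _ _

theorem Th'_one {t s : ℝ} (h : t < s) : Th' t s = 1 := by
  unfold Th'
  rw [min_eq_left (by linarith), max_eq_right (by norm_num)]

theorem Th_abs (t s : ℝ) : |Th t s| ≤ |s| + |t| + 1 := by
  have h1 := neg_abs_le s
  have h2 := le_abs_self s
  have h3 := neg_abs_le t
  have h4 := le_abs_self t
  unfold Th
  split_ifs with a b
  · simp; positivity
  · rw [abs_of_nonneg (by positivity)]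
    have h5 : (s - t + 1) ^ 2 ≤ 1 := by
      have : 0 ≤ s - t + 1 := by linarith
      nlinarith
    have := abs_nonneg s
    have := abs_nonneg t
    linarith
  · rw [abs_of_nonneg (by linarith)]
    linarith

end MPfa.Reg.PA

namespace MPfa.Reg

open PA in
theorem specPuncB (hIBPL : SpecIBPL) (hCut : SpecCut) : SpecPuncB := by
  obtain ⟨C0, hC0, hC⟩ := hCut
  intro r Q m F Fx Fy ℓ hQ h hF0
  have hr := h.r0
  have hne := PF.ne h
  have hop : IsOpen (pun r) := isOpen_pun r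
  set u : ℂ → ℝ := fun z => Real.log ‖F z‖ with hu
  have cu : ContinuousOn u (pun r) :=
    h.qr.wp.co.norm.log fun z hz => (norm_pos_iff.2 (hne z hz)).ne'
  obtain ⟨ζo, ho, ho01, ho1, -⟩ := hC 0 (r / 2) (3 * r / 4) (by positivity) (by linarith)
  have ho' : Test (ball 0 r) ζo := ⟨ho.sm, ho.cs, ho.su.trans (ball_subset_ball (by linarith))⟩
  have ho1' : ∀ z ∈ ball (0 : ℂ) (r / 2), ζo z = 1 := fun z hz =>
    ho1 z (ball_subset_closedBall hz)
  have to1 := test_pun ho' (by positivity : 0 < r / 2) ho1' 1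
  have toI := test_pun ho' (by positivity : 0 < r / 2) ho1' I
  -- bound of `u` on the outer ring
  obtain ⟨M, hM0, hM⟩ : ∃ M : ℝ, 0 ≤ M ∧ ∀ w : ℂ, r / 2 ≤ ‖w‖ → ‖w‖ ≤ 3 * r / 4 → |u w| ≤ M := by
    have hc : IsCompact (closedBall (0 : ℂ) (3 * r / 4) \ ball 0 (r / 2)) := ring_compact
    obtain ⟨M, hM⟩ := hc.exists_bound_of_continuousOn
      (cu.mono (ring_sub (by positivity) (by linarith)))
    refine ⟨max M 0, le_max_right _ _, fun w h1 h2 => le_max_of_le_left ?_⟩
    exact hM w ⟨by rwa [mem_closedBall_zero_iff], by rw [mem_ball_zero_iff]; linarith⟩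
  set B := ∫ w, |fm F Fx Fy ζo w| with hB
  have hB0 : 0 ≤ B := integral_nonneg fun _ => abs_nonneg _
  have hBi : Integrable (fun w => |fm F Fx Fy ζo w|) := by
    have := fm_int h.qr.wp hne (u := fun _ => 1) continuousOn_const to1 toI
    simp only [one_mul] at this
    exact this.abs
  refine ⟨Q * ((M + 1) * B), by positivity, ?_⟩
  intro t
  -- the inner cut-off
  obtain ⟨δ, hδ, hδr, hδu⟩ : ∃ δ > 0, δ < r / 4 ∧ ∀ w : ℂ, w ≠ 0 → ‖w‖ < δ → u w < t - 1 := by
    have h1 : ∀ᶠ w in 𝓝[≠] (0 : ℂ), ‖F w‖ < Real.exp (t - 1) := by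
      have := hF0.norm
      rw [norm_zero] at this
      exact this.eventually_lt_const (Real.exp_pos _)
    rw [eventually_nhdsWithin_iff, Metric.eventually_nhds_iff] at h1
    obtain ⟨δ, hδ, h2⟩ := h1
    refine ⟨min δ (r / 8), by positivity, (min_le_right _ _).trans_lt (by linarith), ?_⟩
    intro w hw0 hw
    have h3 := h2 (y := w) (by rw [dist_zero_right]; exact hw.trans_le (min_le_left _ _)) hw0
    have h4 : w ∈ pun r := ⟨by
      rw [mem_ball_zero_iff]
      have := min_le_right δ (r / 8)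
      linarith, hw0⟩
    rw [hu]
    simp only
    rw [Real.log_lt_iff_lt_exp (norm_pos_iff.2 (hne w h4))]
    exact h3
  obtain ⟨ζi, hi, hi01, hi1, -⟩ := hC 0 (δ / 4) (δ / 2) (by positivity) (by linarith)
  have hi' : Test (ball 0 r) ζi := ⟨hi.sm, hi.cs, hi.su.trans (ball_subset_ball (by linarith))⟩
  have ti1 := test_pun hi' (by positivity : 0 < δ / 4)
    (fun z hz => hi1 z (ball_subset_closedBall hz)) 1
  have tiI := test_pun hi' (by positivity : 0 < δ / 4)
    (fun z hz => hi1 z (ball_subset_closedBall hz)) I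
  have hζ : Test (pun r) (fun z => ζo z - ζi z) := by
    refine test_sub_pun ho' hi' (by positivity : 0 < δ / 4) fun w hw => ?_
    rw [hi1 w (ball_subset_closedBall hw), ho1' w (ball_subset_ball (by linarith) hw)]
  have hζ0 : ∀ w, 0 ≤ ζo w - ζi w := by
    intro w
    by_cases hw : w ∈ closedBall (0 : ℂ) (r / 2)
    · rw [ho1 w hw]; linarith [(hi01 w).2]
    · have : ζi w = 0 := by
        by_contra h0
        exact hw ((ball_subset_closedBall.trans (closedBall_subset_closedBall (by linarith)))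
          (hi.su (subset_tsupport _ h0)))
      rw [this]; linarith [(ho01 w).1]
  obtain ⟨ib1, ib2, ib3⟩ := hIBPL (pun r) F Fx Fy h.qr.wp hne univ (Th t) (Th' t)
    isOpen_univ (fun s _ => Th_deriv t s) (Th'_cont t).continuousOn
    (fun _ _ => mem_univ _) _ hζ
  have e1 : ∀ w, Th t (u w) * fm F Fx Fy (fun z => ζo z - ζi z) w =
      Th t (u w) * fm F Fx Fy ζo w := by
    intro w
    rw [fm_sub F Fx Fy ho.sm hi.sm]
    have : Th t (u w) * fm F Fx Fy ζi w = 0 := by
      by_cases hw : ‖w‖ < δ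
      · by_cases hw0 : w = 0
        · have h1 : fderiv ℝ ζi w = 0 := by
            refine fd_zero_closedBall hi.sm (by positivity : 0 < δ / 4) hi1 w ?_
            rw [hw0]; simp; positivity
          simp [fm, h1]
        · rw [Th_zero (hδu w hw0 hw), zero_mul]
      · have h1 : fderiv ℝ ζi w = 0 := by
          refine fd_zero_off fun h2 => hw ?_
          have := hi.su h2
          rw [mem_ball_zero_iff] at this
          linarith
        simp [fm, h1]
    rw [mul_sub, this, sub_zero]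
  have e2 : |∫ w, Th t (u w) * fm F Fx Fy (fun z => ζo z - ζi z) w| ≤ (M + |t| + 1) * B := by
    rw [integral_congr_ae (Eventually.of_forall e1), ← Real.norm_eq_abs, hB, ← integral_const_mul]
    refine norm_integral_le_of_norm_le (hBi.const_mul _) (Eventually.of_forall fun w => ?_)
    rw [norm_mul, Real.norm_eq_abs, Real.norm_eq_abs]
    by_cases hw : r / 2 ≤ ‖w‖ ∧ ‖w‖ ≤ 3 * r / 4
    · have h1 := hM w hw.1 hw.2
      have h2 := Th_abs t (u w)
      have h3 : |Th t (u w)| ≤ M + |t| + 1 := by linarith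
      gcongr
    · have h1 : fderiv ℝ ζo w = 0 := by
        rw [not_and_or, not_le, not_le] at hw
        rcases hw with hw | hw
        · exact fd_zero_closedBall ho.sm (by positivity : 0 < r / 2) ho1 w
            (by rw [mem_closedBall_zero_iff]; exact hw.le)
        · refine fd_zero_off fun h2 => ?_
          have := ho.su h2
          rw [mem_ball_zero_iff] at this
          linarith
      simp [fm, h1]
  set J := ∫ w, (ζo w - ζi w) * Th' t (u w) * (jac (Fx w) (Fy w) / ‖F w‖ ^ 2) with hJ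
  have hJb : J ≤ (M + |t| + 1) * B := by
    have h1 : J = - ∫ w, Th t (u w) * fm F Fx Fy (fun z => ζo z - ζi z) w := ib3
    rw [h1]
    exact (neg_le_abs _).trans e2
  have hE1 : Integrable (fun w => (ζo w - ζi w) * Th' t (u w) *
      (en (Fx w) (Fy w) / ‖F w‖ ^ 2)) := by
    have h1 : IntegrableOn (fun w => (ζo w - ζi w) * Th' t (u w) *
        (en (Fx w) (Fy w) / ‖F w‖ ^ 2)) (tsupport fun z => ζo z - ζi z) := by
      refine (enF_int h.qr.wp hne hζ.su hζ.cs).continuousOn_mul ?_ hζ.cs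
      exact hζ.sm.continuous.continuousOn.mul
        ((Th'_cont t).comp_continuousOn (cu.mono hζ.su))
    rwa [integrableOn_iff_integrable_of_support_subset] at h1
    intro w hw
    refine subset_tsupport _ fun h0 => hw ?_
    have h0' : ζo w - ζi w = 0 := h0
    show (ζo w - ζi w) * Th' t (u w) * (en (Fx w) (Fy w) / ‖F w‖ ^ 2) = 0
    rw [h0', zero_mul, zero_mul]
  have hE2 : ∫ w, (ζo w - ζi w) * Th' t (u w) * (en (Fx w) (Fy w) / ‖F w‖ ^ 2) ≤ Q * J := by
    rw [hJ, ← integral_const_mul]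
    refine integral_mono_ae hE1 (ib1.const_mul Q) ?_
    have hq := h.qr.qr
    rw [ae_restrict_iff' hop.measurableSet] at hq
    filter_upwards [hq] with w hw
    by_cases hwp : w ∈ pun r
    · have h1 := hw hwp
      have h2 := hζ0 w
      have h4 := Th'_nonneg t (u w)
      have h3 : 0 < ‖F w‖ := norm_pos_iff.2 (hne w hwp)
      calc (ζo w - ζi w) * Th' t (u w) * (en (Fx w) (Fy w) / ‖F w‖ ^ 2)
          ≤ (ζo w - ζi w) * Th' t (u w) * (Q * jac (Fx w) (Fy w) / ‖F w‖ ^ 2) := by gcongr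
        _ = Q * ((ζo w - ζi w) * Th' t (u w) * (jac (Fx w) (Fy w) / ‖F w‖ ^ 2)) := by ring
    · have : ζo w - ζi w = 0 := by
        by_contra h0
        exact hwp (hζ.su (subset_tsupport _ h0))
      rw [this]; simp
  have hSo : MeasurableSet {z | z ∈ pun (r / 2) ∧ t < Real.log ‖F z‖} := by
    have h1 : IsOpen (pun r ∩ u ⁻¹' (Ioi t)) := cu.isOpen_inter_preimage hop isOpen_Ioi
    have h2 : {z | z ∈ pun (r / 2) ∧ t < Real.log ‖F z‖} = pun (r / 2) ∩
        (pun r ∩ u ⁻¹' (Ioi t)) := by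
      ext z
      constructor
      · rintro ⟨h1, h2⟩
        exact ⟨h1, ⟨ball_subset_ball (by linarith) h1.1, h1.2⟩, h2⟩
      · rintro ⟨h1, -, h2⟩
        exact ⟨h1, h2⟩
    rw [h2]
    exact ((isOpen_pun _).inter h1).measurableSet
  have hnn : ∀ w, 0 ≤ (ζo w - ζi w) * Th' t (u w) * (en (Fx w) (Fy w) / ‖F w‖ ^ 2) := by
    intro w
    have h2 := hζ0 w
    have h4 := Th'_nonneg t (u w)
    have h3 := en_nonneg (Fx w) (Fy w)
    positivity
  calc ∫⁻ z in {z | z ∈ pun (r / 2) ∧ t < Real.log ‖F z‖},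
        ENNReal.ofReal (en (Fx z) (Fy z) / ‖F z‖ ^ 2)
      = ∫⁻ z in {z | z ∈ pun (r / 2) ∧ t < Real.log ‖F z‖},
        ENNReal.ofReal ((ζo z - ζi z) * Th' t (u z) * (en (Fx z) (Fy z) / ‖F z‖ ^ 2)) := by
        refine setLIntegral_congr_fun hSo fun w hw => ?_
        have h1 : w ∈ ball (0 : ℂ) (r / 2) := hw.1.1
        have h2 : w ≠ 0 := hw.1.2
        have h3 : Th' t (u w) = 1 := Th'_one hw.2
        have h4 : ζi w = 0 := by
          by_contra h0
          have h5 := hi.su (subset_tsupport _ h0)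
          rw [mem_ball_zero_iff] at h5
          have h6 := hδu w h2 (by linarith)
          have h7 : t < u w := hw.2
          linarith
        show _ = ENNReal.ofReal ((ζo w - ζi w) * Th' t (u w) * (en (Fx w) (Fy w) / ‖F w‖ ^ 2))
        rw [h3, h4, ho1' w h1]
        simp
    _ ≤ ∫⁻ z, ENNReal.ofReal ((ζo z - ζi z) * Th' t (u z) * (en (Fx z) (Fy z) / ‖F z‖ ^ 2)) :=
        setLIntegral_le_lintegral _ _
    _ = ENNReal.ofReal (∫ z, (ζo z - ζi z) * Th' t (u z) * (en (Fx z) (Fy z) / ‖F z‖ ^ 2)) :=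
        (ofReal_integral_eq_lintegral_ofReal hE1 (Eventually.of_forall hnn)).symm
    _ ≤ ENNReal.ofReal (Q * ((M + 1) * B) * (1 + |t|)) := by
        refine ENNReal.ofReal_le_ofReal (hE2.trans ?_)
        have h1 : Q * J ≤ Q * ((M + |t| + 1) * B) := by gcongr
        refine h1.trans ?_
        have h2 : (M + |t| + 1) ≤ (M + 1) * (1 + |t|) := by
          have := abs_nonneg t
          nlinarith
        calc Q * ((M + |t| + 1) * B) ≤ Q * (((M + 1) * (1 + |t|)) * B) := by gcongr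
          _ = _ := by ring

end MPfa.Reg
end
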