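import Pool.Agent.Lib.MP_fa0334_an.RegSpec
import Pool.Agent.Lib.MP_fa0334_an.RegPuncB

/-!
Problem MP_fa0334_an, part REG, module PUNCA: `F → 0` at the puncture.
-/

set_option autoImplicit false

open MeasureTheory Set Filter Topology Metric Complex
open scoped ContDiff ENNReal ComplexConjugate

namespace MPfa.Reg.PuncAM

/-- a sequence below the maximum of its neighbours, growing slower than `2 j`, either tends to `-∞`
or is infinitely often bounded below and within `2` of its neighbours -/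
theorem seq_dich {M : ℕ → ℝ} (hq : ∀ i j k, i < j → j < k → M j ≤ max (M i) (M k))
    {A : ℝ} (hA : ∀ j : ℕ, M j ≤ A + 2 * (j : ℝ) * Real.log 2) :
    Tendsto M atTop atBot ∨ ∃ b : ℝ, ∀ n : ℕ, ∃ j, n < j ∧ b ≤ M j ∧ M (j - 1) ≤ M j + 2 ∧
      M (j + 1) ≤ M j + 2 := by
  by_cases hanti : ∃ i, M i < M (i + 1)
  · right
    obtain ⟨i, hi⟩ := hanti
    have hge : ∀ k, i + 1 ≤ k → M (i + 1) ≤ M k := by
      intro k hk
      rcases eq_or_lt_of_le hk with h | h
      · rw [← h]
      · rcases le_max_iff.1 (hq i (i + 1) k (by omega) h) with h1 | h1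
        · exact absurd h1 (not_le.2 hi)
        · exact h1
    have hmono : ∀ k, i + 1 ≤ k → M k ≤ M (k + 1) := by
      intro k hk
      rcases le_max_iff.1 (hq i k (k + 1) (by omega) (by omega)) with h1 | h1
      · exact absurd (h1.trans_lt (hi.trans_le (hge k hk))) (lt_irrefl _)
      · exact h1
    refine ⟨M (i + 1), fun n => ?_⟩
    by_contra hcon
    push Not at hcon
    -- increments larger than `2` from `max n (i+2) + 1` on
    have hinc : ∀ k, n + i + 3 ≤ k → M k + 2 < M (k + 1) := by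
      intro k hk
      refine hcon k (by omega) (hge k (by omega)) ?_
      have h1 := hmono (k - 1) (by omega)
      rw [show k - 1 + 1 = k by omega] at h1
      linarith
    have hgrow : ∀ d : ℕ, M (n + i + 3) + 2 * (d : ℝ) ≤ M (n + i + 3 + d) := by
      intro d
      induction d with
      | zero => simp
      | succ d ih =>
        have h1 := hinc (n + i + 3 + d) (by omega)
        rw [show n + i + 3 + (d + 1) = n + i + 3 + d + 1 by omega]
        push_cast
        linarith
    have hl2 : Real.log 2 < 0.7 := by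
      have := Real.log_two_lt_d9
      linarith
    obtain ⟨d, hd⟩ := exists_nat_gt ((A + 2 * ((n + i + 3 : ℕ) : ℝ) * 0.7 - M (n + i + 3)) / 0.6)
    have h1 := hgrow d
    have h2 := hA (n + i + 3 + d)
    have h3 : 2 * ((n + i + 3 + d : ℕ) : ℝ) * Real.log 2 ≤
        2 * ((n + i + 3 + d : ℕ) : ℝ) * 0.7 := by
      refine mul_le_mul_of_nonneg_left hl2.le (by positivity)
    rw [div_lt_iff₀ (by norm_num)] at hd
    push_cast at h1 h2 h3 hd
    nlinarith
  · push Not at hanti
    have hA' : Antitone M := antitone_nat_of_succ_le hanti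
    by_cases hb : ∃ b, ∀ j, b ≤ M j
    · right
      obtain ⟨b, hb⟩ := hb
      refine ⟨b, fun n => ?_⟩
      by_contra hcon
      push Not at hcon
      have hdec : ∀ k, n + 1 ≤ k → M (k + 1) + 2 < M k := by
        intro k hk
        by_contra h
        have h1 := hcon (k + 1) (by omega) (hb _)
          (by rw [show k + 1 - 1 = k by omega]; linarith)
        have h2 := hanti (k + 1)
        linarith
      have hgrow : ∀ d : ℕ, M (n + 1 + d) ≤ M (n + 1) - 2 * (d : ℝ) := by
        intro d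
        induction d with
        | zero => simp
        | succ d ih =>
          have h1 := hdec (n + 1 + d) (by omega)
          rw [show n + 1 + (d + 1) = n + 1 + d + 1 by omega]
          push_cast
          linarith
      obtain ⟨d, hd⟩ := exists_nat_gt ((M (n + 1) - b) / 2)
      have h1 := hgrow d
      have h2 := hb (n + 1 + d)
      rw [div_lt_iff₀ (by norm_num)] at hd
      linarith
    · left
      push Not at hb
      rw [tendsto_atTop_atBot]
      intro b
      obtain ⟨j, hj⟩ := hb b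
      exact ⟨j, fun k hk => (hA' hk).trans hj.le⟩

/-- maximum of a continuous function on a circle -/
theorem exists_max {u : ℂ → ℝ} {r t : ℝ} (hu : ContinuousOn u (pun r)) (ht : 0 < t)
    (htr : t < r) : ∃ z : ℂ, ‖z‖ = t ∧ ∀ w : ℂ, ‖w‖ = t → u w ≤ u z := by
  have hc : IsCompact (sphere (0 : ℂ) t) := isCompact_sphere _ _
  have hne : (sphere (0 : ℂ) t).Nonempty := ⟨(t : ℂ), by simp [abs_of_pos ht]⟩
  have hsub : sphere (0 : ℂ) t ⊆ pun r := by
    intro z hz
    rw [mem_sphere_zero_iff_norm] at hz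
    refine ⟨by simpa [hz] using htr, ?_⟩
    intro h
    rw [mem_singleton_iff] at h
    rw [h, norm_zero] at hz
    exact ht.ne hz
  obtain ⟨z, hz, hmax⟩ := hc.exists_isMaxOn hne (hu.mono hsub)
  refine ⟨z, by simpa using hz, fun w hw => hmax (by simpa using hw)⟩

theorem log_cont {r : ℝ} {F : ℂ → ℂ} (hF : ContinuousOn F (pun r)) (h0 : ∀ z ∈ pun r, F z ≠ 0) :
    ContinuousOn (fun z => Real.log ‖F z‖) (pun r) :=
  hF.norm.log fun z hz => norm_ne_zero_iff.2 (h0 z hz)

/-- maximum modulus on rings -/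
theorem ring_max (hModQ : SpecModQ) {r Q : ℝ} {m : ℕ} {F Fx Fy ℓ : ℂ → ℂ} (hQ : 0 < Q)
    (h : PF r Q m F Fx Fy ℓ) {a b B : ℝ} (ha : 0 < a) (hb : b < r)
    (h1 : ∀ z : ℂ, ‖z‖ = a → Real.log ‖F z‖ ≤ B) (h2 : ∀ z : ℂ, ‖z‖ = b → Real.log ‖F z‖ ≤ B) :
    ∀ z : ℂ, a ≤ ‖z‖ → ‖z‖ ≤ b → Real.log ‖F z‖ ≤ B := by
  have hne := PA.PF.ne h
  intro z hza hzb
  rcases eq_or_lt_of_le hza with h3 | h3
  · exact h1 z h3.symm
  rcases eq_or_lt_of_le hzb with h4 | h4
  · exact h2 z h4
  have hO : IsOpen (ball (0 : ℂ) b \ closedBall 0 a) := isOpen_ball.sdiff isClosed_closedBall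
  have hcl : closure (ball (0 : ℂ) b \ closedBall 0 a) ⊆ closedBall (0 : ℂ) b \ ball 0 a := by
    refine closure_minimal ?_ (isClosed_closedBall.sdiff isOpen_ball)
    intro w hw
    simp only [Set.mem_sdiff, mem_ball_zero_iff, mem_closedBall_zero_iff, not_le, not_lt] at hw ⊢
    exact ⟨hw.1.le, hw.2.le⟩
  have hK : IsCompact (closure (ball (0 : ℂ) b \ closedBall 0 a)) :=
    PA.ring_compact.of_isClosed_subset isClosed_closure hcl
  have hzp : ∀ w : ℂ, a ≤ ‖w‖ → ‖w‖ ≤ b → w ∈ pun r := by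
    intro w hw1 hw2
    refine PA.ring_sub ha hb ?_
    simp only [Set.mem_sdiff, mem_ball_zero_iff, mem_closedBall_zero_iff, not_lt]
    exact ⟨hw2, hw1⟩
  have key := hModQ (pun r) Q F Fx Fy hQ h.qr (ball (0 : ℂ) b \ closedBall 0 a) (Real.exp B) hO hK
    (hcl.trans (PA.ring_sub ha hb)) ?_ z ?_
  · rw [Real.log_le_iff_le_exp (norm_pos_iff.2 (hne z (hzp z hza hzb)))]
    exact key
  · intro w hw
    have hw' := hw
    rw [frontier, hO.interior_eq] at hw
    have hw1 := hcl hw.1
    have hw2 := hw.2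
    simp only [Set.mem_sdiff, mem_ball_zero_iff, mem_closedBall_zero_iff, not_lt, not_le, not_and]
      at hw1 hw2
    rw [← Real.log_le_iff_le_exp (norm_pos_iff.2 (hne w (hzp w hw1.2 hw1.1)))]
    rcases eq_or_lt_of_le hw1.1 with h5 | h5
    · exact h2 w h5
    · exact h1 w (le_antisymm (hw2 h5) hw1.2)
  · simp only [Set.mem_sdiff, mem_ball_zero_iff, mem_closedBall_zero_iff, not_le]
    exact ⟨h4, h3⟩

/-- many rings have large energy -/
theorem rings (hRing : SpecRing) : ∃ C : ℝ, 0 ≤ C ∧ ∀ (r Q : ℝ) (m : ℕ) (F Fx Fy ℓ : ℂ → ℂ),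
    0 < Q → PF r Q m F Fx Fy ℓ → ∀ (t : ℝ) (n : ℕ), 0 < t → 2 ^ n * t < r →
    (n : ℝ) * (m : ℝ) ^ 2 ≤
      C * ∫ z in ball (0 : ℂ) (2 ^ n * t) \ closedBall 0 t, en (Fx z) (Fy z) / ‖F z‖ ^ 2 := by
  obtain ⟨C, hC, hR⟩ := hRing
  refine ⟨C, hC, fun r Q m F Fx Fy ℓ hQ h t n ht => ?_⟩
  induction n with
  | zero =>
    intro _
    have : (0 : ℝ) ≤ ∫ z in ball (0 : ℂ) (2 ^ 0 * t) \ closedBall 0 t,
        en (Fx z) (Fy z) / ‖F z‖ ^ 2 :=
      integral_nonneg fun z => div_nonneg (PA.en_nonneg _ _) (by positivity)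
    simp only [CharP.cast_eq_zero, zero_mul]
    positivity
  | succ n ih =>
    intro hn
    have h2n : (0 : ℝ) < 2 ^ n * t := by positivity
    have h2 : (2 : ℝ) ^ (n + 1) * t = 2 * (2 ^ n * t) := by ring
    have hlt : (2 : ℝ) ^ n * t < r := by rw [h2] at hn; linarith
    have h3 := ih hlt
    have h4 := hR r Q m F Fx Fy ℓ hQ h (2 ^ n * t) h2n (by rw [← h2]; exact hn)
    have ht1 : t ≤ 2 ^ n * t := by
      have : (1 : ℝ) ≤ 2 ^ n := one_le_pow₀ (by norm_num)
      nlinarith
    have hint : IntegrableOn (fun z => en (Fx z) (Fy z) / ‖F z‖ ^ 2)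
        (closedBall (0 : ℂ) (2 * (2 ^ n * t)) \ ball 0 t) :=
      PA.enF_int h.qr.wp (PA.PF.ne h) (PA.ring_sub ht (by rw [← h2]; exact hn)) PA.ring_compact
    have hU : Disjoint (ball (0 : ℂ) (2 ^ n * t) \ closedBall 0 t)
        (ball (0 : ℂ) (2 * (2 ^ n * t)) \ closedBall 0 (2 ^ n * t)) := by
      rw [Set.disjoint_left]
      intro z hz hz'
      simp only [Set.mem_sdiff, mem_ball_zero_iff, mem_closedBall_zero_iff, not_le] at hz hz'
      linarith [hz.1, hz'.2]
    have hs1 : ball (0 : ℂ) (2 ^ n * t) \ closedBall 0 t ⊆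
        ball (0 : ℂ) (2 ^ (n + 1) * t) \ closedBall 0 t := by
      intro z hz
      simp only [Set.mem_sdiff, mem_ball_zero_iff, mem_closedBall_zero_iff, not_le] at hz ⊢
      rw [h2]
      exact ⟨by linarith [hz.1], hz.2⟩
    have hs2 : ball (0 : ℂ) (2 * (2 ^ n * t)) \ closedBall 0 (2 ^ n * t) ⊆
        ball (0 : ℂ) (2 ^ (n + 1) * t) \ closedBall 0 t := by
      intro z hz
      simp only [Set.mem_sdiff, mem_ball_zero_iff, mem_closedBall_zero_iff, not_le] at hz ⊢
      rw [h2]
      exact ⟨hz.1, by linarith [hz.2]⟩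
    have hs3 : ball (0 : ℂ) (2 ^ (n + 1) * t) \ closedBall 0 t ⊆
        closedBall (0 : ℂ) (2 * (2 ^ n * t)) \ ball 0 t := by
      intro z hz
      simp only [Set.mem_sdiff, mem_ball_zero_iff, mem_closedBall_zero_iff, not_le, not_lt] at hz ⊢
      rw [h2] at hz
      exact ⟨hz.1.le, hz.2.le⟩
    have hsum : ∫ z in (ball (0 : ℂ) (2 ^ n * t) \ closedBall 0 t) ∪
        (ball (0 : ℂ) (2 * (2 ^ n * t)) \ closedBall 0 (2 ^ n * t)),
        en (Fx z) (Fy z) / ‖F z‖ ^ 2 ≤
        ∫ z in ball (0 : ℂ) (2 ^ (n + 1) * t) \ closedBall 0 t, en (Fx z) (Fy z) / ‖F z‖ ^ 2 := by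
      refine setIntegral_mono_set (hint.mono_set hs3) ?_ (union_subset hs1 hs2).eventuallyLE
      exact Eventually.of_forall fun z => div_nonneg (PA.en_nonneg _ _) (by positivity)
    rw [setIntegral_union hU (measurableSet_ball.diff measurableSet_closedBall)
      (hint.mono_set (hs1.trans hs3)) (hint.mono_set (hs2.trans hs3))] at hsum
    have h5 := mul_le_mul_of_nonneg_left hsum hC
    push_cast
    nlinarith

end MPfa.Reg.PuncAM

namespace MPfa.Reg

open PuncAM

theorem specPuncA (hCirc : SpecCirc) (hGoodE : SpecGoodE) (hRing : SpecRing)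
    (hModQ : SpecModQ) : SpecPuncA := by
  intro r Q m F Fx Fy ℓ hQ hm h hgr
  obtain ⟨C₀, hC₀⟩ := hgr
  have hne := PA.PF.ne h
  have hr := h.r0
  have hlog := log_cont h.qr.wp.co hne
  -- the radii
  set t : ℕ → ℝ := fun j => r / 64 / 2 ^ j with ht
  have tpos : ∀ j, 0 < t j := fun j => by positivity
  have tle : ∀ j, t j ≤ r / 64 := fun j => by
    rw [ht]
    simp only
    rw [div_le_iff₀ (by positivity)]
    have : (1 : ℝ) ≤ 2 ^ j := one_le_pow₀ (by norm_num)
    nlinarith
  have tlt : ∀ j, t j < r := fun j => by linarith [tle j]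
  have tsucc : ∀ j, t j = 2 * t (j + 1) := fun j => by
    simp only [ht, pow_succ]
    field_simp
  have tmono : ∀ i j, i ≤ j → t j ≤ t i := by
    intro i j hij
    refine antitone_nat_of_succ_le (fun k => ?_) hij
    have := tsucc k
    linarith [tpos (k + 1)]
  choose zz hz1 hz2 using fun j : ℕ => exists_max hlog (tpos j) (tlt j)
  set M : ℕ → ℝ := fun j => Real.log ‖F (zz j)‖ with hM
  have hring : ∀ i j, i ≤ j → ∀ z : ℂ, t j ≤ ‖z‖ → ‖z‖ ≤ t i →
      Real.log ‖F z‖ ≤ max (M i) (M j) := by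
    intro i j _ z hz hz'
    refine ring_max hModQ hQ h (tpos j) (tlt i) (fun w hw => ?_) (fun w hw => ?_) z hz hz'
    · exact (hz2 j w hw).trans (le_max_right _ _)
    · exact (hz2 i w hw).trans (le_max_left _ _)
  have hq : ∀ i j k, i < j → j < k → M j ≤ max (M i) (M k) := by
    intro i j k hij hjk
    refine hring i k (by omega) (zz j) ?_ ?_
    · rw [hz1]; exact tmono _ _ hjk.le
    · rw [hz1]; exact tmono _ _ hij.le
  have hA : ∀ j : ℕ, M j ≤ (Real.log C₀ - 2 * Real.log (r / 64)) + 2 * (j : ℝ) * Real.log 2 := by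
    intro j
    have hzp : zz j ∈ pun r := by
      refine ⟨by simpa [hz1 j] using tlt j, ?_⟩
      intro h0
      rw [mem_singleton_iff] at h0
      have := hz1 j
      rw [h0, norm_zero] at this
      exact (tpos j).ne this
    have h1 := hC₀ _ hzp
    have hF : 0 < ‖F (zz j)‖ := norm_pos_iff.2 (hne _ hzp)
    rw [hz1] at h1
    have h2 : Real.log (‖F (zz j)‖ * t j ^ 2) ≤ Real.log C₀ :=
      Real.log_le_log (by have := tpos j; positivity) h1
    rw [Real.log_mul hF.ne' (by have := tpos j; positivity), Real.log_pow, ht] at h2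
    simp only at h2
    rw [Real.log_div (by positivity) (by positivity), Real.log_pow] at h2
    push_cast at h2
    simp only [hM]
    linarith
  have hT : Tendsto M atTop atBot := by
    rcases seq_dich hq hA with h1 | ⟨b, hb⟩
    · exact h1
    exfalso
    obtain ⟨Cc, hCc, hcirc⟩ := hCirc Q hQ
    obtain ⟨Cg, hCg, hgood⟩ := hGoodE r Q m F Fx Fy ℓ hQ h
    obtain ⟨Cr, hCr, hrings⟩ := rings hRing
    set E : ℝ := Cg * (1 + (3 * Cc) ^ 2) - 2 * Real.pi * m * Q * b with hE
    have hm2 : (1 : ℝ) ≤ (m : ℝ) ^ 2 := by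
      have : (1 : ℝ) ≤ m := by exact_mod_cast hm
      nlinarith
    obtain ⟨n, hn⟩ := exists_nat_gt (Cr * E)
    obtain ⟨j, hj, hbj, hj1, hj2⟩ := hb (n + 1)
    -- bounds on the ring
    have hup : ∀ z : ℂ, t j / 2 ≤ ‖z‖ → ‖z‖ ≤ 2 * t j → Real.log ‖F z‖ ≤ M j + 2 := by
      intro z hz hz'
      refine (hring (j - 1) (j + 1) (by omega) z ?_ ?_).trans (max_le hj1 hj2)
      · have := tsucc j; linarith
      · have := tsucc (j - 1)
        rw [show j - 1 + 1 = j by omega] at this
        rw [this]; exact hz'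
    have hM3 : ∀ z : ℂ, t j / 2 < ‖z‖ → ‖z‖ < 2 * t j → Real.log ‖F z‖ < M j + 3 := by
      intro z hz hz'
      have := hup z hz.le hz'.le
      linarith
    have hcj := hcirc r F Fx Fy h.qr hne (t j) (M j + 3) (tpos j)
      (by have := tle j; linarith) hM3
    have hzz : ‖zz j‖ = t j := hz1 j
    have hlow : ∀ z : ℂ, 7 / 8 * t j ≤ ‖z‖ → ‖z‖ ≤ 9 / 8 * t j →
        M j + 3 - 3 * Cc ≤ Real.log ‖F z‖ := by
      intro z hz hz'
      have h1 := hcj z (zz j) hz hz' (by rw [hzz]; have := tpos j; linarith)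
        (by rw [hzz]; have := tpos j; linarith)
      have h2 : M j + 3 - Real.log ‖F (zz j)‖ = 3 := by simp only [hM]; ring
      rw [h2] at h1
      linarith
    have hosc : ∀ z z' : ℂ, 7 / 8 * t j ≤ ‖z‖ → ‖z‖ ≤ 9 / 8 * t j → 7 / 8 * t j ≤ ‖z'‖ →
        ‖z'‖ ≤ 9 / 8 * t j → |Real.log ‖F z‖ - Real.log ‖F z'‖| ≤ 3 * Cc := by
      intro z z' h1 h2 h3 h4
      have tp := tpos j
      have a1 := hlow z h1 h2
      have a2 := hlow z' h3 h4
      have a3 := hup z (by linarith) (by linarith)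
      have a4 := hup z' (by linarith) (by linarith)
      rw [abs_le]
      constructor <;> linarith
    have hg := hgood (t j) (3 * Cc) (tpos j) (by have := tle j; linarith) (by linarith) hosc
      (zz j) hzz
    have hgE : ∫ w in ball (0 : ℂ) (r / 2) \ closedBall 0 (9 / 8 * t j),
        en (Fx w) (Fy w) / ‖F w‖ ^ 2 ≤ E := by
      refine hg.trans ?_
      have h1 : 2 * Real.pi * m * Q * b ≤ 2 * Real.pi * m * Q * Real.log ‖F (zz j)‖ := by
        refine mul_le_mul_of_nonneg_left hbj ?_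
        have := Real.pi_pos
        positivity
      rw [hE]
      linarith
    -- the rings
    have htj : t (j - 1) = 2 * t j := by
      have := tsucc (j - 1)
      rwa [show j - 1 + 1 = j by omega] at this
    have ht0 : 2 ^ (j - 1) * t (j - 1) = r / 64 := by
      simp only [ht]
      field_simp
    have hR := hrings r Q m F Fx Fy ℓ hQ h (t (j - 1)) (j - 1) (tpos _) (by rw [ht0]; linarith)
    have hsub : ball (0 : ℂ) (2 ^ (j - 1) * t (j - 1)) \ closedBall 0 (t (j - 1)) ⊆
        ball (0 : ℂ) (r / 2) \ closedBall 0 (9 / 8 * t j) := by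
      intro z hz
      simp only [Set.mem_sdiff, mem_ball_zero_iff, mem_closedBall_zero_iff, not_le] at hz ⊢
      rw [ht0, htj] at hz
      have := tpos j
      exact ⟨by linarith [hz.1], by linarith [hz.2]⟩
    have hint : IntegrableOn (fun z => en (Fx z) (Fy z) / ‖F z‖ ^ 2)
        (ball (0 : ℂ) (r / 2) \ closedBall 0 (9 / 8 * t j)) := by
      refine (PA.enF_int h.qr.wp hne (PA.ring_sub (a := 9 / 8 * t j) (b := r / 2)
        (by have := tpos j; linarith) (by linarith)) PA.ring_compact).mono_set ?_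
      intro z hz
      simp only [Set.mem_sdiff, mem_ball_zero_iff, mem_closedBall_zero_iff, not_le, not_lt] at hz ⊢
      exact ⟨hz.1.le, hz.2.le⟩
    have hle : ∫ z in ball (0 : ℂ) (2 ^ (j - 1) * t (j - 1)) \ closedBall 0 (t (j - 1)),
        en (Fx z) (Fy z) / ‖F z‖ ^ 2 ≤ E := by
      refine le_trans (setIntegral_mono_set hint ?_ hsub.eventuallyLE) hgE
      exact Eventually.of_forall fun z => div_nonneg (PA.en_nonneg _ _) (by positivity)
    have h1 := mul_le_mul_of_nonneg_left hle hCr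
    have h2 : (n : ℝ) ≤ ((j - 1 : ℕ) : ℝ) := by
      exact_mod_cast (by omega : n ≤ j - 1)
    have h3 : ((j - 1 : ℕ) : ℝ) * 1 ≤ ((j - 1 : ℕ) : ℝ) * (m : ℝ) ^ 2 :=
      mul_le_mul_of_nonneg_left hm2 (Nat.cast_nonneg _)
    linarith
  -- conclusion
  rw [Metric.tendsto_nhdsWithin_nhds]
  intro ε hε
  rw [tendsto_atTop_atBot] at hT
  obtain ⟨J, hJ⟩ := hT (Real.log (ε / 2))
  refine ⟨t J, tpos J, fun z hz hz' => ?_⟩
  have hz0 : 0 < ‖z‖ := norm_pos_iff.2 (by simpa using hz)
  rw [dist_zero_right] at hz'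
  rw [dist_zero_right]
  obtain ⟨k, hk⟩ : ∃ k : ℕ, t k < ‖z‖ := by
    have h1 : Tendsto t atTop (𝓝 0) := by
      have h2 : Tendsto (fun j : ℕ => r / 64 * (1 / 2 : ℝ) ^ j) atTop (𝓝 (r / 64 * 0)) :=
        (tendsto_pow_atTop_nhds_zero_of_lt_one (by norm_num) (by norm_num)).const_mul _
      rw [mul_zero] at h2
      refine h2.congr fun j => ?_
      simp only [ht]
      rw [one_div, inv_pow, div_eq_mul_inv (r / 64)]
    exact (h1.eventually_lt_const hz0).exists
  have hzp : z ∈ pun r := ⟨by simpa using hz'.trans (tlt J), by simpa using hz⟩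
  have hJk : J ≤ max J k := le_max_left _ _
  have h1 := hring J (max J k) hJk z ((tmono _ _ (le_max_right J k)).trans hk.le) hz'.le
  have h2 : Real.log ‖F z‖ ≤ Real.log (ε / 2) :=
    h1.trans (max_le (hJ J le_rfl) (hJ _ hJk))
  rw [Real.log_le_log_iff (norm_pos_iff.2 (hne z hzp)) (by linarith)] at h2
  linarith

end MPfa.Reg
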