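import Pool.Agent.Lib.MP_fa0334_an.RegZNorm
import Pool.Agent.Lib.MP_fa0334_an.RegPuncB
import Pool.Agent.Lib.MP_fa0334_an.Mu

/-!
Problem MP_fa0334_an, part REG: module TWCA (finite energy of `log (F / z^m)`).
-/

set_option autoImplicit false

open MeasureTheory Set Filter Topology Metric Complex
open scoped ContDiff ENNReal ComplexConjugate

namespace MPfa.Reg

namespace TwaM

/-! ### sequences -/

/-- linear growth and the recursive inequality give a bound -/
theorem seq_bdd {a : ℕ → ℝ} {D E : ℝ} (hD : 0 < D) (hmono : Monotone a)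
    (hrec : ∀ N, a (N + 1) ≤ D + D * (a (N + 3) - a N)) (hgr : ∀ N, a N ≤ E * (1 + N)) :
    ∀ N, a N ≤ D := by
  intro N₀
  by_contra hN
  push Not at hN
  set lam : ℝ := 1 + 1 / D with hlam
  have hlam1 : 1 < lam := by
    have : 0 < 1 / D := by positivity
    linarith
  have hlow : ∀ k : ℕ, lam ^ k * (a N₀ - D) ≤ a (N₀ + 3 * k) - D := by
    intro k
    induction k with
    | zero => simp
    | succ k ih =>
      have h1 := hrec (N₀ + 3 * k)
      have h2 : a (N₀ + 3 * k) ≤ a (N₀ + 3 * k + 1) := hmono (Nat.le_succ _)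
      have h3 : N₀ + 3 * (k + 1) = N₀ + 3 * k + 3 := by ring
      rw [h3]
      have h4 : (a (N₀ + 3 * k) - D) / D ≤ a (N₀ + 3 * k + 3) - a (N₀ + 3 * k) := by
        rw [div_le_iff₀ hD]
        linarith
      have h5 : lam * (a (N₀ + 3 * k) - D) ≤ a (N₀ + 3 * k + 3) - D := by
        have : lam * (a (N₀ + 3 * k) - D) =
            (a (N₀ + 3 * k) - D) + (a (N₀ + 3 * k) - D) / D := by
          rw [hlam]
          ring
        linarith
      calc lam ^ (k + 1) * (a N₀ - D) = lam * (lam ^ k * (a N₀ - D)) := by ring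
        _ ≤ lam * (a (N₀ + 3 * k) - D) := by gcongr
        _ ≤ _ := h5
  have hup : ∀ k : ℕ, a N₀ - D ≤ (E * (1 + N₀)) * ((k : ℝ) ^ 0 / lam ^ k) +
      (3 * E) * ((k : ℝ) ^ 1 / lam ^ k) - D * ((k : ℝ) ^ 0 / lam ^ k) := by
    intro k
    have h1 := hlow k
    have h2 := hgr (N₀ + 3 * k)
    push_cast at h2
    have hl : 0 < lam ^ k := by positivity
    have h3 : (E * (1 + N₀)) * ((k : ℝ) ^ 0 / lam ^ k) +
        (3 * E) * ((k : ℝ) ^ 1 / lam ^ k) - D * ((k : ℝ) ^ 0 / lam ^ k) =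
        (E * (1 + (N₀ + 3 * k)) - D) / lam ^ k := by
      field_simp
      ring
    rw [h3, le_div_iff₀ hl]
    linarith
  have hlim : Tendsto (fun k : ℕ => (E * (1 + N₀)) * ((k : ℝ) ^ 0 / lam ^ k) +
      (3 * E) * ((k : ℝ) ^ 1 / lam ^ k) - D * ((k : ℝ) ^ 0 / lam ^ k)) atTop (𝓝 0) := by
    have h0 := tendsto_pow_const_div_const_pow_of_one_lt 0 hlam1
    have h1 := tendsto_pow_const_div_const_pow_of_one_lt 1 hlam1
    have := ((h0.const_mul (E * (1 + N₀))).add (h1.const_mul (3 * E))).sub (h0.const_mul D)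
    simpa using this
  have := ge_of_tendsto' hlim hup
  linarith

/-! ### dyadic rings -/

theorem ring_union {r ρ : ℝ} (hr : 0 < r) {f : ℂ → ℝ≥0∞} {B : ℝ≥0∞}
    (h : ∀ N : ℕ, ∫⁻ z in ball (0 : ℂ) ρ \ ball 0 (r / 2 ^ N), f z ≤ B) :
    ∫⁻ z in pun ρ, f z ≤ B := by
  have hU : pun ρ = ⋃ N : ℕ, ball (0 : ℂ) ρ \ ball 0 (r / 2 ^ N) := by
    ext z
    simp only [pun, Set.mem_sdiff, mem_singleton_iff, mem_iUnion, mem_ball_zero_iff, not_lt]
    constructor
    · rintro ⟨h1, h2⟩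
      have hz : 0 < ‖z‖ := norm_pos_iff.2 h2
      obtain ⟨N, hN⟩ := pow_unbounded_of_one_lt (r / ‖z‖) (one_lt_two)
      refine ⟨N, h1, ?_⟩
      rw [div_le_iff₀ (by positivity)]
      rw [div_lt_iff₀ hz] at hN
      linarith
    · rintro ⟨N, h1, h2⟩
      refine ⟨h1, ?_⟩
      rintro rfl
      rw [norm_zero] at h2
      have : 0 < r / 2 ^ N := by positivity
      linarith
  have hd : Directed (· ⊆ ·) fun N : ℕ => ball (0 : ℂ) ρ \ ball 0 (r / 2 ^ N) := by
    refine Monotone.directed_le ?_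
    intro N M hNM
    refine sdiff_subset_sdiff_right (ball_subset_ball ?_)
    have : (2 : ℝ) ^ N ≤ 2 ^ M := pow_le_pow_right₀ one_le_two hNM
    gcongr
  rw [hU, setLIntegral_iUnion_of_directed _ hd]
  exact iSup_le h

theorem ring_step {r ρ : ℝ} {f : ℂ → ℝ≥0∞} {c : ℕ → ℝ≥0∞} (hρ : ρ ≤ r)
    (h : ∀ j : ℕ, ∫⁻ z in ball (0 : ℂ) (r / 2 ^ j) \ ball 0 (r / 2 ^ (j + 1)), f z ≤ c j) :
    ∀ N : ℕ, ∫⁻ z in ball (0 : ℂ) ρ \ ball 0 (r / 2 ^ N), f z ≤
      ∑ j ∈ Finset.range N, c j := by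
  intro N
  induction N with
  | zero =>
    have : ball (0 : ℂ) ρ \ ball 0 (r / 2 ^ 0) = ∅ := by
      rw [pow_zero, div_one]
      exact sdiff_eq_empty.2 (ball_subset_ball hρ)
    rw [this]
    simp
  | succ N ih =>
    rw [Finset.sum_range_succ]
    refine le_trans ?_ (add_le_add ih (h N))
    refine le_trans (lintegral_mono_set ?_) (lintegral_union_le _ _ _)
    rintro z ⟨h1, h2⟩
    by_cases h3 : z ∈ ball (0 : ℂ) (r / 2 ^ N)
    · exact Or.inr ⟨h3, h2⟩
    · exact Or.inl ⟨h1, h3⟩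

/-! ### pointwise facts -/

theorem sq_add_le (a b : ℂ) : ‖a + b‖ ^ 2 ≤ 2 * ‖a‖ ^ 2 + 2 * ‖b‖ ^ 2 := by
  have h := norm_add_le a b
  have h1 : ‖a + b‖ ^ 2 ≤ (‖a‖ + ‖b‖) ^ 2 := by gcongr
  nlinarith [sq_nonneg (‖a‖ - ‖b‖)]

theorem sq_sub_le (a b : ℂ) : ‖a - b‖ ^ 2 ≤ 2 * ‖a‖ ^ 2 + 2 * ‖b‖ ^ 2 := by
  have := sq_add_le a (-b)
  rwa [norm_neg, ← sub_eq_add_neg] at this

theorem en_div (a b F : ℂ) : en a b / ‖F‖ ^ 2 = ‖a / F‖ ^ 2 + ‖b / F‖ ^ 2 := by
  rw [norm_div, norm_div, div_pow, div_pow, en]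
  ring

theorem norm_mz (m : ℕ) (z : ℂ) : ‖(m : ℂ) / z‖ ^ 2 = m ^ 2 / ‖z‖ ^ 2 := by
  rw [norm_div, div_pow, Complex.norm_natCast]

theorem norm_Imz (m : ℕ) (z : ℂ) : ‖I * ((m : ℂ) / z)‖ ^ 2 = m ^ 2 / ‖z‖ ^ 2 := by
  rw [norm_mul, Complex.norm_I, one_mul, norm_mz]

theorem e_le (m : ℕ) (F Fx Fy : ℂ → ℂ) (z : ℂ) : en (lx m F Fx z) (ly m F Fy z) ≤
    2 * (en (Fx z) (Fy z) / ‖F z‖ ^ 2) + 4 * m ^ 2 / ‖z‖ ^ 2 := by
  rw [en_div]
  have h1 := sq_sub_le (Fx z / F z) (m / z)
  have h2 := sq_sub_le (Fy z / F z) (I * (m / z))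
  rw [norm_mz] at h1
  rw [norm_Imz] at h2
  have h3 : 4 * (m : ℝ) ^ 2 / ‖z‖ ^ 2 = 4 * ((m : ℝ) ^ 2 / ‖z‖ ^ 2) := by ring
  rw [h3]
  simp only [en, lx, ly]
  linarith

theorem X_le (m : ℕ) (F Fx Fy : ℂ → ℂ) (z : ℂ) : en (Fx z) (Fy z) / ‖F z‖ ^ 2 ≤
    2 * en (lx m F Fx z) (ly m F Fy z) + 4 * m ^ 2 / ‖z‖ ^ 2 := by
  rw [en_div]
  have h1 := sq_add_le (lx m F Fx z) (m / z)
  have h2 := sq_add_le (ly m F Fy z) (I * (m / z))
  rw [norm_mz] at h1
  rw [norm_Imz] at h2
  have h3 : 4 * (m : ℝ) ^ 2 / ‖z‖ ^ 2 = 4 * ((m : ℝ) ^ 2 / ‖z‖ ^ 2) := by ring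
  have h4 : lx m F Fx z + m / z = Fx z / F z := by simp [lx]
  have h5 : ly m F Fy z + I * (m / z) = Fy z / F z := by simp [ly]
  rw [h4] at h1
  rw [h5] at h2
  rw [h3]
  simp only [en]
  linarith

theorem en_jac (a b : ℂ) : en a b = 2 * jac a b + ‖a + I * b‖ ^ 2 := by
  simp only [en, jac, PA.normsq]
  simp
  ring

theorem W_eq (m : ℕ) (F Fx Fy : ℂ → ℂ) (z : ℂ) :
    lx m F Fx z + I * ly m F Fy z = (Fx z + I * Fy z) / F z := by
  have h : I * (I * ((m : ℂ) / z)) = -(m / z) := by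
    rw [← mul_assoc, Complex.I_mul_I]
    ring
  simp only [lx, ly]
  rw [mul_sub, h]
  ring

theorem sub_le_en (a b : ℂ) : ‖a - I * b‖ ^ 2 ≤ 2 * en a b := by
  have := sq_sub_le a (I * b)
  rw [norm_mul, Complex.norm_I, one_mul] at this
  simp only [en]
  linarith

/-! ### the energy of the antiholomorphic derivative -/

theorem sumW {r Q C α : ℝ} {m : ℕ} {F Fx Fy ℓ : ℂ → ℂ} (h : TW r Q C α m F Fx Fy ℓ) :
    ∫⁻ z in pun r, ENNReal.ofReal (‖lx m F Fx z + I * ly m F Fy z‖ ^ 2) < ⊤ := by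
  have hr := h.pf.r0
  have hα := h.a0
  have hC := h.C0
  set q : ℝ := ((2 : ℝ) ^ (-α)) ^ 2 with hq
  have hq0 : 0 < q := by positivity
  have hq1 : q < 1 := by
    have h1 : (2 : ℝ) ^ (-α) < 1 := Real.rpow_lt_one_of_one_lt_of_neg one_lt_two (by linarith)
    have h2 : 0 < (2 : ℝ) ^ (-α) := by positivity
    rw [hq]
    nlinarith
  set K : ℝ := 2 * C ^ 2 * (r ^ α) ^ 2 * (2 * C) with hK
  have hK0 : 0 ≤ K := by positivity
  have hring : ∀ j : ℕ, ∫⁻ z in ball (0 : ℂ) (r / 2 ^ j) \ ball 0 (r / 2 ^ (j + 1)),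
      ENNReal.ofReal (‖lx m F Fx z + I * ly m F Fy z‖ ^ 2) ≤
      ENNReal.ofReal (K * (q ^ j * (1 + j))) := by
    intro j
    have hsub : ball (0 : ℂ) (r / 2 ^ j) \ ball 0 (r / 2 ^ (j + 1)) ⊆
        ball (0 : ℂ) r \ ball 0 (r / 2 ^ (j + 1)) := by
      refine sdiff_subset_sdiff_left (ball_subset_ball ?_)
      apply div_le_self hr.le
      exact one_le_pow₀ one_le_two
    have hpos : 0 < r / 2 ^ (j + 1) := by positivity
    have hlt : r / 2 ^ (j + 1) < r := by
      apply div_lt_self hr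
      exact one_lt_pow₀ one_lt_two (by omega)
    have hsubp : ball (0 : ℂ) (r / 2 ^ j) \ ball 0 (r / 2 ^ (j + 1)) ⊆ pun r := by
      intro z hz
      have h1 := hsub hz
      refine ⟨h1.1, ?_⟩
      rintro (rfl : z = 0)
      exact h1.2 (mem_ball_self hpos)
    have h1 := ae_restrict_of_ae_restrict_of_subset hsubp h.bel
    have hm : MeasurableSet (ball (0 : ℂ) (r / 2 ^ j) \ ball 0 (r / 2 ^ (j + 1))) :=
      measurableSet_ball.diff measurableSet_ball
    have h2 : ∀ᵐ z ∂(volume.restrict (ball (0 : ℂ) (r / 2 ^ j) \ ball 0 (r / 2 ^ (j + 1)))),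
        ENNReal.ofReal (‖lx m F Fx z + I * ly m F Fy z‖ ^ 2) ≤
        ENNReal.ofReal (2 * C ^ 2 * ((r / 2 ^ j) ^ α) ^ 2) *
          ENNReal.ofReal (en (Fx z) (Fy z) / ‖F z‖ ^ 2) := by
      filter_upwards [h1, ae_restrict_mem hm] with z hz hzm
      rw [← ENNReal.ofReal_mul (by positivity)]
      apply ENNReal.ofReal_le_ofReal
      rw [W_eq, norm_div, div_pow]
      have h3 : ‖z‖ ≤ r / 2 ^ j := (mem_ball_zero_iff.1 hzm.1).le
      have h4 : ‖z‖ ^ α ≤ (r / 2 ^ j) ^ α := Real.rpow_le_rpow (norm_nonneg _) h3 hα.le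
      have h5 : ‖Fx z + I * Fy z‖ ^ 2 ≤
          (C * (r / 2 ^ j) ^ α * ‖Fx z - I * Fy z‖) ^ 2 := by
        refine pow_le_pow_left₀ (norm_nonneg _) (hz.trans ?_) 2
        gcongr
      have h6 := sub_le_en (Fx z) (Fy z)
      calc ‖Fx z + I * Fy z‖ ^ 2 / ‖F z‖ ^ 2
          ≤ (C * (r / 2 ^ j) ^ α * ‖Fx z - I * Fy z‖) ^ 2 / ‖F z‖ ^ 2 := by gcongr
        _ = (C * (r / 2 ^ j) ^ α) ^ 2 * ‖Fx z - I * Fy z‖ ^ 2 / ‖F z‖ ^ 2 := by ring
        _ ≤ (C * (r / 2 ^ j) ^ α) ^ 2 * (2 * en (Fx z) (Fy z)) / ‖F z‖ ^ 2 := by gcongr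
        _ = _ := by ring
    refine (lintegral_mono_ae h2).trans ?_
    rw [lintegral_const_mul' _ _ ENNReal.ofReal_ne_top]
    have h3 := (lintegral_mono_set hsub).trans (h.enr (r / 2 ^ (j + 1)) hpos hlt)
    refine (mul_le_mul' le_rfl h3).trans ?_
    rw [← ENNReal.ofReal_mul (by positivity)]
    apply ENNReal.ofReal_le_ofReal
    have h4 : r / (r / 2 ^ (j + 1)) = 2 ^ (j + 1) := by field_simp
    have h5 : Real.log (r / (r / 2 ^ (j + 1))) ≤ j + 1 := by
      rw [h4, Real.log_pow]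
      push_cast
      have : Real.log 2 ≤ 1 := by
        have := Real.log_two_lt_d9
        linarith
      have h0 : (0 : ℝ) ≤ j + 1 := by positivity
      nlinarith
    have h6 : ((r / 2 ^ j) ^ α) ^ 2 = (r ^ α) ^ 2 * q ^ j := by
      have : (r / 2 ^ j) ^ α = r ^ α * ((2 : ℝ) ^ (-α)) ^ j := by
        rw [Real.div_rpow hr.le (by positivity), ← Real.rpow_natCast, ← Real.rpow_natCast,
          ← Real.rpow_mul (by norm_num), ← Real.rpow_mul (by norm_num), div_eq_mul_inv,
          ← Real.rpow_neg (by norm_num)]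
        congr 2
        ring
      rw [this, hq]
      ring
    rw [h6]
    calc 2 * C ^ 2 * ((r ^ α) ^ 2 * q ^ j) * (C * (1 + Real.log (r / (r / 2 ^ (j + 1)))))
        ≤ 2 * C ^ 2 * ((r ^ α) ^ 2 * q ^ j) * (C * (1 + (j + 1))) := by gcongr
      _ ≤ 2 * C ^ 2 * ((r ^ α) ^ 2 * q ^ j) * (C * (2 * (1 + j))) := by
          gcongr
          have : (0 : ℝ) ≤ j := by positivity
          linarith
      _ = _ := by rw [hK]; ring
  have hsum : Summable fun j : ℕ => K * (q ^ j * (1 + j)) := by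
    refine Summable.mul_left K ?_
    have h1 : Summable fun j : ℕ => q ^ j := summable_geometric_of_lt_one hq0.le hq1
    have h2 : Summable fun j : ℕ => (j : ℝ) ^ 1 * q ^ j :=
      summable_pow_mul_geometric_of_norm_lt_one 1 (by rwa [Real.norm_of_nonneg hq0.le])
    refine (h1.add h2).congr fun j => ?_
    ring
  have hfin : ∑' j : ℕ, ENNReal.ofReal (K * (q ^ j * (1 + j))) < ⊤ := by
    rw [← ENNReal.ofReal_tsum_of_nonneg (fun j => by positivity) hsum]
    exact ENNReal.ofReal_lt_top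
  refine lt_of_le_of_lt (ring_union hr fun N => ?_) hfin
  exact (ring_step le_rfl hring N).trans (ENNReal.sum_le_tsum _)

/-! ### linear growth of the energy -/

theorem vol_ball {t : ℝ} (ht : 0 ≤ t) : volume (ball (0 : ℂ) t) = ENNReal.ofReal (Real.pi * t ^ 2) := by
  rw [Complex.volume_ball, ← ENNReal.ofReal_pow ht, ← ENNReal.ofReal_coe_nnreal,
    ← ENNReal.ofReal_mul (by positivity)]
  congr 1
  rw [NNReal.coe_real_pi]
  ring

/-- the energy of `m log z` on a ring -/
theorem mz_ring (m : ℕ) {s t : ℝ} (hs : 0 < s) (ht : 0 ≤ t) :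
    ∫⁻ z in ball (0 : ℂ) t \ ball 0 s, ENNReal.ofReal (4 * m ^ 2 / ‖z‖ ^ 2) ≤
      ENNReal.ofReal (4 * m ^ 2 / s ^ 2 * (Real.pi * t ^ 2)) := by
  have hm : MeasurableSet (ball (0 : ℂ) t \ ball 0 s) := measurableSet_ball.diff measurableSet_ball
  calc ∫⁻ z in ball (0 : ℂ) t \ ball 0 s, ENNReal.ofReal (4 * m ^ 2 / ‖z‖ ^ 2)
      ≤ ∫⁻ z in ball (0 : ℂ) t \ ball 0 s, ENNReal.ofReal (4 * m ^ 2 / s ^ 2) := by
        refine setLIntegral_mono' hm fun z hz => ENNReal.ofReal_le_ofReal ?_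
        have h1 : s ≤ ‖z‖ := by
          have := hz.2
          rwa [mem_ball_zero_iff, not_lt] at this
        gcongr
    _ = ENNReal.ofReal (4 * m ^ 2 / s ^ 2) * volume (ball (0 : ℂ) t \ ball 0 s) := by
        rw [setLIntegral_const]
    _ ≤ ENNReal.ofReal (4 * m ^ 2 / s ^ 2) * ENNReal.ofReal (Real.pi * t ^ 2) := by
        gcongr
        rw [← vol_ball ht]
        exact measure_mono sdiff_subset
    _ = _ := by rw [← ENNReal.ofReal_mul (by positivity)]

theorem grow {r Q C α : ℝ} {m : ℕ} {F Fx Fy ℓ : ℂ → ℂ} (h : TW r Q C α m F Fx Fy ℓ) :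
    ∃ E : ℝ, 0 ≤ E ∧ ∀ (N : ℕ) (ρ : ℝ), ρ ≤ r → ∫⁻ z in ball (0 : ℂ) ρ \ ball 0 (r / 2 ^ N),
      ENNReal.ofReal (en (lx m F Fx z) (ly m F Fy z)) ≤ ENNReal.ofReal (E * (1 + N)) := by
  have hr := h.pf.r0
  have hC := h.C0
  refine ⟨2 * C + 16 * m ^ 2 * Real.pi, by positivity, fun N ρ hρ => ?_⟩
  rcases Nat.eq_zero_or_pos N with hN | hN
  · subst hN
    have : ball (0 : ℂ) ρ \ ball 0 (r / 2 ^ 0) = ∅ := by
      rw [pow_zero, div_one]
      exact sdiff_eq_empty.2 (ball_subset_ball hρ)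
    rw [this]
    simp
  have hpos : 0 < r / 2 ^ N := by positivity
  have hlt : r / 2 ^ N < r := by
    apply div_lt_self hr
    exact one_lt_pow₀ one_lt_two (by omega)
  have h1 : ∫⁻ z in ball (0 : ℂ) ρ \ ball 0 (r / 2 ^ N), ENNReal.ofReal (4 * m ^ 2 / ‖z‖ ^ 2) ≤
      ENNReal.ofReal (16 * m ^ 2 * Real.pi * N) := by
    have h2 : ∀ j : ℕ, ∫⁻ z in ball (0 : ℂ) (r / 2 ^ j) \ ball 0 (r / 2 ^ (j + 1)),
        ENNReal.ofReal (4 * m ^ 2 / ‖z‖ ^ 2) ≤ ENNReal.ofReal (16 * m ^ 2 * Real.pi) := by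
      intro j
      refine (mz_ring m (by positivity) (by positivity)).trans (ENNReal.ofReal_le_ofReal ?_)
      apply le_of_eq
      field_simp
      ring
    refine (ring_step hρ h2 N).trans ?_
    rw [Finset.sum_const, Finset.card_range, nsmul_eq_mul, ← ENNReal.ofReal_natCast,
      ← ENNReal.ofReal_mul (by positivity)]
    apply ENNReal.ofReal_le_ofReal
    apply le_of_eq
    ring
  have h2 : ∫⁻ z in ball (0 : ℂ) ρ \ ball 0 (r / 2 ^ N),
      ENNReal.ofReal (2 * (en (Fx z) (Fy z) / ‖F z‖ ^ 2)) ≤ ENNReal.ofReal (2 * C * (1 + N)) := by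
    have h3 : ∀ z, ENNReal.ofReal (2 * (en (Fx z) (Fy z) / ‖F z‖ ^ 2)) =
        ENNReal.ofReal 2 * ENNReal.ofReal (en (Fx z) (Fy z) / ‖F z‖ ^ 2) := fun z =>
      ENNReal.ofReal_mul (by norm_num)
    simp only [h3]
    rw [lintegral_const_mul' _ _ ENNReal.ofReal_ne_top]
    have h4 : ball (0 : ℂ) ρ \ ball 0 (r / 2 ^ N) ⊆ ball (0 : ℂ) r \ ball 0 (r / 2 ^ N) :=
      sdiff_subset_sdiff_left (ball_subset_ball hρ)
    refine (mul_le_mul' le_rfl ((lintegral_mono_set h4).trans (h.enr _ hpos hlt))).trans ?_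
    rw [← ENNReal.ofReal_mul (by norm_num)]
    apply ENNReal.ofReal_le_ofReal
    have h5 : r / (r / 2 ^ N) = 2 ^ N := by field_simp
    rw [h5, Real.log_pow]
    have h6 : Real.log 2 ≤ 1 := by
      have := Real.log_two_lt_d9
      linarith
    have h7 : (N : ℝ) * Real.log 2 ≤ N := by
      have : (0 : ℝ) ≤ N := by positivity
      nlinarith
    nlinarith
  calc ∫⁻ z in ball (0 : ℂ) ρ \ ball 0 (r / 2 ^ N),
        ENNReal.ofReal (en (lx m F Fx z) (ly m F Fy z))
      ≤ ∫⁻ z in ball (0 : ℂ) ρ \ ball 0 (r / 2 ^ N),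
        (ENNReal.ofReal (2 * (en (Fx z) (Fy z) / ‖F z‖ ^ 2)) +
          ENNReal.ofReal (4 * m ^ 2 / ‖z‖ ^ 2)) := by
        refine lintegral_mono fun z => ?_
        refine (ENNReal.ofReal_le_ofReal (e_le m F Fx Fy z)).trans ENNReal.ofReal_add_le
    _ = (∫⁻ z in ball (0 : ℂ) ρ \ ball 0 (r / 2 ^ N),
        ENNReal.ofReal (2 * (en (Fx z) (Fy z) / ‖F z‖ ^ 2))) +
        ∫⁻ z in ball (0 : ℂ) ρ \ ball 0 (r / 2 ^ N), ENNReal.ofReal (4 * m ^ 2 / ‖z‖ ^ 2) := by
        rw [lintegral_add_right]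
        have : Measurable fun z : ℂ => 4 * (m : ℝ) ^ 2 / ‖z‖ ^ 2 :=
          measurable_const.div (measurable_norm.pow_const 2)
        exact this.ennreal_ofReal
    _ ≤ ENNReal.ofReal (2 * C * (1 + N)) + ENNReal.ofReal (16 * m ^ 2 * Real.pi * N) :=
        add_le_add h2 h1
    _ ≤ _ := by
        rw [← ENNReal.ofReal_add (by positivity) (by positivity)]
        apply ENNReal.ofReal_le_ofReal
        have : 0 ≤ 16 * (m : ℝ) ^ 2 * Real.pi := by positivity
        nlinarith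

/-! ### the flux of a gradient -/

theorem flux0 {r : ℝ} {ℓ X Y : ℂ → ℂ} (hw : WD (pun r) ℓ X Y) {ζ : ℂ → ℝ} {c ε : ℝ}
    (hζ : Test (ball 0 r) ζ) (hε : 0 < ε) (hc : ∀ z ∈ ball (0 : ℂ) ε, ζ z = c) :
    Integrable (fun z => fderiv ℝ ζ z 1 * (Y z).im - fderiv ℝ ζ z I * (X z).im) ∧
    ∫ z, (fderiv ℝ ζ z 1 * (Y z).im - fderiv ℝ ζ z I * (X z).im) = 0 := by
  have t1 := PA.test_pun hζ hε hc 1
  have tI := PA.test_pun hζ hε hc I
  have i1 := hw.ix _ tI
  have i2 := hw.iy _ t1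
  have e1 : ∫ z, fderiv ℝ ζ z I • X z = ∫ z, fderiv ℝ ζ z 1 • Y z := by
    have : ∫ z, (fderiv ℝ (fun z => fderiv ℝ ζ z I) z 1) • ℓ z =
        ∫ z, (fderiv ℝ (fun z => fderiv ℝ ζ z 1) z I) • ℓ z := by
      refine integral_congr_ae (Eventually.of_forall fun z => ?_)
      simp only
      rw [PA.symm2 hζ.sm z]
    rw [i1, i2] at this
    exact neg_injective this
  have intX : Integrable (fun z => fderiv ℝ ζ z I • X z) :=
    PA.smul_int hw.lx tI.sm.continuous tI.cs tI.su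
  have intY : Integrable (fun z => fderiv ℝ ζ z 1 • Y z) :=
    PA.smul_int hw.ly t1.sm.continuous t1.cs t1.su
  have e2 : ∫ z, fderiv ℝ ζ z I * (X z).im = ∫ z, fderiv ℝ ζ z 1 * (Y z).im := by
    have h1 := Complex.imCLM.integral_comp_comm intX
    have h2 := Complex.imCLM.integral_comp_comm intY
    rw [e1, ← h2] at h1
    simpa using h1
  have intX' : Integrable (fun z => fderiv ℝ ζ z I * (X z).im) := by
    have := Complex.imCLM.integrable_comp intX
    simpa using this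
  have intY' : Integrable (fun z => fderiv ℝ ζ z 1 * (Y z).im) := by
    have := Complex.imCLM.integrable_comp intY
    simpa using this
  exact ⟨intY'.sub intX', by rw [integral_sub intY' intX', e2, sub_self]⟩

/-- the real part of `ℓ` -/
theorem re_l {r Q : ℝ} {m : ℕ} {F Fx Fy ℓ : ℂ → ℂ} (h : PF r Q m F Fx Fy ℓ) {z : ℂ}
    (hz : z ∈ pun r) : Real.log ‖F z‖ = m * Real.log ‖z‖ + (ℓ z).re := by
  have hz0 : 0 < ‖z‖ := norm_pos_iff.2 hz.2
  rw [h.eq z hz, norm_mul, norm_pow, Complex.norm_exp, Real.log_mul (by positivity)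
    (Real.exp_pos _).ne', Real.log_pow, Real.log_exp]

end TwaM

open TwaM

theorem twcA_main (hL : SpecLWD) (hI : SpecIBP) (hR : SpecROsc) (hC : SpecCut)
    {r Q C α : ℝ} {m : ℕ} {F Fx Fy ℓ : ℂ → ℂ} (h : TW r Q C α m F Fx Fy ℓ) :
    ∃ D : ℝ, 0 < D ∧ ∀ t : ℝ, 0 < t → t ≤ r / 8 →
      ∫ z in ball (0 : ℂ) (r / 4) \ ball 0 t, en ((pun r).indicator (lx m F Fx) z)
        ((pun r).indicator (ly m F Fy) z) ≤
      D + D * ∫ z in ball (0 : ℂ) (2 * t) \ ball 0 (t / 4), en ((pun r).indicator (lx m F Fx) z)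
        ((pun r).indicator (ly m F Fy) z) := by
  obtain ⟨Cc, hCc, hcut⟩ := hC
  obtain ⟨CR, hCR, hRosc⟩ := hR Q h.Q0
  have hr := h.pf.r0
  have hwp := hL r Q m F Fx Fy ℓ h.Q0 h.pf
  have hne := PA.PF.ne h.pf
  set X := (pun r).indicator (lx m F Fx) with hX
  set Y := (pun r).indicator (ly m F Fy) with hY
  set e : ℂ → ℝ := fun z => en (X z) (Y z) with he
  set J : ℂ → ℝ := fun z => jac (X z) (Y z) with hJ
  set W : ℂ → ℝ := fun z => ‖X z + I * Y z‖ ^ 2 with hW
  have he0 : ∀ z, 0 ≤ e z := fun z => PA.en_nonneg _ _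
  have hpm : MeasurableSet (pun r) := (PA.isOpen_pun r).measurableSet
  -- the antiholomorphic part
  have hWm : Measurable W := (hwp.wd.mx.add (hwp.wd.my.const_mul I)).norm.pow_const 2
  have hWi : IntegrableOn W (pun r) := by
    refine ⟨hWm.aestronglyMeasurable, ?_⟩
    rw [hasFiniteIntegral_iff_ofReal (Eventually.of_forall fun z => by positivity)]
    refine lt_of_le_of_lt (le_of_eq ?_) (sumW h)
    refine setLIntegral_congr_fun hpm fun z hz => ?_
    simp only [hW, hX, hY, indicator_of_mem hz]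
  set B : ℝ := ∫ z in pun r, W z with hB
  have hB0 : 0 ≤ B := integral_nonneg fun z => by positivity
  -- the outer cut-off
  obtain ⟨ζo, hζo, hζo01, hζo1, -⟩ := hcut 0 (r / 4) (r / 2) (by positivity) (by linarith)
  have hζo' : Test (ball 0 r) ζo :=
    ⟨hζo.sm, hζo.cs, hζo.su.trans (ball_subset_ball (by linarith))⟩
  obtain ⟨fo1, fo2⟩ := flux0 hwp.wd hζo' (ε := r / 4) (by positivity)
    fun z hz => hζo1 z (ball_subset_closedBall hz)
  set wo : ℂ → ℝ := fun z => fderiv ℝ ζo z 1 * (Y z).im - fderiv ℝ ζo z I * (X z).im with hwo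
  have io1 : Integrable fun z => (ℓ z).re * wo z := by
    have hKc : IsCompact (closedBall (0 : ℂ) (r / 2) \ ball 0 (r / 4)) := PA.ring_compact
    have hKs : closedBall (0 : ℂ) (r / 2) \ ball 0 (r / 4) ⊆ pun r :=
      PA.ring_sub (by positivity) (by linarith)
    have h1 : IntegrableOn (fun z => (ℓ z).re * wo z)
        (closedBall (0 : ℂ) (r / 2) \ ball 0 (r / 4)) := by
      refine fo1.integrableOn.continuousOn_mul ?_ hKc
      exact Complex.continuous_re.comp_continuousOn (h.pf.lc.mono hKs)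
    refine (integrableOn_iff_integrable_of_support_subset ?_).1 h1
    intro z hz
    by_contra hzK
    apply hz
    have h2 : fderiv ℝ ζo z = 0 := by
      by_cases hz1 : z ∈ closedBall (0 : ℂ) (r / 4)
      · exact PA.fd_zero_closedBall hζo.sm (by positivity) hζo1 z hz1
      · refine PA.fd_zero_off fun h3 => hzK ⟨ball_subset_closedBall (hζo.su h3), ?_⟩
        exact fun h4 => hz1 (ball_subset_closedBall h4)
    simp [hwo, h2]
  set Ao : ℝ := ∫ z, (ℓ z).re * wo z with hAo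
  -- the constant
  set D₀ : ℝ := B + 2 * |Ao| + 4 * Real.pi * Cc ^ 2 * (512 * Real.pi * CR * m ^ 2 + 2 * m ^ 2)
    with hD₀
  set D₁ : ℝ := 16 * Real.pi * Cc ^ 2 * CR + 1 with hD₁
  have hD₀0 : 0 ≤ D₀ := by positivity
  have hD₁0 : 1 ≤ D₁ := by
    have : 0 ≤ 16 * Real.pi * Cc ^ 2 * CR := by positivity
    linarith
  refine ⟨D₀ + D₁, by linarith, fun t ht htr => ?_⟩
  set A : Set ℂ := ball (0 : ℂ) (r / 4) \ ball 0 t with hA
  set R : Set ℂ := ball (0 : ℂ) (2 * t) \ ball 0 (t / 4) with hRdef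
  set H : ℝ := ∫ z in R, e z with hH
  have hAm : MeasurableSet A := measurableSet_ball.diff measurableSet_ball
  have hRm : MeasurableSet R := measurableSet_ball.diff measurableSet_ball
  have hRK : R ⊆ closedBall (0 : ℂ) (2 * t) \ ball 0 (t / 4) :=
    sdiff_subset_sdiff_left ball_subset_closedBall
  have hRs : closedBall (0 : ℂ) (2 * t) \ ball 0 (t / 4) ⊆ pun r :=
    PA.ring_sub (by positivity) (by linarith)
  have hRe : IntegrableOn e R := (PA.en_int hwp hRs PA.ring_compact).mono_set hRK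
  have hH0 : 0 ≤ H := integral_nonneg he0
  -- the oscillation of the real part
  set S : Set ℂ := closedBall (0 : ℂ) t \ ball 0 (t / 2) with hS
  have hSm : MeasurableSet S := measurableSet_closedBall.diff measurableSet_ball
  have hSR : S ⊆ R := by
    rintro z ⟨h1, h2⟩
    rw [mem_closedBall_zero_iff] at h1
    rw [mem_ball_zero_iff, not_lt] at h2
    refine ⟨mem_ball_zero_iff.2 (by linarith), ?_⟩
    rw [mem_ball_zero_iff, not_lt]
    linarith
  have hRp : R ⊆ pun r := hRK.trans hRs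
  set osc : ℝ := 2 * CR * (2 * H + 256 * Real.pi * m ^ 2) + 2 * m ^ 2 with hosc
  have hosc0 : 0 ≤ osc := by positivity
  have htn : ‖(t : ℂ)‖ = t := by rw [Complex.norm_real, Real.norm_of_nonneg ht.le]
  have htS : (t : ℂ) ∈ S := by
    refine ⟨by rw [mem_closedBall_zero_iff, htn], ?_⟩
    rw [mem_ball_zero_iff, htn, not_lt]
    linarith
  have hoscz : ∀ z ∈ S, ((ℓ z).re - (ℓ t).re) ^ 2 ≤ osc := by
    intro z hz
    have hz1 : ‖z‖ ≤ t := mem_closedBall_zero_iff.1 hz.1
    have hz2 : t / 2 ≤ ‖z‖ := by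
      have := hz.2
      rwa [mem_ball_zero_iff, not_lt] at this
    have hz0 : 0 < ‖z‖ := by linarith
    have h1 := hRosc r F Fx Fy h.pf.qr hne t ht (by linarith) z t hz2 hz1 (by rw [htn]; linarith)
      (by rw [htn])
    have h2 : ∫ w in ball (0 : ℂ) (2 * t) \ closedBall 0 (t / 4),
        en (Fx w) (Fy w) / ‖F w‖ ^ 2 ≤ 2 * H + 256 * Real.pi * m ^ 2 := by
      set R' : Set ℂ := ball (0 : ℂ) (2 * t) \ closedBall 0 (t / 4) with hR'
      have hR'm : MeasurableSet R' := measurableSet_ball.diff measurableSet_closedBall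
      have hR'R : R' ⊆ R := sdiff_subset_sdiff_right ball_subset_closedBall
      have hXi : IntegrableOn (fun w => en (Fx w) (Fy w) / ‖F w‖ ^ 2) R' :=
        (PA.enF_int h.pf.qr.wp hne hRs PA.ring_compact).mono_set (hR'R.trans hRK)
      have hvol : volume R' ≤ ENNReal.ofReal (Real.pi * (2 * t) ^ 2) := by
        rw [← vol_ball (by positivity)]
        exact measure_mono sdiff_subset
      have hvol' : volume.real R' ≤ Real.pi * (2 * t) ^ 2 := by
        rw [measureReal_def]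
        exact ENNReal.toReal_le_of_le_ofReal (by positivity) hvol
      have hc : IntegrableOn (fun _ : ℂ => 64 * (m : ℝ) ^ 2 / t ^ 2) R' :=
        integrableOn_const (lt_of_le_of_lt hvol ENNReal.ofReal_lt_top).ne
      have hei : IntegrableOn (fun w => 2 * e w) R' := (hRe.mono_set hR'R).const_mul 2
      calc ∫ w in R', en (Fx w) (Fy w) / ‖F w‖ ^ 2
          ≤ ∫ w in R', (2 * e w + 64 * (m : ℝ) ^ 2 / t ^ 2) := by
            refine setIntegral_mono_on hXi (hei.add hc) hR'm fun w hw => ?_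
            have hwp' : w ∈ pun r := hRp (hR'R hw)
            refine (X_le m F Fx Fy w).trans ?_
            simp only [he, hX, hY, indicator_of_mem hwp']
            have h3 : t / 4 ≤ ‖w‖ := by
              have := hw.2
              rw [mem_closedBall_zero_iff, not_le] at this
              exact this.le
            have h4 : 4 * (m : ℝ) ^ 2 / ‖w‖ ^ 2 ≤ 64 * (m : ℝ) ^ 2 / t ^ 2 := by
              have h5 : (t / 4) ^ 2 ≤ ‖w‖ ^ 2 := by gcongr
              calc 4 * (m : ℝ) ^ 2 / ‖w‖ ^ 2 ≤ 4 * (m : ℝ) ^ 2 / (t / 4) ^ 2 := by gcongr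
                _ = 64 * (m : ℝ) ^ 2 / t ^ 2 := by field_simp; ring
            linarith
        _ = 2 * (∫ w in R', e w) + volume.real R' * (64 * (m : ℝ) ^ 2 / t ^ 2) := by
            rw [integral_add hei hc, integral_const_mul, setIntegral_const, smul_eq_mul]
        _ ≤ 2 * H + Real.pi * (2 * t) ^ 2 * (64 * (m : ℝ) ^ 2 / t ^ 2) := by
            have h6 : ∫ w in R', e w ≤ H :=
              setIntegral_mono_set hRe (Eventually.of_forall he0) (Eventually.of_forall hR'R)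
            gcongr
        _ = _ := by field_simp; ring
    have hzp : z ∈ pun r := hRp (hSR hz)
    have htp : (t : ℂ) ∈ pun r := hRp (hSR htS)
    have h3 := re_l h.pf hzp
    have h4 := re_l h.pf htp
    rw [htn] at h4
    have h5 : |Real.log ‖z‖ - Real.log t| ≤ 1 := by
      rw [← Real.log_div hz0.ne' ht.ne', abs_le]
      have h6 : Real.log (‖z‖ / t) ≤ 0 := Real.log_nonpos (by positivity)
        (by rw [div_le_one ht]; exact hz1)
      have h7 : Real.log (1 / 2) ≤ Real.log (‖z‖ / t) := by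
        apply Real.log_le_log (by norm_num)
        rw [le_div_iff₀ ht]
        linarith
      have h8 : Real.log (1 / 2) = - Real.log 2 := by
        rw [one_div, Real.log_inv]
      have h9 := Real.log_two_lt_d9
      constructor <;> linarith
    have h6 : (ℓ z).re - (ℓ t).re = (Real.log ‖F z‖ - Real.log ‖F t‖) -
        m * (Real.log ‖z‖ - Real.log t) := by
      rw [h3, h4]
      ring
    have h7 : (Real.log ‖z‖ - Real.log t) ^ 2 ≤ 1 := by
      rw [← sq_abs]
      exact pow_le_one₀ (abs_nonneg _) h5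
    have h8 : (Real.log ‖F z‖ - Real.log ‖F t‖) ^ 2 ≤
        CR * (2 * H + 256 * Real.pi * m ^ 2) := h1.trans (mul_le_mul_of_nonneg_left h2 hCR)
    rw [h6, hosc]
    have h9 : ((m : ℝ) * (Real.log ‖z‖ - Real.log t)) ^ 2 ≤ m ^ 2 := by
      rw [mul_pow]
      exact mul_le_of_le_one_right (by positivity) h7
    nlinarith [sq_nonneg ((Real.log ‖F z‖ - Real.log ‖F t‖) + m * (Real.log ‖z‖ - Real.log t))]
  -- the inner cut-off
  obtain ⟨ζi, hζi, hζi01, hζi1, hζig⟩ := hcut 0 (t / 2) t (by positivity) (by linarith)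
  have hζi' : Test (ball 0 r) ζi :=
    ⟨hζi.sm, hζi.cs, hζi.su.trans (ball_subset_ball (by linarith))⟩
  set wi : ℂ → ℝ := fun z => fderiv ℝ ζi z 1 * (Y z).im - fderiv ℝ ζi z I * (X z).im with hwi
  set ζ : ℂ → ℝ := fun z => ζo z + (-1) * ζi z with hζdef
  have hζt : Test (ball 0 r) ζ := Wk.tadd hζo' (Wk.tsmul (-1) hζi')
  have hζi0 : ∀ z, z ∉ ball (0 : ℂ) t → ζi z = 0 := fun z hz => by
    by_contra h0
    exact hz (hζi.su (subset_tsupport ζi h0))
  have hζ0 : ∀ z ∈ ball (0 : ℂ) (t / 2), ζ z = 0 := by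
    intro z hz
    simp only [hζdef]
    rw [hζo1 z (by
      have := ball_subset_closedBall hz
      exact closedBall_subset_closedBall (by linarith) this), hζi1 z (ball_subset_closedBall hz)]
    norm_num
  have hζA : ∀ z ∈ A, ζ z = 1 := by
    intro z hz
    simp only [hζdef]
    rw [hζo1 z (ball_subset_closedBall hz.1), hζi0 z hz.2]
    norm_num
  have hζnn : ∀ z, 0 ≤ ζ z ∧ ζ z ≤ 1 := by
    intro z
    simp only [hζdef]
    by_cases hz : z ∈ ball (0 : ℂ) t
    · rw [hζo1 z (by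
        have := ball_subset_closedBall hz
        exact closedBall_subset_closedBall (by linarith) this)]
      have := hζi01 z
      constructor <;> linarith
    · rw [hζi0 z hz]
      have := hζo01 z
      constructor <;> linarith
  have hζpun : Test (pun r) ζ := by
    refine ⟨hζt.sm, hζt.cs, fun z hz => ⟨hζt.su hz, ?_⟩⟩
    rintro (rfl : z = 0)
    rw [tsupport, mem_closure_iff_frequently] at hz
    refine hz ?_
    filter_upwards [isOpen_ball.mem_nhds (mem_ball_self (show (0 : ℝ) < t / 2 by positivity))]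
      with w hw
    simpa using hζ0 w hw
  have hfd : ∀ z v, fderiv ℝ ζ z v = fderiv ℝ ζo z v - fderiv ℝ ζi z v := by
    intro z v
    have h1 := Wk.tdif hζo z
    have h2 := Wk.tdif hζi z
    have h3 : HasFDerivAt ζ (fderiv ℝ ζo z + (-1 : ℝ) • fderiv ℝ ζi z) z :=
      h1.hasFDerivAt.add (h2.hasFDerivAt.const_mul (-1))
    rw [h3.fderiv]
    simp
    ring
  obtain ⟨i1, i2, i3⟩ := hI (pun r) 2 2 ℓ X Y one_lt_two one_lt_two (by norm_num) hwp univ
    (fun u => u - (ℓ t).re) (fun _ => 1) isOpen_univ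
    (fun u _ => (hasDerivAt_id u).sub_const _) continuousOn_const (fun _ _ => mem_univ _) ζ hζpun
  simp only [mul_one, hfd] at i1 i2 i3
  have hsplit : ∀ z, ((ℓ z).re - (ℓ t).re) * ((fderiv ℝ ζo z 1 - fderiv ℝ ζi z 1) * (Y z).im -
      (fderiv ℝ ζo z I - fderiv ℝ ζi z I) * (X z).im) =
      ((ℓ z).re * wo z - (ℓ t).re * wo z) - ((ℓ z).re - (ℓ t).re) * wi z := by
    intro z
    simp only [hwo, hwi]
    ring
  simp only [hsplit] at i2 i3
  have io2 : Integrable fun z => (ℓ t).re * wo z := fo1.const_mul _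
  have io3 : Integrable fun z => (ℓ z).re * wo z - (ℓ t).re * wo z := io1.sub io2
  have ii : Integrable fun z => ((ℓ z).re - (ℓ t).re) * wi z := by
    refine (io3.sub i2).congr (Eventually.of_forall fun z => ?_)
    simp
  rw [integral_sub io3 ii, integral_sub io1 io2, integral_const_mul, fo2, mul_zero, sub_zero] at i3
  -- the inner term
  have hSfin : volume S ≤ ENNReal.ofReal (Real.pi * t ^ 2) := by
    have h1 : volume (closedBall (0 : ℂ) t) = ENNReal.ofReal (Real.pi * t ^ 2) := by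
      rw [Complex.volume_closedBall, ← ENNReal.ofReal_pow ht.le, ← ENNReal.ofReal_coe_nnreal,
        ← ENNReal.ofReal_mul (by positivity)]
      congr 1
      rw [NNReal.coe_real_pi]
      ring
    rw [← h1]
    exact measure_mono sdiff_subset
  have hSr : volume.real S ≤ Real.pi * t ^ 2 := by
    rw [measureReal_def]
    exact ENNReal.toReal_le_of_le_ofReal (by positivity) hSfin
  have hSe : IntegrableOn e S := hRe.mono_set hSR
  have hbd : |∫ z, ((ℓ z).re - (ℓ t).re) * wi z| ≤ 2 * Real.pi * Cc ^ 2 * osc + 1 / 2 * H := by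
    have hpw : ∀ z, ‖((ℓ z).re - (ℓ t).re) * wi z‖ ≤
        S.indicator (fun z => 1 / 2 * (osc * (2 * Cc / t) ^ 2) + 1 / 2 * e z) z := by
      intro z
      by_cases hz : z ∈ S
      · rw [indicator_of_mem hz, Real.norm_eq_abs]
        have h1 := hoscz z hz
        have h2 := PA.amgm (((ℓ z).re - (ℓ t).re) * fderiv ℝ ζi z 1)
          (((ℓ z).re - (ℓ t).re) * fderiv ℝ ζi z I) (Y z).im (X z).im 1 one_pos
        have h3 : ((ℓ z).re - (ℓ t).re) * wi z =
            ((ℓ z).re - (ℓ t).re) * fderiv ℝ ζi z 1 * (Y z).im -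
            ((ℓ z).re - (ℓ t).re) * fderiv ℝ ζi z I * (X z).im := by
          simp only [hwi]
          ring
        rw [h3]
        refine h2.trans ?_
        have h4 : (((ℓ z).re - (ℓ t).re) * fderiv ℝ ζi z 1) ^ 2 +
            (((ℓ z).re - (ℓ t).re) * fderiv ℝ ζi z I) ^ 2 =
            ((ℓ z).re - (ℓ t).re) ^ 2 * gz ζi z := by
          simp only [gz]
          ring
        have h5 : gz ζi z ≤ (2 * Cc / t) ^ 2 := by
          have := hζig z
          have h6 : Cc / (t - t / 2) = 2 * Cc / t := by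
            field_simp
            ring
          rwa [h6] at this
        have h6 : 0 ≤ gz ζi z := by
          simp only [gz]
          positivity
        have h7 : (Y z).im ^ 2 + (X z).im ^ 2 ≤ e z := by
          simp only [he, en, PA.normsq]
          nlinarith [sq_nonneg (X z).re, sq_nonneg (Y z).re]
        rw [h4]
        have h8 : ((ℓ z).re - (ℓ t).re) ^ 2 * gz ζi z ≤ osc * (2 * Cc / t) ^ 2 :=
          mul_le_mul h1 h5 h6 hosc0
        linarith
      · rw [indicator_of_notMem hz]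
        have h2 : fderiv ℝ ζi z = 0 := by
          by_cases hz1 : z ∈ closedBall (0 : ℂ) (t / 2)
          · exact PA.fd_zero_closedBall hζi.sm (by positivity) hζi1 z hz1
          · refine PA.fd_zero_off fun h3 => hz ⟨ball_subset_closedBall (hζi.su h3), ?_⟩
            exact fun h4 => hz1 (ball_subset_closedBall h4)
        simp [hwi, h2]
    have hci : IntegrableOn (fun _ : ℂ => 1 / 2 * (osc * (2 * Cc / t) ^ 2)) S :=
      integrableOn_const (lt_of_le_of_lt hSfin ENNReal.ofReal_lt_top).ne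
    have hgi : IntegrableOn (fun z => 1 / 2 * (osc * (2 * Cc / t) ^ 2) + 1 / 2 * e z) S :=
      hci.add (hSe.const_mul _)
    rw [← Real.norm_eq_abs]
    refine (norm_integral_le_of_norm_le ((integrable_indicator_iff hSm).2 hgi)
      (Eventually.of_forall hpw)).trans ?_
    rw [integral_indicator hSm, integral_add hci (hSe.const_mul _), setIntegral_const,
      integral_const_mul, smul_eq_mul]
    have h1 : ∫ z in S, e z ≤ H :=
      setIntegral_mono_set hRe (Eventually.of_forall he0) (Eventually.of_forall hSR)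
    have h2 : volume.real S * (1 / 2 * (osc * (2 * Cc / t) ^ 2)) ≤
        Real.pi * t ^ 2 * (1 / 2 * (osc * (2 * Cc / t) ^ 2)) := by gcongr
    have h3 : Real.pi * t ^ 2 * (1 / 2 * (osc * (2 * Cc / t) ^ 2)) =
        2 * Real.pi * Cc ^ 2 * osc := by
      field_simp
    linarith
  -- the energy
  have hζe : Integrable fun z => ζ z * e z := by
    have h1 : IntegrableOn e (tsupport ζ) := PA.en_int hwp hζpun.su hζpun.cs
    have h2 : IntegrableOn (fun z => ζ z * e z) (tsupport ζ) :=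
      h1.continuousOn_mul hζpun.sm.continuous.continuousOn hζpun.cs
    refine (integrableOn_iff_integrable_of_support_subset ?_).1 h2
    intro z hz
    refine subset_tsupport ζ fun h0 => hz ?_
    simp [h0]
  have heJW : ∀ z, e z = 2 * J z + W z := fun z => en_jac (X z) (Y z)
  have hζW : Integrable fun z => ζ z * W z := by
    refine (hζe.sub (i1.const_mul 2)).congr (Eventually.of_forall fun z => ?_)
    simp only [Pi.sub_apply, heJW]
    ring
  have h1 : ∫ z in A, e z ≤ ∫ z, ζ z * e z := by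
    rw [← integral_indicator hAm]
    have hAe : IntegrableOn e A := by
      refine (PA.en_int (K := closedBall (0 : ℂ) (r / 4) \ ball 0 t) hwp
        (PA.ring_sub ht (by linarith)) PA.ring_compact).mono_set ?_
      exact sdiff_subset_sdiff_left ball_subset_closedBall
    refine integral_mono ((integrable_indicator_iff hAm).2 hAe) hζe fun z => ?_
    by_cases hz : z ∈ A
    · simp only [indicator_of_mem hz, hζA z hz, one_mul, le_refl]
    · simp only [indicator_of_notMem hz]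
      exact mul_nonneg (hζnn z).1 (he0 z)
  have h2 : ∫ z, ζ z * e z = 2 * (∫ z, ζ z * J z) + ∫ z, ζ z * W z := by
    rw [← integral_const_mul, ← integral_add (i1.const_mul 2) hζW]
    refine integral_congr_ae (Eventually.of_forall fun z => ?_)
    simp only [heJW]
    ring
  have h3 : ∫ z, ζ z * W z ≤ B := by
    rw [hB, ← integral_indicator hpm]
    refine integral_mono hζW ((integrable_indicator_iff hpm).2 hWi) fun z => ?_
    have hW0 : 0 ≤ W z := by positivity
    by_cases hz : z ∈ pun r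
    · simp only [indicator_of_mem hz]
      exact mul_le_of_le_one_left hW0 (hζnn z).2
    · simp only [indicator_of_notMem hz]
      have : ζ z = 0 := by
        by_contra h0
        exact hz (hζpun.su (subset_tsupport ζ h0))
      rw [this, zero_mul]
  have h4 : 2 * (∫ z, ζ z * J z) ≤ 2 * |Ao| + 2 * (2 * Real.pi * Cc ^ 2 * osc + 1 / 2 * H) := by
    rw [i3]
    have h5 := neg_abs_le Ao
    have h6 := le_abs_self (∫ z, ((ℓ z).re - (ℓ t).re) * wi z)
    linarith
  have h5 : 4 * Real.pi * Cc ^ 2 * osc = 16 * Real.pi * Cc ^ 2 * CR * H +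
      4 * Real.pi * Cc ^ 2 * (512 * Real.pi * CR * m ^ 2 + 2 * m ^ 2) := by
    rw [hosc]
    ring
  have h6 : ∫ z in A, e z ≤ D₀ + D₁ * H := by
    rw [hD₀, hD₁]
    linarith
  have h7 : D₀ + D₁ * H ≤ D₀ + D₁ + (D₀ + D₁) * H := by nlinarith
  exact h6.trans h7

theorem specTwcA (hL : SpecLWD) (hI : SpecIBP) (hR : SpecROsc) (hC : SpecCut) : SpecTwcA := by
  intro r Q C α m F Fx Fy ℓ h
  have hr := h.pf.r0
  obtain ⟨D, hD, hmain⟩ := twcA_main hL hI hR hC h
  obtain ⟨E, hE, hgrow⟩ := grow h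
  have hwp := hL r Q m F Fx Fy ℓ h.Q0 h.pf
  set X := (pun r).indicator (lx m F Fx) with hX
  set Y := (pun r).indicator (ly m F Fy) with hY
  set e : ℂ → ℝ := fun z => en (X z) (Y z) with he
  have he0 : ∀ z, 0 ≤ e z := fun z => PA.en_nonneg _ _
  have hem : Measurable e := by
    simp only [he, en]
    exact (hwp.wd.mx.norm.pow_const 2).add (hwp.wd.my.norm.pow_const 2)
  set A : ℕ → Set ℂ := fun N => ball (0 : ℂ) (r / 4) \ ball 0 (r / 2 ^ N) with hA
  have hAm : ∀ N, MeasurableSet (A N) := fun N => measurableSet_ball.diff measurableSet_ball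
  have hAp : ∀ N, A N ⊆ pun r := by
    intro N z hz
    refine ⟨ball_subset_ball (by linarith) hz.1, ?_⟩
    rintro (rfl : z = 0)
    exact hz.2 (mem_ball_self (by positivity))
  have hAi : ∀ N, IntegrableOn e (A N) := by
    intro N
    refine (PA.en_int (K := closedBall (0 : ℂ) (r / 4) \ ball 0 (r / 2 ^ N)) hwp
      (PA.ring_sub (by positivity) (by linarith)) PA.ring_compact).mono_set ?_
    exact sdiff_subset_sdiff_left ball_subset_closedBall
  have hAmono : ∀ N M, N ≤ M → A N ⊆ A M := by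
    intro N M hNM
    refine sdiff_subset_sdiff_right (ball_subset_ball ?_)
    have : (2 : ℝ) ^ N ≤ 2 ^ M := pow_le_pow_right₀ one_le_two hNM
    gcongr
  set a : ℕ → ℝ := fun N => ∫ z in A N, e z with ha
  have hle : ∀ N, ∫⁻ z in A N, ENNReal.ofReal (e z) ≤ ENNReal.ofReal (E * (1 + N)) := by
    intro N
    refine le_trans (le_of_eq ?_) (hgrow N (r / 4) (by linarith))
    refine setLIntegral_congr_fun (hAm N) fun z hz => ?_
    simp only [he, hX, hY, indicator_of_mem (hAp N hz)]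
  have hgr : ∀ N, a N ≤ E * (1 + N) := by
    intro N
    simp only [ha]
    rw [integral_eq_lintegral_of_nonneg_ae (Eventually.of_forall he0) hem.aestronglyMeasurable]
    exact ENNReal.toReal_le_of_le_ofReal (by positivity) (hle N)
  have hmono : Monotone a := fun N M hNM =>
    setIntegral_mono_set (hAi M) (Eventually.of_forall he0)
      (Eventually.of_forall (hAmono N M hNM))
  have hrec : ∀ N, a (N + 1) ≤ D + D * (a (N + 3) - a N) := by
    intro N
    have hdiff : 0 ≤ a (N + 3) - a N := sub_nonneg.2 (hmono (by omega))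
    rcases Nat.lt_or_ge N 2 with hN | hN
    · -- the ring is empty
      have hemp : A (N + 1) = ∅ := by
        simp only [hA]
        refine sdiff_eq_empty.2 (ball_subset_ball ?_)
        have h1 : (2 : ℝ) ^ (N + 1) ≤ 2 ^ 2 := pow_le_pow_right₀ one_le_two (by omega)
        have h2 : (2 : ℝ) ^ 2 = 4 := by norm_num
        rw [h2] at h1
        gcongr
      have : a (N + 1) = 0 := by simp [ha, hemp]
      rw [this]
      positivity
    · have h0 : 0 < r / 2 ^ (N + 1) := by positivity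
      have h1 : r / 2 ^ (N + 1) ≤ r / 8 := by
        have h1 : (2 : ℝ) ^ 3 ≤ 2 ^ (N + 1) := pow_le_pow_right₀ one_le_two (by omega)
        have h2 : (2 : ℝ) ^ 3 = 8 := by norm_num
        rw [h2] at h1
        gcongr
      have h2 := hmain _ h0 h1
      have h3 : 2 * (r / 2 ^ (N + 1)) = r / 2 ^ N := by
        rw [pow_succ]
        field_simp
      have h4 : r / 2 ^ (N + 1) / 4 = r / 2 ^ (N + 3) := by
        rw [pow_succ, pow_succ, pow_succ, pow_succ]
        field_simp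
        ring
      rw [h3, h4] at h2
      have h5 : a (N + 3) = a N + ∫ z in ball (0 : ℂ) (r / 2 ^ N) \ ball 0 (r / 2 ^ (N + 3)), e z := by
        have hU : A (N + 3) = A N ∪ (ball (0 : ℂ) (r / 2 ^ N) \ ball 0 (r / 2 ^ (N + 3))) := by
          ext z
          simp only [hA, mem_union, Set.mem_sdiff, mem_ball_zero_iff, not_lt]
          have hp : r / 2 ^ (N + 3) ≤ r / 2 ^ N := by
            have : (2 : ℝ) ^ N ≤ 2 ^ (N + 3) := pow_le_pow_right₀ one_le_two (by omega)
            gcongr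
          have hq : r / 2 ^ N ≤ r / 4 := by
            have h1 : (2 : ℝ) ^ 2 ≤ 2 ^ N := pow_le_pow_right₀ one_le_two hN
            have h2 : (2 : ℝ) ^ 2 = 4 := by norm_num
            rw [h2] at h1
            gcongr
          constructor
          · rintro ⟨h6, h7⟩
            rcases lt_or_ge ‖z‖ (r / 2 ^ N) with h8 | h8
            · exact Or.inr ⟨h8, h7⟩
            · exact Or.inl ⟨h6, h8⟩
          · rintro (⟨h6, h7⟩ | ⟨h6, h7⟩)
            · exact ⟨h6, hp.trans h7⟩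
            · exact ⟨h6.trans_le hq, h7⟩
        have hdis : Disjoint (A N) (ball (0 : ℂ) (r / 2 ^ N) \ ball 0 (r / 2 ^ (N + 3))) := by
          rw [Set.disjoint_left]
          rintro z ⟨-, h7⟩ ⟨h8, -⟩
          exact h7 h8
        have hi := hAi (N + 3)
        rw [hU] at hi
        simp only [ha]
        rw [hU, setIntegral_union hdis (measurableSet_ball.diff measurableSet_ball)
          (hAi N) (hi.mono_set subset_union_right)]
      have h6 : a (N + 3) - a N =
          ∫ z in ball (0 : ℂ) (r / 2 ^ N) \ ball 0 (r / 2 ^ (N + 3)), e z := by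
        rw [h5]
        ring
      rw [h6]
      exact h2
  have hbdd := seq_bdd hD hmono hrec hgr
  refine ⟨r / 4, by positivity, by linarith, ?_⟩
  have hfin : ∫⁻ z in pun (r / 4), ENNReal.ofReal (e z) ≤ ENNReal.ofReal D := by
    refine ring_union hr fun N => ?_
    have h1 := hAi N
    change ∫⁻ z in A N, ENNReal.ofReal (e z) ≤ ENNReal.ofReal D
    rw [← ofReal_integral_eq_lintegral_ofReal h1 (Eventually.of_forall he0)]
    exact ENNReal.ofReal_le_ofReal (hbdd N)
  refine lt_of_le_of_lt (le_of_eq ?_) (lt_of_le_of_lt hfin ENNReal.ofReal_lt_top)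
  refine setLIntegral_congr_fun (PA.isOpen_pun _).measurableSet fun z hz => ?_
  have : z ∈ pun r := Base.pun_mono (by linarith) hz
  simp only [he, hX, hY, indicator_of_mem this]

end MPfa.Reg
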