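import Pool.Agent.Lib.MP_fa0334_an.RegSpec
import Pool.Agent.Lib.MP_fa0334_an.RegDQ
import Pool.Agent.Lib.MP_fa0334_an.Bump
import Pool.Agent.Lib.MP_fa0334_an.RegMax
import Pool.Agent.Lib.MP_fa0334_an.Mu

section
/-!
Modules AFUN and CALG: the vector field and the pointwise relation.
-/
set_option autoImplicit false

open MeasureTheory Set Filter Topology Metric Complex
open scoped ContDiff ENNReal ComplexConjugate

namespace MPfa.Reg
namespace AfM

lemma Af_re (kf : ℝ → ℝ) (X : ℂ) : (Af kf X).re = kf ‖X‖ * X.re := by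
  simp [Af]

lemma Af_im (kf : ℝ → ℝ) (X : ℂ) : (Af kf X).im = kf ‖X‖ * X.im := by
  simp [Af]

lemma nsq (X : ℂ) : ‖X‖ ^ 2 = X.re ^ 2 + X.im ^ 2 := by
  rw [Complex.sq_norm, Complex.normSq_apply]; ring

lemma aux {p : ℝ} {kf : ℝ → ℝ} (hk : KF p kf) {C : ℝ}
    (hlip : ∀ s t, 0 ≤ s → s ≤ t → (kf t - kf s) * t ≤ C * kf t * (t - s)) {X Y : ℂ}
    (h : ‖Y‖ ≤ ‖X‖) :
    ‖Af kf X - Af kf Y‖ ≤ max 1 C * (kf ‖X‖ + kf ‖Y‖) * ‖X - Y‖ := by
  have h1 : Af kf X - Af kf Y = (kf ‖Y‖ : ℂ) * (X - Y) + ((kf ‖X‖ - kf ‖Y‖ : ℝ) : ℂ) * X := by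
    unfold Af; push_cast; ring
  have hX := hk.one ‖X‖ (norm_nonneg _)
  have hY := hk.one ‖Y‖ (norm_nonneg _)
  have hm := hk.mono ‖Y‖ ‖X‖ (norm_nonneg _) h
  rw [h1]
  refine (norm_add_le _ _).trans ?_
  rw [norm_mul, norm_mul, Complex.norm_real, Complex.norm_real, Real.norm_of_nonneg (by linarith),
    Real.norm_of_nonneg (by linarith)]
  have h2 := hlip ‖Y‖ ‖X‖ (norm_nonneg _) h
  have h3 : ‖X‖ - ‖Y‖ ≤ ‖X - Y‖ := norm_sub_norm_le X Y
  have h4 : C * kf ‖X‖ * (‖X‖ - ‖Y‖) ≤ max 1 C * kf ‖X‖ * ‖X - Y‖ := by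
    have h5 : C * (kf ‖X‖ * (‖X‖ - ‖Y‖)) ≤ max 1 C * (kf ‖X‖ * (‖X‖ - ‖Y‖)) :=
      mul_le_mul_of_nonneg_right (le_max_right _ _) (mul_nonneg (by linarith) (by linarith))
    have h6 : max 1 C * kf ‖X‖ * (‖X‖ - ‖Y‖) ≤ max 1 C * kf ‖X‖ * ‖X - Y‖ :=
      mul_le_mul_of_nonneg_left h3 (mul_nonneg (le_trans zero_le_one (le_max_left _ _))
        (by linarith))
    nlinarith
  have h7 : kf ‖Y‖ * ‖X - Y‖ ≤ max 1 C * kf ‖Y‖ * ‖X - Y‖ := by
    have h8 : 1 * (kf ‖Y‖ * ‖X - Y‖) ≤ max 1 C * (kf ‖Y‖ * ‖X - Y‖) :=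
      mul_le_mul_of_nonneg_right (le_max_left _ _) (mul_nonneg (by linarith) (norm_nonneg _))
    linarith
  nlinarith

lemma gi_iff (kf : ℝ → ℝ) (a b : ℂ) : gi a b = I * Af kf (gr a b) ↔
    (a.im = -(kf ‖gr a b‖ * b.re) ∧ b.im = kf ‖gr a b‖ * a.re) := by
  have h1 : (I * Af kf (gr a b)).re = -(kf ‖gr a b‖ * b.re) := by
    rw [Complex.mul_re, Af_re, Af_im]; simp [gr]
  have h2 : (I * Af kf (gr a b)).im = kf ‖gr a b‖ * a.re := by
    rw [Complex.mul_im, Af_re, Af_im]; simp [gr]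
  constructor
  · intro h
    have h3 := congrArg Complex.re h
    have h4 := congrArg Complex.im h
    rw [h1] at h3
    rw [h2] at h4
    exact ⟨h3, h4⟩
  · rintro ⟨h3, h4⟩
    apply Complex.ext
    · rw [h1]; exact h3
    · rw [h2]; exact h4

end AfM

open AfM in
theorem specAf : SpecAf := by
  intro p kf hp hk
  obtain ⟨C, hC, hlip⟩ := hk.lip
  refine ⟨max 1 C, le_max_left _ _, fun X Y => ⟨?_, ?_⟩⟩
  · have h1 : (conj (X - Y) * (Af kf X - Af kf Y)).re = (X.re - Y.re) *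
        (kf ‖X‖ * X.re - kf ‖Y‖ * Y.re) + (X.im - Y.im) * (kf ‖X‖ * X.im - kf ‖Y‖ * Y.im) := by
      rw [Complex.mul_re, Complex.sub_re, Complex.sub_im, Af_re, Af_re, Af_im, Af_im]
      simp
      ring
    rw [h1, nsq]
    have h2 : 0 ≤ (kf ‖X‖ - kf ‖Y‖) * (‖X‖ ^ 2 - ‖Y‖ ^ 2) := by
      rcases le_total ‖X‖ ‖Y‖ with h | h
      · have h3 := hk.mono _ _ (norm_nonneg _) h
        have h4 : ‖X‖ ^ 2 ≤ ‖Y‖ ^ 2 := by gcongr
        nlinarith
      · have h3 := hk.mono _ _ (norm_nonneg _) h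
        have h4 : ‖Y‖ ^ 2 ≤ ‖X‖ ^ 2 := by gcongr
        exact mul_nonneg (by linarith) (by linarith)
    rw [nsq X, nsq Y] at h2
    simp only [Complex.sub_re, Complex.sub_im]
    nlinarith
  · rcases le_total ‖Y‖ ‖X‖ with h | h
    · exact aux hk hlip h
    · have h1 := aux hk hlip h
      rw [norm_sub_rev, norm_sub_rev X Y, add_comm (kf ‖X‖)]
      exact h1

open AfM in
theorem specCAlg : SpecCAlg := by
  intro p kf hp hk a b
  have key : gr a b ≠ 0 → gi a b = I * Af kf (gr a b) →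
      KK a b = (1 + kf ‖gr a b‖ ^ 2) / (2 * kf ‖gr a b‖) ∧ kf ‖gr a b‖ ≤ 2 * KK a b ∧
      jac a b = kf ‖gr a b‖ * ‖gr a b‖ ^ 2 ∧
      ‖a + I * b‖ ≤ (kf ‖gr a b‖ ^ 2 - 1) * ‖a - I * b‖ := by
    intro h0 h
    obtain ⟨h1, h2⟩ := (gi_iff kf a b).1 h
    have hs : 0 < ‖gr a b‖ := norm_pos_iff.2 h0
    have hss : ‖gr a b‖ ^ 2 = a.re ^ 2 + b.re ^ 2 := nsq _
    have hk1 := hk.one ‖gr a b‖ hs.le
    set k := kf ‖gr a b‖ with hkdef
    set s := ‖gr a b‖ with hsdef
    have hk0 : 0 < k := by linarith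
    have hj : jac a b = k * s ^ 2 := by
      unfold jac; rw [h1, h2, hss]; ring
    have hjp : 0 < jac a b := by rw [hj]; positivity
    have hn : n2 a b = (1 + k ^ 2) * s ^ 2 / 2 := by
      unfold n2; rw [nsq a, nsq b, h1, h2, hss]; ring
    have hK : KK a b = (1 + k ^ 2) / (2 * k) := by
      unfold KK; rw [if_pos hjp, hn, hj]; field_simp
    refine ⟨hK, ?_, hj, ?_⟩
    · rw [hK]
      have : 2 * ((1 + k ^ 2) / (2 * k)) = (1 + k ^ 2) / k := by field_simp
      rw [this, le_div_iff₀ hk0]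
      nlinarith
    · have h3 : a + I * b = ((1 - k : ℝ) : ℂ) * gr a b := by
        apply Complex.ext
        · simp [gr, h2]; ring
        · simp [gr, h1]; ring
      have h4 : a - I * b = ((1 + k : ℝ) : ℂ) * conj (gr a b) := by
        apply Complex.ext
        · simp [gr, h2]; ring
        · simp [gr, h1]; ring
      rw [h3, h4, norm_mul, norm_mul, Complex.norm_real, Complex.norm_real, RCLike.norm_conj,
        Real.norm_of_nonpos (by linarith), Real.norm_of_nonneg (by linarith)]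
      have h5 : 0 ≤ (k - 1) * s := mul_nonneg (by linarith) hs.le
      have h6 : (k ^ 2 - 1) * ((1 + k) * s) - -(1 - k) * s = (k - 1) * s * ((1 + k) ^ 2 - 1) := by
        ring
      have h7 : 0 ≤ (k - 1) * s * ((1 + k) ^ 2 - 1) := mul_nonneg h5 (by nlinarith)
      change -(1 - k) * s ≤ (k ^ 2 - 1) * ((1 + k) * s)
      linarith
  refine ⟨⟨?_, ?_⟩, key⟩
  · rintro ⟨hj, he⟩
    have hKp : 0 < KK a b := by
      unfold KK; rw [if_pos hj]
      have : 0 < n2 a b := by
        unfold n2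
        have : a ≠ 0 ∨ b ≠ 0 := by
          by_contra hcon
          push Not at hcon
          rw [hcon.1, hcon.2] at hj
          simp [jac] at hj
        rcases this with h | h
        · have := norm_pos_iff.2 h; positivity
        · have := norm_pos_iff.2 h; positivity
      positivity
    have hW : 0 < KK a b ^ (p - 1) := Real.rpow_pos_of_pos hKp _
    have h0 : gr a b ≠ 0 := by
      intro h
      have h1 : a.re = 0 := congrArg Complex.re h
      have h2 : b.re = 0 := congrArg Complex.im h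
      unfold jac at hj; rw [h1, h2] at hj; simp at hj
    have hs : 0 < ‖gr a b‖ := norm_pos_iff.2 h0
    have hss : ‖gr a b‖ ^ 2 = a.re ^ 2 + b.re ^ 2 := nsq _
    -- real and imaginary parts
    have hre : KK a b ^ (p - 1) * (a.re ^ 2 - a.im ^ 2 + (b.re ^ 2 - b.im ^ 2)) =
        -(jac a b) ^ 2 := by
      have h1 := congrArg Complex.re he
      rw [Complex.re_ofReal_mul] at h1
      have h2 : (a ^ 2 + b ^ 2).re = a.re ^ 2 - a.im ^ 2 + (b.re ^ 2 - b.im ^ 2) := by
        simp only [sq, Complex.add_re, Complex.mul_re]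
      have h3 : (-(jac a b : ℂ) ^ 2).re = -(jac a b) ^ 2 := by
        rw [← Complex.ofReal_pow, ← Complex.ofReal_neg, Complex.ofReal_re]
      rw [h2, h3] at h1
      exact h1
    have him : a.re * a.im + b.re * b.im = 0 := by
      have h1 := congrArg Complex.im he
      rw [Complex.im_ofReal_mul] at h1
      have h2 : (a ^ 2 + b ^ 2).im = 2 * (a.re * a.im + b.re * b.im) := by
        simp only [sq, Complex.add_im, Complex.mul_im]; ring
      have h3 : (-(jac a b : ℂ) ^ 2).im = 0 := by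
        rw [← Complex.ofReal_pow, ← Complex.ofReal_neg, Complex.ofReal_im]
      rw [h2, h3] at h1
      rcases mul_eq_zero.1 h1 with h4 | h4
      · exact absurd h4 hW.ne'
      · linarith
    set s := ‖gr a b‖ with hsdef
    set l := jac a b / s ^ 2 with hl
    have hl0 : 0 < l := by positivity
    have hjl : jac a b = l * s ^ 2 := by rw [hl]; field_simp
    have hj' : a.re * b.im - a.im * b.re = l * s ^ 2 := hjl
    have hs2 : 0 < s ^ 2 := by positivity
    have h1 : a.im = -(l * b.re) := by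
      have h2 : s ^ 2 * a.im = s ^ 2 * (-(l * b.re)) := by
        have h3 : s ^ 2 * (-(l * b.re)) = -(l * s ^ 2) * b.re := by ring
        rw [h3, ← hj', hss]
        linear_combination (a.re) * him
      exact mul_left_cancel₀ hs2.ne' h2
    have h2 : b.im = l * a.re := by
      have h2 : s ^ 2 * b.im = s ^ 2 * (l * a.re) := by
        have h3 : s ^ 2 * (l * a.re) = (l * s ^ 2) * a.re := by ring
        rw [h3, ← hj', hss]
        linear_combination (b.re) * him
      exact mul_left_cancel₀ hs2.ne' h2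
    have hn : n2 a b = (1 + l ^ 2) * s ^ 2 / 2 := by
      unfold n2; rw [nsq a, nsq b, h1, h2, hss]; ring
    have hK : KK a b = (1 + l ^ 2) / (2 * l) := by
      unfold KK; rw [if_pos hj, hn, hjl]; field_simp
    have h3 : KK a b ^ (p - 1) * (l ^ 2 - 1) = l ^ 2 * s ^ 2 := by
      have h4 : KK a b ^ (p - 1) * (s ^ 2 * (1 - l ^ 2)) = -(l * s ^ 2) ^ 2 := by
        rw [← hjl, ← hre, h1, h2, hss]; ring
      have h5 : s ^ 2 * (KK a b ^ (p - 1) * (l ^ 2 - 1)) = s ^ 2 * (l ^ 2 * s ^ 2) := by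
        linear_combination -h4
      exact mul_left_cancel₀ hs2.ne' h5
    have hl1 : 1 < l := by
      have h4 : 0 < KK a b ^ (p - 1) * (l ^ 2 - 1) := by rw [h3]; positivity
      have h5 : 0 < l ^ 2 - 1 := by
        by_contra hcon
        push Not at hcon
        nlinarith
      nlinarith
    have hsig : sig p l = s ^ 2 := by
      unfold sig
      rw [← hK]
      have : (l ^ 2 - 1) / l ^ 2 * KK a b ^ (p - 1) = (KK a b ^ (p - 1) * (l ^ 2 - 1)) / l ^ 2 := by
        ring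
      rw [this, h3]
      field_simp
    have hlk : l = kf s := hk.uniq l s hl1.le hs.le hsig
    refine ⟨h0, (gi_iff kf a b).2 ⟨?_, ?_⟩⟩
    · rw [← hsdef, ← hlk]; exact h1
    · rw [← hsdef, ← hlk]; exact h2
  · rintro ⟨h0, h⟩
    obtain ⟨hK, -, hj, -⟩ := key h0 h
    obtain ⟨h1, h2⟩ := (gi_iff kf a b).1 h
    have hs : 0 < ‖gr a b‖ := norm_pos_iff.2 h0
    have hss : ‖gr a b‖ ^ 2 = a.re ^ 2 + b.re ^ 2 := nsq _
    have hk1 := hk.one ‖gr a b‖ hs.le
    have hsig := hk.eq ‖gr a b‖ hs.le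
    set k := kf ‖gr a b‖ with hkdef
    set s := ‖gr a b‖ with hsdef
    have hk0 : 0 < k := by linarith
    refine ⟨by rw [hj]; positivity, ?_⟩
    have h3 : a ^ 2 + b ^ 2 = ((s ^ 2 * (1 - k ^ 2) : ℝ) : ℂ) := by
      apply Complex.ext
      · simp only [sq, Complex.add_re, Complex.mul_re, Complex.ofReal_re]
        have := hss
        rw [h1, h2]
        nlinarith
      · simp only [sq, Complex.add_im, Complex.mul_im, Complex.ofReal_im]
        rw [h1, h2]; ring
    rw [h3, hj, hK]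
    unfold sig at hsig
    have h4 : ((1 + k ^ 2) / (2 * k)) ^ (p - 1) * (s ^ 2 * (1 - k ^ 2)) = -(k * s ^ 2) ^ 2 := by
      have h5 : ((1 + k ^ 2) / (2 * k)) ^ (p - 1) * (k ^ 2 - 1) = k ^ 2 * s ^ 2 := by
        rw [← hsig]; field_simp
      linear_combination -(s ^ 2) * h5
    have h6 := congrArg (fun x : ℝ => (x : ℂ)) h4
    push_cast at h6 ⊢
    exact h6

end MPfa.Reg
end

section
/-!
Problem MP_fa0334_an, part REG, module BEL: Beltrami coefficient and quasiregularity (algebra).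
-/
set_option autoImplicit false

open MeasureTheory Set Filter Topology Metric Complex
open scoped ContDiff ENNReal ComplexConjugate

namespace MPfa.Reg

namespace Bel

theorem nsq (z : ℂ) : ‖z‖ ^ 2 = z.re ^ 2 + z.im ^ 2 := by
  rw [← Complex.normSq_eq_norm_sq, Complex.normSq_apply]; ring

theorem en_eq (a b : ℂ) : en a b = (‖a - I * b‖ ^ 2 + ‖a + I * b‖ ^ 2) / 2 := by
  simp only [en, nsq, Complex.sub_re, Complex.sub_im, Complex.add_re, Complex.add_im,
    Complex.mul_re, Complex.mul_im, Complex.I_re, Complex.I_im]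
  ring

theorem jac_eq (a b : ℂ) : jac a b = (‖a - I * b‖ ^ 2 - ‖a + I * b‖ ^ 2) / 4 := by
  simp only [jac, nsq, Complex.sub_re, Complex.sub_im, Complex.add_re, Complex.add_im,
    Complex.mul_re, Complex.mul_im, Complex.I_re, Complex.I_im]
  ring

end Bel

/-- BEL -/
theorem specBel : SpecBel := by
  intro a b κ h0 h1 h
  have hk : 0 < 1 - κ ^ 2 := by nlinarith
  have hB : ‖a + I * b‖ ^ 2 ≤ κ ^ 2 * ‖a - I * b‖ ^ 2 := by
    have := mul_self_le_mul_self (norm_nonneg _) h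
    nlinarith [this]
  rw [Bel.en_eq, Bel.jac_eq, div_mul_eq_mul_div, le_div_iff₀ hk]
  nlinarith [hB]

end MPfa.Reg
end

section
/-!
Problem MP_fa0334_an, part REG: restriction lemmas shared by the modules.
-/
set_option autoImplicit false

open MeasureTheory Set Filter Topology Metric Complex
open scoped ContDiff ENNReal ComplexConjugate

namespace MPfa.Reg.Base

theorem test_mono {G G' : Set ℂ} {φ : ℂ → ℝ} (h : Test G φ) (hs : G ⊆ G') : Test G' φ :=
  ⟨h.sm, h.cs, h.su.trans hs⟩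

theorem LI_mono {G G' : Set ℂ} {u : ℂ → ℂ} (h : LI G u) (hs : G' ⊆ G) : LI G' u :=
  fun K hK hc => h K (hK.trans hs) hc

theorem Lrl_mono {G G' : Set ℂ} {r : ℝ} {u : ℂ → ℝ} (h : Lrl G r u) (hs : G' ⊆ G) : Lrl G' r u :=
  fun K hK hc => h K (hK.trans hs) hc

theorem WD_mono {G G' : Set ℂ} {F Fx Fy : ℂ → ℂ} (h : WD G F Fx Fy) (hs : G' ⊆ G) :
    WD G' F Fx Fy where
  mx := h.mx
  my := h.my
  lF := LI_mono h.lF hs
  lx := LI_mono h.lx hs
  ly := LI_mono h.ly hs
  ix := fun φ hφ => h.ix φ (test_mono hφ hs)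
  iy := fun φ hφ => h.iy φ (test_mono hφ hs)

theorem WP_mono {G G' : Set ℂ} {r s : ℝ} {F Fx Fy : ℂ → ℂ} (h : WP G r s F Fx Fy)
    (ho : IsOpen G') (hs : G' ⊆ G) : WP G' r s F Fx Fy where
  op := ho
  co := h.co.mono hs
  wd := WD_mono h.wd hs
  rx := Lrl_mono h.rx hs
  ry := Lrl_mono h.ry hs
  sx := Lrl_mono h.sx hs
  sy := Lrl_mono h.sy hs

theorem SP_mono {G G' : Set ℂ} {r s Q : ℝ} {F Fx Fy : ℂ → ℂ} (h : SP G r s Q F Fx Fy)
    (ho : IsOpen G') (hs : G' ⊆ G) : SP G' r s Q F Fx Fy where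
  hr := h.hr
  hs := h.hs
  hrs := h.hrs
  wp := WP_mono h.wp ho hs
  sp := ae_restrict_of_ae_restrict_of_subset hs h.sp

theorem QR_mono {G G' : Set ℂ} {Q : ℝ} {F Fx Fy : ℂ → ℂ} (h : QR G Q F Fx Fy)
    (ho : IsOpen G') (hs : G' ⊆ G) : QR G' Q F Fx Fy where
  wp := WP_mono h.wp ho hs
  qr := ae_restrict_of_ae_restrict_of_subset hs h.qr

theorem pun_open (r : ℝ) : IsOpen (pun r) := isOpen_ball.sdiff isClosed_singleton

theorem pun_mono {r r' : ℝ} (h : r' ≤ r) : pun r' ⊆ pun r :=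
  sdiff_subset_sdiff_left (ball_subset_ball h)

theorem mem_pun {r : ℝ} {z : ℂ} : z ∈ pun r ↔ ‖z‖ < r ∧ z ≠ 0 := by
  simp [pun]

theorem pun_sub_ball (r : ℝ) : pun r ⊆ ball 0 r := sdiff_subset

theorem pun_mem_nhds {r : ℝ} (hr : 0 < r) : pun r ∈ 𝓝[≠] (0 : ℂ) := by
  rw [pun, sdiff_eq]
  exact inter_mem (mem_nhdsWithin_of_mem_nhds (ball_mem_nhds 0 hr)) self_mem_nhdsWithin

theorem PF_mono {r r' Q : ℝ} {m : ℕ} {F Fx Fy ℓ : ℂ → ℂ} (h : PF r Q m F Fx Fy ℓ)
    (h0 : 0 < r') (hr : r' ≤ r) : PF r' Q m F Fx Fy ℓ where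
  r0 := h0
  qr := QR_mono h.qr (pun_open r') (pun_mono hr)
  lc := h.lc.mono (pun_mono hr)
  eq := fun z hz => h.eq z (pun_mono hr hz)

theorem PF_ne {r Q : ℝ} {m : ℕ} {F Fx Fy ℓ : ℂ → ℂ} (h : PF r Q m F Fx Fy ℓ) {z : ℂ}
    (hz : z ∈ pun r) : F z ≠ 0 := by
  rw [h.eq z hz]
  exact mul_ne_zero (pow_ne_zero _ (mem_pun.1 hz).2) (Complex.exp_ne_zero _)

theorem Zer_mono {p : ℝ} {n : ℕ} {r r' : ℝ} {f : ℂ → ℂ} (h : Zer p n r f)
    (h0 : 0 < r') (hr : r' ≤ r) : Zer p n r' f where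
  r0 := h0
  n1 := h.n1
  co := h.co.mono (ball_subset_ball hr)
  inj := h.inj.mono (ball_subset_ball hr)
  z0 := h.z0
  c1 := h.c1.mono (pun_mono hr)
  eq := fun z hz => h.eq z (pun_mono hr hz)

/-- a function which is bounded on compact sets is locally in `L^r` -/
theorem Lrl_of_bdd {G : Set ℂ} {r : ℝ} {u : ℂ → ℝ} (hr : 0 ≤ r)
    (h : ∀ K ⊆ G, IsCompact K → ∃ C : ℝ, ∀ z ∈ K, |u z| ≤ C) : Lrl G r u := by
  intro K hK hc
  obtain ⟨C, hC⟩ := h K hK hc
  calc ∫⁻ z in K, ENNReal.ofReal |u z| ^ r ≤ ∫⁻ z in K, ENNReal.ofReal C ^ r := by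
        refine setLIntegral_mono' hc.measurableSet fun z hz => ?_
        exact ENNReal.rpow_le_rpow (ENNReal.ofReal_le_ofReal (hC z hz)) hr
    _ = ENNReal.ofReal C ^ r * volume K := by simp
    _ < ⊤ := ENNReal.mul_lt_top (ENNReal.rpow_lt_top_of_nonneg hr ENNReal.ofReal_ne_top)
        hc.measure_lt_top

theorem Lrl_of_cont {G : Set ℂ} {r : ℝ} {u : ℂ → ℝ} (hr : 0 ≤ r) (h : ContinuousOn u G) :
    Lrl G r u := by
  refine Lrl_of_bdd hr fun K hK hc => ?_
  obtain ⟨C, hC⟩ := hc.exists_bound_of_continuousOn (h.mono hK)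
  exact ⟨C, fun z hz => by simpa using hC z hz⟩

theorem indicator_cont {G : Set ℂ} {u : ℂ → ℂ} (h : ContinuousOn u G) :
    ContinuousOn (G.indicator u) G := h.congr fun z hz => by simp [hz]

theorem fderiv_cont {G : Set ℂ} {F : ℂ → ℂ} (ho : IsOpen G) (h : ContDiffOn ℝ 1 F G) (v : ℂ) :
    ContinuousOn (fun z => fderiv ℝ F z v) G :=
  (h.continuousOn_fderiv_of_isOpen ho le_rfl).clm_apply continuousOn_const

/-- `C¹` maps are continuous Sobolev maps -/
theorem WP_of_C1 (hC : SpecC1WD) {G : Set ℂ} {F : ℂ → ℂ} {r s : ℝ} (hr : 0 ≤ r) (hs : 0 ≤ s)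
    (ho : IsOpen G) (h : ContDiffOn ℝ 1 F G) :
    WP G r s F (G.indicator fun z => fderiv ℝ F z 1) (G.indicator fun z => fderiv ℝ F z I) where
  op := ho
  co := h.continuousOn
  wd := hC G F ho h
  rx := Lrl_of_cont hr (Complex.continuous_re.comp_continuousOn
    (indicator_cont (fderiv_cont ho h 1)))
  ry := Lrl_of_cont hr (Complex.continuous_re.comp_continuousOn
    (indicator_cont (fderiv_cont ho h I)))
  sx := Lrl_of_cont hs (Complex.continuous_im.comp_continuousOn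
    (indicator_cont (fderiv_cont ho h 1)))
  sy := Lrl_of_cont hs (Complex.continuous_im.comp_continuousOn
    (indicator_cont (fderiv_cont ho h I)))

end MPfa.Reg.Base
end

section
/-!
Problem MP_fa0334_an, part REG: module C1 (solutions are continuously differentiable).
-/
set_option autoImplicit false

open MeasureTheory Set Filter Topology Metric Complex
open scoped ContDiff ENNReal ComplexConjugate

namespace MPfa.Reg

namespace C1M

/-- a sequence of functions with a common modulus of continuity which converges almost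
everywhere has a continuous limit -/
theorem equi {B : Set ℂ} (hB : IsOpen B) {a : ℕ → ℂ → ℂ} {U : ℂ → ℂ} {om : ℝ → ℝ} {ρ₀ : ℝ}
    (hρ₀ : 0 < ρ₀) (hom : Tendsto om (𝓝[>] 0) (𝓝 0))
    (hmod : ∀ n, ∀ ρ, 0 < ρ → ρ < ρ₀ → ∀ z ∈ B, ∀ z' ∈ B, dist z z' ≤ ρ →
      ‖a n z - a n z'‖ ≤ om ρ)
    (hae : ∀ᵐ z ∂(volume.restrict B), Tendsto (fun n => a n z) atTop (𝓝 (U z))) :
    ∃ g : ℂ → ℂ, ContinuousOn g B ∧ ∀ᵐ z ∂(volume.restrict B), U z = g z := by
  have hsmall : ∀ ε > 0, ∃ ρ, 0 < ρ ∧ ρ < ρ₀ ∧ om ρ < ε := by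
    intro ε hε
    have h1 := hom.eventually (gt_mem_nhds hε)
    have h2 : ∀ᶠ ρ in 𝓝[>] (0 : ℝ), ρ ∈ Ioo 0 ρ₀ := Ioo_mem_nhdsGT hρ₀
    obtain ⟨ρ, h3, h4⟩ := (h1.and h2).exists
    exact ⟨ρ, h4.1, h4.2, h3⟩
  have hdense := Measure.dense_of_ae ((ae_restrict_iff' hB.measurableSet).1 hae)
  have hcau : ∀ z ∈ B, CauchySeq fun n => a n z := by
    intro z hz
    rw [Metric.cauchySeq_iff]
    intro ε hε
    obtain ⟨ρ, hρ, hρρ, hmρ⟩ := hsmall (ε / 3) (by positivity)
    obtain ⟨z', hz'1, hz'2⟩ := hdense.exists_mem_open (hB.inter isOpen_ball)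
      ⟨z, hz, mem_ball_self hρ⟩
    have h1 : Tendsto (fun n => a n z') atTop (𝓝 (U z')) := hz'1 hz'2.1
    obtain ⟨N, hN⟩ := Metric.cauchySeq_iff.1 h1.cauchySeq (ε / 3) (by positivity)
    refine ⟨N, fun m hm n hn => ?_⟩
    have h2 : dist z' z ≤ ρ := (mem_ball.1 hz'2.2).le
    have h3 := hmod m ρ hρ hρρ z' hz'2.1 z hz h2
    have h4 := hmod n ρ hρ hρρ z' hz'2.1 z hz h2
    have h5 := hN m hm n hn
    rw [← dist_eq_norm] at h3 h4
    rw [dist_comm] at h3
    calc dist (a m z) (a n z) ≤ dist (a m z) (a m z') + dist (a m z') (a n z') +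
          dist (a n z') (a n z) := dist_triangle4 _ _ _ _
      _ < ε := by linarith
  choose! g hg using fun z (hz : z ∈ B) => cauchySeq_tendsto_of_complete (hcau z hz)
  refine ⟨g, ?_, ?_⟩
  · rw [Metric.continuousOn_iff]
    intro z hz ε hε
    obtain ⟨ρ, hρ, hρρ, hmρ⟩ := hsmall ε hε
    refine ⟨ρ, hρ, fun z' hz' hd => ?_⟩
    refine lt_of_le_of_lt ?_ hmρ
    have h1 : Tendsto (fun n => ‖a n z' - a n z‖) atTop (𝓝 ‖g z' - g z‖) :=
      ((hg z' hz').sub (hg z hz)).norm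
    rw [dist_eq_norm]
    exact le_of_tendsto' h1 fun n => hmod n ρ hρ hρρ z' hz' z hz hd.le
  · filter_upwards [hae, ae_restrict_mem hB.measurableSet] with z hz hzB
    exact tendsto_nhds_unique hz (hg z hzB)

theorem mol_alt (n : ℕ) (F : ℂ → ℂ) (x : ℂ) : Mol.mol n F x = ∫ y, Mol.rho n y • F (x - y) := by
  rw [Mol.mol, ← integral_sub_left_eq_self _ volume x]
  simp

theorem mol_alt_int (n : ℕ) {F : ℂ → ℂ} (hF : LocallyIntegrable F) (x : ℂ) :
    Integrable fun y => Mol.rho n y • F (x - y) := by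
  have h := (Mol.mol_int n hF x).comp_sub_left x
  simpa using h

/-- mollification keeps bounds of second differences -/
theorem mol_second {n : ℕ} {F : ℂ → ℂ} (hF : LocallyIntegrable F) {δ : ℝ} {z z' τ : ℂ}
    (h : ∀ y : ℂ, ‖y‖ ≤ Mol.wd n → ‖(F (z - y + τ) - F (z - y)) -
      (F (z' - y + τ) - F (z' - y))‖ ≤ δ) :
    ‖(Mol.mol n F (z + τ) - Mol.mol n F z) - (Mol.mol n F (z' + τ) - Mol.mol n F z')‖ ≤ δ := by
  have i1 := mol_alt_int n hF (z + τ)
  have i2 := mol_alt_int n hF z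
  have i3 := mol_alt_int n hF (z' + τ)
  have i4 := mol_alt_int n hF z'
  have i5 : Integrable fun y => Mol.rho n y • F (z + τ - y) - Mol.rho n y • F (z - y) := i1.sub i2
  have i6 : Integrable fun y => Mol.rho n y • F (z' + τ - y) - Mol.rho n y • F (z' - y) :=
    i3.sub i4
  rw [mol_alt, mol_alt, mol_alt, mol_alt, ← integral_sub i1 i2, ← integral_sub i3 i4,
    ← integral_sub i5 i6]
  calc ‖∫ y, ((Mol.rho n y • F (z + τ - y) - Mol.rho n y • F (z - y)) -
          (Mol.rho n y • F (z' + τ - y) - Mol.rho n y • F (z' - y)))‖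
      ≤ ∫ y, δ * Mol.rho n y := by
        apply norm_integral_le_of_norm_le ((Mol.rho_integrable n).const_mul δ)
        refine Eventually.of_forall fun y => ?_
        rw [← smul_sub, ← smul_sub, ← smul_sub, norm_smul,
          Real.norm_of_nonneg (Mol.rho_nonneg n _), mul_comm]
        by_cases hy : Mol.wd n ≤ ‖y‖
        · rw [Mol.rho_zero hy]
          simp
        · push Not at hy
          refine mul_le_mul_of_nonneg_right ?_ (Mol.rho_nonneg n _)
          have := h y hy.le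
          rwa [show z + τ - y = z - y + τ by ring, show z' + τ - y = z' - y + τ by ring]
    _ = δ := by rw [integral_const_mul, Mol.rho_integral, mul_one]

/-- a real integral is bounded by the bound of the lower integral -/
theorem int_le {f : ℂ → ℝ} {S : Set ℂ} (hf : Measurable f) (h0 : ∀ z, 0 ≤ f z) {b : ℝ}
    (hb : 0 ≤ b) (h : ∫⁻ z in S, ENNReal.ofReal (f z) ≤ ENNReal.ofReal b) :
    ∫ z in S, f z ≤ b := by
  rw [integral_eq_lintegral_of_nonneg_ae (Eventually.of_forall h0) hf.aestronglyMeasurable]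
  exact ENNReal.toReal_le_of_le_ofReal hb h

theorem meas_gr {A B : ℂ → ℂ} (hA : Measurable A) (hB : Measurable B) :
    Measurable fun z => gr (A z) (B z) := by
  have h3 : (fun z => gr (A z) (B z)) = fun z =>
      (((A z).re : ℝ) : ℂ) + (((B z).re : ℝ) : ℂ) * I := by
    funext z
    apply Complex.ext <;> simp [gr]
  rw [h3]
  exact ((Complex.measurable_ofReal.comp (Complex.measurable_re.comp hA)).add
    ((Complex.measurable_ofReal.comp (Complex.measurable_re.comp hB)).mul_const I))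

/-- the modulus of continuity of the difference quotients -/
theorem modD (hD : SpecDSP) (hO : SpecOsc) {p : ℝ} {kf : ℝ → ℝ} (hp : 1 < p) (hk : KF p kf)
    {G : Set ℂ} {F Fx Fy : ℂ → ℂ} (hS : Sol p kf G F Fx Fy) {c : ℂ} {R : ℝ} (hR : 0 < R)
    (hG : closedBall c R ⊆ G) {C t₀ : ℝ} (hC : 0 ≤ C)
    (hDQ : ∀ τ : ℂ, ‖τ‖ < t₀ → ∫⁻ z in ball c (R / 2), ENNReal.ofReal
      (‖gr (Fx (z + τ)) (Fy (z + τ)) - gr (Fx z) (Fy z)‖ ^ 2) ≤ ENNReal.ofReal (C * ‖τ‖ ^ 2))
    {τ : ℂ} (hτ : ‖τ‖ < t₀) (hτ' : ‖τ‖ < R / 8) {z₁ : ℂ} (hz₁ : z₁ ∈ closedBall c (R / 8))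
    {ρ : ℝ} (hρ : 0 < ρ) (hρR : ρ < R / 8) {z z' : ℂ} (hz : z ∈ closedBall z₁ ρ)
    (hz' : z' ∈ closedBall z₁ ρ) :
    |(F (z + τ) - F z).re - (F (z' + τ) - F z').re| ≤
      Real.sqrt (2 * Real.pi * C / Real.log (R / 8 / ρ)) * ‖τ‖ := by
  have hSP := hD p kf hp hk G F Fx Fy hS c τ (7 * R / 8) (by positivity)
    ((closedBall_subset_closedBall (by linarith)).trans hG)
  have hSP2 := Base.SP_mono (G' := ball c (R / 2)) hSP isOpen_ball
    (ball_subset_ball (by linarith))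
  have hE := hDQ τ hτ
  have hlt : ∫⁻ z in ball c (R / 2), ENNReal.ofReal
      (‖gr (Fx (z + τ)) (Fy (z + τ)) - gr (Fx z) (Fy z)‖ ^ 2) < ⊤ :=
    lt_of_le_of_lt hE ENNReal.ofReal_lt_top
  have hL : ∀ (u : ℂ → ℝ), (∀ z, |u z| ≤ ‖gr (Fx (z + τ)) (Fy (z + τ)) - gr (Fx z) (Fy z)‖) →
      Lrl (ball c (R / 2)) 2 u := by
    intro u hu K hK hKc
    refine lt_of_le_of_lt ?_ hlt
    refine (lintegral_mono_set hK).trans (lintegral_mono fun z => ?_)
    rw [ENNReal.ofReal_rpow_of_nonneg (abs_nonneg _) (by norm_num)]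
    apply ENNReal.ofReal_le_ofReal
    rw [Real.rpow_two]
    have := hu z
    gcongr
  have hx := hL (fun z => (Fx (z + τ) - Fx z).re) (fun z => by
    rw [← DspM.gr_sub]
    exact DspM.abs_re_le_gr _ _)
  have hy := hL (fun z => (Fy (z + τ) - Fy z).re) (fun z => by
    rw [← DspM.gr_sub]
    exact DspM.abs_re_le_gr' _ _)
  have hsub : closedBall z₁ (R / 8) ⊆ ball c (R / 2) := by
    intro w hw
    rw [mem_closedBall] at hw hz₁
    rw [mem_ball]
    have := dist_triangle w z₁ c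
    linarith
  have h1 := hO (ball c (R / 2)) _ _ 1 _ _ _ one_pos hSP2 hx hy z₁ ρ (R / 8) hρ hρR hsub z hz
    z' hz'
  have hlog : 0 < Real.log (R / 8 / ρ) := Real.log_pos (by rw [lt_div_iff₀ hρ]; linarith)
  have hint : ∫ z in ball z₁ (R / 8), ‖gr (Fx (z + τ) - Fx z) (Fy (z + τ) - Fy z)‖ ^ 2 ≤
      C * ‖τ‖ ^ 2 := by
    apply int_le
    · exact (meas_gr ((hS.wd.mx.comp (measurable_id.add_const τ)).sub hS.wd.mx)
        ((hS.wd.my.comp (measurable_id.add_const τ)).sub hS.wd.my)).norm.pow_const 2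
    · intro z
      positivity
    · positivity
    · refine le_trans ?_ hE
      simp only [DspM.gr_sub]
      exact lintegral_mono_set (ball_subset_closedBall.trans hsub)
  have h2 : ((F (z + τ) - F z).re - (F (z' + τ) - F z').re) ^ 2 ≤
      (2 * Real.pi * C / Real.log (R / 8 / ρ)) * ‖τ‖ ^ 2 := by
    rw [div_mul_eq_mul_div, le_div_iff₀ hlog]
    refine h1.trans ?_
    have := mul_le_mul_of_nonneg_left hint (show 0 ≤ 2 * Real.pi by positivity)
    linarith
  have h3 : Real.sqrt (2 * Real.pi * C / Real.log (R / 8 / ρ)) * ‖τ‖ =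
      Real.sqrt ((2 * Real.pi * C / Real.log (R / 8 / ρ)) * ‖τ‖ ^ 2) := by
    rw [Real.sqrt_mul (by positivity), Real.sqrt_sq (norm_nonneg _)]
  rw [h3]
  exact Real.abs_le_sqrt h2

theorem om_tendsto (C : ℝ) {r : ℝ} (hr : 0 < r) :
    Tendsto (fun ρ : ℝ => Real.sqrt (2 * Real.pi * C / Real.log (r / ρ))) (𝓝[>] 0) (𝓝 0) := by
  have h1 : Tendsto (fun ρ : ℝ => r / ρ) (𝓝[>] 0) atTop := by
    simp only [div_eq_mul_inv]
    exact Tendsto.const_mul_atTop hr tendsto_inv_nhdsGT_zero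
  have h2 := Real.tendsto_log_atTop.comp h1
  have h3 := h2.const_div_atTop (2 * Real.pi * C)
  have h4 := (Real.continuous_sqrt.tendsto _).comp h3
  rw [Real.sqrt_zero] at h4
  exact h4

/-- the weak derivative of the real part has a continuous representative -/
theorem core (hD : SpecDSP) (hO : SpecOsc) {p : ℝ} {kf : ℝ → ℝ} (hp : 1 < p) (hk : KF p kf)
    {G : Set ℂ} {F Fx Fy : ℂ → ℂ} (hS : Sol p kf G F Fx Fy) {c : ℂ} {R : ℝ} (hR : 0 < R)
    (hG : closedBall c R ⊆ G) {C t₀ : ℝ} (hC : 0 ≤ C) (ht₀ : 0 < t₀)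
    (hDQ : ∀ τ : ℂ, ‖τ‖ < t₀ → ∫⁻ z in ball c (R / 2), ENNReal.ofReal
      (‖gr (Fx (z + τ)) (Fy (z + τ)) - gr (Fx z) (Fy z)‖ ^ 2) ≤ ENNReal.ofReal (C * ‖τ‖ ^ 2))
    {v : ℂ} (hv : ‖v‖ = 1) {F' : ℂ → ℂ} (hm : Measurable F') (hl : LI G F')
    (hi : ∀ φ : ℂ → ℝ, Test G φ → ∫ z, (fderiv ℝ φ z v) • F z = - ∫ z, φ z • F' z) :
    ∃ g : ℂ → ℂ, ContinuousOn g (ball c (R / 16)) ∧
      ∀ᵐ z ∂(volume.restrict (ball c (R / 16))), (((F' z).re : ℝ) : ℂ) = g z := by
  set K : Set ℂ := closedBall c R with hKdef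
  set L : Set ℂ := ball c (R / 16) with hLdef
  have hKm : MeasurableSet K := measurableSet_closedBall
  have hLm : MeasurableSet L := measurableSet_ball
  have hKc : IsCompact K := isCompact_closedBall c R
  have hLK : L ⊆ K := ball_subset_closedBall.trans (closedBall_subset_closedBall (by linarith))
  set U : ℂ → ℂ := fun z => (((F z).re : ℝ) : ℂ) with hU
  set U' : ℂ → ℂ := fun z => (((F' z).re : ℝ) : ℂ) with hU'
  have hUc : ContinuousOn U K :=
    Complex.continuous_ofReal.comp_continuousOn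
      (Complex.continuous_re.comp_continuousOn (hS.co.mono hG))
  have hUi : IntegrableOn U K := hUc.integrableOn_compact hKc
  have hUl : LocallyIntegrable (K.indicator U) :=
    ((integrable_indicator_iff hKm).2 hUi).locallyIntegrable
  have hU'm : Measurable U' := Complex.measurable_ofReal.comp (Complex.measurable_re.comp hm)
  have hF'i : IntegrableOn F' K := hl K hG hKc
  have hU'i : IntegrableOn U' K := hF'i.re.ofReal
  -- the weak derivative of the real part
  have hiU : ∀ φ : ℂ → ℝ, Test G φ → ∫ z, (fderiv ℝ φ z v) • U z = - ∫ z, φ z • U' z := by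
    intro φ hφ
    have hre : ∀ (f : ℂ → ℂ) (g : ℂ → ℝ), Integrable (fun z => g z • f z) →
        ∫ z, g z • (((f z).re : ℝ) : ℂ) = (((∫ z, g z • f z).re : ℝ) : ℂ) := by
      intro f g hfg
      have h1 : ∀ z, g z • (((f z).re : ℝ) : ℂ) = (((g z • f z).re : ℝ) : ℂ) := by
        intro z
        simp
      simp only [h1]
      exact (Complex.ofRealCLM.comp Complex.reCLM).integral_comp_comm hfg
    rw [hre _ _ (Wk.tintd hφ hS.wd.lF v), hre _ _ (Wk.tint hφ hl), hi φ hφ]
    simp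
  -- eventually small radius
  obtain ⟨N, hN⟩ := (Mol.wd_tendsto.eventually (gt_mem_nhds (show 0 < R / 16 by positivity))).exists
  have hwd : ∀ n, Mol.wd (n + N) < R / 16 := fun n =>
    lt_of_le_of_lt (Mol.wd_anti (Nat.le_add_left N n)) hN
  set a : ℕ → ℂ → ℂ := fun n => Mol.mol (n + N) (K.indicator U') with ha
  set om : ℝ → ℝ := fun ρ => Real.sqrt (2 * Real.pi * C / Real.log (R / 8 / ρ)) with homdef
  have hom : Tendsto om (𝓝[>] 0) (𝓝 0) := om_tendsto C (by positivity)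
  have hfd : ∀ n, ∀ z ∈ L, fderiv ℝ (Mol.mol (n + N) (K.indicator U)) z v = a n z := by
    intro n z hz
    apply Mol.mol_fderiv_eq hiU hG hKm hUi
    intro w hw
    have h1 := hwd n
    rw [mem_closedBall] at hw ⊢
    rw [hLdef, mem_ball] at hz
    have := dist_triangle w z c
    linarith
  have hmod : ∀ n, ∀ ρ, 0 < ρ → ρ < R / 8 → ∀ z ∈ L, ∀ z' ∈ L, dist z z' ≤ ρ →
      ‖a n z - a n z'‖ ≤ om ρ := by
    intro n ρ hρ hρR z hz z' hz' hd
    rw [← hfd n z hz, ← hfd n z' hz']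
    have hsm := Mol.mol_sm (n + N) hUl
    set H := Mol.mol (n + N) (K.indicator U) with hH
    have hder : ∀ w : ℂ, HasDerivAt (fun t : ℝ => H (w + (t : ℂ) * v)) (fderiv ℝ H w v) 0 := by
      intro w
      have h1 : HasDerivAt (fun s : ℝ => w + (s : ℂ) * v) v 0 := by
        have h2 : HasDerivAt (fun s : ℝ => (s : ℂ)) 1 (0 : ℝ) := Complex.ofRealCLM.hasDerivAt
        simpa using (h2.mul_const v).const_add w
      have h3 : HasFDerivAt H (fderiv ℝ H w) (w + ((0 : ℝ) : ℂ) * v) := by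
        simpa using ((hsm.differentiable (by simp)) w).hasFDerivAt
      exact h3.comp_hasDerivAt 0 h1
    have hd2 := (hder z).sub (hder z')
    refine hd2.le_of_lip' (Real.sqrt_nonneg _) ?_
    have hev : ∀ᶠ t : ℝ in 𝓝 0, |t| < min t₀ (R / 16) := by
      have h1 : Tendsto (fun t : ℝ => |t|) (𝓝 0) (𝓝 0) := by
        simpa using (continuous_abs.tendsto (0 : ℝ))
      exact h1.eventually (gt_mem_nhds (by positivity))
    filter_upwards [hev] with t ht
    have ht1 : ‖(t : ℂ) * v‖ = |t| := by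
      rw [norm_mul, hv, mul_one, Complex.norm_real, Real.norm_eq_abs]
    have htt : |t| < t₀ := ht.trans_le (min_le_left _ _)
    have htR : |t| < R / 16 := ht.trans_le (min_le_right _ _)
    have h2 := mol_second (n := n + N) hUl (δ := om ρ * |t|) (z := z) (z' := z')
      (τ := (t : ℂ) * v) ?_
    · simp only [Pi.sub_apply, Complex.ofReal_zero, zero_mul, add_zero, sub_zero,
        Real.norm_eq_abs]
      rw [show H (z + (t : ℂ) * v) - H (z' + (t : ℂ) * v) - (H z - H z') =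
        (H (z + (t : ℂ) * v) - H z) - (H (z' + (t : ℂ) * v) - H z') by ring]
      exact h2
    · intro y hy
      have hy' : ‖y‖ < R / 16 := lt_of_le_of_lt hy (hwd n)
      have hin : ∀ w ∈ L, w - y ∈ closedBall c (R / 8) := by
        intro w hw
        rw [hLdef, mem_ball, dist_eq_norm] at hw
        rw [mem_closedBall, dist_eq_norm]
        calc ‖w - y - c‖ = ‖(w - c) - y‖ := by congr 1; ring
          _ ≤ ‖w - c‖ + ‖y‖ := norm_sub_le _ _
          _ ≤ R / 8 := by linarith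
      have hinK : ∀ w ∈ L, w - y ∈ K := fun w hw =>
        closedBall_subset_closedBall (by linarith) (hin w hw)
      have hinK' : ∀ w ∈ L, w - y + (t : ℂ) * v ∈ K := by
        intro w hw
        have h3 := hin w hw
        rw [mem_closedBall, dist_eq_norm] at h3
        rw [hKdef, mem_closedBall, dist_eq_norm]
        calc ‖w - y + (t : ℂ) * v - c‖ = ‖(w - y - c) + (t : ℂ) * v‖ := by congr 1; ring
          _ ≤ ‖w - y - c‖ + ‖(t : ℂ) * v‖ := norm_add_le _ _
          _ ≤ R := by rw [ht1]; linarith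
      rw [indicator_of_mem (hinK' z hz), indicator_of_mem (hinK z hz),
        indicator_of_mem (hinK' z' hz'), indicator_of_mem (hinK z' hz')]
      have h4 := modD hD hO hp hk hS hR hG hC hDQ (τ := (t : ℂ) * v) (by rwa [ht1])
        (by rw [ht1]; linarith) (hin z hz) hρ hρR (z := z - y) (z' := z' - y)
        (mem_closedBall_self hρ.le) (by
          rw [mem_closedBall, dist_sub_right, dist_comm]
          exact hd)
      rw [ht1] at h4
      simp only [hU]
      rw [← Complex.ofReal_sub, ← Complex.ofReal_sub, ← Complex.ofReal_sub, Complex.norm_real,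
        Real.norm_eq_abs, ← Complex.sub_re, ← Complex.sub_re]
      exact h4
  -- almost everywhere convergence of a subsequence
  have hfin : ∫⁻ x in K, ‖U' x‖ₑ ^ 1 < ⊤ := by simpa [HasFiniteIntegral] using hU'i.2
  have hconv := (Mol.tendsto_mol_on (p := 1) (Or.inl rfl) hLm hLK hKm
    hU'm.aestronglyMeasurable hfin).comp (tendsto_add_atTop_nat N)
  simp only [pow_one] at hconv
  have hU'l : LocallyIntegrable (K.indicator U') :=
    ((integrable_indicator_iff hKm).2 hU'i).locallyIntegrable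
  have hTM : TendstoInMeasure (volume.restrict L) a atTop U' := by
    refine tendstoInMeasure_of_tendsto_eLpNorm (p := 1) one_ne_zero
      (fun n => (Mol.mol_sm (n + N) hU'l).continuous.aestronglyMeasurable)
      hU'm.aestronglyMeasurable ?_
    simp only [eLpNorm_one_eq_lintegral_enorm]
    exact hconv
  obtain ⟨ns, hns, hae⟩ := hTM.exists_seq_tendsto_ae
  obtain ⟨g, hg1, hg2⟩ := equi isOpen_ball (a := fun k => a (ns k)) (U := U')
    (show 0 < R / 8 by positivity) hom (fun k => hmod (ns k)) hae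
  exact ⟨g, hg1, hg2⟩

theorem cont_mk {S : Set ℂ} {f g : ℂ → ℝ} (hf : ContinuousOn f S) (hg : ContinuousOn g S) :
    ContinuousOn (fun z => (⟨f z, g z⟩ : ℂ)) S := by
  have h : (fun z => (⟨f z, g z⟩ : ℂ)) = fun z => ((f z : ℝ) : ℂ) + ((g z : ℝ) : ℂ) * I := by
    funext z
    apply Complex.ext <;> simp
  rw [h]
  exact (Complex.continuous_ofReal.comp_continuousOn hf).add
    ((Complex.continuous_ofReal.comp_continuousOn hg).mul continuousOn_const)

theorem cont_Af {p : ℝ} {kf : ℝ → ℝ} (hk : KF p kf) : Continuous (Af kf) := by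
  have h1 : Continuous fun t : ℝ => kf (max 0 t) :=
    hk.cont.comp_continuous (by fun_prop) fun t => mem_Ici.2 (le_max_left 0 t)
  have h2 : Af kf = fun X : ℂ => ((kf (max 0 ‖X‖) : ℝ) : ℂ) * X := by
    funext X
    simp [Af]
  rw [h2]
  exact (Complex.continuous_ofReal.comp (h1.comp continuous_norm)).mul continuous_id

end C1M

open C1M

theorem specC1 (hD : SpecDSP) (hQ : SpecDQ) (hO : SpecOsc) (hW : SpecWDC1) : SpecC1 := by
  intro p kf hp hk G F Fx Fy hS
  have hloc : ∀ c ∈ G, ∃ r > 0, ContDiffOn ℝ 1 F (ball c r) ∧ ∀ z ∈ ball c r,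
      gi (fderiv ℝ F z 1) (fderiv ℝ F z I) =
        I * Af kf (gr (fderiv ℝ F z 1) (fderiv ℝ F z I)) := by
    intro c hc
    obtain ⟨R, hR, hRG⟩ := Metric.nhds_basis_closedBall.mem_iff.1 (hS.op.mem_nhds hc)
    obtain ⟨C, t₀, hC, ht₀, hDQ⟩ := hQ p kf hp hk G F Fx Fy hS c R hR hRG
    obtain ⟨g1, hg1, hg1'⟩ := core hD hO hp hk hS hR hRG hC ht₀ hDQ (v := 1) (by simp)
      hS.wd.mx hS.wd.lx hS.wd.ix
    obtain ⟨g2, hg2, hg2'⟩ := core hD hO hp hk hS hR hRG hC ht₀ hDQ (v := I) (by simp)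
      hS.wd.my hS.wd.ly hS.wd.iy
    have hsub : ball c (R / 16) ⊆ G :=
      (ball_subset_closedBall.trans (closedBall_subset_closedBall (by linarith))).trans hRG
    set X : ℂ → ℂ := fun z => ⟨(g1 z).re, (g2 z).re⟩ with hX
    have hXc : ContinuousOn X (ball c (R / 16)) :=
      cont_mk (Complex.continuous_re.comp_continuousOn hg1)
        (Complex.continuous_re.comp_continuousOn hg2)
    have hAc : ContinuousOn (fun z => I * Af kf (X z)) (ball c (R / 16)) :=
      continuousOn_const.mul ((cont_Af hk).comp_continuousOn hXc)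
    set gx : ℂ → ℂ := fun z => ⟨(X z).re, (I * Af kf (X z)).re⟩ with hgx
    set gy : ℂ → ℂ := fun z => ⟨(X z).im, (I * Af kf (X z)).im⟩ with hgy
    have hgxc : ContinuousOn gx (ball c (R / 16)) :=
      cont_mk (Complex.continuous_re.comp_continuousOn hXc)
        (Complex.continuous_re.comp_continuousOn hAc)
    have hgyc : ContinuousOn gy (ball c (R / 16)) :=
      cont_mk (Complex.continuous_im.comp_continuousOn hXc)
        (Complex.continuous_im.comp_continuousOn hAc)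
    have hae : ∀ᵐ z ∂(volume.restrict (ball c (R / 16))), Fx z = gx z ∧ Fy z = gy z := by
      filter_upwards [hg1', hg2', ae_restrict_of_ae_restrict_of_subset hsub hS.eq]
        with z h1 h2 h3
      have h4 : gr (Fx z) (Fy z) = X z := by
        simp only [gr, hX, ← h1, ← h2, Complex.ofReal_re]
      have h5 := h3.2
      rw [h4] at h5
      have h6 : (Fx z).re = (X z).re := by rw [← h4]; simp [gr]
      have h7 : (Fy z).re = (X z).im := by rw [← h4]; simp [gr]
      have h8 : (Fx z).im = (I * Af kf (X z)).re := by rw [← h5]; simp [gi]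
      have h9 : (Fy z).im = (I * Af kf (X z)).im := by rw [← h5]; simp [gi]
      exact ⟨Complex.ext h6 h8, Complex.ext h7 h9⟩
    obtain ⟨h1, h2⟩ := hW (ball c (R / 16)) F Fx Fy gx gy isOpen_ball (hS.co.mono hsub)
      (Base.WD_mono hS.wd hsub) hgxc hgyc hae
    refine ⟨R / 16, by positivity, h1, fun z hz => ?_⟩
    obtain ⟨h3, h4⟩ := h2 z hz
    rw [h3, h4]
    have h5 : gr (gx z) (gy z) = X z := by simp [gr, hgx, hgy]
    rw [h5]
    simp only [gi, hgx, hgy]
  refine ⟨fun z hz => ?_, fun z hz => ?_⟩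
  · obtain ⟨r, hr, h1, -⟩ := hloc z hz
    exact (h1.contDiffAt (ball_mem_nhds z hr)).contDiffWithinAt
  · obtain ⟨r, hr, -, h2⟩ := hloc z hz
    exact h2 z (mem_ball_self hr)

end MPfa.Reg
end

section
/-!
Problem MP_fa0334_an, part REG, modules OSC, OSCQ, MODQ.
-/
set_option autoImplicit false

open MeasureTheory Set Filter Topology Metric Complex
open scoped ContDiff ENNReal ComplexConjugate

namespace MPfa.Reg

namespace H5

lemma nsq (z : ℂ) : ‖z‖ ^ 2 = z.re ^ 2 + z.im ^ 2 := by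
  rw [← Complex.normSq_eq_norm_sq, Complex.normSq_apply]
  ring

lemma gr_sq (a b : ℂ) : ‖gr a b‖ ^ 2 = a.re ^ 2 + b.re ^ 2 := by
  rw [nsq]
  rfl

lemma gi_sq (a b : ℂ) : ‖gi a b‖ ^ 2 = a.im ^ 2 + b.im ^ 2 := by
  rw [nsq]
  rfl

lemma en_eq (a b : ℂ) : en a b = ‖gr a b‖ ^ 2 + ‖gi a b‖ ^ 2 := by
  rw [gr_sq, gi_sq, en, nsq, nsq]
  ring

lemma en_mul (m a b : ℂ) : en (m * a) (m * b) = ‖m‖ ^ 2 * en a b := by
  simp only [en, norm_mul, mul_pow]
  ring

lemma jac_mul (m a b : ℂ) : jac (m * a) (m * b) = ‖m‖ ^ 2 * jac a b := by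
  rw [nsq]
  simp only [jac, mul_re, mul_im]
  ring

lemma gr_le_en (a b : ℂ) : ‖gr a b‖ ^ 2 ≤ en a b := by
  rw [en_eq]
  nlinarith [sq_nonneg ‖gi a b‖]

lemma gi_le_en (a b : ℂ) : ‖gi a b‖ ^ 2 ≤ en a b := by
  rw [en_eq]
  nlinarith [sq_nonneg ‖gr a b‖]

lemma en_nonneg (a b : ℂ) : 0 ≤ en a b := by
  unfold en
  positivity

lemma lrl_two {G : Set ℂ} {u : ℂ → ℝ} : Lrl G 2 u ↔ ∀ K ⊆ G, IsCompact K →
    ∫⁻ z in K, ENNReal.ofReal (u z ^ 2) < ⊤ := by
  unfold Lrl
  have : ∀ z, ENNReal.ofReal |u z| ^ (2 : ℝ) = ENNReal.ofReal (u z ^ 2) := by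
    intro z
    rw [ENNReal.ofReal_rpow_of_nonneg (abs_nonneg _) (by norm_num)]
    congr 1
    rw [show (2 : ℝ) = ((2 : ℕ) : ℝ) by norm_num, Real.rpow_natCast, sq_abs]
  simp only [this]

lemma lrl_comb {G : Set ℂ} {u v w : ℂ → ℝ} {a b : ℝ} (hu : Lrl G 2 u) (hv : Lrl G 2 v)
    (hum : Measurable u) (hw : ∀ z, w z ^ 2 ≤ a ^ 2 * u z ^ 2 + b ^ 2 * v z ^ 2) : Lrl G 2 w := by
  rw [lrl_two] at *
  intro K hK hKc
  calc ∫⁻ z in K, ENNReal.ofReal (w z ^ 2)
      ≤ ∫⁻ z in K, (ENNReal.ofReal (a ^ 2) * ENNReal.ofReal (u z ^ 2) +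
        ENNReal.ofReal (b ^ 2) * ENNReal.ofReal (v z ^ 2)) := by
        apply lintegral_mono
        intro z
        refine (ENNReal.ofReal_le_ofReal (hw z)).trans (le_of_eq ?_)
        rw [ENNReal.ofReal_add (by positivity) (by positivity), ENNReal.ofReal_mul (by positivity),
          ENNReal.ofReal_mul (by positivity)]
    _ = ENNReal.ofReal (a ^ 2) * (∫⁻ z in K, ENNReal.ofReal (u z ^ 2)) +
        ENNReal.ofReal (b ^ 2) * ∫⁻ z in K, ENNReal.ofReal (v z ^ 2) := by
        rw [lintegral_add_left (((hum.pow_const 2).ennreal_ofReal).const_mul _),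
          lintegral_const_mul' _ _ ENNReal.ofReal_ne_top,
          lintegral_const_mul' _ _ ENNReal.ofReal_ne_top]
    _ < ⊤ := ENNReal.add_lt_top.mpr ⟨ENNReal.mul_lt_top ENNReal.ofReal_lt_top (hu K hK hKc),
        ENNReal.mul_lt_top ENNReal.ofReal_lt_top (hv K hK hKc)⟩

/-- multiplication by a complex number -/
lemma wp_mul {G : Set ℂ} {F Fx Fy : ℂ → ℂ} (h : WP G 2 2 F Fx Fy) (m : ℂ) :
    WP G 2 2 (fun z => m * F z) (fun z => m * Fx z) (fun z => m * Fy z) := by
  have hm : WD G (fun z => m * F z) (fun z => m * Fx z) (fun z => m * Fy z) := by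
    have := wd_clm h.wd ((ContinuousLinearMap.mul ℝ ℂ) m)
    simpa using this
  have e1 : ∀ x : ℂ, (m * x).re ^ 2 ≤ (‖m‖ * 2) ^ 2 * x.re ^ 2 + (‖m‖ * 2) ^ 2 * x.im ^ 2 := by
    intro x
    have h1 := nsq m
    have h2 := nsq (m * x)
    have h3 := nsq x
    have h4 : ‖m * x‖ ^ 2 = ‖m‖ ^ 2 * ‖x‖ ^ 2 := by rw [norm_mul]; ring
    nlinarith [sq_nonneg (m * x).im, sq_nonneg (‖m‖ * x.re), sq_nonneg (‖m‖ * x.im)]
  have e2 : ∀ x : ℂ, (m * x).im ^ 2 ≤ (‖m‖ * 2) ^ 2 * x.re ^ 2 + (‖m‖ * 2) ^ 2 * x.im ^ 2 := by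
    intro x
    have h1 := nsq m
    have h2 := nsq (m * x)
    have h3 := nsq x
    have h4 : ‖m * x‖ ^ 2 = ‖m‖ ^ 2 * ‖x‖ ^ 2 := by rw [norm_mul]; ring
    nlinarith [sq_nonneg (m * x).re, sq_nonneg (‖m‖ * x.re), sq_nonneg (‖m‖ * x.im)]
  have mx := h.wd.mx
  have my := h.wd.my
  exact ⟨h.op, continuousOn_const.mul h.co, hm,
    lrl_comb h.rx h.sx (Complex.measurable_re.comp mx) fun z => e1 (Fx z),
    lrl_comb h.ry h.sy (Complex.measurable_re.comp my) fun z => e1 (Fy z),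
    lrl_comb h.rx h.sx (Complex.measurable_re.comp mx) fun z => e2 (Fx z),
    lrl_comb h.ry h.sy (Complex.measurable_re.comp my) fun z => e2 (Fy z)⟩

lemma qr_mul {G : Set ℂ} {Q : ℝ} {F Fx Fy : ℂ → ℂ} (h : QR G Q F Fx Fy) (m : ℂ) :
    QR G Q (fun z => m * F z) (fun z => m * Fx z) (fun z => m * Fy z) := by
  refine ⟨wp_mul h.wp m, ?_⟩
  filter_upwards [h.qr] with z hz
  rw [en_mul, jac_mul]
  nlinarith [sq_nonneg ‖m‖]

lemma qr_sp {G : Set ℂ} {Q : ℝ} {F Fx Fy : ℂ → ℂ} (h : QR G Q F Fx Fy) :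
    SP G 2 2 Q F Fx Fy := by
  refine ⟨by norm_num, by norm_num, by norm_num, h.wp, ?_⟩
  filter_upwards [h.qr] with z hz
  exact (gr_le_en _ _).trans hz

lemma sp_neg {G : Set ℂ} {r s Q : ℝ} {F Fx Fy : ℂ → ℂ} (h : SP G r s Q F Fx Fy) :
    SP G r s Q (fun z => - F z) (fun z => - Fx z) (fun z => - Fy z) := by
  have hwd : WD G (fun z => - F z) (fun z => - Fx z) (fun z => - Fy z) := by
    have := wd_clm h.wp.wd (-(ContinuousLinearMap.id ℝ ℂ))
    simpa using this
  refine ⟨h.hr, h.hs, h.hrs, ⟨h.wp.op, h.wp.co.neg, hwd, ?_, ?_, ?_, ?_⟩, ?_⟩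
  · intro K hK hKc
    simpa using h.wp.rx K hK hKc
  · intro K hK hKc
    simpa using h.wp.ry K hK hKc
  · intro K hK hKc
    simpa using h.wp.sx K hK hKc
  · intro K hK hKc
    simpa using h.wp.sy K hK hKc
  · filter_upwards [h.sp] with z hz
    have e1 : ‖gr (- Fx z) (- Fy z)‖ ^ 2 = ‖gr (Fx z) (Fy z)‖ ^ 2 := by
      rw [gr_sq, gr_sq]
      simp
    have e2 : jac (- Fx z) (- Fy z) = jac (Fx z) (Fy z) := by
      simp [jac]
    rw [e1, e2]
    exact hz

/-- the energy is locally integrable -/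
lemma en_int {G : Set ℂ} {F Fx Fy : ℂ → ℂ} (h : WP G 2 2 F Fx Fy) {K : Set ℂ} (hK : K ⊆ G)
    (hKc : IsCompact K) : IntegrableOn (fun z => en (Fx z) (Fy z)) K := by
  have hmx := h.wd.mx
  have hmy := h.wd.my
  have hm : Measurable fun z => en (Fx z) (Fy z) := by
    unfold en
    exact (hmx.norm.pow_const 2).add (hmy.norm.pow_const 2)
  refine ⟨hm.aestronglyMeasurable, ?_⟩
  rw [hasFiniteIntegral_iff_ofReal (Eventually.of_forall fun z => en_nonneg _ _)]
  have e : ∀ z, ENNReal.ofReal (en (Fx z) (Fy z)) =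
      (ENNReal.ofReal ((Fx z).re ^ 2) + ENNReal.ofReal ((Fy z).re ^ 2)) +
      (ENNReal.ofReal ((Fx z).im ^ 2) + ENNReal.ofReal ((Fy z).im ^ 2)) := by
    intro z
    rw [← ENNReal.ofReal_add (by positivity) (by positivity),
      ← ENNReal.ofReal_add (by positivity) (by positivity),
      ← ENNReal.ofReal_add (by positivity) (by positivity), en_eq, gr_sq, gi_sq]
  simp only [e]
  have m1 : Measurable fun z => ENNReal.ofReal ((Fx z).re ^ 2) :=
    ((Complex.measurable_re.comp hmx).pow_const 2).ennreal_ofReal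
  have m2 : Measurable fun z => ENNReal.ofReal ((Fy z).re ^ 2) :=
    ((Complex.measurable_re.comp hmy).pow_const 2).ennreal_ofReal
  have m3 : Measurable fun z => ENNReal.ofReal ((Fx z).im ^ 2) :=
    ((Complex.measurable_im.comp hmx).pow_const 2).ennreal_ofReal
  have m12 : Measurable fun z => ENNReal.ofReal ((Fx z).re ^ 2) + ENNReal.ofReal ((Fy z).re ^ 2) :=
    m1.add m2
  rw [lintegral_add_left m12, lintegral_add_left m1, lintegral_add_left m3]
  exact ENNReal.add_lt_top.mpr ⟨ENNReal.add_lt_top.mpr ⟨lrl_two.mp h.rx K hK hKc,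
    lrl_two.mp h.ry K hK hKc⟩, ENNReal.add_lt_top.mpr ⟨lrl_two.mp h.sx K hK hKc,
    lrl_two.mp h.sy K hK hKc⟩⟩

/-- the unit vector in the direction of `v` -/
lemma exists_dir (v : ℂ) : ∃ e : ℂ, ‖e‖ = 1 ∧ (e * v).re = ‖v‖ := by
  by_cases hv : v = 0
  · exact ⟨1, by simp, by simp [hv]⟩
  · have hn : ‖v‖ ≠ 0 := norm_ne_zero_iff.mpr hv
    refine ⟨conj v / (‖v‖ : ℂ), ?_, ?_⟩
    · rw [norm_div, RCLike.norm_conj, Complex.norm_real, norm_norm, div_self hn]
    · have h1 : conj v / (‖v‖ : ℂ) * v = ((‖v‖ : ℝ) : ℂ) := by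
        have h2 : conj v * v = ((‖v‖ ^ 2 : ℝ) : ℂ) := by
          rw [mul_comm, Complex.mul_conj, Complex.normSq_eq_norm_sq]
        have hn' : (‖v‖ : ℂ) ≠ 0 := by exact_mod_cast hn
        rw [div_mul_eq_mul_div, h2, div_eq_iff hn']
        push_cast
        ring
      rw [h1, Complex.ofReal_re]

end H5

open H5 in
theorem specOsc (hMax : SpecMax) (hCL : SpecCL) : SpecOsc := by
  intro G r s Q F Fx Fy hQ hSP h1 h2 c ρ R hρ hρR hG z hz z' hz'
  have hCLa := hCL G F Fx Fy c ρ R |(F z).re - (F z').re| hSP.wp.op hSP.wp.co hSP.wp.wd h1 h2 hρ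
    hρR hG (abs_nonneg _) ?_
  · rwa [sq_abs] at hCLa
  intro t ht
  have ht0 : 0 < t := hρ.trans_le ht.1
  have htG : closedBall c t ⊆ G := (closedBall_subset_closedBall ht.2).trans hG
  have huc : ContinuousOn (fun z => (F z).re) (sphere c t) :=
    (Complex.continuous_re.comp_continuousOn hSP.wp.co).mono
      (sphere_subset_closedBall.trans htG)
  have hne : (sphere c t).Nonempty := ⟨c + t, by simp [ht0.le]⟩
  obtain ⟨w, hw, hwm⟩ := (isCompact_sphere c t).exists_isMaxOn hne huc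
  obtain ⟨w', hw', hwm'⟩ := (isCompact_sphere c t).exists_isMinOn hne huc
  have hle : ∀ x ∈ closedBall c t, (F x).re ≤ (F w).re := by
    intro x hx
    rcases (mem_closedBall.mp hx).lt_or_eq with h3 | h3
    · apply hMax G r s Q F Fx Fy hQ hSP (ball c t) (F w).re isOpen_ball
        (by rw [closure_ball c ht0.ne']; exact isCompact_closedBall c t)
        (by rw [closure_ball c ht0.ne']; exact htG)
        (fun y hy => by
          rw [frontier_ball c ht0.ne'] at hy
          exact hwm hy) x h3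
    · exact hwm h3
  have hge : ∀ x ∈ closedBall c t, (F w').re ≤ (F x).re := by
    intro x hx
    rcases (mem_closedBall.mp hx).lt_or_eq with h3 | h3
    · have := hMax G r s Q _ _ _ hQ (sp_neg hSP) (ball c t) (-(F w').re) isOpen_ball
        (by rw [closure_ball c ht0.ne']; exact isCompact_closedBall c t)
        (by rw [closure_ball c ht0.ne']; exact htG)
        (fun y hy => by
          rw [frontier_ball c ht0.ne'] at hy
          have := hwm' hy
          simp only [mem_ofPred_eq] at this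
          simp only [neg_re, neg_le_neg_iff]
          exact this) x h3
      simpa using this
    · exact hwm' h3
  refine ⟨w, hw, w', hw', ?_⟩
  have a1 := hle z (closedBall_subset_closedBall ht.1 hz)
  have a2 := hge z (closedBall_subset_closedBall ht.1 hz)
  have a3 := hle z' (closedBall_subset_closedBall ht.1 hz')
  have a4 := hge z' (closedBall_subset_closedBall ht.1 hz')
  refine le_trans ?_ (le_abs_self _)
  rw [abs_le]
  constructor <;> linarith

open H5 in
theorem specOscQ (hOsc : SpecOsc) : SpecOscQ := by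
  intro G Q F Fx Fy hQ hQR c ρ R hρ hρR hG z hz z' hz'
  obtain ⟨e, he1, he2⟩ := exists_dir (F z - F z')
  have hq := qr_mul hQR e
  have h := hOsc G 2 2 Q _ _ _ hQ (qr_sp hq) hq.wp.rx hq.wp.ry c ρ R hρ hρR hG z hz z' hz'
  have e1 : (e * F z).re - (e * F z').re = ‖F z - F z'‖ := by
    rw [← Complex.sub_re, ← mul_sub, he2]
  simp only [e1] at h
  refine h.trans ?_
  have hpi : 0 ≤ 2 * Real.pi := by positivity
  apply mul_le_mul_of_nonneg_left _ hpi
  apply integral_mono_of_nonneg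
  · exact Eventually.of_forall fun z => sq_nonneg _
  · exact (en_int hQR.wp hG (isCompact_closedBall c R)).mono_set ball_subset_closedBall
  · refine Eventually.of_forall fun z => ?_
    simp only
    refine (gr_le_en _ _).trans (le_of_eq ?_)
    rw [en_mul, he1]
    ring

open H5 in
theorem specModQ (hMax : SpecMax) : SpecModQ := by
  intro G Q F Fx Fy hQ hQR O M hO hOc hOG hfr z hz
  obtain ⟨e, he1, he2⟩ := exists_dir (F z)
  have hq := qr_mul hQR e
  have h := hMax G 2 2 Q _ _ _ hQ (qr_sp hq) O M hO hOc hOG (fun w hw => by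
    refine (Complex.re_le_norm _).trans ?_
    rw [norm_mul, he1, one_mul]
    exact hfr w hw) z hz
  simp only [he2] at h
  exact h

end MPfa.Reg
end

section
/-!
Problem MP_fa0334_an, part REG, modules CACC and CACCL: Caccioppoli inequalities.
-/
set_option autoImplicit false

open MeasureTheory Set Filter Topology Metric Complex
open scoped ContDiff ENNReal ComplexConjugate

namespace MPfa.Reg

namespace H5

open MaxM

/-- products of integrable functions and continuous functions with compact support -/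
lemma mul_int {c g : ℂ → ℝ} (hc : Continuous c) (hcs : HasCompactSupport c)
    (hg : IntegrableOn g (tsupport c)) : Integrable fun z => c z * g z := by
  obtain ⟨B, hB⟩ := hcs.exists_bound_of_continuous hc
  have h2 : IntegrableOn (fun z => c z * g z) (tsupport c) :=
    hg.bdd_mul hc.aestronglyMeasurable (Eventually.of_forall hB)
  rw [← integrableOn_iff_integrable_of_support_subset (s := tsupport c)]
  · exact h2
  · intro z hz
    by_contra hn
    apply hz
    simp [image_eq_zero_of_notMem_tsupport hn]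

lemma gz_cont {ζ : ℂ → ℝ} (h : ContDiff ℝ ∞ ζ) : Continuous (gz ζ) := by
  have hc : ∀ v : ℂ, Continuous fun z => fderiv ℝ ζ z v := fun v =>
    (h.continuous_fderiv (by simp)).clm_apply continuous_const
  unfold gz
  exact ((hc 1).pow 2).add ((hc I).pow 2)

lemma gz_nonneg (ζ : ℂ → ℝ) (z : ℂ) : 0 ≤ gz ζ z := by
  unfold gz
  positivity

lemma gz_off {ζ : ℂ → ℝ} {z : ℂ} (h : z ∉ tsupport ζ) : gz ζ z = 0 := by
  simp [gz, fderiv_zero_off h]

lemma gz_ts (ζ : ℂ → ℝ) : tsupport (gz ζ) ⊆ tsupport ζ := by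
  apply closure_minimal _ (isClosed_tsupport ζ)
  intro z hz
  by_contra hc
  exact hz (gz_off hc)

lemma gz_cs {ζ : ℂ → ℝ} (h : HasCompactSupport ζ) : HasCompactSupport (gz ζ) :=
  h.of_isClosed_subset (isClosed_tsupport _) (gz_ts ζ)

lemma sq_test {G : Set ℂ} {ζ : ℂ → ℝ} (h : Test G ζ) : Test G fun z => ζ z ^ 2 := by
  have e : (fun z => ζ z ^ 2) = fun z => ζ z * ζ z := by
    funext z
    ring
  rw [e]
  exact ⟨h.sm.mul h.sm, h.cs.mul_right, tsupport_mul_subset_left.trans h.su⟩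

lemma sq_ts (ζ : ℂ → ℝ) : tsupport (fun z => ζ z ^ 2) ⊆ tsupport ζ := by
  have e : (fun z => ζ z ^ 2) = fun z => ζ z * ζ z := by
    funext z
    ring
  rw [e]
  exact tsupport_mul_subset_left

lemma sq_fderiv {ζ : ℂ → ℝ} (h : ContDiff ℝ ∞ ζ) (z v : ℂ) :
    fderiv ℝ (fun z => ζ z ^ 2) z v = 2 * ζ z * fderiv ℝ ζ z v := by
  have h1 : HasFDerivAt ζ (fderiv ℝ ζ z) z := ((h.differentiable (by simp)) z).hasFDerivAt
  have e : (fun z => ζ z ^ 2) = fun z => ζ z * ζ z := by
    funext z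
    ring
  rw [e, (h1.fun_mul h1).fderiv]
  simp
  ring

/-- the abstract Caccioppoli argument -/
lemma cacc_abs {G : Set ℂ} {Q : ℝ} (hG : IsOpen G) {ζ e j a b u : ℂ → ℝ}
    (hζ : Test G ζ) (he : ∀ᵐ z ∂(volume.restrict G), e z ≤ Q * j z)
    (hab : ∀ z ∈ G, a z ^ 2 + b z ^ 2 ≤ e z)
    (i1 : Integrable fun z => ζ z ^ 2 * e z) (i2 : Integrable fun z => ζ z ^ 2 * j z)
    (i3 : Integrable fun z => gz ζ z * u z ^ 2)
    (i4 : Integrable fun z => u z * (fderiv ℝ (fun z => ζ z ^ 2) z 1 * b z -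
      fderiv ℝ (fun z => ζ z ^ 2) z I * a z))
    (ibp : ∫ z, ζ z ^ 2 * j z = - ∫ z, u z * (fderiv ℝ (fun z => ζ z ^ 2) z 1 * b z -
      fderiv ℝ (fun z => ζ z ^ 2) z I * a z)) :
    ∫ z, ζ z ^ 2 * e z ≤ 4 * Q ^ 2 * ∫ z, gz ζ z * u z ^ 2 := by
  have h1 : ∫ z, ζ z ^ 2 * e z ≤ Q * ∫ z, ζ z ^ 2 * j z := by
    rw [← integral_const_mul]
    apply integral_mono_ae i1 (i2.const_mul Q)
    have he' : ∀ᵐ z : ℂ, z ∈ G → e z ≤ Q * j z := by
      rw [← ae_restrict_iff' hG.measurableSet]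
      exact he
    filter_upwards [he'] with z hz
    by_cases hzG : z ∈ G
    · have := mul_le_mul_of_nonneg_left (hz hzG) (sq_nonneg (ζ z))
      calc ζ z ^ 2 * e z ≤ ζ z ^ 2 * (Q * j z) := this
        _ = _ := by ring
    · have : ζ z = 0 := image_eq_zero_of_notMem_tsupport fun hc => hzG (hζ.su hc)
      simp [this]
  have h2 : - (Q * ∫ z, u z * (fderiv ℝ (fun z => ζ z ^ 2) z 1 * b z -
      fderiv ℝ (fun z => ζ z ^ 2) z I * a z)) ≤
      (1 / 2) * (∫ z, ζ z ^ 2 * e z) + 2 * Q ^ 2 * ∫ z, gz ζ z * u z ^ 2 := by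
    rw [← integral_const_mul, ← integral_neg, ← integral_const_mul, ← integral_const_mul,
      ← integral_add (i1.const_mul _) (i3.const_mul _)]
    apply integral_mono (i4.const_mul Q).neg ((i1.const_mul _).add (i3.const_mul _))
    intro z
    simp only [Pi.neg_apply, Pi.add_apply]
    rw [sq_fderiv hζ.sm, sq_fderiv hζ.sm]
    by_cases hzG : z ∈ G
    · have h3 := hab z hzG
      simp only [gz]
      set X := fderiv ℝ ζ z 1
      set Y := fderiv ℝ ζ z I
      have h4 : ζ z ^ 2 * (a z ^ 2 + b z ^ 2) ≤ ζ z ^ 2 * e z :=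
        mul_le_mul_of_nonneg_left h3 (sq_nonneg _)
      nlinarith [sq_nonneg (ζ z * b z + 2 * Q * u z * X), sq_nonneg (ζ z * a z - 2 * Q * u z * Y)]
    · have h0 : ζ z = 0 := image_eq_zero_of_notMem_tsupport fun hc => hzG (hζ.su hc)
      have h5 := mul_nonneg (mul_nonneg (by norm_num : (0 : ℝ) ≤ 2) (sq_nonneg Q))
        (mul_nonneg (gz_nonneg ζ z) (sq_nonneg (u z)))
      simp only [h0]
      nlinarith [h5]
  rw [ibp] at h1
  linarith

end H5

open H5 MaxM in
theorem specCacc (hIBP : SpecIBP) : SpecCacc := by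
  intro G Q F Fx Fy hQ hQR ζ m hζ
  have hSP := qr_sp hQR
  have hwp := hQR.wp
  obtain ⟨j1, j2, j3⟩ := hIBP G 2 2 F Fx Fy hSP.hr hSP.hs hSP.hrs hwp univ (fun t => t - m)
    (fun _ => 1) isOpen_univ (fun t _ => (hasDerivAt_id t).sub_const m) continuousOn_const
    (fun z _ => mem_univ _) _ (sq_test hζ)
  simp only [mul_one] at j1 j3
  refine cacc_abs (a := fun z => (Fx z).im) (b := fun z => (Fy z).im)
    (j := fun z => jac (Fx z) (Fy z)) (u := fun z => (F z).re - m) hwp.op hζ hQR.qr ?_ ?_ j1 ?_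
    j2 j3
  · intro z _
    have := gi_le_en (Fx z) (Fy z)
    rwa [gi_sq] at this
  · apply mul_int (sq_test hζ).sm.continuous (sq_test hζ).cs
    exact en_int hwp (sq_test hζ).su (sq_test hζ).cs
  · have hc : Continuous fun z => gz ζ z * ((F z).re - m) ^ 2 :=
      mul_cont hwp.op (gz_cont hζ.sm) ((gz_ts ζ).trans hζ.su)
        (((Complex.continuous_re.comp_continuousOn hwp.co).sub continuousOn_const).pow 2)
    exact hc.integrable_of_hasCompactSupport (gz_cs hζ.cs).mul_right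

open H5 MaxM in
theorem specCaccL (hIBPL : SpecIBPL) : SpecCaccL := by
  intro G Q F Fx Fy hQ hQR hF ζ m hζ
  have hwp := hQR.wp
  obtain ⟨j1, j2, j3⟩ := hIBPL G F Fx Fy hwp hF univ (fun t => t - m)
    (fun _ => 1) isOpen_univ (fun t _ => (hasDerivAt_id t).sub_const m) continuousOn_const
    (fun z _ => mem_univ _) _ (sq_test hζ)
  simp only [mul_one] at j1 j3
  refine cacc_abs (a := fun z => (Fx z / F z).im) (b := fun z => (Fy z / F z).im)
    (j := fun z => jac (Fx z) (Fy z) / ‖F z‖ ^ 2) (u := fun z => Real.log ‖F z‖ - m) hwp.op hζ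
    ?_ ?_ ?_ j1 ?_ j2 j3
  · filter_upwards [hQR.qr, ae_restrict_mem hwp.op.measurableSet] with z hz hzG
    have hn : 0 < ‖F z‖ ^ 2 := by
      have := norm_pos_iff.mpr (hF z hzG)
      positivity
    rw [← mul_div_assoc]
    exact div_le_div_of_nonneg_right hz hn.le
  · intro z hzG
    have h1 := gi_le_en (Fx z / F z) (Fy z / F z)
    rw [gi_sq] at h1
    refine h1.trans (le_of_eq ?_)
    rw [div_eq_inv_mul, div_eq_inv_mul, en_mul, norm_inv]
    field_simp
  · have hc : ContinuousOn (fun z => (‖F z‖ ^ 2)⁻¹) G := by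
      apply ContinuousOn.inv₀ (hwp.co.norm.pow 2)
      intro z hz
      exact pow_ne_zero 2 (norm_ne_zero_iff.mpr (hF z hz))
    have hc2 : Continuous fun z => ζ z ^ 2 * (‖F z‖ ^ 2)⁻¹ :=
      mul_cont hwp.op (sq_test hζ).sm.continuous (sq_test hζ).su hc
    have hts : tsupport (fun z => ζ z ^ 2 * (‖F z‖ ^ 2)⁻¹) ⊆ tsupport fun z => ζ z ^ 2 :=
      tsupport_mul_subset_left
    have := mul_int (g := fun z => en (Fx z) (Fy z)) hc2 (sq_test hζ).cs.mul_right
      ((en_int hwp (sq_test hζ).su (sq_test hζ).cs).mono_set hts)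
    refine this.congr (Eventually.of_forall fun z => ?_)
    simp only
    rw [div_eq_mul_inv]
    ring
  · have hlog : ContinuousOn (fun z => Real.log ‖F z‖) G :=
      ContinuousOn.log hwp.co.norm fun z hz => norm_ne_zero_iff.mpr (hF z hz)
    have hc : Continuous fun z => gz ζ z * (Real.log ‖F z‖ - m) ^ 2 :=
      mul_cont hwp.op (gz_cont hζ.sm) ((gz_ts ζ).trans hζ.su)
        ((hlog.sub continuousOn_const).pow 2)
    exact hc.integrable_of_hasCompactSupport (gz_cs hζ.cs).mul_right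

end MPfa.Reg
end

section
/-!
Problem MP_fa0334_an, part REG, module CIRC: Harnack inequality on circles.
-/
set_option autoImplicit false

open MeasureTheory Set Filter Topology Metric Complex
open scoped ContDiff ENNReal ComplexConjugate

namespace MPfa.Reg

namespace CircM

theorem exp_sub_le (φ φ' : ℝ) :
    ‖Complex.exp (I * (φ : ℂ)) - Complex.exp (I * (φ' : ℂ))‖ ≤ |φ - φ'| := by
  have h1 : Complex.exp (I * (φ : ℂ)) - Complex.exp (I * (φ' : ℂ)) =
      Complex.exp (I * (φ' : ℂ)) * (Complex.exp (I * ((φ - φ' : ℝ) : ℂ)) - 1) := by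
    rw [mul_sub, ← Complex.exp_add, mul_one]
    congr 2
    push_cast; ring
  rw [h1, norm_mul, mul_comm I (φ' : ℂ), Complex.norm_exp_ofReal_mul_I, one_mul]
  have := Real.norm_exp_I_mul_ofReal_sub_one_le (x := φ - φ')
  rwa [Real.norm_eq_abs] at this

/-- a chain of `128` steps in a ring -/
theorem chain {t ρ₁ ρ₂ : ℝ} (h1 : 0 < ρ₁) (h2 : ρ₂ ≤ 9 / 8 * t)
    (h3 : ρ₂ - ρ₁ ≤ t / 2) {z z' : ℂ} (hz1 : ρ₁ ≤ ‖z‖) (hz2 : ‖z‖ ≤ ρ₂) (hz1' : ρ₁ ≤ ‖z'‖)
    (hz2' : ‖z'‖ ≤ ρ₂) : ∃ c : ℕ → ℂ, c 0 = z ∧ c 128 = z' ∧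
      ∀ k, k < 128 → (ρ₁ ≤ ‖c k‖ ∧ ‖c k‖ ≤ ρ₂) ∧ ‖c (k + 1) - c k‖ ≤ t / 16 := by
  set a : ℕ → ℝ := fun k => (1 - (k : ℝ) / 128) * ‖z‖ + (k : ℝ) / 128 * ‖z'‖ with ha
  set φ : ℕ → ℝ := fun k => (1 - (k : ℝ) / 128) * z.arg + (k : ℝ) / 128 * z'.arg with hφ
  refine ⟨fun k => (a k : ℂ) * Complex.exp (I * (φ k : ℂ)), ?_, ?_, ?_⟩
  · simp only [ha, hφ]
    have e : (((1 - ((0 : ℕ) : ℝ) / 128) * ‖z‖ + ((0 : ℕ) : ℝ) / 128 * ‖z'‖ : ℝ) : ℂ) = ‖z‖ := by
      push_cast; ring
    have e' : (((1 - ((0 : ℕ) : ℝ) / 128) * z.arg + ((0 : ℕ) : ℝ) / 128 * z'.arg : ℝ) : ℂ) =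
        z.arg := by push_cast; ring
    rw [e, e', mul_comm I]
    exact Complex.norm_mul_exp_arg_mul_I z
  · simp only [ha, hφ]
    have e : (((1 - ((128 : ℕ) : ℝ) / 128) * ‖z‖ + ((128 : ℕ) : ℝ) / 128 * ‖z'‖ : ℝ) : ℂ) =
        ‖z'‖ := by push_cast; ring
    have e' : (((1 - ((128 : ℕ) : ℝ) / 128) * z.arg + ((128 : ℕ) : ℝ) / 128 * z'.arg : ℝ) : ℂ) =
        z'.arg := by push_cast; ring
    rw [e, e', mul_comm I]
    exact Complex.norm_mul_exp_arg_mul_I z'
  · intro k hk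
    have hk0 : (0 : ℝ) ≤ (k : ℝ) / 128 := by positivity
    have hk1 : (k : ℝ) / 128 ≤ 1 := by
      rw [div_le_one (by norm_num)]
      exact_mod_cast hk.le
    have hk1' : ((k + 1 : ℕ) : ℝ) / 128 ≤ 1 := by
      rw [div_le_one (by norm_num)]
      exact_mod_cast (by omega : k + 1 ≤ 128)
    have hak : ρ₁ ≤ a k ∧ a k ≤ ρ₂ := by
      simp only [ha]
      constructor <;> nlinarith
    have hak' : ρ₁ ≤ a (k + 1) ∧ a (k + 1) ≤ ρ₂ := by
      simp only [ha]
      have : (0 : ℝ) ≤ ((k + 1 : ℕ) : ℝ) / 128 := by positivity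
      constructor <;> nlinarith
    have hn : ∀ j : ℕ, 0 ≤ a j → ‖(a j : ℂ) * Complex.exp (I * (φ j : ℂ))‖ = a j := by
      intro j hj
      rw [norm_mul, mul_comm I, Complex.norm_exp_ofReal_mul_I, mul_one, Complex.norm_real,
        Real.norm_eq_abs, abs_of_nonneg hj]
    refine ⟨?_, ?_⟩
    · show ρ₁ ≤ ‖(a k : ℂ) * Complex.exp (I * (φ k : ℂ))‖ ∧
        ‖(a k : ℂ) * Complex.exp (I * (φ k : ℂ))‖ ≤ ρ₂
      rw [hn k (h1.le.trans hak.1)]
      exact hak
    · show ‖(a (k + 1) : ℂ) * Complex.exp (I * (φ (k + 1) : ℂ)) -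
        (a k : ℂ) * Complex.exp (I * (φ k : ℂ))‖ ≤ t / 16
      have e1 : (a (k + 1) : ℂ) * Complex.exp (I * (φ (k + 1) : ℂ)) -
          (a k : ℂ) * Complex.exp (I * (φ k : ℂ)) =
          ((a (k + 1) - a k : ℝ) : ℂ) * Complex.exp (I * (φ (k + 1) : ℂ)) +
          (a k : ℂ) * (Complex.exp (I * (φ (k + 1) : ℂ)) - Complex.exp (I * (φ k : ℂ))) := by
        push_cast; ring
      rw [e1]
      have n1 : ‖((a (k + 1) - a k : ℝ) : ℂ) * Complex.exp (I * (φ (k + 1) : ℂ))‖ ≤
          (ρ₂ - ρ₁) / 128 := by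
        rw [norm_mul, mul_comm I, Complex.norm_exp_ofReal_mul_I, mul_one, Complex.norm_real,
          Real.norm_eq_abs]
        have : a (k + 1) - a k = (‖z'‖ - ‖z‖) / 128 := by
          simp only [ha]; push_cast; ring
        rw [this, abs_div, abs_of_pos (by norm_num : (0 : ℝ) < 128)]
        refine div_le_div_of_nonneg_right ?_ (by norm_num)
        rw [abs_le]
        constructor <;> linarith
      have n2 : ‖(a k : ℂ) * (Complex.exp (I * (φ (k + 1) : ℂ)) -
          Complex.exp (I * (φ k : ℂ)))‖ ≤ ρ₂ * (2 * Real.pi / 128) := by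
        rw [norm_mul, Complex.norm_real, Real.norm_eq_abs, abs_of_nonneg (h1.le.trans hak.1)]
        refine mul_le_mul hak.2 ((exp_sub_le _ _).trans ?_) (norm_nonneg _)
          (by linarith [hak.1, hak.2])
        have : φ (k + 1) - φ k = (z'.arg - z.arg) / 128 := by
          simp only [hφ]; push_cast; ring
        rw [this, abs_div, abs_of_pos (by norm_num : (0 : ℝ) < 128)]
        refine div_le_div_of_nonneg_right ?_ (by norm_num)
        have a1 := Complex.neg_pi_lt_arg z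
        have a2 := Complex.arg_le_pi z
        have a3 := Complex.neg_pi_lt_arg z'
        have a4 := Complex.arg_le_pi z'
        rw [abs_le]
        constructor <;> linarith
      refine (norm_add_le _ _).trans ((add_le_add n1 n2).trans ?_)
      have hpi : Real.pi < 3.15 := Real.pi_lt_d2
      have hρ2 : 0 < ρ₂ := by linarith [hak.1, hak.2]
      nlinarith [Real.pi_pos]

/-- local logarithms -/
theorem loclog (hD : SpecDLog) (hQ : SpecQInv) {r Q : ℝ} {F Fx Fy : ℂ → ℂ} (hQ0 : 0 < Q)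
    (h : QR (pun r) Q F Fx Fy) (hne : ∀ z ∈ pun r, F z ≠ 0) {c : ℂ} {R : ℝ}
    (hsub : ball c R ⊆ pun r) : ∃ L : ℂ → ℂ, (∀ z ∈ ball c R, (L z).re = Real.log ‖F z‖) ∧
      QR (ball c R) Q L ((ball c R).indicator fun z => Fx z / F z)
        ((ball c R).indicator fun z => Fy z / F z) := by
  obtain ⟨L, hL, hLe⟩ := hD c R F (h.wp.co.mono hsub) fun z hz => hne z (hsub hz)
  refine ⟨L, fun z hz => ?_, ?_⟩
  · rw [hLe z hz, Complex.norm_exp, Real.log_exp]
  · exact (hQ (ball c R) Q F Fx Fy hQ0 (Base.QR_mono h isOpen_ball hsub)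
      fun z hz => hne z (hsub hz)).2 L hL hLe

end CircM

open CircM in
/-- CIRC -/
theorem specCirc (hH : SpecHarn) (hQI : SpecQInv) (hD : SpecDLog) : SpecCirc := by
  intro Q hQ
  obtain ⟨C, hC1, hC⟩ := hH Q hQ
  refine ⟨C ^ 128, one_le_pow₀ hC1, fun r F Fx Fy h hne t M ht htr hM z z' h1 h2 h1' h2' => ?_⟩
  obtain ⟨c, c0, c1, hc⟩ := chain (t := t) (ρ₁ := 7 / 8 * t) (ρ₂ := 9 / 8 * t) (by linarith) le_rfl
    (by linarith) h1 h2 h1' h2'
  have step : ∀ k, k < 128 → M - Real.log ‖F (c k)‖ ≤ C * (M - Real.log ‖F (c (k + 1))‖) := by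
    intro k hk
    obtain ⟨⟨hk1, hk2⟩, hk3⟩ := hc k hk
    have hin : ∀ w ∈ ball (c k) (3 * t / 8), t / 2 < ‖w‖ ∧ ‖w‖ < 2 * t := by
      intro w hw
      rw [mem_ball, dist_eq_norm] at hw
      have e1 : ‖c k‖ - ‖w‖ ≤ ‖c k - w‖ := norm_sub_norm_le _ _
      have e2 : ‖w‖ - ‖c k‖ ≤ ‖w - c k‖ := norm_sub_norm_le _ _
      rw [norm_sub_rev] at e1
      constructor <;> linarith
    have hsub : ball (c k) (3 * t / 8) ⊆ pun r := by
      intro w hw
      have := hin w hw
      rw [Base.mem_pun]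
      refine ⟨by linarith [this.2], fun h0 => ?_⟩
      rw [h0, norm_zero] at this
      linarith [this.1]
    obtain ⟨L, hL, hLQ⟩ := loclog hD hQI hQ h hne hsub
    have hR : 0 < 3 * t / 8 := by linarith
    have hck : c k ∈ closedBall (c k) (3 * t / 8 / 4) := mem_closedBall_self (by linarith)
    have hck1 : c (k + 1) ∈ closedBall (c k) (3 * t / 8 / 4) := by
      rw [mem_closedBall, dist_eq_norm]
      linarith
    have hb : closedBall (c k) (3 * t / 8 / 4) ⊆ ball (c k) (3 * t / 8) :=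
      closedBall_subset_ball (by linarith)
    have := hC (c k) (3 * t / 8) L _ _ M hR hLQ
      (fun w hw => by rw [hL w hw]; exact hM w (hin w hw).1 (hin w hw).2) _ hck _ hck1
    rwa [hL _ (hb hck), hL _ (hb hck1)] at this
  have hC0 : 0 ≤ C := by linarith
  have ind : ∀ n, n ≤ 128 → M - Real.log ‖F (c 0)‖ ≤ C ^ n * (M - Real.log ‖F (c n)‖) := by
    intro n
    induction n with
    | zero => intro _; simp
    | succ n ih =>
      intro hn
      refine (ih (by omega)).trans ?_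
      rw [pow_succ, mul_assoc]
      exact mul_le_mul_of_nonneg_left (step n (by omega)) (pow_nonneg hC0 n)
  have := ind 128 le_rfl
  rwa [c0, c1] at this

end MPfa.Reg
end

section
/-!
Problem MP_fa0334_an, part REG, modules SUP and HARN.
-/
set_option autoImplicit false

open MeasureTheory Set Filter Topology Metric Complex
open scoped ContDiff ENNReal ComplexConjugate

namespace MPfa.Reg

namespace H5

open MaxM

/-- restriction of a cut-off energy to the set where the cut-off is one -/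
lemma restrict_le {S : Set ℂ} {ζ e : ℂ → ℝ} (hS : MeasurableSet S) (h1 : ∀ z ∈ S, ζ z = 1)
    (he : ∀ z, 0 ≤ e z) (hi : Integrable fun z => ζ z ^ 2 * e z) :
    ∫ z in S, e z ≤ ∫ z, ζ z ^ 2 * e z := by
  calc ∫ z in S, e z = ∫ z in S, ζ z ^ 2 * e z := by
        apply setIntegral_congr_fun hS
        intro z hz
        simp [h1 z hz]
    _ ≤ _ := setIntegral_le_integral hi
        (Eventually.of_forall fun z => mul_nonneg (sq_nonneg _) (he z))

/-- the energy of a cut-off function -/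
lemma gz_int_le {c : ℂ} {R A : ℝ} {ζ : ℂ → ℝ} (hR : 0 ≤ R) (hζ : Test (ball c R) ζ)
    (hg : ∀ z, gz ζ z ≤ A) : ∫ z, gz ζ z ≤ A * (Real.pi * R ^ 2) := by
  have h1 : ∫ z, gz ζ z = ∫ z in ball c R, gz ζ z := by
    rw [setIntegral_eq_integral_of_forall_compl_eq_zero]
    intro z hz
    exact gz_off fun hc => hz (hζ.su hc)
  rw [h1]
  calc ∫ z in ball c R, gz ζ z ≤ ∫ _ in ball c R, A := by
        apply setIntegral_mono
        · exact ((gz_cont hζ.sm).integrable_of_hasCompactSupport (gz_cs hζ.cs)).integrableOn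
        · exact integrableOn_const measure_ball_lt_top.ne
        · exact hg
    _ = _ := by
        rw [setIntegral_const, smul_eq_mul, mul_comm]
        congr 1
        rw [Measure.real, Complex.volume_ball, ENNReal.toReal_mul, ENNReal.toReal_pow,
          ENNReal.toReal_ofReal hR, mul_comm]
        rfl

end H5

open H5 MaxM in
theorem specSup (hCacc : SpecCacc) (hOscQ : SpecOscQ) (hCut : SpecCut) : SpecSup := by
  intro Q hQ
  obtain ⟨C₀, hC₀, hcut⟩ := hCut
  have hlog2 : 0 < Real.log 2 := Real.log_pos (by norm_num)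
  have hpi := Real.pi_pos
  refine ⟨256 * Real.pi * Q ^ 2 * C₀ ^ 2 / Real.log 2 + 32 / Real.pi, by positivity, ?_⟩
  intro c R F Fx Fy B hR hQR hB hFB z hz
  have hwp := hQR.wp
  obtain ⟨ζ, hζ, hζ01, hζ1, hζg⟩ := hcut c (R / 2) (3 * R / 4) (by linarith) (by linarith)
  have hsub : ball c (3 * R / 4) ⊆ ball c R := ball_subset_ball (by linarith)
  have hζR : Test (ball c R) ζ := ⟨hζ.sm, hζ.cs, hζ.su.trans hsub⟩
  have hcacc := hCacc (ball c R) Q F Fx Fy hQ hQR ζ 0 hζR
  -- the right hand side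
  have hg : ∀ z, gz ζ z ≤ 16 * C₀ ^ 2 / R ^ 2 := by
    intro z
    refine (hζg z).trans (le_of_eq ?_)
    have : 3 * R / 4 - R / 2 = R / 4 := by ring
    rw [this]
    field_simp
    ring
  have hFc : ContinuousOn (fun z => ‖F z‖ ^ 2) (ball c R) := hwp.co.norm.pow 2
  have hFi : IntegrableOn (fun z => ‖F z‖ ^ 2) (ball c R) := by
    refine ⟨hFc.aestronglyMeasurable measurableSet_ball, ?_⟩
    rw [hasFiniteIntegral_iff_ofReal (Eventually.of_forall fun z => by positivity)]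
    refine lt_of_le_of_lt (le_trans (le_of_eq ?_) hFB) ENNReal.ofReal_lt_top
    apply lintegral_congr
    intro z
    rw [ENNReal.ofReal_pow (norm_nonneg _), ofReal_norm]
  have hFB' : ∫ z in ball c R, ‖F z‖ ^ 2 ≤ B := by
    rw [integral_eq_lintegral_of_nonneg_ae (Eventually.of_forall fun z => by positivity)
      (hFc.aestronglyMeasurable measurableSet_ball)]
    refine ENNReal.toReal_le_of_le_ofReal hB (le_trans (le_of_eq ?_) hFB)
    apply lintegral_congr
    intro z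
    rw [ENNReal.ofReal_pow (norm_nonneg _), ofReal_norm]
  have hrhs : ∫ z, gz ζ z * ((F z).re - 0) ^ 2 ≤ 16 * C₀ ^ 2 / R ^ 2 * B := by
    have h1 : ∫ z, gz ζ z * ((F z).re - 0) ^ 2 = ∫ z in ball c R, gz ζ z * ((F z).re - 0) ^ 2 := by
      rw [setIntegral_eq_integral_of_forall_compl_eq_zero]
      intro z hz
      rw [gz_off fun hc => hz (hζR.su hc), zero_mul]
    rw [h1]
    calc ∫ z in ball c R, gz ζ z * ((F z).re - 0) ^ 2
        ≤ ∫ z in ball c R, 16 * C₀ ^ 2 / R ^ 2 * ‖F z‖ ^ 2 := by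
          apply integral_mono_of_nonneg
          · exact Eventually.of_forall fun z => mul_nonneg (gz_nonneg _ _) (sq_nonneg _)
          · exact hFi.const_mul _
          · refine Eventually.of_forall fun z => ?_
            simp only [sub_zero]
            have h2 : (F z).re ^ 2 ≤ ‖F z‖ ^ 2 := by
              rw [nsq (F z)]
              nlinarith [sq_nonneg (F z).im]
            exact mul_le_mul (hg z) h2 (sq_nonneg _) (by positivity)
      _ = 16 * C₀ ^ 2 / R ^ 2 * ∫ z in ball c R, ‖F z‖ ^ 2 := integral_const_mul _ _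
      _ ≤ _ := by
          apply mul_le_mul_of_nonneg_left hFB'
          positivity
  -- the energy of the half ball
  have hi : Integrable fun z => ζ z ^ 2 * en (Fx z) (Fy z) :=
    mul_int (sq_test hζR).sm.continuous (sq_test hζR).cs
      (en_int hwp (sq_test hζR).su (sq_test hζR).cs)
  have hE : ∫ z in ball c (R / 2), en (Fx z) (Fy z) ≤ 4 * Q ^ 2 * (16 * C₀ ^ 2 / R ^ 2 * B) := by
    refine (restrict_le measurableSet_ball (fun z hz => hζ1 z (ball_subset_closedBall hz))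
      (fun z => en_nonneg _ _) hi).trans (hcacc.trans ?_)
    apply mul_le_mul_of_nonneg_left hrhs
    positivity
  -- oscillation
  have hsub2 : closedBall c (R / 2) ⊆ ball c R := closedBall_subset_ball (by linarith)
  have hosc : ∀ z' ∈ closedBall c (R / 4),
      ‖F z - F z'‖ ^ 2 * Real.log 2 ≤ 2 * Real.pi * (4 * Q ^ 2 * (16 * C₀ ^ 2 / R ^ 2 * B)) := by
    intro z' hz'
    have h := hOscQ (ball c R) Q F Fx Fy hQ hQR c (R / 4) (R / 2) (by linarith) (by linarith)
      hsub2 z hz z' hz'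
    have h2 : R / 2 / (R / 4) = 2 := by
      field_simp
      norm_num
    rw [h2] at h
    refine h.trans ?_
    apply mul_le_mul_of_nonneg_left hE
    positivity
  -- a point where `F` is small
  have hsub4 : closedBall c (R / 4) ⊆ ball c R := closedBall_subset_ball (by linarith)
  obtain ⟨z', hz', hmin⟩ := (isCompact_closedBall c (R / 4)).exists_isMinOn
    ⟨c, mem_closedBall_self (by linarith)⟩ (hFc.mono hsub4)
  have hsmall : ‖F z'‖ ^ 2 * (Real.pi * (R / 4) ^ 2) ≤ B := by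
    calc ‖F z'‖ ^ 2 * (Real.pi * (R / 4) ^ 2) = ∫ _ in closedBall c (R / 4), ‖F z'‖ ^ 2 := by
          rw [setIntegral_const, smul_eq_mul, mul_comm]
          congr 1
          rw [Measure.real, Complex.volume_closedBall, ENNReal.toReal_mul, ENNReal.toReal_pow,
            ENNReal.toReal_ofReal (by linarith), mul_comm]
          rfl
      _ ≤ ∫ z in closedBall c (R / 4), ‖F z‖ ^ 2 := by
          apply setIntegral_mono_on
          · exact integrableOn_const (isCompact_closedBall c (R / 4)).measure_lt_top.ne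
          · exact hFi.mono_set hsub4
          · exact measurableSet_closedBall
          · intro w hw
            exact hmin hw
      _ ≤ ∫ z in ball c R, ‖F z‖ ^ 2 := by
          apply setIntegral_mono_set hFi
          · exact Eventually.of_forall fun z => by positivity
          · exact hsub4.eventuallyLE
      _ ≤ B := hFB'
  have h1 := hosc z' hz'
  have h2 : ‖F z‖ ^ 2 ≤ 2 * ‖F z - F z'‖ ^ 2 + 2 * ‖F z'‖ ^ 2 := by
    have h3 : ‖F z‖ ≤ ‖F z - F z'‖ + ‖F z'‖ := by
      have := norm_add_le (F z - F z') (F z')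
      simpa using this
    nlinarith [norm_nonneg (F z), norm_nonneg (F z - F z'), norm_nonneg (F z'),
      sq_nonneg (‖F z - F z'‖ - ‖F z'‖)]
  have h3 : ‖F z - F z'‖ ^ 2 ≤ 128 * Real.pi * Q ^ 2 * C₀ ^ 2 / Real.log 2 / R ^ 2 * B := by
    have : 128 * Real.pi * Q ^ 2 * C₀ ^ 2 / Real.log 2 / R ^ 2 * B =
        (2 * Real.pi * (4 * Q ^ 2 * (16 * C₀ ^ 2 / R ^ 2 * B))) / Real.log 2 := by
      field_simp
      ring
    rw [this, le_div_iff₀ hlog2]
    exact h1
  have h4 : ‖F z'‖ ^ 2 ≤ 16 / Real.pi / R ^ 2 * B := by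
    have : 16 / Real.pi / R ^ 2 * B = B / (Real.pi * (R / 4) ^ 2) := by
      field_simp
      ring
    rw [this, le_div_iff₀ (by positivity)]
    exact hsmall
  calc ‖F z‖ ^ 2 ≤ 2 * ‖F z - F z'‖ ^ 2 + 2 * ‖F z'‖ ^ 2 := h2
    _ ≤ 2 * (128 * Real.pi * Q ^ 2 * C₀ ^ 2 / Real.log 2 / R ^ 2 * B) +
        2 * (16 / Real.pi / R ^ 2 * B) := by linarith
    _ = _ := by ring


namespace H5

open MaxM

/-- `L²` times continuous -/
lemma lrl_mul {G : Set ℂ} {u c w : ℂ → ℝ} (hu : Lrl G 2 u) (hc : ContinuousOn c G)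
    (hw : ∀ z ∈ G, w z = c z * u z) : Lrl G 2 w := by
  rw [lrl_two] at *
  intro K hK hKc
  obtain ⟨B, hB⟩ := hKc.exists_bound_of_continuousOn (hc.mono hK)
  calc ∫⁻ z in K, ENNReal.ofReal (w z ^ 2)
      ≤ ∫⁻ z in K, ENNReal.ofReal (B ^ 2) * ENNReal.ofReal (u z ^ 2) := by
        apply setLIntegral_mono' hKc.measurableSet
        intro z hz
        rw [← ENNReal.ofReal_mul (by positivity)]
        apply ENNReal.ofReal_le_ofReal
        rw [hw z (hK hz), mul_pow]
        apply mul_le_mul_of_nonneg_right _ (sq_nonneg _)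
        have h1 := hB z hz
        rw [Real.norm_eq_abs] at h1
        rw [← sq_abs]
        exact pow_le_pow_left₀ (abs_nonneg _) h1 2
    _ = ENNReal.ofReal (B ^ 2) * ∫⁻ z in K, ENNReal.ofReal (u z ^ 2) :=
        lintegral_const_mul' _ _ ENNReal.ofReal_ne_top
    _ < ⊤ := ENNReal.mul_lt_top ENNReal.ofReal_lt_top (hu K hK hKc)

/-- the function `log (M - Re q)` -/
noncomputable def lg (M : ℝ) (q : ℂ) : ℂ := ((Real.log (M - q.re) : ℝ) : ℂ)

lemma lg_deriv {M : ℝ} {q : ℂ} (h : q.re < M) :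
    HasFDerivAt (lg M) (Complex.ofRealCLM.comp (((M - q.re)⁻¹ : ℝ) • (-Complex.reCLM))) q := by
  have h1 : HasFDerivAt (fun q : ℂ => M - q.re) (-Complex.reCLM) q := by
    have := (Complex.reCLM.hasFDerivAt (x := q)).const_sub M
    simpa using this
  have h2 : HasFDerivAt (fun q : ℂ => Real.log (M - q.re)) (((M - q.re)⁻¹ : ℝ) • (-Complex.reCLM))
      q := h1.log (by linarith)
  exact Complex.ofRealCLM.hasFDerivAt.comp q h2

lemma lg_C1 (M : ℝ) : ContDiffOn ℝ 1 (lg M) {q : ℂ | q.re < M} := by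
  have h1 : ContDiffOn ℝ 1 (fun q : ℂ => M - q.re) {q : ℂ | q.re < M} :=
    (contDiff_const.sub Complex.reCLM.contDiff).contDiffOn
  have h2 : ContDiffOn ℝ 1 (fun q : ℂ => Real.log (M - q.re)) {q : ℂ | q.re < M} :=
    h1.log fun q hq => by
      have : q.re < M := hq
      linarith
  exact Complex.ofRealCLM.contDiff.comp_contDiffOn h2

/-- the energy estimate for `log (M - u)` -/
lemma harn_energy (hIBP : SpecIBP) {G : Set ℂ} {Q M : ℝ} {L Lx Ly : ℂ → ℂ}
    (hQR : QR G Q L Lx Ly) (hM : ∀ z ∈ G, (L z).re < M) {ζ : ℂ → ℝ} (hζ : Test G ζ) :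
    Integrable (fun z => ζ z ^ 2 * (en (Lx z) (Ly z) / (M - (L z).re) ^ 2)) ∧
    ∫ z, ζ z ^ 2 * (en (Lx z) (Ly z) / (M - (L z).re) ^ 2) ≤ 4 * Q ^ 2 * ∫ z, gz ζ z := by
  have hSP := qr_sp hQR
  have hwp := hQR.wp
  have hder : ∀ t ∈ Iio M, HasDerivAt (fun t : ℝ => (M - t)⁻¹) ((M - t) ^ 2)⁻¹ t := by
    intro t ht
    have h1 : HasDerivAt (fun t : ℝ => M - t) (-1) t := by
      simpa using (hasDerivAt_id t).const_sub M
    have h2 := h1.fun_inv (by linarith [mem_Iio.mp ht] : M - t ≠ 0)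
    have h3 : ((M - t) ^ 2)⁻¹ = - -1 / (M - t) ^ 2 := by rw [neg_neg, one_div]
    rw [h3]
    exact h2
  have hcd : ContinuousOn (fun t : ℝ => ((M - t) ^ 2)⁻¹) (Iio M) := by
    apply ContinuousOn.inv₀ (by fun_prop)
    intro t ht
    have := mem_Iio.mp ht
    exact pow_ne_zero 2 (by linarith)
  obtain ⟨j1, j2, j3⟩ := hIBP G 2 2 L Lx Ly hSP.hr hSP.hs hSP.hrs hwp (Iio M) _ _ isOpen_Iio hder
    hcd hM _ (sq_test hζ)
  have hcw : ContinuousOn (fun z => ((M - (L z).re) ^ 2)⁻¹) G := by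
    apply ContinuousOn.inv₀
    · exact (continuousOn_const.sub (Complex.continuous_re.comp_continuousOn hwp.co)).pow 2
    · intro z hz
      exact pow_ne_zero 2 (by linarith [hM z hz])
  have hi1 : Integrable fun z => ζ z ^ 2 * (en (Lx z) (Ly z) / (M - (L z).re) ^ 2) := by
    have hc2 : Continuous fun z => ζ z ^ 2 * ((M - (L z).re) ^ 2)⁻¹ :=
      mul_cont hwp.op (sq_test hζ).sm.continuous (sq_test hζ).su hcw
    have hts : tsupport (fun z => ζ z ^ 2 * ((M - (L z).re) ^ 2)⁻¹) ⊆ tsupport fun z => ζ z ^ 2 :=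
      tsupport_mul_subset_left
    have := mul_int (g := fun z => en (Lx z) (Ly z)) hc2 (sq_test hζ).cs.mul_right
      ((en_int hwp (sq_test hζ).su (sq_test hζ).cs).mono_set hts)
    refine this.congr (Eventually.of_forall fun z => ?_)
    simp only
    rw [div_eq_mul_inv]
    ring
  refine ⟨hi1, ?_⟩
  have hgi : Integrable (gz ζ) := (gz_cont hζ.sm).integrable_of_hasCompactSupport (gz_cs hζ.cs)
  have e1 : ∀ z, ζ z ^ 2 * ((M - (L z).re) ^ 2)⁻¹ * jac (Lx z) (Ly z) =
      ζ z ^ 2 * (jac (Lx z) (Ly z) / (M - (L z).re) ^ 2) := by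
    intro z
    rw [div_eq_mul_inv]
    ring
  have e2 : ∀ z, (M - (L z).re)⁻¹ * (fderiv ℝ (fun z => ζ z ^ 2) z 1 * (Ly z).im -
      fderiv ℝ (fun z => ζ z ^ 2) z I * (Lx z).im) =
      1 * (fderiv ℝ (fun z => ζ z ^ 2) z 1 * ((Ly z).im * (M - (L z).re)⁻¹) -
      fderiv ℝ (fun z => ζ z ^ 2) z I * ((Lx z).im * (M - (L z).re)⁻¹)) := by
    intro z
    ring
  simp only [e1, e2] at j1 j2 j3
  have A1 : ∀ᵐ z ∂(volume.restrict G), en (Lx z) (Ly z) / (M - (L z).re) ^ 2 ≤
      Q * (jac (Lx z) (Ly z) / (M - (L z).re) ^ 2) := by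
    filter_upwards [hQR.qr, ae_restrict_mem hwp.op.measurableSet] with z hz hzG
    have hn : 0 < (M - (L z).re) ^ 2 := by
      have := hM z hzG
      have : 0 < M - (L z).re := by linarith
      positivity
    rw [← mul_div_assoc]
    exact div_le_div_of_nonneg_right hz hn.le
  have A2 : ∀ z ∈ G, ((Lx z).im * (M - (L z).re)⁻¹) ^ 2 + ((Ly z).im * (M - (L z).re)⁻¹) ^ 2 ≤
      en (Lx z) (Ly z) / (M - (L z).re) ^ 2 := by
    intro z hzG
    have h1 := gi_le_en (Lx z) (Ly z)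
    rw [gi_sq] at h1
    rw [mul_pow, mul_pow, ← add_mul, inv_pow, ← div_eq_mul_inv]
    exact div_le_div_of_nonneg_right h1 (sq_nonneg _)
  have h := cacc_abs (u := fun _ => 1) hwp.op hζ A1 A2 hi1 j1 (by simpa using hgi) j2 j3
  simpa using h

end H5

open H5 MaxM in
theorem specHarn (hIBP : SpecIBP) (hComp : SpecComp) (hCL : SpecCL) (hMax : SpecMax)
    (hCut : SpecCut) : SpecHarn := by
  intro Q hQ
  obtain ⟨C₀, hC₀, hcut⟩ := hCut
  have hlog2 : 0 < Real.log 2 := Real.log_pos (by norm_num)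
  have hpi := Real.pi_pos
  set D : ℝ := 4 * Q ^ 2 * (16 * C₀ ^ 2 * Real.pi) with hD
  have hD0 : 0 ≤ D := by positivity
  set o : ℝ := Real.sqrt (2 * Real.pi * D / Real.log 2) + 1 with ho
  have ho0 : 0 ≤ o := by positivity
  have ho1 : 2 * Real.pi * D < o ^ 2 * Real.log 2 := by
    have h1 : 0 ≤ 2 * Real.pi * D / Real.log 2 := by positivity
    have h2 := Real.sq_sqrt h1
    have h3 := Real.sqrt_nonneg (2 * Real.pi * D / Real.log 2)
    rw [← div_lt_iff₀ hlog2, ho]
    nlinarith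
  refine ⟨Real.exp o, by rw [← Real.exp_zero]; exact Real.exp_le_exp.mpr ho0, ?_⟩
  intro c R L Lx Ly M hR hQR hM z hz z' hz'
  have hwp := hQR.wp
  -- energy bound
  obtain ⟨ζ, hζ, hζ01, hζ1, hζg⟩ := hcut c (R / 2) (3 * R / 4) (by linarith) (by linarith)
  have hsub : ball c (3 * R / 4) ⊆ ball c R := ball_subset_ball (by linarith)
  have hζR : Test (ball c R) ζ := ⟨hζ.sm, hζ.cs, hζ.su.trans hsub⟩
  obtain ⟨hi, hen⟩ := harn_energy hIBP hQR hM hζR
  have hg : ∀ z, gz ζ z ≤ 16 * C₀ ^ 2 / R ^ 2 := by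
    intro z
    refine (hζg z).trans (le_of_eq ?_)
    have : 3 * R / 4 - R / 2 = R / 4 := by ring
    rw [this]
    field_simp
    ring
  have hgi := gz_int_le hR.le hζR hg
  have hE : ∫ z in ball c (R / 2), en (Lx z) (Ly z) / (M - (L z).re) ^ 2 ≤ D := by
    refine (restrict_le measurableSet_ball (fun z hz => hζ1 z (ball_subset_closedBall hz))
      (fun z => div_nonneg (en_nonneg _ _) (sq_nonneg _)) hi).trans (hen.trans ?_)
    rw [hD]
    apply mul_le_mul_of_nonneg_left _ (by positivity)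
    refine hgi.trans (le_of_eq ?_)
    field_simp
  -- the logarithm
  have hU : IsOpen {q : ℂ | q.re < M} := isOpen_lt Complex.continuous_re continuous_const
  have hlwd := hComp (ball c R) {q : ℂ | q.re < M} L Lx Ly (lg M) isOpen_ball hwp.co hwp.wd hU
    (lg_C1 M) hM
  have hfd : ∀ z ∈ ball c R, ∀ v : ℂ, fderiv ℝ (lg M) (L z) v =
      (((M - (L z).re)⁻¹ * -v.re : ℝ) : ℂ) := by
    intro z hz v
    rw [(lg_deriv (hM z hz)).fderiv]
    simp
  have hlc : ContinuousOn (fun z => lg M (L z)) (ball c R) :=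
    (lg_C1 M).continuousOn.comp hwp.co hM
  have hinvc : ContinuousOn (fun z => -(M - (L z).re)⁻¹) (ball c R) := by
    apply ContinuousOn.neg
    apply ContinuousOn.inv₀
    · exact continuousOn_const.sub (Complex.continuous_re.comp_continuousOn hwp.co)
    · intro z hz
      linarith [hM z hz]
  have hind : ∀ K : ℂ → ℂ, ∀ z ∈ ball c R,
      ((ball c R).indicator (fun z => fderiv ℝ (lg M) (L z) (K z)) z).re =
      -(M - (L z).re)⁻¹ * (K z).re := by
    intro K z hz
    rw [indicator_of_mem hz, hfd z hz, Complex.ofReal_re]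
    ring
  have hcl : ∀ hypo : (∀ t ∈ Icc (R / 4) (R / 2), ∃ w ∈ sphere c t, ∃ w' ∈ sphere c t,
      o ≤ |(lg M (L w)).re - (lg M (L w')).re|), False := by
    intro hypo
    have h := hCL (ball c R) _ _ _ c (R / 4) (R / 2) o isOpen_ball hlc hlwd
      (lrl_mul hwp.rx hinvc (hind Lx)) (lrl_mul hwp.ry hinvc (hind Ly)) (by linarith)
      (by linarith) (closedBall_subset_ball (by linarith)) ho0 hypo
    have h2 : R / 2 / (R / 4) = 2 := by
      field_simp
      norm_num
    rw [h2] at h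
    have h3 : ∫ z in ball c (R / 2), ‖gr ((ball c R).indicator
        (fun z => fderiv ℝ (lg M) (L z) (Lx z)) z) ((ball c R).indicator
        (fun z => fderiv ℝ (lg M) (L z) (Ly z)) z)‖ ^ 2 ≤ D := by
      refine le_trans ?_ hE
      have hsub3 : ball c (R / 2) ⊆ ball c R := ball_subset_ball (by linarith)
      have hfi : IntegrableOn (fun z => en (Lx z) (Ly z) / (M - (L z).re) ^ 2)
          (ball c (R / 2)) := by
        refine (hi.integrableOn (s := ball c (R / 2))).congr_fun ?_ measurableSet_ball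
        intro z hz
        simp [hζ1 z (ball_subset_closedBall hz)]
      apply integral_mono_of_nonneg
      · exact Eventually.of_forall fun z => sq_nonneg _
      · exact hfi
      · filter_upwards [ae_restrict_mem measurableSet_ball] with w hw
        rw [gr_sq, hind Lx w (hsub3 hw), hind Ly w (hsub3 hw)]
        have h4 := gr_le_en (Lx w) (Ly w)
        rw [gr_sq] at h4
        rw [mul_pow, mul_pow, ← mul_add, neg_sq, inv_pow, mul_comm, ← div_eq_mul_inv]
        exact div_le_div_of_nonneg_right h4 (sq_nonneg _)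
    have h5 : 2 * Real.pi * (∫ z in ball c (R / 2), ‖gr ((ball c R).indicator
        (fun z => fderiv ℝ (lg M) (L z) (Lx z)) z) ((ball c R).indicator
        (fun z => fderiv ℝ (lg M) (L z) (Ly z)) z)‖ ^ 2) ≤ 2 * Real.pi * D :=
      mul_le_mul_of_nonneg_left h3 (by positivity)
    linarith
  have hex : ∃ t ∈ Icc (R / 4) (R / 2), ∀ w ∈ sphere c t, ∀ w' ∈ sphere c t,
      |(lg M (L w)).re - (lg M (L w')).re| < o := by
    by_contra hcon
    push Not at hcon
    exact hcl hcon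
  obtain ⟨t, ht, hosc⟩ := hex
  have ht0 : 0 < t := lt_of_lt_of_le (by linarith) ht.1
  have htR : closedBall c t ⊆ ball c R := closedBall_subset_ball (by linarith [ht.2])
  have hSP := qr_sp hQR
  have huc : ContinuousOn (fun z => (L z).re) (sphere c t) :=
    (Complex.continuous_re.comp_continuousOn hwp.co).mono (sphere_subset_closedBall.trans htR)
  have hne : (sphere c t).Nonempty := ⟨c + t, by simp [ht0.le]⟩
  obtain ⟨w, hw, hwm⟩ := (isCompact_sphere c t).exists_isMaxOn hne huc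
  obtain ⟨w', hw', hwm'⟩ := (isCompact_sphere c t).exists_isMinOn hne huc
  have hle : ∀ x ∈ closedBall c t, (L x).re ≤ (L w).re := by
    intro x hx
    rcases (mem_closedBall.mp hx).lt_or_eq with h3 | h3
    · apply hMax (ball c R) 2 2 Q L Lx Ly hQ hSP (ball c t) (L w).re isOpen_ball
        (by rw [closure_ball c ht0.ne']; exact isCompact_closedBall c t)
        (by rw [closure_ball c ht0.ne']; exact htR)
        (fun y hy => by
          rw [frontier_ball c ht0.ne'] at hy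
          exact hwm hy) x h3
    · exact hwm h3
  have hge : ∀ x ∈ closedBall c t, (L w').re ≤ (L x).re := by
    intro x hx
    rcases (mem_closedBall.mp hx).lt_or_eq with h3 | h3
    · have := hMax (ball c R) 2 2 Q _ _ _ hQ (sp_neg hSP) (ball c t) (-(L w').re) isOpen_ball
        (by rw [closure_ball c ht0.ne']; exact isCompact_closedBall c t)
        (by rw [closure_ball c ht0.ne']; exact htR)
        (fun y hy => by
          rw [frontier_ball c ht0.ne'] at hy
          have := hwm' hy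
          simp only [mem_ofPred_eq] at this
          simp only [neg_re, neg_le_neg_iff]
          exact this) x h3
      simpa using this
    · exact hwm' h3
  have hzt : z ∈ closedBall c t := closedBall_subset_closedBall ht.1 hz
  have hzt' : z' ∈ closedBall c t := closedBall_subset_closedBall ht.1 hz'
  have a1 := hge z hzt
  have a2 := hle z' hzt'
  have hMw : 0 < M - (L w).re := by
    linarith [hM w (htR (sphere_subset_closedBall hw))]
  have hMw' : 0 < M - (L w').re := by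
    linarith [hM w' (htR (sphere_subset_closedBall hw'))]
  have h1 := (abs_lt.mp (hosc w' hw' w hw)).2
  simp only [lg, Complex.ofReal_re] at h1
  have h2 : M - (L w').re ≤ Real.exp o * (M - (L w).re) := by
    rw [← Real.log_div hMw'.ne' hMw.ne'] at h1
    have h3 : (M - (L w').re) / (M - (L w).re) ≤ Real.exp o := by
      rw [← Real.log_le_iff_le_exp (by positivity)]
      exact h1.le
    rwa [div_le_iff₀ hMw] at h3
  calc M - (L z).re ≤ M - (L w').re := by linarith
    _ ≤ Real.exp o * (M - (L w).re) := h2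
    _ ≤ Real.exp o * (M - (L z').re) := by
        apply mul_le_mul_of_nonneg_left _ (Real.exp_pos o).le
        linarith

end MPfa.Reg
end

section
/-!
Problem MP_fa0334_an, part REG: modules LOC, GLUE and LRL.
-/
set_option autoImplicit false

open MeasureTheory Set Filter Topology Metric Complex
open scoped ContDiff ENNReal ComplexConjugate Manifold

namespace MPfa.Reg

namespace Loc

/-- smooth partition of unity, finite cover of a compact set -/
theorem pou {K : Set ℂ} (hK : IsCompact K) {ι : Type} [Fintype ι] (U : ι → Set ℂ)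
    (hU : ∀ i, IsOpen (U i)) (hKU : K ⊆ ⋃ i, U i) :
    ∃ ρ : ι → ℂ → ℝ, (∀ i, ContDiff ℝ ∞ (ρ i)) ∧ (∀ i, tsupport (ρ i) ⊆ U i) ∧
      ∀ z ∈ K, ∑ i, ρ i z = 1 := by
  obtain ⟨f, hf⟩ := SmoothPartitionOfUnity.exists_isSubordinate 𝓘(ℝ, ℂ) hK.isClosed U hU hKU
  refine ⟨fun i => f i, fun i => (f i).contMDiff.contDiff, fun i => hf i, fun z hz => ?_⟩
  have := f.sum_eq_one hz
  rwa [finsum_eq_sum_of_fintype] at this

theorem key {G : Set ℂ} {F E : ℂ → ℂ} (v : ℂ) (lF : LI G F) (lE : LI G E)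
    (h : ∀ z ∈ G, ∃ r > 0, ball z r ⊆ G ∧ ∀ φ : ℂ → ℝ, Test (ball z r) φ →
      ∫ z, (fderiv ℝ φ z v) • F z = - ∫ z, φ z • E z) :
    ∀ φ : ℂ → ℝ, Test G φ → ∫ z, (fderiv ℝ φ z v) • F z = - ∫ z, φ z • E z := by
  intro φ hφ
  choose! r hr using h
  have hK : IsCompact (tsupport φ) := hφ.cs
  obtain ⟨t, ht, hcov⟩ := hK.elim_nhds_subcover (fun z => ball z (r z))
    (fun z hz => ball_mem_nhds _ (hr z (hφ.su hz)).1)
  obtain ⟨ρ, h1, h2, h3⟩ := pou hK (ι := {x // x ∈ t}) (fun i => ball (i : ℂ) (r i))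
    (fun i => isOpen_ball) (by
      intro z hz
      obtain ⟨x, hx⟩ := mem_iUnion.1 (hcov hz)
      obtain ⟨hx, hz⟩ := mem_iUnion.1 hx
      exact mem_iUnion.2 ⟨⟨x, hx⟩, hz⟩)
  have hT : ∀ i : {x // x ∈ t}, Test (ball (i : ℂ) (r i)) (fun z => ρ i z * φ z) := by
    intro i
    refine ⟨(h1 i).mul hφ.sm, hφ.cs.mul_left, ?_⟩
    exact (tsupport_mul_subset_left (f := ρ i) (g := φ)).trans (h2 i)
  have hG : ∀ i : {x // x ∈ t}, ball (i : ℂ) (r i) ⊆ G := fun i =>
    (hr i (hφ.su (ht i i.2))).2.1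
  have hsum : ∀ z, φ z = ∑ i : {x // x ∈ t}, ρ i z * φ z := by
    intro z
    by_cases hz : z ∈ tsupport φ
    · rw [← Finset.sum_mul, h3 z hz, one_mul]
    · rw [image_eq_zero_of_notMem_tsupport hz]
      simp
  have hd : ∀ z, fderiv ℝ φ z v =
      ∑ i : {x // x ∈ t}, fderiv ℝ (fun z => ρ i z * φ z) z v := by
    intro z
    have e1 : φ = fun z => ∑ i : {x // x ∈ t}, ρ i z * φ z := funext hsum
    have e2 : fderiv ℝ φ z = ∑ i : {x // x ∈ t}, fderiv ℝ (fun z => ρ i z * φ z) z := by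
      conv_lhs => rw [e1]
      exact fderiv_fun_sum fun i _ =>
        ((hT i).sm.differentiable (by simp)).differentiableAt
    rw [e2, sum_apply]
  calc ∫ z, (fderiv ℝ φ z v) • F z
      = ∫ z, ∑ i : {x // x ∈ t}, (fderiv ℝ (fun z => ρ i z * φ z) z v) • F z := by
        congr 1
        funext z
        rw [hd z, Finset.sum_smul]
    _ = ∑ i : {x // x ∈ t}, ∫ z, (fderiv ℝ (fun z => ρ i z * φ z) z v) • F z :=
        integral_finsetSum _ fun i _ => Wk.tintd (Base.test_mono (hT i) (hG i)) lF v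
    _ = ∑ i : {x // x ∈ t}, - ∫ z, (ρ i z * φ z) • E z :=
        Finset.sum_congr rfl fun i _ => (hr i (hφ.su (ht i i.2))).2.2 _ (hT i)
    _ = - ∫ z, φ z • E z := by
        rw [Finset.sum_neg_distrib, ← integral_finsetSum _ fun i _ =>
          Wk.tint (Base.test_mono (hT i) (hG i)) lE]
        congr 2
        funext z
        rw [← Finset.sum_smul, ← hsum z]

theorem LI_loc {G : Set ℂ} {u : ℂ → ℂ} (h : ∀ z ∈ G, ∃ r > 0, LI (ball z r) u) : LI G u := by
  intro K hK hc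
  refine hc.induction_on (p := fun s => IntegrableOn u s volume) (by simp)
    (fun s t hst ht => ht.mono_set hst) (fun s t hs ht => hs.union ht) ?_
  intro x hx
  obtain ⟨r, hr, hl⟩ := h x (hK hx)
  exact ⟨closedBall x (r / 2), mem_nhdsWithin_of_mem_nhds (closedBall_mem_nhds x (by linarith)),
    hl _ (closedBall_subset_ball (by linarith)) (isCompact_closedBall x _)⟩

/-- the weak derivatives may be changed on null sets -/
theorem WD_congr {G : Set ℂ} {F Fx Fy Gx Gy : ℂ → ℂ} (h : WD G F Fx Fy)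
    (hx : Measurable Gx) (hy : Measurable Gy) (hG : MeasurableSet G)
    (he : ∀ᵐ z ∂(volume.restrict G), Fx z = Gx z ∧ Fy z = Gy z) : WD G F Gx Gy := by
  have he' := (ae_restrict_iff' hG).1 he
  refine ⟨hx, hy, h.lF, ?_, ?_, ?_, ?_⟩
  · intro K hK hc
    refine (h.lx K hK hc).congr ?_
    filter_upwards [ae_restrict_of_ae_restrict_of_subset hK he] with z hz
    exact hz.1
  · intro K hK hc
    refine (h.ly K hK hc).congr ?_
    filter_upwards [ae_restrict_of_ae_restrict_of_subset hK he] with z hz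
    exact hz.2
  · intro φ hφ
    rw [h.ix φ hφ]
    congr 1
    refine integral_congr_ae ?_
    filter_upwards [he'] with z hz
    by_cases hzG : z ∈ G
    · rw [(hz hzG).1]
    · rw [image_eq_zero_of_notMem_tsupport fun hh => hzG (hφ.su hh)]
      simp
  · intro φ hφ
    rw [h.iy φ hφ]
    congr 1
    refine integral_congr_ae ?_
    filter_upwards [he'] with z hz
    by_cases hzG : z ∈ G
    · rw [(hz hzG).2]
    · rw [image_eq_zero_of_notMem_tsupport fun hh => hzG (hφ.su hh)]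
      simp

end Loc

/-- LRL -/
theorem specLrlLoc : SpecLrlLoc := by
  intro G r u _ h K hK hc
  refine hc.induction_on (p := fun s => ∫⁻ z in s, ENNReal.ofReal |u z| ^ r < ⊤) (by simp)
    (fun s t hst ht => (lintegral_mono_set hst).trans_lt ht)
    (fun s t hs ht => (lintegral_union_le _ s t).trans_lt (ENNReal.add_lt_top.2 ⟨hs, ht⟩)) ?_
  intro x hx
  obtain ⟨ρ, hρ, hl⟩ := h x (hK hx)
  exact ⟨closedBall x (ρ / 2), mem_nhdsWithin_of_mem_nhds (closedBall_mem_nhds x (by linarith)),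
    hl _ (closedBall_subset_ball (by linarith)) (isCompact_closedBall x _)⟩

/-- LOC -/
theorem specLoc : SpecLoc := by
  intro G F Fx Fy _ mx my h
  have lF : LI G F := Loc.LI_loc fun z hz => by
    obtain ⟨r, hr, _, hw⟩ := h z hz
    exact ⟨r, hr, hw.lF⟩
  have lx : LI G Fx := Loc.LI_loc fun z hz => by
    obtain ⟨r, hr, _, hw⟩ := h z hz
    exact ⟨r, hr, hw.lx⟩
  have ly : LI G Fy := Loc.LI_loc fun z hz => by
    obtain ⟨r, hr, _, hw⟩ := h z hz
    exact ⟨r, hr, hw.ly⟩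
  refine ⟨mx, my, lF, lx, ly, ?_, ?_⟩
  · refine Loc.key 1 lF lx fun z hz => ?_
    obtain ⟨r, hr, hG, hw⟩ := h z hz
    exact ⟨r, hr, hG, hw.ix⟩
  · refine Loc.key I lF ly fun z hz => ?_
    obtain ⟨r, hr, hG, hw⟩ := h z hz
    exact ⟨r, hr, hG, hw.iy⟩

open Classical in
/-- GLUE -/
theorem specGlue (hL : SpecLoc) (hU : MPfa.SpecWDU) : SpecGlue := by
  intro G F hG h
  choose! r hr hrG gx gy hw using h
  obtain ⟨t, htG, htc, hcov⟩ := TopologicalSpace.countable_cover_nhdsWithin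
    (s := G) (f := fun z => ball z (r z))
    (fun z hz => mem_nhdsWithin_of_mem_nhds (ball_mem_nhds z (hr z hz)))
  rcases t.eq_empty_or_nonempty with rfl | hne
  · have hGe : G = ∅ := by
      rw [eq_empty_iff_forall_notMem]
      intro z hz
      have := hcov hz
      simp at this
    refine ⟨fun _ => 0, fun _ => 0, hL G F _ _ hG measurable_const measurable_const ?_⟩
    intro z hz
    rw [hGe] at hz
    exact absurd hz (by simp)
  obtain ⟨s, rfl⟩ := htc.exists_eq_range hne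
  have hsG : ∀ n, s n ∈ G := fun n => htG (mem_range_self n)
  have hex : ∀ z : ℂ, ∃ n : ℕ, z ∈ ball (s n) (r (s n)) ∨ z ∉ G := by
    intro z
    by_cases hz : z ∈ G
    · obtain ⟨x, hx⟩ := mem_iUnion.1 (hcov hz)
      obtain ⟨⟨n, rfl⟩, hz'⟩ := mem_iUnion.1 hx
      exact ⟨n, Or.inl hz'⟩
    · exact ⟨0, Or.inr hz⟩
  have hpm : ∀ n : ℕ, MeasurableSet {z : ℂ | z ∈ ball (s n) (r (s n)) ∨ z ∉ G} := fun n =>
    measurableSet_ball.union hG.measurableSet.compl
  have hmx : Measurable fun z => gx (s (Nat.find (hex z))) z :=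
    Measurable.find (f := fun n z => gx (s n) z) (fun n => (hw (s n) (hsG n)).mx) hpm hex
  have hmy : Measurable fun z => gy (s (Nat.find (hex z))) z :=
    Measurable.find (f := fun n z => gy (s n) z) (fun n => (hw (s n) (hsG n)).my) hpm hex
  refine ⟨_, _, hL G F _ _ hG hmx hmy ?_⟩
  intro z hz
  obtain ⟨n, hn⟩ := hex z
  have hzn : z ∈ ball (s n) (r (s n)) := hn.resolve_right fun hh => hh hz
  obtain ⟨ε, hε, hsub⟩ := Metric.isOpen_iff.1 isOpen_ball z hzn
  refine ⟨ε, hε, hsub.trans (hrG _ (hsG n)), ?_⟩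
  refine Base.WD_mono ?_ hsub
  refine Loc.WD_congr (hw (s n) (hsG n)) hmx hmy measurableSet_ball ?_
  rw [ae_restrict_iff' measurableSet_ball]
  have hall : ∀ m : ℕ, ∀ᵐ w : ℂ, w ∈ ball (s n) (r (s n)) ∩ ball (s m) (r (s m)) →
      gx (s n) w = gx (s m) w ∧ gy (s n) w = gy (s m) w := by
    intro m
    have := hU (ball (s n) (r (s n)) ∩ ball (s m) (r (s m))) F (gx (s n)) (gy (s n))
      (gx (s m)) (gy (s m)) (isOpen_ball.inter isOpen_ball)
      (Base.WD_mono (hw (s n) (hsG n)) inter_subset_left)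
      (Base.WD_mono (hw (s m) (hsG m)) inter_subset_right)
    exact (ae_restrict_iff' (measurableSet_ball.inter measurableSet_ball)).1 this
  filter_upwards [ae_all_iff.2 hall] with w hw' hwn
  have hwG : w ∈ G := hrG _ (hsG n) hwn
  have hf := Nat.find_spec (hex w)
  exact hw' _ ⟨hwn, hf.resolve_right fun hh => hh hwG⟩

end MPfa.Reg
end

section
/-!
Problem MP_fa0334_an, part REG, module LOCAL: regularity where `Ψ ≠ 0`.
-/
set_option autoImplicit false

open MeasureTheory Set Filter Topology Metric Complex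
open scoped ContDiff ENNReal ComplexConjugate

namespace MPfa.Reg.LocM

theorem jac_mul (m a b : ℂ) : jac (m * a) (m * b) = ‖m‖ ^ 2 * jac a b := by
  rw [← Complex.normSq_eq_norm_sq, Complex.normSq_apply]
  simp only [jac, Complex.mul_re, Complex.mul_im]
  ring

theorem n2_mul (m a b : ℂ) : n2 (m * a) (m * b) = ‖m‖ ^ 2 * n2 a b := by
  simp only [n2, norm_mul, mul_pow]
  ring

theorem KK_mul {m : ℂ} (hm : m ≠ 0) (a b : ℂ) : KK (m * a) (m * b) = KK a b := by
  have h : 0 < ‖m‖ ^ 2 := by positivity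
  simp only [KK, jac_mul, n2_mul]
  by_cases h1 : 0 < jac a b
  · rw [if_pos h1, if_pos (mul_pos h h1)]
    field_simp
  · rw [if_neg h1, if_neg]
    intro h2
    exact h1 (pos_of_mul_pos_right h2 h.le)

/-- the relation satisfied by the columns -/
def Rel (p : ℝ) (a b P : ℂ) : Prop :=
  0 < jac a b ∧ ((KK a b ^ (p - 1) : ℝ) : ℂ) * (a ^ 2 + b ^ 2) = -(jac a b : ℂ) ^ 2 * conj P

theorem rel_mul {p : ℝ} {m : ℂ} (hm : m ≠ 0) {a b P P' : ℂ} (hP : P = m ^ 2 * P')
    (h : Rel p a b P) : Rel p (m * a) (m * b) P' := by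
  obtain ⟨h1, h2⟩ := h
  refine ⟨by rw [jac_mul]; positivity, ?_⟩
  rw [KK_mul hm, jac_mul]
  have h3 : (m * a) ^ 2 + (m * b) ^ 2 = m ^ 2 * (a ^ 2 + b ^ 2) := by ring
  have h4 : ((‖m‖ ^ 2 : ℝ) : ℂ) = m * conj m := by
    rw [Complex.mul_conj, Complex.normSq_eq_norm_sq]
  rw [h3, Complex.ofReal_mul, h4]
  calc ((KK a b ^ (p - 1) : ℝ) : ℂ) * (m ^ 2 * (a ^ 2 + b ^ 2))
      = m ^ 2 * (((KK a b ^ (p - 1) : ℝ) : ℂ) * (a ^ 2 + b ^ 2)) := by ring
    _ = m ^ 2 * (-(jac a b : ℂ) ^ 2 * conj (m ^ 2 * P')) := by rw [h2, hP]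
    _ = -(m * conj m * (jac a b : ℂ)) ^ 2 * conj P' := by
        simp only [map_mul, map_pow]; ring

/-- the inverse of a chart -/
theorem chart_inv {D : Set ℂ} {Ψ : ℂ → ℂ} {k : ℕ} {t : ℂ} {ρ : ℝ} {g : ℂ → ℂ}
    (h : Chart D Ψ k t ρ g) : ∃ (U : Set ℂ) (χ : ℂ → ℂ), IsOpen U ∧ t ∈ U ∧ U ⊆ D ∧
      (∀ y ∈ U, χ y ∈ ball (0 : ℂ) ρ ∧ g (χ y) = y) ∧ (∀ w ∈ ball (0 : ℂ) ρ, g w ∈ U ∧ χ (g w) = w) ∧
      DifferentiableOn ℂ χ U ∧ (∀ y ∈ U, deriv χ y = (deriv g (χ y))⁻¹) ∧
      (∀ y ∈ U, deriv χ y ≠ 0) := by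
  classical
  set B := ball (0 : ℂ) ρ with hB
  have hBo : IsOpen B := isOpen_ball
  set χ : ℂ → ℂ := Function.invFunOn g B with hχ
  have hleft : ∀ w ∈ B, χ (g w) = w := fun w hw => h.inj.leftInvOn_invFunOn hw
  have hstr : ∀ w ∈ B, HasStrictDerivAt g (deriv g w) w := fun w hw =>
    ((h.d.analyticOnNhd hBo) w hw).hasStrictDerivAt
  have hmap : ∀ w ∈ B, ∀ V ∈ 𝓝 w, g '' V ∈ 𝓝 (g w) := by
    intro w hw V hV
    rw [← (hstr w hw).map_nhds_eq (h.nd w hw)]
    exact image_mem_map hV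
  have hUo : IsOpen (g '' B) := by
    rw [isOpen_iff_mem_nhds]
    rintro _ ⟨w, hw, rfl⟩
    exact hmap w hw B (hBo.mem_nhds hw)
  have hright : ∀ y ∈ g '' B, χ y ∈ B ∧ g (χ y) = y := by
    rintro _ ⟨w, hw, rfl⟩
    rw [hleft w hw]
    exact ⟨hw, rfl⟩
  have hder : ∀ y ∈ g '' B, HasDerivAt χ (deriv g (χ y))⁻¹ y := by
    intro y hy
    obtain ⟨hχB, hgy⟩ := hright y hy
    have hc : ContinuousAt χ y := by
      rw [ContinuousAt, tendsto_def]
      intro V hV
      have h1 := hmap (χ y) hχB (V ∩ B) (inter_mem hV (hBo.mem_nhds hχB))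
      rw [hgy] at h1
      filter_upwards [h1] with y' hy'
      obtain ⟨w, hw, rfl⟩ := hy'
      rw [mem_preimage, hleft w hw.2]
      exact hw.1
    refine HasDerivAt.of_local_left_inverse hc (hstr _ hχB).hasDerivAt (h.nd _ hχB) ?_
    filter_upwards [hUo.mem_nhds hy] with y' hy'
    exact (hright y' hy').2
  refine ⟨g '' B, χ, hUo, ⟨0, mem_ball_self h.r0, h.z⟩, ?_, hright,
    fun w hw => ⟨⟨w, hw, rfl⟩, hleft w hw⟩, fun y hy => (hder y hy).differentiableAt.differentiableWithinAt,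
    fun y hy => (hder y hy).deriv, fun y hy => ?_⟩
  · rintro _ ⟨w, hw, rfl⟩
    exact h.maps hw
  · rw [(hder y hy).deriv]
    exact inv_ne_zero (h.nd _ (hright y hy).1)

theorem fderiv_of_diff {χ : ℂ → ℂ} {y : ℂ} (h : DifferentiableAt ℂ χ y) (v : ℂ) :
    fderiv ℝ χ y v = deriv χ y * v := by
  have h1 : HasFDerivAt χ ((ContinuousLinearMap.toSpanSingleton ℂ (deriv χ y)).restrictScalars ℝ) y :=
    h.hasDerivAt.hasFDerivAt.restrictScalars ℝ
  rw [h1.fderiv]
  simp [mul_comm]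

/-- composition with a holomorphic map: derivative -/
theorem fderiv_hcomp {χ f : ℂ → ℂ} {z : ℂ} (h : DifferentiableAt ℂ χ (f z))
    (hf : DifferentiableAt ℝ f z) (v : ℂ) :
    fderiv ℝ (fun z => χ (f z)) z v = deriv χ (f z) * fderiv ℝ f z v := by
  have h1 : HasFDerivAt (fun z => χ (f z)) ((fderiv ℝ χ (f z)).comp (fderiv ℝ f z)) z :=
    ((h.restrictScalars ℝ).hasFDerivAt).comp z hf.hasFDerivAt
  rw [h1.fderiv, ContinuousLinearMap.comp_apply, fderiv_of_diff h]

theorem contDiffOn_real {χ : ℂ → ℂ} {U : Set ℂ} (hU : IsOpen U) (h : DifferentiableOn ℂ χ U) :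
    ContDiffOn ℝ 1 χ U := (h.contDiffOn hU).restrict_scalars ℝ

end MPfa.Reg.LocM

namespace MPfa.Reg

open LocM Base

theorem specLocal (hChart : MPfa.SpecChart) (hComp : SpecComp) (hKF : SpecKF) (hCA : SpecCAlg)
    (hC1 : SpecC1) (hNZ : SpecNZ) : SpecLocal := by
  intro p Y X Ψ f fx fy hp h z hz hΨ
  obtain ⟨kf, hkf⟩ := hKF p hp
  -- chart
  obtain ⟨δ, hδ, hδX⟩ := Metric.isOpen_iff.1 h.oX (f z) (h.maps hz)
  obtain ⟨k, ρ, g, hch, hk0⟩ := hChart (ball (f z) δ) Ψ (f z) isOpen_ball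
    (convex_ball _ _).isPreconnected (h.hol.mono hδX) ⟨f z, mem_ball_self hδ, hΨ⟩ (mem_ball_self hδ)
  have hk : k = 0 := hk0 hΨ
  subst hk
  obtain ⟨U, χ, hUo, htU, hUD, hright, hleft, hχd, hχ', hχ0⟩ := chart_inv hch
  have hrel : ∀ w ∈ ball (0 : ℂ) ρ, Ψ (g w) * deriv g w ^ 2 = 1 := by
    intro w hw
    have := hch.eq w hw
    simpa using this
  have hΨχ : ∀ y ∈ U, Ψ y = deriv χ y ^ 2 * 1 := by
    intro y hy
    have h1 := hrel (χ y) (hright y hy).1
    rw [(hright y hy).2] at h1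
    have h2 : deriv g (χ y) ≠ 0 := hch.nd _ (hright y hy).1
    rw [hχ' y hy]
    field_simp
    linear_combination h1
  -- the small ball
  have hfat : ContinuousAt f z := h.co.continuousAt (h.oY.mem_nhds hz)
  have hn : f ⁻¹' U ∩ Y ∈ 𝓝 z := inter_mem (hfat.preimage_mem_nhds (hUo.mem_nhds htU))
    (h.oY.mem_nhds hz)
  obtain ⟨ε, hε, hεU⟩ := Metric.mem_nhds_iff.1 hn
  set G := ball z ε with hG
  have hGY : G ⊆ Y := fun w hw => (hεU hw).2
  have hGU : MapsTo f G U := fun w hw => (hεU hw).1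
  have hGo : IsOpen G := isOpen_ball
  set F : ℂ → ℂ := fun z => χ (f z) with hF
  have hwd := hComp G U f fx fy χ hGo (h.co.mono hGY) (WD_mono h.wd hGY) hUo
    (contDiffOn_real hUo hχd) hGU
  have hχat : ∀ w ∈ G, DifferentiableAt ℂ χ (f w) := fun w hw =>
    hχd.differentiableAt (hUo.mem_nhds (hGU hw))
  set Fx : ℂ → ℂ := G.indicator fun z => fderiv ℝ χ (f z) (fx z) with hFx
  set Fy : ℂ → ℂ := G.indicator fun z => fderiv ℝ χ (f z) (fy z) with hFy
  have hae : ∀ᵐ w ∂(volume.restrict G), Rel p (Fx w) (Fy w) 1 ∧ KK (Fx w) (Fy w) = KK (fx w) (fy w) := by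
    have h1 := ae_restrict_of_ae_restrict_of_subset hGY h.eq
    filter_upwards [h1, ae_restrict_mem measurableSet_ball] with w hw hwG
    have e1 : Fx w = deriv χ (f w) * fx w := by
      simp only [hFx, hwG, indicator_of_mem, fderiv_of_diff (hχat w hwG)]
    have e2 : Fy w = deriv χ (f w) * fy w := by
      simp only [hFy, hwG, indicator_of_mem, fderiv_of_diff (hχat w hwG)]
    rw [e1, e2]
    exact ⟨rel_mul (hχ0 _ (hGU hwG)) (hΨχ _ (hGU hwG)) hw, KK_mul (hχ0 _ (hGU hwG)) _ _⟩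
  have hsol : Sol p kf G F Fx Fy := by
    refine ⟨hGo, ?_, ?_, hwd, ?_, ?_⟩
    · exact hχd.continuousOn.comp (h.co.mono hGY) hGU
    · intro w hw w' hw' he
      have h1 : f w = f w' := by
        rw [← (hright _ (hGU hw)).2, ← (hright _ (hGU hw')).2]
        exact congrArg g he
      exact h.inj (hGY hw) (hGY hw') h1
    · filter_upwards [hae] with w hw
      refine ((hCA p kf hp hkf (Fx w) (Fy w)).1).1 ⟨hw.1.1, ?_⟩
      simpa using hw.1.2
    · intro K hK hKc
      have h1 := h.en K (hK.trans hGY) hKc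
      have h2 : ∫⁻ w in K, ENNReal.ofReal |kf ‖gr (Fx w) (Fy w)‖| ^ p ≤
          ∫⁻ w in K, ENNReal.ofReal 2 ^ p * ENNReal.ofReal |KK (fx w) (fy w)| ^ p := by
        refine lintegral_mono_ae ?_
        filter_upwards [ae_restrict_of_ae_restrict_of_subset hK hae] with w hw
        have h3 := ((hCA p kf hp hkf (Fx w) (Fy w)).1).1 ⟨hw.1.1, by simpa using hw.1.2⟩
        have h4 := ((hCA p kf hp hkf (Fx w) (Fy w)).2 h3.1 h3.2).2.1
        have h5 : 1 ≤ kf ‖gr (Fx w) (Fy w)‖ := hkf.one _ (norm_nonneg _)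
        rw [hw.2] at h4
        rw [← ENNReal.mul_rpow_of_nonneg _ _ (by linarith : 0 ≤ p),
          ← ENNReal.ofReal_mul (by norm_num : (0 : ℝ) ≤ 2)]
        refine ENNReal.rpow_le_rpow (ENNReal.ofReal_le_ofReal ?_) (by linarith)
        rw [abs_of_nonneg (by linarith)]
        exact h4.trans (mul_le_mul_of_nonneg_left (le_abs_self _) (by norm_num))
      refine h2.trans_lt ?_
      rw [lintegral_const_mul']
      · exact ENNReal.mul_lt_top (ENNReal.rpow_lt_top_of_nonneg (by linarith)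
          ENNReal.ofReal_ne_top) h1
      · exact (ENNReal.rpow_lt_top_of_nonneg (by linarith) ENNReal.ofReal_ne_top).ne
  obtain ⟨hFc, hFeq⟩ := hC1 p kf hp hkf G F Fx Fy hsol
  have hFnz := hNZ p kf hp hkf G F hGo hFc hsol.inj hFeq
  have hFmaps : MapsTo F G (ball (0 : ℂ) ρ) := fun w hw => (hright _ (hGU hw)).1
  have hfg : ∀ w ∈ G, f w = g (F w) := fun w hw => ((hright _ (hGU hw)).2).symm
  have hfc : ContDiffOn ℝ 1 f G :=
    ((contDiffOn_real isOpen_ball hch.d).comp hFc hFmaps).congr hfg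
  refine ⟨ε, hε, hGY, hfc, fun w hw => ?_⟩
  have hFd : DifferentiableAt ℝ F w := (hFc.differentiableOn one_ne_zero).differentiableAt
    (hGo.mem_nhds hw)
  have hgd : DifferentiableAt ℂ g (F w) := hch.d.differentiableAt (isOpen_ball.mem_nhds (hFmaps hw))
  have hfd : ∀ v, fderiv ℝ f w v = deriv g (F w) * fderiv ℝ F w v := by
    intro v
    rw [← fderiv_hcomp hgd hFd v]
    have : f =ᶠ[𝓝 w] fun z => g (F z) := by
      filter_upwards [hGo.mem_nhds hw] with w' hw'
      exact hfg w' hw'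
    rw [this.fderiv_eq]
  have h1 : Rel p (fderiv ℝ F w 1) (fderiv ℝ F w I) 1 := by
    have := ((hCA p kf hp hkf (fderiv ℝ F w 1) (fderiv ℝ F w I)).1).2 ⟨hFnz w hw, hFeq w hw⟩
    exact ⟨this.1, by simpa using this.2⟩
  have h2 : (1 : ℂ) = deriv g (F w) ^ 2 * Ψ (f w) := by
    rw [hfg w hw, mul_comm, hrel _ (hFmaps hw)]
  have h3 := rel_mul (hch.nd _ (hFmaps hw)) h2 h1
  rw [← hfd, ← hfd] at h3
  exact h3

end MPfa.Reg
end

section
/-!
Problem MP_fa0334_an, part REG, module NZ: the derivative of a solution does not vanish.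
-/
set_option autoImplicit false

open MeasureTheory Set Filter Topology Metric Complex
open scoped ContDiff ENNReal ComplexConjugate

namespace MPfa.Reg.NZM

theorem gr_smul (t : ℝ) (a b : ℂ) : gr ((t : ℂ) * a) ((t : ℂ) * b) = t * gr a b := by
  apply Complex.ext <;> simp [gr]

theorem gi_smul (t : ℝ) (a b : ℂ) : gi ((t : ℂ) * a) ((t : ℂ) * b) = t * gi a b := by
  apply Complex.ext <;> simp [gi]

theorem gr_sub (a b a' b' : ℂ) : gr (a - a') (b - b') = gr a b - gr a' b' := by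
  apply Complex.ext <;> simp [gr]

theorem gi_sub (a b a' b' : ℂ) : gi (a - a') (b - b') = gi a b - gi a' b' := by
  apply Complex.ext <;> simp [gi]

theorem en_eq (a b : ℂ) : en a b = ‖gr a b‖ ^ 2 + ‖gi a b‖ ^ 2 := by
  simp only [en, ← Complex.normSq_eq_norm_sq, Complex.normSq_apply, gr, gi]
  ring

theorem jac_eq (a b A : ℂ) (h : gi a b = I * A) : jac a b = (conj (gr a b) * A).re := by
  have h1 : a.im = -A.im := by
    have := congrArg Complex.re h
    simpa [gi] using this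
  have h2 : b.im = A.re := by
    have := congrArg Complex.im h
    simpa [gi] using this
  simp only [jac, gr, Complex.mul_re, Complex.conj_re, Complex.conj_im, h1, h2]
  ring

theorem en_smul (t : ℝ) (a b : ℂ) : en ((t : ℂ) * a) ((t : ℂ) * b) = t ^ 2 * en a b := by
  simp only [en, norm_mul, Complex.norm_real, Real.norm_eq_abs, mul_pow, sq_abs]
  ring

theorem jac_smul (t : ℝ) (a b : ℂ) : jac ((t : ℂ) * a) ((t : ℂ) * b) = t ^ 2 * jac a b := by
  simp only [jac, Complex.mul_re, Complex.mul_im, Complex.ofReal_re, Complex.ofReal_im]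
  ring

/-- the pointwise estimate -/
theorem pw {kf : ℝ → ℝ} {Λ km : ℝ} (hΛ : 1 ≤ Λ) (h1 : ∀ s, 0 ≤ s → 1 ≤ kf s)
    (hA : ∀ X Y : ℂ,
      (kf ‖X‖ + kf ‖Y‖) / 2 * ‖X - Y‖ ^ 2 ≤ (conj (X - Y) * (Af kf X - Af kf Y)).re ∧
      ‖Af kf X - Af kf Y‖ ≤ Λ * (kf ‖X‖ + kf ‖Y‖) * ‖X - Y‖)
    (a b a' b' : ℂ) (ha : gi a b = I * Af kf (gr a b)) (hb : gi a' b' = I * Af kf (gr a' b'))
    (hka : kf ‖gr a b‖ ≤ km) (hkb : kf ‖gr a' b'‖ ≤ km) (t : ℝ) :
    en ((t : ℂ) * (a - a')) ((t : ℂ) * (b - b')) ≤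
      (1 + 4 * Λ ^ 2 * km ^ 2) * jac ((t : ℂ) * (a - a')) ((t : ℂ) * (b - b')) := by
  rw [en_smul, jac_smul]
  have hg : gi (a - a') (b - b') = I * (Af kf (gr a b) - Af kf (gr a' b')) := by
    rw [gi_sub, ha, hb]; ring
  have hj := jac_eq _ _ _ hg
  rw [gr_sub] at hj
  obtain ⟨e1, e2⟩ := hA (gr a b) (gr a' b')
  set X := gr a b
  set Y := gr a' b'
  have k1 := h1 ‖X‖ (norm_nonneg _)
  have k2 := h1 ‖Y‖ (norm_nonneg _)
  have e3 : ‖X - Y‖ ^ 2 ≤ jac (a - a') (b - b') := by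
    rw [hj]
    refine le_trans ?_ e1
    nlinarith [sq_nonneg ‖X - Y‖]
  have e4 : ‖gi (a - a') (b - b')‖ ≤ 2 * Λ * km * ‖X - Y‖ := by
    rw [hg, norm_mul, Complex.norm_I, one_mul]
    refine e2.trans ?_
    have : Λ * (kf ‖X‖ + kf ‖Y‖) ≤ 2 * Λ * km := by nlinarith
    exact mul_le_mul_of_nonneg_right this (norm_nonneg _)
  have e5 : ‖gi (a - a') (b - b')‖ ^ 2 ≤ 4 * Λ ^ 2 * km ^ 2 * ‖X - Y‖ ^ 2 := by
    calc ‖gi (a - a') (b - b')‖ ^ 2 ≤ (2 * Λ * km * ‖X - Y‖) ^ 2 :=
          pow_le_pow_left₀ (norm_nonneg _) e4 2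
      _ = _ := by ring
  have e6 : en (a - a') (b - b') ≤ (1 + 4 * Λ ^ 2 * km ^ 2) * jac (a - a') (b - b') := by
    rw [en_eq, gr_sub]
    calc ‖X - Y‖ ^ 2 + ‖gi (a - a') (b - b')‖ ^ 2 ≤ ‖X - Y‖ ^ 2 + 4 * Λ ^ 2 * km ^ 2 * ‖X - Y‖ ^ 2 := by
          linarith
      _ = (1 + 4 * Λ ^ 2 * km ^ 2) * ‖X - Y‖ ^ 2 := by ring
      _ ≤ _ := mul_le_mul_of_nonneg_left e3 (by positivity)
  calc t ^ 2 * en (a - a') (b - b') ≤ t ^ 2 * ((1 + 4 * Λ ^ 2 * km ^ 2) * jac (a - a') (b - b')) :=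
        mul_le_mul_of_nonneg_left e6 (sq_nonneg _)
    _ = _ := by ring

end MPfa.Reg.NZM

namespace MPfa.Reg

open NZM Base

theorem specNZ (hA : SpecAf) (hC : SpecC1WD) (hQ : SpecQInv) (hD : SpecDLog) (hH : SpecHarn) :
    SpecNZ := by
  intro p kf hp hk G F hG hF hinj heq z₀ hz₀ h0
  obtain ⟨Λ, hΛ, hAf⟩ := hA p kf hp hk
  -- the ball
  obtain ⟨ε, hε, hεG⟩ := Metric.isOpen_iff.1 hG z₀ hz₀
  set R : ℝ := ε / 4 with hR
  have hR0 : 0 < R := by positivity
  have hB : closedBall z₀ (2 * R) ⊆ G :=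
    (closedBall_subset_ball (by rw [hR]; linarith)).trans hεG
  -- bounds
  have hcont : ∀ v : ℂ, ContinuousOn (fun z => fderiv ℝ F z v) (closedBall z₀ (2 * R)) :=
    fun v => (fderiv_cont hG hF v).mono hB
  have hgrc : ContinuousOn (fun z => gr (fderiv ℝ F z 1) (fderiv ℝ F z I))
      (closedBall z₀ (2 * R)) := by
    have e : ∀ a b : ℂ, gr a b = (a.re : ℂ) + (b.re : ℂ) * I := fun a b => by
      apply Complex.ext <;> simp [gr]
    simp only [e]
    exact ((Complex.continuous_ofReal.comp Complex.continuous_re).comp_continuousOn (hcont 1)).add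
      (((Complex.continuous_ofReal.comp Complex.continuous_re).comp_continuousOn (hcont I)).mul
        continuousOn_const)
  obtain ⟨M₁, hM₁⟩ := (isCompact_closedBall z₀ (2 * R)).exists_bound_of_continuousOn hgrc
  have hM₁0 : 0 ≤ M₁ := (norm_nonneg _).trans (hM₁ z₀ (mem_closedBall_self (by positivity)))
  set km := kf M₁ with hkm
  have hkb : ∀ z ∈ closedBall z₀ (2 * R), kf ‖gr (fderiv ℝ F z 1) (fderiv ℝ F z I)‖ ≤ km :=
    fun z hz => hk.mono _ _ (norm_nonneg _) (hM₁ z hz)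
  have hfc : ContinuousOn (fun z => fderiv ℝ F z) (closedBall z₀ (2 * R)) :=
    (hF.continuousOn_fderiv_of_isOpen hG le_rfl).mono hB
  obtain ⟨C₀, hC₀⟩ := (isCompact_closedBall z₀ (2 * R)).exists_bound_of_continuousOn hfc
  have hC₀0 : 0 ≤ C₀ := (norm_nonneg _).trans (hC₀ z₀ (mem_closedBall_self (by positivity)))
  have hdiff : ∀ z ∈ G, DifferentiableAt ℝ F z := fun z hz =>
    (hF.differentiableOn one_ne_zero).differentiableAt (hG.mem_nhds hz)
  set Q : ℝ := 1 + 4 * Λ ^ 2 * km ^ 2 with hQd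
  have hQ0 : 0 < Q := by positivity
  obtain ⟨C, hC1, hHarn⟩ := hH Q hQ0
  set M : ℝ := Real.log (C₀ + 1) with hM
  -- shifted points
  have hsh : ∀ z ∈ ball z₀ R, ∀ t : ℝ, 0 < t → t < R → z + t ∈ closedBall z₀ (2 * R) := by
    intro z hz t ht htR
    rw [mem_ball, dist_eq_norm] at hz
    rw [mem_closedBall, dist_eq_norm]
    calc ‖z + t - z₀‖ = ‖(z - z₀) + t‖ := by congr 1; ring
      _ ≤ ‖z - z₀‖ + ‖(t : ℂ)‖ := norm_add_le _ _
      _ ≤ R + R := by
          rw [Complex.norm_real, Real.norm_eq_abs, abs_of_pos ht]; linarith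
      _ = 2 * R := by ring
  have hin : ball z₀ R ⊆ closedBall z₀ (2 * R) :=
    ball_subset_closedBall.trans (closedBall_subset_closedBall (by linarith))
  -- the main inequality
  have key : ∀ t : ℝ, 0 < t → t < R → ∀ z ∈ closedBall z₀ (R / 4),
      ‖(t : ℂ)⁻¹ * (F (z + t) - F z)‖ ≤
        Real.exp (M * (1 - 1 / C)) * ‖(t : ℂ)⁻¹ * (F (z₀ + t) - F z₀)‖ ^ (1 / C) := by
    intro t ht htR z hz
    set d : ℂ → ℂ := fun z => ((t⁻¹ : ℝ) : ℂ) * (F (z + t) - F z) with hd
    have hdz : ∀ z ∈ ball z₀ R, d z ≠ 0 := by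
      intro z hz
      simp only [hd]
      refine mul_ne_zero (by exact_mod_cast (inv_ne_zero ht.ne')) (sub_ne_zero.2 fun h => ?_)
      have := hinj (hB (hsh z hz t ht htR)) (hB (hin hz)) h
      have h2 : (t : ℂ) = 0 := by simpa using this
      exact ht.ne' (by exact_mod_cast h2)
    have hfd : ∀ z ∈ ball z₀ R, HasFDerivAt d
        (((t⁻¹ : ℝ) : ℂ) • (fderiv ℝ F (z + t) - fderiv ℝ F z)) z := by
      intro z hz
      have h1 : HasFDerivAt (fun z => F (z + t)) (fderiv ℝ F (z + t)) z := by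
        have h3 := (hdiff _ (hB (hsh z hz t ht htR))).hasFDerivAt
        have h4 : HasFDerivAt (fun z : ℂ => z + (t : ℂ)) (ContinuousLinearMap.id ℝ ℂ) z :=
          (hasFDerivAt_id z).add_const _
        simpa [Function.comp_def] using h3.comp z h4
      have h2 := (hdiff _ (hB (hin hz))).hasFDerivAt
      exact (h1.sub h2).const_smul (((t⁻¹ : ℝ) : ℂ))
    have hfdv : ∀ z ∈ ball z₀ R, ∀ v : ℂ, fderiv ℝ d z v =
        ((t⁻¹ : ℝ) : ℂ) * (fderiv ℝ F (z + t) v - fderiv ℝ F z v) := by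
      intro z hz v
      rw [(hfd z hz).fderiv]
      simp
    have hC1d : ContDiffOn ℝ 1 d (ball z₀ R) := by
      have h1 : ContDiffOn ℝ 1 (fun z => F (z + t)) (ball z₀ R) :=
        hF.comp (contDiff_id.add contDiff_const).contDiffOn
          (fun z hz => hB (hsh z hz t ht htR))
      exact contDiffOn_const.mul (h1.sub (hF.mono (hin.trans hB)))
    have hqr : QR (ball z₀ R) Q d ((ball z₀ R).indicator fun z => fderiv ℝ d z 1)
        ((ball z₀ R).indicator fun z => fderiv ℝ d z I) := by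
      refine ⟨WP_of_C1 hC (by norm_num) (by norm_num) isOpen_ball hC1d, ?_⟩
      refine (ae_restrict_iff' measurableSet_ball).2 (Eventually.of_forall fun z hz => ?_)
      simp only [hz, indicator_of_mem, hfdv z hz]
      exact pw hΛ hk.one hAf _ _ _ _ (heq _ (hB (hsh z hz t ht htR))) (heq _ (hB (hin hz)))
        (hkb _ (hsh z hz t ht htR)) (hkb _ (hin hz)) t⁻¹
    obtain ⟨ℓ, hℓc, hℓ⟩ := hD z₀ R d (hC1d.continuousOn) hdz
    have hqrl := (hQ _ Q _ _ _ hQ0 hqr hdz).2 ℓ hℓc hℓ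
    have hre : ∀ z ∈ ball z₀ R, ‖d z‖ = Real.exp (ℓ z).re := fun z hz => by
      rw [hℓ z hz, Complex.norm_exp]
    have hbd : ∀ z ∈ ball z₀ R, ‖d z‖ ≤ C₀ := by
      intro z hz
      have h1 : ‖F (z + t) - F z‖ ≤ C₀ * ‖z + t - z‖ := by
        refine Convex.norm_image_sub_le_of_norm_fderiv_le (𝕜 := ℝ)
          (fun w hw => hdiff w (hB hw)) hC₀ (convex_closedBall _ _) (hin hz)
          (hsh z hz t ht htR)
      have h2 : ‖z + t - z‖ = t := by
        rw [add_sub_cancel_left, Complex.norm_real, Real.norm_eq_abs, abs_of_pos ht]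
      rw [h2] at h1
      simp only [hd]
      rw [norm_mul, Complex.norm_real, Real.norm_eq_abs, abs_of_pos (inv_pos.2 ht)]
      calc t⁻¹ * ‖F (z + t) - F z‖ ≤ t⁻¹ * (C₀ * t) :=
            mul_le_mul_of_nonneg_left h1 (inv_nonneg.2 ht.le)
        _ = C₀ := by field_simp
    have hlt : ∀ z ∈ ball z₀ R, (ℓ z).re < M := by
      intro z hz
      rw [hM, Real.lt_log_iff_exp_lt (by positivity), ← hre z hz]
      linarith [hbd z hz]
    have hz4 : z ∈ ball z₀ R := closedBall_subset_ball (by linarith) hz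
    have hz04 : z₀ ∈ ball z₀ R := mem_ball_self hR0
    have hha := hHarn z₀ R ℓ _ _ M hR0 hqrl hlt z₀ (mem_closedBall_self (by positivity)) z hz
    have h5 : (ℓ z).re ≤ M * (1 - 1 / C) + (ℓ z₀).re * (1 / C) := by
      have hC0 : 0 < C := by linarith
      have h6 : (M - (ℓ z₀).re) / C ≤ M - (ℓ z).re := by
        rw [div_le_iff₀ hC0]; linarith
      have h7 : (M - (ℓ z₀).re) / C = M * (1 / C) - (ℓ z₀).re * (1 / C) := by ring
      rw [h7] at h6
      linarith
    have h8 : ‖d z‖ ≤ Real.exp (M * (1 - 1 / C)) * ‖d z₀‖ ^ (1 / C) := by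
      rw [hre z hz4, hre z₀ hz04, ← Real.exp_mul, ← Real.exp_add]
      exact Real.exp_le_exp.2 h5
    simpa [hd] using h8
  -- the limit
  have hlim : ∀ z ∈ G, Tendsto (fun t : ℝ => (t : ℂ)⁻¹ * (F (z + t) - F z)) (𝓝[>] 0)
      (𝓝 (fderiv ℝ F z 1)) := by
    intro z hz
    have h1 : HasDerivAt (fun t : ℝ => F (z + t)) (fderiv ℝ F z 1) 0 := by
      have h2 : HasDerivAt (fun t : ℝ => z + (t : ℂ)) 1 0 := by
        simpa using ((Complex.ofRealCLM.hasDerivAt (x := (0 : ℝ))).const_add z)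
      have h3 : HasFDerivAt F (fderiv ℝ F z) (z + ((0 : ℝ) : ℂ)) := by
        simpa using (hdiff z hz).hasFDerivAt
      simpa [Function.comp_def] using h3.comp_hasDerivAt (0 : ℝ) h2
    have h4 := h1.tendsto_slope_zero_right
    refine h4.congr fun t => ?_
    simp
  have hFx0 : fderiv ℝ F z₀ 1 = 0 := by
    have h1 := heq z₀ hz₀
    rw [h0] at h1
    have h2 : gi (fderiv ℝ F z₀ 1) (fderiv ℝ F z₀ I) = 0 := by rw [h1]; simp [Af]
    apply Complex.ext
    · have := congrArg Complex.re h0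
      simpa [gr] using this
    · have := congrArg Complex.re h2
      simpa [gi] using this
  have hFx : ∀ z ∈ closedBall z₀ (R / 4), fderiv ℝ F z 1 = 0 := by
    intro z hz
    have hzG : z ∈ G := hB (hin (closedBall_subset_ball (by linarith) hz))
    have hC0 : 0 < 1 / C := by positivity
    have h1 : Tendsto (fun t : ℝ => ‖(t : ℂ)⁻¹ * (F (z + t) - F z)‖) (𝓝[>] 0)
        (𝓝 ‖fderiv ℝ F z 1‖) := (hlim z hzG).norm
    have h2 : Tendsto (fun t : ℝ => Real.exp (M * (1 - 1 / C)) *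
        ‖(t : ℂ)⁻¹ * (F (z₀ + t) - F z₀)‖ ^ (1 / C)) (𝓝[>] 0) (𝓝 0) := by
      have h3 := (hlim z₀ hz₀).norm
      rw [hFx0, norm_zero] at h3
      have h4 := h3.rpow_const (p := 1 / C) (Or.inr hC0.le)
      rw [Real.zero_rpow hC0.ne'] at h4
      simpa using h4.const_mul (Real.exp (M * (1 - 1 / C)))
    have h5 : ‖fderiv ℝ F z 1‖ ≤ 0 := by
      refine le_of_tendsto_of_tendsto h1 h2 ?_
      filter_upwards [Ioo_mem_nhdsGT hR0] with t ht
      exact key t ht.1 ht.2 z hz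
    exact norm_le_zero_iff.1 h5
  have hfd0 : ∀ z ∈ closedBall z₀ (R / 4), fderiv ℝ F z = 0 := by
    intro z hz
    have hzG : z ∈ G := hB (hin (closedBall_subset_ball (by linarith) hz))
    have h1 := heq z hzG
    have hx := hFx z hz
    rw [hx] at h1
    have hg : gr 0 (fderiv ℝ F z I) = ((fderiv ℝ F z I).re : ℂ) * I := by
      apply Complex.ext <;> simp [gr]
    have hgi : gi 0 (fderiv ℝ F z I) = ((fderiv ℝ F z I).im : ℂ) * I := by
      apply Complex.ext <;> simp [gi]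
    rw [hgi, hg] at h1
    set k := kf ‖((fderiv ℝ F z I).re : ℂ) * I‖ with hkk
    have hk1 : 1 ≤ k := hk.one _ (norm_nonneg _)
    have h2 : I * Af kf (((fderiv ℝ F z I).re : ℂ) * I) = -((k * (fderiv ℝ F z I).re : ℝ) : ℂ) := by
      simp only [Af, ← hkk]
      push_cast
      ring_nf
      simp
    rw [h2] at h1
    have hre := congrArg Complex.re h1
    have him := congrArg Complex.im h1
    simp at hre him
    have hI : fderiv ℝ F z I = 0 := by
      apply Complex.ext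
      · rcases hre with h | h
        · linarith
        · simpa using h
      · simpa using him
    ext v
    have hv : v = (v.re : ℝ) • (1 : ℂ) + (v.im : ℝ) • I := by
      apply Complex.ext <;> simp
    rw [hv, map_add, map_smul, map_smul, hx, hI]
    simp
  have hconst : F (z₀ + ((R / 8 : ℝ) : ℂ)) = F z₀ := by
    have hm : z₀ + ((R / 8 : ℝ) : ℂ) ∈ closedBall z₀ (R / 4) := by
      rw [mem_closedBall, dist_eq_norm, add_sub_cancel_left, Complex.norm_real, Real.norm_eq_abs,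
        abs_of_pos (by positivity)]
      linarith
    have h1 : ‖F (z₀ + ((R / 8 : ℝ) : ℂ)) - F z₀‖ ≤ 0 * ‖z₀ + ((R / 8 : ℝ) : ℂ) - z₀‖ := by
      refine Convex.norm_image_sub_le_of_norm_fderiv_le (𝕜 := ℝ)
          (fun w hw => hdiff w (hB (hin (closedBall_subset_ball (by linarith) hw))))
          (fun w hw => by rw [hfd0 w hw]; simp) (convex_closedBall _ _)
          (mem_closedBall_self (by positivity)) hm
    rw [zero_mul] at h1
    exact sub_eq_zero.1 (norm_le_zero_iff.1 h1)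
  have hmem : z₀ + ((R / 8 : ℝ) : ℂ) ∈ G := by
    refine hB (mem_closedBall.2 ?_)
    rw [dist_eq_norm, add_sub_cancel_left, Complex.norm_real, Real.norm_eq_abs,
        abs_of_pos (by positivity)]
    linarith
  have := hinj hmem hz₀ hconst
  have h9 : ((R / 8 : ℝ) : ℂ) = 0 := by simpa using this
  have h10 : R / 8 = 0 := by exact_mod_cast h9
  linarith

end MPfa.Reg
end

section
/-!
Problem MP_fa0334_an, part REG, module QINV: `1/F` and continuous logarithms of `F` are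
quasiregular.
-/
set_option autoImplicit false

open MeasureTheory Set Filter Topology Metric Complex
open scoped ContDiff ENNReal ComplexConjugate

namespace MPfa.Reg

namespace QInv

theorem test_zero {G : Set ℂ} {φ : ℂ → ℝ} (h : Test G φ) {z : ℂ} (hz : z ∉ G) : φ z = 0 :=
  image_eq_zero_of_notMem_tsupport fun hc => hz (h.su hc)

theorem test_fderiv_zero {G : Set ℂ} {φ : ℂ → ℝ} (h : Test G φ) {z : ℂ} (hz : z ∉ G) :
    fderiv ℝ φ z = 0 := by
  have : z ∉ tsupport (fderiv ℝ φ) := fun hc => hz (h.su (tsupport_fderiv_subset ℝ hc))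
  exact image_eq_zero_of_notMem_tsupport this

/-- only the values on `G` matter -/
theorem WD_congr {G : Set ℂ} {F F' Fx Fx' Fy Fy' : ℂ → ℂ} (h : WD G F Fx Fy)
    (hF : EqOn F F' G) (hx : EqOn Fx Fx' G) (hy : EqOn Fy Fy' G) (mx : Measurable Fx')
    (my : Measurable Fy') : WD G F' Fx' Fy' where
  mx := mx
  my := my
  lF := fun K hK hc => (integrableOn_congr_fun (fun z hz => hF (hK hz)) hc.measurableSet).1
    (h.lF K hK hc)
  lx := fun K hK hc => (integrableOn_congr_fun (fun z hz => hx (hK hz)) hc.measurableSet).1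
    (h.lx K hK hc)
  ly := fun K hK hc => (integrableOn_congr_fun (fun z hz => hy (hK hz)) hc.measurableSet).1
    (h.ly K hK hc)
  ix := fun φ hφ => by
    have e1 : (fun z => (fderiv ℝ φ z 1) • F' z) = fun z => (fderiv ℝ φ z 1) • F z := by
      funext z
      by_cases hz : z ∈ G
      · rw [hF hz]
      · rw [test_fderiv_zero hφ hz]; simp
    have e2 : (fun z => φ z • Fx' z) = fun z => φ z • Fx z := by
      funext z
      by_cases hz : z ∈ G
      · rw [hx hz]
      · rw [test_zero hφ hz]; simp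
    rw [e1, e2]
    exact h.ix φ hφ
  iy := fun φ hφ => by
    have e1 : (fun z => (fderiv ℝ φ z I) • F' z) = fun z => (fderiv ℝ φ z I) • F z := by
      funext z
      by_cases hz : z ∈ G
      · rw [hF hz]
      · rw [test_fderiv_zero hφ hz]; simp
    have e2 : (fun z => φ z • Fy' z) = fun z => φ z • Fy z := by
      funext z
      by_cases hz : z ∈ G
      · rw [hy hz]
      · rw [test_zero hφ hz]; simp
    rw [e1, e2]
    exact h.iy φ hφ

theorem indicator_measurable {G : Set ℂ} {m : ℂ → ℂ} (ho : IsOpen G) (hm : ContinuousOn m G) :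
    Measurable (G.indicator m) := by
  refine measurable_of_restrict_of_restrict_compl ho.measurableSet ?_ ?_
  · have : G.domRestrict (G.indicator m) = fun z : G => m z := by
      funext z
      have hz : (z : ℂ) ∈ G := z.2
      simp [Set.domRestrict, hz]
    rw [this]
    exact (continuousOn_iff_continuous_domRestrict.1 hm).measurable
  · have : Gᶜ.domRestrict (G.indicator m) = fun _ => 0 := by
      funext z
      have hz : (z : ℂ) ∉ G := z.2
      simp [Set.domRestrict, hz]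
    rw [this]
    exact measurable_const

theorem indicator_mul_measurable {G : Set ℂ} {m u : ℂ → ℂ} (ho : IsOpen G)
    (hm : ContinuousOn m G) (hu : Measurable u) : Measurable (G.indicator fun z => m z * u z) := by
  have : (G.indicator fun z => m z * u z) = fun z => G.indicator m z * u z := by
    funext z
    by_cases hz : z ∈ G <;> simp [hz]
  rw [this]
  exact (indicator_measurable ho hm).mul hu

theorem ofReal_rpow_two (x : ℝ) : ENNReal.ofReal |x| ^ (2 : ℝ) = ENNReal.ofReal (x ^ 2) := by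
  rw [ENNReal.ofReal_rpow_of_nonneg (abs_nonneg x) (by norm_num)]
  congr 1
  rw [Real.rpow_two, sq_abs]

/-- domination -/
theorem Lrl_dom {G : Set ℂ} {u v w : ℂ → ℝ} (hu : Lrl G 2 u) (hv : Lrl G 2 v)
    (h : ∀ K ⊆ G, IsCompact K → ∃ C : ℝ, 0 ≤ C ∧ ∀ z ∈ K, w z ^ 2 ≤ C * (u z ^ 2 + v z ^ 2))
    (mu : Measurable u) : Lrl G 2 w := by
  intro K hK hc
  obtain ⟨C, hC0, hC⟩ := h K hK hc
  simp only [ofReal_rpow_two]
  have h1 := hu K hK hc
  have h2 := hv K hK hc
  simp only [ofReal_rpow_two] at h1 h2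
  calc ∫⁻ z in K, ENNReal.ofReal (w z ^ 2)
      ≤ ∫⁻ z in K, ENNReal.ofReal C * (ENNReal.ofReal (u z ^ 2) + ENNReal.ofReal (v z ^ 2)) := by
        refine setLIntegral_mono' hc.measurableSet fun z hz => ?_
        rw [← ENNReal.ofReal_add (sq_nonneg _) (sq_nonneg _), ← ENNReal.ofReal_mul hC0]
        exact ENNReal.ofReal_le_ofReal (hC z hz)
    _ = ENNReal.ofReal C * ((∫⁻ z in K, ENNReal.ofReal (u z ^ 2)) +
          (∫⁻ z in K, ENNReal.ofReal (v z ^ 2))) := by
        rw [lintegral_const_mul' _ _ ENNReal.ofReal_ne_top, lintegral_add_left]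
        exact (mu.pow_const 2).ennreal_ofReal
    _ < ⊤ := ENNReal.mul_lt_top ENNReal.ofReal_lt_top (ENNReal.add_lt_top.2 ⟨h1, h2⟩)

theorem sq_bound (m u : ℂ) : (m * u).re ^ 2 ≤ 2 * ‖m‖ ^ 2 * (u.re ^ 2 + u.im ^ 2) ∧
    (m * u).im ^ 2 ≤ 2 * ‖m‖ ^ 2 * (u.re ^ 2 + u.im ^ 2) := by
  have h1 : ‖m * u‖ ^ 2 = ‖m‖ ^ 2 * (u.re ^ 2 + u.im ^ 2) := by
    rw [norm_mul, mul_pow, ← Complex.normSq_eq_norm_sq u, Complex.normSq_apply]; ring
  have h2 : ‖m * u‖ ^ 2 = (m * u).re ^ 2 + (m * u).im ^ 2 := by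
    rw [← Complex.normSq_eq_norm_sq, Complex.normSq_apply]; ring
  have h3 : 0 ≤ ‖m‖ ^ 2 * (u.re ^ 2 + u.im ^ 2) := by positivity
  constructor <;> nlinarith [sq_nonneg (m * u).re, sq_nonneg (m * u).im]

/-- multiplication of the columns by a continuous function -/
theorem WP_of {G : Set ℂ} {F Fx Fy H m : ℂ → ℂ} (h : WP G 2 2 F Fx Fy)
    (hm : ContinuousOn m G) (hH : ContinuousOn H G)
    (hw : WD G H (G.indicator fun z => m z * Fx z) (G.indicator fun z => m z * Fy z)) :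
    WP G 2 2 H (G.indicator fun z => m z * Fx z) (G.indicator fun z => m z * Fy z) := by
  have hb : ∀ K ⊆ G, IsCompact K → ∃ C : ℝ, ∀ z ∈ K, ‖m z‖ ≤ C := fun K hK hc =>
    hc.exists_bound_of_continuousOn (hm.mono hK)
  have key : ∀ K ⊆ G, IsCompact K → ∃ C : ℝ, 0 ≤ C ∧ ∀ z ∈ K, 2 * ‖m z‖ ^ 2 ≤ C := by
    intro K hK hc
    obtain ⟨C, hC⟩ := hb K hK hc
    refine ⟨2 * C ^ 2, by positivity, fun z hz => ?_⟩
    have := hC z hz
    nlinarith [norm_nonneg (m z)]
  refine ⟨h.op, hH, hw, ?_, ?_, ?_, ?_⟩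
  · refine Lrl_dom h.rx h.sx ?_ (Complex.measurable_re.comp h.wd.mx)
    intro K hK hc
    obtain ⟨C, hC0, hC⟩ := key K hK hc
    refine ⟨C, hC0, fun z hz => ?_⟩
    rw [indicator_of_mem (hK hz)]
    exact (sq_bound (m z) (Fx z)).1.trans (mul_le_mul_of_nonneg_right (hC z hz) (by positivity))
  · refine Lrl_dom h.ry h.sy ?_ (Complex.measurable_re.comp h.wd.my)
    intro K hK hc
    obtain ⟨C, hC0, hC⟩ := key K hK hc
    refine ⟨C, hC0, fun z hz => ?_⟩
    rw [indicator_of_mem (hK hz)]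
    exact (sq_bound (m z) (Fy z)).1.trans (mul_le_mul_of_nonneg_right (hC z hz) (by positivity))
  · refine Lrl_dom h.rx h.sx ?_ (Complex.measurable_re.comp h.wd.mx)
    intro K hK hc
    obtain ⟨C, hC0, hC⟩ := key K hK hc
    refine ⟨C, hC0, fun z hz => ?_⟩
    rw [indicator_of_mem (hK hz)]
    exact (sq_bound (m z) (Fx z)).2.trans (mul_le_mul_of_nonneg_right (hC z hz) (by positivity))
  · refine Lrl_dom h.ry h.sy ?_ (Complex.measurable_re.comp h.wd.my)
    intro K hK hc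
    obtain ⟨C, hC0, hC⟩ := key K hK hc
    refine ⟨C, hC0, fun z hz => ?_⟩
    rw [indicator_of_mem (hK hz)]
    exact (sq_bound (m z) (Fy z)).2.trans (mul_le_mul_of_nonneg_right (hC z hz) (by positivity))

theorem nsq (z : ℂ) : ‖z‖ ^ 2 = z.re ^ 2 + z.im ^ 2 := by
  rw [← Complex.normSq_eq_norm_sq, Complex.normSq_apply]; ring

theorem en_mul (m a b : ℂ) : en (m * a) (m * b) = ‖m‖ ^ 2 * en a b := by
  simp only [en, norm_mul]; ring

theorem jac_mul (m a b : ℂ) : jac (m * a) (m * b) = ‖m‖ ^ 2 * jac a b := by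
  simp only [jac, nsq, Complex.mul_re, Complex.mul_im]; ring

/-- general form -/
theorem QR_of {G : Set ℂ} {Q : ℝ} {F Fx Fy H m : ℂ → ℂ} (h : QR G Q F Fx Fy)
    (hm : ContinuousOn m G) (hH : ContinuousOn H G)
    (hw : WD G H (G.indicator fun z => m z * Fx z) (G.indicator fun z => m z * Fy z)) :
    QR G Q H (G.indicator fun z => m z * Fx z) (G.indicator fun z => m z * Fy z) := by
  refine ⟨WP_of h.wp hm hH hw, ?_⟩
  filter_upwards [h.qr, self_mem_ae_restrict h.wp.op.measurableSet] with z hz hzG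
  rw [indicator_of_mem hzG, indicator_of_mem hzG, en_mul, jac_mul]
  nlinarith [sq_nonneg ‖m z‖]

theorem indicator_ext {G : Set ℂ} {u v : ℂ → ℂ} (h : ∀ z ∈ G, u z = v z) :
    G.indicator u = G.indicator v := indicator_congr h

end QInv

open QInv in
/-- QINV -/
theorem specQInv (hComp : SpecComp) (hLoc : SpecLoc) : SpecQInv := by
  intro G Q F Fx Fy hQ h hne
  have ho := h.wp.op
  have hco := h.wp.co
  constructor
  · -- `1 / F`
    have hU : IsOpen {w : ℂ | w ≠ 0} := isOpen_ne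
    have hc := hComp G {w : ℂ | w ≠ 0} F Fx Fy (fun w => w⁻¹) ho hco h.wp.wd hU
      (fun w hw => (contDiffAt_inv ℝ hw).contDiffWithinAt) hne
    have hd : ∀ w v : ℂ, w ≠ 0 → fderiv ℝ (fun w : ℂ => w⁻¹) w v = -(w ^ 2)⁻¹ * v := by
      intro w v hw
      have h1 : HasDerivAt (fun w : ℂ => w⁻¹) (-(w ^ 2)⁻¹) w := hasDerivAt_inv hw
      have h2 := h1.hasFDerivAt.restrictScalars ℝ
      rw [h2.fderiv]
      simp [mul_comm]
    have e1 : ∀ u : ℂ → ℂ, (G.indicator fun z => fderiv ℝ (fun w : ℂ => w⁻¹) (F z) (u z)) =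
        G.indicator fun z => -((F z) ^ 2)⁻¹ * u z := fun u =>
      indicator_ext fun z hz => hd _ _ (hne z hz)
    have e2 : ∀ u : ℂ → ℂ, (G.indicator fun z => -u z / F z ^ 2) =
        G.indicator fun z => -((F z) ^ 2)⁻¹ * u z := fun u =>
      indicator_ext fun z _ => by rw [div_eq_mul_inv]; ring
    rw [e1, e1] at hc
    rw [e2, e2]
    refine QR_of (m := fun z => -((F z) ^ 2)⁻¹) h ?_ ?_ hc
    · exact (ContinuousOn.inv₀ (hco.pow 2) fun z hz => pow_ne_zero _ (hne z hz)).neg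
    · exact ContinuousOn.inv₀ hco fun z hz => hne z hz
  · intro L hL hLe
    have hm : ContinuousOn (fun z => (F z)⁻¹) G := ContinuousOn.inv₀ hco fun z hz => hne z hz
    have e2 : ∀ u : ℂ → ℂ, (G.indicator fun z => u z / F z) =
        G.indicator fun z => (F z)⁻¹ * u z := fun u =>
      indicator_ext fun z _ => by rw [div_eq_mul_inv, mul_comm]
    rw [e2, e2]
    refine QR_of h hm hL ?_
    have mx := indicator_mul_measurable ho hm h.wp.wd.mx
    have my := indicator_mul_measurable ho hm h.wp.wd.my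
    refine hLoc G L _ _ ho mx my fun z₀ hz₀ => ?_
    -- a small ball
    have hev : ∀ᶠ z in 𝓝 z₀, z ∈ G ∧ ‖L z - L z₀‖ < 1 := by
      have h1 : ContinuousAt L z₀ := hL.continuousAt (ho.mem_nhds hz₀)
      have h2 : ∀ᶠ z in 𝓝 z₀, L z ∈ ball (L z₀) 1 := h1 (ball_mem_nhds _ one_pos)
      filter_upwards [ho.mem_nhds hz₀, h2] with z hz hz'
      exact ⟨hz, by simpa [dist_eq_norm] using hz'⟩
    obtain ⟨r, hr, hball⟩ := Metric.eventually_nhds_iff_ball.1 hev
    have hsub : ball z₀ r ⊆ G := fun z hz => (hball z hz).1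
    refine ⟨r, hr, hsub, ?_⟩
    set w₀ := F z₀ with hw₀
    have hw₀0 : w₀ ≠ 0 := hne z₀ hz₀
    set U : Set ℂ := {w | w / w₀ ∈ slitPlane} with hUdef
    have hUo : IsOpen U := isOpen_slitPlane.preimage (continuous_id.div_const w₀)
    set g : ℂ → ℂ := fun w => Complex.log (w / w₀) + L z₀ with hg
    have hdg : ∀ w ∈ U, HasDerivAt g w⁻¹ w := by
      intro w hw
      have hw0 : w ≠ 0 := by
        rintro rfl
        have : (0 : ℂ) / w₀ ∈ slitPlane := hw
        rw [zero_div] at this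
        exact zero_notMem_slitPlane this
      have h1 : HasDerivAt (fun w : ℂ => w / w₀) (1 / w₀) w := (hasDerivAt_id w).div_const w₀
      have h2 := (h1.clog hw).add_const (L z₀)
      have h3 : 1 / w₀ / (w / w₀) = w⁻¹ := by field_simp
      rw [h3] at h2
      exact h2
    have hgc : ContDiffOn ℝ 1 g U := by
      have : DifferentiableOn ℂ g U := fun w hw => (hdg w hw).differentiableAt.differentiableWithinAt
      exact ((this.contDiffOn hUo).restrict_scalars ℝ)
    have hFexp : ∀ z ∈ ball z₀ r, F z / w₀ = Complex.exp (L z - L z₀) := by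
      intro z hz
      rw [hLe z (hsub hz), hw₀, hLe z₀ hz₀, Complex.exp_sub]
    have him : ∀ z ∈ ball z₀ r, |(L z - L z₀).im| < 1 := fun z hz =>
      (Complex.abs_im_le_norm _).trans_lt (hball z hz).2
    have hmaps : MapsTo F (ball z₀ r) U := by
      intro z hz
      show F z / w₀ ∈ slitPlane
      rw [hFexp z hz, mem_slitPlane_iff]
      left
      rw [Complex.exp_re]
      refine mul_pos (Real.exp_pos _) (Real.cos_pos_of_mem_Ioo ?_)
      have := abs_lt.1 (him z hz)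
      have hpi := Real.pi_gt_three
      exact ⟨by linarith [this.1], by linarith [this.2]⟩
    have hgF : ∀ z ∈ ball z₀ r, g (F z) = L z := by
      intro z hz
      have := abs_lt.1 (him z hz)
      have hpi := Real.pi_gt_three
      rw [hg]
      show Complex.log (F z / w₀) + L z₀ = L z
      rw [hFexp z hz, Complex.log_exp (by linarith [this.1]) (by linarith [this.2])]
      ring
    have hc := hComp (ball z₀ r) U F Fx Fy g isOpen_ball (hco.mono hsub)
      (Base.WD_mono h.wp.wd hsub) hUo hgc hmaps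
    refine WD_congr hc hgF ?_ ?_ mx my
    · intro z hz
      rw [indicator_of_mem hz, indicator_of_mem (hsub hz)]
      rw [((hdg _ (hmaps hz)).hasFDerivAt.restrictScalars ℝ).fderiv]
      simp [mul_comm]
    · intro z hz
      rw [indicator_of_mem hz, indicator_of_mem (hsub hz)]
      rw [((hdg _ (hmaps hz)).hasFDerivAt.restrictScalars ℝ).fderiv]
      simp [mul_comm]

end MPfa.Reg
end

section
/-!
Problem MP_fa0334_an, part REG, module ROSC: oscillation on rings by energy.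
-/
set_option autoImplicit false

open MeasureTheory Set Filter Topology Metric Complex
open scoped ContDiff ENNReal ComplexConjugate

namespace MPfa.Reg

namespace ROscM

theorem sq_int {G K : Set ℂ} {u : ℂ → ℝ} (hK : K ⊆ G) (hc : IsCompact K) (mu : Measurable u)
    (hu : Lrl G 2 u) : IntegrableOn (fun z => u z ^ 2) K := by
  refine ⟨(mu.pow_const 2).aestronglyMeasurable, ?_⟩
  rw [hasFiniteIntegral_iff_ofReal (ae_of_all _ fun z => sq_nonneg _)]
  have := hu K hK hc
  simpa only [QInv.ofReal_rpow_two] using this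

/-- the energy of a continuous Sobolev map is locally integrable -/
theorem en_int {G K : Set ℂ} {F Fx Fy : ℂ → ℂ} (h : WP G 2 2 F Fx Fy) (hK : K ⊆ G)
    (hc : IsCompact K) : IntegrableOn (fun z => en (Fx z) (Fy z)) K := by
  have h1 := sq_int hK hc (Complex.measurable_re.comp h.wd.mx) h.rx
  have h2 := sq_int hK hc (Complex.measurable_im.comp h.wd.mx) h.sx
  have h3 := sq_int hK hc (Complex.measurable_re.comp h.wd.my) h.ry
  have h4 := sq_int hK hc (Complex.measurable_im.comp h.wd.my) h.sy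
  have h5 := ((h1.add h2).add (h3.add h4))
  refine h5.congr (ae_of_all _ fun z => ?_)
  simp only [Pi.add_apply, Function.comp, en, QInv.nsq]

/-- the energy of `log F` is locally integrable -/
theorem enl_int {G K : Set ℂ} {F Fx Fy : ℂ → ℂ} (h : WP G 2 2 F Fx Fy)
    (hne : ∀ z ∈ G, F z ≠ 0) (hK : K ⊆ G)
    (hc : IsCompact K) : IntegrableOn (fun z => en (Fx z) (Fy z) / ‖F z‖ ^ 2) K := by
  have h1 := en_int h hK hc
  have h2 : ContinuousOn (fun z => (‖F z‖ ^ 2)⁻¹) K := by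
    refine ContinuousOn.inv₀ ((h.co.mono hK).norm.pow 2) fun z hz => ?_
    exact pow_ne_zero _ (norm_ne_zero_iff.2 (hne z (hK hz)))
  have h3 := h1.mul_continuousOn h2 hc
  exact h3.congr (ae_of_all _ fun z => by simp [div_eq_mul_inv])

end ROscM

open CircM ROscM in
/-- ROSC -/
theorem specROsc (hO : SpecOscQ) (hQI : SpecQInv) (hD : SpecDLog) : SpecROsc := by
  intro Q hQ
  have hlog : 0 < Real.log 2 := Real.log_pos (by norm_num)
  refine ⟨128 ^ 2 * (2 * Real.pi / Real.log 2), by positivity,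
    fun r F Fx Fy h hne t ht htr z z' h1 h2 h1' h2' => ?_⟩
  obtain ⟨c, c0, c1, hc⟩ := chain (t := t) (ρ₁ := t / 2) (ρ₂ := t) (by linarith) (by linarith)
    (by linarith) h1 h2 h1' h2'
  set A : Set ℂ := ball (0 : ℂ) (2 * t) \ closedBall 0 (t / 4) with hA
  set K : Set ℂ := closedBall (0 : ℂ) (2 * t) \ ball 0 (t / 4) with hKdef
  have hKc : IsCompact K := (isCompact_closedBall _ _).diff isOpen_ball
  have hKsub : K ⊆ pun r := by
    intro w hw
    have e1 : ‖w‖ ≤ 2 * t := by simpa using hw.1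
    have e2 : t / 4 ≤ ‖w‖ := by simpa using hw.2
    rw [Base.mem_pun]
    refine ⟨by linarith, fun h0 => ?_⟩
    rw [h0, norm_zero] at e2
    linarith
  have hAK : A ⊆ K := fun w hw => ⟨ball_subset_closedBall hw.1, fun hh =>
    hw.2 (ball_subset_closedBall hh)⟩
  have hint : IntegrableOn (fun w => en (Fx w) (Fy w) / ‖F w‖ ^ 2) A :=
    (enl_int h.wp hne hKsub hKc).mono_set hAK
  set E : ℝ := ∫ w in A, en (Fx w) (Fy w) / ‖F w‖ ^ 2 with hE
  have hnn : ∀ w, 0 ≤ en (Fx w) (Fy w) / ‖F w‖ ^ 2 := fun w => by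
    unfold en; positivity
  have hE0 : 0 ≤ E := setIntegral_nonneg (measurableSet_ball.diff measurableSet_closedBall)
    fun w _ => hnn w
  set δ : ℝ := Real.sqrt (2 * Real.pi / Real.log 2 * E) with hδ
  have step : ∀ k, k < 128 → |Real.log ‖F (c k)‖ - Real.log ‖F (c (k + 1))‖| ≤ δ := by
    intro k hk
    obtain ⟨⟨hk1, hk2⟩, hk3⟩ := hc k hk
    have hin : ∀ w ∈ ball (c k) (t / 4), t / 4 < ‖w‖ ∧ ‖w‖ < 2 * t := by
      intro w hw
      rw [mem_ball, dist_eq_norm] at hw
      have e1 : ‖c k‖ - ‖w‖ ≤ ‖c k - w‖ := norm_sub_norm_le _ _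
      have e2 : ‖w‖ - ‖c k‖ ≤ ‖w - c k‖ := norm_sub_norm_le _ _
      rw [norm_sub_rev] at e1
      constructor <;> linarith
    have hsub : ball (c k) (t / 4) ⊆ pun r := by
      intro w hw
      have := hin w hw
      rw [Base.mem_pun]
      refine ⟨by linarith [this.2], fun h0 => ?_⟩
      rw [h0, norm_zero] at this
      linarith [this.1]
    have hsubA : ball (c k) (t / 8) ⊆ A := by
      intro w hw
      have := hin w (ball_subset_ball (by linarith) hw)
      exact ⟨by simpa using this.2, by simpa using this.1⟩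
    obtain ⟨L, hL, hLQ⟩ := loclog hD hQI hQ h hne hsub
    have hck : c k ∈ closedBall (c k) (t / 16) := mem_closedBall_self (by linarith)
    have hck1 : c (k + 1) ∈ closedBall (c k) (t / 16) := by
      rw [mem_closedBall, dist_eq_norm]
      linarith
    have hb : closedBall (c k) (t / 16) ⊆ ball (c k) (t / 4) :=
      closedBall_subset_ball (by linarith)
    have hosc := hO (ball (c k) (t / 4)) Q L _ _ hQ hLQ (c k) (t / 16) (t / 8) (by linarith)
      (by linarith) (closedBall_subset_ball (by linarith)) _ hck _ hck1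
    have e2 : t / 8 / (t / 16) = 2 := by field_simp; norm_num
    rw [e2] at hosc
    have e3 : ∫ w in ball (c k) (t / 8), en ((ball (c k) (t / 4)).indicator
        (fun z => Fx z / F z) w) ((ball (c k) (t / 4)).indicator (fun z => Fy z / F z) w) =
        ∫ w in ball (c k) (t / 8), en (Fx w) (Fy w) / ‖F w‖ ^ 2 := by
      refine setIntegral_congr_fun measurableSet_ball fun w hw => ?_
      have hw' : w ∈ ball (c k) (t / 4) := ball_subset_ball (by linarith) hw
      simp only [indicator_of_mem hw', en, norm_div, div_pow]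
      ring
    rw [e3] at hosc
    have e4 : ∫ w in ball (c k) (t / 8), en (Fx w) (Fy w) / ‖F w‖ ^ 2 ≤ E :=
      setIntegral_mono_set hint (ae_of_all _ fun w => hnn w) hsubA.eventuallyLE
    have e5 : |Real.log ‖F (c k)‖ - Real.log ‖F (c (k + 1))‖| ≤ ‖L (c k) - L (c (k + 1))‖ := by
      rw [← hL _ (hb hck), ← hL _ (hb hck1), ← Complex.sub_re]
      exact Complex.abs_re_le_norm _
    refine e5.trans (Real.le_sqrt_of_sq_le ?_)
    rw [div_mul_eq_mul_div, le_div_iff₀ hlog]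
    refine hosc.trans ?_
    exact mul_le_mul_of_nonneg_left e4 (by positivity)
  have ind : ∀ n, n ≤ 128 → |Real.log ‖F (c 0)‖ - Real.log ‖F (c n)‖| ≤ n * δ := by
    intro n
    induction n with
    | zero => intro _; simp
    | succ n ih =>
      intro hn
      have a1 := ih (by omega)
      have a2 := step n (by omega)
      have a3 : Real.log ‖F (c 0)‖ - Real.log ‖F (c (n + 1))‖ =
          (Real.log ‖F (c 0)‖ - Real.log ‖F (c n)‖) +
          (Real.log ‖F (c n)‖ - Real.log ‖F (c (n + 1))‖) := by ring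
      rw [a3]
      refine (abs_add_le _ _).trans ?_
      push_cast
      linarith
  have hfin := ind 128 le_rfl
  rw [c0, c1] at hfin
  have hδ2 : δ ^ 2 = 2 * Real.pi / Real.log 2 * E := Real.sq_sqrt (by positivity)
  have : (Real.log ‖F z‖ - Real.log ‖F z'‖) ^ 2 ≤ ((128 : ℕ) * δ) ^ 2 := by
    rw [← sq_abs]
    exact pow_le_pow_left₀ (abs_nonneg _) hfin 2
  refine this.trans (le_of_eq ?_)
  rw [mul_pow, hδ2]
  push_cast
  ring

end MPfa.Reg
end

section
/-!
Problem MP_fa0334_an, part REG, module REG: assembly.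
-/
set_option autoImplicit false

open MeasureTheory Set Filter Topology Metric Complex
open scoped ContDiff ENNReal ComplexConjugate

namespace MPfa.Reg

open Base

theorem specREG (hL : SpecLocal) (hN : SpecZNorm) (hZ : SpecZero) : SpecREG := by
  intro p Y X Ψ f fx fy hp h
  have key : ∀ z ∈ Y, ∃ ε > 0, ball z ε ⊆ Y ∧ ContDiffOn ℝ 1 f (ball z ε) ∧
      0 < jac (fderiv ℝ f z 1) (fderiv ℝ f z I) := by
    intro z hz
    by_cases h0 : Ψ (f z) = 0
    · obtain ⟨n, r, ρ, g, φ, hg, hφ, hall⟩ := hN p Y X Ψ f fx fy hp h z hz h0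
      obtain ⟨h1, h2⟩ := hZ p n r φ hp hφ
      have hr : 0 < r := hφ.r0
      have hgd : DifferentiableOn ℂ g (ball 0 ρ) := hg.d
      have hgc : ContDiffOn ℝ 1 g (ball 0 ρ) :=
        ((hgd.contDiffOn (n := 1) isOpen_ball).restrict_scalars ℝ)
      have hmt : MapsTo (fun z' => z' - z) (ball z r) (ball 0 r) := by
        intro z' hz'
        rw [mem_ball_zero_iff]
        simpa [dist_eq_norm] using hz'
      have hmφ : MapsTo φ (ball 0 r) (ball 0 ρ) := fun w hw => (hall w hw).2.1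
      have heq : ∀ z' ∈ ball z r, f z' = g (φ (z' - z)) := by
        intro z' hz'
        rw [(hall (z' - z) (hmt hz')).2.2]
        congr 1
        ring
      have hcomp : ContDiffOn ℝ 1 (fun z' => g (φ (z' - z))) (ball z r) := by
        have e1 : ContDiffOn ℝ 1 (fun z' => φ (z' - z)) (ball z r) :=
          h1.comp (contDiff_id.sub contDiff_const).contDiffOn hmt
        exact hgc.comp e1 fun z' hz' => hmφ (hmt hz')
      refine ⟨r, hr, fun z' hz' => ?_, hcomp.congr heq, ?_⟩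
      · have := (hall (z' - z) (hmt hz')).1
        simpa using this
      · have hz0 : (0 : ℂ) ∈ ball (0 : ℂ) r := mem_ball_self hr
        have hφ0 : DifferentiableAt ℝ φ 0 :=
          (h1.contDiffAt (isOpen_ball.mem_nhds hz0)).differentiableAt (by norm_num)
        have e1 : HasFDerivAt (fun z' : ℂ => φ (z' - z)) (fderiv ℝ φ 0) z := by
          have e3 : HasFDerivAt (fun z' : ℂ => z' - z) (ContinuousLinearMap.id ℝ ℂ) z :=
            (hasFDerivAt_id z).sub_const z
          have e2 : HasFDerivAt φ (fderiv ℝ φ 0) ((fun z' : ℂ => z' - z) z) := by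
            simp only [sub_self]; exact hφ0.hasFDerivAt
          have e4 := HasFDerivAt.comp (f := fun z' : ℂ => z' - z) z e2 e3
          rw [ContinuousLinearMap.comp_id] at e4
          exact e4
        have hφz : φ (z - z) = φ 0 := by rw [sub_self]
        have hgat : HasDerivAt g (deriv g (φ 0)) (φ 0) :=
          (hgd.differentiableAt (isOpen_ball.mem_nhds (hmφ hz0))).hasDerivAt
        have e4 : HasFDerivAt (fun z' : ℂ => g (φ (z' - z)))
            (((ContinuousLinearMap.toSpanSingleton ℂ (deriv g (φ 0))).restrictScalars ℝ).comp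
              (fderiv ℝ φ 0)) z := by
          have e5 : HasFDerivAt g ((ContinuousLinearMap.toSpanSingleton ℂ
              (deriv g (φ 0))).restrictScalars ℝ) (φ (z - z)) := by
            rw [hφz]
            exact hgat.hasFDerivAt.restrictScalars ℝ
          exact HasFDerivAt.comp (f := fun z' : ℂ => φ (z' - z)) z e5 e1
        have e6 : fderiv ℝ f z = ((ContinuousLinearMap.toSpanSingleton ℂ
            (deriv g (φ 0))).restrictScalars ℝ).comp (fderiv ℝ φ 0) := by
          have : f =ᶠ[𝓝 z] fun z' => g (φ (z' - z)) := by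
            filter_upwards [ball_mem_nhds z hr] with z' hz' using heq z' hz'
          rw [this.fderiv_eq, e4.fderiv]
        have e7 : ∀ v, fderiv ℝ f z v = fderiv ℝ φ 0 v * deriv g (φ 0) := by
          intro v
          rw [e6]
          simp
        rw [e7, e7]
        have hne : deriv g (φ 0) ≠ 0 := hg.nd _ (hmφ hz0)
        have e8 : ∀ a b c : ℂ, jac (a * c) (b * c) = jac a b * Complex.normSq c := by
          intro a b c
          simp only [jac, Complex.normSq_apply, mul_re, mul_im]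
          ring
        rw [e8]
        exact mul_pos h2 (Complex.normSq_pos.2 hne)
    · obtain ⟨ε, hε, h1, h2, h3⟩ := hL p Y X Ψ f fx fy hp h z hz h0
      exact ⟨ε, hε, h1, h2, (h3 z (mem_ball_self hε)).1⟩
  refine ⟨fun z hz => ?_, fun z hz => ?_⟩
  · obtain ⟨ε, hε, -, h2, -⟩ := key z hz
    exact (h2.contDiffAt (ball_mem_nhds z hε)).contDiffWithinAt
  · obtain ⟨ε, hε, -, -, h3⟩ := key z hz
    exact h3

end MPfa.Reg
end

section
/-!
Problem MP_fa0334_an, part REG, module TWC: `ℓ` has a limit at `0`.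
-/
set_option autoImplicit false

open MeasureTheory Set Filter Topology Metric Complex
open scoped ContDiff ENNReal ComplexConjugate

namespace MPfa.Reg

namespace TwcFin

open Base

/-- scaling of the weights -/
lemma int_scale (ψ : ℂ → ℝ) (j : ℕ) (h1 : ∫ z, ψ z = 1) :
    ∫ z : ℂ, (4 : ℝ) ^ j * ψ (2 ^ j * z) = 1 := by
  have h2 := MeasureTheory.Measure.integral_comp_smul (μ := (volume : Measure ℂ)) ψ ((2 : ℝ) ^ j)
  have e : ∀ z : ℂ, ((2 : ℝ) ^ j) • z = (2 : ℂ) ^ j * z := by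
    intro z
    rw [Complex.real_smul]
    push_cast
    ring
  simp only [e] at h2
  rw [integral_const_mul, h2, h1, Complex.finrank_real_complex]
  have : |(((2 : ℝ) ^ j) ^ 2)⁻¹| = ((4 : ℝ) ^ j)⁻¹ := by
    rw [abs_of_pos (by positivity), ← pow_mul, mul_comm j 2, pow_mul]
    norm_num
  rw [this, smul_eq_mul, mul_one]
  exact mul_inv_cancel₀ (by positivity)

end TwcFin

open TwcFin Base in
theorem specTwc (hA : SpecTwcA) (hB : SpecTwcB) (hC : SpecTwcC) : SpecTwc := by
  intro r Q C α m F Fx Fy ℓ h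
  have hr : 0 < r := h.pf.r0
  obtain ⟨ψ, a, hψc, hψ0, hψ1, hψs, hψt⟩ := hC r Q C α m F Fx Fy ℓ h
  have hosc := hB r Q C α m F Fx Fy ℓ h (hA r Q C α m F Fx Fy ℓ h)
  refine ⟨a, ?_⟩
  -- comparison of `ℓ z` with the mean over its ring
  have hcomp : ∀ ε > 0, ∀ᶠ j : ℕ in atTop, ∀ z : ℂ, 1 / 2 * (1 / 2) ^ j ≤ ‖z‖ → ‖z‖ ≤ (1 / 2) ^ j →
      ‖(∫ w, ((4 : ℝ) ^ j * ψ (2 ^ j * w)) • ℓ w) - ℓ z‖ ≤ ε := by
    intro ε hε
    obtain ⟨r₂, hr₂, hr₂'⟩ := hosc ε hε
    have ht : Tendsto (fun j : ℕ => (1 / 2 : ℝ) ^ j) atTop (𝓝 0) :=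
      tendsto_pow_atTop_nhds_zero_of_lt_one (by norm_num) (by norm_num)
    filter_upwards [ht.eventually_lt_const hr₂, ht.eventually_lt_const hr] with j hj hjr z hz1 hz2
    set t : ℝ := (1 / 2) ^ j with htdef
    have ht0 : 0 < t := by positivity
    have h2t : (2 : ℝ) ^ j * t = 1 := by rw [htdef, ← mul_pow]; norm_num
    set φ : ℂ → ℝ := fun w => (4 : ℝ) ^ j * ψ (2 ^ j * w) with hφ
    have hφc : Continuous φ := continuous_const.mul (hψc.comp (by fun_prop))
    have hφ0 : ∀ w, 0 ≤ φ w := fun w => mul_nonneg (by positivity) (hψ0 _)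
    have hφ1 : ∫ w, φ w = 1 := int_scale ψ j hψ1
    have hφs : ∀ w, φ w ≠ 0 → t / 2 ≤ ‖w‖ ∧ ‖w‖ ≤ t := by
      intro w hw
      have h1 : ψ (2 ^ j * w) ≠ 0 := by
        intro h0
        apply hw
        simp only [hφ, h0, mul_zero]
      obtain ⟨h2, h3⟩ := hψs _ h1
      rw [norm_mul, norm_pow, Complex.norm_two] at h2 h3
      constructor
      · nlinarith
      · nlinarith
    have hφi : Integrable φ := by
      by_contra hcon
      rw [integral_undef hcon] at hφ1
      exact zero_ne_one hφ1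
    -- `φ • ℓ` is integrable
    set S : Set ℂ := {w | t / 2 ≤ ‖w‖ ∧ ‖w‖ ≤ t} with hS
    have hSc : IsCompact S := by
      refine Metric.isCompact_of_isClosed_isBounded
        ((isClosed_le continuous_const continuous_norm).inter (isClosed_le continuous_norm continuous_const)) ?_
      refine (Metric.isBounded_closedBall (x := (0 : ℂ)) (r := t)).subset ?_
      intro w hw
      rw [mem_closedBall_zero_iff]
      exact hw.2
    have hSr : S ⊆ pun r := by
      intro w hw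
      rw [mem_pun]
      refine ⟨hw.2.trans_lt hjr, ?_⟩
      intro h0
      have := hw.1
      rw [h0, norm_zero] at this
      linarith
    have hφl : Integrable fun w => φ w • ℓ w := by
      have h1 : IntegrableOn (fun w => φ w • ℓ w) S :=
        ContinuousOn.integrableOn_compact hSc (hφc.continuousOn.smul (h.pf.lc.mono hSr))
      refine (integrableOn_iff_integrable_of_support_subset ?_).mp h1
      intro w hw
      refine hφs w ?_
      intro h0
      apply hw
      simp [h0]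
    have hconst : ∫ w, φ w • ℓ z = ℓ z := by
      rw [integral_smul_const, hφ1, one_smul]
    have hsub : (∫ w, φ w • ℓ w) - ℓ z = ∫ w, φ w • (ℓ w - ℓ z) := by
      conv_lhs => rw [← hconst]
      rw [← integral_sub hφl (hφi.smul_const _)]
      refine integral_congr_ae (ae_of_all _ fun w => ?_)
      simp only [smul_sub]
    rw [hsub]
    have hb : ∀ w, ‖φ w • (ℓ w - ℓ z)‖ ≤ φ w * ε := by
      intro w
      rw [norm_smul, Real.norm_of_nonneg (hφ0 w)]
      by_cases hw : φ w = 0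
      · rw [hw, zero_mul, zero_mul]
      · obtain ⟨h1, h2⟩ := hφs w hw
        exact mul_le_mul_of_nonneg_left (hr₂' t ht0 hj w z h1 h2 (by linarith) hz2) (hφ0 w)
    calc ‖∫ w, φ w • (ℓ w - ℓ z)‖ ≤ ∫ w, φ w * ε :=
          norm_integral_le_of_norm_le (hφi.mul_const ε) (ae_of_all _ hb)
      _ = ε := by rw [integral_mul_const, hφ1, one_mul]
  -- conclusion
  rw [Metric.tendsto_nhdsWithin_nhds]
  intro ε hε
  obtain ⟨j₁, hj₁⟩ := eventually_atTop.mp ((hcomp (ε / 2) (by positivity)).and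
    (hψt.eventually (Metric.ball_mem_nhds a (half_pos hε))))
  refine ⟨(1 / 2) ^ j₁, by positivity, ?_⟩
  intro z hz hz'
  rw [dist_zero_right] at hz'
  have hz0 : 0 < ‖z‖ := norm_pos_iff.mpr hz
  -- the ring of `z`
  obtain ⟨j, hj1, hj2, hj3⟩ : ∃ j : ℕ, j₁ ≤ j ∧ 1 / 2 * (1 / 2) ^ j ≤ ‖z‖ ∧ ‖z‖ ≤ (1 / 2) ^ j := by
    obtain ⟨k, hk1, hk2⟩ := exists_nat_pow_near_of_lt_one hz0 (hz'.le.trans (pow_le_one₀ (by norm_num) (by norm_num)))
      (show (0 : ℝ) < 1 / 2 by norm_num) (by norm_num)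
    refine ⟨k, ?_, ?_, hk2⟩
    · by_contra hcon
      push Not at hcon
      have : (1 / 2 : ℝ) ^ j₁ ≤ (1 / 2) ^ (k + 1) := pow_le_pow_of_le_one (by norm_num) (by norm_num) hcon
      linarith
    · rw [← pow_succ']
      exact hk1.le
  obtain ⟨h1, h2⟩ := hj₁ j hj1
  have h3 := h1 z hj2 hj3
  calc dist (ℓ z) a ≤ dist (ℓ z) (∫ w, ((4 : ℝ) ^ j * ψ (2 ^ j * w)) • ℓ w) +
        dist (∫ w, ((4 : ℝ) ^ j * ψ (2 ^ j * w)) • ℓ w) a := dist_triangle _ _ _
    _ < ε / 2 + ε / 2 := by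
        refine add_lt_add_of_le_of_lt ?_ h2
        rw [dist_comm, dist_eq_norm]
        exact h3
    _ = ε := by ring

end MPfa.Reg
end

section
/-!
Problem MP_fa0334_an, part REG, module ZNORM: normal form at a zero of `Ψ`.
-/
set_option autoImplicit false

open MeasureTheory Set Filter Topology Metric Complex
open scoped ContDiff ENNReal ComplexConjugate

namespace MPfa.Reg

open LocM Base

theorem specZNorm (hChart : MPfa.SpecChart) (hLocal : SpecLocal) : SpecZNorm := by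
  intro p Y X Ψ f fx fy hp h z hz hΨ
  -- chart
  obtain ⟨δ, hδ, hδX⟩ := Metric.isOpen_iff.1 h.oX (f z) (h.maps hz)
  have hne : ∃ w ∈ ball (f z) δ, Ψ w ≠ 0 := by
    have h1 := h.nz (f z) (h.maps hz)
    have h2 : ∀ᶠ w in 𝓝[≠] (f z), w ∈ ball (f z) δ :=
      mem_nhdsWithin_of_mem_nhds (ball_mem_nhds _ hδ)
    obtain ⟨w, hw1, hw2⟩ := (h1.and h2).exists
    exact ⟨w, hw2, hw1⟩
  obtain ⟨n, ρ, g, hch, -⟩ := hChart (ball (f z) δ) Ψ (f z) isOpen_ball
    (convex_ball _ _).isPreconnected (h.hol.mono hδX) hne (mem_ball_self hδ)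
  have hchX : Chart X Ψ n (f z) ρ g :=
    ⟨hch.r0, hch.d, hch.inj, fun w hw => hδX (hch.maps hw), hch.z, hch.nd, hch.eq⟩
  have hn : n ≠ 0 := by
    rintro rfl
    have h1 := hch.eq 0 (mem_ball_self hch.r0)
    rw [hch.z, hΨ] at h1
    norm_num at h1
  obtain ⟨U, χ, hUo, htU, hUD, hright, hleft, hχd, hχ', hχ0⟩ := chart_inv hch
  have hχt : χ (f z) = 0 := by
    rw [← hch.z]
    exact (hleft 0 (mem_ball_self hch.r0)).2
  -- the small ball
  have hfat : ContinuousAt f z := h.co.continuousAt (h.oY.mem_nhds hz)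
  have hn' : f ⁻¹' U ∩ Y ∈ 𝓝 z := inter_mem (hfat.preimage_mem_nhds (hUo.mem_nhds htU))
    (h.oY.mem_nhds hz)
  obtain ⟨r, hr, hrU⟩ := Metric.mem_nhds_iff.1 hn'
  have hmem : ∀ w ∈ ball (0 : ℂ) r, z + w ∈ Y ∧ f (z + w) ∈ U := by
    intro w hw
    have h1 : z + w ∈ ball z r := by
      rw [mem_ball, dist_eq_norm] at hw ⊢
      simpa using hw
    exact ⟨(hrU h1).2, (hrU h1).1⟩
  set φ : ℂ → ℂ := fun w => χ (f (z + w)) with hφ
  have hφc : ContinuousOn φ (ball 0 r) := by
    refine hχd.continuousOn.comp (h.co.comp (continuousOn_const.add continuousOn_id) ?_) ?_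
    · exact fun w hw => (hmem w hw).1
    · exact fun w hw => (hmem w hw).2
  have hgφ : ∀ w ∈ ball (0 : ℂ) r, g (φ w) = f (z + w) := fun w hw => (hright _ (hmem w hw).2).2
  have hφB : ∀ w ∈ ball (0 : ℂ) r, φ w ∈ ball (0 : ℂ) ρ := fun w hw => (hright _ (hmem w hw).2).1
  have hφinj : InjOn φ (ball 0 r) := by
    intro w hw w' hw' he
    have h1 : f (z + w) = f (z + w') := by
      rw [← hgφ w hw, ← hgφ w' hw', he]
    have := h.inj (hmem w hw).1 (hmem w' hw').1 h1
    simpa using this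
  have hφ0 : φ 0 = 0 := by simp only [hφ, add_zero, hχt]
  have h0r : (0 : ℂ) ∈ ball (0 : ℂ) r := mem_ball_self hr
  -- off zero
  have hoff : ∀ w ∈ pun r, ContDiffAt ℝ 1 f (z + w) ∧
      Rel p (fderiv ℝ f (z + w) 1) (fderiv ℝ f (z + w) I) (Ψ (f (z + w))) := by
    intro w hw
    have hwB : w ∈ ball (0 : ℂ) r := hw.1
    have hw0 : w ≠ 0 := hw.2
    have hφw : φ w ≠ 0 := fun h1 => hw0 (hφinj hwB h0r (h1.trans hφ0.symm))
    have h2 := hch.eq (φ w) (hφB w hwB)
    have hΨw : Ψ (f (z + w)) ≠ 0 := by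
      intro h3
      rw [hgφ w hwB, h3, zero_mul] at h2
      have h4 : (((n : ℂ) + 2) / 2) ≠ 0 := by
        have : ((n : ℂ) + 2) ≠ 0 := by exact_mod_cast (by omega : n + 2 ≠ 0)
        exact div_ne_zero this two_ne_zero
      exact (mul_ne_zero (pow_ne_zero 2 h4) (pow_ne_zero n hφw)) h2.symm
    obtain ⟨ε, hε, -, hc, heq⟩ := hLocal p Y X Ψ f fx fy hp h (z + w) (hmem w hwB).1 hΨw
    exact ⟨hc.contDiffAt (ball_mem_nhds _ hε), heq _ (mem_ball_self hε)⟩
  have hpo : IsOpen (pun r) := pun_open r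
  have hφC : ∀ w ∈ pun r, ContDiffAt ℝ 1 φ w ∧
      ∀ v, fderiv ℝ φ w v = deriv χ (f (z + w)) * fderiv ℝ f (z + w) v := by
    intro w hw
    obtain ⟨hc, -⟩ := hoff w hw
    have hwB : w ∈ ball (0 : ℂ) r := hw.1
    have hχa : ContDiffAt ℝ 1 χ (f (z + w)) :=
      (contDiffOn_real hUo hχd).contDiffAt (hUo.mem_nhds (hmem w hwB).2)
    have hsh : ContDiffAt ℝ 1 (fun w : ℂ => f (z + w)) w :=
      hc.comp w (contDiffAt_const.add contDiffAt_id)
    refine ⟨hχa.comp w hsh, fun v => ?_⟩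
    have hχd' : DifferentiableAt ℂ χ (f (z + w)) := hχd.differentiableAt (hUo.mem_nhds (hmem w hwB).2)
    have h1 := fderiv_hcomp (f := fun w => f (z + w)) hχd' (hsh.differentiableAt one_ne_zero) v
    rw [show (fun w => χ (f (z + w))) = φ from rfl] at h1
    rw [h1]
    congr 1
    have h2 : HasFDerivAt (fun w => f (z + w)) (fderiv ℝ f (z + w)) w := by
      have h3 := (hc.differentiableAt one_ne_zero).hasFDerivAt
      have h4 : HasFDerivAt (fun w : ℂ => z + w) (ContinuousLinearMap.id ℝ ℂ) w :=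
        (hasFDerivAt_id w).const_add _
      simpa [Function.comp_def] using h3.comp w h4
    rw [h2.fderiv]
  refine ⟨n, r, ρ, g, φ, hchX, ⟨hr, Nat.one_le_iff_ne_zero.2 hn, hφc, hφinj, hφ0,
    fun w hw => (hφC w hw).1.contDiffWithinAt, fun w hw => ?_⟩,
    fun w hw => ⟨(hmem w hw).1, hφB w hw, hgφ w hw⟩⟩
  have hwB : w ∈ ball (0 : ℂ) r := hw.1
  have hU := (hmem w hwB).2
  have h1 : Ψ (f (z + w)) = deriv χ (f (z + w)) ^ 2 * Psn n (φ w) := by
    have h2 := hch.eq (φ w) (hφB w hwB)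
    rw [hgφ w hwB] at h2
    have h3 : deriv g (φ w) ≠ 0 := hch.nd _ (hφB w hwB)
    rw [hχ' _ hU, Psn, show χ (f (z + w)) = φ w from rfl]
    field_simp
    field_simp at h2
    linear_combination h2
  have h2 := rel_mul (hχ0 _ hU) h1 (hoff w hw).2
  rw [← (hφC w hw).2, ← (hφC w hw).2] at h2
  exact h2

end MPfa.Reg
end
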