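import Pool.Agent.Lib.MP_fa0334_an.RegCL
import Pool.Agent.Lib.MP_fa0334_an.RegZNorm

/-!
Problem MP_fa0334_an, part REG, module TWCB: the oscillation of `ℓ` on rings tends to `0`.
-/

set_option autoImplicit false

open MeasureTheory Set Filter Topology Metric Complex
open scoped ContDiff ENNReal ComplexConjugate

namespace MPfa.Reg

namespace TwcBM

/-- a circle of small oscillation passing near two given points -/
lemma good_circle {G : Set ℂ} {H Hx Hy : ℂ → ℂ} (hW : WP G 2 2 H Hx Hy) {z z' : ℂ} {d o : ℝ}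
    (hzz : z ≠ z') (hd : 0 < d) (ho : 0 ≤ o)
    (hball : closedBall ((z + z') / 2) (‖z - z'‖ / 2 + d) ⊆ G)
    (hen : 2 * Real.pi * ∫ w in ball ((z + z') / 2) (‖z - z'‖ / 2 + d), ‖gr (Hx w) (Hy w)‖ ^ 2 <
      o ^ 2 * Real.log ((‖z - z'‖ / 2 + d) / (‖z - z'‖ / 2))) :
    ∃ w w' : ℂ, ‖w - z‖ ≤ d ∧ ‖w' - z'‖ ≤ d ∧ |(H w).re - (H w').re| < o := by
  set c : ℂ := (z + z') / 2 with hc
  set σ : ℝ := ‖z - z'‖ / 2 with hσ
  have hσ0 : 0 < σ := by
    have := norm_pos_iff.2 (sub_ne_zero.2 hzz)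
    positivity
  have hz : ‖z - c‖ = σ := by
    have : z - c = (z - z') / 2 := by rw [hc]; ring
    rw [this, norm_div, hσ]
    norm_num
  have hz' : ‖z' - c‖ = σ := by
    have : z' - c = -((z - z') / 2) := by rw [hc]; ring
    rw [this, norm_neg, norm_div, hσ]
    norm_num
  by_contra hcon
  push Not at hcon
  have key : ∀ t ∈ Icc σ (σ + d), ∃ w ∈ sphere c t, ∃ w' ∈ sphere c t,
      o ≤ |(H w).re - (H w').re| := by
    intro t ht
    have ht0 : 0 < t := hσ0.trans_le ht.1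
    have hmem : ∀ x : ℂ, ‖x - c‖ = σ → c + ((t / σ : ℝ) : ℂ) * (x - c) ∈ sphere c t ∧
        ‖c + ((t / σ : ℝ) : ℂ) * (x - c) - x‖ ≤ d := by
      intro x hx
      constructor
      · rw [mem_sphere, dist_eq_norm, add_sub_cancel_left, norm_mul, hx, Complex.norm_real,
          Real.norm_eq_abs, abs_of_pos (by positivity)]
        field_simp
      · have e : c + ((t / σ : ℝ) : ℂ) * (x - c) - x = ((t / σ - 1 : ℝ) : ℂ) * (x - c) := by
          push_cast
          ring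
        have h1 : 0 ≤ t / σ - 1 := by
          rw [sub_nonneg, le_div_iff₀ hσ0]
          linarith [ht.1]
        rw [e, norm_mul, hx, Complex.norm_real, Real.norm_eq_abs, abs_of_nonneg h1]
        have : (t / σ - 1) * σ = t - σ := by field_simp
        rw [this]
        linarith [ht.2]
    obtain ⟨a1, a2⟩ := hmem z hz
    obtain ⟨b1, b2⟩ := hmem z' hz'
    exact ⟨_, a1, _, b1, hcon _ _ a2 b2⟩
  have := specCL G H Hx Hy c σ (σ + d) o hW.op hW.co hW.wd hW.rx hW.ry hσ0 (by linarith) hball ho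
    key
  linarith

/-- energy of `log F` and energy of `ℓ` -/
lemma en_le {m : ℕ} {a b w : ℂ} :
    en a b ≤ 2 * en (a - m / w) (b - I * (m / w)) + 4 * (m : ℝ) ^ 2 / ‖w‖ ^ 2 := by
  unfold en
  have h1 : ‖a‖ ^ 2 ≤ 2 * ‖a - m / w‖ ^ 2 + 2 * ((m : ℝ) ^ 2 / ‖w‖ ^ 2) := by
    have e : ‖(m : ℂ) / w‖ ^ 2 = (m : ℝ) ^ 2 / ‖w‖ ^ 2 := by
      rw [norm_div, div_pow, Complex.norm_natCast]
    rw [← e]
    have : ‖a‖ ≤ ‖a - m / w‖ + ‖(m : ℂ) / w‖ := by
      calc ‖a‖ = ‖a - m / w + m / w‖ := by rw [sub_add_cancel]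
        _ ≤ _ := norm_add_le _ _
    nlinarith [sq_nonneg (‖a - m / w‖ - ‖(m : ℂ) / w‖), norm_nonneg a, norm_nonneg (a - m / w),
      norm_nonneg ((m : ℂ) / w), pow_le_pow_left₀ (norm_nonneg a) this 2]
  have h2 : ‖b‖ ^ 2 ≤ 2 * ‖b - I * (m / w)‖ ^ 2 + 2 * ((m : ℝ) ^ 2 / ‖w‖ ^ 2) := by
    have e : ‖I * ((m : ℂ) / w)‖ ^ 2 = (m : ℝ) ^ 2 / ‖w‖ ^ 2 := by
      rw [norm_mul, Complex.norm_I, one_mul, norm_div, div_pow, Complex.norm_natCast]
    rw [← e]
    have : ‖b‖ ≤ ‖b - I * (m / w)‖ + ‖I * ((m : ℂ) / w)‖ := by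
      calc ‖b‖ = ‖b - I * (m / w) + I * (m / w)‖ := by rw [sub_add_cancel]
        _ ≤ _ := norm_add_le _ _
    nlinarith [sq_nonneg (‖b - I * (m / w)‖ - ‖I * ((m : ℂ) / w)‖), norm_nonneg b,
      norm_nonneg (b - I * (m / w)), norm_nonneg (I * ((m : ℂ) / w)),
      pow_le_pow_left₀ (norm_nonneg b) this 2]
  have h3 : 4 * (m : ℝ) ^ 2 / ‖w‖ ^ 2 = 2 * ((m : ℝ) ^ 2 / ‖w‖ ^ 2) +
      2 * ((m : ℝ) ^ 2 / ‖w‖ ^ 2) := by ring
  rw [h3]
  linarith

/-- local oscillation of `ℓ` -/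
lemma locosc (hO : SpecOscQ) (hQI : SpecQInv) {r Q : ℝ} {m : ℕ} {F Fx Fy ℓ : ℂ → ℂ}
    (hQ : 0 < Q) (h : PF r Q m F Fx Fy ℓ) {M t δ : ℝ} (ht : 0 < t) (h2t : 2 * t < r)
    (hδ : 0 < δ) (hδ1 : δ ≤ 1 / 16) {z : ℂ} (hz1 : t / 2 ≤ ‖z‖) (hz2 : ‖z‖ ≤ t)
    (hM : ∫ w in ball z (t / 8), en (Fx w / F w) (Fy w / F w) ≤ M) {η : ℝ} (hη : 0 < η)
    (hδM : 2 * Real.pi * M ≤ η ^ 2 * Real.log (1 / (8 * δ))) {w : ℂ} (hw : ‖w - z‖ ≤ δ * t) :
    ‖ℓ w - ℓ z‖ ≤ η + 3 * m * δ := by
  have hz0 : z ≠ 0 := by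
    intro h0
    rw [h0, norm_zero] at hz1
    linarith
  have hzpos : 0 < ‖z‖ := norm_pos_iff.2 hz0
  set B : Set ℂ := ball z (t / 4) with hB
  have hBin : ∀ x ∈ B, ‖x - z‖ < t / 4 := fun x hx => by
    rwa [hB, mem_ball, dist_eq_norm] at hx
  have hsub : B ⊆ pun r := by
    intro x hx
    have := hBin x hx
    have e1 : ‖z‖ - ‖x‖ ≤ ‖z - x‖ := norm_sub_norm_le _ _
    have e2 : ‖x‖ - ‖z‖ ≤ ‖x - z‖ := norm_sub_norm_le _ _
    rw [norm_sub_rev] at e1
    rw [Base.mem_pun]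
    refine ⟨by linarith, fun h0 => ?_⟩
    rw [h0, zero_sub, norm_neg] at this
    linarith
  set L : ℂ → ℂ := fun x => ℓ x + m * (Complex.log z + Complex.log (x / z)) with hL
  have hslit : ∀ x ∈ B, ‖x / z - 1‖ < 1 / 2 := by
    intro x hx
    have e : x / z - 1 = (x - z) / z := by field_simp
    rw [e, norm_div, div_lt_iff₀ hzpos]
    have := hBin x hx
    linarith
  have hLc : ContinuousOn L B := by
    refine (h.lc.mono hsub).add (continuousOn_const.mul (continuousOn_const.add ?_))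
    refine ContinuousOn.clog (continuousOn_id.div_const z) fun x hx => ?_
    have h1 := hslit x hx
    left
    have h2 : |(x / z - 1).re| ≤ ‖x / z - 1‖ := Complex.abs_re_le_norm _
    have h3 : (x / z - 1).re = (x / z).re - 1 := by simp
    rw [h3] at h2
    have h4 := (abs_le.1 h2).1
    change 0 < (x / z).re
    linarith
  have hLe : ∀ x ∈ B, F x = Complex.exp (L x) := by
    intro x hx
    have hxp := hsub hx
    have hx0 : x ≠ 0 := (Base.mem_pun.1 hxp).2
    rw [h.eq x hxp, hL]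
    rw [Complex.exp_add, mul_comm (m : ℂ), mul_comm (Complex.exp (ℓ x))]
    congr 1
    rw [mul_comm, Complex.exp_nat_mul, Complex.exp_add, Complex.exp_log hz0,
      Complex.exp_log (div_ne_zero hx0 hz0)]
    congr 1
    field_simp
  have hne : ∀ x ∈ B, F x ≠ 0 := fun x hx => by
    rw [hLe x hx]
    exact Complex.exp_ne_zero _
  have hLQ := (hQI B Q F Fx Fy hQ (Base.QR_mono h.qr isOpen_ball hsub) hne).2 L hLc hLe
  have hzB : z ∈ closedBall z (δ * t) := mem_closedBall_self (by positivity)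
  have hwB : w ∈ closedBall z (δ * t) := by
    rw [mem_closedBall, dist_eq_norm]
    exact hw
  have hδt : δ * t < t / 8 := by nlinarith
  have hosc := hO B Q L _ _ hQ hLQ z (δ * t) (t / 8) (by positivity) hδt
    (closedBall_subset_ball (by linarith)) w hwB z hzB
  have e1 : t / 8 / (δ * t) = 1 / (8 * δ) := by field_simp
  rw [e1] at hosc
  have e3 : ∫ x in ball z (t / 8), en (B.indicator (fun z => Fx z / F z) x)
      (B.indicator (fun z => Fy z / F z) x) =
      ∫ x in ball z (t / 8), en (Fx x / F x) (Fy x / F x) := by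
    refine setIntegral_congr_fun measurableSet_ball fun x hx => ?_
    have hx' : x ∈ B := ball_subset_ball (by linarith) hx
    simp only [indicator_of_mem hx']
  rw [e3] at hosc
  have hlog : 0 < Real.log (1 / (8 * δ)) := by
    apply Real.log_pos
    rw [lt_div_iff₀ (by positivity)]
    linarith
  have h5 : ‖L w - L z‖ ^ 2 * Real.log (1 / (8 * δ)) ≤ η ^ 2 * Real.log (1 / (8 * δ)) := by
    have : 2 * Real.pi * ∫ x in ball z (t / 8), en (Fx x / F x) (Fy x / F x) ≤
        2 * Real.pi * M := mul_le_mul_of_nonneg_left hM (by positivity)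
    linarith
  have h6 : ‖L w - L z‖ ≤ η :=
    le_of_sq_le_sq (le_of_mul_le_mul_right h5 hlog) hη.le
  have hwz : ‖(w - z) / z‖ ≤ 2 * δ := by
    rw [norm_div, div_le_iff₀ hzpos]
    nlinarith
  have h7 : ‖Complex.log (w / z)‖ ≤ 3 * δ := by
    have e : w / z = 1 + (w - z) / z := by field_simp; ring
    rw [e]
    have := Complex.norm_log_one_add_half_le_self (z := (w - z) / z) (by linarith)
    linarith
  have e8 : ℓ w - ℓ z = (L w - L z) - m * Complex.log (w / z) := by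
    simp only [hL, div_self hz0, Complex.log_one]
    ring
  rw [e8]
  refine (norm_sub_le _ _).trans ?_
  rw [norm_mul, Complex.norm_natCast]
  have : (m : ℝ) * ‖Complex.log (w / z)‖ ≤ m * (3 * δ) :=
    mul_le_mul_of_nonneg_left h7 (Nat.cast_nonneg _)
  linarith

/-- the energy of `log F` on a small disc -/
lemma en_ball_le {r Q : ℝ} {m : ℕ} {F Fx Fy ℓ : ℂ → ℂ} (hPF : PF r Q m F Fx Fy ℓ)
    (hWP : WP (pun r) 2 2 ℓ ((pun r).indicator (lx m F Fx)) ((pun r).indicator (ly m F Fy)))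
    {t E : ℝ} {x : ℂ} (ht0 : 0 < t) (h2t : 2 * t < r) (hx1 : t / 2 ≤ ‖x‖) (hx2 : ‖x‖ ≤ t)
    (hE : ∫ y in ball x (t / 8), en ((pun r).indicator (lx m F Fx) y)
      ((pun r).indicator (ly m F Fy) y) ≤ E) :
    ∫ y in ball x (t / 8), en (Fx y / F y) (Fy y / F y) ≤ 2 * E + Real.pi * m ^ 2 + 1 := by
  have hin : ∀ y ∈ closedBall x (t / 8), 3 / 8 * t ≤ ‖y‖ ∧ ‖y‖ < 2 * t := by
    intro y hy
    rw [mem_closedBall, dist_eq_norm] at hy
    have e1 : ‖x‖ - ‖y‖ ≤ ‖x - y‖ := norm_sub_norm_le _ _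
    have e2 : ‖y‖ - ‖x‖ ≤ ‖y - x‖ := norm_sub_norm_le _ _
    rw [norm_sub_rev] at e1
    constructor <;> linarith
  have hsubc : closedBall x (t / 8) ⊆ pun r := by
    intro y hy
    have := hin y hy
    rw [Base.mem_pun]
    refine ⟨by linarith [this.2], fun h0 => ?_⟩
    rw [h0, norm_zero] at this
    linarith [this.1]
  have hi1 := (ROscM.en_int hWP hsubc (isCompact_closedBall _ _)).mono_set
    (ball_subset_closedBall (x := x) (ε := t / 8))
  have hvolb : (volume.real (ball x (t / 8))) = Real.pi * (t / 8) ^ 2 := by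
    rw [Measure.real, Complex.volume_ball, ENNReal.toReal_mul, ENNReal.toReal_pow,
      ENNReal.toReal_ofReal (by positivity)]
    simp only [ENNReal.coe_toReal, NNReal.coe_real_pi]
    ring
  have hi2 : IntegrableOn (fun _ : ℂ => 32 * (m : ℝ) ^ 2 / t ^ 2) (ball x (t / 8)) :=
    integrableOn_const (by
      rw [Complex.volume_ball]
      exact ENNReal.mul_ne_top (by finiteness) ENNReal.coe_ne_top)
  have hpt : ∀ y ∈ ball x (t / 8), en (Fx y / F y) (Fy y / F y) ≤
      2 * en ((pun r).indicator (lx m F Fx) y) ((pun r).indicator (ly m F Fy) y) +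
        32 * (m : ℝ) ^ 2 / t ^ 2 := by
    intro y hy
    have hyr : y ∈ pun r := hsubc (ball_subset_closedBall hy)
    have hy0 : y ≠ 0 := (Base.mem_pun.1 hyr).2
    have h1 := en_le (m := m) (a := Fx y / F y) (b := Fy y / F y) (w := y)
    have h2 : 4 * (m : ℝ) ^ 2 / ‖y‖ ^ 2 ≤ 32 * (m : ℝ) ^ 2 / t ^ 2 := by
      have hy1 := (hin y (ball_subset_closedBall hy)).1
      have hyp : 0 < ‖y‖ := norm_pos_iff.2 hy0
      rw [div_le_div_iff₀ (by positivity) (by positivity)]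
      have h4 := pow_le_pow_left₀ (by positivity) hy1 2
      have h3 : t ^ 2 ≤ 8 * ‖y‖ ^ 2 := by
        rw [mul_pow] at h4
        linarith [sq_nonneg ‖y‖, sq_nonneg t]
      calc 4 * (m : ℝ) ^ 2 * t ^ 2 ≤ 4 * (m : ℝ) ^ 2 * (8 * ‖y‖ ^ 2) := by gcongr
        _ = _ := by ring
    rw [indicator_of_mem hyr, indicator_of_mem hyr]
    change _ ≤ 2 * en (Fx y / F y - m / y) (Fy y / F y - I * (m / y)) + _
    linarith
  have hi3 := (hi1.const_mul 2).add hi2
  have hi0 : IntegrableOn (fun y => en (Fx y / F y) (Fy y / F y)) (ball x (t / 8)) := by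
    have := (ROscM.enl_int hPF.qr.wp (fun y hy => Base.PF_ne hPF hy) hsubc
      (isCompact_closedBall _ _)).mono_set (ball_subset_closedBall (x := x) (ε := t / 8))
    refine this.congr (ae_of_all _ fun y => ?_)
    simp only [en, norm_div, div_pow]
    ring
  have key : ∫ y in ball x (t / 8), en (Fx y / F y) (Fy y / F y) ≤
      ∫ y in ball x (t / 8), (2 * en ((pun r).indicator (lx m F Fx) y)
        ((pun r).indicator (ly m F Fy) y) + 32 * (m : ℝ) ^ 2 / t ^ 2) :=
    setIntegral_mono_on hi0 hi3 measurableSet_ball hpt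
  rw [integral_add (hi1.const_mul 2) hi2, integral_const_mul, setIntegral_const,
    hvolb, smul_eq_mul] at key
  have e : Real.pi * (t / 8) ^ 2 * (32 * (m : ℝ) ^ 2 / t ^ 2) =
      Real.pi * (m : ℝ) ^ 2 / 2 := by field_simp; ring
  rw [e] at key
  have : 0 ≤ Real.pi * (m : ℝ) ^ 2 := by positivity
  linarith

/-- two points near a circle of small oscillation -/
lemma two_points {G : Set ℂ} {H Hx Hy : ℂ → ℂ} (hWP : WP G 2 2 H Hx Hy) {x x' : ℂ}
    {d o ε₁ : ℝ} (hzz : x ≠ x') (hd : 0 < d) (ho : 0 ≤ o)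
    (hball : closedBall ((x + x') / 2) (‖x - x'‖ / 2 + d) ⊆ G)
    (hen : 2 * Real.pi * ∫ w in ball ((x + x') / 2) (‖x - x'‖ / 2 + d), en (Hx w) (Hy w) <
      o ^ 2 * Real.log ((‖x - x'‖ / 2 + d) / (‖x - x'‖ / 2)))
    (h1 : ∀ w : ℂ, ‖w - x‖ ≤ d → ‖H w - H x‖ ≤ ε₁)
    (h2 : ∀ w : ℂ, ‖w - x'‖ ≤ d → ‖H w - H x'‖ ≤ ε₁) : ‖H x - H x'‖ ≤ 2 * (2 * ε₁ + o) := by
  have hint := (ROscM.en_int hWP hball (isCompact_closedBall _ _)).mono_set
    (ball_subset_closedBall (x := (x + x') / 2) (ε := ‖x - x'‖ / 2 + d))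
  have hpi := Real.pi_pos
  have hengen : ∀ (Kx Ky : ℂ → ℂ), (∀ w, ‖gr (Kx w) (Ky w)‖ ^ 2 ≤ en (Hx w) (Hy w)) →
      2 * Real.pi * ∫ w in ball ((x + x') / 2) (‖x - x'‖ / 2 + d), ‖gr (Kx w) (Ky w)‖ ^ 2 <
      o ^ 2 * Real.log ((‖x - x'‖ / 2 + d) / (‖x - x'‖ / 2)) := by
    intro Kx Ky hH
    refine lt_of_le_of_lt ?_ hen
    apply mul_le_mul_of_nonneg_left _ (by positivity)
    apply integral_mono_of_nonneg
    · exact Eventually.of_forall fun w => by simp only [Pi.zero_apply]; positivity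
    · exact hint
    · exact Eventually.of_forall fun w => hH w
  have hre : |(H x).re - (H x').re| ≤ 2 * ε₁ + o := by
    obtain ⟨w, w', hw, hw', hww⟩ := good_circle hWP hzz hd ho hball
      (hengen Hx Hy fun w => H5.gr_le_en _ _)
    have a1 := (Complex.abs_re_le_norm _).trans (h1 w hw)
    have a2 := (Complex.abs_re_le_norm _).trans (h2 w' hw')
    rw [Complex.sub_re] at a1 a2
    have b1 := abs_le.1 a1
    have b2 := abs_le.1 a2
    have b3 := abs_lt.1 hww
    rw [abs_le]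
    constructor <;> linarith only [b1.1, b1.2, b2.1, b2.2, b3.1, b3.2]
  have him : |(H x).im - (H x').im| ≤ 2 * ε₁ + o := by
    have hWP' := H5.wp_mul hWP (-I)
    obtain ⟨w, w', hw, hw', hww⟩ := good_circle hWP' hzz hd ho hball (hengen _ _ fun w => by
        refine (H5.gr_le_en _ _).trans (le_of_eq ?_)
        rw [H5.en_mul, norm_neg, Complex.norm_I]
        ring)
    have e1 : ∀ y : ℂ, (-I * y).re = y.im := fun y => by simp
    simp only [e1] at hww
    have a1 := (Complex.abs_im_le_norm _).trans (h1 w hw)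
    have a2 := (Complex.abs_im_le_norm _).trans (h2 w' hw')
    rw [Complex.sub_im] at a1 a2
    have b1 := abs_le.1 a1
    have b2 := abs_le.1 a2
    have b3 := abs_lt.1 hww
    rw [abs_le]
    constructor <;> linarith only [b1.1, b1.2, b2.1, b2.2, b3.1, b3.2]
  have hfin := Complex.norm_le_abs_re_add_abs_im (H x - H x')
  rw [Complex.sub_re, Complex.sub_im] at hfin
  linarith only [hfin, hre, him]

end TwcBM

open TwcBM CircM ROscM in
/-- TWCB -/
theorem specTwcB (hLWD : SpecLWD) (hO : SpecOscQ) (hQI : SpecQInv) : SpecTwcB := by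
  rintro r Q C α m F Fx Fy ℓ hT ⟨r₁, hr0, hr1, hE⟩ ε hε
  have hPF := hT.pf
  have hQ := hT.Q0
  have hWP := hLWD r Q m F Fx Fy ℓ hQ hPF
  set Lx : ℂ → ℂ := (pun r).indicator (lx m F Fx) with hLx
  set Ly : ℂ → ℂ := (pun r).indicator (ly m F Fy) with hLy
  set e : ℂ → ℝ := fun z => en (lx m F Fx z) (ly m F Fy z) with he
  have he0 : ∀ z, 0 ≤ e z := fun z => by
    simp only [he, en]
    positivity
  set E : ℝ := (∫⁻ z in pun r₁, ENNReal.ofReal (e z)).toReal with hEdef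
  have hE0 : 0 ≤ E := ENNReal.toReal_nonneg
  -- the energy of `ℓ` on a set
  have hsubint : ∀ (A B : Set ℂ), MeasurableSet A → A ⊆ B → B ⊆ pun r₁ →
      ∫ z in A, en (Lx z) (Ly z) ≤ (∫⁻ z in B, ENNReal.ofReal (e z)).toReal := by
    intro A B hA hAB hB
    have h1 : ∫ z in A, en (Lx z) (Ly z) = ∫ z in A, e z := by
      refine setIntegral_congr_fun hA fun z hz => ?_
      have hz' : z ∈ pun r := Base.pun_mono hr1.le (hB (hAB hz))
      simp only [hLx, hLy, indicator_of_mem hz', he]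
    have h2 : Measurable (fun z => en (Lx z) (Ly z)) := by
      have hx := hWP.wd.mx
      have hy := hWP.wd.my
      exact (hx.norm.pow_const 2).add (hy.norm.pow_const 2)
    have h3 : ∫ z in A, en (Lx z) (Ly z) = (∫⁻ z in A, ENNReal.ofReal (en (Lx z) (Ly z))).toReal := by
      rw [integral_eq_lintegral_of_nonneg_ae]
      · exact Eventually.of_forall fun z => by simp only [Pi.zero_apply, en]; positivity
      · exact h2.aestronglyMeasurable
    rw [h3]
    apply ENNReal.toReal_mono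
    · exact ne_top_of_le_ne_top hE.ne (lintegral_mono_set hB)
    · calc ∫⁻ z in A, ENNReal.ofReal (en (Lx z) (Ly z)) = ∫⁻ z in A, ENNReal.ofReal (e z) := by
            refine setLIntegral_congr_fun hA fun z hz => ?_
            have hz' : z ∈ pun r := Base.pun_mono hr1.le (hB (hAB hz))
            simp only [hLx, hLy, indicator_of_mem hz', he]
        _ ≤ _ := lintegral_mono_set hAB
  set M : ℝ := 2 * E + Real.pi * m ^ 2 + 1 with hMdef
  have hM0 : 0 < M := by
    have : 0 ≤ Real.pi * (m : ℝ) ^ 2 := by positivity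
    linarith
  set ε₁ : ℝ := ε / 1024 with hε₁
  set o : ℝ := ε / 512 with ho
  have hε₁0 : 0 < ε₁ := by positivity
  have ho0 : 0 < o := by positivity
  set η : ℝ := ε₁ / 2 with hη
  have hη0 : 0 < η := by positivity
  set A : ℝ := 2 * Real.pi * M / η ^ 2 with hA
  set δ : ℝ := min (1 / 16) (min (Real.exp (-A) / 8) (ε₁ / (6 * (m + 1)))) with hδ
  have hδ0 : 0 < δ := by
    apply lt_min (by norm_num)
    apply lt_min (by positivity)
    positivity
  have hδ1 : δ ≤ 1 / 16 := min_le_left _ _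
  have hδ2 : δ ≤ Real.exp (-A) / 8 := (min_le_right _ _).trans (min_le_left _ _)
  have hδ3 : δ ≤ ε₁ / (6 * (m + 1)) := (min_le_right _ _).trans (min_le_right _ _)
  have hδM : 2 * Real.pi * M ≤ η ^ 2 * Real.log (1 / (8 * δ)) := by
    have h1 : A ≤ Real.log (1 / (8 * δ)) := by
      rw [Real.le_log_iff_exp_le (by positivity), le_div_iff₀ (by positivity)]
      calc Real.exp A * (8 * δ) ≤ Real.exp A * (8 * (Real.exp (-A) / 8)) := by gcongr
        _ = 1 := by rw [mul_div_cancel₀ _ (by norm_num : (8 : ℝ) ≠ 0), ← Real.exp_add]; simp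
    have h2 : 2 * Real.pi * M = η ^ 2 * A := by rw [hA]; field_simp
    rw [h2]
    exact mul_le_mul_of_nonneg_left h1 (by positivity)
  have h3mδ : 3 * (m : ℝ) * δ ≤ ε₁ / 2 := by
    calc 3 * (m : ℝ) * δ ≤ 3 * (m + 1) * (ε₁ / (6 * (m + 1))) := by
          gcongr
          linarith
      _ = ε₁ / 2 := by field_simp; norm_num
  -- the threshold for the energy
  have hlogδ : 0 < Real.log (1 + 32 * δ) := Real.log_pos (by linarith)
  set τ : ℝ := o ^ 2 * Real.log (1 + 32 * δ) / (2 * Real.pi) with hτ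
  have hτ0 : 0 < τ := by positivity
  obtain ⟨κ, hκ0, hκ⟩ := exists_pos_setLIntegral_lt_of_measure_lt
    (μ := volume.restrict (pun r₁)) (f := fun z => ENNReal.ofReal (e z)) hE.ne
    (ε := ENNReal.ofReal τ) (by simpa using hτ0)
  have hvol : Tendsto (fun ρ : ℝ => volume (ball (0 : ℂ) ρ)) (𝓝 0) (𝓝 0) := by
    have : Tendsto (fun ρ : ℝ => ENNReal.ofReal ρ ^ 2 * (NNReal.pi : ℝ≥0∞)) (𝓝 0)
        (𝓝 (ENNReal.ofReal 0 ^ 2 * (NNReal.pi : ℝ≥0∞))) := by
      apply ENNReal.Tendsto.mul_const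
      · exact (ENNReal.continuous_pow 2).continuousAt.tendsto.comp
          (ENNReal.continuous_ofReal.tendsto 0)
      · right
        exact ENNReal.coe_ne_top
    simpa [Complex.volume_ball] using this
  have hev : ∀ᶠ ρ in 𝓝 (0 : ℝ), volume (ball (0 : ℂ) ρ) < κ := hvol.eventually_lt_const hκ0
  obtain ⟨ρ₀, hρ₀, hρ₀'⟩ := Metric.eventually_nhds_iff.1 hev
  set r₂ : ℝ := min (r₁ / 4) (ρ₀ / 4) with hr₂
  have hr₂0 : 0 < r₂ := lt_min (by positivity) (by positivity)
  have hr₂1 : r₂ ≤ r₁ / 4 := min_le_left _ _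
  have hr₂2 : r₂ ≤ ρ₀ / 4 := min_le_right _ _
  have hsmall : ∫⁻ z in pun (2 * r₂), ENNReal.ofReal (e z) < ENNReal.ofReal τ := by
    have h1 : volume.restrict (pun r₁) (pun (2 * r₂)) < κ := by
      refine lt_of_le_of_lt (Measure.restrict_apply_le _ _) ?_
      refine lt_of_le_of_lt (measure_mono (Base.pun_sub_ball _)) (hρ₀' ?_)
      rw [dist_zero_right, Real.norm_eq_abs, abs_of_pos (by positivity)]
      linarith
    have h2 := hκ _ h1
    rwa [Measure.restrict_restrict_of_subset (Base.pun_mono (by linarith))] at h2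
  refine ⟨r₂, hr₂0, fun t ht0 ht z z' hz1 hz2 hz1' hz2' => ?_⟩
  have h2t : 2 * t < r₁ := by linarith
  obtain ⟨c, c0, c1, hc⟩ := chain (t := t) (ρ₁ := t / 2) (ρ₂ := t) (by linarith) (by linarith)
    (by linarith) hz1 hz2 hz1' hz2'
  -- local oscillation
  have hloc : ∀ x : ℂ, t / 2 ≤ ‖x‖ → ‖x‖ ≤ t → ∀ w : ℂ, ‖w - x‖ ≤ δ * t → ‖ℓ w - ℓ x‖ ≤ ε₁ := by
    intro x hx1 hx2 w hw
    have hin : ∀ y ∈ ball x (t / 8), 3 / 8 * t ≤ ‖y‖ ∧ ‖y‖ < 2 * t := by
      intro y hy
      rw [mem_ball, dist_eq_norm] at hy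
      have e1 : ‖x‖ - ‖y‖ ≤ ‖x - y‖ := norm_sub_norm_le _ _
      have e2 : ‖y‖ - ‖x‖ ≤ ‖y - x‖ := norm_sub_norm_le _ _
      rw [norm_sub_rev] at e1
      constructor <;> linarith
    have hsub1 : ball x (t / 8) ⊆ pun r₁ := by
      intro y hy
      have := hin y hy
      rw [Base.mem_pun]
      refine ⟨by linarith [this.2], fun h0 => ?_⟩
      rw [h0, norm_zero] at this
      linarith [this.1]
    have hMx : ∫ y in ball x (t / 8), en (Fx y / F y) (Fy y / F y) ≤ M :=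
      en_ball_le hPF hWP ht0 (by linarith) hx1 hx2
        (hsubint (ball x (t / 8)) (pun r₁) measurableSet_ball hsub1 subset_rfl)
    have := locosc hO hQI hQ hPF ht0 (by linarith) hδ0 hδ1 hx1 hx2 hMx hη0 hδM hw
    linarith
  -- one step of the chain
  have step : ∀ k, k < 128 → ‖ℓ (c k) - ℓ (c (k + 1))‖ ≤ ε / 128 := by
    intro k hk
    obtain ⟨⟨hk1, hk2⟩, hk3⟩ := hc k hk
    have hk1' : t / 2 ≤ ‖c (k + 1)‖ ∧ ‖c (k + 1)‖ ≤ t := by
      rcases Nat.lt_or_ge (k + 1) 128 with h | h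
      · exact (hc (k + 1) h).1
      · have : k + 1 = 128 := by omega
        rw [this, c1]
        exact ⟨hz1', hz2'⟩
    by_cases hzz : c k = c (k + 1)
    · rw [hzz, sub_self, norm_zero]
      positivity
    set x := c k with hx
    set x' := c (k + 1) with hx'
    have hxx : ‖x - x'‖ ≤ t / 16 := by
      rw [norm_sub_rev]
      exact hk3
    have hpos : 0 < ‖x - x'‖ := norm_pos_iff.2 (sub_ne_zero.2 hzz)
    have hcen : ‖(x + x') / 2 - x‖ ≤ t / 32 := by
      have e1 : (x + x') / 2 - x = -((x - x') / 2) := by ring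
      rw [e1, norm_neg, norm_div]
      norm_num
      linarith
    have hδt : δ * t ≤ t / 16 := by nlinarith
    have hin : ∀ y ∈ closedBall ((x + x') / 2) (‖x - x'‖ / 2 + δ * t), t / 4 ≤ ‖y‖ ∧
        ‖y‖ < 2 * t := by
      intro y hy
      rw [mem_closedBall, dist_eq_norm] at hy
      have h1 : ‖y - x‖ ≤ t / 4 := by
        calc ‖y - x‖ = ‖(y - (x + x') / 2) + ((x + x') / 2 - x)‖ := by
              rw [sub_add_sub_cancel]
          _ ≤ _ := norm_add_le _ _
          _ ≤ t / 4 := by linarith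
      have e1 : ‖x‖ - ‖y‖ ≤ ‖x - y‖ := norm_sub_norm_le _ _
      have e2 : ‖y‖ - ‖x‖ ≤ ‖y - x‖ := norm_sub_norm_le _ _
      rw [norm_sub_rev] at e1
      constructor <;> linarith
    have hsub2 : closedBall ((x + x') / 2) (‖x - x'‖ / 2 + δ * t) ⊆ pun (2 * t) := by
      intro y hy
      have := hin y hy
      rw [Base.mem_pun]
      refine ⟨this.2, fun h0 => ?_⟩
      rw [h0, norm_zero] at this
      linarith [this.1]
    have hlogge : Real.log (1 + 32 * δ) ≤
        Real.log ((‖x - x'‖ / 2 + δ * t) / (‖x - x'‖ / 2)) := by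
      apply Real.log_le_log (by positivity)
      rw [le_div_iff₀ (by positivity)]
      nlinarith
    have hbound : 2 * Real.pi * (∫⁻ z in pun (2 * r₂), ENNReal.ofReal (e z)).toReal <
        o ^ 2 * Real.log ((‖x - x'‖ / 2 + δ * t) / (‖x - x'‖ / 2)) := by
      have h1 : (∫⁻ z in pun (2 * r₂), ENNReal.ofReal (e z)).toReal < τ := by
        have := (ENNReal.toReal_lt_toReal hsmall.ne_top ENNReal.ofReal_ne_top).2 hsmall
        rwa [ENNReal.toReal_ofReal hτ0.le] at this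
      calc 2 * Real.pi * (∫⁻ z in pun (2 * r₂), ENNReal.ofReal (e z)).toReal
          < 2 * Real.pi * τ := mul_lt_mul_of_pos_left h1 (by positivity)
        _ = o ^ 2 * Real.log (1 + 32 * δ) := by rw [hτ]; field_simp
        _ ≤ _ := mul_le_mul_of_nonneg_left hlogge (sq_nonneg o)
    have hb : ball ((x + x') / 2) (‖x - x'‖ / 2 + δ * t) ⊆ pun (2 * r₂) :=
      (ball_subset_closedBall.trans hsub2).trans (Base.pun_mono (by linarith only [ht]))
    have hen : 2 * Real.pi * ∫ w in ball ((x + x') / 2) (‖x - x'‖ / 2 + δ * t),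
        en (Lx w) (Ly w) < o ^ 2 * Real.log ((‖x - x'‖ / 2 + δ * t) / (‖x - x'‖ / 2)) := by
      refine lt_of_le_of_lt ?_ hbound
      exact mul_le_mul_of_nonneg_left (hsubint _ _ measurableSet_ball hb
        (Base.pun_mono (by linarith only [hr₂1, hr0]))) (by positivity)
    have hres := two_points hWP hzz (mul_pos hδ0 ht0) ho0.le
      (hsub2.trans (Base.pun_mono (by linarith only [h2t, hr1]))) hen
      (fun w hw => hloc x hk1 hk2 w hw) (fun w hw => hloc x' hk1'.1 hk1'.2 w hw)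
    have : 2 * (2 * ε₁ + o) = ε / 128 := by rw [hε₁, ho]; ring
    rw [this] at hres
    exact hres
  have ind : ∀ n, n ≤ 128 → ‖ℓ (c 0) - ℓ (c n)‖ ≤ n * (ε / 128) := by
    intro n
    induction n with
    | zero => intro _; simp
    | succ n ih =>
      intro hn
      have a1 := ih (by omega)
      have a2 := step n (by omega)
      have a3 : ℓ (c 0) - ℓ (c (n + 1)) = (ℓ (c 0) - ℓ (c n)) + (ℓ (c n) - ℓ (c (n + 1))) := by
        ring
      rw [a3]
      refine (norm_add_le _ _).trans ?_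
      push_cast
      linarith
  have hfin := ind 128 le_rfl
  rw [c0, c1] at hfin
  push_cast at hfin
  linarith

end MPfa.Reg
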