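import Pool.Agent.Lib.MP_fa0334_an.RegZNorm
import Pool.Agent.Lib.MP_fa0334_an.Mu

/-!
Problem MP_fa0334_an, part REG, module TWCC: the dyadic means of `ℓ` converge.
-/

set_option autoImplicit false

open MeasureTheory Set Filter Topology Metric Complex
open scoped ContDiff ENNReal ComplexConjugate

namespace MPfa.Reg

namespace TwcM

open Base

/-- a smooth step -/
noncomputable def E (s : ℝ) : ℝ := Real.smoothTransition (3 * s - 1)

lemma E_smooth : ContDiff ℝ ∞ E := by
  unfold E
  exact Real.smoothTransition.contDiff.comp (by fun_prop)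

lemma E_zero {s : ℝ} (h : s ≤ 1 / 3) : E s = 0 := Real.smoothTransition.zero_of_nonpos (by linarith)

lemma E_one {s : ℝ} (h : 2 / 3 ≤ s) : E s = 1 := Real.smoothTransition.one_of_one_le (by linarith)

lemma E_mono : Monotone E := fun a b h => Real.smoothTransition.monotone (by linarith)

lemma E_mem (s : ℝ) : 0 ≤ E s ∧ E s ≤ 1 := ⟨Real.smoothTransition.nonneg _, Real.smoothTransition.le_one _⟩

/-- the profile of the weights -/
noncomputable def et (s : ℝ) : ℝ := deriv E s

lemma E_deriv (s : ℝ) : HasDerivAt E (et s) s :=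
  (E_smooth.differentiable (by simp) s).hasDerivAt

lemma et_nonneg (s : ℝ) : 0 ≤ et s := E_mono.deriv_nonneg

lemma et_cont : Continuous et := E_smooth.continuous_deriv (by simp)

lemma et_supp {s : ℝ} (h : et s ≠ 0) : 1 / 4 < s ∧ s < 1 := by
  constructor
  · by_contra hs
    push Not at hs
    apply h
    have : E =ᶠ[𝓝 s] fun _ => 0 := by
      filter_upwards [Iio_mem_nhds (show s < 1 / 3 by linarith)] with x hx
      exact E_zero (le_of_lt hx)
    have h2 := this.deriv_eq
    simpa [et] using h2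
  · by_contra hs
    push Not at hs
    apply h
    have : E =ᶠ[𝓝 s] fun _ => 1 := by
      filter_upwards [Ioi_mem_nhds (show 2 / 3 < s by linarith)] with x hx
      exact E_one (le_of_lt hx)
    have h2 := this.deriv_eq
    simpa [et] using h2

/-- the primitive of the difference of two consecutive weights -/
noncomputable def Gf (lam s : ℝ) : ℝ := E (lam * s) - E (4 * lam * s)

noncomputable def Qf (lam s : ℝ) : ℝ := Gf lam s / s

lemma Gf_zero {lam s : ℝ} (hl : 0 < lam) (h : s ≤ 1 / (12 * lam)) : Gf lam s = 0 := by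
  have h1 : 4 * lam * s ≤ 1 / 3 := by
    rw [le_div_iff₀ (by positivity)] at h
    linarith
  have h2 : lam * s ≤ 1 / 3 := by
    rcases le_or_gt s 0 with hs | hs
    · nlinarith
    · nlinarith [mul_pos hl hs]
  rw [Gf, E_zero h1, E_zero h2, sub_zero]

lemma Gf_zero' {lam s : ℝ} (hl : 0 < lam) (h : 2 / (3 * lam) ≤ s) : Gf lam s = 0 := by
  have h1 : 2 / 3 ≤ lam * s := by
    rw [div_le_iff₀ (by positivity)] at h
    linarith
  rw [Gf, E_one h1, E_one (by linarith), sub_self]

lemma Gf_abs (lam s : ℝ) : |Gf lam s| ≤ 1 := by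
  have h1 := E_mem (lam * s)
  have h2 := E_mem (4 * lam * s)
  rw [Gf, abs_le]
  constructor <;> linarith

lemma Gf_smooth (lam : ℝ) : ContDiff ℝ ∞ (Gf lam) :=
  (E_smooth.comp (by fun_prop)).sub (E_smooth.comp (by fun_prop))

lemma Gf_deriv (lam s : ℝ) : HasDerivAt (Gf lam) (lam * et (lam * s) - 4 * lam * et (4 * lam * s)) s := by
  have h1 : HasDerivAt (fun s => lam * s) lam s := by simpa using (hasDerivAt_id s).const_mul lam
  have h2 : HasDerivAt (fun s => 4 * lam * s) (4 * lam) s := by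
    simpa using (hasDerivAt_id s).const_mul (4 * lam)
  refine (((E_deriv _).comp s h1).sub ((E_deriv _).comp s h2)).congr_deriv ?_
  ring

lemma Qf_smooth {lam : ℝ} (hl : 0 < lam) : ContDiff ℝ ∞ (Qf lam) := by
  rw [contDiff_iff_contDiffAt]
  intro s
  by_cases hs : s = 0
  · have : Qf lam =ᶠ[𝓝 s] fun _ => 0 := by
      rw [hs]
      filter_upwards [Iio_mem_nhds (show (0 : ℝ) < 1 / (12 * lam) by positivity)] with x hx
      rw [Qf, Gf_zero hl (le_of_lt hx), zero_div]
    exact contDiffAt_const.congr_of_eventuallyEq this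
  · exact (Gf_smooth lam).contDiffAt.div contDiffAt_id hs

lemma Qf_mul {lam : ℝ} (hl : 0 < lam) (s : ℝ) : s * Qf lam s = Gf lam s := by
  by_cases hs : s = 0
  · rw [hs, zero_mul, Gf_zero hl (by positivity)]
  · rw [Qf]
    field_simp

lemma Qf_rel {lam : ℝ} (hl : 0 < lam) (s : ℝ) :
    s * deriv (Qf lam) s + Qf lam s = lam * et (lam * s) - 4 * lam * et (4 * lam * s) := by
  have h1 : HasDerivAt (Qf lam) (deriv (Qf lam) s) s :=
    ((Qf_smooth hl).differentiable (by simp) s).hasDerivAt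
  have h2 := (hasDerivAt_id s).mul h1
  have h3 : (id * Qf lam) = Gf lam := by
    funext x
    exact Qf_mul hl x
  rw [h3] at h2
  have h4 := h2.unique (Gf_deriv lam s)
  simp only [id] at h4
  linarith

/-- `|z|²` in coordinates -/
def nn (z : ℂ) : ℝ := z.re ^ 2 + z.im ^ 2

lemma nn_eq (z : ℂ) : nn z = ‖z‖ ^ 2 := by
  rw [← Complex.normSq_eq_norm_sq, Complex.normSq_apply, nn]
  ring

lemma re_smooth : ContDiff ℝ ∞ (fun z : ℂ => z.re) := Complex.reCLM.contDiff
lemma im_smooth : ContDiff ℝ ∞ (fun z : ℂ => z.im) := Complex.imCLM.contDiff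

lemma nn_smooth : ContDiff ℝ ∞ nn := (re_smooth.pow 2).add (im_smooth.pow 2)

noncomputable def p1 (lam : ℝ) (z : ℂ) : ℝ := Qf lam (nn z) * z.re
noncomputable def p2 (lam : ℝ) (z : ℂ) : ℝ := -(Qf lam (nn z) * z.im)

lemma p1_smooth {lam : ℝ} (hl : 0 < lam) : ContDiff ℝ ∞ (p1 lam) :=
  ((Qf_smooth hl).comp nn_smooth).mul re_smooth

lemma p2_smooth {lam : ℝ} (hl : 0 < lam) : ContDiff ℝ ∞ (p2 lam) :=
  (((Qf_smooth hl).comp nn_smooth).mul im_smooth).neg

/-- the ring containing the supports -/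
def ring' (lam : ℝ) : Set ℂ := {z | 1 / (12 * lam) ≤ nn z ∧ nn z ≤ 2 / (3 * lam)}

lemma ring_closed (lam : ℝ) : IsClosed (ring' lam) :=
  (isClosed_le continuous_const nn_smooth.continuous).inter (isClosed_le nn_smooth.continuous continuous_const)

lemma Qf_supp {lam : ℝ} (hl : 0 < lam) {z : ℂ} (h : Qf lam (nn z) ≠ 0) : z ∈ ring' lam := by
  constructor
  · by_contra hs
    push Not at hs
    apply h
    rw [Qf, Gf_zero hl hs.le, zero_div]
  · by_contra hs
    push Not at hs
    apply h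
    rw [Qf, Gf_zero' hl hs.le, zero_div]

lemma ring_pun {lam r : ℝ} (hl : 0 < lam) (hr : 0 < r) (h : 1 / lam ≤ r ^ 2) : ring' lam ⊆ pun r := by
  intro z hz
  rw [mem_pun]
  have h1 : nn z < r ^ 2 := by
    refine lt_of_le_of_lt hz.2 (lt_of_lt_of_le ?_ h)
    rw [div_lt_div_iff₀ (by positivity) hl]
    linarith
  constructor
  · rw [nn_eq] at h1
    exact lt_of_pow_lt_pow_left₀ 2 hr.le h1
  · intro h0
    have h2 := hz.1
    rw [h0] at h2
    have h3 : nn 0 = 0 := by simp [nn]
    rw [h3] at h2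
    have : 0 < 1 / (12 * lam) := by positivity
    linarith

lemma ring_compact {lam : ℝ} : IsCompact (ring' lam) := by
  refine Metric.isCompact_of_isClosed_isBounded (ring_closed lam) ?_
  refine (Metric.isBounded_closedBall (x := (0 : ℂ)) (r := 2 / (3 * lam) + 1)).subset ?_
  intro z hz
  rw [mem_closedBall_zero_iff]
  have h1 := hz.2
  rw [nn_eq] at h1
  nlinarith [sq_nonneg (‖z‖ - 1), norm_nonneg z]

lemma test_aux {lam r : ℝ} (hl : 0 < lam) (hr : 0 < r) (h : 1 / lam ≤ r ^ 2) {φ : ℂ → ℝ}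
    (hs : ContDiff ℝ ∞ φ) (h0 : ∀ z, φ z ≠ 0 → z ∈ ring' lam) : Test (pun r) φ := by
  have h1 : tsupport φ ⊆ ring' lam := closure_minimal (fun z hz => h0 z hz) (ring_closed lam)
  exact ⟨hs, HasCompactSupport.of_support_subset_isCompact ring_compact (fun z hz => h0 z hz),
    h1.trans (ring_pun hl hr h)⟩

lemma p1_test {lam r : ℝ} (hl : 0 < lam) (hr : 0 < r) (h : 1 / lam ≤ r ^ 2) : Test (pun r) (p1 lam) :=
  test_aux hl hr h (p1_smooth hl) (fun z hz => Qf_supp hl (by
    intro h0
    apply hz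
    rw [p1, h0, zero_mul]))

lemma p2_test {lam r : ℝ} (hl : 0 < lam) (hr : 0 < r) (h : 1 / lam ≤ r ^ 2) : Test (pun r) (p2 lam) :=
  test_aux hl hr h (p2_smooth hl) (fun z hz => Qf_supp hl (by
    intro h0
    apply hz
    rw [p2, h0, zero_mul, neg_zero]))

lemma fd_line {φ : ℂ → ℝ} {z v : ℂ} {d : ℝ} (hφ : ContDiff ℝ ∞ φ)
    (h : HasDerivAt (fun t : ℝ => φ (z + t * v)) d 0) : fderiv ℝ φ z v = d := by
  have h0 : z + ((0 : ℝ) : ℂ) * v = z := by simp
  have h1 : HasFDerivAt φ (fderiv ℝ φ z) (z + ((0 : ℝ) : ℂ) * v) := by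
    rw [h0]
    exact (hφ.differentiable (by simp) z).hasFDerivAt
  have h2 : HasDerivAt (fun t : ℝ => z + t * v) v 0 := by
    have : HasDerivAt (fun t : ℝ => (t : ℂ)) 1 0 := Complex.ofRealCLM.hasDerivAt
    simpa using (this.mul_const v).const_add z
  exact (h1.comp_hasDerivAt (0 : ℝ) h2).unique h

lemma line_aux {lam : ℝ} (hl : 0 < lam) (z : ℂ) :
    (HasDerivAt (fun t : ℝ => Qf lam (nn (z + t * 1))) (deriv (Qf lam) (nn z) * (2 * z.re)) 0) ∧
    (HasDerivAt (fun t : ℝ => Qf lam (nn (z + t * I))) (deriv (Qf lam) (nn z) * (2 * z.im)) 0) := by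
  have h1 : ∀ s, HasDerivAt (Qf lam) (deriv (Qf lam) s) s := fun s =>
    ((Qf_smooth hl).differentiable (by simp) s).hasDerivAt
  constructor
  · have h2 : HasDerivAt (fun t : ℝ => nn (z + t * 1)) (2 * z.re) 0 := by
      have e : (fun t : ℝ => nn (z + t * 1)) = fun t : ℝ => (z.re + t) ^ 2 + z.im ^ 2 := by
        funext t
        simp [nn]
      rw [e]
      have := (((hasDerivAt_id (0 : ℝ)).const_add z.re).pow 2).add_const (z.im ^ 2)
      refine this.congr_deriv ?_
      simp
    have h3 := HasDerivAt.comp (x := (0 : ℝ)) (h₂ := Qf lam) (h := fun t : ℝ => nn (z + t * 1))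
      (h₂' := deriv (Qf lam) (nn z)) (by
        simp only [Complex.ofReal_zero, zero_mul, add_zero]
        exact h1 (nn z)) h2
    simpa [Function.comp_def] using h3
  · have h2 : HasDerivAt (fun t : ℝ => nn (z + t * I)) (2 * z.im) 0 := by
      have e : (fun t : ℝ => nn (z + t * I)) = fun t : ℝ => z.re ^ 2 + (z.im + t) ^ 2 := by
        funext t
        simp [nn]
      rw [e]
      have := (((hasDerivAt_id (0 : ℝ)).const_add z.im).pow 2).const_add (z.re ^ 2)
      refine this.congr_deriv ?_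
      simp
    have h3 := HasDerivAt.comp (x := (0 : ℝ)) (h₂ := Qf lam) (h := fun t : ℝ => nn (z + t * I))
      (h₂' := deriv (Qf lam) (nn z)) (by
        simp only [Complex.ofReal_zero, zero_mul, add_zero]
        exact h1 (nn z)) h2
    simpa [Function.comp_def] using h3

lemma p1_x {lam : ℝ} (hl : 0 < lam) (z : ℂ) :
    fderiv ℝ (p1 lam) z 1 = deriv (Qf lam) (nn z) * (2 * z.re) * z.re + Qf lam (nn z) := by
  refine fd_line (p1_smooth hl) ?_
  have h1 := (line_aux hl z).1
  have h2 : HasDerivAt (fun t : ℝ => (z + t * 1).re) 1 0 := by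
    have e : (fun t : ℝ => (z + t * 1).re) = fun t : ℝ => z.re + t := by funext t; simp
    rw [e]
    exact (hasDerivAt_id (0 : ℝ)).const_add z.re
  refine (h1.mul h2).congr_deriv ?_
  simp

lemma p1_y {lam : ℝ} (hl : 0 < lam) (z : ℂ) :
    fderiv ℝ (p1 lam) z I = deriv (Qf lam) (nn z) * (2 * z.im) * z.re := by
  refine fd_line (p1_smooth hl) ?_
  have h1 := (line_aux hl z).2
  have h2 : HasDerivAt (fun t : ℝ => (z + t * I).re) 0 0 := by
    have e : (fun t : ℝ => (z + t * I).re) = fun t : ℝ => z.re := by funext t; simp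
    rw [e]
    exact hasDerivAt_const _ _
  refine (h1.mul h2).congr_deriv ?_
  simp

lemma p2_x {lam : ℝ} (hl : 0 < lam) (z : ℂ) :
    fderiv ℝ (p2 lam) z 1 = -(deriv (Qf lam) (nn z) * (2 * z.re) * z.im) := by
  refine fd_line (p2_smooth hl) ?_
  have h1 := (line_aux hl z).1
  have h2 : HasDerivAt (fun t : ℝ => (z + t * 1).im) 0 0 := by
    have e : (fun t : ℝ => (z + t * 1).im) = fun t : ℝ => z.im := by funext t; simp
    rw [e]
    exact hasDerivAt_const _ _
  refine (h1.mul h2).neg.congr_deriv ?_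
  simp

lemma p2_y {lam : ℝ} (hl : 0 < lam) (z : ℂ) :
    fderiv ℝ (p2 lam) z I = -(deriv (Qf lam) (nn z) * (2 * z.im) * z.im + Qf lam (nn z)) := by
  refine fd_line (p2_smooth hl) ?_
  have h1 := (line_aux hl z).2
  have h2 : HasDerivAt (fun t : ℝ => (z + t * I).im) 1 0 := by
    have e : (fun t : ℝ => (z + t * I).im) = fun t : ℝ => z.im + t := by funext t; simp
    rw [e]
    exact (hasDerivAt_id (0 : ℝ)).const_add z.im
  refine (h1.mul h2).neg.congr_deriv ?_
  simp

lemma int4 {f1 f2 f3 f4 : ℂ → ℂ} (h1 : Integrable f1) (h2 : Integrable f2) (h3 : Integrable f3)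
    (h4 : Integrable f4) : ∫ z, ((f1 z - f4 z) + I * (f3 z + f2 z)) =
      ((∫ z, f1 z) - ∫ z, f4 z) + I * ((∫ z, f3 z) + ∫ z, f2 z) := by
  have k1 : Integrable (fun z => f1 z - f4 z) := h1.sub h4
  have k2 : Integrable (fun z => f3 z + f2 z) := h3.add h2
  rw [integral_add k1 (k2.const_mul I), integral_const_mul, integral_sub h1 h4,
    integral_add h3 h2]

/-- the key identity -/
lemma diff_eq {lam r : ℝ} (hl : 0 < lam) (hr : 0 < r) (h : 1 / lam ≤ r ^ 2) {l lx ly : ℂ → ℂ}
    (hwd : WD (pun r) l lx ly) :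
    ∫ z, (lam * et (lam * nn z) - 4 * lam * et (4 * lam * nn z)) • l z =
      -(1 / 2) * ∫ z, ((p1 lam z : ℂ) + I * p2 lam z) * (lx z + I * ly z) := by
  have t1 := p1_test hl hr h
  have t2 := p2_test hl hr h
  have e : ∀ z, (lam * et (lam * nn z) - 4 * lam * et (4 * lam * nn z)) • l z =
      (1 / 2 : ℂ) * ((fderiv ℝ (p1 lam) z 1 • l z - fderiv ℝ (p2 lam) z I • l z) +
        I * (fderiv ℝ (p2 lam) z 1 • l z + fderiv ℝ (p1 lam) z I • l z)) := by
    intro z
    rw [← Qf_rel hl, p1_x hl, p1_y hl, p2_x hl, p2_y hl]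
    simp only [Complex.real_smul, nn]
    push_cast
    ring
  have i1 := Wk.tintd t1 hwd.lF 1
  have i2 := Wk.tintd t1 hwd.lF I
  have i3 := Wk.tintd t2 hwd.lF 1
  have i4 := Wk.tintd t2 hwd.lF I
  have j1 := Wk.tint t1 hwd.lx
  have j2 := Wk.tint t1 hwd.ly
  have j3 := Wk.tint t2 hwd.lx
  have j4 := Wk.tint t2 hwd.ly
  have a1 := hwd.ix _ t1
  have a2 := hwd.iy _ t1
  have a3 := hwd.ix _ t2
  have a4 := hwd.iy _ t2
  have lhs : ∫ z, (lam * et (lam * nn z) - 4 * lam * et (4 * lam * nn z)) • l z =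
      (1 / 2 : ℂ) * (((∫ z, fderiv ℝ (p1 lam) z 1 • l z) - ∫ z, fderiv ℝ (p2 lam) z I • l z) +
        I * ((∫ z, fderiv ℝ (p2 lam) z 1 • l z) + ∫ z, fderiv ℝ (p1 lam) z I • l z)) := by
    simp_rw [e]
    rw [integral_const_mul, int4 i1 i2 i3 i4]
  have rhs : ∫ z, ((p1 lam z : ℂ) + I * p2 lam z) * (lx z + I * ly z) =
      ((∫ z, p1 lam z • lx z) - ∫ z, p2 lam z • ly z) +
        I * ((∫ z, p2 lam z • lx z) + ∫ z, p1 lam z • ly z) := by
    rw [← int4 j1 j2 j3 j4]
    refine integral_congr_ae (ae_of_all _ fun z => ?_)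
    simp only [Complex.real_smul]
    linear_combination (p2 lam z : ℂ) * ly z * Complex.I_sq
  rw [lhs, rhs, a1, a2, a3, a4]
  ring

/-- the weight at scale `lam` -/
noncomputable def wt (lam : ℝ) (z : ℂ) : ℝ := lam * et (lam * nn z)

lemma wt_cont (lam : ℝ) : Continuous (wt lam) :=
  continuous_const.mul (et_cont.comp (continuous_const.mul nn_smooth.continuous))

lemma wt_int {lam r : ℝ} (hl : 0 < lam) (hr : 0 < r) (h : 1 / lam < r ^ 2) {l : ℂ → ℂ}
    (hl' : LI (pun r) l) : Integrable fun z => wt lam z • l z := by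
  set S : Set ℂ := {z | 1 / 4 ≤ lam * nn z ∧ lam * nn z ≤ 1} with hS
  have hSc : IsClosed S := (isClosed_le continuous_const (continuous_const.mul nn_smooth.continuous)).inter
    (isClosed_le (continuous_const.mul nn_smooth.continuous) continuous_const)
  have hsupp : ∀ z, wt lam z ≠ 0 → z ∈ S := by
    intro z hz
    have : et (lam * nn z) ≠ 0 := by
      intro h0
      apply hz
      rw [wt, h0, mul_zero]
    have h2 := et_supp this
    exact ⟨h2.1.le, h2.2.le⟩
  have hSr : S ⊆ pun r := by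
    intro z hz
    rw [mem_pun]
    constructor
    · have h1 : nn z ≤ 1 / lam := by
        rw [le_div_iff₀ hl]
        linarith [hz.2]
      rw [nn_eq] at h1
      exact lt_of_pow_lt_pow_left₀ 2 hr.le (h1.trans_lt h)
    · intro h0
      have h2 := hz.1
      rw [h0] at h2
      simp [nn] at h2
      linarith
  have hScomp : IsCompact S := by
    refine Metric.isCompact_of_isClosed_isBounded hSc ?_
    refine (Metric.isBounded_ball (x := (0 : ℂ)) (r := r)).subset ?_
    intro z hz
    exact (hSr hz).1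
  refine Wk.int_smul hl' (wt_cont lam) (HasCompactSupport.of_support_subset_isCompact hScomp (fun z hz => hsupp z hz)) ?_
  exact (closure_minimal (fun z hz => hsupp z hz) hSc).trans hSr

/-- the basic estimate -/
lemma step {r Q C α : ℝ} {m : ℕ} {F Fx Fy ℓ : ℂ → ℂ} (hLWD : SpecLWD) (h : TW r Q C α m F Fx Fy ℓ)
    (j : ℕ) (hj : 1 / (4 : ℝ) ^ j < r ^ 2) :
    ‖(∫ z, wt (4 ^ j) z • ℓ z) - ∫ z, wt (4 ^ (j + 1)) z • ℓ z‖ ≤
      ((2 : ℝ) ^ (-α)) ^ j * (2 * C * (Real.pi + C * (1 + Real.log (4 * r) + j * Real.log 2))) := by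
  have hr : 0 < r := h.pf.r0
  have hα := h.a0
  have hC := h.C0
  set lam : ℝ := 4 ^ j with hlam
  have hl : 0 < lam := by positivity
  have hlam' : (4 : ℝ) ^ (j + 1) = 4 * lam := by rw [hlam]; ring
  set κ : ℝ := (2 : ℝ) ^ (-α) with hκ
  have hκ0 : 0 < κ := by positivity
  have hwp := hLWD r Q m F Fx Fy ℓ h.Q0 h.pf
  have hwd := hwp.wd
  have i1 := wt_int hl hr hj hwd.lF
  have i2 : Integrable fun z => wt (4 * lam) z • ℓ z := by
    refine wt_int (by positivity) hr ?_ hwd.lF
    refine lt_of_le_of_lt ?_ hj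
    apply one_div_le_one_div_of_le hl
    linarith
  have hdiff : (∫ z, wt lam z • ℓ z) - ∫ z, wt (4 * lam) z • ℓ z =
      ∫ z, (lam * et (lam * nn z) - 4 * lam * et (4 * lam * nn z)) • ℓ z := by
    rw [← integral_sub i1 i2]
    refine integral_congr_ae (ae_of_all _ fun z => ?_)
    simp only [wt, sub_smul]
  rw [hlam', hdiff, diff_eq hl hr hj.le hwd, norm_mul]
  have hhalf : ‖(-(1 / 2) : ℂ)‖ = 1 / 2 := by rw [norm_neg]; norm_num
  rw [hhalf]
  set p2j : ℝ := 2 ^ j with hp2j
  have hp2 : 0 < p2j := by positivity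
  have hsq : p2j ^ 2 = lam := by rw [hp2j, hlam, ← pow_mul, mul_comm, pow_mul]; norm_num
  -- pointwise bounds
  have hring : ∀ z ∈ ring' lam, 1 ≤ 4 * p2j * ‖z‖ ∧ ‖z‖ ≤ 1 / p2j := by
    intro z hz
    have h1 := hz.1
    have h2 := hz.2
    rw [nn_eq] at h1 h2
    rw [div_le_iff₀ (by positivity)] at h1
    rw [le_div_iff₀ (by positivity)] at h2
    constructor
    · have : 1 ≤ (4 * p2j * ‖z‖) ^ 2 := by
        have : (4 * p2j * ‖z‖) ^ 2 = 16 * lam * ‖z‖ ^ 2 := by rw [mul_pow, mul_pow, hsq]; ring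
        rw [this]
        nlinarith
      by_contra hcon
      push Not at hcon
      have h3 : 0 ≤ 4 * p2j * ‖z‖ := by positivity
      nlinarith
    · rw [le_div_iff₀ hp2]
      have : (‖z‖ * p2j) ^ 2 ≤ 1 := by
        rw [mul_pow, hsq]
        nlinarith
      by_contra hcon
      push Not at hcon
      nlinarith
  have hΘ : ∀ z, ‖(p1 lam z : ℂ) + I * p2 lam z‖ ≤ (ring' lam).indicator (fun _ => 4 * p2j) z := by
    intro z
    by_cases hz : z ∈ ring' lam
    · rw [indicator_of_mem hz]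
      have e1 : (p1 lam z : ℂ) + I * p2 lam z = ((Qf lam (nn z) : ℝ) : ℂ) * conj z := by
        apply Complex.ext
        · simp [p1, p2]
        · simp [p1, p2]
      rw [e1, norm_mul, Complex.norm_conj, Complex.norm_real, Real.norm_eq_abs]
      have hz1 := (hring z hz).1
      have hz0 : 0 < ‖z‖ := by
        by_contra hcon
        have : ‖z‖ = 0 := le_antisymm (not_lt.mp hcon) (norm_nonneg _)
        rw [this] at hz1
        linarith
      have hG := Gf_abs lam (nn z)
      rw [Qf, abs_div, nn_eq, abs_of_nonneg (by positivity : (0 : ℝ) ≤ ‖z‖ ^ 2)]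
      rw [nn_eq] at hG
      have : |Gf lam (‖z‖ ^ 2)| / ‖z‖ ^ 2 * ‖z‖ = |Gf lam (‖z‖ ^ 2)| / ‖z‖ := by field_simp
      rw [this, div_le_iff₀ hz0]
      linarith
    · rw [indicator_of_notMem hz]
      have hQ : Qf lam (nn z) = 0 := by
        by_contra h0
        exact hz (Qf_supp hl h0)
      simp [p1, p2, hQ]
  have hring_pun : ring' lam ⊆ pun r := ring_pun hl hr hj.le
  set X : ℂ → ℝ := fun z => en (Fx z) (Fy z) / ‖F z‖ ^ 2 with hX
  have hX0 : ∀ z, 0 ≤ X z := fun z => by simp only [hX, en]; positivity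
  have hbel := h.bel
  have hae : ∀ᵐ z : ℂ, ‖((p1 lam z : ℂ) + I * p2 lam z) * ((pun r).indicator (lx m F Fx) z + I * (pun r).indicator (ly m F Fy) z)‖ₑ ≤
      (ring' lam).indicator (fun z => ENNReal.ofReal (4 * C * κ ^ j * lam) + ENNReal.ofReal (4 * C * κ ^ j) * ENNReal.ofReal (X z)) z := by
    rw [ae_restrict_iff' (pun_open r).measurableSet] at hbel
    filter_upwards [hbel] with z hz
    have h1 := hΘ z
    by_cases hzr : z ∈ ring' lam
    · rw [indicator_of_mem hzr] at h1 ⊢
      have hzp := hring_pun hzr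
      obtain ⟨h2, h3⟩ := hring z hzr
      have h4 := hz hzp
      have hz0 : z ≠ 0 := (mem_pun.1 hzp).2
      have hF0 : F z ≠ 0 := PF_ne h.pf hzp
      have hFn : 0 < ‖F z‖ := norm_pos_iff.mpr hF0
      rw [indicator_of_mem hzp, indicator_of_mem hzp]
      have e1 : lx m F Fx z + I * ly m F Fy z = (Fx z + I * Fy z) / F z := by
        simp only [lx, ly]
        field_simp
        linear_combination (-(m : ℂ)) * F z * Complex.I_sq
      rw [e1, ← ENNReal.ofReal_mul (by positivity), ← ENNReal.ofReal_add (by positivity) (by have := hX0 z; positivity),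
        ← ofReal_norm]
      apply ENNReal.ofReal_le_ofReal
      rw [norm_mul, norm_div]
      have h5 : ‖z‖ ^ α ≤ κ ^ j := by
        have : κ ^ j = (1 / p2j) ^ α := by
          rw [hκ, hp2j, ← Real.rpow_natCast, ← Real.rpow_mul (by norm_num), one_div, ← Real.rpow_natCast 2 j,
            ← Real.rpow_neg (by norm_num), ← Real.rpow_mul (by norm_num)]
          congr 1
          ring
        rw [this]
        exact Real.rpow_le_rpow (norm_nonneg _) h3 hα.le
      have h6 : ‖Fx z - I * Fy z‖ ^ 2 ≤ 2 * en (Fx z) (Fy z) := by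
        have : ‖Fx z - I * Fy z‖ ≤ ‖Fx z‖ + ‖Fy z‖ := by
          refine (norm_sub_le _ _).trans ?_
          rw [norm_mul, Complex.norm_I, one_mul]
        have h7 : ‖Fx z - I * Fy z‖ ^ 2 ≤ (‖Fx z‖ + ‖Fy z‖) ^ 2 := pow_le_pow_left₀ (norm_nonneg _) this 2
        simp only [en]
        nlinarith [sq_nonneg (‖Fx z‖ - ‖Fy z‖)]
      set Y : ℝ := ‖Fx z - I * Fy z‖ / ‖F z‖ with hY
      have hY0 : 0 ≤ Y := by positivity
      have hY2 : Y ^ 2 ≤ 2 * X z := by
        simp only [hY, hX, div_pow]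
        rw [← mul_div_assoc]
        gcongr
      have h8 : ‖Fx z + I * Fy z‖ / ‖F z‖ ≤ C * κ ^ j * Y := by
        rw [hY, ← mul_div_assoc]
        gcongr
        refine h4.trans ?_
        gcongr
      have h9 : p2j * Y ≤ lam + X z := by
        rw [← hsq]
        nlinarith [sq_nonneg (p2j - Y)]
      calc ‖(p1 lam z : ℂ) + I * p2 lam z‖ * (‖Fx z + I * Fy z‖ / ‖F z‖) ≤ (4 * p2j) * (C * κ ^ j * Y) := by
            gcongr
        _ = 4 * C * κ ^ j * (p2j * Y) := by ring
        _ ≤ 4 * C * κ ^ j * (lam + X z) := by gcongr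
        _ = 4 * C * κ ^ j * lam + 4 * C * κ ^ j * X z := by ring
    · rw [indicator_of_notMem hzr] at h1 ⊢
      have : (p1 lam z : ℂ) + I * p2 lam z = 0 := norm_le_zero_iff.mp h1
      rw [this, zero_mul]
      simp
  -- the integral
  have hmeasR : MeasurableSet (ring' lam) := (ring_closed lam).measurableSet
  have hvol : volume (ring' lam) ≤ ENNReal.ofReal (Real.pi / lam) := by
    have h1 : ring' lam ⊆ closedBall (0 : ℂ) (1 / p2j) := by
      intro z hz
      rw [mem_closedBall_zero_iff]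
      exact (hring z hz).2
    refine (measure_mono h1).trans ?_
    rw [Complex.volume_closedBall]
    have : ENNReal.ofReal (1 / p2j) ^ 2 * (NNReal.pi : ℝ≥0∞) = ENNReal.ofReal (Real.pi / lam) := by
      rw [← ENNReal.ofReal_pow (by positivity), ← NNReal.coe_real_pi, ENNReal.ofReal_coe_nnreal.symm,
        ← ENNReal.ofReal_mul (by positivity)]
      congr 1
      rw [div_pow, hsq]
      ring
    rw [this]
  have hsub : ring' lam ⊆ ball (0 : ℂ) r \ ball 0 (1 / (4 * p2j)) := by
    intro z hz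
    refine ⟨(hring_pun hz).1, ?_⟩
    rw [mem_ball_zero_iff, not_lt, div_le_iff₀ (by positivity)]
    have := (hring z hz).1
    linarith
  have hρr : 1 / (4 * p2j) < r := by
    have h1 : (1 / (4 * p2j)) ^ 2 < r ^ 2 := by
      refine lt_of_le_of_lt ?_ hj
      rw [div_pow, mul_pow, hsq, one_pow]
      apply one_div_le_one_div_of_le hl
      linarith
    exact lt_of_pow_lt_pow_left₀ 2 hr.le h1
  have henr := h.enr (1 / (4 * p2j)) (by positivity) hρr
  have hlog : Real.log (r / (1 / (4 * p2j))) = Real.log (4 * r) + j * Real.log 2 := by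
    have : r / (1 / (4 * p2j)) = 4 * r * p2j := by field_simp
    rw [this, Real.log_mul (by positivity) (by positivity), hp2j, Real.log_pow]
  rw [hlog] at henr
  have hlog0 : 0 ≤ 1 + (Real.log (4 * r) + j * Real.log 2) := by
    rw [← hlog]
    have : 0 ≤ Real.log (r / (1 / (4 * p2j))) := by
      apply Real.log_nonneg
      rw [le_div_iff₀ (by positivity)]
      linarith
    linarith
  have hfin : ‖∫ z, ((p1 lam z : ℂ) + I * p2 lam z) * ((pun r).indicator (lx m F Fx) z + I * (pun r).indicator (ly m F Fy) z)‖ₑ ≤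
      ENNReal.ofReal (4 * C * κ ^ j * (Real.pi + C * (1 + (Real.log (4 * r) + j * Real.log 2)))) := by
    refine (enorm_integral_le_lintegral_enorm _).trans ((lintegral_mono_ae hae).trans ?_)
    rw [lintegral_indicator hmeasR, lintegral_add_left measurable_const, lintegral_const, Measure.restrict_apply_univ]
    rw [lintegral_const_mul' _ _ ENNReal.ofReal_ne_top]
    have h1 : ∫⁻ z in ring' lam, ENNReal.ofReal (X z) ≤ ENNReal.ofReal (C * (1 + (Real.log (4 * r) + j * Real.log 2))) :=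
      (lintegral_mono_set hsub).trans henr
    calc ENNReal.ofReal (4 * C * κ ^ j * lam) * volume (ring' lam) + ENNReal.ofReal (4 * C * κ ^ j) * ∫⁻ z in ring' lam, ENNReal.ofReal (X z)
        ≤ ENNReal.ofReal (4 * C * κ ^ j * lam) * ENNReal.ofReal (Real.pi / lam) +
          ENNReal.ofReal (4 * C * κ ^ j) * ENNReal.ofReal (C * (1 + (Real.log (4 * r) + j * Real.log 2))) := by gcongr
      _ = ENNReal.ofReal (4 * C * κ ^ j * (Real.pi + C * (1 + (Real.log (4 * r) + j * Real.log 2)))) := by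
          rw [← ENNReal.ofReal_mul (by positivity), ← ENNReal.ofReal_mul (by positivity),
            ← ENNReal.ofReal_add (by positivity) (by positivity)]
          congr 1
          field_simp
  have hfin2 : ‖∫ z, ((p1 lam z : ℂ) + I * p2 lam z) * ((pun r).indicator (lx m F Fx) z + I * (pun r).indicator (ly m F Fy) z)‖ ≤
      4 * C * κ ^ j * (Real.pi + C * (1 + (Real.log (4 * r) + j * Real.log 2))) := by
    rw [← ofReal_norm] at hfin
    exact (ENNReal.ofReal_le_ofReal_iff (by positivity)).mp hfin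
  calc 1 / 2 * ‖∫ z, ((p1 lam z : ℂ) + I * p2 lam z) * ((pun r).indicator (lx m F Fx) z + I * (pun r).indicator (ly m F Fy) z)‖
      ≤ 1 / 2 * (4 * C * κ ^ j * (Real.pi + C * (1 + (Real.log (4 * r) + j * Real.log 2)))) := by gcongr
    _ = κ ^ j * (2 * C * (Real.pi + C * (1 + Real.log (4 * r) + j * Real.log 2))) := by ring

lemma et_int_pos : 0 < ∫ z : ℂ, et (nn z) := by
  have hc : Continuous fun z : ℂ => et (nn z) := et_cont.comp nn_smooth.continuous
  have hcs : HasCompactSupport fun z : ℂ => et (nn z) := by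
    refine HasCompactSupport.of_support_subset_isCompact (isCompact_closedBall (0 : ℂ) 1) ?_
    intro z hz
    have := (et_supp hz).2
    rw [nn_eq] at this
    rw [mem_closedBall_zero_iff]
    nlinarith [norm_nonneg z]
  obtain ⟨s, hs⟩ : ∃ s, et s ≠ 0 := by
    by_contra hcon
    push Not at hcon
    have h1 : ∀ s, HasDerivAt E 0 s := fun s => by rw [← hcon s]; exact E_deriv s
    have h2 := is_const_of_deriv_eq_zero (f := E) (fun s => (h1 s).differentiableAt) (fun s => (h1 s).deriv) 0 1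
    rw [E_zero (by norm_num), E_one (by norm_num)] at h2
    exact zero_ne_one h2
  have hs0 := (et_supp hs).1
  have hnn : nn (Real.sqrt s : ℂ) = s := by
    simp [nn, Real.sq_sqrt (show (0 : ℝ) ≤ s by linarith)]
  refine hc.integral_pos_of_hasCompactSupport_nonneg_nonzero hcs (fun z => et_nonneg _) (x := (Real.sqrt s : ℂ)) ?_
  rw [hnn]
  exact hs

end TwcM

open TwcM Base in
theorem specTwcC (hLWD : SpecLWD) : SpecTwcC := by
  intro r Q C α m F Fx Fy ℓ h
  have hr : 0 < r := h.pf.r0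
  have hα := h.a0
  have hC := h.C0
  set c : ℝ := (∫ z : ℂ, et (nn z))⁻¹ with hc
  have hc0 : 0 < c := inv_pos.mpr et_int_pos
  -- convergence of the unnormalised means
  set B : ℕ → ℂ := fun j => ∫ z, wt (4 ^ j) z • ℓ z with hB
  obtain ⟨j₀, hj₀⟩ : ∃ j₀ : ℕ, ∀ j ≥ j₀, 1 / (4 : ℝ) ^ j < r ^ 2 := by
    have h1 : Tendsto (fun j : ℕ => (1 / 4 : ℝ) ^ j) atTop (𝓝 0) :=
      tendsto_pow_atTop_nhds_zero_of_lt_one (by norm_num) (by norm_num)
    obtain ⟨j₀, hj₀⟩ := eventually_atTop.mp (h1.eventually_lt_const (show (0 : ℝ) < r ^ 2 by positivity))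
    refine ⟨j₀, fun j hj => ?_⟩
    have := hj₀ j hj
    rwa [one_div_pow] at this
  set κ : ℝ := (2 : ℝ) ^ (-α) with hκ
  have hκ0 : 0 < κ := by positivity
  have hκ1 : κ < 1 := Real.rpow_lt_one_of_one_lt_of_neg (by norm_num) (by linarith)
  set d : ℕ → ℝ := fun j => κ ^ j * (2 * C * (Real.pi + C * (1 + Real.log (4 * r) + j * Real.log 2))) with hd
  have hsum : Summable d := by
    have h1 : Summable fun j : ℕ => κ ^ j := summable_geometric_of_lt_one hκ0.le hκ1
    have h2 : Summable fun j : ℕ => (j : ℝ) * κ ^ j := by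
      have := summable_pow_mul_geometric_of_norm_lt_one 1 (r := κ) (by rw [Real.norm_of_nonneg hκ0.le]; exact hκ1)
      simpa using this
    have h3 := (h1.mul_left (2 * C * (Real.pi + C * (1 + Real.log (4 * r))))).add (h2.mul_left (2 * C * (C * Real.log 2)))
    refine h3.congr fun j => ?_
    simp only [hd]
    ring
  have hcau : CauchySeq (fun j => B (j + j₀)) := by
    refine cauchySeq_of_dist_le_of_summable (fun j => d (j + j₀)) ?_ ((summable_nat_add_iff j₀).mpr hsum)
    intro j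
    rw [dist_eq_norm]
    have := step hLWD h (j + j₀) (hj₀ _ (Nat.le_add_left _ _))
    have e : j.succ + j₀ = j + j₀ + 1 := by omega
    rw [e]
    simpa [hB, hd] using this
  obtain ⟨b, hb⟩ := cauchySeq_tendsto_of_complete hcau
  have hb' : Tendsto B atTop (𝓝 b) := (tendsto_add_atTop_iff_nat j₀).mp hb
  refine ⟨fun z => c * et (nn z), c • b, continuous_const.mul (et_cont.comp nn_smooth.continuous), ?_, ?_, ?_, ?_⟩
  · intro z
    exact mul_nonneg hc0.le (et_nonneg _)
  · rw [integral_const_mul, hc, inv_mul_cancel₀ et_int_pos.ne']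
  · intro z hz
    have h1 : et (nn z) ≠ 0 := by
      intro h0
      apply hz
      show c * et (nn z) = 0
      rw [h0, mul_zero]
    obtain ⟨h2, h3⟩ := et_supp h1
    rw [nn_eq] at h2 h3
    constructor
    · by_contra hcon
      push Not at hcon
      nlinarith [norm_nonneg z]
    · nlinarith [norm_nonneg z]
  · have e : (fun j : ℕ => ∫ z, ((4 : ℝ) ^ j * (c * et (nn (2 ^ j * z)))) • ℓ z) = fun j => c • B j := by
      funext j
      simp only [hB]
      rw [← integral_smul]
      refine integral_congr_ae (ae_of_all _ fun z => ?_)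
      have h1 : nn ((2 : ℂ) ^ j * z) = 4 ^ j * nn z := by
        rw [nn_eq, nn_eq, norm_mul, norm_pow, Complex.norm_two, mul_pow, ← pow_mul, mul_comm j 2, pow_mul]
        norm_num
      simp only [h1, wt, smul_smul]
      congr 1
      ring
    rw [e]
    exact hb'.const_smul c

end MPfa.Reg
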