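import Pool.Agent.Lib.MP_fa0334_an.RegSpec
import Pool.Agent.Lib.MP_fa0334_an.Bump

section
/-!
Problem MP_fa0334_an, part REG, module MOL: mollification, general exponents.
-/
set_option autoImplicit false

open MeasureTheory Set Filter Topology Metric Complex
open scoped ContDiff ENNReal ComplexConjugate

namespace MPfa.Reg.MolM

open MPfa.Mol

theorem rpow_lint {r : ℝ} (hr : 1 ≤ r) {f k : ℂ → ℝ≥0∞} (hf : AEMeasurable f volume)
    (hk : AEMeasurable k volume) (h1 : ∫⁻ a, k a ≤ 1) :
    (∫⁻ a, f a * k a) ^ r ≤ ∫⁻ a, f a ^ r * k a := by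
  rcases hr.eq_or_lt with rfl | hr1
  · simp
  have hr0 : 0 < r := by linarith
  set q := r / (r - 1) with hq
  have hq0 : 0 < q := div_pos hr0 (by linarith)
  have hc : r.HolderConjugate q := by
    rw [Real.holderConjugate_iff]
    refine ⟨hr1, ?_⟩
    rw [hq]
    have : r - 1 ≠ 0 := by linarith
    field_simp
    ring
  have hsum : 1 / r + 1 / q = 1 := by
    have := hc.inv_add_inv_eq_one
    simpa [one_div] using this
  have h := ENNReal.lintegral_mul_le_Lp_mul_Lq volume hc
    (f := fun a => f a * k a ^ (1 / r : ℝ)) (g := fun a => k a ^ (1 / q : ℝ))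
    (hf.mul (hk.pow_const _)) (hk.pow_const _)
  have e1 : ∀ a, ((fun a => f a * k a ^ (1 / r : ℝ)) * fun a => k a ^ (1 / q : ℝ)) a =
      f a * k a := by
    intro a
    simp only [Pi.mul_apply]
    rw [mul_assoc, ← ENNReal.rpow_add_of_nonneg _ _ (by positivity) (by positivity), hsum,
      ENNReal.rpow_one]
  have e2 : ∀ a, (f a * k a ^ (1 / r : ℝ)) ^ r = f a ^ r * k a := by
    intro a
    rw [ENNReal.mul_rpow_of_nonneg _ _ hr0.le, ← ENNReal.rpow_mul,
      one_div_mul_cancel hr0.ne', ENNReal.rpow_one]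
  have e3 : ∀ a, (k a ^ (1 / q : ℝ)) ^ q = k a := by
    intro a
    rw [← ENNReal.rpow_mul, one_div_mul_cancel hq0.ne', ENNReal.rpow_one]
  simp only [e1, e2, e3] at h
  calc (∫⁻ a, f a * k a) ^ r
      ≤ ((∫⁻ a, f a ^ r * k a) ^ (1 / r : ℝ) * (∫⁻ a, k a) ^ (1 / q : ℝ)) ^ r :=
        ENNReal.rpow_le_rpow h hr0.le
    _ ≤ ((∫⁻ a, f a ^ r * k a) ^ (1 / r : ℝ) * 1) ^ r := by
        refine ENNReal.rpow_le_rpow (mul_le_mul_right ?_ _) hr0.le
        exact ENNReal.rpow_le_one h1 (by positivity)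
    _ = ∫⁻ a, f a ^ r * k a := by
        rw [mul_one, ← ENNReal.rpow_mul, one_div_mul_cancel hr0.ne', ENNReal.rpow_one]

theorem lintegral_mol_le {r : ℝ} (hr : 1 ≤ r) (n : ℕ) {F : ℂ → ℂ}
    (hF : AEStronglyMeasurable F volume) :
    ∫⁻ x, ‖mol n F x‖ₑ ^ r ≤ ∫⁻ x, ‖F x‖ₑ ^ r := by
  have hmeas : Measurable fun p : ℂ × ℂ => ENNReal.ofReal (rho n (p.1 - p.2)) :=
    ENNReal.measurable_ofReal.comp ((rho_meas n).comp (measurable_fst.sub measurable_snd))
  calc ∫⁻ x, ‖mol n F x‖ₑ ^ r
      ≤ ∫⁻ x, ∫⁻ y, ‖F y‖ₑ ^ r * ENNReal.ofReal (rho n (x - y)) := by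
        refine lintegral_mono fun x => ?_
        refine (ENNReal.rpow_le_rpow (enorm_mol_le n F x) (by linarith)).trans ?_
        exact rpow_lint hr hF.enorm
          (hmeas.comp (measurable_const.prodMk measurable_id)).aemeasurable
          (lint_left n x).le
    _ = ∫⁻ y, ∫⁻ x, ‖F y‖ₑ ^ r * ENNReal.ofReal (rho n (x - y)) := by
        apply lintegral_lintegral_swap
        have h1 : AEMeasurable (fun q : ℂ × ℂ => ‖F q.2‖ₑ ^ r) (volume.prod volume) :=
          (hF.enorm.comp_quasiMeasurePreserving (Measure.quasiMeasurePreserving_snd)).pow_const r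
        exact h1.mul hmeas.aemeasurable
    _ = ∫⁻ y, ‖F y‖ₑ ^ r := by
        congr 1
        funext y
        have h1 : Measurable fun x : ℂ => ENNReal.ofReal (rho n (x - y)) :=
          ENNReal.measurable_ofReal.comp ((rho_meas n).comp (measurable_id.sub_const y))
        rw [lintegral_const_mul _ h1, lint_right, mul_one]

theorem eLpNorm_rpow {r : ℝ} (hr : 1 ≤ r) (F : ℂ → ℂ) :
    eLpNorm F (ENNReal.ofReal r) volume ^ r = ∫⁻ x, ‖F x‖ₑ ^ r := by
  have hr0 : 0 < r := by linarith
  have h0 : ENNReal.ofReal r ≠ 0 := by simpa using hr0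
  rw [eLpNorm_eq_lintegral_rpow_enorm_toReal h0 ENNReal.ofReal_ne_top,
    ENNReal.toReal_ofReal hr0.le, ← ENNReal.rpow_mul, one_div_mul_cancel hr0.ne',
    ENNReal.rpow_one]

theorem eLpNorm_mol_le {r : ℝ} (hr : 1 ≤ r) (n : ℕ) {F : ℂ → ℂ}
    (hF : AEStronglyMeasurable F volume) :
    eLpNorm (mol n F) (ENNReal.ofReal r) volume ≤ eLpNorm F (ENNReal.ofReal r) volume := by
  have h := lintegral_mol_le hr n hF
  rw [← eLpNorm_rpow hr, ← eLpNorm_rpow hr] at h
  exact (ENNReal.rpow_le_rpow_iff (by linarith)).1 h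

/-- Mollifications converge in `L^r`. -/
theorem tendsto_mol' {r : ℝ} (hr : 1 ≤ r) {F : ℂ → ℂ} (hF : MemLp F (ENNReal.ofReal r) volume) :
    Tendsto (fun n => eLpNorm (mol n F - F) (ENNReal.ofReal r) volume) atTop (𝓝 0) := by
  have hp1 : 1 ≤ ENNReal.ofReal r := by simpa using ENNReal.ofReal_le_ofReal hr
  have hpt : ENNReal.ofReal r ≠ ⊤ := ENNReal.ofReal_ne_top
  set p := ENNReal.ofReal r with hp
  rw [ENNReal.tendsto_nhds_zero]
  intro ε hε
  have hε3 : ε / 3 ≠ 0 := by
    rw [Ne, ENNReal.div_eq_zero_iff]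
    push Not
    exact ⟨hε.ne', by norm_num⟩
  obtain ⟨g, hgc, hg1, hg2, hg3⟩ := hF.exists_hasCompactSupport_eLpNorm_sub_le hpt hε3
  have hFl : LocallyIntegrable F := hF.locallyIntegrable hp1
  have hgl : LocallyIntegrable g := hg2.locallyIntegrable
  obtain ⟨R, hR⟩ := hgc.isCompact.isBounded.subset_closedBall (0 : ℂ)
  have hg0 : ∀ y, R < ‖y‖ → g y = 0 := by
    intro y hy
    apply image_eq_zero_of_notMem_tsupport
    intro hy'
    have := hR hy'
    simp only [mem_closedBall, dist_zero_right] at this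
    linarith
  set B : Set ℂ := closedBall 0 (R + 1)
  set χ : ℂ → ℂ := B.indicator (fun _ => 1)
  have hBf : volume B ≠ ⊤ := (isCompact_closedBall (0 : ℂ) (R + 1)).measure_lt_top.ne
  have hχ : eLpNorm χ p volume ≠ ⊤ := by
    have : MemLp χ p volume := memLp_indicator_const _ isClosed_closedBall.measurableSet 1
      (Or.inr hBf)
    exact this.eLpNorm_ne_top
  obtain ⟨δ, hδ0, hδ⟩ : ∃ δ : ℝ, 0 < δ ∧ ENNReal.ofReal δ * eLpNorm χ p volume ≤ ε / 3 := by
    have hlim : Tendsto (fun δ : ℝ => ENNReal.ofReal δ * eLpNorm χ p volume) (𝓝[>] 0) (𝓝 0) := by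
      have h1 : Tendsto (fun δ : ℝ => ENNReal.ofReal δ) (𝓝[>] 0) (𝓝 0) := by
        have := (ENNReal.continuous_ofReal.tendsto 0)
        rw [ENNReal.ofReal_zero] at this
        exact this.mono_left nhdsWithin_le_nhds
      have := ENNReal.Tendsto.mul_const (b := eLpNorm χ p volume) h1 (Or.inr hχ)
      rwa [zero_mul] at this
    have h2 := (ENNReal.tendsto_nhds_zero.1 hlim) (ε / 3) (pos_iff_ne_zero.2 hε3)
    obtain ⟨δ, h3, h4⟩ := (h2.and self_mem_nhdsWithin).exists
    exact ⟨δ, h4, h3⟩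
  have huc : UniformContinuous g := hgc.uniformContinuous_of_continuous hg2
  obtain ⟨η, hη, hη'⟩ := Metric.uniformContinuous_iff.1 huc δ hδ0
  filter_upwards [wd_tendsto.eventually (gt_mem_nhds hη)] with n hn
  have h3 : eLpNorm (mol n g - g) p volume ≤ ε / 3 := by
    refine le_trans ?_ hδ
    apply eLpNorm_le_mul_eLpNorm_of_ae_le_mul
    refine Eventually.of_forall fun x => ?_
    by_cases hx : x ∈ B
    · simp only [χ, indicator_of_mem hx, norm_one, mul_one, Pi.sub_apply]
      apply norm_mol_sub_le n hgl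
      intro y hy
      rw [← dist_eq]
      exact (hη' (hy.trans hn)).le
    · have hx' : R + 1 < ‖x‖ := by
        simpa [B] using hx
      have e1 : mol n g x = 0 := by
        unfold mol
        have : (fun y => rho n (x - y) • g y) = fun _ => 0 := by
          funext y
          by_cases h : R < ‖y‖
          · rw [hg0 y h, smul_zero]
          · push Not at h
            rw [rho_zero, zero_smul]
            have := norm_sub_norm_le x y
            have := wd_le_one n
            linarith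
        rw [this, integral_zero]
      rw [Pi.sub_apply, e1, hg0 x (by linarith)]
      simp [χ, indicator_of_notMem hx]
  have h4 : mol n F - F = mol n (F - g) + (mol n g - g) - (F - g) := by
    rw [mol_sub n hFl hgl]
    abel
  have hmeas1 : AEStronglyMeasurable (F - g) volume := hF.1.sub hg3.1
  have hmF : ∀ {H : ℂ → ℂ}, LocallyIntegrable H → AEStronglyMeasurable (mol n H) volume :=
    fun hH => (mol_sm n hH).continuous.aestronglyMeasurable
  have h5 : eLpNorm (mol n (F - g)) p volume ≤ ε / 3 := (eLpNorm_mol_le hr n hmeas1).trans hg1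
  calc eLpNorm (mol n F - F) p volume
      = eLpNorm (mol n (F - g) + (mol n g - g) - (F - g)) p volume := by rw [h4]
    _ ≤ eLpNorm (mol n (F - g) + (mol n g - g)) p volume + eLpNorm (F - g) p volume :=
        eLpNorm_sub_le ((hmF (hFl.sub hgl)).add ((hmF hgl).sub hg3.1)) hmeas1 hp1
    _ ≤ (eLpNorm (mol n (F - g)) p volume + eLpNorm (mol n g - g) p volume) +
        eLpNorm (F - g) p volume := by
        gcongr
        exact eLpNorm_add_le (hmF (hFl.sub hgl)) ((hmF hgl).sub hg3.1) hp1
    _ ≤ (ε / 3 + ε / 3) + ε / 3 := by gcongr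
    _ = ε := ENNReal.add_thirds ε

theorem tendsto_mol {r : ℝ} (hr : 1 ≤ r) {F : ℂ → ℂ} (hF : MemLp F (ENNReal.ofReal r) volume) :
    Tendsto (fun n => ∫⁻ x, ‖mol n F x - F x‖ₑ ^ r) atTop (𝓝 0) := by
  have hr0 : 0 < r := by linarith
  have h := (ENNReal.continuous_rpow_const (y := r)).tendsto 0 |>.comp (tendsto_mol' hr hF)
  rw [ENNReal.zero_rpow_of_pos hr0] at h
  refine h.congr fun n => ?_
  simp only [Function.comp]
  rw [eLpNorm_rpow hr]
  rfl

/-- local convergence, with the indicator of a set `K` -/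
theorem tendsto_mol_on {r : ℝ} (hr : 1 ≤ r) {F : ℂ → ℂ} {K L : Set ℂ} (hL : MeasurableSet L)
    (hLK : L ⊆ K) (hK : MeasurableSet K) (hF : AEStronglyMeasurable F (volume.restrict K))
    (hFp : ∫⁻ x in K, ‖F x‖ₑ ^ r < ⊤) :
    Tendsto (fun n => ∫⁻ x in L, ‖mol n (K.indicator F) x - F x‖ₑ ^ r) atTop (𝓝 0) := by
  have hr0 : 0 < r := by linarith
  have hm : MemLp (K.indicator F) (ENNReal.ofReal r) volume := by
    have h1 : AEStronglyMeasurable (K.indicator F) volume :=
      (aestronglyMeasurable_indicator_iff hK).2 hF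
    refine ⟨h1, ?_⟩
    have h2 : ∫⁻ x, ‖K.indicator F x‖ₑ ^ r = ∫⁻ x in K, ‖F x‖ₑ ^ r := by
      rw [← lintegral_indicator hK]
      congr 1
      funext x
      by_cases hx : x ∈ K
      · simp [hx]
      · simp [hx, hr0]
    rw [lt_top_iff_ne_top]
    intro h3
    have h4 := eLpNorm_rpow hr (K.indicator F)
    rw [h3, ENNReal.top_rpow_of_pos hr0, h2] at h4
    exact hFp.ne h4.symm
  have h := tendsto_mol hr hm
  refine tendsto_of_tendsto_of_tendsto_of_le_of_le tendsto_const_nhds h (fun _ => zero_le)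
    fun n => ?_
  calc ∫⁻ x in L, ‖mol n (K.indicator F) x - F x‖ₑ ^ r
      = ∫⁻ x in L, ‖mol n (K.indicator F) x - K.indicator F x‖ₑ ^ r := by
        apply setLIntegral_congr_fun hL
        intro x hx
        simp only
        rw [indicator_of_mem (hLK hx)]
    _ ≤ _ := setLIntegral_le_lintegral _ _

/-- real functionals commute with mollification -/
theorem mol_clm (L : ℂ →L[ℝ] ℝ) (n : ℕ) {F : ℂ → ℂ} (hF : LocallyIntegrable F) (x : ℂ) :
    mol n (fun z => ((L (F z) : ℝ) : ℂ)) x = ((L (mol n F x) : ℝ) : ℂ) := by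
  have h1 := (Complex.ofRealCLM.comp L).integral_comp_comm (mol_int n hF x)
  simp only [ContinuousLinearMap.comp_apply, map_smul] at h1
  unfold mol
  simpa using h1

theorem specMol : SpecMol := by
  intro G F Fx Fy hG hF hW K hKG hK
  obtain ⟨δ, hδ, hδG⟩ := hK.exists_cthickening_subset_open hG hKG
  set K' := cthickening δ K with hK'
  have hK'c : IsCompact K' := hK.cthickening
  have hK'm : MeasurableSet K' := hK'c.measurableSet
  have hKm : MeasurableSet K := hK.measurableSet
  have hKK' : K ⊆ K' := self_subset_cthickening K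
  obtain ⟨N, hN⟩ := (Mol.wd_tendsto.eventually (gt_mem_nhds hδ)).exists
  have hball : ∀ n, ∀ x ∈ K, closedBall x (Mol.wd (n + N)) ⊆ K' := by
    intro n x hx
    have h1 : Mol.wd (n + N) ≤ δ := (Mol.wd_anti (Nat.le_add_left N n)).trans hN.le
    exact (closedBall_subset_closedBall h1).trans (closedBall_subset_cthickening hx δ)
  have hshift : Tendsto (fun n => n + N) atTop atTop := tendsto_add_atTop_nat N
  have hFi : IntegrableOn F K' := (hF.mono hδG).integrableOn_compact hK'c
  have hFl : LocallyIntegrable (K'.indicator F) :=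
    ((integrable_indicator_iff hK'm).2 hFi).locallyIntegrable
  have key : ∀ {r : ℝ} (_ : 1 ≤ r) (L : ℂ →L[ℝ] ℝ) {F' : ℂ → ℂ} {v : ℂ},
      (∀ φ : ℂ → ℝ, Test G φ → ∫ z, (fderiv ℝ φ z v) • F z = - ∫ z, φ z • F' z) →
      Measurable F' → LI G F' → Lrl G r (fun z => L (F' z)) →
      Tendsto (fun n => ∫⁻ z in K, ENNReal.ofReal
        |L (fderiv ℝ (Mol.mol (n + N) (K'.indicator F)) z v) - L (F' z)| ^ r)
        atTop (𝓝 0) := by
    intro r hr L F' v hi hm hl hlt
    have hFl' : LocallyIntegrable (K'.indicator F') :=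
      ((integrable_indicator_iff hK'm).2 (hl K' hδG hK'c)).locallyIntegrable
    have hmeas : Measurable fun z => ((L (F' z) : ℝ) : ℂ) :=
      Complex.measurable_ofReal.comp (L.continuous.measurable.comp hm)
    have hfin : ∫⁻ z in K', ‖((L (F' z) : ℝ) : ℂ)‖ₑ ^ r < ⊤ := by
      have := hlt K' hδG hK'c
      refine lt_of_le_of_lt (lintegral_mono fun z => ?_) this
      refine ENNReal.rpow_le_rpow (le_of_eq ?_) (by linarith)
      rw [← ofReal_norm, Complex.norm_real, Real.norm_eq_abs]
    have h1 := (tendsto_mol_on hr hKm hKK' hK'm hmeas.aestronglyMeasurable hfin).comp hshift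
    refine h1.congr fun n => ?_
    apply setLIntegral_congr_fun hKm
    intro x hx
    simp only
    have e0 : (K'.indicator fun z => ((L (F' z) : ℝ) : ℂ)) =
        fun z => ((L (K'.indicator F' z) : ℝ) : ℂ) := by
      funext z
      by_cases hz : z ∈ K'
      · simp [hz]
      · simp [hz]
    rw [Mol.mol_fderiv_eq hi hδG hK'm hFi _ x (hball n x hx), e0, mol_clm L _ hFl']
    congr 1
    rw [← Complex.ofReal_sub, ← ofReal_norm, Complex.norm_real, Real.norm_eq_abs]
  refine ⟨fun n => Mol.mol (n + N) (K'.indicator F), fun n => Mol.mol_sm _ hFl, ?_, ?_⟩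
  · rw [Metric.tendstoUniformlyOn_iff]
    intro ε hε
    have huc := hK'c.uniformContinuousOn_of_continuous (hF.mono hδG)
    rw [Metric.uniformContinuousOn_iff] at huc
    obtain ⟨η, hη, h⟩ := huc (ε / 2) (half_pos hε)
    have h2 := (Mol.wd_tendsto.comp hshift).eventually (gt_mem_nhds hη)
    filter_upwards [h2] with n hn x hx
    have h3 : ‖Mol.mol (n + N) (K'.indicator F) x - F x‖ ≤ ε / 2 := by
      apply Mol.norm_mol_sub_le _ hFl
      intro y hy
      have hy' : y ∈ K' := hball n x hx (by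
        rw [mem_closedBall]
        exact hy.le)
      rw [indicator_of_mem hy', ← dist_eq]
      exact (h y hy' x (hKK' hx) (hy.trans hn)).le
    rw [dist_comm, dist_eq]
    linarith
  · intro r hr L
    exact ⟨fun h => key hr L hW.ix hW.mx hW.lx h, fun h => key hr L hW.iy hW.my hW.ly h⟩

end MPfa.Reg.MolM

namespace MPfa.Reg

theorem specMol : SpecMol := MolM.specMol

end MPfa.Reg
end

section
/-!
Problem MP_fa0334_an, part REG, module WDC1: continuous weak derivatives are classical.
-/
set_option autoImplicit false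

open MeasureTheory Set Filter Topology Metric Complex
open scoped ContDiff ENNReal ComplexConjugate

namespace MPfa.Reg

namespace W1

theorem lmap_norm (a b m : ℂ) : ‖lmap a b m‖ ≤ (‖a‖ + ‖b‖) * ‖m‖ := by
  have : lmap a b m = m.re • a + m.im • b := rfl
  rw [this]
  calc ‖m.re • a + m.im • b‖ ≤ |m.re| * ‖a‖ + |m.im| * ‖b‖ := by
        refine (norm_add_le _ _).trans ?_
        rw [norm_smul, norm_smul, Real.norm_eq_abs, Real.norm_eq_abs]
    _ ≤ ‖m‖ * ‖a‖ + ‖m‖ * ‖b‖ := by
        gcongr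
        · exact Complex.abs_re_le_norm m
        · exact Complex.abs_im_le_norm m
    _ = _ := by ring

theorem lmap_opNorm (a b : ℂ) : ‖lmap a b‖ ≤ ‖a‖ + ‖b‖ :=
  ContinuousLinearMap.opNorm_le_bound _ (by positivity) (lmap_norm a b)

theorem lmap_sub (a b a' b' : ℂ) : lmap a b - lmap a' b' = lmap (a - a') (b - b') := by
  ext m
  simp [lmap]; ring

theorem eq_lmap (L : ℂ →L[ℝ] ℂ) : L = lmap (L 1) (L I) := by
  refine ContinuousLinearMap.ext fun m => ?_
  have : lmap (L 1) (L I) m = m.re • L 1 + m.im • L I := rfl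
  rw [this, ← map_smul, ← map_smul, ← map_add]
  congr 1
  apply Complex.ext <;> simp

theorem lmap_cont {G : Set ℂ} {a b : ℂ → ℂ} (ha : ContinuousOn a G) (hb : ContinuousOn b G) :
    ContinuousOn (fun z => lmap (a z) (b z)) G := by
  rw [Metric.continuousOn_iff] at ha hb ⊢
  intro z hz ε hε
  obtain ⟨d1, h1, k1⟩ := ha z hz (ε / 2) (half_pos hε)
  obtain ⟨d2, h2, k2⟩ := hb z hz (ε / 2) (half_pos hε)
  refine ⟨min d1 d2, lt_min h1 h2, fun w hw hwz => ?_⟩
  have e1 := k1 w hw (hwz.trans_le (min_le_left _ _))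
  have e2 := k2 w hw (hwz.trans_le (min_le_right _ _))
  rw [dist_eq_norm] at e1 e2 ⊢
  rw [lmap_sub]
  refine (lmap_opNorm _ _).trans_lt ?_
  linarith

theorem mol_congr (n : ℕ) {g g' : ℂ → ℂ} (h : g =ᵐ[volume] g') (x : ℂ) :
    Mol.mol n g x = Mol.mol n g' x := by
  unfold Mol.mol
  apply integral_congr_ae
  filter_upwards [h] with y hy
  rw [hy]

end W1

theorem specWDC1 : SpecWDC1 := by
  intro G F Fx Fy gx gy hG hF hW hgx hgy hae
  have key : ∀ z ∈ G, HasFDerivAt F (lmap (gx z) (gy z)) z := by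
    intro z₀ hz₀
    obtain ⟨r, hr, hrG⟩ := Metric.nhds_basis_closedBall.mem_iff.1 (hG.mem_nhds hz₀)
    set K := closedBall z₀ r with hKdef
    have hK : IsCompact K := isCompact_closedBall _ _
    obtain ⟨δ, hδ, hδG⟩ := hK.exists_cthickening_subset_open hG hrG
    set K' := cthickening δ K with hK'
    have hK'c : IsCompact K' := hK.cthickening
    have hK'm : MeasurableSet K' := hK'c.measurableSet
    have hKK' : K ⊆ K' := self_subset_cthickening K
    obtain ⟨N, hN⟩ := (Mol.wd_tendsto.eventually (gt_mem_nhds hδ)).exists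
    have hball : ∀ n, ∀ x ∈ K, closedBall x (Mol.wd (n + N)) ⊆ K' := by
      intro n x hx
      have h1 : Mol.wd (n + N) ≤ δ := (Mol.wd_anti (Nat.le_add_left N n)).trans hN.le
      exact (closedBall_subset_closedBall h1).trans (closedBall_subset_cthickening hx δ)
    have hshift : Tendsto (fun n => n + N) atTop atTop := tendsto_add_atTop_nat N
    have hloc : ∀ {g : ℂ → ℂ}, ContinuousOn g G → LocallyIntegrable (K'.indicator g) := fun hg =>
      ((integrable_indicator_iff hK'm).2
        ((hg.mono hδG).integrableOn_compact hK'c)).locallyIntegrable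
    -- uniform convergence of mollifications
    have hunif : ∀ {g : ℂ → ℂ}, ContinuousOn g G → TendstoUniformlyOn
        (fun n => Mol.mol (n + N) (K'.indicator g)) g atTop K := by
      intro g hg
      rw [Metric.tendstoUniformlyOn_iff]
      intro ε hε
      have huc := hK'c.uniformContinuousOn_of_continuous (hg.mono hδG)
      rw [Metric.uniformContinuousOn_iff] at huc
      obtain ⟨η, hη, h⟩ := huc (ε / 2) (half_pos hε)
      have h2 := (Mol.wd_tendsto.comp hshift).eventually (gt_mem_nhds hη)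
      filter_upwards [h2] with n hn x hx
      have h3 : ‖Mol.mol (n + N) (K'.indicator g) x - g x‖ ≤ ε / 2 := by
        apply Mol.norm_mol_sub_le _ (hloc hg)
        intro y hy
        have hy' : y ∈ K' := hball n x hx (by
          rw [mem_closedBall]
          exact hy.le)
        rw [indicator_of_mem hy', ← dist_eq_norm]
        exact (h y hy' x (hKK' hx) (hy.trans hn)).le
      rw [dist_comm, dist_eq_norm]
      linarith
    have hFi : IntegrableOn F K' := (hF.mono hδG).integrableOn_compact hK'c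
    set f : ℕ → ℂ → ℂ := fun n => Mol.mol (n + N) (K'.indicator F) with hf
    have hfs : ∀ n, ContDiff ℝ ∞ (f n) := fun n => Mol.mol_sm _ (hloc hF)
    have hcong : ∀ {Fv gv : ℂ → ℂ}, (∀ᵐ z ∂(volume.restrict G), Fv z = gv z) →
        K'.indicator Fv =ᵐ[volume] K'.indicator gv := by
      intro Fv gv h
      rw [ae_restrict_iff' hG.measurableSet] at h
      filter_upwards [h] with z hz
      by_cases hzK : z ∈ K'
      · rw [indicator_of_mem hzK, indicator_of_mem hzK, hz (hδG hzK)]
      · rw [indicator_of_notMem hzK, indicator_of_notMem hzK]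
    have hd : ∀ {Fv gv : ℂ → ℂ} {v : ℂ},
        (∀ φ : ℂ → ℝ, Test G φ → ∫ z, (fderiv ℝ φ z v) • F z = - ∫ z, φ z • Fv z) →
        (∀ᵐ z ∂(volume.restrict G), Fv z = gv z) → ContinuousOn gv G →
        TendstoUniformlyOn (fun n z => fderiv ℝ (f n) z v) gv atTop K := by
      intro Fv gv v hi ha hc
      refine (hunif hc).congr (Eventually.of_forall fun n x hx => ?_)
      simp only [hf]
      rw [Mol.mol_fderiv_eq hi hδG hK'm hFi _ x (hball n x hx)]
      exact (W1.mol_congr _ (hcong ha) x).symm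
    have hdx := hd hW.ix (hae.mono fun z h => h.1) hgx
    have hdy := hd hW.iy (hae.mono fun z h => h.2) hgy
    have hD : TendstoUniformlyOn (fun n z => fderiv ℝ (f n) z) (fun z => lmap (gx z) (gy z))
        atTop (ball z₀ r) := by
      rw [Metric.tendstoUniformlyOn_iff]
      intro ε hε
      filter_upwards [(Metric.tendstoUniformlyOn_iff.1 hdx) (ε / 2) (half_pos hε),
        (Metric.tendstoUniformlyOn_iff.1 hdy) (ε / 2) (half_pos hε)] with n h1 h2 z hz
      have e1 := h1 z (ball_subset_closedBall hz)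
      have e2 := h2 z (ball_subset_closedBall hz)
      rw [dist_eq_norm] at e1 e2 ⊢
      rw [W1.eq_lmap (fderiv ℝ (f n) z), W1.lmap_sub]
      refine (W1.lmap_opNorm _ _).trans_lt ?_
      linarith
    exact hasFDerivAt_of_tendstoUniformlyOn isOpen_ball hD
      (fun n z _ => (((hfs n).differentiable (by simp)) z).hasFDerivAt)
      (fun z hz => (hunif hF).tendsto_at (ball_subset_closedBall hz)) (mem_ball_self hr)
  refine ⟨?_, fun z hz => ?_⟩
  · have h1 : ContDiffOn ℝ (0 + 1) F G := by
      rw [contDiffOn_succ_iff_fderiv_of_isOpen hG]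
      refine ⟨fun z hz => (key z hz).differentiableAt.differentiableWithinAt, by simp, ?_⟩
      rw [contDiffOn_zero]
      exact (W1.lmap_cont hgx hgy).congr fun z hz => (key z hz).fderiv
    rwa [zero_add] at h1
  · rw [(key z hz).fderiv]
    constructor
    · simp [lmap]
    · simp [lmap]

end MPfa.Reg
end
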