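import Pool.Agent.Lib.MP_fa0334_an.RegSpec
import Pool.Agent.Lib.MP_fa0334_an.RegZNorm
import Pool.Agent.Lib.MP_fa0334_an.Weyl

section
/-!
Problem MP_fa0334_an, part REG, module ZALG: pointwise facts at a zero.
-/
set_option autoImplicit false

open MeasureTheory Set Filter Topology Metric Complex
open scoped ContDiff ENNReal ComplexConjugate

namespace MPfa.Reg

namespace ZAlg

theorem nsq (z : ℂ) : ‖z‖ ^ 2 = z.re ^ 2 + z.im ^ 2 := by
  rw [← Complex.normSq_eq_norm_sq, Complex.normSq_apply]; ring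

/-- `f z ≠ 0` off the zero -/
theorem f_ne {p : ℝ} {n : ℕ} {r : ℝ} {f : ℂ → ℂ} (h : Zer p n r f) {z : ℂ} (hz : z ∈ pun r) :
    f z ≠ 0 := by
  intro h0
  have hz' := Base.mem_pun.1 hz
  have : z = 0 := h.inj (Base.pun_sub_ball r hz) (mem_ball_self h.r0) (by rw [h0, h.z0])
  exact hz'.2 this

theorem Psn_ne {n : ℕ} {w : ℂ} (hw : w ≠ 0) : Psn n w ≠ 0 := by
  have h2 : ((n : ℂ) + 2) / 2 ≠ 0 := by
    have : ((n : ℂ) + 2) ≠ 0 := by
      have : ((n : ℂ) + 2) = ((n + 2 : ℕ) : ℂ) := by push_cast; ring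
      rw [this]; exact_mod_cast (by omega : n + 2 ≠ 0)
    exact div_ne_zero this two_ne_zero
  exact mul_ne_zero (pow_ne_zero _ h2) (pow_ne_zero _ hw)

theorem jac_mul (g a b : ℂ) : jac (g * a) (g * b) = ‖g‖ ^ 2 * jac a b := by
  simp only [jac, nsq, Complex.mul_re, Complex.mul_im]; ring

theorem n2_mul (g a b : ℂ) : n2 (g * a) (g * b) = ‖g‖ ^ 2 * n2 a b := by
  simp only [n2, norm_mul]; ring

theorem KK_mul {g : ℂ} (hg : g ≠ 0) (a b : ℂ) : KK (g * a) (g * b) = KK a b := by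
  have hg' : 0 < ‖g‖ ^ 2 := by positivity
  unfold KK
  rw [jac_mul, n2_mul]
  by_cases h : 0 < jac a b
  · rw [if_pos h, if_pos (mul_pos hg' h), mul_div_mul_left _ _ hg'.ne']
  · rw [if_neg h, if_neg]
    intro h'
    exact h (pos_of_mul_pos_right h' hg'.le)

/-- the pointwise facts, algebraic form: `g² = Ψ` -/
theorem key (hC : SpecCAlg) {p : ℝ} {kf : ℝ → ℝ} (hp : 1 < p) (hk : KF p kf) {a b Ψ g : ℂ}
    (hg : g ^ 2 = Ψ) (hΨ : Ψ ≠ 0) (hj : 0 < jac a b)
    (he : ((KK a b ^ (p - 1) : ℝ) : ℂ) * (a ^ 2 + b ^ 2) = -(jac a b : ℂ) ^ 2 * conj Ψ) :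
    gr (g * a) (g * b) ≠ 0 ∧ gi (g * a) (g * b) = I * Af kf (gr (g * a) (g * b)) := by
  have hg0 : g ≠ 0 := by
    rintro rfl
    exact hΨ (by rw [← hg]; ring)
  refine (hC p kf hp hk (g * a) (g * b)).1.1 ⟨?_, ?_⟩
  · rw [jac_mul]; positivity
  · rw [KK_mul hg0, jac_mul]
    have h1 : ((‖g‖ ^ 2 : ℝ) : ℂ) ^ 2 = Ψ * conj Ψ := by
      rw [Complex.mul_conj, Complex.normSq_eq_norm_sq, ← hg, norm_pow]
      push_cast; ring
    have h2 : (((‖g‖ ^ 2 * jac a b : ℝ) : ℂ)) ^ 2 = Ψ * conj Ψ * (jac a b : ℂ) ^ 2 := by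
      rw [← h1]; push_cast; ring
    rw [h2]
    calc ((KK a b ^ (p - 1) : ℝ) : ℂ) * ((g * a) ^ 2 + (g * b) ^ 2)
        = g ^ 2 * (((KK a b ^ (p - 1) : ℝ) : ℂ) * (a ^ 2 + b ^ 2)) := by ring
      _ = _ := by rw [he, hg]; ring

/-- columns in terms of `X = gr`, `k` -/
theorem cols {kf : ℝ → ℝ} {α β : ℂ} (h : gi α β = I * Af kf (gr α β)) :
    α + I * β = (1 - (kf ‖gr α β‖ : ℂ)) * gr α β ∧
    α - I * β = (1 + (kf ‖gr α β‖ : ℂ)) * conj (gr α β) := by
  set k := kf ‖gr α β‖ with hk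
  have h' : gi α β = I * ((k : ℂ) * gr α β) := h
  have h1 := congrArg Complex.re h'
  have h2 := congrArg Complex.im h'
  simp only [gi, gr, Complex.mul_re, Complex.mul_im, Complex.I_re, Complex.I_im,
    Complex.ofReal_re, Complex.ofReal_im] at h1 h2
  constructor
  · apply Complex.ext
    · simp [gr]; linarith
    · simp [gr]; linarith
  · apply Complex.ext
    · simp [gr]; linarith
    · simp [gr]; linarith

theorem Sz_eq {n : ℕ} {f : ℂ → ℂ} {z g : ℂ} (hg : g ^ 2 = Psn n (f z)) :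
    Sz n f z = conj (gr (g * fderiv ℝ f z 1) (g * fderiv ℝ f z I)) ^ 2 := by
  set a := fderiv ℝ f z 1 with ha
  set b := fderiv ℝ f z I with hb
  have h1 : ((‖Psn n (f z)‖ : ℝ) : ℂ) = g * conj g := by
    rw [← hg, norm_pow, Complex.mul_conj, Complex.normSq_eq_norm_sq]
  have h2 : conj (Psn n (f z)) = conj g ^ 2 := by rw [← hg, map_pow]
  have h4 : ∀ α β : ℂ, conj (gr α β) = (α + conj α) / 2 - I * ((β + conj β) / 2) := by
    intro α β
    rw [Complex.add_conj, Complex.add_conj]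
    apply Complex.ext
    · simp [gr]
    · simp [gr]
  have h5 : conj (g * ((a + I * b) / 2)) = conj g * ((conj a - I * conj b) / 2) := by
    rw [map_mul, map_div₀, map_add, map_mul, Complex.conj_I, map_ofNat]; ring
  have h3 : conj (gr (g * a) (g * b)) = g * ((a - I * b) / 2) + conj (g * ((a + I * b) / 2)) := by
    rw [h4, h5, map_mul, map_mul]; ring
  rw [h3]
  simp only [Sz]
  rw [← ha, ← hb, h1, h2, ← hg, h5]
  have h6 : conj ((a + I * b) / 2) = (conj a - I * conj b) / 2 := by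
    rw [map_div₀, map_add, map_mul, Complex.conj_I, map_ofNat]; ring
  rw [h6]
  ring

end ZAlg

/-- ZALG -/
theorem specZAlg (hC : SpecCAlg) : SpecZAlg := by
  intro p kf hp hk n r f hf z hz
  have hfz := ZAlg.f_ne hf hz
  have hΨ : Psn n (f z) ≠ 0 := ZAlg.Psn_ne hfz
  obtain ⟨g, hg⟩ : ∃ g : ℂ, g ^ 2 = Psn n (f z) := by
    obtain ⟨g, hg⟩ := IsAlgClosed.exists_pow_nat_eq (Psn n (f z)) (n := 2) (by norm_num)
    exact ⟨g, hg⟩
  have hg0 : g ≠ 0 := by
    rintro rfl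
    exact hΨ (by rw [← hg]; ring)
  obtain ⟨hj, he⟩ := hf.eq z hz
  obtain ⟨h1, h2⟩ := ZAlg.key hC hp hk hg hΨ hj he
  have hS := ZAlg.Sz_eq (n := n) (f := f) (z := z) hg
  set a := fderiv ℝ f z 1 with ha
  set b := fderiv ℝ f z I with hb
  set X := gr (g * a) (g * b) with hX
  have hSn : ‖Sz n f z‖ = ‖X‖ ^ 2 := by rw [hS, norm_pow, Complex.norm_conj]
  have hsq : Real.sqrt ‖Sz n f z‖ = ‖X‖ := by rw [hSn, Real.sqrt_sq (norm_nonneg _)]
  rw [hsq]
  set k := kf ‖X‖ with hkk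
  have hk1 : 1 ≤ k := hk.one _ (norm_nonneg _)
  obtain ⟨-, -, h3, h4⟩ := (hC p kf hp hk (g * a) (g * b)).2 h1 h2
  rw [← hX, ← hkk] at h3 h4
  obtain ⟨hc1, hc2⟩ := ZAlg.cols h2
  rw [← hX, ← hkk] at hc1 hc2
  have hg1 : 0 < ‖g‖ := norm_pos_iff.2 hg0
  have e1 : g * a + I * (g * b) = g * (a + I * b) := by ring
  have e2 : g * a - I * (g * b) = g * (a - I * b) := by ring
  rw [e1] at hc1
  rw [e2] at hc2
  rw [e1, e2, norm_mul, norm_mul] at h4
  refine ⟨?_, ?_, ?_, ?_⟩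
  · rw [hSn]
    have : ‖Psn n (f z)‖ * jac a b = k * ‖X‖ ^ 2 := by
      rw [← h3, ZAlg.jac_mul, ← hg, norm_pow]
    rw [this]
    nlinarith [sq_nonneg ‖X‖]
  · have : ‖g‖ * ‖a + I * b‖ ≤ ‖g‖ * ((k ^ 2 - 1) * ‖a - I * b‖) := by linarith
    exact le_of_mul_le_mul_left this hg1
  · have n1 : ‖g‖ * ‖a + I * b‖ = (k - 1) * ‖X‖ := by
      rw [← norm_mul, hc1, norm_mul]
      congr 1
      have : (1 - (k : ℂ)) = ((1 - k : ℝ) : ℂ) := by push_cast; ring
      rw [this, Complex.norm_real, Real.norm_eq_abs, abs_sub_comm, abs_of_nonneg (by linarith)]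
    have n2 : ‖g‖ * ‖a - I * b‖ = (k + 1) * ‖X‖ := by
      rw [← norm_mul, hc2, norm_mul, Complex.norm_conj]
      congr 1
      have : (1 + (k : ℂ)) = ((k + 1 : ℝ) : ℂ) := by push_cast; ring
      rw [this, Complex.norm_real, Real.norm_eq_abs, abs_of_nonneg (by linarith)]
    have hk0 : 0 < k + 1 := by linarith
    refine le_of_mul_le_mul_left (a := ‖g‖) ?_ hg1
    rw [n1]
    have : ‖g‖ * ((k - 1) / (k + 1) * ‖a - I * b‖) = (k - 1) / (k + 1) * (‖g‖ * ‖a - I * b‖) := by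
      ring
    rw [this, n2]
    have : (k - 1) / (k + 1) * ((k + 1) * ‖X‖) = (k - 1) * ‖X‖ := by
      field_simp
    rw [this]
  · have hk0 : 0 < 1 + k := by linarith
    have hk0c : (1 + (k : ℂ)) ≠ 0 := by exact_mod_cast hk0.ne'
    refine ⟨((1 - k) / (1 + k) : ℝ), ?_, ?_, ?_⟩
    · rw [Complex.norm_real, Real.norm_eq_abs, abs_div, abs_of_pos hk0, div_lt_one hk0,
        abs_lt]
      constructor <;> linarith
    · rw [Complex.norm_real, Real.norm_eq_abs, abs_div, abs_of_pos hk0, abs_sub_comm,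
        abs_of_nonneg (by linarith : (0 : ℝ) ≤ k - 1), div_le_iff₀ hk0]
      nlinarith
    · rw [hS, ← hg]
      have : conj X = g * ((a - I * b) / 2) * (1 + (((1 - k) / (1 + k) : ℝ) : ℂ)) := by
        push_cast
        have h5 : g * ((a - I * b) / 2) = (1 + (k : ℂ)) * conj X / 2 := by
          rw [← hc2]; ring
        rw [h5]
        field_simp
        ring
      rw [this]
      ring

end MPfa.Reg
end

section
/-!
Problem MP_fa0334_an, part REG, module ZGROW: a growth bound for `S`.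
-/
set_option autoImplicit false

open MeasureTheory Set Filter Topology Metric Complex
open scoped ContDiff ENNReal ComplexConjugate

namespace MPfa.Reg

namespace ZGrow

/-- the total mass of `|S|` near the zero -/
theorem mass {p : ℝ} {kf : ℝ → ℝ} (hp : 1 < p) (hk : KF p kf) (hA : SpecZAlg) {n : ℕ} {r : ℝ}
    {f : ℂ → ℂ} (hf : Zer p n r f) : ∃ B : ℝ, 0 ≤ B ∧
      ∫⁻ z in pun (r / 2), ‖Sz n f z‖ₑ ≤ ENNReal.ofReal B := by
  have hr := hf.r0
  have hsub : closedBall (0 : ℂ) (r / 2) ⊆ ball 0 r := closedBall_subset_ball (by linarith)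
  obtain ⟨M, hM⟩ := (isCompact_closedBall (0 : ℂ) (r / 2)).exists_bound_of_continuousOn
    (hf.co.mono hsub)
  have hps : pun (r / 2) ⊆ pun r := Base.pun_mono (by linarith)
  have hd : ∀ z ∈ pun (r / 2), HasFDerivWithinAt f (fderiv ℝ f z) (pun (r / 2)) z := by
    intro z hz
    have h1 : ContDiffAt ℝ 1 f z := hf.c1.contDiffAt ((Base.pun_open r).mem_nhds (hps hz))
    exact (h1.differentiableAt one_ne_zero).hasFDerivAt.hasFDerivWithinAt
  have hinj : InjOn f (pun (r / 2)) := hf.inj.mono (hps.trans (Base.pun_sub_ball r))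
  have hcv := lintegral_image_eq_lintegral_abs_det_fderiv_mul volume
    (Base.pun_open (r / 2)).measurableSet hd hinj (fun w => ‖Psn n w‖ₑ)
  have hfin : ∫⁻ w in closedBall (0 : ℂ) M, ‖Psn n w‖ₑ < ⊤ := by
    have hc : Continuous (Psn n) := by unfold Psn; fun_prop
    obtain ⟨D, hD⟩ := (isCompact_closedBall (0 : ℂ) M).exists_bound_of_continuousOn
      hc.continuousOn
    calc ∫⁻ w in closedBall (0 : ℂ) M, ‖Psn n w‖ₑ ≤ ∫⁻ w in closedBall (0 : ℂ) M,
          ENNReal.ofReal D := by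
          refine setLIntegral_mono' measurableSet_closedBall fun w hw => ?_
          rw [← ofReal_norm]
          exact ENNReal.ofReal_le_ofReal (hD w hw)
      _ = ENNReal.ofReal D * volume (closedBall (0 : ℂ) M) := by simp
      _ < ⊤ := ENNReal.mul_lt_top ENNReal.ofReal_lt_top
          (isCompact_closedBall _ _).measure_lt_top
  refine ⟨(∫⁻ w in closedBall (0 : ℂ) M, ‖Psn n w‖ₑ).toReal, ENNReal.toReal_nonneg, ?_⟩
  rw [ENNReal.ofReal_toReal hfin.ne]
  calc ∫⁻ z in pun (r / 2), ‖Sz n f z‖ₑ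
      ≤ ∫⁻ z in pun (r / 2), ENNReal.ofReal |(fderiv ℝ f z).det| * ‖Psn n (f z)‖ₑ := by
        refine setLIntegral_mono' (Base.pun_open _).measurableSet fun z hz => ?_
        have h1 := (hA p kf hp hk n r f hf z (hps hz)).1
        have h2 := (hf.eq z (hps hz)).1
        rw [Chain.det_eq, abs_of_pos h2, ← ofReal_norm, ← ofReal_norm,
          ← ENNReal.ofReal_mul h2.le]
        refine ENNReal.ofReal_le_ofReal ?_
        linarith
    _ = ∫⁻ w in f '' pun (r / 2), ‖Psn n w‖ₑ := hcv.symm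
    _ ≤ ∫⁻ w in closedBall (0 : ℂ) M, ‖Psn n w‖ₑ := by
        refine lintegral_mono_set ?_
        rintro _ ⟨z, hz, rfl⟩
        rw [mem_closedBall_zero_iff]
        refine hM z ?_
        exact ball_subset_closedBall (Base.pun_sub_ball _ hz)

end ZGrow

open ZGrow in
/-- ZGROW -/
theorem specZGrow (hA : SpecZAlg) (hZ : SpecZQR) (hQI : SpecQInv) (hD : SpecDLog)
    (hComp : SpecComp) (hS : SpecSup) : SpecZGrow := by
  intro p kf hp hk n r f hf
  have hr := hf.r0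
  obtain ⟨B, hB0, hB⟩ := mass hp hk hA hf
  obtain ⟨κ, hκ0, hκ1, hκ⟩ := hZ p kf hp hk
  obtain ⟨Sx, Sy, hW, hne, hae⟩ := hκ n r f hf
  set Q : ℝ := 2 * (1 + κ ^ 2) / (1 - κ ^ 2) with hQ
  have hQ0 : 0 < Q := by
    have : 0 < 1 - κ ^ 2 := by nlinarith
    positivity
  have hQR : QR (pun r) Q (Sz n f) Sx Sy := by
    refine ⟨hW, ?_⟩
    filter_upwards [hae] with z hz
    refine specBel (Sx z) (Sy z) κ hκ0 hκ1 (hz.trans ?_)
    exact mul_le_mul_of_nonneg_right (min_le_left _ _) (norm_nonneg _)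
  obtain ⟨C, hC0, hC⟩ := hS Q hQ0
  refine ⟨4 * C * B, r / 4, by linarith, by linarith, fun z hz => ?_⟩
  obtain ⟨hz1, hz2⟩ := Base.mem_pun.1 hz
  have hzn : 0 < ‖z‖ := norm_pos_iff.2 hz2
  have hin : ∀ w ∈ ball z (‖z‖ / 2), 0 < ‖w‖ ∧ ‖w‖ < r / 2 := by
    intro w hw
    rw [mem_ball, dist_eq_norm] at hw
    have e1 : ‖z‖ - ‖w‖ ≤ ‖z - w‖ := norm_sub_norm_le _ _
    have e2 : ‖w‖ - ‖z‖ ≤ ‖w - z‖ := norm_sub_norm_le _ _
    rw [norm_sub_rev] at e1
    constructor <;> linarith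
  have hsub2 : ball z (‖z‖ / 2) ⊆ pun (r / 2) := fun w hw =>
    Base.mem_pun.2 ⟨(hin w hw).2, norm_pos_iff.1 (hin w hw).1⟩
  have hsub : ball z (‖z‖ / 2) ⊆ pun r := hsub2.trans (Base.pun_mono (by linarith))
  obtain ⟨L, hL, hLe⟩ := hD z (‖z‖ / 2) (Sz n f) (hW.co.mono hsub) fun w hw => hne w (hsub hw)
  have hLQ := (hQI _ Q _ _ _ hQ0 (Base.QR_mono hQR isOpen_ball hsub)
    fun w hw => hne w (hsub hw)).2 L hL hLe
  -- the square root
  set G := ball z (‖z‖ / 2) with hG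
  set P : ℂ → ℂ := fun w => Complex.exp (L w / 2) with hP
  have hPQ : QR G Q P (G.indicator fun w => (Complex.exp (L w / 2) / 2) *
      (G.indicator (fun w => Sx w / Sz n f w)) w) (G.indicator fun w =>
      (Complex.exp (L w / 2) / 2) * (G.indicator (fun w => Sy w / Sz n f w)) w) := by
    refine QInv.QR_of (m := fun w => Complex.exp (L w / 2) / 2) hLQ ?_ ?_ ?_
    · exact ((hL.div_const 2).cexp).div_const 2
    · exact (hL.div_const 2).cexp
    · have hder : ∀ w : ℂ, HasDerivAt (fun w : ℂ => Complex.exp (w / 2))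
          (Complex.exp (w / 2) / 2) w := by
        intro w
        have h1 : HasDerivAt (fun w : ℂ => w / 2) (1 / 2) w := (hasDerivAt_id w).div_const 2
        have h2 := h1.cexp
        have h3 : Complex.exp (w / 2) * (1 / 2) = Complex.exp (w / 2) / 2 := by ring
        rwa [h3] at h2
      have hg : ContDiffOn ℝ 1 (fun w : ℂ => Complex.exp (w / 2)) univ := by
        have : ContDiff ℝ 1 (fun w : ℂ => Complex.exp (w / 2)) := by fun_prop
        exact this.contDiffOn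
      have hc := hComp G univ L _ _ (fun w => Complex.exp (w / 2)) isOpen_ball hL hLQ.wp.wd
        isOpen_univ hg (mapsTo_univ _ _)
      have e1 : ∀ w v : ℂ, fderiv ℝ (fun w : ℂ => Complex.exp (w / 2)) w v =
          Complex.exp (w / 2) / 2 * v := by
        intro w v
        rw [((hder w).hasFDerivAt.restrictScalars ℝ).fderiv]
        simp [mul_comm]
      simp only [e1] at hc
      exact hc
  have hPn : ∀ w ∈ G, ‖P w‖ ^ 2 = ‖Sz n f w‖ := by
    intro w hw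
    rw [← norm_pow, hLe w hw, hP]
    simp only
    rw [← Complex.exp_nat_mul]
    congr 2
    push_cast; ring
  have hint : ∫⁻ w in G, ‖P w‖ₑ ^ 2 ≤ ENNReal.ofReal B := by
    refine le_trans ?_ hB
    calc ∫⁻ w in G, ‖P w‖ₑ ^ 2 = ∫⁻ w in G, ‖Sz n f w‖ₑ := by
          refine setLIntegral_congr_fun measurableSet_ball fun w hw => ?_
          rw [← ofReal_norm, ← ofReal_norm, ← hPn w hw,
            ENNReal.ofReal_pow (norm_nonneg _)]
      _ ≤ ∫⁻ w in pun (r / 2), ‖Sz n f w‖ₑ := lintegral_mono_set hsub2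
  have hR : 0 < ‖z‖ / 2 := by linarith
  have hfin := hC z (‖z‖ / 2) P _ _ B hR hPQ hB0 hint z (mem_closedBall_self (by linarith))
  rw [hPn z (mem_ball_self hR)] at hfin
  have h4 : C / (‖z‖ / 2) ^ 2 * B * ‖z‖ ^ 2 = 4 * C * B := by
    field_simp
    ring
  calc ‖Sz n f z‖ * ‖z‖ ^ 2 ≤ (C / (‖z‖ / 2) ^ 2 * B) * ‖z‖ ^ 2 :=
        mul_le_mul_of_nonneg_right hfin (by positivity)
    _ = 4 * C * B := h4

end MPfa.Reg
end
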