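import Pool.Agent.Lib.MP_fa0334_an.RegSpec

/-!
Problem MP_fa0334_an, part REG, modules ZLOGX, ZLOGF, ZLOGS.
-/

set_option autoImplicit false

open MeasureTheory Set Filter Topology Metric Complex
open scoped ContDiff ENNReal ComplexConjugate

namespace MPfa.Reg

namespace ZLogM

/-- the difference quotient, extended by the derivative -/
noncomputable def K (f u : ℂ → ℂ) (q : ℝ × ℂ) : ℂ :=
  if q.1 = 0 then fderiv ℝ f q.2 (u q.2) else (f (q.2 + q.1 * u q.2) - f q.2) / q.1

lemma K_cont_zero {f u : ℂ → ℂ} {z₀ : ℂ} (hf : ContDiffAt ℝ 1 f z₀) (hu : ContinuousAt u z₀) :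
    ContinuousAt (K f u) (0, z₀) := by
  have hK0 : K f u (0, z₀) = fderiv ℝ f z₀ (u z₀) := by simp [K]
  have hst : HasStrictFDerivAt f (fderiv ℝ f z₀) z₀ := hf.hasStrictFDerivAt one_ne_zero
  have hfd : ContinuousAt (fderiv ℝ f) z₀ := (hf.fderiv_right (m := 0) le_rfl).continuousAt
  rw [ContinuousAt, hK0, Metric.tendsto_nhds]
  intro ε hε
  set C : ℝ := ‖u z₀‖ + 1 with hC
  have hC0 : 0 < C := by positivity
  set η : ℝ := ε / (2 * C) with hη
  have hη0 : 0 < η := by positivity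
  -- `u` is bounded and the linear part is continuous
  have e1 : ∀ᶠ q : ℝ × ℂ in 𝓝 (0, z₀), ‖u q.2‖ < C := by
    have : ContinuousAt (fun q : ℝ × ℂ => ‖u q.2‖) (0, z₀) :=
      (ContinuousAt.comp (f := fun q : ℝ × ℂ => q.2) (x := ((0 : ℝ), z₀)) hu continuousAt_snd).norm
    exact this.eventually_lt_const (by simp [hC])
  have e2 : ∀ᶠ q : ℝ × ℂ in 𝓝 (0, z₀), ‖fderiv ℝ f z₀ (u q.2) - fderiv ℝ f z₀ (u z₀)‖ < ε / 2 := by
    have : ContinuousAt (fun q : ℝ × ℂ => fderiv ℝ f z₀ (u q.2) - fderiv ℝ f z₀ (u z₀)) (0, z₀) := by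
      have h1 : ContinuousAt (fun q : ℝ × ℂ => u q.2) (0, z₀) :=
        ContinuousAt.comp (f := fun q : ℝ × ℂ => q.2) (x := ((0 : ℝ), z₀)) hu continuousAt_snd
      exact (((fderiv ℝ f z₀).continuous.continuousAt).comp h1).sub continuousAt_const
    exact this.norm.eventually_lt_const (by simpa using half_pos hε)
  have e3 : ∀ᶠ q : ℝ × ℂ in 𝓝 (0, z₀), ‖fderiv ℝ f q.2 - fderiv ℝ f z₀‖ < η := by
    have : ContinuousAt (fun q : ℝ × ℂ => fderiv ℝ f q.2 - fderiv ℝ f z₀) (0, z₀) :=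
      (ContinuousAt.comp (f := fun q : ℝ × ℂ => q.2) (x := ((0 : ℝ), z₀)) hfd continuousAt_snd).sub continuousAt_const
    exact this.norm.eventually_lt_const (by simpa using hη0)
  have e4 : ∀ᶠ q : ℝ × ℂ in 𝓝 (0, z₀), ‖f (q.2 + q.1 * u q.2) - f q.2 - fderiv ℝ f z₀ ((q.2 + q.1 * u q.2) - q.2)‖ ≤
      η * ‖(q.2 + q.1 * u q.2) - q.2‖ := by
    have h1 := hst.isLittleO.def hη0
    have h2 : ContinuousAt (fun q : ℝ × ℂ => ((q.2 + q.1 * u q.2), q.2)) (0, z₀) := by
      have h3 : ContinuousAt (fun q : ℝ × ℂ => u q.2) (0, z₀) :=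
        ContinuousAt.comp (f := fun q : ℝ × ℂ => q.2) (x := ((0 : ℝ), z₀)) hu continuousAt_snd
      have h4 : ContinuousAt (fun q : ℝ × ℂ => ((q.1 : ℝ) : ℂ)) (0, z₀) := by fun_prop
      exact (continuousAt_snd.add (h4.mul h3)).prodMk continuousAt_snd
    have h3 : Tendsto (fun q : ℝ × ℂ => ((q.2 + q.1 * u q.2), q.2)) (𝓝 (0, z₀)) (𝓝 (z₀, z₀)) := by
      simpa [ContinuousAt] using h2
    exact h3.eventually h1
  filter_upwards [e1, e2, e3, e4] with q h1 h2 h3 h4
  rw [dist_eq_norm]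
  have hηC : η * C = ε / 2 := by
    rw [hη]
    field_simp
  by_cases hq : q.1 = 0
  · simp only [K, hq, if_true]
    have h5 : fderiv ℝ f q.2 (u q.2) - fderiv ℝ f z₀ (u z₀) =
        (fderiv ℝ f q.2 - fderiv ℝ f z₀) (u q.2) + (fderiv ℝ f z₀ (u q.2) - fderiv ℝ f z₀ (u z₀)) := by
      rw [sub_apply]
      ring
    rw [h5]
    calc ‖(fderiv ℝ f q.2 - fderiv ℝ f z₀) (u q.2) + (fderiv ℝ f z₀ (u q.2) - fderiv ℝ f z₀ (u z₀))‖
        ≤ ‖(fderiv ℝ f q.2 - fderiv ℝ f z₀) (u q.2)‖ + ‖fderiv ℝ f z₀ (u q.2) - fderiv ℝ f z₀ (u z₀)‖ := norm_add_le _ _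
      _ ≤ ‖fderiv ℝ f q.2 - fderiv ℝ f z₀‖ * ‖u q.2‖ + ‖fderiv ℝ f z₀ (u q.2) - fderiv ℝ f z₀ (u z₀)‖ := by
          gcongr
          exact ContinuousLinearMap.le_opNorm _ _
      _ ≤ η * C + ‖fderiv ℝ f z₀ (u q.2) - fderiv ℝ f z₀ (u z₀)‖ := by gcongr
      _ < ε := by rw [hηC]; linarith
  · simp only [K, hq, if_false]
    have hqc : (q.1 : ℂ) ≠ 0 := by exact_mod_cast hq
    have hqn : 0 < |q.1| := abs_pos.mpr hq
    have h5 : (f (q.2 + q.1 * u q.2) - f q.2) / (q.1 : ℂ) - fderiv ℝ f z₀ (u z₀) =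
        (f (q.2 + q.1 * u q.2) - f q.2 - fderiv ℝ f z₀ ((q.2 + q.1 * u q.2) - q.2)) / (q.1 : ℂ) +
          (fderiv ℝ f z₀ (u q.2) - fderiv ℝ f z₀ (u z₀)) := by
      have h6 : fderiv ℝ f z₀ ((q.2 + q.1 * u q.2) - q.2) = (q.1 : ℂ) * fderiv ℝ f z₀ (u q.2) := by
        rw [add_sub_cancel_left]
        have : (q.1 : ℂ) * u q.2 = q.1 • u q.2 := by rw [Complex.real_smul]
        rw [this, map_smul, Complex.real_smul]
      rw [h6]
      field_simp
      ring
    rw [h5]
    calc ‖(f (q.2 + q.1 * u q.2) - f q.2 - fderiv ℝ f z₀ ((q.2 + q.1 * u q.2) - q.2)) / (q.1 : ℂ) +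
          (fderiv ℝ f z₀ (u q.2) - fderiv ℝ f z₀ (u z₀))‖
        ≤ ‖(f (q.2 + q.1 * u q.2) - f q.2 - fderiv ℝ f z₀ ((q.2 + q.1 * u q.2) - q.2)) / (q.1 : ℂ)‖ +
          ‖fderiv ℝ f z₀ (u q.2) - fderiv ℝ f z₀ (u z₀)‖ := norm_add_le _ _
      _ ≤ η * C + ‖fderiv ℝ f z₀ (u q.2) - fderiv ℝ f z₀ (u z₀)‖ := by
          gcongr
          rw [norm_div, Complex.norm_real, Real.norm_eq_abs, div_le_iff₀ hqn]
          refine h4.trans ?_
          rw [add_sub_cancel_left, norm_mul, Complex.norm_real, Real.norm_eq_abs]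
          calc η * (|q.1| * ‖u q.2‖) ≤ η * (|q.1| * C) := by gcongr
            _ = η * C * |q.1| := by ring
      _ < ε := by rw [hηC]; linarith

lemma K_cont_ne {f u : ℂ → ℂ} {z₀ : ℂ} {t₀ : ℝ} (ht : t₀ ≠ 0) (hf : ContinuousAt f z₀)
    (hf' : ContinuousAt f (z₀ + t₀ * u z₀)) (hu : ContinuousAt u z₀) :
    ContinuousAt (K f u) (t₀, z₀) := by
  have h0 : (fun q : ℝ × ℂ => (f (q.2 + q.1 * u q.2) - f q.2) / (q.1 : ℂ)) =ᶠ[𝓝 (t₀, z₀)] K f u := by
    have : ∀ᶠ q : ℝ × ℂ in 𝓝 (t₀, z₀), q.1 ≠ 0 := by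
      have : ContinuousAt (fun q : ℝ × ℂ => q.1) (t₀, z₀) := continuousAt_fst
      exact this.eventually_ne ht
    filter_upwards [this] with q hq
    simp [K, hq]
  refine ContinuousAt.congr ?_ h0
  have h3 : ContinuousAt (fun q : ℝ × ℂ => u q.2) (t₀, z₀) :=
    ContinuousAt.comp (f := fun q : ℝ × ℂ => q.2) (x := (t₀, z₀)) hu continuousAt_snd
  have h4 : ContinuousAt (fun q : ℝ × ℂ => ((q.1 : ℝ) : ℂ)) (t₀, z₀) := by fun_prop
  have h5 : ContinuousAt (fun q : ℝ × ℂ => q.2 + q.1 * u q.2) (t₀, z₀) :=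
    continuousAt_snd.add (h4.mul h3)
  have h6 : ContinuousAt (fun q : ℝ × ℂ => f (q.2 + q.1 * u q.2)) (t₀, z₀) :=
    ContinuousAt.comp (f := fun q : ℝ × ℂ => q.2 + q.1 * u q.2) (x := (t₀, z₀)) hf' h5
  have h7 : ContinuousAt (fun q : ℝ × ℂ => f q.2) (t₀, z₀) :=
    ContinuousAt.comp (f := fun q : ℝ × ℂ => q.2) (x := (t₀, z₀)) hf continuousAt_snd
  exact (h6.sub h7).div h4 (by exact_mod_cast ht)

lemma pun_open (r : ℝ) : IsOpen (pun r) := isOpen_ball.sdiff isClosed_singleton

lemma zer_at {p : ℝ} {n : ℕ} {r : ℝ} {f : ℂ → ℂ} (h : Zer p n r f) {z : ℂ} (hz : z ∈ pun r) :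
    ContDiffAt ℝ 1 f z := h.c1.contDiffAt ((pun_open r).mem_nhds hz)

lemma zer_fx {p : ℝ} {n : ℕ} {r : ℝ} {f : ℂ → ℂ} (h : Zer p n r f) {z : ℂ} (hz : z ∈ pun r) :
    fderiv ℝ f z 1 ≠ 0 := by
  intro h0
  have := (h.eq z hz).1
  rw [h0] at this
  simp [jac] at this

lemma fd_apply (f : ℂ → ℂ) (z v : ℂ) :
    fderiv ℝ f z v = v.re * fderiv ℝ f z 1 + v.im * fderiv ℝ f z I := by
  have hv : v = v.re • (1 : ℂ) + v.im • I := by
    apply Complex.ext <;> simp
  conv_lhs => rw [hv]
  rw [map_add, map_smul, map_smul, Complex.real_smul, Complex.real_smul]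

lemma cont_fd {p : ℝ} {n : ℕ} {r : ℝ} {f : ℂ → ℂ} (h : Zer p n r f) (v : ℂ) :
    ContinuousOn (fun z => fderiv ℝ f z v) (pun r) := by
  intro z hz
  have h1 : ContinuousAt (fderiv ℝ f) z := ((zer_at h hz).fderiv_right (m := 0) le_rfl).continuousAt
  exact (h1.clm_apply continuousAt_const).continuousWithinAt

lemma conj_half (x y : ℂ) : conj ((x + I * y) / 2) = (conj x - I * conj y) / 2 := by
  rw [map_div₀, map_add, map_mul, Complex.conj_I, map_ofNat]
  ring

end ZLogM

open ZLogM in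
theorem specZLogX (hH : SpecHLift) (hD : SpecDLog) : SpecZLogX := by
  intro p n r f hp h
  have hr := h.r0
  set ρ : ℝ := r / 4 with hρ
  have hρ0 : 0 < ρ := by positivity
  have hadd : ∀ t ∈ Icc (0 : ℝ) 1, ∀ z ∈ ball (0 : ℂ) (r / 2), z + (t : ℂ) * (ρ : ℂ) ∈ ball (0 : ℂ) r := by
    intro t ht z hz
    rw [mem_ball_zero_iff] at hz ⊢
    calc ‖z + (t : ℂ) * (ρ : ℂ)‖ ≤ ‖z‖ + ‖(t : ℂ) * (ρ : ℂ)‖ := norm_add_le _ _
      _ = ‖z‖ + t * ρ := by
          rw [norm_mul, Complex.norm_real, Complex.norm_real, Real.norm_of_nonneg ht.1, Real.norm_of_nonneg hρ0.le]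
      _ < r := by nlinarith [ht.2, ht.1]
  have hsub : ball (0 : ℂ) (r / 2) ⊆ ball 0 r := ball_subset_ball (by linarith)
  have hpsub : pun (r / 2) ⊆ pun r := sdiff_subset_sdiff_left hsub
  have hfc : ∀ z ∈ ball (0 : ℂ) r, ContinuousAt f z := fun z hz => h.co.continuousAt (isOpen_ball.mem_nhds hz)
  obtain ⟨l₀, hl₀c, hl₀⟩ := hD 0 (r / 2) (fun z => f (z + (ρ : ℂ)) - f z)
    (by
      intro z hz
      have h1 : z + (ρ : ℂ) ∈ ball (0 : ℂ) r := by simpa using hadd 1 ⟨zero_le_one, le_rfl⟩ z hz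
      have h2 : ContinuousAt (fun z => f (z + (ρ : ℂ))) z :=
        ContinuousAt.comp (f := fun z : ℂ => z + (ρ : ℂ)) (hfc _ h1) (by fun_prop)
      exact (h2.sub (hfc z (hsub hz))).continuousWithinAt)
    (by
      intro z hz h0
      have h1 : z + (ρ : ℂ) ∈ ball (0 : ℂ) r := by simpa using hadd 1 ⟨zero_le_one, le_rfl⟩ z hz
      have h2 := h.inj h1 (hsub hz) (sub_eq_zero.mp h0)
      have : (ρ : ℂ) = 0 := by simpa using h2
      exact hρ0.ne' (by exact_mod_cast this))
  obtain ⟨l₁, hl₁c, hl₁⟩ := hH (pun (r / 2)) (fun q => K f (fun _ => (ρ : ℂ)) (1 - q.1, q.2))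
    (by
      intro q hq
      have hq2 : q.2 ∈ ball (0 : ℂ) (r / 2) := hq.2.1
      have h1 : ContinuousAt (K f (fun _ => (ρ : ℂ))) (1 - q.1, q.2) := by
        by_cases h0 : 1 - q.1 = 0
        · rw [h0]
          exact K_cont_zero (zer_at h (hpsub hq.2)) continuousAt_const
        · refine K_cont_ne h0 (hfc _ (hsub hq2)) (hfc _ ?_) continuousAt_const
          exact hadd (1 - q.1) ⟨by linarith [hq.1.2], by linarith [hq.1.1]⟩ q.2 hq2
      have h2 : ContinuousAt (fun q : ℝ × ℂ => (1 - q.1, q.2)) q := by fun_prop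
      exact (ContinuousAt.comp (f := fun q : ℝ × ℂ => (1 - q.1, q.2)) h1 h2).continuousWithinAt)
    (by
      intro q hq h0
      have hq2 : q.2 ∈ ball (0 : ℂ) (r / 2) := hq.2.1
      have ht : 1 - q.1 ∈ Icc (0 : ℝ) 1 := ⟨by linarith [hq.1.2], by linarith [hq.1.1]⟩
      by_cases h1 : 1 - q.1 = 0
      · simp only [K, h1, if_true] at h0
        rw [fd_apply] at h0
        simp only [Complex.ofReal_re, Complex.ofReal_im, Complex.ofReal_zero, zero_mul, add_zero] at h0
        rcases mul_eq_zero.mp h0 with h2 | h2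
        · exact hρ0.ne' (by exact_mod_cast h2)
        · exact zer_fx h (hpsub hq.2) h2
      · simp only [K, h1, if_false] at h0
        have h1c : (((1 - q.1 : ℝ)) : ℂ) ≠ 0 := by exact_mod_cast h1
        have h2 := (div_eq_zero_iff.mp h0).resolve_right h1c
        have h3 := h.inj (hadd _ ht q.2 hq2) (hsub hq2) (sub_eq_zero.mp h2)
        have h4 : (((1 - q.1 : ℝ)) : ℂ) * (ρ : ℂ) = 0 := by simpa using h3
        rcases mul_eq_zero.mp h4 with h5 | h5
        · exact h1c h5
        · exact hρ0.ne' (by exact_mod_cast h5))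
    ⟨l₀, hl₀c.mono sdiff_subset, by
      intro z hz
      rw [← hl₀ z hz.1]
      simp [K]⟩
  refine ⟨r / 2, fun z => l₁ z - Complex.log ρ, by positivity, by linarith, hl₁c.sub continuousOn_const, ?_⟩
  intro z hz
  have h1 := hl₁ z hz
  have hρc : (ρ : ℂ) ≠ 0 := by exact_mod_cast hρ0.ne'
  rw [Complex.exp_sub, Complex.exp_log hρc, ← h1]
  simp only [K, sub_self, if_true]
  rw [fd_apply f z (ρ : ℂ)]
  simp only [Complex.ofReal_re, Complex.ofReal_im, Complex.ofReal_zero, zero_mul, add_zero]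
  field_simp

open ZLogM in
theorem specZLogF (hH : SpecHLift) (hX : SpecZLogX) : SpecZLogF := by
  intro p n r f hp h
  obtain ⟨r₁, l₀, hr₁, hr₁r, hl₀c, hl₀⟩ := hX p n r f hp h
  have hsub : ball (0 : ℂ) r₁ ⊆ ball 0 r := ball_subset_ball hr₁r
  have hpsub : pun r₁ ⊆ pun r := sdiff_subset_sdiff_left hsub
  have hfc : ∀ z ∈ ball (0 : ℂ) r, ContinuousAt f z := fun z hz => h.co.continuousAt (isOpen_ball.mem_nhds hz)
  have hne0 : ∀ z ∈ pun r₁, z ≠ 0 := fun z hz => hz.2
  -- first homotopy: from `z f_x` to `Df(z) z`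
  obtain ⟨l₁, hl₁c, hl₁⟩ := hH (pun r₁) (fun q => ((q.2.re : ℂ) * fderiv ℝ f q.2 1 +
      (q.2.im : ℂ) * (((1 - q.1 : ℝ) : ℂ) * (I * fderiv ℝ f q.2 1) + (q.1 : ℂ) * fderiv ℝ f q.2 I)) / q.2)
    (by
      have c1 : ContinuousOn (fun q : ℝ × ℂ => fderiv ℝ f q.2 1) (Icc (0 : ℝ) 1 ×ˢ pun r₁) :=
        (cont_fd h 1).comp continuousOn_snd (fun q hq => hpsub hq.2)
      have c2 : ContinuousOn (fun q : ℝ × ℂ => fderiv ℝ f q.2 I) (Icc (0 : ℝ) 1 ×ˢ pun r₁) :=
        (cont_fd h I).comp continuousOn_snd (fun q hq => hpsub hq.2)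
      refine ContinuousOn.div ?_ continuousOn_snd (fun q hq => hne0 _ hq.2)
      refine ContinuousOn.add (ContinuousOn.mul (by fun_prop) c1) ?_
      refine ContinuousOn.mul (by fun_prop) (ContinuousOn.add ?_ ?_)
      · exact ContinuousOn.mul (by fun_prop) (continuousOn_const.mul c1)
      · exact ContinuousOn.mul (by fun_prop) c2)
    (by
      intro q hq h0
      have hz := hq.2
      have h1 := (div_eq_zero_iff.mp h0).resolve_right (hne0 _ hz)
      obtain ⟨hj, -⟩ := h.eq q.2 (hpsub hz)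
      have hfx := zer_fx h (hpsub hz)
      set a := fderiv ℝ f q.2 1 with ha
      set b := fderiv ℝ f q.2 I with hb
      set x := q.2.re with hx
      set y := q.2.im with hy
      have hre := congrArg Complex.re h1
      have him := congrArg Complex.im h1
      simp at hre him
      -- the determinant of the columns
      have hj' : 0 < (1 - q.1) * (a.re ^ 2 + a.im ^ 2) + q.1 * jac a b := by
        have hn : 0 < a.re ^ 2 + a.im ^ 2 := by
          have := Complex.normSq_pos.mpr hfx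
          rw [Complex.normSq_apply] at this
          nlinarith
        rcases eq_or_lt_of_le hq.1.1 with h2 | h2
        · rw [← h2]; simpa using hn
        · have h3 : 0 ≤ (1 - q.1) * (a.re ^ 2 + a.im ^ 2) := mul_nonneg (by linarith [hq.1.2]) hn.le
          have h4 : 0 < q.1 * jac a b := mul_pos h2 hj
          linarith
      have hy0 : y * ((1 - q.1) * (a.re ^ 2 + a.im ^ 2) + q.1 * jac a b) = 0 := by
        simp only [jac]
        linear_combination a.re * him - a.im * hre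
      have hy' : y = 0 := by
        rcases mul_eq_zero.mp hy0 with h2 | h2
        · exact h2
        · exact absurd h2 hj'.ne'
      rw [hy'] at hre him
      simp at hre him
      have hx' : x = 0 := by
        by_contra hx0
        apply hfx
        apply Complex.ext
        · simpa [hx0] using hre
        · simpa [hx0] using him
      apply hne0 _ hz
      apply Complex.ext
      · simpa using hx'
      · simpa using hy')
    ⟨l₀, hl₀c, by
      intro z hz
      rw [← hl₀ z hz]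
      have hz0 := hne0 z hz
      simp only [sub_zero, Complex.ofReal_one, one_mul, Complex.ofReal_zero, zero_mul, add_zero]
      rw [div_eq_iff hz0]
      linear_combination (fderiv ℝ f z 1) * (Complex.re_add_im z)⟩
  -- second homotopy: from `Df(z) z` to `f z`
  obtain ⟨l₂, hl₂c, hl₂⟩ := hH (pun r₁) (fun q => -(K f (fun z => -z) q) / q.2)
    (by
      intro q hq
      have hq2 : q.2 ∈ ball (0 : ℂ) r₁ := hq.2.1
      have h1 : ContinuousAt (K f (fun z => -z)) q := by
        obtain ⟨t, z⟩ := q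
        by_cases h0 : t = 0
        · rw [h0]
          exact K_cont_zero (zer_at h (hpsub hq.2)) continuousAt_neg
        · refine K_cont_ne h0 (hfc _ (hsub hq2)) (hfc _ ?_) continuousAt_neg
          have : z + (t : ℂ) * -z = ((1 - t : ℝ) : ℂ) * z := by push_cast; ring
          rw [this, mem_ball_zero_iff, norm_mul, Complex.norm_real, Real.norm_of_nonneg (by linarith [hq.1.2])]
          have h2 : ‖z‖ < r₁ := by simpa using hq2
          have h3 : 0 ≤ ‖z‖ := norm_nonneg _
          nlinarith [hq.1.1, hq.1.2]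
      exact (h1.neg.div continuousAt_snd (hne0 _ hq.2)).continuousWithinAt)
    (by
      intro q hq h0
      have hz := hq.2
      have h1 := neg_eq_zero.mp ((div_eq_zero_iff.mp h0).resolve_right (hne0 _ hz))
      by_cases ht : q.1 = 0
      · have h2 := h.eq q.2 (hpsub hz)
        simp only [K, ht, if_true] at h1
        rw [fd_apply] at h1
        obtain ⟨hj, -⟩ := h2
        have hfx := zer_fx h (hpsub hz)
        set a := fderiv ℝ f q.2 1 with ha
        set b := fderiv ℝ f q.2 I with hb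
        have hre := congrArg Complex.re h1
        have him := congrArg Complex.im h1
        simp at hre him
        have hy0 : q.2.im * jac a b = 0 := by
          simp only [jac]
          linear_combination a.im * hre - a.re * him
        have hx0 : q.2.re * jac a b = 0 := by
          simp only [jac]
          linear_combination b.re * him - b.im * hre
        apply hne0 _ hz
        apply Complex.ext
        · simpa [hj.ne'] using hx0
        · simpa [hj.ne'] using hy0
      · simp only [K, ht, if_false] at h1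
        have htc : (q.1 : ℂ) ≠ 0 := by exact_mod_cast ht
        have h2 := (div_eq_zero_iff.mp h1).resolve_right htc
        have h3 : q.2 + (q.1 : ℂ) * -q.2 ∈ ball (0 : ℂ) r := by
          have : q.2 + (q.1 : ℂ) * -q.2 = ((1 - q.1 : ℝ) : ℂ) * q.2 := by push_cast; ring
          rw [this, mem_ball_zero_iff, norm_mul, Complex.norm_real, Real.norm_of_nonneg (by linarith [hq.1.2])]
          have h2 : ‖q.2‖ < r₁ := by simpa using hz.1
          have h3 : 0 ≤ ‖q.2‖ := norm_nonneg _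
          nlinarith [hq.1.1, hq.1.2]
        have h4 := h.inj h3 (hsub hz.1) (sub_eq_zero.mp h2)
        have h5 : (q.1 : ℂ) * -q.2 = 0 := by simpa using h4
        rcases mul_eq_zero.mp h5 with h6 | h6
        · exact htc h6
        · exact hne0 _ hz (neg_eq_zero.mp h6))
    ⟨l₁, hl₁c, by
      intro z hz
      rw [← hl₁ z hz]
      simp only [K, if_true, sub_self, Complex.ofReal_zero, zero_mul, zero_add, Complex.ofReal_one, one_mul]
      rw [fd_apply]
      simp only [Complex.neg_re, Complex.neg_im, Complex.ofReal_neg]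
      ring⟩
  refine ⟨r₁, l₂, hr₁, hr₁r, hl₂c, ?_⟩
  intro z hz
  have h1 := hl₂ z hz
  rw [← h1]
  have hz0 := hne0 z hz
  simp only [K, one_ne_zero, if_false, Complex.ofReal_one, one_mul, add_neg_cancel, h.z0, div_one, zero_sub, neg_neg]
  field_simp

open ZLogM in
theorem specZLogS (hH : SpecHLift) (hF : SpecZLogF) (hX : SpecZLogX) (hC : SpecCAlg) :
    SpecZLogS := by
  intro p kf hp hkf n r f h
  obtain ⟨rx, lx', hrx, hrxr, hlxc, hlx⟩ := hX p n r f hp h
  obtain ⟨rf, lf, hrf, hrfr, hlfc, hlf⟩ := hF p n r f hp h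
  set r₁ : ℝ := min rx rf with hr₁
  have hr₁0 : 0 < r₁ := lt_min hrx hrf
  have hr₁r : r₁ ≤ r := (min_le_left _ _).trans hrxr
  have hpx : pun r₁ ⊆ pun rx := sdiff_subset_sdiff_left (ball_subset_ball (min_le_left _ _))
  have hpf : pun r₁ ⊆ pun rf := sdiff_subset_sdiff_left (ball_subset_ball (min_le_right _ _))
  have hpr : pun r₁ ⊆ pun r := sdiff_subset_sdiff_left (ball_subset_ball hr₁r)
  have hne0 : ∀ z ∈ pun r₁, z ≠ 0 := fun z hz => hz.2
  have hn2 : ((n : ℂ) + 2) / 2 ≠ 0 := by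
    have : ((n + 2 : ℕ) : ℂ) ≠ 0 := by exact_mod_cast (Nat.succ_ne_zero (n + 1))
    push_cast at this
    exact div_ne_zero this two_ne_zero
  -- the homotopy, from `t = 0` (`Ψ f_x²`) to `t = 1` (`S`)
  set Ha : ℝ × ℂ → ℂ := fun q =>
    (q.1 : ℂ) ^ 2 * Sz n f q.2 + 2 * ((1 - q.1 : ℝ) : ℂ) * (q.1 : ℂ) *
      (Psn n (f q.2) * ((fderiv ℝ f q.2 1 - I * fderiv ℝ f q.2 I) / 2) * fderiv ℝ f q.2 1 +
        (‖Psn n (f q.2)‖ : ℂ) * conj ((fderiv ℝ f q.2 1 + I * fderiv ℝ f q.2 I) / 2) * fderiv ℝ f q.2 1) +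
      ((1 - q.1 : ℝ) : ℂ) ^ 2 * (Psn n (f q.2) * fderiv ℝ f q.2 1 ^ 2) with hHa
  obtain ⟨l₁, hl₁c, hl₁⟩ := hH (pun r₁) (fun q => Ha q / q.2 ^ n)
    (by
      have c1 : ContinuousOn (fun z : ℂ => fderiv ℝ f z 1) (pun r₁) := (cont_fd h 1).mono hpr
      have c2 : ContinuousOn (fun z : ℂ => fderiv ℝ f z I) (pun r₁) := (cont_fd h I).mono hpr
      have c3 : ContinuousOn f (pun r₁) := h.co.mono (fun z hz => (hpr hz).1)
      have c4 : ContinuousOn (fun z => Psn n (f z)) (pun r₁) := by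
        unfold Psn
        exact continuousOn_const.mul (c3.pow n)
      have c5 : ContinuousOn (fun z => ((fderiv ℝ f z 1 - I * fderiv ℝ f z I) / 2)) (pun r₁) :=
        (c1.sub (continuousOn_const.mul c2)).div_const _
      have c6 : ContinuousOn (fun z => ((fderiv ℝ f z 1 + I * fderiv ℝ f z I) / 2)) (pun r₁) :=
        (c1.add (continuousOn_const.mul c2)).div_const _
      have c6' : ContinuousOn (fun z => conj ((fderiv ℝ f z 1 + I * fderiv ℝ f z I) / 2)) (pun r₁) :=
        Complex.continuous_conj.comp_continuousOn c6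
      have c4' : ContinuousOn (fun z => conj (Psn n (f z))) (pun r₁) :=
        Complex.continuous_conj.comp_continuousOn c4
      have c4n : ContinuousOn (fun z => ((‖Psn n (f z)‖ : ℝ) : ℂ)) (pun r₁) :=
        Complex.continuous_ofReal.comp_continuousOn c4.norm
      have c7 : ContinuousOn (Sz n f) (pun r₁) := by
        unfold Sz
        exact ((c4.mul (c5.pow 2)).add (((continuousOn_const.mul c4n).mul c5).mul c6')).add (c4'.mul (c6'.pow 2))
      have cs : ∀ {φ : ℂ → ℂ}, ContinuousOn φ (pun r₁) →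
          ContinuousOn (fun q : ℝ × ℂ => φ q.2) (Icc (0 : ℝ) 1 ×ˢ pun r₁) :=
        fun hφ => hφ.comp continuousOn_snd (fun q hq => hq.2)
      refine ContinuousOn.div ?_ (continuousOn_snd.pow n) (fun q hq => pow_ne_zero n (hne0 _ hq.2))
      simp only [hHa]
      refine ContinuousOn.add (ContinuousOn.add ?_ ?_) ?_
      · exact ContinuousOn.mul (by fun_prop) (cs c7)
      · refine ContinuousOn.mul (by fun_prop) ?_
        exact (cs ((c4.mul c5).mul c1)).add (cs ((c4n.mul c6').mul c1))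
      · exact ContinuousOn.mul (by fun_prop) (cs (c4.mul (c1.pow 2))))
    (by
      intro q hq h0
      have hz := hpr hq.2
      have h1 := (div_eq_zero_iff.mp h0).resolve_right (pow_ne_zero n (hne0 _ hq.2))
      obtain ⟨hj, heq⟩ := h.eq q.2 hz
      have hfz : f q.2 ≠ 0 := by
        intro h2
        have : f q.2 = f 0 := by rw [h2, h.z0]
        exact hz.2 (h.inj hz.1 (mem_ball_self h.r0) this)
      have hΨ : Psn n (f q.2) ≠ 0 := mul_ne_zero (pow_ne_zero 2 hn2) (pow_ne_zero n hfz)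
      obtain ⟨g, hg⟩ : ∃ g : ℂ, g ^ 2 = Psn n (f q.2) := ⟨_, Complex.cpow_nat_inv_pow _ two_ne_zero⟩
      have hg0 : g ≠ 0 := by
        intro h2
        rw [h2] at hg
        exact hΨ (by rw [← hg]; ring)
      set a := fderiv ℝ f q.2 1 with ha
      set b := fderiv ℝ f q.2 I with hb
      set α := g * a with hα
      set β := g * b with hβ
      have hgn : 0 < ‖g‖ ^ 2 := by have := norm_pos_iff.mpr hg0; positivity
      have hgsq : g.re ^ 2 + g.im ^ 2 = ‖g‖ ^ 2 := by
        rw [← Complex.normSq_eq_norm_sq, Complex.normSq_apply]; ring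
      have hjac : jac α β = ‖g‖ ^ 2 * jac a b := by
        simp only [hα, hβ, jac, Complex.mul_re, Complex.mul_im]
        rw [← hgsq]
        ring
      have hn2' : n2 α β = ‖g‖ ^ 2 * n2 a b := by
        simp only [hα, hβ, n2, norm_mul]
        ring
      have hKK : KK α β = KK a b := by
        unfold KK
        rw [if_pos hj, if_pos (by rw [hjac]; positivity), hjac, hn2']
        field_simp
      have hΨn : ‖Psn n (f q.2)‖ = ‖g‖ ^ 2 := by rw [← hg, norm_pow]
      have hrel : 0 < jac α β ∧ ((KK α β ^ (p - 1) : ℝ) : ℂ) * (α ^ 2 + β ^ 2) = -(jac α β : ℂ) ^ 2 := by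
        refine ⟨by rw [hjac]; positivity, ?_⟩
        rw [hKK, hjac]
        have e1 : α ^ 2 + β ^ 2 = Psn n (f q.2) * (a ^ 2 + b ^ 2) := by rw [← hg]; simp only [hα, hβ]; ring
        have e2 : Psn n (f q.2) * conj (Psn n (f q.2)) = ((‖g‖ ^ 2 : ℝ) : ℂ) ^ 2 := by
          rw [Complex.mul_conj, Complex.normSq_eq_norm_sq, hΨn]
          push_cast
          ring
        rw [e1]
        calc ((KK a b ^ (p - 1) : ℝ) : ℂ) * (Psn n (f q.2) * (a ^ 2 + b ^ 2))
            = Psn n (f q.2) * (((KK a b ^ (p - 1) : ℝ) : ℂ) * (a ^ 2 + b ^ 2)) := by ring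
          _ = -(jac a b : ℂ) ^ 2 * (Psn n (f q.2) * conj (Psn n (f q.2))) := by rw [heq]; ring
          _ = -((‖g‖ ^ 2 * jac a b : ℝ) : ℂ) ^ 2 := by rw [e2]; push_cast; ring
      obtain ⟨hgr, hgi⟩ := ((hC p kf hp hkf α β).1).mp hrel
      -- the value is a square
      set k : ℝ := kf ‖gr α β‖ with hk
      have hk1 : 1 ≤ k := hkf.one _ (norm_nonneg _)
      have hcg : g * conj g = ((‖g‖ ^ 2 : ℝ) : ℂ) := by
        rw [Complex.mul_conj, Complex.normSq_eq_norm_sq]
      have hsq : Ha q = ((q.1 : ℂ) * (g * ((a - I * b) / 2) + conj (g * ((a + I * b) / 2))) +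
          ((1 - q.1 : ℝ) : ℂ) * (g * a)) ^ 2 := by
        have e1 : (‖Psn n (f q.2)‖ : ℂ) = g * conj g := by rw [hΨn, hcg]
        have e2 : conj (Psn n (f q.2)) = conj g ^ 2 := by rw [← hg, map_pow]
        simp only [hHa, Sz]
        rw [← ha, ← hb, e1, e2, ← hg]
        simp only [map_mul, map_div₀, map_add, map_ofNat]
        ring_nf
      rw [hsq] at h1
      have h2 := pow_eq_zero_iff (two_ne_zero) |>.mp h1
      have h3 : (q.1 : ℂ) * (((α.re : ℝ) : ℂ) - I * ((β.re : ℝ) : ℂ)) + ((1 - q.1 : ℝ) : ℂ) * α = 0 := by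
        have e1 : g * ((a - I * b) / 2) + conj (g * ((a + I * b) / 2)) = ((α.re : ℝ) : ℂ) - I * ((β.re : ℝ) : ℂ) := by
          have e2 : g * ((a - I * b) / 2) = (α - I * β) / 2 := by simp only [hα, hβ]; ring
          have e3 : g * ((a + I * b) / 2) = (α + I * β) / 2 := by simp only [hα, hβ]; ring
          have e4 : conj ((α + I * β) / 2) = (conj α - I * conj β) / 2 := conj_half α β
          have e5 := Complex.add_conj α
          have e6 := Complex.add_conj β
          push_cast at e5 e6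
          rw [e2, e3, e4]
          linear_combination (1 / 2 : ℂ) * e5 - (I / 2) * e6
        rw [← e1]
        exact h2
      have hgi1 := congrArg Complex.re hgi
      simp only [gi, gr, Af, Complex.mul_re, Complex.mul_im, Complex.I_re, Complex.I_im, Complex.ofReal_re,
        Complex.ofReal_im] at hgi1
      have hre := congrArg Complex.re h3
      have him := congrArg Complex.im h3
      simp at hre him
      have hαre : α.re = 0 := by
        have : q.1 * α.re + (1 - q.1) * α.re = α.re := by ring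
        linarith
      have hβre : β.re = 0 := by
        have hkk : kf ‖gr α β‖ = k := rfl
        have h5 : α.im = -(k * β.re) := by
          have : gr α β = ⟨α.re, β.re⟩ := rfl
          rw [← this, hkk] at hgi1
          linarith
        rw [h5] at him
        have h6 : β.re * (q.1 + (1 - q.1) * k) = 0 := by linarith
        rcases mul_eq_zero.mp h6 with h7 | h7
        · exact h7
        · exfalso
          have h8 := hq.1.1
          have h9 := hq.1.2
          nlinarith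
      apply hgr
      apply Complex.ext
      · exact hαre
      · exact hβre)
    ⟨fun z => n * lf z + 2 * lx' z + 2 * Complex.log (((n : ℂ) + 2) / 2), by
      exact ((continuousOn_const.mul (hlfc.mono hpf)).add (continuousOn_const.mul (hlxc.mono hpx))).add continuousOn_const, by
      intro z hz
      have e1 := hlf z (hpf hz)
      have e2 := hlx z (hpx hz)
      simp only [hHa]
      simp only [Complex.ofReal_zero, sub_zero, Complex.ofReal_one, one_pow, one_mul, mul_zero, zero_mul, zero_add,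
        ne_eq, OfNat.ofNat_ne_zero, not_false_eq_true, zero_pow, Psn]
      have e3 : Complex.exp (2 * lx' z) = Complex.exp (lx' z) ^ 2 := by
        rw [← Complex.exp_nat_mul]; norm_num
      have e4 : Complex.exp (2 * Complex.log (((n : ℂ) + 2) / 2)) = (((n : ℂ) + 2) / 2) ^ 2 := by
        have : Complex.exp (2 * Complex.log (((n : ℂ) + 2) / 2)) = Complex.exp (Complex.log (((n : ℂ) + 2) / 2)) ^ 2 := by
          rw [← Complex.exp_nat_mul]; norm_num
        rw [this, Complex.exp_log hn2]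
      rw [e2, e1, mul_pow, Complex.exp_add, Complex.exp_add, e3, e4, Complex.exp_nat_mul]
      have hzn : z ^ n ≠ 0 := pow_ne_zero n (hne0 z hz)
      field_simp⟩
  refine ⟨r₁, l₁, hr₁0, hr₁r, hl₁c, ?_⟩
  intro z hz
  have h1 := hl₁ z hz
  have hzn : z ^ n ≠ 0 := pow_ne_zero n (hne0 z hz)
  rw [← h1]
  simp only [hHa, Complex.ofReal_one, sub_self, Complex.ofReal_zero, one_pow, one_mul, mul_zero, zero_mul, add_zero,
    ne_eq, OfNat.ofNat_ne_zero, not_false_eq_true, zero_pow]
  field_simp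

end MPfa.Reg
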