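import Pool.Agent.Lib.MP_fa0334_an.RegZNorm

/-!
Problem MP_fa0334_an, part REG, module ZQR: `S` is quasiregular off the zero.
-/

set_option autoImplicit false

open MeasureTheory Set Filter Topology Metric Complex
open scoped ContDiff ENNReal ComplexConjugate

namespace MPfa.Reg.ZQRM

open LocM Base

/-- a branch of `w^((n+2)/2)` -/
theorem branch (n : ℕ) {w₁ : ℂ} (hw : w₁ ≠ 0) : ∃ (δ : ℝ) (W : ℂ → ℂ), 0 < δ ∧
    DifferentiableOn ℂ W (ball w₁ δ) ∧ InjOn W (ball w₁ δ) ∧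
    (∀ w ∈ ball w₁ δ, deriv W w ^ 2 = Psn n w) ∧ (∀ w ∈ ball w₁ δ, deriv W w ≠ 0) := by
  set α : ℂ := ((n : ℂ) + 2) / 2 with hα
  have hα0 : α ≠ 0 := by
    have : ((n : ℂ) + 2) ≠ 0 := by exact_mod_cast (by omega : n + 2 ≠ 0)
    exact div_ne_zero this two_ne_zero
  set W : ℂ → ℂ := fun w => Complex.exp (α * Complex.log w₁) * Complex.exp (α * Complex.log (w / w₁))
    with hW
  set δ₀ : ℝ := ‖w₁‖ with hδ₀
  have hδ₀0 : 0 < δ₀ := norm_pos_iff.2 hw
  have hslit : ∀ w ∈ ball w₁ δ₀, w / w₁ ∈ Complex.slitPlane := by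
    intro w hwb
    have h1 : w / w₁ ∈ ball (1 : ℂ) 1 := by
      rw [mem_ball, dist_eq_norm] at hwb ⊢
      have : w / w₁ - 1 = (w - w₁) / w₁ := by field_simp
      rw [this, norm_div, div_lt_one hδ₀0]
      exact hwb
    rw [Complex.mem_slitPlane_iff]
    left
    rw [mem_ball, dist_eq_norm] at h1
    have h2 := Complex.abs_re_le_norm (w / w₁ - 1)
    have h3 : |(w / w₁).re - 1| < 1 := by
      refine lt_of_le_of_lt ?_ h1
      simpa using h2
    rw [abs_lt] at h3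
    linarith
  have hne : ∀ w ∈ ball w₁ δ₀, w ≠ 0 := by
    intro w hwb h0
    have := Complex.slitPlane_ne_zero (hslit w hwb)
    simp [h0] at this
  have hder : ∀ w ∈ ball w₁ δ₀, HasDerivAt W (α / w * W w) w := by
    intro w hwb
    have h1 : HasDerivAt (fun w => w / w₁) (1 / w₁) w := (hasDerivAt_id w).div_const w₁
    have h2 := (h1.clog (hslit w hwb)).const_mul α
    have h3 := (h2.cexp).const_mul (Complex.exp (α * Complex.log w₁))
    refine h3.congr_deriv ?_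
    have h4 := hne w hwb
    simp only [hW]
    field_simp
  have hWne : ∀ w, W w ≠ 0 := fun w => mul_ne_zero (Complex.exp_ne_zero _) (Complex.exp_ne_zero _)
  have hsq : ∀ w ∈ ball w₁ δ₀, W w ^ 2 = w ^ (n + 2) := by
    intro w hwb
    have e : ∀ x : ℂ, x ≠ 0 → Complex.exp (α * Complex.log x) ^ 2 = x ^ (n + 2) := by
      intro x hx
      rw [← Complex.exp_nat_mul]
      have h1 : ((2 : ℕ) : ℂ) * (α * Complex.log x) = ((n + 2 : ℕ) : ℂ) * Complex.log x := by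
        rw [hα]; push_cast; ring
      rw [h1, Complex.exp_nat_mul, Complex.exp_log hx]
    simp only [hW]
    rw [mul_pow, e _ hw, e _ (div_ne_zero (hne w hwb) hw), ← mul_pow, mul_div_cancel₀ _ hw]
  have hd2 : ∀ w ∈ ball w₁ δ₀, deriv W w ^ 2 = Psn n w := by
    intro w hwb
    rw [(hder w hwb).deriv, mul_pow, hsq w hwb, Psn, div_pow]
    have h4 := hne w hwb
    field_simp
    rw [hα]
    ring
  have hd0 : ∀ w ∈ ball w₁ δ₀, deriv W w ≠ 0 := by
    intro w hwb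
    rw [(hder w hwb).deriv]
    exact mul_ne_zero (div_ne_zero hα0 (hne w hwb)) (hWne w)
  have hdo : DifferentiableOn ℂ W (ball w₁ δ₀) := fun w hwb =>
    (hder w hwb).differentiableAt.differentiableWithinAt
  have hstr : HasStrictDerivAt W (deriv W w₁) w₁ :=
    ((hdo.analyticOnNhd isOpen_ball) w₁ (mem_ball_self hδ₀0)).hasStrictDerivAt
  have hev := (hstr.hasStrictFDerivAt_equiv (hd0 w₁ (mem_ball_self hδ₀0))).eventually_left_inverse
  obtain ⟨δ₁, hδ₁, h1⟩ := Metric.eventually_nhds_iff_ball.1 hev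
  refine ⟨min δ₀ δ₁, W, lt_min hδ₀0 hδ₁, hdo.mono (ball_subset_ball (min_le_left _ _)), ?_,
    fun w h => hd2 w (ball_subset_ball (min_le_left _ _) h),
    fun w h => hd0 w (ball_subset_ball (min_le_left _ _) h)⟩
  intro w hw' w' hw'' he
  have a1 := h1 w (ball_subset_ball (min_le_right _ _) hw')
  have a2 := h1 w' (ball_subset_ball (min_le_right _ _) hw'')
  rw [← a1, ← a2, he]

theorem WD_congr {G : Set ℂ} {F F' Fx Fy : ℂ → ℂ} (h : WD G F Fx Fy) (he : EqOn F F' G) :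
    WD G F' Fx Fy where
  mx := h.mx
  my := h.my
  lF := fun K hK hc => (integrableOn_congr_fun (he.mono hK) hc.measurableSet).1 (h.lF K hK hc)
  lx := h.lx
  ly := h.ly
  ix := by
    intro φ hφ
    rw [← h.ix φ hφ]
    refine integral_congr_ae (Eventually.of_forall fun z => ?_)
    by_cases hz : z ∈ G
    · simp only [he hz]
    · have h1 : fderiv ℝ φ z = 0 := by
        have : z ∉ tsupport φ := fun h => hz (hφ.su h)
        exact image_eq_zero_of_notMem_tsupport (fun h => this (tsupport_fderiv_subset ℝ h))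
      simp [h1]
  iy := by
    intro φ hφ
    rw [← h.iy φ hφ]
    refine integral_congr_ae (Eventually.of_forall fun z => ?_)
    by_cases hz : z ∈ G
    · simp only [he hz]
    · have h1 : fderiv ℝ φ z = 0 := by
        have : z ∉ tsupport φ := fun h => hz (hφ.su h)
        exact image_eq_zero_of_notMem_tsupport (fun h => this (tsupport_fderiv_subset ℝ h))
      simp [h1]

theorem Lrl_congr {G : Set ℂ} {r : ℝ} {u v : ℂ → ℝ} (h : Lrl G r u)
    (he : ∀ᵐ z ∂(volume.restrict G), u z = v z) : Lrl G r v := by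
  intro K hK hc
  rw [lintegral_congr_ae (g := fun z => ENNReal.ofReal |u z| ^ r)]
  · exact h K hK hc
  · filter_upwards [ae_restrict_of_ae_restrict_of_subset hK he] with z hz
    rw [hz]

/-- products with continuous functions -/
theorem Lrl_mul {G : Set ℂ} {m q : ℂ → ℂ} {L : ℂ → ℝ} (hL : ∀ z, |L z| ≤ ‖z‖)
    (hm : ContinuousOn m G) (mq : Measurable q)
    (h1 : Lrl G 2 (fun z => (q z).re)) (h2 : Lrl G 2 (fun z => (q z).im)) :
    Lrl G 2 (fun z => L (m z * q z)) := by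
  intro K hK hc
  obtain ⟨C, hC⟩ := hc.exists_bound_of_continuousOn (hm.mono hK)
  have hC' : ∀ z ∈ K, ‖m z‖ ≤ |C| := fun z hz => (hC z hz).trans (le_abs_self _)
  have hpt : ∀ z ∈ K, ENNReal.ofReal |L (m z * q z)| ^ (2 : ℝ) ≤
      ENNReal.ofReal (2 * |C| ^ 2) * (ENNReal.ofReal |(q z).re| ^ (2 : ℝ) +
        ENNReal.ofReal |(q z).im| ^ (2 : ℝ)) := by
    intro z hz
    have e : ∀ x : ℝ, ENNReal.ofReal |x| ^ (2 : ℝ) = ENNReal.ofReal (x ^ 2) := by
      intro x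
      rw [ENNReal.ofReal_rpow_of_nonneg (abs_nonneg _) (by norm_num)]
      norm_num
    rw [e, e, e, ← ENNReal.ofReal_add (sq_nonneg _) (sq_nonneg _), ← ENNReal.ofReal_mul (by positivity)]
    refine ENNReal.ofReal_le_ofReal ?_
    have a1 : |L (m z * q z)| ≤ |C| * ‖q z‖ := by
      refine (hL _).trans ?_
      rw [norm_mul]
      exact mul_le_mul_of_nonneg_right (hC' z hz) (norm_nonneg _)
    have a2 : ‖q z‖ ^ 2 = (q z).re ^ 2 + (q z).im ^ 2 := by
      rw [← Complex.normSq_eq_norm_sq, Complex.normSq_apply]; ring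
    calc L (m z * q z) ^ 2 = |L (m z * q z)| ^ 2 := (sq_abs _).symm
      _ ≤ (|C| * ‖q z‖) ^ 2 := pow_le_pow_left₀ (abs_nonneg _) a1 2
      _ = |C| ^ 2 * ((q z).re ^ 2 + (q z).im ^ 2) := by rw [mul_pow, a2]
      _ ≤ 2 * |C| ^ 2 * ((q z).re ^ 2 + (q z).im ^ 2) := by
          have : 0 ≤ |C| ^ 2 * ((q z).re ^ 2 + (q z).im ^ 2) := by positivity
          linarith
  calc ∫⁻ z in K, ENNReal.ofReal |L (m z * q z)| ^ (2 : ℝ)
      ≤ ∫⁻ z in K, ENNReal.ofReal (2 * |C| ^ 2) * (ENNReal.ofReal |(q z).re| ^ (2 : ℝ) +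
        ENNReal.ofReal |(q z).im| ^ (2 : ℝ)) := setLIntegral_mono' hc.measurableSet hpt
    _ = ENNReal.ofReal (2 * |C| ^ 2) * ((∫⁻ z in K, ENNReal.ofReal |(q z).re| ^ (2 : ℝ)) +
        ∫⁻ z in K, ENNReal.ofReal |(q z).im| ^ (2 : ℝ)) := by
        rw [lintegral_const_mul' _ _ ENNReal.ofReal_ne_top, lintegral_add_left]
        exact ((Complex.measurable_re.comp mq).abs.ennreal_ofReal).pow_const _
    _ < ⊤ := ENNReal.mul_lt_top ENNReal.ofReal_lt_top (ENNReal.add_lt_top.2 ⟨h1 K hK hc, h2 K hK hc⟩)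

/-- local almost everywhere statements -/
theorem ae_local {G : Set ℂ} {Pr : ℂ → Prop} (hG : IsOpen G)
    (h : ∀ z ∈ G, ∃ r > 0, ∀ᵐ w ∂(volume.restrict (ball z r)), Pr w) :
    ∀ᵐ w ∂(volume.restrict G), Pr w := by
  rw [ae_restrict_iff' hG.measurableSet, ae_iff]
  refine measure_null_of_locally_null _ fun z hz => ?_
  simp only [mem_ofPred_eq, Classical.not_imp] at hz
  obtain ⟨r, hr, hae⟩ := h z hz.1
  rw [ae_restrict_iff' measurableSet_ball, ae_iff] at hae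
  refine ⟨{w | ¬ (w ∈ ball z r → Pr w)}, ?_, hae⟩
  have h1 : ball z r ∈ 𝓝[{a | ¬(a ∈ G → Pr a)}] z := mem_nhdsWithin_of_mem_nhds (ball_mem_nhds _ hr)
  filter_upwards [h1, self_mem_nhdsWithin] with w hw hw2
  simp only [Classical.not_imp] at hw2 ⊢
  exact ⟨hw, hw2.2⟩

theorem sz_eq {n : ℕ} {f : ℂ → ℂ} {z m : ℂ} (hm : m ^ 2 = Psn n (f z)) :
    Sz n f z = conj (gr (m * fderiv ℝ f z 1) (m * fderiv ℝ f z I)) ^ 2 := by
  have h1 : conj (gr (m * fderiv ℝ f z 1) (m * fderiv ℝ f z I)) =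
      m * ((fderiv ℝ f z 1 - I * fderiv ℝ f z I) / 2) +
        conj m * conj ((fderiv ℝ f z 1 + I * fderiv ℝ f z I) / 2) := by
    have e0 : ∀ a b : ℂ, conj ((a + I * b) / 2) = (conj a - I * conj b) / 2 := by
      intro a b
      rw [map_div₀, map_add, map_mul, Complex.conj_I, Complex.conj_ofNat]
      ring
    rw [e0]
    generalize fderiv ℝ f z 1 = a
    generalize fderiv ℝ f z I = b
    apply Complex.ext
    · simp [gr, Complex.div_ofNat_re, Complex.div_ofNat_im]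
      ring
    · simp [gr, Complex.div_ofNat_re, Complex.div_ofNat_im]
      ring
  have h2 : (‖Psn n (f z)‖ : ℂ) = m * conj m := by
    rw [← hm, norm_pow, Complex.mul_conj, Complex.normSq_eq_norm_sq]
  rw [h1]
  simp only [Sz]
  rw [h2, ← hm, map_pow]
  ring

end MPfa.Reg.ZQRM

namespace MPfa.Reg

open LocM Base ZQRM

theorem specZQR (hCA : SpecCAlg) (hW22 : SpecW22) (hComp : SpecComp) (hGlue : SpecGlue)
    (hLrl : SpecLrlLoc) (hWDU : MPfa.SpecWDU) : SpecZQR := by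
  intro p kf hp hkf
  obtain ⟨κ, hκ0, hκ1, hW⟩ := hW22 p kf hp hkf
  refine ⟨κ, hκ0, hκ1, fun n r f hZ => ?_⟩
  have hpo : IsOpen (pun r) := pun_open r
  set S := Sz n f with hS
  -- local statement
  have hloc : ∀ z ∈ pun r, ∃ ε > 0, ball z ε ⊆ pun r ∧ ∃ Sx Sy : ℂ → ℂ, WD (ball z ε) S Sx Sy ∧
      Lrl (ball z ε) 2 (fun z => (Sx z).re) ∧ Lrl (ball z ε) 2 (fun z => (Sy z).re) ∧
      Lrl (ball z ε) 2 (fun z => (Sx z).im) ∧ Lrl (ball z ε) 2 (fun z => (Sy z).im) ∧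
      (∀ w ∈ ball z ε, S w ≠ 0) ∧ ContinuousOn S (ball z ε) ∧
      ∀ᵐ w ∂(volume.restrict (ball z ε)), ‖Sx w + I * Sy w‖ ≤
        min κ (kf (Real.sqrt ‖S w‖) ^ 2 - 1) * ‖Sx w - I * Sy w‖ := by
    intro z hz
    have hfz : f z ≠ 0 := by
      intro h0
      exact hz.2 (hZ.inj hz.1 (mem_ball_self hZ.r0) (h0.trans hZ.z0.symm))
    obtain ⟨δ, W, hδ, hWd, hWinj, hW2, hW0⟩ := branch n hfz
    have hfat : ContinuousAt f z := (hZ.c1.continuousOn).continuousAt (hpo.mem_nhds hz)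
    have hn : f ⁻¹' (ball (f z) δ) ∩ pun r ∈ 𝓝 z :=
      inter_mem (hfat.preimage_mem_nhds (ball_mem_nhds _ hδ)) (hpo.mem_nhds hz)
    obtain ⟨ε, hε, hεU⟩ := Metric.mem_nhds_iff.1 hn
    set G := ball z ε with hG
    have hGo : IsOpen G := isOpen_ball
    have hGp : G ⊆ pun r := fun w hw => (hεU hw).2
    have hGm : MapsTo f G (ball (f z) δ) := fun w hw => (hεU hw).1
    set F : ℂ → ℂ := fun w => W (f w) with hF
    have hFc : ContDiffOn ℝ 1 F G :=
      (contDiffOn_real isOpen_ball hWd).comp (hZ.c1.mono hGp) hGm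
    have hFd : ∀ w ∈ G, ∀ v, fderiv ℝ F w v = deriv W (f w) * fderiv ℝ f w v := by
      intro w hw v
      exact fderiv_hcomp (hWd.differentiableAt (isOpen_ball.mem_nhds (hGm hw)))
        ((hZ.c1.differentiableOn one_ne_zero).differentiableAt (hpo.mem_nhds (hGp hw))) v
    have hrel : ∀ w ∈ G, gr (fderiv ℝ F w 1) (fderiv ℝ F w I) ≠ 0 ∧
        gi (fderiv ℝ F w 1) (fderiv ℝ F w I) = I * Af kf (gr (fderiv ℝ F w 1) (fderiv ℝ F w I)) := by
      intro w hw
      have h1 : Rel p (fderiv ℝ f w 1) (fderiv ℝ f w I) (Psn n (f w)) := hZ.eq w (hGp hw)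
      have h2 : Psn n (f w) = deriv W (f w) ^ 2 * 1 := by rw [hW2 _ (hGm hw), mul_one]
      have h3 := rel_mul (hW0 _ (hGm hw)) h2 h1
      rw [← hFd w hw, ← hFd w hw] at h3
      exact ((hCA p kf hp hkf _ _).1).1 ⟨h3.1, by simpa using h3.2⟩
    have hsol : Sol1 kf G F := by
      refine ⟨hGo, hFc, ?_, fun w hw => (hrel w hw).1, fun w hw => (hrel w hw).2⟩
      intro w hw w' hw' he
      exact hZ.inj (hGp hw).1 (hGp hw').1 (hWinj (hGm hw) (hGm hw') he)
    obtain ⟨Px, Py, hWP, hPb⟩ := hW G F hsol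
    set P : ℂ → ℂ := fun z => conj (gr (fderiv ℝ F z 1) (fderiv ℝ F z I)) with hP
    have hSP : ∀ w ∈ G, P w ^ 2 = S w := by
      intro w hw
      rw [hS, sz_eq (hW2 _ (hGm hw)), hP]
      simp only [hFd w hw]
    have hP0 : ∀ w ∈ G, P w ≠ 0 := by
      intro w hw
      simp only [hP]
      intro h0
      rw [map_eq_zero] at h0
      exact (hrel w hw).1 h0
    have hwd := hComp G univ P Px Py (fun w => w ^ 2) hGo hWP.co hWP.wd isOpen_univ
      ((contDiff_id.pow 2).contDiffOn) (mapsTo_univ _ _)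
    have hfd2 : ∀ w v : ℂ, fderiv ℝ (fun w : ℂ => w ^ 2) w v = 2 * w * v := by
      intro w v
      rw [fderiv_of_diff (by fun_prop)]
      have : HasDerivAt (fun w : ℂ => w ^ 2) (2 * w) w := by simpa using hasDerivAt_pow 2 w
      rw [this.deriv]
    simp only [hfd2] at hwd
    have hm : ContinuousOn (fun w => 2 * P w) G := continuousOn_const.mul hWP.co
    have hre : ∀ z : ℂ, |Complex.re z| ≤ ‖z‖ := Complex.abs_re_le_norm
    have him : ∀ z : ℂ, |Complex.im z| ≤ ‖z‖ := Complex.abs_im_le_norm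
    have hind : ∀ (L : ℂ → ℝ) (q : ℂ → ℂ), ∀ᵐ w ∂(volume.restrict G),
        L (2 * P w * q w) = L (G.indicator (fun z => 2 * P z * q z) w) := by
      intro L q
      filter_upwards [ae_restrict_mem measurableSet_ball] with w hw
      rw [indicator_of_mem hw]
    refine ⟨ε, hε, hGp, _, _, WD_congr hwd hSP,
      Lrl_congr (Lrl_mul hre hm hWP.wd.mx hWP.rx hWP.sx) (hind _ _),
      Lrl_congr (Lrl_mul hre hm hWP.wd.my hWP.ry hWP.sy) (hind _ _),
      Lrl_congr (Lrl_mul him hm hWP.wd.mx hWP.rx hWP.sx) (hind _ _),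
      Lrl_congr (Lrl_mul him hm hWP.wd.my hWP.ry hWP.sy) (hind _ _), ?_, ?_, ?_⟩
    · intro w hw
      rw [← hSP w hw]
      exact pow_ne_zero 2 (hP0 w hw)
    · exact (hWP.co.pow 2).congr fun w hw => (hSP w hw).symm
    · filter_upwards [hPb, ae_restrict_mem measurableSet_ball] with w hw hwG
      have hwG' : w ∈ G := hwG
      rw [indicator_of_mem hwG', indicator_of_mem hwG']
      have e1 : 2 * P w * Px w + I * (2 * P w * Py w) = 2 * P w * (Px w + I * Py w) := by ring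
      have e2 : 2 * P w * Px w - I * (2 * P w * Py w) = 2 * P w * (Px w - I * Py w) := by ring
      have e3 : Real.sqrt ‖S w‖ = ‖gr (fderiv ℝ F w 1) (fderiv ℝ F w I)‖ := by
        rw [← hSP w hwG, norm_pow, Real.sqrt_sq (norm_nonneg _)]
        simp only [hP, Complex.norm_conj]
      rw [e1, e2, e3, norm_mul (2 * P w), norm_mul (2 * P w)]
      calc ‖2 * P w‖ * ‖Px w + I * Py w‖ ≤ ‖2 * P w‖ * (min κ
            (kf ‖gr (fderiv ℝ F w 1) (fderiv ℝ F w I)‖ ^ 2 - 1) * ‖Px w - I * Py w‖) :=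
            mul_le_mul_of_nonneg_left hw (norm_nonneg _)
        _ = _ := by ring
  obtain ⟨Sx, Sy, hwd⟩ := hGlue (pun r) S hpo fun z hz => by
    obtain ⟨ε, hε, hsub, Sx, Sy, h, -⟩ := hloc z hz
    exact ⟨ε, hε, hsub, Sx, Sy, h⟩
  have hall : ∀ z ∈ pun r, ∃ ε > 0, ball z ε ⊆ pun r ∧
      Lrl (ball z ε) 2 (fun z => (Sx z).re) ∧ Lrl (ball z ε) 2 (fun z => (Sy z).re) ∧
      Lrl (ball z ε) 2 (fun z => (Sx z).im) ∧ Lrl (ball z ε) 2 (fun z => (Sy z).im) ∧
      (∀ w ∈ ball z ε, S w ≠ 0) ∧ ContinuousOn S (ball z ε) ∧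
      ∀ᵐ w ∂(volume.restrict (ball z ε)), ‖Sx w + I * Sy w‖ ≤
        min κ (kf (Real.sqrt ‖S w‖) ^ 2 - 1) * ‖Sx w - I * Sy w‖ := by
    intro z hz
    obtain ⟨ε, hε, hsub, Tx, Ty, h, h1, h2, h3, h4, h5, h6, h7⟩ := hloc z hz
    have hu := hWDU (ball z ε) S Tx Ty Sx Sy isOpen_ball h (WD_mono hwd hsub)
    refine ⟨ε, hε, hsub, Lrl_congr h1 ?_, Lrl_congr h2 ?_, Lrl_congr h3 ?_, Lrl_congr h4 ?_, h5, h6, ?_⟩
    · filter_upwards [hu] with w hw
      rw [hw.1]
    · filter_upwards [hu] with w hw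
      rw [hw.2]
    · filter_upwards [hu] with w hw
      rw [hw.1]
    · filter_upwards [hu] with w hw
      rw [hw.2]
    · filter_upwards [hu, h7] with w hw hw'
      rw [← hw.1, ← hw.2]
      exact hw'
  refine ⟨Sx, Sy, ⟨hpo, ?_, hwd, ?_, ?_, ?_, ?_⟩, ?_, ?_⟩
  · intro z hz
    obtain ⟨ε, hε, -, -, -, -, -, -, h6, -⟩ := hall z hz
    exact (h6.continuousAt (ball_mem_nhds _ hε)).continuousWithinAt
  · exact hLrl _ _ _ hpo fun z hz => by
      obtain ⟨ε, hε, -, h1, -⟩ := hall z hz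
      exact ⟨ε, hε, h1⟩
  · exact hLrl _ _ _ hpo fun z hz => by
      obtain ⟨ε, hε, -, -, h1, -⟩ := hall z hz
      exact ⟨ε, hε, h1⟩
  · exact hLrl _ _ _ hpo fun z hz => by
      obtain ⟨ε, hε, -, -, -, h1, -⟩ := hall z hz
      exact ⟨ε, hε, h1⟩
  · exact hLrl _ _ _ hpo fun z hz => by
      obtain ⟨ε, hε, -, -, -, -, h1, -⟩ := hall z hz
      exact ⟨ε, hε, h1⟩
  · intro z hz
    obtain ⟨ε, hε, -, -, -, -, -, h1, -⟩ := hall z hz
    exact h1 z (mem_ball_self hε)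
  · refine ae_local hpo fun z hz => ?_
    obtain ⟨ε, hε, -, -, -, -, -, -, -, h1⟩ := hall z hz
    exact ⟨ε, hε, h1⟩

end MPfa.Reg
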