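import Pool.Agent.Lib.MP_fa0334_an.RegZNorm

/-!
Problem MP_fa0334_an, part REG, module ZERO.
-/

set_option autoImplicit false

open MeasureTheory Set Filter Topology Metric Complex
open scoped ContDiff ENNReal ComplexConjugate

namespace MPfa.Reg.ZeroM

open Base

theorem lmap_one (a b : ℂ) : lmap a b 1 = a := by simp [lmap]

theorem lmap_I (a b : ℂ) : lmap a b I = b := by simp [lmap]

theorem eq_lmap (L : ℂ →L[ℝ] ℂ) : L = lmap (L 1) (L I) := by
  ext v
  have hv : v = v.re • (1 : ℂ) + v.im • I := by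
    simp
  conv_lhs => rw [hv]
  rw [map_add, map_smul, map_smul]
  simp [lmap]

theorem continuous_lmap : Continuous fun q : ℂ × ℂ => lmap q.1 q.2 := by
  have h1 : Continuous fun q : ℂ × ℂ => Complex.reCLM.smulRight q.1 :=
    ((ContinuousLinearMap.smulRightL ℝ ℂ ℂ Complex.reCLM).continuous).comp continuous_fst
  have h2 : Continuous fun q : ℂ × ℂ => Complex.imCLM.smulRight q.2 :=
    ((ContinuousLinearMap.smulRightL ℝ ℂ ℂ Complex.imCLM).continuous).comp continuous_snd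
  exact h1.add h2

/-- a `C¹` map of the punctured disc whose derivative converges at the centre is `C¹` -/
theorem c1_of_tendsto {f : ℂ → ℂ} {r : ℝ} {L : ℂ →L[ℝ] ℂ} (hr : 0 < r)
    (hc : ContinuousOn f (ball 0 r)) (h1 : ContDiffOn ℝ 1 f (pun r))
    (hL : Tendsto (fderiv ℝ f) (𝓝[≠] 0) (𝓝 L)) :
    ContDiffOn ℝ 1 f (ball 0 r) ∧ fderiv ℝ f 0 = L := by
  have hd : ∀ z ∈ pun r, DifferentiableAt ℝ f z := fun z hz =>
    (h1.contDiffAt ((pun_open r).mem_nhds hz)).differentiableAt (by norm_num)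
  have key : ∀ s : Set ℂ, s ⊆ pun r → IsOpen s → Convex ℝ s → closure s ⊆ ball 0 r →
      HasFDerivWithinAt f L (closure s) 0 := by
    intro s hs ho hv hcl
    refine hasFDerivWithinAt_closure_of_tendsto_fderiv
      (fun z hz => (hd z (hs hz)).differentiableWithinAt) hv ho (fun y hy => ?_) ?_
    · exact (hc y (hcl hy)).mono (hs.trans (pun_sub_ball r))
    · exact hL.mono_left (nhdsWithin_mono _ fun z hz => (hs hz).2)
  have hcl : ∀ t : Set ℂ, closure (ball (0 : ℂ) (r / 2) ∩ t) ⊆ ball 0 r := by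
    intro t
    refine (closure_mono inter_subset_left).trans ((closure_ball_subset_closedBall).trans ?_)
    exact closedBall_subset_ball (by linarith)
  have hsub : ∀ t : Set ℂ, (0 : ℂ) ∉ t → ball (0 : ℂ) (r / 2) ∩ t ⊆ pun r := by
    intro t ht z hz
    exact ⟨ball_subset_ball (by linarith) hz.1, fun h => ht (by simpa [mem_singleton_iff.1 h] using hz.2)⟩
  have e1 := key (ball (0 : ℂ) (r / 2) ∩ {z | 0 < z.re}) (hsub _ (by simp))
    (isOpen_ball.inter (isOpen_lt continuous_const Complex.continuous_re))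
    ((convex_ball _ _).inter (convex_halfSpace_re_gt 0)) (hcl _)
  have e2 := key (ball (0 : ℂ) (r / 2) ∩ {z | z.re < 0}) (hsub _ (by simp))
    (isOpen_ball.inter (isOpen_lt Complex.continuous_re continuous_const))
    ((convex_ball _ _).inter (convex_halfSpace_re_lt 0)) (hcl _)
  have hnb : closure (ball (0 : ℂ) (r / 2) ∩ {z | 0 < z.re}) ∪
      closure (ball (0 : ℂ) (r / 2) ∩ {z | z.re < 0}) ∈ 𝓝 (0 : ℂ) := by
    refine mem_of_superset (ball_mem_nhds (0 : ℂ) (half_pos hr)) fun z hz => ?_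
    rcases le_or_gt 0 z.re with h | h
    · left
      have ht : Tendsto (fun t : ℝ => z + (t : ℂ)) (𝓝[>] 0) (𝓝 z) := by
        have : Continuous fun t : ℝ => z + (t : ℂ) := by fun_prop
        have := (this.tendsto 0).mono_left (nhdsWithin_le_nhds (s := Ioi (0 : ℝ)))
        simpa using this
      refine mem_closure_of_tendsto ht ?_
      have hb : ∀ᶠ t : ℝ in 𝓝[>] 0, z + (t : ℂ) ∈ ball (0 : ℂ) (r / 2) :=
        ht (isOpen_ball.mem_nhds hz)
      filter_upwards [hb, self_mem_nhdsWithin] with t ht1 ht2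
      refine ⟨ht1, ?_⟩
      have : (0 : ℝ) < t := ht2
      change 0 < (z + (t : ℂ)).re
      rw [add_re, ofReal_re]
      linarith
    · right
      exact subset_closure ⟨hz, h⟩
  have h0 : HasFDerivAt f L 0 := (e1.union e2).hasFDerivAt hnb
  refine ⟨?_, h0.fderiv⟩
  have hdf : DifferentiableOn ℝ f (ball 0 r) := by
    intro z hz
    by_cases h : z = 0
    · subst h; exact h0.differentiableAt.differentiableWithinAt
    · exact (hd z ⟨hz, h⟩).differentiableWithinAt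
  have hcf : ContinuousOn (fderiv ℝ f) (ball 0 r) := by
    intro z hz
    refine ContinuousAt.continuousWithinAt ?_
    by_cases h : z = 0
    · subst h
      rw [continuousAt_iff_punctured_nhds, h0.fderiv]
      exact hL
    · exact (h1.continuousOn_fderiv_of_isOpen (pun_open r) le_rfl).continuousAt
        ((pun_open r).mem_nhds ⟨hz, h⟩)
  have : ContDiffOn ℝ (0 + 1) f (ball 0 r) := by
    rw [contDiffOn_succ_iff_fderiv_of_isOpen isOpen_ball]
    exact ⟨hdf, by simp, contDiffOn_zero.2 hcf⟩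
  simpa using this

theorem pun_preconnected (r : ℝ) : IsPreconnected (pun r) := by
  have h : (fun q : ℝ × ℝ => (q.1 : ℂ) * Complex.exp (q.2 * I)) '' (Ioo 0 r ×ˢ univ) = pun r := by
    ext z
    constructor
    · rintro ⟨⟨ρ, θ⟩, ⟨hρ, -⟩, rfl⟩
      have hρ' : 0 < ρ ∧ ρ < r := hρ
      rw [mem_pun]
      refine ⟨?_, mul_ne_zero (by exact_mod_cast hρ'.1.ne') (Complex.exp_ne_zero _)⟩
      simp only [norm_mul, norm_real, Complex.norm_exp_ofReal_mul_I, mul_one]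
      rw [Real.norm_eq_abs, abs_of_pos hρ'.1]
      exact hρ'.2
    · intro hz
      rw [mem_pun] at hz
      exact ⟨(‖z‖, z.arg), ⟨⟨norm_pos_iff.2 hz.2, hz.1⟩, mem_univ _⟩,
        Complex.norm_mul_exp_arg_mul_I z⟩
  rw [← h]
  exact (isPreconnected_Ioo.prod isPreconnected_univ).image _ (by fun_prop)

theorem limit_of_sq {g : ℂ → ℂ} {r : ℝ} {c : ℂ} (hr : 0 < r) (hg : ContinuousOn g (pun r))
    (hc : c ≠ 0) (h : Tendsto (fun z => g z ^ 2) (𝓝[≠] 0) (𝓝 c)) :
    ∃ d : ℂ, d ^ 2 = c ∧ Tendsto g (𝓝[≠] 0) (𝓝 d) := by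
  obtain ⟨d, hd⟩ := IsAlgClosed.exists_pow_nat_eq c (n := 2) (by norm_num)
  have hd0 : d ≠ 0 := by
    rintro rfl
    exact hc (by simpa using hd.symm)
  have hδ : 0 < ‖d‖ := norm_pos_iff.2 hd0
  -- a smaller disc
  have hev : ∀ᶠ z in 𝓝[≠] (0 : ℂ), ‖g z ^ 2 - c‖ < ‖d‖ ^ 2 := by
    have := (Metric.tendsto_nhds.1 h) (‖d‖ ^ 2) (by positivity)
    simpa [dist_eq_norm] using this
  obtain ⟨ε, hε, hε'⟩ := Metric.mem_nhdsWithin_iff.1 hev
  set r' := min ε r with hr'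
  have hr'0 : 0 < r' := lt_min hε hr
  have hb : ∀ z ∈ pun r', ‖g z ^ 2 - c‖ < ‖d‖ ^ 2 := by
    intro z hz
    exact hε' ⟨ball_subset_ball (min_le_left _ _) hz.1, hz.2⟩
  have hfac : ∀ z, g z ^ 2 - c = (g z - d) * (g z + d) := fun z => by rw [← hd]; ring
  have hor : ∀ z ∈ pun r', g z ∈ ball d ‖d‖ ∪ ball (-d) ‖d‖ := by
    intro z hz
    by_contra hcon
    rw [mem_union, not_or, mem_ball, mem_ball, not_lt, not_lt, dist_eq_norm, dist_eq_norm,
      sub_neg_eq_add] at hcon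
    have := hb z hz
    rw [hfac, norm_mul] at this
    nlinarith [hcon.1, hcon.2, mul_le_mul hcon.1 hcon.2 hδ.le (norm_nonneg _)]
  have hdis : Disjoint (ball d ‖d‖) (ball (-d) ‖d‖) := by
    refine ball_disjoint_ball ?_
    rw [dist_eq_norm]
    have : d - -d = 2 * d := by ring
    rw [this, norm_mul]
    simp
    linarith
  have hpre : IsPreconnected (g '' pun r') :=
    (pun_preconnected r').image g (hg.mono (pun_mono (min_le_right _ _)))
  have main : ∀ e : ℂ, e ^ 2 = c → ‖e‖ = ‖d‖ → g '' pun r' ⊆ ball e ‖d‖ →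
      Tendsto g (𝓝[≠] 0) (𝓝 e) := by
    intro e he hen hsub
    rw [tendsto_iff_norm_sub_tendsto_zero]
    have h0 : Tendsto (fun z => ‖g z ^ 2 - c‖ / ‖d‖) (𝓝[≠] 0) (𝓝 0) := by
      have := (tendsto_iff_norm_sub_tendsto_zero.1 h).div_const ‖d‖
      simpa using this
    refine squeeze_zero' (Eventually.of_forall fun z => norm_nonneg _) ?_ h0
    filter_upwards [pun_mem_nhds hr'0] with z hz
    have hz1 : ‖g z - e‖ < ‖d‖ := by
      have := hsub ⟨z, hz, rfl⟩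
      rwa [mem_ball, dist_eq_norm] at this
    have hz2 : ‖d‖ ≤ ‖g z + e‖ := by
      have h3 : (2 : ℂ) * e = (g z + e) - (g z - e) := by ring
      have h4 : ‖(2 : ℂ) * e‖ = 2 * ‖d‖ := by rw [norm_mul, hen]; simp
      have h5 := norm_sub_le (g z + e) (g z - e)
      rw [← h3, h4] at h5
      linarith
    rw [le_div_iff₀ hδ]
    have : g z ^ 2 - c = (g z - e) * (g z + e) := by rw [← he]; ring
    rw [this, norm_mul]
    exact mul_le_mul_of_nonneg_left hz2 (norm_nonneg _)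
  rcases hpre.subset_or_subset isOpen_ball isOpen_ball hdis
    (by rintro _ ⟨z, hz, rfl⟩; exact hor z hz) with h1 | h1
  · exact ⟨d, hd, main d hd rfl h1⟩
  · exact ⟨-d, by rw [neg_sq, hd], main (-d) (by rw [neg_sq, hd]) (norm_neg d) h1⟩


/-- constants: shrinking the radius by the factor `4` in the logarithmic energy bound -/
theorem log_shrink {R ρ C C' : ℝ} (hR : 0 < R) (hρ : 0 < ρ) (hρR : ρ < R / 4) (hC : 0 ≤ C)
    (hC' : C * (1 + Real.log 4) ≤ C') :
    C * (1 + Real.log (R / ρ)) ≤ C' * (1 + Real.log (R / 4 / ρ)) := by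
  have h4 : 0 < Real.log 4 := Real.log_pos (by norm_num)
  have hl : 0 < Real.log (R / 4 / ρ) := Real.log_pos (by rw [lt_div_iff₀ hρ]; linarith)
  have he : Real.log (R / ρ) = Real.log 4 + Real.log (R / 4 / ρ) := by
    rw [← Real.log_mul (by norm_num) (by positivity)]
    congr 1
    field_simp
  rw [he]
  have h1 : C * (1 + (Real.log 4 + Real.log (R / 4 / ρ))) ≤
      C * (1 + Real.log 4) * (1 + Real.log (R / 4 / ρ)) := by
    have : 0 ≤ C * (Real.log 4 * Real.log (R / 4 / ρ)) := by positivity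
    nlinarith
  exact h1.trans (mul_le_mul_of_nonneg_right hC' (by linarith))

theorem specZero (hKF : SpecKF) (hZQ : SpecZQR) (hZA : SpecZAlg) (hZG : SpecZGrow)
    (hZf : SpecZLogF) (hZs : SpecZLogS) (hPA : SpecPuncA) (hPC : SpecPuncC) (hT : SpecTwc)
    (hB : SpecBel) (hC1 : SpecC1WD) : SpecZero := by
  intro p n r f hp hz
  obtain ⟨kf, hk⟩ := hKF p hp
  obtain ⟨κ, hκ0, hκ1, hQ⟩ := hZQ p kf hp hk
  obtain ⟨Sx, Sy, hSW, hSne, hSb⟩ := hQ n r f hz
  obtain ⟨r1, ℓS, hr1, hr1r, hℓS, hSe⟩ := hZs p kf hp hk n r f hz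
  obtain ⟨r2, ℓf, hr2, hr2r, hℓf, hfe⟩ := hZf p n r f hp hz
  obtain ⟨C3, r3, hr3, hr3r, hgr⟩ := hZG p kf hp hk n r f hz
  have hZA' := hZA p kf hp hk n r f hz
  set R := min r1 (min r2 r3) with hR
  have hR0 : 0 < R := lt_min hr1 (lt_min hr2 hr3)
  have hR1 : R ≤ r1 := min_le_left _ _
  have hR2 : R ≤ r2 := (min_le_right _ _).trans (min_le_left _ _)
  have hR3 : R ≤ r3 := (min_le_right _ _).trans (min_le_right _ _)
  have hRr : R ≤ r := hR1.trans hr1r
  set Q := 2 * (1 + κ ^ 2) / (1 - κ ^ 2) with hQd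
  have hQ0 : 0 < Q := by
    have : 0 < 1 - κ ^ 2 := by nlinarith
    positivity
  have hQS : QR (pun r) Q (Sz n f) Sx Sy := by
    refine ⟨hSW, ?_⟩
    filter_upwards [hSb] with z hz'
    exact hB _ _ κ hκ0 hκ1 (hz'.trans (mul_le_mul_of_nonneg_right (min_le_left _ _)
      (norm_nonneg _)))
  have hPS : PF R Q n (Sz n f) Sx Sy ℓS :=
    ⟨hR0, QR_mono hQS (pun_open R) (pun_mono hRr), hℓS.mono (pun_mono hR1),
      fun z hz => hSe z (pun_mono hR1 hz)⟩
  have hS0 : Tendsto (Sz n f) (𝓝[≠] 0) (𝓝 0) :=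
    hPA R Q n _ _ _ _ hQ0 hz.n1 hPS ⟨C3, fun z hz => hgr z (pun_mono hR3 hz)⟩
  obtain ⟨C4, α, hC4, hα, hS1, hS2⟩ := hPC R Q n _ _ _ _ hQ0 hz.n1 hPS hS0
  set ρ := R / 4 with hρd
  have hρ0 : 0 < ρ := by positivity
  have hρr : ρ ≤ r := by linarith
  have h4 : 0 < Real.log 4 := Real.log_pos (by norm_num)
  -- bounds of `k`
  set kM := kf (Real.sqrt (C4 * ρ ^ α)) with hkM
  have hkM1 : 1 ≤ kM := hk.one _ (Real.sqrt_nonneg _)
  have hkb : ∀ z ∈ pun ρ, kf (Real.sqrt ‖Sz n f z‖) ≤ kM := by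
    intro z hz
    refine hk.mono _ _ (Real.sqrt_nonneg _) (Real.sqrt_le_sqrt ((hS1 z hz).trans ?_))
    exact mul_le_mul_of_nonneg_left (Real.rpow_le_rpow (norm_nonneg _) (mem_pun.1 hz).1.le hα.le) hC4
  have hk1 : ∀ z, 1 ≤ kf (Real.sqrt ‖Sz n f z‖) := fun z => hk.one _ (Real.sqrt_nonneg _)
  have hkm : ∀ z ∈ pun ρ, kf (Real.sqrt ‖Sz n f z‖) ^ 2 - 1 ≤ kM ^ 2 * C4 * ‖z‖ ^ α := by
    intro z hz
    have h1 := hk.small (Real.sqrt ‖Sz n f z‖) (Real.sqrt_nonneg _)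
    rw [Real.sq_sqrt (norm_nonneg _)] at h1
    calc kf (Real.sqrt ‖Sz n f z‖) ^ 2 - 1 ≤ kf (Real.sqrt ‖Sz n f z‖) ^ 2 * ‖Sz n f z‖ := h1
      _ ≤ kM ^ 2 * (C4 * ‖z‖ ^ α) := by
        refine mul_le_mul (pow_le_pow_left₀ (by linarith [hk1 z]) (hkb z hz) 2) (hS1 z hz)
          (norm_nonneg _) (by positivity)
      _ = kM ^ 2 * C4 * ‖z‖ ^ α := by ring
  -- `S` is asymptotically conformal
  have hTS : TW ρ Q (max (kM ^ 2 * C4) (C4 * (1 + Real.log 4))) α n (Sz n f) Sx Sy ℓS := by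
    refine ⟨PF_mono hPS hρ0 (by linarith), hQ0, hα, le_max_of_le_left (by positivity), ?_, ?_⟩
    · have h1 := ae_restrict_of_ae_restrict_of_subset (pun_mono hρr) hSb
      filter_upwards [h1, ae_restrict_mem (pun_open ρ).measurableSet] with z h1 h2
      refine h1.trans (mul_le_mul_of_nonneg_right ((min_le_right _ _).trans
        ((hkm z h2).trans ?_)) (norm_nonneg _))
      exact mul_le_mul_of_nonneg_right (le_max_left _ _) (Real.rpow_nonneg (norm_nonneg _) _)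
    · intro s hs hsρ
      refine (hS2 s hs hsρ).trans (ENNReal.ofReal_le_ofReal ?_)
      exact log_shrink hR0 hs hsρ hC4 (le_max_right _ _)
  obtain ⟨aS, haS⟩ := hT _ _ _ _ _ _ _ _ _ hTS
  -- the map `f`
  set κ' := (kM - 1) / (kM + 1) with hκ'
  have hκ'0 : 0 ≤ κ' := div_nonneg (by linarith) (by linarith)
  have hκ'1 : κ' < 1 := by rw [hκ', div_lt_one (by linarith)]; linarith
  set Q' := 2 * (1 + κ' ^ 2) / (1 - κ' ^ 2) with hQd'
  have hQ0' : 0 < Q' := by
    have : 0 < 1 - κ' ^ 2 := by nlinarith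
    positivity
  have hfc1 : ContDiffOn ℝ 1 f (pun ρ) := hz.c1.mono (pun_mono hρr)
  set fx := (pun ρ).indicator (fun z => fderiv ℝ f z 1) with hfx
  set fy := (pun ρ).indicator (fun z => fderiv ℝ f z I) with hfy
  have hfxe : ∀ z ∈ pun ρ, fx z = fderiv ℝ f z 1 := fun z hz => indicator_of_mem hz _
  have hfye : ∀ z ∈ pun ρ, fy z = fderiv ℝ f z I := fun z hz => indicator_of_mem hz _
  have hQf : QR (pun ρ) Q' f fx fy := by
    refine ⟨WP_of_C1 hC1 (by norm_num) (by norm_num) (pun_open ρ) hfc1, ?_⟩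
    filter_upwards [ae_restrict_mem (pun_open ρ).measurableSet] with z hzρ
    refine hB _ _ κ' hκ'0 hκ'1 ?_
    rw [hfxe z hzρ, hfye z hzρ]
    refine (hZA' z (pun_mono hρr hzρ)).2.2.1.trans (mul_le_mul_of_nonneg_right ?_ (norm_nonneg _))
    have e1 := hk1 z
    have e2 := hkb z hzρ
    rw [hκ', div_le_div_iff₀ (by linarith) (by linarith)]
    nlinarith
  have hPf : PF ρ Q' 1 f fx fy ℓf :=
    ⟨hρ0, hQf, hℓf.mono (pun_mono (by linarith)), fun z hz => by
      rw [pow_one]; exact hfe z (pun_mono (by linarith) hz)⟩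
  have hf0 : Tendsto f (𝓝[≠] 0) (𝓝 0) := by
    have h1 : ContinuousAt f 0 := hz.co.continuousAt (ball_mem_nhds 0 hz.r0)
    have h2 := h1.tendsto
    rw [hz.z0] at h2
    exact h2.mono_left nhdsWithin_le_nhds
  obtain ⟨C6, β, hC6, -, -, hf2⟩ := hPC ρ Q' 1 _ _ _ _ hQ0' le_rfl hPf hf0
  set σ := ρ / 4 with hσd
  have hσ0 : 0 < σ := by positivity
  have hσρ : σ ≤ ρ := by linarith
  have hfb : ∀ z ∈ pun ρ, ‖fderiv ℝ f z 1 + I * fderiv ℝ f z I‖ ≤
      kM ^ 2 * C4 * ‖z‖ ^ α * ‖fderiv ℝ f z 1 - I * fderiv ℝ f z I‖ := fun z hz =>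
    (hZA' z (pun_mono hρr hz)).2.1.trans (mul_le_mul_of_nonneg_right (hkm z hz) (norm_nonneg _))
  have hTf : TW σ Q' (max (kM ^ 2 * C4) (C6 * (1 + Real.log 4))) α 1 f fx fy ℓf := by
    refine ⟨PF_mono hPf hσ0 hσρ, hQ0', hα, le_max_of_le_left (by positivity), ?_, ?_⟩
    · filter_upwards [ae_restrict_mem (pun_open σ).measurableSet] with z hzσ
      have hzρ := pun_mono hσρ hzσ
      rw [hfxe z hzρ, hfye z hzρ]
      refine (hfb z hzρ).trans (mul_le_mul_of_nonneg_right ?_ (norm_nonneg _))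
      exact mul_le_mul_of_nonneg_right (le_max_left _ _) (Real.rpow_nonneg (norm_nonneg _) _)
    · intro s hs hsρ
      refine (hf2 s hs hsρ).trans (ENNReal.ofReal_le_ofReal ?_)
      exact log_shrink hρ0 hs hsρ hC6 (le_max_right _ _)
  obtain ⟨af, haf⟩ := hT _ _ _ _ _ _ _ _ _ hTf
  -- the limit of `f_z`
  set A : ℂ → ℂ := fun z => (fderiv ℝ f z 1 - I * fderiv ℝ f z I) / 2 with hA
  set B : ℂ → ℂ := fun z => (fderiv ℝ f z 1 + I * fderiv ℝ f z I) / 2 with hBd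
  have hν : ∀ z : ℂ, ∃ ν : ℂ, z ∈ pun ρ → ‖ν‖ < 1 ∧ ‖ν‖ ≤ kM ^ 2 * C4 * ‖z‖ ^ α ∧
      Sz n f z = Psn n (f z) * A z ^ 2 * (1 + ν) ^ 2 := by
    intro z
    by_cases h : z ∈ pun ρ
    · obtain ⟨ν, h1, h2, h3⟩ := (hZA' z (pun_mono hρr h)).2.2.2
      exact ⟨ν, fun _ => ⟨h1, h2.trans (hkm z h), h3⟩⟩
    · exact ⟨0, fun h' => absurd h' h⟩
  choose ν hν using hν
  have hpow0 : Tendsto (fun z : ℂ => kM ^ 2 * C4 * ‖z‖ ^ α) (𝓝[≠] 0) (𝓝 0) := by
    have h1 : Tendsto (fun z : ℂ => ‖z‖ ^ α) (𝓝 0) (𝓝 0) := by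
      have : Continuous fun z : ℂ => ‖z‖ ^ α :=
        continuous_norm.rpow_const fun z => Or.inr hα.le
      have h2 := this.tendsto 0
      simpa [Real.zero_rpow hα.ne'] using h2
    simpa using (h1.const_mul (kM ^ 2 * C4)).mono_left nhdsWithin_le_nhds
  have hν0 : Tendsto ν (𝓝[≠] 0) (𝓝 0) := by
    rw [tendsto_zero_iff_norm_tendsto_zero]
    refine squeeze_zero' (Eventually.of_forall fun z => norm_nonneg _) ?_ hpow0
    filter_upwards [pun_mem_nhds hρ0] with z hz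
    exact (hν z hz).2.1
  set cn : ℂ := (((n : ℂ) + 2) / 2) ^ 2 with hcn
  have hcn0 : cn ≠ 0 := by
    have : ((n : ℂ) + 2) ≠ 0 := by exact_mod_cast (by positivity : ((n : ℝ) + 2) ≠ 0)
    rw [hcn]
    exact pow_ne_zero _ (div_ne_zero this (by norm_num))
  have hAe : ∀ z ∈ pun σ, A z ^ 2 = Complex.exp (ℓS z - n * ℓf z) / (cn * (1 + ν z) ^ 2) := by
    intro z hzσ
    have hzρ := pun_mono hσρ hzσ
    obtain ⟨h1, -, h3⟩ := hν z hzρ
    have hν1 : 1 + ν z ≠ 0 := by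
      intro h
      have : ν z = -1 := by linear_combination h
      rw [this] at h1
      simp at h1
    have e1 := hSe z (pun_mono (by linarith) hzρ)
    have e2 := hfe z (pun_mono (by linarith) hzρ)
    rw [h3, Psn, e2, mul_pow, ← Complex.exp_nat_mul, ← hcn] at e1
    rw [Complex.exp_sub, eq_div_iff (mul_ne_zero hcn0 (pow_ne_zero _ hν1)), eq_div_iff
      (Complex.exp_ne_zero _)]
    have hz0 : z ^ n ≠ 0 := pow_ne_zero _ (mem_pun.1 hzσ).2
    apply mul_left_cancel₀ hz0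
    rw [← e1]
    ring
  have hAlim : Tendsto (fun z => A z ^ 2) (𝓝[≠] 0) (𝓝 (Complex.exp (aS - n * af) / cn)) := by
    have h1 : Tendsto (fun z => Complex.exp (ℓS z - n * ℓf z) / (cn * (1 + ν z) ^ 2)) (𝓝[≠] 0)
        (𝓝 (Complex.exp (aS - n * af) / (cn * (1 + 0) ^ 2))) := by
      refine Tendsto.div ?_ ?_ ?_
      · exact (Complex.continuous_exp.tendsto _).comp (haS.sub (haf.const_mul _))
      · exact ((hν0.const_add 1).pow 2).const_mul _
      · simpa using hcn0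
    have h2 : Tendsto (fun z => A z ^ 2) (𝓝[≠] 0)
        (𝓝 (Complex.exp (aS - n * af) / (cn * (1 + 0) ^ 2))) :=
      h1.congr' (by filter_upwards [pun_mem_nhds hσ0] with z hz; exact (hAe z hz).symm)
    simpa using h2
  have hc0 : Complex.exp (aS - n * af) / cn ≠ 0 := div_ne_zero (Complex.exp_ne_zero _) hcn0
  have hAc : ContinuousOn A (pun ρ) :=
    ((fderiv_cont (pun_open ρ) hfc1 1).sub (continuousOn_const.mul
      (fderiv_cont (pun_open ρ) hfc1 I))).div_const 2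
  obtain ⟨d, hd2, hAd⟩ := limit_of_sq hρ0 hAc hc0 hAlim
  have hd0 : d ≠ 0 := by
    rintro rfl
    exact hc0 (by simpa using hd2.symm)
  have hB0 : Tendsto B (𝓝[≠] 0) (𝓝 0) := by
    rw [tendsto_zero_iff_norm_tendsto_zero]
    have h1 : Tendsto (fun z : ℂ => kM ^ 2 * C4 * ‖z‖ ^ α * ‖A z‖) (𝓝[≠] 0) (𝓝 (0 * ‖d‖)) :=
      hpow0.mul hAd.norm
    rw [zero_mul] at h1
    refine squeeze_zero' (Eventually.of_forall fun z => norm_nonneg _) ?_ h1
    filter_upwards [pun_mem_nhds hρ0] with z hz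
    have h2 := hfb z hz
    simp only [hBd, hA, norm_div]
    rw [mul_div_assoc'] 
    exact div_le_div_of_nonneg_right h2 (norm_nonneg _)
  have hL : Tendsto (fderiv ℝ f) (𝓝[≠] 0) (𝓝 (lmap d (I * d))) := by
    have h1 : Tendsto (fun z => (A z + B z, I * (A z - B z))) (𝓝[≠] 0)
        (𝓝 (d + 0, I * (d - 0))) :=
      (hAd.add hB0).prodMk_nhds ((hAd.sub hB0).const_mul I)
    have h2 := (continuous_lmap.tendsto _).comp h1
    simp only [add_zero, sub_zero] at h2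
    refine h2.congr fun z => ?_
    simp only [Function.comp]
    have e1 : A z + B z = fderiv ℝ f z 1 := by simp only [hA, hBd]; ring
    have e2 : I * (A z - B z) = fderiv ℝ f z I := by
      simp only [hA, hBd]
      have : I * I = -1 := Complex.I_mul_I
      linear_combination (-(fderiv ℝ f z I)) * this
    rw [e1, e2]
    exact (eq_lmap _).symm
  obtain ⟨m1, m2⟩ := c1_of_tendsto hz.r0 hz.co hz.c1 hL
  refine ⟨m1, ?_⟩
  rw [m2, lmap_one, lmap_I]
  have : jac d (I * d) = Complex.normSq d := by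
    simp [jac, Complex.normSq_apply]
  rw [this]
  exact Complex.normSq_pos.2 hd0

end MPfa.Reg.ZeroM

namespace MPfa.Reg

theorem specZero (hKF : SpecKF) (hZQ : SpecZQR) (hZA : SpecZAlg) (hZG : SpecZGrow)
    (hZf : SpecZLogF) (hZs : SpecZLogS) (hPA : SpecPuncA) (hPC : SpecPuncC) (hT : SpecTwc)
    (hB : SpecBel) (hC1 : SpecC1WD) : SpecZero :=
  ZeroM.specZero hKF hZQ hZA hZG hZf hZs hPA hPC hT hB hC1

end MPfa.Reg
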