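import Pool.Agent.Lib.MP_fa0334_an.Bump

/-!
Problem MP_fa0334_an, module THETA: expansion of the transported energy density.
-/

set_option autoImplicit false

open MeasureTheory Set Filter Topology Metric Complex
open scoped ContDiff ENNReal ComplexConjugate

namespace MPfa

namespace Theta

/-- the numerator of the transported norm -/
noncomputable def NN (a b m₁ m₂ : ℂ) : ℝ :=
  ((m₂.im ^ 2 + m₂.re ^ 2) * ‖a‖ ^ 2 - 2 * (m₂.im * m₁.im + m₂.re * m₁.re) * (a * conj b).re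
    + (m₁.im ^ 2 + m₁.re ^ 2) * ‖b‖ ^ 2) / 2

lemma n2_lm (a b m₁ m₂ : ℂ) (h : jac m₁ m₂ ≠ 0) :
    n2 (lmap a b (iv1 m₁ m₂)) (lmap a b (iv2 m₁ m₂)) = NN a b m₁ m₂ / jac m₁ m₂ ^ 2 := by
  simp only [n2, Alg.sqn, Alg.lmap_apply, iv1, iv2, NN]
  simp
  field_simp
  ring

lemma jac_lm (a b m₁ m₂ : ℂ) (h : jac m₁ m₂ ≠ 0) :
    jac (lmap a b (iv1 m₁ m₂)) (lmap a b (iv2 m₁ m₂)) = jac a b / jac m₁ m₂ := by
  rw [Alg.lmap_apply, Alg.lmap_apply]
  have e : jac ((↑(iv1 m₁ m₂).re : ℂ) * a + ↑(iv1 m₁ m₂).im * b)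
      ((↑(iv2 m₁ m₂).re : ℂ) * a + ↑(iv2 m₁ m₂).im * b) =
      jac a b * ((iv1 m₁ m₂).re * (iv2 m₁ m₂).im - (iv1 m₁ m₂).im * (iv2 m₁ m₂).re) := by
    simp only [jac]
    simp
    ring
  rw [e, div_eq_mul_inv]
  congr 1
  simp only [iv1, iv2]
  have h2 : jac m₁ m₂ = m₁.re * m₂.im - m₁.im * m₂.re := rfl
  field_simp
  rw [h2]
  ring

/-- normalised estimate -/
lemma core {M t x1 y1 x2 y2 u v c δ ν : ℝ} (hM : 0 ≤ M) (hx1 : |x1| ≤ M) (hy1 : |y1| ≤ M)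
    (hx2 : |x2| ≤ M) (hy2 : |y2| ≤ M) (hu : |u| ≤ 1) (hv : |v| ≤ 1) (ht : 8 * M * |t| ≤ 1)
    (hcd : c = -(u * (x1 - y2) + v * (y1 + x2)))
    (hδd : δ = (1 + t * x1) * (1 + t * y2) - t * y1 * (t * x2))
    (hνd : ν = (((1 + t * y2) ^ 2 + (t * x2) ^ 2) * (1 + u)
      - 2 * ((1 + t * y2) * (t * y1) + (t * x2) * (1 + t * x1)) * v
      + ((t * y1) ^ 2 + (1 + t * x1) ^ 2) * (1 - u)) / 2) :
    1 / 2 ≤ δ ∧ |c| ≤ 4 * M ∧ |ν / δ - 1 - t * c| ≤ 30 * M ^ 2 * t ^ 2 := by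
  have habs : ∀ z w A B' : ℝ, |z| ≤ A → |w| ≤ B' → 0 ≤ A → |z * w| ≤ A * B' := by
    intro z w A B' hz hw hA
    rw [abs_mul]
    exact mul_le_mul hz hw (abs_nonneg _) hA
  have hc : |c| ≤ 4 * M := by
    have h1 : |x1 - y2| ≤ 2 * M := (abs_sub _ _).trans (by linarith)
    have h2 : |y1 + x2| ≤ 2 * M := (abs_add_le _ _).trans (by linarith)
    have h3 := habs _ _ _ _ hu h1 zero_le_one
    have h4 := habs _ _ _ _ hv h2 zero_le_one
    calc |c| = |u * (x1 - y2) + v * (y1 + x2)| := by rw [hcd, abs_neg]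
      _ ≤ |u * (x1 - y2)| + |v * (y1 + x2)| := abs_add_le _ _
      _ ≤ 4 * M := by linarith
  obtain ⟨τ, hτ⟩ : ∃ τ : ℝ, τ = x1 + y2 := ⟨_, rfl⟩
  obtain ⟨D, hD⟩ : ∃ D : ℝ, D = x1 * y2 - y1 * x2 := ⟨_, rfl⟩
  obtain ⟨q, hq⟩ : ∃ q : ℝ, q = ((y2 ^ 2 + x2 ^ 2) * (1 + u) + (y1 ^ 2 + x1 ^ 2) * (1 - u)
    - 2 * (y1 * y2 + x1 * x2) * v) / 2 := ⟨_, rfl⟩
  have hτb : |τ| ≤ 2 * M := by rw [hτ]; exact (abs_add_le _ _).trans (by linarith)
  have hM2 : 0 ≤ M * M := mul_nonneg hM hM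
  have h12 := habs _ _ _ _ hx1 hy2 hM
  have h34 := habs _ _ _ _ hy1 hx2 hM
  have h56 := habs _ _ _ _ hy1 hy2 hM
  have h78 := habs _ _ _ _ hx1 hx2 hM
  have hDb : |D| ≤ 2 * (M * M) := by rw [hD]; exact (abs_sub _ _).trans (by linarith)
  have hsq : ∀ z : ℝ, |z| ≤ M → z ^ 2 ≤ M * M := by
    intro z hz
    have := sq_le_sq' (abs_le.1 hz).1 (abs_le.1 hz).2
    nlinarith
  have hu' := abs_le.1 hu
  have hqb : |q| ≤ 4 * (M * M) := by
    have k1 : 0 ≤ (y2 ^ 2 + x2 ^ 2) * (1 + u) := mul_nonneg (by positivity) (by linarith)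
    have k2 : 0 ≤ (y1 ^ 2 + x1 ^ 2) * (1 - u) := mul_nonneg (by positivity) (by linarith)
    have k3 : (y2 ^ 2 + x2 ^ 2) * (1 + u) ≤ 2 * (M * M) * (1 + u) :=
      mul_le_mul_of_nonneg_right (by linarith [hsq _ hy2, hsq _ hx2]) (by linarith)
    have k4 : (y1 ^ 2 + x1 ^ 2) * (1 - u) ≤ 2 * (M * M) * (1 - u) :=
      mul_le_mul_of_nonneg_right (by linarith [hsq _ hy1, hsq _ hx1]) (by linarith)
    have k5 : |y1 * y2 + x1 * x2| ≤ 2 * (M * M) := (abs_add_le _ _).trans (by linarith)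
    have k6 := habs _ _ _ _ k5 hv (by positivity)
    have k7 := abs_le.1 k6
    rw [abs_le]
    constructor
    · rw [hq]; linarith [k7.1, k7.2]
    · rw [hq]; linarith [k7.1, k7.2]
  have hδe : δ = 1 + t * τ + t ^ 2 * D := by
    rw [hδd, hτ, hD]; ring
  have hνe : ν = 1 + t * (τ + c) + t ^ 2 * q := by
    rw [hνd, hτ, hq, hcd]; ring
  have htM : |t| * M ≤ 1 / 8 := by linarith
  have h1 : |t * τ| ≤ 1 / 4 := by
    rw [abs_mul]
    have := mul_le_mul_of_nonneg_left hτb (abs_nonneg t)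
    linarith
  have htt : t ^ 2 = |t| * |t| := by rw [← abs_mul, abs_mul_self, sq]
  have h2 : |t ^ 2 * D| ≤ 1 / 4 := by
    rw [abs_mul, abs_of_nonneg (sq_nonneg t), htt]
    have e := mul_le_mul_of_nonneg_left hDb (mul_nonneg (abs_nonneg t) (abs_nonneg t))
    have e2 : (|t| * M) * (|t| * M) ≤ 1 / 8 * (1 / 8) :=
      mul_le_mul htM htM (by positivity) (by norm_num)
    have e3 : |t| * |t| * (2 * (M * M)) = 2 * ((|t| * M) * (|t| * M)) := by ring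
    linarith
  have hδ : 1 / 2 ≤ δ := by
    rw [hδe]
    have := (abs_le.1 h1).1
    have := (abs_le.1 h2).1
    linarith
  refine ⟨hδ, hc, ?_⟩
  have hδ0 : 0 < δ := by linarith
  have hkey : ν / δ - 1 - t * c = t ^ 2 * (q - D - τ * c - t * (D * c)) / δ := by
    rw [eq_div_iff hδ0.ne']
    have : (ν / δ - 1 - t * c) * δ = ν - δ * (1 + t * c) := by
      field_simp
      ring
    rw [this, hδe, hνe]
    ring
  rw [hkey, abs_div, abs_of_pos hδ0, div_le_iff₀ hδ0, abs_mul, abs_of_nonneg (sq_nonneg t)]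
  have h3 : |τ * c| ≤ 2 * M * (4 * M) := habs _ _ _ _ hτb hc (by positivity)
  have h4 : |D * c| ≤ 2 * (M * M) * (4 * M) := habs _ _ _ _ hDb hc (by positivity)
  have h5 : |t * (D * c)| ≤ M * M := by
    rw [abs_mul]
    have e := mul_le_mul_of_nonneg_left h4 (abs_nonneg t)
    have e2 : |t| * (2 * (M * M) * (4 * M)) = 8 * (|t| * M) * (M * M) := by ring
    rw [e2] at e
    have e3 := mul_le_mul_of_nonneg_right (by linarith : 8 * (|t| * M) ≤ 1) hM2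
    linarith
  have h6 : |q - D - τ * c - t * (D * c)| ≤ 15 * (M * M) := by
    calc |q - D - τ * c - t * (D * c)| ≤ |q - D - τ * c| + |t * (D * c)| := abs_sub _ _
      _ ≤ |q - D| + |τ * c| + |t * (D * c)| := by linarith [abs_sub (q - D) (τ * c)]
      _ ≤ |q| + |D| + |τ * c| + |t * (D * c)| := by linarith [abs_sub q D]
      _ ≤ 15 * (M * M) := by linarith
  have h7 := mul_le_mul_of_nonneg_left h6 (sq_nonneg t)
  have h8 : 30 * M ^ 2 * t ^ 2 * (1 / 2) ≤ 30 * M ^ 2 * t ^ 2 * δ :=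
    mul_le_mul_of_nonneg_left hδ (by positivity)
  have h9 : t ^ 2 * (15 * (M * M)) = 30 * M ^ 2 * t ^ 2 * (1 / 2) := by ring
  linarith

/-- upper bound of a power -/
lemma pow_le {p R : ℝ} (hp : 0 < p) (hR : 0 < R) (h : |p * (R - 1)| ≤ 1) :
    R ^ p ≤ 1 + p * (R - 1) + p ^ 2 * (R - 1) ^ 2 := by
  have h1 : R ^ p ≤ Real.exp (p * (R - 1)) := by
    rw [Real.rpow_def_of_pos hR, mul_comm]
    exact Real.exp_le_exp.2 (mul_le_mul_of_nonneg_left (Real.log_le_sub_one_of_pos hR) hp.le)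
  have h2 := Real.abs_exp_sub_one_sub_id_le h
  have h3 := (abs_le.1 h2).2
  nlinarith

lemma rpow_alg {p N δ n J : ℝ} (hN : 0 < N) (hδ : 0 < δ) (hn : 0 < n) (hJ : 0 < J) :
    δ * ((N / δ ^ 2) ^ p / (J / δ) ^ (p - 1)) = n ^ p / J ^ (p - 1) * (N / n / δ) ^ p := by
  have e1 : (N / δ ^ 2) ^ p = N ^ p / (δ ^ p * δ ^ p) := by
    rw [Real.div_rpow hN.le (by positivity), pow_two, Real.mul_rpow hδ.le hδ.le]
  have e2 : (J / δ) ^ (p - 1) = J ^ (p - 1) / (δ ^ p / δ) := by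
    rw [Real.div_rpow hJ.le hδ.le, Real.rpow_sub_one hδ.ne']
  have e3 : (N / n / δ) ^ p = N ^ p / n ^ p / δ ^ p := by
    rw [Real.div_rpow (by positivity) hδ.le, Real.div_rpow hN.le hn.le]
  rw [e1, e2, e3]
  have h1 : 0 < δ ^ p := Real.rpow_pos_of_pos hδ _
  have h2 : 0 < n ^ p := Real.rpow_pos_of_pos hn _
  have h3 : 0 < J ^ (p - 1) := Real.rpow_pos_of_pos hJ _
  field_simp

end Theta

/-- module THETA -/
theorem specTheta : SpecTheta := by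
  intro p hp B
  set M : ℝ := |B| with hMdef
  have hM : 0 ≤ M := abs_nonneg _
  have hp0 : 0 < p := by linarith
  refine ⟨1 / (8 * p * (1 + M)), by positivity, 30 * p * M ^ 2 + 64 * p ^ 2 * M ^ 2 + 1,
    by positivity, ?_⟩
  intro a b e₁ e₂ hPP he₁ he₂ t ht
  have he₁' : ‖e₁‖ ≤ M := he₁.trans (le_abs_self B)
  have he₂' : ‖e₂‖ ≤ M := he₂.trans (le_abs_self B)
  rcases (Alg.PP_lt p a b).1 hPP with ⟨rfl, rfl⟩ | hJ
  · have h0 : ∀ m : ℂ, lmap 0 0 m = 0 := fun m => by simp [Alg.lmap_apply]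
    simp [PT, h0, Alg.PP_zero]
  -- smallness of t
  have ht8 : 8 * p * (1 + M) * |t| ≤ 1 := by
    have := ht.le
    rw [le_div_iff₀ (by positivity)] at this
    linarith
  have ht1 : 8 * M * |t| ≤ 1 := by
    have h1 : M * |t| ≤ (1 + M) * |t| := mul_le_mul_of_nonneg_right (by linarith) (abs_nonneg _)
    have h2 : (1 + M) * |t| ≤ p * ((1 + M) * |t|) :=
      le_mul_of_one_le_left (by positivity) hp.le
    nlinarith
  have ht2 : 8 * p * M * |t| ≤ 1 := by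
    have h1 : p * (M * |t|) ≤ p * ((1 + M) * |t|) :=
      mul_le_mul_of_nonneg_left (mul_le_mul_of_nonneg_right (by linarith) (abs_nonneg _)) hp0.le
    nlinarith
  -- normalised data
  set n : ℝ := n2 a b with hn
  have hn0 : 0 < n := Alg.n2_pos_of_jac hJ
  set u : ℝ := (‖a‖ ^ 2 - ‖b‖ ^ 2) / (2 * n) with hu
  set v : ℝ := (a * conj b).re / n with hv
  have hn' : n = (‖a‖ ^ 2 + ‖b‖ ^ 2) / 2 := rfl
  have hua : ‖a‖ ^ 2 = n * (1 + u) := by rw [hu]; field_simp; rw [hn']; ring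
  have hub : ‖b‖ ^ 2 = n * (1 - u) := by rw [hu]; field_simp; rw [hn']; ring
  have hva : (a * conj b).re = n * v := by rw [hv]; field_simp
  have hu1 : |u| ≤ 1 := by
    rw [abs_le]
    constructor
    · nlinarith [sq_nonneg ‖a‖]
    · nlinarith [sq_nonneg ‖b‖]
  have hv1 : |v| ≤ 1 := by
    rw [hv, abs_div, abs_of_pos hn0, div_le_one hn0]
    calc |(a * conj b).re| ≤ ‖a * conj b‖ := Complex.abs_re_le_norm _
      _ = ‖a‖ * ‖b‖ := by rw [norm_mul, Complex.norm_conj]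
      _ ≤ n := by rw [hn']; nlinarith [sq_nonneg (‖a‖ - ‖b‖)]
  have hx1 : |e₁.re| ≤ M := (Complex.abs_re_le_norm _).trans he₁'
  have hy1 : |e₁.im| ≤ M := (Complex.abs_im_le_norm _).trans he₁'
  have hx2 : |e₂.re| ≤ M := (Complex.abs_re_le_norm _).trans he₂'
  have hy2 : |e₂.im| ≤ M := (Complex.abs_im_le_norm _).trans he₂'
  obtain ⟨hδ, hc, hR⟩ := Theta.core hM hx1 hy1 hx2 hy2 hu1 hv1 ht1 rfl rfl rfl
  set c : ℝ := -(u * (e₁.re - e₂.im) + v * (e₁.im + e₂.re)) with hcdef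
  set m₁ : ℂ := 1 + t * e₁ with hm₁
  set m₂ : ℂ := I + t * e₂ with hm₂
  have hm1r : m₁.re = 1 + t * e₁.re := by simp [hm₁]
  have hm1i : m₁.im = t * e₁.im := by simp [hm₁]
  have hm2r : m₂.re = t * e₂.re := by simp [hm₂]
  have hm2i : m₂.im = 1 + t * e₂.im := by simp [hm₂]
  have hδe : jac m₁ m₂ =
      (1 + t * e₁.re) * (1 + t * e₂.im) - t * e₁.im * (t * e₂.re) := by
    simp only [jac, hm1r, hm1i, hm2r, hm2i]
  set δ : ℝ := jac m₁ m₂ with hδdef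
  rw [← hδe] at hδ hR
  have hδ0 : 0 < δ := by linarith
  have hNe : Theta.NN a b m₁ m₂ = n * ((((1 + t * e₂.im) ^ 2 + (t * e₂.re) ^ 2) * (1 + u)
      - 2 * ((1 + t * e₂.im) * (t * e₁.im) + (t * e₂.re) * (1 + t * e₁.re)) * v
      + ((t * e₁.im) ^ 2 + (1 + t * e₁.re) ^ 2) * (1 - u)) / 2) := by
    simp only [Theta.NN, hm1r, hm1i, hm2r, hm2i, hua, hub, hva]
    ring
  set ν : ℝ := (((1 + t * e₂.im) ^ 2 + (t * e₂.re) ^ 2) * (1 + u)
      - 2 * ((1 + t * e₂.im) * (t * e₁.im) + (t * e₂.re) * (1 + t * e₁.re)) * v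
      + ((t * e₁.im) ^ 2 + (1 + t * e₁.re) ^ 2) * (1 - u)) / 2 with hν
  have hjl := Theta.jac_lm a b m₁ m₂ hδ0.ne'
  have hnl := Theta.n2_lm a b m₁ m₂ hδ0.ne'
  have hJ' : 0 < jac (lmap a b (iv1 m₁ m₂)) (lmap a b (iv2 m₁ m₂)) := by
    rw [hjl]; exact div_pos hJ hδ0
  have hN0 : 0 < Theta.NN a b m₁ m₂ := by
    have h1 := Alg.n2_pos_of_jac hJ'
    rw [hnl] at h1
    by_contra hcon
    have := div_nonpos_of_nonpos_of_nonneg (not_lt.1 hcon) (sq_nonneg (jac m₁ m₂))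
    linarith
  have hν0 : 0 < ν := by
    rw [hNe] at hN0
    exact (pos_iff_pos_of_mul_pos hN0).1 hn0
  -- the density
  unfold PT
  rw [Alg.PP_pos p hJ', hnl, hjl, ← ENNReal.ofReal_mul hδ0.le, Alg.PP_pos p hJ,
    ENNReal.toReal_ofReal (by positivity)]
  apply ENNReal.ofReal_le_ofReal
  have hNn : Theta.NN a b m₁ m₂ / n = ν := by rw [hNe]; field_simp
  rw [← hδdef, Theta.rpow_alg hN0 hδ0 hn0 hJ, hNn, ← hn]
  obtain ⟨E, hE⟩ : ∃ E : ℝ, E = n ^ p / jac a b ^ (p - 1) := ⟨_, rfl⟩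
  have hE0 : 0 < E := by rw [hE]; positivity
  have hEK : E = n * KK a b ^ (p - 1) := by rw [hE]; exact Alg.PP_eq_KK p hJ
  have hAH : (AH p a b * (e₁ + I * e₂)).re = -2 * E * c := by
    rw [hEK, hcdef]
    unfold AH
    rw [Alg.hopf_eq]
    simp only [Complex.mul_re, Complex.mul_im, Complex.ofReal_re, Complex.ofReal_im, Complex.sub_re,
      Complex.sub_im, Complex.add_re, Complex.add_im, Complex.I_re, Complex.I_im, Complex.re_ofNat,
      Complex.im_ofNat, zero_mul, mul_zero, mul_one, one_mul, sub_zero, add_zero, zero_add,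
      zero_sub]
    simp only [Complex.mul_re, Complex.conj_re, Complex.conj_im] at hva
    simp only [Complex.conj_re, Complex.conj_im]
    rw [hua, hub, hva]
    ring
  rw [← hE, hAH]
  obtain ⟨R, hRd⟩ : ∃ R : ℝ, R = ν / δ := ⟨_, rfl⟩
  rw [← hRd] at hR ⊢
  have hR0 : 0 < R := by rw [hRd]; positivity
  have hMt : 0 ≤ M * |t| := mul_nonneg hM (abs_nonneg _)
  have htt : t ^ 2 = |t| * |t| := by rw [← abs_mul, abs_mul_self, sq]
  have h30 : 30 * M ^ 2 * t ^ 2 ≤ 4 * (M * |t|) := by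
    have h1 : (M * |t|) * (M * |t|) ≤ 1 / 8 * (M * |t|) :=
      mul_le_mul_of_nonneg_right (by linarith) hMt
    have e : 30 * M ^ 2 * t ^ 2 = 30 * ((M * |t|) * (M * |t|)) := by rw [htt]; ring
    rw [e]
    linarith
  have hR1 : |R - 1| ≤ 8 * (M * |t|) := by
    have h1 : |t * c| ≤ 4 * (M * |t|) := by
      rw [abs_mul]
      have := mul_le_mul_of_nonneg_left hc (abs_nonneg t)
      linarith
    calc |R - 1| = |(R - 1 - t * c) + t * c| := by congr 1; ring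
      _ ≤ |R - 1 - t * c| + |t * c| := abs_add_le _ _
      _ ≤ 8 * (M * |t|) := by linarith
  have hpR : |p * (R - 1)| ≤ 1 := by
    rw [abs_mul, abs_of_pos hp0]
    have := mul_le_mul_of_nonneg_left hR1 hp0.le
    linarith
  have hpow := Theta.pow_le hp0 hR0 hpR
  have h64 : (R - 1) ^ 2 ≤ 64 * M ^ 2 * t ^ 2 := by
    have h1 : |R - 1| * |R - 1| ≤ 8 * (M * |t|) * (8 * (M * |t|)) :=
      mul_le_mul hR1 hR1 (abs_nonneg _) (by positivity)
    rw [abs_mul_abs_self] at h1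
    have e : 64 * M ^ 2 * t ^ 2 = 8 * (M * |t|) * (8 * (M * |t|)) := by rw [htt]; ring
    rw [e, sq]
    exact h1
  have hlin : R - 1 ≤ t * c + 30 * M ^ 2 * t ^ 2 := by
    have := (abs_le.1 hR).2
    linarith
  have hfin : R ^ p ≤ 1 + p * (t * c) + (30 * p * M ^ 2 + 64 * p ^ 2 * M ^ 2 + 1) * t ^ 2 := by
    have h1 := mul_le_mul_of_nonneg_left hlin hp0.le
    have h2 := mul_le_mul_of_nonneg_left h64 (sq_nonneg p)
    linarith [sq_nonneg t]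
  have h1 := mul_le_mul_of_nonneg_left hfin hE0.le
  have h2 : E - t * (p / 2) * (-2 * E * c) + (30 * p * M ^ 2 + 64 * p ^ 2 * M ^ 2 + 1) * t ^ 2 * E
      = E * (1 + p * (t * c) + (30 * p * M ^ 2 + 64 * p ^ 2 * M ^ 2 + 1) * t ^ 2) := by ring
  rw [h2]
  exact h1

end MPfa
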