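import Pool.Agent.Lib.MP_fa0334_an.Spec
import Pool.Agent.Lib.MP_fa0334_an.Mu

section
/-!
Problem MP_fa0334_an, module STAR: the fibre near a point consists of full vertical rays.
-/
set_option autoImplicit false

open MeasureTheory Set Filter Topology Metric Complex
open scoped ContDiff ENNReal ComplexConjugate

namespace MPfa

namespace StarM

open MuM

/-! ### topology -/

/-- preimages of connected sets under injective maps of compact sets -/
theorem lift {K T : Set ℂ} {f : ℂ → ℂ} (hK : IsCompact K) (hf : ContinuousOn f K)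
    (hi : InjOn f K) (hT : IsPreconnected T) (hTK : T ⊆ f '' K) :
    IsPreconnected (K ∩ f ⁻¹' T) := by
  have : CompactSpace K := isCompact_iff_compactSpace.1 hK
  have hc : Continuous (K.domRestrict f) := continuousOn_iff_continuous_domRestrict.1 hf
  have he : IsClosedEmbedding (K.domRestrict f) :=
    hc.isClosedEmbedding (injOn_iff_injective.1 hi)
  have h1 : K.domRestrict f '' (K.domRestrict f ⁻¹' T) = T := by
    rw [image_preimage_eq_iff]
    intro x hx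
    obtain ⟨y, hy, rfl⟩ := hTK hx
    exact ⟨⟨y, hy⟩, rfl⟩
  have h2 : IsPreconnected (K.domRestrict f ⁻¹' T) := by
    rw [← he.isInducing.isPreconnected_image, h1]
    exact hT
  have h3 : K ∩ f ⁻¹' T = Subtype.val '' (K.domRestrict f ⁻¹' T) := by
    ext x
    constructor
    · rintro ⟨hx, hx'⟩
      exact ⟨⟨x, hx⟩, hx', rfl⟩
    · rintro ⟨⟨y, hy⟩, hy', rfl⟩
      exact ⟨hy, hy'⟩
  rw [h3]
  exact h2.image _ continuous_subtype_val.continuousOn

/-- closure and frontier of the image of an open set with compact closed hull -/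
theorem closure_img {K O : Set ℂ} {f : ℂ → ℂ} (hK : IsCompact K) (hf : ContinuousOn f K)
    (hOK : O ⊆ K) : closure (f '' O) ⊆ f '' K :=
  closure_minimal (image_mono hOK) (hK.image_of_continuousOn hf).isClosed

theorem frontier_img {K O : Set ℂ} {f : ℂ → ℂ} (hK : IsCompact K) (hf : ContinuousOn f K)
    (hOK : O ⊆ K) (ho : IsOpen (f '' O)) : frontier (f '' O) ⊆ f '' (K \ O) := by
  intro x hx
  rw [ho.frontier_eq] at hx
  obtain ⟨y, hy, rfl⟩ := closure_img hK hf hOK hx.1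
  exact ⟨y, ⟨hy, fun h => hx.2 ⟨y, h, rfl⟩⟩, rfl⟩

/-- injective holomorphic maps are open -/
theorem open_img {U O : Set ℂ} {f : ℂ → ℂ} (hU : IsOpen U) (hc : IsPreconnected U)
    (hn : U.Nontrivial) (hf : DifferentiableOn ℂ f U) (hi : InjOn f U) (hO : IsOpen O)
    (hOU : O ⊆ U) : IsOpen (f '' O) := by
  rcases (hf.analyticOnNhd hU).is_constant_or_isOpen hc with ⟨w, hw⟩ | h
  · exfalso
    obtain ⟨x, hx, y, hy, hxy⟩ := hn
    exact hxy (hi hx hy ((hw x hx).trans (hw y hy).symm))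
  · exact h O hOU hO

/-! ### rays -/

theorem k2 (k : ℕ) : ((k : ℂ) + 2) ≠ 0 := by
  have : ((k + 2 : ℕ) : ℂ) ≠ 0 := Nat.cast_ne_zero.2 (by omega)
  push_cast at this
  exact this

theorem rdir_pow (k : ℕ) (j : ℤ) : rdir k j ^ (k + 2) = -1 := by
  unfold rdir
  rw [← Complex.exp_nat_mul]
  have hk := k2 k
  have h : ((k + 2 : ℕ) : ℂ) * (Real.pi * I * (2 * j + 1) / (k + 2)) =
      Real.pi * I + j * (2 * Real.pi * I) := by
    push_cast
    field_simp
    ring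
  rw [h, Complex.exp_add, Complex.exp_int_mul_two_pi_mul_I, Complex.exp_pi_mul_I, mul_one]

theorem rdir_norm (k : ℕ) (j : ℤ) : ‖rdir k j‖ = 1 := by
  have h := congrArg norm (rdir_pow k j)
  rw [norm_pow, norm_neg, norm_one] at h
  exact (pow_eq_one_iff_of_nonneg (norm_nonneg _) (by omega)).1 h

theorem rdir_rot (k : ℕ) (i j : ℤ) :
    Complex.exp (2 * Real.pi * I * i / (k + 2)) * rdir k j = rdir k (i + j) := by
  unfold rdir
  rw [← Complex.exp_add]
  congr 1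
  have hk := k2 k
  push_cast
  field_simp
  ring

theorem rdir_period (k : ℕ) (j n : ℤ) : rdir k (j + n * (k + 2)) = rdir k j := by
  unfold rdir
  have hk := k2 k
  have h : (Real.pi * I * (2 * ((j + n * (k + 2) : ℤ) : ℂ) + 1) / (k + 2) : ℂ) =
      Real.pi * I * (2 * j + 1) / (k + 2) + n * (2 * Real.pi * I) := by
    push_cast
    field_simp
    ring
  rw [h, Complex.exp_add, Complex.exp_int_mul_two_pi_mul_I, mul_one]

theorem mm_ray (k : ℕ) (j : ℤ) (τ : ℝ) (hτ : 0 ≤ τ) : mm k (τ * rdir k j) = 0 := by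
  unfold mm
  rw [norm_mul, rdir_norm, mul_one, mul_pow, rdir_pow, Complex.norm_real, Real.norm_of_nonneg hτ]
  have : ((τ : ℂ) ^ (k + 2) * (-1)).re = -τ ^ (k + 2) := by
    rw [← Complex.ofReal_pow, mul_neg_one, Complex.neg_re, Complex.ofReal_re]
  rw [this]
  ring

theorem pow_of_mm {k : ℕ} {w : ℂ} (h : mm k w = 0) : w ^ (k + 2) = -((‖w‖ ^ (k + 2) : ℝ) : ℂ) := by
  have h1 : (w ^ (k + 2)).re = -‖w‖ ^ (k + 2) := by
    unfold mm at h
    linarith
  have h2 : ‖w ^ (k + 2)‖ = ‖w‖ ^ (k + 2) := norm_pow _ _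
  have h3 : (w ^ (k + 2)).im = 0 := by
    have := Complex.sq_norm (w ^ (k + 2))
    rw [Complex.normSq_apply, h2, h1] at this
    have h4 : (w ^ (k + 2)).im * (w ^ (k + 2)).im = 0 := by
      nlinarith
    exact mul_self_eq_zero.1 h4
  apply Complex.ext
  · rw [h1, Complex.neg_re, Complex.ofReal_re]
  · rw [h3, Complex.neg_im, Complex.ofReal_im, neg_zero]

theorem arg_form {k : ℕ} {u : ℂ} (hu : u ≠ 0) (h : u ^ (k + 2) = ((‖u‖ ^ (k + 2) : ℝ) : ℂ)) :
    ∃ n : ℤ, u.arg * (k + 2) = 2 * Real.pi * n := by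
  have h1 : (‖u‖ : ℂ) * Complex.exp (u.arg * I) = u := Complex.norm_mul_exp_arg_mul_I u
  have h2 : u ^ (k + 2) = ((‖u‖ ^ (k + 2) : ℝ) : ℂ) * Complex.exp (((k + 2 : ℕ) : ℂ) * (u.arg * I)) := by
    conv_lhs => rw [← h1]
    rw [mul_pow, ← Complex.exp_nat_mul]
    push_cast
    rfl
  have h0 : ((‖u‖ ^ (k + 2) : ℝ) : ℂ) ≠ 0 := by
    rw [Ne, Complex.ofReal_eq_zero]
    exact pow_ne_zero _ (norm_ne_zero_iff.2 hu)
  rw [h] at h2
  have h3 : Complex.exp (((k + 2 : ℕ) : ℂ) * (u.arg * I)) = 1 := by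
    have := mul_left_cancel₀ h0 ((mul_one _).trans h2)
    exact this.symm
  obtain ⟨n, hn⟩ := Complex.exp_eq_one_iff.1 h3
  refine ⟨n, ?_⟩
  have h4 := congrArg Complex.im hn
  simp only [Complex.mul_im, Complex.mul_re, Complex.natCast_re, Complex.natCast_im,
    Complex.ofReal_re, Complex.ofReal_im, Complex.I_re, Complex.I_im, Complex.intCast_re,
    Complex.intCast_im, Complex.re_ofNat, Complex.im_ofNat] at h4
  push_cast at h4
  linarith

theorem conj_rdir (k : ℕ) (j : ℤ) : conj (rdir k j) * rdir k j = 1 := by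
  rw [← Complex.normSq_eq_conj_mul_self, Complex.normSq_eq_norm_sq, rdir_norm]
  simp

/-- separates the ray `j` from the other rays -/
noncomputable def ph (k : ℕ) (j : ℤ) (w : ℂ) : ℝ :=
  (w * conj (rdir k j)).re - ‖w‖ * Real.cos (Real.pi / (k + 2))

theorem ph_cont (k : ℕ) (j : ℤ) : Continuous (ph k j) := by
  unfold ph
  fun_prop

/-- the slope of `ph` on the ray -/
noncomputable def kap (k : ℕ) : ℝ := 1 - Real.cos (Real.pi / (k + 2))

theorem kap_pos (k : ℕ) : 0 < kap k := by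
  unfold kap
  have hk : (0 : ℝ) < k + 2 := by positivity
  have h1 : 0 < Real.pi / (k + 2) := div_pos Real.pi_pos hk
  have h2 : Real.pi / (k + 2) ≤ Real.pi := by
    rw [div_le_iff₀ hk]
    nlinarith [Real.pi_pos, (Nat.cast_nonneg k : (0 : ℝ) ≤ k)]
  have := Real.cos_lt_cos_of_nonneg_of_le_pi le_rfl h2 h1
  rw [Real.cos_zero] at this
  linarith

theorem ph_ray (k : ℕ) (j : ℤ) (τ : ℝ) (hτ : 0 ≤ τ) : ph k j (τ * rdir k j) = kap k * τ := by
  unfold ph kap
  rw [mul_assoc, mul_comm (rdir k j), conj_rdir, mul_one, norm_mul, rdir_norm, mul_one,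
    Complex.norm_real, Real.norm_of_nonneg hτ, Complex.ofReal_re]
  ring

theorem pow_conj {k : ℕ} {w : ℂ} (j : ℤ) (h : mm k w = 0) :
    (w * conj (rdir k j)) ^ (k + 2) = ((‖w * conj (rdir k j)‖ ^ (k + 2) : ℝ) : ℂ) := by
  rw [mul_pow, ← map_pow, rdir_pow, pow_of_mm h, norm_mul, Complex.norm_conj, rdir_norm]
  simp

theorem star_cases {k : ℕ} {w : ℂ} (j : ℤ) (h : mm k w = 0) :
    w = (‖w‖ : ℂ) * rdir k j ∨ ph k j w < 0 := by
  by_cases hw : w = 0
  · left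
    simp [hw]
  have he : rdir k j ≠ 0 := by
    intro h0
    have := rdir_norm k j
    rw [h0, norm_zero] at this
    exact zero_ne_one this
  have hu : w * conj (rdir k j) ≠ 0 :=
    mul_ne_zero hw (by simpa using he)
  obtain ⟨n, hn⟩ := arg_form hu (pow_conj j h)
  have hnorm : ‖w * conj (rdir k j)‖ = ‖w‖ := by
    rw [norm_mul, Complex.norm_conj, rdir_norm, mul_one]
  have hk : (0 : ℝ) < k + 2 := by positivity
  by_cases hn0 : n = 0
  · left
    subst hn0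
    have harg : (w * conj (rdir k j)).arg = 0 := by
      simp only [Int.cast_zero, mul_zero] at hn
      rcases mul_eq_zero.1 hn with h1 | h1
      · exact h1
      · linarith
    have h1 : (‖w * conj (rdir k j)‖ : ℂ) * Complex.exp ((w * conj (rdir k j)).arg * I) =
      w * conj (rdir k j) := Complex.norm_mul_exp_arg_mul_I _
    rw [harg, hnorm] at h1
    simp only [Complex.ofReal_zero, zero_mul, Complex.exp_zero, mul_one] at h1
    rw [h1, mul_assoc, conj_rdir, mul_one]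
  · right
    unfold ph
    have h1 : (w * conj (rdir k j)).re =
        ‖w * conj (rdir k j)‖ * Real.cos (w * conj (rdir k j)).arg :=
      (Complex.norm_mul_cos_arg _).symm
    rw [h1, hnorm, ← mul_sub]
    have hw0 : 0 < ‖w‖ := norm_pos_iff.2 hw
    have habs : 2 * Real.pi / (k + 2) ≤ |(w * conj (rdir k j)).arg| := by
      rw [div_le_iff₀ hk]
      have h2 : |(w * conj (rdir k j)).arg| * (k + 2) = 2 * Real.pi * |(n : ℝ)| := by
        rw [← abs_of_pos hk, ← abs_mul, hn, abs_mul, abs_of_pos (by positivity : (0:ℝ) < 2 * Real.pi)]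
      rw [h2]
      have h3 : (1 : ℝ) ≤ |(n : ℝ)| := by
        rw [← Int.cast_abs]
        exact_mod_cast Int.one_le_abs hn0
      nlinarith [Real.pi_pos]
    have h4 : Real.pi / (k + 2) < |(w * conj (rdir k j)).arg| := by
      refine lt_of_lt_of_le ?_ habs
      rw [div_lt_div_iff_of_pos_right hk]
      linarith [Real.pi_pos]
    have h5 := Real.cos_lt_cos_of_nonneg_of_le_pi (by positivity : 0 ≤ Real.pi / (k + 2))
      (Complex.abs_arg_le_pi _) h4
    rw [Real.cos_abs] at h5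
    nlinarith

theorem exists_ray {k : ℕ} {w : ℂ} (h : mm k w = 0) :
    ∃ j : ℤ, w = (‖w‖ : ℂ) * rdir k j := by
  by_cases hw : w = 0
  · exact ⟨0, by simp [hw]⟩
  have he : rdir k 0 ≠ 0 := by
    intro h0
    have := rdir_norm k 0
    rw [h0, norm_zero] at this
    exact zero_ne_one this
  have hu : w * conj (rdir k 0) ≠ 0 := mul_ne_zero hw (by simpa using he)
  obtain ⟨n, hn⟩ := arg_form hu (pow_conj 0 h)
  have hnorm : ‖w * conj (rdir k 0)‖ = ‖w‖ := by
    rw [norm_mul, Complex.norm_conj, rdir_norm, mul_one]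
  refine ⟨n, ?_⟩
  have h1 : (‖w * conj (rdir k 0)‖ : ℂ) * Complex.exp ((w * conj (rdir k 0)).arg * I) =
      w * conj (rdir k 0) := Complex.norm_mul_exp_arg_mul_I _
  have hk : ((k : ℝ) + 2) ≠ 0 := by positivity
  have h2 : ((w * conj (rdir k 0)).arg * I : ℂ) = 2 * Real.pi * I * n / (k + 2) := by
    have : (w * conj (rdir k 0)).arg = 2 * Real.pi * n / (k + 2) := by
      rw [eq_div_iff hk, hn]
    rw [this]
    push_cast
    ring
  rw [h2, hnorm] at h1
  have h3 : rdir k n = Complex.exp (2 * Real.pi * I * n / (k + 2)) * rdir k 0 := by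
    rw [rdir_rot, add_zero]
  rw [h3, ← mul_assoc, h1, mul_assoc, conj_rdir, mul_one]

/-- intermediate values along a ray -/
theorem ray_mem {k : ℕ} {j : ℤ} {T : Set ℂ} (hT : IsPreconnected T) (hm : ∀ w ∈ T, mm k w = 0)
    {a b : ℂ} (ha : a ∈ T) (hb : b ∈ T) {τ : ℝ} (hτ : 0 ≤ τ) (h1 : ph k j a ≤ kap k * τ)
    (h2 : kap k * τ ≤ ph k j b) : (τ : ℂ) * rdir k j ∈ T := by
  have ho : (ph k j '' T).OrdConnected :=
    (hT.image _ (ph_cont k j).continuousOn).ordConnected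
  obtain ⟨w, hw, hwe⟩ := ho.out ⟨a, ha, rfl⟩ ⟨b, hb, rfl⟩ ⟨h1, h2⟩
  rcases star_cases j (hm w hw) with h | h
  · have h3 := ph_ray k j ‖w‖ (norm_nonneg _)
    rw [← h, hwe] at h3
    have h4 : ‖w‖ = τ := (mul_left_cancel₀ (kap_pos k).ne' h3).symm
    rw [← h4, ← h]
    exact hw
  · have := kap_pos k
    rw [hwe] at h
    nlinarith

/-! ### the fibre near a point -/

/-- a small disc in which the fibre is fat -/
theorem radius {D : Set ℂ} {Ψ H : ℂ → ℂ} {k : ℕ} {t : ℂ} {r : ℝ} {g : ℂ → ℂ} {c : ℂ}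
    (hC : Chart D Ψ k t r g) (hF : Fat D H c) (hc : H t = c) :
    ∃ r' > 0, r' < r ∧ ∀ w₀ ∈ ball (0 : ℂ) r', H (g w₀) = c →
      ∃ T : Set ℂ, IsPreconnected T ∧ T ⊆ closedBall 0 r' ∧ (∀ w ∈ T, H (g w) = c) ∧ w₀ ∈ T ∧
        ∃ w₁ ∈ T, ‖w₁‖ = r' := by
  have htD : t ∈ D := by
    have := hC.maps (mem_ball_self hC.r0)
    rwa [hC.z] at this
  obtain ⟨rF, hrF, -, hfat⟩ := hF t htD hc
  have hg0 : ContinuousAt g 0 :=
    (hC.d.differentiableAt (ball_mem_nhds 0 hC.r0)).continuousAt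
  have hev : ∀ᶠ w in 𝓝 (0 : ℂ), g w ∈ ball t rF := by
    have : ball t rF ∈ 𝓝 (g 0) := by
      rw [hC.z]
      exact ball_mem_nhds t hrF
    exact hg0 this
  obtain ⟨ρ, hρ, hρ'⟩ := Metric.eventually_nhds_iff_ball.1 hev
  refine ⟨min (ρ / 2) (r / 2), lt_min (half_pos hρ) (half_pos hC.r0), ?_, ?_⟩
  · exact lt_of_le_of_lt (min_le_right _ _) (half_lt_self hC.r0)
  set r' := min (ρ / 2) (r / 2) with hr'
  have hr'r : r' < r := lt_of_le_of_lt (min_le_right _ _) (half_lt_self hC.r0)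
  have hr'ρ : r' < ρ := lt_of_le_of_lt (min_le_left _ _) (half_lt_self hρ)
  have hsub : closedBall (0 : ℂ) r' ⊆ ball 0 r := closedBall_subset_ball hr'r
  have hcont : ContinuousOn g (closedBall 0 r') := hC.d.continuousOn.mono hsub
  have hinj : InjOn g (closedBall 0 r') := hC.inj.mono hsub
  intro w₀ hw₀ hHw
  have hnt : (ball (0 : ℂ) r).Nontrivial := by
    refine ⟨0, mem_ball_self hC.r0, ((r / 2 : ℝ) : ℂ), ?_, ?_⟩
    · rw [mem_ball, dist_zero_right, Complex.norm_real, Real.norm_of_nonneg (half_pos hC.r0).le]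
      exact half_lt_self hC.r0
    · intro h
      have := (half_pos hC.r0).ne'
      exact this (by exact_mod_cast h.symm)
  have hopen : IsOpen (g '' ball 0 r') :=
    open_img isOpen_ball (convex_ball _ _).isPreconnected hnt hC.d hC.inj isOpen_ball
      (ball_subset_ball hr'r.le)
  have hU : g '' ball 0 r' ⊆ ball t rF := by
    rintro _ ⟨w, hw, rfl⟩
    exact hρ' w (ball_subset_ball hr'ρ.le hw)
  obtain ⟨T, hT, hTU, hTc, hsT, z, hzT, hzf⟩ := hfat _ hopen hU (g w₀) ⟨w₀, hw₀, rfl⟩ hHw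
  have hK := isCompact_closedBall (0 : ℂ) r'
  have hTK : T ⊆ g '' closedBall 0 r' :=
    hTU.trans (closure_img hK hcont ball_subset_closedBall)
  refine ⟨closedBall 0 r' ∩ g ⁻¹' T, lift hK hcont hinj hT hTK, inter_subset_left,
    fun w hw => hTc _ hw.2, ⟨ball_subset_closedBall hw₀, hsT⟩, ?_⟩
  obtain ⟨w₁, ⟨hw₁, hw₁'⟩, rfl⟩ := frontier_img hK hcont ball_subset_closedBall hopen hzf
  refine ⟨w₁, ⟨hw₁, hzT⟩, ?_⟩
  rw [mem_closedBall, dist_zero_right] at hw₁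
  rw [mem_ball, dist_zero_right, not_lt] at hw₁'
  exact le_antisymm hw₁ hw₁'

end StarM

open MuM StarM in
/-- E10. STAR -/
theorem specStar (hM : SpecMu) : SpecStar := by
  intro p hp D Ψ H Hx Hy k t r g c hN hC hF hc
  obtain ⟨r', hr', hr'r, hrad⟩ := radius hC hF hc
  have hHg0 : H (g 0) = c := by rw [hC.z, hc]
  have hball : closedBall (0 : ℂ) r' ⊆ ball 0 r := closedBall_subset_ball hr'r
  -- a connected piece of the star through every point of a ray
  have hpiece : ∀ w₀ ∈ ball (0 : ℂ) r', mm k w₀ = 0 → H (g w₀) = c →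
      ∃ T : Set ℂ, IsPreconnected T ∧ (∀ w ∈ T, mm k w = 0) ∧ (∀ w ∈ T, H (g w) = c) ∧ w₀ ∈ T ∧
        ∃ w₁ ∈ T, ‖w₁‖ = r' := by
    intro w₀ hw₀ hm hH
    obtain ⟨T, hT, hTr, hTc, h0, h1⟩ := hrad w₀ hw₀ hH
    refine ⟨T, hT, fun w hw => ?_, hTc, h0, h1⟩
    have := hM p hp D Ψ H Hx Hy k t r g c T hN hC hT (hTr.trans hball) hTc w hw w₀ h0
    exact this.trans hm
  -- one ray is present
  obtain ⟨j₁, hj₁⟩ : ∃ j : ℤ, ∀ τ : ℝ, 0 ≤ τ → τ ≤ r' → H (g (τ * rdir k j)) = c := by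
    obtain ⟨T, hT, hm, hTc, h0, w₁, hw₁, hn⟩ := hpiece 0 (mem_ball_self hr') (by
      have := mm_ray k 0 0 le_rfl
      simpa using this) hHg0
    obtain ⟨j, hj⟩ := exists_ray (hm w₁ hw₁)
    refine ⟨j, fun τ h1 h2 => hTc _ (ray_mem hT hm h0 hw₁ h1 ?_ ?_)⟩
    · have : ph k j 0 = 0 := by simp [ph]
      rw [this]
      exact mul_nonneg (kap_pos k).le h1
    · rw [hj, hn, ph_ray k j r' hr'.le]
      exact mul_le_mul_of_nonneg_left h2 (kap_pos k).le
  -- dichotomy for each ray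
  have hdich : ∀ j : ℤ, ∃ ρ > 0, (∀ τ : ℝ, 0 ≤ τ → τ ≤ ρ → H (g (τ * rdir k j)) = c) ∨
      (∀ τ : ℝ, 0 < τ → τ ≤ ρ → H (g (τ * rdir k j)) ≠ c) := by
    intro j
    by_cases hA : ∃ ρ > 0, ∀ τ : ℝ, 0 < τ → τ ≤ ρ → H (g (τ * rdir k j)) ≠ c
    · obtain ⟨ρ, h1, h2⟩ := hA
      exact ⟨ρ, h1, Or.inr h2⟩
    · push Not at hA
      by_cases hB : ∃ τ₀ : ℝ, 0 < τ₀ ∧ ∀ τ : ℝ, 0 ≤ τ → τ ≤ τ₀ → H (g (τ * rdir k j)) = c
      · obtain ⟨τ₀, h1, h2⟩ := hB
        exact ⟨τ₀, h1, Or.inl h2⟩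
      · exfalso
        push Not at hB
        -- all points of the fibre on the ray extend to the end
        obtain ⟨τ, h1, h2, h3⟩ := hB (r' / 2) (half_pos hr')
        have h1' : 0 < τ := by
          rcases h1.eq_or_lt with h | h
          · exfalso
            rw [← h] at h3
            apply h3
            simpa using hHg0
          · exact h
        obtain ⟨τ₀, h4, h5, h6⟩ := hA τ h1'
        have hτ₀ : (τ₀ : ℂ) * rdir k j ∈ ball (0 : ℂ) r' := by
          rw [mem_ball, dist_zero_right, norm_mul, rdir_norm, mul_one, Complex.norm_real,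
            Real.norm_of_nonneg h4.le]
          linarith
        obtain ⟨T, hT, hm, hTc, h0, w₁, hw₁, hn⟩ := hpiece _ hτ₀ (mm_ray k j τ₀ h4.le) h6
        have hτ₀' := ph_ray k j τ₀ h4.le
        rcases star_cases j (hm w₁ hw₁) with h | h
        · apply h3
          refine hTc _ (ray_mem hT hm h0 hw₁ h1 ?_ ?_)
          · rw [hτ₀']
            exact mul_le_mul_of_nonneg_left h5 (kap_pos k).le
          · rw [h, hn, ph_ray k j r' hr'.le]
            exact mul_le_mul_of_nonneg_left (by linarith) (kap_pos k).le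
        · obtain ⟨τ', h7, h8, h9⟩ := hB τ₀ h4
          apply h9
          refine hTc _ (ray_mem hT hm hw₁ h0 h7 ?_ ?_)
          · exact h.le.trans (mul_nonneg (kap_pos k).le h7)
          · rw [hτ₀']
            exact mul_le_mul_of_nonneg_left h8 (kap_pos k).le
  choose ρ hρ hρ' using hdich
  -- common radius
  obtain ⟨r₁, hr₁, hr₁r, hr₁ρ⟩ : ∃ r₁ > 0, r₁ ≤ r' ∧ ∀ i ∈ Finset.range (k + 2), r₁ ≤ ρ i := by
    obtain ⟨i₀, hi₀, hmin⟩ := Finset.exists_min_image (Finset.range (k + 2)) (fun i => ρ (i : ℤ))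
      ⟨0, Finset.mem_range.2 (by omega)⟩
    exact ⟨min r' (ρ i₀), lt_min hr' (hρ i₀), min_le_left _ _,
      fun i hi => (min_le_right _ _).trans (hmin i hi)⟩
  refine ⟨r₁, hr₁, lt_of_le_of_lt hr₁r hr'r, ⟨j₁, fun τ h1 h2 => hj₁ τ h1 (h2.trans hr₁r)⟩, ?_⟩
  intro j
  have hk : (0 : ℤ) < k + 2 := by positivity
  have hmod : rdir k j = rdir k ((j % ((k : ℤ) + 2)).toNat : ℤ) := by
    have h1 : 0 ≤ j % ((k : ℤ) + 2) := Int.emod_nonneg _ hk.ne'
    rw [Int.toNat_of_nonneg h1]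
    have h2 := Int.emod_add_mul_ediv j ((k : ℤ) + 2)
    conv_lhs => rw [← h2, mul_comm]
    rw [rdir_period]
  have hlt : (j % ((k : ℤ) + 2)).toNat ∈ Finset.range (k + 2) := by
    rw [Finset.mem_range]
    have h1 : 0 ≤ j % ((k : ℤ) + 2) := Int.emod_nonneg _ hk.ne'
    have h2 : j % ((k : ℤ) + 2) < k + 2 := Int.emod_lt_of_pos _ hk
    omega
  rw [hmod]
  have h3 := hr₁ρ _ hlt
  rcases hρ' ((j % ((k : ℤ) + 2)).toNat : ℤ) with h | h
  · left
    exact fun τ h1 h2 => h τ h1 (h2.trans h3)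
  · right
    exact fun τ h1 h2 => h τ h1 (h2.trans h3)

end MPfa
end

section
/-!
Problem MP_fa0334_an, module SAT: saturation of the fibres by the vertical rays.
-/
set_option autoImplicit false

open MeasureTheory Set Filter Topology Metric Complex
open scoped ContDiff ENNReal ComplexConjugate

namespace MPfa

open MuM StarM in
/-- E12. SAT -/
theorem specSat (hS : SpecStar) (hT : SpecTip) (hH : SpecHalf) : SpecSat := by
  intro p hp D Ψ H Hx Hy c hN hF t _ hc k r g hC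
  obtain ⟨r₁, hr₁, hr₁r, ⟨j₀, hj₀⟩, hdich⟩ := hS p hp D Ψ H Hx Hy k t r g c hN hC hF hc
  -- the next ray
  have hstep : ∀ j : ℤ, (∀ τ : ℝ, 0 ≤ τ → τ ≤ r₁ → H (g (τ * rdir k j)) = c) →
      ∀ τ : ℝ, 0 ≤ τ → τ ≤ r₁ → H (g (τ * rdir k (j + 1))) = c := by
    intro j hj
    rcases hdich (j + 1) with h | h
    · exact h
    · exfalso
      have hC' := hH.rot D Ψ k t r g (j + 1) hC
      have hrot : ∀ (i : ℤ) (τ : ℝ), Complex.exp (2 * Real.pi * I * ((j + 1 : ℤ) : ℂ) / (k + 2)) *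
          (τ * rdir k i) = τ * rdir k (j + 1 + i) := by
        intro i τ
        rw [mul_left_comm, rdir_rot]
      refine hT p hp D Ψ H Hx Hy k t r r₁ _ c hN hC' hF hc hr₁ hr₁r ?_ ?_
      · intro τ h1 h2
        show H (g (Complex.exp (2 * Real.pi * I * ((j + 1 : ℤ) : ℂ) / (k + 2)) *
          (τ * rdir k (-1)))) = c
        rw [hrot, show j + 1 + -1 = j by ring]
        exact hj τ h1 h2
      · intro τ h1 h2
        show H (g (Complex.exp (2 * Real.pi * I * ((j + 1 : ℤ) : ℂ) / (k + 2)) *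
          (τ * rdir k 0))) ≠ c
        rw [hrot, show j + 1 + 0 = j + 1 by ring]
        exact h τ h1 h2
  have hnat : ∀ n : ℕ, ∀ τ : ℝ, 0 ≤ τ → τ ≤ r₁ → H (g (τ * rdir k (j₀ + n))) = c := by
    intro n
    induction n with
    | zero =>
      intro τ h1 h2
      have := hj₀ τ h1 h2
      simpa using this
    | succ n ih =>
      have := hstep (j₀ + n) ih
      have h3 : j₀ + ((n + 1 : ℕ) : ℤ) = j₀ + n + 1 := by
        push_cast
        ring
      rw [h3]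
      exact this
  have hall : ∀ j : ℤ, ∀ τ : ℝ, 0 ≤ τ → τ ≤ r₁ → H (g (τ * rdir k j)) = c := by
    intro j τ h1 h2
    have hk : (1 : ℤ) ≤ k + 2 := by
      have : (0 : ℤ) ≤ k := Int.natCast_nonneg k
      linarith
    have h3 : 0 ≤ j - j₀ + |j - j₀| * (k + 2) := by
      have h4 : |j - j₀| ≤ |j - j₀| * (k + 2) := le_mul_of_one_le_right (abs_nonneg _) hk
      have h5 := neg_abs_le (j - j₀)
      linarith
    have h6 := hnat (j - j₀ + |j - j₀| * (k + 2)).toNat τ h1 h2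
    rw [Int.toNat_of_nonneg h3] at h6
    have h7 : j₀ + (j - j₀ + |j - j₀| * (k + 2)) = j + |j - j₀| * (k + 2) := by ring
    rw [h7, rdir_period] at h6
    exact h6
  refine ⟨r₁, hr₁, hr₁r.le, fun w hw him hre => ?_⟩
  have hm : mm k w = 0 := by
    have h1 : ‖w ^ (k + 2)‖ = ‖w‖ ^ (k + 2) := norm_pow _ _
    have h2 : w ^ (k + 2) = (((w ^ (k + 2)).re : ℝ) : ℂ) := by
      apply Complex.ext
      · rw [Complex.ofReal_re]
      · rw [Complex.ofReal_im, him]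
    have h3 : ‖w ^ (k + 2)‖ = -(w ^ (k + 2)).re := by
      rw [h2, Complex.norm_real, Complex.ofReal_re, Real.norm_of_nonpos hre]
    unfold mm
    rw [← h1, h3]
    ring
  obtain ⟨j, hj⟩ := exists_ray hm
  rw [hj]
  refine hall j ‖w‖ (norm_nonneg _) ?_
  rw [mem_ball, dist_zero_right] at hw
  exact hw.le

end MPfa
end

section
/-!
Problem MP_fa0334_an, module TIP: no missing ray next to a present ray.
-/
set_option autoImplicit false

open MeasureTheory Set Filter Topology Metric Complex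
open scoped ContDiff ENNReal ComplexConjugate

namespace MPfa

namespace TipM

open MuM StarM

theorem WD_mono {G G' : Set ℂ} {F Fx Fy : ℂ → ℂ} (h : WD G F Fx Fy) (hs : G' ⊆ G) :
    WD G' F Fx Fy where
  mx := h.mx
  my := h.my
  lF := fun K hK hc => h.lF K (hK.trans hs) hc
  lx := fun K hK hc => h.lx K (hK.trans hs) hc
  ly := fun K hK hc => h.ly K (hK.trans hs) hc
  ix := fun φ hφ => h.ix φ ⟨hφ.sm, hφ.cs, hφ.su.trans hs⟩
  iy := fun φ hφ => h.iy φ ⟨hφ.sm, hφ.cs, hφ.su.trans hs⟩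

theorem NM_mono {p : ℝ} {D D' : Set ℂ} {Ψ H Hx Hy : ℂ → ℂ} (h : NM p D Ψ H Hx Hy)
    (ho : IsOpen D') (hs : D' ⊆ D) : NM p D' Ψ H Hx Hy where
  op := ho
  co := h.co.mono hs
  wd := WD_mono h.wd hs
  eq := ae_restrict_of_ae_restrict_of_subset hs h.eq
  mu := fun η hη => (lintegral_mono_set hs).trans (h.mu η hη)

theorem hc_zero (hH : SpecHalf) (k : ℕ) : hc k 0 = 0 := by
  have h := hH.pow k 0
  rw [zero_pow (by norm_num : (2 : ℕ) ≠ 0)] at h
  exact pow_eq_zero_iff (by omega : k + 2 ≠ 0) |>.1 h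

theorem hc_up (k : ℕ) (v : ℝ) (hv : 0 < v) :
    ∃ τ : ℝ, 0 < τ ∧ hc k ⟨0, v⟩ = τ * rdir k 0 := by
  refine ⟨Real.exp (2 / (k + 2) * Real.log v), Real.exp_pos _, ?_⟩
  have hk := k2 k
  have h0 : (⟨0, v⟩ : ℂ) = v * I := by
    apply Complex.ext <;> simp
  have hv' : (v : ℂ) ≠ 0 := by exact_mod_cast hv.ne'
  have hlog : Complex.log (v * I) = Real.log v + Real.pi / 2 * I := by
    rw [Complex.log_ofReal_mul hv Complex.I_ne_zero, Complex.log_I]
  unfold hc rdir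
  rw [h0, Complex.cpow_def_of_ne_zero (mul_ne_zero hv' Complex.I_ne_zero), hlog,
    Complex.ofReal_exp, ← Complex.exp_add]
  congr 1
  push_cast
  field_simp
  ring

theorem hc_dn (k : ℕ) (v : ℝ) (hv : 0 < v) :
    ∃ τ : ℝ, 0 < τ ∧ hc k ⟨0, -v⟩ = τ * rdir k (-1) := by
  refine ⟨Real.exp (2 / (k + 2) * Real.log v), Real.exp_pos _, ?_⟩
  have hk := k2 k
  have h0 : (⟨0, -v⟩ : ℂ) = v * (-I) := by
    apply Complex.ext <;> simp
  have hv' : (v : ℂ) ≠ 0 := by exact_mod_cast hv.ne'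
  have hI : (-I : ℂ) ≠ 0 := neg_ne_zero.2 Complex.I_ne_zero
  have hlog : Complex.log (v * (-I)) = Real.log v - Real.pi / 2 * I := by
    rw [Complex.log_ofReal_mul hv hI, Complex.log_neg_I]
    ring
  unfold hc rdir
  rw [h0, Complex.cpow_def_of_ne_zero (mul_ne_zero hv' hI), hlog,
    Complex.ofReal_exp, ← Complex.exp_add]
  congr 1
  push_cast
  field_simp
  ring

theorem hc_diff (k : ℕ) : DifferentiableOn ℂ (hc k) {ζ : ℂ | 0 < ζ.re} := by
  intro ζ hζ
  unfold hc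
  have h : ζ ∈ slitPlane := Or.inl hζ
  exact (differentiableAt_id.cpow_const h).differentiableWithinAt

/-- rectangles -/
theorem rect_compact (s d : ℝ) :
    IsCompact {z : ℂ | 0 ≤ z.re ∧ z.re ≤ s ∧ -d ≤ z.im ∧ z.im ≤ d} := by
  have h := (isCompact_Icc (a := (0 : ℝ)) (b := s)).reProdIm (isCompact_Icc (a := -d) (b := d))
  convert h using 1
  ext z
  simp only [mem_ofPred_eq, Complex.mem_reProdIm, mem_Icc]
  tauto

theorem rect_open (s d : ℝ) :
    IsOpen {z : ℂ | 0 < z.re ∧ z.re < s ∧ -d < z.im ∧ z.im < d} := by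
  have h := (isOpen_Ioo (a := (0 : ℝ)) (b := s)).reProdIm (isOpen_Ioo (a := -d) (b := d))
  convert h using 1
  ext z
  simp only [mem_ofPred_eq, Complex.mem_reProdIm, mem_Ioo]
  tauto

theorem rect_convex (s d : ℝ) :
    Convex ℝ {z : ℂ | 0 < z.re ∧ z.re < s ∧ -d < z.im ∧ z.im < d} := by
  have h : {z : ℂ | 0 < z.re ∧ z.re < s ∧ -d < z.im ∧ z.im < d} =
      (Complex.reLm ⁻¹' Ioo 0 s) ∩ (Complex.imLm ⁻¹' Ioo (-d) d) := by
    ext z
    simp only [mem_ofPred_eq, mem_inter_iff, mem_preimage, mem_Ioo, Complex.reLm_coe,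
      Complex.imLm_coe]
    tauto
  rw [h]
  exact ((convex_Ioo _ _).linear_preimage _).inter ((convex_Ioo _ _).linear_preimage _)

end TipM

open MuM StarM TipM in
/-- E11. TIP -/
theorem specTip (hA : SpecATL) (hV : SpecVL) (hH : SpecHalf) : SpecTip := by
  intro p hp D Ψ H Hx Hy k t r r₁ g c hN hC hF hc' hr₁ hr₁r hdn hup
  obtain ⟨Gx, Gy, hG⟩ := hH.nm p hp D Ψ H Hx Hy k t r g hN hC
  set φ : ℂ → ℂ := fun ζ => g (hc k ζ) with hφ
  set G : ℂ → ℂ := fun ζ => H (g (hc k ζ)) with hGdef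
  -- the null set
  set Z : Set ℝ := {u : ℝ | ∃ v : ℝ, (⟨u, v⟩ : ℂ) ∈ HD k r ∧ G ⟨u, v⟩ = c} with hZ
  have hZ0 : volume Z = 0 := hV p hp (HD k r) G Gx Gy hG c
  -- Fat radius
  have htD : t ∈ D := by
    have := hC.maps (mem_ball_self hC.r0)
    rwa [hC.z] at this
  obtain ⟨rF, hrF, -, hfat⟩ := hF t htD hc'
  have hg0 : ContinuousAt g 0 :=
    (hC.d.differentiableAt (ball_mem_nhds 0 hC.r0)).continuousAt
  obtain ⟨ρg, hρg, hρg'⟩ : ∃ ρ > 0, ∀ w ∈ ball (0 : ℂ) ρ, g w ∈ ball t rF := by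
    have hev : ∀ᶠ w in 𝓝 (0 : ℂ), g w ∈ ball t rF := by
      have : ball t rF ∈ 𝓝 (g 0) := by
        rw [hC.z]
        exact ball_mem_nhds t hrF
      exact hg0 this
    exact Metric.eventually_nhds_iff_ball.1 hev
  set δ := min r₁ ρg with hδ
  have hδ0 : 0 < δ := lt_min hr₁ hρg
  -- the size of the half disc
  obtain ⟨ρ, hρ, hρ'⟩ : ∃ ρ > 0, ∀ ζ : ℂ, 0 ≤ ζ.re → ‖ζ‖ < ρ → ‖hc k ζ‖ < δ := by
    have hco : ContinuousWithinAt (hc k) {ζ : ℂ | 0 ≤ ζ.re} 0 := hH.co k 0 (by simp)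
    obtain ⟨ρ, hρ, h⟩ := Metric.continuousWithinAt_iff.1 hco δ hδ0
    refine ⟨ρ, hρ, fun ζ h1 h2 => ?_⟩
    have h3 := h (x := ζ) h1 (by rwa [dist_zero_right])
    rwa [hc_zero hH, dist_zero_right] at h3
  set d := ρ / 3 with hd
  have hd0 : 0 < d := by positivity
  -- the big rectangle
  have hnorm : ∀ z : ℂ, 0 ≤ z.re → z.re ≤ d → -d ≤ z.im → z.im ≤ d → ‖z‖ < ρ := by
    intro z h1 h2 h3 h4
    have h5 := Complex.norm_le_abs_re_add_abs_im z
    have h6 : |z.re| ≤ d := abs_le.2 ⟨by linarith, h2⟩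
    have h7 : |z.im| ≤ d := abs_le.2 ⟨h3, h4⟩
    have : 3 * d = ρ := by rw [hd]; ring
    linarith
  have hhc : ∀ z : ℂ, 0 ≤ z.re → z.re ≤ d → -d ≤ z.im → z.im ≤ d → ‖hc k z‖ < δ :=
    fun z h1 h2 h3 h4 => hρ' z h1 (hnorm z h1 h2 h3 h4)
  have hball : ∀ z : ℂ, 0 ≤ z.re → z.re ≤ d → -d ≤ z.im → z.im ≤ d → hc k z ∈ ball (0 : ℂ) r := by
    intro z h1 h2 h3 h4
    rw [mem_ball, dist_zero_right]
    exact (hhc z h1 h2 h3 h4).trans_le ((min_le_left _ _).trans hr₁r.le)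
  have hHD : ∀ z : ℂ, 0 ≤ z.re → z.re ≤ d → -d ≤ z.im → z.im ≤ d → ‖z‖ ^ 2 < r ^ (k + 2) := by
    intro z h1 h2 h3 h4
    rw [← hH.nrm k z]
    have := hball z h1 h2 h3 h4
    rw [mem_ball, dist_zero_right] at this
    exact pow_lt_pow_left₀ this (norm_nonneg _) (by omega)
  have hcontG : ContinuousOn G {z : ℂ | 0 ≤ z.re ∧ z.re ≤ d ∧ -d ≤ z.im ∧ z.im ≤ d} := by
    have h1 : ContinuousOn (hc k) {z : ℂ | 0 ≤ z.re ∧ z.re ≤ d ∧ -d ≤ z.im ∧ z.im ≤ d} :=
      (hH.co k).mono fun z hz => hz.1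
    have h2 : ContinuousOn φ {z : ℂ | 0 ≤ z.re ∧ z.re ≤ d ∧ -d ≤ z.im ∧ z.im ≤ d} :=
      hC.d.continuousOn.comp h1 fun z hz => hball z hz.1 hz.2.1 hz.2.2.1 hz.2.2.2
    exact hN.co.comp h2 fun z hz => hC.maps (hball z hz.1 hz.2.1 hz.2.2.1 hz.2.2.2)
  -- the lower ray is present
  have hlow : ∀ v : ℝ, 0 ≤ v → v ≤ d → G ⟨0, -v⟩ = c := by
    intro v h1 h2
    rcases h1.eq_or_lt with h | h
    · subst h
      have h0 : (⟨0, -0⟩ : ℂ) = 0 := by apply Complex.ext <;> simp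
      show H (g (hc k ⟨0, -0⟩)) = c
      rw [h0, hc_zero hH, hC.z, hc']
    · obtain ⟨τ, hτ, he⟩ := hc_dn k v h
      have h3 := hhc ⟨0, -v⟩ (le_refl _) hd0.le (by simpa using h2) (by
        show -v ≤ d
        linarith)
      show H (g (hc k ⟨0, -v⟩)) = c
      rw [he, norm_mul, rdir_norm, mul_one, Complex.norm_real, Real.norm_of_nonneg hτ.le] at h3
      rw [he]
      exact hdn τ hτ.le (h3.le.trans (min_le_left _ _))
  have hupp : ∀ v : ℝ, 0 < v → v ≤ d → G ⟨0, v⟩ ≠ c := by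
    intro v h1 h2
    obtain ⟨τ, hτ, he⟩ := hc_up k v h1
    have h3 := hhc ⟨0, v⟩ (le_refl _) hd0.le (by
      show -d ≤ v
      linarith) h2
    show H (g (hc k ⟨0, v⟩)) ≠ c
    rw [he, norm_mul, rdir_norm, mul_one, Complex.norm_real, Real.norm_of_nonneg hτ.le] at h3
    rw [he]
    exact hup τ hτ (h3.le.trans (min_le_left _ _))
  -- the width of the rectangle
  obtain ⟨s₀, hs₀, hs₀'⟩ : ∃ s₀ > 0, ∀ u : ℝ, 0 ≤ u → u < s₀ → u ≤ d → G ⟨u, d⟩ ≠ c := by
    have h1 : ContinuousOn (fun u : ℝ => G ⟨u, d⟩) (Icc 0 d) := by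
      refine hcontG.comp ?_ ?_
      · have : (fun u : ℝ => (⟨u, d⟩ : ℂ)) = fun u : ℝ => (u : ℂ) + d * I := by
          funext u
          apply Complex.ext <;> simp
        rw [this]
        fun_prop
      · intro u hu
        exact ⟨hu.1, hu.2, by show -d ≤ d; linarith, le_refl _⟩
    have h2 := h1 0 ⟨le_rfl, hd0.le⟩
    have h3 : ∀ᶠ u in 𝓝[Icc 0 d] (0 : ℝ), G ⟨u, d⟩ ≠ c :=
      h2 (isOpen_ne.mem_nhds (hupp d hd0 le_rfl))
    obtain ⟨s₀, hs₀, h⟩ := Metric.mem_nhdsWithin_iff.1 h3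
    refine ⟨s₀, hs₀, fun u h4 h5 h6 => h ⟨?_, h4, h6⟩⟩
    rw [mem_ball, dist_zero_right, Real.norm_of_nonneg h4]
    exact h5
  obtain ⟨s, ⟨hs, hs'⟩, hsZ⟩ : ∃ s ∈ Ioo 0 (min d s₀), s ∉ Z := by
    by_contra hcon
    push Not at hcon
    have h1 : volume (Ioo 0 (min d s₀)) ≤ 0 := by
      rw [← hZ0]
      exact measure_mono hcon
    rw [Real.volume_Ioo, nonpos_iff_eq_zero, ENNReal.ofReal_eq_zero] at h1
    have := lt_min hd0 hs₀
    linarith
  have hsd : s < d := hs'.trans_le (min_le_left _ _)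
  have hss₀ : s < s₀ := hs'.trans_le (min_le_right _ _)
  have hright : ∀ v ∈ Icc (-d) d, G ⟨s, v⟩ ≠ c := by
    intro v hv h
    exact hsZ ⟨v, ⟨hs, hHD ⟨s, v⟩ hs.le hsd.le hv.1 hv.2⟩, h⟩
  have htop : ∀ u ∈ Icc 0 s, G ⟨u, d⟩ ≠ c := by
    intro u hu
    exact hs₀' u hu.1 (hu.2.trans_lt hss₀) (hu.2.trans hsd.le)
  -- the rectangle
  set Q : Set ℂ := {z : ℂ | 0 ≤ z.re ∧ z.re ≤ s ∧ -d ≤ z.im ∧ z.im ≤ d} with hQ
  set R : Set ℂ := {z : ℂ | 0 < z.re ∧ z.re < s ∧ -d < z.im ∧ z.im < d} with hR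
  have hRQ : R ⊆ Q := fun z hz => ⟨hz.1.le, hz.2.1.le, hz.2.2.1.le, hz.2.2.2.le⟩
  have hQd : Q ⊆ {z : ℂ | 0 ≤ z.re ∧ z.re ≤ d ∧ -d ≤ z.im ∧ z.im ≤ d} :=
    fun z hz => ⟨hz.1, hz.2.1.trans hsd.le, hz.2.2.1, hz.2.2.2⟩
  have hQc : IsCompact Q := rect_compact s d
  have hRo : IsOpen R := rect_open s d
  have hcontQ : ContinuousOn G Q := hcontG.mono hQd
  have hφQ : ContinuousOn φ Q := by
    have h1 : ContinuousOn (hc k) Q := (hH.co k).mono fun z hz => hz.1
    exact hC.d.continuousOn.comp h1 fun z hz =>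
      hball z (hQd hz).1 (hQd hz).2.1 (hQd hz).2.2.1 (hQd hz).2.2.2
  have hφi : InjOn φ Q := by
    intro z hz z' hz' h
    have h1 := hC.inj (hball z (hQd hz).1 (hQd hz).2.1 (hQd hz).2.2.1 (hQd hz).2.2.2)
      (hball z' (hQd hz').1 (hQd hz').2.1 (hQd hz').2.2.1 (hQd hz').2.2.2) h
    exact hH.inj k hz.1 hz'.1 h1
  have hφR : DifferentiableOn ℂ φ R := by
    have h1 : DifferentiableOn ℂ (hc k) R := (hc_diff k).mono fun z hz => hz.1
    exact hC.d.comp h1 fun z hz => hball z (hQd (hRQ hz)).1 (hQd (hRQ hz)).2.1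
      (hQd (hRQ hz)).2.2.1 (hQd (hRQ hz)).2.2.2
  have hzero : (0 : ℂ) ∈ Q := ⟨by simp, by simpa using hs.le, by simpa using hd0.le,
    by simpa using hd0.le⟩
  have hGzero : G 0 = c := by
    show H (g (hc k 0)) = c
    rw [hc_zero hH, hC.z, hc']
  -- the highest point of the fibre
  have hK0 : IsCompact (Q ∩ G ⁻¹' {c}) :=
    hQc.of_isClosed_subset (hcontQ.preimage_isClosed_of_isClosed hQc.isClosed isClosed_singleton)
      inter_subset_left
  obtain ⟨zs, ⟨hzsQ, hzsc⟩, hmax⟩ := hK0.exists_isMaxOn ⟨0, hzero, hGzero⟩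
    Complex.continuous_im.continuousOn
  have hzsc' : G zs = c := hzsc
  set m := zs.im with hm
  have hmax' : ∀ z ∈ Q, G z = c → z.im ≤ m := fun z hz h => hmax ⟨hz, h⟩
  have hm0 : 0 ≤ m := by
    have := hmax' 0 hzero hGzero
    simpa using this
  have hmd : m < d := by
    refine lt_of_le_of_ne hzsQ.2.2.2 fun h => ?_
    apply htop zs.re ⟨hzsQ.1, hzsQ.2.1⟩
    rw [← h]
    exact hzsc'
  refine hA p hp s (-d) d m G Gx Gy c hs (by linarith) hmd ?_ hcontQ hright htop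
    (fun z h1 h2 h3 h4 h5 => hmax' z ⟨h1, h2, h3, h4⟩ h5) ?_
  · exact NM_mono hG hRo fun z hz => ⟨hz.1, hHD z (hQd (hRQ hz)).1 (hQd (hRQ hz)).2.1
      (hQd (hRQ hz)).2.2.1 (hQd (hRQ hz)).2.2.2⟩
  · intro v hv
    rcases le_or_gt v 0 with hv0 | hv0
    · refine ⟨0, ⟨le_rfl, hs.le⟩, ?_⟩
      have := hlow (-v) (by linarith) (by linarith [hv.1])
      rwa [neg_neg] at this
    · -- the interior case
      have hmpos : 0 < m := hv0.trans hv.2
      have hre0 : 0 < zs.re := by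
        refine lt_of_le_of_ne hzsQ.1 fun h => ?_
        apply hupp m hmpos hmd.le
        have : (⟨0, m⟩ : ℂ) = zs := by
          apply Complex.ext
          · exact h
          · rfl
        rw [this]
        exact hzsc'
      have hres : zs.re < s := by
        refine lt_of_le_of_ne hzsQ.2.1 fun h => ?_
        apply hright zs.im ⟨hzsQ.2.2.1, hzsQ.2.2.2⟩
        rw [← h]
        exact hzsc'
      have hzsR : zs ∈ R := ⟨hre0, hres, by
        show -d < m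
        linarith, hmd⟩
      have hopen : IsOpen (φ '' R) := by
        refine open_img hRo (rect_convex s d).isPreconnected ?_ hφR (hφi.mono hRQ) hRo le_rfl
        refine ⟨zs, hzsR, ⟨zs.re / 2, zs.im⟩, ⟨by show 0 < zs.re / 2; linarith,
          by show zs.re / 2 < s; linarith, hzsR.2.2.1, hzsR.2.2.2⟩, ?_⟩
        intro h
        have := congrArg Complex.re h
        simp only at this
        linarith
      have hU : φ '' R ⊆ ball t rF := by
        rintro _ ⟨z, hz, rfl⟩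
        refine hρg' _ ?_
        rw [mem_ball, dist_zero_right]
        exact (hhc z (hQd (hRQ hz)).1 (hQd (hRQ hz)).2.1
          (hQd (hRQ hz)).2.2.1 (hQd (hRQ hz)).2.2.2).trans_le (min_le_right _ _)
      obtain ⟨T, hT, hTU, hTc, hsT, y, hyT, hyf⟩ := hfat _ hopen hU (φ zs) ⟨zs, hzsR, rfl⟩ hzsc'
      have hTQ : T ⊆ φ '' Q := hTU.trans (closure_img hQc hφQ hRQ)
      have hpre := lift hQc hφQ hφi hT hTQ
      obtain ⟨z₁, ⟨hz₁, hz₁'⟩, rfl⟩ := frontier_img hQc hφQ hRQ hopen hyf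
      have hz₁T : z₁ ∈ Q ∩ φ ⁻¹' T := ⟨hz₁, hyT⟩
      have hzsT : zs ∈ Q ∩ φ ⁻¹' T := ⟨hzsQ, hsT⟩
      have hGT : ∀ z ∈ Q ∩ φ ⁻¹' T, G z = c := fun z hz => hTc _ hz.2
      -- the real part is constant
      have hoR : (Complex.re '' (Q ∩ φ ⁻¹' T)).OrdConnected :=
        (hpre.image _ Complex.continuous_re.continuousOn).ordConnected
      have hnull : volume (Complex.re '' (Q ∩ φ ⁻¹' T)) = 0 := by
        refine measure_mono_null (t := {0} ∪ Z) ?_ ?_
        · rintro _ ⟨z, hz, rfl⟩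
          rcases hz.1.1.eq_or_lt with h | h
          · left
            exact h.symm
          · right
            exact ⟨z.im, ⟨h, hHD z (hQd hz.1).1 (hQd hz.1).2.1 (hQd hz.1).2.2.1
              (hQd hz.1).2.2.2⟩, hGT z hz⟩
        · rw [measure_union_null_iff]
          exact ⟨by simp, hZ0⟩
      have hre : ∀ z ∈ Q ∩ φ ⁻¹' T, ∀ z' ∈ Q ∩ φ ⁻¹' T, ¬ z.re < z'.re := by
        intro z hz z' hz' hlt
        have h1 := measure_mono_null (hoR.out ⟨z, hz, rfl⟩ ⟨z', hz', rfl⟩) hnull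
        rw [Real.volume_Icc, ENNReal.ofReal_eq_zero] at h1
        linarith
      have hre' : ∀ z ∈ Q ∩ φ ⁻¹' T, z.re = zs.re := fun z hz =>
        le_antisymm (not_lt.1 (hre zs hzsT z hz)) (not_lt.1 (hre z hz zs hzsT))
      have hz₁re := hre' z₁ hz₁T
      have hz₁im : z₁.im = -d := by
        by_contra hne
        have h1 : -d < z₁.im := lt_of_le_of_ne hz₁.2.2.1 (Ne.symm hne)
        have h2 : z₁.im < d := by
          refine lt_of_le_of_ne hz₁.2.2.2 fun h => ?_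
          apply htop z₁.re ⟨hz₁.1, hz₁.2.1⟩
          rw [← h]
          exact hGT z₁ hz₁T
        exact hz₁' ⟨by rw [hz₁re]; exact hre0, by rw [hz₁re]; exact hres, h1, h2⟩
      have hoI : (Complex.im '' (Q ∩ φ ⁻¹' T)).OrdConnected :=
        (hpre.image _ Complex.continuous_im.continuousOn).ordConnected
      obtain ⟨z, hz, hzv⟩ := hoI.out ⟨z₁, hz₁T, rfl⟩ ⟨zs, hzsT, rfl⟩
        (⟨by rw [hz₁im]; exact hv.1.le, hv.2.le⟩ : v ∈ Icc z₁.im zs.im)
      refine ⟨z.re, ⟨hz.1.1, hz.1.2.1⟩, ?_⟩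
      rw [← hzv]
      exact hGT z hz

end MPfa
end
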