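import Pool.Agent.Lib.MP_fa0334_an.ChartOde
import Pool.Agent.Lib.MP_fa0334_an.Conf

/-!
Problem MP_fa0334_an, module ZG (E15).
-/

set_option autoImplicit false

open MeasureTheory Set Filter Topology Metric Complex
open scoped ContDiff ENNReal ComplexConjugate

namespace MPfa

namespace ZGM

open CO

/-- the exponent `2/(k+2)` -/
noncomputable def ce (k : ℕ) : ℂ := 2 / ((k : ℂ) + 2)

lemma k2 (k : ℕ) : ((k : ℂ) + 2) ≠ 0 := by
  have : ((k + 2 : ℕ) : ℂ) ≠ 0 := by exact_mod_cast (Nat.succ_ne_zero (k + 1))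
  push_cast at this
  exact this

lemma hc_pow (k : ℕ) (ζ : ℂ) : hc k ζ ^ (k + 2) = ζ ^ 2 := by
  unfold hc
  rw [← Complex.cpow_mul_nat]
  have : (2 / ((k : ℂ) + 2)) * ((k + 2 : ℕ) : ℂ) = ((2 : ℕ) : ℂ) := by
    have := k2 k
    push_cast
    field_simp
  rw [this, Complex.cpow_natCast]

lemma hc_norm (k : ℕ) (ζ : ℂ) : ‖hc k ζ‖ ^ (k + 2) = ‖ζ‖ ^ 2 := by
  rw [← norm_pow, hc_pow, norm_pow]

lemma hc_deriv (k : ℕ) {ζ : ℂ} (h : ζ ∈ slitPlane) : HasDerivAt (hc k) (ce k * hc k ζ / ζ) ζ := by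
  have h1 := (hasDerivAt_id ζ).cpow_const (c := ce k) h
  have h2 : HasDerivAt (hc k) (ce k * ζ ^ (ce k - 1) * 1) ζ := h1
  refine h2.congr_deriv ?_
  have hne : ζ ≠ 0 := slitPlane_ne_zero h
  rw [Complex.cpow_sub _ _ hne, Complex.cpow_one]
  simp only [hc, ce]
  ring

lemma hc_ne (k : ℕ) {ζ : ℂ} (h : ζ ≠ 0) : hc k ζ ≠ 0 := by
  intro h0
  have := hc_pow k ζ
  rw [h0, zero_pow (by omega)] at this
  exact h (by simpa using this.symm)

variable {D : Set ℂ} {Ψ : ℂ → ℂ} {k : ℕ} {t : ℂ} {r l : ℝ} {g y : ℂ → ℂ}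

/-- the derivative of `y ∘ g ∘ hc` -/
noncomputable def V (k : ℕ) (g y : ℂ → ℂ) (ζ : ℂ) : ℂ := A g y (hc k ζ) * (ce k * hc k ζ / ζ)

/-- `(g ∘ hc)''/(g ∘ hc)'` -/
noncomputable def q (k : ℕ) (g : ℂ → ℂ) (ζ : ℂ) : ℂ :=
  qh g (hc k ζ) * (ce k * hc k ζ / ζ) + (ce k - 1) / ζ

lemma dY (hD : IsOpen D) (hc' : Chart D Ψ k t r g) (hy : Sol D Ψ l y) {ζ : ℂ} (h : ζ ∈ slitPlane)
    (hw : hc k ζ ∈ ball (0 : ℂ) r) : HasDerivAt (fun ζ => y (g (hc k ζ))) (V k g y ζ) ζ :=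
  (hu hD hc' hy hw).comp ζ (hc_deriv k h)

lemma dV (hD : IsOpen D) (hc' : Chart D Ψ k t r g) (hy : Sol D Ψ l y) {ζ : ℂ} (h : ζ ∈ slitPlane)
    (hw : hc k ζ ∈ ball (0 : ℂ) r) :
    HasDerivAt (V k g y) (-(l : ℂ) ^ 2 * y (g (hc k ζ)) + q k g ζ * V k g y ζ) ζ := by
  have hne : ζ ≠ 0 := slitPlane_ne_zero h
  have h1 := (hA hD hc' hy hw).comp ζ (hc_deriv k h)
  have h2 : HasDerivAt (fun ζ : ℂ => ce k * hc k ζ / ζ)
      ((ce k * (ce k * hc k ζ / ζ) * ζ - ce k * hc k ζ * 1) / ζ ^ 2) ζ :=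
    ((hc_deriv k h).const_mul (ce k)).div (hasDerivAt_id ζ) hne
  refine (h1.mul h2).congr_deriv ?_
  have hp := hc_pow k ζ
  have hk := k2 k
  simp only [Function.comp, V, q]
  have e1 : hc k ζ ^ k * hc k ζ ^ 2 = ζ ^ 2 := by rw [← pow_add]; exact hp
  have e2 : ((k : ℂ) + 2) / 2 * ce k = 1 := by
    simp only [ce]
    field_simp
  have e3 : (((k : ℂ) + 2) / 2) ^ 2 * ce k ^ 2 = 1 := by rw [← mul_pow, e2, one_pow]
  have e4 : (-(l : ℂ) ^ 2 * ((((k : ℂ) + 2) / 2) ^ 2 * hc k ζ ^ k) * y (g (hc k ζ))) *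
      (ce k * hc k ζ / ζ) * (ce k * hc k ζ / ζ) = -(l : ℂ) ^ 2 * y (g (hc k ζ)) := by
    have : (-(l : ℂ) ^ 2 * ((((k : ℂ) + 2) / 2) ^ 2 * hc k ζ ^ k) * y (g (hc k ζ))) *
      (ce k * hc k ζ / ζ) * (ce k * hc k ζ / ζ) =
      -(l : ℂ) ^ 2 * y (g (hc k ζ)) * ((((k : ℂ) + 2) / 2) ^ 2 * ce k ^ 2) * ((hc k ζ ^ k * hc k ζ ^ 2) / ζ ^ 2) := by
      ring
    rw [this, e3, e1, div_self (pow_ne_zero 2 hne)]
    ring
  rw [← e4]
  field_simp
  ring

lemma ce_norm (k : ℕ) : ‖ce k‖ = 2 / ((k : ℝ) + 2) := by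
  have : ce k = ((2 / ((k : ℝ) + 2) : ℝ) : ℂ) := by simp [ce]
  rw [this, Complex.norm_real, Real.norm_of_nonneg (by positivity)]

lemma ce1_norm (k : ℕ) : ‖ce k - 1‖ = 1 - 2 / ((k : ℝ) + 2) := by
  have : ce k - 1 = ((2 / ((k : ℝ) + 2) - 1 : ℝ) : ℂ) := by simp [ce]
  rw [this, Complex.norm_real, Real.norm_of_nonpos]
  · ring
  · rw [sub_nonpos, div_le_one (by positivity)]
    have : (0 : ℝ) ≤ k := Nat.cast_nonneg k
    linarith

lemma q_norm {ζ : ℂ} (h : ‖hc k ζ‖ * ‖qh g (hc k ζ)‖ ≤ 1) : ‖q k g ζ‖ ≤ 1 / ‖ζ‖ := by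
  have hk : (0 : ℝ) ≤ 2 / ((k : ℝ) + 2) := by positivity
  calc ‖q k g ζ‖ ≤ ‖qh g (hc k ζ) * (ce k * hc k ζ / ζ)‖ + ‖(ce k - 1) / ζ‖ := norm_add_le _ _
    _ = 2 / ((k : ℝ) + 2) * (‖hc k ζ‖ * ‖qh g (hc k ζ)‖) / ‖ζ‖ + (1 - 2 / ((k : ℝ) + 2)) / ‖ζ‖ := by
        rw [norm_mul, norm_div, norm_mul, norm_div, ce_norm, ce1_norm]
        ring
    _ ≤ 2 / ((k : ℝ) + 2) * 1 / ‖ζ‖ + (1 - 2 / ((k : ℝ) + 2)) / ‖ζ‖ := by gcongr
    _ = 1 / ‖ζ‖ := by ring

lemma le_of_sq_le_sq {a b : ℝ} (h : a ^ 2 ≤ b ^ 2) (hb : 0 ≤ b) : a ≤ b :=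
  le_trans (le_abs_self a) (by
    have := sq_le_sq.mp h
    rwa [abs_of_nonneg hb] at this)

/-- growth along the segment from `8/l` to `± i T` -/
lemma path (Hg : SpecGrow) (hD : IsOpen D) (hc' : Chart D Ψ k t r g) (hy : Sol D Ψ l y) {T σ r₂ : ℝ}
    (hT : 0 < T) (hσ : σ = 1 ∨ σ = -1) (hr₂ : r₂ ≤ r)
    (hq : ∀ w : ℂ, ‖w‖ < r₂ → ‖w‖ * ‖qh g w‖ ≤ 1) (hTr : T ^ 2 < r₂ ^ (k + 2)) (hr0 : 0 < r₂)
    (hl : 300 / T ≤ l)
    (h0 : ‖y (g (hc k (8 / l))) - σ * I * V k g y (8 / l) / l‖ ≤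
      ‖y (g (hc k (8 / l))) + σ * I * V k g y (8 / l) / l‖) :
    Real.exp (l * T / 2 - 1) * (‖y (g (hc k (8 / l)))‖ ^ 2 + ‖V k g y (8 / l)‖ ^ 2 / l ^ 2) ≤
      16 * ‖y (g (hc k (σ * I * T)))‖ ^ 2 := by
  have hl0 : 0 < l := lt_of_lt_of_le (by positivity) hl
  have hlT : 300 ≤ l * T := by
    rw [div_le_iff₀ hT] at hl
    exact hl
  have hlne : (l : ℂ) ≠ 0 := by exact_mod_cast hl0.ne'
  have hTne : (T : ℂ) ≠ 0 := by exact_mod_cast hT.ne'
  have hσ2 : σ ^ 2 = 1 := by rcases hσ with h | h <;> rw [h] <;> norm_num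
  have hσ2c : (σ : ℂ) ^ 2 = 1 := by exact_mod_cast hσ2
  have hσabs : |σ| = 1 := by rcases hσ with h | h <;> rw [h] <;> norm_num
  have hσn : ‖(σ : ℂ)‖ = 1 := by rw [Complex.norm_real, Real.norm_eq_abs, hσabs]
  -- the path
  set z : ℝ → ℂ := fun v => (8 / l) * (1 - v / T) + σ * I * v with hz
  have zre : ∀ v, (z v).re = 8 / l * (1 - v / T) := by
    intro v
    have : z v = ((8 / l * (1 - v / T) : ℝ) : ℂ) + ((σ * v : ℝ) : ℂ) * I := by
      simp only [hz]; push_cast; ring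
    rw [this]
    simp
  have zim : ∀ v, (z v).im = σ * v := by
    intro v
    have : z v = ((8 / l * (1 - v / T) : ℝ) : ℂ) + ((σ * v : ℝ) : ℂ) * I := by
      simp only [hz]; push_cast; ring
    rw [this]
    simp
  have znorm : ∀ v, ‖z v‖ ^ 2 = (8 / l * (1 - v / T)) ^ 2 + v ^ 2 := by
    intro v
    rw [← Complex.normSq_eq_norm_sq, Complex.normSq_apply, zre, zim]
    have : σ * v * (σ * v) = σ ^ 2 * v ^ 2 := by ring
    rw [this, hσ2]
    ring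
  have zslit : ∀ v ∈ Icc 0 T, z v ∈ slitPlane := by
    intro v hv
    rw [Complex.mem_slitPlane_iff]
    rcases eq_or_lt_of_le hv.2 with h | h
    · right
      rw [zim, h]
      rcases hσ with h' | h' <;> rw [h'] <;> simp [hT.ne']
    · left
      rw [zre]
      have : v / T < 1 := by rw [div_lt_one hT]; exact h
      have : 0 < 1 - v / T := by linarith
      positivity
  have h8 : 8 / l ≤ T / 4 := by
    rw [div_le_iff₀ hl0]
    nlinarith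
  have h8' : 0 < 8 / l := by positivity
  have zle : ∀ v ∈ Icc 0 T, ‖z v‖ ^ 2 ≤ T ^ 2 := by
    intro v hv
    rw [znorm]
    obtain ⟨s, hs0, hs1, hvs⟩ : ∃ s : ℝ, 0 ≤ s ∧ s ≤ 1 ∧ v = s * T := by
      refine ⟨v / T, div_nonneg hv.1 hT.le, (div_le_one hT).mpr hv.2, ?_⟩
      field_simp
    have : v / T = s := by rw [hvs]; field_simp
    rw [this, hvs]
    have h9 : (8 / l * (1 - s)) ^ 2 ≤ (T * (1 - s)) ^ 2 := by
      refine pow_le_pow_left₀ (by have : 0 ≤ 1 - s := by linarith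
                                  positivity) ?_ 2
      exact mul_le_mul_of_nonneg_right (by linarith) (by linarith)
    have h10 : (1 - s) ^ 2 + s ^ 2 ≤ 1 := by nlinarith
    nlinarith [mul_le_mul_of_nonneg_left h10 (sq_nonneg T)]
  have zge : ∀ v ∈ Icc 0 T, 4 / 5 * (8 / l) ≤ ‖z v‖ := by
    intro v hv
    refine le_of_sq_le_sq ?_ (norm_nonneg _)
    rw [znorm]
    obtain ⟨s, hs0, hs1, hvs⟩ : ∃ s : ℝ, 0 ≤ s ∧ s ≤ 1 ∧ v = s * T := by
      refine ⟨v / T, div_nonneg hv.1 hT.le, (div_le_one hT).mpr hv.2, ?_⟩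
      field_simp
    have : v / T = s := by rw [hvs]; field_simp
    rw [this, hvs]
    have h9 : (4 * (8 / l) * s) ^ 2 ≤ (s * T) ^ 2 := by
      refine pow_le_pow_left₀ (by positivity) ?_ 2
      nlinarith
    have h10 : 16 / 25 ≤ (1 - s) ^ 2 + 16 * s ^ 2 := by nlinarith [sq_nonneg (17 * s - 1)]
    nlinarith [mul_le_mul_of_nonneg_left h10 (sq_nonneg (8 / l))]
  have hball2 : ∀ v ∈ Icc 0 T, ‖hc k (z v)‖ < r₂ := by
    intro v hv
    refine lt_of_pow_lt_pow_left₀ (k + 2) hr0.le ?_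
    rw [hc_norm]
    exact (zle v hv).trans_lt hTr
  have hball : ∀ v ∈ Icc 0 T, hc k (z v) ∈ ball (0 : ℂ) r := by
    intro v hv
    rw [mem_ball_zero_iff]
    exact (hball2 v hv).trans_le hr₂
  set s : ℂ := σ * I with hs_def
  have hs : s ^ 2 = -1 := by rw [hs_def, mul_pow, hσ2c, Complex.I_sq]; ring
  have hsn : ‖s‖ = 1 := by rw [hs_def, norm_mul, hσn, Complex.norm_I, one_mul]
  have dz : ∀ v, HasDerivAt z (s - 8 / (l * T)) v := by
    intro v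
    have h1 : HasDerivAt (fun v : ℝ => (v : ℂ)) 1 v := Complex.ofRealCLM.hasDerivAt
    have := ((((h1.div_const (T : ℂ)).const_sub 1).const_mul (8 / (l : ℂ)))).add (h1.const_mul s)
    refine this.congr_deriv ?_
    field_simp
    ring
  set Y : ℝ → ℂ := fun v => y (g (hc k (z v))) with hY
  set W : ℝ → ℂ := fun v => V k g y (z v) with hW
  set Q : ℝ → ℂ := fun v => q k g (z v) with hQ
  set d : ℂ := s - 8 / (l * T) with hd
  have dYv : ∀ v ∈ Icc 0 T, HasDerivWithinAt Y (d * W v) (Icc 0 T) v := by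
    intro v hv
    have := (dY hD hc' hy (zslit v hv) (hball v hv)).scomp v (dz v)
    exact (this : HasDerivAt Y (d * W v) v).hasDerivWithinAt
  have dWv : ∀ v ∈ Icc 0 T, HasDerivWithinAt W (d * (-(l : ℂ) ^ 2 * Y v + Q v * W v)) (Icc 0 T) v := by
    intro v hv
    have := (dV hD hc' hy (zslit v hv) (hball v hv)).scomp v (dz v)
    exact (this : HasDerivAt W (d * (-(l : ℂ) ^ 2 * Y v + Q v * W v)) v).hasDerivWithinAt
  set P : ℝ → ℂ := fun v => Y v + s * W v / l with hP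
  set N : ℝ → ℂ := fun v => Y v - s * W v / l with hN
  set e₁ : ℝ → ℂ := fun v => s * (8 / T) * P v + d * (Q v / 2 * (P v - N v)) with he₁
  set e₂ : ℝ → ℂ := fun v => -(s * (8 / T)) * N v + d * (Q v / 2 * (N v - P v)) with he₂
  have hPd : ∀ v ∈ Icc 0 T, HasDerivWithinAt P (l * P v + e₁ v) (Icc 0 T) v := by
    intro v hv
    refine ((dYv v hv).add (((dWv v hv).const_mul s).div_const (l : ℂ))).congr_deriv ?_
    simp only [he₁, hP, hN, hd]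
    field_simp
    linear_combination (-(2 * l * (8 * W v + (l : ℂ) ^ 2 * T * Y v))) * hs
  have hNd : ∀ v ∈ Icc 0 T, HasDerivWithinAt N (-(l * N v) + e₂ v) (Icc 0 T) v := by
    intro v hv
    refine ((dYv v hv).sub (((dWv v hv).const_mul s).div_const (l : ℂ))).congr_deriv ?_
    simp only [he₂, hP, hN, hd]
    field_simp
    linear_combination (-(2 * l * (8 * W v - (l : ℂ) ^ 2 * T * Y v))) * hs
  have hdn : ‖d‖ ≤ 5 / 4 := by
    have h1 : ‖d‖ ≤ ‖s‖ + ‖(8 : ℂ) / (l * T)‖ := norm_sub_le _ _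
    have h2 : ‖(8 : ℂ) / (l * T)‖ = 8 / (l * T) := by
      have : (8 : ℂ) / (l * T) = ((8 / (l * T) : ℝ) : ℂ) := by push_cast; ring
      rw [this, Complex.norm_real, Real.norm_of_nonneg (by positivity)]
    have h3 : 8 / (l * T) ≤ 1 / 4 := by
      rw [div_le_iff₀ (by positivity)]
      linarith
    rw [h2, hsn] at h1
    linarith
  have hQn : ∀ v ∈ Icc 0 T, ‖Q v‖ ≤ 5 * l / 32 := by
    intro v hv
    have h1 : ‖Q v‖ ≤ 1 / ‖z v‖ := q_norm (hq _ (hball2 v hv))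
    have h2 := zge v hv
    have h3 : 1 / ‖z v‖ ≤ 1 / (4 / 5 * (8 / l)) := one_div_le_one_div_of_le (by positivity) h2
    have h4 : 1 / (4 / 5 * (8 / l)) = 5 * l / 32 := by field_simp; norm_num
    linarith
  have h8T : 8 / T ≤ 7 / 256 * l := by
    rw [div_le_iff₀ hT]
    nlinarith
  have h8Tn : ‖s * (8 / (T : ℂ))‖ = 8 / T := by
    rw [norm_mul, hsn, one_mul]
    have : (8 : ℂ) / T = ((8 / T : ℝ) : ℂ) := by push_cast; ring
    rw [this, Complex.norm_real, Real.norm_of_nonneg (by positivity)]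
  have hmain : ∀ v ∈ Icc 0 T, ∀ a b : ℂ, ‖d * (Q v / 2 * (a - b))‖ ≤ 25 / 256 * l * (‖a‖ + ‖b‖) := by
    intro v hv a b
    rw [norm_mul, norm_mul, norm_div]
    have h1 := hQn v hv
    have h2 : ‖(2 : ℂ)‖ = 2 := by norm_num
    rw [h2]
    calc ‖d‖ * (‖Q v‖ / 2 * ‖a - b‖) ≤ 5 / 4 * ((5 * l / 32) / 2 * (‖a‖ + ‖b‖)) := by
          gcongr
          exact norm_sub_le _ _
      _ = 25 / 256 * l * (‖a‖ + ‖b‖) := by ring
  have hgrow := Hg l T P N e₁ e₂ hl0 (by linarith) hPd hNd (by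
    intro v hv
    constructor
    · calc ‖e₁ v‖ ≤ ‖s * (8 / (T : ℂ)) * P v‖ + ‖d * (Q v / 2 * (P v - N v))‖ := norm_add_le _ _
        _ ≤ 8 / T * ‖P v‖ + 25 / 256 * l * (‖P v‖ + ‖N v‖) := by
            rw [norm_mul (s * (8 / (T : ℂ))), h8Tn]
            have := hmain v hv (P v) (N v)
            linarith
        _ ≤ l / 8 * (‖P v‖ + ‖N v‖) := by
            have h1 := mul_le_mul_of_nonneg_right h8T (norm_nonneg (P v))
            have h2 : 0 ≤ l * ‖N v‖ := by positivity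
            nlinarith
    · calc ‖e₂ v‖ ≤ ‖-(s * (8 / (T : ℂ))) * N v‖ + ‖d * (Q v / 2 * (N v - P v))‖ := norm_add_le _ _
        _ ≤ 8 / T * ‖N v‖ + 25 / 256 * l * (‖N v‖ + ‖P v‖) := by
            rw [norm_mul (-(s * (8 / (T : ℂ)))), norm_neg, h8Tn]
            have := hmain v hv (N v) (P v)
            linarith
        _ ≤ l / 8 * (‖P v‖ + ‖N v‖) := by
            have h1 := mul_le_mul_of_nonneg_right h8T (norm_nonneg (N v))
            have h2 : 0 ≤ l * ‖P v‖ := by positivity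
            nlinarith) (by
    have z0 : z 0 = 8 / l := by simp [hz]
    simp only [hP, hN, hY, hW, z0]
    exact h0)
  obtain ⟨g1, g2⟩ := hgrow
  have z0 : z 0 = 8 / l := by simp [hz]
  have zT : z T = s * T := by
    simp only [hz]
    rw [div_self hTne]
    ring
  have hpar : ‖P 0‖ ^ 2 + ‖N 0‖ ^ 2 = 2 * (‖Y 0‖ ^ 2 + ‖W 0‖ ^ 2 / l ^ 2) := by
    have h1 := parallelogram_law_with_norm ℝ (Y 0) (s * W 0 / l)
    have h2 : ‖s * W 0 / (l : ℂ)‖ = ‖W 0‖ / l := by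
      rw [norm_div, norm_mul, hsn, one_mul, Complex.norm_real, Real.norm_of_nonneg hl0.le]
    rw [h2] at h1
    have h3 : ‖P 0‖ = ‖Y 0 + s * W 0 / l‖ := rfl
    have h4 : ‖N 0‖ = ‖Y 0 - s * W 0 / l‖ := rfl
    rw [h3, h4]
    have h5 : ‖W 0‖ ^ 2 / l ^ 2 = (‖W 0‖ / l) ^ 2 := by rw [div_pow]
    rw [h5]
    nlinarith
  have hYT : ‖P T‖ - ‖N T‖ ≤ 2 * ‖Y T‖ := by
    have h1 : Y T = (P T + N T) / 2 := by simp only [hP, hN]; ring
    have h2 : ‖P T‖ ≤ ‖P T + N T‖ + ‖N T‖ := by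
      have := norm_sub_le (P T + N T) (N T)
      simpa using this
    have h3 : 2 * ‖Y T‖ = ‖P T + N T‖ := by
      rw [h1, norm_div, Complex.norm_two]
      ring
    linarith
  have hfin : (‖P T‖ ^ 2 + ‖N T‖ ^ 2) / 2 ≤ 16 * ‖Y T‖ ^ 2 := by
    set a := ‖P T‖ with ha
    set b := ‖N T‖ with hb
    have a0 : 0 ≤ a := norm_nonneg _
    have b0 : 0 ≤ b := norm_nonneg _
    have h1 : 1.7 * b ≤ a := by
      refine le_of_sq_le_sq ?_ a0
      nlinarith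
    have h2 : 0 ≤ (a - 1.7 * b) * (7 * a - 4.1 * b) := mul_nonneg (by linarith) (by linarith)
    have h3 : a ^ 2 + b ^ 2 ≤ 8 * (a - b) ^ 2 := by nlinarith
    have h4 : (a - b) ^ 2 ≤ (2 * ‖Y T‖) ^ 2 := pow_le_pow_left₀ (by linarith) hYT 2
    nlinarith
  have hexp := Real.exp_pos (l * T / 2 - 1)
  have e1 : Y 0 = y (g (hc k (8 / l))) := by simp only [hY, z0]
  have e2 : W 0 = V k g y (8 / l) := by simp only [hW, z0]
  have e3 : Y T = y (g (hc k (s * T))) := by simp only [hY, zT]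
  rw [← e1, ← e2, ← e3]
  rw [hpar] at g2
  linarith

/-- the solution in the small disc is controlled by its data at `hc k (8/l)` -/
lemma inner (hD : IsOpen D) (hc' : Chart D Ψ k t r g) (hy : Sol D Ψ l y) {r₂ B : ℝ} (hl : 0 < l)
    (hr₂ : r₂ ≤ r) (hB : ∀ w : ℂ, ‖w‖ < r₂ → ‖qh g w‖ ≤ B) (hrB : r₂ * B ≤ 1) (hB0 : 0 ≤ B)
    {om w' : ℂ} (hom : ‖om‖ ^ (k + 2) = 64 / l ^ 2) (homr : ‖om‖ < r₂) (hw' : ‖w'‖ ≤ ‖om‖) :
    ‖y (g w')‖ ≤ max ‖y (g om)‖ (‖om‖ * ‖A g y om‖) * Real.exp (32 * ((k : ℝ) + 2) ^ 2 + 2) := by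
  set ρ : ℝ := ‖om‖ with hρ
  have hρ0 : 0 ≤ ρ := norm_nonneg _
  set γ : ℝ → ℂ := fun x => om + x * (w' - om) with hγ
  have γn : ∀ x ∈ Icc (0 : ℝ) 1, ‖γ x‖ ≤ ρ := by
    intro x hx
    have : γ x = ((1 - x : ℝ) : ℂ) * om + ((x : ℝ) : ℂ) * w' := by simp only [hγ]; push_cast; ring
    rw [this]
    calc ‖((1 - x : ℝ) : ℂ) * om + ((x : ℝ) : ℂ) * w'‖ ≤ ‖((1 - x : ℝ) : ℂ) * om‖ + ‖((x : ℝ) : ℂ) * w'‖ := norm_add_le _ _
      _ = (1 - x) * ρ + x * ‖w'‖ := by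
          rw [norm_mul, norm_mul, Complex.norm_real, Complex.norm_real, Real.norm_of_nonneg (by linarith [hx.2]),
            Real.norm_of_nonneg hx.1]
      _ ≤ (1 - x) * ρ + x * ρ := by
          have := mul_le_mul_of_nonneg_left hw' hx.1
          linarith
      _ = ρ := by ring
  have γmem : ∀ x ∈ Icc (0 : ℝ) 1, γ x ∈ ball (0 : ℂ) r := by
    intro x hx
    rw [mem_ball_zero_iff]
    exact ((γn x hx).trans_lt homr).trans_le hr₂
  have dγ : ∀ x : ℝ, HasDerivAt γ (w' - om) x := by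
    intro x
    have h1 : HasDerivAt (fun v : ℝ => (v : ℂ)) 1 x := Complex.ofRealCLM.hasDerivAt
    exact ((h1.mul_const (w' - om)).const_add om).congr_deriv (one_mul _)
  have hδ : ‖w' - om‖ ≤ 2 * ρ := (norm_sub_le _ _).trans (by linarith)
  set f : ℝ → ℂ × ℂ := fun x => (y (g (γ x)), ρ * A g y (γ x)) with hf
  set f' : ℝ → ℂ × ℂ := fun x => ((w' - om) * A g y (γ x),
    ρ * ((w' - om) * (-(l : ℂ) ^ 2 * ((((k : ℂ) + 2) / 2) ^ 2 * γ x ^ k) * y (g (γ x))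
      + qh g (γ x) * A g y (γ x)))) with hf'
  have df : ∀ x ∈ Icc (0 : ℝ) 1, HasDerivAt f (f' x) x := by
    intro x hx
    have h1 := (hu hD hc' hy (γmem x hx)).scomp x (dγ x)
    have h2 := ((hA hD hc' hy (γmem x hx)).scomp x (dγ x)).const_mul (ρ : ℂ)
    exact HasDerivAt.prodMk h1 h2
  have hK : ∀ x ∈ Ico (0 : ℝ) 1, ‖f' x‖ ≤ (32 * ((k : ℝ) + 2) ^ 2 + 2) * ‖f x‖ + 0 := by
    intro x hx
    have hx' : x ∈ Icc (0 : ℝ) 1 := Ico_subset_Icc_self hx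
    have a1 : ‖y (g (γ x))‖ ≤ ‖f x‖ := norm_fst_le (f x)
    have a2 : ρ * ‖A g y (γ x)‖ ≤ ‖f x‖ := by
      have := norm_snd_le (f x)
      simp only [hf, norm_mul, Complex.norm_real, Real.norm_of_nonneg hρ0] at this
      exact this
    have hF : 0 ≤ ‖f x‖ := norm_nonneg _
    have hk2 : (0 : ℝ) ≤ 32 * ((k : ℝ) + 2) ^ 2 := by positivity
    have hAn := norm_nonneg (A g y (γ x))
    have b1 : ‖(w' - om) * A g y (γ x)‖ ≤ (32 * ((k : ℝ) + 2) ^ 2 + 2) * ‖f x‖ := by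
      rw [norm_mul]
      have h1 := mul_le_mul_of_nonneg_right hδ hAn
      nlinarith [mul_nonneg hk2 hF]
    have b2 : ‖(ρ : ℂ) * ((w' - om) * (-(l : ℂ) ^ 2 * ((((k : ℂ) + 2) / 2) ^ 2 * γ x ^ k) * y (g (γ x))
      + qh g (γ x) * A g y (γ x)))‖ ≤ (32 * ((k : ℝ) + 2) ^ 2 + 2) * ‖f x‖ := by
      rw [norm_mul, norm_mul, Complex.norm_real, Real.norm_of_nonneg hρ0]
      have h1 : ‖-(l : ℂ) ^ 2 * ((((k : ℂ) + 2) / 2) ^ 2 * γ x ^ k) * y (g (γ x)) + qh g (γ x) * A g y (γ x)‖ ≤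
          l ^ 2 * ((((k : ℝ) + 2) / 2) ^ 2 * ρ ^ k) * ‖y (g (γ x))‖ + B * ‖A g y (γ x)‖ := by
        refine (norm_add_le _ _).trans (add_le_add ?_ ?_)
        · rw [norm_mul, norm_mul, norm_mul, norm_pow, norm_pow, norm_neg, norm_pow, Complex.norm_real,
            Real.norm_of_nonneg hl.le]
          have e : ‖((k : ℂ) + 2) / 2‖ = ((k : ℝ) + 2) / 2 := by
            have : ((k : ℂ) + 2) / 2 = (((k : ℝ) + 2) / 2 : ℝ) := by push_cast; ring
            rw [this, Complex.norm_real, Real.norm_of_nonneg (by positivity)]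
          rw [e]
          have := pow_le_pow_left₀ (norm_nonneg _) (γn x hx') k
          gcongr
        · rw [norm_mul]
          exact mul_le_mul_of_nonneg_right (hB _ ((γn x hx').trans_lt homr)) hAn
      have h2 : ρ * (‖w' - om‖ * ‖-(l : ℂ) ^ 2 * ((((k : ℂ) + 2) / 2) ^ 2 * γ x ^ k) * y (g (γ x)) + qh g (γ x) * A g y (γ x)‖)
          ≤ ρ * (2 * ρ * (l ^ 2 * ((((k : ℝ) + 2) / 2) ^ 2 * ρ ^ k) * ‖y (g (γ x))‖ + B * ‖A g y (γ x)‖)) := by
        gcongr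
      refine h2.trans ?_
      have e1 : ρ * (2 * ρ * (l ^ 2 * ((((k : ℝ) + 2) / 2) ^ 2 * ρ ^ k) * ‖y (g (γ x))‖ + B * ‖A g y (γ x)‖))
          = 2 * (((k : ℝ) + 2) / 2) ^ 2 * (l ^ 2 * ρ ^ (k + 2)) * ‖y (g (γ x))‖ + 2 * (ρ * B) * (ρ * ‖A g y (γ x)‖) := by
        ring
      rw [e1, hom]
      have e2 : l ^ 2 * (64 / l ^ 2) = 64 := by field_simp
      rw [e2]
      have h3 : ρ * B ≤ 1 := by
        have := mul_le_mul_of_nonneg_right homr.le hB0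
        linarith
      have h4 : 0 ≤ ρ * ‖A g y (γ x)‖ := by positivity
      have h5 : 2 * (ρ * B) * (ρ * ‖A g y (γ x)‖) ≤ 2 * ‖f x‖ := by
        have := mul_le_mul_of_nonneg_right h3 h4
        nlinarith
      have h6 : 2 * (((k : ℝ) + 2) / 2) ^ 2 * 64 * ‖y (g (γ x))‖ ≤ 32 * ((k : ℝ) + 2) ^ 2 * ‖f x‖ := by
        have e3 : 2 * (((k : ℝ) + 2) / 2) ^ 2 * 64 = 32 * ((k : ℝ) + 2) ^ 2 := by ring
        rw [e3]
        exact mul_le_mul_of_nonneg_left a1 hk2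
      linarith
    rw [add_zero]
    exact (norm_prod_le_iff.mpr ⟨b1, b2⟩)
  have hgw := norm_le_gronwallBound_of_norm_deriv_right_le (f := f) (f' := f')
    (δ := ‖f 0‖) (K := 32 * ((k : ℝ) + 2) ^ 2 + 2) (ε := 0) (a := 0) (b := 1)
    (fun x hx => (df x hx).continuousAt.continuousWithinAt)
    (fun x hx => (df x (Ico_subset_Icc_self hx)).hasDerivWithinAt) le_rfl hK 1 ⟨zero_le_one, le_rfl⟩
  rw [sub_zero, gronwallBound_ε0, mul_one] at hgw
  have h1 : ‖y (g w')‖ ≤ ‖f 1‖ := by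
    have := norm_fst_le (f 1)
    have e : γ 1 = w' := by simp [hγ]
    simpa [hf, e] using this
  have h2 : ‖f 0‖ = max ‖y (g om)‖ (ρ * ‖A g y om‖) := by
    have e : γ 0 = om := by simp [hγ]
    simp only [hf, e, Prod.norm_def, norm_mul, Complex.norm_real, Real.norm_of_nonneg hρ0]
  rw [h2] at hgw
  exact h1.trans hgw

end ZGM

open ZGM CO in
theorem specZG (Hg : SpecGrow) : SpecZG := by
  intro D Ψ k t r g hD hΨ hk hc'
  have h0 : (0 : ℂ) ∈ ball (0 : ℂ) r := mem_ball_self hc'.r0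
  have hqc : ContinuousAt (qh g) 0 := by
    have h1 : ContinuousAt (deriv (deriv g)) 0 :=
      (((hc'.d.deriv isOpen_ball).deriv isOpen_ball).differentiableAt (isOpen_ball.mem_nhds h0)).continuousAt
    exact h1.div (hdg hc' h0).continuousAt (hc'.nd 0 h0)
  set B : ℝ := ‖qh g 0‖ + 1 with hB
  have hB0 : 0 < B := by positivity
  have hev : ∀ᶠ w in 𝓝 (0 : ℂ), ‖qh g w‖ < B := hqc.norm.eventually_lt_const (by rw [hB]; linarith)
  obtain ⟨δ, hδ, hδG⟩ := Metric.eventually_nhds_iff.mp hev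
  set r₂ : ℝ := min (min r δ) (1 / B) with hr₂
  have hr₂0 : 0 < r₂ := lt_min (lt_min hc'.r0 hδ) (by positivity)
  have hr₂r : r₂ ≤ r := (min_le_left _ _).trans (min_le_left _ _)
  have hr₂B : r₂ * B ≤ 1 := by
    have : r₂ ≤ 1 / B := min_le_right _ _
    rwa [le_div_iff₀ hB0] at this
  have hqB : ∀ w : ℂ, ‖w‖ < r₂ → ‖qh g w‖ ≤ B := by
    intro w hw
    refine (hδG ?_).le
    rw [dist_zero_right]
    exact hw.trans_le ((min_le_left _ _).trans (min_le_right _ _))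
  have hwq : ∀ w : ℂ, ‖w‖ < r₂ → ‖w‖ * ‖qh g w‖ ≤ 1 := by
    intro w hw
    calc ‖w‖ * ‖qh g w‖ ≤ r₂ * B := mul_le_mul hw.le (hqB w hw) (norm_nonneg _) hr₂0.le
      _ ≤ 1 := hr₂B
  refine ⟨r₂, hr₂0, hr₂r, ?_⟩
  intro r₃ hr₃ hr₃₂
  set κ : ℝ := (k : ℝ) + 2 with hκ
  have hκ0 : 2 ≤ κ := by rw [hκ]; have : (0 : ℝ) ≤ k := Nat.cast_nonneg k; linarith
  set T : ℝ := Real.sqrt (r₃ ^ (k + 2)) with hT_def
  have hT0 : 0 < T := Real.sqrt_pos.mpr (by positivity)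
  have hT2 : T ^ 2 = r₃ ^ (k + 2) := Real.sq_sqrt (by positivity)
  set K : ℝ := 32 * κ ^ 2 + 2 with hK
  have hK0 : 0 < K := by positivity
  refine ⟨(300 + 2 * (2 * K + 256 * κ ^ 2 + 1)) / T, by positivity, ?_⟩
  intro l hl y hy
  have hlT : 300 + 2 * (2 * K + 256 * κ ^ 2 + 1) ≤ l * T := by
    rwa [ge_iff_le, div_le_iff₀ hT0] at hl
  have hκsq : 0 ≤ κ ^ 2 := by positivity
  have hl300 : 300 / T ≤ l := by
    rw [div_le_iff₀ hT0]
    nlinarith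
  have hl0 : 0 < l := lt_of_lt_of_le (by positivity) hl300
  set om : ℂ := hc k (8 / l) with hom
  have homn : ‖om‖ ^ (k + 2) = 64 / l ^ 2 := by
    rw [hom, hc_norm, norm_div, Complex.norm_real, Real.norm_of_nonneg hl0.le]
    have : ‖(8 : ℂ)‖ = 8 := by simp
    rw [this]
    ring
  have homr₃ : ‖om‖ < r₃ := by
    refine lt_of_pow_lt_pow_left₀ (k + 2) hr₃.le ?_
    rw [homn, ← hT2, div_lt_iff₀ (by positivity)]
    have : T ^ 2 * l ^ 2 = (l * T) ^ 2 := by ring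
    rw [this]
    nlinarith
  have homr₂ : ‖om‖ < r₂ := homr₃.trans hr₃₂
  have hTr : T ^ 2 < r₂ ^ (k + 2) := by
    rw [hT2]
    exact pow_lt_pow_left₀ hr₃₂ hr₃.le (by omega)
  -- the sign
  obtain ⟨σ, hσ, hσle⟩ : ∃ σ : ℝ, (σ = 1 ∨ σ = -1) ∧
      ‖y (g (hc k (8 / l))) - σ * I * V k g y (8 / l) / l‖ ≤
      ‖y (g (hc k (8 / l))) + σ * I * V k g y (8 / l) / l‖ := by
    rcases le_total ‖y (g (hc k (8 / l))) - I * V k g y (8 / l) / l‖
      ‖y (g (hc k (8 / l))) + I * V k g y (8 / l) / l‖ with h | h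
    · exact ⟨1, Or.inl rfl, by simpa using h⟩
    · refine ⟨-1, Or.inr rfl, ?_⟩
      have e1 : y (g (hc k (8 / l))) - ((-1 : ℝ) : ℂ) * I * V k g y (8 / l) / l =
          y (g (hc k (8 / l))) + I * V k g y (8 / l) / l := by push_cast; ring
      have e2 : y (g (hc k (8 / l))) + ((-1 : ℝ) : ℂ) * I * V k g y (8 / l) / l =
          y (g (hc k (8 / l))) - I * V k g y (8 / l) / l := by push_cast; ring
      rw [e1, e2]
      exact h
  have hpath := path Hg hD hc' hy hT0 hσ hr₂r hwq hTr hr₂0 hl300 hσle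
  have hσ2 : (σ : ℂ) ^ 2 = 1 := by rcases hσ with h | h <;> rw [h] <;> norm_num
  set w : ℂ := hc k (σ * I * T) with hw
  have hwpow : w ^ (k + 2) = -(r₃ : ℂ) ^ (k + 2) := by
    rw [hw, hc_pow]
    have : (r₃ : ℂ) ^ (k + 2) = ((T ^ 2 : ℝ) : ℂ) := by rw [hT2]; push_cast; ring
    rw [this, mul_pow, mul_pow, hσ2, Complex.I_sq]
    push_cast
    ring
  have hwn : ‖w‖ = r₃ := by
    have h1 : ‖w‖ ^ (k + 2) = r₃ ^ (k + 2) := by
      rw [← norm_pow, hwpow, norm_neg, norm_pow, Complex.norm_real, Real.norm_of_nonneg hr₃.le]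
    exact (pow_left_inj₀ (norm_nonneg _) hr₃.le (by omega)).mp h1
  refine ⟨w, hwn, hwpow, ?_⟩
  intro w' hw'
  constructor
  · intro hsmall
    have hw'om : ‖w'‖ ≤ ‖om‖ := by
      refine le_of_pow_le_pow_left₀ (n := k + 2) (by omega) (norm_nonneg _) ?_
      rw [homn]
      refine hsmall.trans ?_
      gcongr
      norm_num
    have hin := inner hD hc' hy hl0 hr₂r hqB hr₂B hB0.le homn homr₂ hw'om
    set X : ℝ := ‖y (g om)‖ ^ 2 + ‖V k g y (8 / l)‖ ^ 2 / l ^ 2 with hX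
    have homb : om ∈ ball (0 : ℂ) r := by
      rw [mem_ball_zero_iff]
      exact homr₂.trans_le hr₂r
    have h8l : (8 : ℂ) / l ≠ 0 := div_ne_zero (by norm_num) (by exact_mod_cast hl0.ne')
    have homne : om ≠ 0 := hc_ne k h8l
    have hVn : ‖om‖ * ‖A g y om‖ = 4 * κ * (‖V k g y (8 / l)‖ / l) := by
      unfold V
      rw [norm_mul, norm_div, norm_mul, ce_norm, norm_div, Complex.norm_real, Real.norm_of_nonneg hl0.le]
      have : ‖(8 : ℂ)‖ = 8 := by simp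
      rw [this, ← hom, ← hκ]
      field_simp
      ring
    have hX0 : 0 < X := by
      rcases nz hc' hy homb with h | h
      · have : 0 < ‖y (g om)‖ := norm_pos_iff.mpr h
        positivity
      · have h1 : 0 < ‖om‖ * ‖A g y om‖ := mul_pos (norm_pos_iff.mpr homne) (norm_pos_iff.mpr h)
        rw [hVn] at h1
        have h2 : 0 < ‖V k g y (8 / l)‖ / l := by
          by_contra hcon
          push Not at hcon
          have : 4 * κ * (‖V k g y (8 / l)‖ / l) ≤ 0 :=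
            mul_nonpos_of_nonneg_of_nonpos (by positivity) hcon
          linarith
        have h3 : ‖V k g y (8 / l)‖ ^ 2 / l ^ 2 = (‖V k g y (8 / l)‖ / l) ^ 2 := by rw [div_pow]
        rw [hX, h3]
        positivity
    have hmax : (max ‖y (g om)‖ (‖om‖ * ‖A g y om‖)) ^ 2 ≤ 16 * κ ^ 2 * X := by
      have h3 : ‖V k g y (8 / l)‖ ^ 2 / l ^ 2 = (‖V k g y (8 / l)‖ / l) ^ 2 := by rw [div_pow]
      have h4 : 0 ≤ ‖y (g om)‖ ^ 2 := by positivity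
      have h5 : 0 ≤ (‖V k g y (8 / l)‖ / l) ^ 2 := by positivity
      have h6 : 1 ≤ 16 * κ ^ 2 := by nlinarith
      rcases max_choice ‖y (g om)‖ (‖om‖ * ‖A g y om‖) with h | h
      · rw [h, hX, h3]
        nlinarith
      · rw [h, hVn, hX, h3, mul_pow, mul_pow]
        nlinarith
    have hsq : ‖y (g w')‖ ^ 2 ≤ 16 * κ ^ 2 * X * Real.exp (2 * K) := by
      have h1 : ‖y (g w')‖ ^ 2 ≤ (max ‖y (g om)‖ (‖om‖ * ‖A g y om‖) * Real.exp K) ^ 2 :=
        pow_le_pow_left₀ (norm_nonneg _) hin 2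
      have h2 : Real.exp K ^ 2 = Real.exp (2 * K) := by
        rw [← Real.exp_nat_mul]
        norm_num
      rw [mul_pow, h2] at h1
      exact h1.trans (mul_le_mul_of_nonneg_right hmax (Real.exp_pos _).le)
    have hexp : 256 * κ ^ 2 * Real.exp (2 * K) < Real.exp (l * T / 2 - 1) := by
      have h1 : 2 * K + 256 * κ ^ 2 ≤ l * T / 2 - 1 := by linarith
      have h2 : Real.exp (2 * K + 256 * κ ^ 2) ≤ Real.exp (l * T / 2 - 1) := Real.exp_le_exp.mpr h1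
      rw [Real.exp_add] at h2
      have h3 := Real.add_one_le_exp (256 * κ ^ 2)
      have h4 := Real.exp_pos (2 * K)
      nlinarith
    have hfin : 16 * ‖y (g w')‖ ^ 2 < 16 * ‖y (g w)‖ ^ 2 := by
      calc 16 * ‖y (g w')‖ ^ 2 ≤ 16 * (16 * κ ^ 2 * X * Real.exp (2 * K)) := by linarith
        _ = 256 * κ ^ 2 * Real.exp (2 * K) * X := by ring
        _ < Real.exp (l * T / 2 - 1) * X := mul_lt_mul_of_pos_right hexp hX0
        _ ≤ 16 * ‖y (g w)‖ ^ 2 := hpath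
    exact lt_of_pow_lt_pow_left₀ 2 (norm_nonneg _) (by linarith)
  · intro hbig
    have hw'r₂ : ‖w'‖ < r₂ := hw'.trans hr₃₂
    have hw'b : w' ∈ ball (0 : ℂ) r := by
      rw [mem_ball_zero_iff]
      exact hw'r₂.trans_le hr₂r
    have hd := dPsi hD hΨ hc' hw'b
    have he := hc'.eq w' hw'b
    have hgn : 0 < ‖deriv g w'‖ := norm_pos_iff.mpr (hc'.nd w' hw'b)
    have hw0 : 0 < ‖w'‖ := by
      by_contra hcon
      have : ‖w'‖ = 0 := le_antisymm (not_lt.mp hcon) (norm_nonneg _)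
      rw [this, zero_pow (by omega)] at hbig
      have : 0 < 16 / l ^ 2 := by positivity
      linarith
    have hk2n : ‖((k : ℂ) + 2) / 2‖ = κ / 2 := by
      have : ((k : ℂ) + 2) / 2 = ((κ / 2 : ℝ) : ℂ) := by rw [hκ]; push_cast; ring
      rw [this, Complex.norm_real, Real.norm_of_nonneg (by positivity)]
    have n2 : ‖Ψ (g w')‖ * ‖deriv g w'‖ ^ 2 = (κ / 2) ^ 2 * ‖w'‖ ^ k := by
      have := congrArg norm he
      rwa [norm_mul, norm_pow, norm_mul, norm_pow, norm_pow, hk2n] at this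
    have n1 : ‖deriv Ψ (g w')‖ * ‖deriv g w'‖ ^ 3 ≤ (κ / 2) ^ 2 * ‖w'‖ ^ (k - 1) * κ := by
      have h1 : deriv Ψ (g w') * deriv g w' ^ 3 =
          (((k : ℂ) + 2) / 2) ^ 2 * w' ^ (k - 1) * (k - 2 * (w' * qh g w')) := by
        rw [hd]
        have : w' ^ k = w' ^ (k - 1) * w' := by
          rw [← pow_succ]
          congr 1
          omega
        rw [this]
        ring
      have h2 := congrArg norm h1
      rw [norm_mul, norm_pow, norm_mul, norm_mul, norm_pow, norm_pow, hk2n] at h2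
      rw [h2]
      refine mul_le_mul_of_nonneg_left ?_ (by positivity)
      calc ‖(k : ℂ) - 2 * (w' * qh g w')‖ ≤ ‖(k : ℂ)‖ + ‖2 * (w' * qh g w')‖ := norm_sub_le _ _
        _ = k + 2 * (‖w'‖ * ‖qh g w'‖) := by
            rw [norm_mul, norm_mul, Complex.norm_natCast, Complex.norm_two]
        _ ≤ κ := by
            have := hwq w' hw'r₂
            rw [hκ]
            linarith
    have hpos6 : 0 < (‖deriv g w'‖ ^ 3) ^ 2 := by positivity
    refine lt_of_mul_lt_mul_right (a := (‖deriv g w'‖ ^ 3) ^ 2) ?_ hpos6.le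
    have h3 : ‖deriv Ψ (g w')‖ ^ 2 * (‖deriv g w'‖ ^ 3) ^ 2 ≤ ((κ / 2) ^ 2 * ‖w'‖ ^ (k - 1) * κ) ^ 2 := by
      rw [← mul_pow]
      exact pow_le_pow_left₀ (by positivity) n1 2
    have h4 : 16 * l ^ 2 * ‖Ψ (g w')‖ ^ 3 * (‖deriv g w'‖ ^ 3) ^ 2 =
        16 * l ^ 2 * ((κ / 2) ^ 2 * ‖w'‖ ^ k) ^ 3 := by
      rw [← n2]
      ring
    rw [h4]
    refine h3.trans_lt ?_
    have h5 : 16 * l ^ 2 * ((κ / 2) ^ 2 * ‖w'‖ ^ k) ^ 3 =
        ((κ / 2) ^ 2 * ‖w'‖ ^ (k - 1)) ^ 2 * (4 * κ ^ 2 * (l ^ 2 * ‖w'‖ ^ (k + 2))) := by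
      obtain ⟨m, rfl⟩ : ∃ m, k = m + 1 := ⟨k - 1, by omega⟩
      simp only [Nat.add_sub_cancel]
      ring
    rw [h5, mul_pow]
    refine mul_lt_mul_of_pos_left ?_ (by positivity)
    have h6 : 16 < l ^ 2 * ‖w'‖ ^ (k + 2) := by
      rw [div_lt_iff₀ (by positivity)] at hbig
      linarith
    nlinarith

end MPfa
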