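import Pool.Agent.Lib.MP_fa0334_an.Spec
import Pool.Agent.Lib.MP_87ece0_an.Lower
import Pool.Agent.Lib.MP_fa0334_an.ATL
import Pool.Agent.Lib.MP_fa0334_an.Bump
import Pool.Agent.Lib.MP_fa0334_an.BF
import Pool.Agent.Lib.MP_fa0334_an.Exist
import Pool.Agent.Lib.MP_fa0334_an.Weyl
import Pool.Agent.Lib.MP_fa0334_an.Conf
import Pool.Agent.Lib.MP_fa0334_an.Cvx
import Pool.Agent.Lib.MP_fa0334_an.Mu
import Pool.Agent.Lib.MP_fa0334_an.InvWD
import Pool.Agent.Lib.MP_fa0334_an.Ymax
import Pool.Agent.Lib.MP_fa0334_an.Ode
import Pool.Agent.Lib.MP_fa0334_an.RegW22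
import Pool.Agent.Lib.MP_fa0334_an.Tip
import Pool.Agent.Lib.MP_fa0334_an.Theta
import Pool.Agent.Lib.MP_fa0334_an.ZG
import Pool.Agent.Lib.MP_fa0334_an.RegB
import Pool.Agent.Lib.MP_fa0334_an.RegZNorm
import Pool.Agent.Lib.MP_fa0334_an.RegPuncB
import Pool.Agent.Lib.MP_fa0334_an.RegCL
import Pool.Agent.Lib.MP_fa0334_an.RegDQ
import Pool.Agent.Lib.MP_fa0334_an.RegKF
import Pool.Agent.Lib.MP_fa0334_an.RegMax
import Pool.Agent.Lib.MP_fa0334_an.RegWDC1
import Pool.Agent.Lib.MP_fa0334_an.RegPuncA
import Pool.Agent.Lib.MP_fa0334_an.RegPuncC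
import Pool.Agent.Lib.MP_fa0334_an.RegTwcA
import Pool.Agent.Lib.MP_fa0334_an.RegTwcB
import Pool.Agent.Lib.MP_fa0334_an.RegTwcC
import Pool.Agent.Lib.MP_fa0334_an.RegZGrow
import Pool.Agent.Lib.MP_fa0334_an.RegZLog
import Pool.Agent.Lib.MP_fa0334_an.RegZQR
import Pool.Agent.Lib.MP_fa0334_an.RegZero

section
/-!
RM: the Riemann map of `X`.
-/
set_option autoImplicit false

open MeasureTheory Set Filter Topology Metric Complex
open scoped ContDiff ENNReal ComplexConjugate

namespace MPfa

namespace RMM

/-- the homeomorphism `X ≃ₜ Y` -/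
theorem exists_homeo {X Y : Set ℂ} {b : ℂ → ℂ} (h : Dom X Y b) : Nonempty (X ≃ₜ Y) := by
  have : CompactSpace (closure X) := isCompact_iff_compactSpace.1 h.cX
  let e : closure X ≃ closure Y := h.bi.equiv b
  have he : ∀ x : closure X, (e x : ℂ) = b x := fun x => rfl
  have hec : Continuous e :=
    Continuous.subtype_mk (h.bc.comp_continuous continuous_subtype_val fun x => x.2) _
  let E : closure X ≃ₜ closure Y := hec.homeoOfEquivCompactToT2
  have hE : ∀ x : closure X, (E x : ℂ) = b x := fun x => rfl
  have key : ∀ y : Y, ((E.symm ⟨y, subset_closure y.2⟩ : closure X) : ℂ) ∈ X := by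
    intro y
    obtain ⟨x, hx, hxy⟩ := h.bX.surjOn y.2
    have h1 : E ⟨x, subset_closure hx⟩ = ⟨y, subset_closure y.2⟩ := Subtype.ext hxy
    rw [← h1, E.symm_apply_apply]
    exact hx
  refine ⟨⟨⟨fun x => ⟨b x, h.bX.mapsTo x.2⟩,
    fun y => ⟨(E.symm ⟨y, subset_closure y.2⟩ : closure X), key y⟩, ?_, ?_⟩, ?_, ?_⟩⟩
  · intro x
    apply Subtype.ext
    have h1 : E ⟨x, subset_closure x.2⟩ = ⟨b x, subset_closure (h.bX.mapsTo x.2)⟩ :=
      Subtype.ext rfl
    simp only
    rw [← h1, E.symm_apply_apply]
  · intro y
    apply Subtype.ext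
    simp only
    rw [← hE, E.apply_symm_apply]
  · exact Continuous.subtype_mk (h.bc.comp_continuous continuous_subtype_val
      fun x => subset_closure x.2) _
  · refine Continuous.subtype_mk (continuous_subtype_val.comp (E.symm.continuous.comp ?_)) _
    exact Continuous.subtype_mk continuous_subtype_val _

theorem simply {X Y : Set ℂ} {b : ℂ → ℂ} (h : Dom X Y b) : IsSimplyConnected X := by
  obtain ⟨E⟩ := exists_homeo h
  have : ContractibleSpace Y := h.vY.contractibleSpace h.nY
  have h2 : SimplyConnectedSpace Y := SimplyConnectedSpace.ofContractible _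
  exact E.toHomotopyEquiv.simplyConnectedSpace_iff.2 h2

end RMM

theorem specRM : SpecRM := by
  intro X Y b h
  obtain ⟨y₀, hy₀⟩ := h.nY
  obtain ⟨x₀, hx₀, -⟩ := h.bX.surjOn hy₀
  have hsc := RMM.simply h
  set T : ℂ ≃ₜ ℂ := Homeomorph.addRight (-x₀) with hT
  have hTX : ∀ z, z ∈ T '' X ↔ z + x₀ ∈ X := by
    intro z
    constructor
    · rintro ⟨x, hx, rfl⟩
      simpa [hT] using hx
    · intro hz
      exact ⟨z + x₀, hz, by simp [hT]⟩
  have hD : IsOpen (T '' X) := T.isOpenMap _ h.oX
  have hXb : Bornology.IsBounded X := h.cX.isBounded.subset subset_closure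
  have hb : Bornology.IsBounded (T '' X) := by
    rw [isBounded_iff_forall_norm_le] at hXb ⊢
    obtain ⟨C, hC⟩ := hXb
    refine ⟨C + ‖x₀‖, ?_⟩
    rintro _ ⟨x, hx, rfl⟩
    calc ‖x + -x₀‖ ≤ ‖x‖ + ‖-x₀‖ := norm_add_le _ _
      _ ≤ _ := by
        rw [norm_neg]
        gcongr
        exact hC x hx
  have h0 : (0:ℂ) ∈ T '' X := by
    rw [hTX, zero_add]
    exact hx₀
  have hsD : IsSimplyConnected (T '' X) := T.isSimplyConnected_image.2 hsc
  have hc : IsPreconnected (T '' X) := hsD.isPathConnected.isConnected.isPreconnected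
  obtain ⟨F, hF, hFb, hF0⟩ := MP87.specRMT (T '' X) hD hb h0 hsD
  set G := Function.invFunOn F (T '' X) with hG
  have hl : LeftInvOn G F (T '' X) := hFb.injOn.leftInvOn_invFunOn
  have hr : RightInvOn G F (ball 0 1) := hFb.surjOn.rightInvOn_invFunOn
  have hGm : MapsTo G (ball 0 1) (T '' X) := hFb.surjOn.mapsTo_invFunOn
  have hder : ∀ z ∈ ball (0:ℂ) 1, HasDerivAt G (deriv F (G z))⁻¹ z := by
    intro z hz
    have hcz : ContinuousAt G z := by
      have := MP87.LowerM.inv_cont hD hc hF hFb.injOn (hGm hz)
      rwa [hr hz] at this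
    refine HasDerivAt.of_local_left_inverse hcz
      (hF.differentiableAt (hD.mem_nhds (hGm hz))).hasDerivAt
      (MP87.LowerM.deriv_ne_of_inj hD hc hF hFb.injOn (hGm hz)) ?_
    filter_upwards [isOpen_ball.mem_nhds hz] with w hw using hr hw
  refine ⟨fun z => G z + x₀, fun z => F (z - x₀), ?_, ?_, ⟨?_, ?_, ?_⟩, ?_, ?_⟩
  · intro z hz
    exact ((hder z hz).differentiableAt.add_const x₀).differentiableWithinAt
  · intro z hz
    have hz' : z - x₀ ∈ T '' X := by
      rw [hTX, sub_add_cancel]
      exact hz
    exact ((hF.differentiableAt (hD.mem_nhds hz')).comp z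
      (differentiableAt_id.sub_const x₀)).differentiableWithinAt
  · intro z hz
    exact (hTX _).1 (hGm hz)
  · intro z hz w hw hzw
    have h1 : G z = G w := by
      simpa using hzw
    rw [← hr hz, ← hr hw, h1]
  · intro x hx
    have hx' : x - x₀ ∈ T '' X := by
      rw [hTX, sub_add_cancel]
      exact hx
    refine ⟨F (x - x₀), hFb.mapsTo hx', ?_⟩
    simp only
    rw [hl hx', sub_add_cancel]
  · intro z hz
    simp only [add_sub_cancel_right]
    exact hr hz
  · intro z hz
    rw [((hder z hz).add_const x₀).deriv]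
    exact inv_ne_zero (MP87.LowerM.deriv_ne_of_inj hD hc hF hFb.injOn (hGm hz))

end MPfa
end

section
/-!
All Specs of the part EX are theorems.
-/
set_option autoImplicit false

namespace MPfa.All

theorem pol : SpecPol := specPol
theorem circ : SpecCirc := specCirc
theorem alg : SpecAlg := specAlg
theorem alg2 : SpecAlg2 := specAlg2
theorem moll : SpecMoll := specMoll
theorem acl : SpecACL := specACL
theorem aclc : SpecACLC := specACLC
theorem chain : SpecChain := specChain moll
theorem bph : SpecBPH := specBPH
theorem osc : SpecOsc := specOsc circ pol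
theorem step : SpecStep := specStep
theorem diff : SpecDiff := specDiff osc acl step
theorem lusin : SpecLusin := specLusin osc
theorem area : SpecArea := specArea diff lusin
theorem areaInj : SpecAreaInj := specAreaInj diff lusin
theorem jacW : SpecJacW := specJacW moll
theorem rz : SpecRz := specRz
theorem wdu : SpecWDU := specWDU
theorem weyl : SpecWeyl := specWeyl
theorem inv1 : SpecInv1 := specInv1 acl
theorem inv2 : SpecInv2 := specInv2 alg inv1 diff bph
theorem inv3 : SpecInv3 := specInv3 rz
theorem inv4 : SpecInv4 := specInv4 inv2 diff bph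
theorem inv : SpecInv := specInv alg inv2 inv3 inv4
theorem lim : SpecLim := specLim
theorem bpl : SpecBPL := specBPL
theorem frc : SpecFrc := specFrc
theorem equi : SpecEqui := specEqui osc circ pol
theorem weak : SpecWeak := specWeak rz
theorem jusc : SpecJusc := specJusc rz jacW wdu
theorem lsc : SpecLsc := specLsc alg weak jusc
theorem exist : SpecExist := specExist alg equi lsc
theorem psi : SpecPsi := specPsi
theorem comp : SpecComp := specComp chain lim
theorem theta : SpecTheta := specTheta
theorem euler : SpecEuler := specEuler alg psi comp theta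
theorem hopf : SpecHopf := specHopf alg euler weyl
theorem nmx : SpecNMX := specNMX alg lim bpl frc area
theorem rm : SpecRM := specRM
theorem pull : SpecPull := specPull alg chain
theorem vl : SpecVL := specVL alg2 acl
theorem chart : SpecChart := specChart
theorem bump : SpecBump := specBump
theorem fat : SpecFat := specFat lim bump
theorem atl : SpecATL := specATL alg2 acl
theorem half : SpecHalf := specHalf pull
theorem mu : SpecMu := specMu vl half
theorem star : SpecStar := specStar mu
theorem tip : SpecTip := specTip atl vl half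
theorem sat : SpecSat := specSat star tip half
theorem ode : SpecOde := specOde
theorem grow : SpecGrow := specGrow
theorem zg : SpecZG := specZG grow
theorem cvx : SpecCvx := specCvx
theorem ymax : SpecYmax := specYmax chart zg cvx
theorem intF : SpecIntF := specIntF sat ymax ode
theorem loop : SpecLoop := specLoop
theorem arc : SpecArc := specArc
theorem sep : SpecSep := specSep loop arc
theorem hor : SpecHor := specHor
theorem bf : SpecBF := specBF sat chart ode ymax hor sep
theorem uc : SpecUC := specUC lim
theorem noColl : SpecNoColl := specNoColl rm pull fat intF uc bf lim frc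
theorem invWD : SpecInvWD := specInvWD moll areaInj

end MPfa.All
end

section
/-!
All Specs of the part REG are theorems.
-/
set_option autoImplicit false

namespace MPfa.Reg.All

theorem mol : SpecMol := specMol
theorem cut : SpecCut := specCut
theorem c1wd : SpecC1WD := specC1WD
theorem wdc1 : SpecWDC1 := specWDC1
theorem loc : SpecLoc := specLoc
theorem glue : SpecGlue := specGlue loc MPfa.All.wdu
theorem lrl : SpecLrlLoc := specLrlLoc
theorem comp : SpecComp := specComp MPfa.All.moll
theorem mul : SpecMul := specMul MPfa.All.moll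
theorem ibp : SpecIBP := specIBP mol
theorem ibpl : SpecIBPL := specIBPL mol
theorem cl : SpecCL := specCL
theorem max : SpecMax := specMax ibp
theorem osc : SpecOsc := specOsc max cl
theorem oscQ : SpecOscQ := specOscQ osc
theorem modQ : SpecModQ := specModQ max
theorem cacc : SpecCacc := specCacc ibp
theorem caccL : SpecCaccL := specCaccL ibpl
theorem qInv : SpecQInv := specQInv comp loc
theorem sup : SpecSup := specSup cacc oscQ cut
theorem harn : SpecHarn := specHarn ibp comp cl max cut
theorem bel : SpecBel := specBel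
theorem kf : SpecKF := specKF
theorem af : SpecAf := specAf
theorem cAlg : SpecCAlg := specCAlg
theorem dsp : SpecDSP := specDSP af
theorem dq : SpecDQ := specDQ dsp af ibp mol cut
theorem c1 : SpecC1 := specC1 dsp dq osc wdc1
theorem hLift : SpecHLift := specHLift
theorem dLog : SpecDLog := specDLog hLift
theorem nz : SpecNZ := specNZ af c1wd qInv dLog harn
theorem w22 : SpecW22 := specW22 dq c1wd comp glue lrl
theorem zLogX : SpecZLogX := specZLogX hLift dLog
theorem zLogF : SpecZLogF := specZLogF hLift zLogX
theorem zLogS : SpecZLogS := specZLogS hLift zLogF zLogX cAlg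
theorem localChart : SpecLocal := specLocal MPfa.All.chart comp kf cAlg c1 nz
theorem zNorm : SpecZNorm := specZNorm MPfa.All.chart localChart
theorem lwd : SpecLWD := specLWD comp loc c1wd
theorem flux : SpecFlux := specFlux lwd
theorem ring : SpecRing := specRing flux cut
theorem circ : SpecCirc := specCirc harn qInv dLog
theorem rOsc : SpecROsc := specROsc oscQ qInv dLog
theorem goodE : SpecGoodE := specGoodE ibpl flux caccL cut
theorem puncA : SpecPuncA := specPuncA circ goodE ring modQ
theorem puncB : SpecPuncB := specPuncB ibpl cut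
theorem puncC : SpecPuncC := specPuncC puncB ring circ rOsc modQ qInv
theorem twcA : SpecTwcA := specTwcA lwd ibp rOsc cut
theorem twcB : SpecTwcB := specTwcB lwd oscQ qInv
theorem twcC : SpecTwcC := specTwcC lwd
theorem twc : SpecTwc := specTwc twcA twcB twcC
theorem zQR : SpecZQR := specZQR cAlg w22 comp glue lrl MPfa.All.wdu
theorem zAlg : SpecZAlg := specZAlg cAlg
theorem zGrow : SpecZGrow := specZGrow zAlg zQR qInv dLog comp sup
theorem zero : SpecZero := specZero kf zQR zAlg zGrow zLogF zLogS puncA puncC twc bel c1wd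
theorem reg : SpecREG := specREG localChart zNorm zero

end MPfa.Reg.All
end
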