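import Mathlib

/-!
Problem MP_fa0334_an: minimizers of the `L^p` norm of the (Hilbert-Schmidt) distortion.
Common definitions of all modules.  The plane is `ℂ`; a real linear map `ℂ → ℂ` is given by its
columns `a` (image of `1`) and `b` (image of `I`).
-/

set_option autoImplicit false

open MeasureTheory Set Filter Topology Metric Complex
open scoped ContDiff ENNReal ComplexConjugate

namespace MPfa

/-! ### algebra of the columns -/

/-- normalised Hilbert-Schmidt norm squared -/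
noncomputable def n2 (a b : ℂ) : ℝ := (‖a‖ ^ 2 + ‖b‖ ^ 2) / 2

/-- Jacobian determinant -/
def jac (a b : ℂ) : ℝ := a.re * b.im - a.im * b.re

/-- distortion, `1` if the Jacobian is not positive -/
noncomputable def KK (a b : ℂ) : ℝ := if 0 < jac a b then n2 a b / jac a b else 1

/-- the energy density `‖A‖^(2p) / J^(p-1)` of the inverse problem -/
noncomputable def PP (p : ℝ) (a b : ℂ) : ℝ≥0∞ :=
  if a = 0 ∧ b = 0 then 0
  else if 0 < jac a b then ENNReal.ofReal (n2 a b ^ p / jac a b ^ (p - 1)) else ⊤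

/-- `4 A_w conj (A_wbar)`; equals `|a|² - |b|² - 2 i Re (a conj b)` -/
noncomputable def hopf (a b : ℂ) : ℂ := (a - I * b) * conj (a + I * b)

/-- the Ahlfors-Hopf integrand `K^(p-1) (4 A_w conj A_wbar)` -/
noncomputable def AH (p : ℝ) (a b : ℂ) : ℂ := ((KK a b ^ (p - 1) : ℝ) : ℂ) * hopf a b

/-- the real linear map with columns `a`, `b` -/
noncomputable def lmap (a b : ℂ) : ℂ →L[ℝ] ℂ :=
  Complex.reCLM.smulRight a + Complex.imCLM.smulRight b

/-! ### weak derivatives -/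

/-- real test functions with support in `G` -/
structure Test (G : Set ℂ) (φ : ℂ → ℝ) : Prop where
  sm : ContDiff ℝ ∞ φ
  cs : HasCompactSupport φ
  su : tsupport φ ⊆ G

/-- local integrability on an open set -/
def LI (G : Set ℂ) (u : ℂ → ℂ) : Prop := ∀ K ⊆ G, IsCompact K → IntegrableOn u K

/-- local square integrability on an open set -/
def L2loc (G : Set ℂ) (u : ℂ → ℂ) : Prop :=
  ∀ K ⊆ G, IsCompact K → ∫⁻ z in K, ‖u z‖ₑ ^ 2 < ⊤

/-- `Fx`, `Fy` are the weak partial derivatives of `F` on `G` -/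
structure WD (G : Set ℂ) (F Fx Fy : ℂ → ℂ) : Prop where
  mx : Measurable Fx
  my : Measurable Fy
  lF : LI G F
  lx : LI G Fx
  ly : LI G Fy
  ix : ∀ φ : ℂ → ℝ, Test G φ → ∫ z, (fderiv ℝ φ z 1) • F z = - ∫ z, φ z • Fx z
  iy : ∀ φ : ℂ → ℝ, Test G φ → ∫ z, (fderiv ℝ φ z I) • F z = - ∫ z, φ z • Fy z

/-- absolute continuity on almost every horizontal segment in `G` -/
def HAC (G : Set ℂ) (F Fx : ℂ → ℂ) : Prop :=
  ∀ᵐ y : ℝ, ∀ a b : ℝ, a ≤ b → (∀ x ∈ Icc a b, (⟨x, y⟩ : ℂ) ∈ G) →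
    IntervalIntegrable (fun x : ℝ => Fx ⟨x, y⟩) volume a b ∧
      F ⟨b, y⟩ - F ⟨a, y⟩ = ∫ x in a..b, Fx ⟨x, y⟩

/-- absolute continuity on almost every vertical segment in `G` -/
def VAC (G : Set ℂ) (F Fy : ℂ → ℂ) : Prop :=
  ∀ᵐ x : ℝ, ∀ a b : ℝ, a ≤ b → (∀ y ∈ Icc a b, (⟨x, y⟩ : ℂ) ∈ G) →
    IntervalIntegrable (fun y : ℝ => Fy ⟨x, y⟩) volume a b ∧
      F ⟨x, b⟩ - F ⟨x, a⟩ = ∫ y in a..b, Fy ⟨x, y⟩

/-! ### the boundary principle -/

/-- boundary principle: `F (∂D)` in a closed disc forces `F (D)` into it, `D` relatively compact -/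
def BP (G : Set ℂ) (F : ℂ → ℂ) : Prop :=
  ∀ D : Set ℂ, IsOpen D → IsCompact (closure D) → closure D ⊆ G → ∀ (c : ℂ) (r : ℝ),
    (∀ z ∈ frontier D, ‖F z - c‖ ≤ r) → ∀ z ∈ D, ‖F z - c‖ ≤ r

/-- continuous Sobolev maps with the boundary principle -/
structure Mon (G : Set ℂ) (F Fx Fy : ℂ → ℂ) : Prop where
  op : IsOpen G
  co : ContinuousOn F G
  wd : WD G F Fx Fy
  bp : BP G F

/-- finite fibres are points -/
def FS (G : Set ℂ) (F : ℂ → ℂ) : Prop :=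
  ∀ c : ℂ, {z ∈ G | F z = c}.Finite → {z ∈ G | F z = c}.Subsingleton

/-! ### the class of relaxed competitors -/

/-- the geometric data: `X = Ω'`, `Y = Ω`, `b = g⁻¹` -/
structure Dom (X Y : Set ℂ) (b : ℂ → ℂ) : Prop where
  oX : IsOpen X
  cX : IsCompact (closure X)
  oY : IsOpen Y
  vY : Convex ℝ Y
  bY : Bornology.IsBounded Y
  nY : Y.Nonempty
  bc : ContinuousOn b (closure X)
  bi : BijOn b (closure X) (closure Y)
  bX : BijOn b X Y

/-- homeomorphisms `closure X → closure Y` with the boundary values of `b` -/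
structure Hom (X Y : Set ℂ) (b k : ℂ → ℂ) : Prop where
  co : ContinuousOn k (closure X)
  bi : BijOn k (closure X) (closure Y)
  bX : BijOn k X Y
  eq : EqOn k b (frontier X)

/-- uniform limits of such homeomorphisms -/
def Lim (X Y : Set ℂ) (b h : ℂ → ℂ) : Prop :=
  ∀ ε > 0, ∃ k, Hom X Y b k ∧ ∀ z ∈ closure X, ‖k z - h z‖ ≤ ε

/-- the relaxed competitors -/
structure Adm (p : ℝ) (X Y : Set ℂ) (b h hx hy : ℂ → ℂ) : Prop where
  li : Lim X Y b h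
  wd : WD X h hx hy
  en : ∫⁻ z in X, PP p (hx z) (hy z) < ⊤

/-- minimizers among the relaxed competitors -/
structure Mini (p : ℝ) (X Y : Set ℂ) (b h hx hy : ℂ → ℂ) : Prop where
  ad : Adm p X Y b h hx hy
  mi : ∀ k kx ky, Adm p X Y b k kx ky →
    ∫⁻ z in X, PP p (hx z) (hy z) ≤ ∫⁻ z in X, PP p (kx z) (ky z)

/-! ### solutions of the Hopf equation -/

/-- a solution on `D` of `AH = Ψ` with the area inequality -/
structure NM (p : ℝ) (D : Set ℂ) (Ψ H Hx Hy : ℂ → ℂ) : Prop where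
  op : IsOpen D
  co : ContinuousOn H D
  wd : WD D H Hx Hy
  eq : ∀ᵐ z ∂(volume.restrict D), 0 < jac (Hx z) (Hy z) ∧ AH p (Hx z) (Hy z) = Ψ z
  mu : ∀ η : ℂ → ℝ≥0∞, Measurable η →
    ∫⁻ z in D, η (H z) * ENNReal.ofReal (jac (Hx z) (Hy z)) ≤ ∫⁻ z, η z

/-- natural chart of order `k` at `t`: `Ψ dz² = (d w^((k+2)/2))²` -/
structure Chart (D : Set ℂ) (Ψ : ℂ → ℂ) (k : ℕ) (t : ℂ) (r : ℝ) (g : ℂ → ℂ) : Prop where
  r0 : 0 < r
  d : DifferentiableOn ℂ g (ball 0 r)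
  inj : InjOn g (ball 0 r)
  maps : MapsTo g (ball 0 r) D
  z : g 0 = t
  nd : ∀ w ∈ ball (0 : ℂ) r, deriv g w ≠ 0
  eq : ∀ w ∈ ball (0 : ℂ) r, Ψ (g w) * deriv g w ^ 2 = (((k : ℂ) + 2) / 2) ^ 2 * w ^ k

/-- boundary bumping for the fibre of `H` over `c` -/
def Fat (D : Set ℂ) (H : ℂ → ℂ) (c : ℂ) : Prop :=
  ∀ t ∈ D, H t = c → ∃ r > 0, closedBall t r ⊆ D ∧ ∀ U : Set ℂ, IsOpen U → U ⊆ ball t r →
    ∀ s ∈ U, H s = c → ∃ T : Set ℂ, IsPreconnected T ∧ T ⊆ closure U ∧ (∀ x ∈ T, H x = c) ∧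
      s ∈ T ∧ (T ∩ frontier U).Nonempty

/-- saturation: the fibre over `c` contains all vertical rays at each of its points -/
def Sat (D : Set ℂ) (Ψ H : ℂ → ℂ) (c : ℂ) : Prop :=
  ∀ t ∈ D, H t = c → ∀ (k : ℕ) (r : ℝ) (g : ℂ → ℂ), Chart D Ψ k t r g →
    ∃ r₁ > 0, r₁ ≤ r ∧ ∀ w ∈ ball (0 : ℂ) r₁, (w ^ (k + 2)).im = 0 → (w ^ (k + 2)).re ≤ 0 →
      H (g w) = c

end MPfa
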