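import Pool.Agent.Lib.MP_fa0334_an.Defs

/-!
Problem MP_fa0334_an, part REG (a homeomorphic solution is a diffeomorphism): definitions.
Paper proof: /team-store/MP_fa0334_an_REG.md
-/

set_option autoImplicit false

open MeasureTheory Set Filter Topology Metric Complex
open scoped ContDiff ENNReal ComplexConjugate

namespace MPfa.Reg

/-- gradient of the real part, as a complex number; `a`, `b` are the columns -/
def gr (a b : ℂ) : ℂ := ⟨a.re, b.re⟩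

/-- gradient of the imaginary part -/
def gi (a b : ℂ) : ℂ := ⟨a.im, b.im⟩

/-- squared gradient norm of a real test function -/
noncomputable def gz (ζ : ℂ → ℝ) (z : ℂ) : ℝ := (fderiv ℝ ζ z 1) ^ 2 + (fderiv ℝ ζ z I) ^ 2

/-- squared norm of the derivative -/
noncomputable def en (a b : ℂ) : ℝ := ‖a‖ ^ 2 + ‖b‖ ^ 2

/-- punctured disc about `0` -/
def pun (r : ℝ) : Set ℂ := ball (0 : ℂ) r \ {0}

/-- local `L^r` on a set, for real functions -/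
def Lrl (G : Set ℂ) (r : ℝ) (u : ℂ → ℝ) : Prop :=
  ∀ K ⊆ G, IsCompact K → ∫⁻ z in K, ENNReal.ofReal |u z| ^ r < ⊤

/-- continuous Sobolev maps on an open set: the derivatives of the real part are locally in `L^r`,
those of the imaginary part in `L^s` -/
structure WP (G : Set ℂ) (r s : ℝ) (F Fx Fy : ℂ → ℂ) : Prop where
  op : IsOpen G
  co : ContinuousOn F G
  wd : WD G F Fx Fy
  rx : Lrl G r (fun z => (Fx z).re)
  ry : Lrl G r (fun z => (Fy z).re)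
  sx : Lrl G s (fun z => (Fx z).im)
  sy : Lrl G s (fun z => (Fy z).im)

/-- the real part is controlled by the Jacobian -/
structure SP (G : Set ℂ) (r s Q : ℝ) (F Fx Fy : ℂ → ℂ) : Prop where
  hr : 1 < r
  hs : 1 < s
  hrs : r⁻¹ + s⁻¹ = 1
  wp : WP G r s F Fx Fy
  sp : ∀ᵐ z ∂(volume.restrict G), ‖gr (Fx z) (Fy z)‖ ^ 2 ≤ Q * jac (Fx z) (Fy z)

/-- continuous quasiregular maps -/
structure QR (G : Set ℂ) (Q : ℝ) (F Fx Fy : ℂ → ℂ) : Prop where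
  wp : WP G 2 2 F Fx Fy
  qr : ∀ᵐ z ∂(volume.restrict G), en (Fx z) (Fy z) ≤ Q * jac (Fx z) (Fy z)

/-- the relation `s² = σ(k)` between `s = |∇U|` and `k = |∇V| / |∇U|` -/
noncomputable def sig (p k : ℝ) : ℝ := (k ^ 2 - 1) / k ^ 2 * ((1 + k ^ 2) / (2 * k)) ^ (p - 1)

/-- `k = kf s` is the inverse of `sig`: all that is used about it -/
structure KF (p : ℝ) (kf : ℝ → ℝ) : Prop where
  one : ∀ s, 0 ≤ s → 1 ≤ kf s
  eq : ∀ s, 0 ≤ s → sig p (kf s) = s ^ 2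
  uniq : ∀ k s, 1 ≤ k → 0 ≤ s → sig p k = s ^ 2 → k = kf s
  mono : ∀ s t, 0 ≤ s → s ≤ t → kf s ≤ kf t
  lip : ∃ C, 0 ≤ C ∧ ∀ s t, 0 ≤ s → s ≤ t → (kf t - kf s) * t ≤ C * kf t * (t - s)
  cont : ContinuousOn kf (Ici 0)
  small : ∀ s, 0 ≤ s → kf s ^ 2 - 1 ≤ kf s ^ 2 * s ^ 2
  pw : ∀ s, 0 ≤ s → s ^ 2 ≤ kf s ^ (p - 1)
  gt : ∀ s, 0 < s → 1 < kf s
  der : ∃ kd : ℝ → ℝ, ContinuousOn kd (Ioi 0) ∧
    (∀ s, 0 < s → HasDerivAt kf (kd s) s ∧ 0 ≤ kd s ∧ s * kd s ≤ kf s * (kf s ^ 2 - 1)) ∧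
    ∃ T, 0 ≤ T ∧ ∀ s, 0 < s → s * kd s ≤ T * kf s

/-- the vector field of the elliptic equation -/
noncomputable def Af (kf : ℝ → ℝ) (X : ℂ) : ℂ := (kf ‖X‖ : ℂ) * X

/-- injective solutions in a natural chart: `∇V = i k(|∇U|) ∇U`, `F = U + iV` -/
structure Sol (p : ℝ) (kf : ℝ → ℝ) (G : Set ℂ) (F Fx Fy : ℂ → ℂ) : Prop where
  op : IsOpen G
  co : ContinuousOn F G
  inj : InjOn F G
  wd : WD G F Fx Fy
  eq : ∀ᵐ z ∂(volume.restrict G), gr (Fx z) (Fy z) ≠ 0 ∧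
    gi (Fx z) (Fy z) = I * Af kf (gr (Fx z) (Fy z))
  en : Lrl G p (fun z => kf ‖gr (Fx z) (Fy z)‖)

/-- the same with classical derivatives, everywhere -/
structure Sol1 (kf : ℝ → ℝ) (G : Set ℂ) (F : ℂ → ℂ) : Prop where
  op : IsOpen G
  c1 : ContDiffOn ℝ 1 F G
  inj : InjOn F G
  nz : ∀ z ∈ G, gr (fderiv ℝ F z 1) (fderiv ℝ F z I) ≠ 0
  eq : ∀ z ∈ G, gi (fderiv ℝ F z 1) (fderiv ℝ F z I) =
    I * Af kf (gr (fderiv ℝ F z 1) (fderiv ℝ F z I))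

/-- INPUT of the part REG: the inverse map `f` of a homeomorphic solution, in the `z`-plane -/
structure InvSol (p : ℝ) (Y X : Set ℂ) (Ψ f fx fy : ℂ → ℂ) : Prop where
  oY : IsOpen Y
  oX : IsOpen X
  co : ContinuousOn f Y
  inj : InjOn f Y
  maps : MapsTo f Y X
  wd : WD Y f fx fy
  hol : DifferentiableOn ℂ Ψ X
  nz : ∀ w ∈ X, ∀ᶠ w' in 𝓝[≠] w, Ψ w' ≠ 0
  eq : ∀ᵐ z ∂(volume.restrict Y), 0 < jac (fx z) (fy z) ∧
    ((KK (fx z) (fy z) ^ (p - 1) : ℝ) : ℂ) * (fx z ^ 2 + fy z ^ 2) =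
      -(jac (fx z) (fy z) : ℂ) ^ 2 * conj (Ψ (f z))
  en : Lrl Y p (fun z => KK (fx z) (fy z))

/-- `Ψ` in the normal form at a zero of order `n` -/
noncomputable def Psn (n : ℕ) (w : ℂ) : ℂ := (((n : ℂ) + 2) / 2) ^ 2 * w ^ n

/-- a solution near a zero of order `n`, classical off the zero -/
structure Zer (p : ℝ) (n : ℕ) (r : ℝ) (f : ℂ → ℂ) : Prop where
  r0 : 0 < r
  n1 : 1 ≤ n
  co : ContinuousOn f (ball 0 r)
  inj : InjOn f (ball 0 r)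
  z0 : f 0 = 0
  c1 : ContDiffOn ℝ 1 f (pun r)
  eq : ∀ z ∈ pun r, 0 < jac (fderiv ℝ f z 1) (fderiv ℝ f z I) ∧
    ((KK (fderiv ℝ f z 1) (fderiv ℝ f z I) ^ (p - 1) : ℝ) : ℂ) *
      ((fderiv ℝ f z 1) ^ 2 + (fderiv ℝ f z I) ^ 2) =
      -(jac (fderiv ℝ f z 1) (fderiv ℝ f z I) : ℂ) ^ 2 * conj (Psn n (f z))

/-- the square of `2 ∂U/∂z`, where `U + iV = w^((n+2)/2) ∘ f`: single valued near the zero -/
noncomputable def Sz (n : ℕ) (f : ℂ → ℂ) (z : ℂ) : ℂ :=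
  let a := (fderiv ℝ f z 1 - I * fderiv ℝ f z I) / 2
  let b := (fderiv ℝ f z 1 + I * fderiv ℝ f z I) / 2
  Psn n (f z) * a ^ 2 + 2 * (‖Psn n (f z)‖ : ℂ) * a * conj b + conj (Psn n (f z)) * conj b ^ 2

/-- nonvanishing quasiregular maps of a punctured disc, of winding number `m` -/
structure PF (r Q : ℝ) (m : ℕ) (F Fx Fy ℓ : ℂ → ℂ) : Prop where
  r0 : 0 < r
  qr : QR (pun r) Q F Fx Fy
  lc : ContinuousOn ℓ (pun r)
  eq : ∀ z ∈ pun r, F z = z ^ m * Complex.exp (ℓ z)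

end MPfa.Reg
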