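import Pool.Agent.Lib.MP_fa0334_an.RegZNorm

/-!
Problem MP_fa0334_an, part REG, module PUNCC: power decay and logarithmic energy.
-/

set_option autoImplicit false

open MeasureTheory Set Filter Topology Metric Complex
open scoped ContDiff ENNReal ComplexConjugate

namespace MPfa.Reg.PuncCM

open Base

/-- radial chains of Harnack inequalities -/
theorem harn_chain {w : ℂ → ℝ} {C s : ℝ} (hC : 1 ≤ C) (hs : 0 < s)
    (hw : ∀ z : ℂ, 0 < ‖z‖ → ‖z‖ < 2 * s → 0 ≤ w z)
    (H : ∀ t : ℝ, 0 < t → t ≤ s → ∀ z z' : ℂ, 7 / 8 * t ≤ ‖z‖ → ‖z‖ ≤ 9 / 8 * t →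
      7 / 8 * t ≤ ‖z'‖ → ‖z'‖ ≤ 9 / 8 * t → w z ≤ C * w z') (i : ℕ) :
    ∀ z z' : ℂ, 0 < ‖z'‖ → ‖z‖ ≤ s → (7 / 8) ^ (i + 1) * ‖z‖ ≤ ‖z'‖ → ‖z'‖ ≤ ‖z‖ →
      w z ≤ C ^ (i + 1) * w z' ∧ w z' ≤ C ^ (i + 1) * w z := by
  induction i with
  | zero =>
    intro z z' h0 h1 h2 h3
    have hz0 : 0 < ‖z‖ := h0.trans_le h3
    simp only [zero_add, pow_one] at h2 ⊢
    have := H ‖z‖ hz0 h1
    exact ⟨this z z' (by linarith) (by linarith) h2 (by linarith),
      this z' z h2 (by linarith) (by linarith) (by linarith)⟩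
  | succ i ih =>
    intro z z' h0 h1 h2 h3
    have hz0 : 0 < ‖z‖ := h0.trans_le h3
    have hC0 : 0 ≤ C := by linarith
    have hwz : 0 ≤ w z := hw z hz0 (by linarith)
    have hwz' : 0 ≤ w z' := hw z' h0 (by linarith)
    by_cases h : 7 / 8 * ‖z‖ ≤ ‖z'‖
    · have := H ‖z‖ hz0 h1
      have e1 := this z z' (by linarith) (by linarith) h (by linarith)
      have e2 := this z' z h (by linarith) (by linarith) (by linarith)
      have hp : C ≤ C ^ (i + 1 + 1) := by
        calc C = C ^ 1 := (pow_one C).symm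
          _ ≤ C ^ (i + 1 + 1) := pow_le_pow_right₀ hC (by omega)
      exact ⟨e1.trans (mul_le_mul_of_nonneg_right hp hwz'),
        e2.trans (mul_le_mul_of_nonneg_right hp hwz)⟩
    · push Not at h
      set y : ℂ := (7 / 8 : ℝ) * z with hy
      have hny : ‖y‖ = 7 / 8 * ‖z‖ := by
        rw [hy, norm_mul, Complex.norm_real, Real.norm_eq_abs, abs_of_pos (by norm_num)]
      have hH := H ‖z‖ hz0 h1
      have e1 := hH z y (by linarith) (by linarith) (by linarith) (by linarith)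
      have e2 := hH y z (by linarith) (by linarith) (by linarith) (by linarith)
      have e3 := ih y z' h0 (by linarith) (by
        rw [hny]
        calc (7 / 8 : ℝ) ^ (i + 1) * (7 / 8 * ‖z‖) = (7 / 8) ^ (i + 1 + 1) * ‖z‖ := by ring
          _ ≤ ‖z'‖ := h2) (by linarith)
      constructor
      · calc w z ≤ C * w y := e1
          _ ≤ C * (C ^ (i + 1) * w z') := mul_le_mul_of_nonneg_left e3.1 hC0
          _ = C ^ (i + 1 + 1) * w z' := by ring
      · calc w z' ≤ C ^ (i + 1) * w y := e3.2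
          _ ≤ C ^ (i + 1) * (C * w z) := mul_le_mul_of_nonneg_left e2 (by positivity)
          _ = C ^ (i + 1 + 1) * w z := by ring

/-- minimum principle on rings -/
theorem min_ring (hM : SpecModQ) (hI : SpecQInv) {r Q : ℝ} {m : ℕ} {F Fx Fy ℓ : ℂ → ℂ}
    (hQ : 0 < Q) (hP : PF r Q m F Fx Fy ℓ) {a b L : ℝ} (ha : 0 < a) (hb : b < r)
    (h1 : ∀ z : ℂ, ‖z‖ = a → L ≤ Real.log ‖F z‖) (h2 : ∀ z : ℂ, ‖z‖ = b → L ≤ Real.log ‖F z‖) :
    ∀ z : ℂ, a ≤ ‖z‖ → ‖z‖ ≤ b → L ≤ Real.log ‖F z‖ := by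
  intro z hza hzb
  rcases hza.eq_or_lt with h | hza'
  · exact h1 z h.symm
  rcases hzb.eq_or_lt with h | hzb'
  · exact h2 z h
  have hne : ∀ z ∈ pun r, F z ≠ 0 := fun z hz => PF_ne hP hz
  obtain ⟨hq, -⟩ := hI (pun r) Q F Fx Fy hQ hP.qr hne
  set O : Set ℂ := {z | a < ‖z‖ ∧ ‖z‖ < b} with hO
  have hOo : IsOpen O := (isOpen_lt continuous_const continuous_norm).inter
    (isOpen_lt continuous_norm continuous_const)
  set K : Set ℂ := {z | a ≤ ‖z‖ ∧ ‖z‖ ≤ b} with hK
  have hKc : IsClosed K := (isClosed_le continuous_const continuous_norm).inter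
    (isClosed_le continuous_norm continuous_const)
  have hOK : closure O ⊆ K := closure_minimal (fun z hz => ⟨hz.1.le, hz.2.le⟩) hKc
  have hKcomp : IsCompact K := (isCompact_closedBall (0 : ℂ) b).of_isClosed_subset hKc
    fun z hz => by simpa using hz.2
  have hKr : K ⊆ pun r := fun z hz => mem_pun.2 ⟨hz.2.trans_lt hb, fun h => by
    have := hz.1; rw [h, norm_zero] at this; linarith⟩
  have hfr : ∀ z ∈ frontier O, ‖(F z)⁻¹‖ ≤ Real.exp (-L) := by
    intro z hz
    have hz1 : z ∈ K := hOK (frontier_subset_closure hz)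
    have hz2 : z ∉ O := by
      rw [hOo.frontier_eq] at hz
      exact hz.2
    have hz3 : ‖z‖ = a ∨ ‖z‖ = b := by
      by_contra hcon
      push Not at hcon
      exact hz2 ⟨lt_of_le_of_ne hz1.1 (Ne.symm hcon.1), lt_of_le_of_ne hz1.2 hcon.2⟩
    have hz4 : L ≤ Real.log ‖F z‖ := hz3.elim (h1 z) (h2 z)
    have hz5 : 0 < ‖F z‖ := norm_pos_iff.2 (hne z (hKr hz1))
    rw [norm_inv, Real.exp_neg]
    exact inv_anti₀ (Real.exp_pos _) ((Real.le_log_iff_exp_le hz5).1 hz4)
  have := hM (pun r) Q _ _ _ hQ hq O (Real.exp (-L)) hOo (hKcomp.of_isClosed_subset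
    isClosed_closure hOK) (hOK.trans hKr) hfr z ⟨hza', hzb'⟩
  have hz5 : 0 < ‖F z‖ := norm_pos_iff.2 (hne z (hKr ⟨hza, hzb⟩))
  rw [norm_inv, Real.exp_neg] at this
  exact (Real.le_log_iff_exp_le hz5).2 ((inv_le_inv₀ hz5 (Real.exp_pos _)).1 this)

/-- real and extended integrals of the energy -/
theorem int_le_lint {r Q : ℝ} {m : ℕ} {F Fx Fy ℓ : ℂ → ℂ} (hP : PF r Q m F Fx Fy ℓ)
    {S T : Set ℂ} (hS : MeasurableSet S) (hST : S ⊆ T) (hSr : S ⊆ pun r)
    (hT : ∫⁻ z in T, ENNReal.ofReal (en (Fx z) (Fy z) / ‖F z‖ ^ 2) ≠ ⊤) :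
    ∫ z in S, en (Fx z) (Fy z) / ‖F z‖ ^ 2 ≤
      (∫⁻ z in T, ENNReal.ofReal (en (Fx z) (Fy z) / ‖F z‖ ^ 2)).toReal := by
  have hmeas : AEStronglyMeasurable (fun z => en (Fx z) (Fy z) / ‖F z‖ ^ 2)
      (volume.restrict S) := by
    have h1 : AEStronglyMeasurable (fun z => en (Fx z) (Fy z)) (volume.restrict S) := by
      have : Measurable fun z => en (Fx z) (Fy z) := by
        unfold en
        exact ((hP.qr.wp.wd.mx.norm).pow_const 2).add ((hP.qr.wp.wd.my.norm).pow_const 2)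
      exact this.aestronglyMeasurable
    have h2 : AEStronglyMeasurable (fun z => (‖F z‖ ^ 2)) (volume.restrict S) :=
      (((hP.qr.wp.co.mono hSr).norm.pow 2)).aestronglyMeasurable hS
    exact (h1.aemeasurable.div h2.aemeasurable).aestronglyMeasurable
  rw [integral_eq_lintegral_of_nonneg_ae (Eventually.of_forall fun z => by
    unfold en; positivity) hmeas]
  exact ENNReal.toReal_mono hT (lintegral_mono_set hST)

/-- dyadic radii -/
noncomputable def T (r : ℝ) (N : ℕ) : ℝ := r / 2 / 2 ^ N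

theorem T_pos {r : ℝ} (hr : 0 < r) (N : ℕ) : 0 < T r N := by unfold T; positivity

theorem T_zero (r : ℝ) : T r 0 = r / 2 := by simp [T]

theorem T_succ (r : ℝ) (N : ℕ) : T r (N + 1) = T r N / 2 := by
  unfold T
  rw [pow_succ]
  field_simp

theorem T_le {r : ℝ} (hr : 0 < r) (N : ℕ) : T r N ≤ r / 2 := by
  unfold T
  exact div_le_self (by positivity) (one_le_pow₀ (by norm_num))

theorem T_anti {r : ℝ} (hr : 0 < r) {M N : ℕ} (h : M ≤ N) : T r N ≤ T r M := by
  unfold T
  exact div_le_div_of_nonneg_left (by positivity) (by positivity)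
    (pow_le_pow_right₀ (by norm_num) h)

/-- dyadic rings -/
def D (r : ℝ) (N : ℕ) : Set ℂ := {z | T r (N + 1) ≤ ‖z‖ ∧ ‖z‖ < T r N}

/-- rings -/
def A (r : ℝ) (N : ℕ) : Set ℂ := {z | T r N ≤ ‖z‖ ∧ ‖z‖ < r / 2}

theorem D_meas (r : ℝ) (N : ℕ) : MeasurableSet (D r N) :=
  (measurableSet_le measurable_const measurable_norm).inter
    (measurableSet_lt measurable_norm measurable_const)

theorem A_meas (r : ℝ) (N : ℕ) : MeasurableSet (A r N) :=
  (measurableSet_le measurable_const measurable_norm).inter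
    (measurableSet_lt measurable_norm measurable_const)

theorem lint_sum {r : ℝ} (hr : 0 < r) (f : ℂ → ℝ≥0∞) (N : ℕ) :
    ∫⁻ z in A r N, f z = ∑ j ∈ Finset.range N, ∫⁻ z in D r j, f z := by
  induction N with
  | zero =>
    have : A r 0 = ∅ := by
      ext z
      simp only [A, T_zero, mem_ofPred_eq, mem_empty_iff_false, iff_false, not_and, not_lt]
      exact fun h => h
    simp [this]
  | succ N ih =>
    have h1 : A r (N + 1) = A r N ∪ D r N := by
      ext z
      simp only [A, D, mem_union, mem_ofPred_eq]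
      have h2 := T_anti hr (Nat.le_succ N)
      have h3 := T_le hr N
      constructor
      · rintro ⟨h4, h5⟩
        rcases le_or_gt (T r N) ‖z‖ with h | h
        · exact Or.inl ⟨h, h5⟩
        · exact Or.inr ⟨h4, h⟩
      · rintro (⟨h4, h5⟩ | ⟨h4, h5⟩)
        · exact ⟨h2.trans h4, h5⟩
        · exact ⟨h4, h5.trans_le h3⟩
    have h2 : Disjoint (A r N) (D r N) := by
      rw [Set.disjoint_left]
      rintro z ⟨h4, -⟩ ⟨-, h5⟩
      linarith
    rw [Finset.sum_range_succ, ← ih, h1, lintegral_union (D_meas r N) h2]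

theorem sum_shift {g : ℕ → ℝ} (hg : ∀ j, 0 ≤ g j) (N k : ℕ) (hk : k ≤ 2) :
    ∑ j ∈ Finset.range N, g (j + k) ≤ ∑ j ∈ Finset.range (N + 2), g j := by
  calc ∑ j ∈ Finset.range N, g (j + k) ≤ ∑ j ∈ Finset.range (N + k), g j := by
        rw [add_comm N k, Finset.sum_range_add]
        have : 0 ≤ ∑ j ∈ Finset.range k, g j := Finset.sum_nonneg fun j _ => hg j
        have e : ∑ j ∈ Finset.range N, g (j + k) = ∑ x ∈ Finset.range N, g (k + x) := by
          simp only [add_comm]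
        rw [e]
        linarith
    _ ≤ ∑ j ∈ Finset.range (N + 2), g j :=
        Finset.sum_le_sum_of_subset_of_nonneg (Finset.range_mono (by omega))
          fun j _ _ => hg j

theorem quad {a b k : ℝ} (ha : 0 ≤ a) (hk : 0 ≤ k) (h : (b - a) ^ 2 ≤ k * (1 + b)) :
    b ≤ 2 * a + 1 + k := by
  by_contra hc
  push Not at hc
  set d := b - a with hd
  have h1 : a + 1 + k < d := by linarith
  have h2 : k * (1 + b) = k * (1 + a + d) := by rw [hd]; ring
  rw [h2] at h
  nlinarith [mul_pos (by linarith : (0 : ℝ) < d) (by linarith : (0 : ℝ) < d - (a + 1 + k)),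
    mul_nonneg hk (by linarith : (0 : ℝ) ≤ d - k)]

theorem specPuncC (hB : SpecPuncB) (hR : SpecRing) (hC : SpecCirc) (hO : SpecROsc)
    (hM : SpecModQ) (hI : SpecQInv) : SpecPuncC := by
  intro r Q m F Fx Fy ℓ hQ hm hP hF0
  have hr := hP.r0
  obtain ⟨C0, hC0, hB0⟩ := hB r Q m F Fx Fy ℓ hQ hP hF0
  obtain ⟨CR, hCR, hR0⟩ := hR
  obtain ⟨CH, hCH, hH0⟩ := hC Q hQ
  obtain ⟨CO, hCO, hO0⟩ := hO Q hQ
  have hne : ∀ z ∈ pun r, F z ≠ 0 := fun z hz => PF_ne hP hz
  have hco : ContinuousOn F (pun r) := hP.qr.wp.co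
  have hucont : ContinuousOn (fun z => Real.log ‖F z‖) (pun r) :=
    hco.norm.log fun z hz => norm_ne_zero_iff.2 (hne z hz)
  have hKc : ∀ a : ℝ, 0 < a → IsCompact {z : ℂ | a ≤ ‖z‖ ∧ ‖z‖ ≤ r / 2} := fun a _ =>
    (isCompact_closedBall (0 : ℂ) (r / 2)).of_isClosed_subset
      ((isClosed_le continuous_const continuous_norm).inter
        (isClosed_le continuous_norm continuous_const)) fun z hz => by simpa using hz.2
  have hKr : ∀ a : ℝ, 0 < a → {z : ℂ | a ≤ ‖z‖ ∧ ‖z‖ ≤ r / 2} ⊆ pun r := fun a ha z hz =>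
    mem_pun.2 ⟨by linarith [hz.2], fun h => by
      have := hz.1; rw [h, norm_zero] at this; linarith⟩
  -- an upper bound
  obtain ⟨M, hMb⟩ : ∃ M : ℝ, ∀ z ∈ pun (r / 2), Real.log ‖F z‖ < M := by
    have hev : ∀ᶠ z in 𝓝[≠] (0 : ℂ), ‖F z‖ < 1 := by
      have := (Metric.tendsto_nhds.1 hF0) 1 one_pos
      simpa [dist_eq_norm] using this
    obtain ⟨ε, hε, hε'⟩ := Metric.mem_nhdsWithin_iff.1 hev
    obtain ⟨B, hBb⟩ := (hKc (ε / 2) (by positivity)).exists_bound_of_continuousOn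
      (hucont.mono (hKr (ε / 2) (by positivity)))
    refine ⟨max 0 B + 1, fun z hz => ?_⟩
    rw [mem_pun] at hz
    have hz0 : 0 < ‖F z‖ := norm_pos_iff.2 (hne z (mem_pun.2 ⟨by linarith [hz.1], hz.2⟩))
    rcases le_or_gt (ε / 2) ‖z‖ with h | h
    · have h1 := hBb z ⟨h, hz.1.le⟩
      rw [Real.norm_eq_abs] at h1
      have := le_abs_self (Real.log ‖F z‖)
      have := le_max_right 0 B
      linarith
    · have h1 : ‖F z‖ < 1 := hε' ⟨by rw [mem_ball_zero_iff]; linarith, hz.2⟩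
      have := Real.log_neg hz0 h1
      have := le_max_left 0 B
      linarith
  obtain ⟨B0, hB0b⟩ := (hKc (r / 4) (by positivity)).exists_bound_of_continuousOn
    (hucont.mono (hKr (r / 4) (by positivity)))
  have hB0b' : ∀ z : ℂ, r / 4 ≤ ‖z‖ → ‖z‖ ≤ r / 2 → -B0 ≤ Real.log ‖F z‖ := by
    intro z h1 h2
    have := hB0b z ⟨h1, h2⟩
    rw [Real.norm_eq_abs] at this
    linarith [neg_abs_le (Real.log ‖F z‖)]
  have hB0n : 0 ≤ B0 := by
    have h1 : ‖((r / 2 : ℝ) : ℂ)‖ = r / 2 := by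
      rw [Complex.norm_real, Real.norm_eq_abs, abs_of_pos (by positivity)]
    exact (norm_nonneg _).trans (hB0b ((r / 2 : ℝ) : ℂ) ⟨by rw [h1]; linarith, by rw [h1]⟩)
  -- the positive function `w`
  set w : ℂ → ℝ := fun z => M - Real.log ‖F z‖ with hw
  have hwpos : ∀ z : ℂ, 0 < ‖z‖ → ‖z‖ < r / 2 → 0 < w z := by
    intro z h1 h2
    have := hMb z (mem_pun.2 ⟨h2, norm_pos_iff.1 h1⟩)
    simp only [hw]
    linarith
  have hHarn : ∀ t : ℝ, 0 < t → t ≤ r / 4 → ∀ z z' : ℂ, 7 / 8 * t ≤ ‖z‖ → ‖z‖ ≤ 9 / 8 * t →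
      7 / 8 * t ≤ ‖z'‖ → ‖z'‖ ≤ 9 / 8 * t → w z ≤ CH * w z' := by
    intro t ht ht2 z z' h1 h2 h3 h4
    refine hH0 (r / 2) F Fx Fy (QR_mono hP.qr (pun_open _) (pun_mono (by linarith)))
      (fun z hz => hne z (pun_mono (by linarith) hz)) t M ht (by linarith) ?_ z z' h1 h2 h3 h4
    intro y hy1 hy2
    exact hMb y (mem_pun.2 ⟨by linarith, norm_pos_iff.1 (by linarith)⟩)
  set A6 := CH ^ 6 with hA6
  have hA1 : 1 ≤ A6 := one_le_pow₀ hCH
  have hCHA : CH ≤ A6 := by
    calc CH = CH ^ 1 := (pow_one _).symm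
      _ ≤ CH ^ 6 := pow_le_pow_right₀ hCH (by norm_num)
  have hchain : ∀ z z' : ℂ, 0 < ‖z'‖ → ‖z‖ ≤ r / 4 → ‖z‖ / 2 ≤ ‖z'‖ → ‖z'‖ ≤ ‖z‖ →
      w z ≤ A6 * w z' ∧ w z' ≤ A6 * w z := by
    intro z z' h0 h1 h2 h3
    refine harn_chain hCH (by positivity : 0 < r / 4) (fun z h1 h2 =>
      (hwpos z h1 (by linarith)).le) hHarn 5 z z' h0 h1 ?_ h3
    have : (7 / 8 : ℝ) ^ (5 + 1) * ‖z‖ ≤ 1 / 2 * ‖z‖ :=
      mul_le_mul_of_nonneg_right (by norm_num) (norm_nonneg _)
    linarith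
  -- dyadic points
  set x : ℕ → ℂ := fun N => ((T r N : ℝ) : ℂ) with hx
  have hxn : ∀ N, ‖x N‖ = T r N := fun N => by
    simp only [hx]
    rw [Complex.norm_real, Real.norm_eq_abs, abs_of_pos (T_pos hr N)]
  have hT1 : T r 1 = r / 4 := by
    rw [show (1 : ℕ) = 0 + 1 from rfl, T_succ, T_zero]; ring
  have hT1' : ∀ N, 1 ≤ N → T r N ≤ r / 4 := fun N hN => hT1 ▸ T_anti hr hN
  have hwx : ∀ N, 1 ≤ N → 0 < w (x N) := fun N hN =>
    hwpos _ (by rw [hxn]; exact T_pos hr N) (by rw [hxn]; linarith [hT1' N hN])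
  have hwsucc : ∀ N, 1 ≤ N → w (x (N + 1)) ≤ A6 * w (x N) := by
    intro N hN
    refine (hchain (x N) (x (N + 1)) (by rw [hxn]; exact T_pos hr _) (by rw [hxn]; exact hT1' N hN)
      (by rw [hxn, hxn, T_succ]) (by rw [hxn, hxn]; exact T_anti hr (Nat.le_succ N))).2
  -- energies
  set e : ℂ → ℝ≥0∞ := fun z => ENNReal.ofReal (en (Fx z) (Fy z) / ‖F z‖ ^ 2) with he
  set K1 : ℝ := 2 + A6 + |M| + B0 with hK1
  have hK1p : 0 < K1 := by
    have := abs_nonneg M
    linarith
  have hlow : ∀ N, 1 ≤ N → ∀ z ∈ A r N, -(A6 * w (x N) + |M| + B0) ≤ Real.log ‖F z‖ := by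
    intro N hN z hz
    have hwp := hwx N hN
    have hAw : 0 ≤ A6 * w (x N) := by positivity
    have hM0 := abs_nonneg M
    have hMn := neg_abs_le M
    have hcirc : ∀ z : ℂ, ‖z‖ = T r N → -(A6 * w (x N) + |M| + B0) ≤ Real.log ‖F z‖ := by
      intro z hz
      have h1 := hHarn (T r N) (T_pos hr N) (hT1' N hN) z (x N) (by rw [hz]; linarith [T_pos hr N])
        (by rw [hz]; linarith [T_pos hr N]) (by rw [hxn]; linarith [T_pos hr N])
        (by rw [hxn]; linarith [T_pos hr N])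
      have h2 : w z ≤ A6 * w (x N) := h1.trans (mul_le_mul_of_nonneg_right hCHA hwp.le)
      simp only [hw] at h2 ⊢
      linarith
    rcases le_or_gt (r / 4) ‖z‖ with h | h
    · have := hB0b' z h hz.2.le
      linarith
    · refine min_ring hM hI hQ hP (T_pos hr N) (by linarith : r / 4 < r) hcirc (fun z hz => ?_) z
        hz.1 h.le
      have := hB0b' z (by rw [hz]) (by rw [hz]; linarith)
      linarith
  have hE : ∀ N, 1 ≤ N → ∫⁻ z in A r N, e z ≤ ENNReal.ofReal (C0 * K1 * (1 + w (x N))) := by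
    intro N hN
    have hwp := hwx N hN
    have hAw : 0 ≤ A6 * w (x N) := by positivity
    have hM0 := abs_nonneg M
    refine (lintegral_mono_set fun z hz => ?_).trans ((hB0 (-(A6 * w (x N) + |M| + B0) - 1)).trans
      (ENNReal.ofReal_le_ofReal ?_))
    · have h1 := hlow N hN z hz
      refine ⟨mem_pun.2 ⟨hz.2, norm_pos_iff.1 ((T_pos hr N).trans_le hz.1)⟩, by linarith⟩
    · have h1 : |-(A6 * w (x N) + |M| + B0) - 1| = A6 * w (x N) + |M| + B0 + 1 := by
        rw [abs_of_nonpos (by linarith)]; ring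
      rw [h1, mul_assoc]
      refine mul_le_mul_of_nonneg_left ?_ hC0
      rw [hK1]
      nlinarith
  have hEfin : ∀ N, ∫⁻ z in A r N, e z ≠ ⊤ := by
    intro N
    rcases Nat.eq_zero_or_pos N with h | h
    · subst h
      rw [lint_sum hr]; simp
    · exact ((hE N h).trans_lt ENNReal.ofReal_lt_top).ne
  have hDA : ∀ N, D r N ⊆ A r (N + 1) := fun N z hz => ⟨hz.1, hz.2.trans_le (T_le hr N)⟩
  have hDfin : ∀ N, ∫⁻ z in D r N, e z ≠ ⊤ := fun N =>
    ((lintegral_mono_set (hDA N)).trans_lt (lt_top_iff_ne_top.2 (hEfin (N + 1)))).ne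
  set g : ℕ → ℝ := fun j => (∫⁻ z in D r j, e z).toReal with hg
  have hg0 : ∀ j, 0 ≤ g j := fun j => ENNReal.toReal_nonneg
  set En : ℕ → ℝ := fun N => (∫⁻ z in A r N, e z).toReal with hEn
  have hEnsum : ∀ N, En N = ∑ j ∈ Finset.range N, g j := by
    intro N
    simp only [hEn, hg]
    rw [lint_sum hr, ENNReal.toReal_sum fun j _ => hDfin j]
  have hEn1 : ∀ N, 1 ≤ N → En N ≤ C0 * K1 * (1 + w (x N)) := by
    intro N hN
    have hwp := hwx N hN
    exact ENNReal.toReal_le_of_le_ofReal (by positivity) (hE N hN)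
  -- the lower bound of the energy
  have hRing : ∀ j, (m : ℝ) ^ 2 ≤ CR * g j := by
    intro j
    have h1 := hR0 r Q m F Fx Fy ℓ hQ hP (T r (j + 1)) (T_pos hr _) (by
      rw [T_succ]; linarith [T_le hr j])
    refine h1.trans (mul_le_mul_of_nonneg_left ?_ hCR)
    refine int_le_lint hP (measurableSet_ball.diff measurableSet_closedBall) ?_ ?_ (hDfin j)
    · intro z hz
      rw [Set.mem_sdiff, mem_ball_zero_iff, mem_closedBall_zero_iff, not_le] at hz
      refine ⟨hz.2.le, ?_⟩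
      have := hz.1
      rw [T_succ] at this
      linarith
    · intro z hz
      rw [Set.mem_sdiff, mem_ball_zero_iff, mem_closedBall_zero_iff, not_le] at hz
      refine mem_pun.2 ⟨?_, norm_pos_iff.1 ((T_pos hr _).trans hz.2)⟩
      have := hz.1
      rw [T_succ] at this
      linarith [T_le hr j]
  have hm1 : (1 : ℝ) ≤ (m : ℝ) ^ 2 := by
    have : (1 : ℝ) ≤ m := by exact_mod_cast hm
    nlinarith
  have hNE : ∀ N : ℕ, (N : ℝ) ≤ CR * En N := by
    intro N
    rw [hEnsum, Finset.mul_sum]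
    calc (N : ℝ) = ∑ j ∈ Finset.range N, (1 : ℝ) := by simp
      _ ≤ ∑ j ∈ Finset.range N, CR * g j := Finset.sum_le_sum fun j _ => hm1.trans (hRing j)
  set C2 := CR * (C0 * K1) with hC2
  have hN2 : ∀ N : ℕ, 1 ≤ N → (N : ℝ) ≤ C2 * (1 + w (x N)) := by
    intro N hN
    calc (N : ℝ) ≤ CR * En N := hNE N
      _ ≤ CR * (C0 * K1 * (1 + w (x N))) := mul_le_mul_of_nonneg_left (hEn1 N hN) hCR
      _ = C2 * (1 + w (x N)) := by rw [hC2]; ring
  have hC2p : 0 < C2 := by
    have h1 := hN2 1 le_rfl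
    have h2 := hwx 1 le_rfl
    have h3 : 0 ≤ C2 := by positivity
    rcases h3.eq_or_lt with h | h
    · rw [← h] at h1
      norm_num at h1
    · exact h
  -- the upper bound of `w`
  set W1 := w (x 1) with hW1
  have hW1p : 0 < W1 := hwx 1 le_rfl
  set K2 := 3 * CO * (C0 * K1) * A6 with hK2
  have hK2n : 0 ≤ K2 := by positivity
  have hup : ∀ N : ℕ, w (x (N + 1)) ≤ 2 * W1 + 1 + K2 * N := by
    intro N
    refine quad hW1p.le (by positivity) ?_
    have htel : w (x (N + 1)) - W1 = ∑ j ∈ Finset.range N, (w (x (j + 1 + 1)) - w (x (j + 1))) := by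
      rw [Finset.sum_range_sub (fun j => w (x (j + 1)))]
    have hosc : ∀ j : ℕ, (w (x (j + 1 + 1)) - w (x (j + 1))) ^ 2 ≤
        CO * (g j + g (j + 1) + g (j + 2)) := by
      intro j
      have h1 := hO0 r F Fx Fy hP.qr hne (T r (j + 1)) (T_pos hr _) (by
        rw [T_succ]; linarith [T_le hr j]) (x (j + 1)) (x (j + 1 + 1))
        (by rw [hxn]; linarith [T_pos hr (j + 1)]) (by rw [hxn])
        (by rw [hxn, T_succ r (j + 1)]) (by rw [hxn]; exact T_anti hr (Nat.le_succ _))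
      have h2 : (w (x (j + 1 + 1)) - w (x (j + 1))) ^ 2 =
          (Real.log ‖F (x (j + 1))‖ - Real.log ‖F (x (j + 1 + 1))‖) ^ 2 := by
        simp only [hw]; ring
      rw [h2]
      refine h1.trans (mul_le_mul_of_nonneg_left ?_ hCO)
      have hU : ∫⁻ z in D r j ∪ D r (j + 1) ∪ D r (j + 2), e z ≤
          (∫⁻ z in D r j, e z) + (∫⁻ z in D r (j + 1), e z) + ∫⁻ z in D r (j + 2), e z :=
        (lintegral_union_le _ _ _).trans (add_le_add (lintegral_union_le _ _ _) le_rfl)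
      have hfin3 : (∫⁻ z in D r j, e z) + (∫⁻ z in D r (j + 1), e z) + ∫⁻ z in D r (j + 2), e z ≠ ⊤ :=
        ENNReal.add_ne_top.2 ⟨ENNReal.add_ne_top.2 ⟨hDfin _, hDfin _⟩, hDfin _⟩
      have h3 := int_le_lint hP (S := ball (0 : ℂ) (2 * T r (j + 1)) \ closedBall 0 (T r (j + 1) / 4))
        (T := D r j ∪ D r (j + 1) ∪ D r (j + 2))
        (measurableSet_ball.diff measurableSet_closedBall) ?_ ?_
        (ne_top_of_le_ne_top hfin3 hU)
      · refine h3.trans ?_
        calc (∫⁻ z in D r j ∪ D r (j + 1) ∪ D r (j + 2), e z).toReal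
            ≤ ((∫⁻ z in D r j, e z) + (∫⁻ z in D r (j + 1), e z) + ∫⁻ z in D r (j + 2), e z).toReal :=
              ENNReal.toReal_mono hfin3 hU
          _ = g j + g (j + 1) + g (j + 2) := by
              rw [ENNReal.toReal_add (ENNReal.add_ne_top.2 ⟨hDfin _, hDfin _⟩) (hDfin _),
                ENNReal.toReal_add (hDfin _) (hDfin _)]
      · intro z hz
        rw [Set.mem_sdiff, mem_ball_zero_iff, mem_closedBall_zero_iff, not_le] at hz
        have e1 : T r (j + 1) = T r j / 2 := T_succ r j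
        have e2 : T r (j + 1 + 1) = T r (j + 1) / 2 := T_succ r (j + 1)
        have e3 : T r (j + 2 + 1) = T r (j + 1 + 1) / 2 := T_succ r (j + 2)
        have e4 : T r (j + 2) = T r (j + 1 + 1) := rfl
        rcases le_or_gt (T r (j + 1)) ‖z‖ with h | h
        · exact Or.inl (Or.inl ⟨h, by linarith [hz.1]⟩)
        · rcases le_or_gt (T r (j + 1 + 1)) ‖z‖ with h' | h'
          · exact Or.inl (Or.inr ⟨h', h⟩)
          · exact Or.inr ⟨by rw [e3]; linarith [hz.2], by rw [e4]; exact h'⟩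
      · intro z hz
        rw [Set.mem_sdiff, mem_ball_zero_iff, mem_closedBall_zero_iff, not_le] at hz
        have hp := T_pos hr (j + 1)
        refine mem_pun.2 ⟨?_, norm_pos_iff.1 (by linarith [hz.2])⟩
        have := hz.1
        rw [T_succ] at this
        linarith [T_le hr j]
    rw [htel]
    calc (∑ j ∈ Finset.range N, (w (x (j + 1 + 1)) - w (x (j + 1)))) ^ 2
        ≤ (Finset.range N).card * ∑ j ∈ Finset.range N, (w (x (j + 1 + 1)) - w (x (j + 1))) ^ 2 :=
          sq_sum_le_card_mul_sum_sq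
      _ ≤ N * ∑ j ∈ Finset.range N, CO * (g j + g (j + 1) + g (j + 2)) := by
          rw [Finset.card_range]
          exact mul_le_mul_of_nonneg_left (Finset.sum_le_sum fun j _ => hosc j) (Nat.cast_nonneg N)
      _ ≤ N * (CO * (3 * En (N + 2))) := by
          refine mul_le_mul_of_nonneg_left ?_ (Nat.cast_nonneg N)
          rw [← Finset.mul_sum]
          refine mul_le_mul_of_nonneg_left ?_ hCO
          rw [Finset.sum_add_distrib, Finset.sum_add_distrib, hEnsum]
          have s0 := sum_shift hg0 N 0 (by norm_num)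
          have s1 := sum_shift hg0 N 1 (by norm_num)
          have s2 := sum_shift hg0 N 2 (by norm_num)
          simp only [add_zero] at s0
          linarith
      _ ≤ K2 * N * (1 + w (x (N + 1))) := by
          have h1 := hEn1 (N + 2) (by omega)
          have h2 := hwsucc (N + 1) (by omega)
          have h3 : En (N + 2) ≤ C0 * K1 * (A6 * (1 + w (x (N + 1)))) := by
            refine h1.trans (mul_le_mul_of_nonneg_left ?_ (by positivity))
            have : x (N + 2) = x (N + 1 + 1) := rfl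
            rw [this]
            nlinarith
          calc (N : ℝ) * (CO * (3 * En (N + 2)))
              ≤ N * (CO * (3 * (C0 * K1 * (A6 * (1 + w (x (N + 1))))))) := by gcongr
            _ = K2 * N * (1 + w (x (N + 1))) := by rw [hK2]; ring
  -- location of a radius
  have hloc : ∀ ρ : ℝ, 0 < ρ → ρ < r / 4 → ∃ N : ℕ, 1 ≤ N ∧ T r (N + 1) < ρ ∧ ρ ≤ T r N := by
    intro ρ hρ hρr
    have h1 : 1 ≤ r / 2 / ρ := by rw [le_div_iff₀ hρ]; linarith
    obtain ⟨N, hN1, hN2⟩ := exists_nat_pow_near h1 (by norm_num : (1 : ℝ) < 2)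
    have hNpos : 1 ≤ N := by
      by_contra hcon
      have : N = 0 := by omega
      subst this
      rw [div_lt_iff₀ hρ] at hN2
      norm_num at hN2
      linarith
    refine ⟨N, hNpos, ?_, ?_⟩
    · unfold T
      rw [div_lt_iff₀ hρ] at hN2
      rw [div_lt_iff₀ (by positivity)]
      linarith
    · unfold T
      rw [le_div_iff₀ hρ] at hN1
      rw [le_div_iff₀ (by positivity)]
      linarith
  have hlog2 : 0 < Real.log 2 := Real.log_pos (by norm_num)
  -- conclusion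
  set α := 1 / (C2 * A6 * Real.log 2) with hα
  have hαp : 0 < α := by positivity
  set Cf := Real.exp (M + 1 / A6) * (4 / r) ^ α with hCf
  set Ce := C0 * K1 * (2 + 2 * W1 + 2 * K2) with hCe
  have hCf0 : 0 ≤ Cf := by positivity
  have hCe0 : 0 ≤ Ce := by positivity
  refine ⟨max Cf Ce, α, le_max_of_le_left hCf0, hαp, ?_, ?_⟩
  · intro z hz
    rw [mem_pun] at hz
    have hz0 : 0 < ‖z‖ := norm_pos_iff.2 hz.2
    obtain ⟨N, hN, h1, h2⟩ := hloc ‖z‖ hz0 hz.1
    have h3 := (hchain (x N) z hz0 (by rw [hxn]; exact hT1' N hN)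
      (by rw [hxn, ← T_succ]; exact h1.le) (by rw [hxn]; exact h2)).1
    have h4 := hN2 N hN
    have h5 : (N : ℝ) / C2 - 1 ≤ w (x N) := by
      rw [sub_le_iff_le_add, div_le_iff₀ hC2p]
      linarith
    have h6 : ((N : ℝ) / C2 - 1) / A6 ≤ w z := by
      rw [div_le_iff₀ (by positivity)]
      linarith
    have hF : 0 < ‖F z‖ := norm_pos_iff.2 (hne z (mem_pun.2 ⟨by linarith, hz.2⟩))
    have h7 : Real.log ‖F z‖ ≤ (M + 1 / A6) + α * (-(N * Real.log 2)) := by
      have e1 : α * (-(N * Real.log 2)) = -(N / C2 / A6) := by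
        rw [hα]; field_simp
      have e2 : ((N : ℝ) / C2 - 1) / A6 = N / C2 / A6 - 1 / A6 := by ring
      simp only [hw] at h6
      rw [e1]
      linarith
    have h8 : -(N * Real.log 2) ≤ Real.log (4 / r * ‖z‖) := by
      have e1 : -(N * Real.log 2) = Real.log ((2 ^ N)⁻¹) := by
        rw [Real.log_inv, Real.log_pow]
      rw [e1]
      refine Real.log_le_log (by positivity) ?_
      unfold T at h1
      rw [pow_succ, div_lt_iff₀ (by positivity)] at h1
      rw [inv_le_iff_one_le_mul₀ (by positivity)]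
      have : 4 / r * ‖z‖ * 2 ^ N = 2 / r * (‖z‖ * (2 ^ N * 2)) := by ring
      rw [this]
      have h9 : 2 / r * (r / 2) ≤ 2 / r * (‖z‖ * (2 ^ N * 2)) :=
        mul_le_mul_of_nonneg_left h1.le (by positivity)
      have h10 : 2 / r * (r / 2) = 1 := by field_simp
      linarith
    calc ‖F z‖ = Real.exp (Real.log ‖F z‖) := (Real.exp_log hF).symm
      _ ≤ Real.exp ((M + 1 / A6) + Real.log (4 / r * ‖z‖) * α) := by
          refine Real.exp_le_exp.2 (h7.trans ?_)
          have := mul_le_mul_of_nonneg_left h8 hαp.le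
          linarith
      _ = Cf * ‖z‖ ^ α := by
          rw [Real.exp_add, hCf, mul_assoc, ← Real.mul_rpow (by positivity) hz0.le,
            Real.rpow_def_of_pos (by positivity)]
      _ ≤ max Cf Ce * ‖z‖ ^ α :=
          mul_le_mul_of_nonneg_right (le_max_left _ _) (Real.rpow_nonneg hz0.le _)
  · intro ρ hρ hρr
    obtain ⟨N, hN, h1, h2⟩ := hloc ρ hρ hρr
    have hsub : ball (0 : ℂ) (r / 4) \ ball 0 ρ ⊆ A r (N + 1) := by
      intro z hz
      rw [Set.mem_sdiff, mem_ball_zero_iff, mem_ball_zero_iff, not_lt] at hz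
      exact ⟨by linarith [hz.2], by linarith [hz.1]⟩
    refine (lintegral_mono_set hsub).trans ((hE (N + 1) (by omega)).trans
      (ENNReal.ofReal_le_ofReal ?_))
    have h3 := hup N
    have h4 : (N : ℝ) ≤ 2 * Real.log (r / ρ) := by
      have e1 : (N : ℝ) * Real.log 2 ≤ Real.log (r / ρ) := by
        rw [← Real.log_pow]
        refine Real.log_le_log (by positivity) ?_
        unfold T at h2
        rw [le_div_iff₀ (by positivity)] at h2
        rw [le_div_iff₀ hρ]
        linarith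
      have e2 : (1 : ℝ) / 2 ≤ Real.log 2 := by
        have := Real.log_two_gt_d9
        linarith
      have e3 : (N : ℝ) * (1 / 2) ≤ N * Real.log 2 :=
        mul_le_mul_of_nonneg_left e2 (Nat.cast_nonneg N)
      linarith
    have hL0 : 0 ≤ Real.log (r / ρ) := by
      have := Nat.cast_nonneg (α := ℝ) N
      linarith
    calc C0 * K1 * (1 + w (x (N + 1))) ≤ C0 * K1 * (2 + 2 * W1 + 2 * K2 * Real.log (r / ρ)) := by
          refine mul_le_mul_of_nonneg_left ?_ (by positivity)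
          have := mul_le_mul_of_nonneg_left h4 hK2n
          linarith
      _ ≤ C0 * K1 * ((2 + 2 * W1 + 2 * K2) * (1 + Real.log (r / ρ))) := by
          refine mul_le_mul_of_nonneg_left ?_ (by positivity)
          have e1 : 0 ≤ (2 + 2 * W1) * Real.log (r / ρ) := mul_nonneg (by linarith) hL0
          have e2 : (2 + 2 * W1 + 2 * K2) * (1 + Real.log (r / ρ)) =
            2 + 2 * W1 + 2 * K2 * Real.log (r / ρ) + ((2 + 2 * W1) * Real.log (r / ρ) +
              2 * K2) := by ring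
          rw [e2]
          linarith
      _ = Ce * (1 + Real.log (r / ρ)) := by rw [hCe]; ring
      _ ≤ max Cf Ce * (1 + Real.log (r / ρ)) :=
          mul_le_mul_of_nonneg_right (le_max_right _ _) (by linarith)

end MPfa.Reg.PuncCM

namespace MPfa.Reg

theorem specPuncC (hB : SpecPuncB) (hR : SpecRing) (hC : SpecCirc) (hO : SpecROsc)
    (hM : SpecModQ) (hI : SpecQInv) : SpecPuncC :=
  PuncCM.specPuncC hB hR hC hO hM hI

end MPfa.Reg
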