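import Pool.Agent.Lib.MP_fa0334_an.Mu
import Pool.Agent.Lib.MP_fa0334_an.RegZNorm

section
/-!
Problem MP_fa0334_an, module RZ: Riesz representation of bounded weak derivatives.
-/
set_option autoImplicit false

open MeasureTheory Set Filter Topology Metric Complex
open scoped ContDiff ENNReal ComplexConjugate

namespace MPfa

namespace RzM

/-- a linear functional bounded by a seminorm from a Hilbert space is represented by a vector -/
theorem riesz_factor {D H : Type*} [AddCommGroup D] [Module ℝ D] [NormedAddCommGroup H]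
    [InnerProductSpace ℝ H] [CompleteSpace H] (ι : D →ₗ[ℝ] H) (T : D →ₗ[ℝ] ℝ) (c : ℝ)
    (hc : 0 ≤ c) (h : ∀ x, |T x| ≤ c * ‖ι x‖) :
    ∃ k : H, ‖k‖ ≤ c ∧ ∀ x, T x = inner ℝ k (ι x) := by
  obtain ⟨g, hg⟩ := ι.rangeRestrict.exists_rightInverse_of_surjective
    (LinearMap.range_rangeRestrict ι)
  have hg' : ∀ y, ι.rangeRestrict (g y) = y := fun y => by
    exact congrArg (fun L => L y) hg
  have hg'' : ∀ y : LinearMap.range ι, ι (g y) = (y : H) := fun y => by
    have := congrArg Subtype.val (hg' y)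
    simpa using this
  have h0 : ∀ x, ι x = 0 → T x = 0 := fun x hx => by
    have := h x
    rw [hx, norm_zero, mul_zero] at this
    exact abs_eq_zero.mp (le_antisymm this (abs_nonneg _))
  let T' : LinearMap.range ι →ₗ[ℝ] ℝ := T.comp g
  have hT' : ∀ y, ‖T' y‖ ≤ c * ‖y‖ := fun y => by
    have := h (g y)
    rw [hg''] at this
    simpa [T'] using this
  let T'' : LinearMap.range ι →L[ℝ] ℝ := T'.mkContinuous c hT'
  obtain ⟨f, hf1, hf2⟩ := exists_extension_norm_eq (LinearMap.range ι) T''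
  refine ⟨(InnerProductSpace.toDual ℝ H).symm f, ?_, fun x => ?_⟩
  · rw [LinearIsometryEquiv.norm_map, hf2]
    exact T'.mkContinuous_norm_le hc hT'
  · rw [InnerProductSpace.toDual_symm_apply]
    have h1 : f (ι x) = T (g ⟨ι x, ⟨x, rfl⟩⟩) := hf1 ⟨ι x, ⟨x, rfl⟩⟩
    rw [h1]
    have h2 : ι (x - g ⟨ι x, ⟨x, rfl⟩⟩) = 0 := by
      rw [map_sub, hg'']
      simp
    have h3 := h0 _ h2
    rw [map_sub] at h3
    linarith

variable {X : Set ℂ}

/-- the space of test functions -/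
def DD (X : Set ℂ) : Submodule ℝ (ℂ → ℝ) where
  carrier := {φ | Test X φ}
  add_mem' := fun h h' => Wk.tadd h h'
  zero_mem' := Wk.tzero
  smul_mem' := fun c _ h => Wk.tsmul c h

theorem tmem {φ : ℂ → ℝ} (h : Test X φ) : MemLp φ 2 (volume.restrict X) :=
  ((Wk.tcont h).memLp_of_hasCompactSupport h.cs).restrict X

/-- the inclusion of the test functions in `L²` -/
noncomputable def io (X : Set ℂ) : DD X →ₗ[ℝ] Lp ℝ 2 (volume.restrict X) where
  toFun φ := (tmem φ.2).toLp φ.1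
  map_add' φ ψ := by
    rw [← MemLp.toLp_add]
    rfl
  map_smul' c φ := by
    rw [RingHom.id_apply, ← MemLp.toLp_const_smul]
    rfl

theorem io_norm (φ : DD X) : ‖io X φ‖ ^ 2 = ∫ z, φ.1 z ^ 2 := by
  have h1 : ‖io X φ‖ ^ 2 = inner ℝ (io X φ) (io X φ) := (real_inner_self_eq_norm_sq _).symm
  rw [h1, L2.inner_def]
  have h2 : ∫ z, inner ℝ ((io X φ) z) ((io X φ) z) ∂(volume.restrict X)
      = ∫ z in X, φ.1 z • φ.1 z := by
    apply integral_congr_ae
    have := (tmem φ.2).coeFn_toLp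
    filter_upwards [this] with z hz
    change inner ℝ (((tmem φ.2).toLp φ.1 : Lp ℝ 2 (volume.restrict X)) z)
      (((tmem φ.2).toLp φ.1 : Lp ℝ 2 (volume.restrict X)) z) = _
    rw [hz]
    simp [sq]
  rw [h2]
  have h3 : ∫ z in X, φ.1 z • φ.1 z = ∫ z, φ.1 z • φ.1 z := by
    apply setIntegral_eq_integral_of_forall_compl_eq_zero
    intro z hz
    have : φ.1 z = 0 := by
      by_contra h0
      exact hz (φ.2.su (subset_tsupport _ h0))
    simp [this]
  rw [h3]
  congr 1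
  ext z
  simp [sq]

/-- the real case -/
theorem rz_real (h : ℂ → ℝ) (v : ℂ) (C : ℝ)
    (hh : ∀ K ⊆ X, IsCompact K → IntegrableOn h K) (hC : 0 ≤ C)
    (hb : ∀ φ : ℂ → ℝ, Test X φ → |∫ z, (fderiv ℝ φ z v) * h z| ^ 2 ≤ C * ∫ z, φ z ^ 2) :
    ∃ k : ℂ → ℝ, Measurable k ∧ ∫⁻ z in X, ‖k z‖ₑ ^ 2 ≤ ENNReal.ofReal C ∧
      ∀ φ : ℂ → ℝ, Test X φ → ∫ z, (fderiv ℝ φ z v) * h z = ∫ z, φ z * k z := by
  have hint : ∀ φ : ℂ → ℝ, Test X φ → Integrable fun z => fderiv ℝ φ z v * h z := by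
    intro φ hφ
    have h1 : IntegrableOn (fun z => fderiv ℝ φ z v • h z) (tsupport fun z => fderiv ℝ φ z v) :=
      (hh _ (Wk.tdsu hφ v) (Wk.tdcs hφ v)).continuousOn_smul (Wk.tdcont hφ v).continuousOn
        (Wk.tdcs hφ v)
    refine (integrableOn_iff_integrable_of_support_subset ?_).mp h1
    intro z hz
    have : fderiv ℝ φ z v ≠ 0 := by
      intro h0
      apply hz
      simp [h0]
    exact subset_tsupport (fun z => fderiv ℝ φ z v) this
  let T : DD X →ₗ[ℝ] ℝ :=
    { toFun := fun φ => ∫ z, (fderiv ℝ φ.1 z v) * h z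
      map_add' := by
        intro φ ψ
        rw [← integral_add (hint _ φ.2) (hint _ ψ.2)]
        congr 1
        ext z
        have : fderiv ℝ (φ.1 + ψ.1) z = fderiv ℝ φ.1 z + fderiv ℝ ψ.1 z :=
          fderiv_add (Wk.tdif φ.2 z) (Wk.tdif ψ.2 z)
        change (fderiv ℝ (φ.1 + ψ.1) z v) * h z = _
        rw [this]
        simp [add_mul]
      map_smul' := by
        intro c φ
        rw [RingHom.id_apply, smul_eq_mul, ← integral_const_mul]
        congr 1
        ext z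
        have : fderiv ℝ (c • φ.1) z = c • fderiv ℝ φ.1 z :=
          fderiv_const_smul (Wk.tdif φ.2 z) c
        change (fderiv ℝ (c • φ.1) z v) * h z = _
        rw [this]
        simp [mul_assoc] }
  have hT : ∀ φ, |T φ| ≤ Real.sqrt C * ‖io X φ‖ := by
    intro φ
    have h1 := hb φ.1 φ.2
    rw [← io_norm φ] at h1
    have h2 : |T φ| ^ 2 ≤ (Real.sqrt C * ‖io X φ‖) ^ 2 := by
      rw [mul_pow, Real.sq_sqrt hC]
      exact h1
    exact le_of_sq_le_sq h2 (by positivity)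
  obtain ⟨k, hk1, hk2⟩ := riesz_factor (io X) T (Real.sqrt C) (Real.sqrt_nonneg _) hT
  have hkm : AEStronglyMeasurable k (volume.restrict X) := Lp.aestronglyMeasurable k
  refine ⟨hkm.mk k, hkm.stronglyMeasurable_mk.measurable, ?_, ?_⟩
  · have h1 : ∫⁻ z in X, ‖hkm.mk k z‖ₑ ^ 2 = ∫⁻ z in X, ‖k z‖ₑ ^ 2 := by
      apply lintegral_congr_ae
      filter_upwards [hkm.ae_eq_mk] with z hz
      rw [hz]
    rw [h1]
    have h2 : ‖k‖ₑ = eLpNorm k 2 (volume.restrict X) := Lp.enorm_def k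
    have h3 : eLpNorm k 2 (volume.restrict X) ^ 2 = ∫⁻ z in X, ‖k z‖ₑ ^ 2 := by
      rw [eLpNorm_eq_lintegral_rpow_enorm_toReal (by norm_num) (by norm_num)]
      simp only [ENNReal.toReal_ofNat, ENNReal.rpow_ofNat, one_div]
      rw [← ENNReal.rpow_natCast, ← ENNReal.rpow_mul]
      simp
    rw [← h3, ← h2]
    have h4 : ‖k‖ₑ ^ 2 = ENNReal.ofReal (‖k‖ ^ 2) := by
      rw [ENNReal.ofReal_pow (norm_nonneg _), ofReal_norm]
    rw [h4]
    apply ENNReal.ofReal_le_ofReal
    have : ‖k‖ ^ 2 ≤ (Real.sqrt C) ^ 2 := by gcongr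
    rwa [Real.sq_sqrt hC] at this
  · intro φ hφ
    have h1 := hk2 ⟨φ, hφ⟩
    change ∫ z, (fderiv ℝ φ z v) * h z = _ at h1
    rw [h1, L2.inner_def]
    have h2 : ∫ z, φ z * hkm.mk k z = ∫ z in X, φ z * hkm.mk k z := by
      symm
      apply setIntegral_eq_integral_of_forall_compl_eq_zero
      intro z hz
      have : φ z = 0 := by
        by_contra h0
        exact hz (hφ.su (subset_tsupport _ h0))
      simp [this]
    rw [h2]
    apply integral_congr_ae
    filter_upwards [(tmem hφ).coeFn_toLp, hkm.ae_eq_mk] with z hz hz'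
    change inner ℝ (k z) (((tmem hφ).toLp φ : Lp ℝ 2 (volume.restrict X)) z) = _
    rw [hz, ← hz']
    simp

end RzM

/-- A14 -/
theorem specRz : SpecRz := by
  intro X h v C hX hh hC hb
  have e1 : ∀ φ : ℂ → ℝ, Test X φ → ∫ z, (fderiv ℝ φ z v) * (h z).re =
      (∫ z, (fderiv ℝ φ z v) • h z).re := by
    intro φ hφ
    have := (Wk.tintd hφ hh v)
    have h2 := integral_re this
    simp only [RCLike.re_to_complex] at h2
    rw [← h2]
    congr 1
    ext z
    simp
  have e2 : ∀ φ : ℂ → ℝ, Test X φ → ∫ z, (fderiv ℝ φ z v) * (h z).im =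
      (∫ z, (fderiv ℝ φ z v) • h z).im := by
    intro φ hφ
    have := (Wk.tintd hφ hh v)
    have h2 := integral_im this
    simp only [RCLike.im_to_complex] at h2
    rw [← h2]
    congr 1
    ext z
    simp
  obtain ⟨k1, m1, n1, i1⟩ := RzM.rz_real (X := X) (fun z => (h z).re) v C
    (fun K hK hK' => (hh K hK hK').re) hC (by
      intro φ hφ
      rw [e1 φ hφ]
      refine le_trans ?_ (hb φ hφ)
      gcongr
      exact Complex.abs_re_le_norm _)
  obtain ⟨k2, m2, n2, i2⟩ := RzM.rz_real (X := X) (fun z => (h z).im) v C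
    (fun K hK hK' => (hh K hK hK').im) hC (by
      intro φ hφ
      rw [e2 φ hφ]
      refine le_trans ?_ (hb φ hφ)
      gcongr
      exact Complex.abs_im_le_norm _)
  have mk : Measurable fun z => (⟨-k1 z, -k2 z⟩ : ℂ) := by
    have : (fun z => (⟨-k1 z, -k2 z⟩ : ℂ)) = fun z => ((-k1 z : ℝ) : ℂ) + ((-k2 z : ℝ) : ℂ) * I := by
      ext z
      apply Complex.ext <;> simp
    rw [this]
    fun_prop
  have nk : ∀ z, ‖(⟨-k1 z, -k2 z⟩ : ℂ)‖ₑ ^ 2 = ‖k1 z‖ₑ ^ 2 + ‖k2 z‖ₑ ^ 2 := by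
    intro z
    have h1 : ‖(⟨-k1 z, -k2 z⟩ : ℂ)‖ ^ 2 = ‖k1 z‖ ^ 2 + ‖k2 z‖ ^ 2 := by
      rw [Complex.sq_norm, Complex.normSq_mk, Real.norm_eq_abs, Real.norm_eq_abs, sq_abs, sq_abs]
      ring
    rw [← ofReal_norm, ← ofReal_norm, ← ofReal_norm,
      ← ENNReal.ofReal_pow (norm_nonneg _), ← ENNReal.ofReal_pow (norm_nonneg _),
      ← ENNReal.ofReal_pow (norm_nonneg _), h1, ENNReal.ofReal_add (by positivity) (by positivity)]
  have tot : ∫⁻ z in X, ‖(⟨-k1 z, -k2 z⟩ : ℂ)‖ₑ ^ 2 ≤ ENNReal.ofReal (2 * C) := by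
    simp_rw [nk]
    rw [lintegral_add_left (by fun_prop), two_mul, ENNReal.ofReal_add hC hC]
    exact add_le_add n1 n2
  refine ⟨fun z => ⟨-k1 z, -k2 z⟩, mk, tot, ?_⟩
  intro φ hφ
  -- integrability of `φ k_i`
  have q : ∀ k : ℂ → ℝ, Measurable k → ∫⁻ z in X, ‖k z‖ₑ ^ 2 ≤ ENNReal.ofReal C →
      Integrable fun z => φ z * k z := by
    intro k hk hk2
    have hk3 : MemLp k 2 (volume.restrict X) := by
      refine ⟨hk.aestronglyMeasurable, ?_⟩
      rw [eLpNorm_lt_top_iff_lintegral_rpow_enorm_lt_top (by norm_num) (by norm_num)]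
      simp only [ENNReal.toReal_ofNat, ENNReal.rpow_ofNat]
      exact lt_of_le_of_lt hk2 ENNReal.ofReal_lt_top
    have h1 : IntegrableOn (fun z => φ z * k z) X := (RzM.tmem hφ).integrable_mul hk3
    refine (integrableOn_iff_integrable_of_support_subset ?_).mp h1
    intro z hz
    have : φ z ≠ 0 := by
      intro h0
      apply hz
      simp [h0]
    exact hφ.su (subset_tsupport _ this)
  have q1 := q k1 m1 n1
  have q2 := q k2 m2 n2
  have hint : Integrable fun z => φ z • (⟨-k1 z, -k2 z⟩ : ℂ) := by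
    have : (fun z => φ z • (⟨-k1 z, -k2 z⟩ : ℂ)) =
        fun z => ((-(φ z * k1 z) : ℝ) : ℂ) + ((-(φ z * k2 z) : ℝ) : ℂ) * I := by
      ext z
      apply Complex.ext <;> simp
    rw [this]
    exact q1.neg.ofReal.add (q2.neg.ofReal.mul_const I)
  apply Complex.ext
  · rw [← e1 φ hφ, i1 φ hφ, Complex.neg_re]
    have h2 := integral_re hint
    simp only [RCLike.re_to_complex] at h2
    rw [← h2, ← integral_neg]
    congr 1
    ext z
    simp
  · rw [← e2 φ hφ, i2 φ hφ, Complex.neg_im]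
    have h2 := integral_im hint
    simp only [RCLike.im_to_complex] at h2
    rw [← h2, ← integral_neg]
    congr 1
    ext z
    simp

end MPfa
end

section
/-!
Module W22: the gradient of a solution is quasiregular.
-/
set_option autoImplicit false

open MeasureTheory Set Filter Topology Metric Complex
open scoped ContDiff ENNReal ComplexConjugate

namespace MPfa.Reg
namespace W22M

open MPfa.InvAux

/-! ### weak derivatives from difference quotients -/

lemma diffquot {X : Set ℂ} {h : ℂ → ℂ} {C t₀ : ℝ} (hX : IsOpen X)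
    (hh : ContinuousOn h X) (hC : 0 ≤ C)
    (hdq : ∀ τ : ℂ, ‖τ‖ < t₀ → ∫⁻ z in X ∩ {z | z + τ ∈ X},
      ENNReal.ofReal (‖h (z + τ) - h z‖ ^ 2) ≤ ENNReal.ofReal (C * ‖τ‖ ^ 2))
    {e : ℂ} (he : ‖e‖ = 1) {φ : ℂ → ℝ} (hφ : Test X φ) {δ : ℝ}
    (hδ : ∀ z ∈ tsupport φ, closedBall z δ ⊆ X) {t : ℝ} (ht : 0 < t) (htδ : 4 * t ≤ δ)
    (htt : t < t₀) :
    ‖∫ z, ((φ (z + t * e) - φ z) / t) • h z‖ ^ 2 ≤ C * ∫ z, φ z ^ 2 := by
  set K := tsupport φ with hK
  have hKc : IsCompact K := hφ.cs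
  have hφc : Continuous φ := hφ.sm.continuous
  have hte : ‖(t : ℂ) * e‖ = t := by
    rw [norm_mul, he, mul_one, Complex.norm_real, Real.norm_of_nonneg ht.le]
  -- the shifted product
  have hshift : Continuous fun z => φ (z + t * e) • h z := by
    apply prodc hX hh (hφc.comp (continuous_id.add continuous_const))
    intro z hz
    have h1 : z + t * e ∈ K := by
      have hsub : tsupport (fun z => φ (z + t * e)) ⊆ (fun z => z + t * e) ⁻¹' K := by
        apply closure_minimal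
        · intro w hw
          exact subset_tsupport φ hw
        · exact (isClosed_tsupport φ).preimage (continuous_id.add continuous_const)
      exact hsub hz
    apply hδ _ h1
    rw [mem_closedBall, dist_eq_norm]
    have : z - (z + t * e) = -((t : ℂ) * e) := by ring
    rw [this, norm_neg, hte]
    linarith
  have hshift_cs : HasCompactSupport fun z => φ (z + t * e) • h z := by
    apply prodc_cs
    exact hφ.cs.comp_homeomorph (Homeomorph.addRight ((t : ℂ) * e))
  have hI1 : Integrable fun z => φ (z + t * e) • h z := hshift.integrable_of_hasCompactSupport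
    hshift_cs
  have hI0 : Integrable fun z => φ z • h z :=
    (prodc hX hh hφc hφ.su).integrable_of_hasCompactSupport (prodc_cs hφ.cs)
  have hI2 : Integrable fun z => φ z • h (z - t * e) := by
    have := hI1.comp_sub_right ((t : ℂ) * e)
    simpa using this
  have hE : ∫ z, φ (z + t * e) • h z = ∫ z, φ z • h (z - t * e) := by
    have := integral_add_right_eq_self (μ := (volume : Measure ℂ))
      (fun z => φ z • h (z - t * e)) ((t : ℂ) * e)
    simpa using this
  have hint : ∫ z, ((φ (z + t * e) - φ z) / t) • h z =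
      (1 / t) • ∫ z, φ z • (h (z - t * e) - h z) := by
    have h1 : ∀ z, ((φ (z + t * e) - φ z) / t) • h z =
        (1 / t) • (φ (z + t * e) • h z - φ z • h z) := by
      intro z
      rw [← sub_smul, smul_smul]
      congr 1
      ring
    simp only [h1]
    rw [integral_smul, integral_sub hI1 hI0, hE, ← integral_sub hI2 hI0]
    simp only [smul_sub]
  -- the estimate
  have hzero : ∀ z, z ∉ K → φ z = 0 := fun z hz => image_eq_zero_of_notMem_tsupport hz
  have b1 : ‖∫ z, φ z • (h (z - t * e) - h z)‖ₑ ≤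
      ∫⁻ z in K, ‖φ z‖ₑ * ‖h (z - t * e) - h z‖ₑ := by
    calc ‖∫ z, φ z • (h (z - t * e) - h z)‖ₑ
        = ‖∫ z in K, φ z • (h (z - t * e) - h z)‖ₑ := by
          rw [setIntegral_eq_integral_of_forall_compl_eq_zero]
          intro z hz
          rw [hzero z hz, zero_smul]
      _ ≤ ∫⁻ z in K, ‖φ z • (h (z - t * e) - h z)‖ₑ := enorm_integral_le_lintegral_enorm _
      _ = _ := by simp only [enorm_smul]
  have hKX : K ⊆ X := hφ.su
  have hin : ∀ z ∈ K, z - t * e ∈ X := by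
    intro z hz
    apply hδ z hz
    rw [mem_closedBall, dist_eq_norm]
    have : z - t * e - z = -((t : ℂ) * e) := by ring
    rw [this, norm_neg, hte]
    linarith
  have hcont2 : ContinuousOn (fun z => h (z - t * e) - h z) K := by
    apply ContinuousOn.sub _ (hh.mono hKX)
    exact hh.comp (by fun_prop) hin
  have b2 := cs_two (volume.restrict K) (fun z => ‖φ z‖ₑ) (fun z => ‖h (z - t * e) - h z‖ₑ)
    hφc.measurable.enorm.aemeasurable
    ((hcont2.aemeasurable hKc.measurableSet).enorm)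
  have b3 : ∫⁻ z in K, ‖h (z - t * e) - h z‖ₑ ^ 2 ≤ ENNReal.ofReal (C * t ^ 2) := by
    have h1 := hdq (-(t * e)) (by rw [norm_neg, hte]; exact htt)
    rw [norm_neg, hte] at h1
    refine le_trans ?_ h1
    refine le_trans ?_ (lintegral_mono_set (s := K) ?_)
    · apply lintegral_mono
      intro z
      change ‖h (z - t * e) - h z‖ₑ ^ 2 ≤ ENNReal.ofReal (‖h (z + -(t * e)) - h z‖ ^ 2)
      rw [← sub_eq_add_neg, ENNReal.ofReal_pow (norm_nonneg _), ofReal_norm]
    · intro z hz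
      refine ⟨hKX hz, ?_⟩
      have := hin z hz
      change z + -(t * e) ∈ X
      rwa [← sub_eq_add_neg]
  have b4 := lint_sq hφ
  have hφ2 : 0 ≤ ∫ z, φ z ^ 2 := integral_nonneg fun z => sq_nonneg _
  have b5 : ENNReal.ofReal (‖∫ z, φ z • (h (z - t * e) - h z)‖ ^ 2) ≤
      ENNReal.ofReal ((∫ z, φ z ^ 2) * (C * t ^ 2)) := by
    calc ENNReal.ofReal (‖∫ z, φ z • (h (z - t * e) - h z)‖ ^ 2)
        = ‖∫ z, φ z • (h (z - t * e) - h z)‖ₑ ^ 2 := by
          rw [ENNReal.ofReal_pow (norm_nonneg _), ofReal_norm]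
      _ ≤ (∫⁻ z in K, ‖φ z‖ₑ * ‖h (z - t * e) - h z‖ₑ) ^ 2 := ENNReal.pow_le_pow_left b1
      _ ≤ _ := b2
      _ ≤ ENNReal.ofReal (∫ z, φ z ^ 2) * ENNReal.ofReal (C * t ^ 2) := by
          rw [b4]
          gcongr
      _ = _ := by
          rw [ENNReal.ofReal_mul hφ2]
  rw [ENNReal.ofReal_le_ofReal_iff (by positivity)] at b5
  rw [hint, norm_smul, mul_pow]
  calc ‖(1 / t : ℝ)‖ ^ 2 * ‖∫ z, φ z • (h (z - t * e) - h z)‖ ^ 2
      ≤ ‖(1 / t : ℝ)‖ ^ 2 * ((∫ z, φ z ^ 2) * (C * t ^ 2)) := by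
        gcongr
    _ = _ := by
        rw [Real.norm_eq_abs, sq_abs]
        field_simp

/-- the bound for the weak derivative -/
lemma weakbound {X : Set ℂ} {h : ℂ → ℂ} {C t₀ : ℝ} (hX : IsOpen X)
    (hh : ContinuousOn h X) (hC : 0 ≤ C) (ht₀ : 0 < t₀)
    (hdq : ∀ τ : ℂ, ‖τ‖ < t₀ → ∫⁻ z in X ∩ {z | z + τ ∈ X},
      ENNReal.ofReal (‖h (z + τ) - h z‖ ^ 2) ≤ ENNReal.ofReal (C * ‖τ‖ ^ 2))
    {e : ℂ} (he : ‖e‖ = 1) {φ : ℂ → ℝ} (hφ : Test X φ) :
    ‖∫ z, (fderiv ℝ φ z e) • h z‖ ^ 2 ≤ C * ∫ z, φ z ^ 2 := by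
  set K := tsupport φ with hK
  have hKc : IsCompact K := hφ.cs
  have hφc : Continuous φ := hφ.sm.continuous
  obtain ⟨δ, hδ0, hδ⟩ := hKc.exists_cthickening_subset_open hX hφ.su
  have hball : ∀ z ∈ K, closedBall z δ ⊆ X := fun z hz =>
    (closedBall_subset_cthickening hz δ).trans hδ
  set K' := cthickening δ K with hK'
  have hK'c : IsCompact K' := hKc.cthickening
  obtain ⟨M, hM⟩ := hK'c.exists_bound_of_continuousOn (hh.mono hδ)
  have hdiff : Differentiable ℝ φ := hφ.sm.differentiable (by simp)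
  -- Lipschitz bound
  obtain ⟨L, hL⟩ : ∃ L, ∀ z, ‖fderiv ℝ φ z‖ ≤ L := by
    have hcd : Continuous (fderiv ℝ φ) := hφ.sm.continuous_fderiv (by simp)
    exact hcd.bounded_above_of_compact_support (hφ.cs.fderiv (𝕜 := ℝ))
  have hlip : ∀ z w, |φ z - φ w| ≤ L * ‖z - w‖ := by
    intro z w
    have := Convex.norm_image_sub_le_of_norm_fderiv_le (𝕜 := ℝ) (f := φ) (C := L) (s := univ)
      (fun x _ => hdiff x) (fun x _ => hL x) convex_univ (mem_univ w) (mem_univ z)
    simpa using this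
  have hL0 : 0 ≤ L := (norm_nonneg _).trans (hL 0)
  have hte : ∀ t : ℝ, 0 < t → ‖(t : ℂ) * e‖ = t := fun t ht => by
    rw [norm_mul, he, mul_one, Complex.norm_real, Real.norm_of_nonneg ht.le]
  -- convergence of the difference quotients
  have hev : ∀ᶠ t : ℝ in 𝓝[>] 0, 0 < t ∧ 4 * t ≤ δ ∧ t < t₀ := by
    have h1 : ∀ᶠ t : ℝ in 𝓝[>] 0, t ∈ Ioo 0 (min (δ / 4) t₀) :=
      Ioo_mem_nhdsGT (by positivity)
    filter_upwards [h1] with t ht
    have h2 := ht.2
    rw [lt_min_iff] at h2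
    exact ⟨ht.1, by linarith [h2.1], h2.2⟩
  have hlim : Tendsto (fun t : ℝ => ∫ z, ((φ (z + t * e) - φ z) / t) • h z) (𝓝[>] 0)
      (𝓝 (∫ z, (fderiv ℝ φ z e) • h z)) := by
    apply tendsto_integral_filter_of_dominated_convergence
      (K'.indicator fun _ => L * M)
    · filter_upwards [hev] with t ht
      apply Continuous.aestronglyMeasurable
      apply prodc hX hh (by fun_prop)
      intro z hz
      have hsub : tsupport (fun z => (φ (z + t * e) - φ z) / t) ⊆ K' := by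
        apply closure_minimal _ isClosed_cthickening
        intro w hw
        rw [Function.mem_support] at hw
        by_cases hwK : w ∈ K
        · exact self_subset_cthickening K hwK
        · have h1 : φ w = 0 := image_eq_zero_of_notMem_tsupport hwK
          have h2 : w + t * e ∈ K := by
            by_contra hc
            apply hw
            rw [h1, image_eq_zero_of_notMem_tsupport hc]
            simp
          apply closedBall_subset_cthickening h2 δ
          rw [mem_closedBall, dist_eq_norm]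
          have : w - (w + t * e) = -((t : ℂ) * e) := by ring
          rw [this, norm_neg, hte t ht.1]
          linarith [ht.1, ht.2.1]
      exact hδ (hsub hz)
    · filter_upwards [hev] with t ht
      refine Eventually.of_forall fun z => ?_
      by_cases hz : z ∈ K'
      · rw [indicator_of_mem hz, norm_smul, Real.norm_eq_abs, abs_div, abs_of_pos ht.1]
        have h1 := hlip (z + t * e) z
        rw [add_sub_cancel_left, hte t ht.1] at h1
        have h2 := hM z hz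
        have h3 : |φ (z + t * e) - φ z| / t ≤ L := by
          rw [div_le_iff₀ ht.1]
          exact h1
        exact mul_le_mul h3 h2 (norm_nonneg _) hL0
      · rw [indicator_of_notMem hz]
        have h1 : z ∉ K := fun hc => hz (self_subset_cthickening K hc)
        have h2 : z + t * e ∉ K := by
          intro hc
          apply hz
          apply closedBall_subset_cthickening hc δ
          rw [mem_closedBall, dist_eq_norm]
          have : z - (z + t * e) = -((t : ℂ) * e) := by ring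
          rw [this, norm_neg, hte t ht.1]
          linarith [ht.1, ht.2.1]
        rw [image_eq_zero_of_notMem_tsupport h1, image_eq_zero_of_notMem_tsupport h2]
        simp
    · exact (integrable_indicator_iff hK'c.measurableSet).mpr
        (integrableOn_const hK'c.measure_lt_top.ne)
    · refine Eventually.of_forall fun z => ?_
      apply Tendsto.smul_const
      have h1 : HasDerivAt (fun t : ℝ => φ (z + t * e)) (fderiv ℝ φ z e) 0 := by
        have hf : HasFDerivAt φ (fderiv ℝ φ z) (z + ((0 : ℝ) : ℂ) * e) := by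
          simpa using (hdiff z).hasFDerivAt
        have hg : HasDerivAt (fun t : ℝ => z + (t : ℂ) * e) e 0 := by
          have := (((hasDerivAt_id (0 : ℝ)).ofReal_comp).mul_const e).const_add z
          simpa using this
        exact hf.comp_hasDerivAt (0 : ℝ) hg
      have h2 := h1.tendsto_slope_zero_right
      refine h2.congr fun t => ?_
      simp [div_eq_inv_mul]
  have hlim2 := (hlim.norm).pow 2
  apply le_of_tendsto hlim2
  filter_upwards [hev] with t ht
  exact diffquot hX hh hC hdq he hφ hball ht.1 ht.2.1 ht.2.2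

/-- weak derivatives in `L²` from difference quotients -/
lemma wd_of_dq (hRz : MPfa.SpecRz) {X : Set ℂ} {h : ℂ → ℂ} {C t₀ : ℝ} (hX : IsOpen X)
    (hh : ContinuousOn h X) (hC : 0 ≤ C) (ht₀ : 0 < t₀)
    (hdq : ∀ τ : ℂ, ‖τ‖ < t₀ → ∫⁻ z in X ∩ {z | z + τ ∈ X},
      ENNReal.ofReal (‖h (z + τ) - h z‖ ^ 2) ≤ ENNReal.ofReal (C * ‖τ‖ ^ 2)) :
    ∃ hx hy : ℂ → ℂ, WD X h hx hy ∧ ∫⁻ z in X, ‖hx z‖ₑ ^ 2 < ⊤ ∧
      ∫⁻ z in X, ‖hy z‖ₑ ^ 2 < ⊤ := by
  have hLI : LI X h := fun K hK hKc => (hh.mono hK).integrableOn_compact hKc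
  obtain ⟨kx, mx, sx, ix⟩ := hRz X h 1 C hX hLI hC
    (fun φ hφ => weakbound hX hh hC ht₀ hdq (by simp) hφ)
  obtain ⟨ky, my, sy, iy⟩ := hRz X h I C hX hLI hC
    (fun φ hφ => weakbound hX hh hC ht₀ hdq (by simp) hφ)
  have sx' := sx.trans_lt ENNReal.ofReal_lt_top
  have sy' := sy.trans_lt ENNReal.ofReal_lt_top
  exact ⟨kx, ky, ⟨mx, my, hLI, li_of_sq mx sx', li_of_sq my sy', ix, iy⟩, sx', sy'⟩

/-! ### linear maps of weak derivatives -/

lemma wd_clm (L : ℂ →L[ℝ] ℂ) {G : Set ℂ} {F Fx Fy : ℂ → ℂ} (h : WD G F Fx Fy) :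
    WD G (fun z => L (F z)) (fun z => L (Fx z)) (fun z => L (Fy z)) where
  mx := L.continuous.measurable.comp h.mx
  my := L.continuous.measurable.comp h.my
  lF := fun K hK hc => L.integrable_comp (h.lF K hK hc)
  lx := fun K hK hc => L.integrable_comp (h.lx K hK hc)
  ly := fun K hK hc => L.integrable_comp (h.ly K hK hc)
  ix := fun φ hφ => by
    have h1 := h.ix φ hφ
    have h2 : ∫ z, (fderiv ℝ φ z 1) • L (F z) = L (∫ z, (fderiv ℝ φ z 1) • F z) := by
      rw [← L.integral_comp_comm (Wk.tintd hφ h.lF 1)]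
      simp only [map_smul]
    have h3 : ∫ z, φ z • L (Fx z) = L (∫ z, φ z • Fx z) := by
      rw [← L.integral_comp_comm (Wk.tint hφ h.lx)]
      simp only [map_smul]
    rw [h2, h3, h1, map_neg]
  iy := fun φ hφ => by
    have h1 := h.iy φ hφ
    have h2 : ∫ z, (fderiv ℝ φ z I) • L (F z) = L (∫ z, (fderiv ℝ φ z I) • F z) := by
      rw [← L.integral_comp_comm (Wk.tintd hφ h.lF I)]
      simp only [map_smul]
    have h3 : ∫ z, φ z • L (Fy z) = L (∫ z, φ z • Fy z) := by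
      rw [← L.integral_comp_comm (Wk.tint hφ h.ly)]
      simp only [map_smul]
    rw [h2, h3, h1, map_neg]

/-- replace the function on `G` -/
lemma wd_congr {G : Set ℂ} {F F' Fx Fy : ℂ → ℂ} (h : WD G F Fx Fy)
    (he : ∀ z ∈ G, F z = F' z) : WD G F' Fx Fy where
  mx := h.mx
  my := h.my
  lF := fun K hK hc => (h.lF K hK hc).congr_fun (fun z hz => he z (hK hz)) hc.measurableSet
  lx := h.lx
  ly := h.ly
  ix := fun φ hφ => by
    rw [← h.ix φ hφ]
    congr 1
    funext z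
    by_cases hz : z ∈ G
    · rw [he z hz]
    · have : fderiv ℝ φ z 1 = 0 := by
        by_contra h0
        exact hz (Wk.tdsu hφ 1 (subset_tsupport _ h0))
      rw [this, zero_smul, zero_smul]
  iy := fun φ hφ => by
    rw [← h.iy φ hφ]
    congr 1
    funext z
    by_cases hz : z ∈ G
    · rw [he z hz]
    · have : fderiv ℝ φ z I = 0 := by
        by_contra h0
        exact hz (Wk.tdsu hφ I (subset_tsupport _ h0))
      rw [this, zero_smul, zero_smul]

/-- derivatives of test functions are test functions -/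
lemma test_deriv {G : Set ℂ} {φ : ℂ → ℝ} (h : Test G φ) (v : ℂ) :
    Test G (fun z => fderiv ℝ φ z v) := by
  refine ⟨?_, Wk.tdcs h v, Wk.tdsu h v⟩
  have h1 : ContDiff ℝ ∞ (fderiv ℝ φ) := h.sm.fderiv_right (by simp)
  exact h1.clm_apply contDiff_const

lemma test_comm {G : Set ℂ} {φ : ℂ → ℝ} (h : Test G φ) (z : ℂ) :
    fderiv ℝ (fun z => fderiv ℝ φ z 1) z I = fderiv ℝ (fun z => fderiv ℝ φ z I) z 1 := by
  have h1 : ContDiff ℝ ∞ (fderiv ℝ φ) := h.sm.fderiv_right (by simp)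
  have hd : DifferentiableAt ℝ (fderiv ℝ φ) z := (h1.differentiable (by simp)) z
  have h2 : ∀ v w : ℂ, fderiv ℝ (fun z => fderiv ℝ φ z v) z w = fderiv ℝ (fderiv ℝ φ) z w v := by
    intro v w
    rw [fderiv_clm_apply hd (differentiableAt_const v)]
    simp
  rw [h2, h2]
  have h3 : IsSymmSndFDerivAt ℝ φ z := by
    apply (h.sm.contDiffAt (x := z)).isSymmSndFDerivAt
    rw [minSmoothness_of_isRCLikeNormedField]
    exact WithTop.coe_le_coe.2 le_top
  exact h3.eq I 1

/-- mixed weak derivatives of a Sobolev function commute -/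
lemma mixed {G : Set ℂ} {F Fx Fy : ℂ → ℂ} (h : WD G F Fx Fy) {φ : ℂ → ℝ} (hφ : Test G φ) :
    ∫ z, (fderiv ℝ φ z 1) • Fy z = ∫ z, (fderiv ℝ φ z I) • Fx z := by
  have h1 := h.iy _ (test_deriv hφ 1)
  have h2 := h.ix _ (test_deriv hφ I)
  simp only [test_comm hφ] at h1
  rw [h1] at h2
  exact neg_injective h2

/-! ### the vector field -/

lemma fderiv_Af {kf : ℝ → ℝ} {X : ℂ} (hX : X ≠ 0) {d : ℝ} (hd : HasDerivAt kf d ‖X‖) :
    ∃ L : ℂ →L[ℝ] ℂ, HasFDerivAt (Af kf) L X ∧ ∀ H, L H = (kf ‖X‖ : ℂ) * H +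
      ((d / ‖X‖ * (X.re * H.re + X.im * H.im) : ℝ) : ℂ) * X := by
  have hs : 0 < ‖X‖ := norm_pos_iff.2 hX
  have h1 := (hasStrictFDerivAt_norm_sq (F := ℂ) X).hasFDerivAt
  have h2 := h1.sqrt (by positivity)
  have h3 : HasFDerivAt (fun x : ℂ => ‖x‖)
      ((1 / (2 * √(‖X‖ ^ 2))) • (2 • innerSL ℝ X)) X := by
    refine h2.congr_of_eventuallyEq (Eventually.of_forall fun x => ?_)
    simp [Real.sqrt_sq]
  have h4 := hd.comp_hasFDerivAt X h3
  have h5 := h4.smul (hasFDerivAt_id X)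
  have h6 : Af kf = fun x => (kf ∘ fun x : ℂ => ‖x‖) x • id x := by
    funext x
    simp [Af]
  refine ⟨_, by rw [h6]; exact h5, fun H => ?_⟩
  rw [Real.sqrt_sq hs.le]
  simp only [_root_.add_apply, _root_.smul_apply,
    ContinuousLinearMap.smulRight_apply, innerSL_apply_apply, Function.comp_apply, id_eq,
    ContinuousLinearMap.coe_id', smul_eq_mul, Complex.real_smul, Complex.inner, nsmul_eq_mul,
    Nat.cast_ofNat]
  have h7 : (H * conj X).re = X.re * H.re + X.im * H.im := by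
    rw [Complex.mul_re, Complex.conj_re, Complex.conj_im]; ring
  rw [h7]
  have h8 : (‖X‖ : ℂ) ≠ 0 := by exact_mod_cast hs.ne'
  push_cast
  field_simp

lemma contDiff_Af {p : ℝ} {kf : ℝ → ℝ} (hk : KF p kf) : ContDiffOn ℝ 1 (Af kf) {0}ᶜ := by
  obtain ⟨kd, hkdc, hkd, -⟩ := hk.der
  have h1 : ContDiffOn ℝ 1 kf (Ioi 0) := by
    have h2 : (1 : WithTop ℕ∞) = 0 + 1 := rfl
    rw [h2, contDiffOn_succ_iff_deriv_of_isOpen isOpen_Ioi]
    refine ⟨fun s hs => (hkd s hs).1.differentiableAt.differentiableWithinAt, by simp, ?_⟩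
    rw [contDiffOn_zero]
    exact hkdc.congr fun s hs => (hkd s hs).1.deriv
  have h3 : ContDiffOn ℝ 1 (fun x : ℂ => ‖x‖) {0}ᶜ := fun x hx =>
    (contDiffAt_norm ℝ hx).contDiffWithinAt
  have h4 : ContDiffOn ℝ 1 (fun x : ℂ => kf ‖x‖) {0}ᶜ := h1.comp h3 fun x hx =>
    norm_pos_iff.2 hx
  have h5 : Af kf = fun x => kf ‖x‖ • x := by
    funext x
    simp [Af]
  rw [h5]
  exact h4.smul contDiffOn_id

lemma alg_final {x y a b c k d s T N : ℝ} (hs : 0 < s) (hss : s ^ 2 = x ^ 2 + y ^ 2)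
    (hk : 1 ≤ k) (hd0 : 0 ≤ d) (hd1 : s * d ≤ k * (k ^ 2 - 1)) (hT0 : 0 ≤ T)
    (hd2 : s * d ≤ T * k)
    (hdiv : k * a + d / s * (x * a + y * b) * x + (k * c + d / s * (x * b + y * c) * y) = 0)
    (hN : N ^ 2 = (a - c) ^ 2 + 4 * b ^ 2) (hN0 : 0 ≤ N) :
    |a + c| ≤ min (T / (2 + T)) (k ^ 2 - 1) * N := by
  have hk0 : 0 < k := by linarith
  set τ : ℝ := d * s / k with hτ
  have hτ0 : 0 ≤ τ := by positivity
  have hτT : τ ≤ T := by rw [hτ, div_le_iff₀ hk0]; linarith
  have hτk : τ ≤ k ^ 2 - 1 := by rw [hτ, div_le_iff₀ hk0]; linarith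
  have hds : d / s = τ * k / s ^ 2 := by rw [hτ]; field_simp
  set R : ℝ := ((a - c) / 2 * (x ^ 2 - y ^ 2) + 2 * x * y * b) / s ^ 2 with hR
  have hs2 : 0 < s ^ 2 := by positivity
  have h1 : (a + c) * (2 + τ) = -(2 * τ * R) := by
    rw [hds] at hdiv
    have h2 : k * ((a + c) * (2 + τ) + 2 * τ * R) = 0 := by
      have h3 : k * ((a + c) * (2 + τ) + 2 * τ * R) =
          2 * (k * a + τ * k / s ^ 2 * (x * a + y * b) * x +
            (k * c + τ * k / s ^ 2 * (x * b + y * c) * y)) +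
          τ * k * (a + c) * (1 - (x ^ 2 + y ^ 2) / s ^ 2) := by
        rw [hR]; field_simp; ring
      rw [h3, hdiv, ← hss, div_self hs2.ne']
      ring
    rcases mul_eq_zero.1 h2 with h3 | h3
    · exact absurd h3 hk0.ne'
    · linarith
  have hRN : (2 * R) ^ 2 ≤ N ^ 2 := by
    have h2 : (2 * R) ^ 2 * (s ^ 2) ^ 2 = ((a - c) * (x ^ 2 - y ^ 2) + 2 * b * (2 * x * y)) ^ 2 := by
      rw [hR]; field_simp
    have h3 : ((a - c) * (x ^ 2 - y ^ 2) + 2 * b * (2 * x * y)) ^ 2 ≤ N ^ 2 * (s ^ 2) ^ 2 := by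
      rw [hN, hss]
      nlinarith [sq_nonneg ((a - c) * (2 * x * y) - 2 * b * (x ^ 2 - y ^ 2))]
    have h4 : 0 < (s ^ 2) ^ 2 := by positivity
    by_contra hcon
    push Not at hcon
    have := mul_lt_mul_of_pos_right hcon h4
    linarith
  have hRN' : |2 * R| ≤ N := abs_le_of_sq_le_sq hRN hN0
  have h2 : |a + c| * (2 + τ) ≤ τ * N := by
    have h3 : |a + c| * (2 + τ) = |(a + c) * (2 + τ)| := by
      rw [abs_mul, abs_of_pos (by linarith : (0 : ℝ) < 2 + τ)]
    rw [h3, h1, abs_neg]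
    have h4 : 2 * τ * R = τ * (2 * R) := by ring
    rw [h4, abs_mul, abs_of_nonneg hτ0]
    exact mul_le_mul_of_nonneg_left hRN' hτ0
  have h3 : |a + c| ≤ τ / (2 + τ) * N := by
    have h4 : τ / (2 + τ) * N = τ * N / (2 + τ) := by ring
    rw [h4, le_div_iff₀ (by linarith)]
    exact h2
  refine h3.trans (mul_le_mul_of_nonneg_right (le_min ?_ ?_) hN0)
  · rw [div_le_div_iff₀ (by linarith) (by linarith)]
    nlinarith
  · refine le_trans ?_ hτk
    rw [div_le_iff₀ (by linarith)]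
    nlinarith

lemma Lrl_of_sq {B : Set ℂ} {u : ℂ → ℝ} {w : ℂ → ℂ}
    (h : ∀ᵐ z ∂(volume.restrict B), |u z| ≤ ‖w z‖)
    (hw : ∫⁻ z in B, ‖w z‖ₑ ^ 2 < ⊤) : Lrl B 2 u := by
  intro K hK hc
  refine lt_of_le_of_lt ?_ hw
  refine (lintegral_mono_set hK).trans ?_
  refine lintegral_mono_ae ?_
  filter_upwards [h] with z hz
  rw [ENNReal.rpow_two, ← ofReal_norm]
  gcongr

/-- the real part as a real linear map `ℂ → ℂ` -/
noncomputable def Lre : ℂ →L[ℝ] ℂ := Complex.ofRealCLM.comp Complex.reCLM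
/-- the imaginary part as a real linear map `ℂ → ℂ` -/
noncomputable def Lim' : ℂ →L[ℝ] ℂ := Complex.ofRealCLM.comp Complex.imCLM

lemma Lre_apply (z : ℂ) : Lre z = (z.re : ℂ) := rfl
lemma Lim_apply (z : ℂ) : Lim' z = (z.im : ℂ) := rfl

/-- integrals against derivatives of test functions only see the values on `G` -/
lemma int_dcongr {G : Set ℂ} {φ : ℂ → ℝ} (hφ : Test G φ) (v : ℂ) {u w : ℂ → ℂ}
    (he : ∀ z ∈ G, u z = w z) :
    ∫ z, (fderiv ℝ φ z v) • u z = ∫ z, (fderiv ℝ φ z v) • w z := by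
  congr 1
  funext z
  by_cases hz : z ∈ G
  · rw [he z hz]
  · have : fderiv ℝ φ z v = 0 := by
      by_contra h0
      exact hz (Wk.tdsu hφ v (subset_tsupport _ h0))
    rw [this, zero_smul, zero_smul]

/-- exchange of the `x`-derivative -/
lemma wd_exch {G : Set ℂ} {F Fx Fy Gx : ℂ → ℂ} (h : WD G F Fx Fy) (hm : Measurable Gx)
    (hl : LI G Gx) (hi : ∀ φ : ℂ → ℝ, Test G φ →
      ∫ z, (fderiv ℝ φ z 1) • F z = - ∫ z, φ z • Gx z) : WD G F Gx Fy where
  mx := hm
  my := h.my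
  lF := h.lF
  lx := hl
  ly := h.ly
  ix := hi
  iy := h.iy

end W22M

open W22M in
theorem specW22 (hDQ : SpecDQ) (hC1WD : SpecC1WD) (hComp : SpecComp) (hGlue : SpecGlue)
    (hLrl : SpecLrlLoc) : SpecW22 := by
  intro p kf hp hk
  obtain ⟨kd, hkdc, hkd, T, hT0, hT⟩ := hk.der
  refine ⟨T / (2 + T), by positivity, by rw [div_lt_one (by linarith)]; linarith, ?_⟩
  intro G F hS
  have hO := hS.op
  set h : ℂ → ℂ := fun z => gr (fderiv ℝ F z 1) (fderiv ℝ F z I) with hh
  have hcx := Base.fderiv_cont hO hS.c1 1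
  have hcy := Base.fderiv_cont hO hS.c1 I
  have hcont : ContinuousOn h G := by
    have h1 : ContinuousOn (fun z => ((((fderiv ℝ F z 1).re, (fderiv ℝ F z I).re) : ℝ × ℝ))) G :=
      (Complex.continuous_re.comp_continuousOn hcx).prodMk
        (Complex.continuous_re.comp_continuousOn hcy)
    exact (Complex.equivRealProdCLM.symm.continuous).comp_continuousOn h1
  have hWD := hC1WD G F hO hS.c1
  set Fx : ℂ → ℂ := G.indicator fun z => fderiv ℝ F z 1 with hFx
  set Fy : ℂ → ℂ := G.indicator fun z => fderiv ℝ F z I with hFy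
  have eFx : ∀ z ∈ G, Fx z = fderiv ℝ F z 1 := fun z hz => indicator_of_mem hz _
  have eFy : ∀ z ∈ G, Fy z = fderiv ℝ F z I := fun z hz => indicator_of_mem hz _
  have egr : ∀ z ∈ G, gr (Fx z) (Fy z) = h z := fun z hz => by rw [eFx z hz, eFy z hz]
  have hSol : Sol p kf G F Fx Fy := by
    refine ⟨hO, hS.c1.continuousOn, hS.inj, hWD, ?_, ?_⟩
    · rw [ae_restrict_iff' hO.measurableSet]
      refine Eventually.of_forall fun z hz => ?_
      rw [eFx z hz, eFy z hz]
      exact ⟨hS.nz z hz, hS.eq z hz⟩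
    · apply Base.Lrl_of_cont (by linarith)
      have h1 : ContinuousOn (fun z => kf ‖h z‖) G :=
        hk.cont.comp hcont.norm fun z _ => norm_nonneg _
      exact h1.congr fun z hz => by rw [egr z hz]
  -- local Sobolev regularity of the gradient
  have hloc : ∀ z ∈ G, ∃ r > 0, ball z r ⊆ G ∧ ∃ hx hy : ℂ → ℂ, WD (ball z r) h hx hy ∧
      ∫⁻ w in ball z r, ‖hx w‖ₑ ^ 2 < ⊤ ∧ ∫⁻ w in ball z r, ‖hy w‖ₑ ^ 2 < ⊤ := by
    intro z hz
    obtain ⟨R, hR, hRG⟩ := Metric.nhds_basis_closedBall.mem_iff.1 (hO.mem_nhds hz)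
    obtain ⟨C, t₀, hC, ht₀, hdq⟩ := hDQ p kf hp hk G F Fx Fy hSol z R hR hRG
    have hBG : ball z (R / 2) ⊆ G :=
      (ball_subset_closedBall.trans (closedBall_subset_closedBall (by linarith))).trans hRG
    refine ⟨R / 2, by positivity, hBG, ?_⟩
    apply wd_of_dq specRz isOpen_ball (hcont.mono hBG) hC ht₀
    intro τ hτ
    refine le_trans ?_ (hdq τ hτ)
    refine le_trans (le_of_eq ?_) (lintegral_mono_set (s := ball z (R / 2) ∩
      {w | w + τ ∈ ball z (R / 2)}) inter_subset_left)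
    have hm : MeasurableSet (ball z (R / 2) ∩ {w | w + τ ∈ ball z (R / 2)}) := by
      apply measurableSet_ball.inter
      exact (measurable_id.add_const τ) measurableSet_ball
    refine setLIntegral_congr_fun hm fun w hw => ?_
    have h1 : w + τ ∈ ball z (R / 2) := hw.2
    rw [egr w (hBG hw.1), egr (w + τ) (hBG h1)]
  -- glue
  obtain ⟨Hx, Hy, hH⟩ := hGlue G h hO fun z hz => by
    obtain ⟨r, hr, hrG, hx, hy, hw, -, -⟩ := hloc z hz
    exact ⟨r, hr, hrG, hx, hy, hw⟩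
  have hsq : ∀ z ∈ G, ∃ ρ > 0, ball z ρ ⊆ G ∧ ∫⁻ w in ball z ρ, ‖Hx w‖ₑ ^ 2 < ⊤ ∧
      ∫⁻ w in ball z ρ, ‖Hy w‖ₑ ^ 2 < ⊤ := by
    intro z hz
    obtain ⟨r, hr, hrG, hx, hy, hw, h1, h2⟩ := hloc z hz
    have h3 := specWDU (ball z r) h Hx Hy hx hy isOpen_ball (Base.WD_mono hH hrG) hw
    refine ⟨r, hr, hrG, ?_, ?_⟩
    · refine lt_of_le_of_lt (le_of_eq ?_) h1
      apply lintegral_congr_ae
      filter_upwards [h3] with w hw using by rw [hw.1]
    · refine lt_of_le_of_lt (le_of_eq ?_) h2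
      apply lintegral_congr_ae
      filter_upwards [h3] with w hw using by rw [hw.2]
  have hLx : ∀ u : ℂ → ℝ, (∀ z, |u z| ≤ ‖Hx z‖) → Lrl G 2 u := by
    intro u hu
    apply hLrl G 2 u hO
    intro z hz
    obtain ⟨ρ, hρ, -, h1, -⟩ := hsq z hz
    exact ⟨ρ, hρ, Lrl_of_sq (Eventually.of_forall hu) h1⟩
  have hLy : ∀ u : ℂ → ℝ, (∀ z, |u z| ≤ ‖Hy z‖) → Lrl G 2 u := by
    intro u hu
    apply hLrl G 2 u hO
    intro z hz
    obtain ⟨ρ, hρ, -, -, h1⟩ := hsq z hz
    exact ⟨ρ, hρ, Lrl_of_sq (Eventually.of_forall hu) h1⟩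
  have hP : WD G (fun z => conj (h z)) (fun z => conj (Hx z)) (fun z => conj (Hy z)) :=
    wd_clm (Complex.conjCLE : ℂ →L[ℝ] ℂ) hH
  refine ⟨fun z => conj (Hx z), fun z => conj (Hy z), ⟨hO, ?_, hP, ?_, ?_, ?_, ?_⟩, ?_⟩
  · exact Complex.continuous_conj.comp_continuousOn hcont
  · exact hLx _ fun z => by
      rw [Complex.conj_re]; exact Complex.abs_re_le_norm _
  · exact hLy _ fun z => by
      rw [Complex.conj_re]; exact Complex.abs_re_le_norm _
  · exact hLx _ fun z => by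
      rw [Complex.conj_im, abs_neg]; exact Complex.abs_im_le_norm _
  · exact hLy _ fun z => by
      rw [Complex.conj_im, abs_neg]; exact Complex.abs_im_le_norm _
  -- symmetry of the second derivatives
  have hWre := wd_clm Lre hWD
  have hWim := wd_clm Lim' hWD
  have hHre := wd_clm Lre hH
  have hHim := wd_clm Lim' hH
  have sym : ∀ᵐ z ∂(volume.restrict G), (Hx z).im = (Hy z).re := by
    have h1 : WD G (fun z => Lim' (h z)) (fun z => Lre (Hy z)) (fun z => Lim' (Hy z)) := by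
      refine wd_exch hHim hHre.my hHre.ly fun φ hφ => ?_
      have h2 := mixed hWre hφ
      rw [int_dcongr hφ 1 (w := fun z => Lim' (h z)) (fun z hz => by
        rw [eFy z hz]; rfl), int_dcongr hφ I (w := fun z => Lre (h z)) (fun z hz => by
        rw [eFx z hz]; rfl)] at h2
      rw [h2]
      exact hHre.iy φ hφ
    filter_upwards [specWDU G _ _ _ _ _ hO hHim h1] with z hz
    have := hz.1
    rw [Lim_apply, Lre_apply] at this
    exact_mod_cast this
  -- the divergence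
  have hnz : MapsTo h G {0}ᶜ := fun z hz => hS.nz z hz
  have hA := hComp G {0}ᶜ h Hx Hy (Af kf) hO hcont hH isOpen_compl_singleton (contDiff_Af hk) hnz
  set A1 : ℂ → ℂ := G.indicator fun z => fderiv ℝ (Af kf) (h z) (Hx z) with hA1
  set A2 : ℂ → ℂ := G.indicator fun z => fderiv ℝ (Af kf) (h z) (Hy z) with hA2
  have hAre := wd_clm Lre hA
  have hAim := wd_clm Lim' hA
  have hgi : ∀ z ∈ G, (Fx z).im = -(Af kf (h z)).im ∧ (Fy z).im = (Af kf (h z)).re := by
    intro z hz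
    have h1 := hS.eq z hz
    rw [eFx z hz, eFy z hz]
    have h2 := congrArg Complex.re h1
    have h3 := congrArg Complex.im h1
    rw [Complex.mul_re, Complex.I_re, Complex.I_im, zero_mul, one_mul, zero_sub] at h2
    rw [Complex.mul_im, Complex.I_re, Complex.I_im, zero_mul, one_mul, zero_add] at h3
    exact ⟨h2, h3⟩
  have div : ∀ᵐ z ∂(volume.restrict G), (A1 z).re = -(A2 z).im := by
    have h1 : WD G (fun z => Lre (Af kf (h z))) (fun z => -Lim' (A2 z)) (fun z => Lre (A2 z)) := by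
      refine wd_exch hAre hAim.my.neg (fun K hK hc => (hAim.ly K hK hc).neg) fun φ hφ => ?_
      have h2 := mixed hWim hφ
      rw [int_dcongr hφ 1 (w := fun z => Lre (Af kf (h z))) (fun z hz => by
        rw [Lim_apply, Lre_apply, (hgi z hz).2]), int_dcongr hφ I
        (w := fun z => -Lim' (Af kf (h z))) (fun z hz => by
        rw [Lim_apply, Lim_apply, (hgi z hz).1]; push_cast; rfl)] at h2
      rw [h2]
      have h3 := hAim.iy φ hφ
      simp only [smul_neg, integral_neg]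
      rw [h3]
    filter_upwards [specWDU G _ _ _ _ _ hO hAre h1] with z hz
    have := hz.1
    rw [Lim_apply, Lre_apply] at this
    exact_mod_cast this
  filter_upwards [sym, div, ae_restrict_mem hO.measurableSet] with z hz1 hz2 hzG
  have hX0 : h z ≠ 0 := hS.nz z hzG
  have hs : 0 < ‖h z‖ := norm_pos_iff.2 hX0
  obtain ⟨hder, hkd0, hkd1⟩ := hkd ‖h z‖ hs
  have hkd2 := hT ‖h z‖ hs
  obtain ⟨L, hL, hLH⟩ := fderiv_Af hX0 hder
  have e1 : A1 z = L (Hx z) := by
    rw [hA1, indicator_of_mem hzG, hL.fderiv]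
  have e2 : A2 z = L (Hy z) := by
    rw [hA2, indicator_of_mem hzG, hL.fderiv]
  rw [e1, e2, hLH, hLH] at hz2
  have e3 : ((kf ‖h z‖ : ℂ) * Hx z + ((kd ‖h z‖ / ‖h z‖ * ((h z).re * (Hx z).re +
      (h z).im * (Hx z).im) : ℝ) : ℂ) * h z).re = kf ‖h z‖ * (Hx z).re +
      kd ‖h z‖ / ‖h z‖ * ((h z).re * (Hx z).re + (h z).im * (Hx z).im) * (h z).re := by
    rw [Complex.add_re, Complex.re_ofReal_mul, Complex.re_ofReal_mul]
  have e4 : ((kf ‖h z‖ : ℂ) * Hy z + ((kd ‖h z‖ / ‖h z‖ * ((h z).re * (Hy z).re +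
      (h z).im * (Hy z).im) : ℝ) : ℂ) * h z).im = kf ‖h z‖ * (Hy z).im +
      kd ‖h z‖ / ‖h z‖ * ((h z).re * (Hy z).re + (h z).im * (Hy z).im) * (h z).im := by
    rw [Complex.add_im, Complex.im_ofReal_mul, Complex.im_ofReal_mul]
  rw [e3, e4, ← hz1] at hz2
  have e5 : conj (Hx z) + I * conj (Hy z) = (((Hx z).re + (Hy z).im : ℝ) : ℂ) := by
    apply Complex.ext
    · simp
    · simp [hz1]
  have e6 : ‖conj (Hx z) - I * conj (Hy z)‖ ^ 2 =
      ((Hx z).re - (Hy z).im) ^ 2 + 4 * (Hx z).im ^ 2 := by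
    rw [AfM.nsq]
    have e7 : (conj (Hx z) - I * conj (Hy z)).re = (Hx z).re - (Hy z).im := by simp
    have e8 : (conj (Hx z) - I * conj (Hy z)).im = -(2 * (Hx z).im) := by
      simp [← hz1]; ring
    rw [e7, e8]; ring
  have e9 : ‖conj (Hx z) + I * conj (Hy z)‖ = |(Hx z).re + (Hy z).im| := by
    rw [e5, Complex.norm_real, Real.norm_eq_abs]
  change ‖conj (Hx z) + I * conj (Hy z)‖ ≤ _
  rw [e9]
  exact alg_final hs (AfM.nsq (h z)) (hk.one _ hs.le) hkd0 hkd1 hT0 hkd2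
    (by linarith) e6 (norm_nonneg _)

end MPfa.Reg
end
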